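import Mathlib

section

/-!
# Base change for automorphisms of polynomial rings
-/

set_option autoImplicit false

namespace Pool.Agent.Lib.MP_c052b4_al.JK

open MvPolynomial

universe u v

variable {R : Type u} {S : Type v} [CommRing R] [CommRing S]

/-- base change of an endomorphism -/
noncomputable def bcHom (φ : R →+* S) (σ : MvPolynomial (Fin 2) R →ₐ[R] MvPolynomial (Fin 2) R) :
    MvPolynomial (Fin 2) S →ₐ[S] MvPolynomial (Fin 2) S :=
  aeval fun v => map φ (σ (X v))

/-- Proof: both sides are ring homomorphisms in `p`; compare on constants and variables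
(`MvPolynomial.ringHom_ext`). -/
theorem bcHom_map (φ : R →+* S) (σ : MvPolynomial (Fin 2) R →ₐ[R] MvPolynomial (Fin 2) R)
    (p : MvPolynomial (Fin 2) R) : bcHom φ σ (map φ p) = map φ (σ p) := by
  have h : ((bcHom φ σ : MvPolynomial (Fin 2) S →+* MvPolynomial (Fin 2) S).comp (map φ)) =
      ((map φ).comp (σ : MvPolynomial (Fin 2) R →+* MvPolynomial (Fin 2) R)) := by
    apply MvPolynomial.ringHom_ext
    · intro r
      show bcHom φ σ (map φ (C r)) = map φ (σ (C r))
      rw [map_C, ← algebraMap_eq, ← algebraMap_eq, AlgHom.commutes, AlgHom.commutes, algebraMap_eq,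
        algebraMap_eq, map_C]
    · intro i
      show bcHom φ σ (map φ (X i)) = map φ (σ (X i))
      rw [map_X]
      unfold bcHom
      rw [aeval_X]
  exact RingHom.congr_fun h p

private theorem baseCh_comp (φ : R →+* S) (σ τ : MvPolynomial (Fin 2) R →ₐ[R] MvPolynomial (Fin 2) R) :
    bcHom φ (σ.comp τ) = (bcHom φ σ).comp (bcHom φ τ) := by
  apply MvPolynomial.algHom_ext
  intro i
  have h1 : bcHom φ (σ.comp τ) (X i) = map φ (σ (τ (X i))) := by
    unfold bcHom
    rw [aeval_X]
    rfl
  have h2 : bcHom φ τ (X i) = map φ (τ (X i)) := by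
    unfold bcHom
    rw [aeval_X]
  rw [AlgHom.comp_apply, h1, h2, bcHom_map]

private theorem baseCh_id (φ : R →+* S) :
    bcHom φ (AlgHom.id R (MvPolynomial (Fin 2) R)) = AlgHom.id S (MvPolynomial (Fin 2) S) := by
  apply MvPolynomial.algHom_ext
  intro i
  unfold bcHom
  rw [aeval_X, AlgHom.id_apply, AlgHom.id_apply, map_X]

private noncomputable def baseCh_equiv (φ : R →+* S)
    (σ : MvPolynomial (Fin 2) R ≃ₐ[R] MvPolynomial (Fin 2) R) :
    MvPolynomial (Fin 2) S ≃ₐ[S] MvPolynomial (Fin 2) S :=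
  AlgEquiv.ofAlgHom (bcHom φ (σ : MvPolynomial (Fin 2) R →ₐ[R] MvPolynomial (Fin 2) R))
    (bcHom φ (σ.symm : MvPolynomial (Fin 2) R →ₐ[R] MvPolynomial (Fin 2) R))
    (by rw [← baseCh_comp, AlgEquiv.comp_symm, baseCh_id])
    (by rw [← baseCh_comp, AlgEquiv.symm_comp, baseCh_id])

/-- **Base change**: an injective homomorphism of commutative rings gives an injective homomorphism
of the automorphism groups of the polynomial rings. Proof: `σ ↦ bcHom φ σ` is multiplicative by
`bcHom_map`; `AlgEquiv.ofAlgHom` with inverse `bcHom φ σ⁻¹`. Injective: `map_injective`. -/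
theorem exists_baseChange (φ : R →+* S) (hφ : Function.Injective φ) :
    ∃ f : (MvPolynomial (Fin 2) R ≃ₐ[R] MvPolynomial (Fin 2) R) →*
      (MvPolynomial (Fin 2) S ≃ₐ[S] MvPolynomial (Fin 2) S), Function.Injective f := by
  refine ⟨
    { toFun := baseCh_equiv φ
      map_one' := ?_
      map_mul' := ?_ }, ?_⟩
  · apply AlgEquiv.ext
    intro p
    show bcHom φ (AlgHom.id R (MvPolynomial (Fin 2) R)) p = p
    rw [baseCh_id]
    rfl
  · intro σ τ
    apply AlgEquiv.ext
    intro p
    show bcHom φ ((σ : MvPolynomial (Fin 2) R →ₐ[R] MvPolynomial (Fin 2) R).comp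
      (τ : MvPolynomial (Fin 2) R →ₐ[R] MvPolynomial (Fin 2) R)) p = _
    rw [baseCh_comp]
    rfl
  · intro σ τ h
    apply AlgEquiv.ext
    intro p
    have h1 : baseCh_equiv φ σ (map φ p) = baseCh_equiv φ τ (map φ p) := by
      have h2 : baseCh_equiv φ σ = baseCh_equiv φ τ := h
      rw [h2]
    have h3 : bcHom φ (σ : MvPolynomial (Fin 2) R →ₐ[R] MvPolynomial (Fin 2) R) (map φ p) =
      bcHom φ (τ : MvPolynomial (Fin 2) R →ₐ[R] MvPolynomial (Fin 2) R) (map φ p) := h1
    rw [bcHom_map, bcHom_map] at h3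
    exact map_injective φ hφ h3

end Pool.Agent.Lib.MP_c052b4_al.JK
end

section

/-!
# Base change for automorphisms of polynomial rings, II
-/

set_option autoImplicit false

namespace Pool.Agent.Lib.MP_c052b4_al.JK

open MvPolynomial

universe u v

/-- automorphisms of the polynomial ring in two variables over a commutative ring -/
abbrev PAut (R : Type u) [CommRing R] : Type u := MvPolynomial (Fin 2) R ≃ₐ[R] MvPolynomial (Fin 2) R

variable {R : Type u} {S : Type v} [CommRing R] [CommRing S]

theorem bcHom_X (φ : R →+* S) (σ : MvPolynomial (Fin 2) R →ₐ[R] MvPolynomial (Fin 2) R)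
    (v : Fin 2) : bcHom φ σ (X v) = map φ (σ (X v)) := by
  unfold bcHom
  rw [aeval_X]

theorem bcHom_comp (φ : R →+* S) (σ τ : MvPolynomial (Fin 2) R →ₐ[R] MvPolynomial (Fin 2) R) :
    bcHom φ (σ.comp τ) = (bcHom φ σ).comp (bcHom φ τ) := by
  apply MvPolynomial.algHom_ext
  intro i
  rw [AlgHom.comp_apply, bcHom_X, bcHom_X, bcHom_map]
  rfl

theorem bcHom_id (φ : R →+* S) :
    bcHom φ (AlgHom.id R (MvPolynomial (Fin 2) R)) = AlgHom.id S (MvPolynomial (Fin 2) S) := by
  apply MvPolynomial.algHom_ext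
  intro i
  rw [bcHom_X, AlgHom.id_apply, AlgHom.id_apply, map_X]

/-- base change of an automorphism -/
noncomputable def bcEquiv (φ : R →+* S) (σ : PAut R) : PAut S :=
  AlgEquiv.ofAlgHom (bcHom φ (σ : MvPolynomial (Fin 2) R →ₐ[R] MvPolynomial (Fin 2) R))
    (bcHom φ (σ.symm : MvPolynomial (Fin 2) R →ₐ[R] MvPolynomial (Fin 2) R))
    (by rw [← bcHom_comp, AlgEquiv.comp_symm, bcHom_id])
    (by rw [← bcHom_comp, AlgEquiv.symm_comp, bcHom_id])

/-- base change as a homomorphism of groups -/
noncomputable def bc (φ : R →+* S) : PAut R →* PAut S where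
  toFun := bcEquiv φ
  map_one' := by
    apply AlgEquiv.ext
    intro p
    show bcHom φ (AlgHom.id R (MvPolynomial (Fin 2) R)) p = p
    rw [bcHom_id]
    rfl
  map_mul' := by
    intro σ τ
    apply AlgEquiv.ext
    intro p
    show bcHom φ ((σ : MvPolynomial (Fin 2) R →ₐ[R] MvPolynomial (Fin 2) R).comp
      (τ : MvPolynomial (Fin 2) R →ₐ[R] MvPolynomial (Fin 2) R)) p = _
    rw [bcHom_comp]
    rfl

theorem bc_map (φ : R →+* S) (σ : PAut R) (p : MvPolynomial (Fin 2) R) :
    bc φ σ (map φ p) = map φ (σ p) :=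
  bcHom_map φ (σ : MvPolynomial (Fin 2) R →ₐ[R] MvPolynomial (Fin 2) R) p

theorem bc_X (φ : R →+* S) (σ : PAut R) (v : Fin 2) : bc φ σ (X v) = map φ (σ (X v)) := by
  have := bc_map φ σ (X v)
  rwa [map_X] at this

theorem paut_ext {σ τ : PAut R} (h : ∀ v, σ (X v) = τ (X v)) : σ = τ := by
  have h1 : (σ : MvPolynomial (Fin 2) R →ₐ[R] MvPolynomial (Fin 2) R) = τ := algHom_ext h
  apply AlgEquiv.ext
  intro p
  exact DFunLike.congr_fun h1 p

theorem bc_injective (φ : R →+* S) (hφ : Function.Injective φ) : Function.Injective (bc φ) := by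
  intro σ τ h
  refine paut_ext fun v => map_injective φ hφ ?_
  rw [← bc_X, ← bc_X, h]

end Pool.Agent.Lib.MP_c052b4_al.JK
end

section

/-!
# Coherent trees, I01: integral automorphisms of polynomial rings
-/

set_option autoImplicit false
set_option linter.unusedVariables false
set_option linter.unusedSectionVars false

namespace Pool.Agent.Lib.MP_c052b4_al.CT

open MvPolynomial
open Pool.Agent.Lib.MP_c052b4_al.JK

universe u

variable {R : Type u} [CommRing R]

/-- `f` lies in a finitely generated additive subgroup which is stable under `σ`. -/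
def IntEl (σ : PAut R) (f : MvPolynomial (Fin 2) R) : Prop :=
  ∃ N : Submodule ℤ (MvPolynomial (Fin 2) R), N.FG ∧ f ∈ N ∧ ∀ g ∈ N, σ g ∈ N

/-- The automorphism `σ` is integral: every polynomial lies in a finitely generated additive
subgroup which is stable under `σ`. -/
def LocInt (σ : PAut R) : Prop := ∀ f : MvPolynomial (Fin 2) R, IntEl σ f

/-- Proof: the sum `N ⊔ N'` (`Submodule.FG.sup`, `Submodule.mem_sup`). -/
theorem IntEl.add {σ : PAut R} {f g : MvPolynomial (Fin 2) R} (hf : IntEl σ f) (hg : IntEl σ g) :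
    IntEl σ (f + g) := by
  obtain ⟨N, hN, hfN, hsN⟩ := hf
  obtain ⟨N', hN', hgN, hsN'⟩ := hg
  refine ⟨N ⊔ N', hN.sup hN', Submodule.add_mem_sup hfN hgN, fun x hx => ?_⟩
  obtain ⟨a, ha, b, hb, rfl⟩ := Submodule.mem_sup.1 hx
  rw [map_add]
  exact Submodule.add_mem_sup (hsN a ha) (hsN' b hb)

/-- Proof: the product `N * N'` of submodules of a `ℤ`-algebra (`Submodule.FG.mul`,
`Submodule.mul_induction_on`). -/
theorem IntEl.mul {σ : PAut R} {f g : MvPolynomial (Fin 2) R} (hf : IntEl σ f) (hg : IntEl σ g) :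
    IntEl σ (f * g) := by
  obtain ⟨N, hN, hfN, hsN⟩ := hf
  obtain ⟨N', hN', hgN, hsN'⟩ := hg
  refine ⟨N * N', hN.mul hN', Submodule.mul_mem_mul hfN hgN, fun x hx => ?_⟩
  induction hx using Submodule.mul_induction_on' with
  | mem_mul_mem a ha b hb =>
    rw [map_mul]
    exact Submodule.mul_mem_mul (hsN a ha) (hsN' b hb)
  | add a ha b hb iha ihb =>
    rw [map_add]
    exact Submodule.add_mem _ iha ihb

/-- Proof: `N = ℤ ∙ C a`, `σ (C a) = C a`. -/
theorem intEl_C (σ : PAut R) (a : R) : IntEl σ (C a) := by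
  refine ⟨Submodule.span ℤ {C a}, Submodule.fg_span (Set.finite_singleton _),
    Submodule.subset_span rfl, fun g hg => ?_⟩
  obtain ⟨n, rfl⟩ := Submodule.mem_span_singleton.1 hg
  rw [map_zsmul]
  have h1 : σ (C a) = C a := σ.commutes a
  rw [h1]
  exact Submodule.smul_mem _ _ (Submodule.subset_span rfl)

/-- Proof: induction on the polynomial with `intEl_C`, `IntEl.add`, `IntEl.mul`
(`MvPolynomial.induction_on`). -/
theorem locInt_of_X {σ : PAut R} (h : ∀ v, IntEl σ (X v)) : LocInt σ := by
  intro f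
  induction f using MvPolynomial.induction_on with
  | C a => exact intEl_C σ a
  | add p q hp hq => exact hp.add hq
  | mul_X p n hp => exact hp.mul (h n)

/-- Integrality is invariant under conjugation.
Proof: for `f` take `N` for `s⁻¹ f` and `s⁻¹ σ s`; the image `s N` (`Submodule.map` of the additive
map `s`) contains `f` and is stable under `σ`. -/
theorem LocInt.conj {σ s : PAut R} (h : LocInt (s⁻¹ * σ * s)) : LocInt σ := by
  intro f
  obtain ⟨N, hN, hfN, hsN⟩ := h (s⁻¹ f)
  let e : MvPolynomial (Fin 2) R →ₗ[ℤ] MvPolynomial (Fin 2) R :=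
    ((s : MvPolynomial (Fin 2) R ≃ₐ[R] MvPolynomial (Fin 2) R).toRingEquiv.toAddEquiv.toAddMonoidHom).toIntLinearMap
  have he : ∀ x, e x = s x := fun x => rfl
  have hs1 : ∀ x : MvPolynomial (Fin 2) R, s (s⁻¹ x) = x := fun x => by
    have := AlgEquiv.mul_apply s s⁻¹ x
    rw [mul_inv_cancel] at this
    exact this.symm
  have hs2 : ∀ x : MvPolynomial (Fin 2) R, s⁻¹ (s x) = x := fun x => by
    have := AlgEquiv.mul_apply s⁻¹ s x
    rw [inv_mul_cancel] at this
    exact this.symm
  refine ⟨N.map e, hN.map e, ⟨s⁻¹ f, hfN, hs1 f⟩, ?_⟩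
  rintro g ⟨x, hx, rfl⟩
  refine ⟨(s⁻¹ * σ * s) x, hsN x hx, ?_⟩
  rw [he, he, AlgEquiv.mul_apply, AlgEquiv.mul_apply, hs1]

/-- Finite order implies integrality.
Proof: `N` = the span of `σ ^ i f`, `i < n`, where `σ ^ n = 1`, `n > 0`. -/
theorem locInt_of_finOrder {σ : PAut R} (h : IsOfFinOrder σ) : LocInt σ := by
  intro f
  obtain ⟨n, hn, hσ⟩ := isOfFinOrder_iff_pow_eq_one.1 h
  have hfin : (Set.range fun i : Fin n => (σ ^ (i : ℕ)) f).Finite := Set.finite_range _
  have hmem : ∀ i : ℕ, (σ ^ i) f ∈ Submodule.span ℤ (Set.range fun i : Fin n => (σ ^ (i : ℕ)) f) := by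
    intro i
    have h1 : σ ^ i = σ ^ (i % n) := by
      conv_lhs => rw [← Nat.div_add_mod i n, pow_add, pow_mul, hσ, one_pow, one_mul]
    rw [h1]
    exact Submodule.subset_span ⟨⟨i % n, Nat.mod_lt _ hn⟩, rfl⟩
  refine ⟨Submodule.span ℤ (Set.range fun i : Fin n => (σ ^ (i : ℕ)) f), Submodule.fg_span hfin, ?_, ?_⟩
  · have := hmem 0
    rw [pow_zero] at this
    exact this
  · intro g hg
    induction hg using Submodule.span_induction with
    | mem x hx =>
      obtain ⟨i, rfl⟩ := hx
      have h2 := hmem ((i : ℕ) + 1)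
      rw [pow_succ', AlgEquiv.mul_apply] at h2
      exact h2
    | zero => rw [map_zero]; exact Submodule.zero_mem _
    | add x y hx hy ihx ihy => rw [map_add]; exact Submodule.add_mem _ ihx ihy
    | smul a x hx ih => rw [map_zsmul]; exact Submodule.smul_mem _ _ ih

end Pool.Agent.Lib.MP_c052b4_al.CT
end

section

/-!
# Coherent trees, I07: positive characteristic
-/

set_option autoImplicit false
set_option linter.unusedVariables false
set_option linter.unusedSectionVars false

namespace Pool.Agent.Lib.MP_c052b4_al.CT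

open MvPolynomial
open Pool.Agent.Lib.MP_c052b4_al.JK

universe u

variable {R : Type u} [CommRing R]

/-- **In positive characteristic integral automorphisms have finite order.**
Proof: let `X v ∈ M v`, `M v` finitely generated and stable. `N • M v = 0` as `(N : R) = 0`, so `M v` is
finite (a finitely generated `ℤ`-module killed by `N > 0` is finite: it is a finitely generated module over
`ZMod N`, or a finitely generated torsion abelian group: `AddCommGroup` with `Module.Finite ℤ` and
`Module.IsTorsion`; or: the images of `Fin k → ZMod N`). The powers `(σ ^ i) (X v)` are in `M v`, so there are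
`i < j` with `(σ ^ i) (X v) = (σ ^ j) (X v)`, so `(σ ^ (j - i)) (X v) = X v`. The product of these exponents
for `v = 0, 1` is a period of `σ` (`paut_ext`). -/
theorem finOrder_of_locInt (N : ℕ) (hN : 0 < N) (hR : (N : R) = 0) {σ : PAut R}
    (h : LocInt σ) : IsOfFinOrder σ := by
  have key : ∀ v : Fin 2, ∃ k : ℕ, 0 < k ∧ (σ ^ k) (X v) = X v := by
    intro v
    obtain ⟨M, hM, hv, hs⟩ := h (X v)
    have hfin : Module.Finite ℤ M := Module.Finite.iff_fg.mpr hM
    have htor : Module.IsTorsion ℤ M := by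
      intro x
      refine ⟨⟨(N : ℤ), ?_⟩, ?_⟩
      · exact mem_nonZeroDivisors_of_ne_zero (by exact_mod_cast hN.ne')
      · apply Subtype.ext
        change ((N : ℤ) • (x : MvPolynomial (Fin 2) R)) = 0
        rw [natCast_zsmul, nsmul_eq_mul]
        have h1 : ((N : ℕ) : MvPolynomial (Fin 2) R) = 0 := by
          rw [← map_natCast (C : R →+* MvPolynomial (Fin 2) R), hR, map_zero]
        rw [h1, zero_mul]
    have hF : Finite M := Module.finite_of_fg_torsion M htor
    have hmem : ∀ i : ℕ, (σ ^ i) (X v) ∈ M := by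
      intro i
      induction i with
      | zero => rw [pow_zero]; exact hv
      | succ i ih =>
        rw [pow_succ']
        exact hs _ ih
    obtain ⟨i, j, hij, he⟩ := Finite.exists_ne_map_eq_of_infinite
      (fun i : ℕ => (⟨(σ ^ i) (X v), hmem i⟩ : M))
    have he' : (σ ^ i) (X v) = (σ ^ j) (X v) := congrArg Subtype.val he
    have main : ∀ i j : ℕ, i < j → (σ ^ i) (X v) = (σ ^ j) (X v) →
        ∃ k : ℕ, 0 < k ∧ (σ ^ k) (X v) = X v := by
      intro i j hlt he
      refine ⟨j - i, by omega, ?_⟩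
      apply (σ ^ i).injective
      have h2 : (σ ^ i) ((σ ^ (j - i)) (X v)) = (σ ^ j) (X v) := by
        rw [← AlgEquiv.mul_apply, ← pow_add]
        congr 2
        omega
      rw [h2, he]
    rcases lt_or_gt_of_ne hij with hlt | hlt
    · exact main i j hlt he'
    · exact main j i hlt he'.symm
  obtain ⟨k, hk, hk'⟩ := key 0
  obtain ⟨l, hl, hl'⟩ := key 1
  have hpow : ∀ (v : Fin 2) (k : ℕ), (σ ^ k) (X v) = X v → ∀ m : ℕ, (σ ^ (k * m)) (X v) = X v := by
    intro v k hkv m
    induction m with
    | zero => rw [mul_zero, pow_zero]; rfl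
    | succ m ih =>
      rw [mul_add, mul_one, pow_add, AlgEquiv.mul_apply, hkv, ih]
  rw [isOfFinOrder_iff_pow_eq_one]
  refine ⟨k * l, Nat.mul_pos hk hl, paut_ext fun v => ?_⟩
  rw [AlgEquiv.one_apply]
  fin_cases v
  · exact hpow 0 k hk' l
  · have := hpow 1 l hl' k
    rw [mul_comm] at this
    exact this

end Pool.Agent.Lib.MP_c052b4_al.CT
end

section

/-!
# Coherent trees, I02: monic equations
-/

set_option autoImplicit false
set_option linter.unusedVariables false
set_option linter.unusedSectionVars false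

namespace Pool.Agent.Lib.MP_c052b4_al.CT

open MvPolynomial
open Pool.Agent.Lib.MP_c052b4_al.JK

universe u

variable {R : Type u} [CommRing R]

/-- An automorphism as an endomorphism of the additive group. -/
noncomputable def endZ (σ : PAut R) : Module.End ℤ (MvPolynomial (Fin 2) R) :=
  (σ : MvPolynomial (Fin 2) R →+* MvPolynomial (Fin 2) R).toAddMonoidHom.toIntLinearMap

theorem endZ_apply (σ : PAut R) (f : MvPolynomial (Fin 2) R) : endZ σ f = σ f := rfl

/-- Proof: let `N ∋ p(σ) f` be finitely generated and stable, `n = p.natDegree`. The submodule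
`N + span {σ ^ i f | i < n}` is finitely generated and contains `f` (if `n = 0` then `p = 1` and
`f = p(σ) f ∈ N`); it is stable: `σ ^ n f = p(σ) f - ∑ i < n, p.coeff i • σ ^ i f`
(`Polynomial.aeval_eq_sum_range`, `Polynomial.Monic.coeff_natDegree`). -/
theorem intEl_of_monic {σ : PAut R} {f : MvPolynomial (Fin 2) R} (p : Polynomial ℤ)
    (hp : p.Monic) (h : IntEl σ (Polynomial.aeval (endZ σ) p f)) : IntEl σ f := by
  obtain ⟨N, hN, hf, hst⟩ := h
  set S : Submodule ℤ (MvPolynomial (Fin 2) R) :=
    Submodule.span ℤ (Set.range fun i : Fin p.natDegree => ((endZ σ) ^ (i : ℕ)) f) with hS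
  have hmem : ∀ i : ℕ, i < p.natDegree → ((endZ σ) ^ i) f ∈ N ⊔ S := fun i hi =>
    Submodule.mem_sup_right (Submodule.subset_span ⟨⟨i, hi⟩, rfl⟩)
  have htop : ((endZ σ) ^ p.natDegree) f ∈ N ⊔ S := by
    have h1 : Polynomial.aeval (endZ σ) p f =
        (∑ i ∈ Finset.range p.natDegree, p.coeff i • ((endZ σ) ^ i) f) +
          ((endZ σ) ^ p.natDegree) f := by
      rw [Polynomial.aeval_eq_sum_range, Finset.sum_range_succ, hp.coeff_natDegree, one_smul,
        LinearMap.add_apply, LinearMap.sum_apply]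
      rfl
    have h2 : ((endZ σ) ^ p.natDegree) f = Polynomial.aeval (endZ σ) p f -
        ∑ i ∈ Finset.range p.natDegree, p.coeff i • ((endZ σ) ^ i) f := by
      rw [h1]
      abel
    rw [h2]
    exact Submodule.sub_mem _ (Submodule.mem_sup_left hf)
      (Submodule.sum_mem _ fun i hi =>
        Submodule.smul_mem _ _ (hmem i (Finset.mem_range.1 hi)))
  refine ⟨N ⊔ S, hN.sup (Submodule.fg_span (Set.finite_range _)), ?_, ?_⟩
  · rcases Nat.eq_zero_or_pos p.natDegree with h0 | h0
    · have : ((endZ σ) ^ p.natDegree) f = f := by rw [h0, pow_zero]; rfl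
      rw [this] at htop
      exact htop
    · have := hmem 0 h0
      rw [pow_zero] at this
      exact this
  · have hle : N ⊔ S ≤ (N ⊔ S).comap (endZ σ) := by
      refine sup_le (fun g hg => Submodule.mem_comap.2 (Submodule.mem_sup_left (hst g hg))) ?_
      rw [hS, Submodule.span_le]
      rintro _ ⟨i, rfl⟩
      have h3 : (endZ σ) (((endZ σ) ^ (i : ℕ)) f) = ((endZ σ) ^ ((i : ℕ) + 1)) f := by
        rw [pow_succ']
        rfl
      change (endZ σ) (((endZ σ) ^ (i : ℕ)) f) ∈ N ⊔ S
      rw [h3]
      rcases Nat.lt_or_ge ((i : ℕ) + 1) p.natDegree with h4 | h4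
      · exact hmem _ h4
      · have h5 : (i : ℕ) + 1 = p.natDegree := le_antisymm i.2 h4
        rw [h5]
        exact htop
    exact fun g hg => hle hg

/-- Proof: `N` is a finitely generated `ℤ`-module with an endomorphism (`LinearMap.restrict`), so this
endomorphism is integral over `ℤ` (`LinearMap.exists_monic_and_aeval_eq_zero`, or
`Module.End.isIntegral`); apply the equation to `f`. -/
theorem IntEl.exists_monic {σ : PAut R} {f : MvPolynomial (Fin 2) R} (h : IntEl σ f) :
    ∃ p : Polynomial ℤ, p.Monic ∧ Polynomial.aeval (endZ σ) p f = 0 := by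
  obtain ⟨N, hN, hf, hst⟩ := h
  have hres : ∀ x ∈ N, (endZ σ) x ∈ N := fun x hx => hst x hx
  have : Module.Finite ℤ N := Module.Finite.iff_fg.2 hN
  obtain ⟨p, hp, h0⟩ := LinearMap.exists_monic_and_aeval_eq_zero ℤ ((endZ σ).restrict hres)
  refine ⟨p, hp, ?_⟩
  have hpow : ∀ (i : ℕ) (x : N),
      ((((endZ σ).restrict hres) ^ i) x : MvPolynomial (Fin 2) R) = ((endZ σ) ^ i) (x : _) := by
    intro i
    induction i with
    | zero => intro x; rfl
    | succ i ih =>
      intro x
      rw [pow_succ, pow_succ]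
      exact ih (((endZ σ).restrict hres) x)
  have h1 : ((Polynomial.aeval ((endZ σ).restrict hres) p ⟨f, hf⟩ : N) :
      MvPolynomial (Fin 2) R) = Polynomial.aeval (endZ σ) p f := by
    rw [Polynomial.aeval_eq_sum_range, Polynomial.aeval_eq_sum_range, LinearMap.sum_apply,
      LinearMap.sum_apply, AddSubmonoidClass.coe_finsetSum]
    refine Finset.sum_congr rfl fun i _ => ?_
    rw [LinearMap.smul_apply, LinearMap.smul_apply, SetLike.val_smul, hpow]
  rw [← h1, h0]
  rfl

end Pool.Agent.Lib.MP_c052b4_al.CT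
end

section

/-!
# Weights and leading forms
-/

set_option autoImplicit false

namespace Pool.Agent.Lib.MP_c052b4_al.JK

open MvPolynomial

universe u

variable {K : Type u} [Field K] {σ : Type*} (w : σ → ℚ)

/-- all monomials of `p` have weight at most `q` -/
def Wle (q : ℚ) (p : MvPolynomial σ K) : Prop := ∀ d, coeff d p ≠ 0 → Finsupp.weight w d ≤ q

/-- the component of weight `q` -/
noncomputable def top (q : ℚ) (p : MvPolynomial σ K) : MvPolynomial σ K :=
  weightedHomogeneousComponent w q p

theorem coeff_top (q : ℚ) (p : MvPolynomial σ K) (d : σ →₀ ℕ) :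
    coeff d (top w q p) = if Finsupp.weight w d = q then coeff d p else 0 := by
  classical
  exact coeff_weightedHomogeneousComponent _ _ _

variable {w}

theorem Wle.mono {q r : ℚ} (hqr : q ≤ r) {p : MvPolynomial σ K} (h : Wle w q p) : Wle w r p :=
  fun d hd => (h d hd).trans hqr

theorem wle_zero (q : ℚ) : Wle w q (0 : MvPolynomial σ K) := fun d hd => (hd (coeff_zero d)).elim

theorem Wle.add {q : ℚ} {p s : MvPolynomial σ K} (hp : Wle w q p) (hs : Wle w q s) :
    Wle w q (p + s) := by
  intro d hd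
  rw [coeff_add] at hd
  by_cases h : coeff d p = 0
  · rw [h, zero_add] at hd
    exact hs d hd
  · exact hp d h

theorem Wle.sum {ι : Type*} {q : ℚ} (s : Finset ι) {f : ι → MvPolynomial σ K}
    (h : ∀ i ∈ s, Wle w q (f i)) : Wle w q (∑ i ∈ s, f i) := by
  classical
  induction s using Finset.induction_on with
  | empty => rw [Finset.sum_empty]; exact wle_zero q
  | insert a s ha ih =>
    rw [Finset.sum_insert ha]
    exact (h a (Finset.mem_insert_self a s)).add
      (ih fun i hi => h i (Finset.mem_insert_of_mem hi))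

theorem wle_monomial (d : σ →₀ ℕ) (c : K) : Wle w (Finsupp.weight w d) (monomial d c) := by
  classical
  intro e he
  rw [coeff_monomial] at he
  split_ifs at he with h
  · rw [h]
  · exact (he rfl).elim

theorem Wle.mul {q r : ℚ} {p s : MvPolynomial σ K} (hp : Wle w q p) (hs : Wle w r s) :
    Wle w (q + r) (p * s) := by
  classical
  intro d hd
  rw [coeff_mul] at hd
  obtain ⟨x, hx, hne⟩ := Finset.exists_ne_zero_of_sum_ne_zero hd
  have h1 : coeff x.1 p ≠ 0 := left_ne_zero_of_mul hne
  have h2 : coeff x.2 s ≠ 0 := right_ne_zero_of_mul hne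
  rw [← Finset.HasAntidiagonal.mem_antidiagonal.1 hx, map_add]
  exact add_le_add (hp _ h1) (hs _ h2)

theorem top_mul {q r : ℚ} {p s : MvPolynomial σ K} (hp : Wle w q p) (hs : Wle w r s) :
    top w (q + r) (p * s) = top w q p * top w r s := by
  classical
  ext d
  rw [coeff_top, coeff_mul, coeff_mul]
  by_cases hd : Finsupp.weight w d = q + r
  · rw [if_pos hd]
    refine Finset.sum_congr rfl (fun x hx => ?_)
    rw [coeff_top, coeff_top]
    have hsum : Finsupp.weight w x.1 + Finsupp.weight w x.2 = q + r := by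
      rw [← map_add, Finset.HasAntidiagonal.mem_antidiagonal.1 hx, hd]
    by_cases h1 : coeff x.1 p = 0
    · rw [h1, ite_self, zero_mul, zero_mul]
    by_cases h2 : coeff x.2 s = 0
    · rw [h2, ite_self, mul_zero, mul_zero]
    have h3 := hp _ h1
    have h4 := hs _ h2
    rw [if_pos (by linarith), if_pos (by linarith)]
  · rw [if_neg hd]
    symm
    refine Finset.sum_eq_zero (fun x hx => ?_)
    rw [coeff_top, coeff_top]
    by_cases h1 : Finsupp.weight w x.1 = q
    · by_cases h2 : Finsupp.weight w x.2 = r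
      · exact (hd (by rw [← Finset.HasAntidiagonal.mem_antidiagonal.1 hx, map_add, h1, h2])).elim
      · rw [if_neg h2, mul_zero]
    · rw [if_neg h1, zero_mul]

theorem top_add (q : ℚ) (p s : MvPolynomial σ K) : top w q (p + s) = top w q p + top w q s :=
  map_add _ _ _

theorem top_zero (q : ℚ) : top w q (0 : MvPolynomial σ K) = 0 := map_zero _

theorem top_sum {ι : Type*} (q : ℚ) (s : Finset ι) (f : ι → MvPolynomial σ K) :
    top w q (∑ i ∈ s, f i) = ∑ i ∈ s, top w q (f i) := map_sum _ _ _

theorem top_of_lt {q r : ℚ} (hqr : q < r) {p : MvPolynomial σ K} (h : Wle w q p) :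
    top w r p = 0 := by
  ext d
  rw [coeff_top, coeff_zero]
  split_ifs with hd
  · by_contra hne
    have := h d hne
    linarith
  · rfl

theorem top_monomial_self (d : σ →₀ ℕ) (c : K) :
    top w (Finsupp.weight w d) (monomial d c) = monomial d c := by
  classical
  ext e
  rw [coeff_top, coeff_monomial]
  split_ifs with h1 h2 h2
  · rfl
  · rfl
  · subst h2
    exact (h1 rfl).elim
  · rfl

theorem top_monomial_ne {q : ℚ} (d : σ →₀ ℕ) (c : K) (h : Finsupp.weight w d ≠ q) :
    top w q (monomial d c) = 0 := by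
  classical
  ext e
  rw [coeff_top, coeff_monomial, coeff_zero]
  split_ifs with h1 h2
  · subst h2
    exact (h h1).elim
  · rfl
  · rfl

theorem wle_C (c : K) : Wle w 0 (C c : MvPolynomial σ K) := by
  have := wle_monomial (w := w) (0 : σ →₀ ℕ) c
  rw [map_zero] at this
  exact this

theorem top_C (c : K) : top w 0 (C c : MvPolynomial σ K) = C c := by
  have := top_monomial_self (w := w) (0 : σ →₀ ℕ) c
  rw [map_zero] at this
  exact this

theorem wle_X (v : σ) : Wle w (w v) (X v : MvPolynomial σ K) := by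
  have := wle_monomial (w := w) (Finsupp.single v 1) (1 : K)
  rw [Finsupp.weight_single, one_smul] at this
  exact this

theorem top_X (v : σ) : top w (w v) (X v : MvPolynomial σ K) = X v := by
  have := top_monomial_self (w := w) (Finsupp.single v 1) (1 : K)
  rw [Finsupp.weight_single, one_smul] at this
  exact this

theorem Wle.top {q r : ℚ} {p : MvPolynomial σ K} (h : Wle w q p) : Wle w q (top w r p) := by
  intro d hd
  rw [coeff_top] at hd
  split_ifs at hd
  · exact h d hd
  · exact (hd rfl).elim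

end Pool.Agent.Lib.MP_c052b4_al.JK
end

section

/-!
# Weights on `A[t]` and leading parts of homomorphisms `A → A[t]`
-/

set_option autoImplicit false

namespace Pool.Agent.Lib.MP_c052b4_al.JK

open MvPolynomial

universe u

variable {K : Type u} [Field K]

/-- the polynomial ring in two variables -/
abbrev A2 (K : Type u) [Field K] : Type u := MvPolynomial (Fin 2) K

variable (w : Fin 2 → ℚ) (τ : ℚ)

/-- weights on `A[t]`: the variable `t` has weight `-τ` -/
def WLE (α : ℚ) (P : Polynomial (A2 K)) : Prop := ∀ i : ℕ, Wle w (α + i * τ) (P.coeff i)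

/-- the component of weight `α` -/
noncomputable def TOP (α : ℚ) (P : Polynomial (A2 K)) : Polynomial (A2 K) :=
  ∑ i ∈ P.support, Polynomial.monomial i (top w (α + i * τ) (P.coeff i))

theorem coeff_TOP (α : ℚ) (P : Polynomial (A2 K)) (i : ℕ) :
    (TOP w τ α P).coeff i = top w (α + i * τ) (P.coeff i) := by
  classical
  rw [TOP, Polynomial.finsetSum_coeff]
  simp only [Polynomial.coeff_monomial]
  rw [Finset.sum_ite_eq' P.support i]
  split_ifs with h
  · rfl
  · rw [Polynomial.notMem_support_iff.1 h, top_zero]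

variable {w τ}

theorem WLE.mul {α β : ℚ} {P Q : Polynomial (A2 K)} (hP : WLE w τ α P) (hQ : WLE w τ β Q) :
    WLE w τ (α + β) (P * Q) := by
  intro k
  rw [Polynomial.coeff_mul]
  refine Wle.sum _ (fun x hx => ?_)
  have h := (hP x.1).mul (hQ x.2)
  have h2 : (x.1 : ℚ) + x.2 = k := by exact_mod_cast Finset.HasAntidiagonal.mem_antidiagonal.1 hx
  have h3 : α + x.1 * τ + (β + x.2 * τ) = α + β + k * τ := by rw [← h2]; ring
  rw [← h3]
  exact h

theorem TOP_mul {α β : ℚ} {P Q : Polynomial (A2 K)} (hP : WLE w τ α P) (hQ : WLE w τ β Q) :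
    TOP w τ (α + β) (P * Q) = TOP w τ α P * TOP w τ β Q := by
  ext1 k
  rw [coeff_TOP, Polynomial.coeff_mul, Polynomial.coeff_mul, top_sum]
  refine Finset.sum_congr rfl (fun x hx => ?_)
  have h2 : (x.1 : ℚ) + x.2 = k := by exact_mod_cast Finset.HasAntidiagonal.mem_antidiagonal.1 hx
  have h3 : α + β + k * τ = α + x.1 * τ + (β + x.2 * τ) := by rw [← h2]; ring
  rw [h3, top_mul (hP x.1) (hQ x.2), coeff_TOP, coeff_TOP]

theorem WLE.add {α : ℚ} {P Q : Polynomial (A2 K)} (hP : WLE w τ α P) (hQ : WLE w τ α Q) :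
    WLE w τ α (P + Q) := by
  intro i
  rw [Polynomial.coeff_add]
  exact (hP i).add (hQ i)

theorem WLE.mono {α β : ℚ} (h : α ≤ β) {P : Polynomial (A2 K)} (hP : WLE w τ α P) :
    WLE w τ β P := fun i => (hP i).mono (by linarith)

theorem TOP_add (α : ℚ) (P Q : Polynomial (A2 K)) :
    TOP w τ α (P + Q) = TOP w τ α P + TOP w τ α Q := by
  ext1 i
  rw [coeff_TOP, Polynomial.coeff_add, Polynomial.coeff_add, top_add, coeff_TOP, coeff_TOP]

theorem TOP_zero (α : ℚ) : TOP w τ α (0 : Polynomial (A2 K)) = 0 := by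
  ext1 i
  rw [coeff_TOP, Polynomial.coeff_zero, top_zero]

theorem TOP_of_lt {α β : ℚ} (h : α < β) {P : Polynomial (A2 K)} (hP : WLE w τ α P) :
    TOP w τ β P = 0 := by
  ext1 i
  rw [coeff_TOP, Polynomial.coeff_zero]
  exact top_of_lt (by linarith) (hP i)

theorem WLE_C {α : ℚ} {a : A2 K} (h : Wle w α a) : WLE w τ α (Polynomial.C a) := by
  intro i
  rw [Polynomial.coeff_C]
  split_ifs with hi
  · subst hi
    rw [Nat.cast_zero, zero_mul, add_zero]
    exact h
  · exact wle_zero _

theorem TOP_C (α : ℚ) (a : A2 K) : TOP w τ α (Polynomial.C a) = Polynomial.C (top w α a) := by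
  ext1 i
  rw [coeff_TOP, Polynomial.coeff_C, Polynomial.coeff_C]
  split_ifs with hi
  · subst hi
    rw [Nat.cast_zero, zero_mul, add_zero]
  · rw [top_zero]

/-- the leading part of a homomorphism `A → A[t]` -/
noncomputable def bar (w : Fin 2 → ℚ) (τ : ℚ) (ψ : A2 K →ₐ[K] Polynomial (A2 K)) :
    A2 K →ₐ[K] Polynomial (A2 K) :=
  aeval (fun v => TOP w τ (w v) (ψ (X v)))

theorem bar_X (ψ : A2 K →ₐ[K] Polynomial (A2 K)) (v : Fin 2) :
    bar w τ ψ (X v) = TOP w τ (w v) (ψ (X v)) := by
  rw [bar, aeval_X]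

theorem alg_C (φ : A2 K →ₐ[K] Polynomial (A2 K)) (c : K) :
    φ (C c) = Polynomial.C (C c) := by
  have := φ.commutes c
  rw [MvPolynomial.algebraMap_eq] at this
  rw [this]
  rfl

/-- the statement for monomials -/
theorem bar_monomial (ψ : A2 K →ₐ[K] Polynomial (A2 K))
    (hψ : ∀ v, WLE w τ (w v) (ψ (X v))) (d : Fin 2 →₀ ℕ) (c : K) :
    WLE w τ (Finsupp.weight w d) (ψ (monomial d c)) ∧
      bar w τ ψ (monomial d c) = TOP w τ (Finsupp.weight w d) (ψ (monomial d c)) := by
  induction d using Finsupp.induction_linear generalizing c with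
  | zero =>
    rw [← C_apply, map_zero, alg_C, alg_C, TOP_C, top_C]
    exact ⟨WLE_C (wle_C c), rfl⟩
  | add d e hd he =>
    have h1 : (monomial (d + e) c : A2 K) = monomial d c * monomial e 1 := by
      rw [monomial_mul, mul_one]
    obtain ⟨h2, h3⟩ := hd c
    obtain ⟨h4, h5⟩ := he 1
    rw [h1, map_mul, map_mul, map_add]
    exact ⟨h2.mul h4, by rw [TOP_mul h2 h4, h3, h5]⟩
  | single v n =>
    have hX : ∀ n : ℕ, WLE w τ (Finsupp.weight w (Finsupp.single v n)) (ψ (X v ^ n)) ∧
        bar w τ ψ (X v ^ n) = TOP w τ (Finsupp.weight w (Finsupp.single v n)) (ψ (X v ^ n)) := by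
      intro n
      induction n with
      | zero =>
        rw [pow_zero, map_one, map_one, Finsupp.single_zero, map_zero]
        have h1 : (1 : Polynomial (A2 K)) = Polynomial.C (C 1) := by rw [C_1, Polynomial.C_1]
        rw [h1, TOP_C, top_C]
        exact ⟨WLE_C (wle_C 1), rfl⟩
      | succ n ih =>
        have hw : Finsupp.weight w (Finsupp.single v (n + 1)) =
            Finsupp.weight w (Finsupp.single v n) + w v := by
          rw [Finsupp.single_add, map_add, Finsupp.weight_single w v 1, one_smul]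
        rw [pow_succ, map_mul, map_mul, hw]
        exact ⟨ih.1.mul (hψ v), by rw [TOP_mul ih.1 (hψ v), ih.2, bar_X]⟩
    have h1 : (monomial (Finsupp.single v n) c : A2 K) = C c * X v ^ n := by
      rw [← C_mul_X_pow_eq_monomial]
    rw [h1, map_mul, map_mul, alg_C, alg_C]
    have h2 := (hX n)
    have h3 : WLE w τ 0 (Polynomial.C (C c : A2 K)) := WLE_C (wle_C c)
    have h4 := TOP_mul h3 h2.1
    rw [zero_add] at h4
    have h5 := h3.mul h2.1
    rw [zero_add] at h5
    exact ⟨h5, by rw [h4, TOP_C, top_C, h2.2]⟩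

/-- the leading part -/
theorem bar_top (ψ : A2 K →ₐ[K] Polynomial (A2 K))
    (hψ : ∀ v, WLE w τ (w v) (ψ (X v))) (q : ℚ) (a : A2 K) (ha : Wle w q a) :
    WLE w τ q (ψ a) ∧ bar w τ ψ (top w q a) = TOP w τ q (ψ a) := by
  classical
  have key : ∀ s : Finset (Fin 2 →₀ ℕ), (∀ d ∈ s, Finsupp.weight w d ≤ q) →
      ∀ b : A2 K, b = ∑ d ∈ s, monomial d (coeff d a) →
      WLE w τ q (ψ b) ∧ bar w τ ψ (top w q b) = TOP w τ q (ψ b) := by
    intro s
    induction s using Finset.induction_on with
    | empty =>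
      intro _ b hb
      rw [Finset.sum_empty] at hb
      subst hb
      rw [map_zero, top_zero, map_zero, TOP_zero]
      exact ⟨fun i => by rw [Polynomial.coeff_zero]; exact wle_zero _, rfl⟩
    | insert d s hd ih =>
      intro hs b hb
      rw [Finset.sum_insert hd] at hb
      obtain ⟨h1, h2⟩ := ih (fun e he => hs e (Finset.mem_insert_of_mem he)) _ rfl
      obtain ⟨h3, h4⟩ := bar_monomial ψ hψ d (coeff d a)
      have hle : Finsupp.weight w d ≤ q := hs d (Finset.mem_insert_self d s)
      have h5 : bar w τ ψ (top w q (monomial d (coeff d a))) =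
          TOP w τ q (ψ (monomial d (coeff d a))) := by
        rcases hle.lt_or_eq with h | h
        · rw [top_monomial_ne d _ (ne_of_lt h), map_zero, TOP_of_lt h h3]
        · rw [← h, top_monomial_self, h4]
      subst hb
      rw [map_add, top_add, map_add, TOP_add, h2, h5]
      exact ⟨(h3.mono hle).add h1, rfl⟩
  refine key a.support (fun d hd => ha d (mem_support_iff.1 hd)) a ?_
  exact (support_sum_monomial_coeff a).symm

end Pool.Agent.Lib.MP_c052b4_al.JK
end

section

/-!
# Automorphisms of the polynomial ring in two variables: affine and triangular ones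
-/

set_option autoImplicit false

namespace Pool.Agent.Lib.MP_c052b4_al.JK

open MvPolynomial

universe u

/-- automorphisms of the polynomial ring in two variables -/
abbrev AutA (K : Type u) [Field K] : Type u := A2 K ≃ₐ[K] A2 K

variable {K : Type u} [Field K]

/-- automorphism from two inverse substitutions -/
noncomputable def mkAut (f g : Fin 2 → A2 K) (h1 : ∀ v, aeval f (g v) = X v)
    (h2 : ∀ v, aeval g (f v) = X v) : AutA K :=
  AlgEquiv.ofAlgHom (aeval f) (aeval g)
    (algHom_ext fun v => by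
      rw [AlgHom.comp_apply, aeval_X, AlgHom.id_apply]
      exact h1 v)
    (algHom_ext fun v => by
      rw [AlgHom.comp_apply, aeval_X, AlgHom.id_apply]
      exact h2 v)

theorem mkAut_X (f g : Fin 2 → A2 K) (h1 : ∀ v, aeval f (g v) = X v)
    (h2 : ∀ v, aeval g (f v) = X v) (v : Fin 2) : mkAut f g h1 h2 (X v) = f v := by
  show aeval f (X v) = f v
  rw [aeval_X]

/-- two automorphisms which agree on the variables are equal -/
theorem aut_ext {σ τ : AutA K} (h : ∀ v, σ (X v) = τ (X v)) : σ = τ := by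
  have h1 : (σ : A2 K →ₐ[K] A2 K) = τ := algHom_ext h
  ext1 p
  exact DFunLike.congr_fun h1 p

/-- the shear `x ↦ x + P(y)` -/
noncomputable def sh (P : Polynomial K) : AutA K :=
  mkAut ![X 0 + Polynomial.aeval (X 1) P, X 1] ![X 0 - Polynomial.aeval (X 1) P, X 1]
    (by
      intro v
      fin_cases v
      · have h : aeval ![X 0 + Polynomial.aeval (X 1) P, X 1]
            (Polynomial.aeval (X 1 : A2 K) P) = Polynomial.aeval (X 1 : A2 K) P := by
          rw [← Polynomial.aeval_algHom_apply, aeval_X]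
          rfl
        show aeval _ (X 0 - Polynomial.aeval (X 1) P) = _
        rw [map_sub, aeval_X, h]
        show X 0 + Polynomial.aeval (X 1) P - _ = _
        rw [add_sub_cancel_right]
        rfl
      · show aeval _ (X 1) = _
        rw [aeval_X]
        rfl)
    (by
      intro v
      fin_cases v
      · have h : aeval ![X 0 - Polynomial.aeval (X 1) P, X 1]
            (Polynomial.aeval (X 1 : A2 K) P) = Polynomial.aeval (X 1 : A2 K) P := by
          rw [← Polynomial.aeval_algHom_apply, aeval_X]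
          rfl
        show aeval _ (X 0 + Polynomial.aeval (X 1) P) = _
        rw [map_add, aeval_X, h]
        show X 0 - Polynomial.aeval (X 1) P + _ = _
        rw [sub_add_cancel]
        rfl
      · show aeval _ (X 1) = _
        rw [aeval_X]
        rfl)

theorem sh_X0 (P : Polynomial K) : sh P (X 0) = X 0 + Polynomial.aeval (X 1) P := mkAut_X _ _ _ _ 0

theorem sh_X1 (P : Polynomial K) : sh P (X 1) = X 1 := mkAut_X _ _ _ _ 1

/-- the exchange of the variables -/
noncomputable def swp (K : Type u) [Field K] : AutA K :=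
  mkAut ![X 1, X 0] ![X 1, X 0]
    (by intro v; fin_cases v <;> simp) (by intro v; fin_cases v <;> simp)

theorem swp_X0 : swp K (X 0) = X 1 := mkAut_X _ _ _ _ 0

theorem swp_X1 : swp K (X 1) = X 0 := mkAut_X _ _ _ _ 1

/-- affine automorphisms -/
def Aff (K : Type u) [Field K] : Subgroup (AutA K) where
  carrier := {σ | ∀ p : A2 K, (σ p).totalDegree ≤ 1 ↔ p.totalDegree ≤ 1}
  mul_mem' := by
    intro σ τ hσ hτ p
    exact (hσ (τ p)).trans (hτ p)
  one_mem' := fun p => Iff.rfl
  inv_mem' := by
    intro σ hσ p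
    have h := hσ (σ⁻¹ p)
    have h2 : σ (σ⁻¹ p) = p := σ.apply_symm_apply p
    rw [h2] at h
    exact h.symm

/-- being of the form `c y + d` -/
def LinY (p : A2 K) : Prop := ∃ c d : K, p = C c * X 1 + C d

/-- triangular automorphisms -/
def Tri (K : Type u) [Field K] : Subgroup (AutA K) where
  carrier := {σ | ∀ p : A2 K, LinY (σ p) ↔ LinY p}
  mul_mem' := by
    intro σ τ hσ hτ p
    exact (hσ (τ p)).trans (hτ p)
  one_mem' := fun p => Iff.rfl
  inv_mem' := by
    intro σ hσ p
    have h := hσ (σ⁻¹ p)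
    have h2 : σ (σ⁻¹ p) = p := σ.apply_symm_apply p
    rw [h2] at h
    exact h.symm

/-- an automorphism fixes the constants -/
theorem aut_C (σ : AutA K) (c : K) : σ (C c) = C c := by
  have := σ.commutes c
  rw [MvPolynomial.algebraMap_eq] at this
  exact this

end Pool.Agent.Lib.MP_c052b4_al.JK
end

section

/-!
# Affine automorphisms
-/

set_option autoImplicit false

namespace Pool.Agent.Lib.MP_c052b4_al.JK

open MvPolynomial

universe u

variable {K : Type u} [Field K]

/-- Proof: the monomials of total degree at most `1` in two variables are `1, x, y`. -/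
theorem exists_lin (p : A2 K) (h : p.totalDegree ≤ 1) :
    ∃ a b c : K, p = C a * X 0 + C b * X 1 + C c := by
  classical
  refine ⟨coeff (Finsupp.single 0 1) p, coeff (Finsupp.single 1 1) p, coeff 0 p, ?_⟩
  ext d
  have hd : d = Finsupp.single 0 (d 0) + Finsupp.single 1 (d 1) := by
    ext i
    fin_cases i <;> simp
  have hdeg : d.degree = d 0 + d 1 := by
    rw [Finsupp.degree_eq_sum, Fin.sum_univ_two]
  rw [coeff_add, coeff_add, coeff_C_mul, coeff_C_mul, coeff_X, coeff_X, coeff_C]
  have hcases : d = 0 ∨ d = Finsupp.single 0 1 ∨ d = Finsupp.single 1 1 ∨ 1 < d 0 + d 1 := by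
    rcases Nat.lt_or_ge 1 (d 0 + d 1) with h1 | h1
    · exact Or.inr (Or.inr (Or.inr h1))
    · have h2 : (d 0 = 0 ∧ d 1 = 0) ∨ (d 0 = 1 ∧ d 1 = 0) ∨ (d 0 = 0 ∧ d 1 = 1) := by omega
      rcases h2 with ⟨h3, h4⟩ | ⟨h3, h4⟩ | ⟨h3, h4⟩
      · left
        rw [hd, h3, h4]
        simp
      · right; left
        rw [hd, h3, h4]
        simp
      · right; right; left
        rw [hd, h3, h4]
        simp
  have e1 : (Finsupp.single 0 1 : Fin 2 →₀ ℕ) ≠ Finsupp.single 1 1 := by
    intro h
    have := DFunLike.congr_fun h 0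
    simp at this
  have e2 : (Finsupp.single 0 1 : Fin 2 →₀ ℕ) ≠ 0 := by
    intro h
    have := DFunLike.congr_fun h 0
    simp at this
  have e3 : (Finsupp.single 1 1 : Fin 2 →₀ ℕ) ≠ 0 := by
    intro h
    have := DFunLike.congr_fun h 1
    simp at this
  rcases hcases with h1 | h1 | h1 | h1
  · rw [h1, if_neg e2, if_neg e3, if_pos rfl, mul_zero, mul_zero, zero_add, zero_add]
  · rw [h1, if_pos rfl, if_neg e1.symm, if_neg e2.symm, mul_one, mul_zero, add_zero, add_zero]
  · rw [h1, if_neg e1, if_pos rfl, if_neg e3.symm, mul_one, mul_zero, add_zero, zero_add]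
  · have h2 : coeff d p = 0 := by
      refine coeff_eq_zero_of_totalDegree_lt (lt_of_le_of_lt h ?_)
      rw [← hdeg] at h1
      exact h1
    rw [h2, if_neg, if_neg, if_neg, mul_zero, mul_zero, add_zero, add_zero]
    · rintro rfl
      simp at h1
    · rintro rfl
      simp at h1
    · rintro rfl
      simp at h1

theorem totalDegree_lin_le (a b c : K) :
    (C a * X 0 + C b * X 1 + C c : A2 K).totalDegree ≤ 1 := by
  have h1 : ∀ (v : Fin 2) (a : K), (C a * X v : A2 K).totalDegree ≤ 1 := by
    intro v a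
    refine (totalDegree_mul _ _).trans ?_
    rw [totalDegree_C, totalDegree_X, zero_add]
  refine (totalDegree_add _ _).trans (max_le ((totalDegree_add _ _).trans
    (max_le (h1 0 a) (h1 1 b))) ?_)
  rw [totalDegree_C]
  exact Nat.zero_le 1

/-- Proof: the space `L` of polynomials of total degree at most `1` has finite dimension, `σ` is
injective and linear and maps `L` to `L` (`exists_lin`, linearity), so it maps `L` onto `L`. Hence if
`σ p ∈ L` then `σ p = σ q` for some `q ∈ L` and `p = q`. (Take `L` = the span of the finite set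
`{1, X 0, X 1}` or the submodule of all `C a * X 0 + C b * X 1 + C c`;
`LinearMap.injective_iff_surjective` for finite-dimensional spaces.) -/
theorem mem_Aff_of (σ : AutA K) (h : ∀ v, (σ (X v)).totalDegree ≤ 1) : σ ∈ Aff K := by
  have hle : ∀ p : A2 K, p.totalDegree ≤ 1 → (σ p).totalDegree ≤ 1 := by
    intro p hp
    obtain ⟨a, b, c, rfl⟩ := exists_lin p hp
    obtain ⟨a0, b0, c0, h0⟩ := exists_lin _ (h 0)
    obtain ⟨a1, b1, c1, h1⟩ := exists_lin _ (h 1)
    rw [map_add, map_add, map_mul, map_mul, aut_C, aut_C, aut_C, h0, h1]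
    have e : (C a * (C a0 * X 0 + C b0 * X 1 + C c0) + C b * (C a1 * X 0 + C b1 * X 1 + C c1) +
        C c : A2 K) = C (a * a0 + b * a1) * X 0 + C (a * b0 + b * b1) * X 1 +
          C (a * c0 + b * c1 + c) := by
      simp only [C_add, C_mul]
      ring
    rw [e]
    exact totalDegree_lin_le _ _ _
  intro p
  refine ⟨fun hp => ?_, hle p⟩
  let L : Submodule K (A2 K) := Submodule.span K {X 0, X 1, 1}
  have hmem : ∀ q : A2 K, q ∈ L ↔ q.totalDegree ≤ 1 := by
    intro q
    rw [Submodule.mem_span_triple]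
    constructor
    · rintro ⟨a, b, c, rfl⟩
      have e : (a • X 0 + b • X 1 + c • 1 : A2 K) = C a * X 0 + C b * X 1 + C c := by
        rw [smul_eq_C_mul, smul_eq_C_mul, smul_eq_C_mul, mul_one]
      rw [e]
      exact totalDegree_lin_le _ _ _
    · intro hq
      obtain ⟨a, b, c, rfl⟩ := exists_lin q hq
      refine ⟨a, b, c, ?_⟩
      rw [smul_eq_C_mul, smul_eq_C_mul, smul_eq_C_mul, mul_one]
  have hfin : FiniteDimensional K L := FiniteDimensional.span_of_finite K (Set.toFinite _)
  have hL : ∀ x ∈ L, σ.toLinearMap x ∈ L := by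
    intro x hx
    rw [hmem] at hx ⊢
    exact hle x hx
  let f : L →ₗ[K] L := σ.toLinearMap.restrict hL
  have hinj : Function.Injective f := by
    intro x y hxy
    apply Subtype.ext
    have h1 := congrArg Subtype.val hxy
    exact σ.injective h1
  have hsurj := LinearMap.injective_iff_surjective.1 hinj
  obtain ⟨⟨q, hq⟩, hqe⟩ := hsurj ⟨σ p, (hmem _).2 hp⟩
  have h1 : σ q = σ p := congrArg Subtype.val hqe
  rw [← σ.injective h1]
  exact (hmem q).1 hq

end Pool.Agent.Lib.MP_c052b4_al.JK
end
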