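import Pool.Agent.Lib.MP_c052b4_al.Mg.G001

section

/-!
# Coherent trees, I06: base change and minimal primes
-/

set_option autoImplicit false
set_option linter.unusedVariables false
set_option linter.unusedSectionVars false

namespace Pool.Agent.Lib.MP_c052b4_al.CT

open MvPolynomial
open Pool.Agent.Lib.MP_c052b4_al.JK

universe u

variable {R S : Type u} [CommRing R] [CommRing S]

/-- the map of polynomial rings as a `ℤ`-linear map -/
noncomputable def i06_m (φ : R →+* S) : MvPolynomial (Fin 2) R →ₗ[ℤ] MvPolynomial (Fin 2) S :=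
  (MvPolynomial.map φ : MvPolynomial (Fin 2) R →+* MvPolynomial (Fin 2) S).toAddMonoidHom.toIntLinearMap

theorem i06_m_apply (φ : R →+* S) (f : MvPolynomial (Fin 2) R) : i06_m φ f = map φ f := rfl

theorem i06_X {M : Type u} [AddCommGroup M] (e : Module.End ℤ M) (q : Polynomial ℤ) (x : M) :
    Polynomial.aeval e (q * Polynomial.X) x = Polynomial.aeval e q (e x) := by
  rw [map_mul, Polynomial.aeval_X, Module.End.mul_apply]

theorem i06_aeval (φ : R →+* S) (σ : PAut R) (p : Polynomial ℤ) :
    ∀ f : MvPolynomial (Fin 2) R, map φ (Polynomial.aeval (endZ σ) p f) =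
      Polynomial.aeval (endZ (bc φ σ)) p (map φ f) := by
  induction p using Polynomial.induction_on with
  | C a =>
    intro f
    rw [Polynomial.aeval_C, Polynomial.aeval_C, Module.algebraMap_end_apply,
      Module.algebraMap_end_apply, ← i06_m_apply, ← i06_m_apply, map_zsmul]
  | add p q hp hq =>
    intro f
    rw [map_add, map_add, LinearMap.add_apply, LinearMap.add_apply, map_add, hp, hq]
  | monomial n a ih =>
    intro f
    rw [pow_succ, ← mul_assoc, i06_X, i06_X, ih, endZ_apply, endZ_apply, bc_map]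

theorem i06_C (σ : PAut R) (a : R) (p : Polynomial ℤ) :
    ∀ f : MvPolynomial (Fin 2) R, Polynomial.aeval (endZ σ) p (C a * f) =
      C a * Polynomial.aeval (endZ σ) p f := by
  induction p using Polynomial.induction_on with
  | C b =>
    intro f
    rw [Polynomial.aeval_C, Module.algebraMap_end_apply, Module.algebraMap_end_apply,
      mul_smul_comm]
  | add p q hp hq =>
    intro f
    rw [map_add, LinearMap.add_apply, LinearMap.add_apply, hp, hq, mul_add]
  | monomial n b ih =>
    intro f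
    have h1 : endZ σ (C a * f) = C a * endZ σ f := by
      rw [endZ_apply, endZ_apply, map_mul]
      congr 1
      exact σ.commutes a
    rw [pow_succ, ← mul_assoc, i06_X, i06_X, h1, ih]

theorem i06_zero (σ : PAut R) : IntEl σ (0 : MvPolynomial (Fin 2) R) := by
  have := intEl_C σ (0 : R)
  rwa [C_0] at this

theorem i06_sum {ι : Type*} (σ : PAut R) (t : Finset ι) (f : ι → MvPolynomial (Fin 2) R)
    (h : ∀ i ∈ t, IntEl σ (f i)) : IntEl σ (∑ i ∈ t, f i) := by
  classical
  induction t using Finset.induction_on with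
  | empty => rw [Finset.sum_empty]; exact i06_zero σ
  | insert a t ha ih =>
    rw [Finset.sum_insert ha]
    exact (h a (Finset.mem_insert_self a t)).add (ih fun i hi => h i (Finset.mem_insert_of_mem hi))

/-- Proof: `X v` lies in the image of `N ∋ X v` under `map φ` (`bc_map`, `locInt_of_X`). -/
theorem locInt_bc (φ : R →+* S) {σ : PAut R} (h : LocInt σ) : LocInt (bc φ σ) := by
  refine locInt_of_X fun v => ?_
  obtain ⟨N, hN, hv, hs⟩ := h (X v)
  refine ⟨N.map (i06_m φ), hN.map _, ⟨X v, hv, ?_⟩, ?_⟩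
  · rw [i06_m_apply, map_X]
  · rintro _ ⟨n, hn, rfl⟩
    exact ⟨σ n, hs n hn, by rw [i06_m_apply, i06_m_apply, bc_map]⟩

/-- Proof: for `X v` there is a monic equation over `S` (`IntEl.exists_monic`); `map φ` is injective and
commutes with the automorphisms (`bc_map`; by induction `map φ (p(σ) f) = p(bc φ σ) (map φ f)`), so it is
an equation over `R`; `intEl_of_monic` with `IntEl σ 0`. -/
theorem locInt_of_bc (φ : R →+* S) (hφ : Function.Injective φ) {σ : PAut R}
    (h : LocInt (bc φ σ)) : LocInt σ := by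
  refine locInt_of_X fun v => ?_
  obtain ⟨p, hp, h1⟩ := (h (X v)).exists_monic
  refine intEl_of_monic p hp ?_
  have h2 : map φ (Polynomial.aeval (endZ σ) p (X v)) = map φ 0 := by
    rw [i06_aeval, map_X, h1, map_zero]
  rw [map_injective φ hφ h2]
  exact i06_zero σ

/-- **Integrality can be tested modulo the minimal primes.**
Proof: let `J = nilradical R`, nilpotent (`IsNoetherianRing`, `exists k, J ^ k = 0`). First: for each `f`
there is a monic `p` such that all coefficients of `p(σ) f` are in `J`: take the product of the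
monic polynomials for the finitely many minimal primes
(`minimalPrimes.finite_of_isNoetherianRing`, `nilradical R = sInf (minimalPrimes R)` as in
`integral_of_minimalPrimes`, MT/L/R02.lean; `MvPolynomial.mem_map_C_iff`, or coefficientwise;
`map (Ideal.Quotient.mk P) (p(σ) f) = p(bc σ) (map f) = 0`). Then by descending induction on `i` all `f` with
coefficients in `J ^ i` are integral: `i = k` is clear (`f = 0`). Let the coefficients of `f` be in
`J ^ i`; `f` is a sum of terms `C a * m` with `a ∈ J ^ i` and monomials `m`; by `IntEl.add` let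
`f = C a * m`; choose `p` for `m`; `p(σ) (C a * m) = C a * p(σ) m` has coefficients in `J ^ (i + 1)`, so it
is integral by induction, and `f` is integral by `intEl_of_monic`. -/
theorem locInt_of_minimalPrimes [IsNoetherianRing R] {σ : PAut R}
    (h : ∀ P ∈ minimalPrimes R, LocInt (bc (Ideal.Quotient.mk P) σ)) : LocInt σ := by
  classical
  have hA : ∀ f : MvPolynomial (Fin 2) R, ∃ p : Polynomial ℤ, p.Monic ∧
      ∀ m, coeff m (Polynomial.aeval (endZ σ) p f) ∈ nilradical R := by
    intro f
    have hfin : (minimalPrimes R).Finite := minimalPrimes.finite_of_isNoetherianRing R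
    have h' : ∀ P ∈ minimalPrimes R, ∃ p : Polynomial ℤ, p.Monic ∧
        Polynomial.aeval (endZ (bc (Ideal.Quotient.mk P) σ)) p
          (map (Ideal.Quotient.mk P) f) = 0 := fun P hP => (h P hP _).exists_monic
    choose! q hq1 hq2 using h'
    refine ⟨∏ P ∈ hfin.toFinset, q P,
      Polynomial.monic_prod_of_monic _ _ fun P hP => hq1 P (by simpa using hP), fun m => ?_⟩
    have hn : nilradical R = sInf (minimalPrimes R) := by
      rw [nilradical, ← Ideal.sInf_minimalPrimes]
      rfl
    rw [hn, Ideal.mem_sInf]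
    intro P hP
    obtain ⟨c, hc⟩ : q P ∣ ∏ P ∈ hfin.toFinset, q P :=
      Finset.dvd_prod_of_mem _ (by simpa using hP)
    have h3 : map (Ideal.Quotient.mk P)
        (Polynomial.aeval (endZ σ) (∏ P ∈ hfin.toFinset, q P) f) = 0 := by
      rw [i06_aeval, hc, mul_comm, map_mul, Module.End.mul_apply, hq2 P hP, map_zero]
    have h4 := congrArg (coeff m) h3
    rw [coeff_map, coeff_zero] at h4
    exact Ideal.Quotient.eq_zero_iff_mem.1 h4
  obtain ⟨k, hk⟩ := IsNoetherianRing.isNilpotent_nilradical R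
  have hB : ∀ j i : ℕ, i + j = k → ∀ f : MvPolynomial (Fin 2) R,
      (∀ m, coeff m f ∈ nilradical R ^ i) → IntEl σ f := by
    intro j
    induction j with
    | zero =>
      intro i hi f hf
      have h0 : f = 0 := by
        apply MvPolynomial.ext
        intro m
        have h1 := hf m
        rw [show i = k by omega, hk] at h1
        rw [coeff_zero]
        simpa using h1
      rw [h0]
      exact i06_zero σ
    | succ j ih =>
      intro i hi f hf
      rw [f.as_sum]
      refine i06_sum σ _ _ fun m _ => ?_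
      have h1 : monomial m (coeff m f) = C (coeff m f) * monomial m (1 : R) := by
        rw [C_mul_monomial, mul_one]
      rw [h1]
      obtain ⟨p, hp, h2⟩ := hA (monomial m (1 : R))
      refine intEl_of_monic p hp ?_
      rw [i06_C]
      refine ih (i + 1) (by omega) _ fun m' => ?_
      rw [coeff_C_mul, pow_succ]
      exact Ideal.mul_mem_mul (hf m) (h2 m')
  intro f
  refine hB k 0 (by omega) f fun m => ?_
  rw [pow_zero, Ideal.one_eq_top]
  exact Submodule.mem_top

end Pool.Agent.Lib.MP_c052b4_al.CT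
end

section

/-!
# Affine and triangular automorphisms: membership
-/

set_option autoImplicit false

namespace Pool.Agent.Lib.MP_c052b4_al.JK

open MvPolynomial

universe u

variable {K : Type u} [Field K]

private theorem sub_lin_eq_C {a b c k : K} (h : (C a * X 0 + C b * X 1 + C c : A2 K) = C k) :
    a = 0 ∧ b = 0 := by
  have h0 := congrArg (eval (![0, 0] : Fin 2 → K)) h
  have h1 := congrArg (eval (![1, 0] : Fin 2 → K)) h
  have h2 := congrArg (eval (![0, 1] : Fin 2 → K)) h
  simp only [map_add, map_mul, eval_C, eval_X, Matrix.cons_val_zero, Matrix.cons_val_one,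
    mul_zero, zero_add, mul_one, add_zero] at h0 h1 h2
  subst h0
  exact ⟨by simpa using h1, by simpa using h2⟩

private theorem sub_X_ne_C (v : Fin 2) (c : K) : (X v : A2 K) ≠ C c := by
  intro h
  have h0 := congrArg (eval (fun _ => (0 : K))) h
  have h1 := congrArg (eval (fun _ => (1 : K))) h
  rw [eval_X, eval_C] at h0 h1
  rw [← h0] at h1
  exact one_ne_zero h1

private theorem sub_ne_C (σ : AutA K) (v : Fin 2) (c : K) : σ (X v) ≠ C c := by
  intro h
  rw [← aut_C σ c] at h
  exact sub_X_ne_C v c (σ.injective h)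

/-- Proof: the matrix of the coefficients; if `a₀ b₁ = a₁ b₀` a nontrivial linear combination of
`σ (X 0)`, `σ (X 1)` would be constant. -/
theorem Aff_X {σ : AutA K} (h : σ ∈ Aff K) : ∃ a₀ b₀ c₀ a₁ b₁ c₁ : K,
    σ (X 0) = C a₀ * X 0 + C b₀ * X 1 + C c₀ ∧ σ (X 1) = C a₁ * X 0 + C b₁ * X 1 + C c₁ ∧
      a₀ * b₁ ≠ a₁ * b₀ := by
  have hX : ∀ v : Fin 2, (X v : A2 K).totalDegree ≤ 1 := fun v => by rw [totalDegree_X]
  obtain ⟨a₀, b₀, c₀, h0⟩ := exists_lin _ ((h (X 0)).2 (hX 0))
  obtain ⟨a₁, b₁, c₁, h1⟩ := exists_lin _ ((h (X 1)).2 (hX 1))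
  refine ⟨a₀, b₀, c₀, a₁, b₁, c₁, h0, h1, fun hdet => ?_⟩
  have key : ∀ u v : K, C (u * a₀ + v * a₁) * X 0 + C (u * b₀ + v * b₁) * X 1 +
      C (u * c₀ + v * c₁) = σ (C u * X 0 + C v * X 1 + C 0) := by
    intro u v
    rw [map_add σ, map_add σ, map_mul σ, map_mul σ, aut_C, aut_C, aut_C, h0, h1]
    simp only [C_add, C_mul, C_0]
    ring
  have hzero : ∀ u v : K, u * a₀ + v * a₁ = 0 → u * b₀ + v * b₁ = 0 → u = 0 ∧ v = 0 := by
    intro u v e1 e2
    have h2 : C (u * c₀ + v * c₁) = σ (C u * X 0 + C v * X 1 + C 0) := by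
      rw [← key u v, e1, e2, C_0, zero_mul, zero_mul, zero_add, zero_add]
    rw [← aut_C σ] at h2
    exact sub_lin_eq_C (σ.injective h2).symm
  have h3 := hzero a₁ (-a₀) (by ring) (by linear_combination -hdet)
  have h4 := hzero b₁ (-b₀) (by linear_combination hdet) (by ring)
  rw [h3.1, h4.1] at h1
  rw [C_0, zero_mul, zero_mul, zero_add, zero_add] at h1
  exact sub_ne_C σ 1 c₁ h1

theorem Tri_X1 {σ : AutA K} (h : σ ∈ Tri K) :
    ∃ c d : K, c ≠ 0 ∧ σ (X 1) = C c * X 1 + C d := by
  obtain ⟨c, d, hcd⟩ := (h (X 1)).2 ⟨1, 0, by rw [C_1, C_0, one_mul, add_zero]⟩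
  refine ⟨c, d, fun hc => ?_, hcd⟩
  rw [hc, C_0, zero_mul, zero_add] at hcd
  exact sub_ne_C σ 1 d hcd

/-- Proof: `c ≠ 0` because `σ` is injective and fixes the constants. If `p` is of the form
`c' y + d'` so is `σ p`. Conversely `C c' * X 1 + C d' = σ (C (c' / c) * X 1 + C (d' - c' d / c))`
and `σ` is injective. -/
theorem mem_Tri_of {σ : AutA K} {c d : K} (h : σ (X 1) = C c * X 1 + C d) : σ ∈ Tri K := by
  have hc : c ≠ 0 := by
    intro hc
    rw [hc, C_0, zero_mul, zero_add] at h
    exact sub_ne_C σ 1 d h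
  intro p
  constructor
  · rintro ⟨c', d', hp⟩
    refine ⟨c' / c, d' - c' * d / c, σ.injective ?_⟩
    have h1 : (C (c' / c) * C c : A2 K) = C c' := by
      rw [← C_mul, div_mul_cancel₀ _ hc]
    have h2 : (C (c' / c) * C d + C (d' - c' * d / c) : A2 K) = C d' := by
      rw [← C_mul, ← C_add]
      congr 1
      field_simp
      ring
    rw [hp, map_add, map_mul, aut_C, aut_C, h, mul_add, ← mul_assoc, h1, add_assoc, h2]
  · rintro ⟨c', d', rfl⟩
    refine ⟨c' * c, c' * d + d', ?_⟩
    rw [map_add, map_mul, aut_C, aut_C, h]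
    simp only [C_add, C_mul]
    ring

theorem sh_mem (P : Polynomial K) : sh P ∈ Tri K :=
  mem_Tri_of (c := 1) (d := 0) (by rw [sh_X1, C_1, C_0, one_mul, add_zero])

theorem swp_mem : swp K ∈ Aff K := by
  refine mem_Aff_of _ fun v => ?_
  fin_cases v
  · change (swp K (X 0)).totalDegree ≤ 1
    rw [swp_X0, totalDegree_X]
  · change (swp K (X 1)).totalDegree ≤ 1
    rw [swp_X1, totalDegree_X]

/-- Proof: `mem_Aff_of`. -/
theorem sh_mem_Aff (P : Polynomial K) (hP : P.natDegree ≤ 1) : sh P ∈ Aff K := by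
  obtain ⟨a, b, rfl⟩ := Polynomial.exists_eq_X_add_C_of_natDegree_le_one hP
  refine mem_Aff_of _ fun v => ?_
  fin_cases v
  · change (sh _ (X 0)).totalDegree ≤ 1
    have h1 : (X 0 + Polynomial.aeval (X 1) (Polynomial.C a * Polynomial.X + Polynomial.C b) :
        A2 K) = C 1 * X 0 + C a * X 1 + C b := by
      rw [map_add, map_mul, Polynomial.aeval_C, Polynomial.aeval_C, Polynomial.aeval_X,
        MvPolynomial.algebraMap_eq, C_1, one_mul, add_assoc]
    rw [sh_X0, h1]
    exact totalDegree_lin_le _ _ _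
  · change (sh _ (X 1)).totalDegree ≤ 1
    rw [sh_X1, totalDegree_X]

/-- Proof: if `b ≠ 0` take `x ↦ x`, `y ↦ a x + b y + c`; if `a ≠ 0` take `x ↦ y`,
`y ↦ a x + b y + c` (`mkAut`). -/
theorem exists_Aff_X1 (a b c : K) (h : a ≠ 0 ∨ b ≠ 0) :
    ∃ σ ∈ Aff K, σ (X 1) = C a * X 0 + C b * X 1 + C c := by
  by_cases hb : b = 0
  · have ha : a ≠ 0 := h.resolve_right (fun h' => h' hb)
    have hca : (C a⁻¹ * C a : A2 K) = 1 := by rw [← C_mul, inv_mul_cancel₀ ha, C_1]
    refine ⟨mkAut ![X 1, C a * X 0 + C b * X 1 + C c] ![C a⁻¹ * (X 1 - C b * X 0 - C c), X 0]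
      ?_ ?_, mem_Aff_of _ ?_, mkAut_X _ _ _ _ 1⟩
    · intro v
      fin_cases v
      · change aeval _ (C a⁻¹ * (X 1 - C b * X 0 - C c)) = X 0
        simp only [map_mul, map_sub, aeval_X, algHom_C, MvPolynomial.algebraMap_eq]
        change C a⁻¹ * (C a * X 0 + C b * X 1 + C c - C b * X 1 - C c) = X 0
        linear_combination X 0 * hca
      · change aeval _ (X 0) = X 1
        rw [aeval_X]
        rfl
    · intro v
      fin_cases v
      · change aeval _ (X 1) = X 0
        rw [aeval_X]
        rfl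
      · change aeval _ (C a * X 0 + C b * X 1 + C c) = X 1
        simp only [map_mul, map_add, aeval_X, algHom_C, MvPolynomial.algebraMap_eq]
        change C a * (C a⁻¹ * (X 1 - C b * X 0 - C c)) + C b * X 0 + C c = X 1
        linear_combination (X 1 - C b * X 0 - C c) * hca
    · intro v
      rw [mkAut_X]
      fin_cases v
      · change (X 1 : A2 K).totalDegree ≤ 1
        rw [totalDegree_X]
      · exact totalDegree_lin_le _ _ _
  · have hcb : (C b⁻¹ * C b : A2 K) = 1 := by rw [← C_mul, inv_mul_cancel₀ hb, C_1]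
    refine ⟨mkAut ![X 0, C a * X 0 + C b * X 1 + C c] ![X 0, C b⁻¹ * (X 1 - C a * X 0 - C c)]
      ?_ ?_, mem_Aff_of _ ?_, mkAut_X _ _ _ _ 1⟩
    · intro v
      fin_cases v
      · change aeval _ (X 0) = X 0
        rw [aeval_X]
        rfl
      · change aeval _ (C b⁻¹ * (X 1 - C a * X 0 - C c)) = X 1
        simp only [map_mul, map_sub, aeval_X, algHom_C, MvPolynomial.algebraMap_eq]
        change C b⁻¹ * (C a * X 0 + C b * X 1 + C c - C a * X 0 - C c) = X 1
        linear_combination X 1 * hcb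
    · intro v
      fin_cases v
      · change aeval _ (X 0) = X 0
        rw [aeval_X]
        rfl
      · change aeval _ (C a * X 0 + C b * X 1 + C c) = X 1
        simp only [map_mul, map_add, aeval_X, algHom_C, MvPolynomial.algebraMap_eq]
        change C a * X 0 + C b * (C b⁻¹ * (X 1 - C a * X 0 - C c)) + C c = X 1
        linear_combination (X 1 - C a * X 0 - C c) * hcb
    · intro v
      rw [mkAut_X]
      fin_cases v
      · change (X 0 : A2 K).totalDegree ≤ 1
        rw [totalDegree_X]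
      · exact totalDegree_lin_le _ _ _

end Pool.Agent.Lib.MP_c052b4_al.JK
end

section

/-!
# The linear part of an affine automorphism
-/

set_option autoImplicit false

namespace Pool.Agent.Lib.MP_c052b4_al.JK

open MvPolynomial

universe u

variable {K : Type u} [Field K]

/-- the matrix of the linear part of an affine automorphism -/
noncomputable def linMat (σ : AutA K) : Matrix (Fin 2) (Fin 2) K :=
  Matrix.of fun r v => coeff (Finsupp.single r 1) (σ (X v))

private theorem linmat_coeff_X (r v : Fin 2) :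
    coeff (Finsupp.single r 1) (X v : A2 K) = if r = v then 1 else 0 := by
  classical
  rw [MvPolynomial.coeff_X]
  by_cases h : r = v
  · rw [h, if_pos rfl, if_pos rfl]
  · rw [if_neg h, if_neg]
    intro h1
    exact h ((Finsupp.single_left_inj one_ne_zero).1 h1).symm

private theorem linmat_coeff_C (r : Fin 2) (c : K) : coeff (Finsupp.single r 1) (C c : A2 K) = 0 := by
  classical
  rw [coeff_C, if_neg]
  intro h
  exact one_ne_zero (Finsupp.single_eq_zero.1 h.symm)

private theorem linmat_coeff (a b c : K) (r : Fin 2) :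
    coeff (Finsupp.single r 1) (C a * X 0 + C b * X 1 + C c : A2 K) = ![a, b] r := by
  rw [coeff_add, coeff_add, coeff_C_mul, coeff_C_mul, linmat_coeff_X, linmat_coeff_X, linmat_coeff_C]
  fin_cases r <;> simp

private theorem linmat_X (σ : AutA K) (hσ : σ ∈ Aff K) (v : Fin 2) :
    ∃ c : K, σ (X v) = C (linMat σ 0 v) * X 0 + C (linMat σ 1 v) * X 1 + C c := by
  obtain ⟨a₀, b₀, c₀, a₁, b₁, c₁, h0, h1, -⟩ := Aff_X hσ
  fin_cases v
  · refine ⟨c₀, ?_⟩
    have e0 : linMat σ 0 0 = a₀ := by
      show coeff (Finsupp.single 0 1) (σ (X 0)) = a₀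
      rw [h0, linmat_coeff]
      rfl
    have e1 : linMat σ 1 0 = b₀ := by
      show coeff (Finsupp.single 1 1) (σ (X 0)) = b₀
      rw [h0, linmat_coeff]
      rfl
    show σ (X 0) = C (linMat σ 0 0) * X 0 + C (linMat σ 1 0) * X 1 + C c₀
    rw [e0, e1, h0]
  · refine ⟨c₁, ?_⟩
    have e0 : linMat σ 0 1 = a₁ := by
      show coeff (Finsupp.single 0 1) (σ (X 1)) = a₁
      rw [h1, linmat_coeff]
      rfl
    have e1 : linMat σ 1 1 = b₁ := by
      show coeff (Finsupp.single 1 1) (σ (X 1)) = b₁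
      rw [h1, linmat_coeff]
      rfl
    show σ (X 1) = C (linMat σ 0 1) * X 0 + C (linMat σ 1 1) * X 1 + C c₁
    rw [e0, e1, h1]

/-- Proof: `σ (X v) = ∑ r, C (linMat σ r v) * X r + const` for `σ ∈ Aff` (`Aff_X`). -/
theorem linMat_mul (σ τ : AutA K) (hσ : σ ∈ Aff K) (hτ : τ ∈ Aff K) :
    linMat (σ * τ) = linMat σ * linMat τ := by
  ext r v
  obtain ⟨c, hc⟩ := linmat_X τ hτ v
  rw [Matrix.mul_apply, Fin.sum_univ_two]
  show coeff (Finsupp.single r 1) (σ (τ (X v))) = coeff (Finsupp.single r 1) (σ (X 0)) * linMat τ 0 v +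
    coeff (Finsupp.single r 1) (σ (X 1)) * linMat τ 1 v
  rw [hc, map_add, map_add, map_mul, map_mul, aut_C, aut_C, aut_C, coeff_add, coeff_add, coeff_C_mul,
    coeff_C_mul, linmat_coeff_C]
  ring

theorem linMat_one : linMat (1 : AutA K) = 1 := by
  ext r v
  show coeff (Finsupp.single r 1) (X v : A2 K) = _
  rw [linmat_coeff_X, Matrix.one_apply]

/-- Proof: `σ (X v) = X v + C (c v)`, so `(σ ^ n) (X v) = X v + C (n * c v)`; `n = p`. -/
theorem pow_eq_one_of_linMat (p : ℕ) [CharP K p] (σ : AutA K) (hσ : σ ∈ Aff K)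
    (h : linMat σ = 1) : σ ^ p = 1 := by
  have h1 : ∀ v, ∃ c : K, σ (X v) = X v + C c := by
    intro v
    obtain ⟨c, hc⟩ := linmat_X σ hσ v
    refine ⟨c, ?_⟩
    rw [hc, h]
    fin_cases v
    · show C ((1 : Matrix (Fin 2) (Fin 2) K) 0 0) * X 0 + C ((1 : Matrix (Fin 2) (Fin 2) K) 1 0) * X 1 + C c =
        X 0 + C c
      rw [Matrix.one_apply_eq, Matrix.one_apply_ne (by decide), C_0, C_1, zero_mul, one_mul, add_zero]
    · show C ((1 : Matrix (Fin 2) (Fin 2) K) 0 1) * X 0 + C ((1 : Matrix (Fin 2) (Fin 2) K) 1 1) * X 1 + C c =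
        X 1 + C c
      rw [Matrix.one_apply_eq, Matrix.one_apply_ne (by decide), C_0, C_1, zero_mul, one_mul, zero_add]
  choose c hc using h1
  have h2 : ∀ (n : ℕ) (v : Fin 2), (σ ^ n) (X v) = X v + C ((n : K) * c v) := by
    intro n
    induction n with
    | zero =>
      intro v
      rw [pow_zero, Nat.cast_zero, zero_mul, C_0, add_zero]
      rfl
    | succ n ih =>
      intro v
      rw [pow_succ]
      show (σ ^ n) (σ (X v)) = _
      rw [hc, map_add, ih, aut_C, add_assoc, ← C_add]
      congr 2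
      push_cast
      ring
  refine aut_ext fun v => ?_
  rw [h2, CharP.cast_eq_zero, zero_mul, C_0, add_zero]
  rfl

end Pool.Agent.Lib.MP_c052b4_al.JK
end

section

/-!
# Automorphisms which fix `y` are triangular
-/

set_option autoImplicit false

namespace Pool.Agent.Lib.MP_c052b4_al.JK

open MvPolynomial

universe u

variable {K : Type u} [Field K]

/-- Proof. Let `E : A2 K ≃ₐ (MvPolynomial (Fin 1) K)[T]` be `MvPolynomial.finSuccEquiv K 1`
(`E (X 0) = T`, `E (X 1) = C (X 0)`). Let `p = E (σ (X 0))`, `q = E (σ⁻¹ (X 0))`. Since `σ` fixes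
`X 1`, `E (σ r) = (E r).comp p` for all `r` (both are algebra homomorphisms, equal on the
variables; `σ` fixes `X 1`). With `r = σ⁻¹ (X 0)`: `q.comp p = T`, so
`natDegree q * natDegree p = 1` (`Polynomial.natDegree_comp`), `p = C u * T + C s`,
`q = C v * T + C s'`, `v u = 1`, so `u` is a unit of `MvPolynomial (Fin 1) K`, hence a nonzero
constant. Translate back through `E.symm` (`s` is a polynomial in `X 0 : MvPolynomial (Fin 1) K`,
which corresponds to `X 1`). -/
theorem fix_tri (σ : AutA K) (h : σ (X 1) = X 1) : ∃ (a : K) (P : Polynomial K), a ≠ 0 ∧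
    σ (X 0) = C a * X 0 + Polynomial.aeval (X 1) P := by
  have e0 : finSuccEquiv K 1 (X 0) = Polynomial.X := finSuccEquiv_X_zero
  have e1 : finSuccEquiv K 1 (X 1) = Polynomial.C (X 0) := finSuccEquiv_X_succ (j := 0)
  have hcomp : ∀ r : A2 K, finSuccEquiv K 1 (σ r) =
      (finSuccEquiv K 1 r).comp (finSuccEquiv K 1 (σ (X 0))) := by
    intro r
    have h2 : ((finSuccEquiv K 1 : A2 K ≃ₐ[K] _) : A2 K →ₐ[K] _).comp (σ : A2 K →ₐ[K] A2 K) =
        ((Polynomial.aeval (finSuccEquiv K 1 (σ (X 0))) :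
          Polynomial (MvPolynomial (Fin 1) K) →ₐ[MvPolynomial (Fin 1) K] _).restrictScalars K).comp
          ((finSuccEquiv K 1 : A2 K ≃ₐ[K] _) : A2 K →ₐ[K] _) := by
      refine algHom_ext fun v => ?_
      fin_cases v
      · show finSuccEquiv K 1 (σ (X 0)) =
          Polynomial.aeval (finSuccEquiv K 1 (σ (X 0))) (finSuccEquiv K 1 (X 0))
        rw [e0, Polynomial.aeval_X]
      · show finSuccEquiv K 1 (σ (X 1)) =
          Polynomial.aeval (finSuccEquiv K 1 (σ (X 0))) (finSuccEquiv K 1 (X 1))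
        rw [h, e1, Polynomial.aeval_C]
        rfl
    exact DFunLike.congr_fun h2 r
  have hq : (finSuccEquiv K 1 (σ.symm (X 0))).comp (finSuccEquiv K 1 (σ (X 0))) =
      Polynomial.X := by
    rw [← hcomp, AlgEquiv.apply_symm_apply, e0]
  set p := finSuccEquiv K 1 (σ (X 0)) with hp
  set q := finSuccEquiv K 1 (σ.symm (X 0)) with hqd
  have hdeg : q.natDegree * p.natDegree = 1 := by
    rw [← Polynomial.natDegree_comp, hq, Polynomial.natDegree_X]
  have hdp : p.natDegree = 1 := Nat.eq_one_of_mul_eq_one_left hdeg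
  have hdq : q.natDegree = 1 := Nat.eq_one_of_mul_eq_one_right hdeg
  have hp1 := Polynomial.eq_X_add_C_of_natDegree_le_one hdp.le
  have hq1 := Polynomial.eq_X_add_C_of_natDegree_le_one hdq.le
  have hvu : q.coeff 1 * p.coeff 1 = 1 := by
    have h3 := congrArg (fun f => Polynomial.coeff f 1) hq
    simp only [Polynomial.coeff_X_one] at h3
    rw [← h3]
    conv_rhs => rw [hq1]
    simp
  have hu : IsUnit (p.coeff 1) := IsUnit.of_mul_eq_one_right _ hvu
  obtain ⟨a, ha, hau⟩ := MvPolynomial.isUnit_iff_eq_C_of_isReduced.1 hu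
  refine ⟨a, aeval (fun _ => Polynomial.X) (p.coeff 0), ha.ne_zero, ?_⟩
  apply (finSuccEquiv K 1).injective
  have hs : ∀ s : MvPolynomial (Fin 1) K, finSuccEquiv K 1 (Polynomial.aeval (X 1 : A2 K)
      (aeval (fun _ => (Polynomial.X : Polynomial K)) s)) = Polynomial.C s := by
    intro s
    have h4 : (((finSuccEquiv K 1 : A2 K ≃ₐ[K] _) : A2 K →ₐ[K] _).comp
        (Polynomial.aeval (X 1 : A2 K))).comp
        (aeval (fun _ : Fin 1 => (Polynomial.X : Polynomial K))) =
        (Algebra.ofId (MvPolynomial (Fin 1) K)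
          (Polynomial (MvPolynomial (Fin 1) K))).restrictScalars K := by
      refine algHom_ext fun v => ?_
      obtain rfl : v = 0 := Subsingleton.elim _ _
      show finSuccEquiv K 1 (Polynomial.aeval (X 1 : A2 K)
        (aeval (fun _ : Fin 1 => (Polynomial.X : Polynomial K)) (X 0))) = Polynomial.C (X 0)
      rw [aeval_X, Polynomial.aeval_X, e1]
    exact DFunLike.congr_fun h4 s
  have hC : finSuccEquiv K 1 (C a) = Polynomial.C (C a) := by
    have := (finSuccEquiv K 1).commutes a
    rw [MvPolynomial.algebraMap_eq] at this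
    rw [this]
    rfl
  rw [← hp, map_add, map_mul, hs, e0, hC, ← hau]
  exact hp1

/-- Proof: `σ (X 1) = C c * X 1 + C d` with `c ≠ 0`. Let `δ` be the automorphism `x ↦ x`,
`y ↦ c y + d` (`mkAut`). Then `σ * δ⁻¹` fixes `X 1` and maps `X 0` to `σ (X 0)`. -/
theorem Tri_X0 {σ : AutA K} (h : σ ∈ Tri K) : ∃ (a : K) (P : Polynomial K), a ≠ 0 ∧
    σ (X 0) = C a * X 0 + Polynomial.aeval (X 1) P := by
  obtain ⟨c, d, hc, h1⟩ := Tri_X1 h
  have hcc : (C c * C c⁻¹ : A2 K) = 1 := by
    rw [← C_mul, mul_inv_cancel₀ hc, C_1]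
  let δ : AutA K := mkAut ![X 0, C c⁻¹ * X 1 - C c⁻¹ * C d] ![X 0, C c * X 1 + C d]
    (by
      intro v
      fin_cases v
      · show aeval _ (X 0) = _
        rw [aeval_X]
        rfl
      · show aeval _ (C c * X 1 + C d) = _
        rw [map_add, map_mul, aeval_X, aeval_C, aeval_C]
        show C c * (C c⁻¹ * X 1 - C c⁻¹ * C d) + C d = X 1
        linear_combination (X 1 - C d) * hcc)
    (by
      intro v
      fin_cases v
      · show aeval _ (X 0) = _
        rw [aeval_X]
        rfl
      · show aeval _ (C c⁻¹ * X 1 - C c⁻¹ * C d) = _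
        rw [map_sub, map_mul, map_mul, aeval_X, aeval_C, aeval_C]
        show C c⁻¹ * (C c * X 1 + C d) - C c⁻¹ * C d = X 1
        linear_combination (X 1) * hcc)
  have hδ0 : δ (X 0) = X 0 := mkAut_X _ _ _ _ 0
  have hδ1 : δ (X 1) = C c⁻¹ * X 1 - C c⁻¹ * C d := mkAut_X _ _ _ _ 1
  have hτ1 : (σ * δ) (X 1) = X 1 := by
    show σ (δ (X 1)) = X 1
    rw [hδ1, map_sub, map_mul, map_mul, aut_C, aut_C, h1]
    linear_combination (X 1) * hcc
  obtain ⟨a, P, ha, hP⟩ := fix_tri (σ * δ) hτ1
  refine ⟨a, P, ha, ?_⟩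
  rw [← hP]
  show σ (X 0) = σ (δ (X 0))
  rw [hδ0]

end Pool.Agent.Lib.MP_c052b4_al.JK
end
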