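import Pool.Agent.Lib.MP_c052b4_al.Mg.G001

section

/-!
# Total degrees
-/

set_option autoImplicit false

namespace Pool.Agent.Lib.MP_c052b4_al.JK

open MvPolynomial

universe u

variable {K : Type u} [Field K]

private theorem deg1_pow (q : A2 K) (hq : q ≠ 0) (n : ℕ) : (q ^ n).totalDegree = n * q.totalDegree := by
  induction n with
  | zero => rw [pow_zero, totalDegree_one, zero_mul]
  | succ n ih =>
    rw [pow_succ, totalDegree_mul_of_isDomain (pow_ne_zero _ hq) hq, ih]
    ring

private theorem deg1_C_mul (p : A2 K) (a : K) (ha : a ≠ 0) : (C a * p).totalDegree = p.totalDegree := by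
  by_cases hp : p = 0
  · rw [hp, mul_zero]
  · rw [totalDegree_mul_of_isDomain (by rw [Ne, C_eq_zero]; exact ha) hp, totalDegree_C, zero_add]

/-- Proof: if `q` is constant both sides are `0`. Otherwise the terms `p_i q^i` have different total
degrees `i * totalDegree q` (`totalDegree_mul_of_isDomain`); induction on the degree
(`Polynomial.degree_pos_induction` or by erasing the leading term) and
`totalDegree_add_eq_left_of_totalDegree_lt`. -/
theorem totalDegree_aeval (P : Polynomial K) (q : A2 K) :
    (Polynomial.aeval q P).totalDegree = P.natDegree * q.totalDegree := by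
  rcases Nat.eq_zero_or_pos q.totalDegree with hq | hq
  · obtain ⟨c, hc⟩ : ∃ c : K, q = C c := ⟨_, totalDegree_eq_zero_iff_eq_C.1 hq⟩
    have h1 : Polynomial.aeval (C c : A2 K) P = C (P.eval c) := by
      have h2 := Polynomial.aeval_algebraMap_apply (A2 K) c P
      rw [MvPolynomial.algebraMap_eq] at h2
      rw [h2, Polynomial.coe_aeval_eq_eval]
    rw [hq, mul_zero, hc, h1, totalDegree_C]
  · have hq0 : q ≠ 0 := by
      rintro rfl
      rw [totalDegree_zero] at hq
      exact lt_irrefl _ hq
    induction h : P.natDegree using Nat.strong_induction_on generalizing P with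
    | _ n ih =>
      rcases Nat.eq_zero_or_pos n with hn | hn
      · rw [hn] at h
        rw [hn, zero_mul, Polynomial.eq_C_of_natDegree_eq_zero h, Polynomial.aeval_C, MvPolynomial.algebraMap_eq,
          totalDegree_C]
      · have hle : P.eraseLead.natDegree ≤ n - 1 := h ▸ P.eraseLead_natDegree_le
        have h1 := ih P.eraseLead.natDegree (by omega) P.eraseLead rfl
        have hlc : P.leadingCoeff ≠ 0 := by
          rw [Ne, Polynomial.leadingCoeff_eq_zero]
          rintro rfl
          rw [Polynomial.natDegree_zero] at h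
          omega
        have h2 : (C P.leadingCoeff * q ^ n).totalDegree = n * q.totalDegree := by
          rw [deg1_C_mul _ _ hlc, deg1_pow q hq0]
        have h3 : Polynomial.aeval q P = Polynomial.aeval q P.eraseLead + C P.leadingCoeff * q ^ n := by
          conv_lhs => rw [← P.eraseLead_add_C_mul_X_pow]
          rw [map_add, map_mul, map_pow, Polynomial.aeval_C, Polynomial.aeval_X, h, MvPolynomial.algebraMap_eq]
        have h4 : (Polynomial.aeval q P.eraseLead).totalDegree < (C P.leadingCoeff * q ^ n).totalDegree := by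
          rw [h1, h2]
          exact Nat.mul_lt_mul_of_pos_right (by omega) hq
        rw [h3, totalDegree_add_eq_right_of_totalDegree_lt h4, h2]

/-- Proof: `totalDegree_add_eq_left_of_totalDegree_lt`. -/
theorem totalDegree_comb (p q : A2 K) (h : q.totalDegree < p.totalDegree) (a b c : K)
    (ha : a ≠ 0) : (C a * p + C b * q + C c).totalDegree = p.totalDegree := by
  have h1 : (C a * p).totalDegree = p.totalDegree := deg1_C_mul p a ha
  have h2 : (C b * q).totalDegree ≤ q.totalDegree := by
    rcases eq_or_ne b 0 with hb | hb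
    · rw [hb, C_0, zero_mul, totalDegree_zero]
      exact Nat.zero_le _
    · exact (deg1_C_mul q b hb).le
  have h3 : (C a * p + C b * q).totalDegree = p.totalDegree := by
    rw [totalDegree_add_eq_left_of_totalDegree_lt (by rw [h1]; exact h2.trans_lt h), h1]
  rw [totalDegree_add_eq_left_of_totalDegree_lt (by rw [h3, totalDegree_C]; omega), h3]

theorem totalDegree_comb_le (p q : A2 K) (n : ℕ) (hp : p.totalDegree ≤ n) (hq : q.totalDegree ≤ n)
    (a b c : K) : (C a * p + C b * q + C c).totalDegree ≤ n := by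
  have hC : ∀ (d : K) (r : A2 K), r.totalDegree ≤ n → (C d * r).totalDegree ≤ n := by
    intro d r hr
    rcases eq_or_ne d 0 with hd | hd
    · rw [hd, C_0, zero_mul, totalDegree_zero]
      exact Nat.zero_le _
    · rw [deg1_C_mul r d hd]
      exact hr
  refine (totalDegree_add _ _).trans (max_le ((totalDegree_add _ _).trans (max_le (hC a p hp) (hC b q hq))) ?_)
  rw [totalDegree_C]
  exact Nat.zero_le _

end Pool.Agent.Lib.MP_c052b4_al.JK
end

section

/-!
# Coordinates and their flows
-/

set_option autoImplicit false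

namespace Pool.Agent.Lib.MP_c052b4_al.JK

open MvPolynomial

universe u

variable {K : Type u} [Field K]

/-- the image of `y` under an automorphism -/
def Coord (g : A2 K) : Prop := ∃ σ : AutA K, σ (X 1) = g

theorem Coord.map {g : A2 K} (h : Coord g) (e : AutA K) : Coord (e g) := by
  obtain ⟨σ, rfl⟩ := h
  exact ⟨e * σ, rfl⟩

/-- Proof: `g = σ (X 1)`. Let `ψ₀ : A → A[t]` be `x ↦ x + t`, `y ↦ y`
(`aeval ![Polynomial.C (X 0) + Polynomial.X, Polynomial.C (X 1)]`) and
`ψ = (Polynomial.mapAlgHom σ) ∘ ψ₀ ∘ σ⁻¹`. -/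
theorem Coord.exists_flow {g : A2 K} (h : Coord g) : ∃ ψ : A2 K →ₐ[K] Polynomial (A2 K),
    (∀ a, (ψ a).coeff 0 = a) ∧ ψ g = Polynomial.C g ∧ ¬ ∀ a, ψ a = Polynomial.C a := by
  obtain ⟨σ, rfl⟩ := h
  set ψ₀ : A2 K →ₐ[K] Polynomial (A2 K) :=
    aeval ![Polynomial.C (X 0) + Polynomial.X, Polynomial.C (X 1)] with hψ₀
  set S : Polynomial (A2 K) →ₐ[K] Polynomial (A2 K) :=
    Polynomial.mapAlgHom (σ : A2 K →ₐ[K] A2 K) with hS
  set ψ : A2 K →ₐ[K] Polynomial (A2 K) := S.comp (ψ₀.comp (σ.symm : A2 K →ₐ[K] A2 K)) with hψ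
  have hSa : ∀ P, S P = P.map ((σ : A2 K →ₐ[K] A2 K) : A2 K →+* A2 K) := fun P => rfl
  have hψa : ∀ a, ψ (σ a) = S (ψ₀ a) := by
    intro a
    change S (ψ₀ (σ.symm (σ a))) = _
    rw [AlgEquiv.symm_apply_apply]
  have h0 : ∀ a, (ψ₀ a).coeff 0 = a := by
    intro a
    induction a using MvPolynomial.induction_on with
    | C c => rw [alg_C, Polynomial.coeff_C_zero]
    | add p q hp hq => rw [map_add, Polynomial.coeff_add, hp, hq]
    | mul_X p v hp =>
      rw [map_mul, Polynomial.mul_coeff_zero, hp]
      congr 1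
      rw [hψ₀, aeval_X]
      fin_cases v
      · change (Polynomial.C (X 0 : A2 K) + Polynomial.X).coeff 0 = X 0
        rw [Polynomial.coeff_add, Polynomial.coeff_C_zero, Polynomial.coeff_X_zero, add_zero]
      · change (Polynomial.C (X 1 : A2 K)).coeff 0 = X 1
        rw [Polynomial.coeff_C_zero]
  have hX0 : ψ₀ (X 0) = Polynomial.C (X 0) + Polynomial.X := by rw [hψ₀, aeval_X]; rfl
  have hX1 : ψ₀ (X 1) = Polynomial.C (X 1) := by rw [hψ₀, aeval_X]; rfl
  refine ⟨ψ, fun a => ?_, ?_, fun h => ?_⟩
  · obtain ⟨b, rfl⟩ := σ.surjective a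
    rw [hψa, hSa, Polynomial.coeff_map, h0]
    rfl
  · rw [hψa, hX1, hSa, Polynomial.map_C]
    rfl
  · have h1 := h (σ (X 0))
    rw [hψa, hX0, hSa, Polynomial.map_add, Polynomial.map_C, Polynomial.map_X] at h1
    have h2 := congrArg (fun P => Polynomial.coeff P 1) h1
    simp only [Polynomial.coeff_add, Polynomial.coeff_C, Polynomial.coeff_X, if_true] at h2
    simp at h2

/-- Proof: `X 1` is irreducible (`MvPolynomial.X_prime`) and `σ` is a ring isomorphism. -/
theorem Coord.irreducible {g : A2 K} (h : Coord g) : Irreducible g := by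
  obtain ⟨σ, rfl⟩ := h
  exact (MulEquiv.irreducible_iff (σ : A2 K ≃* A2 K)).2 (X_prime (i := (1 : Fin 2))).irreducible

/-- Proof: `g = σ (X 1)` is not a constant, constants are fixed by `σ`. -/
theorem Coord.totalDegree_ne_zero {g : A2 K} (h : Coord g) : g.totalDegree ≠ 0 := by
  obtain ⟨σ, rfl⟩ := h
  intro h0
  rw [totalDegree_eq_zero_iff_eq_C] at h0
  rw [← aut_C σ] at h0
  have h1 := σ.injective h0
  have h2 := congrArg (eval (fun _ => (0 : K))) h1
  have h3 := congrArg (eval (fun _ => (1 : K))) h1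
  rw [eval_X, eval_C] at h2 h3
  rw [← h2] at h3
  exact one_ne_zero h3

end Pool.Agent.Lib.MP_c052b4_al.JK
end

section

/-!
# Weights of the two variables
-/

set_option autoImplicit false

namespace Pool.Agent.Lib.MP_c052b4_al.JK

open MvPolynomial

universe u

variable {K : Type u} [Field K]

/-- the weights `b, a` of `x, y` -/
def wt (a b : ℕ) : Fin 2 → ℚ := ![(b : ℚ), (a : ℚ)]

theorem weight_wt (a b : ℕ) (d : Fin 2 →₀ ℕ) :
    Finsupp.weight (wt a b) d = (b : ℚ) * d 0 + a * d 1 := by
  rw [Finsupp.weight_apply, Finsupp.sum_fintype _ _ (fun i => by rw [zero_smul]), Fin.sum_univ_two]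
  simp only [wt, nsmul_eq_mul, Matrix.cons_val_zero, Matrix.cons_val_one]
  ring

/-- the substitution `x ↦ x^a`, `y ↦ y^b` -/
noncomputable def Hm (K : Type u) [Field K] (a b : ℕ) : A2 K →ₐ[K] A2 K :=
  aeval ![X 0 ^ a, X 1 ^ b]

theorem Hm_root (a b : ℕ) (r : K) :
    Hm K a b ((Polynomial.X - Polynomial.C r).homogenize 1) = X 0 ^ a - C r * X 1 ^ b := by
  rw [Polynomial.homogenize_sub, Polynomial.homogenize_X one_ne_zero, Polynomial.homogenize_C,
    map_sub, map_mul, map_mul, map_pow, map_pow]
  simp only [Hm, aeval_X, algHom_C, Matrix.cons_val_zero, Matrix.cons_val_one]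
  rw [Nat.sub_self, pow_zero, mul_one, pow_one]
  rfl

/-- Proof: a polynomial over an algebraically closed field splits; all its roots are `r`. -/
theorem eq_pow_of_roots [IsAlgClosed K] (P : Polynomial K) (r : K)
    (h : ∀ s, P.IsRoot s → s = r) :
    P = Polynomial.C P.leadingCoeff * (Polynomial.X - Polynomial.C r) ^ P.natDegree := by
  have hs := IsAlgClosed.splits P
  have h1 : P.roots = Multiset.replicate P.natDegree r := by
    rw [Multiset.eq_replicate]
    refine ⟨hs.natDegree_eq_card_roots.symm, fun b hb => ?_⟩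
    exact h b (Polynomial.isRoot_of_mem_roots hb)
  conv_lhs => rw [hs.eq_prod_roots, h1]
  rw [Multiset.map_replicate, Multiset.prod_replicate]

end Pool.Agent.Lib.MP_c052b4_al.JK
end

section

/-!
# Weighted homogeneous polynomials in two variables
-/

set_option autoImplicit false

namespace Pool.Agent.Lib.MP_c052b4_al.JK

open MvPolynomial

universe u

variable {K : Type u} [Field K]

theorem lead1_mono (i j : ℕ) (c : K) :
    (monomial (Finsupp.single 0 i + Finsupp.single 1 j) c : A2 K) = C c * (X 0 ^ i * X 1 ^ j) := by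
  rw [monomial_eq, Finsupp.prod_fintype _ _ (fun i => pow_zero _), Fin.prod_univ_two]
  simp

theorem lead1_Hm (P : Polynomial K) (a b n N : ℕ) (hN : b * N ≤ n) :
    (X 1 ^ (n - b * N) * Hm K a b (P.homogenize N) : A2 K) =
      ∑ k ∈ Finset.range (N + 1),
        monomial (Finsupp.single 0 (a * k) + Finsupp.single 1 (n - b * k)) (P.coeff k) := by
  unfold Polynomial.homogenize
  rw [map_sum, Finset.mul_sum]
  rw [Finset.Nat.sum_antidiagonal_eq_sum_range_succ_mk]
  refine Finset.sum_congr rfl fun k hk => ?_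
  have hk' : k ≤ N := Nat.lt_succ_iff.1 (Finset.mem_range.1 hk)
  rw [lead1_mono, Hm, aeval_monomial, Finsupp.prod_fintype _ _ (fun i => pow_zero _),
    Fin.prod_univ_two]
  have hbk : b * k ≤ b * N := Nat.mul_le_mul_left b hk'
  have e1 : n - b * k = (n - b * N) + b * (N - k) := by
    rw [Nat.mul_sub]
    omega
  simp only [Finsupp.coe_update, Matrix.cons_val_zero, Matrix.cons_val_one, algebraMap_eq]
  rw [e1]
  simp
  ring

theorem lead1_div {a b n i j : ℕ} (ha : 0 < a) (hab : a.Coprime b)
    (h : b * i + a * j = a * n) : ∃ l, i = a * l ∧ j = n - b * l ∧ b * l ≤ n := by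
  have h1 : a ∣ b * i := by
    have h2 : a ∣ b * i + a * j := h ▸ Dvd.intro n rfl
    exact (Nat.dvd_add_left (Dvd.intro j rfl)).1 h2
  obtain ⟨l, rfl⟩ := hab.dvd_of_dvd_mul_left h1
  refine ⟨l, rfl, ?_⟩
  have h3 : a * (b * l + j) = a * n := by
    rw [← h]
    ring
  have h4 := Nat.eq_of_mul_eq_mul_left ha h3
  omega


/-- Proof. Let `G` be the component. `d` in the support of `G` satisfies `b d₀ + a d₁ = a n`, so
`a ∣ d₀` (coprime), `d₀ = a l`, `d₁ = n - b l`, `b l ≤ n`. Let
`P = ∑ l ∈ range (n / b + 1), monomial l (coeff (single 0 (a l) + single 1 (n - b l)) g)`.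
`P.coeff 0 = coeff (single 1 n) g ≠ 0`, `natDegree P ≠ 0` by `hx`, `b * natDegree P ≤ n`, and the
last identity holds coefficient by coefficient (or: write both sides as the sum of the monomials
`C (P.coeff l) * X 0 ^ (a l) * X 1 ^ (n - b l)`, `l ≤ natDegree P`; see the definition of
`Polynomial.homogenize`). -/
theorem exists_poly (g : A2 K) (a b n : ℕ) (ha : 0 < a) (hb : 0 < b) (hab : a.Coprime b)
    (hy : coeff (Finsupp.single 1 n) g ≠ 0)
    (hx : ∃ d, coeff d g ≠ 0 ∧ d 0 ≠ 0 ∧ b * d 0 + a * d 1 = a * n) :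
    ∃ P : Polynomial K, P.coeff 0 ≠ 0 ∧ P.natDegree ≠ 0 ∧ b * P.natDegree ≤ n ∧
      top (wt a b) (a * n : ℚ) g =
        X 1 ^ (n - b * P.natDegree) * Hm K a b (P.homogenize P.natDegree) := by
  classical
  let P : Polynomial K := ∑ l ∈ Finset.range (n / b + 1),
    Polynomial.monomial l (coeff (Finsupp.single 0 (a * l) + Finsupp.single 1 (n - b * l)) g)
  have hPc : ∀ l, P.coeff l = if l ∈ Finset.range (n / b + 1) then
      coeff (Finsupp.single 0 (a * l) + Finsupp.single 1 (n - b * l)) g else 0 := by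
    intro l
    simp only [P, Polynomial.finsetSum_coeff, Polynomial.coeff_monomial]
    rw [Finset.sum_ite_eq' (Finset.range (n / b + 1)) l]
  have hmem : ∀ l, b * l ≤ n → l ∈ Finset.range (n / b + 1) := by
    intro l hl
    rw [Finset.mem_range, Nat.lt_succ_iff, Nat.le_div_iff_mul_le hb, mul_comm]
    exact hl
  have hP1 : ∀ l, b * l ≤ n →
      P.coeff l = coeff (Finsupp.single 0 (a * l) + Finsupp.single 1 (n - b * l)) g := by
    intro l hl
    rw [hPc, if_pos (hmem l hl)]
  have hdeg : P.natDegree ≤ n / b := by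
    rw [Polynomial.natDegree_le_iff_coeff_eq_zero]
    intro l hl
    rw [hPc, if_neg]
    rw [Finset.mem_range]
    omega
  have hbN : b * P.natDegree ≤ n :=
    le_trans (Nat.mul_le_mul_left b hdeg) (Nat.mul_div_le n b)
  refine ⟨P, ?_, ?_, hbN, ?_⟩
  · rw [hP1 0 (by omega), mul_zero, mul_zero, Finsupp.single_zero, zero_add, Nat.sub_zero]
    exact hy
  · obtain ⟨d, hd, hd0, hd1⟩ := hx
    obtain ⟨l, hl1, hl2, hl3⟩ := lead1_div ha hab hd1
    have h1 : d = Finsupp.single 0 (a * l) + Finsupp.single 1 (n - b * l) := by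
      ext i
      fin_cases i
      · simp [hl1]
      · simp [hl2]
    have h2 : P.coeff l ≠ 0 := by
      rw [hP1 l hl3, ← h1]
      exact hd
    have h3 := Polynomial.le_natDegree_of_ne_zero h2
    have h4 : l ≠ 0 := by
      rintro rfl
      exact hd0 (by rw [hl1, mul_zero])
    omega
  · rw [lead1_Hm P a b n _ hbN]
    ext d
    rw [coeff_top, coeff_sum, weight_wt]
    simp only [coeff_monomial]
    by_cases hd : (b : ℚ) * d 0 + a * d 1 = a * n
    · rw [if_pos hd]
      have hd' : b * d 0 + a * d 1 = a * n := by exact_mod_cast hd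
      obtain ⟨l, hl1, hl2, hl3⟩ := lead1_div ha hab hd'
      have h1 : d = Finsupp.single 0 (a * l) + Finsupp.single 1 (n - b * l) := by
        ext i
        fin_cases i
        · simp [hl1]
        · simp [hl2]
      have h2 : ∀ k, (Finsupp.single 0 (a * k) + Finsupp.single 1 (n - b * k) = d ↔ k = l) := by
        intro k
        constructor
        · intro h
          have h3 := DFunLike.congr_fun h 0
          simp only [Finsupp.add_apply, Finsupp.single_eq_same] at h3
          rw [Finsupp.single_eq_of_ne (by decide), add_zero, hl1] at h3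
          exact Nat.eq_of_mul_eq_mul_left ha h3
        · rintro rfl
          exact h1.symm
      simp only [h2]
      rw [Finset.sum_ite_eq' (Finset.range (P.natDegree + 1)) l]
      by_cases hl : l ∈ Finset.range (P.natDegree + 1)
      · rw [if_pos hl, hP1 l hl3, ← h1]
      · rw [if_neg hl]
        rw [Finset.mem_range, not_lt] at hl
        have h4 := Polynomial.coeff_eq_zero_of_natDegree_lt (lt_of_lt_of_le (Nat.lt_succ_self _) hl)
        rw [hP1 l hl3, ← h1] at h4
        exact h4
    · rw [if_neg hd]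
      symm
      refine Finset.sum_eq_zero fun k hk => if_neg ?_
      rintro rfl
      apply hd
      have hk' : k ≤ P.natDegree := Nat.lt_succ_iff.1 (Finset.mem_range.1 hk)
      have h5 : b * k ≤ n := le_trans (Nat.mul_le_mul_left b hk') hbN
      have h6 : ((n - b * k : ℕ) : ℚ) = n - b * k := by
        rw [Nat.cast_sub h5, Nat.cast_mul]
      simp only [Finsupp.add_apply, Finsupp.single_apply]
      norm_num
      rw [h6]
      ring

end Pool.Agent.Lib.MP_c052b4_al.JK
end
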