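import Mathlib

section

/-!
# The slope
-/

set_option autoImplicit false

namespace Pool.Agent.Lib.MP_c052b4_al.JK

/-- Arithmetic. Proof: `S` is a finite nonempty set of pairs `(i, j)` with `i ≠ 0`, `i + j < n`.
Choose the pair `(i₀, j₀)` with minimal `(n - j) / i` (`Finset.exists_min_image`), and
`b / a = (n - j₀) / i₀` in lowest terms (`b = (n - j₀) / gcd`, `a = i₀ / gcd`). -/
theorem exists_slope (S : Finset (ℕ × ℕ)) (hS : S.Nonempty) (n : ℕ)
    (h : ∀ x ∈ S, x.1 ≠ 0 ∧ x.1 + x.2 < n) : ∃ a b : ℕ, 0 < a ∧ a < b ∧ a.Coprime b ∧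
      (∀ x ∈ S, b * x.1 + a * x.2 ≤ a * n) ∧ ∃ x ∈ S, b * x.1 + a * x.2 = a * n := by
  obtain ⟨⟨i₀, j₀⟩, hx₀, hmin⟩ := Finset.exists_min_image S
    (fun x => ((n - x.2 : ℕ) : ℚ) / (x.1 : ℚ)) hS
  obtain ⟨hi₀, hlt₀⟩ := h _ hx₀
  simp only at hi₀ hlt₀ hmin
  have hi₀p : 0 < i₀ := Nat.pos_of_ne_zero hi₀
  set g := Nat.gcd i₀ (n - j₀) with hg
  have hgpos : 0 < g := Nat.gcd_pos_of_pos_left _ hi₀p
  obtain ⟨a, ha⟩ : g ∣ i₀ := Nat.gcd_dvd_left _ _
  obtain ⟨b, hb⟩ : g ∣ n - j₀ := Nat.gcd_dvd_right _ _
  have hn : n = j₀ + (n - j₀) := by omega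
  have hcop : a.Coprime b := by
    have h1 : Nat.gcd (g * a) (g * b) = g := by rw [← ha, ← hb]
    rw [Nat.gcd_mul_left] at h1
    exact Nat.eq_of_mul_eq_mul_left hgpos (by rw [h1, mul_one])
  have hapos : 0 < a := by
    rcases Nat.eq_zero_or_pos a with h1 | h1
    · rw [h1, mul_zero] at ha
      omega
    · exact h1
  have hab : a < b := by
    have h1 : g * a < g * b := by rw [← ha, ← hb]; omega
    exact lt_of_mul_lt_mul_left h1 (Nat.zero_le _)
  refine ⟨a, b, hapos, hab, hcop, ?_, (i₀, j₀), hx₀, ?_⟩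
  · rintro ⟨i, j⟩ hx
    obtain ⟨hi, hlt⟩ := h _ hx
    simp only at hi hlt
    have h1 := hmin (i, j) hx
    simp only at h1
    have hip : 0 < i := Nat.pos_of_ne_zero hi
    rw [div_le_div_iff₀ (by exact_mod_cast hi₀p) (by exact_mod_cast hip)] at h1
    have h2 : (n - j₀) * i ≤ (n - j) * i₀ := by exact_mod_cast h1
    rw [ha, hb] at h2
    have h3 : g * (b * i) ≤ g * (a * (n - j)) := by
      calc g * (b * i) = g * b * i := by ring
        _ ≤ (n - j) * (g * a) := h2
        _ = g * (a * (n - j)) := by ring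
    have h4 : b * i ≤ a * (n - j) := le_of_mul_le_mul_left h3 hgpos
    show b * i + a * j ≤ a * n
    calc b * i + a * j ≤ a * (n - j) + a * j := Nat.add_le_add_right h4 _
      _ = a * (n - j + j) := by ring
      _ = a * n := by rw [Nat.sub_add_cancel (by omega)]
  · show b * i₀ + a * j₀ = a * n
    calc b * i₀ + a * j₀ = b * (g * a) + a * j₀ := by rw [← ha]
      _ = a * (j₀ + g * b) := by ring
      _ = a * n := by rw [← hb, ← hn]

end Pool.Agent.Lib.MP_c052b4_al.JK
end

section

/-!
# Trees from rank functions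
-/

set_option autoImplicit false

namespace Pool.Agent.Lib.MP_c052b4_al.JK

universe u

/-- A graph is a tree if there is a rank function such that every vertex except `o` has a neighbour
of smaller rank, and every vertex has at most one neighbour of rank not larger than its own.
Proof. Connected: strong induction on the rank. No cycles: rotate a cycle so that it starts at a
vertex of maximal rank (`SimpleGraph.Walk.rotate`); the two neighbours in the cycle
(`Walk.snd`, `Walk.penultimate`) have rank at most that of the vertex, so they are equal: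
contradiction with `SimpleGraph.Walk.IsCycle.snd_ne_penultimate`. -/
theorem isTree_of_rank {V : Type u} (Γ : SimpleGraph V) (rk : V → ℕ) (o : V)
    (h1 : ∀ x, x ≠ o → ∃ y, Γ.Adj x y ∧ rk y < rk x)
    (h2 : ∀ x y z, Γ.Adj x y → Γ.Adj x z → rk y ≤ rk x → rk z ≤ rk x → y = z) :
    Γ.IsTree := by
  classical
  have hreach : ∀ n, ∀ x, rk x = n → Γ.Reachable x o := by
    intro n
    induction n using Nat.strong_induction_on with
    | _ n ih =>
      intro x hx
      by_cases hxo : x = o
      · subst hxo; exact SimpleGraph.Reachable.refl _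
      · obtain ⟨y, hy, hlt⟩ := h1 x hxo
        exact hy.reachable.trans (ih (rk y) (hx ▸ hlt) y rfl)
  refine ⟨?_, ?_⟩
  · have : Nonempty V := ⟨o⟩
    exact SimpleGraph.Connected.mk fun x y => (hreach _ x rfl).trans (hreach _ y rfl).symm
  · intro v c hc
    obtain ⟨u, hu, hmax⟩ := Finset.exists_max_image c.support.toFinset rk
      ⟨v, List.mem_toFinset.2 c.start_mem_support⟩
    have hu' : u ∈ c.support := List.mem_toFinset.1 hu
    have hc' : (c.rotate u hu').IsCycle := (SimpleGraph.Walk.isCycle_rotate hu').2 hc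
    have hle : ∀ z ∈ (c.rotate u hu').support, rk z ≤ rk u := fun z hz =>
      hmax z (List.mem_toFinset.2 ((SimpleGraph.Walk.mem_support_rotate_iff c u hu').1 hz))
    have hnil : ¬ (c.rotate u hu').Nil := hc'.not_nil
    have a1 : Γ.Adj u (c.rotate u hu').snd := SimpleGraph.Walk.adj_snd hnil
    have a2 : Γ.Adj u (c.rotate u hu').penultimate :=
      (SimpleGraph.Walk.adj_penultimate hnil).symm
    have m1 : (c.rotate u hu').snd ∈ (c.rotate u hu').support :=
      List.mem_of_mem_tail (SimpleGraph.Walk.snd_mem_tail_support hnil)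
    have m2 : (c.rotate u hu').penultimate ∈ (c.rotate u hu').support :=
      List.mem_of_mem_dropLast (SimpleGraph.Walk.penultimate_mem_dropLast_support hnil)
    exact hc'.snd_ne_penultimate (h2 u _ _ a1 a2 (hle _ m1) (hle _ m2))

end Pool.Agent.Lib.MP_c052b4_al.JK
end

section

/-!
# Labelled free modules

`Lbl G`: a `G`-set with an invariant preorder. `VCat S L`: free `S[G]`-modules with a basis labelled by
`L`; morphisms are the linear maps which respect the filtrations given by the labels.
-/

set_option autoImplicit false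

namespace Pool.Agent.Lib.MP_c052b4_al.MT

open CategoryTheory

universe u

/-- A `G`-set with an invariant preorder. -/
structure Lbl (G : Type u) [Group G] where
  W : Type u
  [act : MulAction G W]
  le : W → W → Prop
  refl : ∀ x, le x x
  trans : ∀ {x y z}, le x y → le y z → le x z
  smul : ∀ (g : G) {x y}, le x y → le (g • x) (g • y)

attribute [instance] Lbl.act

/-- Labelled bases. -/
structure VCat (S : Type u) [Ring S] {G : Type u} [Group G] (L : Lbl G) where
  I : Type u
  l : I → L.W

variable {S : Type u} [Ring S] {G : Type u} [Group G] {L : Lbl G}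

namespace VCat

/-- The free module. -/
abbrev M (X : VCat S L) : Type u := X.I →₀ MonoidAlgebra S G

/-- The filtration: vectors all of whose basis elements `g e_i` have `w ≤ g l(i)`. -/
def fil (X : VCat S L) (w : L.W) : Submodule S X.M where
  carrier := {v | ∀ i g, (v i).coeff g ≠ 0 → L.le w (g • X.l i)}
  add_mem' := by
    intro a b ha hb i g h
    by_cases h1 : (a i).coeff g = 0
    · refine hb i g fun h2 => h ?_
      rw [Finsupp.add_apply, MonoidAlgebra.coeff_add, Finsupp.add_apply, h1, h2, add_zero]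
    · exact ha i g h1
  zero_mem' := by
    intro i g h
    exact absurd (by simp) h
  smul_mem' := by
    intro s a ha i g h
    refine ha i g fun h2 => h ?_
    rw [Finsupp.smul_apply, MonoidAlgebra.coeff_smul, Finsupp.smul_apply, h2, smul_zero]

theorem mem_fil {X : VCat S L} {w : L.W} {v : X.M} :
    v ∈ X.fil w ↔ ∀ i g, (v i).coeff g ≠ 0 → L.le w (g • X.l i) := Iff.rfl

/-- The group of morphisms. -/
def homSub (X Y : VCat S L) : AddSubgroup (X.M →ₗ[MonoidAlgebra S G] Y.M) where
  carrier := {f | ∀ w, ∀ v ∈ X.fil w, f v ∈ Y.fil w}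
  add_mem' := by
    intro a b ha hb w v hv
    exact (Y.fil w).add_mem (ha w v hv) (hb w v hv)
  zero_mem' := by
    intro w v _
    exact (Y.fil w).zero_mem
  neg_mem' := by
    intro a ha w v hv
    exact (Y.fil w).neg_mem (ha w v hv)

noncomputable instance : Category (VCat S L) where
  Hom X Y := homSub X Y
  id X := ⟨LinearMap.id, fun _ _ h => h⟩
  comp f g := ⟨g.1.comp f.1, fun w v h => g.2 w _ (f.2 w v h)⟩

variable {X Y Z : VCat S L}

/-- The linear map underlying a morphism. -/
def lin (f : X ⟶ Y) : X.M →ₗ[MonoidAlgebra S G] Y.M := f.1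

/-- Construct a morphism. -/
def mkHom (f : X.M →ₗ[MonoidAlgebra S G] Y.M) (h : ∀ w, ∀ v ∈ X.fil w, f v ∈ Y.fil w) : X ⟶ Y :=
  ⟨f, h⟩

theorem lin_mem (f : X ⟶ Y) {w : L.W} {v : X.M} (h : v ∈ X.fil w) : lin f v ∈ Y.fil w := f.2 w v h

@[ext]
theorem hom_ext {f g : X ⟶ Y} (h : lin f = lin g) : f = g := Subtype.ext h

@[simp]
theorem lin_mkHom (f : X.M →ₗ[MonoidAlgebra S G] Y.M) (h) : lin (mkHom f h) = f := rfl

@[simp]
theorem lin_id : lin (𝟙 X) = LinearMap.id := rfl

@[simp]
theorem lin_comp (f : X ⟶ Y) (g : Y ⟶ Z) : lin (f ≫ g) = (lin g).comp (lin f) := rfl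

noncomputable instance : AddCommGroup (X ⟶ Y) := inferInstanceAs (AddCommGroup (homSub X Y))

@[simp]
theorem lin_add (f g : X ⟶ Y) : lin (f + g) = lin f + lin g := rfl

@[simp]
theorem lin_sub (f g : X ⟶ Y) : lin (f - g) = lin f - lin g := rfl

@[simp]
theorem lin_neg (f : X ⟶ Y) : lin (-f) = -lin f := rfl

@[simp]
theorem lin_zero : lin (0 : X ⟶ Y) = 0 := rfl

noncomputable instance : Preadditive (VCat S L) where
  homGroup X Y := inferInstance
  add_comp := by
    intro P Q R f f' g
    apply hom_ext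
    rw [lin_comp, lin_add, lin_add, lin_comp, lin_comp, LinearMap.comp_add]
  comp_add := by
    intro P Q R f g g'
    apply hom_ext
    rw [lin_comp, lin_add, lin_add, lin_comp, lin_comp, LinearMap.add_comp]

/-- multiplication by a group element -/
theorem smul_mem_fil {X : VCat S L} (g : G) {x : L.W} {v : X.M} (hv : v ∈ X.fil x) :
    (MonoidAlgebra.single g (1 : S)) • v ∈ X.fil (g • x) := by
  intro i h hh
  have h1 : ((MonoidAlgebra.single g (1 : S) • v) i).coeff h = (v i).coeff (g⁻¹ * h) := by
    rw [Finsupp.smul_apply, smul_eq_mul, MonoidAlgebra.coeff_single_mul_apply, one_mul]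
  rw [h1] at hh
  have h2 := L.smul g (hv i _ hh)
  rwa [← mul_smul, mul_inv_cancel_left] at h2

theorem fil_mono {X : VCat S L} {w w' : L.W} (h : L.le w w') : X.fil w' ≤ X.fil w :=
  fun _ hv i g hg => L.trans h (hv i g hg)

/-- The basis vectors. -/
noncomputable def e (X : VCat S L) (i : X.I) : X.M := Finsupp.single i 1

theorem e_mem (X : VCat S L) (i : X.I) : X.e i ∈ X.fil (X.l i) := by
  classical
  intro j g hg
  unfold e at hg
  rw [Finsupp.single_apply] at hg
  split_ifs at hg with h1
  · subst h1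
    rw [MonoidAlgebra.one_def, MonoidAlgebra.coeff_single, Finsupp.single_apply] at hg
    split_ifs at hg with h2
    · subst h2
      rw [one_smul]
      exact L.refl _
    · exact absurd rfl hg
  · exact absurd (by simp) hg

/-- A linear map which respects the filtration on the basis respects the filtration. -/
theorem map_fil_of_basis {X Y : VCat S L} (f : X.M →ₗ[MonoidAlgebra S G] Y.M)
    (h : ∀ i, f (X.e i) ∈ Y.fil (X.l i)) (w : L.W) (v : X.M) (hv : v ∈ X.fil w) :
    f v ∈ Y.fil w := by
  classical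
  have key : ∀ i (a : MonoidAlgebra S G), (∀ g, a.coeff g ≠ 0 → L.le w (g • X.l i)) →
      a • f (X.e i) ∈ Y.fil w := by
    intro i a ha
    have h1 : a = ∑ g ∈ a.coeff.support, MonoidAlgebra.single g (a.coeff g) := by
      apply MonoidAlgebra.coeff_injective
      rw [MonoidAlgebra.coeff_sum]
      simp only [MonoidAlgebra.coeff_single]
      exact (Finsupp.sum_single _).symm
    rw [h1, Finset.sum_smul]
    refine Submodule.sum_mem _ fun g hg => ?_
    have h2 : MonoidAlgebra.single g (a.coeff g) =
        (a.coeff g) • MonoidAlgebra.single g (1 : S) := by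
      rw [MonoidAlgebra.smul_single, smul_eq_mul, mul_one]
    rw [h2, smul_assoc]
    refine (Y.fil w).smul_mem _ ?_
    exact fil_mono (ha g (Finsupp.mem_support_iff.1 hg)) (smul_mem_fil g (h i))
  have h3 : f v = v.sum fun i a => a • f (X.e i) := by
    conv_lhs => rw [← Finsupp.sum_single v]
    rw [Finsupp.sum, map_sum, Finsupp.sum]
    refine Finset.sum_congr rfl fun i _ => ?_
    rw [← LinearMap.map_smul]
    congr 1
    unfold e
    rw [Finsupp.smul_single, smul_eq_mul, mul_one]
  rw [h3]
  exact Submodule.sum_mem _ fun i _ => key i _ (hv i)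

/-- A morphism is given by its values on the basis. -/
noncomputable def ofBasis {X Y : VCat S L} (f : ∀ i, Y.fil (X.l i)) : X ⟶ Y :=
  mkHom (Finsupp.linearCombination (MonoidAlgebra S G) fun i => (f i : Y.M))
    (map_fil_of_basis _ fun i => by
      unfold e
      rw [Finsupp.linearCombination_single, one_smul]
      exact (f i).2)

@[simp]
theorem lin_ofBasis_e {X Y : VCat S L} (f : ∀ i, Y.fil (X.l i)) (i : X.I) :
    lin (ofBasis f) (X.e i) = f i := by
  unfold ofBasis e
  rw [lin_mkHom, Finsupp.linearCombination_single, one_smul]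

theorem ext_e {X Y : VCat S L} {f g : X ⟶ Y} (h : ∀ i, lin f (X.e i) = lin g (X.e i)) : f = g := by
  apply hom_ext
  refine Finsupp.lhom_ext' fun i => LinearMap.ext_ring ?_
  exact h i

open Limits

/-- The zero object. -/
def zeroObj : VCat S L := ⟨PEmpty, PEmpty.elim⟩

instance : HasZeroObject (VCat S L) :=
  ⟨zeroObj, (IsZero.iff_id_eq_zero _).2 (ext_e fun i => i.elim)⟩

/-- The direct sum. -/
def sum (X Y : VCat S L) : VCat S L := ⟨X.I ⊕ Y.I, Sum.elim X.l Y.l⟩

noncomputable def sumInl (X Y : VCat S L) : X ⟶ sum X Y :=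
  ofBasis fun i => ⟨(sum X Y).e (Sum.inl i), (sum X Y).e_mem (Sum.inl i)⟩

noncomputable def sumInr (X Y : VCat S L) : Y ⟶ sum X Y :=
  ofBasis fun i => ⟨(sum X Y).e (Sum.inr i), (sum X Y).e_mem (Sum.inr i)⟩

noncomputable def sumFst (X Y : VCat S L) : sum X Y ⟶ X :=
  ofBasis fun i => match i with
    | Sum.inl i => ⟨X.e i, X.e_mem i⟩
    | Sum.inr _ => 0

noncomputable def sumSnd (X Y : VCat S L) : sum X Y ⟶ Y :=
  ofBasis fun i => match i with
    | Sum.inl _ => 0
    | Sum.inr i => ⟨Y.e i, Y.e_mem i⟩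

theorem sumInl_e (X Y : VCat S L) (i) : lin (sumInl X Y) (X.e i) = (sum X Y).e (Sum.inl i) :=
  lin_ofBasis_e _ _

theorem sumInr_e (X Y : VCat S L) (i) : lin (sumInr X Y) (Y.e i) = (sum X Y).e (Sum.inr i) :=
  lin_ofBasis_e _ _

theorem sumFst_inl (X Y : VCat S L) (i) : lin (sumFst X Y) ((sum X Y).e (Sum.inl i)) = X.e i :=
  lin_ofBasis_e _ _

theorem sumFst_inr (X Y : VCat S L) (i) : lin (sumFst X Y) ((sum X Y).e (Sum.inr i)) = 0 :=
  lin_ofBasis_e _ _

theorem sumSnd_inl (X Y : VCat S L) (i) : lin (sumSnd X Y) ((sum X Y).e (Sum.inl i)) = 0 :=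
  lin_ofBasis_e _ _

theorem sumSnd_inr (X Y : VCat S L) (i) : lin (sumSnd X Y) ((sum X Y).e (Sum.inr i)) = Y.e i :=
  lin_ofBasis_e _ _

noncomputable def sumBicone (X Y : VCat S L) : BinaryBicone X Y where
  pt := sum X Y
  fst := sumFst X Y
  snd := sumSnd X Y
  inl := sumInl X Y
  inr := sumInr X Y
  inl_fst := ext_e fun i => by
    rw [lin_comp, LinearMap.comp_apply, sumInl_e, sumFst_inl, lin_id]; rfl
  inl_snd := ext_e fun i => by
    rw [lin_comp, LinearMap.comp_apply, sumInl_e, sumSnd_inl, lin_zero]; rfl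
  inr_fst := ext_e fun i => by
    rw [lin_comp, LinearMap.comp_apply, sumInr_e, sumFst_inr, lin_zero]; rfl
  inr_snd := ext_e fun i => by
    rw [lin_comp, LinearMap.comp_apply, sumInr_e, sumSnd_inr, lin_id]; rfl

instance : HasBinaryBiproducts (VCat S L) where
  has_binary_biproduct X Y := HasBinaryBiproduct.mk
    { bicone := sumBicone X Y
      isBilimit := isBinaryBilimitOfTotal _ (ext_e fun i => by
        rw [lin_add, lin_comp, lin_comp, LinearMap.add_apply, LinearMap.comp_apply,
          LinearMap.comp_apply, lin_id, LinearMap.id_apply]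
        rcases i with i | i
        · change lin (sumInl X Y) (lin (sumFst X Y) ((sum X Y).e (Sum.inl i))) +
            lin (sumInr X Y) (lin (sumSnd X Y) ((sum X Y).e (Sum.inl i))) = _
          rw [sumFst_inl, sumSnd_inl, sumInl_e, map_zero, add_zero]
          rfl
        · change lin (sumInl X Y) (lin (sumFst X Y) ((sum X Y).e (Sum.inr i))) +
            lin (sumInr X Y) (lin (sumSnd X Y) ((sum X Y).e (Sum.inr i))) = _
          rw [sumFst_inr, sumSnd_inr, sumInr_e, map_zero, zero_add]
          rfl) }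

/-- Finite free objects. -/
def fin : ObjectProperty (VCat S L) := fun X => Finite X.I

end VCat

/-- Monotone equivariant maps of labels. -/
structure LblHom {G : Type u} [Group G] (L L' : Lbl G) where
  f : L.W → L'.W
  smul : ∀ (g : G) x, f (g • x) = g • f x
  mono : ∀ {x y}, L.le x y → L'.le (f x) (f y)

namespace VCat

variable {L' : Lbl G} (θ : LblHom L L')

/-- Change of labels: on objects. -/
def mapObj (X : VCat S L) : VCat S L' := ⟨X.I, fun i => θ.f (X.l i)⟩

theorem fil_mapObj {X : VCat S L} (w : L.W) : X.fil w ≤ (mapObj θ X).fil (θ.f w) :=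
  fun _ hv i g hg => by
    have := θ.mono (hv i g hg)
    rwa [θ.smul] at this

/-- Change of labels: the functor. -/
noncomputable def mapL : VCat S L ⥤ VCat S L' where
  obj X := mapObj θ X
  map {X Y} f := mkHom (X := mapObj θ X) (Y := mapObj θ Y) (lin (X := X) (Y := Y) f)
    (map_fil_of_basis (X := mapObj θ X) (Y := mapObj θ Y) _ fun i =>
      fil_mapObj θ _ (lin_mem f (X.e_mem i)))
  map_id X := rfl
  map_comp f g := rfl

instance : (mapL θ : VCat S L ⥤ VCat S L').Additive where
  map_add := rfl

/-- A natural transformation between changes of labels, given by identity matrices. -/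
noncomputable def mapLTrans {θ θ' : LblHom L L'} (h : ∀ x, L'.le (θ.f x) (θ'.f x)) :
    (mapL θ : VCat S L ⥤ VCat S L') ⟶ mapL θ' where
  app X := mkHom (X := mapObj θ X) (Y := mapObj θ' X) LinearMap.id
    (map_fil_of_basis (X := mapObj θ X) (Y := mapObj θ' X) _ fun i =>
      fil_mono (X := mapObj θ' X) (h (X.l i)) ((mapObj θ' X).e_mem i))
  naturality X Y f := rfl

end VCat

end Pool.Agent.Lib.MP_c052b4_al.MT
end

section

/-!
# Directions, labels, homotopy categories, graded matrix complexes

TREES^n, sections 1 and 2 (helper78). `Ys : D → Dir G` are the directed `G`-posets of labels.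
`UL Ys A` is the label set `∀ a, Y_a` with the preorder of the directions in `A`.
`WL Ys A B` is the set of pairs of labels; the first ones are compared in `A`, the second ones in `B`.
-/

set_option autoImplicit false

namespace Pool.Agent.Lib.MP_c052b4_al.MT

open CategoryTheory

universe u

/-- A nonempty directed `G`-poset (preorder). -/
structure Dir (G : Type u) [Group G] where
  Y : Type u
  [act : MulAction G Y]
  [pre : Preorder Y]
  [ne : Nonempty Y]
  mono : ∀ (g : G) {x y : Y}, x ≤ y → g • x ≤ g • y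
  dir : ∀ x y : Y, ∃ z, x ≤ z ∧ y ≤ z

attribute [instance] Dir.act Dir.pre Dir.ne

variable {G : Type u} [Group G] {D : Type} (Ys : D → Dir G)

/-- Labels compared in the directions in `A`. -/
def UL (A : Set D) : Lbl G where
  W := ∀ a, (Ys a).Y
  le x y := ∀ a ∈ A, x a ≤ y a
  refl _ _ _ := le_rfl
  trans h h' a ha := (h a ha).trans (h' a ha)
  smul g _ _ h a ha := (Ys a).mono g (h a ha)

/-- Pairs of labels: the first ones compared in `A`, the second ones in `B`. -/
def WL (A B : Set D) : Lbl G where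
  W := (∀ a, (Ys a).Y) × (∀ a, (Ys a).Y)
  le x y := (∀ a ∈ A, x.1 a ≤ y.1 a) ∧ ∀ a ∈ B, x.2 a ≤ y.2 a
  refl _ := ⟨fun _ _ => le_rfl, fun _ _ => le_rfl⟩
  trans h h' := ⟨fun a ha => (h.1 a ha).trans (h'.1 a ha), fun a ha => (h.2 a ha).trans (h'.2 a ha)⟩
  smul g _ _ h := ⟨fun a ha => (Ys a).mono g (h.1 a ha), fun a ha => (Ys a).mono g (h.2 a ha)⟩

/-- Forget directions. -/
def subHom {A A' : Set D} (h : A' ⊆ A) : LblHom (UL Ys A) (UL Ys A') where
  f := fun x => x
  smul _ _ := rfl
  mono hxy a ha := hxy a (h ha)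

variable (S : Type u) [Ring S]

/-- Graded matrix complexes without labels. -/
structure GC (S : Type u) [Ring S] (G : Type u) [Group G] where
  I : ℤ → Type u
  d : ∀ n, (I n →₀ MonoidAlgebra S G) →ₗ[MonoidAlgebra S G] (I (n + 1) →₀ MonoidAlgebra S G)
  dd : ∀ n, (d (n + 1)).comp (d n) = 0

end Pool.Agent.Lib.MP_c052b4_al.MT
end

section

/-!
# Change of coefficients
-/

set_option autoImplicit false
set_option linter.unusedVariables false

namespace Pool.Agent.Lib.MP_c052b4_al.MT

open CategoryTheory

universe u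

variable {S S' : Type u} [Ring S] [Ring S'] {G : Type u} [Group G] {L : Lbl G}

namespace VCat

/-- Change of coefficients: on objects. -/
@[reducible]
def bcObj (S' : Type u) [Ring S'] (X : VCat S L) : VCat S' L := ⟨X.I, X.l⟩

variable (φ : S →+* S')

/-- Change of coefficients: on vectors. -/
noncomputable def bcVec (X : VCat S L) :
    X.M →ₛₗ[MonoidAlgebra.mapRingHom G φ] (bcObj S' X).M where
  toFun v := Finsupp.mapRange (α := X.I) (MonoidAlgebra.mapRingHom G φ) (map_zero _) v
  map_add' v w := Finsupp.mapRange_add (fun a b => map_add _ a b) v w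
  map_smul' a v := by
    refine Finsupp.ext fun (i : X.I) => ?_
    change MonoidAlgebra.mapRingHom G φ (a * v i) =
      MonoidAlgebra.mapRingHom G φ a * MonoidAlgebra.mapRingHom G φ (v i)
    exact map_mul _ _ _

theorem bcVec_coeff (X : VCat S L) (v : X.M) (i : X.I) (g : G) :
    ((bcVec φ X v : (bcObj S' X).M) i).coeff g = φ ((v i).coeff g) := rfl

theorem bcVec_e (X : VCat S L) (i : X.I) : bcVec φ X (X.e i) = (bcObj S' X).e i := by
  refine (Finsupp.mapRange_single (hf := map_zero _)).trans ?_
  rw [map_one]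
  rfl

theorem bcVec_mem (X : VCat S L) {w : L.W} {v : X.M} (hv : v ∈ X.fil w) :
    bcVec φ X v ∈ (bcObj S' X).fil w := by
  intro i g hg
  refine hv i g fun h => hg ?_
  have := bcVec_coeff φ X v i g
  rw [h, map_zero] at this
  exact this

/-- Change of coefficients: on morphisms. -/
noncomputable def bcMap {X Y : VCat S L} (f : X ⟶ Y) : bcObj S' X ⟶ bcObj S' Y :=
  ofBasis fun i : X.I => ⟨bcVec φ Y (lin f (X.e i)), bcVec_mem φ Y (lin_mem f (X.e_mem i))⟩

theorem lin_bcMap_e {X Y : VCat S L} (f : X ⟶ Y) (i : X.I) :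
    lin (bcMap φ f) ((bcObj S' X).e i) = bcVec φ Y (lin f (X.e i)) := lin_ofBasis_e _ _

theorem lin_bcMap_bcVec {X Y : VCat S L} (f : X ⟶ Y) (v : X.M) :
    lin (bcMap φ f) (bcVec φ X v) = bcVec φ Y (lin f v) := by
  induction v using Finsupp.induction_linear with
  | zero => simp only [map_zero]
  | add a b ha hb => simp only [map_add, ha, hb]
  | single i a =>
    have h1 : (Finsupp.single i a : X.M) = a • X.e i := by
      unfold e
      rw [Finsupp.smul_single, smul_eq_mul, mul_one]
    rw [h1, LinearMap.map_smulₛₗ (bcVec φ X), LinearMap.map_smul (lin (bcMap φ f)),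
      LinearMap.map_smul (lin f), LinearMap.map_smulₛₗ (bcVec φ Y), bcVec_e, lin_bcMap_e]

/-- Change of coefficients: the functor. -/
noncomputable def bc : VCat S L ⥤ VCat S' L where
  obj X := bcObj S' X
  map f := bcMap φ f
  map_id X := ext_e fun i => (lin_bcMap_e φ _ i).trans (bcVec_e φ X i)
  map_comp {X Y Z} f g := ext_e fun i => by
    refine (lin_bcMap_e φ _ i).trans ?_
    rw [lin_comp, LinearMap.comp_apply, lin_comp, LinearMap.comp_apply]
    rw [lin_bcMap_e, lin_bcMap_bcVec]

instance : (bc φ : VCat S L ⥤ VCat S' L).Additive where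
  map_add {X Y f g} := ext_e fun i => by
    refine (lin_bcMap_e φ _ i).trans ?_
    rw [lin_add, LinearMap.add_apply, lin_add, LinearMap.add_apply, map_add]
    exact congrArg₂ (· + ·) (lin_bcMap_e φ _ i).symm (lin_bcMap_e φ _ i).symm

end VCat

end Pool.Agent.Lib.MP_c052b4_al.MT
end

section

/-!
# Homotopy categories and dominated complexes
-/

set_option autoImplicit false
set_option linter.unusedVariables false

namespace Pool.Agent.Lib.MP_c052b4_al.MT

open CategoryTheory

universe u

/-- The homotopy category of (unbounded) complexes of labelled free modules. -/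
abbrev KV (S : Type u) [Ring S] {G : Type u} [Group G] (L : Lbl G) :=
  HomotopyCategory (VCat S L) (ComplexShape.up ℤ)

variable {S S' : Type u} [Ring S] [Ring S'] {G : Type u} [Group G] {L L' : Lbl G}

/-- Change of labels on homotopy categories. -/
noncomputable abbrev kL (S : Type u) [Ring S] (θ : LblHom L L') : KV S L ⥤ KV S L' :=
  (VCat.mapL θ).mapHomotopyCategory (ComplexShape.up ℤ)

/-- Change of coefficients on homotopy categories. -/
noncomputable abbrev kR (L : Lbl G) (φ : S →+* S') : KV S L ⥤ KV S' L :=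
  (VCat.bc φ).mapHomotopyCategory (ComplexShape.up ℤ)

/-- The complex with the single entry `X` in degree `0`. -/
noncomputable abbrev kS (X : VCat S L) : KV S L :=
  (HomotopyCategory.singleFunctor (VCat S L) 0).obj X

/-- The finite free objects in degree `0`. -/
def finK (S : Type u) [Ring S] (L : Lbl G) : ObjectProperty (KV S L) :=
  fun X => ∃ F : VCat S L, Finite F.I ∧ Nonempty (X ≅ kS F)

/-- The dominated complexes: the triangulated category, closed under retracts, generated by the finite
free objects. -/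
def Dom (S : Type u) [Ring S] (L : Lbl G) : ObjectProperty (KV S L) := (finK S L).triangEnvelope

instance : (finK S L).Nonempty := ⟨kS VCat.zeroObj, VCat.zeroObj,
  by change Finite PEmpty; infer_instance, ⟨Iso.refl _⟩⟩

instance : (Dom S L).IsTriangulated := by
  unfold Dom
  infer_instance

instance : (Dom S L).IsStableUnderRetracts := by
  unfold Dom
  infer_instance

theorem dom_kS (F : VCat S L) [Finite F.I] : Dom S L (kS F) :=
  (finK S L).le_triangEnvelope _ ⟨F, inferInstance, ⟨Iso.refl _⟩⟩

/-- Induction principle: a triangulated property closed under retracts which holds for finite free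
objects holds for all dominated complexes. -/
theorem Dom.le {P : ObjectProperty (KV S L)} [P.IsTriangulated] [P.IsStableUnderRetracts]
    (h : ∀ F : VCat S L, Finite F.I → P (kS F)) : Dom S L ≤ P := by
  unfold Dom
  rw [ObjectProperty.triangEnvelope_le_iff]
  rintro X ⟨F, hF, ⟨e⟩⟩
  exact P.prop_of_iso e.symm (h F hF)

end Pool.Agent.Lib.MP_c052b4_al.MT
end

section

/-!
# Graded matrix complexes with labels: realisation in `CochainComplex (VCat S L) ℤ`
-/

set_option autoImplicit false

namespace Pool.Agent.Lib.MP_c052b4_al.MT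

open CategoryTheory CategoryTheory.Limits

universe u

variable {S : Type u} [Ring S] {G : Type u} [Group G]

/-- A linear map between free modules respects the labels `w`, `w'`. -/
def RM (L : Lbl G) {I J : Type u}
    (f : (I →₀ MonoidAlgebra S G) →ₗ[MonoidAlgebra S G] (J →₀ MonoidAlgebra S G))
    (w : I → L.W) (w' : J → L.W) : Prop :=
  ∀ i j g, ((f (Finsupp.single i 1)) j).coeff g ≠ 0 → L.le (w i) (g • w' j)

/-- The morphism given by a linear map which respects the labels. -/
noncomputable def hm {L : Lbl G} {X Y : VCat S L}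
    (f : X.M →ₗ[MonoidAlgebra S G] Y.M) (h : RM L f X.l Y.l) : X ⟶ Y :=
  VCat.mkHom f (VCat.map_fil_of_basis f fun i j g hg => h i j g hg)

@[simp]
theorem lin_hm {L : Lbl G} {X Y : VCat S L}
    (f : X.M →ₗ[MonoidAlgebra S G] Y.M) (h : RM L f X.l Y.l) : VCat.lin (hm f h) = f := rfl

theorem RM_lin {L : Lbl G} {X Y : VCat S L} (f : X ⟶ Y) : RM L (VCat.lin f) X.l Y.l :=
  fun i j g hg => VCat.lin_mem f (X.e_mem i) j g hg

theorem RM_id (L : Lbl G) {I : Type u} {w w' : I → L.W} (h : ∀ i, L.le (w i) (w' i)) :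
    RM (S := S) L (LinearMap.id) w w' := by
  classical
  intro i j g hg
  rw [LinearMap.id_apply, Finsupp.single_apply] at hg
  split_ifs at hg with h1
  · subst h1
    rw [MonoidAlgebra.one_def, MonoidAlgebra.coeff_single, Finsupp.single_apply] at hg
    split_ifs at hg with h2
    · subst h2
      rw [one_smul]
      exact h i
    · exact absurd rfl hg
  · exact absurd (by simp) hg

theorem RM.add {L : Lbl G} {I J : Type u}
    {f f' : (I →₀ MonoidAlgebra S G) →ₗ[MonoidAlgebra S G] (J →₀ MonoidAlgebra S G)}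
    {w : I → L.W} {w' : J → L.W} (h : RM L f w w') (h' : RM L f' w w') : RM L (f + f') w w' := by
  intro i j g hg
  by_cases h1 : ((f (Finsupp.single i 1)) j).coeff g = 0
  · refine h' i j g fun h2 => hg ?_
    rw [LinearMap.add_apply, Finsupp.add_apply, MonoidAlgebra.coeff_add, Finsupp.add_apply, h1, h2,
      add_zero]
  · exact h i j g h1

theorem RM.neg {L : Lbl G} {I J : Type u}
    {f : (I →₀ MonoidAlgebra S G) →ₗ[MonoidAlgebra S G] (J →₀ MonoidAlgebra S G)}
    {w : I → L.W} {w' : J → L.W} (h : RM L f w w') : RM L (-f) w w' := by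
  intro i j g hg
  refine h i j g fun h2 => hg ?_
  rw [LinearMap.neg_apply, Finsupp.neg_apply, MonoidAlgebra.coeff_neg, Finsupp.neg_apply, h2,
    neg_zero]

theorem RM_zero (L : Lbl G) {I J : Type u} {w : I → L.W} {w' : J → L.W} :
    RM (S := S) L (0 : (I →₀ MonoidAlgebra S G) →ₗ[MonoidAlgebra S G] (J →₀ MonoidAlgebra S G))
      w w' := by
  intro i j g hg
  exact absurd (by simp) hg

/-- change of the labels -/
theorem RM.mono {L L' : Lbl G} {I J : Type u}
    {f : (I →₀ MonoidAlgebra S G) →ₗ[MonoidAlgebra S G] (J →₀ MonoidAlgebra S G)}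
    {w : I → L.W} {w' : J → L.W} (h : RM L f w w') {v : I → L'.W} {v' : J → L'.W}
    (hv : ∀ i j (g : G), L.le (w i) (g • w' j) → L'.le (v i) (g • v' j)) : RM L' f v v' :=
  fun i j g hg => hv i j g (h i j g hg)

namespace GC

variable (E E' : GC S G) (L : Lbl G)

/-- The labels `w` respect the differential. -/
def Resp (w : ∀ n, E.I n → L.W) : Prop := ∀ n, RM L (E.d n) (w n) (w (n + 1))

/-- Finite and bounded. -/
def Fin' : Prop := (∀ n, Finite (E.I n)) ∧ ∃ N : ℤ, ∀ n, N < |n| → IsEmpty (E.I n)

variable {E E' L}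

/-- The complex of labelled modules. -/
noncomputable def T (w : ∀ n, E.I n → L.W) (h : E.Resp L w) : CochainComplex (VCat S L) ℤ :=
  CochainComplex.of (fun n => ⟨E.I n, w n⟩) (fun n => hm (E.d n) (h n)) fun n =>
    VCat.hom_ext (E.dd n)

@[simp]
theorem T_X (w : ∀ n, E.I n → L.W) (h : E.Resp L w) (n : ℤ) : (T w h).X n = ⟨E.I n, w n⟩ := rfl

theorem T_d (w : ∀ n, E.I n → L.W) (h : E.Resp L w) (n : ℤ) :
    (T w h).d n (n + 1) = hm (X := ⟨E.I n, w n⟩) (Y := ⟨E.I (n + 1), w (n + 1)⟩) (E.d n) (h n) :=
  CochainComplex.of_d (fun n => (⟨E.I n, w n⟩ : VCat S L)) (fun n => hm (E.d n) (h n)) n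

/-- A chain map given by linear maps which respect the labels. -/
noncomputable def Tmap {w : ∀ n, E.I n → L.W} {h : E.Resp L w} {w' : ∀ n, E'.I n → L.W}
    {h' : E'.Resp L w'}
    (f : ∀ n, (E.I n →₀ MonoidAlgebra S G) →ₗ[MonoidAlgebra S G] (E'.I n →₀ MonoidAlgebra S G))
    (hf : ∀ n, RM L (f n) (w n) (w' n))
    (comm : ∀ n, (E'.d n).comp (f n) = (f (n + 1)).comp (E.d n)) : T w h ⟶ T w' h' :=
  CochainComplex.ofHom
    (fun n => hm (X := ⟨E.I n, w n⟩) (Y := ⟨E'.I n, w' n⟩) (f n) (hf n)) fun n => by
      rw [T_d, T_d]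
      exact VCat.hom_ext (comm n)

end GC

end Pool.Agent.Lib.MP_c052b4_al.MT
end

section

/-!
# Complexes in one degree (TREES^n, helper78)
-/

set_option autoImplicit false
set_option linter.unusedVariables false

namespace Pool.Agent.Lib.MP_c052b4_al.MT

open CategoryTheory CategoryTheory.Limits CategoryTheory.Pretriangulated

universe u

variable {S : Type u} [Ring S] {G : Type u} [Group G] {L : Lbl G}

/-- An object with an empty index set is a zero object.

PROOF. `(IsZero.iff_id_eq_zero _).2 (VCat.ext_e fun i => isEmptyElim i)`. -/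
theorem isZero_of_isEmpty (X : VCat S L) [IsEmpty X.I] : IsZero X :=
  (IsZero.iff_id_eq_zero _).2 (VCat.ext_e fun i => isEmptyElim i)

/-- PROOF. `HomologicalComplex.Hom.isoOfComponents`: for `n = c` the inverse of
`HomologicalComplex.singleObjXSelf`, for `n ≠ c` both objects are zero objects
(`isZero_of_isEmpty`, `HomologicalComplex.isZero_single_obj_X`), so `IsZero.iso`. The squares commute because
source or target is a zero object: for `n + 1 = m` one of `n`, `m` is different from `c`. -/
theorem one_degree_iso (K : CochainComplex (VCat S L) ℤ) (c : ℤ)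
    (h : ∀ n, n ≠ c → IsEmpty (K.X n).I) :
    Nonempty (K ≅ (HomologicalComplex.single (VCat S L) (ComplexShape.up ℤ) c).obj (K.X c)) := by
  classical
  have hz : ∀ n, n ≠ c → IsZero (K.X n) := fun n hn => by
    have := h n hn
    exact isZero_of_isEmpty _
  have hz' : ∀ n, n ≠ c → IsZero
      (((HomologicalComplex.single (VCat S L) (ComplexShape.up ℤ) c).obj (K.X c)).X n) :=
    fun n hn => HomologicalComplex.isZero_single_obj_X _ _ _ _ hn
  refine ⟨HomologicalComplex.Hom.isoOfComponents (fun n =>
    if hn : n = c then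
      (eqToIso (by rw [hn]) : K.X n ≅ K.X c) ≪≫
        (HomologicalComplex.singleObjXSelf (ComplexShape.up ℤ) c (K.X c)).symm ≪≫
        (eqToIso (by rw [hn]) :
          ((HomologicalComplex.single (VCat S L) (ComplexShape.up ℤ) c).obj (K.X c)).X c ≅
          ((HomologicalComplex.single (VCat S L) (ComplexShape.up ℤ) c).obj (K.X c)).X n)
    else (hz n hn).iso (hz' n hn)) ?_⟩
  intro i j hij
  by_cases hi : i = c
  · have hj : j ≠ c := by
      rintro rfl
      have : i + 1 = j := hij
      omega
    exact (hz' j hj).eq_of_tgt _ _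
  · exact (hz i hi).eq_of_src _ _

end Pool.Agent.Lib.MP_c052b4_al.MT
end
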