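import Pool.Agent.Lib.MP_c052b4_al.Mg.G001
import Pool.Agent.Lib.MP_c052b4_al.Mg.G003
import Pool.Agent.Lib.MP_c052b4_al.Mg.G009

section

/-!
# Polynomials with leading form `c y^n`
-/

set_option autoImplicit false

namespace Pool.Agent.Lib.MP_c052b4_al.JK

open MvPolynomial

universe u

variable {K : Type u} [Field K]

/-- total degree at most `n` and leading form `c y^n`, `c ≠ 0` -/
def StdForm (n : ℕ) (g : A2 K) : Prop :=
  (∀ d, coeff d g ≠ 0 → d 0 + d 1 ≤ n) ∧ coeff (Finsupp.single 1 n) g ≠ 0 ∧
    ∀ d, coeff d g ≠ 0 → d 0 ≠ 0 → d 0 + d 1 < n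

end Pool.Agent.Lib.MP_c052b4_al.JK
end

section

/-!
# A coordinate of degree at least two is not a polynomial in `y`
-/

set_option autoImplicit false

namespace Pool.Agent.Lib.MP_c052b4_al.JK

open MvPolynomial

universe u

variable {K : Type u} [Field K]

/-- the retraction onto the polynomials in `y` -/
private noncomputable def redb_rho : A2 K →ₐ[K] Polynomial K :=
  aeval ![0, Polynomial.X]

private theorem redb_rho_X1 : redb_rho (X 1 : A2 K) = Polynomial.X := by
  unfold redb_rho
  rw [aeval_X]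
  rfl

private theorem redb_rho_aeval (Q : Polynomial K) :
    redb_rho (Polynomial.aeval (X 1 : A2 K) Q) = Q := by
  rw [← Polynomial.aeval_algHom_apply, redb_rho_X1, Polynomial.aeval_X_left_apply]

private theorem redb_aeval_rho (g : A2 K) (h : ∀ d, coeff d g ≠ 0 → d 0 = 0) :
    Polynomial.aeval (X 1 : A2 K) (redb_rho g) = g := by
  have h1 : ∀ (d : Fin 2 →₀ ℕ) (c : K), d 0 = 0 →
      Polynomial.aeval (X 1 : A2 K) (redb_rho (monomial d c)) = monomial d c := by
    intro d c hd
    unfold redb_rho
    rw [aeval_monomial, Finsupp.prod_fintype _ _ (fun i => pow_zero _), Fin.prod_univ_two, hd,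
      pow_zero, one_mul, map_mul, map_pow]
    show Polynomial.aeval (X 1 : A2 K) (algebraMap K (Polynomial K) c) *
      (Polynomial.aeval (X 1 : A2 K) (Polynomial.X : Polynomial K)) ^ d 1 = monomial d c
    rw [Polynomial.aeval_X, AlgHom.commutes, MvPolynomial.algebraMap_eq, X_pow_eq_monomial,
      C_mul_monomial, mul_one]
    have h2 : (Finsupp.single 1 (d 1) : Fin 2 →₀ ℕ) = d := by
      ext i
      fin_cases i
      · simp [hd]
      · simp
    rw [h2]
  conv_lhs => rw [g.as_sum]
  rw [map_sum, map_sum]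
  conv_rhs => rw [g.as_sum]
  refine Finset.sum_congr rfl fun d hd => h1 d _ (h d (mem_support_iff.1 hd))

/-- Proof. Otherwise `g` is a polynomial in `X 1`, `g = aeval (X 1) P` with `natDegree P = n ≥ 2`
(coefficient at `y^n` is not zero), and `P` has a root: `P = (T - C r) Q` with `natDegree Q ≥ 1`, so
`g` is a product of two nonconstant polynomials: contradiction with `Coord.irreducible`. -/
theorem red_B [IsAlgClosed K] (g : A2 K) (hg : Coord g) (n : ℕ) (hn : 2 ≤ n)
    (h : StdForm n g) : ∃ d, coeff d g ≠ 0 ∧ d 0 ≠ 0 := by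
  by_contra hcon
  have hcon' : ∀ d, coeff d g ≠ 0 → d 0 = 0 := by
    intro d hd
    by_contra h0
    exact hcon ⟨d, hd, h0⟩
  have hg1 := redb_aeval_rho g hcon'
  have hdeg : ¬ (redb_rho g).natDegree ≤ 1 := by
    intro hle
    apply h.2.1
    have h2 := Polynomial.eq_X_add_C_of_natDegree_le_one hle
    rw [h2, map_add, map_mul, Polynomial.aeval_C, Polynomial.aeval_C, Polynomial.aeval_X] at hg1
    rw [← hg1, coeff_add, MvPolynomial.algebraMap_eq, coeff_C_mul, coeff_C, coeff_X]
    have e1 : (0 : Fin 2 →₀ ℕ) ≠ Finsupp.single 1 n := by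
      intro he
      have := DFunLike.congr_fun he 1
      simp at this
      omega
    have e2 : (Finsupp.single 1 1 : Fin 2 →₀ ℕ) ≠ Finsupp.single 1 n := by
      intro he
      have := DFunLike.congr_fun he 1
      simp at this
      omega
    simp [e1, e2]
  obtain ⟨r, hr⟩ := IsAlgClosed.exists_root (redb_rho g) (fun h0 => hdeg (by
    rw [Polynomial.natDegree_eq_of_degree_eq_some h0]
    exact Nat.zero_le 1))
  obtain ⟨Q, hQ⟩ := Polynomial.dvd_iff_isRoot.2 hr
  have hg2 : g = (Polynomial.aeval (X 1 : A2 K) (Polynomial.X - Polynomial.C r)) *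
      Polynomial.aeval (X 1 : A2 K) Q := by
    rw [← map_mul, ← hQ, hg1]
  rcases hg.irreducible.isUnit_or_isUnit hg2 with hu | hu
  · have h3 := hu.map (redb_rho (K := K))
    rw [redb_rho_aeval] at h3
    exact Polynomial.not_isUnit_X_sub_C r h3
  · have h3 := hu.map (redb_rho (K := K))
    rw [redb_rho_aeval] at h3
    apply hdeg
    rw [hQ]
    refine Polynomial.natDegree_mul_le.trans ?_
    rw [Polynomial.natDegree_X_sub_C, Polynomial.natDegree_eq_zero_of_isUnit h3]

end Pool.Agent.Lib.MP_c052b4_al.JK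
end

section

/-!
# Finite free complexes, acyclic dominated complexes

TREES^n, interface of sections 1 to 5 (helper78).
-/

set_option autoImplicit false
set_option linter.unusedVariables false

namespace Pool.Agent.Lib.MP_c052b4_al.MT

open CategoryTheory CategoryTheory.Limits CategoryTheory.Pretriangulated

universe u

variable (S : Type u) [Ring S] {G : Type u} [Group G]

/-- The quotient functor. -/
noncomputable abbrev QL (L : Lbl G) : CochainComplex (VCat S L) ℤ ⥤ KV S L :=
  HomotopyCategory.quotient (VCat S L) (ComplexShape.up ℤ)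

/-- Bounded complexes of finite objects. -/
def FFc {S : Type u} [Ring S] {L : Lbl G} (K : CochainComplex (VCat S L) ℤ) : Prop :=
  (∀ n, Finite (K.X n).I) ∧ ∃ N : ℤ, ∀ n, N < |n| → IsEmpty (K.X n).I

/-- Finite free objects of the homotopy category. -/
def FFK (L : Lbl G) : ObjectProperty (KV S L) :=
  fun X => ∃ K : CochainComplex (VCat S L) ℤ, FFc K ∧ Nonempty (X ≅ (QL S L).obj K)

variable {D : Type} (Ys : D → Dir G)

/-- Dominated objects which are acyclic in the directions in `B`. -/
def DB (A B : Set D) : ObjectProperty (KV S (UL Ys A)) :=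
  fun X => Dom S (UL Ys A) X ∧
    ∀ b ∈ B, IsZero ((kL S (subHom Ys (A := A) (A' := A \ {b}) Set.sdiff_subset)).obj X)

variable {S} {S' : Type u} [Ring S']

/-- Change of labels and change of coefficients commute. -/
theorem kL_kR (φ : S →+* S') {A A' : Set D} (h : A' ⊆ A) (X : KV S (UL Ys A)) :
    (kL S' (subHom Ys h)).obj ((kR (UL Ys A) φ).obj X) =
      (kR (UL Ys A') φ).obj ((kL S (subHom Ys h)).obj X) := rfl

theorem kL_kL {A A' A'' : Set D} (h : A' ⊆ A) (h' : A'' ⊆ A') (X : KV S (UL Ys A)) :
    (kL S (subHom Ys h')).obj ((kL S (subHom Ys h)).obj X) =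
      (kL S (subHom Ys (h'.trans h))).obj X := rfl

theorem kL_kR_map (φ : S →+* S') {A A' : Set D} (h : A' ⊆ A) {X Y : KV S (UL Ys A)} (f : X ⟶ Y) :
    (kL S' (subHom Ys h)).map ((kR (UL Ys A) φ).map f) =
      (kR (UL Ys A') φ).map ((kL S (subHom Ys h)).map f) := by
  obtain ⟨f, rfl⟩ := (HomotopyCategory.quotient _ _).map_surjective f
  rfl

end Pool.Agent.Lib.MP_c052b4_al.MT
end
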