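import Mathlib.Algebra.MonoidAlgebra.MapDomain
import Mathlib.GroupTheory.FiniteAbelian.Basic
import Mathlib.GroupTheory.HNNExtension
import Mathlib.LinearAlgebra.Dimension.Free
import Pool.Agent.Lib.MP_c052b4_al.Mg.G009
import Pool.Agent.Lib.MP_c052b4_al.Mg.G008

section

/-!
# TREES, section 6: from complexes of labelled modules to matrices
-/

set_option autoImplicit false
set_option linter.unusedSectionVars false

namespace Pool.Agent.Lib.MP_c052b4_al.MT

open CategoryTheory CategoryTheory.Limits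

universe u

section Tot

variable {A : Type u} [Ring A] {I I' I'' : ℤ → Type u}

/-- The inclusion of the part of degree `n`. -/
noncomputable def iot (I : ℤ → Type u) (n : ℤ) : (I n →₀ A) →ₗ[A] ((Σ n, I n) →₀ A) :=
  Finsupp.lmapDomain A A (Sigma.mk n)

theorem iot_single (n : ℤ) (i : I n) (a : A) :
    iot I n (Finsupp.single i a) = Finsupp.single ⟨n, i⟩ a := by
  unfold iot
  rw [Finsupp.lmapDomain_apply, Finsupp.mapDomain_single]

/-- Assemble linear maps of degree `t`. -/
noncomputable def TL (t : ℤ → ℤ) (F : ∀ n, (I n →₀ A) →ₗ[A] (I' (t n) →₀ A)) :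
    ((Σ n, I n) →₀ A) →ₗ[A] ((Σ n, I' n) →₀ A) :=
  Finsupp.linearCombination A fun x => iot I' (t x.1) (F x.1 (Finsupp.single x.2 1))

theorem TL_iot (t : ℤ → ℤ) (F : ∀ n, (I n →₀ A) →ₗ[A] (I' (t n) →₀ A)) (n : ℤ) (v : I n →₀ A) :
    TL t F (iot I n v) = iot I' (t n) (F n v) := by
  have h : (TL t F).comp (iot I n) = (iot I' (t n)).comp (F n) := by
    refine Finsupp.lhom_ext' fun i => LinearMap.ext_ring ?_
    change TL t F (iot I n (Finsupp.single i 1)) = iot I' (t n) (F n (Finsupp.single i 1))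
    rw [iot_single]
    unfold TL
    rw [Finsupp.linearCombination_single, one_smul]
  exact LinearMap.congr_fun h v

theorem tot_ext {L L' : ((Σ n, I n) →₀ A) →ₗ[A] ((Σ n, I' n) →₀ A)}
    (h : ∀ n v, L (iot I n v) = L' (iot I n v)) : L = L' := by
  refine Finsupp.lhom_ext' fun x => LinearMap.ext_ring ?_
  have h1 := h x.1 (Finsupp.single x.2 1)
  rw [iot_single] at h1
  exact h1

theorem iot_congr {V : Type u} (F : ∀ n, V → (I n →₀ A)) {n m : ℤ} (h : n = m) (v : V) :
    iot I n (F n v) = iot I m (F m v) := by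
  subst h
  rfl

end Tot

section Mat

variable {A : Type u} [Ring A] {T T' T'' : Type u} {J J' J'' : Type}

/-- The matrix of a linear map between free modules. -/
noncomputable def mat (e : J ≃ T) (e' : J' ≃ T') (L : (T →₀ A) →ₗ[A] (T' →₀ A)) :
    Matrix J J' A := Matrix.of fun j j' => L (Finsupp.single (e j) 1) (e' j')

theorem mat_apply (e : J ≃ T) (e' : J' ≃ T') (L : (T →₀ A) →ₗ[A] (T' →₀ A)) (j : J) (j' : J') :
    mat e e' L j j' = L (Finsupp.single (e j) 1) (e' j') := rfl

theorem mat_comp [Fintype J'] (e : J ≃ T) (e' : J' ≃ T') (e'' : J'' ≃ T'')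
    (L : (T →₀ A) →ₗ[A] (T' →₀ A)) (L' : (T' →₀ A) →ₗ[A] (T'' →₀ A)) :
    mat e e'' (L'.comp L) = mat e e' L * mat e' e'' L' := by
  refine Matrix.ext fun j k => ?_
  rw [Matrix.mul_apply, mat_apply, LinearMap.comp_apply]
  have h1 : ∀ v : T' →₀ A, v = ∑ j', v (e' j') • Finsupp.single (e' j') (1 : A) := by
    classical
    intro v
    ext t
    rw [Finsupp.finsetSum_apply, Finset.sum_eq_single (e'.symm t)]
    · rw [e'.apply_symm_apply, Finsupp.smul_apply, Finsupp.single_eq_same, smul_eq_mul, mul_one]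
    · intro j' _ hj
      rw [Finsupp.smul_apply, Finsupp.single_apply, if_neg, smul_zero]
      intro h
      apply hj
      rw [← h, e'.symm_apply_apply]
    · intro h
      exact absurd (Finset.mem_univ _) h
  conv_lhs => rw [h1 (L (Finsupp.single (e j) 1))]
  rw [map_sum, Finsupp.finsetSum_apply]
  refine Finset.sum_congr rfl fun j' _ => ?_
  rw [map_smul, Finsupp.smul_apply, smul_eq_mul]
  rfl

theorem mat_id [DecidableEq J] (e : J ≃ T) :
    mat e e (LinearMap.id : (T →₀ A) →ₗ[A] (T →₀ A)) = 1 := by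
  classical
  refine Matrix.ext fun j k => ?_
  rw [mat_apply, LinearMap.id_apply, Finsupp.single_apply, Matrix.one_apply]
  by_cases h : j = k
  · rw [if_pos h, if_pos (by rw [h])]
  · rw [if_neg h, if_neg fun h' => h (e.injective h')]

theorem mat_add (e : J ≃ T) (e' : J' ≃ T') (L L' : (T →₀ A) →ₗ[A] (T' →₀ A)) :
    mat e e' (L + L') = mat e e' L + mat e e' L' := rfl

theorem mat_zero (e : J ≃ T) (e' : J' ≃ T') :
    mat e e' (0 : (T →₀ A) →ₗ[A] (T' →₀ A)) = 0 := rfl

theorem mat_inj (e : J ≃ T) (e' : J' ≃ T') {L L' : (T →₀ A) →ₗ[A] (T' →₀ A)}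
    (h : mat e e' L = mat e e' L') : L = L' := by
  refine Finsupp.lhom_ext' fun x => LinearMap.ext_ring ?_
  ext y
  have h1 := congrFun (congrFun h (e.symm x)) (e'.symm y)
  rw [mat_apply, mat_apply, e.apply_symm_apply, e'.apply_symm_apply] at h1
  exact h1

end Mat

section Deg

variable {A : Type u} [Ring A] {I I' : ℤ → Type u} {J J' : Type}

theorem mat_TL_deg (e : J ≃ Σ n, I n) (e' : J' ≃ Σ n, I' n) (t : ℤ → ℤ)
    (F : ∀ n, (I n →₀ A) →ₗ[A] (I' (t n) →₀ A)) (j : J) (j' : J')
    (h : mat e e' (TL t F) j j' ≠ 0) : (e' j').1 = t (e j).1 := by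
  by_contra h1
  apply h
  rw [mat_apply]
  have h2 : Finsupp.single (e j) (1 : A) = iot I (e j).1 (Finsupp.single (e j).2 1) := by
    rw [iot_single]
  rw [h2, TL_iot]
  unfold iot
  rw [Finsupp.lmapDomain_apply]
  refine Finsupp.mapDomain_of_notMem_range _ _ ?_
  rintro ⟨i, hi⟩
  exact h1 (congrArg Sigma.fst hi).symm

/-- The entries of the matrix. -/
theorem mat_TL_apply (e : J ≃ Σ n, I n) (e' : J' ≃ Σ n, I' n) (t : ℤ → ℤ)
    (F : ∀ n, (I n →₀ A) →ₗ[A] (I' (t n) →₀ A)) (n : ℤ) (i : I n) (i' : I' (t n)) :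
    mat e e' (TL t F) (e.symm ⟨n, i⟩) (e'.symm ⟨t n, i'⟩) = F n (Finsupp.single i 1) i' := by
  rw [mat_apply, e.apply_symm_apply, e'.apply_symm_apply]
  have h2 : Finsupp.single (⟨n, i⟩ : Σ n, I n) (1 : A) = iot I n (Finsupp.single i 1) := by
    rw [iot_single]
  rw [h2, TL_iot]
  unfold iot
  rw [Finsupp.lmapDomain_apply]
  exact Finsupp.mapDomain_apply sigma_mk_injective _ _

end Deg

section Cx

variable {R : Type u} [Ring R] {G : Type u} [Group G] {L : Lbl G}

/-- The index sets of a complex. -/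
abbrev ix (K : CochainComplex (VCat R L) ℤ) : ℤ → Type u := fun n => (K.X n).I

/-- The total differential. -/
noncomputable def totD (K : CochainComplex (VCat R L) ℤ) :
    ((Σ n, ix K n) →₀ MonoidAlgebra R G) →ₗ[MonoidAlgebra R G]
      ((Σ n, ix K n) →₀ MonoidAlgebra R G) :=
  TL (I := ix K) (I' := ix K) (fun n => n + 1) fun n => VCat.lin (K.d n (n + 1))

/-- The total matrix of a chain map. -/
noncomputable def totF {K K' : CochainComplex (VCat R L) ℤ} (f : K ⟶ K') :
    ((Σ n, ix K n) →₀ MonoidAlgebra R G) →ₗ[MonoidAlgebra R G]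
      ((Σ n, ix K' n) →₀ MonoidAlgebra R G) :=
  TL (I := ix K) (I' := ix K') (fun n => n) fun n => VCat.lin (f.f n)

/-- The total matrix of a homotopy. -/
noncomputable def totH {K K' : CochainComplex (VCat R L) ℤ} {f g : K ⟶ K'} (h : Homotopy f g) :
    ((Σ n, ix K n) →₀ MonoidAlgebra R G) →ₗ[MonoidAlgebra R G]
      ((Σ n, ix K' n) →₀ MonoidAlgebra R G) :=
  TL (I := ix K) (I' := ix K') (fun n => n - 1) fun n => VCat.lin (h.hom n (n - 1))

theorem totD_iot (K : CochainComplex (VCat R L) ℤ) (n : ℤ) (v : ix K n →₀ MonoidAlgebra R G) :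
    totD K (iot (ix K) n v) = iot (ix K) (n + 1) (VCat.lin (K.d n (n + 1)) v) := TL_iot _ _ _ _

theorem totF_iot {K K' : CochainComplex (VCat R L) ℤ} (f : K ⟶ K') (n : ℤ)
    (v : ix K n →₀ MonoidAlgebra R G) :
    totF f (iot (ix K) n v) = iot (ix K') n (VCat.lin (f.f n) v) := TL_iot _ _ _ _

theorem totH_iot {K K' : CochainComplex (VCat R L) ℤ} {f g : K ⟶ K'} (h : Homotopy f g) (n : ℤ)
    (v : ix K n →₀ MonoidAlgebra R G) :
    totH h (iot (ix K) n v) = iot (ix K') (n - 1) (VCat.lin (h.hom n (n - 1)) v) := TL_iot _ _ _ _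

theorem totD_totD (K : CochainComplex (VCat R L) ℤ) : (totD K).comp (totD K) = 0 := by
  refine tot_ext fun n v => ?_
  rw [LinearMap.comp_apply, totD_iot, totD_iot]
  have h : VCat.lin (K.d (n + 1) (n + 1 + 1)) (VCat.lin (K.d n (n + 1)) v) = 0 := by
    have h1 := congrArg VCat.lin (K.d_comp_d n (n + 1) (n + 1 + 1))
    exact LinearMap.congr_fun h1 v
  rw [h, map_zero, LinearMap.zero_apply]

theorem totF_comp {K K' K'' : CochainComplex (VCat R L) ℤ} (f : K ⟶ K') (g : K' ⟶ K'') :
    totF (f ≫ g) = (totF g).comp (totF f) := by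
  refine tot_ext fun n v => ?_
  rw [LinearMap.comp_apply, totF_iot, totF_iot, totF_iot]
  rfl

theorem totF_id (K : CochainComplex (VCat R L) ℤ) : totF (𝟙 K) = LinearMap.id := by
  refine tot_ext fun n v => ?_
  rw [totF_iot]
  rfl

theorem totF_totD {K K' : CochainComplex (VCat R L) ℤ} (f : K ⟶ K') :
    (totF f).comp (totD K) = (totD K').comp (totF f) := by
  refine tot_ext fun n v => ?_
  rw [LinearMap.comp_apply, LinearMap.comp_apply, totF_iot, totD_iot, totD_iot, totF_iot]
  congr 1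
  exact (LinearMap.congr_fun (congrArg VCat.lin (f.comm n (n + 1))) v).symm

theorem totF_homotopy {K K' : CochainComplex (VCat R L) ℤ} {f g : K ⟶ K'} (h : Homotopy f g) :
    totF f = totF g + ((totH h).comp (totD K) + (totD K').comp (totH h)) := by
  refine tot_ext fun n v => ?_
  rw [LinearMap.add_apply, LinearMap.add_apply, LinearMap.comp_apply, LinearMap.comp_apply,
    totF_iot, totF_iot, totD_iot, totH_iot, totH_iot, totD_iot]
  have e1 : iot (ix K') (n + 1 - 1) (VCat.lin (h.hom (n + 1) (n + 1 - 1))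
      (VCat.lin (K.d n (n + 1)) v)) = iot (ix K') n (VCat.lin (h.hom (n + 1) n)
      (VCat.lin (K.d n (n + 1)) v)) :=
    iot_congr (I := ix K') (fun m w => VCat.lin (h.hom (n + 1) m) w) (by ring) _
  have e2 : iot (ix K') (n - 1 + 1) (VCat.lin (K'.d (n - 1) (n - 1 + 1))
      (VCat.lin (h.hom n (n - 1)) v)) = iot (ix K') n (VCat.lin (K'.d (n - 1) n)
      (VCat.lin (h.hom n (n - 1)) v)) :=
    iot_congr (I := ix K') (fun m w => VCat.lin (K'.d (n - 1) m) w) (by ring) _
  rw [e1, e2, ← map_add, ← map_add]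
  congr 1
  have h1 := h.comm n
  rw [dNext_eq h.hom (show (ComplexShape.up ℤ).Rel n (n + 1) from rfl),
    prevD_eq h.hom (show (ComplexShape.up ℤ).Rel (n - 1) n by
      change n - 1 + 1 = n
      ring)] at h1
  have h2 := LinearMap.congr_fun (congrArg VCat.lin h1) v
  rw [h2, add_comm]
  rfl

end Cx

end Pool.Agent.Lib.MP_c052b4_al.MT
end

section

/-!
# Complexes in one degree are dominated (TREES^n, helper78)
-/

set_option autoImplicit false
set_option linter.unusedVariables false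

namespace Pool.Agent.Lib.MP_c052b4_al.MT

open CategoryTheory CategoryTheory.Limits CategoryTheory.Pretriangulated

universe u

variable {S : Type u} [Ring S] {G : Type u} [Group G] {L : Lbl G}

/-- A complex whose objects have empty index sets outside of degree `c`, with a finite index set in
degree `c`, is dominated.

PROOF. By `one_degree_iso`,
`(QL S L).obj K ≅ (HomotopyCategory.singleFunctor (VCat S L) c).obj (K.X c)`, which is
a shift of `kS (K.X c) = (HomotopyCategory.singleFunctor (VCat S L) 0).obj (K.X c)` (shift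
isomorphism of `HomotopyCategory.singleFunctors`: `SingleFunctors.shiftIso`), and `Dom` is stable
under shifts (`(Dom S L).le_shift`) and isomorphisms (`ObjectProperty.prop_of_iso`) and contains
`kS F` (`dom_kS`). -/
theorem dom_one_degree (K : CochainComplex (VCat S L) ℤ) (c : ℤ) [Finite (K.X c).I]
    (h : ∀ n, n ≠ c → IsEmpty (K.X n).I) : Dom S L ((QL S L).obj K) := by
  obtain ⟨e⟩ := one_degree_iso K c h
  have e1 : (QL S L).obj K ≅ (HomotopyCategory.singleFunctor (VCat S L) c).obj (K.X c) :=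
    (QL S L).mapIso e
  have e2 : (shiftFunctor (KV S L) (-c)).obj (kS (K.X c)) ≅
      (HomotopyCategory.singleFunctor (VCat S L) c).obj (K.X c) :=
    ((HomotopyCategory.singleFunctors (VCat S L)).shiftIso (-c) c 0 (neg_add_cancel c)).app (K.X c)
  have h1 : Dom S L (kS (K.X c)) := dom_kS (K.X c)
  have h2 : Dom S L ((shiftFunctor (KV S L) (-c)).obj (kS (K.X c))) :=
    (Dom S L).le_shift (-c) _ h1
  exact (Dom S L).prop_of_iso (e2 ≪≫ e1.symm) h2

end Pool.Agent.Lib.MP_c052b4_al.MT
end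

section

/-!
# Brutal truncation triangle (TREES^n, helper78)
-/

set_option autoImplicit false
set_option linter.unusedVariables false

namespace Pool.Agent.Lib.MP_c052b4_al.MT

open CategoryTheory CategoryTheory.Limits CategoryTheory.Pretriangulated

universe u

variable {S : Type u} [Ring S] {G : Type u} [Group G] {L : Lbl G}

/-- The object with index set `{i : X.I // P}`. -/
private noncomputable def cut (X : VCat S L) (P : Prop) : VCat S L :=
  ⟨{_i : X.I // P}, fun i => X.l i.1⟩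

private theorem cut_isZero (X : VCat S L) {P : Prop} (h : ¬ P) : IsZero (cut X P) :=
  (IsZero.iff_id_eq_zero _).2 (VCat.ext_e fun i => absurd i.2 h)

open Classical in
private noncomputable def inc (X : VCat S L) (P : Prop) : cut X P ⟶ X :=
  VCat.ofBasis fun i => ⟨X.e i.1, X.e_mem i.1⟩

open Classical in
private noncomputable def prj (X : VCat S L) (P : Prop) : X ⟶ cut X P :=
  VCat.ofBasis fun i => if h : P then ⟨(cut X P).e ⟨i, h⟩, (cut X P).e_mem ⟨i, h⟩⟩ else 0

private theorem inc_e (X : VCat S L) (P : Prop) (i : (cut X P).I) :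
    VCat.lin (inc X P) ((cut X P).e i) = X.e i.1 := VCat.lin_ofBasis_e _ _

private theorem prj_e (X : VCat S L) {P : Prop} (h : P) (i : X.I) :
    VCat.lin (prj X P) (X.e i) = (cut X P).e ⟨i, h⟩ := by
  refine (VCat.lin_ofBasis_e _ _).trans ?_
  rw [dif_pos h]

private theorem prj_e' (X : VCat S L) {P : Prop} (h : ¬ P) (i : X.I) :
    VCat.lin (prj X P) (X.e i) = 0 := by
  refine (VCat.lin_ofBasis_e _ _).trans ?_
  rw [dif_neg h]
  rfl

private theorem inc_prj (X : VCat S L) (P : Prop) : inc X P ≫ prj X P = 𝟙 _ :=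
  VCat.ext_e fun i => by
    rw [VCat.lin_comp, LinearMap.comp_apply, inc_e, prj_e X i.2, VCat.lin_id]
    rfl

private theorem prj_inc (X : VCat S L) {P : Prop} (h : P) : prj X P ≫ inc X P = 𝟙 _ :=
  VCat.ext_e fun i =>
    (congrArg (VCat.lin (inc X P)) (prj_e X h i)).trans (inc_e X P ⟨i, h⟩)

private theorem prj_zero (X : VCat S L) {P : Prop} (h : ¬ P) : prj X P = 0 :=
  (cut_isZero X h).eq_of_tgt _ _

private theorem inc_zero (X : VCat S L) {P : Prop} (h : ¬ P) : inc X P = 0 :=
  (cut_isZero X h).eq_of_src _ _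

private theorem inc_prj_zero (X : VCat S L) {P Q : Prop} (h : ¬ (P ∧ Q)) :
    inc X P ≫ prj X Q = 0 := by
  by_cases hP : P
  · rw [prj_zero X (fun hQ => h ⟨hP, hQ⟩), comp_zero]
  · rw [inc_zero X hP, zero_comp]

private theorem prj_inc_add (X : VCat S L) {P Q : Prop} (h : ¬ (P ∧ Q)) (h' : P ∨ Q) :
    prj X P ≫ inc X P + prj X Q ≫ inc X Q = 𝟙 _ := by
  rcases h' with hP | hQ
  · rw [prj_inc X hP, prj_zero X (fun hQ => h ⟨hP, hQ⟩), zero_comp, add_zero]
  · rw [prj_inc X hQ, prj_zero X (fun hP => h ⟨hP, hQ⟩), zero_comp, zero_add]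

/-- The subcomplex of degrees `≥ c`. -/
private noncomputable def geC (K : CochainComplex (VCat S L) ℤ) (c : ℤ) :
    CochainComplex (VCat S L) ℤ where
  X n := cut (K.X n) (c ≤ n)
  d i j := inc (K.X i) (c ≤ i) ≫ K.d i j ≫ prj (K.X j) (c ≤ j)
  shape i j h := by rw [K.shape i j h, zero_comp, comp_zero]
  d_comp_d' i j k hij hjk := by
    by_cases hi : c ≤ i
    · have hj : c ≤ j := by
        have : i + 1 = j := hij
        omega
      simp only [Category.assoc]
      rw [← Category.assoc (prj (K.X j) (c ≤ j)), prj_inc _ hj, Category.id_comp,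
        ← Category.assoc (K.d i j), K.d_comp_d, zero_comp, comp_zero]
    · rw [inc_zero _ hi, zero_comp, zero_comp]

/-- The quotient complex of degrees `< c`. -/
private noncomputable def ltC (K : CochainComplex (VCat S L) ℤ) (c : ℤ) :
    CochainComplex (VCat S L) ℤ where
  X n := cut (K.X n) (n < c)
  d i j := inc (K.X i) (i < c) ≫ K.d i j ≫ prj (K.X j) (j < c)
  shape i j h := by rw [K.shape i j h, zero_comp, comp_zero]
  d_comp_d' i j k hij hjk := by
    by_cases hk : k < c
    · have hj : j < c := by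
        have : j + 1 = k := hjk
        omega
      simp only [Category.assoc]
      rw [← Category.assoc (prj (K.X j) (j < c)), prj_inc _ hj, Category.id_comp,
        ← Category.assoc (K.d i j), K.d_comp_d, zero_comp, comp_zero]
    · rw [prj_zero _ hk, comp_zero, comp_zero, comp_zero]

private noncomputable def geI (K : CochainComplex (VCat S L) ℤ) (c : ℤ) : geC K c ⟶ K where
  f n := inc (K.X n) (c ≤ n)
  comm' i j hij := by
    change inc (K.X i) (c ≤ i) ≫ K.d i j =
      (inc (K.X i) (c ≤ i) ≫ K.d i j ≫ prj (K.X j) (c ≤ j)) ≫ inc (K.X j) (c ≤ j)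
    by_cases hi : c ≤ i
    · have hj : c ≤ j := by
        have : i + 1 = j := hij
        omega
      simp only [Category.assoc]
      rw [prj_inc _ hj, Category.comp_id]
    · rw [inc_zero _ hi, zero_comp, zero_comp, zero_comp]

private noncomputable def ltP (K : CochainComplex (VCat S L) ℤ) (c : ℤ) : K ⟶ ltC K c where
  f n := prj (K.X n) (n < c)
  comm' i j hij := by
    change prj (K.X i) (i < c) ≫ inc (K.X i) (i < c) ≫ K.d i j ≫ prj (K.X j) (j < c) =
      K.d i j ≫ prj (K.X j) (j < c)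
    by_cases hj : j < c
    · have hi : i < c := by
        have : i + 1 = j := hij
        omega
      rw [← Category.assoc, prj_inc _ hi, Category.id_comp]
    · rw [prj_zero _ hj, comp_zero, comp_zero, comp_zero]

private noncomputable def cutS (K : CochainComplex (VCat S L) ℤ) (c : ℤ) :
    ShortComplex (CochainComplex (VCat S L) ℤ) :=
  ShortComplex.mk (geI K c) (ltP K c) (by
    ext n : 1
    exact inc_prj_zero (K.X n) (fun h => absurd h.1 (not_le.2 h.2)))

private noncomputable def cutSp (K : CochainComplex (VCat S L) ℤ) (c : ℤ) (n : ℤ) :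
    ((cutS K c).map (HomologicalComplex.eval (VCat S L) _ n)).Splitting where
  r := prj (K.X n) (c ≤ n)
  s := inc (K.X n) (n < c)
  f_r := inc_prj (K.X n) (c ≤ n)
  s_g := inc_prj (K.X n) (n < c)
  id := prj_inc_add (K.X n) (fun h => absurd h.1 (not_le.2 h.2)) (le_or_gt c n)

/-- The brutal truncation triangle.

PROOF. `K₁` = the subcomplex of degrees `≥ c`: `K₁.X n = ⟨{i : (K.X n).I // c ≤ n}, fun i => (K.X n).l i.1⟩`,
`K₂` = the quotient of degrees `< c`: `K₂.X n = ⟨{i : (K.X n).I // n < c}, fun i => (K.X n).l i.1⟩`.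
Morphisms by `VCat.ofBasis`: inclusion `K₁.X n ⟶ K.X n`, `e_i ↦ e_i`, projection `K.X n ⟶ K₁.X n`
(`e_i ↦ e_i` if `c ≤ n`, `0` otherwise), and the same for `K₂`. Differentials: inclusion, then
`K.d n (n + 1)`, then projection. (If you prefer: define the objects and the four families
of maps `inc₁ prj₁ inc₂ prj₂` with `inc₁ ≫ prj₁ = 𝟙`, `inc₂ ≫ prj₂ = 𝟙`, `prj₁ ≫ inc₁ + prj₂ ≫ inc₂ = 𝟙`,
`inc₁ ≫ prj₂ = 0`, `inc₂ ≫ prj₁ = 0`, and `inc₁ n ≫ K.d n (n + 1) ≫ prj₂ (n + 1) = 0`
(because `c ≤ n` implies that the index set of `K₂.X (n + 1)` is empty); use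
`CochainComplex.of` and `CochainComplex.ofHom`, as in `GC.T`, `GC.Tmap`.)
The short complex `K₁ ⟶ K ⟶ K₂` of cochain complexes is degreewise split, so
`HomotopyCategory.distinguished_iff_iso_trianglehOfDegreewiseSplit` (or directly
`CochainComplex.trianglehOfDegreewiseSplit`) gives the distinguished triangle. -/
theorem brutal_triangle (K : CochainComplex (VCat S L) ℤ) (c : ℤ) :
    ∃ (K₁ K₂ : CochainComplex (VCat S L) ℤ)
      (f : (QL S L).obj K₁ ⟶ (QL S L).obj K) (g : (QL S L).obj K ⟶ (QL S L).obj K₂)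
      (h : (QL S L).obj K₂ ⟶ ((QL S L).obj K₁)⟦(1 : ℤ)⟧),
      Triangle.mk f g h ∈ distTriang (KV S L) ∧
      (∀ n, Finite (K.X n).I → Finite (K₁.X n).I) ∧ (∀ n, Finite (K.X n).I → Finite (K₂.X n).I) ∧
      (∀ n, IsEmpty (K.X n).I → IsEmpty (K₁.X n).I) ∧
      (∀ n, IsEmpty (K.X n).I → IsEmpty (K₂.X n).I) ∧
      (∀ n, n < c → IsEmpty (K₁.X n).I) ∧ (∀ n, c ≤ n → IsEmpty (K₂.X n).I) := by
  refine ⟨geC K c, ltC K c, (QL S L).map (geI K c), (QL S L).map (ltP K c),
    (CochainComplex.trianglehOfDegreewiseSplit (cutS K c) (cutSp K c)).mor₃, ?_, ?_, ?_, ?_, ?_,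
    ?_, ?_⟩
  · exact (HomotopyCategory.distinguished_iff_iso_trianglehOfDegreewiseSplit _).2
      ⟨cutS K c, cutSp K c, ⟨Iso.refl _⟩⟩
  · intro n hn
    exact inferInstanceAs (Finite {_i : (K.X n).I // c ≤ n})
  · intro n hn
    exact inferInstanceAs (Finite {_i : (K.X n).I // n < c})
  · intro n hn
    exact ⟨fun i => hn.elim i.1⟩
  · intro n hn
    exact ⟨fun i => hn.elim i.1⟩
  · intro n hn
    exact ⟨fun i => absurd i.2 (not_le.2 hn)⟩
  · intro n hn
    exact ⟨fun i => absurd i.2 (not_lt.2 hn)⟩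

end Pool.Agent.Lib.MP_c052b4_al.MT
end

section

/-!
# Finite objects in degree zero (TREES^n, helper78)
-/

set_option autoImplicit false
set_option linter.unusedVariables false

namespace Pool.Agent.Lib.MP_c052b4_al.MT

open CategoryTheory CategoryTheory.Limits CategoryTheory.Pretriangulated

universe u

variable {S : Type u} [Ring S] {G : Type u} [Group G] {L : Lbl G}

/-- Finite objects in degree zero are finite free complexes.

PROOF. Let `E : GC S G` be `⟨fun n => {i : F.I // n = 0}, fun _ => 0, _⟩` and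
`K = GC.T (E := E) (fun n i => F.l i.1) _` (for the label condition: the coefficients of `0` vanish).
`FFc K` is clear (`N = 0`). By `one_degree_iso` with `c = 0`, `K ≅ single 0 (K.X 0)`, and
`K.X 0 = ⟨{i : F.I // 0 = 0}, _⟩ ≅ F` (`VCat.ofBasis` in both directions, `VCat.ext_e`). -/
theorem FFK_kS (F : VCat S L) (hF : Finite F.I) : FFK S L (kS F) := by
  classical
  let E : GC S G := ⟨fun n => {i : F.I // n = 0}, fun _ => 0, fun n => by simp⟩
  let K : CochainComplex (VCat S L) ℤ := GC.T (E := E) (L := L) (fun n i => F.l i.1)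
    (fun n => RM_zero L)
  have hne : ∀ n : ℤ, n ≠ 0 → IsEmpty (K.X n).I := fun n hn => by
    change IsEmpty {i : F.I // n = 0}
    exact ⟨fun i => hn i.2⟩
  refine ⟨K, ⟨fun n => ?_, 0, fun n hn => hne n ?_⟩, ?_⟩
  · change Finite {i : F.I // n = 0}
    infer_instance
  · rintro rfl
    simp at hn
  · obtain ⟨e⟩ := one_degree_iso K 0 hne
    let f : K.X 0 ⟶ F := VCat.ofBasis fun i => ⟨F.e i.1, F.e_mem i.1⟩
    let g : F ⟶ K.X 0 := VCat.ofBasis fun i =>
      ⟨(K.X 0).e (⟨i, rfl⟩ : {i : F.I // (0 : ℤ) = 0}),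
        (K.X 0).e_mem (⟨i, rfl⟩ : {i : F.I // (0 : ℤ) = 0})⟩
    have hf : ∀ i : {i : F.I // (0 : ℤ) = 0}, VCat.lin f ((K.X 0).e i) = F.e i.1 := fun i =>
      VCat.lin_ofBasis_e _ _
    have hg : ∀ i : F.I, VCat.lin g (F.e i) =
        (K.X 0).e (⟨i, rfl⟩ : {i : F.I // (0 : ℤ) = 0}) := fun i =>
      VCat.lin_ofBasis_e _ _
    let e0 : K.X 0 ≅ F :=
      { hom := f
        inv := g
        hom_inv_id := VCat.ext_e fun i => by
          rw [VCat.lin_comp, LinearMap.comp_apply, hf i, hg]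
          rfl
        inv_hom_id := VCat.ext_e fun i => by
          rw [VCat.lin_comp, LinearMap.comp_apply, hg i, hf]
          rfl }
    have e1 : (QL S L).obj K ≅ (HomotopyCategory.singleFunctor (VCat S L) 0).obj (K.X 0) :=
      (QL S L).mapIso e
    exact ⟨((HomotopyCategory.singleFunctor (VCat S L) 0).mapIso e0).symm ≪≫ e1.symm⟩

end Pool.Agent.Lib.MP_c052b4_al.MT
end
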