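import Pool.Agent.Lib.MP_c052b4_al.Mg.G020
import Pool.Agent.Lib.MP_c052b4_al.Mg.G009

section

/-!
# An explicit cone is a cone (TREES^n, helper78)
-/

set_option autoImplicit false
set_option linter.unusedVariables false

namespace Pool.Agent.Lib.MP_c052b4_al.MT

open CategoryTheory CategoryTheory.Limits CategoryTheory.Pretriangulated CochainComplex

universe v u

variable {V : Type u} [Category.{v} V] [Preadditive V]

/-- Isomorphisms of cochain complexes from components. -/
noncomputable def isoC {K K' : CochainComplex V ℤ} (e : ∀ n, K.X n ≅ K'.X n)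
    (h : ∀ n, (e n).hom ≫ K'.d n (n + 1) = K.d n (n + 1) ≫ (e (n + 1)).hom) : K ≅ K' :=
  HomologicalComplex.Hom.isoOfComponents e fun i j hij => by
    obtain rfl : i + 1 = j := hij
    exact h i

variable [HasZeroObject V] [HasBinaryBiproducts V]

/-- Isomorphism from the mapping cone to an explicit cone. -/
noncomputable def coneIso {K K' M : CochainComplex V ℤ} (f : K ⟶ K')
    (a : ∀ n, K.X (n + 1) ⟶ M.X n) (b : ∀ n, K'.X n ⟶ M.X n)
    (p : ∀ n, M.X n ⟶ K.X (n + 1)) (q : ∀ n, M.X n ⟶ K'.X n)
    (ap : ∀ n, a n ≫ p n = 𝟙 _) (aq : ∀ n, a n ≫ q n = 0) (bp : ∀ n, b n ≫ p n = 0)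
    (bq : ∀ n, b n ≫ q n = 𝟙 _) (tot : ∀ n, p n ≫ a n + q n ≫ b n = 𝟙 _)
    (ad : ∀ n, a n ≫ M.d n (n + 1) =
      -(K.d (n + 1) (n + 1 + 1) ≫ a (n + 1)) + f.f (n + 1) ≫ b (n + 1))
    (bd : ∀ n, b n ≫ M.d n (n + 1) = K'.d n (n + 1) ≫ b (n + 1)) : mappingCone f ≅ M :=
  isoC
    (fun n =>
      { hom := (mappingCone.fst f).1.v n (n + 1) rfl ≫ a n +
          (mappingCone.snd f).v n n (add_zero n) ≫ b n
        inv := p n ≫ (mappingCone.inl f).v (n + 1) n (by lia) + q n ≫ (mappingCone.inr f).f n
        hom_inv_id := by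
          rw [Preadditive.add_comp, Preadditive.comp_add, Preadditive.comp_add, Category.assoc,
            Category.assoc, Category.assoc, Category.assoc, ← Category.assoc (a n),
            ← Category.assoc (a n), ← Category.assoc (b n), ← Category.assoc (b n), ap, aq, bp, bq,
            Category.id_comp, Category.id_comp, zero_comp, zero_comp, comp_zero, comp_zero,
            add_zero, zero_add, mappingCone.id_X]
        inv_hom_id := by
          rw [Preadditive.add_comp, Preadditive.comp_add, Preadditive.comp_add, Category.assoc,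
            Category.assoc, Category.assoc, Category.assoc, mappingCone.inl_v_fst_v_assoc,
            mappingCone.inl_v_snd_v_assoc, mappingCone.inr_f_fst_v_assoc,
            mappingCone.inr_f_snd_v_assoc, zero_comp, comp_zero, zero_comp, comp_zero, add_zero,
            zero_add, tot] })
    (fun n => by
      rw [mappingCone.ext_from_iff f (n + 1) n rfl]
      constructor
      · rw [Preadditive.add_comp, Preadditive.comp_add, Category.assoc, Category.assoc,
          mappingCone.inl_v_fst_v_assoc, mappingCone.inl_v_snd_v_assoc, zero_comp, add_zero, ad,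
          mappingCone.inl_v_d_assoc f (n + 1) n (n + 1 + 1) (by lia) (by lia),
          Preadditive.sub_comp, Preadditive.comp_add, Preadditive.comp_add, Category.assoc,
          Category.assoc]
        simp only [mappingCone.inr_f_fst_v_assoc, mappingCone.inr_f_snd_v_assoc,
          mappingCone.inl_v_fst_v_assoc, mappingCone.inl_v_snd_v_assoc, zero_comp, comp_zero,
          add_zero, zero_add, Category.assoc]
        abel
      · rw [Preadditive.add_comp, Preadditive.comp_add, Category.assoc, Category.assoc,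
          mappingCone.inr_f_fst_v_assoc, mappingCone.inr_f_snd_v_assoc, zero_comp, zero_add, bd,
          mappingCone.inr_f_d_assoc, Preadditive.comp_add, mappingCone.inr_f_fst_v_assoc,
          mappingCone.inr_f_snd_v_assoc, zero_comp, zero_add])

/-- The triangle of an explicit cone. -/
theorem cone_triangle {K K' M : CochainComplex V ℤ} (f : K ⟶ K')
    (a : ∀ n, K.X (n + 1) ⟶ M.X n) (b : ∀ n, K'.X n ⟶ M.X n)
    (p : ∀ n, M.X n ⟶ K.X (n + 1)) (q : ∀ n, M.X n ⟶ K'.X n)
    (ap : ∀ n, a n ≫ p n = 𝟙 _) (aq : ∀ n, a n ≫ q n = 0) (bp : ∀ n, b n ≫ p n = 0)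
    (bq : ∀ n, b n ≫ q n = 𝟙 _) (tot : ∀ n, p n ≫ a n + q n ≫ b n = 𝟙 _)
    (ad : ∀ n, a n ≫ M.d n (n + 1) =
      -(K.d (n + 1) (n + 1 + 1) ≫ a (n + 1)) + f.f (n + 1) ≫ b (n + 1))
    (bd : ∀ n, b n ≫ M.d n (n + 1) = K'.d n (n + 1) ≫ b (n + 1)) :
    ∃ (g : (HomotopyCategory.quotient V (ComplexShape.up ℤ)).obj K' ⟶
        (HomotopyCategory.quotient V (ComplexShape.up ℤ)).obj M)
      (h : (HomotopyCategory.quotient V (ComplexShape.up ℤ)).obj M ⟶
        ((HomotopyCategory.quotient V (ComplexShape.up ℤ)).obj K)⟦(1 : ℤ)⟧),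
      Triangle.mk ((HomotopyCategory.quotient V (ComplexShape.up ℤ)).map f) g h ∈
        distTriang (HomotopyCategory V (ComplexShape.up ℤ)) := by
  let e := (HomotopyCategory.quotient V (ComplexShape.up ℤ)).mapIso
    (coneIso f a b p q ap aq bp bq tot ad bd)
  exact ⟨_, _, tri_iso₃ _ _ _ (HomotopyCategory.mappingCone_triangleh_distinguished f) e⟩

end Pool.Agent.Lib.MP_c052b4_al.MT
end

section

/-!
# Multiplication by a central element of the coefficients (TREES^n, helper78)
-/

set_option autoImplicit false
set_option linter.unusedVariables false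

namespace Pool.Agent.Lib.MP_c052b4_al.MT

open CategoryTheory

universe u

variable {S S' : Type u} [Ring S] [Ring S'] {G : Type u} [Group G] {L L' : Lbl G}

theorem single_one_central {s : S} (hs : ∀ x, s * x = x * s) (a : MonoidAlgebra S G) :
    MonoidAlgebra.single (1 : G) s * a = a * MonoidAlgebra.single (1 : G) s := by
  apply MonoidAlgebra.coeff_injective
  ext g
  rw [MonoidAlgebra.coeff_single_mul_apply, MonoidAlgebra.coeff_mul_single_apply, inv_one, one_mul,
    mul_one, hs]

namespace VCat

/-- Multiplication by a central element of the coefficients. -/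
noncomputable def cen (s : S) (hs : ∀ x, s * x = x * s) (X : VCat S L) : X ⟶ X :=
  mkHom
    { toFun := fun v => MonoidAlgebra.single (1 : G) s • v
      map_add' := smul_add _
      map_smul' := fun a v => by
        rw [RingHom.id_apply, smul_smul, smul_smul, single_one_central hs] }
    (map_fil_of_basis _ fun i => by
      have h := X.e_mem i
      intro j g hg
      refine h j g fun h0 => hg ?_
      change ((MonoidAlgebra.single (1 : G) s • X.e i) j).coeff g = 0
      rw [Finsupp.smul_apply, smul_eq_mul, MonoidAlgebra.coeff_single_mul_apply, inv_one, one_mul,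
        h0, mul_zero])

variable {s : S} (hs : ∀ x, s * x = x * s)

theorem lin_cen (X : VCat S L) (v : X.M) :
    lin (cen s hs X) v = MonoidAlgebra.single (1 : G) s • v := rfl

theorem cen_nat {X Y : VCat S L} (f : X ⟶ Y) : cen s hs X ≫ f = f ≫ cen s hs Y := by
  apply hom_ext
  refine LinearMap.ext fun v => ?_
  rw [lin_comp, lin_comp, LinearMap.comp_apply, LinearMap.comp_apply, lin_cen, lin_cen, map_smul]

theorem mapL_cen (θ : LblHom L L') (X : VCat S L) :
    (mapL θ).map (cen s hs X) = cen s hs ((mapL θ).obj X) := rfl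

theorem bc_cen (φ : S →+* S') (hs' : ∀ x, φ s * x = x * φ s) (X : VCat S L) :
    (bc φ).map (cen s hs X) = cen (φ s) hs' ((bc φ).obj X) := by
  refine ext_e fun i => (lin_bcMap_e φ _ i).trans ?_
  rw [lin_cen, lin_cen, LinearMap.map_smulₛₗ, bcVec_e, MonoidAlgebra.mapRingHom_single]
  rfl

/-- Multiplication by a central unit is invertible. -/
theorem cen_comp {s t : S} (hs : ∀ x, s * x = x * s) (ht : ∀ x, t * x = x * t) (h : s * t = 1)
    (X : VCat S L) : cen s hs X ≫ cen t ht X = 𝟙 X := by
  apply hom_ext
  refine LinearMap.ext fun v => ?_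
  rw [lin_comp, LinearMap.comp_apply, lin_cen, lin_cen, smul_smul,
    MonoidAlgebra.single_mul_single, mul_one, ← hs, h, lin_id]
  exact one_smul _ v

/-- Multiplication by a central element of the coefficients, on complexes. -/
@[simps]
noncomputable def cenC (s : S) (hs : ∀ x, s * x = x * s) (K : CochainComplex (VCat S L) ℤ) :
    K ⟶ K where
  f n := cen s hs (K.X n)
  comm' _ _ _ := cen_nat hs _

theorem cenC_nat {K K' : CochainComplex (VCat S L) ℤ} (f : K ⟶ K') :
    cenC s hs K ≫ f = f ≫ cenC s hs K' := by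
  ext n : 1
  exact cen_nat hs _

end VCat

open VCat

/-- Multiplication by a central element of the coefficients, on the homotopy category. -/
noncomputable def zK (s : S) (hs : ∀ x, s * x = x * s) (X : KV S L) : X ⟶ X :=
  (HomotopyCategory.quotient (VCat S L) (ComplexShape.up ℤ)).map (cenC s hs X.as)

variable {s : S} (hs : ∀ x, s * x = x * s)

theorem zK_nat {X Y : KV S L} (f : X ⟶ Y) : zK s hs X ≫ f = f ≫ zK s hs Y := by
  obtain ⟨f, rfl⟩ := (HomotopyCategory.quotient (VCat S L) (ComplexShape.up ℤ)).map_surjective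
    (X := X.as) (Y := Y.as) f
  exact congrArg (HomotopyCategory.quotient (VCat S L) (ComplexShape.up ℤ)).map (cenC_nat hs f)

theorem kL_zK (θ : LblHom L L') (X : KV S L) :
    (kL S θ).map (zK s hs X) = zK s hs ((kL S θ).obj X) := rfl

theorem kR_zK (φ : S →+* S') (hs' : ∀ x, φ s * x = x * φ s) (X : KV S L) :
    (kR L φ).map (zK s hs X) = zK (φ s) hs' ((kR L φ).obj X) := by
  refine congrArg (HomotopyCategory.quotient (VCat S' L) (ComplexShape.up ℤ)).map ?_
  ext n : 1
  exact bc_cen hs φ hs' _

theorem zK_comp {s t : S} (hs : ∀ x, s * x = x * s) (ht : ∀ x, t * x = x * t) (h : s * t = 1)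
    (X : KV S L) : zK s hs X ≫ zK t ht X = 𝟙 X := by
  refine congrArg (HomotopyCategory.quotient (VCat S L) (ComplexShape.up ℤ)).map
    (a₁ := cenC s hs X.as ≫ cenC t ht X.as) (a₂ := 𝟙 X.as) ?_
  ext n : 1
  exact cen_comp hs ht h _

/-- Iterated multiplication. -/
noncomputable def zKn (s : S) (hs : ∀ x, s * x = x * s) (X : KV S L) : ℕ → (X ⟶ X)
  | 0 => 𝟙 X
  | n + 1 => zKn s hs X n ≫ zK s hs X

theorem zKn_zero (X : KV S L) : zKn s hs X 0 = 𝟙 X := rfl

theorem zKn_succ (X : KV S L) (n : ℕ) : zKn s hs X (n + 1) = zKn s hs X n ≫ zK s hs X := rfl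

theorem zKn_nat {X Y : KV S L} (f : X ⟶ Y) (n : ℕ) : zKn s hs X n ≫ f = f ≫ zKn s hs Y n := by
  induction n with
  | zero => rw [zKn_zero, zKn_zero, Category.id_comp, Category.comp_id]
  | succ n ih =>
    rw [zKn_succ, zKn_succ, Category.assoc, zK_nat hs f, ← Category.assoc, ih, Category.assoc]

theorem zKn_add (X : KV S L) (m n : ℕ) :
    zKn s hs X (m + n) = zKn s hs X m ≫ zKn s hs X n := by
  induction n with
  | zero => rw [add_zero, zKn_zero, Category.comp_id]
  | succ n ih => rw [← add_assoc, zKn_succ, zKn_succ, ih, Category.assoc]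

theorem kL_zKn (θ : LblHom L L') (X : KV S L) (n : ℕ) :
    (kL S θ).map (zKn s hs X n) = zKn s hs ((kL S θ).obj X) n := by
  induction n with
  | zero => exact (kL S θ).map_id X
  | succ n ih => rw [zKn_succ, zKn_succ, Functor.map_comp, ih, kL_zK]

theorem kR_zKn (φ : S →+* S') (hs' : ∀ x, φ s * x = x * φ s) (X : KV S L) (n : ℕ) :
    (kR L φ).map (zKn s hs X n) = zKn (φ s) hs' ((kR L φ).obj X) n := by
  induction n with
  | zero => exact (kR L φ).map_id X
  | succ n ih => rw [zKn_succ, zKn_succ, Functor.map_comp, ih, kR_zK hs φ hs']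

theorem zX_central (R : Type u) [Ring R] (x : Polynomial R) : Polynomial.X * x = x * Polynomial.X :=
  Polynomial.X_mul

theorem zT_central (R : Type u) [Ring R] (x : LaurentPolynomial R) :
    Polynomial.toLaurent Polynomial.X * x = x * Polynomial.toLaurent Polynomial.X := by
  rw [Polynomial.toLaurent_X]
  exact (LaurentPolynomial.commute_T 1 x).eq

end Pool.Agent.Lib.MP_c052b4_al.MT
end

section

/-!
# Restriction of coefficients from polynomials (TREES^n, helper78)
-/

set_option autoImplicit false
set_option linter.unusedVariables false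

namespace Pool.Agent.Lib.MP_c052b4_al.MT

open CategoryTheory Polynomial

universe u

variable {R : Type u} [Ring R] {G : Type u} [Group G] {L L' : Lbl G}

namespace VCat

/-- Restriction of coefficients: on objects. -/
@[reducible]
def resObj (X : VCat (Polynomial R) L) : VCat R L := ⟨X.I × ℕ, fun i => X.l i.1⟩

/-- A bound for the degrees of the coefficients of a vector. -/
noncomputable def dbound (X : VCat (Polynomial R) L) (v : X.M) : ℕ :=
  v.support.sup fun i => (v i).coeff.support.sup fun g => ((v i).coeff g).natDegree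

theorem le_dbound (X : VCat (Polynomial R) L) (v : X.M) {i : X.I} {g : G} {k : ℕ}
    (h : ((v i).coeff g).coeff k ≠ 0) : k ≤ X.dbound v := by
  have h1 : (v i).coeff g ≠ 0 := fun h0 => h (by rw [h0, coeff_zero])
  have h2 : v i ≠ 0 := fun h0 => h1 (by rw [h0]; rfl)
  have h3 : k ≤ ((v i).coeff g).natDegree := le_natDegree_of_ne_zero h
  refine h3.trans ?_
  refine le_trans ?_ (Finset.le_sup (f := fun i => (v i).coeff.support.sup fun g =>
    ((v i).coeff g).natDegree) (Finsupp.mem_support_iff.2 h2))
  exact Finset.le_sup (f := fun g => ((v i).coeff g).natDegree) (Finsupp.mem_support_iff.2 h1)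

open Classical in
/-- Restriction of coefficients: on vectors. -/
noncomputable def resFun (X : VCat (Polynomial R) L) (v : X.M) : (resObj X).M :=
  Finsupp.onFinset (v.support ×ˢ Finset.range (X.dbound v + 1))
    (fun i => MonoidAlgebra.ofCoeff
      (Finsupp.mapRange (fun p : Polynomial R => p.coeff i.2) (coeff_zero _) (v i.1).coeff))
    (by
      intro i hi
      have h1 : ∃ g, ((v i.1).coeff g).coeff i.2 ≠ 0 := by
        by_contra hcon
        simp only [not_exists, not_not] at hcon
        refine hi ?_
        rw [MonoidAlgebra.ofCoeff_eq_zero]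
        ext g
        rw [Finsupp.mapRange_apply, Finsupp.zero_apply]
        exact hcon g
      obtain ⟨g, hg⟩ := h1
      refine Finset.mem_product.2 ⟨Finsupp.mem_support_iff.2 fun h0 => hg ?_,
        Finset.mem_range.2 (Nat.lt_succ_of_le (X.le_dbound v hg))⟩
      rw [h0]
      rfl)

theorem resFun_coeff (X : VCat (Polynomial R) L) (v : X.M) (i : X.I) (k : ℕ) (g : G) :
    ((X.resFun v) (i, k)).coeff g = ((v i).coeff g).coeff k := rfl

theorem resM_ext {X : VCat (Polynomial R) L} {v w : (resObj X).M}
    (h : ∀ i k g, (v (i, k)).coeff g = (w (i, k)).coeff g) : v = w := by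
  refine Finsupp.ext fun i => MonoidAlgebra.coeff_injective (Finsupp.ext fun g => ?_)
  exact h i.1 i.2 g

/-- Restriction of coefficients: on vectors, additive. -/
noncomputable def resVec (X : VCat (Polynomial R) L) : X.M →+ (resObj X).M where
  toFun := X.resFun
  map_zero' := resM_ext fun i k g => rfl
  map_add' v w := resM_ext fun i k g => by
    rw [resFun_coeff, Finsupp.add_apply, MonoidAlgebra.coeff_add, Finsupp.add_apply, coeff_add,
      Finsupp.add_apply, MonoidAlgebra.coeff_add, Finsupp.add_apply, resFun_coeff, resFun_coeff]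

theorem resVec_coeff (X : VCat (Polynomial R) L) (v : X.M) (i : X.I) (k : ℕ) (g : G) :
    ((X.resVec v) (i, k)).coeff g = ((v i).coeff g).coeff k := rfl

theorem resVec_mem (X : VCat (Polynomial R) L) {w : L.W} {v : X.M} (hv : v ∈ X.fil w) :
    X.resVec v ∈ (resObj X).fil w := by
  rintro ⟨i, k⟩ g hg
  refine hv i g fun h => hg ?_
  rw [resVec_coeff, h, coeff_zero]

theorem resVec_smul (X : VCat (Polynomial R) L) (h : G) (r : R) (v : X.M) :
    X.resVec (MonoidAlgebra.single h (C r) • v) = MonoidAlgebra.single h r • X.resVec v :=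
  resM_ext fun i k g => by
    rw [resVec_coeff, Finsupp.smul_apply, smul_eq_mul, MonoidAlgebra.coeff_single_mul_apply,
      coeff_C_mul, Finsupp.smul_apply, smul_eq_mul, MonoidAlgebra.coeff_single_mul_apply,
      resVec_coeff]

/-- The vectors `z^k e_i`. -/
noncomputable def ze (X : VCat (Polynomial R) L) (i : X.I) (k : ℕ) : X.M :=
  MonoidAlgebra.single (1 : G) (Polynomial.X ^ k : Polynomial R) • X.e i

theorem resVec_ze (X : VCat (Polynomial R) L) (i : X.I) (k : ℕ) :
    X.resVec (X.ze i k) = (resObj X).e (i, k) := by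
  classical
  refine resM_ext fun j l g => ?_
  unfold ze e
  rw [resVec_coeff, Finsupp.smul_apply, smul_eq_mul, MonoidAlgebra.coeff_single_mul_apply, inv_one,
    one_mul, Finsupp.single_apply, Finsupp.single_apply]
  by_cases hj : i = j
  · subst hj
    rw [if_pos rfl, MonoidAlgebra.one_def, MonoidAlgebra.coeff_single, Finsupp.single_apply]
    by_cases hg : 1 = g
    · subst hg
      rw [if_pos rfl, mul_one, coeff_X_pow]
      by_cases hl : l = k
      · subst hl
        rw [if_pos rfl, if_pos rfl, MonoidAlgebra.one_def, MonoidAlgebra.coeff_single,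
          Finsupp.single_eq_same]
      · rw [if_neg hl, if_neg (fun h => hl (Prod.ext_iff.1 h).2.symm)]
        rfl
    · rw [if_neg hg, mul_zero, coeff_zero]
      split_ifs
      · rw [MonoidAlgebra.one_def, MonoidAlgebra.coeff_single, Finsupp.single_apply, if_neg hg]
      · rfl
  · rw [if_neg hj, if_neg (fun h => hj (Prod.ext_iff.1 h).1)]
    change (Polynomial.X ^ k * 0 : Polynomial R).coeff l = 0
    rw [mul_zero, coeff_zero]

theorem ze_mem (X : VCat (Polynomial R) L) (i : X.I) (k : ℕ) : X.ze i k ∈ X.fil (X.l i) := by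
  have h := X.e_mem i
  intro j g hg
  refine h j g fun h0 => hg ?_
  unfold ze
  rw [Finsupp.smul_apply, smul_eq_mul, MonoidAlgebra.coeff_single_mul_apply, inv_one, one_mul,
    h0, mul_zero]

/-- Restriction of coefficients: on morphisms. -/
noncomputable def resMap {X Y : VCat (Polynomial R) L} (f : X ⟶ Y) : resObj X ⟶ resObj Y :=
  ofBasis fun i : X.I × ℕ => ⟨Y.resVec (lin f (X.ze i.1 i.2)), Y.resVec_mem (lin_mem f (X.ze_mem i.1 i.2))⟩

theorem lin_resMap_e {X Y : VCat (Polynomial R) L} (f : X ⟶ Y) (i : X.I) (k : ℕ) :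
    lin (resMap f) ((resObj X).e (i, k)) = Y.resVec (lin f (X.ze i k)) := lin_ofBasis_e _ _

theorem lin_resMap_resVec {X Y : VCat (Polynomial R) L} (f : X ⟶ Y) (v : X.M) :
    lin (resMap f) (X.resVec v) = Y.resVec (lin f v) := by
  induction v using Finsupp.induction_linear with
  | zero => rw [map_zero, map_zero, map_zero, map_zero]
  | add a b ha hb => rw [map_add, map_add, map_add, map_add, ha, hb]
  | single i a =>
    induction a using MonoidAlgebra.induction_linear with
    | zero => rw [Finsupp.single_zero, map_zero, map_zero, map_zero, map_zero]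
    | add a b ha hb => rw [Finsupp.single_add, map_add, map_add, map_add, map_add, ha, hb]
    | single g p =>
      induction p using Polynomial.induction_on' with
      | add p q hp hq =>
        rw [MonoidAlgebra.single_add, Finsupp.single_add, map_add, map_add, map_add, map_add, hp, hq]
      | monomial k r =>
        have h1 : (Finsupp.single i (MonoidAlgebra.single g (monomial k r)) : X.M) =
            MonoidAlgebra.single g (C r) • X.ze i k := by
          unfold ze e
          rw [smul_smul, MonoidAlgebra.single_mul_single, mul_one, C_mul_X_pow_eq_monomial,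
            Finsupp.smul_single, smul_eq_mul, mul_one]
        rw [h1, resVec_smul, resVec_ze, map_smul, lin_resMap_e, map_smul, resVec_smul]

/-- Restriction of coefficients: the functor. -/
noncomputable def res : VCat (Polynomial R) L ⥤ VCat R L where
  obj X := resObj X
  map f := resMap f
  map_id X := ext_e fun i => (lin_resMap_e _ i.1 i.2).trans (X.resVec_ze i.1 i.2)
  map_comp {X Y Z} f g := ext_e fun i => by
    refine (lin_resMap_e _ i.1 i.2).trans ?_
    rw [lin_comp, LinearMap.comp_apply, lin_comp, LinearMap.comp_apply]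
    exact (lin_resMap_resVec g _).symm.trans (congrArg _ (lin_resMap_e f i.1 i.2).symm)

instance : (res : VCat (Polynomial R) L ⥤ VCat R L).Additive where
  map_add {X Y f g} := ext_e fun i => by
    refine (lin_resMap_e _ i.1 i.2).trans ?_
    rw [lin_add, LinearMap.add_apply, lin_add, LinearMap.add_apply, map_add]
    exact congrArg₂ (· + ·) (lin_resMap_e f i.1 i.2).symm (lin_resMap_e g i.1 i.2).symm

end VCat

/-- Restriction of coefficients on homotopy categories. -/
noncomputable abbrev kRes (L : Lbl G) : KV (Polynomial R) L ⥤ KV R L :=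
  (VCat.res).mapHomotopyCategory (ComplexShape.up ℤ)

theorem kL_kRes (θ : LblHom L L') (X : KV (Polynomial R) L) :
    (kL R θ).obj ((kRes L).obj X) = (kRes L').obj ((kL (Polynomial R) θ).obj X) := rfl

end Pool.Agent.Lib.MP_c052b4_al.MT
end

section

/-!
# The triangle `res K → res K → K mod z` (TREES^n, helper78)
-/

set_option autoImplicit false
set_option linter.unusedVariables false

namespace Pool.Agent.Lib.MP_c052b4_al.MT

open CategoryTheory CategoryTheory.Limits CategoryTheory.Pretriangulated

universe u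

variable {R : Type u} [Ring R] {G : Type u} [Group G] {L L' : Lbl G}

namespace VCat

/-- Reduction modulo `z`. -/
noncomputable def redZ (X : VCat (Polynomial R) L) : resObj X ⟶ bcObj R X :=
  ofBasis fun i : X.I × ℕ => match i with
    | (i, 0) => ⟨(bcObj R X).e i, (bcObj R X).e_mem i⟩
    | (i, k + 1) => 0

theorem redZ_zero (X : VCat (Polynomial R) L) (i : X.I) :
    lin (redZ X) ((resObj X).e (i, 0)) = (bcObj R X).e i := lin_ofBasis_e _ _

theorem redZ_succ (X : VCat (Polynomial R) L) (i : X.I) (k : ℕ) :
    lin (redZ X) ((resObj X).e (i, k + 1)) = 0 := lin_ofBasis_e _ _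

/-- The section. -/
noncomputable def secZ (X : VCat (Polynomial R) L) : bcObj R X ⟶ resObj X :=
  ofBasis fun i => ⟨(resObj X).e (i, 0), (resObj X).e_mem (i, 0)⟩

theorem secZ_e (X : VCat (Polynomial R) L) (i : X.I) :
    lin (secZ X) ((bcObj R X).e i) = (resObj X).e (i, 0) := lin_ofBasis_e _ _

/-- The retraction. -/
noncomputable def retZ (X : VCat (Polynomial R) L) : resObj X ⟶ resObj X :=
  ofBasis fun i : X.I × ℕ => match i with
    | (i, 0) => 0
    | (i, k + 1) => ⟨(resObj X).e (i, k), (resObj X).e_mem (i, k)⟩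

theorem retZ_zero (X : VCat (Polynomial R) L) (i : X.I) :
    lin (retZ X) ((resObj X).e (i, 0)) = 0 := lin_ofBasis_e _ _

theorem retZ_succ (X : VCat (Polynomial R) L) (i : X.I) (k : ℕ) :
    lin (retZ X) ((resObj X).e (i, k + 1)) = (resObj X).e (i, k) := lin_ofBasis_e _ _

/-- Multiplication by `z`. -/
noncomputable def mulZ (X : VCat (Polynomial R) L) : resObj X ⟶ resObj X :=
  resMap (cen Polynomial.X (zX_central R) X)

theorem mulZ_e (X : VCat (Polynomial R) L) (i : X.I) (k : ℕ) :
    lin (mulZ X) ((resObj X).e (i, k)) = (resObj X).e (i, k + 1) := by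
  refine (lin_resMap_e _ i k).trans ?_
  have h : MonoidAlgebra.single (1 : G) (Polynomial.X : Polynomial R) • X.ze i k =
      X.ze i (k + 1) := by
    unfold ze
    rw [smul_smul, MonoidAlgebra.single_mul_single, one_mul, pow_succ']
  rw [lin_cen, h, resVec_ze]

theorem mulZ_retZ (X : VCat (Polynomial R) L) : mulZ X ≫ retZ X = 𝟙 (resObj X) :=
  ext_e fun i => by
    obtain ⟨i, k⟩ := i
    rw [lin_comp, LinearMap.comp_apply, mulZ_e, retZ_succ, lin_id, LinearMap.id_apply]

theorem secZ_redZ (X : VCat (Polynomial R) L) : secZ X ≫ redZ X = 𝟙 (bcObj R X) :=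
  ext_e fun i => by
    rw [lin_comp, LinearMap.comp_apply, secZ_e, redZ_zero, lin_id, LinearMap.id_apply]

theorem splitZ (X : VCat (Polynomial R) L) :
    retZ X ≫ mulZ X + redZ X ≫ secZ X = 𝟙 (resObj X) :=
  ext_e fun i => by
    obtain ⟨i, k⟩ := i
    rw [lin_add, LinearMap.add_apply, lin_comp, LinearMap.comp_apply, lin_comp,
      LinearMap.comp_apply, lin_id, LinearMap.id_apply]
    rcases k with - | k
    · rw [retZ_zero, redZ_zero, secZ_e, map_zero, zero_add]
    · rw [retZ_succ, redZ_succ, mulZ_e, map_zero, add_zero]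

theorem mulZ_redZ (X : VCat (Polynomial R) L) : mulZ X ≫ redZ X = 0 :=
  ext_e fun i => by
    obtain ⟨i, k⟩ := i
    rw [lin_comp, LinearMap.comp_apply, mulZ_e, redZ_succ, lin_zero, LinearMap.zero_apply]

theorem redZ_apply (X : VCat (Polynomial R) L) (u : (resObj X).M) (i : X.I) :
    lin (redZ X) u i = u (i, 0) := by
  classical
  induction u using Finsupp.induction_linear with
  | zero => rw [map_zero]; rfl
  | add a b ha hb => rw [map_add, Finsupp.add_apply, Finsupp.add_apply, ha, hb]
  | single j a =>
    obtain ⟨j, k⟩ := j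
    have h1 : (Finsupp.single (j, k) a : (resObj X).M) = a • (resObj X).e (j, k) := by
      unfold e
      rw [Finsupp.smul_single, smul_eq_mul, mul_one]
    rcases k with - | k
    · rw [h1, map_smul, redZ_zero]
      unfold e
      rw [Finsupp.smul_single, Finsupp.smul_single, smul_eq_mul, mul_one,
        Finsupp.single_apply, Finsupp.single_apply]
      by_cases hj : j = i
      · subst hj
        rw [if_pos rfl, if_pos rfl]
      · rw [if_neg hj, if_neg fun h => hj (Prod.ext_iff.1 h).1]
    · rw [h1, map_smul, redZ_succ, smul_zero]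
      unfold e
      rw [Finsupp.smul_single, Finsupp.single_apply, if_neg fun h => ?_]
      · rfl
      · exact absurd (Prod.ext_iff.1 h).2 (Nat.succ_ne_zero k)

theorem redZ_resVec (X : VCat (Polynomial R) L) (v : X.M) :
    lin (redZ X) (X.resVec v) = bcVec Polynomial.constantCoeff X v := by
  refine Finsupp.ext fun i => MonoidAlgebra.coeff_injective (Finsupp.ext fun g => ?_)
  rw [redZ_apply]
  rfl

theorem redZ_nat {X Y : VCat (Polynomial R) L} (f : X ⟶ Y) :
    resMap f ≫ redZ Y = redZ X ≫ bcMap (Polynomial.constantCoeff : Polynomial R →+* R) f :=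
  ext_e fun i => by
    obtain ⟨i, k⟩ := i
    rw [lin_comp, LinearMap.comp_apply, lin_comp, LinearMap.comp_apply, lin_resMap_e, redZ_resVec,
      ← resVec_ze, redZ_resVec, lin_bcMap_bcVec]

end VCat

open VCat

/-- The triangle `res K → res K → K mod z`. -/
theorem res_triangle (K : CochainComplex (VCat (Polynomial R) L) ℤ) :
    ∃ (g : (kRes L).obj ((HomotopyCategory.quotient _ _).obj K) ⟶
        (kR L (Polynomial.constantCoeff : Polynomial R →+* R)).obj
          ((HomotopyCategory.quotient _ _).obj K))
      (h : (kR L (Polynomial.constantCoeff : Polynomial R →+* R)).obj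
          ((HomotopyCategory.quotient _ _).obj K) ⟶
        ((kRes L).obj ((HomotopyCategory.quotient _ _).obj K))⟦(1 : ℤ)⟧),
      Triangle.mk ((kRes L).map (zK Polynomial.X (zX_central R)
        ((HomotopyCategory.quotient _ _).obj K))) g h ∈ distTriang (KV R L) := by
  let F := (res : VCat (Polynomial R) L ⥤ VCat R L).mapHomologicalComplex (ComplexShape.up ℤ)
  let F' := (bc (Polynomial.constantCoeff : Polynomial R →+* R) :
    VCat (Polynomial R) L ⥤ VCat R L).mapHomologicalComplex (ComplexShape.up ℤ)
  let p : F.obj K ⟶ F'.obj K :=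
    { f := fun n => redZ (K.X n)
      comm' := fun i j _ => (redZ_nat (K.d i j)).symm }
  let T : ShortComplex (CochainComplex (VCat R L) ℤ) :=
    ShortComplex.mk (F.map (cenC Polynomial.X (zX_central R) K)) p (by
      ext n : 1
      exact mulZ_redZ (K.X n))
  let σ : ∀ n, (T.map (HomologicalComplex.eval _ _ n)).Splitting := fun n =>
    { r := retZ (K.X n)
      s := secZ (K.X n)
      f_r := mulZ_retZ (K.X n)
      s_g := secZ_redZ (K.X n)
      id := splitZ (K.X n) }
  exact ⟨_, _, (HomotopyCategory.distinguished_iff_iso_trianglehOfDegreewiseSplit _).2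
    ⟨T, σ, ⟨Iso.refl _⟩⟩⟩

end Pool.Agent.Lib.MP_c052b4_al.MT
end
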