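import Pool.Agent.Lib.MP_c052b4_al.Mg.G002
import Pool.Agent.Lib.MP_c052b4_al.Mg.G018
import Pool.Agent.Lib.MP_c052b4_al.Mg.G009
import Pool.Agent.Lib.MP_c052b4_al.Mg.G023
import Pool.Agent.Lib.MP_c052b4_al.Mg.G008

section

/-!
# Torsionfree groups of triangular automorphisms are commutative
-/

set_option autoImplicit false

namespace Pool.Agent.Lib.MP_c052b4_al.JK

open MvPolynomial

universe u

variable {K : Type u} [Field K]

/-- the diagonal part of a triangular automorphism -/
noncomputable def dia (σ : AutA K) : K × K :=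
  (coeff (Finsupp.single 0 1) (σ (X 0)), coeff (Finsupp.single 1 1) (σ (X 1)))

private theorem triV_coeff_aeval (P : Polynomial K) :
    coeff (Finsupp.single 0 1) (Polynomial.aeval (X 1 : A2 K) P) = 0 := by
  rw [Polynomial.aeval_eq_sum_range, coeff_sum]
  refine Finset.sum_eq_zero fun n _ => ?_
  rw [coeff_smul, coeff_X_pow, if_neg, smul_zero]
  intro h
  have := DFunLike.congr_fun h 0
  simp at this

private theorem triV_dia {σ : AutA K} {a c d : K} {P : Polynomial K}
    (h0 : σ (X 0) = C a * X 0 + Polynomial.aeval (X 1) P)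
    (h1 : σ (X 1) = C c * X 1 + C d) : dia σ = (a, c) := by
  unfold dia
  rw [h0, h1]
  refine Prod.ext ?_ ?_
  · show coeff (Finsupp.single 0 1) (C a * X 0 + Polynomial.aeval (X 1 : A2 K) P) = a
    rw [coeff_add, triV_coeff_aeval, coeff_C_mul, coeff_X, if_pos rfl, mul_one, add_zero]
  · show coeff (Finsupp.single 1 1) (C c * X 1 + C d : A2 K) = c
    have hne : ¬ ((0 : Fin 2 →₀ ℕ) = Finsupp.single 1 1) := by
      intro h
      have := DFunLike.congr_fun h 1
      simp at this
    rw [coeff_add, coeff_C_mul, coeff_X, if_pos rfl, coeff_C, if_neg hne, mul_one, add_zero]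

private theorem triV_mul {σ τ : AutA K} {a c d a' c' d' : K} {P P' : Polynomial K}
    (h0 : σ (X 0) = C a * X 0 + Polynomial.aeval (X 1) P)
    (h1 : σ (X 1) = C c * X 1 + C d)
    (h0' : τ (X 0) = C a' * X 0 + Polynomial.aeval (X 1) P')
    (h1' : τ (X 1) = C c' * X 1 + C d') :
    (σ * τ) (X 0) = C (a * a') * X 0 + Polynomial.aeval (X 1 : A2 K)
      (Polynomial.C a' * P + P'.comp (Polynomial.C c * Polynomial.X + Polynomial.C d)) ∧
    (σ * τ) (X 1) = C (c * c') * X 1 + C (c' * d + d') := by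
  have hC : ∀ k : K, σ (C k) = C k := fun k => σ.commutes k
  constructor
  · show σ (τ (X 0)) = _
    rw [h0', map_add, map_mul, hC, h0]
    have e : σ (Polynomial.aeval (X 1 : A2 K) P') = Polynomial.aeval (σ (X 1)) P' :=
      (Polynomial.aeval_algHom_apply (σ : A2 K →ₐ[K] A2 K) (X 1) P').symm
    rw [e, h1]
    rw [map_add, map_mul (Polynomial.aeval (X 1 : A2 K)), Polynomial.aeval_comp, Polynomial.aeval_C]
    have e2 : Polynomial.aeval (X 1 : A2 K) (Polynomial.C c * Polynomial.X + Polynomial.C d)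
        = C c * X 1 + C d := by
      rw [map_add, map_mul, Polynomial.aeval_C, Polynomial.aeval_C, Polynomial.aeval_X]
      rfl
    rw [e2]
    have e3 : (algebraMap K (A2 K)) a' = C a' := rfl
    rw [e3, C_mul]
    ring
  · show σ (τ (X 1)) = _
    rw [h1', map_add, map_mul, hC, hC, h1, C_mul, C_add, C_mul]
    ring

/-- Proof: `Tri_X0`, `Tri_X1`: if `σ (X 0) = C a * X 0 + P(X 1)` and `σ (X 1) = C c * X 1 + C d` then
`dia σ = (a, c)`. -/
theorem dia_mul (σ τ : AutA K) (hσ : σ ∈ Tri K) (hτ : τ ∈ Tri K) :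
    dia (σ * τ) = dia σ * dia τ := by
  obtain ⟨a, P, _, h0⟩ := Tri_X0 hσ
  obtain ⟨c, d, _, h1⟩ := Tri_X1 hσ
  obtain ⟨a', P', _, h0'⟩ := Tri_X0 hτ
  obtain ⟨c', d', _, h1'⟩ := Tri_X1 hτ
  obtain ⟨e0, e1⟩ := triV_mul h0 h1 h0' h1'
  rw [triV_dia e0 e1, triV_dia h0 h1, triV_dia h0' h1']
  rfl

theorem dia_one : dia (1 : AutA K) = 1 := by
  have h0 : (1 : AutA K) (X 0) = C 1 * X 0 + Polynomial.aeval (X 1 : A2 K) (0 : Polynomial K) := by
    rw [C_1, one_mul, map_zero, add_zero]; rfl
  have h1 : (1 : AutA K) (X 1) = C 1 * X 1 + C 0 := by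
    rw [C_1, one_mul, C_0, add_zero]; rfl
  rw [triV_dia h0 h1]
  rfl

private theorem triV_dia_pow (σ : AutA K) (hσ : σ ∈ Tri K) (h : dia σ = 1) (n : ℕ) :
    dia (σ ^ n) = 1 := by
  induction n with
  | zero => rw [pow_zero, dia_one]
  | succ n ih =>
    rw [pow_succ, dia_mul _ _ (Subgroup.pow_mem _ hσ n) hσ, ih, h, one_mul]

private theorem triV_pow_X1 (σ : AutA K) (d : K) (h : σ (X 1) = X 1 + C d) (n : ℕ) :
    (σ ^ n) (X 1) = X 1 + C (n * d) := by
  induction n with
  | zero => simp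
  | succ n ih =>
    rw [pow_succ']
    show σ ((σ ^ n) (X 1)) = _
    have hC : ∀ k : K, σ (C k) = C k := fun k => σ.commutes k
    rw [ih, map_add, hC, h, add_assoc, ← C_add]
    congr 2
    push_cast
    ring

private theorem triV_pow_X0 (ρ : AutA K) (Q : Polynomial K)
    (h0 : ρ (X 0) = X 0 + Polynomial.aeval (X 1 : A2 K) Q) (h1 : ρ (X 1) = X 1) (n : ℕ) :
    (ρ ^ n) (X 0) = X 0 + (n : A2 K) * Polynomial.aeval (X 1 : A2 K) Q := by
  induction n with
  | zero => simp
  | succ n ih =>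
    rw [pow_succ']
    show ρ ((ρ ^ n) (X 0)) = _
    have e : ρ (Polynomial.aeval (X 1 : A2 K) Q) = Polynomial.aeval (ρ (X 1)) Q :=
      (Polynomial.aeval_algHom_apply (ρ : A2 K →ₐ[K] A2 K) (X 1) Q).symm
    rw [ih, map_add, map_mul, map_natCast, e, h1, h0]
    push_cast
    ring

/-- Proof: `σ (X 1) = X 1 + C d`, so `(σ ^ n) (X 1) = X 1 + C (n d)`, so `ρ = σ ^ p` fixes `X 1` and
`dia ρ = 1`, so `ρ (X 0) = X 0 + Q(X 1)` and `(ρ ^ n) (X 0) = X 0 + n Q(X 1)`, `ρ ^ p = 1`. -/
theorem pow_eq_one_of_dia (p : ℕ) [CharP K p] (σ : AutA K) (hσ : σ ∈ Tri K)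
    (h : dia σ = 1) : σ ^ (p * p) = 1 := by
  obtain ⟨a, P, _, h0⟩ := Tri_X0 hσ
  obtain ⟨c, d, _, h1⟩ := Tri_X1 hσ
  have hd := h
  rw [triV_dia h0 h1] at hd
  have hc : c = 1 := congrArg Prod.snd hd
  have h1' : σ (X 1) = X 1 + C d := by rw [h1, hc, C_1, one_mul]
  have hp1 : (σ ^ p) (X 1) = X 1 := by
    rw [triV_pow_X1 σ d h1' p, CharP.cast_eq_zero, zero_mul, C_0, add_zero]
  have hT : σ ^ p ∈ Tri K := Subgroup.pow_mem _ hσ p
  have hdp : dia (σ ^ p) = 1 := triV_dia_pow σ hσ h p
  obtain ⟨a', P', _, h0'⟩ := Tri_X0 hT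
  have h1'' : (σ ^ p) (X 1) = C 1 * X 1 + C 0 := by rw [hp1, C_1, one_mul, C_0, add_zero]
  rw [triV_dia h0' h1''] at hdp
  have ha' : a' = 1 := congrArg Prod.fst hdp
  have h0'' : (σ ^ p) (X 0) = X 0 + Polynomial.aeval (X 1 : A2 K) P' := by
    rw [h0', ha', C_1, one_mul]
  have hcast : ((p : ℕ) : A2 K) = 0 := by
    have : ((p : ℕ) : A2 K) = C ((p : ℕ) : K) := by simp
    rw [this, CharP.cast_eq_zero, C_0]
  have hf0 : ((σ ^ p) ^ p) (X 0) = X 0 := by
    rw [triV_pow_X0 _ _ h0'' hp1 p, hcast, zero_mul, add_zero]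
  have hf1 : ((σ ^ p) ^ p) (X 1) = X 1 := by
    have := triV_pow_X1 (σ ^ p) 0 (by rw [hp1, C_0, add_zero]) p
    rw [this, mul_zero, C_0, add_zero]
  rw [pow_mul]
  apply AlgEquiv.ext
  intro x
  have : ((((σ ^ p) ^ p : AutA K) : A2 K →ₐ[K] A2 K)) = AlgHom.id K (A2 K) := by
    apply MvPolynomial.algHom_ext
    intro i
    fin_cases i
    · exact hf0
    · exact hf1
  exact DFunLike.congr_fun this x

/-- Proof: for the commutator `c` of `a, b`: `dia (f c) = 1` (`dia` is multiplicative on `Tri` with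
values in a commutative monoid), so `f (c ^ (p * p)) = 1`, `c ^ (p * p) = 1`, `c = 1`. -/
theorem comm_of_tri (p : ℕ) (hp : 0 < p) [CharP K p] (H : Type u) [Group H] (f : H →* AutA K)
    (hf : Function.Injective f) (him : ∀ h, f h ∈ Tri K)
    (htf : ∀ h : H, IsOfFinOrder h → h = 1) (a b : H) : a * b = b * a := by
  have hm : ∀ x y : H, dia (f (x * y)) = dia (f x) * dia (f y) := fun x y => by
    rw [map_mul, dia_mul _ _ (him x) (him y)]
  have h1 : dia (f (1 : H)) = 1 := by rw [map_one, dia_one]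
  have hinv : ∀ x : H, dia (f x) * dia (f x⁻¹) = 1 := fun x => by
    rw [← hm, mul_inv_cancel, h1]
  have hc : dia (f (a * b * a⁻¹ * b⁻¹)) = 1 := by
    rw [hm, hm, hm]
    calc dia (f a) * dia (f b) * dia (f a⁻¹) * dia (f b⁻¹)
        = (dia (f a) * dia (f a⁻¹)) * (dia (f b) * dia (f b⁻¹)) := by ring
      _ = 1 := by rw [hinv, hinv, one_mul]
  have hpow := pow_eq_one_of_dia p (f (a * b * a⁻¹ * b⁻¹)) (him _) hc
  rw [← map_pow] at hpow
  have hpow' : (a * b * a⁻¹ * b⁻¹) ^ (p * p) = 1 := by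
    apply hf
    rw [hpow, map_one]
  have hfin : IsOfFinOrder (a * b * a⁻¹ * b⁻¹) :=
    isOfFinOrder_iff_pow_eq_one.2 ⟨p * p, Nat.mul_pos hp hp, hpow'⟩
  have hone := htf _ hfin
  have h2 : a * b * a⁻¹ = b := mul_inv_eq_one.1 hone
  have h3 : a * b = b * a := mul_inv_eq_iff_eq_mul.1 h2
  exact h3

end Pool.Agent.Lib.MP_c052b4_al.JK
end

section

/-!
# Bounded complexes of finite objects are dominated (TREES^n, helper78)
-/

set_option autoImplicit false
set_option linter.unusedVariables false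

namespace Pool.Agent.Lib.MP_c052b4_al.MT

open CategoryTheory CategoryTheory.Limits CategoryTheory.Pretriangulated

universe u

variable {S : Type u} [Ring S] {G : Type u} [Group G] {L : Lbl G}

/-- PROOF. Induction on `N : ℕ`, for all `K` with finite index sets and empty index sets in
the degrees outside of `a ≤ n < a + N`. `N = 0`: all index sets are empty, `dom_one_degree` with
`c = 0`. `N + 1`: `brutal_triangle K (a + N)`: `K₁` lives in degree `a + N` only
(`dom_one_degree`), `K₂` in the degrees `a ≤ n < a + N` (induction); `Dom` is closed under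
extensions (`ObjectProperty.ext_of_isTriangulatedClosed₂`; closure under isomorphisms
follows from the instance `IsStableUnderRetracts`). -/
theorem dom_of_range (N : ℕ) : ∀ (a : ℤ) (K : CochainComplex (VCat S L) ℤ)
    (_ : ∀ n, Finite (K.X n).I) (_ : ∀ n, (n < a ∨ a + N ≤ n) → IsEmpty (K.X n).I),
    Dom S L ((QL S L).obj K) := by
  induction N with
  | zero =>
    intro a K hf he
    have h0 : ∀ n, IsEmpty (K.X n).I := fun n => he n (by
      rcases lt_or_ge n a with h | h
      · exact Or.inl h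
      · right
        simpa using h)
    have := hf 0
    exact dom_one_degree K 0 fun n _ => h0 n
  | succ N ih =>
    intro a K hf he
    obtain ⟨K₁, K₂, f, g, h, hT, h1, h2, h3, h4, h5, h6⟩ := brutal_triangle K (a + N)
    have hK₁ : Dom S L ((QL S L).obj K₁) := by
      have := h1 _ (hf (a + N))
      refine dom_one_degree K₁ (a + N) fun n hn => ?_
      rcases lt_or_gt_of_ne hn with hn | hn
      · exact h5 n hn
      · refine h3 n (he n (Or.inr ?_))
        push_cast
        omega
    have hK₂ : Dom S L ((QL S L).obj K₂) := by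
      refine ih a K₂ (fun n => h2 n (hf n)) fun n hn => ?_
      rcases hn with hn | hn
      · exact h4 n (he n (Or.inl hn))
      · exact h6 n hn
    exact (Dom S L).ext_of_isTriangulatedClosed₂ _ hT hK₁ hK₂

/-- Bounded complexes of finite objects are dominated. -/
theorem dom_of_FFc {K : CochainComplex (VCat S L) ℤ} (hK : FFc K) : Dom S L ((QL S L).obj K) := by
  obtain ⟨h1, N, hN⟩ := hK
  refine dom_of_range (2 * N.toNat + 1) (-(N.toNat : ℤ)) K h1 fun n hn => hN n ?_
  have h2 := Int.self_le_toNat N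
  rcases hn with hn | hn
  · have := neg_abs_le n
    omega
  · have := le_abs_self n
    push_cast at hn
    omega

/-- Finite free objects are dominated. -/
theorem FFK_le_Dom : FFK S L ≤ Dom S L := by
  rintro X ⟨K, hK, ⟨e⟩⟩
  exact (Dom S L).prop_of_iso e.symm (dom_of_FFc hK)

end Pool.Agent.Lib.MP_c052b4_al.MT
end

section

/-!
# Cones of matrix complexes (TREES^n, helper78)
-/

set_option autoImplicit false
set_option linter.unusedVariables false

namespace Pool.Agent.Lib.MP_c052b4_al.MT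

open CategoryTheory CategoryTheory.Limits CategoryTheory.Pretriangulated

universe u

/-- Linear maps between free modules. -/
abbrev LM (S : Type u) [Ring S] (G : Type u) [Group G] (I J : Type u) :=
  (I →₀ MonoidAlgebra S G) →ₗ[MonoidAlgebra S G] (J →₀ MonoidAlgebra S G)

variable {S : Type u} [Ring S] {G : Type u} [Group G]

section

variable (S G) (I J : Type u)

/-- First inclusion. -/
noncomputable def inI : LM S G I (I ⊕ J) :=
  Finsupp.linearCombination _ fun i => Finsupp.single (Sum.inl i) 1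

/-- Second inclusion. -/
noncomputable def inJ : LM S G J (I ⊕ J) :=
  Finsupp.linearCombination _ fun i => Finsupp.single (Sum.inr i) 1

/-- First projection. -/
noncomputable def prI : LM S G (I ⊕ J) I :=
  Finsupp.linearCombination _ (Sum.elim (fun i => Finsupp.single i 1) fun _ => 0)

/-- Second projection. -/
noncomputable def prJ : LM S G (I ⊕ J) J :=
  Finsupp.linearCombination _ (Sum.elim (fun _ => 0) fun i => Finsupp.single i 1)

theorem inI_single (i : I) : inI S G I J (Finsupp.single i 1) = Finsupp.single (Sum.inl i) 1 := by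
  unfold inI
  rw [Finsupp.linearCombination_single, one_smul]

theorem inJ_single (i : J) : inJ S G I J (Finsupp.single i 1) = Finsupp.single (Sum.inr i) 1 := by
  unfold inJ
  rw [Finsupp.linearCombination_single, one_smul]

theorem prI_inl (i : I) : prI S G I J (Finsupp.single (Sum.inl i) 1) = Finsupp.single i 1 := by
  unfold prI
  rw [Finsupp.linearCombination_single, one_smul, Sum.elim_inl]

theorem prI_inr (i : J) : prI S G I J (Finsupp.single (Sum.inr i) 1) = 0 := by
  unfold prI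
  rw [Finsupp.linearCombination_single, one_smul, Sum.elim_inr]

theorem prJ_inl (i : I) : prJ S G I J (Finsupp.single (Sum.inl i) 1) = 0 := by
  unfold prJ
  rw [Finsupp.linearCombination_single, one_smul, Sum.elim_inl]

theorem prJ_inr (i : J) : prJ S G I J (Finsupp.single (Sum.inr i) 1) = Finsupp.single i 1 := by
  unfold prJ
  rw [Finsupp.linearCombination_single, one_smul, Sum.elim_inr]

end

/-- Linear maps are equal if they agree on the basis. -/
theorem lm_ext {I J : Type u} {f g : LM S G I J}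
    (h : ∀ i, f (Finsupp.single i 1) = g (Finsupp.single i 1)) : f = g :=
  Finsupp.lhom_ext' fun i => LinearMap.ext_ring (h i)

section

variable {I J : Type u}

@[simp] theorem prI_inI : (prI S G I J).comp (inI S G I J) = LinearMap.id := lm_ext fun i => by
  rw [LinearMap.comp_apply, inI_single, prI_inl, LinearMap.id_apply]

@[simp] theorem prJ_inI : (prJ S G I J).comp (inI S G I J) = 0 := lm_ext fun i => by
  rw [LinearMap.comp_apply, inI_single, prJ_inl, LinearMap.zero_apply]

@[simp] theorem prI_inJ : (prI S G I J).comp (inJ S G I J) = 0 := lm_ext fun i => by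
  rw [LinearMap.comp_apply, inJ_single, prI_inr, LinearMap.zero_apply]

@[simp] theorem prJ_inJ : (prJ S G I J).comp (inJ S G I J) = LinearMap.id := lm_ext fun i => by
  rw [LinearMap.comp_apply, inJ_single, prJ_inr, LinearMap.id_apply]

theorem in_pr : (inI S G I J).comp (prI S G I J) + (inJ S G I J).comp (prJ S G I J) =
    LinearMap.id := lm_ext fun i => by
  rw [LinearMap.add_apply, LinearMap.comp_apply, LinearMap.comp_apply]
  rcases i with i | i
  · rw [prI_inl, prJ_inl, inI_single, map_zero, add_zero, LinearMap.id_apply]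
  · rw [prI_inr, prJ_inr, inJ_single, map_zero, zero_add, LinearMap.id_apply]

end

theorem prI_inI_apply {I J : Type u} (x : I →₀ MonoidAlgebra S G) :
    prI S G I J (inI S G I J x) = x := LinearMap.congr_fun prI_inI x

theorem prJ_inI_apply {I J : Type u} (x : I →₀ MonoidAlgebra S G) :
    prJ S G I J (inI S G I J x) = 0 := LinearMap.congr_fun prJ_inI x

theorem prI_inJ_apply {I J : Type u} (x : J →₀ MonoidAlgebra S G) :
    prI S G I J (inJ S G I J x) = 0 := LinearMap.congr_fun prI_inJ x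

theorem prJ_inJ_apply {I J : Type u} (x : J →₀ MonoidAlgebra S G) :
    prJ S G I J (inJ S G I J x) = x := LinearMap.congr_fun prJ_inJ x

/-- Composition of linear maps which respect labels. -/
theorem RM.comp {L : Lbl G} {I J K : Type u} {f : LM S G I J} {g : LM S G J K} {w : I → L.W}
    {w' : J → L.W} {w'' : K → L.W} (hg : RM L g w' w'') (hf : RM L f w w') :
    RM L (g.comp f) w w'' :=
  RM_lin (X := ⟨I, w⟩) (Y := ⟨K, w''⟩)
    (hm (X := ⟨I, w⟩) (Y := ⟨J, w'⟩) f hf ≫ hm (X := ⟨J, w'⟩) (Y := ⟨K, w''⟩) g hg)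

theorem RM_inI {L : Lbl G} {I J : Type u} (w : I → L.W) (w' : J → L.W) :
    RM L (inI S G I J) w (Sum.elim w w') :=
  RM_lin (VCat.sumInl ⟨I, w⟩ ⟨J, w'⟩)

theorem RM_inJ {L : Lbl G} {I J : Type u} (w : I → L.W) (w' : J → L.W) :
    RM L (inJ S G I J) w' (Sum.elim w w') :=
  RM_lin (VCat.sumInr ⟨I, w⟩ ⟨J, w'⟩)

theorem RM_prI {L : Lbl G} {I J : Type u} (w : I → L.W) (w' : J → L.W) :
    RM L (prI S G I J) (Sum.elim w w') w := by
  rintro (i | i) j g hg
  · rw [prI_inl] at hg
    exact RM_id L (fun i => L.refl (w i)) i j g hg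
  · rw [prI_inr] at hg
    exact absurd (by simp) hg

theorem RM_prJ {L : Lbl G} {I J : Type u} (w : I → L.W) (w' : J → L.W) :
    RM L (prJ S G I J) (Sum.elim w w') w' := by
  rintro (i | i) j g hg
  · rw [prJ_inl] at hg
    exact absurd (by simp) hg
  · rw [prJ_inr] at hg
    exact RM_id L (fun i => L.refl (w' i)) i j g hg

namespace GC

/-- The differential of the cone. -/
noncomputable def dC (E E' : GC S G) (f : ∀ n, LM S G (E.I n) (E'.I n)) (n : ℤ) :
    LM S G (E.I (n + 1) ⊕ E'.I n) (E.I (n + 1 + 1) ⊕ E'.I (n + 1)) :=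
  -((inI S G _ _).comp ((E.d (n + 1)).comp (prI S G _ _))) +
    (inJ S G _ _).comp ((f (n + 1)).comp (prI S G _ _)) +
    (inJ S G _ _).comp ((E'.d n).comp (prJ S G _ _))

theorem dC_inI (E E' : GC S G) (f : ∀ n, LM S G (E.I n) (E'.I n)) (n : ℤ)
    (x : E.I (n + 1) →₀ MonoidAlgebra S G) :
    dC E E' f n (inI S G _ _ x) =
      -(inI S G _ _ (E.d (n + 1) x)) + inJ S G _ _ (f (n + 1) x) := by
  unfold dC
  simp only [LinearMap.comp_apply, LinearMap.add_apply, LinearMap.neg_apply, map_add, map_neg,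
    prI_inI_apply, prJ_inI_apply, prI_inJ_apply, prJ_inJ_apply, map_zero, add_zero]

theorem dC_inJ (E E' : GC S G) (f : ∀ n, LM S G (E.I n) (E'.I n)) (n : ℤ)
    (x : E'.I n →₀ MonoidAlgebra S G) :
    dC E E' f n (inJ S G _ _ x) = inJ S G _ _ (E'.d n x) := by
  unfold dC
  simp only [LinearMap.comp_apply, LinearMap.add_apply, LinearMap.neg_apply, map_add, map_neg,
    prI_inI_apply, prJ_inI_apply, prI_inJ_apply, prJ_inJ_apply, map_zero, add_zero, neg_zero,
    zero_add]

/-- The cone of a map of matrix complexes. -/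
noncomputable def coneM (E E' : GC S G) (f : ∀ n, LM S G (E.I n) (E'.I n))
    (comm : ∀ n, (E'.d n).comp (f n) = (f (n + 1)).comp (E.d n)) : GC S G where
  I n := E.I (n + 1) ⊕ E'.I n
  d n := dC E E' f n
  dd n := by
    refine LinearMap.ext fun v => ?_
    have h1 : ∀ x, E.d (n + 1 + 1) (E.d (n + 1) x) = 0 := fun x =>
      LinearMap.congr_fun (E.dd (n + 1)) x
    have h2 : ∀ x, E'.d (n + 1) (E'.d n x) = 0 := fun x => LinearMap.congr_fun (E'.dd n) x
    have h3 : ∀ x, E'.d (n + 1) (f (n + 1) x) = f (n + 1 + 1) (E.d (n + 1) x) := fun x =>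
      LinearMap.congr_fun (comm (n + 1)) x
    unfold dC
    simp only [LinearMap.comp_apply, LinearMap.add_apply, LinearMap.neg_apply, map_add, map_neg,
      prI_inI_apply, prJ_inI_apply, prI_inJ_apply, prJ_inJ_apply, h1, h2, h3, map_zero,
      LinearMap.zero_apply]
    abel

variable {E E' : GC S G} {f : ∀ n, LM S G (E.I n) (E'.I n)}
  {comm : ∀ n, (E'.d n).comp (f n) = (f (n + 1)).comp (E.d n)} {L : Lbl G}

theorem coneM_Resp {u : ∀ n, E.I n → L.W} {v : ∀ n, E'.I n → L.W} (hu : E.Resp L u)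
    (hv : E'.Resp L v) (hf : ∀ n, RM L (f n) (u n) (v n)) :
    (coneM E E' f comm).Resp L fun n => Sum.elim (u (n + 1)) (v n) := fun n =>
  (((RM_inI _ _).comp ((hu (n + 1)).comp (RM_prI _ _))).neg.add
    ((RM_inJ _ _).comp ((hf (n + 1)).comp (RM_prI _ _)))).add
    ((RM_inJ _ _).comp ((hv n).comp (RM_prJ _ _)))

theorem coneM_Fin' (h : E.Fin') (h' : E'.Fin') : (coneM E E' f comm).Fin' := by
  obtain ⟨h1, N, hN⟩ := h
  obtain ⟨h1', N', hN'⟩ := h'
  refine ⟨fun n => ?_, |N| + |N'| + 1, fun n hn => ?_⟩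
  · have := h1 (n + 1)
    have := h1' n
    exact inferInstanceAs (Finite (E.I (n + 1) ⊕ E'.I n))
  · have := hN (n + 1) (by
      have := abs_add_le (n + 1) (-1)
      have := le_abs_self N
      have := abs_nonneg N'
      rw [show n + 1 + -1 = n by ring, abs_neg, abs_one] at *
      omega)
    have := hN' n (by
      have := le_abs_self N'
      have := abs_nonneg N
      omega)
    exact inferInstanceAs (IsEmpty (E.I (n + 1) ⊕ E'.I n))

/-- The triangle of the cone. -/
theorem coneM_triangle {u : ∀ n, E.I n → L.W} {v : ∀ n, E'.I n → L.W} (hu : E.Resp L u)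
    (hv : E'.Resp L v) (hf : ∀ n, RM L (f n) (u n) (v n)) :
    ∃ (g : (QL S L).obj (T v hv) ⟶
        (QL S L).obj (T (E := coneM E E' f comm) _ (coneM_Resp hu hv hf)))
      (h : (QL S L).obj (T (E := coneM E E' f comm) _ (coneM_Resp hu hv hf)) ⟶
        ((QL S L).obj (T u hu))⟦(1 : ℤ)⟧),
      Triangle.mk ((QL S L).map (Tmap (h := hu) (h' := hv) f hf comm)) g h ∈
        distTriang (KV S L) := by
  let K := T u hu
  let K' := T v hv
  let M := T (E := coneM E E' f comm) _ (coneM_Resp hu hv hf)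
  refine cone_triangle (K := K) (K' := K') (M := M) (Tmap (h := hu) (h' := hv) f hf comm)
    (fun n => hm (X := K.X (n + 1)) (Y := M.X n) (inI S G _ _) (RM_inI _ _))
    (fun n => hm (X := K'.X n) (Y := M.X n) (inJ S G _ _) (RM_inJ _ _))
    (fun n => hm (X := M.X n) (Y := K.X (n + 1)) (prI S G _ _) (RM_prI _ _))
    (fun n => hm (X := M.X n) (Y := K'.X n) (prJ S G _ _) (RM_prJ _ _))
    (fun n => VCat.hom_ext prI_inI) (fun n => VCat.hom_ext prJ_inI)
    (fun n => VCat.hom_ext prI_inJ) (fun n => VCat.hom_ext prJ_inJ)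
    (fun n => VCat.hom_ext in_pr) (fun n => ?_) (fun n => ?_)
  · have e1 : M.d n (n + 1) = _ := T_d _ _ n
    have e2 : K.d (n + 1) (n + 1 + 1) = _ := T_d _ _ (n + 1)
    rw [e1, e2]
    apply VCat.hom_ext
    exact LinearMap.ext fun x => dC_inI E E' f n x
  · have e1 : M.d n (n + 1) = _ := T_d _ _ n
    have e2 : K'.d n (n + 1) = _ := T_d _ _ n
    rw [e1, e2]
    apply VCat.hom_ext
    exact LinearMap.ext fun x => dC_inJ E E' f n x

end GC

end Pool.Agent.Lib.MP_c052b4_al.MT
end

section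

/-!
# Finite free complexes form a triangulated subcategory (TREES^n, helper78)
-/

set_option autoImplicit false
set_option linter.unusedVariables false

namespace Pool.Agent.Lib.MP_c052b4_al.MT

open CategoryTheory CategoryTheory.Limits CategoryTheory.Pretriangulated

universe u

variable {S : Type u} [Ring S] {G : Type u} [Group G] {L : Lbl G}

/-- The matrix complex of a complex. -/
noncomputable def gcOf (K : CochainComplex (VCat S L) ℤ) : GC S G where
  I n := (K.X n).I
  d n := VCat.lin (K.d n (n + 1))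
  dd n := by
    rw [← VCat.lin_comp, K.d_comp_d]
    rfl

theorem gcOf_Resp (K : CochainComplex (VCat S L) ℤ) : (gcOf K).Resp L fun n => (K.X n).l :=
  fun n => RM_lin (K.d n (n + 1))

/-- Every complex is given by a matrix complex. -/
noncomputable def gcIso (K : CochainComplex (VCat S L) ℤ) :
    K ≅ GC.T (E := gcOf K) (fun n => (K.X n).l) (gcOf_Resp K) :=
  isoC (fun n => Iso.refl (K.X n)) fun n => by
    rw [GC.T_d]
    apply VCat.hom_ext
    rfl

theorem gcOf_Fin' {K : CochainComplex (VCat S L) ℤ} (hK : FFc K) : (gcOf K).Fin' := hK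

theorem FFc_T {E : GC S G} (hE : E.Fin') (w : ∀ n, E.I n → L.W) (h : E.Resp L w) :
    FFc (GC.T w h) := hE

/-- The chain map as matrices. -/
theorem exists_Tmap {E E' : GC S G} {w : ∀ n, E.I n → L.W} {h : E.Resp L w}
    {w' : ∀ n, E'.I n → L.W} {h' : E'.Resp L w'} (f : GC.T w h ⟶ GC.T w' h') :
    ∃ (g : ∀ n, LM S G (E.I n) (E'.I n)) (hg : ∀ n, RM L (g n) (w n) (w' n))
      (comm : ∀ n, (E'.d n).comp (g n) = (g (n + 1)).comp (E.d n)),
      f = GC.Tmap (h := h) (h' := h') g hg comm ∧ ∀ n, g n = VCat.lin (f.f n) := by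
  refine ⟨fun n => VCat.lin (f.f n), fun n => RM_lin (f.f n), fun n => ?_, ?_, fun n => rfl⟩
  · have h1 := congrArg VCat.lin (f.comm n (n + 1))
    rw [GC.T_d, GC.T_d] at h1
    exact h1
  · ext n : 1
    rfl

theorem FFK_of_FFc {K : CochainComplex (VCat S L) ℤ} (hK : FFc K) :
    FFK S L ((QL S L).obj K) := ⟨K, hK, ⟨Iso.refl _⟩⟩

instance : (FFK S L).IsClosedUnderIsomorphisms where
  of_iso := by
    rintro X Y e ⟨K, hK, ⟨e'⟩⟩
    exact ⟨K, hK, ⟨e.symm ≪≫ e'⟩⟩

/-- The finite free complexes are closed under cones. -/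
theorem FFK_cone (T : Triangle (KV S L)) (hT : T ∈ distTriang (KV S L)) (h₁ : FFK S L T.obj₁)
    (h₂ : FFK S L T.obj₂) : FFK S L T.obj₃ := by
  obtain ⟨K, hK, ⟨e⟩⟩ := h₁
  obtain ⟨K', hK', ⟨e'⟩⟩ := h₂
  let e1 := e ≪≫ (QL S L).mapIso (gcIso K)
  let e2 := e' ≪≫ (QL S L).mapIso (gcIso K')
  obtain ⟨f, hf⟩ := (QL S L).map_surjective (e1.inv ≫ T.mor₁ ≫ e2.hom)
  obtain ⟨g, hg, comm, hfg, -⟩ := exists_Tmap f
  obtain ⟨g₂, h₂, hT'⟩ := GC.coneM_triangle (L := L) (comm := comm) (gcOf_Resp K) (gcOf_Resp K') hg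
  rw [← hfg] at hT'
  obtain ⟨iso, -, -⟩ := exists_iso_of_arrow_iso T _ hT hT' (Arrow.isoMk e1 e2 (by
    change e1.hom ≫ (QL S L).map f = T.mor₁ ≫ e2.hom
    rw [hf, ← Category.assoc, e1.hom_inv_id, Category.id_comp]))
  exact (FFK S L).prop_of_iso ((Triangle.π₃).mapIso iso).symm
    (FFK_of_FFc (FFc_T (GC.coneM_Fin' (gcOf_Fin' hK) (gcOf_Fin' hK')) _ _))

/-- The finite free complexes are closed under shifts. -/
theorem FFK_shift (X : KV S L) (m : ℤ) (h : FFK S L X) : FFK S L (X⟦m⟧) := by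
  obtain ⟨K, ⟨h1, N, hN⟩, ⟨e⟩⟩ := h
  refine ⟨K⟦m⟧, ⟨fun n => h1 (n + m), |N| + |m|, fun n hn => hN (n + m) ?_⟩,
    ⟨(shiftFunctor (KV S L) m).mapIso e ≪≫ (((QL S L).commShiftIso m).app K).symm⟩⟩
  have h2 := abs_add_le (n + m) (-m)
  have h3 := le_abs_self N
  rw [add_neg_cancel_right, abs_neg] at h2
  omega

instance : (FFK S L).IsTriangulated where
  exists_zero := by
    refine ⟨(QL S L).obj (GC.T (E := ⟨fun _ => PEmpty, fun _ => 0, fun _ => rfl⟩)
      (fun n i => i.elim) fun n i => i.elim), ?_, FFK_of_FFc ⟨fun n => ?_, 0, fun n _ => ?_⟩⟩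
    · refine (IsZero.iff_id_eq_zero _).2 ?_
      rw [← CategoryTheory.Functor.map_id, ← Functor.map_zero]
      refine congrArg (QL S L).map ?_
      ext n : 1
      exact VCat.ext_e fun i => PEmpty.elim i
    · exact inferInstanceAs (Finite PEmpty)
    · exact inferInstanceAs (IsEmpty PEmpty)
  isStableUnderShiftBy m := ⟨fun X hX => FFK_shift X m hX⟩
  ext₂' T hT h₁ h₃ := by
    refine (FFK S L).le_isoClosure _ ?_
    exact FFK_cone _ (inv_rot_of_distTriang _ hT) (FFK_shift _ _ h₃) h₁

instance : (FFK S L).retractClosure.IsTriangulated where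
  exists_zero := by
    obtain ⟨Z, hZ, h⟩ := (FFK S L).exists_prop_of_containsZero
    exact ⟨Z, hZ, (FFK S L).le_retractClosure _ h⟩
  ext₂' T hT h₁ h₃ := by
    refine (FFK S L).retractClosure.le_isoClosure _ ?_
    have h4 : ((FFK S L).retractClosure.extensionProduct (FFK S L).retractClosure) T.obj₂ :=
      ⟨_, _, _, _, _, hT, h₁, h₃⟩
    have h5 := (FFK S L).extensionProduct_retractClosure_retractClosure_le (FFK S L) _ h4
    exact ObjectProperty.monotone_retractClosure
      (ObjectProperty.extensionProduct_le_of_isTriangulatedClosed₂ le_rfl le_rfl) _ h5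

/-- Dominated complexes are retracts of bounded complexes of finite objects. -/
theorem Dom_le_retract : Dom S L ≤ (FFK S L).retractClosure :=
  Dom.le fun F hF => (FFK S L).le_retractClosure _ (FFK_kS F hF)

end Pool.Agent.Lib.MP_c052b4_al.MT
end

section

/-!
# Iterated cones of relabellings (TREES^n, helper78)
-/

set_option autoImplicit false
set_option linter.unusedVariables false

namespace Pool.Agent.Lib.MP_c052b4_al.MT

open CategoryTheory CategoryTheory.Limits CategoryTheory.Pretriangulated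

universe u

variable {S : Type u} [Ring S] {G : Type u} [Group G] {D : Type} (Ys : D → Dir G)

/-- Pairs of labels. -/
abbrev W2 := (∀ a, (Ys a).Y) × (∀ a, (Ys a).Y)

variable {Ys}

open Classical in
/-- Replace the first label by the second one in direction `c`. -/
noncomputable def rhoW (c : D) (x : W2 Ys) : W2 Ys := (Function.update x.1 c (x.2 c), x.2)

open Classical in
/-- Change the first label in direction `a`. -/
noncomputable def up1 (a : D) (y : (Ys a).Y) (x : W2 Ys) : W2 Ys := (Function.update x.1 a y, x.2)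

open Classical in
/-- Change the second label in direction `a`. -/
noncomputable def up2 (a : D) (y : (Ys a).Y) (x : W2 Ys) : W2 Ys := (x.1, Function.update x.2 a y)

theorem rho_fst_self (c : D) (x : W2 Ys) : (rhoW c x).1 c = x.2 c := by
  unfold rhoW
  classical
  exact Function.update_self c (x.2 c) x.1

theorem rho_fst_ne {c a : D} (h : a ≠ c) (x : W2 Ys) : (rhoW c x).1 a = x.1 a := by
  unfold rhoW
  classical
  exact Function.update_of_ne h (x.2 c) x.1

theorem rho_snd (c : D) (x : W2 Ys) : (rhoW c x).2 = x.2 := rfl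

theorem up1_fst_self (a : D) (y : (Ys a).Y) (x : W2 Ys) : (up1 a y x).1 a = y := by
  unfold up1
  classical
  exact Function.update_self a y x.1

theorem up1_fst_ne {c a : D} (h : c ≠ a) (y : (Ys a).Y) (x : W2 Ys) :
    (up1 a y x).1 c = x.1 c := by
  unfold up1
  classical
  exact Function.update_of_ne h y x.1

theorem up1_snd (a : D) (y : (Ys a).Y) (x : W2 Ys) : (up1 a y x).2 = x.2 := rfl

theorem up2_snd_self (a : D) (y : (Ys a).Y) (x : W2 Ys) : (up2 a y x).2 a = y := by
  unfold up2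
  classical
  exact Function.update_self a y x.2

theorem up2_snd_ne {c a : D} (h : c ≠ a) (y : (Ys a).Y) (x : W2 Ys) :
    (up2 a y x).2 c = x.2 c := by
  unfold up2
  classical
  exact Function.update_of_ne h y x.2

theorem up2_fst (a : D) (y : (Ys a).Y) (x : W2 Ys) : (up2 a y x).1 = x.1 := rfl

theorem W2_ext {x y : W2 Ys} (h : ∀ a, x.1 a = y.1 a) (h' : ∀ a, x.2 a = y.2 a) : x = y :=
  Prod.ext (funext h) (funext h')

theorem rho_rho (c c' : D) (x : W2 Ys) : rhoW c (rhoW c' x) = rhoW c' (rhoW c x) := by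
  refine W2_ext (fun a => ?_) fun a => rfl
  by_cases h : a = c
  · subst h
    by_cases h' : a = c'
    · subst h'
      rfl
    · rw [rho_fst_self, rho_fst_ne h', rho_fst_self, rho_snd]
  · by_cases h' : a = c'
    · subst h'
      rw [rho_fst_ne h, rho_fst_self, rho_fst_self, rho_snd]
    · rw [rho_fst_ne h, rho_fst_ne h', rho_fst_ne h', rho_fst_ne h]

theorem rho_up1 {c a : D} (h : a ≠ c) (y : (Ys a).Y) (x : W2 Ys) :
    rhoW c (up1 a y x) = up1 a y (rhoW c x) := by
  refine W2_ext (fun b => ?_) fun b => rfl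
  by_cases hb : b = c
  · subst hb
    rw [rho_fst_self, up1_fst_ne (Ne.symm h), rho_fst_self, up1_snd]
  · by_cases hb' : b = a
    · subst hb'
      rw [rho_fst_ne hb, up1_fst_self, up1_fst_self]
    · rw [rho_fst_ne hb, up1_fst_ne hb', up1_fst_ne hb', rho_fst_ne hb]

theorem rho_up2 {c a : D} (h : a ≠ c) (y : (Ys a).Y) (x : W2 Ys) :
    rhoW c (up2 a y x) = up2 a y (rhoW c x) := by
  refine W2_ext (fun b => ?_) fun b => rfl
  by_cases hb : b = c
  · subst hb
    rw [rho_fst_self, up2_fst, rho_fst_self, up2_snd_ne (Ne.symm h)]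
  · rw [rho_fst_ne hb, up2_fst, up2_fst, rho_fst_ne hb]

/-- `rhoW` as a map of labels. -/
noncomputable def rhoHom {A B : Set D} {c : D} (hc : c ∈ B) : LblHom (WL Ys A B) (WL Ys A B) where
  f := rhoW c
  smul g x := by
    refine W2_ext (fun a => ?_) fun a => rfl
    by_cases h : a = c
    · subst h
      exact (rho_fst_self a (g • x : W2 Ys)).trans
        (congrArg (fun y => g • y) (rho_fst_self a x)).symm
    · exact (rho_fst_ne h (g • x : W2 Ys)).trans
        (congrArg (fun y => g • y) (rho_fst_ne h x)).symm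
  mono {x y} h := by
    refine ⟨fun a ha => ?_, h.2⟩
    by_cases hac : a = c
    · subst hac
      rw [rho_fst_self, rho_fst_self]
      exact h.2 a hc
    · rw [rho_fst_ne hac, rho_fst_ne hac]
      exact h.1 a ha

/-- The first label. -/
def fstHom (A B : Set D) : LblHom (WL Ys A B) (UL Ys A) where
  f := Prod.fst
  smul _ _ := rfl
  mono h := h.1

theorem RM.map {L L' : Lbl G} (θ : LblHom L L') {I J : Type u} {f : LM S G I J} {w : I → L.W}
    {w' : J → L.W} (h : RM L f w w') : RM L' f (fun i => θ.f (w i)) (fun j => θ.f (w' j)) :=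
  h.mono fun i j g hg => by
    have := θ.mono hg
    rwa [θ.smul] at this

namespace GC

/-- The order condition. -/
def OC {E : GC S G} (w : ∀ n, E.I n → W2 Ys) : Prop := ∀ n i a, (w n i).1 a ≤ (w n i).2 a

variable (D) in
/-- Iterated cones of the identity. -/
noncomputable def psi (E : GC S G) : List D → GC S G
  | [] => E
  | _ :: B => coneM (psi E B) (psi E B) (fun _ => LinearMap.id) (fun _ => rfl)

/-- The labels of the iterated cones. -/
noncomputable def labB {E : GC S G} (w : ∀ n, E.I n → W2 Ys) :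
    ∀ (B : List D) (n : ℤ), (psi D E B).I n → W2 Ys
  | [], n, i => w n i
  | c :: B, n, i => Sum.elim (labB w B (n + 1)) (fun j => rhoW c (labB w B n j)) i

/-- The degree in the original complex. -/
def degB (E : GC S G) : ∀ (B : List D) (n : ℤ), (psi D E B).I n → ℤ
  | [], n, i => n
  | c :: B, n, i => Sum.elim (degB E B (n + 1)) (degB E B n) i

variable {E : GC S G}

theorem psi_Fin' (h : E.Fin') : ∀ B : List D, (psi D E B).Fin'
  | [] => h
  | _ :: B => coneM_Fin' (psi_Fin' h B) (psi_Fin' h B)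

theorem labB_rho (w : ∀ n, E.I n → W2 Ys) (c : D) : ∀ (B : List D) (n : ℤ) (i : (psi D E B).I n),
    labB (fun n i => rhoW c (w n i)) B n i = rhoW c (labB w B n i)
  | [], n, i => rfl
  | b :: B, n, Sum.inl i => labB_rho w c B (n + 1) i
  | b :: B, n, Sum.inr i => by
    change rhoW b (labB (fun n i => rhoW c (w n i)) B n i) = rhoW c (rhoW b (labB w B n i))
    rw [labB_rho w c B n i, rho_rho]

theorem labB_up1 (w : ∀ n, E.I n → W2 Ys) {a : D} (lam : ℤ → (Ys a).Y) :
    ∀ (B : List D) (_ : a ∉ B) (n : ℤ) (i : (psi D E B).I n),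
    labB (fun n i => up1 a (lam n) (w n i)) B n i = up1 a (lam (degB E B n i)) (labB w B n i)
  | [], _, n, i => rfl
  | b :: B, h, n, Sum.inl i =>
    labB_up1 w lam B (fun hb => h (List.mem_cons_of_mem _ hb)) (n + 1) i
  | b :: B, h, n, Sum.inr i => by
    change rhoW b (labB (fun n i => up1 a (lam n) (w n i)) B n i) =
      up1 a (lam (degB E B n i)) (rhoW b (labB w B n i))
    rw [labB_up1 w lam B (fun hb => h (List.mem_cons_of_mem _ hb)) n i,
      rho_up1 (fun hab : a = b => h (by rw [hab]; exact List.mem_cons_self))]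

theorem labB_up2 (w : ∀ n, E.I n → W2 Ys) {a : D} (lam : ℤ → (Ys a).Y) :
    ∀ (B : List D) (_ : a ∉ B) (n : ℤ) (i : (psi D E B).I n),
    labB (fun n i => up2 a (lam n) (w n i)) B n i = up2 a (lam (degB E B n i)) (labB w B n i)
  | [], _, n, i => rfl
  | b :: B, h, n, Sum.inl i =>
    labB_up2 w lam B (fun hb => h (List.mem_cons_of_mem _ hb)) (n + 1) i
  | b :: B, h, n, Sum.inr i => by
    change rhoW b (labB (fun n i => up2 a (lam n) (w n i)) B n i) =
      up2 a (lam (degB E B n i)) (rhoW b (labB w B n i))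
    rw [labB_up2 w lam B (fun hb => h (List.mem_cons_of_mem _ hb)) n i,
      rho_up2 (fun hab : a = b => h (by rw [hab]; exact List.mem_cons_self))]

theorem OC_labB {w : ∀ n, E.I n → W2 Ys} (h : OC w) : ∀ (B : List D), OC (E := psi D E B) (labB w B)
  | [] => h
  | b :: B => by
    rintro n (i | i) a
    · exact OC_labB h B (n + 1) i a
    · have h1 := OC_labB h B n i a
      change (rhoW b (labB w B n i)).1 a ≤ (labB w B n i).2 a
      by_cases hab : a = b
      · subst hab
        rw [rho_fst_self]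
      · rw [rho_fst_ne hab]
        exact h1

theorem le_rho {A B : Set D} (c : D) {x : W2 Ys} (h : ∀ a, x.1 a ≤ x.2 a) :
    (WL Ys A B).le x (rhoW c x) := by
  refine ⟨fun a _ => ?_, fun a _ => le_rfl⟩
  by_cases hab : a = c
  · subst hab
    rw [rho_fst_self]
    exact h a
  · rw [rho_fst_ne hab]

theorem Resp_rho {A B₀ : Set D} {w : ∀ n, E.I n → W2 Ys} (h : E.Resp (WL Ys A B₀) w) {c : D}
    (hc : c ∈ B₀) : E.Resp (WL Ys A B₀) (fun n i => rhoW c (w n i)) :=
  fun n => (h n).map (rhoHom hc)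

theorem OC_rho {w : ∀ n, E.I n → W2 Ys} (h : OC w) (c : D) : OC (fun n i => rhoW c (w n i)) := by
  intro n i a
  change (rhoW c (w n i)).1 a ≤ (w n i).2 a
  by_cases hab : a = c
  · subst hab
    rw [rho_fst_self]
  · rw [rho_fst_ne hab]
    exact h n i a

theorem Resp_labB {A B₀ : Set D} {w : ∀ n, E.I n → W2 Ys} (h : E.Resp (WL Ys A B₀) w) (ho : OC w) :
    ∀ (B : List D) (_ : ∀ b ∈ B, b ∈ B₀), (psi D E B).Resp (WL Ys A B₀) (labB w B)
  | [], _ => h
  | c :: B, hB => by
    have h1 := Resp_labB h ho B fun b hb => hB b (List.mem_cons_of_mem _ hb)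
    refine coneM_Resp (L := WL Ys A B₀) (u := labB w B) (v := fun n i => rhoW c (labB w B n i)) h1
      (Resp_rho h1 (hB c (List.mem_cons_self ..))) fun n => ?_
    exact RM_id _ fun i => le_rho c (OC_labB ho B n i)

/-- The labels in the directions `A`. -/
theorem Resp_fst {A B₀ : Set D} {w : ∀ n, E.I n → W2 Ys} (h : E.Resp (WL Ys A B₀) w) :
    E.Resp (UL Ys A) fun n i => (w n i).1 :=
  fun n => (h n).map (fstHom A B₀)

theorem Resp_mono {A A' B₀ B₀' : Set D} {w : ∀ n, E.I n → W2 Ys} (h : E.Resp (WL Ys A B₀) w)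
    (hA : A' ⊆ A) (hB : B₀' ⊆ B₀) : E.Resp (WL Ys A' B₀') w :=
  fun n => (h n).mono fun i j g hg => ⟨fun a ha => hg.1 a (hA ha), fun a ha => hg.2 a (hB ha)⟩

end GC

end Pool.Agent.Lib.MP_c052b4_al.MT
end

section

/-!
# Relabellings, acyclicity of the iterated cones (TREES^n, helper78)
-/

set_option autoImplicit false
set_option linter.unusedVariables false

namespace Pool.Agent.Lib.MP_c052b4_al.MT

open CategoryTheory CategoryTheory.Limits CategoryTheory.Pretriangulated

universe u

variable {S : Type u} [Ring S] {G : Type u} [Group G] {D : Type} {Ys : D → Dir G} {L : Lbl G}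

namespace GC

variable {E : GC S G}

/-- Relabelling. -/
noncomputable def iota {w w' : ∀ n, E.I n → L.W} (h : E.Resp L w) (h' : E.Resp L w')
    (hle : ∀ n i, L.le (w n i) (w' n i)) : T w h ⟶ T w' h' :=
  Tmap (h := h) (h' := h') (fun _ => LinearMap.id) (fun n => RM_id L (hle n)) (fun _ => rfl)

theorem iota_comp {w w' w'' : ∀ n, E.I n → L.W} (h : E.Resp L w) (h' : E.Resp L w')
    (h'' : E.Resp L w'') (hle : ∀ n i, L.le (w n i) (w' n i))
    (hle' : ∀ n i, L.le (w' n i) (w'' n i)) :
    iota h h' hle ≫ iota h' h'' hle' =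
      iota h h'' fun n i => L.trans (hle n i) (hle' n i) := by
  ext n : 1
  rfl

theorem iota_self {w : ∀ n, E.I n → L.W} (h : E.Resp L w) (hle : ∀ n i, L.le (w n i) (w n i)) :
    iota h h hle = 𝟙 _ := by
  ext n : 1
  rfl

/-- Relabelling by equivalent labels. -/
noncomputable def iotaIso {w w' : ∀ n, E.I n → L.W} (h : E.Resp L w) (h' : E.Resp L w')
    (hle : ∀ n i, L.le (w n i) (w' n i)) (hle' : ∀ n i, L.le (w' n i) (w n i)) :
    T w h ≅ T w' h' where
  hom := iota h h' hle
  inv := iota h' h hle'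
  hom_inv_id := (iota_comp h h' h hle hle').trans (iota_self h _)
  inv_hom_id := (iota_comp h' h h' hle' hle).trans (iota_self h' _)

theorem isZero_T_congr {w w' : ∀ n, E.I n → L.W} (h : E.Resp L w) (h' : E.Resp L w')
    (hw : ∀ n i, w n i = w' n i) (hz : IsZero ((QL S L).obj (T w h))) :
    IsZero ((QL S L).obj (T w' h')) := by
  obtain rfl : w = w' := funext fun n => funext fun i => hw n i
  exact hz

/-- The triangle of the cone, with given labels. -/
theorem coneM_triangle' {E E' : GC S G} {f : ∀ n, LM S G (E.I n) (E'.I n)}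
    {comm : ∀ n, (E'.d n).comp (f n) = (f (n + 1)).comp (E.d n)} {u : ∀ n, E.I n → L.W}
    {v : ∀ n, E'.I n → L.W} (hu : E.Resp L u)
    (hv : E'.Resp L v) (hf : ∀ n, RM L (f n) (u n) (v n))
    (w : ∀ n, (coneM E E' f comm).I n → L.W) (hw : (coneM E E' f comm).Resp L w)
    (h1 : ∀ n i, w n (Sum.inl i) = u (n + 1) i) (h2 : ∀ n i, w n (Sum.inr i) = v n i) :
    ∃ (g : (QL S L).obj (T v hv) ⟶ (QL S L).obj (T (E := coneM E E' f comm) w hw))
      (h : (QL S L).obj (T (E := coneM E E' f comm) w hw) ⟶ ((QL S L).obj (T u hu))⟦(1 : ℤ)⟧),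
      Triangle.mk ((QL S L).map (Tmap (h := hu) (h' := hv) f hf comm)) g h ∈
        distTriang (KV S L) := by
  obtain rfl : w = fun n => Sum.elim (u (n + 1)) (v n) := by
    funext n i
    rcases i with i | i
    · exact h1 n i
    · exact h2 n i
  exact coneM_triangle hu hv hf

/-- The triangle of an iterated cone. -/
theorem psi_triangle {A B₀ : Set D} {w : ∀ n, E.I n → W2 Ys} (hw : E.Resp (WL Ys A B₀) w)
    (ho : OC w) (c : D) (B : List D) (hc : c ∈ B₀)
    (hu : (psi D E B).Resp (UL Ys A) fun n i => (labB w B n i).1)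
    (hv : (psi D E B).Resp (UL Ys A) fun n i => (rhoW c (labB w B n i)).1)
    (h : (psi D E (c :: B)).Resp (UL Ys A) fun n i => (labB w (c :: B) n i).1) :
    ∃ (g : (QL S (UL Ys A)).obj (T _ hv) ⟶ (QL S (UL Ys A)).obj (T _ h))
      (k : (QL S (UL Ys A)).obj (T _ h) ⟶ ((QL S (UL Ys A)).obj (T _ hu))⟦(1 : ℤ)⟧),
      Triangle.mk ((QL S (UL Ys A)).map (iota hu hv fun n i =>
        (le_rho (A := A) (B := B₀) c (OC_labB ho B n i)).1)) g k ∈
        distTriang (KV S (UL Ys A)) := by
  exact coneM_triangle' (L := UL Ys A) (E := psi D E B) (E' := psi D E B)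
    (f := fun _ => LinearMap.id) (comm := fun _ => rfl) hu hv
    (fun n => RM_id _ fun i => (le_rho (A := A) (B := B₀) c (OC_labB ho B n i)).1) _ h
    (fun n i => rfl) (fun n i => rfl)

theorem psi_acyclic {A' B₀ : Set D} {b : D} (hb' : b ∉ A') : ∀ (B : List D) (_ : b ∈ B)
    (_ : ∀ c ∈ B, c ∈ B₀) {w : ∀ n, E.I n → W2 Ys} (_ : E.Resp (WL Ys A' B₀) w) (_ : OC w)
    (h : (psi D E B).Resp (UL Ys A') fun n i => (labB w B n i).1),
    IsZero ((QL S (UL Ys A')).obj (T _ h))
  | [], hb, _, _, _, _, _ => absurd hb List.not_mem_nil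
  | c :: B, hb, hB, w, hw, ho, h => by
    have hB' : ∀ d ∈ B, d ∈ B₀ := fun d hd => hB d (List.mem_cons_of_mem _ hd)
    have hc : c ∈ B₀ := hB c List.mem_cons_self
    have h1 := Resp_labB hw ho B hB'
    have hu := Resp_fst h1
    have hv := Resp_fst (Resp_rho h1 hc)
    obtain ⟨g, k, hT⟩ := psi_triangle hw ho c B hc hu hv h
    by_cases hbc : b = c
    · subst hbc
      refine Triangle.isZero₃_of_isIso₁ _ hT ?_
      have hle : ∀ n i, (UL Ys A').le (rhoW b (labB w B n i)).1 (labB w B n i).1 := by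
        intro n i a ha
        rw [rho_fst_ne (fun hab : a = b => hb' (hab ▸ ha))]
      have h2 : IsIso (iota hu hv fun n i =>
          (le_rho (A := A') (B := B₀) b (OC_labB ho B n i)).1) :=
        (iotaIso hu hv (fun n i =>
          (le_rho (A := A') (B := B₀) b (OC_labB ho B n i)).1) hle).isIso_hom
      exact Functor.map_isIso (QL S (UL Ys A')) _
    · have hbB : b ∈ B := (List.mem_cons.1 hb).resolve_left hbc
      refine Triangle.isZero₃_of_isZero₁₂ _ hT (psi_acyclic hb' B hbB hB' hw ho hu) ?_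
      have h3 := Resp_rho hw hc
      have h4 := OC_rho ho c
      have h5 := Resp_fst (Resp_labB h3 h4 B hB')
      refine isZero_T_congr h5 hv (fun n i => ?_) (psi_acyclic hb' B hbB hB' h3 h4 h5)
      rw [labB_rho]

end GC

end Pool.Agent.Lib.MP_c052b4_al.MT
end
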