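import Pool.Agent.Lib.MP_c052b4_al.Mg.G010
import Pool.Agent.Lib.MP_c052b4_al.Mg.G002
import Pool.Agent.Lib.MP_c052b4_al.Mg.G011
import Pool.Agent.Lib.MP_c052b4_al.Mg.G001

section

/-!
# The fixator of a line in the tree of the automorphism group of `K[x, y]` is a torsion group
-/

set_option autoImplicit false

namespace Pool.Agent.Lib.MP_c052b4_al.JK

open MvPolynomial

universe u

variable {K : Type u} [Field K]

private theorem lna_coeff_lin (a b c : K) (r : Fin 2) :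
    coeff (Finsupp.single r 1) (C a * X 0 + C b * X 1 + C c : A2 K) = ![a, b] r := by
  classical
  have hX : ∀ v : Fin 2, coeff (Finsupp.single r 1) (X v : A2 K) = if r = v then 1 else 0 := by
    intro v
    rw [MvPolynomial.coeff_X]
    by_cases h : r = v
    · rw [h, if_pos rfl, if_pos rfl]
    · rw [if_neg h, if_neg]
      intro h1
      exact h ((Finsupp.single_left_inj one_ne_zero).1 h1).symm
  have hC : coeff (Finsupp.single r 1) (C c : A2 K) = 0 := by
    rw [coeff_C, if_neg]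
    intro h
    exact one_ne_zero (Finsupp.single_eq_zero.1 h.symm)
  rw [coeff_add, coeff_add, coeff_C_mul, coeff_C_mul, hX, hX, hC]
  fin_cases r <;> simp

private theorem lna_inj {a b c a' b' c' : K}
    (h : (C a * X 0 + C b * X 1 + C c : A2 K) = C a' * X 0 + C b' * X 1 + C c') :
    a = a' ∧ b = b' := by
  have h0 := lna_coeff_lin a b c 0
  have h1 := lna_coeff_lin a b c 1
  rw [h, lna_coeff_lin] at h0 h1
  exact ⟨h0.symm, h1.symm⟩

/-- the diagonal part of a triangular automorphism -/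
private theorem lna_dia {σ : AutA K} (h : σ ∈ Tri K) : ∃ (a c d : K) (P : Polynomial K),
    a ≠ 0 ∧ c ≠ 0 ∧ σ (X 0) = C a * X 0 + Polynomial.aeval (X 1) P ∧
      σ (X 1) = C c * X 1 + C d ∧ dia σ = (a, c) := by
  obtain ⟨a, P, ha, h0⟩ := Tri_X0 h
  obtain ⟨c, d, hc, h1⟩ := Tri_X1 h
  refine ⟨a, c, d, P, ha, hc, h0, h1, ?_⟩
  have hP : coeff (Finsupp.single 0 1) (Polynomial.aeval (X 1 : A2 K) P) = 0 := by
    rw [Polynomial.aeval_eq_sum_range, coeff_sum]
    refine Finset.sum_eq_zero fun n _ => ?_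
    rw [coeff_smul, coeff_X_pow, if_neg, smul_zero]
    intro h
    have := DFunLike.congr_fun h 0
    simp at this
  unfold dia
  rw [h0, h1]
  refine Prod.ext ?_ ?_
  · show coeff (Finsupp.single 0 1) (C a * X 0 + Polynomial.aeval (X 1 : A2 K) P) = a
    rw [coeff_add, hP, coeff_C_mul, coeff_X, if_pos rfl, mul_one, add_zero]
  · show coeff (Finsupp.single 1 1) (C c * X 1 + C d : A2 K) = c
    have hne : ¬ ((0 : Fin 2 →₀ ℕ) = Finsupp.single 1 1) := by
      intro h
      have := DFunLike.congr_fun h 1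
      simp at this
    rw [coeff_add, coeff_C_mul, coeff_X, if_pos rfl, coeff_C, if_neg hne, mul_one, add_zero]

/-- normal form of the elements of `Aff ⊓ Tri` -/
theorem lna_AT {h : AutA K} (hA : h ∈ Aff K) (hT : h ∈ Tri K) :
    ∃ a e f c d : K, a ≠ 0 ∧ c ≠ 0 ∧ h (X 0) = C a * X 0 + C e * X 1 + C f ∧
      h (X 1) = C c * X 1 + C d ∧ dia h = (a, c) := by
  obtain ⟨a, c, d, P, ha, hc, h0, h1, hd⟩ := lna_dia hT
  obtain ⟨a₀, b₀, c₀, a₁, b₁, c₁, g0, g1, -⟩ := Aff_X hA
  have e : a = a₀ := by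
    have h2 := congrArg Prod.fst hd
    have h3 : coeff (Finsupp.single 0 1) (h (X 0)) = a := h2
    rw [g0, lna_coeff_lin] at h3
    exact h3.symm
  exact ⟨a, b₀, c₀, c, d, ha, hc, by rw [e]; exact g0, h1, hd⟩

/-- If `h ∈ Aff ⊓ Tri` fixes a further neighbour of the vertex `Tri`, then `a = c ^ n` with
`n ≥ 2`. -/
private theorem lna_key1 {h t : AutA K} (hA : h ∈ Aff K) (hT : h ∈ Tri K) (ht : t ∈ Tri K)
    (htA : t ∉ Aff K) (hk : t⁻¹ * h * t ∈ Aff K) :
    ∃ n : ℕ, 2 ≤ n ∧ (dia h).1 = (dia h).2 ^ n := by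
  have hkT : t⁻¹ * h * t ∈ Tri K := (Tri K).mul_mem ((Tri K).mul_mem ((Tri K).inv_mem ht) hT) ht
  obtain ⟨a, e, f, c, d, ha, hc, h0, h1, hd⟩ := lna_AT hA hT
  obtain ⟨a', e', f', c', d', ha', hc', k0, k1, hd'⟩ := lna_AT hk hkT
  obtain ⟨at', ct, dt, P, hat, hct, t0, t1, hdt⟩ := lna_dia ht
  have heq : h * t = t * (t⁻¹ * h * t) := by group
  have haa : a = a' := by
    have h2 := dia_mul h t hT ht
    rw [heq, dia_mul t _ ht hkT, hd, hd', hdt] at h2
    have h3 : at' * a' = a * at' := congrArg Prod.fst h2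
    rw [mul_comm a at'] at h3
    exact (mul_left_cancel₀ hat h3).symm
  have hn : 2 ≤ P.natDegree := by
    by_contra hlt
    have hle : P.natDegree ≤ 1 := by omega
    apply htA
    obtain ⟨u, v, hP⟩ := Polynomial.exists_eq_X_add_C_of_natDegree_le_one hle
    refine mem_Aff_of t fun w => ?_
    fin_cases w
    · show (t (X 0)).totalDegree ≤ 1
      have h5 : t (X 0) = C at' * X 0 + C u * X 1 + C v := by
        rw [t0, hP, map_add, map_mul, Polynomial.aeval_C, Polynomial.aeval_C, Polynomial.aeval_X,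
          MvPolynomial.algebraMap_eq, add_assoc]
      rw [h5]
      exact totalDegree_lin_le _ _ _
    · show (t (X 1)).totalDegree ≤ 1
      have h5 : t (X 1) = C 0 * X 0 + C ct * X 1 + C dt := by
        rw [t1, C_0, zero_mul, zero_add]
      rw [h5]
      exact totalDegree_lin_le _ _ _
  refine ⟨P.natDegree, hn, ?_⟩
  rw [hd]
  show a = c ^ P.natDegree
  -- the map to the polynomial ring in one variable
  let E : A2 K →ₐ[K] Polynomial K := aeval ![0, Polynomial.X]
  have hEC : ∀ z : K, E (C z) = Polynomial.C z := fun z => by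
    show aeval _ (C z) = _
    rw [aeval_C]
    rfl
  have hE0 : E (X 0) = 0 := by
    show aeval _ (X 0) = _
    rw [aeval_X]
    rfl
  have hE1 : E (X 1) = Polynomial.X := by
    show aeval _ (X 1) = _
    rw [aeval_X]
    rfl
  have h2 : E (h (t (X 0))) = E (t ((t⁻¹ * h * t) (X 0))) := by
    have h3 := congrArg (fun s : AutA K => E (s (X 0))) heq
    exact h3
  have hl : E (h (t (X 0))) = Polynomial.C at' * (Polynomial.C e * Polynomial.X + Polynomial.C f) +
      P.comp (Polynomial.C c * Polynomial.X + Polynomial.C d) := by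
    have h3 : E (h (Polynomial.aeval (X 1 : A2 K) P)) =
        P.comp (Polynomial.C c * Polynomial.X + Polynomial.C d) := by
      have h4 : E (h (Polynomial.aeval (X 1 : A2 K) P)) =
          Polynomial.aeval (E (h (X 1))) P :=
        (Polynomial.aeval_algHom_apply (E.comp (h : A2 K →ₐ[K] A2 K)) (X 1) P).symm
      rw [h4, h1, map_add, map_mul, hEC, hEC, hE1]
      rfl
    rw [t0, map_add, map_add, h3, map_mul, map_mul, aut_C, hEC, h0, map_add, map_add, map_mul,
      map_mul, hEC, hEC, hEC, hE0, hE1, mul_zero, zero_add]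
  have hr : E (t ((t⁻¹ * h * t) (X 0))) = Polynomial.C a * P +
      Polynomial.C e' * (Polynomial.C ct * Polynomial.X + Polynomial.C dt) + Polynomial.C f' := by
    have h3 : E (Polynomial.aeval (X 1 : A2 K) P) = P := by
      have h4 : E (Polynomial.aeval (X 1 : A2 K) P) = Polynomial.aeval (E (X 1)) P :=
        (Polynomial.aeval_algHom_apply E (X 1) P).symm
      rw [h4, hE1, Polynomial.aeval_X_left_apply]
    rw [k0]
    simp only [map_add, map_mul, aut_C, t0, t1, hEC, hE0, hE1, h3, mul_zero, zero_add]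
    rw [← haa]
  rw [hl, hr] at h2
  have h3 := congrArg (fun q => Polynomial.coeff q P.natDegree) h2
  have hlin : ∀ u v : K, (Polynomial.C u * Polynomial.X + Polynomial.C v).coeff P.natDegree = 0 :=
    fun u v => by
      rw [Polynomial.coeff_add, Polynomial.coeff_C_mul, Polynomial.coeff_X, Polynomial.coeff_C,
        if_neg (by omega), if_neg (by omega), mul_zero, add_zero]
  have hcomp : (P.comp (Polynomial.C c * Polynomial.X + Polynomial.C d)).coeff P.natDegree =
      P.leadingCoeff * c ^ P.natDegree := by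
    have h4 := Polynomial.coeff_comp_degree_mul_degree (p := P)
      (q := Polynomial.C c * Polynomial.X + Polynomial.C d)
      (by rw [Polynomial.natDegree_linear hc]; exact one_ne_zero)
    rw [Polynomial.natDegree_linear hc, mul_one, Polynomial.leadingCoeff_linear hc] at h4
    exact h4
  simp only [Polynomial.coeff_add, Polynomial.coeff_C_mul, hcomp] at h3
  have h5 : (Polynomial.C f' : Polynomial K).coeff P.natDegree = 0 := by
    rw [Polynomial.coeff_C, if_neg (by omega)]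
  have h6 : (Polynomial.C f : Polynomial K).coeff P.natDegree = 0 := by
    rw [Polynomial.coeff_C, if_neg (by omega)]
  have h6' : (Polynomial.C dt : Polynomial K).coeff P.natDegree = 0 := by
    rw [Polynomial.coeff_C, if_neg (by omega)]
  have h7 : (Polynomial.X : Polynomial K).coeff P.natDegree = 0 := by
    rw [Polynomial.coeff_X, if_neg (by omega)]
  rw [h5, h6, h6', h7] at h3
  have hP : P.leadingCoeff ≠ 0 := by
    rw [Polynomial.leadingCoeff_ne_zero]
    rintro rfl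
    simp at hn
  have h8 : P.leadingCoeff * c ^ P.natDegree = P.leadingCoeff * a := by
    have h9 : P.coeff P.natDegree = P.leadingCoeff := rfl
    rw [h9] at h3
    linear_combination h3
  exact (mul_left_cancel₀ hP h8).symm

/-- If `h ∈ Aff ⊓ Tri` fixes a further neighbour of the vertex `Aff`, the diagonal part seen from
there is exchanged. -/
private theorem lna_key2 {h r : AutA K} (hA : h ∈ Aff K) (hT : h ∈ Tri K) (hr : r ∈ Aff K)
    (hrT : r ∉ Tri K) (hk : r⁻¹ * h * r ∈ Tri K) :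
    dia (r⁻¹ * h * r) = ((dia h).2, (dia h).1) := by
  have hkA : r⁻¹ * h * r ∈ Aff K := (Aff K).mul_mem ((Aff K).mul_mem ((Aff K).inv_mem hr) hA) hr
  obtain ⟨a, e, f, c, d, ha, hc, h0, h1, hd⟩ := lna_AT hA hT
  obtain ⟨a', e', f', c', d', ha', hc', k0, k1, hd'⟩ := lna_AT hkA hk
  obtain ⟨a₀, b₀, c₀, a₁, b₁, c₁, r0, r1, hdet⟩ := Aff_X hr
  have ha₁ : a₁ ≠ 0 := by
    rintro rfl
    apply hrT
    refine mem_Tri_of (c := b₁) (d := c₁) ?_
    rw [r1, C_0, zero_mul, zero_add]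
  have heq : h * r = r * (r⁻¹ * h * r) := by group
  have e1 : h (r (X 1)) = r ((r⁻¹ * h * r) (X 1)) :=
    congrArg (fun s : AutA K => s (X 1)) heq
  have e0 : h (r (X 0)) = r ((r⁻¹ * h * r) (X 0)) :=
    congrArg (fun s : AutA K => s (X 0)) heq
  rw [r1, k1] at e1
  rw [r0, k0] at e0
  simp only [map_add, map_mul, aut_C, h0, h1, r0, r1] at e0 e1
  have f1 : (C (a₁ * a) * X 0 + C (a₁ * e + b₁ * c) * X 1 + C (a₁ * f + b₁ * d + c₁) : A2 K) =
      C (c' * a₁) * X 0 + C (c' * b₁) * X 1 + C (c' * c₁ + d') := by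
    simp only [C_add, C_mul]
    linear_combination e1
  have f0 : (C (a₀ * a) * X 0 + C (a₀ * e + b₀ * c) * X 1 + C (a₀ * f + b₀ * d + c₀) : A2 K) =
      C (a' * a₀ + e' * a₁) * X 0 + C (a' * b₀ + e' * b₁) * X 1 +
        C (a' * c₀ + e' * c₁ + f') := by
    simp only [C_add, C_mul]
    linear_combination e0
  obtain ⟨g1, g2⟩ := lna_inj f1
  obtain ⟨g3, g4⟩ := lna_inj f0
  have hac : a = c' := by
    rw [mul_comm c' a₁] at g1
    exact mul_left_cancel₀ ha₁ g1
  have hdet' : a₀ * b₁ - a₁ * b₀ ≠ 0 := sub_ne_zero.2 hdet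
  have h9 : (a' - c) * (a₀ * b₁ - a₁ * b₀) = 0 := by
    rw [← hac] at g2
    linear_combination a₁ * g4 - b₁ * g3 - a₀ * g2
  have h10 : a' = c := sub_eq_zero.1 ((mul_eq_zero.1 h9).resolve_right hdet')
  rw [hd', hd, h10, ← hac]

theorem lna_inl {g s : AutA K}
    (h : g • (Sum.inl (s : AutA K ⧸ Aff K) : VT K) = Sum.inl (s : AutA K ⧸ Aff K)) :
    s⁻¹ * g * s ∈ Aff K := by
  have h1 : ((g * s : AutA K) : AutA K ⧸ Aff K) = s := Sum.inl_injective h
  have h2 := QuotientGroup.eq.1 h1.symm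
  rwa [← mul_assoc] at h2

theorem lna_inr {g s : AutA K}
    (h : g • (Sum.inr (s : AutA K ⧸ Tri K) : VT K) = Sum.inr (s : AutA K ⧸ Tri K)) :
    s⁻¹ * g * s ∈ Tri K := by
  have h1 : ((g * s : AutA K) : AutA K ⧸ Tri K) = s := Sum.inr_injective h
  have h2 := QuotientGroup.eq.1 h1.symm
  rwa [← mul_assoc] at h2

private theorem lna_edge {x y : VT K} (h : (JGraph K).Adj x y) {q : AutA K ⧸ Aff K}
    (hx : x = Sum.inl q) : ∃ g : AutA K, x = Sum.inl (g : AutA K ⧸ Aff K) ∧
      y = Sum.inr (g : AutA K ⧸ Tri K) := by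
  obtain ⟨g, h | h⟩ := h
  · exact ⟨g, h⟩
  · exact (Sum.inl_ne_inr (hx.symm.trans h.1)).elim

private theorem lna_edge' {x y : VT K} (h : (JGraph K).Adj x y) {q : AutA K ⧸ Tri K}
    (hx : x = Sum.inr q) : ∃ g : AutA K, x = Sum.inr (g : AutA K ⧸ Tri K) ∧
      y = Sum.inl (g : AutA K ⧸ Aff K) := by
  obtain ⟨g, h | h⟩ := h
  · exact (Sum.inl_ne_inr (h.1.symm.trans hx)).elim
  · exact ⟨g, h⟩

/-- **The fixator of a line is a torsion group.** -/
theorem fix_line (p : ℕ) (hp : 0 < p) [CharP K p] (g : AutA K) (l : ℤ → VT K)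
    (hl : ∀ n : ℤ, (JGraph K).Adj (l n) (l (n + 1)) ∧ l (n + 2) ≠ l n)
    (hg : ∀ n : ℤ, g • l n = l n) : IsOfFinOrder g := by
  have hex : ∃ (n : ℤ) (q : AutA K ⧸ Aff K), l n = Sum.inl q := by
    rcases h0 : l 0 with q | q
    · exact ⟨0, q, h0⟩
    · obtain ⟨s, -, h1⟩ := lna_edge' (hl 0).1 h0
      exact ⟨0 + 1, _, h1⟩
  obtain ⟨n, q, hn⟩ := hex
  obtain ⟨g0, a0, b0⟩ := lna_edge (hl n).1 hn
  obtain ⟨g1, a1, b1⟩ := lna_edge' (hl (n + 1)).1 b0
  obtain ⟨g2, a2, b2⟩ := lna_edge (hl (n + 1 + 1)).1 b1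
  obtain ⟨g3, a3, b3⟩ := lna_edge' (hl (n + 1 + 1 + 1)).1 b2
  have i2 : n + 2 = n + 1 + 1 := by ring
  have i3 : n + 1 + 2 = n + 1 + 1 + 1 := by ring
  have i4 : n + 1 + 1 + 2 = n + 1 + 1 + 1 + 1 := by ring
  have c0 : g1⁻¹ * g0 ∈ Tri K := QuotientGroup.eq.1 (Sum.inr_injective (a1.symm.trans b0))
  have c1 : g1⁻¹ * g2 ∈ Aff K := QuotientGroup.eq.1 (Sum.inl_injective (b1.symm.trans a2))
  have c2 : g2⁻¹ * g3 ∈ Tri K := QuotientGroup.eq.1 (Sum.inr_injective (b2.symm.trans a3))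
  have d0 : g1⁻¹ * g0 ∉ Aff K := by
    intro h
    apply (hl n).2
    rw [i2, b1, a0]
    exact congrArg Sum.inl (QuotientGroup.eq.2 h)
  have d1 : g1⁻¹ * g2 ∉ Tri K := by
    intro h
    apply (hl (n + 1)).2
    rw [i3, b2, a1]
    exact congrArg Sum.inr (QuotientGroup.eq.2 h).symm
  have d2 : g2⁻¹ * g3 ∉ Aff K := by
    intro h
    apply (hl (n + 1 + 1)).2
    rw [i4, b3, a2]
    exact congrArg Sum.inl (QuotientGroup.eq.2 h).symm
  have f0 : g0⁻¹ * g * g0 ∈ Aff K := lna_inl (by rw [← a0]; exact hg n)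
  have f1 : g1⁻¹ * g * g1 ∈ Tri K := lna_inr (by rw [← a1]; exact hg _)
  have f1' : g1⁻¹ * g * g1 ∈ Aff K := lna_inl (by rw [← b1]; exact hg _)
  have f2 : g2⁻¹ * g * g2 ∈ Tri K := lna_inr (by rw [← b2]; exact hg _)
  have f2' : g2⁻¹ * g * g2 ∈ Aff K := lna_inl (by rw [← a2]; exact hg _)
  have f3 : g3⁻¹ * g * g3 ∈ Aff K := lna_inl (by rw [← b3]; exact hg _)
  obtain ⟨m, hm, hm'⟩ := lna_key1 f1' f1 c0 d0 (by
    have h : (g1⁻¹ * g0)⁻¹ * (g1⁻¹ * g * g1) * (g1⁻¹ * g0) = g0⁻¹ * g * g0 := by group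
    rw [h]
    exact f0)
  have e2 : (g1⁻¹ * g2)⁻¹ * (g1⁻¹ * g * g1) * (g1⁻¹ * g2) = g2⁻¹ * g * g2 := by group
  have e3 := lna_key2 f1' f1 c1 d1 (by rw [e2]; exact f2)
  rw [e2] at e3
  obtain ⟨k, hk, hk'⟩ := lna_key1 f2' f2 c2 d2 (by
    have h : (g2⁻¹ * g3)⁻¹ * (g2⁻¹ * g * g2) * (g2⁻¹ * g3) = g3⁻¹ * g * g3 := by group
    rw [h]
    exact f3)
  rw [e3] at hk'
  obtain ⟨a, e, f, c, d, ha, hc, h0, h1, hd⟩ := lna_AT f1' f1
  rw [hd] at hm' hk'
  have hac : a = c ^ m := hm'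
  have hca : c = a ^ k := hk'
  have hmk : 1 ≤ m * k := Nat.mul_pos (by omega) (by omega)
  have hc1 : c ^ (m * k - 1) = 1 := by
    have h5 : c ^ (m * k) = c := by
      rw [pow_mul, ← hac, ← hca]
    have h6 : c ^ (m * k - 1) * c = 1 * c := by
      rw [← pow_succ, Nat.sub_add_cancel hmk, h5, one_mul]
    exact mul_right_cancel₀ hc h6
  have ha1 : a ^ (m * k - 1) = 1 := by
    rw [hac, ← pow_mul, mul_comm m, pow_mul, hc1, one_pow]
  have hN : 0 < m * k - 1 := by
    have : 2 * 2 ≤ m * k := Nat.mul_le_mul hm hk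
    omega
  have hdp : ∀ N : ℕ, dia ((g1⁻¹ * g * g1) ^ N) = (a ^ N, c ^ N) := by
    intro N
    induction N with
    | zero => rw [pow_zero, dia_one, pow_zero, pow_zero]; rfl
    | succ N ih =>
      rw [pow_succ, dia_mul _ _ ((Tri K).pow_mem f1 N) f1, ih, hd, pow_succ, pow_succ]
      rfl
  have hfin : ((g1⁻¹ * g * g1) ^ (m * k - 1)) ^ (p * p) = 1 := by
    refine pow_eq_one_of_dia p _ ((Tri K).pow_mem f1 _) ?_
    rw [hdp, ha1, hc1]
    rfl
  rw [← pow_mul] at hfin
  have hconj : g ^ ((m * k - 1) * (p * p)) = 1 := by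
    have h5 : g = g1 * (g1⁻¹ * g * g1) * g1⁻¹ := by group
    rw [h5, conj_pow, hfin, mul_one, mul_inv_cancel]
  exact isOfFinOrder_iff_pow_eq_one.2 ⟨_, Nat.mul_pos hN (Nat.mul_pos hp hp), hconj⟩

end Pool.Agent.Lib.MP_c052b4_al.JK
end

section

/-!
# Coherent trees, I03: affine and triangular automorphisms
-/

set_option autoImplicit false
set_option linter.unusedVariables false
set_option linter.unusedSectionVars false

namespace Pool.Agent.Lib.MP_c052b4_al.CT

open MvPolynomial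
open Pool.Agent.Lib.MP_c052b4_al.JK

universe u

variable {K : Type u} [Field K]

private theorem i03_coeff_X (r v : Fin 2) :
    coeff (Finsupp.single r 1) (X v : A2 K) = if r = v then 1 else 0 := by
  classical
  rw [MvPolynomial.coeff_X]
  by_cases h : r = v
  · rw [h, if_pos rfl, if_pos rfl]
  · rw [if_neg h, if_neg]
    intro h1
    exact h ((Finsupp.single_left_inj one_ne_zero).1 h1).symm

private theorem i03_coeff_C (r : Fin 2) (c : K) : coeff (Finsupp.single r 1) (C c : A2 K) = 0 := by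
  classical
  rw [coeff_C, if_neg]
  intro h
  exact one_ne_zero (Finsupp.single_eq_zero.1 h.symm)

private theorem i03_coeff (a b c : K) (r : Fin 2) :
    coeff (Finsupp.single r 1) (C a * X 0 + C b * X 1 + C c : A2 K) = ![a, b] r := by
  rw [coeff_add, coeff_add, coeff_C_mul, coeff_C_mul, i03_coeff_X, i03_coeff_X, i03_coeff_C]
  fin_cases r <;> simp

private theorem i03_X (σ : AutA K) (hσ : σ ∈ Aff K) (v : Fin 2) :
    ∃ c : K, σ (X v) = C (linMat σ 0 v) * X 0 + C (linMat σ 1 v) * X 1 + C c := by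
  obtain ⟨a₀, b₀, c₀, a₁, b₁, c₁, h0, h1, -⟩ := Aff_X hσ
  fin_cases v
  · refine ⟨c₀, ?_⟩
    have e0 : linMat σ 0 0 = a₀ := by
      show coeff (Finsupp.single 0 1) (σ (X 0)) = a₀
      rw [h0, i03_coeff]
      rfl
    have e1 : linMat σ 1 0 = b₀ := by
      show coeff (Finsupp.single 1 1) (σ (X 0)) = b₀
      rw [h0, i03_coeff]
      rfl
    show σ (X 0) = C (linMat σ 0 0) * X 0 + C (linMat σ 1 0) * X 1 + C c₀
    rw [e0, e1, h0]
  · refine ⟨c₁, ?_⟩
    have e0 : linMat σ 0 1 = a₁ := by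
      show coeff (Finsupp.single 0 1) (σ (X 1)) = a₁
      rw [h1, i03_coeff]
      rfl
    have e1 : linMat σ 1 1 = b₁ := by
      show coeff (Finsupp.single 1 1) (σ (X 1)) = b₁
      rw [h1, i03_coeff]
      rfl
    show σ (X 1) = C (linMat σ 0 1) * X 0 + C (linMat σ 1 1) * X 1 + C c₁
    rw [e0, e1, h1]

/-- the diagonal part of a triangular automorphism -/
private theorem i03_dia {σ : AutA K} (h : σ ∈ Tri K) : ∃ (a c d : K) (P : Polynomial K),
    a ≠ 0 ∧ c ≠ 0 ∧ σ (X 0) = C a * X 0 + Polynomial.aeval (X 1) P ∧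
      σ (X 1) = C c * X 1 + C d ∧ dia σ = (a, c) := by
  obtain ⟨a, P, ha, h0⟩ := Tri_X0 h
  obtain ⟨c, d, hc, h1⟩ := Tri_X1 h
  refine ⟨a, c, d, P, ha, hc, h0, h1, ?_⟩
  have hP : coeff (Finsupp.single 0 1) (Polynomial.aeval (X 1 : A2 K) P) = 0 := by
    rw [Polynomial.aeval_eq_sum_range, coeff_sum]
    refine Finset.sum_eq_zero fun n _ => ?_
    rw [coeff_smul, coeff_X_pow, if_neg, smul_zero]
    intro h
    have := DFunLike.congr_fun h 0
    simp at this
  unfold dia
  rw [h0, h1]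
  refine Prod.ext ?_ ?_
  · show coeff (Finsupp.single 0 1) (C a * X 0 + Polynomial.aeval (X 1 : A2 K) P) = a
    rw [coeff_add, hP, coeff_C_mul, coeff_X, if_pos rfl, mul_one, add_zero]
  · show coeff (Finsupp.single 1 1) (C c * X 1 + C d : A2 K) = c
    have hne : ¬ ((0 : Fin 2 →₀ ℕ) = Finsupp.single 1 1) := by
      intro h
      have := DFunLike.congr_fun h 1
      simp at this
    rw [coeff_add, coeff_C_mul, coeff_X, if_pos rfl, coeff_C, if_neg hne, mul_one, add_zero]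

/-- The additive map `e ↦ C e * x`. -/
private noncomputable def i03_mul (x : A2 K) : K →ₗ[ℤ] A2 K :=
  (AddMonoidHom.mk' (fun e : K => C e * x) fun e e' => by rw [C_add, add_mul]).toIntLinearMap

private theorem i03_mul_apply (x : A2 K) (e : K) : i03_mul x e = C e * x := rfl

/-- If `σ x = C a * x + g` with `a` integral and `g` integral then `x` is integral. -/
private theorem i03_step {σ : AutA K} {x g : A2 K} {a : K} (h : σ x = C a * x + g)
    (ha : IsIntegral ℤ a) (hg : IntEl (R := K) σ g) : IntEl (R := K) σ x := by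
  obtain ⟨N', hN', hgN, hst⟩ := hg
  have hE := ha.fg_adjoin_singleton
  refine ⟨(Subalgebra.toSubmodule (Algebra.adjoin ℤ {a})).map (i03_mul x) ⊔
    (Subalgebra.toSubmodule (Algebra.adjoin ℤ {a})).map (i03_mul 1) * N',
    (hE.map _).sup ((hE.map _).mul hN'), ?_, ?_⟩
  · refine Submodule.mem_sup_left ⟨1, (Algebra.adjoin ℤ {a}).one_mem, ?_⟩
    rw [i03_mul_apply, C_1, one_mul]
  · intro f hf
    obtain ⟨f₁, hf₁, f₂, hf₂, rfl⟩ := Submodule.mem_sup.1 hf
    rw [map_add]
    refine add_mem ?_ ?_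
    · obtain ⟨e, he, rfl⟩ := hf₁
      have h1 : σ (i03_mul x e) = i03_mul x (e * a) + i03_mul 1 e * g := by
        rw [i03_mul_apply, i03_mul_apply, i03_mul_apply, map_mul, aut_C, h, C_mul]
        ring
      rw [h1]
      exact add_mem (Submodule.mem_sup_left ⟨e * a, (Algebra.adjoin ℤ {a}).mul_mem he
        (Algebra.self_mem_adjoin_singleton ℤ a), rfl⟩)
        (Submodule.mem_sup_right (Submodule.mul_mem_mul ⟨e, he, rfl⟩ hgN))
    · refine Submodule.mem_sup_right ?_
      refine Submodule.mul_induction_on hf₂ (fun m hm n hn => ?_) fun y z hy hz => ?_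
      · obtain ⟨e, he, rfl⟩ := hm
        rw [map_mul, i03_mul_apply, map_mul, aut_C, map_one]
        exact Submodule.mul_mem_mul ⟨e, he, rfl⟩ (hst n hn)
      · rw [map_add]
        exact add_mem hy hz

/-- The additive map from the matrices to the linear forms, column `v`. -/
private noncomputable def i03_col (v : Fin 2) : Matrix (Fin 2) (Fin 2) K →ₗ[ℤ] A2 K :=
  (AddMonoidHom.mk' (fun Q : Matrix (Fin 2) (Fin 2) K => C (Q 0 v) * X 0 + C (Q 1 v) * X 1)
    fun Q Q' => by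
      rw [Matrix.add_apply, Matrix.add_apply, C_add, C_add]
      ring).toIntLinearMap

private theorem i03_col_apply (v : Fin 2) (Q : Matrix (Fin 2) (Fin 2) K) :
    i03_col v Q = C (Q 0 v) * X 0 + C (Q 1 v) * X 1 := rfl

/-- The additive map from the matrices to the constants, column `v`. -/
private noncomputable def i03_cst (w₀ w₁ : K) (v : Fin 2) :
    Matrix (Fin 2) (Fin 2) K →ₗ[ℤ] A2 K :=
  (AddMonoidHom.mk' (fun Q : Matrix (Fin 2) (Fin 2) K => (C (w₀ * Q 0 v + w₁ * Q 1 v) : A2 K))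
    fun Q Q' => by
      rw [Matrix.add_apply, Matrix.add_apply, ← C_add]
      congr 1
      ring).toIntLinearMap

private theorem i03_cst_apply (w₀ w₁ : K) (v : Fin 2) (Q : Matrix (Fin 2) (Fin 2) K) :
    i03_cst w₀ w₁ v Q = C (w₀ * Q 0 v + w₁ * Q 1 v) := rfl

/-- **An affine automorphism with integral linear part is integral.** -/
theorem locInt_aff {σ : AutA K} (hσ : σ ∈ Aff K) (h : IsIntegral ℤ (linMat σ)) :
    LocInt (R := K) σ := by
  refine locInt_of_X fun v => ?_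
  have hE := h.fg_adjoin_singleton
  obtain ⟨w₀, hw₀⟩ := i03_X σ hσ 0
  obtain ⟨w₁, hw₁⟩ := i03_X σ hσ 1
  refine ⟨(Subalgebra.toSubmodule (Algebra.adjoin ℤ {linMat σ})).map (i03_col v) ⊔
    (Subalgebra.toSubmodule (Algebra.adjoin ℤ {linMat σ})).map (i03_cst w₀ w₁ v),
    (hE.map _).sup (hE.map _), ?_, ?_⟩
  · refine Submodule.mem_sup_left ⟨1, (Algebra.adjoin ℤ {linMat σ}).one_mem, ?_⟩
    rw [i03_col_apply]
    fin_cases v
    · show C ((1 : Matrix (Fin 2) (Fin 2) K) 0 0) * X 0 +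
        C ((1 : Matrix (Fin 2) (Fin 2) K) 1 0) * X 1 = (X 0 : A2 K)
      rw [Matrix.one_apply_eq, Matrix.one_apply_ne (by decide), C_0, C_1, zero_mul, one_mul,
        add_zero]
    · show C ((1 : Matrix (Fin 2) (Fin 2) K) 0 1) * X 0 +
        C ((1 : Matrix (Fin 2) (Fin 2) K) 1 1) * X 1 = (X 1 : A2 K)
      rw [Matrix.one_apply_eq, Matrix.one_apply_ne (by decide), C_0, C_1, zero_mul, one_mul,
        zero_add]
  · intro f hf
    obtain ⟨f₁, ⟨Q, hQ, rfl⟩, f₂, ⟨Q', hQ', rfl⟩, rfl⟩ := Submodule.mem_sup.1 hf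
    have h1 : σ (i03_col v Q) = i03_col v (linMat σ * Q) + i03_cst w₀ w₁ v Q := by
      rw [i03_col_apply, i03_col_apply, i03_cst_apply, map_add, map_mul, map_mul, aut_C, aut_C,
        hw₀, hw₁, Matrix.mul_apply, Matrix.mul_apply, Fin.sum_univ_two, Fin.sum_univ_two]
      simp only [C_add, C_mul]
      ring
    have h2 : σ (i03_cst w₀ w₁ v Q') = i03_cst w₀ w₁ v Q' := by
      rw [i03_cst_apply, aut_C]
    rw [map_add, h1, h2]
    exact add_mem (add_mem (Submodule.mem_sup_left ⟨_, (Algebra.adjoin ℤ {linMat σ}).mul_mem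
      (Algebra.self_mem_adjoin_singleton ℤ _) hQ, rfl⟩) (Submodule.mem_sup_right ⟨Q, hQ, rfl⟩))
      (Submodule.mem_sup_right ⟨Q', hQ', rfl⟩)

/-- **A triangular automorphism with integral diagonal part is integral.** -/
theorem locInt_tri {σ : AutA K} (hσ : σ ∈ Tri K) (h1 : IsIntegral ℤ (dia σ).1)
    (h2 : IsIntegral ℤ (dia σ).2) : LocInt (R := K) σ := by
  obtain ⟨a, c, d, P, -, -, e0, e1, hd⟩ := i03_dia hσ
  rw [hd] at h1 h2
  have hX1 : IntEl (R := K) σ (X 1) := i03_step e1 h2 (intEl_C σ d)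
  have hP : ∀ Q : Polynomial K, IntEl (R := K) σ (Polynomial.aeval (X 1 : A2 K) Q) := by
    intro Q
    induction Q using Polynomial.induction_on with
    | C b =>
      rw [Polynomial.aeval_C]
      exact intEl_C σ b
    | add Q Q' hQ hQ' =>
      rw [map_add]
      exact hQ.add hQ'
    | monomial n b hn =>
      rw [pow_succ, ← mul_assoc, map_mul, Polynomial.aeval_X]
      exact hn.mul hX1
  refine locInt_of_X fun v => ?_
  fin_cases v
  · exact i03_step e0 h1 (hP P)
  · exact hX1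

end Pool.Agent.Lib.MP_c052b4_al.CT
end

section

/-!
# Pointwise stabilizers of segments of a line in the tree of `Aut(K[x, y])` become constant

The elements which fix an edge are given by five parameters. Fixing a further vertex is a system of
polynomial equations in these parameters.
-/

set_option autoImplicit false

namespace Pool.Agent.Lib.MP_c052b4_al.JK

open MvPolynomial

universe u v

variable {K : Type u} [Field K]

/-- all coefficients are polynomial functions of the five parameters -/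
private def LnsPF (F : (Fin 5 → K) → A2 K) : Prop :=
  ∀ m : Fin 2 →₀ ℕ, ∃ q : MvPolynomial (Fin 5) K, ∀ v, coeff m (F v) = eval v q

private theorem lns_const (P : A2 K) : LnsPF (fun _ => P) :=
  fun m => ⟨C (coeff m P), fun v => by rw [eval_C]⟩

private theorem lns_var (j : Fin 5) : LnsPF (fun v => (C (v j) : A2 K)) := by
  classical
  intro m
  refine ⟨if 0 = m then X j else 0, fun v => ?_⟩
  rw [coeff_C]
  split_ifs
  · rw [eval_X]
  · rw [map_zero]

private theorem LnsPF.add {F F' : (Fin 5 → K) → A2 K} (h : LnsPF F) (h' : LnsPF F') :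
    LnsPF (fun v => F v + F' v) := by
  intro m
  obtain ⟨q, hq⟩ := h m
  obtain ⟨q', hq'⟩ := h' m
  exact ⟨q + q', fun v => by rw [coeff_add, hq, hq', map_add]⟩

private theorem LnsPF.mul {F F' : (Fin 5 → K) → A2 K} (h : LnsPF F) (h' : LnsPF F') :
    LnsPF (fun v => F v * F' v) := by
  classical
  intro m
  choose q hq using h
  choose q' hq' using h'
  refine ⟨∑ x ∈ Finset.HasAntidiagonal.antidiagonal m, q x.1 * q' x.2, fun v => ?_⟩
  rw [coeff_mul, map_sum]
  exact Finset.sum_congr rfl fun x _ => by rw [hq, hq', map_mul]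

private noncomputable def lnsSub (u w : A2 K) (v : Fin 5 → K) : Fin 2 → A2 K :=
  ![C (v 0) * u + C (v 1) * w + C (v 2), C (v 3) * w + C (v 4)]

private theorem lns_aeval (u w P : A2 K) :
    LnsPF (fun v : Fin 5 → K => aeval (lnsSub u w v) P) := by
  induction P using MvPolynomial.induction_on with
  | C a =>
    have h : (fun v : Fin 5 → K => aeval (lnsSub u w v) (C a : A2 K)) = fun _ => C a := by
      funext v
      rw [aeval_C]
      rfl
    rw [h]
    exact lns_const _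
  | add p q hp hq =>
    have h : (fun v : Fin 5 → K => aeval (lnsSub u w v) (p + q)) =
        fun v => aeval (lnsSub u w v) p + aeval (lnsSub u w v) q := by
      funext v
      rw [map_add]
    rw [h]
    exact hp.add hq
  | mul_X p i hp =>
    have h : (fun v : Fin 5 → K => aeval (lnsSub u w v) (p * X i)) =
        fun v => aeval (lnsSub u w v) p * lnsSub u w v i := by
      funext v
      rw [map_mul, aeval_X]
    rw [h]
    refine hp.mul ?_
    fin_cases i
    · exact (((lns_var 0).mul (lns_const u)).add ((lns_var 1).mul (lns_const w))).add (lns_var 2)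
    · exact ((lns_var 3).mul (lns_const w)).add (lns_var 4)

/-- the images of the variables under a conjugate of an element with given parameters -/
private theorem lns_conj (φ h : AutA K) (v : Fin 5 → K)
    (h0 : h (X 0) = C (v 0) * X 0 + C (v 1) * X 1 + C (v 2))
    (h1 : h (X 1) = C (v 3) * X 1 + C (v 4)) (i : Fin 2) :
    (φ⁻¹ * h * φ) (X i) = aeval (lnsSub (φ⁻¹ (X 0)) (φ⁻¹ (X 1)) v) (φ (X i)) := by
  have e : ((φ⁻¹ : AutA K) : A2 K →ₐ[K] A2 K).comp (h : A2 K →ₐ[K] A2 K) =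
      aeval (lnsSub (φ⁻¹ (X 0)) (φ⁻¹ (X 1)) v) := by
    refine algHom_ext fun j => ?_
    rw [aeval_X]
    fin_cases j
    · show φ⁻¹ (h (X 0)) = C (v 0) * φ⁻¹ (X 0) + C (v 1) * φ⁻¹ (X 1) + C (v 2)
      rw [h0, map_add, map_add, map_mul, map_mul, aut_C, aut_C, aut_C]
    · show φ⁻¹ (h (X 1)) = C (v 3) * φ⁻¹ (X 1) + C (v 4)
      rw [h1, map_add, map_mul, aut_C, aut_C]
  exact DFunLike.congr_fun e (φ (X i))

private theorem lns_mem_Aff {σ : AutA K} :
    σ ∈ Aff K ↔ ∀ (i : Fin 2) (m : Fin 2 →₀ ℕ), 2 ≤ (m.sum fun _ e => e) →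
      coeff m (σ (X i)) = 0 := by
  constructor
  · intro h i m hm
    refine coeff_eq_zero_of_totalDegree_lt ?_
    have h1 : (σ (X i)).totalDegree ≤ 1 := (h (X i)).2 (by rw [totalDegree_X])
    refine lt_of_le_of_lt h1 ?_
    exact hm
  · intro h
    refine mem_Aff_of σ fun i => ?_
    refine Finset.sup_le fun m hm => ?_
    by_contra hlt
    exact (mem_support_iff.1 hm) (h i m (by omega))

private theorem lns_mem_Tri {σ : AutA K} :
    σ ∈ Tri K ↔ ∀ m : Fin 2 →₀ ℕ, m ≠ 0 → m ≠ Finsupp.single 1 1 →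
      coeff m (σ (X 1)) = 0 := by
  classical
  constructor
  · intro h m hm hm'
    obtain ⟨c, d, -, h1⟩ := Tri_X1 h
    rw [h1, coeff_add, coeff_C_mul, coeff_X, coeff_C, if_neg (Ne.symm hm), if_neg, mul_zero,
      add_zero]
    exact fun h => hm' h.symm
  · intro h
    refine mem_Tri_of (c := coeff (Finsupp.single 1 1) (σ (X 1))) (d := coeff 0 (σ (X 1))) ?_
    ext m
    have hne : (Finsupp.single 1 1 : Fin 2 →₀ ℕ) ≠ 0 := by
      intro h
      have := DFunLike.congr_fun h 1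
      simp at this
    by_cases hm : m = 0
    · rw [hm, coeff_add, coeff_C_mul, coeff_X, coeff_C, if_pos rfl, if_neg hne, mul_zero, zero_add]
    · by_cases hm' : m = Finsupp.single 1 1
      · rw [hm', coeff_add, coeff_C_mul, coeff_X, coeff_C, if_pos rfl, if_neg (Ne.symm hne),
          mul_one, add_zero]
      · rw [h m hm hm', coeff_add, coeff_C_mul, coeff_X, coeff_C, if_neg (Ne.symm hm),
          if_neg (Ne.symm hm'), mul_zero, add_zero]

/-- Fixing a vertex is a system of polynomial equations. -/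
private theorem lns_system (s : AutA K) (x : VT K) :
    ∃ E : Set (MvPolynomial (Fin 5) K), ∀ (h : AutA K) (v : Fin 5 → K),
      h (X 0) = C (v 0) * X 0 + C (v 1) * X 1 + C (v 2) → h (X 1) = C (v 3) * X 1 + C (v 4) →
      ((s * h * s⁻¹) • x = x ↔ ∀ q ∈ E, eval v q = 0) := by
  have key : ∀ φ : AutA K, ∃ q : Fin 2 → (Fin 2 →₀ ℕ) → MvPolynomial (Fin 5) K,
      ∀ (h : AutA K) (v : Fin 5 → K),
      h (X 0) = C (v 0) * X 0 + C (v 1) * X 1 + C (v 2) → h (X 1) = C (v 3) * X 1 + C (v 4) →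
      ∀ i m, coeff m ((φ⁻¹ * h * φ) (X i)) = eval v (q i m) := by
    intro φ
    choose q hq using fun i : Fin 2 => lns_aeval (φ⁻¹ (X 0)) (φ⁻¹ (X 1)) (φ (X i))
    refine ⟨q, fun h v h0 h1 i m => ?_⟩
    rw [lns_conj φ h v h0 h1 i]
    exact hq i m v
  rcases x with y | y
  · obtain ⟨t, rfl⟩ := QuotientGroup.mk_surjective y
    obtain ⟨q, hq⟩ := key (s⁻¹ * t)
    refine ⟨{r | ∃ (i : Fin 2) (m : Fin 2 →₀ ℕ), 2 ≤ (m.sum fun _ e => e) ∧ r = q i m},
      fun h v h0 h1 => ?_⟩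
    have e1 : (s * h * s⁻¹) • (Sum.inl (t : AutA K ⧸ Aff K) : VT K) = Sum.inl (t : AutA K ⧸ Aff K) ↔
        (s⁻¹ * t)⁻¹ * h * (s⁻¹ * t) ∈ Aff K := by
      have e2 : (s⁻¹ * t)⁻¹ * h * (s⁻¹ * t) = t⁻¹ * (s * h * s⁻¹) * t := by group
      rw [e2]
      constructor
      · exact fun h3 => lna_inl h3
      · intro h3
        have h4 : ((s * h * s⁻¹ * t : AutA K) : AutA K ⧸ Aff K) = t := by
          refine (QuotientGroup.eq.2 ?_).symm
          rwa [← mul_assoc]
        exact congrArg Sum.inl h4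
    rw [e1, lns_mem_Aff]
    constructor
    · rintro h3 r ⟨i, m, hm, rfl⟩
      rw [← hq h v h0 h1]
      exact h3 i m hm
    · intro h3 i m hm
      rw [hq h v h0 h1]
      exact h3 _ ⟨i, m, hm, rfl⟩
  · obtain ⟨t, rfl⟩ := QuotientGroup.mk_surjective y
    obtain ⟨q, hq⟩ := key (s⁻¹ * t)
    refine ⟨{r | ∃ m : Fin 2 →₀ ℕ, m ≠ 0 ∧ m ≠ Finsupp.single 1 1 ∧ r = q 1 m},
      fun h v h0 h1 => ?_⟩
    have e1 : (s * h * s⁻¹) • (Sum.inr (t : AutA K ⧸ Tri K) : VT K) = Sum.inr (t : AutA K ⧸ Tri K) ↔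
        (s⁻¹ * t)⁻¹ * h * (s⁻¹ * t) ∈ Tri K := by
      have e2 : (s⁻¹ * t)⁻¹ * h * (s⁻¹ * t) = t⁻¹ * (s * h * s⁻¹) * t := by group
      rw [e2]
      constructor
      · exact fun h3 => lna_inr h3
      · intro h3
        have h4 : ((s * h * s⁻¹ * t : AutA K) : AutA K ⧸ Tri K) = t := by
          refine (QuotientGroup.eq.2 ?_).symm
          rwa [← mul_assoc]
        exact congrArg Sum.inr h4
    rw [e1, lns_mem_Tri]
    constructor
    · rintro h3 r ⟨m, hm, hm', rfl⟩
      rw [← hq h v h0 h1]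
      exact h3 m hm hm'
    · intro h3 m hm hm'
      rw [hq h v h0 h1]
      exact h3 _ ⟨m, hm, hm', rfl⟩

/-- **Every line contains a finite segment with the same pointwise stabilizer.** -/
theorem stable_seg_aut (l : ℤ → VT K)
    (hl : ∀ n : ℤ, (JGraph K).Adj (l n) (l (n + 1)) ∧ l (n + 2) ≠ l n) :
    ∃ a b : ℤ, ∀ g : AutA K, (∀ n, a ≤ n → n ≤ b → g • l n = l n) → ∀ n, g • l n = l n := by
  obtain ⟨s, hs⟩ := (hl 0).1
  choose E hE using fun n : ℤ => lns_system s (l n)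
  let I : ℕ →o Ideal (MvPolynomial (Fin 5) K) :=
    { toFun := fun N => Ideal.span (⋃ n ∈ {n : ℤ | |n| ≤ N}, E n)
      monotone' := by
        intro N M hNM
        refine Ideal.span_mono (Set.biUnion_subset_biUnion_left ?_)
        intro n hn
        have h1 : |n| ≤ (N : ℤ) := hn
        have h2 : (N : ℤ) ≤ M := by exact_mod_cast hNM
        exact h1.trans h2 }
  obtain ⟨N0, hN0⟩ := monotone_stabilizes_iff_noetherian.2
    (inferInstance : IsNoetherian (MvPolynomial (Fin 5) K) (MvPolynomial (Fin 5) K)) I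
  refine ⟨-(max N0 1 : ℕ), (max N0 1 : ℕ), fun g hg => ?_⟩
  have hN1 : (1 : ℤ) ≤ ((max N0 1 : ℕ) : ℤ) := by exact_mod_cast le_max_right N0 1
  have hg0 : g • l 0 = l 0 := hg 0 (by omega) (by omega)
  have hg1 : g • l (0 + 1) = l (0 + 1) := hg (0 + 1) (by omega) (by omega)
  have hAT : s⁻¹ * g * s ∈ Aff K ∧ s⁻¹ * g * s ∈ Tri K := by
    rcases hs with ⟨h1, h2⟩ | ⟨h1, h2⟩
    · rw [h1] at hg0
      rw [h2] at hg1
      exact ⟨lna_inl hg0, lna_inr hg1⟩
    · rw [h1] at hg0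
      rw [h2] at hg1
      exact ⟨lna_inl hg1, lna_inr hg0⟩
  obtain ⟨a, e, f, c, d, -, -, h0, h1, -⟩ := lna_AT hAT.1 hAT.2
  have hgs : s * (s⁻¹ * g * s) * s⁻¹ = g := by group
  have hsys : ∀ n : ℤ, g • l n = l n ↔ ∀ q ∈ E n, eval ![a, e, f, c, d] q = 0 := by
    intro n
    have h2 := hE n (s⁻¹ * g * s) ![a, e, f, c, d] h0 h1
    rw [hgs] at h2
    exact h2
  have hI : I N0 ≤ RingHom.ker (eval ![a, e, f, c, d]) := by
    refine Ideal.span_le.2 ?_
    intro q hq
    obtain ⟨n, hn, hqn⟩ := Set.mem_iUnion₂.1 hq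
    have h2 : |n| ≤ (N0 : ℤ) := hn
    have h3 : ((N0 : ℕ) : ℤ) ≤ ((max N0 1 : ℕ) : ℤ) := by exact_mod_cast le_max_left N0 1
    have h4 := abs_le.1 (h2.trans h3)
    exact (hsys n).1 (hg n h4.1 h4.2) q hqn
  intro n
  rw [hsys n]
  intro q hq
  have h2 : q ∈ I (max N0 n.natAbs) := by
    refine Ideal.subset_span (Set.mem_iUnion₂.2 ⟨n, ?_, hq⟩)
    show |n| ≤ ((max N0 n.natAbs : ℕ) : ℤ)
    rw [Int.abs_eq_natAbs]
    exact_mod_cast le_max_right N0 n.natAbs
  rw [← hN0 _ (le_max_left _ _)] at h2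
  exact hI h2

theorem stable_seg {G : Type v} [Group G] (f : G →* AutA K) (l : ℤ → VT K)
    (hl : ∀ n : ℤ, (JGraph K).Adj (l n) (l (n + 1)) ∧ l (n + 2) ≠ l n) :
    ∃ a b : ℤ, ∀ g : G, (∀ n, a ≤ n → n ≤ b → f g • l n = l n) → ∀ n, f g • l n = l n := by
  obtain ⟨a, b, h⟩ := stable_seg_aut l hl
  exact ⟨a, b, fun g => h (f g)⟩

end Pool.Agent.Lib.MP_c052b4_al.JK
end
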