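import Mathlib.GroupTheory.HNNExtension
import Pool.Agent.Lib.MP_c052b4_al.TauG

section

/-!
# Groups acting on trees: basic definitions

* `rker M`: the kernel of right multiplication by a matrix (row vectors, left modules);
* `Perf C M`: the module `M` has a finite resolution by finitely generated projective modules;
* `RegCoh C`: all kernels of matrices over `C` are perfect;
* `DPr C`: every finite subset of the kernel of a matrix lies in a perfect submodule of the kernel;
* labelled free modules: `l : ι → X` a labelling of the basis of `R[G]^ι` by a `G`-set `X`; the basis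
  element `g e_i` has degree `g • l i`.
-/

set_option autoImplicit false
set_option linter.unusedSectionVars false

namespace Pool.Agent.Lib.MP_c052b4_al

open Matrix

universe u v w w'

section Modules

/-- The kernel of right multiplication by a matrix. -/
def rker {C : Type u} [Ring C] {m : Type*} [Fintype m] {n : Type*} (M : Matrix m n C) :
    Submodule C (m → C) :=
  LinearMap.ker (Matrix.vecMulLinear M)

theorem mem_rker {C : Type u} [Ring C] {m : Type*} [Fintype m] {n : Type*} {M : Matrix m n C}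
    {x : m → C} : x ∈ rker M ↔ x ᵥ* M = 0 := Iff.rfl

/-- Perfect modules: finite resolutions by finitely generated projective modules. -/
def Perf (C : Type u) [Ring C] (M : Type u) [AddCommGroup M] [Module C M] : Prop :=
  ∃ d : ℕ, HasRes (RingHom.id C) d M

/-- All kernels of matrices are perfect (regular coherent rings). -/
def RegCoh (C : Type u) [Ring C] : Prop :=
  ∀ (m n : ℕ) (M : Matrix (Fin m) (Fin n) C), Perf C (rker M)

/-- Every finite subset of the kernel of a matrix lies in a perfect submodule of the kernel. -/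
def DPr (C : Type u) [Ring C] : Prop :=
  ∀ (m n : ℕ) (M : Matrix (Fin m) (Fin n) C) (Φ : Set (Fin m → C)), Φ.Finite →
    Φ ⊆ rker M → ∃ X : Submodule C (Fin m → C), Φ ⊆ X ∧ X ≤ rker M ∧ Perf C X

end Modules

section Labels

variable {R : Type u} [Ring R] {G : Type v} [Group G] {X : Type w} [MulAction G X]
  {Y : Type w'} [MulAction G Y]

/-- The part of an element of the group ring supported in `Z`. -/
noncomputable def cpA (Z : Set G) (a : MonoidAlgebra R G) : MonoidAlgebra R G :=
  open Classical in MonoidAlgebra.ofCoeff (a.coeff.filter fun g => g ∈ Z)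

/-- The component of a vector in the set `Z` of degrees. -/
noncomputable def cp {ι : Type*} (l : ι → X) (Z : Set X) (x : ι → MonoidAlgebra R G) :
    ι → MonoidAlgebra R G :=
  fun i => cpA {g | g • l i ∈ Z} (x i)

/-- `M` is homogeneous along `f`: it maps the degree `ξ` part to the degree `f ξ` part. -/
def Hg {ι κ : Type*} (l : ι → X) (l' : κ → Y) (f : X → Y)
    (M : Matrix ι κ (MonoidAlgebra R G)) : Prop :=
  ∀ i j g, (M i j).coeff g ≠ 0 → g • l' j = f (l i)

/-- The part of a matrix along a (`G`-invariant) relation `P` between the degrees. -/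
noncomputable def rp {ι κ : Type*} (l : ι → X) (l' : κ → Y) (P : X → Y → Prop)
    (M : Matrix ι κ (MonoidAlgebra R G)) : Matrix ι κ (MonoidAlgebra R G) :=
  Matrix.of fun i j => cpA {g | P (l i) (g • l' j)} (M i j)

/-- The augmentation `R[G] → R`. -/
noncomputable def augm (R : Type u) [Ring R] (G : Type v) [Group G] : MonoidAlgebra R G →+* R :=
  (MonoidAlgebra.uniqueRingEquiv (R := R) PUnit.{1} : MonoidAlgebra R PUnit.{1} →+* R).comp
    (MonoidAlgebra.mapDomainRingHom R (1 : G →* PUnit.{1}))

theorem augm_single (g : G) (r : R) : augm R G (MonoidAlgebra.single g r) = r := by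
  unfold augm
  rw [RingHom.comp_apply, MonoidAlgebra.mapDomainRingHom_apply]
  simp

theorem augm_cG (r : R) : augm R G (cG R G r) = r := augm_single _ _

theorem coeff_cpA (Z : Set G) (a : MonoidAlgebra R G) (g : G) [Decidable (g ∈ Z)] :
    (cpA Z a).coeff g = if g ∈ Z then a.coeff g else 0 := by
  classical
  unfold cpA
  rw [MonoidAlgebra.coeff_ofCoeff, Finsupp.filter_apply]
  split_ifs <;> rfl

theorem cpA_add (Z : Set G) (a b : MonoidAlgebra R G) : cpA Z (a + b) = cpA Z a + cpA Z b := by
  classical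
  ext g
  rw [MonoidAlgebra.coeff_add, Finsupp.add_apply, coeff_cpA, coeff_cpA, coeff_cpA]
  split_ifs <;> simp

theorem cpA_zero (Z : Set G) : cpA Z (0 : MonoidAlgebra R G) = 0 := by
  classical
  ext g
  rw [coeff_cpA]
  split_ifs <;> simp

theorem cpA_single_mul (Z : Set G) (h : G) (r : R) (a : MonoidAlgebra R G) :
    cpA Z (MonoidAlgebra.single h r * a) =
      MonoidAlgebra.single h r * cpA {g | h * g ∈ Z} a := by
  classical
  ext g
  rw [coeff_cpA, MonoidAlgebra.coeff_single_mul_apply, MonoidAlgebra.coeff_single_mul_apply,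
    coeff_cpA]
  simp only [Set.mem_setOf_eq, mul_inv_cancel_left]
  split_ifs <;> simp

theorem cp_add {ι : Type*} (l : ι → X) (Z : Set X) (x y : ι → MonoidAlgebra R G) :
    cp l Z (x + y) = cp l Z x + cp l Z y := by
  funext i
  exact cpA_add _ _ _

theorem cp_zero {ι : Type*} (l : ι → X) (Z : Set X) :
    cp l Z (0 : ι → MonoidAlgebra R G) = 0 := by
  funext i
  exact cpA_zero _

/-- components and the action of the group ring -/
theorem cp_single_smul {ι : Type*} (l : ι → X) (Z : Set X) (h : G) (r : R)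
    (x : ι → MonoidAlgebra R G) :
    cp l Z (MonoidAlgebra.single h r • x) =
      MonoidAlgebra.single h r • cp l {ξ | h • ξ ∈ Z} x := by
  funext i
  change cpA _ (MonoidAlgebra.single h r * x i) = MonoidAlgebra.single h r * cpA _ (x i)
  rw [cpA_single_mul]
  congr 2
  ext g
  simp only [Set.mem_setOf_eq, mul_smul]

/-- The graded kernel of a matrix: the vectors all of whose components are in the kernel. -/
def gker {ι : Type*} [Fintype ι] {κ : Type*} (l : ι → X)
    (M : Matrix ι κ (MonoidAlgebra R G)) : Submodule (MonoidAlgebra R G) (ι → MonoidAlgebra R G) where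
  carrier := {x | ∀ ξ : X, cp l {ξ} x ᵥ* M = 0}
  add_mem' := by
    intro x y hx hy ξ
    rw [cp_add, Matrix.add_vecMul, hx ξ, hy ξ, add_zero]
  zero_mem' := by
    intro ξ
    rw [cp_zero, Matrix.zero_vecMul]
  smul_mem' := by
    intro a x hx
    induction a using MonoidAlgebra.induction_linear with
    | zero =>
      intro ξ
      rw [zero_smul, cp_zero, Matrix.zero_vecMul]
    | add a b ha hb =>
      intro ξ
      rw [add_smul, cp_add, Matrix.add_vecMul, ha ξ, hb ξ, add_zero]
    | single h r =>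
      intro ξ
      rw [cp_single_smul, Matrix.smul_vecMul]
      have h1 : {ξ' : X | h • ξ' ∈ ({ξ} : Set X)} = {h⁻¹ • ξ} := by
        ext ξ'
        simp only [Set.mem_setOf_eq, Set.mem_singleton_iff]
        exact eq_inv_smul_iff.symm
      rw [h1, hx, smul_zero]

theorem mem_gker {ι : Type*} [Fintype ι] {κ : Type*} {l : ι → X}
    {M : Matrix ι κ (MonoidAlgebra R G)} {x : ι → MonoidAlgebra R G} :
    x ∈ gker l M ↔ ∀ ξ : X, cp l {ξ} x ᵥ* M = 0 := Iff.rfl

end Labels

end Pool.Agent.Lib.MP_c052b4_al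
end

section

/-!
# Perfect modules: generalities
-/

set_option autoImplicit false
set_option linter.unusedSectionVars false

namespace Pool.Agent.Lib.MP_c052b4_al

open Matrix

universe u v w w'

section HasResMore

variable {S : Type u} {T : Type v} [Ring S] [Ring T] {φ : S →+* T}

/-- A direct summand with free complement. -/
theorem HasRes.of_prod_free {n : ℕ} {K : Type v} [AddCommGroup K] [Module T K] {m : ℕ}
    (h : HasRes φ n (K × (Fin m → T))) : HasRes φ n K := by
  cases n with
  | zero => exact Good.of_prod h (good_free φ (Fin m))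
  | succ n =>
    obtain ⟨p, g, hg, hL⟩ := h
    refine ⟨p, LinearMap.fst T K (Fin m → T) ∘ₗ g,
      (LinearMap.fst_surjective (R := T) (M := K) (M₂ := Fin m → T)).comp hg, ?_⟩
    have hle : LinearMap.ker g ≤ LinearMap.ker (LinearMap.fst T K (Fin m → T) ∘ₗ g) :=
      LinearMap.ker_le_ker_comp g _
    refine HasRes.ext (B := LinearMap.ker g) (A := Fin m → T) (Submodule.inclusion hle)
      ((LinearMap.snd T K (Fin m → T) ∘ₗ g).domRestrict _)
      (Submodule.inclusion_injective hle) ?_ ?_ hL
      (HasRes.mono (Nat.zero_le n) (show HasRes φ 0 (Fin m → T) from good_free φ (Fin m)))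
    · intro y
      obtain ⟨x, hx⟩ := hg (0, y)
      refine ⟨⟨x, ?_⟩, ?_⟩
      · rw [LinearMap.mem_ker, LinearMap.comp_apply, hx]
        rfl
      · change (g x).2 = y
        rw [hx]
    · ext ⟨x, hx⟩
      have hx1 : (g x).1 = 0 := hx
      simp only [LinearMap.mem_range, LinearMap.mem_ker]
      constructor
      · rintro ⟨⟨y, hy⟩, hyx⟩
        have h3 : y = x := congrArg Subtype.val hyx
        subst h3
        have hy' : g y = 0 := hy
        change (g y).2 = 0
        rw [hy']
        rfl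
      · intro h3
        have h4 : (g x).2 = 0 := h3
        exact ⟨⟨x, Prod.ext hx1 h4⟩, rfl⟩

/-- Schanuel's lemma: the kernel of any cover. -/
theorem HasRes.ker {n : ℕ} {M : Type v} [AddCommGroup M] [Module T M] {m : ℕ}
    (h : HasRes φ (n + 1) M) (f : (Fin m → T) →ₗ[T] M) (hf : Function.Surjective f) :
    HasRes φ n (LinearMap.ker f) := by
  obtain ⟨m0, f0, hf0, h0⟩ := h
  -- the pullback
  let P : Submodule T ((Fin m → T) × (Fin m0 → T)) :=
    LinearMap.ker (f ∘ₗ LinearMap.fst T _ _ - f0 ∘ₗ LinearMap.snd T _ _)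
  have hP : ∀ x, x ∈ P ↔ f x.1 = f0 x.2 := fun x => by
    rw [LinearMap.mem_ker]
    exact sub_eq_zero
  have hPres : HasRes φ n P := by
    refine HasRes.ext (B := LinearMap.ker f0) (A := Fin m → T)
      ((LinearMap.inr T (Fin m → T) (Fin m0 → T)).restrict (fun x hx => (hP _).2 ?_))
      ((LinearMap.fst T _ _).domRestrict P) ?_ ?_ ?_ h0
      (HasRes.mono (Nat.zero_le n) (show HasRes φ 0 (Fin m → T) from good_free φ (Fin m)))
    · have hx' : f0 x = 0 := hx
      simp [hx']
    · intro x y hxy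
      apply Subtype.ext
      have := congrArg (fun z => (z : (Fin m → T) × (Fin m0 → T)).2) (congrArg Subtype.val hxy)
      exact this
    · intro x
      obtain ⟨y, hy⟩ := hf0 (f x)
      exact ⟨⟨(x, y), (hP _).2 hy.symm⟩, rfl⟩
    · ext ⟨⟨x, y⟩, hxy⟩
      have hxy' : f x = f0 y := (hP _).1 hxy
      simp only [LinearMap.mem_range, LinearMap.mem_ker]
      constructor
      · rintro ⟨⟨z, hz⟩, hzx⟩
        have h3 := congrArg (fun z => (z : (Fin m → T) × (Fin m0 → T)).1)
          (congrArg Subtype.val hzx)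
        exact h3.symm
      · intro h3
        have h4 : x = 0 := h3
        subst h4
        rw [map_zero] at hxy'
        exact ⟨⟨y, hxy'.symm⟩, rfl⟩
  have hsurj : Function.Surjective ((LinearMap.snd T (Fin m → T) (Fin m0 → T)).domRestrict P) := by
    intro y
    obtain ⟨x, hx⟩ := hf (f0 y)
    exact ⟨⟨(x, y), (hP _).2 hx⟩, rfl⟩
  obtain ⟨θ⟩ := split_equiv _ hsurj
  have hker : (LinearMap.ker f) ≃ₗ[T]
      LinearMap.ker ((LinearMap.snd T (Fin m → T) (Fin m0 → T)).domRestrict P) := by
    refine LinearEquiv.ofBijective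
      (LinearMap.codRestrict _
        (LinearMap.codRestrict P (LinearMap.inl T _ _ ∘ₗ (LinearMap.ker f).subtype)
          (fun x => (hP _).2 ?_)) (fun x => rfl)) ⟨?_, ?_⟩
    · have hx : f x = 0 := x.2
      simp [hx]
    · intro x y hxy
      apply Subtype.ext
      have := congrArg (fun z => (z : (Fin m → T) × (Fin m0 → T)).1)
        (congrArg Subtype.val (congrArg Subtype.val hxy))
      exact this
    · rintro ⟨⟨⟨x, y⟩, hxy⟩, hy⟩
      have hxy' : f x = f0 y := (hP _).1 hxy
      have hy' : y = 0 := hy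
      subst hy'
      rw [map_zero] at hxy'
      exact ⟨⟨x, hxy'⟩, rfl⟩
  have h1 : HasRes φ n
      (LinearMap.ker ((LinearMap.snd T (Fin m → T) (Fin m0 → T)).domRestrict P)) :=
    HasRes.of_prod_free (hPres.congr θ.symm)
  exact h1.congr hker.symm

end HasResMore

section PerfBasic

variable {C : Type u} [Ring C]

theorem Perf.congr {M N : Type u} [AddCommGroup M] [Module C M] [AddCommGroup N] [Module C N]
    (h : Perf C M) (e : M ≃ₗ[C] N) : Perf C N := by
  obtain ⟨d, hd⟩ := h
  exact ⟨d, hd.congr e⟩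

theorem Perf.ext {B E A : Type u} [AddCommGroup B] [Module C B] [AddCommGroup E] [Module C E]
    [AddCommGroup A] [Module C A] (i : B →ₗ[C] E) (p : E →ₗ[C] A) (hi : Function.Injective i)
    (hp : Function.Surjective p) (hip : LinearMap.range i = LinearMap.ker p) (hB : Perf C B)
    (hA : Perf C A) : Perf C E := by
  obtain ⟨d, hd⟩ := hB
  obtain ⟨d', hd'⟩ := hA
  exact ⟨max d d', HasRes.ext i p hi hp hip (hd.mono (le_max_left _ _))
    (hd'.mono (le_max_right _ _))⟩

theorem Perf.coker {A B M : Type u} [AddCommGroup A] [Module C A] [AddCommGroup B] [Module C B]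
    [AddCommGroup M] [Module C M] (i : A →ₗ[C] B) (p : B →ₗ[C] M) (hi : Function.Injective i)
    (hp : Function.Surjective p) (hip : LinearMap.range i = LinearMap.ker p) (hA : Perf C A)
    (hB : Perf C B) : Perf C M := by
  obtain ⟨d, hd⟩ := hA
  obtain ⟨d', hd'⟩ := hB
  exact ⟨max d d' + 1, HasRes.coker i p hi hp hip (hd.mono (le_max_left _ _))
    (hd'.mono (le_max_right _ _))⟩

theorem Perf.of_projective {M : Type u} [AddCommGroup M] [Module C M] [Module.Finite C M]
    [Module.Projective C M] : Perf C M :=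
  ⟨0, Good.of_finite_projective⟩

theorem Perf.finite {M : Type u} [AddCommGroup M] [Module C M] (h : Perf C M) :
    Module.Finite C M := by
  obtain ⟨d, hd⟩ := h
  exact hd.finite

theorem Perf.prod {M N : Type u} [AddCommGroup M] [Module C M] [AddCommGroup N] [Module C N]
    (h : Perf C M) (h' : Perf C N) : Perf C (M × N) := by
  refine Perf.ext (LinearMap.inl C M N) (LinearMap.snd C M N) LinearMap.inl_injective
    LinearMap.snd_surjective ?_ h h'
  exact LinearMap.range_inl C M N

/-- a perfect module has a finite free cover with perfect kernel -/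
theorem Perf.exists_cover {M : Type u} [AddCommGroup M] [Module C M] (h : Perf C M) :
    ∃ (m : ℕ) (f : (Fin m → C) →ₗ[C] M), Function.Surjective f ∧ Perf C (LinearMap.ker f) := by
  obtain ⟨d, hd⟩ := h
  obtain ⟨m, f, hf, h⟩ := hd.succ
  exact ⟨m, f, hf, d, h⟩

theorem Perf.pi {Ω : Type} [Finite Ω] : ∀ (M : Ω → Type u) [∀ a, AddCommGroup (M a)]
    [∀ a, Module C (M a)], (∀ a, Perf C (M a)) → Perf C (∀ a, M a) := by
  induction Ω using Finite.induction_empty_option with
  | of_equiv e ih =>
    intro M _ _ h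
    exact (ih (fun a => M (e a)) (fun a => h (e a))).congr (LinearEquiv.piCongrLeft C M e)
  | h_empty =>
    intro M _ _ h
    exact Perf.of_projective
  | h_option ih =>
    intro M _ _ h
    exact ((h none).prod (ih (fun a => M (some a)) (fun a => h (some a)))).congr
      (LinearEquiv.piOptionEquivProd C).symm

end PerfBasic

end Pool.Agent.Lib.MP_c052b4_al
end

section

/-!
# Kernels of matrices, regular coherence and the property `DPr`
-/

set_option autoImplicit false
set_option linter.unusedSectionVars false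

namespace Pool.Agent.Lib.MP_c052b4_al

open Matrix

universe u v w w'

section Rker

variable {C : Type u} [Ring C]

theorem exists_mat {m : Type*} [Fintype m] {n : Type*} (f : (m → C) →ₗ[C] (n → C)) :
    ∃ M : Matrix m n C, ∀ v, v ᵥ* M = f v := by
  classical
  refine ⟨LinearMap.toMatrixRight' f, fun v => ?_⟩
  have := LinearMap.toMatrixRight'.symm_apply_apply f
  exact LinearMap.congr_fun this v

theorem mem_rker_submatrix {m m' : Type*} [Fintype m] [Fintype m'] {n n' : Type*}
    (M : Matrix m n C) (e : m ≃ m') (e' : n ≃ n') (x : m' → C) :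
    x ∈ rker (M.submatrix e.symm e'.symm) ↔ x ∘ e ∈ rker M := by
  rw [mem_rker, mem_rker, Matrix.submatrix_vecMul_equiv, Equiv.symm_symm]
  constructor
  · intro h
    funext j
    have := congrFun h (e' j)
    simpa using this
  · intro h
    rw [h]
    rfl

theorem RegCoh.perf_rker (h : RegCoh C) {m : Type} [Fintype m] {n : Type*} [Fintype n]
    (M : Matrix m n C) : Perf C (rker M) := by
  let e := Fintype.equivFin m
  let e' := Fintype.equivFin n
  have h1 := h _ _ (M.submatrix e.symm e'.symm)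
  refine h1.congr (((LinearEquiv.funCongrLeft C C e).submoduleMap _).trans
    (LinearEquiv.ofEq _ _ ?_))
  ext x
  rw [Submodule.mem_map]
  constructor
  · rintro ⟨y, hy, rfl⟩
    exact (mem_rker_submatrix M e e' y).1 hy
  · intro hx
    refine ⟨x ∘ e.symm, (mem_rker_submatrix M e e' _).2 ?_, ?_⟩
    · rwa [Function.comp_assoc, Equiv.symm_comp_self, Function.comp_id]
    · funext i
      simp [LinearEquiv.funCongrLeft_apply, LinearMap.funLeft_apply]

theorem DPr.exists_perf (h : DPr C) {m : Type} [Fintype m] {n : Type*} [Fintype n]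
    (M : Matrix m n C) (Φ : Set (m → C)) (hΦ : Φ.Finite) (hΦM : Φ ⊆ rker M) :
    ∃ X : Submodule C (m → C), Φ ⊆ X ∧ X ≤ rker M ∧ Perf C X := by
  let e := Fintype.equivFin m
  let e' := Fintype.equivFin n
  let θ := LinearEquiv.funCongrLeft C C e
  have hθ : ∀ x, θ x = x ∘ e := fun x => rfl
  obtain ⟨X, h1, h2, h3⟩ := h _ _ (M.submatrix e.symm e'.symm) (θ.symm '' Φ) (hΦ.image _) (by
    rintro _ ⟨x, hx, rfl⟩
    refine (mem_rker_submatrix M e e' _).2 ?_
    rw [← hθ, LinearEquiv.apply_symm_apply]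
    exact hΦM hx)
  refine ⟨X.map θ.toLinearMap, ?_, ?_, h3.congr (θ.submoduleMap X)⟩
  · intro x hx
    exact ⟨θ.symm x, h1 ⟨x, hx, rfl⟩, θ.apply_symm_apply x⟩
  · rintro _ ⟨x, hx, rfl⟩
    exact (mem_rker_submatrix M e e' x).1 (h2 hx)

/-- `DPr` for a perfect module instead of a free module. -/
theorem DPr.exists_perf_le (h : DPr C) {m : Type} [Fintype m] {n : Type*} [Fintype n]
    (K : Submodule C (m → C)) (hK : Perf C K)
    (M : Matrix m n C) (Φ : Set (m → C)) (hΦ : Φ.Finite) (hΦK : Φ ⊆ K) (hΦM : Φ ⊆ rker M) :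
    ∃ X : Submodule C (m → C), Φ ⊆ X ∧ X ≤ K ∧ X ≤ rker M ∧ Perf C X := by
  obtain ⟨k, f, hf, hker⟩ := hK.exists_cover
  obtain ⟨P, hP⟩ := exists_mat (K.subtype ∘ₗ f)
  have hP' : ∀ v, v ᵥ* P = (f v : K) := hP
  obtain ⟨s, hs⟩ := (Module.Finite.iff_fg.1 hker.finite : (LinearMap.ker f).FG)
  have hch : ∀ x : m → C, ∃ y : Fin k → C, x ∈ K → y ᵥ* P = x := by
    intro x
    by_cases hx : x ∈ K
    · obtain ⟨y, hy⟩ := hf ⟨x, hx⟩
      exact ⟨y, fun _ => by rw [hP', hy]⟩
    · exact ⟨0, fun h => absurd h hx⟩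
  choose L hL using hch
  obtain ⟨Y, h1, h2, h3⟩ := h.exists_perf (P * M) ((s : Set (Fin k → C)) ∪ L '' Φ)
    ((Finset.finite_toSet s).union (hΦ.image L)) (by
      rintro y (hy | ⟨x, hx, rfl⟩)
      · have hy' : y ∈ LinearMap.ker f := by rw [← hs]; exact Submodule.subset_span hy
        have hy2 : f y = 0 := hy'
        change y ᵥ* (P * M) = 0
        rw [← Matrix.vecMul_vecMul, hP', hy2]
        exact Matrix.zero_vecMul M
      · change L x ᵥ* (P * M) = 0
        rw [← Matrix.vecMul_vecMul, hL x (hΦK hx)]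
        exact hΦM hx)
  have hkerY : LinearMap.ker f ≤ Y := by
    rw [← hs, Submodule.span_le]
    exact fun y hy => h1 (Or.inl hy)
  have hmap : ∀ y ∈ Y, y ᵥ* P ∈ Y.map (Matrix.vecMulLinear P) := fun y hy => ⟨y, hy, rfl⟩
  refine ⟨Y.map (Matrix.vecMulLinear P), ?_, ?_, ?_, ?_⟩
  · intro x hx
    exact ⟨L x, h1 (Or.inr ⟨x, hx, rfl⟩), hL x (hΦK hx)⟩
  · rintro _ ⟨y, hy, rfl⟩
    change y ᵥ* P ∈ K
    rw [hP']
    exact (f y).2
  · rintro _ ⟨y, hy, rfl⟩
    have h4 : y ᵥ* (P * M) = 0 := h2 hy
    rw [← Matrix.vecMul_vecMul] at h4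
    exact h4
  · refine Perf.coker (A := LinearMap.ker f) (B := Y) (Submodule.inclusion hkerY)
      ((Matrix.vecMulLinear P).restrict (p := Y) (q := Y.map (Matrix.vecMulLinear P)) hmap)
      (Submodule.inclusion_injective hkerY) ?_ ?_ hker h3
    · rintro ⟨_, ⟨y, hy, rfl⟩⟩
      exact ⟨⟨y, hy⟩, rfl⟩
    · ext ⟨x, hx⟩
      simp only [LinearMap.mem_range, LinearMap.mem_ker]
      constructor
      · rintro ⟨⟨y, hy⟩, hyx⟩
        have h5 : y = x := congrArg Subtype.val hyx
        subst h5
        have hy' : f y = 0 := hy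
        apply Subtype.ext
        change y ᵥ* P = 0
        rw [hP', hy']
        rfl
      · intro h5
        have h6 : x ᵥ* P = 0 := congrArg Subtype.val h5
        rw [hP'] at h6
        have h7 : f x = 0 := Subtype.ext h6
        exact ⟨⟨x, h7⟩, rfl⟩

/-- W2. Regular coherent rings have the property DP. -/
theorem RegCoh.dpr' (h : RegCoh C) : DPr C :=
  fun m n M _ _ hΦ => ⟨rker M, hΦ, le_rfl, h m n M⟩

end Rker

end Pool.Agent.Lib.MP_c052b4_al
end

section

/-!
# Labelled free modules over group rings: calculus of components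
-/

set_option autoImplicit false
set_option linter.unusedSectionVars false

namespace Pool.Agent.Lib.MP_c052b4_al

open Matrix

universe u v w w' w''

variable {R : Type u} [Ring R] {G : Type v} [Group G] {X : Type w} [MulAction G X]
  {Y : Type w'} [MulAction G Y] {W : Type w''} [MulAction G W]
  {ι κ μ : Type*}

theorem cp_cp (l : ι → X) (Z Z' : Set X) (x : ι → MonoidAlgebra R G) :
    cp l Z (cp l Z' x) = cp l (Z ∩ Z') x := by
  classical
  funext i
  ext g
  simp only [cp, coeff_cpA, Set.mem_setOf_eq, Set.mem_inter_iff]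
  by_cases h1 : g • l i ∈ Z <;> by_cases h2 : g • l i ∈ Z' <;> simp [h1, h2]

theorem cp_empty (l : ι → X) (x : ι → MonoidAlgebra R G) : cp l ∅ x = 0 := by
  classical
  funext i
  ext g
  simp [cp, coeff_cpA]

theorem cp_univ (l : ι → X) (x : ι → MonoidAlgebra R G) : cp l Set.univ x = x := by
  classical
  funext i
  ext g
  simp [cp, coeff_cpA]

theorem cp_neg (l : ι → X) (Z : Set X) (x : ι → MonoidAlgebra R G) :
    cp l Z (-x) = - cp l Z x := by
  have h := cp_add l Z x (-x)
  rw [add_neg_cancel, cp_zero] at h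
  exact (neg_eq_of_add_eq_zero_right h.symm).symm

theorem cp_sub (l : ι → X) (Z : Set X) (x y : ι → MonoidAlgebra R G) :
    cp l Z (x - y) = cp l Z x - cp l Z y := by
  rw [sub_eq_add_neg, cp_add, cp_neg, ← sub_eq_add_neg]

theorem cp_union (l : ι → X) {Z Z' : Set X} (h : Disjoint Z Z') (x : ι → MonoidAlgebra R G) :
    cp l (Z ∪ Z') x = cp l Z x + cp l Z' x := by
  classical
  funext i
  ext g
  simp only [cp, Pi.add_apply, MonoidAlgebra.coeff_add, Finsupp.add_apply, coeff_cpA,
    Set.mem_setOf_eq, Set.mem_union]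
  by_cases h1 : g • l i ∈ Z
  · have h2 : g • l i ∉ Z' := Set.disjoint_left.1 h h1
    simp [h1, h2]
  · by_cases h2 : g • l i ∈ Z' <;> simp [h1, h2]

/-- the components of a vector supported in `Z` outside `Z` vanish -/
theorem cp_eq_zero_of_disjoint {l : ι → X} {Z Z' : Set X} {x : ι → MonoidAlgebra R G}
    (hx : cp l Z x = x) (h : Disjoint Z' Z) : cp l Z' x = 0 := by
  rw [← hx, cp_cp, Set.disjoint_iff_inter_eq_empty.1 h, cp_empty]

theorem cp_eq_self_of_subset {l : ι → X} {Z Z' : Set X} {x : ι → MonoidAlgebra R G}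
    (hx : cp l Z x = x) (h : Z ⊆ Z') : cp l Z' x = x := by
  rw [← hx, cp_cp, Set.inter_eq_self_of_subset_right h]

theorem cp_self (l : ι → X) (Z : Set X) (x : ι → MonoidAlgebra R G) :
    cp l Z (cp l Z x) = cp l Z x := by
  rw [cp_cp, Set.inter_self]

/-- basis vectors are homogeneous -/
theorem cp_single_mem [DecidableEq ι] (l : ι → X) (Z : Set X) (i : ι) (g : G) (r : R)
    (h : g • l i ∈ Z) :
    cp l Z (Pi.single i (MonoidAlgebra.single g r)) = Pi.single i (MonoidAlgebra.single g r) := by
  classical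
  funext j
  by_cases hj : j = i
  · subst hj
    simp only [cp, Pi.single_eq_same]
    ext k
    rw [coeff_cpA]
    by_cases hk : g = k
    · subst hk
      simp [h]
    · simp [hk]
  · simp only [cp, Pi.single_eq_of_ne hj, cpA_zero]

theorem cp_single_not_mem [DecidableEq ι] (l : ι → X) (Z : Set X) (i : ι) (g : G) (r : R)
    (h : g • l i ∉ Z) :
    cp l Z (Pi.single i (MonoidAlgebra.single g r) : ι → MonoidAlgebra R G) = 0 := by
  classical
  funext j
  by_cases hj : j = i
  · subst hj
    simp only [cp, Pi.single_eq_same]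
    ext k
    rw [coeff_cpA]
    by_cases hk : g = k
    · subst hk
      simp [h]
    · simp [hk]
  · simp only [cp, Pi.single_eq_of_ne hj, cpA_zero]
    rfl

/-- Induction over vectors: sums of multiples of basis vectors. -/
theorem vec_induction [Fintype ι] [DecidableEq ι] {p : (ι → MonoidAlgebra R G) → Prop}
    (h0 : p 0) (hadd : ∀ x y, p x → p y → p (x + y))
    (hs : ∀ i g r, p (Pi.single i (MonoidAlgebra.single g r))) (x : ι → MonoidAlgebra R G) :
    p x := by
  have h1 : ∀ i (a : MonoidAlgebra R G), p (Pi.single i a) := by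
    intro i a
    induction a using MonoidAlgebra.induction_linear with
    | zero => rw [Pi.single_zero]; exact h0
    | add a b ha hb => rw [Pi.single_add]; exact hadd _ _ ha hb
    | single g r => exact hs i g r
  have h2 : x = ∑ i, Pi.single i (x i) := (Finset.univ_sum_single x).symm
  rw [h2]
  exact Finset.sum_induction _ p hadd h0 fun i _ => h1 i _

/-- a product with a matrix all of whose relevant components vanish -/
theorem eq_zero_of_cp [Fintype ι] [DecidableEq ι] {N : Type*} [AddCommGroup N] (l : ι → X)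
    (F : (ι → MonoidAlgebra R G) →+ N) (x : ι → MonoidAlgebra R G)
    (h : ∀ ξ : X, F (cp l {ξ} x) = 0) : F x = 0 := by
  classical
  -- a vector is the sum of its finitely many components
  have key : ∀ x : ι → MonoidAlgebra R G, ∃ s : Finset X, ∀ s' : Finset X, s ⊆ s' →
      ∑ ξ ∈ s', cp l {ξ} x = x := by
    intro x
    refine vec_induction (p := fun x => ∃ s : Finset X, ∀ s' : Finset X, s ⊆ s' →
      ∑ ξ ∈ s', cp l {ξ} x = x) ?_ ?_ ?_ x
    · exact ⟨∅, fun s' _ => Finset.sum_eq_zero fun ξ _ => cp_zero _ _⟩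
    · rintro x y ⟨s, hs⟩ ⟨t, ht⟩
      refine ⟨s ∪ t, fun s' hs' => ?_⟩
      simp only [cp_add, Finset.sum_add_distrib]
      rw [hs s' (Finset.union_subset_left hs'), ht s' (Finset.union_subset_right hs')]
    · intro i g r
      refine ⟨{g • l i}, fun s' hs' => ?_⟩
      rw [Finset.sum_eq_single (g • l i)]
      · exact cp_single_mem l _ i g r rfl
      · intro ξ _ hξ
        exact cp_single_not_mem l _ i g r fun h => hξ h.symm
      · intro h1
        exact absurd (hs' (Finset.mem_singleton_self _)) h1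
  obtain ⟨s, hs⟩ := key x
  rw [← hs s subset_rfl, map_sum]
  exact Finset.sum_eq_zero fun ξ _ => h ξ

/-- a vector is the sum of its finitely many components -/
theorem exists_sum_cp [Fintype ι] [DecidableEq ι] [DecidableEq X] (l : ι → X)
    (x : ι → MonoidAlgebra R G) : ∃ s : Finset X, (∀ s' : Finset X, s ⊆ s' →
      ∑ ξ ∈ s', cp l {ξ} x = x) ∧ ∀ ξ, ξ ∉ s → cp l {ξ} x = 0 := by
  classical
  refine vec_induction (p := fun x => ∃ s : Finset X, (∀ s' : Finset X, s ⊆ s' →
      ∑ ξ ∈ s', cp l {ξ} x = x) ∧ ∀ ξ, ξ ∉ s → cp l {ξ} x = 0) ?_ ?_ ?_ x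
  · exact ⟨∅, fun s' _ => Finset.sum_eq_zero fun ξ _ => cp_zero _ _, fun ξ _ => cp_zero _ _⟩
  · rintro x y ⟨s, hs, hs'⟩ ⟨t, ht, ht'⟩
    refine ⟨s ∪ t, fun s' h' => ?_, fun ξ hξ => ?_⟩
    · simp only [cp_add, Finset.sum_add_distrib]
      rw [hs s' (Finset.union_subset_left h'), ht s' (Finset.union_subset_right h')]
    · rw [Finset.mem_union, not_or] at hξ
      rw [cp_add, hs' ξ hξ.1, ht' ξ hξ.2, add_zero]
  · intro i g r
    refine ⟨{g • l i}, fun s' hs' => ?_, fun ξ hξ => ?_⟩
    · rw [Finset.sum_eq_single (g • l i)]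
      · exact cp_single_mem l _ i g r rfl
      · intro ξ _ hξ
        exact cp_single_not_mem l _ i g r fun h => hξ h.symm
      · intro h1
        exact absurd (hs' (Finset.mem_singleton_self _)) h1
    · apply cp_single_not_mem
      intro h
      exact hξ (Finset.mem_singleton.2 h.symm)

theorem vecMul_single' [Fintype ι] [DecidableEq ι] (i : ι) (a : MonoidAlgebra R G)
    (M : Matrix ι κ (MonoidAlgebra R G)) :
    (Pi.single i a : ι → MonoidAlgebra R G) ᵥ* M = fun j => a * M i j := by
  funext j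
  rw [Matrix.vecMul, dotProduct, Finset.sum_eq_single i]
  · rw [Pi.single_eq_same]
  · intro k _ hk
    rw [Pi.single_eq_of_ne hk, zero_mul]
  · intro h
    exact absurd (Finset.mem_univ _) h

/-- homogeneous matrices and components -/
theorem Hg.cp_vecMul [Fintype ι] {l : ι → X} {l' : κ → Y} {f : X → Y}
    (hf : ∀ (g : G) x, f (g • x) = g • f x) {M : Matrix ι κ (MonoidAlgebra R G)}
    (h : Hg l l' f M) (Z : Set Y) (x : ι → MonoidAlgebra R G) :
    cp l' Z (x ᵥ* M) = cp l (f ⁻¹' Z) x ᵥ* M := by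
  classical
  refine vec_induction (p := fun x => cp l' Z (x ᵥ* M) = cp l (f ⁻¹' Z) x ᵥ* M) ?_ ?_ ?_ x
  · rw [Matrix.zero_vecMul, cp_zero, cp_zero, Matrix.zero_vecMul]
  · intro x y hx hy
    rw [Matrix.add_vecMul, cp_add, cp_add, Matrix.add_vecMul, hx, hy]
  · intro i g r
    rw [vecMul_single']
    by_cases hi : g • l i ∈ f ⁻¹' Z
    · rw [cp_single_mem l _ i g r hi, vecMul_single']
      funext j
      change cpA _ (MonoidAlgebra.single g r * M i j) = MonoidAlgebra.single g r * M i j
      rw [cpA_single_mul]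
      congr 1
      ext k
      rw [coeff_cpA]
      by_cases hk : (M i j).coeff k = 0
      · rw [hk, ite_self]
      · rw [if_pos]
        change (g * k) • l' j ∈ Z
        rw [mul_smul, h i j k hk, ← hf]
        exact hi
    · rw [cp_single_not_mem l _ i g r hi, Matrix.zero_vecMul]
      funext j
      change cpA _ (MonoidAlgebra.single g r * M i j) = 0
      rw [cpA_single_mul]
      have : cpA {k | g * k ∈ {k : G | k • l' j ∈ Z}} (M i j) = 0 := by
        ext k
        rw [coeff_cpA]
        by_cases hk : (M i j).coeff k = 0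
        · rw [hk, ite_self]
          rfl
        · rw [if_neg]
          · rfl
          · change ¬ (g * k) • l' j ∈ Z
            rw [mul_smul, h i j k hk, ← hf]
            exact hi
      rw [this, mul_zero]

/-- parts of matrices along relations and components -/
theorem rp_vecMul [Fintype ι] {l : ι → X} {l' : κ → Y} {P : X → Y → Prop}
    (hP : ∀ (g : G) x y, P (g • x) (g • y) ↔ P x y) (M : Matrix ι κ (MonoidAlgebra R G))
    {ξ : X} {x : ι → MonoidAlgebra R G} (hx : cp l {ξ} x = x) :
    x ᵥ* rp l l' P M = cp l' {ζ | P ξ ζ} (x ᵥ* M) := by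
  classical
  have h : ∀ x : ι → MonoidAlgebra R G,
      cp l {ξ} x ᵥ* rp l l' P M = cp l' {ζ | P ξ ζ} (cp l {ξ} x ᵥ* M) := by
    intro x
    refine vec_induction (p := fun x => cp l {ξ} x ᵥ* rp l l' P M =
      cp l' {ζ | P ξ ζ} (cp l {ξ} x ᵥ* M)) ?_ ?_ ?_ x
    · rw [cp_zero, Matrix.zero_vecMul, Matrix.zero_vecMul, cp_zero]
    · intro x y hx hy
      rw [cp_add, Matrix.add_vecMul, Matrix.add_vecMul, cp_add, hx, hy]
    · intro i g r
      by_cases hi : g • l i = ξ
      · rw [cp_single_mem l _ i g r hi, vecMul_single', vecMul_single']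
        funext j
        change MonoidAlgebra.single g r * cpA _ (M i j) =
          cpA _ (MonoidAlgebra.single g r * M i j)
        rw [cpA_single_mul]
        congr 2
        ext k
        change P (l i) (k • l' j) ↔ P ξ ((g * k) • l' j)
        rw [← hi, mul_smul, hP]
      · rw [cp_single_not_mem l _ i g r hi, Matrix.zero_vecMul, Matrix.zero_vecMul, cp_zero]
  rw [← hx]
  exact h x

theorem row_eq_vecMul [Fintype ι] [DecidableEq ι] (i : ι) (M : Matrix ι κ (MonoidAlgebra R G)) :
    M i = (Pi.single i 1 : ι → MonoidAlgebra R G) ᵥ* M := by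
  rw [vecMul_single']
  funext j
  rw [one_mul]

theorem cp_single_one [DecidableEq ι] (l : ι → X) (i : ι) :
    cp l {l i} (Pi.single i 1 : ι → MonoidAlgebra R G) = Pi.single i 1 := by
  rw [MonoidAlgebra.one_def]
  exact cp_single_mem l _ i 1 1 (by rw [one_smul]; rfl)

/-- two matrices are equal if they agree on homogeneous vectors -/
theorem mat_ext_hom [Fintype ι] [DecidableEq ι] (l : ι → X)
    {M N : Matrix ι κ (MonoidAlgebra R G)}
    (h : ∀ (ξ : X) (x : ι → MonoidAlgebra R G), cp l {ξ} x = x → x ᵥ* M = x ᵥ* N) : M = N := by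
  refine Matrix.ext fun i j => ?_
  have h1 := h (l i) (Pi.single i 1) (cp_single_one l i)
  rw [← row_eq_vecMul, ← row_eq_vecMul] at h1
  exact congrFun h1 j

theorem hg_iff [Fintype ι] [DecidableEq ι] {l : ι → X} {l' : κ → Y} {f : X → Y}
    {M : Matrix ι κ (MonoidAlgebra R G)} :
    Hg l l' f M ↔ ∀ i, cp l' {f (l i)} (M i) = M i := by
  classical
  constructor
  · intro h i
    funext j
    ext g
    simp only [cp]
    rw [coeff_cpA]
    by_cases hg : (M i j).coeff g = 0
    · rw [hg, ite_self]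
    · rw [if_pos]
      exact h i j g hg
  · intro h i j g hg
    by_contra hne
    apply hg
    have h1 := congrArg (fun x : κ → MonoidAlgebra R G => (x j).coeff g) (h i)
    change (cpA {g : G | g • l' j ∈ ({f (l i)} : Set Y)} (M i j)).coeff g = (M i j).coeff g at h1
    rw [coeff_cpA, if_neg (show ¬ g ∈ {g : G | g • l' j ∈ ({f (l i)} : Set Y)} from hne)] at h1
    exact h1.symm

theorem hg_rp {l : ι → X} {l' : κ → Y} (f : X → Y) (M : Matrix ι κ (MonoidAlgebra R G)) :
    Hg l l' f (rp l l' (fun x y => y = f x) M) := by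
  classical
  intro i j g hg
  by_contra hne
  apply hg
  change (cpA _ (M i j)).coeff g = 0
  rw [coeff_cpA, if_neg]
  exact hne

theorem hg_one [DecidableEq ι] (l : ι → X) : Hg l l id (1 : Matrix ι ι (MonoidAlgebra R G)) := by
  classical
  intro i j g hg
  by_cases hij : i = j
  · subst hij
    rw [Matrix.one_apply_eq, MonoidAlgebra.one_def, MonoidAlgebra.coeff_single,
      Finsupp.single_apply] at hg
    have : (1 : G) = g := by
      by_contra h
      rw [if_neg h] at hg
      exact hg rfl
    rw [← this, one_smul]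
    rfl
  · rw [Matrix.one_apply_ne hij] at hg
    exact absurd rfl hg

theorem Hg.mul [Fintype κ] {l : ι → X} {l' : κ → Y} {l'' : μ → W} {f : X → Y} {f' : Y → W}
    (hf' : ∀ (g : G) x, f' (g • x) = g • f' x) {M : Matrix ι κ (MonoidAlgebra R G)}
    {N : Matrix κ μ (MonoidAlgebra R G)} (h : Hg l l' f M) (h' : Hg l' l'' f' N) :
    Hg l l'' (f' ∘ f) (M * N) := by
  classical
  intro i j g hg
  rw [Matrix.mul_apply, MonoidAlgebra.coeff_sum, Finsupp.finsetSum_apply] at hg
  obtain ⟨k, _, hk⟩ := Finset.exists_ne_zero_of_sum_ne_zero hg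
  rw [MonoidAlgebra.coeff_mul_apply_left, Finsupp.sum] at hk
  obtain ⟨a, ha, hk⟩ := Finset.exists_ne_zero_of_sum_ne_zero hk
  have h1 : (M i k).coeff a ≠ 0 := Finsupp.mem_support_iff.1 ha
  have h2 : (N k j).coeff (a⁻¹ * g) ≠ 0 := fun h => hk (by rw [h, mul_zero])
  have h3 := h' k j _ h2
  have h4 := h i k a h1
  change g • l'' j = f' (f (l i))
  rw [← h4, hf', ← h3, smul_smul, mul_inv_cancel_left]

theorem Hg.add {l : ι → X} {l' : κ → Y} {f : X → Y} {M N : Matrix ι κ (MonoidAlgebra R G)}
    (h : Hg l l' f M) (h' : Hg l l' f N) : Hg l l' f (M + N) := by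
  intro i j g hg
  by_cases h1 : (M i j).coeff g = 0
  · apply h' i j g
    intro h2
    apply hg
    rw [Matrix.add_apply, MonoidAlgebra.coeff_add, Finsupp.add_apply, h1, h2, add_zero]
  · exact h i j g h1

theorem Hg.neg {l : ι → X} {l' : κ → Y} {f : X → Y} {M : Matrix ι κ (MonoidAlgebra R G)}
    (h : Hg l l' f M) : Hg l l' f (-M) := by
  intro i j g hg
  apply h i j g
  intro h1
  apply hg
  change (-(M i j)).coeff g = 0
  rw [MonoidAlgebra.coeff_neg, Finsupp.neg_apply, h1, neg_zero]

theorem Hg.sub {l : ι → X} {l' : κ → Y} {f : X → Y} {M N : Matrix ι κ (MonoidAlgebra R G)}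
    (h : Hg l l' f M) (h' : Hg l l' f N) : Hg l l' f (M - N) := by
  rw [sub_eq_add_neg]
  exact h.add h'.neg

end Pool.Agent.Lib.MP_c052b4_al
end

section

/-!
# Classes of homogeneous matrices in `K₁`
-/

set_option autoImplicit false
set_option linter.unusedSectionVars false

namespace Pool.Agent.Lib.MP_c052b4_al

open Matrix Kern

universe u v w w'

section Blocks

/-- The class of a block diagonal matrix. -/
theorem k1_mem_of_blocks_aux {S : Type u} [Ring S] {Q : Type w} (H : AddSubgroup (KOne S)) :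
    ∀ (n : ℕ) {ι : Type} [Fintype ι] [DecidableEq ι] (l : ι → Q) (M : (Matrix ι ι S)ˣ),
      Fintype.card ι ≤ n → (∀ i j, l i ≠ l j → (M : Matrix ι ι S) i j = 0) →
      (∀ (μ : Type) [Fintype μ] [DecidableEq μ] (f : μ → ι), Function.Injective f →
        (∀ x y, l (f x) = l (f y)) → (∀ x i, l i = l (f x) → ∃ y, f y = i) →
        ∀ N : (Matrix μ μ S)ˣ, (N : Matrix μ μ S) = (M : Matrix ι ι S).submatrix f f →
          k1 N ∈ H) → k1 M ∈ H := by
  classical
  intro n
  induction n with
  | zero =>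
    intro ι _ _ l M hn _ _
    have : IsEmpty ι := Fintype.card_eq_zero_iff.1 (Nat.le_zero.1 hn)
    have h1 : M = 1 := Units.ext (Matrix.ext fun i => isEmptyElim i)
    rw [h1, k1_one]
    exact H.zero_mem
  | succ n ih =>
    intro ι _ _ l M hn hM h
    by_cases hι : IsEmpty ι
    · have h1 : M = 1 := Units.ext (Matrix.ext fun i => isEmptyElim i)
      rw [h1, k1_one]
      exact H.zero_mem
    rw [not_isEmpty_iff] at hι
    obtain ⟨i0⟩ := hι
    let P : ι → Prop := fun i => l i = l i0
    let e : {i // P i} ⊕ {i // ¬ P i} ≃ ι := Equiv.sumCompl P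
    let W : Matrix ι ι S := ((M⁻¹ : (Matrix ι ι S)ˣ) : Matrix ι ι S)
    have hMW : (M : Matrix ι ι S) * W = 1 := M.mul_inv
    have hWM : W * (M : Matrix ι ι S) = 1 := M.inv_mul
    let M11 := (M : Matrix ι ι S).submatrix (Subtype.val : {i // P i} → ι)
      (Subtype.val : {i // P i} → ι)
    let M22 := (M : Matrix ι ι S).submatrix (Subtype.val : {i // ¬ P i} → ι)
      (Subtype.val : {i // ¬ P i} → ι)
    let W11 := W.submatrix (Subtype.val : {i // P i} → ι) (Subtype.val : {i // P i} → ι)
    let W12 := W.submatrix (Subtype.val : {i // P i} → ι) (Subtype.val : {i // ¬ P i} → ι)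
    let W21 := W.submatrix (Subtype.val : {i // ¬ P i} → ι) (Subtype.val : {i // P i} → ι)
    let W22 := W.submatrix (Subtype.val : {i // ¬ P i} → ι) (Subtype.val : {i // ¬ P i} → ι)
    have hMe : (M : Matrix ι ι S).submatrix e e = fromBlocks M11 0 0 M22 := by
      refine Matrix.ext fun i j => ?_
      rcases i with i | i <;> rcases j with j | j
      · rfl
      · exact hM _ _ fun h' => j.2 (h'.symm.trans i.2)
      · exact hM _ _ fun h' => i.2 (h'.trans j.2)
      · rfl
    have hWe : W.submatrix e e = fromBlocks W11 W12 W21 W22 := by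
      refine Matrix.ext fun i j => ?_
      rcases i with i | i <;> rcases j with j | j <;> rfl
    have h1 : fromBlocks M11 0 0 M22 * fromBlocks W11 W12 W21 W22 = 1 := by
      rw [← hMe, ← hWe, Matrix.submatrix_mul_equiv, hMW, Matrix.submatrix_one_equiv]
    have h2 : fromBlocks W11 W12 W21 W22 * fromBlocks M11 0 0 M22 = 1 := by
      rw [← hMe, ← hWe, Matrix.submatrix_mul_equiv, hWM, Matrix.submatrix_one_equiv]
    rw [fromBlocks_multiply, ← fromBlocks_one, Matrix.fromBlocks_inj] at h1 h2
    simp only [Matrix.zero_mul, Matrix.mul_zero, add_zero, zero_add] at h1 h2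
    let N1 : (Matrix {i // P i} {i // P i} S)ˣ := ⟨M11, W11, h1.1, h2.1⟩
    let N2 : (Matrix {i // ¬ P i} {i // ¬ P i} S)ˣ := ⟨M22, W22, h1.2.2.2, h2.2.2.2⟩
    have h3 : rU e.symm M = bl N1 N2 := by
      apply Units.ext
      rw [coe_rU, coe_bl]
      exact hMe
    rw [← k1_rU e.symm M, h3, k1_bl]
    refine H.add_mem ?_ ?_
    · refine h _ Subtype.val Subtype.val_injective (fun x y => x.2.trans y.2.symm) ?_ N1 rfl
      intro x i hi
      exact ⟨⟨i, hi.trans x.2⟩, rfl⟩
    · refine ih (fun i => l i.1) N2 ?_ (fun i j hij => hM _ _ hij) ?_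
      · have h4 : Fintype.card {i // ¬ P i} < Fintype.card ι :=
          Fintype.card_subtype_lt (x := i0) (fun h' => h' rfl)
        omega
      · intro μ _ _ f hf hc hr N hN
        refine h μ (fun x => (f x).1) (fun x y hxy => hf (Subtype.ext hxy)) hc ?_ N hN
        intro x i hi
        have hi' : ¬ P i := fun h' => (f x).2 (hi.symm.trans h')
        obtain ⟨y, hy⟩ := hr x ⟨i, hi'⟩ hi
        exact ⟨y, congrArg Subtype.val hy⟩

/-- The class of a block diagonal matrix. -/
theorem k1_mem_of_blocks {S : Type u} [Ring S] {Q : Type w} (H : AddSubgroup (KOne S))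
    {ι : Type} [Fintype ι] [DecidableEq ι] (l : ι → Q) (M : (Matrix ι ι S)ˣ)
    (hM : ∀ i j, l i ≠ l j → (M : Matrix ι ι S) i j = 0)
    (h : ∀ (μ : Type) [Fintype μ] [DecidableEq μ] (f : μ → ι), Function.Injective f →
        (∀ x y, l (f x) = l (f y)) → (∀ x i, l i = l (f x) → ∃ y, f y = i) →
        ∀ N : (Matrix μ μ S)ˣ, (N : Matrix μ μ S) = (M : Matrix ι ι S).submatrix f f →
          k1 N ∈ H) : k1 M ∈ H :=
  k1_mem_of_blocks_aux H (Fintype.card ι) l M le_rfl hM h

/-- Conjugation by rectangular matrices. -/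
theorem k1_conj_rect {S : Type u} [Ring S] {m n : Type*} [Fintype m] [Fintype n] [DecidableEq m]
    [DecidableEq n] (b : Matrix m n S) (b' : Matrix n m S) (h1 : b * b' = 1) (h2 : b' * b = 1)
    (N : (Matrix n n S)ˣ) (N' : (Matrix m m S)ˣ)
    (h : (N' : Matrix m m S) = b * (N : Matrix n n S) * b') : k1 N' = k1 N := by
  have e1 : kk (b * (((N : Matrix n n S) - 1) * b')) = kk ((((N : Matrix n n S) - 1) * b') * b) :=
    kk_comm _ _
  rw [Matrix.mul_assoc _ b' b, h2, Matrix.mul_one] at e1
  rw [kk_eq N (by abel)] at e1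
  rw [← e1]
  symm
  apply kk_eq
  rw [h, Matrix.sub_mul, Matrix.one_mul, Matrix.mul_sub, h1, Matrix.mul_assoc]
  abel

end Blocks

section Restrict

variable {R : Type u} [Ring R] {G : Type v} [Group G]

/-- Restriction to a subgroup. -/
noncomputable def rsG (H : Subgroup G) (a : MonoidAlgebra R G) : MonoidAlgebra R H :=
  MonoidAlgebra.ofCoeff (a.coeff.comapDomain Subtype.val Subtype.val_injective.injOn)

theorem coeff_rsG (H : Subgroup G) (a : MonoidAlgebra R G) (h : H) :
    (rsG H a).coeff h = a.coeff (h : G) := rfl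

theorem rsG_add (H : Subgroup G) (a b : MonoidAlgebra R G) :
    rsG H (a + b) = rsG H a + rsG H b := by
  ext h
  rw [coeff_rsG, MonoidAlgebra.coeff_add, MonoidAlgebra.coeff_add, Finsupp.add_apply,
    Finsupp.add_apply, coeff_rsG, coeff_rsG]

theorem rsG_zero (H : Subgroup G) : rsG H (0 : MonoidAlgebra R G) = 0 := by
  ext h
  rfl

theorem rsG_sum {ι : Type*} (H : Subgroup G) (s : Finset ι) (a : ι → MonoidAlgebra R G) :
    rsG H (∑ i ∈ s, a i) = ∑ i ∈ s, rsG H (a i) := by
  classical
  induction s using Finset.induction_on with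
  | empty => rw [Finset.sum_empty, Finset.sum_empty, rsG_zero]
  | insert i s hi ih => rw [Finset.sum_insert hi, Finset.sum_insert hi, rsG_add, ih]

theorem rsG_inc_mul (H : Subgroup G) (b : MonoidAlgebra R H) (a : MonoidAlgebra R G) :
    rsG H (inc R H.subtype b * a) = b * rsG H a := by
  induction b using MonoidAlgebra.induction_linear with
  | zero => rw [map_zero, zero_mul, zero_mul, rsG_zero]
  | add x y hx hy => rw [map_add, add_mul, add_mul, rsG_add, hx, hy]
  | single h r =>
    have h1 : inc R H.subtype (MonoidAlgebra.single h r) = MonoidAlgebra.single (h : G) r := by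
      simp
    rw [h1]
    ext k
    rw [coeff_rsG, MonoidAlgebra.coeff_single_mul_apply, MonoidAlgebra.coeff_single_mul_apply,
      coeff_rsG]
    rfl

theorem rsG_mul_inc (H : Subgroup G) (a : MonoidAlgebra R G) (b : MonoidAlgebra R H) :
    rsG H (a * inc R H.subtype b) = rsG H a * b := by
  induction b using MonoidAlgebra.induction_linear with
  | zero => rw [map_zero, mul_zero, mul_zero, rsG_zero]
  | add x y hx hy => rw [map_add, mul_add, mul_add, rsG_add, hx, hy]
  | single h r =>
    have h1 : inc R H.subtype (MonoidAlgebra.single h r) = MonoidAlgebra.single (h : G) r := by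
      simp
    rw [h1]
    ext k
    rw [coeff_rsG, MonoidAlgebra.coeff_mul_single_apply, MonoidAlgebra.coeff_mul_single_apply,
      coeff_rsG]
    rfl

theorem rsG_one (H : Subgroup G) : rsG H (1 : MonoidAlgebra R G) = 1 := by
  classical
  ext k
  rw [coeff_rsG, MonoidAlgebra.one_def, MonoidAlgebra.one_def, MonoidAlgebra.coeff_single,
    MonoidAlgebra.coeff_single, Finsupp.single_apply, Finsupp.single_apply]
  by_cases hk : (1 : H) = k
  · rw [if_pos hk, if_pos (show (1 : G) = k from congrArg Subtype.val hk)]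
  · rw [if_neg hk, if_neg (fun h' : (1 : G) = k => hk (Subtype.ext h'))]

theorem inc_rsG (H : Subgroup G) {a : MonoidAlgebra R G} (ha : ∀ g, a.coeff g ≠ 0 → g ∈ H) :
    inc R H.subtype (rsG H a) = a := by
  ext g
  by_cases hg : g ∈ H
  · have h1 := coeff_inc H.subtype H.subtype_injective (rsG H a) ⟨g, hg⟩
    change (inc R H.subtype (rsG H a)).coeff g = _ at h1
    rw [h1, coeff_rsG]
  · have h1 : a.coeff g = 0 := by
      by_contra h'
      exact hg (ha g h')
    rw [h1]
    apply sup_inc H.subtype (rsG H a) g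
    rintro ⟨x, rfl⟩
    exact hg x.2

theorem exists_unit_lift (H : Subgroup G) {ι : Type*} [Fintype ι] [DecidableEq ι]
    (N : (Matrix ι ι (MonoidAlgebra R G))ˣ)
    (hN : ∀ i j g, ((N : Matrix ι ι (MonoidAlgebra R G)) i j).coeff g ≠ 0 → g ∈ H) :
    ∃ N0 : (Matrix ι ι (MonoidAlgebra R H))ˣ, mU (inc R H.subtype) N0 = N := by
  have h0 : ∀ i j, inc R H.subtype (rsG H ((N : Matrix ι ι (MonoidAlgebra R G)) i j)) =
      (N : Matrix ι ι (MonoidAlgebra R G)) i j := fun i j => inc_rsG H (hN i j)
  have h1 : (Matrix.of fun i j => rsG H ((N : Matrix ι ι (MonoidAlgebra R G)) i j)) *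
      (Matrix.of fun i j => rsG H (((N⁻¹ : (Matrix ι ι (MonoidAlgebra R G))ˣ) :
        Matrix ι ι (MonoidAlgebra R G)) i j)) = 1 := by
    refine Matrix.ext fun i j => ?_
    rw [Matrix.mul_apply]
    simp only [Matrix.of_apply]
    have e1 : ∀ k, rsG H ((N : Matrix ι ι (MonoidAlgebra R G)) i k) *
        rsG H (((N⁻¹ : (Matrix ι ι (MonoidAlgebra R G))ˣ) :
        Matrix ι ι (MonoidAlgebra R G)) k j) = rsG H ((N : Matrix ι ι (MonoidAlgebra R G)) i k *
          ((N⁻¹ : (Matrix ι ι (MonoidAlgebra R G))ˣ) :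
        Matrix ι ι (MonoidAlgebra R G)) k j) := by
      intro k
      rw [← rsG_inc_mul, h0]
    simp only [e1]
    rw [← rsG_sum, ← Matrix.mul_apply, Units.mul_inv]
    by_cases hij : i = j
    · subst hij
      rw [Matrix.one_apply_eq, Matrix.one_apply_eq, rsG_one]
    · rw [Matrix.one_apply_ne hij, Matrix.one_apply_ne hij, rsG_zero]
  have h2 : (Matrix.of fun i j => rsG H (((N⁻¹ : (Matrix ι ι (MonoidAlgebra R G))ˣ) :
        Matrix ι ι (MonoidAlgebra R G)) i j)) *
      (Matrix.of fun i j => rsG H ((N : Matrix ι ι (MonoidAlgebra R G)) i j)) = 1 := by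
    refine Matrix.ext fun i j => ?_
    rw [Matrix.mul_apply]
    simp only [Matrix.of_apply]
    have e1 : ∀ k, rsG H (((N⁻¹ : (Matrix ι ι (MonoidAlgebra R G))ˣ) :
        Matrix ι ι (MonoidAlgebra R G)) i k) * rsG H ((N : Matrix ι ι (MonoidAlgebra R G)) k j) =
        rsG H (((N⁻¹ : (Matrix ι ι (MonoidAlgebra R G))ˣ) :
        Matrix ι ι (MonoidAlgebra R G)) i k * (N : Matrix ι ι (MonoidAlgebra R G)) k j) := by
      intro k
      rw [← rsG_mul_inc, h0]
    simp only [e1]
    rw [← rsG_sum, ← Matrix.mul_apply, Units.inv_mul]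
    by_cases hij : i = j
    · subst hij
      rw [Matrix.one_apply_eq, Matrix.one_apply_eq, rsG_one]
    · rw [Matrix.one_apply_ne hij, Matrix.one_apply_ne hij, rsG_zero]
  refine ⟨⟨_, _, h1, h2⟩, Units.ext (Matrix.ext fun i j => ?_)⟩
  exact h0 i j

end Restrict

section Reps

variable {G : Type v} [Group G] {V : Type w} [MulAction G V]

/-- Representatives of the orbits. -/
theorem exists_reps (G : Type v) [Group G] (V : Type w) [MulAction G V] :
    ∃ (ρ : V → V) (γ : V → G), (∀ v, γ v • ρ v = v) ∧ ∀ (g : G) v, ρ (g • v) = ρ v := by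
  classical
  let ρ : V → V := fun v => Quotient.out (Quotient.mk (MulAction.orbitRel G V) v)
  have h1 : ∀ v, ∃ g : G, g • ρ v = v := by
    intro v
    have h2 : (MulAction.orbitRel G V).r (ρ v) v := Quotient.exact (Quotient.out_eq _)
    have h3 : ρ v ∈ MulAction.orbit G v := MulAction.orbitRel_apply.1 h2
    obtain ⟨g, hg⟩ := h3
    have hg' : g • v = ρ v := hg
    exact ⟨g⁻¹, by rw [← hg', inv_smul_smul]⟩
  choose γ hγ using h1
  refine ⟨ρ, γ, hγ, fun g v => ?_⟩
  have h4 : Quotient.mk (MulAction.orbitRel G V) (g • v) = Quotient.mk _ v :=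
    Quotient.sound (MulAction.orbitRel_apply.2 ⟨g, rfl⟩)
  change Quotient.out _ = Quotient.out _
  rw [h4]

theorem reps_eq {ρ : V → V} {γ : V → G} (h1 : ∀ v, γ v • ρ v = v)
    (h2 : ∀ (g : G) v, ρ (g • v) = ρ v) {g : G} {v w : V} (h : g • ρ v = ρ w) : ρ v = ρ w := by
  have h3 : ∀ v, ρ (ρ v) = ρ v := by
    intro v
    have h4 := h2 (γ v) (ρ v)
    rw [h1] at h4
    exact h4.symm
  have h5 := h2 g (ρ v)
  rw [h, h3, h3] at h5
  exact h5.symm

end Reps

section Diag

variable {R : Type u} [Ring R] {G : Type v} [Group G]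

/-- Diagonal matrices of group elements. -/
noncomputable def dg (R : Type u) [Ring R] {ι : Type*} [Fintype ι] [DecidableEq ι] (u : ι → G) :
    (Matrix ι ι (MonoidAlgebra R G))ˣ where
  val := Matrix.diagonal fun i => MonoidAlgebra.single (u i) 1
  inv := Matrix.diagonal fun i => MonoidAlgebra.single (u i)⁻¹ 1
  val_inv := by
    rw [Matrix.diagonal_mul_diagonal, ← Matrix.diagonal_one]
    congr 1
    funext i
    rw [MonoidAlgebra.single_mul_single, mul_inv_cancel, one_mul]
    rfl
  inv_val := by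
    rw [Matrix.diagonal_mul_diagonal, ← Matrix.diagonal_one]
    congr 1
    funext i
    rw [MonoidAlgebra.single_mul_single, inv_mul_cancel, one_mul]
    rfl

theorem coe_dg {ι : Type*} [Fintype ι] [DecidableEq ι] (u : ι → G) :
    ((dg R u : (Matrix ι ι (MonoidAlgebra R G))ˣ) : Matrix ι ι (MonoidAlgebra R G)) =
      Matrix.diagonal fun i => MonoidAlgebra.single (u i) 1 := rfl

theorem coe_dg_inv {ι : Type*} [Fintype ι] [DecidableEq ι] (u : ι → G) :
    (((dg R u)⁻¹ : (Matrix ι ι (MonoidAlgebra R G))ˣ) : Matrix ι ι (MonoidAlgebra R G)) =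
      Matrix.diagonal fun i => MonoidAlgebra.single (u i)⁻¹ 1 := rfl

/-- base change of a homogeneous matrix -/
theorem hg_dg {V : Type w} [MulAction G V] {ρ : V → V} {γ : V → G} (h1 : ∀ v, γ v • ρ v = v)
    {ι κ : Type*} [Fintype ι] [Fintype κ] [DecidableEq ι] [DecidableEq κ] {l : ι → V} {l' : κ → V}
    {M : Matrix ι κ (MonoidAlgebra R G)} (hM : Hg l l' id M) :
    Hg (ρ ∘ l) (ρ ∘ l') id ((((dg R (γ ∘ l))⁻¹ : (Matrix ι ι (MonoidAlgebra R G))ˣ) :
      Matrix ι ι (MonoidAlgebra R G)) * M * ((dg R (γ ∘ l') : (Matrix κ κ (MonoidAlgebra R G))ˣ) :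
        Matrix κ κ (MonoidAlgebra R G))) := by
  intro i j g hg
  rw [coe_dg, coe_dg_inv, Matrix.mul_diagonal, Matrix.diagonal_mul,
    MonoidAlgebra.coeff_mul_single_apply, MonoidAlgebra.coeff_single_mul_apply, mul_one, one_mul,
    inv_inv] at hg
  have h2 := hM i j _ hg
  change g • ρ (l' j) = ρ (l i)
  change (γ (l i) * (g * (γ (l' j))⁻¹)) • l' j = l i at h2
  have h3 : (γ (l' j))⁻¹ • l' j = ρ (l' j) := by
    rw [inv_smul_eq_iff, h1]
  rw [mul_smul, mul_smul, h3] at h2
  exact smul_left_cancel (γ (l i)) (h2.trans (h1 (l i)).symm)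

end Diag

end Pool.Agent.Lib.MP_c052b4_al
end
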