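import Pool.Agent.Lib.MP_c052b4_al.Mg.G067
import Pool.Agent.Lib.MP_c052b4_al.Mg.G068
import Pool.Agent.Lib.MP_c052b4_al.NilK

section

/-!
# Resolving submodules of complexes of perfect modules

`RQ C n M X L`: the submodule `L` of `M` is the image of a resolving submodule of a complex of
finitely generated free modules of length `n` mapping to `X`.
-/

set_option autoImplicit false
set_option linter.unusedSectionVars false

namespace Pool.Agent.Lib.MP_c052b4_al

open Matrix

universe u v w

/-- iterated resolving covers -/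
def RQ (C : Type u) [Ring C] : ℕ → ∀ (M : Type u) [AddCommGroup M] [Module C M],
    Submodule C M → Submodule C M → Prop
  | 0 => fun _ _ _ _ L => L = ⊥
  | n + 1 => fun _ _ _ X L => ∃ (k : ℕ) (ρ : (Fin k → C) →ₗ[C] _)
      (L' : Submodule C (Fin k → C)), LinearMap.range ρ ≤ X ∧ L'.map ρ = L ∧
        RQ C n (Fin k → C) (LinearMap.ker ρ) (L' ⊓ LinearMap.ker ρ)

section

variable {C : Type u} [Ring C] {M M' W : Type u} [AddCommGroup M] [Module C M] [AddCommGroup M']
  [Module C M'] [AddCommGroup W] [Module C W]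

theorem RQ.transport {n : ℕ} {X L : Submodule C M} (h : RQ C n M X L) (g : X →ₗ[C] M')
    (hg : Function.Injective g) {X' : Submodule C M'} (hX : LinearMap.range g ≤ X') :
    RQ C n M' X' ((L.comap X.subtype).map g) := by
  cases n with
  | zero =>
    have h' : L = ⊥ := h
    change (L.comap X.subtype).map g = ⊥
    rw [h', Submodule.comap_bot, Submodule.ker_subtype, Submodule.map_bot]
  | succ n =>
    obtain ⟨k, ρ, L', h1, h2, h3⟩ := h
    have hmem : ∀ x, ρ x ∈ X := fun x => h1 ⟨x, rfl⟩
    have hk : LinearMap.ker (g ∘ₗ ρ.codRestrict X hmem) = LinearMap.ker ρ := by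
      ext x
      rw [LinearMap.mem_ker, LinearMap.comp_apply, LinearMap.mem_ker,
        map_eq_zero_iff g hg]
      constructor
      · intro h
        exact congrArg Subtype.val h
      · intro h
        exact Subtype.ext h
    refine ⟨k, g ∘ₗ ρ.codRestrict X hmem, L', ?_, ?_, ?_⟩
    · rintro _ ⟨x, rfl⟩
      exact hX ⟨_, rfl⟩
    · rw [Submodule.map_comp]
      congr 1
      ext y
      rw [Submodule.mem_map, Submodule.mem_comap, ← h2, Submodule.mem_map]
      constructor
      · rintro ⟨x, hx, hxy⟩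
        exact ⟨x, hx, congrArg Subtype.val hxy⟩
      · rintro ⟨x, hx, hxy⟩
        exact ⟨x, hx, Subtype.ext hxy⟩
    · rw [hk]
      exact h3

theorem RQ.step_proj {n : ℕ} [Module.Finite C W] [Module.Projective C W] (ρ : W →ₗ[C] M)
    (L' : Submodule C W) {X L : Submodule C M} (h1 : LinearMap.range ρ ≤ X) (h2 : L'.map ρ = L)
    (h : RQ C n W (LinearMap.ker ρ) (L' ⊓ LinearMap.ker ρ)) : RQ C (n + 1) M X L := by
  obtain ⟨k, s, hs⟩ := Module.Finite.exists_fin' C W
  obtain ⟨i, hi⟩ := Module.projective_lifting_property s LinearMap.id hs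
  have hi' : ∀ x, s (i x) = x := fun x => LinearMap.congr_fun hi x
  have hinj : Function.Injective i := fun x y h => by rw [← hi' x, h, hi']
  refine ⟨k, ρ ∘ₗ s, L'.map i, ?_, ?_, ?_⟩
  · rintro _ ⟨x, rfl⟩
    exact h1 ⟨_, rfl⟩
  · rw [← Submodule.map_comp, LinearMap.comp_assoc, hi, LinearMap.comp_id, h2]
  · have h3 := h.transport (i.domRestrict (LinearMap.ker ρ)) (fun x y h => Subtype.ext (hinj h))
      (X' := LinearMap.ker (ρ ∘ₗ s)) (by
        rintro _ ⟨x, rfl⟩
        change ρ (s (i x)) = 0
        rw [hi']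
        exact x.2)
    convert h3 using 1
    ext y
    constructor
    · rintro ⟨⟨x, hx, rfl⟩, hx2⟩
      have hx3 : ρ x = 0 := by
        have : ρ (s (i x)) = 0 := hx2
        rwa [hi'] at this
      exact ⟨⟨x, hx3⟩, ⟨hx, hx3⟩, rfl⟩
    · rintro ⟨⟨x, hx3⟩, ⟨hx, -⟩, rfl⟩
      refine ⟨⟨x, hx, rfl⟩, ?_⟩
      change ρ (s (i x)) = 0
      rw [hi']
      exact hx3

theorem RQ.step_res (d : ℕ) : ∀ {n : ℕ} {M W : Type u} [AddCommGroup M] [Module C M]
    [AddCommGroup W] [Module C W] (_ : HasRes (RingHom.id C) d W) (ρ : W →ₗ[C] M)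
    (L' : Submodule C W) {X L : Submodule C M} (_ : LinearMap.range ρ ≤ X) (_ : L'.map ρ = L)
    (_ : RQ C n W (LinearMap.ker ρ) (L' ⊓ LinearMap.ker ρ)), ∃ n', RQ C n' M X L := by
  induction d with
  | zero =>
    intro n M W _ _ _ _ hW ρ L' X L h1 h2 h
    have hW' : Good (RingHom.id C) W := hW
    have := hW'.finite
    have := hW'.projective
    exact ⟨n + 1, RQ.step_proj ρ L' h1 h2 h⟩
  | succ d ih =>
    intro n M W _ _ _ _ hW ρ L' X L h1 h2 h
    obtain ⟨m, q, hq, hZ⟩ := hW
    suffices H : ∃ n', RQ C n' (Fin m → C) (LinearMap.ker (ρ ∘ₗ q))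
        (L'.comap q ⊓ LinearMap.ker (ρ ∘ₗ q)) by
      obtain ⟨n', hn'⟩ := H
      refine ⟨n' + 1, RQ.step_proj (ρ ∘ₗ q) (L'.comap q) ?_ ?_ hn'⟩
      · rintro _ ⟨x, rfl⟩
        exact h1 ⟨_, rfl⟩
      · rw [Submodule.map_comp, Submodule.map_comap_eq_of_surjective hq, h2]
    cases n with
    | zero =>
      have h' : L' ⊓ LinearMap.ker ρ = ⊥ := h
      refine ih (n := 0) hZ (LinearMap.ker q).subtype ⊤ ?_ ?_ ?_
      · rintro _ ⟨x, rfl⟩
        change ρ (q x) = 0
        have : q x = 0 := x.2
        rw [this, map_zero]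
      · rw [Submodule.map_top, Submodule.range_subtype]
        ext x
        constructor
        · intro hx
          have hx' : q x = 0 := hx
          refine ⟨?_, ?_⟩
          · change q x ∈ L'
            rw [hx']
            exact L'.zero_mem
          · change ρ (q x) = 0
            rw [hx', map_zero]
        · rintro ⟨hx1, hx2⟩
          have : q x ∈ L' ⊓ LinearMap.ker ρ := ⟨hx1, hx2⟩
          rw [h'] at this
          exact this
      · change ⊤ ⊓ LinearMap.ker (LinearMap.ker q).subtype = ⊥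
        rw [Submodule.ker_subtype, inf_bot_eq]
    | succ n =>
      obtain ⟨k, ρV, LV, hV1, hV2, hV3⟩ := h
      obtain ⟨θ, hθ⟩ := Module.projective_lifting_property q ρV hq
      have hθ' : ∀ x, q (θ x) = ρV x := fun x => LinearMap.congr_fun hθ x
      have hW1 : HasRes (RingHom.id C) d ((Fin k → C) × LinearMap.ker q) := by
        refine HasRes.ext (B := LinearMap.ker q) (A := Fin k → C) (LinearMap.inr C _ _)
          (LinearMap.fst C _ _) LinearMap.inr_injective LinearMap.fst_surjective
          (LinearMap.range_inr C _ _) hZ ?_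
        exact HasRes.mono (Nat.zero_le d) (show HasRes (RingHom.id C) 0 (Fin k → C) from
          good_free (RingHom.id C) (Fin k))
      let ρ1 : (Fin k → C) × LinearMap.ker q →ₗ[C] (Fin m → C) :=
        θ.coprod (LinearMap.ker q).subtype
      have hρ1 : ∀ x, ρ1 x = θ x.1 + (x.2 : Fin m → C) := fun x => rfl
      have hqρ : ∀ x, q (ρ1 x) = ρV x.1 := by
        intro x
        rw [hρ1, map_add, hθ']
        have : q (x.2 : Fin m → C) = 0 := x.2.2
        rw [this, add_zero]
      refine ih (n := n) hW1 ρ1 (LV.prod ⊤) ?_ ?_ ?_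
      · rintro _ ⟨x, rfl⟩
        change ρ (q (ρ1 x)) = 0
        rw [hqρ]
        exact hV1 ⟨_, rfl⟩
      · ext x
        constructor
        · rintro ⟨y, ⟨hy1, -⟩, rfl⟩
          have h3 : ρV y.1 ∈ L' ⊓ LinearMap.ker ρ := by
            rw [← hV2]
            exact ⟨_, hy1, rfl⟩
          refine ⟨?_, ?_⟩
          · change q (ρ1 y) ∈ L'
            rw [hqρ]
            exact h3.1
          · change ρ (q (ρ1 y)) = 0
            rw [hqρ]
            exact h3.2
        · rintro ⟨hx1, hx2⟩
          have h3 : q x ∈ L' ⊓ LinearMap.ker ρ := ⟨hx1, hx2⟩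
          rw [← hV2] at h3
          obtain ⟨y, hy, hyx⟩ := h3
          have h4 : q (x - θ y) = 0 := by rw [map_sub, hθ', hyx, sub_self]
          refine ⟨(y, ⟨x - θ y, h4⟩), ⟨hy, trivial⟩, ?_⟩
          rw [hρ1]
          change θ y + (x - θ y) = x
          abel
      · have h4 : ∀ x : LinearMap.ker ρV, q (- θ (x : Fin k → C)) = 0 := by
          intro x
          have : ρV (x : Fin k → C) = 0 := x.2
          rw [map_neg, hθ', this, neg_zero]
        let g : LinearMap.ker ρV →ₗ[C] (Fin k → C) × LinearMap.ker q :=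
          LinearMap.prod (LinearMap.ker ρV).subtype
            (LinearMap.codRestrict (LinearMap.ker q) (-(θ ∘ₗ (LinearMap.ker ρV).subtype)) h4)
        have hg1 : ∀ x, (g x).1 = (x : Fin k → C) := fun x => rfl
        have hg2 : ∀ x, ((g x).2 : Fin m → C) = - θ (x : Fin k → C) := fun x => rfl
        have h5 := hV3.transport g (fun x y h => Subtype.ext (by
          rw [← hg1, ← hg1, h])) (X' := LinearMap.ker ρ1) (by
          rintro _ ⟨x, rfl⟩
          rw [LinearMap.mem_ker, hρ1, hg1, hg2, add_neg_cancel])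
        convert h5 using 1
        ext y
        constructor
        · rintro ⟨⟨hy1, -⟩, hy2⟩
          have hy3 : θ y.1 + (y.2 : Fin m → C) = 0 := hy2
          have hy4 : ρV y.1 = 0 := by
            rw [← hqρ, hρ1, hy3, map_zero]
          refine ⟨⟨y.1, hy4⟩, ⟨hy1, hy4⟩, ?_⟩
          refine Prod.ext rfl (Subtype.ext ?_)
          rw [hg2]
          exact (eq_neg_of_add_eq_zero_right hy3).symm
        · rintro ⟨x, ⟨hx1, -⟩, rfl⟩
          refine ⟨⟨hx1, trivial⟩, ?_⟩
          change ρ1 (g x) = 0
          rw [hρ1, hg1, hg2, add_neg_cancel]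

theorem RQ.step {n : ℕ} (hW : Perf C W) (ρ : W →ₗ[C] M) (L' : Submodule C W)
    {X L : Submodule C M} (h1 : LinearMap.range ρ ≤ X) (h2 : L'.map ρ = L)
    (h : RQ C n W (LinearMap.ker ρ) (L' ⊓ LinearMap.ker ρ)) : ∃ n', RQ C n' M X L := by
  obtain ⟨d, hd⟩ := hW
  exact RQ.step_res d hd ρ L' h1 h2 h

end

section ToDM

variable {C : Type u} [Ring C]

/-- the complex with the new module in degree zero -/
abbrev sDM (k : ℕ) (V : DM C) (ρ : Matrix V.t (Fin k) C) (hρ : ∀ i, V.deg i ≠ 0 → ρ i = 0)
    (hD : V.D * ρ = 0) : DM C where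
  t := Fin k ⊕ V.t
  deg := Sum.elim (fun _ => 0) (fun i => V.deg i + 1)
  D := Matrix.fromBlocks 0 0 ρ V.D
  hD := by
    rintro (i | i) (j | j) h
    · exact absurd rfl h
    · exact absurd rfl h
    · change V.deg i + 1 = 0 + 1
      by_contra hne
      exact h (congrFun (hρ i (by omega)) j)
    · change V.deg i + 1 = V.deg j + 1 + 1
      rw [V.hD i j h]
  sq := by
    rw [Matrix.fromBlocks_multiply, V.sq, hD]
    simp

/-- from iterated covers to complexes -/
theorem RQ.exists_dm (n : ℕ) : ∀ {m : ℕ} {X L : Submodule C (Fin m → C)},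
    RQ C n (Fin m → C) X L → ∃ (V : DM C) (ρ : Matrix V.t (Fin m) C)
      (L' : Submodule C (V.t → C)), (∀ x, x ᵥ* ρ ∈ X) ∧ Rz V ρ L' ∧
        ∀ x, x ∈ L ↔ ∃ y ∈ L', y ᵥ* ρ = x := by
  induction n with
  | zero =>
    intro m X L h
    have h' : L = ⊥ := h
    let V : DM C :=
      { t := Empty
        deg := fun _ => 0
        D := 0
        hD := fun i => i.elim
        sq := Matrix.mul_zero _ }
    refine ⟨V, 0, ⊥, fun x => ?_, ⟨fun i => i.elim, Matrix.zero_mul _, ?_, ?_, ?_⟩, ?_⟩
    · rw [Matrix.vecMul_zero]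
      exact X.zero_mem
    · intro x _ k
      have : prt V.deg k x = 0 := funext fun i => i.elim
      rw [this]
      exact Submodule.zero_mem _
    · intro x _
      have : x ᵥ* V.D = 0 := funext fun i => i.elim
      rw [this]
      exact Submodule.zero_mem _
    · intro x _ _ _
      exact ⟨0, Submodule.zero_mem _, funext fun i => i.elim⟩
    · intro x
      rw [h', Submodule.mem_bot]
      constructor
      · rintro rfl
        exact ⟨0, Submodule.zero_mem _, Matrix.zero_vecMul _⟩
      · rintro ⟨y, -, rfl⟩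
        exact Matrix.vecMul_zero _
  | succ n ih =>
    intro m X L h
    obtain ⟨k, ρ, L', h1, h2, h3⟩ := h
    obtain ⟨V, ρ', LV, hV1, hV2, hV3⟩ := ih h3
    obtain ⟨P, hP⟩ : ∃ P : Matrix (Fin k) (Fin m) C, ∀ x, x ᵥ* P = ρ x :=
      exists_mat ρ
    let J : Submodule C (Fin k ⊕ V.t → C) :=
      L'.comap (LinearMap.funLeft C C Sum.inl) ⊓ LV.comap (LinearMap.funLeft C C Sum.inr)
    have hJ : ∀ x, x ∈ J ↔ x ∘ Sum.inl ∈ L' ∧ x ∘ Sum.inr ∈ LV := fun x => Iff.rfl
    have hDx : ∀ x : Fin k ⊕ V.t → C, x ᵥ* (sDM k V ρ' hV2.p0 hV2.Dp).D =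
        Sum.elim ((x ∘ Sum.inr) ᵥ* ρ') ((x ∘ Sum.inr) ᵥ* V.D) := by
      intro x
      rw [Matrix.vecMul_fromBlocks, Matrix.vecMul_zero, Matrix.vecMul_zero, zero_add, zero_add]
    have hπx : ∀ x : Fin k ⊕ V.t → C, x ᵥ* (Matrix.fromRows P 0 : Matrix (Fin k ⊕ V.t) (Fin m) C)
        = ρ (x ∘ Sum.inl) := by
      intro x
      rw [Matrix.vecMul_fromRows, Matrix.vecMul_zero, add_zero, hP]
    have hmem : ∀ x ∈ LV, x ᵥ* ρ' ∈ L' ⊓ LinearMap.ker ρ := fun x hx =>
      (hV3 _).2 ⟨x, hx, rfl⟩
    refine ⟨sDM k V ρ' hV2.p0 hV2.Dp, Matrix.fromRows P 0, J, ?_, ⟨?_, ?_, ?_, ?_, ?_⟩, ?_⟩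
    · intro x
      rw [hπx]
      exact h1 ⟨_, rfl⟩
    · rintro (i | i) hi
      · exact absurd rfl hi
      · rfl
    · rw [Matrix.fromBlocks_mul_fromRows]
      have : ρ' * P = 0 := by
        funext i
        have h4 := hV1 (Pi.single i 1)
        rw [Matrix.single_one_vecMul] at h4
        rw [row_vecMul, hP]
        exact h4
      rw [this]
      simp
    · rintro x hx j
      rw [hJ] at hx ⊢
      cases j with
      | zero =>
        refine ⟨hx.1, ?_⟩
        have : prt (sDM k V ρ' hV2.p0 hV2.Dp).deg 0 x ∘ Sum.inr = 0 := by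
          funext i
          change (if V.deg i + 1 = 0 then x (Sum.inr i) else 0) = 0
          rw [if_neg (Nat.succ_ne_zero _)]
        rw [this]
        exact LV.zero_mem
      | succ j =>
        refine ⟨?_, ?_⟩
        · have : prt (sDM k V ρ' hV2.p0 hV2.Dp).deg (j + 1) x ∘ Sum.inl = 0 := by
            funext i
            change (if 0 = j + 1 then x (Sum.inl i) else 0) = 0
            rw [if_neg (Nat.succ_ne_zero _).symm]
          rw [this]
          exact L'.zero_mem
        · have : prt (sDM k V ρ' hV2.p0 hV2.Dp).deg (j + 1) x ∘ Sum.inr =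
              prt V.deg j (x ∘ Sum.inr) := by
            funext i
            change (if V.deg i + 1 = j + 1 then x (Sum.inr i) else 0) =
              if V.deg i = j then x (Sum.inr i) else 0
            simp only [Nat.add_right_cancel_iff]
          rw [this]
          exact hV2.gr _ hx.2 j
    · rintro x hx
      rw [hJ] at hx
      rw [hDx, hJ, Sum.elim_comp_inl, Sum.elim_comp_inr]
      exact ⟨(hmem _ hx.2).1, hV2.st _ hx.2⟩
    · rintro x hx hxD hxπ
      rw [hJ] at hx
      rw [hDx] at hxD
      rw [hπx] at hxπ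
      have e1 : (x ∘ Sum.inr) ᵥ* ρ' = 0 :=
        congrArg (fun z : Fin k ⊕ V.t → C => z ∘ Sum.inl) hxD
      have e2 : (x ∘ Sum.inr) ᵥ* V.D = 0 :=
        congrArg (fun z : Fin k ⊕ V.t → C => z ∘ Sum.inr) hxD
      obtain ⟨y, hy, hyx⟩ := hV2.ex _ hx.2 e2 e1
      obtain ⟨z, hz, hzx⟩ := (hV3 (x ∘ Sum.inl)).1 ⟨hx.1, hxπ⟩
      refine ⟨Sum.elim 0 (prt V.deg 0 z + (y - prt V.deg 0 y)), ?_, ?_⟩
      · rw [hJ, Sum.elim_comp_inl, Sum.elim_comp_inr]
        exact ⟨L'.zero_mem, LV.add_mem (hV2.gr _ hz 0) (LV.sub_mem hy (hV2.gr _ hy 0))⟩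
      · rw [hDx, Sum.elim_comp_inr, Matrix.add_vecMul, Matrix.add_vecMul, Matrix.sub_vecMul,
          Matrix.sub_vecMul, hV2.prt_zero_vecMul, hV2.prt_zero_vecMul, sub_self, add_zero,
          vecMul_prt_eq_zero V.hD Nat.zero_lt_one, vecMul_prt_eq_zero V.hD Nat.zero_lt_one,
          zero_add, sub_zero, hzx, hyx]
        exact Sum.elim_comp_inl_inr x
    · intro x
      rw [← h2]
      constructor
      · rintro ⟨y, hy, rfl⟩
        refine ⟨Sum.elim y 0, ?_, ?_⟩
        · rw [hJ, Sum.elim_comp_inl, Sum.elim_comp_inr]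
          exact ⟨hy, LV.zero_mem⟩
        · rw [hπx, Sum.elim_comp_inl]
      · rintro ⟨y, hy, rfl⟩
        rw [hJ] at hy
        exact ⟨y ∘ Sum.inl, hy.1, (hπx y).symm⟩

end ToDM

end Pool.Agent.Lib.MP_c052b4_al
end

section

/-!
# Induction along free extensions of rings
-/

set_option autoImplicit false
set_option linter.unusedSectionVars false

namespace Pool.Agent.Lib.MP_c052b4_al

open Matrix

universe u v w w'

/-- `A` is a free right `C`-module: basis `u`, coordinates `ρ`. -/
structure RFree {C : Type u} {A : Type v} [Ring C] [Ring A] (φ : C →+* A) (I : Type w) where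
  /-- the basis -/
  u : I → A
  /-- the coordinates -/
  ρ : I → A →+ C
  mul : ∀ q a b, ρ q (a * φ b) = ρ q a * b
  dec : ∀ a, ∃ T : Finset I, ∀ T' : Finset I, T ⊆ T' → a = ∑ q ∈ T', u q * φ (ρ q a)

variable {C : Type u} {A : Type v} [Ring C] [Ring A] {φ : C →+* A} {I : Type w}

/-- Coordinatewise image of a vector. -/
def vm (φ : C →+* A) {k : Type*} (y : k → C) : k → A := fun i => φ (y i)

theorem vm_add {k : Type*} (y z : k → C) : vm φ (y + z) = vm φ y + vm φ z := by
  funext i
  exact map_add φ _ _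

theorem vm_smul {k : Type*} (c : C) (y : k → C) : vm φ (c • y) = φ c • vm φ y := by
  funext i
  exact map_mul φ _ _

theorem vm_zero {k : Type*} : vm φ (0 : k → C) = 0 := by
  funext i
  exact map_zero φ

/-- The induced submodule. -/
def ind (φ : C →+* A) {k : Type*} (K : Submodule C (k → C)) : Submodule A (k → A) :=
  Submodule.span A (vm φ '' K)

theorem vm_mem_ind {k : Type*} {K : Submodule C (k → C)} {y : k → C} (hy : y ∈ K) :
    vm φ y ∈ ind φ K := Submodule.subset_span ⟨y, hy, rfl⟩

theorem ind_mono {k : Type*} {K K' : Submodule C (k → C)} (h : K ≤ K') : ind φ K ≤ ind φ K' :=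
  Submodule.span_mono (Set.image_mono h)

namespace RFree

variable (D : RFree φ I)

theorem eq_zero {a : A} (h : ∀ q, D.ρ q a = 0) : a = 0 := by
  obtain ⟨T, hT⟩ := D.dec a
  rw [hT T (Finset.Subset.refl T)]
  refine Finset.sum_eq_zero fun q _ => ?_
  rw [h, map_zero, mul_zero]

/-- coordinates of a vector -/
def rv {k : Type*} (q : I) (x : k → A) : k → C := fun i => D.ρ q (x i)

theorem rv_add {k : Type*} (q : I) (x y : k → A) : D.rv q (x + y) = D.rv q x + D.rv q y := by
  funext i
  exact map_add (D.ρ q) _ _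

theorem dec_vec {k : Type*} [Finite k] (x : k → A) :
    ∃ T : Finset I, x = ∑ q ∈ T, D.u q • vm φ (D.rv q x) := by
  classical
  cases nonempty_fintype k
  choose T hT using fun i => D.dec (x i)
  refine ⟨Finset.univ.biUnion T, ?_⟩
  funext i
  rw [Finset.sum_apply]
  exact hT i _ (Finset.subset_biUnion_of_mem T (Finset.mem_univ i))

theorem mem_ind_iff {k : Type*} [Finite k] (K : Submodule C (k → C)) (x : k → A) :
    x ∈ ind φ K ↔ ∀ q, D.rv q x ∈ K := by
  constructor
  · intro hx
    induction hx using Submodule.span_induction with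
    | mem x hx =>
      obtain ⟨y, hy, rfl⟩ := hx
      intro q
      have h1 : D.rv q (vm φ y) = D.ρ q 1 • y := by
        funext i
        change D.ρ q (φ (y i)) = D.ρ q 1 * y i
        rw [← D.mul, one_mul]
      rw [h1]
      exact K.smul_mem _ hy
    | zero =>
      intro q
      have h1 : D.rv q (0 : k → A) = 0 := by
        funext i
        exact map_zero (D.ρ q)
      rw [h1]
      exact K.zero_mem
    | add x y _ _ hx hy =>
      intro q
      rw [D.rv_add]
      exact K.add_mem (hx q) (hy q)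
    | smul a x _ hx =>
      intro q
      obtain ⟨T, hT⟩ := D.dec_vec x
      have h1 : D.rv q (a • x) = ∑ p ∈ T, D.ρ q (a * D.u p) • D.rv p x := by
        funext i
        rw [Finset.sum_apply]
        have h2 : a * x i = ∑ p ∈ T, (a * D.u p) * φ (D.rv p x i) := by
          conv_lhs => rw [hT]
          rw [Finset.sum_apply, Finset.mul_sum]
          refine Finset.sum_congr rfl fun p _ => ?_
          change a * (D.u p * φ (D.rv p x i)) = _
          rw [mul_assoc]
        change D.ρ q (a * x i) = _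
        rw [h2, map_sum]
        refine Finset.sum_congr rfl fun p _ => ?_
        rw [D.mul]
        rfl
      rw [h1]
      exact Submodule.sum_mem _ fun p _ => K.smul_mem _ (hx p)
  · intro h
    obtain ⟨T, hT⟩ := D.dec_vec x
    rw [hT]
    exact Submodule.sum_mem _ fun q _ => Submodule.smul_mem _ _ (vm_mem_ind (h q))

theorem rv_vecMul {k n : Type*} [Fintype k] (q : I) (x : k → A) (M : Matrix k n C) :
    D.rv q (x ᵥ* M.map φ) = D.rv q x ᵥ* M := by
  funext j
  simp only [rv, Matrix.vecMul, dotProduct, Matrix.map_apply, map_sum, D.mul]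

include D in
theorem rker_map {k n : Type*} [Fintype k] (M : Matrix k n C) :
    rker (M.map φ) = ind φ (rker M) := by
  ext x
  rw [D.mem_ind_iff, mem_rker]
  constructor
  · intro h q
    rw [mem_rker, ← D.rv_vecMul, h]
    funext j
    exact map_zero (D.ρ q)
  · intro h
    funext j
    apply D.eq_zero
    intro q
    have h1 := h q
    rw [mem_rker, ← D.rv_vecMul] at h1
    exact congrFun h1 j

end RFree

theorem vm_vecMul {k n : Type*} [Fintype k] (y : k → C) (M : Matrix k n C) :
    vm φ (y ᵥ* M) = vm φ y ᵥ* M.map φ := by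
  funext j
  simp only [vm, Matrix.vecMul, dotProduct, Matrix.map_apply, map_sum, map_mul]

theorem range_map {m k : Type*} [Fintype m] (P : Matrix m k C) (K : Submodule C (k → C))
    (h1 : ∀ v, v ᵥ* P ∈ K) (h2 : ∀ y ∈ K, ∃ v, v ᵥ* P = y) :
    LinearMap.range (Matrix.vecMulLinear (P.map φ)) = ind φ K := by
  classical
  apply le_antisymm
  · rintro _ ⟨v, rfl⟩
    change v ᵥ* P.map φ ∈ ind φ K
    have h3 : v ᵥ* P.map φ = ∑ i, v i • vm φ (P i) := by
      funext j
      rw [Finset.sum_apply]
      rfl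
    rw [h3]
    refine Submodule.sum_mem _ fun i _ => Submodule.smul_mem _ _ (vm_mem_ind ?_)
    have h4 := h1 (Pi.single i 1)
    rwa [Matrix.single_one_vecMul] at h4
  · unfold ind
    rw [Submodule.span_le]
    rintro _ ⟨y, hy, rfl⟩
    obtain ⟨v, rfl⟩ := h2 y hy
    exact ⟨vm φ v, (vm_vecMul v P).symm⟩

theorem RFree.hasRes_ind (D : RFree φ I) (n : ℕ) : ∀ {k : Type} [Fintype k]
    (K : Submodule C (k → C)), HasRes (RingHom.id C) n K → HasRes (RingHom.id A) n (ind φ K) := by
  induction n with
  | zero =>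
    intro k _ K h
    have h' : Good (RingHom.id C) K := h
    have := h'.finite
    have := h'.projective
    obtain ⟨m, π, hπ⟩ := Module.Finite.exists_fin' C K
    obtain ⟨s, hs⟩ := Module.projective_lifting_property π LinearMap.id hπ
    have hs' : ∀ x, π (s x) = x := fun x => LinearMap.congr_fun hs x
    obtain ⟨P, hP⟩ := exists_mat (K.subtype ∘ₗ π)
    obtain ⟨E, hE⟩ := exists_mat (s ∘ₗ π)
    have hP' : ∀ v, v ᵥ* P = (π v : K) := hP
    have hE' : ∀ v, v ᵥ* E = s (π v) := hE
    have hEE : E * E = E := by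
      apply matrix_ext
      intro v
      rw [← Matrix.vecMul_vecMul, hE', hE', hs']
    have hker : rker P = rker E := by
      ext v
      rw [mem_rker, mem_rker, hP', hE']
      constructor
      · intro h1
        have h2 : π v = 0 := Subtype.ext h1
        rw [h2, map_zero]
      · intro h1
        have h2 := hs' (π v)
        rw [h1, map_zero] at h2
        rw [← h2]
        rfl
    have hrange := range_map (φ := φ) P K (fun v => by rw [hP']; exact (π v).2)
      (fun y hy => by
        obtain ⟨v, hv⟩ := hπ ⟨y, hy⟩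
        exact ⟨v, by rw [hP', hv]⟩)
    have hEEφ : (E.map φ) * (E.map φ) = E.map φ := by
      rw [← Matrix.map_mul, hEE]
    have hkerφ : LinearMap.ker (Matrix.vecMulLinear (P.map φ)) =
        LinearMap.ker (Matrix.vecMulLinear (E.map φ)) := by
      change rker (P.map φ) = rker (E.map φ)
      rw [D.rker_map, D.rker_map, hker]
    have e1 : ((Fin m → A) ⧸ LinearMap.ker (Matrix.vecMulLinear (P.map φ))) ≃ₗ[A] ind φ K :=
      (LinearMap.quotKerEquivRange _).trans (LinearEquiv.ofEq _ _ hrange)
    have e2 : ((Fin m → A) ⧸ LinearMap.ker (Matrix.vecMulLinear (E.map φ))) ≃ₗ[A]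
        img (E.map φ) := LinearMap.quotKerEquivRange _
    have e3 : img (E.map φ) ≃ₗ[A] ind φ K :=
      (e2.symm.trans (Submodule.quotEquivOfEq _ _ hkerφ.symm)).trans e1
    have := img_projective hEEφ
    exact (Good.of_finite_projective (S := A) (M := img (E.map φ))).congr e3
  | succ n ih =>
    intro k _ K h
    obtain ⟨m, π, hπ, hker⟩ := h
    obtain ⟨P, hP⟩ := exists_mat (K.subtype ∘ₗ π)
    have hP' : ∀ v, v ᵥ* P = (π v : K) := hP
    have hrange := range_map (φ := φ) P K (fun v => by rw [hP']; exact (π v).2)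
      (fun y hy => by
        obtain ⟨v, hv⟩ := hπ ⟨y, hy⟩
        exact ⟨v, by rw [hP', hv]⟩)
    have hmem : ∀ v, Matrix.vecMulLinear (P.map φ) v ∈ ind φ K := fun v => by
      rw [← hrange]
      exact ⟨v, rfl⟩
    refine ⟨m, LinearMap.codRestrict (ind φ K) (Matrix.vecMulLinear (P.map φ)) hmem, ?_, ?_⟩
    · rintro ⟨y, hy⟩
      have hy' := hy
      rw [← hrange] at hy'
      obtain ⟨v, hv⟩ := hy'
      exact ⟨v, Subtype.ext hv⟩
    · have h1 : LinearMap.ker (LinearMap.codRestrict (ind φ K)
          (Matrix.vecMulLinear (P.map φ)) hmem) = ind φ (LinearMap.ker π) := by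
        rw [LinearMap.ker_codRestrict]
        change rker (P.map φ) = _
        rw [D.rker_map]
        congr 1
        ext v
        rw [mem_rker, hP']
        constructor
        · intro h2
          exact Subtype.ext h2
        · intro h2
          have h3 : π v = 0 := h2
          rw [h3]
          rfl
      exact (ih (LinearMap.ker π) hker).congr (LinearEquiv.ofEq _ _ h1.symm)

theorem RFree.perf_ind (D : RFree φ I) {k : Type} [Fintype k] {K : Submodule C (k → C)}
    (h : Perf C K) : Perf A (ind φ K) := by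
  obtain ⟨d, hd⟩ := h
  exact ⟨d, D.hasRes_ind d K hd⟩

end Pool.Agent.Lib.MP_c052b4_al
end

section

/-!
# Group rings as free extensions of group rings of subgroups
-/

set_option autoImplicit false
set_option linter.unusedSectionVars false

namespace Pool.Agent.Lib.MP_c052b4_al

open Matrix

universe u v w w'

variable {R : Type u} [Ring R] {G : Type v} [Group G] {H : Type w} [Group H]

/-- The homomorphism of group rings. -/
noncomputable abbrev inc (R : Type u) [Ring R] (f : H →* G) :
    MonoidAlgebra R H →+* MonoidAlgebra R G := MonoidAlgebra.mapDomainRingHom R f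

theorem inc_single (f : H →* G) (h : H) (r : R) :
    inc R f (MonoidAlgebra.single h r) = MonoidAlgebra.single (f h) r := by
  rw [inc, MonoidAlgebra.mapDomainRingHom_apply]
  simp

/-- Restriction of coefficients. -/
noncomputable def rs (R : Type u) [Ring R] (f : H →* G) (hf : Function.Injective f) :
    MonoidAlgebra R G →+ MonoidAlgebra R H where
  toFun a := MonoidAlgebra.ofCoeff (a.coeff.comapDomain f hf.injOn)
  map_zero' := by
    ext h
    simp
  map_add' a b := by
    ext h
    simp

theorem coeff_rs (f : H →* G) (hf : Function.Injective f) (a : MonoidAlgebra R G) (h : H) :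
    (rs R f hf a).coeff h = a.coeff (f h) := by
  unfold rs
  simp

theorem rs_single_mul (f : H →* G) (hf : Function.Injective f) (h : H) (r : R)
    (a : MonoidAlgebra R G) :
    rs R f hf (MonoidAlgebra.single (f h) r * a) = MonoidAlgebra.single h r * rs R f hf a := by
  ext h'
  rw [coeff_rs, MonoidAlgebra.coeff_single_mul_apply, MonoidAlgebra.coeff_single_mul_apply,
    coeff_rs, map_mul f, map_inv f]

theorem rs_mul_single (f : H →* G) (hf : Function.Injective f) (h : H) (r : R)
    (a : MonoidAlgebra R G) :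
    rs R f hf (a * MonoidAlgebra.single (f h) r) = rs R f hf a * MonoidAlgebra.single h r := by
  ext h'
  rw [coeff_rs, MonoidAlgebra.coeff_mul_single_apply, MonoidAlgebra.coeff_mul_single_apply,
    coeff_rs, map_mul f, map_inv f]

theorem rs_mul_inc (f : H →* G) (hf : Function.Injective f) (a : MonoidAlgebra R G)
    (b : MonoidAlgebra R H) : rs R f hf (a * inc R f b) = rs R f hf a * b := by
  induction b using MonoidAlgebra.induction_linear with
  | zero => rw [map_zero, mul_zero, map_zero, mul_zero]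
  | add b c hb hc => rw [map_add, mul_add, map_add, hb, hc, mul_add]
  | single h r => rw [inc_single, rs_mul_single]

theorem rs_inc_mul (f : H →* G) (hf : Function.Injective f) (a : MonoidAlgebra R G)
    (b : MonoidAlgebra R H) : rs R f hf (inc R f b * a) = b * rs R f hf a := by
  induction b using MonoidAlgebra.induction_linear with
  | zero => rw [map_zero, zero_mul, map_zero, zero_mul]
  | add b c hb hc => rw [map_add, add_mul, map_add, hb, hc, add_mul]
  | single h r => rw [inc_single, rs_single_mul]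

theorem rs_one (f : H →* G) (hf : Function.Injective f) : rs R f hf 1 = 1 := by
  classical
  ext h
  rw [coeff_rs, MonoidAlgebra.one_def, MonoidAlgebra.one_def, MonoidAlgebra.coeff_single,
    MonoidAlgebra.coeff_single, Finsupp.single_apply, Finsupp.single_apply]
  by_cases hh : 1 = h
  · subst hh
    simp
  · rw [if_neg hh, if_neg]
    intro h2
    apply hh
    apply hf
    rw [map_one]
    exact h2

theorem rs_inc (f : H →* G) (hf : Function.Injective f) (b : MonoidAlgebra R H) :
    rs R f hf (inc R f b) = b := by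
  have h := rs_mul_inc f hf 1 b
  rwa [one_mul, rs_one, one_mul] at h

theorem inc_injective (f : H →* G) (hf : Function.Injective f) :
    Function.Injective (inc R f) := fun a b h => by
  rw [← rs_inc f hf a, h, rs_inc]

theorem coeff_inc (f : H →* G) (hf : Function.Injective f) (b : MonoidAlgebra R H) (h : H) :
    (inc R f b).coeff (f h) = b.coeff h := by
  rw [← coeff_rs f hf, rs_inc]

theorem coeff_inc_of_notMem (f : H →* G) (b : MonoidAlgebra R H) (g : G)
    (hg : g ∉ f.range) : (inc R f b).coeff g = 0 := by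
  classical
  induction b using MonoidAlgebra.induction_linear with
  | zero => rw [map_zero]; rfl
  | add b c hb hc => rw [map_add, MonoidAlgebra.coeff_add, Finsupp.add_apply, hb, hc, add_zero]
  | single h r =>
    rw [inc_single, MonoidAlgebra.coeff_single, Finsupp.single_apply, if_neg]
    rintro rfl
    exact hg ⟨h, rfl⟩

/-- The component of `a` in the coset `g H`, translated to `H`. -/
noncomputable def rsc (f : H →* G) (hf : Function.Injective f) (g : G) :
    MonoidAlgebra R G →+ MonoidAlgebra R H :=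
  (rs R f hf).comp (AddMonoidHom.mulLeft (MonoidAlgebra.single g⁻¹ 1))

theorem rsc_apply (f : H →* G) (hf : Function.Injective f) (g : G) (a : MonoidAlgebra R G) :
    rsc f hf g a = rs R f hf (MonoidAlgebra.single g⁻¹ 1 * a) := rfl

theorem coeff_rsc (f : H →* G) (hf : Function.Injective f) (g : G) (a : MonoidAlgebra R G)
    (h : H) : (rsc f hf g a).coeff h = a.coeff (g * f h) := by
  rw [rsc_apply, coeff_rs, MonoidAlgebra.coeff_single_mul_apply, one_mul, inv_inv]

theorem rsc_mul_inc (f : H →* G) (hf : Function.Injective f) (g : G) (a : MonoidAlgebra R G)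
    (b : MonoidAlgebra R H) : rsc f hf g (a * inc R f b) = rsc f hf g a * b := by
  rw [rsc_apply, rsc_apply, ← mul_assoc, rs_mul_inc]

theorem rsc_mul (f : H →* G) (hf : Function.Injective f) (g : G) (h : H)
    (a : MonoidAlgebra R G) :
    rsc f hf (g * f h) a = MonoidAlgebra.single h⁻¹ 1 * rsc f hf g a := by
  ext h'
  rw [MonoidAlgebra.coeff_single_mul_apply, coeff_rsc, coeff_rsc, one_mul, inv_inv, map_mul f,
    mul_assoc]

theorem coeff_part (f : H →* G) (hf : Function.Injective f) (g : G) (a : MonoidAlgebra R G)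
    (g' : G) [Decidable (g⁻¹ * g' ∈ f.range)] :
    (MonoidAlgebra.single g 1 * inc R f (rsc f hf g a)).coeff g' =
      if g⁻¹ * g' ∈ f.range then a.coeff g' else 0 := by
  rw [MonoidAlgebra.coeff_single_mul_apply, one_mul]
  split_ifs with h
  · obtain ⟨k, hk⟩ := h
    rw [← hk, coeff_inc f hf, coeff_rsc, hk, mul_inv_cancel_left]
  · exact coeff_inc_of_notMem f _ _ h

/-- The group ring is a free right module over the group ring of a subgroup. -/
noncomputable def rfreeG (f : H →* G) (hf : Function.Injective f) :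
    RFree (inc R f) (G ⧸ f.range) where
  u q := MonoidAlgebra.single q.out 1
  ρ q := rsc f hf q.out
  mul q a b := rsc_mul_inc f hf _ a b
  dec a := by
    classical
    refine ⟨a.coeff.support.image (QuotientGroup.mk (s := f.range)), fun T' hT' => ?_⟩
    ext g
    rw [MonoidAlgebra.coeff_sum, Finsupp.finsetSum_apply]
    simp only [coeff_part]
    by_cases hg : (g : G ⧸ f.range) ∈ T'
    · rw [Finset.sum_eq_single_of_mem _ hg, if_pos]
      · exact QuotientGroup.eq.1 (QuotientGroup.out_eq' _)
      · intro q _ hq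
        rw [if_neg]
        intro h
        apply hq
        rw [← QuotientGroup.out_eq' q]
        exact QuotientGroup.eq.2 h
    · have h0 : a.coeff g = 0 := by
        by_contra h
        exact hg (hT' (Finset.mem_image.2 ⟨g, Finsupp.mem_support_iff.2 h, rfl⟩))
      rw [h0]
      refine (Finset.sum_eq_zero fun q _ => ?_).symm
      split_ifs <;> rfl

/-- The components of a vector. -/
noncomputable def rscv (f : H →* G) (hf : Function.Injective f) {k : Type*} (g : G)
    (x : k → MonoidAlgebra R G) : k → MonoidAlgebra R H := fun i => rsc f hf g (x i)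

theorem rscv_mul (f : H →* G) (hf : Function.Injective f) {k : Type*} (g : G) (h : H)
    (x : k → MonoidAlgebra R G) :
    rscv f hf (g * f h) x = MonoidAlgebra.single h⁻¹ (1 : R) • rscv f hf g x := by
  funext i
  exact rsc_mul f hf g h (x i)

theorem mem_indG_iff (f : H →* G) (hf : Function.Injective f) {k : Type*} [Finite k]
    (K : Submodule (MonoidAlgebra R H) (k → MonoidAlgebra R H)) (x : k → MonoidAlgebra R G) :
    x ∈ ind (inc R f) K ↔ ∀ g, rscv f hf g x ∈ K := by
  rw [(rfreeG f hf).mem_ind_iff]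
  constructor
  · intro h g
    obtain ⟨k', hk⟩ : (g : G ⧸ f.range).out⁻¹ * g ∈ f.range :=
      QuotientGroup.eq.1 (QuotientGroup.out_eq' _)
    have h1 : g = (g : G ⧸ f.range).out * f k' := by rw [hk, mul_inv_cancel_left]
    rw [h1, rscv_mul]
    exact K.smul_mem _ (h _)
  · intro h q
    exact h q.out

theorem mem_indG_of_support (f : H →* G) (hf : Function.Injective f) {k : Type*} [Finite k]
    (K : Submodule (MonoidAlgebra R H) (k → MonoidAlgebra R H)) (x : k → MonoidAlgebra R G)
    (hx : ∀ i, ∀ g, (x i).coeff g ≠ 0 → rscv f hf g x ∈ K) : x ∈ ind (inc R f) K := by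
  rw [mem_indG_iff f hf]
  intro g
  by_cases h : rscv f hf g x = 0
  · rw [h]
    exact K.zero_mem
  · obtain ⟨i, hi⟩ := Function.ne_iff.1 h
    have h1 : rsc f hf g (x i) ≠ 0 := hi
    obtain ⟨h', hh'⟩ : ∃ h', (rsc f hf g (x i)).coeff h' ≠ 0 := by
      by_contra hcon
      push Not at hcon
      apply h1
      ext h'
      rw [hcon]
      rfl
    rw [coeff_rsc] at hh'
    have h2 := hx i _ hh'
    have h3 : g = (g * f h') * f h'⁻¹ := by rw [map_inv, mul_inv_cancel_right]
    rw [h3, rscv_mul]
    exact K.smul_mem _ h2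

/-- The finitely many nonzero components, up to the action of `H`. -/
theorem finite_rscv (f : H →* G) (hf : Function.Injective f) {k : Type*} [Finite k]
    (x : k → MonoidAlgebra R G) :
    {y | ∃ i g, (x i).coeff g ≠ 0 ∧ y = rscv f hf g x}.Finite := by
  have h1 : {y | ∃ i g, (x i).coeff g ≠ 0 ∧ y = rscv f hf g x} =
      ⋃ i, (fun g => rscv f hf g x) '' ((x i).coeff.support : Set G) := by
    ext y
    simp only [Set.mem_iUnion, Set.mem_image, Finset.mem_coe, Finsupp.mem_support_iff]
    constructor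
    · rintro ⟨i, g, h, rfl⟩
      exact ⟨i, g, h, rfl⟩
    · rintro ⟨i, g, h, rfl⟩
      exact ⟨i, g, h, rfl⟩
  rw [h1]
  exact Set.finite_iUnion fun i => (Finset.finite_toSet _).image _

/-- Left linear equations over the group ring of a subgroup. -/
theorem exists_rmat (f : H →* G) (hf : Function.Injective f) {ι κ : Type*} [Fintype ι]
    [Finite κ] (N : Matrix ι κ (MonoidAlgebra R G)) :
    ∃ (n : ℕ) (M : Matrix ι (Fin n) (MonoidAlgebra R H)), ∀ y : ι → MonoidAlgebra R H,
      vm (inc R f) y ᵥ* N = 0 ↔ y ∈ rker M := by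
  classical
  cases nonempty_fintype κ
  let T : Finset G := Finset.univ.biUnion fun i => Finset.univ.biUnion fun j =>
    (N i j).coeff.support
  have hT : ∀ i j g, (N i j).coeff g ≠ 0 → g ∈ T := fun i j g h =>
    Finset.mem_biUnion.2 ⟨i, Finset.mem_univ _, Finset.mem_biUnion.2
      ⟨j, Finset.mem_univ _, Finsupp.mem_support_iff.2 h⟩⟩
  let e := Fintype.equivFin (κ × T)
  let M : Matrix ι (Fin (Fintype.card (κ × T))) (MonoidAlgebra R H) := Matrix.of fun i c =>
    rs R f hf (N i (e.symm c).1 * MonoidAlgebra.single ((e.symm c).2 : G)⁻¹ 1)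
  have hM : ∀ (y : ι → MonoidAlgebra R H) c, (y ᵥ* M) c =
      rs R f hf ((vm (inc R f) y ᵥ* N) (e.symm c).1 *
        MonoidAlgebra.single ((e.symm c).2 : G)⁻¹ 1) := by
    intro y c
    simp only [Matrix.vecMul, dotProduct, M, Matrix.of_apply, vm, Finset.sum_mul, map_sum]
    refine Finset.sum_congr rfl fun i _ => ?_
    rw [mul_assoc, rs_inc_mul]
  refine ⟨_, M, fun y => ?_⟩
  rw [mem_rker]
  constructor
  · intro h
    funext c
    rw [hM, h, Pi.zero_apply, Pi.zero_apply, zero_mul, map_zero]
  · intro h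
    have h1 : ∀ j, ∀ c ∈ T, rs R f hf ((vm (inc R f) y ᵥ* N) j *
        MonoidAlgebra.single (c : G)⁻¹ 1) = 0 := by
      intro j c hc
      have h2 := congrFun h (e (j, ⟨c, hc⟩))
      rw [hM, Equiv.symm_apply_apply] at h2
      exact h2
    have h2 : ∀ j, ∀ g, rs R f hf ((vm (inc R f) y ᵥ* N) j *
        MonoidAlgebra.single (g : G)⁻¹ 1) = 0 := by
      intro j g
      by_cases hg : ∃ c ∈ T, ∃ k : H, g = f k * c
      · obtain ⟨c, hc, k, rfl⟩ := hg
        have h3 := rs_mul_single f hf k⁻¹ (1 : R) ((vm (inc R f) y ᵥ* N) j *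
          MonoidAlgebra.single (c : G)⁻¹ 1)
        rw [h1 j c hc, zero_mul, mul_assoc, MonoidAlgebra.single_mul_single, one_mul,
          map_inv f, ← _root_.mul_inv_rev] at h3
        exact h3
      · have h3 : ∀ i, rs R f hf (N i j * MonoidAlgebra.single (g : G)⁻¹ 1) = 0 := by
          intro i
          ext k
          rw [coeff_rs, MonoidAlgebra.coeff_mul_single_apply, inv_inv, mul_one]
          by_contra h4
          refine hg ⟨_, hT i j _ h4, k⁻¹, ?_⟩
          rw [map_inv f, inv_mul_cancel_left]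
        simp only [Matrix.vecMul, dotProduct, vm, Finset.sum_mul, map_sum]
        refine Finset.sum_eq_zero fun i _ => ?_
        rw [mul_assoc, rs_inc_mul, h3, mul_zero]
    funext j
    ext g
    have h3 := congrArg (fun a : MonoidAlgebra R H => a.coeff 1) (h2 j g)
    simp only [coeff_rs, MonoidAlgebra.coeff_mul_single_apply] at h3
    rw [map_one, inv_inv, one_mul, mul_one] at h3
    rw [h3]
    rfl

theorem mem_rker_fromCols {C : Type*} [Ring C] {ι n1 n2 : Type*} [Fintype ι]
    (M1 : Matrix ι n1 C) (M2 : Matrix ι n2 C) (y : ι → C) :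
    y ∈ rker (fromCols M1 M2) ↔ y ∈ rker M1 ∧ y ∈ rker M2 := by
  rw [mem_rker, mem_rker, mem_rker, Matrix.vecMul_fromCols]
  constructor
  · intro h
    exact ⟨funext fun j => congrFun h (Sum.inl j), funext fun j => congrFun h (Sum.inr j)⟩
  · rintro ⟨h1, h2⟩
    rw [h1, h2]
    funext j
    rcases j with j | j <;> rfl

end Pool.Agent.Lib.MP_c052b4_al
end

section

/-!
# Graded submodules of labelled free modules
-/

set_option autoImplicit false
set_option linter.unusedSectionVars false

namespace Pool.Agent.Lib.MP_c052b4_al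

open Matrix

universe u v w w'

variable {R : Type u} [Ring R] {G : Type v} [Group G] {X : Type w} [MulAction G X]

/-- Representatives of the orbits of the labels. -/
structure NrmD {ι : Type} (G : Type v) [Group G] {X : Type w} [MulAction G X] (l : ι → X) where
  /-- the representative -/
  r : ι → ι
  /-- the group element -/
  γ : ι → G
  lab : ∀ i, l i = γ i • l (r i)
  rr : ∀ i, r (r i) = r i
  orb : ∀ i j (g : G), l i = g • l j → r i = r j

theorem exists_nrm {ι : Type} (l : ι → X) : Nonempty (NrmD G l) := by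
  let s : Setoid ι :=
    { r := fun i j => ∃ g : G, l i = g • l j
      iseqv := ⟨fun i => ⟨1, (one_smul G _).symm⟩,
        fun {i j} ⟨g, h⟩ => ⟨g⁻¹, by rw [h, inv_smul_smul]⟩,
        fun {i j k} ⟨g, h⟩ ⟨g', h'⟩ => ⟨g * g', by rw [h, h', mul_smul]⟩⟩ }
  have h : ∀ i : ι, ∃ g : G, l i = g • l (Quotient.mk s i).out := fun i =>
    s.iseqv.symm (Quotient.exact (Quotient.out_eq (Quotient.mk s i)))
  choose γ hγ using h
  have h2 : ∀ i j : ι, (∃ g : G, l i = g • l j) → (Quotient.mk s i).out = (Quotient.mk s j).out :=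
    fun i j hij => by rw [Quotient.sound (s := s) hij]
  exact ⟨⟨fun i => (Quotient.mk s i).out, γ, hγ,
    fun i => h2 _ _ (s.iseqv.symm ⟨γ i, hγ i⟩), fun i j g h => h2 _ _ ⟨g, h⟩⟩⟩

/-- The inclusion of the stabilizer of a label. -/
abbrev sj (G : Type v) [Group G] {X : Type w} [MulAction G X] {ι : Type} (l : ι → X) (O : ι) :
    MulAction.stabilizer G (l O) →* G := (MulAction.stabilizer G (l O)).subtype

theorem sj_injective {ι : Type} (l : ι → X) (O : ι) : Function.Injective (sj G l O) :=
  Subgroup.subtype_injective _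

theorem mem_range_sj {ι : Type} (l : ι → X) (O : ι) (g : G) :
    g ∈ (sj G l O).range ↔ g • l O = l O := by
  rw [Subgroup.range_subtype, MulAction.mem_stabilizer_iff]

namespace NrmD

variable {ι : Type} {l : ι → X} (D : NrmD G l)

open Classical in
/-- from the coordinates at the representative -/
noncomputable def un (R : Type u) [Ring R] (O : ι) :
    (ι → MonoidAlgebra R G) →ₗ[MonoidAlgebra R G] (ι → MonoidAlgebra R G) where
  toFun z := fun i => if D.r i = O then z i * MonoidAlgebra.single (D.γ i)⁻¹ 1 else 0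
  map_add' x y := by
    funext i
    by_cases h : D.r i = O
    · simp [h, add_mul]
    · simp [h]
  map_smul' a x := by
    funext i
    by_cases h : D.r i = O
    · simp [h, mul_assoc]
    · simp [h]

open Classical in
/-- to the coordinates at the representative -/
noncomputable def sh (R : Type u) [Ring R] (O : ι) :
    (ι → MonoidAlgebra R G) →ₗ[MonoidAlgebra R G] (ι → MonoidAlgebra R G) where
  toFun z := fun i => if D.r i = O then z i * MonoidAlgebra.single (D.γ i) 1 else 0
  map_add' x y := by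
    funext i
    by_cases h : D.r i = O
    · simp [h, add_mul]
    · simp [h]
  map_smul' a x := by
    funext i
    by_cases h : D.r i = O
    · simp [h, mul_assoc]
    · simp [h]

theorem un_of_eq {O : ι} (z : ι → MonoidAlgebra R G) {i : ι} (h : D.r i = O) :
    D.un R O z i = z i * MonoidAlgebra.single (D.γ i)⁻¹ 1 := if_pos h

theorem un_of_ne {O : ι} (z : ι → MonoidAlgebra R G) {i : ι} (h : D.r i ≠ O) :
    D.un R O z i = 0 := if_neg h

theorem sh_of_eq {O : ι} (z : ι → MonoidAlgebra R G) {i : ι} (h : D.r i = O) :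
    D.sh R O z i = z i * MonoidAlgebra.single (D.γ i) 1 := if_pos h

theorem sh_of_ne {O : ι} (z : ι → MonoidAlgebra R G) {i : ι} (h : D.r i ≠ O) :
    D.sh R O z i = 0 := if_neg h

theorem single_mul_inv (g : G) :
    (MonoidAlgebra.single g (1 : R)) * MonoidAlgebra.single g⁻¹ 1 = 1 := by
  rw [MonoidAlgebra.single_mul_single, mul_inv_cancel, mul_one, MonoidAlgebra.one_def]

theorem single_inv_mul (g : G) :
    (MonoidAlgebra.single g⁻¹ (1 : R)) * MonoidAlgebra.single g 1 = 1 := by
  rw [MonoidAlgebra.single_mul_single, inv_mul_cancel, mul_one, MonoidAlgebra.one_def]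

theorem sh_un {O O' : ι} (h : O ≠ O') (z : ι → MonoidAlgebra R G) :
    D.sh R O (D.un R O' z) = 0 := by
  funext i
  by_cases h1 : D.r i = O
  · rw [D.sh_of_eq _ h1, D.un_of_ne _ (by rw [h1]; exact h), zero_mul]
    rfl
  · exact D.sh_of_ne _ h1

theorem sh_un_self {O : ι} (z : ι → MonoidAlgebra R G) (hz : ∀ i, D.r i ≠ O → z i = 0) :
    D.sh R O (D.un R O z) = z := by
  funext i
  by_cases h1 : D.r i = O
  · rw [D.sh_of_eq _ h1, D.un_of_eq _ h1, mul_assoc, single_inv_mul, mul_one]
  · rw [D.sh_of_ne _ h1, hz i h1]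

theorem sum_un_sh [Fintype ι] (x : ι → MonoidAlgebra R G) :
    ∑ O, D.un R O (D.sh R O x) = x := by
  classical
  funext i
  rw [Finset.sum_apply, Finset.sum_eq_single (D.r i)]
  · rw [D.un_of_eq _ rfl, D.sh_of_eq _ rfl, mul_assoc, single_mul_inv, mul_one]
  · intro O _ hO
    exact D.un_of_ne _ hO.symm
  · intro h
    exact absurd (Finset.mem_univ _) h

/-- The graded submodule with given parts at the representatives. -/
noncomputable def gi (K : ∀ O : ι, Submodule (MonoidAlgebra R (MulAction.stabilizer G (l O)))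
    (ι → MonoidAlgebra R (MulAction.stabilizer G (l O)))) :
    Submodule (MonoidAlgebra R G) (ι → MonoidAlgebra R G) :=
  ⨅ O, (ind (inc R (sj G l O)) (K O)).comap (D.sh R O)

theorem mem_gi {K : ∀ O : ι, Submodule (MonoidAlgebra R (MulAction.stabilizer G (l O)))
    (ι → MonoidAlgebra R (MulAction.stabilizer G (l O)))} {x : ι → MonoidAlgebra R G} :
    x ∈ D.gi K ↔ ∀ O, D.sh R O x ∈ ind (inc R (sj G l O)) (K O) := by
  unfold gi
  rw [Submodule.mem_iInf]
  rfl

/-- support condition -/
def Supp {O : ι} (K : Submodule (MonoidAlgebra R (MulAction.stabilizer G (l O)))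
    (ι → MonoidAlgebra R (MulAction.stabilizer G (l O)))) : Prop :=
  ∀ y ∈ K, ∀ i, D.r i ≠ O → y i = 0

theorem Supp.ind {O : ι} {K : Submodule (MonoidAlgebra R (MulAction.stabilizer G (l O)))
    (ι → MonoidAlgebra R (MulAction.stabilizer G (l O)))} (h : D.Supp K)
    {z : ι → MonoidAlgebra R G} (hz : z ∈ ind (inc R (sj G l O)) K) (i : ι)
    (hi : D.r i ≠ O) : z i = 0 := by
  unfold MP_c052b4_al.ind at hz
  induction hz using Submodule.span_induction with
  | mem z hz =>
    obtain ⟨y, hy, rfl⟩ := hz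
    change inc R (sj G l O) (y i) = 0
    rw [h y hy i hi, map_zero]
  | zero => rfl
  | add x y _ _ hx hy => rw [Pi.add_apply, hx, hy, add_zero]
  | smul a x _ hx =>
    change a * x i = 0
    rw [hx, mul_zero]

theorem perf_gi [Fintype ι] (K : ∀ O : ι, Submodule (MonoidAlgebra R (MulAction.stabilizer G (l O)))
    (ι → MonoidAlgebra R (MulAction.stabilizer G (l O)))) (hK : ∀ O, D.Supp (K O))
    (hP : ∀ O, Perf (MonoidAlgebra R (MulAction.stabilizer G (l O))) (K O)) :
    Perf (MonoidAlgebra R G) (D.gi K) := by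
  classical
  have h1 : Perf (MonoidAlgebra R G) (∀ O, ind (inc R (sj G l O)) (K O)) :=
    Perf.pi _ fun O => (rfreeG (sj G l O) (sj_injective l O)).perf_ind (hP O)
  let F : D.gi K →ₗ[MonoidAlgebra R G] (∀ O, ind (inc R (sj G l O)) (K O)) :=
    LinearMap.pi fun O => (D.sh R O).restrict fun x hx => (D.mem_gi.1 hx) O
  have hF : ∀ x O, ((F x O : ind (inc R (sj G l O)) (K O)) : ι → MonoidAlgebra R G) =
      D.sh R O x := fun x O => rfl
  refine h1.congr (LinearEquiv.ofBijective F ⟨?_, ?_⟩).symm
  · intro x y hxy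
    apply Subtype.ext
    rw [← D.sum_un_sh (x : ι → MonoidAlgebra R G), ← D.sum_un_sh (y : ι → MonoidAlgebra R G)]
    refine Finset.sum_congr rfl fun O _ => ?_
    rw [← hF, ← hF, hxy]
  · intro z
    have hz : ∀ O, D.sh R O (∑ O', D.un R O' (z O' : ι → MonoidAlgebra R G)) = z O := by
      intro O
      rw [map_sum, Finset.sum_eq_single O]
      · exact D.sh_un_self _ fun i hi => (hK O).ind D (z O).2 i hi
      · intro O' _ hO'
        exact D.sh_un hO'.symm _
      · intro h
        exact absurd (Finset.mem_univ _) h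
    refine ⟨⟨∑ O', D.un R O' (z O' : ι → MonoidAlgebra R G), ?_⟩, ?_⟩
    · rw [D.mem_gi]
      intro O
      rw [hz]
      exact (z O).2
    · funext O
      apply Subtype.ext
      rw [hF]
      exact hz O

theorem gi_mono {K K' : ∀ O : ι, Submodule (MonoidAlgebra R (MulAction.stabilizer G (l O)))
    (ι → MonoidAlgebra R (MulAction.stabilizer G (l O)))} (h : ∀ O, K O ≤ K' O) :
    D.gi K ≤ D.gi K' := fun _ hx => D.mem_gi.2 fun O => ind_mono (h O) (D.mem_gi.1 hx O)

/-- The kernel of a matrix at a representative. -/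
noncomputable def kerH [Fintype ι] {κ : Type*} (O : ι) (M : Matrix ι κ (MonoidAlgebra R G)) :
    Submodule (MonoidAlgebra R (MulAction.stabilizer G (l O)))
      (ι → MonoidAlgebra R (MulAction.stabilizer G (l O))) where
  carrier := {y | (∀ i, D.r i ≠ O → y i = 0) ∧
    D.un R O (vm (inc R (sj G l O)) y) ᵥ* M = 0}
  add_mem' := by
    rintro x y ⟨hx1, hx2⟩ ⟨hy1, hy2⟩
    refine ⟨fun i hi => ?_, ?_⟩
    · rw [Pi.add_apply, hx1 i hi, hy1 i hi, add_zero]
    · rw [vm_add, map_add, Matrix.add_vecMul, hx2, hy2, add_zero]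
  zero_mem' := by
    refine ⟨fun i _ => rfl, ?_⟩
    rw [vm_zero, map_zero, Matrix.zero_vecMul]
  smul_mem' := by
    rintro c x ⟨hx1, hx2⟩
    refine ⟨fun i hi => ?_, ?_⟩
    · change c * x i = 0
      rw [hx1 i hi, mul_zero]
    · rw [vm_smul, map_smul, Matrix.smul_vecMul, hx2, smul_zero]

theorem mem_kerH [Fintype ι] {κ : Type*} {O : ι} {M : Matrix ι κ (MonoidAlgebra R G)}
    {y : ι → MonoidAlgebra R (MulAction.stabilizer G (l O))} :
    y ∈ D.kerH O M ↔ (∀ i, D.r i ≠ O → y i = 0) ∧
      D.un R O (vm (inc R (sj G l O)) y) ᵥ* M = 0 := Iff.rfl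

theorem supp_kerH [Fintype ι] {κ : Type*} (O : ι) (M : Matrix ι κ (MonoidAlgebra R G)) :
    D.Supp (D.kerH O M) := fun _ hy => hy.1

theorem exists_kerH [Fintype ι] {κ : Type*} [Finite κ] (O : ι)
    (M : Matrix ι κ (MonoidAlgebra R G)) :
    ∃ (n : ℕ) (M' : Matrix ι (Fin n ⊕ ι) (MonoidAlgebra R (MulAction.stabilizer G (l O)))),
      D.kerH O M = rker M' := by
  classical
  obtain ⟨n, M1, hM1⟩ := exists_rmat (sj G l O) (sj_injective l O) (R := R)
    (Matrix.of fun i j => if D.r i = O then MonoidAlgebra.single (D.γ i)⁻¹ (1 : R) * M i j else 0)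
  refine ⟨n, fromCols M1 (Matrix.diagonal fun i => if D.r i = O then 0 else 1), ?_⟩
  ext y
  rw [mem_rker_fromCols, mem_kerH, and_comm, ← hM1]
  have h1 : D.un R O (vm (inc R (sj G l O)) y) ᵥ* M = vm (inc R (sj G l O)) y ᵥ*
      (Matrix.of fun i j => if D.r i = O then
        MonoidAlgebra.single (D.γ i)⁻¹ (1 : R) * M i j else 0) := by
    funext j
    simp only [Matrix.vecMul, dotProduct, Matrix.of_apply]
    refine Finset.sum_congr rfl fun i _ => ?_
    by_cases h : D.r i = O
    · rw [D.un_of_eq _ h, if_pos h, mul_assoc]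
    · rw [D.un_of_ne _ h, if_neg h, zero_mul, mul_zero]
  rw [h1]
  refine and_congr Iff.rfl ?_
  rw [mem_rker]
  constructor
  · intro h
    funext i
    rw [Matrix.vecMul_diagonal]
    by_cases hi : D.r i = O
    · rw [if_pos hi, mul_zero]
      rfl
    · rw [h i hi, zero_mul]
      rfl
  · intro h i hi
    have h2 := congrFun h i
    rw [Matrix.vecMul_diagonal, if_neg hi, mul_one] at h2
    exact h2

theorem cp_apply {ι' : Type*} (l' : ι' → X) (Z : Set X) (x : ι' → MonoidAlgebra R G) (i : ι')
    (g : G) [Decidable (g • l' i ∈ Z)] :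
    (cp l' Z x i).coeff g = if g • l' i ∈ Z then (x i).coeff g else 0 := by
  classical
  unfold cp
  rw [coeff_cpA]
  rfl

/-- The component in the degree `g • l O`. -/
theorem cp_eq {O : ι} (hO : D.r O = O) (g : G) (x : ι → MonoidAlgebra R G) :
    cp l {g • l O} x = MonoidAlgebra.single g (1 : R) • D.un R O
      (vm (inc R (sj G l O)) (rscv (sj G l O) (sj_injective l O) g (D.sh R O x))) := by
  classical
  funext i
  ext g'
  rw [cp_apply]
  change _ = (MonoidAlgebra.single g (1 : R) * D.un R O _ i).coeff g'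
  by_cases h : D.r i = O
  · rw [D.un_of_eq _ h]
    change _ = (MonoidAlgebra.single g (1 : R) * (inc R (sj G l O)
      (rsc (sj G l O) (sj_injective l O) g (D.sh R O x i)) *
        MonoidAlgebra.single (D.γ i)⁻¹ 1)).coeff g'
    rw [← mul_assoc, MonoidAlgebra.coeff_mul_single_apply, coeff_part, mul_one, inv_inv,
      D.sh_of_eq _ h, MonoidAlgebra.coeff_mul_single_apply, mul_one, mul_inv_cancel_right]
    have h2 : g⁻¹ * (g' * D.γ i) ∈ (sj G l O).range ↔ g' • l i ∈ ({g • l O} : Set X) := by
      rw [mem_range_sj, Set.mem_singleton_iff, D.lab i, h, mul_smul, inv_smul_eq_iff, mul_smul]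
    by_cases h3 : g' • l i ∈ ({g • l O} : Set X)
    · rw [if_pos h3, if_pos (h2.2 h3)]
    · rw [if_neg h3, if_neg (fun h4 => h3 (h2.1 h4))]
  · rw [D.un_of_ne _ h, mul_zero, if_neg]
    · rfl
    · intro h2
      apply h
      rw [Set.mem_singleton_iff] at h2
      have h3 : l i = (g'⁻¹ * g) • l O := by rw [mul_smul, ← h2, inv_smul_smul]
      rw [D.orb _ _ _ h3, hO]

theorem r_eq_of_r {i O : ι} (h : D.r i = O) : D.r O = O := by
  rw [← h]
  exact D.rr i

theorem gker_eq_gi [Fintype ι] {κ : Type*} (M : Matrix ι κ (MonoidAlgebra R G)) :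
    gker l M = D.gi (fun O => D.kerH O M) := by
  classical
  ext x
  rw [mem_gker, D.mem_gi]
  constructor
  · intro h O
    rw [mem_indG_iff _ (sj_injective l O)]
    intro g
    refine ⟨fun i hi => ?_, ?_⟩
    · change rsc (sj G l O) (sj_injective l O) g (D.sh R O x i) = 0
      rw [D.sh_of_ne _ hi, map_zero]
    · by_cases hO : D.r O = O
      · have h1 := h (g • l O)
        rw [D.cp_eq hO, Matrix.smul_vecMul] at h1
        have h2 := congrArg (fun z => MonoidAlgebra.single g⁻¹ (1 : R) • z) h1
        simp only [smul_smul, single_inv_mul, one_smul, smul_zero] at h2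
        exact h2
      · have h1 : D.un R O (vm (inc R (sj G l O)) (rscv (sj G l O) (sj_injective l O) g
            (D.sh R O x))) = 0 := by
          funext i
          exact D.un_of_ne _ fun h2 => hO (D.r_eq_of_r h2)
        rw [h1, Matrix.zero_vecMul]
  · intro h ξ
    by_cases hξ : ∃ i, ∃ g : G, g • l i = ξ
    · obtain ⟨i, g, rfl⟩ := hξ
      have h1 : g • l i = (g * D.γ i) • l (D.r i) := by
        rw [mul_smul, ← D.lab i]
      rw [h1, D.cp_eq (D.rr i), Matrix.smul_vecMul]
      have h2 := ((mem_indG_iff _ (sj_injective l (D.r i)) _ _).1 (h (D.r i)) (g * D.γ i)).2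
      rw [h2, smul_zero]
    · have h1 : cp l {ξ} x = 0 := by
        funext i
        ext g
        rw [cp_apply, if_neg]
        · rfl
        · intro h2
          exact hξ ⟨i, g, h2⟩
      rw [h1, Matrix.zero_vecMul]

end NrmD

end Pool.Agent.Lib.MP_c052b4_al
end
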