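import Pool.Agent.Lib.MP_c052b4_al.Mg.G068
import Pool.Agent.Lib.MP_c052b4_al.Mg.G069

section

/-!
# Finitely supported functions on `H`-sets with values in free modules

`U →₀ (Fin m → R[H])` is a free module; `tw f` are the values of `f` (the component in degree `w`
is `w ⊗ tw f w` for the diagonal action).
-/

set_option autoImplicit false
set_option linter.unusedSectionVars false

namespace Pool.Agent.Lib.MP_c052b4_al

open Matrix

universe u v w w'

section TL

variable {A : Type*} [Ring A] {M : Type*} [AddCommGroup M] [Module A M] {U V W : Type*}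

/-- `c ⊗ x` -/
noncomputable def sx (c : V →₀ ℤ) (x : M) : V →₀ M := c.mapRange (fun n => n • x) (zero_smul ℤ x)

theorem sx_apply (c : V →₀ ℤ) (x : M) (v : V) : sx c x v = c v • x := Finsupp.mapRange_apply ..

theorem sx_add_left (c c' : V →₀ ℤ) (x : M) : sx (c + c') x = sx c x + sx c' x := by
  ext v
  rw [Finsupp.add_apply, sx_apply, sx_apply, sx_apply, Finsupp.add_apply, add_smul]

theorem sx_zero_left (x : M) : sx (0 : V →₀ ℤ) x = 0 := by
  ext v
  rw [sx_apply, Finsupp.zero_apply, zero_smul, Finsupp.zero_apply]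

theorem sx_add_right (c : V →₀ ℤ) (x y : M) : sx c (x + y) = sx c x + sx c y := by
  ext v
  rw [Finsupp.add_apply, sx_apply, sx_apply, sx_apply, smul_add]

theorem sx_smul (c : V →₀ ℤ) (a : A) (x : M) : sx c (a • x) = a • sx c x := by
  ext v
  rw [Finsupp.smul_apply, sx_apply, sx_apply, smul_comm]

theorem sx_zsmul (n : ℤ) (c : V →₀ ℤ) (x : M) : sx (n • c) x = sx c (n • x) := by
  ext v
  rw [sx_apply, sx_apply, Finsupp.smul_apply, smul_smul, smul_eq_mul, mul_comm]

theorem sx_single (v : V) (n : ℤ) (x : M) : sx (Finsupp.single v n) x = Finsupp.single v (n • x) := by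
  classical
  ext v'
  rw [sx_apply, Finsupp.single_apply, Finsupp.single_apply]
  split_ifs
  · rfl
  · exact zero_smul _ _

variable (A) in
/-- the linear map with the matrix `s` -/
noncomputable def TL (s : U → (V →₀ ℤ)) : (U →₀ M) →ₗ[A] (V →₀ M) :=
  Finsupp.lsum ℕ fun u =>
    { toFun := sx (s u)
      map_add' := sx_add_right (s u)
      map_smul' := sx_smul (s u) }

theorem TL_single (s : U → (V →₀ ℤ)) (u : U) (x : M) :
    TL A s (Finsupp.single u x) = sx (s u) x := by
  unfold TL
  rw [Finsupp.lsum_single]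
  rfl

theorem TL_sx (s : V → (W →₀ ℤ)) (c : V →₀ ℤ) (x : M) :
    TL A s (sx c x) = sx (TL ℤ s c) x := by
  induction c using Finsupp.induction_linear with
  | zero => rw [sx_zero_left, map_zero, map_zero, sx_zero_left]
  | add c c' h h' => rw [sx_add_left, map_add, map_add, sx_add_left, h, h']
  | single v n =>
    rw [sx_single, TL_single, TL_single]
    ext w
    rw [sx_apply, sx_apply, sx_apply, smul_smul, smul_eq_mul]

theorem TL_comp (s : V → (W →₀ ℤ)) (s' : U → (V →₀ ℤ)) (f : U →₀ M) :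
    TL A s (TL A s' f) = TL A (fun u => TL ℤ s (s' u)) f := by
  induction f using Finsupp.induction_linear with
  | zero => simp only [map_zero]
  | add f g h h' => simp only [map_add, h, h']
  | single u x => rw [TL_single, TL_sx, TL_single]

theorem TL_id (f : U →₀ M) : TL A (fun u => Finsupp.single u (1 : ℤ)) f = f := by
  induction f using Finsupp.induction_linear with
  | zero => simp only [map_zero]
  | add f g h h' => simp only [map_add, h, h']
  | single u x => rw [TL_single, sx_single, one_smul]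

theorem TL_add (s s' : U → (V →₀ ℤ)) (f : U →₀ M) :
    TL A (fun u => s u + s' u) f = TL A s f + TL A s' f := by
  induction f using Finsupp.induction_linear with
  | zero => simp only [map_zero, add_zero]
  | add f g h h' =>
    rw [map_add, map_add, map_add, h, h']
    abel
  | single u x => rw [TL_single, TL_single, TL_single, sx_add_left]

theorem TL_zero (f : U →₀ M) : TL A (fun _ => (0 : V →₀ ℤ)) f = 0 := by
  induction f using Finsupp.induction_linear with
  | zero => rw [map_zero]
  | add f g h h' => rw [map_add, h, h', add_zero]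
  | single u x => rw [TL_single, sx_zero_left]

theorem TL_of_linear (d : (U →₀ ℤ) →ₗ[ℤ] (V →₀ ℤ)) (c : U →₀ ℤ) :
    TL ℤ (fun u => d (Finsupp.single u 1)) c = d c := by
  induction c using Finsupp.induction_linear with
  | zero => simp only [map_zero]
  | add f g h h' => simp only [map_add, h, h']
  | single u x =>
    rw [TL_single]
    have : Finsupp.single u x = x • Finsupp.single u (1 : ℤ) := by
      rw [Finsupp.smul_single, smul_eq_mul, mul_one]
    rw [this, map_smul]
    ext v
    rw [sx_apply, Finsupp.smul_apply, smul_eq_mul, smul_eq_mul, mul_comm]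

theorem TL_mem (s : U → (V →₀ ℤ)) (I : AddSubgroup M) (f : U →₀ M) (hf : ∀ u, f u ∈ I) (v : V) :
    TL A s f v ∈ I := by
  have h : TL A s f = f.sum fun u x => sx (s u) x := by
    unfold TL
    rw [Finsupp.lsum_apply]
    rfl
  rw [h, Finsupp.sum, Finsupp.finsetSum_apply]
  refine AddSubgroup.sum_mem _ fun u _ => ?_
  rw [sx_apply]
  exact AddSubgroup.zsmul_mem _ (hf u) _

/-- the sum of the values -/
noncomputable def ag (A : Type*) [Ring A] {M : Type*} [AddCommGroup M] [Module A M] {U : Type*} :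
    (U →₀ M) →ₗ[A] M := Finsupp.lsum ℕ fun _ => LinearMap.id

theorem ag_single (u : U) (x : M) : ag A (Finsupp.single u x) = x := by
  unfold ag
  rw [Finsupp.lsum_single]
  rfl

theorem TL_const (u0 : V) (f : U →₀ M) :
    TL A (fun _ => Finsupp.single u0 (1 : ℤ)) f = Finsupp.single u0 (ag A f) := by
  induction f using Finsupp.induction_linear with
  | zero => simp only [map_zero, Finsupp.single_zero]
  | add f g h h' => rw [map_add, map_add, h, h', Finsupp.single_add]
  | single u x => rw [TL_single, sx_single, one_smul, ag_single]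

theorem ag_sx (c : V →₀ ℤ) (x : M) : ag A (sx c x) = ag ℤ c • x := by
  induction c using Finsupp.induction_linear with
  | zero => rw [sx_zero_left, map_zero, map_zero, zero_smul]
  | add c c' h h' => rw [sx_add_left, map_add, map_add, add_smul, h, h']
  | single v n => rw [sx_single, ag_single, ag_single]

theorem ag_TL (s : U → (V →₀ ℤ)) (hs : ∀ u, ag ℤ (s u) = 0) (f : U →₀ M) :
    ag A (TL A s f) = 0 := by
  induction f using Finsupp.induction_linear with
  | zero => simp only [map_zero]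
  | add f g h h' => rw [map_add, map_add, h, h', add_zero]
  | single u x => rw [TL_single, ag_sx, hs, zero_smul]

theorem ag_mem (I : AddSubgroup M) (f : U →₀ M) (hf : ∀ u, f u ∈ I) : ag A f ∈ I := by
  have h : ag A f = f.sum fun _ x => x := by
    unfold ag
    rw [Finsupp.lsum_apply]
    rfl
  rw [h, Finsupp.sum]
  exact AddSubgroup.sum_mem _ fun u _ => hf u

end TL

section Tw

variable {R : Type u} [Ring R] {H : Type v} [Group H] {U : Type w} [MulAction H U] {m : ℕ}

theorem vlt_finite (θ : H → H) (f : U →₀ (Fin m → MonoidAlgebra R H)) (w : U) (i : Fin m) :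
    (Function.support fun g => (f (θ g • w) i).coeff g).Finite := by
  refine (f.support.finite_toSet.biUnion (t := fun u => ((f u i).coeff.support : Set H))
    fun u _ => Finset.finite_toSet _).subset ?_
  intro g hg
  have hg' : (f (θ g • w) i).coeff g ≠ 0 := hg
  rw [Set.mem_iUnion₂]
  refine ⟨θ g • w, ?_, ?_⟩
  · rw [Finset.mem_coe, Finsupp.mem_support_iff]
    intro h
    rw [h] at hg'
    exact hg' rfl
  · rw [Finset.mem_coe, Finsupp.mem_support_iff]
    exact hg'

/-- the values -/
noncomputable def vlt (θ : H → H) (f : U →₀ (Fin m → MonoidAlgebra R H)) (w : U) :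
    Fin m → MonoidAlgebra R H := fun i =>
  MonoidAlgebra.ofCoeff (Finsupp.ofSupportFinite (fun g => (f (θ g • w) i).coeff g)
    (vlt_finite θ f w i))

theorem coeff_vlt (θ : H → H) (f : U →₀ (Fin m → MonoidAlgebra R H)) (w : U) (i : Fin m)
    (g : H) : (vlt θ f w i).coeff g = (f (θ g • w) i).coeff g := rfl

theorem twg_finite (θ : H → H) (f : U →₀ (Fin m → MonoidAlgebra R H)) :
    (Function.support (vlt θ f)).Finite := by
  refine (f.support.finite_toSet.biUnion (t := fun u => ⋃ i : Fin m,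
    (fun g => (θ g)⁻¹ • u) '' ((f u i).coeff.support : Set H))
    fun u _ => Set.finite_iUnion fun i => (Finset.finite_toSet _).image _).subset ?_
  intro w hw
  have hw' : vlt θ f w ≠ 0 := hw
  obtain ⟨i, hi⟩ := Function.ne_iff.1 hw'
  obtain ⟨g, hg⟩ : ∃ g, (vlt θ f w i).coeff g ≠ 0 := by
    by_contra hcon
    push Not at hcon
    apply hi
    ext g
    rw [hcon]
    rfl
  rw [coeff_vlt] at hg
  rw [Set.mem_iUnion₂]
  refine ⟨θ g • w, ?_, ?_⟩
  · rw [Finset.mem_coe, Finsupp.mem_support_iff]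
    intro h
    rw [h] at hg
    exact hg rfl
  · rw [Set.mem_iUnion]
    refine ⟨i, g, ?_, inv_smul_smul _ _⟩
    rw [Finset.mem_coe, Finsupp.mem_support_iff]
    exact hg

/-- the twist -/
noncomputable def twg (θ : H → H) (f : U →₀ (Fin m → MonoidAlgebra R H)) :
    U →₀ (Fin m → MonoidAlgebra R H) := Finsupp.ofSupportFinite (vlt θ f) (twg_finite θ f)

theorem coeff_twg (θ : H → H) (f : U →₀ (Fin m → MonoidAlgebra R H)) (w : U) (i : Fin m)
    (g : H) : (twg θ f w i).coeff g = (f (θ g • w) i).coeff g := rfl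

theorem fin_ext {f f' : U →₀ (Fin m → MonoidAlgebra R H)}
    (h : ∀ w i g, (f w i).coeff g = (f' w i).coeff g) : f = f' := by
  ext w i g
  exact h w i g

/-- the values for the diagonal action -/
noncomputable def tw : (U →₀ (Fin m → MonoidAlgebra R H)) →+ (U →₀ (Fin m → MonoidAlgebra R H))
    where
  toFun := twg fun g => g⁻¹
  map_zero' := fin_ext fun _ _ _ => rfl
  map_add' _ _ := fin_ext fun _ _ _ => rfl

/-- the inverse -/
noncomputable def utw : (U →₀ (Fin m → MonoidAlgebra R H)) →+ (U →₀ (Fin m → MonoidAlgebra R H))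
    where
  toFun := twg fun g => g
  map_zero' := fin_ext fun _ _ _ => rfl
  map_add' _ _ := fin_ext fun _ _ _ => rfl

theorem coeff_tw (f : U →₀ (Fin m → MonoidAlgebra R H)) (w : U) (i : Fin m) (g : H) :
    (tw f w i).coeff g = (f (g⁻¹ • w) i).coeff g := rfl

theorem coeff_utw (f : U →₀ (Fin m → MonoidAlgebra R H)) (w : U) (i : Fin m) (g : H) :
    (utw f w i).coeff g = (f (g • w) i).coeff g := rfl

theorem tw_utw (f : U →₀ (Fin m → MonoidAlgebra R H)) : tw (utw f) = f :=
  fin_ext fun w i g => by rw [coeff_tw, coeff_utw, smul_inv_smul]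

theorem utw_tw (f : U →₀ (Fin m → MonoidAlgebra R H)) : utw (tw f) = f :=
  fin_ext fun w i g => by rw [coeff_utw, coeff_tw, inv_smul_smul]

theorem tw_injective : Function.Injective
    (tw : (U →₀ (Fin m → MonoidAlgebra R H)) →+ (U →₀ (Fin m → MonoidAlgebra R H))) :=
  fun f f' h => by rw [← utw_tw f, h, utw_tw]

/-- the generators -/
noncomputable def tgen (u : U) (i : Fin m) (g : H) (r : R) : U →₀ (Fin m → MonoidAlgebra R H) :=
  Finsupp.single u (Pi.single i (MonoidAlgebra.single g r))

theorem coeff_tgen [DecidableEq U] [DecidableEq H] (u : U) (i : Fin m) (g : H) (r : R) (w : U)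
    (j : Fin m) (g' : H) :
    (tgen u i g r w j).coeff g' = if u = w ∧ i = j ∧ g = g' then r else 0 := by
  unfold tgen
  rw [Finsupp.single_apply]
  by_cases h1 : u = w
  · rw [if_pos h1]
    by_cases h2 : i = j
    · subst h2
      rw [Pi.single_eq_same, MonoidAlgebra.coeff_single, Finsupp.single_apply]
      by_cases h3 : g = g'
      · rw [if_pos h3, if_pos ⟨h1, rfl, h3⟩]
      · rw [if_neg h3, if_neg fun h => h3 h.2.2]
    · rw [Pi.single_eq_of_ne (Ne.symm h2), if_neg fun h => h2 h.2.1]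
      rfl
  · rw [if_neg h1, if_neg fun h => h1 h.1]
    rfl

theorem tw_tgen (u : U) (i : Fin m) (g : H) (r : R) :
    tw (tgen u i g r : U →₀ (Fin m → MonoidAlgebra R H)) = tgen (g • u) i g r := by
  classical
  refine fin_ext fun w j g' => ?_
  rw [coeff_tw, coeff_tgen, coeff_tgen]
  refine if_congr ?_ rfl rfl
  constructor
  · rintro ⟨h1, h2, h3⟩
    subst h3
    exact ⟨by rw [h1, smul_inv_smul], h2, rfl⟩
  · rintro ⟨h1, h2, h3⟩
    subst h3
    exact ⟨by rw [← h1, inv_smul_smul], h2, rfl⟩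

theorem fin_ind {p : (U →₀ (Fin m → MonoidAlgebra R H)) → Prop} (h0 : p 0)
    (hadd : ∀ f f', p f → p f' → p (f + f')) (hg : ∀ u i g r, p (tgen u i g r))
    (f : U →₀ (Fin m → MonoidAlgebra R H)) : p f := by
  classical
  induction f using Finsupp.induction_linear with
  | zero => exact h0
  | add f g h h' => exact hadd f g h h'
  | single u x =>
    refine vec_induction (p := fun x => p (Finsupp.single u x)) ?_ ?_ ?_ x
    · rw [Finsupp.single_zero]
      exact h0
    · intro x y hx hy
      rw [Finsupp.single_add]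
      exact hadd _ _ hx hy
    · exact fun i g r => hg u i g r

theorem tw_smul (h : H) (r : R) (f : U →₀ (Fin m → MonoidAlgebra R H)) (w : U) :
    tw (MonoidAlgebra.single h r • f) w = MonoidAlgebra.single h r • tw f (h⁻¹ • w) := by
  funext i
  ext g
  rw [coeff_tw]
  change (MonoidAlgebra.single h r * f (g⁻¹ • w) i).coeff g =
    (MonoidAlgebra.single h r * tw f (h⁻¹ • w) i).coeff g
  rw [MonoidAlgebra.coeff_single_mul_apply, MonoidAlgebra.coeff_single_mul_apply, coeff_tw,
    smul_smul, _root_.mul_inv_rev, inv_inv, mul_inv_cancel_right]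

theorem tgen_eq_sx (v : U) (n : ℤ) (i : Fin m) (g : H) (r : R) :
    (Finsupp.single v (n • (Pi.single i (MonoidAlgebra.single g r) : Fin m → MonoidAlgebra R H)))
      = tgen v i g (n • r) := by
  unfold tgen
  congr 1
  rw [← Pi.single_smul, MonoidAlgebra.smul_single]

theorem tw_sx (c : U →₀ ℤ) (i : Fin m) (g : H) (r : R) :
    tw (sx c (Pi.single i (MonoidAlgebra.single g r) : Fin m → MonoidAlgebra R H)) =
      sx (c.mapDomain fun u => g • u) (Pi.single i (MonoidAlgebra.single g r)) := by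
  induction c using Finsupp.induction_linear with
  | zero => rw [sx_zero_left, map_zero, Finsupp.mapDomain_zero, sx_zero_left]
  | add c c' h h' => rw [sx_add_left, map_add, Finsupp.mapDomain_add, sx_add_left, h, h']
  | single v n =>
    rw [sx_single, Finsupp.mapDomain_single, sx_single, tgen_eq_sx, tgen_eq_sx, tw_tgen]

theorem tw_TL {V : Type w'} [MulAction H V] (d : U → (V →₀ ℤ))
    (hd : ∀ (h : H) u, d (h • u) = (d u).mapDomain fun v => h • v)
    (f : U →₀ (Fin m → MonoidAlgebra R H)) :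
    tw (TL (MonoidAlgebra R H) d f) = TL (MonoidAlgebra R H) d (tw f) := by
  refine fin_ind (p := fun f => tw (TL (MonoidAlgebra R H) d f) =
    TL (MonoidAlgebra R H) d (tw f)) ?_ ?_ ?_ f
  · simp only [map_zero]
  · intro f f' h h'
    simp only [map_add, h, h']
  · intro u i g r
    rw [tw_tgen]
    unfold tgen
    rw [TL_single, TL_single, tw_sx, hd]

theorem ag_tw (f : U →₀ (Fin m → MonoidAlgebra R H)) :
    ag (MonoidAlgebra R H) (tw f) = ag (MonoidAlgebra R H) f := by
  refine fin_ind (p := fun f => ag (MonoidAlgebra R H) (tw f) = ag (MonoidAlgebra R H) f)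
    ?_ ?_ ?_ f
  · simp only [map_zero]
  · intro f f' h h'
    simp only [map_add, h, h']
  · intro u i g r
    rw [tw_tgen]
    unfold tgen
    rw [ag_single, ag_single]

/-- the functions with values in `I` -/
noncomputable def EI (U : Type w) [MulAction H U]
    (I : Submodule (MonoidAlgebra R H) (Fin m → MonoidAlgebra R H)) :
    Submodule (MonoidAlgebra R H) (U →₀ (Fin m → MonoidAlgebra R H)) where
  carrier := {f | ∀ w, tw f w ∈ I}
  add_mem' := by
    intro f f' h h' w
    rw [map_add]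
    exact I.add_mem (h w) (h' w)
  zero_mem' := by
    intro w
    rw [map_zero]
    exact I.zero_mem
  smul_mem' := by
    intro a f hf
    induction a using MonoidAlgebra.induction_linear with
    | zero =>
      intro w
      rw [zero_smul, map_zero]
      exact I.zero_mem
    | add a b ha hb =>
      intro w
      rw [add_smul, map_add]
      exact I.add_mem (ha w) (hb w)
    | single h r =>
      intro w
      rw [tw_smul]
      exact I.smul_mem _ (hf _)

theorem mem_EI {I : Submodule (MonoidAlgebra R H) (Fin m → MonoidAlgebra R H)}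
    {f : U →₀ (Fin m → MonoidAlgebra R H)} : f ∈ EI U I ↔ ∀ w, tw f w ∈ I := Iff.rfl

theorem EI_TL {V : Type w'} [MulAction H V] (d : U → (V →₀ ℤ))
    (hd : ∀ (h : H) u, d (h • u) = (d u).mapDomain fun v => h • v)
    {I : Submodule (MonoidAlgebra R H) (Fin m → MonoidAlgebra R H)}
    {f : U →₀ (Fin m → MonoidAlgebra R H)} (hf : f ∈ EI U I) :
    TL (MonoidAlgebra R H) d f ∈ EI V I := by
  intro w
  rw [tw_TL d hd]
  exact TL_mem (A := MonoidAlgebra R H) d I.toAddSubgroup (tw f) hf w

theorem EI_ag {I : Submodule (MonoidAlgebra R H) (Fin m → MonoidAlgebra R H)}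
    {f : U →₀ (Fin m → MonoidAlgebra R H)} (hf : f ∈ EI U I) :
    ag (MonoidAlgebra R H) f ∈ I := by
  rw [← ag_tw]
  exact ag_mem I.toAddSubgroup (tw f) hf

theorem EI_of_retract {V : Type w'} [MulAction H V] (d : U → (V →₀ ℤ))
    (hd : ∀ (h : H) u, d (h • u) = (d u).mapDomain fun v => h • v) (s : V → (U →₀ ℤ))
    (hs : ∀ u, TL ℤ s (d u) = Finsupp.single u 1)
    {I : Submodule (MonoidAlgebra R H) (Fin m → MonoidAlgebra R H)}
    {f : U →₀ (Fin m → MonoidAlgebra R H)} (hf : TL (MonoidAlgebra R H) d f ∈ EI V I) :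
    f ∈ EI U I := by
  intro w
  have h1 : tw f = TL (MonoidAlgebra R H) s (tw (TL (MonoidAlgebra R H) d f)) := by
    rw [tw_TL d hd, TL_comp]
    simp only [hs]
    rw [TL_id]
  rw [h1]
  exact TL_mem (A := MonoidAlgebra R H) s I.toAddSubgroup _ hf w

/-- the action of a matrix on the values -/
noncomputable def mst {n : ℕ} (M : Matrix (Fin m) (Fin n) (MonoidAlgebra R H)) :
    (U →₀ (Fin m → MonoidAlgebra R H)) →ₗ[MonoidAlgebra R H]
      (U →₀ (Fin n → MonoidAlgebra R H)) where
  toFun f := utw ((tw f).mapRange (fun x => x ᵥ* M) (Matrix.zero_vecMul M))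
  map_add' f f' := by
    rw [← map_add]
    congr 1
    ext1 w
    rw [Finsupp.add_apply, Finsupp.mapRange_apply, Finsupp.mapRange_apply,
      Finsupp.mapRange_apply, map_add, Finsupp.add_apply, Matrix.add_vecMul]
  map_smul' a f := by
    apply tw_injective
    ext1 w
    rw [tw_utw, Finsupp.mapRange_apply, RingHom.id_apply]
    induction a using MonoidAlgebra.induction_linear with
    | zero =>
      rw [zero_smul, zero_smul, map_zero, map_zero, Finsupp.zero_apply, Finsupp.zero_apply,
        Matrix.zero_vecMul]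
    | add a b ha hb =>
      rw [add_smul, add_smul, map_add, map_add, Finsupp.add_apply, Finsupp.add_apply,
        Matrix.add_vecMul, ha, hb]
    | single h r =>
      rw [tw_smul, tw_smul, tw_utw, Finsupp.mapRange_apply, Matrix.smul_vecMul]

theorem tw_mst {n : ℕ} (M : Matrix (Fin m) (Fin n) (MonoidAlgebra R H))
    (f : U →₀ (Fin m → MonoidAlgebra R H)) (w : U) : tw (mst M f) w = tw f w ᵥ* M := by
  change tw (utw _) w = _
  rw [tw_utw, Finsupp.mapRange_apply]

theorem mst_TL {V : Type w'} [MulAction H V] (d : U → (V →₀ ℤ))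
    (hd : ∀ (h : H) u, d (h • u) = (d u).mapDomain fun v => h • v) {n : ℕ}
    (M : Matrix (Fin m) (Fin n) (MonoidAlgebra R H)) (f : U →₀ (Fin m → MonoidAlgebra R H)) :
    mst M (TL (MonoidAlgebra R H) d f) = TL (MonoidAlgebra R H) d (mst M f) := by
  apply tw_injective
  ext1 w
  rw [tw_mst, tw_TL d hd, tw_TL d hd]
  have h1 : tw (mst M f) = (tw f).mapRange (fun x => x ᵥ* M) (Matrix.zero_vecMul M) := by
    ext1 w
    rw [tw_mst, Finsupp.mapRange_apply]
  rw [h1]
  induction tw f using Finsupp.induction_linear with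
  | zero =>
    rw [Finsupp.mapRange_zero, map_zero, map_zero, Finsupp.zero_apply, Finsupp.zero_apply,
      Matrix.zero_vecMul]
  | add f f' h h' =>
    rw [Finsupp.mapRange_add (fun x y => Matrix.add_vecMul M x y), map_add, map_add,
      Finsupp.add_apply, Finsupp.add_apply, Matrix.add_vecMul, h, h']
  | single u x =>
    rw [Finsupp.mapRange_single, TL_single, TL_single, sx_apply, sx_apply, Matrix.smul_vecMul]

theorem mst_eq_zero_iff {n : ℕ} (M : Matrix (Fin m) (Fin n) (MonoidAlgebra R H))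
    (f : U →₀ (Fin m → MonoidAlgebra R H)) : mst M f = 0 ↔ f ∈ EI U (rker M) := by
  constructor
  · intro h w
    rw [mem_rker, ← tw_mst, h, map_zero]
    rfl
  · intro h
    apply tw_injective
    ext1 w
    rw [tw_mst, map_zero]
    exact h w

end Tw

end Pool.Agent.Lib.MP_c052b4_al
end

section

/-!
# Extensions and quotients of resolving submodules
-/

set_option autoImplicit false
set_option linter.unusedSectionVars false

namespace Pool.Agent.Lib.MP_c052b4_al

open Matrix

universe u v w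

section

variable {C : Type u} [Ring C]

theorem RQ.mono {n : ℕ} {M : Type u} [AddCommGroup M] [Module C M] {X X' L : Submodule C M}
    (h : RQ C n M X L) (hX : X ≤ X') : RQ C n M X' L := by
  cases n with
  | zero => exact h
  | succ n =>
    obtain ⟨k, ρ, L', h1, h2, h3⟩ := h
    exact ⟨k, ρ, L', h1.trans hX, h2, h3⟩

theorem RQ.le {n : ℕ} {M : Type u} [AddCommGroup M] [Module C M] {X L : Submodule C M}
    (h : RQ C n M X L) : L ≤ X := by
  cases n with
  | zero =>
    have h' : L = ⊥ := h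
    rw [h']
    exact bot_le
  | succ n =>
    obtain ⟨k, ρ, L', h1, h2, h3⟩ := h
    rw [← h2]
    rintro _ ⟨x, -, rfl⟩
    exact h1 ⟨x, rfl⟩

/-- extensions -/
theorem RQ.extend (m : ℕ) : ∀ {n : ℕ} {P W : Type u} [AddCommGroup P] [Module C P]
    [AddCommGroup W] [Module C W] (q : P →ₗ[C] W) (Z Λ : Submodule C P) (Y T : Submodule C W),
    Λ ≤ Z → Y ≤ Λ.map q → RQ C n P (Z ⊓ LinearMap.ker q) (Λ ⊓ LinearMap.ker q) →
    RQ C m W Y T → ∃ n', RQ C n' P Z (Λ ⊓ T.comap q) := by
  induction m with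
  | zero =>
    intro n P W _ _ _ _ q Z Λ Y T hΛ hY hA hB
    have h' : T = ⊥ := hB
    refine ⟨n, ?_⟩
    rw [h', Submodule.comap_bot]
    exact hA.mono inf_le_left
  | succ m ih =>
    intro n P W _ _ _ _ q Z Λ Y T hΛ hY hA hB
    obtain ⟨j, τ, T', hτ1, hτ2, hτ3⟩ := hB
    -- the lift of `τ`
    obtain ⟨lam, hlam1, hlam2⟩ : ∃ lam : (Fin j → C) →ₗ[C] P, (∀ x, lam x ∈ Λ) ∧
        ∀ x, q (lam x) = τ x := by
      let q' : Λ →ₗ[C] Λ.map q := q.restrict fun x hx => ⟨x, hx, rfl⟩
      have hq' : Function.Surjective q' := by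
        rintro ⟨_, x, hx, rfl⟩
        exact ⟨⟨x, hx⟩, rfl⟩
      obtain ⟨f, hf⟩ := Module.projective_lifting_property q'
        (τ.codRestrict (Λ.map q) fun x => hY (hτ1 ⟨x, rfl⟩)) hq'
      exact ⟨Λ.subtype ∘ₗ f, fun x => (f x).2, fun x => congrArg Subtype.val
        (LinearMap.congr_fun hf x)⟩
    cases n with
    | zero =>
      have hA' : Λ ⊓ LinearMap.ker q = ⊥ := hA
      have hker : LinearMap.ker lam = LinearMap.ker τ := by
        ext x
        rw [LinearMap.mem_ker, LinearMap.mem_ker]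
        constructor
        · intro h
          rw [← hlam2, h, map_zero]
        · intro h
          have : lam x ∈ Λ ⊓ LinearMap.ker q := ⟨hlam1 x, by
            change q (lam x) = 0
            rw [hlam2, h]⟩
          rw [hA'] at this
          exact this
      refine ⟨m + 1, j, lam, T', ?_, ?_, ?_⟩
      · rintro _ ⟨x, rfl⟩
        exact hΛ (hlam1 x)
      · ext v
        constructor
        · rintro ⟨x, hx, rfl⟩
          refine ⟨hlam1 x, ?_⟩
          change q (lam x) ∈ T
          rw [hlam2, ← hτ2]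
          exact ⟨x, hx, rfl⟩
        · rintro ⟨hv1, hv2⟩
          have hv2' : q v ∈ T := hv2
          rw [← hτ2] at hv2'
          obtain ⟨x, hx, hxv⟩ := hv2'
          refine ⟨x, hx, ?_⟩
          have : v - lam x ∈ Λ ⊓ LinearMap.ker q := ⟨Λ.sub_mem hv1 (hlam1 x), by
            change q (v - lam x) = 0
            rw [map_sub, hlam2, hxv, sub_self]⟩
          rw [hA'] at this
          exact (sub_eq_zero.1 this).symm
      · rw [hker]
        exact hτ3
    | succ n =>
      obtain ⟨k, ρ, L', hρ1, hρ2, hρ3⟩ := hA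
      let σ : (Fin j → C) × (Fin k → C) →ₗ[C] P := lam.coprod ρ
      have hσ : ∀ x, σ x = lam x.1 + ρ x.2 := fun x => rfl
      have hqρ : ∀ x, q (ρ x) = 0 := fun x => (hρ1 ⟨x, rfl⟩).2
      have hqσ : ∀ x, q (σ x) = τ x.1 := by
        intro x
        rw [hσ, map_add, hlam2, hqρ, add_zero]
      have hkerA : RQ C n ((Fin j → C) × (Fin k → C))
          (LinearMap.ker σ ⊓ LinearMap.ker (LinearMap.fst C (Fin j → C) (Fin k → C)))
          ((LinearMap.ker σ ⊓ (⊤ : Submodule C (Fin j → C)).prod L') ⊓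
            LinearMap.ker (LinearMap.fst C (Fin j → C) (Fin k → C))) := by
        have h5 := hρ3.transport ((LinearMap.inr C (Fin j → C) (Fin k → C)).domRestrict
          (LinearMap.ker ρ)) (fun x y h => Subtype.ext (LinearMap.inr_injective h))
          (X' := LinearMap.ker σ ⊓ LinearMap.ker (LinearMap.fst C (Fin j → C) (Fin k → C))) (by
            rintro _ ⟨x, rfl⟩
            refine ⟨?_, rfl⟩
            change lam 0 + ρ (x : Fin k → C) = 0
            rw [map_zero, zero_add]
            exact x.2)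
        convert h5 using 1
        ext y
        constructor
        · rintro ⟨⟨hy1, -, hy2⟩, hy3⟩
          have hy3' : y.1 = 0 := hy3
          have hy1' : lam y.1 + ρ y.2 = 0 := hy1
          rw [hy3', map_zero, zero_add] at hy1'
          exact ⟨⟨y.2, hy1'⟩, ⟨hy2, hy1'⟩, Prod.ext hy3'.symm rfl⟩
        · rintro ⟨⟨x, hx⟩, ⟨hx1, -⟩, rfl⟩
          refine ⟨⟨?_, trivial, hx1⟩, rfl⟩
          change lam 0 + ρ x = 0
          rw [map_zero, zero_add]
          exact hx
      obtain ⟨n', hn'⟩ := ih (LinearMap.fst C (Fin j → C) (Fin k → C)) (LinearMap.ker σ)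
        (LinearMap.ker σ ⊓ (⊤ : Submodule C (Fin j → C)).prod L') (LinearMap.ker τ)
        (T' ⊓ LinearMap.ker τ) inf_le_left (by
          intro y hy
          have hy' : τ y = 0 := hy
          have h1 : lam y ∈ Λ ⊓ LinearMap.ker q := ⟨hlam1 y, by
            change q (lam y) = 0
            rw [hlam2, hy']⟩
          rw [← hρ2] at h1
          obtain ⟨b, hb, hby⟩ := h1
          refine ⟨(y, -b), ⟨?_, trivial, L'.neg_mem hb⟩, rfl⟩
          change lam y + ρ (-b) = 0
          rw [map_neg, hby, add_neg_cancel]) hkerA hτ3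
      refine ⟨n' + 1, RQ.step_proj σ (T'.prod L') ?_ ?_ ?_⟩
      · rintro _ ⟨x, rfl⟩
        rw [hσ]
        exact Z.add_mem (hΛ (hlam1 _)) (hρ1 ⟨_, rfl⟩).1
      · ext v
        constructor
        · rintro ⟨x, ⟨hx1, hx2⟩, rfl⟩
          have h1 : ρ x.2 ∈ Λ ⊓ LinearMap.ker q := by
            rw [← hρ2]
            exact ⟨_, hx2, rfl⟩
          refine ⟨?_, ?_⟩
          · rw [hσ]
            exact Λ.add_mem (hlam1 _) h1.1
          · change q (σ x) ∈ T
            rw [hqσ, ← hτ2]
            exact ⟨_, hx1, rfl⟩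
        · rintro ⟨hv1, hv2⟩
          have hv2' : q v ∈ T := hv2
          rw [← hτ2] at hv2'
          obtain ⟨x, hx, hxv⟩ := hv2'
          have : v - lam x ∈ Λ ⊓ LinearMap.ker q := ⟨Λ.sub_mem hv1 (hlam1 x), by
            change q (v - lam x) = 0
            rw [map_sub, hlam2, hxv, sub_self]⟩
          rw [← hρ2] at this
          obtain ⟨b, hb, hbv⟩ := this
          refine ⟨(x, b), ⟨hx, hb⟩, ?_⟩
          rw [hσ]
          change lam x + ρ b = v
          rw [hbv, add_sub_cancel]
      · convert hn' using 1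
        ext y
        constructor
        · rintro ⟨⟨hy1, hy2⟩, hy3⟩
          have hy4 : τ y.1 = 0 := by
            have hy3' : σ y = 0 := hy3
            rw [← hqσ, hy3', map_zero]
          exact ⟨⟨hy3, trivial, hy2⟩, hy1, hy4⟩
        · rintro ⟨⟨hy1, -, hy2⟩, hy3, -⟩
          exact ⟨⟨hy3, hy2⟩, hy1⟩

/-- quotients -/
theorem RQ.quot {n m : ℕ} {M N : Type u} [AddCommGroup M] [Module C M] [AddCommGroup N]
    [Module C N] (e : M →ₗ[C] N) {X L Λ : Submodule C M} (h : RQ C n M X L) (hΛ : Λ ≤ L)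
    (h' : RQ C m M (L ⊓ LinearMap.ker e) (Λ ⊓ LinearMap.ker e)) :
    ∃ n', RQ C n' N (X.map e) (Λ.map e) := by
  cases n with
  | zero =>
    have h0 : L = ⊥ := h
    refine ⟨0, ?_⟩
    change Λ.map e = ⊥
    have : Λ = ⊥ := by
      rw [eq_bot_iff, ← h0]
      exact hΛ
    rw [this, Submodule.map_bot]
  | succ n =>
    obtain ⟨k, ρ, L', h1, h2, h3⟩ := h
    have hmem : ∀ x ∈ L', ρ x ∈ L := fun x hx => by
      rw [← h2]
      exact ⟨x, hx, rfl⟩
    have hk : LinearMap.ker (e ∘ₗ ρ) ⊓ LinearMap.ker ρ = LinearMap.ker ρ := by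
      refine inf_eq_right.2 fun x hx => ?_
      change e (ρ x) = 0
      have : ρ x = 0 := hx
      rw [this, map_zero]
    obtain ⟨n', hn'⟩ := RQ.extend m ρ (LinearMap.ker (e ∘ₗ ρ)) (L' ⊓ LinearMap.ker (e ∘ₗ ρ))
      (L ⊓ LinearMap.ker e) (Λ ⊓ LinearMap.ker e) (n := n) inf_le_right (by
        rintro x ⟨hx1, hx2⟩
        rw [← h2] at hx1
        obtain ⟨y, hy, rfl⟩ := hx1
        exact ⟨y, ⟨hy, hx2⟩, rfl⟩) (by
        rw [hk, inf_assoc, hk]
        exact h3) h'
    refine ⟨n' + 1, k, e ∘ₗ ρ, L' ⊓ Λ.comap ρ, ?_, ?_, ?_⟩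
    · rintro _ ⟨x, rfl⟩
      exact ⟨ρ x, h1 ⟨x, rfl⟩, rfl⟩
    · ext x
      constructor
      · rintro ⟨y, ⟨-, hy2⟩, rfl⟩
        exact ⟨ρ y, hy2, rfl⟩
      · rintro ⟨y, hy, rfl⟩
        have hy' := hΛ hy
        rw [← h2] at hy'
        obtain ⟨z, hz, rfl⟩ := hy'
        exact ⟨z, ⟨hz, hy⟩, rfl⟩
    · convert hn' using 1
      ext x
      constructor
      · rintro ⟨⟨hx1, hx2⟩, hx3⟩
        exact ⟨⟨hx1, hx3⟩, hx2, hx3⟩
      · rintro ⟨⟨hx1, hx3⟩, hx2, -⟩
        exact ⟨⟨hx1, hx2⟩, hx3⟩

end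

section OfDM

variable {C : Type u} [Ring C]

/-- the vectors of degree `j` -/
def dgP (V : DM C) (j : ℕ) : Submodule C (V.t → C) where
  carrier := {x | ∀ i, V.deg i ≠ j → x i = 0}
  add_mem' := by
    intro x y hx hy i hi
    rw [Pi.add_apply, hx i hi, hy i hi, add_zero]
  zero_mem' := fun _ _ => rfl
  smul_mem' := by
    intro c x hx i hi
    rw [Pi.smul_apply, hx i hi, smul_zero]

theorem prt_mem_dgP (V : DM C) (j : ℕ) (x : V.t → C) : prt V.deg j x ∈ dgP V j :=
  fun _ hi => if_neg hi

theorem prt_of_mem_dgP {V : DM C} {j : ℕ} {x : V.t → C} (hx : x ∈ dgP V j) :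
    prt V.deg j x = x := prt_self fun i hi => by
  by_contra hne
  exact hi (hx i hne)

theorem prt_smul' {A : Type u} [Ring A] {t : Type*} (deg : t → ℕ) (k : ℕ) (c : A) (x : t → A) :
    prt deg k (c • x) = c • prt deg k x := by
  funext i
  simp only [prt, Pi.smul_apply]
  split_ifs <;> simp

/-- the projection -/
def dgPr (V : DM C) (j : ℕ) : (V.t → C) →ₗ[C] dgP V j where
  toFun x := ⟨prt V.deg j x, prt_mem_dgP V j x⟩
  map_add' x y := Subtype.ext (prt_add j x y)
  map_smul' c x := Subtype.ext (prt_smul' V.deg j c x)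

theorem dgPr_self (V : DM C) (j : ℕ) (x : dgP V j) : dgPr V j (x : V.t → C) = x :=
  Subtype.ext (prt_of_mem_dgP x.2)

instance dgP_finite (V : DM C) (j : ℕ) : Module.Finite C (dgP V j) :=
  Module.Finite.of_surjective (dgPr V j) fun x => ⟨x, dgPr_self V j x⟩

instance dgP_projective (V : DM C) (j : ℕ) : Module.Projective C (dgP V j) :=
  Module.Projective.of_split (M := V.t → C) (dgP V j).subtype (dgPr V j)
    (LinearMap.ext fun x => dgPr_self V j x)

theorem vecMul_D_mem {V : DM C} {j : ℕ} {x : V.t → C} (hx : x ∈ dgP V (j + 1)) :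
    x ᵥ* V.D ∈ dgP V j := by
  have h := prt_vecMul V.hD j x
  rw [prt_of_mem_dgP hx] at h
  rw [← h]
  exact prt_mem_dgP V j _

theorem vecMul_D_zero {V : DM C} {x : V.t → C} (hx : x ∈ dgP V 0) : x ᵥ* V.D = 0 := by
  rw [← prt_of_mem_dgP hx]
  exact vecMul_prt_eq_zero V.hD Nat.zero_lt_one x

/-- the boundary on the vectors of degree `j + 1` -/
def dgD (V : DM C) (j : ℕ) : dgP V (j + 1) →ₗ[C] dgP V j :=
  (Matrix.vecMulLinear V.D).restrict fun _ hx => vecMul_D_mem hx

theorem dgD_apply (V : DM C) (j : ℕ) (x : dgP V (j + 1)) :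
    ((dgD V j x : dgP V j) : V.t → C) = (x : V.t → C) ᵥ* V.D := rfl

/-- the kernel in degree `j` -/
def dgK (V : DM C) {κ : Type} (ρ : Matrix V.t κ C) (j : ℕ) : Submodule C (dgP V j) where
  carrier := {x | (x : V.t → C) ᵥ* V.D = 0 ∧ (x : V.t → C) ᵥ* ρ = 0}
  add_mem' := by
    rintro x y ⟨h1, h2⟩ ⟨h3, h4⟩
    constructor
    · rw [Submodule.coe_add, Matrix.add_vecMul, h1, h3, add_zero]
    · rw [Submodule.coe_add, Matrix.add_vecMul, h2, h4, add_zero]
  zero_mem' := ⟨Matrix.zero_vecMul _, Matrix.zero_vecMul _⟩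
  smul_mem' := by
    rintro c x ⟨h1, h2⟩
    constructor
    · rw [Submodule.coe_smul, Matrix.smul_vecMul, h1, smul_zero]
    · rw [Submodule.coe_smul, Matrix.smul_vecMul, h2, smul_zero]

theorem ker_dgD (V : DM C) {κ : Type} {ρ : Matrix V.t κ C} {L : Submodule C (V.t → C)}
    (h : Rz V ρ L) (j : ℕ) : LinearMap.ker (dgD V j) = dgK V ρ (j + 1) := by
  ext x
  rw [LinearMap.mem_ker]
  constructor
  · intro hx
    refine ⟨congrArg Subtype.val hx, h.vecMul_pos fun i hi hd => hi ?_⟩
    exact x.2 i (by omega)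
  · rintro ⟨hx, -⟩
    exact Subtype.ext hx

theorem rq_dgK {V : DM C} {κ : Type} {ρ : Matrix V.t κ C} {L : Submodule C (V.t → C)}
    (h : Rz V ρ L) : ∀ (r j : ℕ), (∀ i, V.deg i < j + r) →
      RQ C r (dgP V j) (dgK V ρ j) (L.comap (dgP V j).subtype ⊓ dgK V ρ j) := by
  intro r
  induction r with
  | zero =>
    intro j hj
    change _ = ⊥
    rw [eq_bot_iff]
    rintro x -
    rw [Submodule.mem_bot]
    apply Subtype.ext
    funext i
    have := hj i
    exact x.2 i (by omega)
  | succ r ih =>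
    intro j hj
    refine RQ.step_proj (dgD V j) (L.comap (dgP V (j + 1)).subtype) ?_ ?_ ?_
    · rintro _ ⟨x, rfl⟩
      refine ⟨?_, ?_⟩
      · rw [dgD_apply, Matrix.vecMul_vecMul, V.sq, Matrix.vecMul_zero]
      · rw [dgD_apply, Matrix.vecMul_vecMul, h.Dp, Matrix.vecMul_zero]
    · ext x
      constructor
      · rintro ⟨y, hy, rfl⟩
        refine ⟨?_, ?_, ?_⟩
        · change (y : V.t → C) ᵥ* V.D ∈ L
          exact h.st _ hy
        · rw [dgD_apply, Matrix.vecMul_vecMul, V.sq, Matrix.vecMul_zero]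
        · rw [dgD_apply, Matrix.vecMul_vecMul, h.Dp, Matrix.vecMul_zero]
      · rintro ⟨hx1, hx2, hx3⟩
        obtain ⟨y, hy, hyx⟩ := h.ex (x : V.t → C) hx1 hx2 hx3
        refine ⟨⟨prt V.deg (j + 1) y, prt_mem_dgP V _ _⟩, h.gr y hy _, ?_⟩
        apply Subtype.ext
        rw [dgD_apply]
        change prt V.deg (j + 1) y ᵥ* V.D = (x : V.t → C)
        rw [← prt_vecMul V.hD, hyx, prt_of_mem_dgP x.2]
    · rw [ker_dgD V h]
      exact ih (j + 1) fun i => by
        have := hj i
        omega

/-- from complexes to iterated covers -/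
theorem Rz.rq {V : DM C} {κ : Type} [Finite κ] {ρ : Matrix V.t κ C}
    {L : Submodule C (V.t → C)} (h : Rz V ρ L) {X : Submodule C (κ → C)}
    (hX : ∀ i, ρ i ∈ X) : ∃ n, RQ C n (κ → C) X (L.map (Matrix.vecMulLinear ρ)) := by
  obtain ⟨r, hr⟩ : ∃ r : ℕ, ∀ i, V.deg i < 0 + r := by
    refine ⟨Finset.univ.sup V.deg + 1, fun i => ?_⟩
    rw [zero_add]
    exact Nat.lt_succ_of_le (Finset.le_sup (Finset.mem_univ i))
  refine ⟨r + 1, RQ.step_proj ((Matrix.vecMulLinear ρ).domRestrict (dgP V 0))
    (L.comap (dgP V 0).subtype) ?_ ?_ ?_⟩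
  · rintro _ ⟨x, rfl⟩
    change (x : V.t → C) ᵥ* ρ ∈ X
    have : (x : V.t → C) ᵥ* ρ = ∑ i, (x : V.t → C) i • ρ i := by
      funext j
      simp [Matrix.vecMul, dotProduct, Finset.sum_apply]
    rw [this]
    exact X.sum_mem fun i _ => X.smul_mem _ (hX i)
  · ext x
    constructor
    · rintro ⟨y, hy, rfl⟩
      exact ⟨(y : V.t → C), hy, rfl⟩
    · rintro ⟨y, hy, rfl⟩
      refine ⟨⟨prt V.deg 0 y, prt_mem_dgP V _ _⟩, h.gr y hy _, ?_⟩
      exact h.prt_zero_vecMul y
  · have hk : LinearMap.ker ((Matrix.vecMulLinear ρ).domRestrict (dgP V 0)) = dgK V ρ 0 := by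
      ext x
      constructor
      · intro hx
        exact ⟨vecMul_D_zero x.2, hx⟩
      · rintro ⟨-, hx⟩
        exact hx
    rw [hk]
    exact rq_dgK h r 0 hr

end OfDM

end Pool.Agent.Lib.MP_c052b4_al
end
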