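import Mathlib

section

/-!
# Elementary facts on trees
-/

set_option autoImplicit false
set_option linter.unusedSectionVars false

namespace Pool.Agent.Lib.MP_c052b4_al

open SimpleGraph

universe w

variable {V : Type w} {T : SimpleGraph V}

/-- the neighbour closer to the root is unique -/
theorem closer_unique (hT : T.IsTree) (r : V) {x y z : V} (hy : T.Adj x y) (hz : T.Adj x z)
    (h1 : T.dist r x = T.dist r y + 1) (h2 : T.dist r x = T.dist r z + 1) : y = z := by
  classical
  obtain ⟨p, hp, hpl⟩ := hT.connected.exists_path_of_dist r x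
  have key : ∀ y, T.Adj x y → T.dist r x = T.dist r y + 1 → y = p.penultimate := by
    intro y hy h1
    obtain ⟨q, hq, hql⟩ := hT.connected.exists_path_of_dist r y
    apply hT.isAcyclic.eq_penultimate_of_adj_end hp hy
    apply hT.isAcyclic.mem_support_of_ne_mem_support_of_adj_of_isPath hp hq hy
    intro hx
    have h3 : T.dist r x ≤ (q.takeUntil x hx).length := dist_le _
    have h4 : (q.takeUntil x hx).length ≤ q.length := q.length_takeUntil_le hx
    omega
  rw [key y hy h1, key z hz h2]

/-- existence of a neighbour closer to the root -/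
theorem exists_closer (hT : T.IsTree) (r : V) {x : V} (hx : x ≠ r) :
    ∃ y, T.Adj x y ∧ T.dist r x = T.dist r y + 1 := by
  obtain ⟨p, hp, hpl⟩ := hT.connected.exists_path_of_dist r x
  have hnil : ¬ p.Nil := fun h => hx h.eq.symm
  have h1 : T.Adj p.penultimate x := p.adj_penultimate hnil
  refine ⟨p.penultimate, h1.symm, ?_⟩
  have h2 : T.dist r p.penultimate ≤ p.dropLast.length := dist_le _
  have h3 : p.dropLast.length + 1 = p.length := p.length_dropLast_add_one hnil
  rcases hT.dist_eq_dist_add_one_of_adj r h1 with h | h <;> omega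

/-- The half tree at `b` of the edge from `a` to `b`. -/
def side (T : SimpleGraph V) (a b : V) : Set V := {x | T.dist x b < T.dist x a}

theorem mem_side {a b x : V} : x ∈ side T a b ↔ T.dist x b < T.dist x a := Iff.rfl

theorem not_mem_side (hT : T.IsTree) {a b : V} (hab : T.Adj a b) {x : V} :
    x ∉ side T a b ↔ x ∈ side T b a := by
  rw [mem_side, mem_side]
  rcases hT.dist_eq_dist_add_one_of_adj x hab with h | h <;> omega

theorem right_mem_side {a b : V} (hab : T.Adj a b) : b ∈ side T a b := by
  rw [mem_side, dist_self, dist_eq_one_iff_adj.2 hab.symm]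
  exact one_pos

theorem left_not_mem_side {a b : V} : a ∉ side T a b := by
  rw [mem_side, dist_self]
  omega

/-- the only edge joining the two half trees of an edge is the edge itself -/
theorem side_cross (hT : T.IsTree) {a b x y : V} (hab : T.Adj a b) (hxy : T.Adj x y)
    (hx : x ∈ side T a b) (hy : y ∉ side T a b) : x = b ∧ y = a := by
  have hx' : T.dist x a = T.dist x b + 1 := by
    rw [mem_side] at hx
    rcases hT.dist_eq_dist_add_one_of_adj x hab with h | h <;> omega
  have hy' : T.dist y b = T.dist y a + 1 := by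
    rw [mem_side] at hy
    rcases hT.dist_eq_dist_add_one_of_adj y hab with h | h <;> omega
  have e1 := hT.dist_eq_dist_add_one_of_adj a hxy
  have e2 := hT.dist_eq_dist_add_one_of_adj b hxy
  rw [dist_comm (u := a) (v := x), dist_comm (u := a) (v := y)] at e1
  rw [dist_comm (u := b) (v := x), dist_comm (u := b) (v := y)] at e2
  have h1 : T.dist x a = T.dist y a + 1 := by omega
  have h2 : T.dist y b = T.dist x b + 1 := by omega
  have h3 : T.dist x b = T.dist y a := by omega
  constructor
  · by_contra hne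
    obtain ⟨x', hx'a, hx'd⟩ := exists_closer hT b hne
    rw [dist_comm (u := b) (v := x), dist_comm (u := b) (v := x')] at hx'd
    have h4 : T.dist x' a ≤ T.dist x' b + T.dist b a := hT.connected.dist_triangle
    rw [dist_eq_one_iff_adj.2 hab.symm] at h4
    have e3 := hT.dist_eq_dist_add_one_of_adj a hx'a
    rw [dist_comm (u := a) (v := x), dist_comm (u := a) (v := x')] at e3
    have h5 : T.dist x a = T.dist x' a + 1 := by omega
    have : x' = y := closer_unique hT a hx'a hxy
      (by rw [dist_comm (u := a) (v := x), dist_comm (u := a) (v := x')]; exact h5)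
      (by rw [dist_comm (u := a) (v := x), dist_comm (u := a) (v := y)]; exact h1)
    subst this
    omega
  · by_contra hne
    obtain ⟨y', hy'a, hy'd⟩ := exists_closer hT a hne
    rw [dist_comm (u := a) (v := y), dist_comm (u := a) (v := y')] at hy'd
    have h4 : T.dist y' b ≤ T.dist y' a + T.dist a b := hT.connected.dist_triangle
    rw [dist_eq_one_iff_adj.2 hab] at h4
    have e3 := hT.dist_eq_dist_add_one_of_adj b hy'a
    rw [dist_comm (u := b) (v := y), dist_comm (u := b) (v := y')] at e3
    have h5 : T.dist y b = T.dist y' b + 1 := by omega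
    have : y' = x := closer_unique hT b hy'a hxy.symm
      (by rw [dist_comm (u := b) (v := y), dist_comm (u := b) (v := y')]; exact h5)
      (by rw [dist_comm (u := b) (v := y), dist_comm (u := b) (v := x)]; exact h2)
    subst this
    omega

/-- distances from a point outside a half tree to a point inside -/
theorem dist_le_of_mem_side (hT : T.IsTree) {a b p : V} (hab : T.Adj a b)
    (hp : p ∉ side T a b) : ∀ (n : ℕ) (x : V), T.dist p x = n → x ∈ side T a b →
      T.dist p b ≤ n := by
  intro n
  induction n with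
  | zero =>
    intro x hx hxs
    have : p = x := (hT.connected.dist_eq_zero_iff).1 hx
    subst this
    exact absurd hxs hp
  | succ n ih =>
    intro x hx hxs
    have hne : x ≠ p := by
      rintro rfl
      exact hp hxs
    obtain ⟨y, hxy, hy⟩ := exists_closer hT p hne
    by_cases hys : y ∈ side T a b
    · have := ih y (by omega) hys
      omega
    · obtain ⟨rfl, rfl⟩ := side_cross hT hab hxy hxs hys
      omega

/-- The darts of a tree: ordered pairs of adjacent vertices. -/
abbrev Dt (T : SimpleGraph V) : Type w := {p : V × V // T.Adj p.1 p.2}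

/-- The reversed dart. -/
def rev (e : Dt T) : Dt T := ⟨(e.1.2, e.1.1), e.2.symm⟩

theorem rev_rev (e : Dt T) : rev (rev e) = e := rfl

/-- The half tree at the end of a dart. -/
def dside (e : Dt T) : Set V := side T e.1.1 e.1.2

/-- `f` follows `e` without backtracking. -/
def foll (e f : Dt T) : Prop := f.1.1 = e.1.2 ∧ f.1.2 ≠ e.1.1

/-- `f` lies strictly beyond `e`. -/
def bey (e f : Dt T) : Prop := f.1.1 ∈ dside e ∧ f.1.2 ∈ dside e

theorem bey_rev {e f : Dt T} : bey e (rev f) ↔ bey e f := and_comm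

theorem rev_ne (e : Dt T) : rev e ≠ e := by
  intro h
  have h1 : e.1.2 = e.1.1 := congrArg (fun f : Dt T => f.1.1) h
  exact e.2.ne h1.symm

theorem not_bey_self (e : Dt T) : ¬ bey e e := fun h => left_not_mem_side h.1

theorem not_bey_rev (e : Dt T) : ¬ bey e (rev e) := fun h => left_not_mem_side h.2

theorem orig_mem_dside (hT : T.IsTree) {e f : Dt T} : f.1.1 ∈ dside e ↔ f = rev e ∨ bey e f := by
  constructor
  · intro h
    by_cases h2 : f.1.2 ∈ dside e
    · exact Or.inr ⟨h, h2⟩
    · left
      obtain ⟨h3, h4⟩ := side_cross hT e.2 f.2 h h2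
      apply Subtype.ext
      exact Prod.ext h3 h4
  · rintro (rfl | h)
    · exact right_mem_side e.2
    · exact h.1

theorem orig_eq_iff {e f : Dt T} : f.1.1 = e.1.2 ↔ f = rev e ∨ foll e f := by
  constructor
  · intro h
    by_cases h2 : f.1.2 = e.1.1
    · left
      apply Subtype.ext
      exact Prod.ext h h2
    · exact Or.inr ⟨h, h2⟩
  · rintro (rfl | h)
    · rfl
    · exact h.1

theorem foll.bey (hT : T.IsTree) {e f : Dt T} (h : foll e f) : bey e f := by
  have h1 : f.1.1 ∈ dside e := by
    rw [h.1]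
    exact right_mem_side e.2
  rcases (orig_mem_dside hT).1 h1 with h2 | h2
  · exact absurd (congrArg (fun f : Dt T => f.1.2) h2) h.2
  · exact h2

theorem foll.left_not_mem (hT : T.IsTree) {e f : Dt T} (h : foll e f) : e.1.1 ∉ dside f := by
  intro h1
  rw [dside, mem_side] at h1
  have h2 : T.dist e.1.1 f.1.1 = 1 := by
    rw [h.1]
    exact dist_eq_one_iff_adj.2 e.2
  have h3 : T.dist e.1.1 f.1.2 = 0 := by omega
  exact h.2 ((hT.connected.dist_eq_zero_iff).1 h3).symm

/-- `f` is reached from `e` by a path of `k` steps without backtracking. -/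
def reach : ℕ → Dt T → Dt T → Prop
  | 0 => fun e f => f = e
  | (k + 1) => fun e f => ∃ e', reach k e e' ∧ foll e' f

theorem reach.dist (hT : T.IsTree) {k : ℕ} : ∀ {e f : Dt T}, reach k e f →
    T.dist e.1.1 f.1.1 = k ∧ T.dist e.1.1 f.1.2 = k + 1 := by
  induction k with
  | zero =>
    intro e f h
    obtain rfl : f = e := h
    exact ⟨dist_self, dist_eq_one_iff_adj.2 f.2⟩
  | succ k ih =>
    rintro e f ⟨e', he', hf⟩
    obtain ⟨h1, h2⟩ := ih he'
    rw [hf.1]
    refine ⟨h2, ?_⟩
    have hadj : T.Adj e'.1.2 f.1.2 := hf.1 ▸ f.2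
    rcases hT.dist_eq_dist_add_one_of_adj e.1.1 hadj with h | h
    · exfalso
      exact hf.2 (closer_unique hT e.1.1 hadj e'.2.symm h (by omega))
    · omega

theorem reach.left_not_mem (hT : T.IsTree) {k : ℕ} {e f : Dt T} (h : reach k e f) :
    e.1.1 ∉ dside f := by
  obtain ⟨h1, h2⟩ := h.dist hT
  rw [dside, mem_side]
  omega

/-- darts beyond a reached dart are far away -/
theorem reach.bey_dist (hT : T.IsTree) {k : ℕ} {e f g : Dt T} (h : reach k e f) (hg : bey f g) :
    k + 1 ≤ T.dist e.1.1 g.1.1 := by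
  have h1 := dist_le_of_mem_side hT f.2 (h.left_not_mem hT) _ g.1.1 rfl hg.1
  have h2 := (h.dist hT).2
  omega

theorem side_subset_of_foll (hT : T.IsTree) {e f : Dt T} (h : foll e f) : dside f ⊆ dside e := by
  intro x hx
  by_contra hx'
  have h1 : ∀ (n : ℕ) (x : V), T.dist f.1.2 x = n → x ∈ dside f → x ∈ dside e := by
    intro n
    induction n with
    | zero =>
      intro x hx hxs
      have : f.1.2 = x := (hT.connected.dist_eq_zero_iff).1 hx
      subst this
      exact (h.bey hT).2
    | succ n ih =>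
      intro x hx hxs
      have hne : x ≠ f.1.2 := by
        rintro rfl
        rw [dist_self] at hx
        omega
      obtain ⟨y, hxy, hy⟩ := exists_closer hT f.1.2 hne
      have hys : y ∈ dside f := by
        rw [dside, mem_side] at hxs ⊢
        rw [dist_comm (u := f.1.2) (v := x), dist_comm (u := f.1.2) (v := y)] at hy
        have e1 := hT.dist_eq_dist_add_one_of_adj f.1.1 hxy
        rw [dist_comm (u := f.1.1) (v := x), dist_comm (u := f.1.1) (v := y)] at e1
        have e2 := hT.dist_eq_dist_add_one_of_adj x f.2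
        have e3 := hT.dist_eq_dist_add_one_of_adj y f.2
        omega
      have hye := ih y (by omega) hys
      by_contra hxe
      obtain ⟨h2, h3⟩ := side_cross hT e.2 hxy.symm hye hxe
      rw [h3] at hxs
      exact h.left_not_mem hT hxs
  exact hx' (h1 _ x rfl hx)

/-- the end of a reached dart lies in the half tree of the first dart -/
theorem reach.end_mem (hT : T.IsTree) {k : ℕ} : ∀ {e f : Dt T}, reach k e f →
    f.1.2 ∈ dside e := by
  induction k with
  | zero =>
    intro e f h
    obtain rfl : f = e := h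
    exact right_mem_side f.2
  | succ k ih =>
    rintro e f ⟨e', he', hf⟩
    have h1 : ∀ (k : ℕ) (e f : Dt T), reach k e f → dside f ⊆ dside e := by
      intro k
      induction k with
      | zero =>
        intro e f h
        obtain rfl : f = e := h
        exact subset_rfl
      | succ k ih =>
        rintro e f ⟨e', he', hf⟩
        exact (side_subset_of_foll hT hf).trans (ih e e' he')
    exact h1 (k + 1) e f ⟨e', he', hf⟩ (right_mem_side f.2)

/-- the first step of a path without backtracking is determined by its end -/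
theorem first_step_unique (hT : T.IsTree) {k k' : ℕ} {e f f' g : Dt T} (h : foll e f)
    (h' : foll e f') (hg : reach k f g) (hg' : reach k' f' g) : f = f' := by
  have h1 := hg.end_mem hT
  have h2 := hg'.end_mem hT
  rw [dside, mem_side] at h1 h2
  have ha : T.Adj e.1.2 f.1.2 := h.1 ▸ f.2
  have ha' : T.Adj e.1.2 f'.1.2 := h'.1 ▸ f'.2
  rw [h.1] at h1
  rw [h'.1] at h2
  have e1 := hT.dist_eq_dist_add_one_of_adj g.1.2 ha
  have e2 := hT.dist_eq_dist_add_one_of_adj g.1.2 ha'
  have h3 : f.1.2 = f'.1.2 := closer_unique hT g.1.2 ha ha' (by omega) (by omega)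
  apply Subtype.ext
  exact Prod.ext (h.1.trans h'.1.symm) h3

end Pool.Agent.Lib.MP_c052b4_al
end

section

/-!
# Groups acting on oriented trees
-/

set_option autoImplicit false
set_option linter.unusedSectionVars false

namespace Pool.Agent.Lib.MP_c052b4_al

open SimpleGraph

universe v w w'

/-- A `G`-tree with an invariant orientation: vertex set `V`, set of oriented edges `E`. -/
structure OTree (G : Type v) [Group G] (V : Type w) (E : Type w') [MulAction G V]
    [MulAction G E] where
  T : SimpleGraph V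
  o : E → V
  t : E → V
  tree : T.IsTree
  o_smul : ∀ (g : G) (e : E), o (g • e) = g • o e
  t_smul : ∀ (g : G) (e : E), t (g • e) = g • t e
  adj : ∀ e, T.Adj (o e) (t e)
  inj : ∀ e f, o e = o f → t e = t f → e = f
  cover : ∀ x y, T.Adj x y → (∃ e, o e = x ∧ t e = y) ∨ ∃ e, o e = y ∧ t e = x
  anti : ∀ e f, o e = t f → t e ≠ o f
  tadj : ∀ (g : G) x y, T.Adj x y → T.Adj (g • x) (g • y)

namespace OTree

variable {G : Type v} [Group G] {V : Type w} {E : Type w'} [MulAction G V] [MulAction G E]
  (O : OTree G V E)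

/-- the origin of a signed edge -/
def org : E ⊕ E → V := Sum.elim O.o O.t

/-- the dart of a signed edge -/
def dd : E ⊕ E → Dt O.T
  | Sum.inl e => ⟨(O.o e, O.t e), O.adj e⟩
  | Sum.inr e => ⟨(O.t e, O.o e), (O.adj e).symm⟩

theorem org_eq (x : E ⊕ E) : O.org x = (O.dd x).1.1 := by
  cases x <;> rfl

theorem dd_swap (x : E ⊕ E) : O.dd x.swap = rev (O.dd x) := by
  cases x <;> rfl

theorem dd_injective : Function.Injective O.dd := by
  rintro (e | e) (f | f) h
  · have h1 : O.o e = O.o f := congrArg (fun z : Dt O.T => z.1.1) h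
    have h2 : O.t e = O.t f := congrArg (fun z : Dt O.T => z.1.2) h
    rw [O.inj e f h1 h2]
  · have h1 : O.o e = O.t f := congrArg (fun z : Dt O.T => z.1.1) h
    have h2 : O.t e = O.o f := congrArg (fun z : Dt O.T => z.1.2) h
    exact absurd h2 (O.anti e f h1)
  · have h1 : O.t e = O.o f := congrArg (fun z : Dt O.T => z.1.1) h
    have h2 : O.o e = O.t f := congrArg (fun z : Dt O.T => z.1.2) h
    exact absurd h1 (O.anti e f h2)
  · have h1 : O.t e = O.t f := congrArg (fun z : Dt O.T => z.1.1) h
    have h2 : O.o e = O.o f := congrArg (fun z : Dt O.T => z.1.2) h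
    rw [O.inj e f h2 h1]

theorem dd_surjective : Function.Surjective O.dd := by
  rintro ⟨⟨x, y⟩, h⟩
  rcases O.cover x y h with ⟨e, rfl, rfl⟩ | ⟨e, rfl, rfl⟩
  · exact ⟨Sum.inl e, rfl⟩
  · exact ⟨Sum.inr e, rfl⟩

theorem org_smul (g : G) (x : E ⊕ E) : O.org (g • x) = g • O.org x := by
  cases x with
  | inl e => exact O.o_smul g e
  | inr e => exact O.t_smul g e

theorem swap_smul (g : G) (x : E ⊕ E) : (g • x).swap = g • x.swap := by
  cases x <;> rfl

theorem dist_smul (g : G) (x y : V) : O.T.dist (g • x) (g • y) = O.T.dist x y := by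
  have key : ∀ (g : G) (x y : V), O.T.dist (g • x) (g • y) ≤ O.T.dist x y := by
    intro g x y
    obtain ⟨p, hp⟩ := O.tree.connected.exists_walk_length_eq_dist x y
    let f : O.T →g O.T := ⟨fun z => g • z, fun {a b} h => O.tadj g a b h⟩
    have h1 : O.T.dist (g • x) (g • y) ≤ (p.map f).length := dist_le (p.map f)
    rw [Walk.length_map] at h1
    omega
  refine le_antisymm (key g x y) ?_
  have h1 := key g⁻¹ (g • x) (g • y)
  rwa [inv_smul_smul, inv_smul_smul] at h1

theorem dd_smul_fst (g : G) (x : E ⊕ E) : (O.dd (g • x)).1.1 = g • (O.dd x).1.1 := by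
  rw [← org_eq, ← org_eq, org_smul]

theorem dd_smul_snd (g : G) (x : E ⊕ E) : (O.dd (g • x)).1.2 = g • (O.dd x).1.2 := by
  have h1 : ∀ y : E ⊕ E, (O.dd y).1.2 = O.org y.swap := by
    intro y
    rw [org_eq, dd_swap]
    rfl
  rw [h1, h1, swap_smul, org_smul]

/-- the half tree at the end of a signed edge -/
def sd (x : E ⊕ E) : Set V := dside (O.dd x)

theorem smul_mem_sd (g : G) (x : E ⊕ E) (v : V) : g • v ∈ O.sd (g • x) ↔ v ∈ O.sd x := by
  unfold sd dside
  rw [mem_side, mem_side, dd_smul_fst, dd_smul_snd, dist_smul, dist_smul]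

/-- `y` follows `x` -/
def fol (x y : E ⊕ E) : Prop := foll (O.dd x) (O.dd y)

/-- `y` lies beyond `x` -/
def byd (x y : E ⊕ E) : Prop := bey (O.dd x) (O.dd y)

theorem fol_smul (g : G) (x y : E ⊕ E) : O.fol (g • x) (g • y) ↔ O.fol x y := by
  unfold fol foll
  rw [dd_smul_fst, dd_smul_snd, dd_smul_fst, dd_smul_snd, smul_left_cancel_iff, ne_eq,
    smul_left_cancel_iff]

theorem byd_smul (g : G) (x y : E ⊕ E) : O.byd (g • x) (g • y) ↔ O.byd x y := by
  have h := O.smul_mem_sd g x
  unfold sd at h
  unfold byd bey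
  rw [dd_smul_fst, dd_smul_snd, h, h]

/-- `y` is reached from `x` by `k` steps without backtracking -/
def rch (k : ℕ) (x y : E ⊕ E) : Prop := reach k (O.dd x) (O.dd y)

theorem rch_zero {x y : E ⊕ E} : O.rch 0 x y ↔ y = x :=
  ⟨fun h => O.dd_injective h, fun h => congrArg O.dd h⟩

theorem rch_succ {k : ℕ} {x y : E ⊕ E} : O.rch (k + 1) x y ↔ ∃ z, O.rch k x z ∧ O.fol z y := by
  constructor
  · rintro ⟨e, h1, h2⟩
    obtain ⟨z, rfl⟩ := O.dd_surjective e
    exact ⟨z, h1, h2⟩
  · rintro ⟨z, h1, h2⟩
    exact ⟨_, h1, h2⟩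

theorem rch_smul (k : ℕ) (g : G) : ∀ (x y : E ⊕ E), O.rch k (g • x) (g • y) ↔ O.rch k x y := by
  induction k with
  | zero =>
    intro x y
    rw [rch_zero, rch_zero, smul_left_cancel_iff]
  | succ k ih =>
    intro x y
    rw [rch_succ, rch_succ]
    constructor
    · rintro ⟨z, h1, h2⟩
      refine ⟨g⁻¹ • z, ?_, ?_⟩
      · rw [← ih, smul_inv_smul]
        exact h1
      · rw [← O.fol_smul g, smul_inv_smul]
        exact h2
    · rintro ⟨z, h1, h2⟩
      exact ⟨g • z, (ih _ _).2 h1, (O.fol_smul g _ _).2 h2⟩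

theorem org_mem_sd {x y : E ⊕ E} : O.org y ∈ O.sd x ↔ y = x.swap ∨ O.byd x y := by
  rw [org_eq]
  unfold sd byd
  rw [orig_mem_dside O.tree, ← dd_swap]
  constructor
  · rintro (h | h)
    · exact Or.inl (O.dd_injective h)
    · exact Or.inr h
  · rintro (h | h)
    · exact Or.inl (congrArg O.dd h)
    · exact Or.inr h

/-- the signed edges starting at the end of `x` -/
theorem org_eq_end {x y : E ⊕ E} : O.org y = O.org x.swap ↔ y = x.swap ∨ O.fol x y := by
  rw [org_eq, org_eq, dd_swap]
  have h : (rev (O.dd x)).1.1 = (O.dd x).1.2 := rfl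
  rw [h, orig_eq_iff, ← dd_swap]
  constructor
  · rintro (h | h)
    · exact Or.inl (O.dd_injective h)
    · exact Or.inr h
  · rintro (h | h)
    · exact Or.inl (congrArg O.dd h)
    · exact Or.inr h

theorem byd_swap {x y : E ⊕ E} : O.byd x y.swap ↔ O.byd x y := by
  unfold byd
  rw [dd_swap]
  exact bey_rev

theorem not_byd_self (x : E ⊕ E) : ¬ O.byd x x := not_bey_self _

theorem not_byd_swap (x : E ⊕ E) : ¬ O.byd x x.swap := by
  unfold byd
  rw [dd_swap]
  exact not_bey_rev _

theorem swap_ne (x : E ⊕ E) : x.swap ≠ x := by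
  cases x <;> simp

theorem fol_byd {x y : E ⊕ E} (h : O.fol x y) : O.byd x y := foll.bey O.tree h

theorem org_not_mem_sd (x : E ⊕ E) : O.org x ∉ O.sd x := by
  rw [org_eq]
  exact left_not_mem_side

theorem org_not_mem_sd_of_fol {x y : E ⊕ E} (h : O.fol x y) : O.org x ∉ O.sd y := by
  rw [org_eq]
  exact foll.left_not_mem O.tree h

theorem org_swap_ne (x : E ⊕ E) : O.org x.swap ≠ O.org x := by
  cases x with
  | inl e => exact (O.adj e).ne.symm
  | inr e => exact (O.adj e).ne

theorem rch_dist {k : ℕ} {x y : E ⊕ E} (h : O.rch k x y) :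
    O.T.dist (O.org x) (O.org y) = k ∧ O.T.dist (O.org x) (O.org y.swap) = k + 1 := by
  rw [org_eq, org_eq, org_eq, dd_swap]
  exact reach.dist O.tree h

theorem rch_unique {k l : ℕ} {x y : E ⊕ E} (h : O.rch k x y) (h' : O.rch l x y) : k = l := by
  have h1 := (O.rch_dist h).1
  have h2 := (O.rch_dist h').1
  omega

theorem not_rch_of_rch_swap {k l : ℕ} {x y : E ⊕ E} (h : O.rch k x y.swap) :
    ¬ O.rch l x y := by
  intro h'
  have h1 := O.rch_dist h
  have h2 := O.rch_dist h'
  rw [Sum.swap_swap] at h1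
  omega

/-- what is beyond a reached edge is not reached by fewer steps -/
theorem not_rch_of_byd {k l : ℕ} (hl : l ≤ k) {x y z : E ⊕ E} (h : O.rch k x y)
    (h' : O.byd y z) : ¬ O.rch l x z := by
  intro h2
  have h1 := reach.bey_dist O.tree h h'
  have h3 := (O.rch_dist h2).1
  rw [org_eq, org_eq] at h3
  omega

theorem rch_first_step {k l : ℕ} {x y y' z : E ⊕ E} (h : O.fol x y) (h' : O.fol x y')
    (hz : O.rch k y z) (hz' : O.rch l y' z) : y = y' :=
  O.dd_injective (first_step_unique O.tree h h' hz hz')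

end OTree

end Pool.Agent.Lib.MP_c052b4_al
end

section

/-!
# Finite subtrees and their incidence matrices
-/

set_option autoImplicit false
set_option linter.unusedSectionVars false

namespace Pool.Agent.Lib.MP_c052b4_al

open Matrix

universe v w w'

section Par

variable {V : Type w} {T : SimpleGraph V}

/-- every finite set of vertices lies in a finite set closed under passing to the neighbour closer
to the root -/
theorem exists_closed (hT : T.IsTree) (r : V) (par : V → V)
    (hpar : ∀ x, x ≠ r → T.dist r x = T.dist r (par x) + 1) (F : Finset V) :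
    ∃ S : Finset V, r ∈ S ∧ F ⊆ S ∧ ∀ x ∈ S, x ≠ r → par x ∈ S := by
  classical
  have h1 : ∀ (n : ℕ) (x : V), T.dist r x = n →
      ∃ S : Finset V, x ∈ S ∧ ∀ x ∈ S, x ≠ r → par x ∈ S := by
    intro n
    induction n with
    | zero =>
      intro x hx
      have : r = x := (hT.connected.dist_eq_zero_iff).1 hx
      subst this
      exact ⟨{r}, Finset.mem_singleton_self _, fun x hx hne =>
        absurd (Finset.mem_singleton.1 hx) hne⟩
    | succ n ih =>
      intro x hx
      have hne : x ≠ r := by
        rintro rfl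
        rw [SimpleGraph.dist_self] at hx
        omega
      obtain ⟨S, hS, hS'⟩ := ih (par x) (by have := hpar x hne; omega)
      refine ⟨insert x S, Finset.mem_insert_self _ _, fun y hy hyr => ?_⟩
      rcases Finset.mem_insert.1 hy with rfl | hy
      · exact Finset.mem_insert_of_mem hS
      · exact Finset.mem_insert_of_mem (hS' y hy hyr)
  choose S hS hS' using fun x => h1 _ x rfl
  refine ⟨insert r (F.biUnion S), Finset.mem_insert_self _ _, fun x hx => ?_, fun x hx hne => ?_⟩
  · exact Finset.mem_insert_of_mem (Finset.mem_biUnion.2 ⟨x, hx, hS x⟩)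
  · rcases Finset.mem_insert.1 hx with rfl | hx
    · exact absurd rfl hne
    · obtain ⟨y, hy, hxy⟩ := Finset.mem_biUnion.1 hx
      exact Finset.mem_insert_of_mem (Finset.mem_biUnion.2 ⟨y, hy, hS' y x hxy hne⟩)

end Par

/-- The incidence matrices of a finite subtree containing the root and the set `F`, with
multiplicity `n`. -/
structure TMat {G : Type v} [Group G] {V : Type w} {E : Type w'} [MulAction G V]
    [MulAction G E] (O : OTree G V E) (r : V) (n : ℕ) (F : Finset V) where
  ι : Type
  κ : Type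
  fι : Fintype ι
  fκ : Fintype κ
  dι : DecidableEq ι
  dκ : DecidableEq κ
  lE : ι → E
  lV : κ → V
  q : κ → Fin n
  s : Matrix ι κ ℤ
  t : Matrix ι κ ℤ
  i0 : Matrix (Fin n) κ ℤ
  ρ : Matrix κ ι ℤ
  a : Matrix κ (Fin n) ℤ
  hs : ∀ i j, s i j ≠ 0 → lV j = O.o (lE i)
  ht : ∀ i j, t i j ≠ 0 → lV j = O.t (lE i)
  ha : ∀ j k, a j k = if q j = k then 1 else 0
  e1 : ρ * (s - t) + a * i0 = 1
  e2 : (s - t) * ρ = 1
  e3 : (s - t) * a = 0
  e4 : i0 * ρ = 0
  e5 : i0 * a = 1
  hF : ∀ x ∈ F, ∀ k, ∃ j, lV j = x ∧ q j = k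
  hinj : ∀ j j', lV j = lV j' → q j = q j' → j = j'

attribute [instance] TMat.fι TMat.fκ TMat.dι TMat.dκ

section Exists

variable {G : Type v} [Group G] {V : Type w} {E : Type w'} [MulAction G V]
    [MulAction G E] (O : OTree G V E)

theorem exists_tmat (r : V) (n : ℕ) (F : Finset V) : Nonempty (TMat O r n F) := by
  classical
  have hT := O.tree
  have hpar : ∀ x, ∃ y, x ≠ r → O.T.Adj x y ∧ O.T.dist r x = O.T.dist r y + 1 := by
    intro x
    by_cases hx : x = r
    · exact ⟨x, fun h => absurd hx h⟩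
    · obtain ⟨y, hy⟩ := exists_closer hT r hx
      exact ⟨y, fun _ => hy⟩
  choose par hpar using hpar
  obtain ⟨S, hrS, hFS, hS⟩ := exists_closed hT r par (fun x hx => (hpar x hx).2) F
  let a := S.card
  let eS : S ≃ Fin a := S.equivFin
  let vx : Fin a → V := fun i => (eS.symm i : V)
  have hvx : Function.Injective vx := fun i j h => eS.symm.injective (Subtype.ext h)
  have hvxS : ∀ x ∈ S, ∃ i, vx i = x := fun x hx => ⟨eS ⟨x, hx⟩, by simp [vx]⟩
  obtain ⟨ir, hir⟩ := hvxS r hrS
  let I := {i : Fin a // vx i ≠ r}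
  have hpj : ∀ i : I, ∃ j, vx j = par (vx i.1) := fun i =>
    hvxS _ (hS _ (eS.symm i.1).2 i.2)
  choose pj hpj using hpj
  -- oriented edges
  have hed : ∀ i : I, ∃ (e : E) (oi ti : Fin a) (σ : ℤ), vx oi = O.o e ∧ vx ti = O.t e ∧
      ((oi = i.1 ∧ ti = pj i ∧ σ = 1) ∨ (oi = pj i ∧ ti = i.1 ∧ σ = -1)) := by
    intro i
    rcases O.cover (vx i.1) (par (vx i.1)) (hpar _ i.2).1 with ⟨e, h1, h2⟩ | ⟨e, h1, h2⟩
    · exact ⟨e, i.1, pj i, 1, h1.symm, (hpj i).trans h2.symm, Or.inl ⟨rfl, rfl, rfl⟩⟩
    · exact ⟨e, pj i, i.1, -1, (hpj i).trans h1.symm, h2.symm, Or.inr ⟨rfl, rfl, rfl⟩⟩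
  choose ed oi ti sg hoi hti hsg using hed
  -- ancestors
  let anc : V → V → Prop := fun x y => ∃ k : ℕ, (par^[k] y = x ∧ ∀ l < k, par^[l] y ≠ r)
  have hanc : ∀ x y, x ≠ r → y ≠ r → (anc x y ↔ x = y ∨ anc x (par y)) := by
    intro x y hx hy
    constructor
    · rintro ⟨k, hk, hl⟩
      cases k with
      | zero => exact Or.inl hk.symm
      | succ k =>
        right
        refine ⟨k, by rw [← Function.iterate_succ_apply]; exact hk, fun l hlk => ?_⟩
        rw [← Function.iterate_succ_apply]
        exact hl (l + 1) (by omega)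
    · rintro (rfl | ⟨k, hk, hl⟩)
      · exact ⟨0, rfl, fun l hl => absurd hl (by omega)⟩
      · refine ⟨k + 1, by rw [Function.iterate_succ_apply]; exact hk, fun l hlk => ?_⟩
        cases l with
        | zero => exact hy
        | succ l =>
          rw [Function.iterate_succ_apply]
          exact hl l (by omega)
  have hancr : ∀ x, x ≠ r → ¬ anc x r := by
    rintro x hx ⟨k, hk, hl⟩
    cases k with
    | zero => exact hx hk.symm
    | succ k => exact hl 0 (by omega) rfl
  have hancd : ∀ x y, anc x y → O.T.dist r x ≤ O.T.dist r y := by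
    rintro x y ⟨k, hk, hl⟩
    induction k generalizing y with
    | zero =>
      have h0 : y = x := hk
      rw [h0]
    | succ k ih =>
      have hy : y ≠ r := hl 0 (by omega)
      have h1 := ih (par y) (by rw [← Function.iterate_succ_apply]; exact hk) (fun l hlk => by
        rw [← Function.iterate_succ_apply]
        exact hl (l + 1) (by omega))
      have h2 := (hpar y hy).2
      omega
  have hancp : ∀ x, x ≠ r → ¬ anc x (par x) := by
    intro x hx h
    have h1 := hancd _ _ h
    have h2 := (hpar x hx).2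
    omega
  let c : Fin a → Fin a → ℤ := fun i j => if anc (vx i) (vx j) then 1 else 0
  let s : Matrix (I × Fin n) (Fin a × Fin n) ℤ := fun i j => if j.1 = oi i.1 ∧ i.2 = j.2 then 1 else 0
  let t : Matrix (I × Fin n) (Fin a × Fin n) ℤ := fun i j => if j.1 = ti i.1 ∧ i.2 = j.2 then 1 else 0
  let i0 : Matrix (Fin n) (Fin a × Fin n) ℤ := fun k j => if j.1 = ir ∧ k = j.2 then 1 else 0
  let ρ : Matrix (Fin a × Fin n) (I × Fin n) ℤ :=
    fun j i => if j.2 = i.2 then sg i.1 * c i.1.1 j.1 else 0
  let am : Matrix (Fin a × Fin n) (Fin n) ℤ := fun j k => if j.2 = k then 1 else 0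
  -- products with `s`, `t`, `i0` are substitutions
  have hsmul : ∀ {μ : Type} (M : Matrix (Fin a × Fin n) μ ℤ) i k, (s * M) i k = M (oi i.1, i.2) k := by
    intro μ M i k
    rw [Matrix.mul_apply, Finset.sum_eq_single (oi i.1, i.2)]
    · simp [s]
    · rintro ⟨j, l⟩ _ hne
      have : s i (j, l) = 0 := by
        simp only [s]
        rw [if_neg]
        rintro ⟨h1, h2⟩
        exact hne (Prod.ext h1 h2.symm)
      rw [this, zero_mul]
    · intro h
      exact absurd (Finset.mem_univ _) h
  have htmul : ∀ {μ : Type} (M : Matrix (Fin a × Fin n) μ ℤ) i k, (t * M) i k = M (ti i.1, i.2) k := by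
    intro μ M i k
    rw [Matrix.mul_apply, Finset.sum_eq_single (ti i.1, i.2)]
    · simp [t]
    · rintro ⟨j, l⟩ _ hne
      have : t i (j, l) = 0 := by
        simp only [t]
        rw [if_neg]
        rintro ⟨h1, h2⟩
        exact hne (Prod.ext h1 h2.symm)
      rw [this, zero_mul]
    · intro h
      exact absurd (Finset.mem_univ _) h
  have himul : ∀ {μ : Type} (M : Matrix (Fin a × Fin n) μ ℤ) i k, (i0 * M) i k = M (ir, i) k := by
    intro μ M i k
    rw [Matrix.mul_apply, Finset.sum_eq_single (ir, i)]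
    · simp [i0]
    · rintro ⟨j, l⟩ _ hne
      have : i0 i (j, l) = 0 := by
        simp only [i0]
        rw [if_neg]
        rintro ⟨h1, h2⟩
        exact hne (Prod.ext h1 h2.symm)
      rw [this, zero_mul]
    · intro h
      exact absurd (Finset.mem_univ _) h
  have hcc : ∀ i i' : I, sg i' * c i'.1 (oi i) - sg i' * c i'.1 (ti i) = if i = i' then 1 else 0 := by
    intro i i'
    have key : c i'.1 i.1 - c i'.1 (pj i) = if i = i' then 1 else 0 := by
      simp only [c, hpj]
      by_cases hii : i = i'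
      · subst hii
        rw [if_pos ((hanc _ _ i.2 i.2).2 (Or.inl rfl)), if_neg (hancp _ i.2), if_pos rfl, sub_zero]
      · rw [if_neg hii]
        have hne : vx i'.1 ≠ vx i.1 := fun h => hii (Subtype.ext (hvx h.symm))
        by_cases h2 : anc (vx i'.1) (par (vx i.1))
        · rw [if_pos h2, if_pos ((hanc _ _ i'.2 i.2).2 (Or.inr h2)), sub_self]
        · rw [if_neg h2, if_neg, sub_self]
          intro h3
          rcases (hanc _ _ i'.2 i.2).1 h3 with h4 | h4
          · exact hne h4
          · exact h2 h4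
    by_cases hii : i = i'
    · subst hii
      rw [if_pos rfl] at key ⊢
      rcases hsg i with ⟨h1, h2, h3⟩ | ⟨h1, h2, h3⟩
      · rw [h1, h2, h3, one_mul, one_mul]
        exact key
      · rw [h1, h2, h3]
        linarith
    · rw [if_neg hii] at key ⊢
      rcases hsg i with ⟨h1, h2, h3⟩ | ⟨h1, h2, h3⟩
      · rw [h1, h2, ← mul_sub, key, mul_zero]
      · rw [h1, h2, ← mul_sub, ← neg_sub, key, neg_zero, mul_zero]
  have e2 : (s - t) * ρ = 1 := by
    refine Matrix.ext fun i i' => ?_
    rw [Matrix.sub_mul, Matrix.sub_apply, hsmul, htmul]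
    simp only [ρ]
    by_cases h2 : i.2 = i'.2
    · rw [if_pos h2, if_pos h2, hcc, Matrix.one_apply]
      by_cases h1 : i.1 = i'.1
      · rw [if_pos h1, if_pos (Prod.ext h1 h2)]
      · rw [if_neg h1, if_neg fun h => h1 (congrArg Prod.fst h)]
    · rw [if_neg h2, if_neg h2, sub_zero, Matrix.one_apply_ne fun h => h2 (congrArg Prod.snd h)]
  have e3 : (s - t) * am = 0 := by
    refine Matrix.ext fun i k => ?_
    rw [Matrix.sub_mul, Matrix.sub_apply, hsmul, htmul]
    simp only [am, sub_self, Matrix.zero_apply]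
  have e4 : i0 * ρ = 0 := by
    refine Matrix.ext fun k i => ?_
    rw [himul]
    simp only [ρ, c, hir]
    rw [if_neg (hancr _ i.1.2)]
    simp
  have e5 : i0 * am = 1 := by
    refine Matrix.ext fun k l => ?_
    rw [himul]
    simp only [am, Matrix.one_apply]
  have e1 : ρ * (s - t) + am * i0 = 1 := by
    have h1 : fromRows (s - t) i0 * fromCols ρ am = 1 := by
      rw [fromRows_mul_fromCols, e2, e3, e4, e5, fromBlocks_one]
    let _ : Unique {i : Fin a // ¬ vx i ≠ r} :=
      { default := ⟨ir, fun h => h hir⟩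
        uniq := fun j => Subtype.ext (hvx ((not_not.1 j.2).trans hir.symm)) }
    let f1 : I ⊕ Unit ≃ Fin a :=
      (Equiv.sumCongr (Equiv.refl I) (Equiv.ofUnique Unit {i : Fin a // ¬ vx i ≠ r})).trans
        (Equiv.sumCompl fun i => vx i ≠ r)
    let f2 : (I × Fin n) ⊕ Fin n ≃ Fin a × Fin n :=
      ((Equiv.sumCongr (Equiv.refl (I × Fin n)) (Equiv.uniqueProd (Fin n) Unit).symm).trans
        (Equiv.sumProdDistrib I Unit (Fin n)).symm).trans (Equiv.prodCongr f1 (Equiv.refl _))
    have h2 := (Matrix.mul_eq_one_comm_of_equiv f2).1 h1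
    rwa [fromCols_mul_fromRows] at h2
  refine ⟨TMat.mk (I × Fin n) (Fin a × Fin n) inferInstance inferInstance inferInstance
    inferInstance (fun i => ed i.1) (fun j => vx j.1) (fun j => j.2) s t i0 ρ am ?_ ?_
    (fun _ _ => rfl) e1 e2 e3 e4 e5 ?_ ?_⟩
  · intro i j h
    simp only [s] at h
    by_cases h1 : j.1 = oi i.1 ∧ i.2 = j.2
    · rw [h1.1, hoi]
    · rw [if_neg h1] at h
      exact absurd rfl h
  · intro i j h
    simp only [t] at h
    by_cases h1 : j.1 = ti i.1 ∧ i.2 = j.2
    · rw [h1.1, hti]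
    · rw [if_neg h1] at h
      exact absurd rfl h
  · intro x hx k
    obtain ⟨i, hi⟩ := hvxS x (hFS hx)
    exact ⟨(i, k), hi, rfl⟩
  · rintro ⟨j, k⟩ ⟨j', k'⟩ h1 h2
    exact Prod.ext (hvx h1) h2

end Exists

end Pool.Agent.Lib.MP_c052b4_al
end
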