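import Pool.Agent.Lib.MP_c052b4_al.Mg.G068
import Pool.Agent.Lib.MP_c052b4_al.Mg.G076

section

/-!
# Matrices supported along relations between degrees
-/

set_option autoImplicit false
set_option linter.unusedSectionVars false

namespace Pool.Agent.Lib.MP_c052b4_al

open Matrix

universe u v w w' w''

variable {R : Type u} [Ring R] {G : Type v} [Group G] {X : Type w} [MulAction G X]
  {Y : Type w'} [MulAction G Y] {W : Type w''} [MulAction G W]
  {ι κ μ : Type*}

/-- `M` is supported along the relation `P` between degrees. -/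
def Sp (l : ι → X) (l' : κ → Y) (P : X → Y → Prop) (M : Matrix ι κ (MonoidAlgebra R G)) : Prop :=
  ∀ i j g, (M i j).coeff g ≠ 0 → P (l i) (g • l' j)

theorem Sp.mono {l : ι → X} {l' : κ → Y} {P Q : X → Y → Prop}
    {M : Matrix ι κ (MonoidAlgebra R G)} (h : Sp l l' P M) (hPQ : ∀ x y, P x y → Q x y) :
    Sp l l' Q M := fun i j g hg => hPQ _ _ (h i j g hg)

theorem Hg.sp {l : ι → X} {l' : κ → Y} {f : X → Y} {M : Matrix ι κ (MonoidAlgebra R G)}
    (h : Hg l l' f M) : Sp l l' (fun x y => y = f x) M := h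

theorem sp_rp (l : ι → X) (l' : κ → Y) (P : X → Y → Prop) (M : Matrix ι κ (MonoidAlgebra R G)) :
    Sp l l' P (rp l l' P M) := by
  classical
  intro i j g hg
  by_contra hne
  apply hg
  change (cpA _ (M i j)).coeff g = 0
  rw [coeff_cpA, if_neg]
  exact hne

theorem Sp.mul [Fintype κ] {l : ι → X} {l' : κ → Y} {l'' : μ → W} {P : X → Y → Prop}
    {Q : Y → W → Prop} (hQ : ∀ (g : G) x y, Q (g • x) (g • y) ↔ Q x y)
    {M : Matrix ι κ (MonoidAlgebra R G)} {N : Matrix κ μ (MonoidAlgebra R G)}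
    (h : Sp l l' P M) (h' : Sp l' l'' Q N) :
    Sp l l'' (fun x z => ∃ y, P x y ∧ Q y z) (M * N) := by
  classical
  intro i j g hg
  rw [Matrix.mul_apply, MonoidAlgebra.coeff_sum, Finsupp.finsetSum_apply] at hg
  obtain ⟨k, _, hk⟩ := Finset.exists_ne_zero_of_sum_ne_zero hg
  rw [MonoidAlgebra.coeff_mul_apply_left, Finsupp.sum] at hk
  obtain ⟨a, ha, hk⟩ := Finset.exists_ne_zero_of_sum_ne_zero hk
  have h1 : (M i k).coeff a ≠ 0 := Finsupp.mem_support_iff.1 ha
  have h2 : (N k j).coeff (a⁻¹ * g) ≠ 0 := fun h => hk (by rw [h, mul_zero])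
  refine ⟨a • l' k, h i k a h1, ?_⟩
  have h3 := h' k j _ h2
  rw [← hQ a, smul_smul, mul_inv_cancel_left] at h3
  exact h3

/-- the part of a matrix along a relation disjoint from its support vanishes -/
theorem Sp.rp_eq_zero {l : ι → X} {l' : κ → Y} {P Q : X → Y → Prop}
    {M : Matrix ι κ (MonoidAlgebra R G)} (h : Sp l l' Q M) (hPQ : ∀ x y, Q x y → ¬ P x y) :
    rp l l' P M = 0 := by
  classical
  refine Matrix.ext fun i j => ?_
  change cpA _ (M i j) = 0
  ext g
  rw [coeff_cpA]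
  by_cases hg : (M i j).coeff g = 0
  · rw [hg, ite_self]
    rfl
  · rw [if_neg]
    · rfl
    · exact hPQ _ _ (h i j g hg)

/-- the part of a matrix along a relation containing its support is the matrix -/
theorem Sp.rp_eq_self {l : ι → X} {l' : κ → Y} {P Q : X → Y → Prop}
    {M : Matrix ι κ (MonoidAlgebra R G)} (h : Sp l l' Q M) (hPQ : ∀ x y, Q x y → P x y) :
    rp l l' P M = M := by
  classical
  refine Matrix.ext fun i j => ?_
  change cpA _ (M i j) = M i j
  ext g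
  rw [coeff_cpA]
  by_cases hg : (M i j).coeff g = 0
  · rw [hg, ite_self]
  · rw [if_pos]
    exact hPQ _ _ (h i j g hg)

theorem rp_add (l : ι → X) (l' : κ → Y) (P : X → Y → Prop) (M N : Matrix ι κ (MonoidAlgebra R G)) :
    rp l l' P (M + N) = rp l l' P M + rp l l' P N := by
  refine Matrix.ext fun i j => ?_
  exact cpA_add _ _ _

theorem rp_zero (l : ι → X) (l' : κ → Y) (P : X → Y → Prop) :
    rp l l' P (0 : Matrix ι κ (MonoidAlgebra R G)) = 0 := by
  refine Matrix.ext fun i j => ?_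
  exact cpA_zero _

theorem rp_neg (l : ι → X) (l' : κ → Y) (P : X → Y → Prop) (M : Matrix ι κ (MonoidAlgebra R G)) :
    rp l l' P (-M) = - rp l l' P M := by
  have h := rp_add l l' P M (-M)
  rw [add_neg_cancel, rp_zero] at h
  exact (neg_eq_of_add_eq_zero_right h.symm).symm

theorem rp_sub (l : ι → X) (l' : κ → Y) (P : X → Y → Prop) (M N : Matrix ι κ (MonoidAlgebra R G)) :
    rp l l' P (M - N) = rp l l' P M - rp l l' P N := by
  rw [sub_eq_add_neg, rp_add, rp_neg, ← sub_eq_add_neg]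

theorem rp_sum {α : Type*} (l : ι → X) (l' : κ → Y) (P : X → Y → Prop) (s : Finset α)
    (M : α → Matrix ι κ (MonoidAlgebra R G)) :
    rp l l' P (∑ a ∈ s, M a) = ∑ a ∈ s, rp l l' P (M a) := by
  classical
  induction s using Finset.induction_on with
  | empty => rw [Finset.sum_empty, Finset.sum_empty, rp_zero]
  | insert a s ha ih => rw [Finset.sum_insert ha, Finset.sum_insert ha, rp_add, ih]

/-- images of homogeneous vectors under supported matrices -/
theorem Sp.cp_vecMul [Fintype ι] {l : ι → X} {l' : κ → Y} {P : X → Y → Prop}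
    (hP : ∀ (g : G) x y, P (g • x) (g • y) ↔ P x y) {M : Matrix ι κ (MonoidAlgebra R G)}
    (h : Sp l l' P M) {ξ : X} {x : ι → MonoidAlgebra R G} (hx : cp l {ξ} x = x) :
    cp l' {ζ | P ξ ζ} (x ᵥ* M) = x ᵥ* M := by
  rw [← rp_vecMul hP M hx, h.rp_eq_self fun _ _ h => h]

theorem sp_one [DecidableEq ι] (l : ι → X) :
    Sp l l (fun x y => y = x) (1 : Matrix ι ι (MonoidAlgebra R G)) := hg_one l

end Pool.Agent.Lib.MP_c052b4_al
end

section

/-!
# The splitting of an isomorphism over a tree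
-/

set_option autoImplicit false
set_option linter.unusedSectionVars false

namespace Pool.Agent.Lib.MP_c052b4_al

open Matrix

universe u v w w'

/-- An isomorphism `R[G]^ι ⊕ R[G]^ν → R[G]^κ` over a tree: `s - t` on the edges and `B` on the
rest, with inverse `(ρ, σ)`. -/
structure CData (R : Type u) [Ring R] {G : Type v} [Group G] {V : Type w} {E : Type w'}
    [MulAction G V] [MulAction G E] (O : OTree G V E) {ι κ ν : Type} [Fintype ι] [Fintype κ]
    [Fintype ν] [DecidableEq ι] [DecidableEq κ] [DecidableEq ν] (lE : ι → E) (lV : κ → V)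
    (r : V) where
  s : Matrix ι κ (MonoidAlgebra R G)
  t : Matrix ι κ (MonoidAlgebra R G)
  B : Matrix ν κ (MonoidAlgebra R G)
  ρ : Matrix κ ι (MonoidAlgebra R G)
  σ : Matrix κ ν (MonoidAlgebra R G)
  hs : Hg lE lV O.o s
  ht : Hg lE lV O.t t
  hB : Hg (fun _ : ν => r) lV id B
  e1 : ρ * (s - t) + σ * B = 1
  e2 : (s - t) * ρ = 1
  e3 : (s - t) * σ = 0
  e4 : B * ρ = 0
  e5 : B * σ = 1

namespace CData

variable {R : Type u} [Ring R] {G : Type v} [Group G] {V : Type w} {E : Type w'}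
    [MulAction G V] [MulAction G E] {O : OTree G V E} {ι κ ν : Type} [Fintype ι] [Fintype κ]
    [Fintype ν] [DecidableEq ι] [DecidableEq κ] [DecidableEq ν] {lE : ι → E} {lV : κ → V}
    {r : V} (D : CData R O (ν := ν) lE lV r)

/-- the labels of the doubled edge module -/
abbrev lD (lE : ι → E) : ι ⊕ ι → E ⊕ E := Sum.map lE lE

/-- the origin map on the doubled edge module -/
noncomputable def OO : Matrix (ι ⊕ ι) κ (MonoidAlgebra R G) := fromRows D.s D.t

/-- reversal -/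
noncomputable def Rv (R : Type u) [Ring R] (G : Type v) [Group G] (ι : Type) [DecidableEq ι] :
    Matrix (ι ⊕ ι) (ι ⊕ ι) (MonoidAlgebra R G) := fromBlocks 0 1 1 0

/-- the antisymmetric lift of `ρ` -/
noncomputable def ρD : Matrix κ (ι ⊕ ι) (MonoidAlgebra R G) := fromCols D.ρ (-D.ρ)

/-- the main operator -/
noncomputable def C : Matrix (ι ⊕ ι) (ι ⊕ ι) (MonoidAlgebra R G) := D.OO * D.ρD

theorem hg_OO : Hg (lD lE) lV O.org D.OO := by
  rintro (i | i) j g hg
  · exact D.hs i j g hg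
  · exact D.ht i j g hg

theorem hg_Rv : Hg (lD lE) (lD lE) Sum.swap (Rv R G ι) := by
  classical
  have h1 : ∀ (i j : ι) (g : G), ((1 : Matrix ι ι (MonoidAlgebra R G)) i j).coeff g ≠ 0 →
      g • lE j = lE i := fun i j g hg => hg_one lE i j g hg
  rintro (i | i) (j | j) g hg
  · exact absurd rfl hg
  · change g • Sum.inr (lE j) = Sum.inr (lE i)
    rw [← h1 i j g hg]
    rfl
  · change g • Sum.inl (lE j) = Sum.inl (lE i)
    rw [← h1 i j g hg]
    rfl
  · exact absurd rfl hg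

theorem Rv_mul_Rv : Rv R G ι * Rv R G ι = 1 := by
  unfold Rv
  rw [fromBlocks_multiply]
  simp

theorem ρD_Rv : D.ρD * Rv R G ι = - D.ρD := by
  unfold ρD Rv
  rw [fromCols_mul_fromBlocks]
  ext i (j | j) <;> simp

theorem B_ρD : D.B * D.ρD = 0 := by
  unfold ρD
  rw [mul_fromCols, Matrix.mul_neg, D.e4, neg_zero]
  ext i (j | j) <;> rfl

theorem ρD_OO : D.ρD * D.OO + D.σ * D.B = 1 := by
  unfold ρD OO
  rw [fromCols_mul_fromRows, ← D.e1, Matrix.mul_sub, Matrix.neg_mul, ← sub_eq_add_neg]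

theorem one_sub_Rv_mul : (1 - Rv R G ι) * D.OO = fromRows (D.s - D.t) (-(D.s - D.t)) := by
  unfold Rv OO
  rw [Matrix.sub_mul, Matrix.one_mul, fromBlocks_mul_fromRows]
  ext (i | i) j <;> simp

/-- `(1 - rev) C = 1 - rev` -/
theorem one_sub_Rv_C : (1 - Rv R G ι) * D.C = 1 - Rv R G ι := by
  unfold C
  rw [← Matrix.mul_assoc, one_sub_Rv_mul]
  unfold ρD Rv
  rw [fromRows_mul_fromCols]
  rw [Matrix.neg_mul, Matrix.neg_mul, Matrix.mul_neg, D.e2, neg_neg]
  ext (i | i) (j | j) <;> simp [Matrix.one_apply]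

theorem Rv_C : Rv R G ι * D.C = D.C - 1 + Rv R G ι := by
  have h := D.one_sub_Rv_C
  rw [Matrix.sub_mul, Matrix.one_mul, sub_eq_iff_eq_add] at h
  rw [sub_add_eq_add_sub, eq_sub_iff_add_eq]
  nth_rewrite 2 [h]
  abel

theorem C_Rv : D.C * Rv R G ι = - D.C := by
  unfold C
  rw [Matrix.mul_assoc, ρD_Rv, Matrix.mul_neg]

/-- antisymmetric vectors are fixed by `C` -/
theorem vecMul_C_of_anti {y : ι ⊕ ι → MonoidAlgebra R G} (hy : y ᵥ* Rv R G ι = -y) :
    y ᵥ* D.C = y := by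
  have h1 : ∀ i, y (Sum.inr i) = - y (Sum.inl i) := by
    intro i
    have h2 := congrFun hy (Sum.inl i)
    have h3 : (y ᵥ* Rv R G ι) (Sum.inl i) = y (Sum.inr i) := by
      unfold Rv
      rw [Matrix.vecMul, dotProduct, Fintype.sum_sum_type]
      simp [Matrix.one_apply]
    rw [← h3, h2]
    rfl
  let y0 : ι → MonoidAlgebra R G := fun i => y (Sum.inl i)
  let K : Matrix ι (ι ⊕ ι) (MonoidAlgebra R G) :=
    fromCols (1 : Matrix ι ι (MonoidAlgebra R G)) (-1 : Matrix ι ι (MonoidAlgebra R G))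
  have h4 : y = y0 ᵥ* K := by
    simp only [K]
    rw [Matrix.vecMul_fromCols]
    funext x
    rcases x with i | i
    · simp [y0]
    · rw [h1]
      simp [y0, Matrix.vecMul_neg]
  have h5 : K * D.C = K := by
    simp only [K]
    unfold C OO ρD
    rw [← Matrix.mul_assoc, fromCols_mul_fromRows, Matrix.one_mul, Matrix.neg_mul, Matrix.one_mul,
      ← sub_eq_add_neg, mul_fromCols, Matrix.mul_neg, D.e2]
  rw [h4, Matrix.vecMul_vecMul]
  exact congrArg (fun M => y0 ᵥ* M) h5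

theorem cp_vecMul_OO (Z : Set V) (y : ι ⊕ ι → MonoidAlgebra R G) :
    cp lV Z (y ᵥ* D.OO) = cp (lD lE) (O.org ⁻¹' Z) y ᵥ* D.OO :=
  Hg.cp_vecMul O.org_smul D.hg_OO Z y

theorem cp_vecMul_Rv (Z : Set (E ⊕ E)) (y : ι ⊕ ι → MonoidAlgebra R G) :
    cp (lD lE) Z (y ᵥ* Rv R G ι) = cp (lD lE) (Sum.swap ⁻¹' Z) y ᵥ* Rv R G ι :=
  Hg.cp_vecMul (fun g x => OTree.swap_smul g x) hg_Rv Z y

/-- **Lemma P.** If `z` has no component beyond the signed edge `x` and `y = z ρ`, then
`y_x rev C` is the part of `y` beyond `x`, and the `x`-component of `y_x C` is `y_x`. -/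
theorem lemmaP (x : E ⊕ E) (z : κ → MonoidAlgebra R G) (hz : cp lV (O.sd x) z = 0) :
    cp (lD lE) {x} (z ᵥ* D.ρD) ᵥ* (Rv R G ι * D.C) =
        cp (lD lE) {y | O.byd x y} (z ᵥ* D.ρD) ∧
      cp (lD lE) {x} (cp (lD lE) {x} (z ᵥ* D.ρD) ᵥ* D.C) = cp (lD lE) {x} (z ᵥ* D.ρD) := by
  set y := z ᵥ* D.ρD with hy
  have hanti : y ᵥ* Rv R G ι = -y := by
    rw [hy, Matrix.vecMul_vecMul, ρD_Rv, Matrix.vecMul_neg]
  have hzz : z = y ᵥ* D.OO + (z ᵥ* D.σ) ᵥ* D.B := by
    rw [hy, Matrix.vecMul_vecMul, Matrix.vecMul_vecMul, ← Matrix.vecMul_add, ρD_OO,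
      Matrix.vecMul_one]
  have h1 : cp (lD lE) {y | O.org y ∈ O.sd x} y ᵥ* D.C = 0 := by
    have h2 := congrArg (cp lV (O.sd x)) hzz
    rw [hz, cp_add, cp_vecMul_OO, Hg.cp_vecMul (fun _ _ => rfl) D.hB] at h2
    have h3 := congrArg (fun q => q ᵥ* D.ρD) h2
    simp only [Matrix.zero_vecMul, Matrix.add_vecMul, Matrix.vecMul_vecMul, D.B_ρD,
      Matrix.vecMul_zero, add_zero] at h3
    exact h3.symm
  have hset : {y | O.org y ∈ O.sd x} = {x.swap} ∪ {y | O.byd x y} := by
    ext y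
    exact O.org_mem_sd
  have hdisj : Disjoint ({x.swap} : Set (E ⊕ E)) {y | O.byd x y} := by
    rw [Set.disjoint_singleton_left]
    exact O.not_byd_swap x
  rw [hset, cp_union _ hdisj, Matrix.add_vecMul] at h1
  have h4 : cp (lD lE) {y | O.byd x y} y ᵥ* Rv R G ι = - cp (lD lE) {y | O.byd x y} y := by
    have h5 : (Sum.swap ⁻¹' {y | O.byd x y} : Set (E ⊕ E)) = {y | O.byd x y} := by
      ext y
      exact O.byd_swap
    have h6 := cp_vecMul_Rv (lE := lE) {y | O.byd x y} y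
    rw [h5] at h6
    rw [← h6, hanti, cp_neg]
  rw [D.vecMul_C_of_anti h4] at h1
  have h5 : cp (lD lE) {x.swap} y = - (cp (lD lE) {x} y ᵥ* Rv R G ι) := by
    have h6 := cp_vecMul_Rv (lE := lE) {x.swap} y
    have h7 : (Sum.swap ⁻¹' {x.swap} : Set (E ⊕ E)) = {x} := by
      ext y
      constructor
      · intro h
        have h8 : y.swap = x.swap := h
        have := congrArg Sum.swap h8
        rwa [Sum.swap_swap, Sum.swap_swap] at this
      · rintro rfl
        rfl
    rw [h7, hanti, cp_neg] at h6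
    rw [← h6, neg_neg]
  rw [h5, Matrix.neg_vecMul, Matrix.vecMul_vecMul, neg_add_eq_zero] at h1
  refine ⟨h1, ?_⟩
  have h6 := congrArg (cp (lD lE) {x}) h1
  rw [Rv_C, Matrix.vecMul_add, Matrix.vecMul_sub, Matrix.vecMul_one, cp_add, cp_sub, cp_self,
    cp_cp] at h6
  have h7 : ({x} ∩ {y | O.byd x y} : Set (E ⊕ E)) = ∅ := by
    ext y
    simp only [Set.mem_inter_iff, Set.mem_singleton_iff, Set.mem_setOf_eq,
      Set.mem_empty_iff_false, iff_false, not_and]
    rintro rfl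
    exact O.not_byd_self _
  have h8 : cp (lD lE) {x} (cp (lD lE) {x} y ᵥ* Rv R G ι) = 0 := by
    rw [cp_vecMul_Rv (lE := lE), cp_cp]
    have h9 : (Sum.swap ⁻¹' {x} ∩ {x} : Set (E ⊕ E)) = ∅ := by
      ext y
      simp only [Set.mem_inter_iff, Set.mem_preimage, Set.mem_singleton_iff,
        Set.mem_empty_iff_false, iff_false, not_and]
      rintro h rfl
      exact OTree.swap_ne _ h
    rw [h9, cp_empty, Matrix.zero_vecMul]
  rw [h7, cp_empty, h8, add_zero, sub_eq_zero] at h6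
  exact h6

end CData

end Pool.Agent.Lib.MP_c052b4_al
end
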