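import Pool.Agent.Lib.MP_c052b4_al.Mg.G069
import Pool.Agent.Lib.MP_c052b4_al.Mg.G071

section

/-!
# Regular coherence and `DPr` for subgroups, directed unions and the trivial group
-/

set_option autoImplicit false
set_option linter.unusedSectionVars false

namespace Pool.Agent.Lib.MP_c052b4_al

open Matrix

universe u v w w'

variable {R : Type u} [Ring R] {G : Type v} [Group G] {H : Type w} [Group H]

theorem rscv_one_vm (f : H →* G) (hf : Function.Injective f) {k : Type*}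
    (y : k → MonoidAlgebra R H) : rscv f hf 1 (vm (inc R f) y) = y := by
  funext i
  ext h
  change (rsc f hf 1 (inc R f (y i))).coeff h = _
  rw [coeff_rsc, one_mul, coeff_inc f hf]

theorem rscv_vecMul (f : H →* G) (hf : Function.Injective f) {k n : Type*} [Fintype k] (g : G)
    (x : k → MonoidAlgebra R G) (M : Matrix k n (MonoidAlgebra R H)) :
    rscv f hf g (x ᵥ* M.map (inc R f)) = rscv f hf g x ᵥ* M := by
  funext j
  simp only [rscv, Matrix.vecMul, dotProduct, Matrix.map_apply, map_sum, rsc_mul_inc]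

theorem rscv_one_smul (f : H →* G) (hf : Function.Injective f) {k : Type*}
    (c : MonoidAlgebra R H) (x : k → MonoidAlgebra R G) :
    rscv f hf 1 (inc R f c • x) = c • rscv f hf 1 x := by
  funext i
  change rsc f hf 1 (inc R f c * x i) = c * rsc f hf 1 (x i)
  rw [rsc_apply, rsc_apply, inv_one, ← MonoidAlgebra.one_def, one_mul, one_mul, rs_inc_mul]

theorem rscv_add (f : H →* G) (hf : Function.Injective f) {k : Type*} (g : G)
    (x y : k → MonoidAlgebra R G) : rscv f hf g (x + y) = rscv f hf g x + rscv f hf g y := by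
  funext i
  exact map_add (rsc f hf g) _ _

theorem fg_of_ind_fg (f : H →* G) (hf : Function.Injective f) {k : Type*} [Finite k]
    (K : Submodule (MonoidAlgebra R H) (k → MonoidAlgebra R H))
    (h : (ind (inc R f) K).FG) : K.FG := by
  classical
  obtain ⟨s, hs, hspan⟩ := (Submodule.fg_span_iff_fg_span_finset_subset _).1 h
  obtain ⟨Y, hY, rfl⟩ := Finset.subset_set_image_iff.1 hs
  refine ⟨Y, le_antisymm (Submodule.span_le.2 hY) ?_⟩
  intro y hy
  have h1 : vm (inc R f) y ∈ ind (inc R f) K := vm_mem_ind hy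
  have h2 : ind (inc R f) K ≤ ind (inc R f) (Submodule.span (MonoidAlgebra R H) (Y : Set _)) := by
    unfold ind
    rw [hspan, Finset.coe_image]
    exact Submodule.span_mono (Set.image_mono Submodule.subset_span)
  have h3 := (mem_indG_iff f hf _ _).1 (h2 h1) 1
  rwa [rscv_one_vm] at h3

theorem hasRes_of_ind (f : H →* G) (hf : Function.Injective f) (n : ℕ) :
    ∀ {k : Type} [Fintype k] (K : Submodule (MonoidAlgebra R H) (k → MonoidAlgebra R H)),
    HasRes (RingHom.id (MonoidAlgebra R G)) n (ind (inc R f) K) →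
    HasRes (RingHom.id (MonoidAlgebra R H)) n K := by
  induction n with
  | zero =>
    intro k _ K h
    have h' : Good (RingHom.id (MonoidAlgebra R G)) (ind (inc R f) K) := h
    have := h'.finite
    have := h'.projective
    have hfg := fg_of_ind_fg f hf K (Module.Finite.iff_fg.1 inferInstance)
    have hfin : Module.Finite (MonoidAlgebra R H) K := Module.Finite.iff_fg.2 hfg
    obtain ⟨m, π, hπ⟩ := Module.Finite.exists_fin' (MonoidAlgebra R H) K
    obtain ⟨P, hP⟩ := exists_mat (K.subtype ∘ₗ π)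
    have hP' : ∀ v, v ᵥ* P = (π v : K) := hP
    have hrange := range_map (φ := inc R f) P K (fun v => by rw [hP']; exact (π v).2)
      (fun y hy => by
        obtain ⟨v, hv⟩ := hπ ⟨y, hy⟩
        exact ⟨v, by rw [hP', hv]⟩)
    have hmem : ∀ v, Matrix.vecMulLinear (P.map (inc R f)) v ∈ ind (inc R f) K := fun v => by
      rw [← hrange]
      exact ⟨v, rfl⟩
    let Pi0 := LinearMap.codRestrict (ind (inc R f) K) (Matrix.vecMulLinear (P.map (inc R f))) hmem
    have hPi : Function.Surjective Pi0 := by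
      rintro ⟨y, hy⟩
      have hy' := hy
      rw [← hrange] at hy'
      obtain ⟨v, hv⟩ := hy'
      exact ⟨v, Subtype.ext hv⟩
    obtain ⟨s, hs⟩ := Module.projective_lifting_property Pi0 LinearMap.id hPi
    have hs' : ∀ x : ind (inc R f) K, s x ᵥ* P.map (inc R f) = x := fun x =>
      congrArg Subtype.val (LinearMap.congr_fun hs x)
    let s' : K →ₗ[MonoidAlgebra R H] (Fin m → MonoidAlgebra R H) :=
      { toFun := fun y => rscv f hf 1 (s ⟨vm (inc R f) y, vm_mem_ind y.2⟩)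
        map_add' := fun y z => by
          rw [← rscv_add, ← map_add]
          congr 2
          apply Subtype.ext
          exact vm_add _ _
        map_smul' := fun c y => by
          rw [RingHom.id_apply, ← rscv_one_smul, ← map_smul]
          congr 2
          apply Subtype.ext
          exact vm_smul _ _ }
    have hproj : Module.Projective (MonoidAlgebra R H) K := by
      refine Module.Projective.of_split s' π ?_
      apply LinearMap.ext
      intro y
      apply Subtype.ext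
      change ((π (s' y) : K) : k → MonoidAlgebra R H) = y
      rw [← hP']
      change rscv f hf 1 (s ⟨vm (inc R f) y, vm_mem_ind y.2⟩) ᵥ* P = y
      rw [← rscv_vecMul, hs', rscv_one_vm]
    exact Good.of_finite_projective
  | succ n ih =>
    intro k _ K h
    have hfinA := h.finite
    have hfg := fg_of_ind_fg f hf K (Module.Finite.iff_fg.1 hfinA)
    have hfin : Module.Finite (MonoidAlgebra R H) K := Module.Finite.iff_fg.2 hfg
    obtain ⟨m, π, hπ⟩ := Module.Finite.exists_fin' (MonoidAlgebra R H) K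
    obtain ⟨P, hP⟩ := exists_mat (K.subtype ∘ₗ π)
    have hP' : ∀ v, v ᵥ* P = (π v : K) := hP
    have hrange := range_map (φ := inc R f) P K (fun v => by rw [hP']; exact (π v).2)
      (fun y hy => by
        obtain ⟨v, hv⟩ := hπ ⟨y, hy⟩
        exact ⟨v, by rw [hP', hv]⟩)
    have hmem : ∀ v, Matrix.vecMulLinear (P.map (inc R f)) v ∈ ind (inc R f) K := fun v => by
      rw [← hrange]
      exact ⟨v, rfl⟩
    have hPi : Function.Surjective (LinearMap.codRestrict (ind (inc R f) K)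
        (Matrix.vecMulLinear (P.map (inc R f))) hmem) := by
      rintro ⟨y, hy⟩
      have hy' := hy
      rw [← hrange] at hy'
      obtain ⟨v, hv⟩ := hy'
      exact ⟨v, Subtype.ext hv⟩
    have h1 := HasRes.ker h _ hPi
    have h2 : LinearMap.ker (LinearMap.codRestrict (ind (inc R f) K)
        (Matrix.vecMulLinear (P.map (inc R f))) hmem) = ind (inc R f) (LinearMap.ker π) := by
      rw [LinearMap.ker_codRestrict]
      change rker (P.map (inc R f)) = _
      rw [(rfreeG f hf).rker_map]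
      congr 1
      ext v
      rw [mem_rker, hP']
      constructor
      · intro h2
        exact Subtype.ext h2
      · intro h2
        have h3 : π v = 0 := h2
        rw [h3]
        rfl
    exact ⟨m, π, hπ, ih _ (h1.congr (LinearEquiv.ofEq _ _ h2))⟩

/-- W1. Regular coherence passes to subgroups. -/
theorem RegCoh.of_injective' (f : H →* G) (hf : Function.Injective f)
    (h : RegCoh (MonoidAlgebra R G)) : RegCoh (MonoidAlgebra R H) := by
  intro m n M
  have h1 := h m n (M.map (inc R f))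
  rw [(rfreeG f hf).rker_map] at h1
  obtain ⟨d, hd⟩ := h1
  exact ⟨d, hasRes_of_ind f hf d _ hd⟩

theorem exists_mem_of_directed (S : Set (Subgroup G)) (hS : S.Nonempty)
    (hdir : DirectedOn (· ≤ ·) S) (hcov : ∀ g : G, ∃ H ∈ S, g ∈ H) (T : Set G)
    (hT : T.Finite) : ∃ H ∈ S, T ⊆ H := by
  induction T, hT using Set.Finite.induction_on with
  | empty =>
    obtain ⟨H, hH⟩ := hS
    exact ⟨H, hH, Set.empty_subset _⟩
  | insert _ _ ih =>
    rename_i a s _ _
    obtain ⟨H, hH, h1⟩ := ih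
    obtain ⟨H', hH', h2⟩ := hcov a
    obtain ⟨K, hK, h3, h4⟩ := hdir H hH H' hH'
    exact ⟨K, hK, Set.insert_subset (h4 h2) fun x hx => h3 (h1 hx)⟩

theorem inc_rs_of_support (K : Subgroup G) (a : MonoidAlgebra R G)
    (h : ∀ g, a.coeff g ≠ 0 → g ∈ K) :
    inc R K.subtype (rs R K.subtype K.subtype_injective a) = a := by
  ext g
  by_cases hg : g ∈ K
  · have h1 := coeff_inc K.subtype K.subtype_injective
      (rs R K.subtype K.subtype_injective a) ⟨g, hg⟩
    rw [coeff_rs] at h1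
    exact h1
  · rw [coeff_inc_of_notMem]
    · by_contra h1
      exact hg (h g (Ne.symm h1))
    · rw [Subgroup.range_subtype]
      exact hg

/-- W3. DP passes to directed unions of groups. -/
theorem dpr_of_directed' (S : Set (Subgroup G)) (hS : S.Nonempty)
    (hdir : DirectedOn (· ≤ ·) S)
    (hcov : ∀ g : G, ∃ H ∈ S, g ∈ H) (h : ∀ H ∈ S, DPr (MonoidAlgebra R H)) :
    DPr (MonoidAlgebra R G) := by
  classical
  intro m n M Φ hΦ hΦM
  obtain ⟨K, hK, hT⟩ := exists_mem_of_directed S hS hdir hcov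
    ((⋃ i, ⋃ j, ((M i j).coeff.support : Set G)) ∪
      ⋃ x ∈ Φ, ⋃ i, ((x i).coeff.support : Set G)) (by
      refine Set.Finite.union ?_ ?_
      · exact Set.finite_iUnion fun i => Set.finite_iUnion fun j => Finset.finite_toSet _
      · exact hΦ.biUnion fun x _ => Set.finite_iUnion fun i => Finset.finite_toSet _)
  have hM : ∀ i j, ∀ g, (M i j).coeff g ≠ 0 → g ∈ K := by
    intro i j g hg
    apply hT
    left
    simp only [Set.mem_iUnion]
    exact ⟨i, j, Finsupp.mem_support_iff.2 hg⟩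
  have hx : ∀ x ∈ Φ, ∀ i, ∀ g, (x i).coeff g ≠ 0 → g ∈ K := by
    intro x hx i g hg
    apply hT
    right
    simp only [Set.mem_iUnion]
    exact ⟨x, hx, i, Finsupp.mem_support_iff.2 hg⟩
  let f := K.subtype
  have hf : Function.Injective f := K.subtype_injective
  let M' : Matrix (Fin m) (Fin n) (MonoidAlgebra R K) := Matrix.of fun i j => rs R f hf (M i j)
  have hM' : M'.map (inc R f) = M := by
    ext1 i j
    exact inc_rs_of_support K (M i j) (hM i j)
  let q : (Fin m → MonoidAlgebra R G) → (Fin m → MonoidAlgebra R K) := fun x i =>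
    rs R f hf (x i)
  have hq : ∀ x ∈ Φ, vm (inc R f) (q x) = x := by
    intro x hx1
    funext i
    exact inc_rs_of_support K (x i) (hx x hx1 i)
  obtain ⟨Y, h1, h2, h3⟩ := h K hK m n M' (q '' Φ) (hΦ.image q) (by
    rintro _ ⟨x, hx1, rfl⟩
    have h4 : x ᵥ* M = 0 := hΦM hx1
    have h5 := rscv_vecMul f hf 1 (vm (inc R f) (q x)) M'
    rw [rscv_one_vm, hM', hq x hx1, h4] at h5
    change q x ᵥ* M' = 0
    rw [← h5]
    funext j
    exact map_zero (rsc f hf 1))
  refine ⟨ind (inc R f) Y, ?_, ?_, (rfreeG f hf).perf_ind h3⟩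
  · intro x hx1
    rw [← hq x hx1]
    exact vm_mem_ind (h1 ⟨x, hx1, rfl⟩)
  · rw [← hM', (rfreeG f hf).rker_map]
    exact ind_mono h2

/-- W4. The trivial group. -/
theorem regCoh_of_subsingleton' (hR : IsRegularRing R) [Subsingleton G] :
    RegCoh (MonoidAlgebra R G) := by
  classical
  have hcG : ∀ a : MonoidAlgebra R G, cG R G (a.coeff 1) = a := by
    intro a
    ext g
    have hg : g = 1 := Subsingleton.elim _ _
    subst hg
    change (MonoidAlgebra.single (1 : G) (a.coeff 1)).coeff 1 = a.coeff 1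
    rw [MonoidAlgebra.coeff_single, Finsupp.single_eq_same]
  have hcG' : ∀ r : R, (cG R G r).coeff 1 = r := by
    intro r
    change (MonoidAlgebra.single (1 : G) r).coeff 1 = r
    rw [MonoidAlgebra.coeff_single, Finsupp.single_eq_same]
  let ρ : MonoidAlgebra R G →+ R :=
    { toFun := fun a => a.coeff 1
      map_zero' := rfl
      map_add' := fun a b => rfl }
  let D : RFree (cG R G) PUnit.{1} :=
    { u := fun _ => 1
      ρ := fun _ => ρ
      mul := fun _ a b => by
        change (a * cG R G b).coeff 1 = a.coeff 1 * b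
        rw [← hcG a, ← map_mul, hcG', hcG']
      dec := fun a => ⟨{PUnit.unit}, fun T' hT' => by
        have hT : T' = {PUnit.unit} := by
          refine le_antisymm (fun x _ => ?_) hT'
          rw [Finset.mem_singleton]
        rw [hT, Finset.sum_singleton, one_mul]
        exact (hcG a).symm⟩ }
  intro m n M
  have hM : (M.map fun a => a.coeff 1).map (cG R G) = M := by
    ext1 i j
    exact hcG (M i j)
  rw [← hM, D.rker_map]
  have := hR.1
  obtain ⟨d, hd⟩ := hR.hasRes (rker (M.map fun a => a.coeff 1))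
  exact ⟨d, D.hasRes_ind d _ hd⟩

end Pool.Agent.Lib.MP_c052b4_al
end

section

/-!
# The idempotent and the nilpotent of an isomorphism over a tree
-/

set_option autoImplicit false
set_option linter.unusedSectionVars false

namespace Pool.Agent.Lib.MP_c052b4_al

open Matrix

universe u v w w'

namespace CData

variable {R : Type u} [Ring R] {G : Type v} [Group G] {V : Type w} {E : Type w'}
    [MulAction G V] [MulAction G E] {O : OTree G V E} {ι κ ν : Type} [Fintype ι] [Fintype κ]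
    [Fintype ν] [DecidableEq ι] [DecidableEq κ] [DecidableEq ν] {lE : ι → E} {lV : κ → V}
    {r : V} (D : CData R O (ν := ν) lE lV r)

/-- the degree preserving part of `C` -/
noncomputable def Pi : Matrix (ι ⊕ ι) (ι ⊕ ι) (MonoidAlgebra R G) :=
  rp (lD lE) (lD lE) (fun x y => y = x) D.C

/-- the part of `C` along pairs of consecutive signed edges -/
noncomputable def Nh : Matrix (ι ⊕ ι) (ι ⊕ ι) (MonoidAlgebra R G) :=
  rp (lD lE) (lD lE) O.fol D.C

/-- the part of `C` beyond a signed edge -/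
noncomputable def Cb : Matrix (ι ⊕ ι) (ι ⊕ ι) (MonoidAlgebra R G) :=
  rp (lD lE) (lD lE) O.byd D.C

theorem eq_smul_iff' (g : G) (x y : E ⊕ E) : (g • y = g • x) ↔ y = x := smul_left_cancel_iff g

variable {x : ι ⊕ ι → MonoidAlgebra R G} {ξ : E ⊕ E}

theorem vecMul_Pi (hx : cp (lD lE) {ξ} x = x) : x ᵥ* D.Pi = cp (lD lE) {ξ} (x ᵥ* D.C) :=
  rp_vecMul (fun g x y => eq_smul_iff' g x y) D.C hx

theorem vecMul_Nh (hx : cp (lD lE) {ξ} x = x) :
    x ᵥ* D.Nh = cp (lD lE) {η | O.fol ξ η} (x ᵥ* D.C) :=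
  rp_vecMul (fun g x y => O.fol_smul g x y) D.C hx

theorem vecMul_Cb (hx : cp (lD lE) {ξ} x = x) :
    x ᵥ* D.Cb = cp (lD lE) {η | O.byd ξ η} (x ᵥ* D.C) :=
  rp_vecMul (fun g x y => O.byd_smul g x y) D.C hx

theorem hom_Pi (hx : cp (lD lE) {ξ} x = x) : cp (lD lE) {ξ} (x ᵥ* D.Pi) = x ᵥ* D.Pi := by
  rw [D.vecMul_Pi hx, cp_self]

theorem cp_vecMul_OO_eq_zero (hx : cp (lD lE) {ξ} x = x) (Z : Set V) (hZ : O.org ξ ∉ Z) :
    cp lV Z (x ᵥ* D.OO) = 0 := by
  have h : cp (lD lE) (O.org ⁻¹' Z) x = 0 := by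
    apply cp_eq_zero_of_disjoint hx
    rw [Set.disjoint_singleton_right]
    exact hZ
  rw [D.cp_vecMul_OO, h, Matrix.zero_vecMul]

theorem vecMul_OO_ρD (x : ι ⊕ ι → MonoidAlgebra R G) : (x ᵥ* D.OO) ᵥ* D.ρD = x ᵥ* D.C := by
  rw [Matrix.vecMul_vecMul]
  rfl

theorem Pi_mul_Pi : D.Pi * D.Pi = D.Pi := by
  refine mat_ext_hom (lD lE) fun ξ x hx => ?_
  rw [← Matrix.vecMul_vecMul, D.vecMul_Pi (D.hom_Pi hx), D.vecMul_Pi hx]
  have h := (D.lemmaP ξ (x ᵥ* D.OO) (D.cp_vecMul_OO_eq_zero hx _ (O.org_not_mem_sd ξ))).2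
  rwa [vecMul_OO_ρD] at h

theorem Pi_Rv_C : D.Pi * (Rv R G ι * D.C) = D.Cb := by
  refine mat_ext_hom (lD lE) fun ξ x hx => ?_
  rw [← Matrix.vecMul_vecMul, D.vecMul_Pi hx, D.vecMul_Cb hx]
  have h := (D.lemmaP ξ (x ᵥ* D.OO) (D.cp_vecMul_OO_eq_zero hx _ (O.org_not_mem_sd ξ))).1
  rwa [vecMul_OO_ρD] at h

theorem Nh_mul_Pi : D.Nh * D.Pi = D.Nh := by
  refine mat_ext_hom (lD lE) fun ξ x hx => ?_
  rw [← Matrix.vecMul_vecMul]
  have key : ∀ η : E ⊕ E, cp (lD lE) {η} (x ᵥ* D.Nh) ᵥ* D.Pi = cp (lD lE) {η} (x ᵥ* D.Nh) := by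
    intro η
    rw [D.vecMul_Nh hx, cp_cp]
    by_cases hη : O.fol ξ η
    · have h1 : ({η} ∩ {η | O.fol ξ η} : Set (E ⊕ E)) = {η} := by
        ext y
        simp only [Set.mem_inter_iff, Set.mem_singleton_iff, Set.mem_setOf_eq, and_iff_left_iff_imp]
        rintro rfl
        exact hη
      rw [h1, D.vecMul_Pi (cp_self _ _ _)]
      have h := (D.lemmaP η (x ᵥ* D.OO)
        (D.cp_vecMul_OO_eq_zero hx _ (O.org_not_mem_sd_of_fol hη))).2
      rwa [vecMul_OO_ρD] at h
    · have h1 : ({η} ∩ {η | O.fol ξ η} : Set (E ⊕ E)) = ∅ := by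
        ext y
        simp only [Set.mem_inter_iff, Set.mem_singleton_iff, Set.mem_setOf_eq,
          Set.mem_empty_iff_false, iff_false, not_and]
        rintro rfl
        exact hη
      rw [h1, cp_empty, Matrix.zero_vecMul]
  let F : (ι ⊕ ι → MonoidAlgebra R G) →+ (ι ⊕ ι → MonoidAlgebra R G) :=
    { toFun := fun v => v ᵥ* D.Pi - v
      map_zero' := by rw [Matrix.zero_vecMul, sub_zero]
      map_add' := fun a b => by rw [Matrix.add_vecMul]; abel }
  have h := eq_zero_of_cp (lD lE) F (x ᵥ* D.Nh) (fun η => by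
    change cp (lD lE) {η} (x ᵥ* D.Nh) ᵥ* D.Pi - cp (lD lE) {η} (x ᵥ* D.Nh) = 0
    rw [key η, sub_self])
  exact sub_eq_zero.1 h

/-- the correction term -/
noncomputable def D' : Matrix (ι ⊕ ι) ν (MonoidAlgebra R G) :=
  rp (lD lE) (fun _ : ν => r) (fun ξ v => v = O.org ξ.swap) (D.OO * D.σ)

theorem Pi_Rv_OO : D.Pi * Rv R G ι * D.OO = D.Nh * D.OO + D.D' * D.B := by
  refine mat_ext_hom (lD lE) fun ξ x hx => ?_
  have hzz : x ᵥ* D.OO = (x ᵥ* D.C) ᵥ* D.OO + (x ᵥ* (D.OO * D.σ)) ᵥ* D.B := by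
    rw [Matrix.vecMul_vecMul, Matrix.vecMul_vecMul, ← Matrix.vecMul_add]
    congr 1
    unfold C
    rw [Matrix.mul_assoc, Matrix.mul_assoc, ← Matrix.mul_add, ρD_OO, Matrix.mul_one]
  have h1 := congrArg (cp lV {O.org ξ.swap}) hzz
  have hne : O.org ξ ∉ ({O.org ξ.swap} : Set V) := fun h => O.org_swap_ne ξ h.symm
  rw [D.cp_vecMul_OO_eq_zero hx _ hne, cp_add, cp_vecMul_OO,
    Hg.cp_vecMul (fun _ _ => rfl) D.hB] at h1
  have hset : (O.org ⁻¹' {O.org ξ.swap} : Set (E ⊕ E)) = {ξ.swap} ∪ {η | O.fol ξ η} := by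
    ext y
    exact O.org_eq_end
  have hdisj : Disjoint ({ξ.swap} : Set (E ⊕ E)) {η | O.fol ξ η} := by
    rw [Set.disjoint_singleton_left]
    intro h
    exact O.not_byd_swap ξ (O.fol_byd h)
  rw [hset, cp_union _ hdisj, ← D.vecMul_Nh hx, Matrix.add_vecMul] at h1
  have h5 : cp (lD lE) {ξ.swap} (x ᵥ* D.C) = - ((x ᵥ* D.Pi) ᵥ* Rv R G ι) := by
    have h6 := cp_vecMul_Rv (lE := lE) {ξ.swap} (x ᵥ* D.C)
    have h7 : (Sum.swap ⁻¹' {ξ.swap} : Set (E ⊕ E)) = {ξ} := by
      ext y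
      constructor
      · intro h
        have h8 : y.swap = ξ.swap := h
        have := congrArg Sum.swap h8
        rwa [Sum.swap_swap, Sum.swap_swap] at this
      · rintro rfl
        rfl
    rw [h7, Matrix.vecMul_vecMul, C_Rv, Matrix.vecMul_neg, cp_neg, ← D.vecMul_Pi hx] at h6
    rw [← h6, neg_neg]
  have h8 : cp (fun _ : ν => r) (id ⁻¹' {O.org ξ.swap}) (x ᵥ* (D.OO * D.σ)) = x ᵥ* D.D' := by
    unfold D'
    rw [rp_vecMul _ (D.OO * D.σ) hx]
    · rfl
    · intro g x y
      rw [OTree.swap_smul, O.org_smul, smul_left_cancel_iff]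
  rw [h5, h8, Matrix.neg_vecMul] at h1
  rw [Matrix.vecMul_add, ← Matrix.vecMul_vecMul, ← Matrix.vecMul_vecMul, ← Matrix.vecMul_vecMul,
    ← Matrix.vecMul_vecMul]
  have h9 : (0 : κ → MonoidAlgebra R G) = -(((x ᵥ* D.Pi) ᵥ* Rv R G ι) ᵥ* D.OO) +
    ((x ᵥ* D.Nh) ᵥ* D.OO + (x ᵥ* D.D') ᵥ* D.B) := by
    rw [← add_assoc]
    exact h1
  rw [eq_comm, neg_add_eq_zero] at h9
  exact h9

theorem Cb_eq_Nh_C : D.Cb = D.Nh * D.C := by
  rw [← Pi_Rv_C]
  have h := congrArg (fun M => M * D.ρD) D.Pi_Rv_OO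
  simp only [Matrix.add_mul, Matrix.mul_assoc, D.B_ρD, Matrix.mul_zero, add_zero] at h
  exact h

theorem Pi_C : D.Pi * D.C = D.Cb + D.Pi - D.Pi * Rv R G ι := by
  have h := D.Pi_Rv_C
  rw [Rv_C, Matrix.mul_add, Matrix.mul_sub, Matrix.mul_one] at h
  rw [← h]
  abel

theorem Cb_rec : D.Cb = D.Nh * D.Cb + D.Nh - D.Nh * Rv R G ι := by
  rw [Cb_eq_Nh_C]
  conv_lhs => rw [← D.Nh_mul_Pi, Matrix.mul_assoc, Pi_C, Cb_eq_Nh_C]
  rw [Matrix.mul_sub, Matrix.mul_add, ← Matrix.mul_assoc D.Nh D.Pi, Nh_mul_Pi]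

theorem Cb_rec' (k : ℕ) : D.Cb = (∑ j ∈ Finset.range k, D.Nh ^ (j + 1)) -
    (∑ j ∈ Finset.range k, D.Nh ^ (j + 1)) * Rv R G ι + D.Nh ^ k * D.Cb := by
  induction k with
  | zero => simp
  | succ k ih =>
    have h : D.Nh ^ k * D.Cb = D.Nh ^ (k + 1) * D.Cb + D.Nh ^ (k + 1) -
        D.Nh ^ (k + 1) * Rv R G ι := by
      conv_lhs => rw [D.Cb_rec]
      rw [Matrix.mul_sub, Matrix.mul_add, ← Matrix.mul_assoc, ← Matrix.mul_assoc, pow_succ]
    rw [Finset.sum_range_succ, Matrix.add_mul]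
    conv_lhs => rw [ih, h]
    abel

theorem sp_Nh : Sp (lD lE) (lD lE) O.fol D.Nh := sp_rp _ _ _ _

theorem sp_Nh_pow (k : ℕ) : Sp (lD lE) (lD lE) (O.rch k) (D.Nh ^ k) := by
  induction k with
  | zero =>
    rw [pow_zero]
    exact (sp_one _).mono fun x y h => (O.rch_zero).2 h
  | succ k ih =>
    rw [pow_succ]
    exact (ih.mul (fun g x y => O.fol_smul g x y) D.sp_Nh).mono fun x y h => (O.rch_succ).2 h

theorem rp_rch_Cb (k : ℕ) (hk : 0 < k) : rp (lD lE) (lD lE) (O.rch k) D.Cb = D.Nh ^ k := by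
  have h1 : ∀ j, j ≠ k → rp (lD lE) (lD lE) (O.rch k) (D.Nh ^ j) = 0 := by
    intro j hj
    exact (D.sp_Nh_pow j).rp_eq_zero fun x y h h' => hj (O.rch_unique h h')
  have h2 : rp (lD lE) (lD lE) (O.rch k) (D.Nh ^ k) = D.Nh ^ k :=
    (D.sp_Nh_pow k).rp_eq_self fun _ _ h => h
  have h3 : ∀ j, rp (lD lE) (lD lE) (O.rch k) (D.Nh ^ j * Rv R G ι) = 0 := by
    intro j
    have hs : Sp (lD lE) (lD lE) (fun x y => ∃ z, O.rch j x z ∧ y = z.swap)
        (D.Nh ^ j * Rv R G ι) := by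
      refine (D.sp_Nh_pow j).mul (Q := fun x y => y = Sum.swap x) ?_ (hg_Rv (lE := lE)).sp
      intro g x y
      rw [OTree.swap_smul, smul_left_cancel_iff]
    refine hs.rp_eq_zero ?_
    rintro x y ⟨z, hz, rfl⟩ h
    have : O.rch j x z.swap.swap := by rwa [Sum.swap_swap]
    exact O.not_rch_of_rch_swap this h
  have h4 : rp (lD lE) (lD lE) (O.rch k) (D.Nh ^ k * D.Cb) = 0 := by
    have hs : Sp (lD lE) (lD lE) (fun x z => ∃ y, O.rch k x y ∧ O.byd y z)
        (D.Nh ^ k * D.Cb) :=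
      (D.sp_Nh_pow k).mul (fun g x y => O.byd_smul g x y) (sp_rp _ _ _ _)
    refine hs.rp_eq_zero ?_
    rintro x z ⟨y, hy, hz⟩ h
    exact O.not_rch_of_byd le_rfl hy hz h
  rw [D.Cb_rec' k, rp_add, rp_sub, h4, add_zero, Matrix.sum_mul, rp_sum, rp_sum]
  have h5 : ∑ j ∈ Finset.range k, rp (lD lE) (lD lE) (O.rch k) (D.Nh ^ (j + 1) * Rv R G ι) = 0 :=
    Finset.sum_eq_zero fun j _ => h3 (j + 1)
  rw [h5, sub_zero, Finset.sum_eq_single (k - 1)]
  · rw [Nat.sub_add_cancel hk, h2]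
  · intro j _ hj
    exact h1 (j + 1) (by omega)
  · intro h
    exact absurd (Finset.mem_range.2 (by omega)) h

/-- finitely many lengths occur in a matrix -/
theorem exists_bound (M : Matrix (ι ⊕ ι) (ι ⊕ ι) (MonoidAlgebra R G)) :
    ∃ K : ℕ, ∀ k, K ≤ k → rp (lD lE) (lD lE) (O.rch k) M = 0 := by
  classical
  have h1 : ∀ i j, ∃ K : ℕ, ∀ g, (M i j).coeff g ≠ 0 → ∀ k,
      O.rch k (lD lE i) (g • lD lE j) → k < K := by
    intro i j
    refine ⟨((M i j).coeff.support.sup fun g =>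
      O.T.dist (O.org (lD lE i)) (O.org (g • lD lE j))) + 1, fun g hg k hk => ?_⟩
    have h2 := (O.rch_dist hk).1
    have h3 : O.T.dist (O.org (lD lE i)) (O.org (g • lD lE j)) ≤
        (M i j).coeff.support.sup fun g =>
          O.T.dist (O.org (lD lE i)) (O.org (g • lD lE j)) :=
      Finset.le_sup (f := fun g => O.T.dist (O.org (lD lE i)) (O.org (g • lD lE j)))
        (Finsupp.mem_support_iff.2 hg)
    omega
  choose K hK using h1
  refine ⟨Finset.univ.sup fun i => Finset.univ.sup fun j => K i j, fun k hk => ?_⟩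
  refine Matrix.ext fun i j => ?_
  change cpA _ (M i j) = 0
  ext g
  rw [coeff_cpA]
  by_cases hg : (M i j).coeff g = 0
  · rw [hg, ite_self]
    rfl
  · rw [if_neg]
    · rfl
    · intro h
      have h2 := hK i j g hg k h
      have h3 : K i j ≤ Finset.univ.sup fun j => K i j :=
        Finset.le_sup (f := fun j => K i j) (Finset.mem_univ j)
      have h4 : (Finset.univ.sup fun j => K i j) ≤
          Finset.univ.sup fun i => Finset.univ.sup fun j => K i j :=
        Finset.le_sup (f := fun i => Finset.univ.sup fun j => K i j) (Finset.mem_univ i)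
      omega

theorem isNilpotent_Nh : IsNilpotent D.Nh := by
  obtain ⟨K, hK⟩ := exists_bound (O := O) (lE := lE) D.Cb
  refine ⟨K + 1, ?_⟩
  rw [← D.rp_rch_Cb (K + 1) (Nat.succ_pos K)]
  exact hK _ (Nat.le_succ K)

/-- the components of a step are killed one by one -/
theorem unique_step (N : Matrix (ι ⊕ ι) (ι ⊕ ι) (MonoidAlgebra R G))
    (hN : Sp (lD lE) (lD lE) O.fol N) (k : ℕ) (ξ ξ' : E ⊕ E) (x : ι ⊕ ι → MonoidAlgebra R G)
    (hx : cp (lD lE) {ξ} x = x) (h : x ᵥ* N ^ (k + 1) = 0) :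
    cp (lD lE) {ξ'} (x ᵥ* N) ᵥ* N ^ k = 0 := by
  have hpow : ∀ k, Sp (lD lE) (lD lE) (O.rch k) (N ^ k) := by
    intro k
    induction k with
    | zero =>
      rw [pow_zero]
      exact (sp_one _).mono fun x y h => (O.rch_zero).2 h
    | succ k ih =>
      rw [pow_succ]
      exact (ih.mul (fun g x y => O.fol_smul g x y) hN).mono fun x y h => (O.rch_succ).2 h
  set v := x ᵥ* N with hv
  have hv1 : cp (lD lE) {η | O.fol ξ η} v = v := hN.cp_vecMul (fun g x y => O.fol_smul g x y) hx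
  have hv2 : v ᵥ* N ^ k = 0 := by
    rw [hv, Matrix.vecMul_vecMul, ← pow_succ']
    exact h
  by_cases hξ' : O.fol ξ ξ'
  · have hsplit : v = cp (lD lE) {ξ'} v + cp (lD lE) {ξ'}ᶜ v := by
      have h1 := cp_union (lD lE) (disjoint_compl_right (a := ({ξ'} : Set (E ⊕ E)))) v
      rw [Set.union_compl_self, cp_univ] at h1
      exact h1
    -- the part `w` of `v` outside `ξ'` gives nothing in the degrees reached from `ξ'`
    have h1 : cp (lD lE) {ζ | O.rch k ξ' ζ} (cp (lD lE) {ξ'}ᶜ v ᵥ* N ^ k) = 0 := by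
      let F : (ι ⊕ ι → MonoidAlgebra R G) →+ (ι ⊕ ι → MonoidAlgebra R G) :=
        { toFun := fun y => cp (lD lE) {ζ | O.rch k ξ' ζ} (y ᵥ* N ^ k)
          map_zero' := by rw [Matrix.zero_vecMul, cp_zero]
          map_add' := fun a b => by rw [Matrix.add_vecMul, cp_add] }
      refine eq_zero_of_cp (lD lE) F _ fun η => ?_
      change cp (lD lE) {ζ | O.rch k ξ' ζ} (cp (lD lE) {η} (cp (lD lE) {ξ'}ᶜ v) ᵥ* N ^ k) = 0
      rw [cp_cp]
      by_cases hη : η = ξ'
      · subst hη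
        rw [Set.inter_compl_self, cp_empty, Matrix.zero_vecMul, cp_zero]
      · have h2 : ({η} ∩ {ξ'}ᶜ : Set (E ⊕ E)) = {η} := by
          ext y
          simp only [Set.mem_inter_iff, Set.mem_singleton_iff, Set.mem_compl_iff,
            and_iff_left_iff_imp]
          rintro rfl
          exact hη
        rw [h2]
        by_cases hf : O.fol ξ η
        · have h3 := (hpow k).cp_vecMul (fun g x y => O.rch_smul k g x y)
            (cp_self (lD lE) {η} v)
          rw [← h3, cp_cp]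
          have h4 : ({ζ | O.rch k ξ' ζ} ∩ {ζ | O.rch k η ζ} : Set (E ⊕ E)) = ∅ := by
            ext ζ
            simp only [Set.mem_inter_iff, Set.mem_setOf_eq, Set.mem_empty_iff_false, iff_false,
              not_and]
            intro h5 h6
            exact hη (O.rch_first_step hf hξ' h6 h5)
          rw [h4, cp_empty]
        · have h3 : cp (lD lE) {η} v = 0 := by
            apply cp_eq_zero_of_disjoint hv1
            rw [Set.disjoint_singleton_left]
            exact hf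
          rw [h3, Matrix.zero_vecMul, cp_zero]
    have h2 := congrArg (fun y => cp (lD lE) {ζ | O.rch k ξ' ζ} (y ᵥ* N ^ k)) hsplit
    simp only [Matrix.add_vecMul, cp_add] at h2
    rw [h1, add_zero, hv2, cp_zero] at h2
    rw [(hpow k).cp_vecMul (fun g x y => O.rch_smul k g x y) (cp_self (lD lE) {ξ'} v)] at h2
    exact h2.symm
  · have h3 : cp (lD lE) {ξ'} v = 0 := by
      apply cp_eq_zero_of_disjoint hv1
      rw [Set.disjoint_singleton_left]
      exact hξ'
    rw [h3, Matrix.zero_vecMul]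

end CData

end Pool.Agent.Lib.MP_c052b4_al
end

section

/-!
# The class of an isomorphism over a tree
-/

set_option autoImplicit false
set_option linter.unusedSectionVars false

namespace Pool.Agent.Lib.MP_c052b4_al

open Matrix

universe u v w w'

namespace CData

variable {R : Type u} [Ring R] {G : Type v} [Group G] {V : Type w} {E : Type w'}
    [MulAction G V] [MulAction G E] {O : OTree G V E} {ι κ ν : Type} [Fintype ι] [Fintype κ]
    [Fintype ν] [DecidableEq ι] [DecidableEq κ] [DecidableEq ν] {lE : ι → E} {lV : κ → V}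
    {r : V} (D : CData R O (ν := ν) lE lV r)

/-- the idempotent on the edge module -/
noncomputable def p : Matrix ι ι (MonoidAlgebra R G) :=
  rp lE lE (fun x y => y = x) (D.s * D.ρ)

theorem hg_p : Hg lE lE id D.p := hg_rp id _

theorem Pi_eq : D.Pi = fromBlocks D.p 0 0 (1 - D.p) := by
  classical
  have hC : D.C = fromBlocks (D.s * D.ρ) (-(D.s * D.ρ)) (D.t * D.ρ) (1 - D.s * D.ρ) := by
    unfold C OO ρD
    have h := D.e2
    rw [Matrix.sub_mul, sub_eq_iff_eq_add] at h
    rw [fromRows_mul_fromCols, Matrix.mul_neg, Matrix.mul_neg]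
    congr 1
    rw [h]
    abel
  have h1 : rp lE lE (fun x y => y = x) (1 : Matrix ι ι (MonoidAlgebra R G)) = 1 :=
    (sp_one lE).rp_eq_self fun _ _ h => h
  have h2 : rp lE lE (fun x y => y = x) (1 - D.s * D.ρ) = 1 - D.p := by
    rw [rp_sub, h1]
    rfl
  rw [← h2]
  unfold Pi p
  rw [hC]
  refine Matrix.ext fun i j => ?_
  rcases i with i | i <;> rcases j with j | j
  · change cpA {g : G | g • (Sum.inl (lE j) : E ⊕ E) = Sum.inl (lE i)} ((D.s * D.ρ) i j) =
      cpA {g : G | g • lE j = lE i} ((D.s * D.ρ) i j)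
    congr 1
    ext g
    change (Sum.inl (g • lE j) : E ⊕ E) = Sum.inl (lE i) ↔ g • lE j = lE i
    exact Sum.inl_injective.eq_iff
  · change cpA {g : G | g • (Sum.inr (lE j) : E ⊕ E) = Sum.inl (lE i)} _ = 0
    have h3 : {g : G | g • (Sum.inr (lE j) : E ⊕ E) = Sum.inl (lE i)} = ∅ := by
      ext g
      change (Sum.inr (g • lE j) : E ⊕ E) = Sum.inl (lE i) ↔ False
      simp
    rw [h3]
    ext g
    rw [coeff_cpA]
    simp
  · change cpA {g : G | g • (Sum.inl (lE j) : E ⊕ E) = Sum.inr (lE i)} _ = 0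
    have h3 : {g : G | g • (Sum.inl (lE j) : E ⊕ E) = Sum.inr (lE i)} = ∅ := by
      ext g
      change (Sum.inl (g • lE j) : E ⊕ E) = Sum.inr (lE i) ↔ False
      simp
    rw [h3]
    ext g
    rw [coeff_cpA]
    simp
  · change cpA {g : G | g • (Sum.inr (lE j) : E ⊕ E) = Sum.inr (lE i)} 
        ((1 - D.s * D.ρ : Matrix ι ι (MonoidAlgebra R G)) i j) =
      cpA {g : G | g • lE j = lE i} ((1 - D.s * D.ρ : Matrix ι ι (MonoidAlgebra R G)) i j)
    congr 1
    ext g
    change (Sum.inr (g • lE j) : E ⊕ E) = Sum.inr (lE i) ↔ g • lE j = lE i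
    exact Sum.inr_injective.eq_iff

theorem p_mul_p : D.p * D.p = D.p := by
  have h := D.Pi_mul_Pi
  rw [Pi_eq, fromBlocks_multiply] at h
  have h1 := (fromBlocks_inj.1 h).1
  rwa [Matrix.mul_zero, add_zero] at h1

/-- the embedding of the edge module into the doubled one -/
noncomputable def τ : Matrix ι (ι ⊕ ι) (MonoidAlgebra R G) := fromCols D.p (-(1 - D.p))

/-- its left inverse -/
noncomputable def kap (R : Type u) [Ring R] (G : Type v) [Group G] (ι : Type) [DecidableEq ι] :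
    Matrix (ι ⊕ ι) ι (MonoidAlgebra R G) :=
  fromRows (1 : Matrix ι ι (MonoidAlgebra R G)) (-1 : Matrix ι ι (MonoidAlgebra R G))

theorem τ_kap : D.τ * kap R G ι = 1 := by
  unfold τ kap
  rw [fromCols_mul_fromRows, Matrix.mul_one, Matrix.neg_mul, Matrix.mul_neg, Matrix.mul_one,
    neg_neg]
  abel

theorem p_mul_one_sub : D.p * (1 - D.p) = 0 := by
  rw [mul_sub, mul_one, p_mul_p, sub_self]

theorem one_sub_mul_p : (1 - D.p) * D.p = 0 := by
  rw [sub_mul, one_mul, p_mul_p, sub_self]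

theorem one_sub_idem' : (1 - D.p) * (1 - D.p) = 1 - D.p := by
  rw [mul_sub, mul_one, one_sub_mul_p, sub_zero]

theorem Pi_kap_τ : D.Pi * kap R G ι * D.τ = D.Pi := by
  rw [Pi_eq]
  unfold τ kap
  rw [fromBlocks_mul_fromRows, fromRows_mul_fromCols]
  simp only [Matrix.mul_one, Matrix.zero_mul, Matrix.mul_neg, neg_zero, add_zero, zero_add,
    Matrix.neg_mul, neg_neg, p_mul_p, p_mul_one_sub, one_sub_mul_p, one_sub_idem']

theorem τ_Pi : D.τ * D.Pi = D.τ := by
  rw [Pi_eq]
  unfold τ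
  rw [fromCols_mul_fromBlocks]
  simp only [Matrix.mul_zero, add_zero, zero_add, Matrix.neg_mul, p_mul_p, one_sub_idem']

theorem one_sub_Rv_OO_ρ : (1 - Rv R G ι) * D.OO * D.ρ = kap R G ι := by
  rw [one_sub_Rv_mul, fromRows_mul, Matrix.neg_mul, D.e2]
  rfl

/-- the nilpotent on the edge module -/
noncomputable def nu : Matrix ι ι (MonoidAlgebra R G) := D.τ * D.Nh * kap R G ι

/-- the main block -/
noncomputable def W : Matrix ι ι (MonoidAlgebra R G) := D.τ * D.OO * D.ρ

theorem Nh_kap_τ : D.Nh * kap R G ι * D.τ = D.Nh := by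
  conv_lhs => rw [← D.Nh_mul_Pi]
  rw [Matrix.mul_assoc, Matrix.mul_assoc, ← Matrix.mul_assoc D.Pi, Pi_kap_τ, Nh_mul_Pi]

theorem one_sub_nu_W : (1 - D.nu) * D.W = 1 := by
  have h1 : D.Pi * kap R G ι = D.Pi * D.OO * D.ρ - D.Nh * D.OO * D.ρ := by
    rw [← D.one_sub_Rv_OO_ρ, ← Matrix.mul_assoc, ← Matrix.mul_assoc, Matrix.mul_sub, Matrix.mul_one,
      Matrix.sub_mul, Pi_Rv_OO, Matrix.sub_mul, Matrix.add_mul, Matrix.mul_assoc D.D', D.e4,
      Matrix.mul_zero, add_zero]
  have h2 := congrArg (fun M => D.τ * M) h1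
  simp only [Matrix.mul_sub, ← Matrix.mul_assoc, τ_Pi] at h2
  rw [τ_kap] at h2
  rw [Matrix.sub_mul, Matrix.one_mul]
  unfold W nu
  rw [h2]
  congr 1
  conv_rhs => rw [← D.Nh_kap_τ]
  simp only [Matrix.mul_assoc]

theorem nu_pow (k : ℕ) : D.nu ^ (k + 1) = D.τ * D.Nh ^ (k + 1) * kap R G ι := by
  induction k with
  | zero => rw [zero_add, pow_one, pow_one]; rfl
  | succ k ih =>
    rw [pow_succ, ih]
    unfold nu
    rw [pow_succ D.Nh (k + 1)]
    have h : kap R G ι * (D.τ * D.Nh * kap R G ι) = (kap R G ι * D.τ) * (D.Nh * kap R G ι) := by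
      simp only [Matrix.mul_assoc]
    rw [Matrix.mul_assoc (D.τ * D.Nh ^ (k + 1)), h, ← Matrix.mul_assoc]
    have h2 : D.τ * D.Nh ^ (k + 1) * (kap R G ι * D.τ) = D.τ * D.Nh ^ (k + 1) := by
      have hN : D.Nh * (kap R G ι * D.τ) = D.Nh := by rw [← Matrix.mul_assoc, Nh_kap_τ]
      rw [pow_succ]
      simp only [Matrix.mul_assoc]
      rw [hN]
    rw [h2]
    simp only [Matrix.mul_assoc]

theorem isNilpotent_nu : IsNilpotent D.nu := by
  obtain ⟨k, hk⟩ := D.isNilpotent_Nh
  refine ⟨k + 1, ?_⟩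
  rw [nu_pow, pow_succ, hk, Matrix.zero_mul, Matrix.mul_zero, Matrix.zero_mul]

theorem kk_nu : kk (-D.nu) = kk (-D.Nh) := by
  have h : -D.nu = D.τ * (-(D.Nh * kap R G ι)) := by
    unfold nu
    rw [Matrix.mul_neg, Matrix.mul_assoc]
  rw [h, kk_comm, Matrix.neg_mul, Nh_kap_τ]

theorem τ_OO : D.τ * D.OO = D.p * D.s - (1 - D.p) * D.t := by
  unfold τ OO
  rw [fromCols_mul_fromRows, Matrix.neg_mul, ← sub_eq_add_neg]

/-- **The class of the vertex part.** -/
theorem exists_unit : ∃ U : (Matrix (ι ⊕ ν) (ι ⊕ ν) (MonoidAlgebra R G))ˣ,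
    (U : Matrix (ι ⊕ ν) (ι ⊕ ν) (MonoidAlgebra R G)) =
      fromRows (D.p * D.s - (1 - D.p) * D.t) D.B * fromCols D.ρ D.σ ∧
    k1 U = - kk (-D.Nh) := by
  obtain ⟨Z, hZ⟩ : IsUnit (1 - D.nu) := D.isNilpotent_nu.isUnit_one_sub
  have hW : ((Z⁻¹ : (Matrix ι ι (MonoidAlgebra R G))ˣ) : Matrix ι ι (MonoidAlgebra R G)) = D.W := by
    have h := D.one_sub_nu_W
    rw [← hZ] at h
    exact Units.inv_eq_of_mul_eq_one_right h
  refine ⟨uU (D.τ * D.OO * D.σ) * bl Z⁻¹ (1 : (Matrix ν ν (MonoidAlgebra R G))ˣ), ?_, ?_⟩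
  · rw [Units.val_mul, coe_uU, coe_bl, fromBlocks_multiply, ← τ_OO, fromRows_mul_fromCols, D.e4,
      D.e5, hW]
    simp only [Matrix.one_mul, Matrix.mul_zero, add_zero, Units.val_one, Matrix.mul_one, zero_add,
      Matrix.zero_mul]
    rfl
  · rw [k1_mul, k1_uU, zero_add, k1_bl_one, k1_inv, ← kk_nu]
    congr 1
    symm
    apply kk_eq
    rw [hZ, sub_eq_add_neg]

end CData

end Pool.Agent.Lib.MP_c052b4_al
end
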