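import Pool.Agent.Lib.MP_c052b4_al.Mg.G070
import Pool.Agent.Lib.MP_c052b4_al.Mg.G069
import Pool.Agent.Lib.MP_c052b4_al.Mg.G074
import Pool.Agent.Lib.MP_c052b4_al.Mg.G075
import Pool.Agent.Lib.MP_c052b4_al.Mg.G076

section

/-!
# The graded property from the property of the stabilizers
-/

set_option autoImplicit false
set_option linter.unusedSectionVars false

namespace Pool.Agent.Lib.MP_c052b4_al

open Matrix

universe u v w w'

/-- Every finite subset of the kernel of a matrix is in the image of a resolving submodule of a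
finite complex of finitely generated free modules. -/
def DDP (C : Type u) [Ring C] : Prop :=
  ∀ (m n : ℕ) (M : Matrix (Fin m) (Fin n) C) (Φ : Set (Fin m → C)), Φ.Finite →
    (∀ x ∈ Φ, x ᵥ* M = 0) → ∃ (V : DM C) (ρ : Matrix V.t (Fin m) C)
      (L : Submodule C (V.t → C)), ρ * M = 0 ∧ Rz V ρ L ∧ ∀ x ∈ Φ, ∃ y ∈ L, y ᵥ* ρ = x

section Fin

variable {C : Type u} [Ring C]

theorem vecMul_submatrix_id {s t m : Type*} [Fintype t] (ρ : Matrix t m C) (e : s → m)
    (x : t → C) : x ᵥ* ρ.submatrix id e = (x ᵥ* ρ) ∘ e := rfl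

theorem DDP.fin (h : DDP C) {s : Type} [Fintype s] {κ : Type} [Finite κ] (M : Matrix s κ C)
    (Φ : Set (s → C)) (hΦ : Φ.Finite) (hM : ∀ x ∈ Φ, x ᵥ* M = 0) :
    ∃ (V : DM C) (ρ : Matrix V.t s C) (L : Submodule C (V.t → C)), ρ * M = 0 ∧ Rz V ρ L ∧
      ∀ x ∈ Φ, ∃ y ∈ L, y ᵥ* ρ = x := by
  cases nonempty_fintype κ
  let e := Fintype.equivFin s
  let e' := Fintype.equivFin κ
  obtain ⟨V, ρ, L, h1, h2, h3⟩ := h _ _ (M.submatrix e.symm e'.symm) ((fun x => x ∘ e.symm) '' Φ)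
    (hΦ.image _) (by
      rintro _ ⟨x, hx, rfl⟩
      rw [Matrix.submatrix_vecMul_equiv, Equiv.symm_symm]
      have : (x ∘ e.symm) ∘ e = x := by
        funext i
        simp
      rw [this, hM x hx]
      rfl)
  have hinj : ∀ z : Fin (Fintype.card s) → C, z ∘ e = 0 → z = 0 := by
    intro z hz
    funext i
    have := congrFun hz (e.symm i)
    simpa using this
  refine ⟨V, ρ.submatrix id e, L, ?_, ⟨?_, ?_, h2.gr, h2.st, ?_⟩, ?_⟩
  · have h4 : (ρ.submatrix id e * M).submatrix id e'.symm = 0 := by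
      rw [← h1]
      ext i j
      change ∑ k, ρ i (e k) * M k (e'.symm j) = ∑ k, ρ i k * M (e.symm k) (e'.symm j)
      rw [← Equiv.sum_comp e]
      simp
    ext i j
    have := congrFun (congrFun h4 i) (e' j)
    simpa using this
  · intro i hi
    have := h2.p0 i hi
    change ρ i ∘ e = 0
    rw [this]
    rfl
  · have := h2.Dp
    funext i
    change (V.D i ᵥ* ρ.submatrix id e) = 0
    rw [vecMul_submatrix_id]
    have h4 : V.D i ᵥ* ρ = 0 := congrFun this i
    rw [h4]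
    rfl
  · intro x hx hxD hxρ
    rw [vecMul_submatrix_id] at hxρ
    exact h2.ex x hx hxD (hinj _ hxρ)
  · intro x hx
    obtain ⟨y, hy, hyx⟩ := h3 _ ⟨x, hx, rfl⟩
    refine ⟨y, hy, ?_⟩
    rw [vecMul_submatrix_id, hyx]
    funext i
    simp

/-- from iterated covers -/
theorem ddp_of_rq (h : ∀ (m n : ℕ) (M : Matrix (Fin m) (Fin n) C) (Φ : Set (Fin m → C)),
    Φ.Finite → (∀ x ∈ Φ, x ᵥ* M = 0) → ∃ (k : ℕ) (L : Submodule C (Fin m → C)),
      Φ ⊆ L ∧ RQ C k (Fin m → C) (rker M) L) : DDP C := by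
  intro m n M Φ hΦ hM
  obtain ⟨k, L, h1, h2⟩ := h m n M Φ hΦ hM
  obtain ⟨V, ρ, L', h3, h4, h5⟩ := h2.exists_dm
  refine ⟨V, ρ, L', ?_, h4, fun x hx => (h5 x).1 (h1 hx)⟩
  funext i
  have := h3 (Pi.single i 1)
  rw [Matrix.single_one_vecMul] at this
  exact this

end Fin

section Graded

variable {R : Type u} [Ring R] {G : Type v} [Group G] {X : Type w} [MulAction G X]

theorem vecMul_blockDiagonal' {α : Type*} [Ring α] {o : Type*} [Fintype o] [DecidableEq o]
    {m' n' : o → Type*} [∀ i, Fintype (m' i)] (M : ∀ i, Matrix (m' i) (n' i) α)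
    (x : (Σ i, m' i) → α) (O : o) (j : n' O) :
    (x ᵥ* Matrix.blockDiagonal' M) ⟨O, j⟩ = ((fun i => x ⟨O, i⟩) ᵥ* M O) j := by
  simp only [Matrix.vecMul, dotProduct]
  rw [Fintype.sum_sigma, Finset.sum_eq_single O]
  · refine Finset.sum_congr rfl fun i _ => ?_
    rw [Matrix.blockDiagonal'_apply_eq]
  · intro O' _ hO'
    refine Finset.sum_eq_zero fun i _ => ?_
    rw [Matrix.blockDiagonal'_apply_ne _ _ _ hO', mul_zero]
  · intro h
    exact absurd (Finset.mem_univ _) h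

variable {s : Type} [Fintype s] [DecidableEq s] {l : s → X}

/-- the induced complex -/
noncomputable abbrev gDM (l : s → X)
    (V : ∀ O : s, DM (MonoidAlgebra R (MulAction.stabilizer G (l O)))) :
    DM (MonoidAlgebra R G) where
  t := Σ O, (V O).t
  deg := fun i => (V i.1).deg i.2
  D := Matrix.blockDiagonal' fun O => ((V O).D).map (inc R (sj G l O))
  hD := by
    rintro ⟨O, i⟩ ⟨O', j⟩ h
    by_cases hO : O = O'
    · subst hO
      rw [Matrix.blockDiagonal'_apply_eq, Matrix.map_apply] at h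
      exact (V O).hD i j fun h0 => h (by rw [h0, map_zero])
    · exact absurd (Matrix.blockDiagonal'_apply_ne _ _ _ hO) h
  sq := by
    rw [← Matrix.blockDiagonal'_mul]
    have : (fun O => ((V O).D).map (inc R (sj G l O)) * ((V O).D).map (inc R (sj G l O))) =
        0 := by
      funext O
      rw [← Matrix.map_mul, (V O).sq]
      exact Matrix.map_zero _ (map_zero _)
    rw [this, Matrix.blockDiagonal'_zero]

theorem gDM_vecMul (V : ∀ O : s, DM (MonoidAlgebra R (MulAction.stabilizer G (l O))))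
    (x : (Σ O, (V O).t) → MonoidAlgebra R G) (O : s) (j : (V O).t) :
    (x ᵥ* (gDM l V).D) ⟨O, j⟩ =
      ((fun i => x ⟨O, i⟩) ᵥ* ((V O).D).map (inc R (sj G l O))) j :=
  vecMul_blockDiagonal' (fun O => ((V O).D).map (inc R (sj G l O))) x O j

section Data

variable (D : NrmD G l) (V : ∀ O : s, DM (MonoidAlgebra R (MulAction.stabilizer G (l O))))
  (ρ : ∀ O, Matrix (V O).t s (MonoidAlgebra R (MulAction.stabilizer G (l O))))
  (L : ∀ O, Submodule (MonoidAlgebra R (MulAction.stabilizer G (l O)))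
    ((V O).t → MonoidAlgebra R (MulAction.stabilizer G (l O))))

/-- the induced augmentation -/
noncomputable def gρ : Matrix (Σ O, (V O).t) s (MonoidAlgebra R G) := fun p =>
  D.un R p.1 (vm (inc R (sj G l p.1)) (ρ p.1 p.2))

/-- the component -/
noncomputable def gcO (O : s) : ((Σ O, (V O).t) → MonoidAlgebra R G) →ₗ[MonoidAlgebra R G]
      ((V O).t → MonoidAlgebra R G) :=
  LinearMap.funLeft (MonoidAlgebra R G) (MonoidAlgebra R G) (fun i => (⟨O, i⟩ : Σ O, (V O).t))

/-- the induced resolving submodule -/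
noncomputable def gL : Submodule (MonoidAlgebra R G) ((Σ O, (V O).t) → MonoidAlgebra R G) :=
  ⨅ O, (ind (inc R (sj G l O)) (L O)).comap (gcO V O)

theorem mem_gL {x : (Σ O, (V O).t) → MonoidAlgebra R G} :
    x ∈ gL V L ↔ ∀ O, gcO V O x ∈ ind (inc R (sj G l O)) (L O) := by
  unfold gL
  rw [Submodule.mem_iInf]
  rfl

theorem gcO_vecMul (x : (Σ O, (V O).t) → MonoidAlgebra R G) (O : s) :
    gcO V O (x ᵥ* (gDM l V).D) = gcO V O x ᵥ* ((V O).D).map (inc R (sj G l O)) :=
  funext fun j => gDM_vecMul V x O j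

theorem vecMul_gρ (x : (Σ O, (V O).t) → MonoidAlgebra R G) : x ᵥ* gρ D V ρ =
      ∑ O, D.un R O (gcO V O x ᵥ* (ρ O).map (inc R (sj G l O))) := by
  have h1 : x ᵥ* gρ D V ρ = ∑ p, x p • gρ D V ρ p := by
    funext j
    simp [Matrix.vecMul, dotProduct, Finset.sum_apply]
  rw [h1, Fintype.sum_sigma]
  refine Finset.sum_congr rfl fun O _ => ?_
  have h2 : gcO V O x ᵥ* (ρ O).map (inc R (sj G l O)) =
      ∑ i, x ⟨O, i⟩ • vm (inc R (sj G l O)) (ρ O i) := by
    funext j
    simp [Matrix.vecMul, dotProduct, Finset.sum_apply, vm, gcO, LinearMap.funLeft_apply]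
  rw [h2, map_sum]
  refine Finset.sum_congr rfl fun i _ => ?_
  rw [map_smul]
  rfl

variable {D V ρ L}

theorem sh_vecMul_gρ (hρ : ∀ O i, ∀ j, D.r j ≠ O → ρ O i j = 0)
    (x : (Σ O, (V O).t) → MonoidAlgebra R G) (O : s) :
    D.sh R O (x ᵥ* gρ D V ρ) = gcO V O x ᵥ* (ρ O).map (inc R (sj G l O)) := by
  rw [vecMul_gρ, map_sum, Finset.sum_eq_single O]
  · refine D.sh_un_self _ fun i hi => ?_
    simp only [Matrix.vecMul, dotProduct]
    refine Finset.sum_eq_zero fun j _ => ?_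
    rw [Matrix.map_apply, hρ O j i hi, map_zero, mul_zero]
  · intro O' _ hO'
    exact D.sh_un hO'.symm _
  · intro h
    exact absurd (Finset.mem_univ _) h

theorem ind_lift {O : s} {k : Type} [Finite k]
    (f : Matrix (V O).t k (MonoidAlgebra R (MulAction.stabilizer G (l O))))
    (z : k → MonoidAlgebra R G)
    (h : ∀ q, ∃ y ∈ L O, y ᵥ* f = (rfreeG (R := R) (sj G l O) (sj_injective l O)).rv q z) :
    ∃ y ∈ ind (inc R (sj G l O)) (L O), y ᵥ* f.map (inc R (sj G l O)) = z := by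
  choose y hy hyx using h
  obtain ⟨T, hT⟩ := (rfreeG (R := R) (sj G l O) (sj_injective l O)).dec_vec z
  refine ⟨∑ q ∈ T, (rfreeG (R := R) (sj G l O) (sj_injective l O)).u q •
    vm (inc R (sj G l O)) (y q), ?_, ?_⟩
  · exact Submodule.sum_mem _ fun q _ => Submodule.smul_mem _ _ (vm_mem_ind (hy q))
  · rw [Matrix.sum_vecMul]
    conv_rhs => rw [hT]
    refine Finset.sum_congr rfl fun q _ => ?_
    rw [Matrix.smul_vecMul, ← vm_vecMul, hyx]

theorem g_rz (hρ : ∀ O i, ∀ j, D.r j ≠ O → ρ O i j = 0) (hL : ∀ O, Rz (V O) (ρ O) (L O)) :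
    Rz (gDM l V) (gρ D V ρ) (gL V L) := by
  refine ⟨?_, ?_, ?_, ?_, ?_⟩
  · rintro ⟨O, i⟩ hi
    change D.un R O (vm (inc R (sj G l O)) (ρ O i)) = 0
    rw [(hL O).p0 i hi, vm_zero, map_zero]
  · funext p
    change (gDM l V).D p ᵥ* gρ D V ρ = 0
    rw [vecMul_gρ]
    refine Finset.sum_eq_zero fun O _ => ?_
    have h2 : (gDM l V).D p = (Pi.single p 1 : (Σ O, (V O).t) → MonoidAlgebra R G) ᵥ*
      (gDM l V).D := by
      rw [Matrix.single_one_vecMul]
      rfl
    rw [h2, gcO_vecMul, Matrix.vecMul_vecMul, ← Matrix.map_mul, (hL O).Dp,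
      Matrix.map_zero _ (map_zero _), Matrix.vecMul_zero, map_zero]
  · intro x hx k
    rw [mem_gL] at hx ⊢
    intro O
    have h1 : gcO V O (prt (gDM l V).deg k x) = prt (V O).deg k (gcO V O x) := rfl
    rw [h1, (rfreeG (sj G l O) (sj_injective l O)).mem_ind_iff]
    intro q
    have h2 : (rfreeG (R := R) (sj G l O) (sj_injective l O)).rv q
        (prt (V O).deg k (gcO V O x)) =
        prt (V O).deg k ((rfreeG (sj G l O) (sj_injective l O)).rv q (gcO V O x)) := by
      funext i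
      unfold RFree.rv prt
      split_ifs
      · rfl
      · exact map_zero _
    rw [h2]
    exact (hL O).gr _ (((rfreeG (sj G l O) (sj_injective l O)).mem_ind_iff _ _).1 (hx O) q) k
  · intro x hx
    rw [mem_gL] at hx ⊢
    intro O
    rw [gcO_vecMul, (rfreeG (sj G l O) (sj_injective l O)).mem_ind_iff]
    intro q
    rw [(rfreeG (sj G l O) (sj_injective l O)).rv_vecMul]
    exact (hL O).st _ (((rfreeG (sj G l O) (sj_injective l O)).mem_ind_iff _ _).1 (hx O) q)
  · intro x hx hxD hxρ0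
    rw [mem_gL] at hx
    have h1 : ∀ O, ∃ y ∈ ind (inc R (sj G l O)) (L O),
        y ᵥ* ((V O).D).map (inc R (sj G l O)) = gcO V O x := by
      intro O
      have h2 : gcO V O x ᵥ* ((V O).D).map (inc R (sj G l O)) = 0 := by
        rw [← gcO_vecMul, hxD, map_zero]
      have h3 : gcO V O x ᵥ* (ρ O).map (inc R (sj G l O)) = 0 := by
        rw [← sh_vecMul_gρ hρ, hxρ0, map_zero]
      refine ind_lift _ _ fun q => ?_
      refine (hL O).ex _ (((rfreeG (sj G l O) (sj_injective l O)).mem_ind_iff _ _).1 (hx O) q)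
        ?_ ?_
      · rw [← (rfreeG (sj G l O) (sj_injective l O)).rv_vecMul, h2]
        funext i
        exact map_zero _
      · rw [← (rfreeG (sj G l O) (sj_injective l O)).rv_vecMul, h3]
        funext i
        exact map_zero _
    choose y hy hyx using h1
    refine ⟨fun p => y p.1 p.2, ?_, ?_⟩
    · rw [mem_gL]
      intro O
      exact hy O
    · funext p
      have h5 := congrFun (gcO_vecMul V (fun p => y p.1 p.2) p.1) p.2
      have h6 := congrFun (hyx p.1) p.2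
      exact h5.trans h6

theorem g_lift {x : s → MonoidAlgebra R G}
    (hLΦ : ∀ O i g, (D.sh R O x i).coeff g ≠ 0 →
          ∃ y ∈ L O, y ᵥ* ρ O = rscv (sj G l O) (sj_injective l O) g (D.sh R O x)) :
    ∃ y ∈ gL V L, y ᵥ* gρ D V ρ = x := by
  have h1 : ∀ O, ∃ y ∈ ind (inc R (sj G l O)) (L O),
      y ᵥ* (ρ O).map (inc R (sj G l O)) = D.sh R O x := by
    intro O
    have h2 : D.sh R O x ∈ ind (inc R (sj G l O))
        ((L O).map (Matrix.vecMulLinear (ρ O))) :=
      mem_indG_of_support _ (sj_injective l O) _ _ fun i g hig => hLΦ O i g hig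
    exact ind_lift _ _ (((rfreeG (sj G l O) (sj_injective l O)).mem_ind_iff _ _).1 h2)
  choose y hy hyx using h1
  refine ⟨fun p => y p.1 p.2, ?_, ?_⟩
  · rw [mem_gL]
    intro O
    exact hy O
  · rw [vecMul_gρ]
    conv_rhs => rw [← D.sum_un_sh x]
    refine Finset.sum_congr rfl fun O _ => ?_
    congr 1
    exact hyx O

end Data

/-- **The graded property.** -/
theorem gdp_of_ddp : GDP R G fun ξ : X => DDP (MonoidAlgebra R (MulAction.stabilizer G ξ)) := by
  intro s _ _ l hl κ _ M Φ hΦ hΦM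
  obtain ⟨D⟩ := exists_nrm (G := G) l
  have key : ∀ O : s, ∃ (V : DM (MonoidAlgebra R (MulAction.stabilizer G (l O))))
      (ρ : Matrix V.t s (MonoidAlgebra R (MulAction.stabilizer G (l O))))
      (L : Submodule (MonoidAlgebra R (MulAction.stabilizer G (l O))) (V.t → _)),
      (∀ i, ρ i ∈ D.kerH O M) ∧ Rz V ρ L ∧
        ∀ x ∈ Φ, ∀ i g, (D.sh R O x i).coeff g ≠ 0 →
          ∃ y ∈ L, y ᵥ* ρ = rscv (sj G l O) (sj_injective l O) g (D.sh R O x) := by
    intro O
    obtain ⟨n, M', hM'⟩ := D.exists_kerH O M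
    obtain ⟨V, ρ, L, h1, h2, h3⟩ := (hl O).fin M'
      (⋃ x ∈ Φ, {w | ∃ i g, (D.sh R O x i).coeff g ≠ 0 ∧
        w = rscv (sj G l O) (sj_injective l O) g (D.sh R O x)})
      (hΦ.biUnion fun x _ => finite_rscv _ _ _) (by
        intro w hw
        simp only [Set.mem_iUnion] at hw
        obtain ⟨x, hx, i, g, -, rfl⟩ := hw
        rw [← mem_rker, ← hM']
        have h4 := hΦM x hx
        rw [D.gker_eq_gi] at h4
        exact (mem_indG_iff _ _ _ _).1 (D.mem_gi.1 h4 O) g)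
    refine ⟨V, ρ, L, fun i => ?_, h2, fun x hx i g hig => h3 _ ?_⟩
    · rw [hM', mem_rker]
      exact congrFun h1 i
    · simp only [Set.mem_iUnion]
      exact ⟨x, hx, i, g, hig, rfl⟩
  choose V ρ L hρ hL hLΦ using key
  refine ⟨gDM l V, fun p => l p.1, gρ D V ρ, gL V L, fun p => hl p.1, ?_, ?_,
    g_rz (fun O i => (hρ O i).1) hL, fun x hx => g_lift fun O => hLΦ O x hx⟩
  · rw [hg_iff]
    rintro ⟨O, i⟩
    by_cases hO : D.r O = O
    · exact D.cp_un hO _ (hρ O i).1
    · have : gρ D V ρ ⟨O, i⟩ = 0 := D.un_eq_zero hO _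
      rw [this]
      exact cp_zero _ _
  · funext p
    exact (hρ p.1 p.2).2

end Graded

end Pool.Agent.Lib.MP_c052b4_al
end

section

/-!
# The property for groups with a two-dimensional resolution
-/

set_option autoImplicit false
set_option linter.unusedSectionVars false

namespace Pool.Agent.Lib.MP_c052b4_al

open Matrix

universe u v w w'

section Three

variable {C : Type u} [Ring C] {E0 E1 E2 F : Type u} [AddCommGroup E0] [Module C E0]
  [AddCommGroup E1] [Module C E1] [AddCommGroup E2] [Module C E2] [AddCommGroup F] [Module C F]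

/-- three steps -/
theorem rq_three (D2 : E2 →ₗ[C] E1) (D1 : E1 →ₗ[C] E0) (e : E0 →ₗ[C] F)
    {W0 : Submodule C E0} {W1 : Submodule C E1} {W2 : Submodule C E2}
    (p2 : Perf C W2) (p1 : Perf C W1) (p0 : Perf C W0) (m2 : ∀ x ∈ W2, D2 x ∈ W1)
    (m1 : ∀ x ∈ W1, D1 x ∈ W0) (K : Submodule C F) (mK : ∀ x ∈ W0, e x ∈ K)
    (B1 : Submodule C E1) (B0 : Submodule C E0) (c4 : ∀ x, D1 (D2 x) = 0)
    (c5 : ∀ x, e (D1 x) = 0) (hinj : ∀ x ∈ W2, D2 x = 0 → x = 0)
    (ex1 : ∀ y ∈ W1, y ∈ B1 → D1 y = 0 → ∃ x ∈ W2, D2 x = y)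
    (ex0 : ∀ z ∈ W0, z ∈ B0 → e z = 0 → ∃ y ∈ W1, y ∈ B1 ∧ D1 y = z) :
    ∃ k, RQ C k F K ((B0 ⊓ W0).map e) := by
  let ρ2 : W2 →ₗ[C] W1 := D2.restrict m2
  let ρ1 : W1 →ₗ[C] W0 := D1.restrict m1
  let ρ0 : W0 →ₗ[C] F := e.domRestrict W0
  let L2 : Submodule C W2 := B1.comap (D2.domRestrict W2)
  let L1 : Submodule C W1 := B1.comap W1.subtype ⊓ B0.comap (D1.domRestrict W1)
  let L0 : Submodule C W0 := B0.comap W0.subtype
  -- level two
  have a1 : LinearMap.range ρ2 ≤ LinearMap.ker ρ1 := by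
    rintro _ ⟨x, rfl⟩
    exact Subtype.ext (c4 (x : E2))
  have a2 : L2.map ρ2 = L1 ⊓ LinearMap.ker ρ1 := by
    ext y
    constructor
    · rintro ⟨x, hx, rfl⟩
      refine ⟨⟨hx, ?_⟩, ?_⟩
      · change D1 (D2 (x : E2)) ∈ B0
        rw [c4]
        exact Submodule.zero_mem _
      · exact Subtype.ext (c4 (x : E2))
    · rintro ⟨⟨hy1, -⟩, hy2⟩
      obtain ⟨x, hx, hxy⟩ := ex1 (y : E1) y.2 hy1 (congrArg Subtype.val hy2)
      refine ⟨⟨x, hx⟩, ?_, Subtype.ext hxy⟩
      change D2 x ∈ B1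
      rw [hxy]
      exact hy1
  have a3 : L2 ⊓ LinearMap.ker ρ2 = ⊥ := by
    rw [eq_bot_iff]
    rintro x ⟨-, hx⟩
    exact Subtype.ext (hinj (x : E2) x.2 (congrArg Subtype.val hx))
  obtain ⟨n1, hn1⟩ := RQ.step (n := 0) p2 ρ2 L2 a1 a2 a3
  -- level one
  have b1 : LinearMap.range ρ1 ≤ LinearMap.ker ρ0 := by
    rintro _ ⟨x, rfl⟩
    exact c5 (x : E1)
  have b2 : L1.map ρ1 = L0 ⊓ LinearMap.ker ρ0 := by
    ext z
    constructor
    · rintro ⟨y, hy, rfl⟩
      exact ⟨hy.2, c5 (y : E1)⟩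
    · rintro ⟨hz1, hz2⟩
      obtain ⟨y, hy1, hy2, hyz⟩ := ex0 (z : E0) z.2 hz1 hz2
      refine ⟨⟨y, hy1⟩, ⟨hy2, ?_⟩, Subtype.ext hyz⟩
      change D1 y ∈ B0
      rw [hyz]
      exact hz1
  obtain ⟨n0, hn0⟩ := RQ.step p1 ρ1 L1 b1 b2 hn1
  -- level zero
  have c1 : LinearMap.range ρ0 ≤ K := by
    rintro _ ⟨x, rfl⟩
    exact mK _ x.2
  have c2 : L0.map ρ0 = (B0 ⊓ W0).map e := by
    ext x
    constructor
    · rintro ⟨y, hy, rfl⟩
      exact ⟨y, ⟨hy, y.2⟩, rfl⟩
    · rintro ⟨y, ⟨hy1, hy2⟩, rfl⟩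
      exact ⟨⟨y, hy2⟩, hy1, rfl⟩
  exact RQ.step p0 ρ0 L0 c1 c2 hn0

end Three

section

variable {R : Type u} [Ring R] {H : Type v} [Group H] {U0 U1 U2 : Type v} [MulAction H U0]
  [MulAction H U1] [MulAction H U2]

/-- a two-dimensional resolution with a contraction -/
structure TwoC (H : Type v) [Group H] (U0 U1 U2 : Type v) [MulAction H U0]
    [MulAction H U1] [MulAction H U2] where
  d1 : U1 → (U0 →₀ ℤ)
  d2 : U2 → (U1 →₀ ℤ)
  e1 : ∀ (h : H) u, d1 (h • u) = (d1 u).mapDomain fun v => h • v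
  e2 : ∀ (h : H) u, d2 (h • u) = (d2 u).mapDomain fun v => h • v
  u0 : U0
  s0 : U0 → (U1 →₀ ℤ)
  s1 : U1 → (U2 →₀ ℤ)
  h1 : ∀ u, TL ℤ s1 (d2 u) = Finsupp.single u 1
  h2 : ∀ u, TL ℤ d2 (s1 u) + TL ℤ s0 (d1 u) = Finsupp.single u 1
  h3 : ∀ u, TL ℤ d1 (s0 u) + Finsupp.single u0 1 = Finsupp.single u 1
  h4 : ∀ u, TL ℤ d1 (d2 u) = 0
  h5 : ∀ u, ag ℤ (d1 u) = 0

namespace TwoC

variable (T : TwoC H U0 U1 U2) {m n : ℕ}

theorem c1 {A : Type*} [Ring A] {M : Type*} [AddCommGroup M] [Module A M] (f : U2 →₀ M) :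
    TL A T.s1 (TL A T.d2 f) = f := by
  rw [TL_comp]
  simp only [T.h1]
  exact TL_id f

theorem c2 {A : Type*} [Ring A] {M : Type*} [AddCommGroup M] [Module A M] (f : U1 →₀ M)
    (hf : TL A T.d1 f = 0) : TL A T.d2 (TL A T.s1 f) = f := by
  have h : TL A T.d2 (TL A T.s1 f) + TL A T.s0 (TL A T.d1 f) = f := by
    rw [TL_comp, TL_comp, ← TL_add]
    simp only [T.h2]
    exact TL_id f
  rw [hf, map_zero, add_zero] at h
  exact h

theorem c3 {A : Type*} [Ring A] {M : Type*} [AddCommGroup M] [Module A M] (f : U0 →₀ M)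
    (hf : ag A f = 0) : TL A T.d1 (TL A T.s0 f) = f := by
  have h : TL A T.d1 (TL A T.s0 f) + Finsupp.single T.u0 (ag A f) = f := by
    rw [← TL_const, TL_comp, ← TL_add]
    simp only [T.h3]
    exact TL_id f
  rw [hf, Finsupp.single_zero, add_zero] at h
  exact h

theorem c4 {A : Type*} [Ring A] {M : Type*} [AddCommGroup M] [Module A M] (f : U2 →₀ M) :
    TL A T.d1 (TL A T.d2 f) = 0 := by
  rw [TL_comp]
  simp only [T.h4]
  exact TL_zero f

theorem c5 {A : Type*} [Ring A] {M : Type*} [AddCommGroup M] [Module A M] (f : U1 →₀ M) :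
    ag A (TL A T.d1 f) = 0 := ag_TL _ T.h5 f

/-- the essential step -/
theorem exists_S1
    (r2 : ∀ u : U2, IsRegularRing (MonoidAlgebra R (MulAction.stabilizer H u)))
    (M : Matrix (Fin m) (Fin n) (MonoidAlgebra R H)) (S0 : Finset U0) :
    ∃ S1 : Finset U1, ∀ z ∈ EI U0 (rker M), z ∈ Finsupp.supported _ (MonoidAlgebra R H)
      (S0 : Set U0) → ag (MonoidAlgebra R H) z = 0 →
      ∃ y ∈ EI U1 (rker M), y ∈ Finsupp.supported _ (MonoidAlgebra R H) (S1 : Set U1) ∧
        TL (MonoidAlgebra R H) T.d1 y = z := by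
  classical
  obtain ⟨S1', hS1'⟩ := exists_supp_map (M := Fin m → MonoidAlgebra R H)
    (TL (MonoidAlgebra R H) T.s0) S0
  obtain ⟨κ, hκ⟩ := exists_supp_map (M := Fin m → MonoidAlgebra R H)
    ((TL (MonoidAlgebra R H) T.s1) ∘ₗ (mst M : (U1 →₀ (Fin m → MonoidAlgebra R H)) →ₗ[_] _)) S1'
  -- the finitely generated module of values in the image of `M`
  have hQ := (perf_EI (R := R) r2 (LinearMap.range (Matrix.vecMulLinear M)) κ).finite
  rw [Module.Finite.iff_fg] at hQ
  obtain ⟨t, ht⟩ := hQ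
  have hlift : ∀ q ∈ EI U2 (LinearMap.range (Matrix.vecMulLinear M)),
      ∃ x : U2 →₀ (Fin m → MonoidAlgebra R H), mst M x = q := by
    intro q hq
    choose c hc using hq
    have hc' : ∀ w, c w ᵥ* M = tw q w := hc
    let x' : U2 →₀ (Fin m → MonoidAlgebra R H) :=
      Finsupp.onFinset (tw q).support (fun w => if tw q w = 0 then 0 else c w) (by
        intro w hw
        rw [Finsupp.mem_support_iff]
        intro h
        exact hw (if_pos h))
    refine ⟨utw x', ?_⟩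
    apply tw_injective
    ext1 w
    rw [tw_mst, tw_utw]
    change (if tw q w = 0 then 0 else c w) ᵥ* M = _
    split_ifs with h
    · rw [h, Matrix.zero_vecMul]
    · exact hc' w
  have hlift' : ∀ q : U2 →₀ (Fin n → MonoidAlgebra R H),
      ∃ x : U2 →₀ (Fin m → MonoidAlgebra R H), q ∈ t → mst M x = q := by
    intro q
    by_cases hq : q ∈ t
    · have : q ∈ (EI U2 (LinearMap.range (Matrix.vecMulLinear M)) ⊓
          Finsupp.supported _ _ (κ : Set U2) :
          Submodule (MonoidAlgebra R H) (U2 →₀ (Fin n → MonoidAlgebra R H))) := by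
        rw [← ht]
        exact Submodule.subset_span hq
      obtain ⟨x, hx⟩ := hlift q this.1
      exact ⟨x, fun _ => hx⟩
    · exact ⟨0, fun h => absurd h hq⟩
  choose lf hlf using hlift'
  have hP : (Submodule.span (MonoidAlgebra R H) ((t.image lf :
      Finset (U2 →₀ (Fin m → MonoidAlgebra R H))) : Set (U2 →₀ (Fin m → MonoidAlgebra R H)))).FG :=
    ⟨t.image lf, rfl⟩
  obtain ⟨S2, hS2⟩ := exists_supp (A := MonoidAlgebra R H) _ hP
  have hQ2 : ∀ q ∈ (EI U2 (LinearMap.range (Matrix.vecMulLinear M)) ⊓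
          Finsupp.supported _ _ (κ : Set U2) :
          Submodule (MonoidAlgebra R H) (U2 →₀ (Fin n → MonoidAlgebra R H))),
      ∃ x ∈ Finsupp.supported _ (MonoidAlgebra R H) (S2 : Set U2), mst M x = q := by
    intro q hq
    rw [← ht] at hq
    induction hq using Submodule.span_induction with
    | mem q hq =>
      refine ⟨lf q, hS2 (Submodule.subset_span ?_), hlf q hq⟩
      rw [Finset.mem_coe, Finset.mem_image]
      exact ⟨q, hq, rfl⟩
    | zero => exact ⟨0, Submodule.zero_mem _, map_zero _⟩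
    | add q q' _ _ h h' =>
      obtain ⟨x, hx, hxq⟩ := h
      obtain ⟨x', hx', hxq'⟩ := h'
      exact ⟨x + x', Submodule.add_mem _ hx hx', by rw [map_add, hxq, hxq']⟩
    | smul a q _ h =>
      obtain ⟨x, hx, hxq⟩ := h
      exact ⟨a • x, Submodule.smul_mem _ a hx, by rw [map_smul, hxq]⟩
  obtain ⟨S1'', hS1''⟩ := exists_supp_map (M := Fin m → MonoidAlgebra R H)
    (TL (MonoidAlgebra R H) T.d2) S2
  refine ⟨S1' ∪ S1'', fun z hz hzS hz0 => ?_⟩
  set y' := TL (MonoidAlgebra R H) T.s0 z with hy'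
  have hy'z : TL (MonoidAlgebra R H) T.d1 y' = z := T.c3 z hz0
  set v := TL (MonoidAlgebra R H) T.s1 (mst M y') with hv
  have hMy : TL (MonoidAlgebra R H) T.d1 (mst M y') = 0 := by
    rw [← mst_TL _ T.e1, hy'z]
    exact (mst_eq_zero_iff M z).2 hz
  have hv1 : TL (MonoidAlgebra R H) T.d2 v = mst M y' := T.c2 _ hMy
  have hv2 : v ∈ EI U2 (LinearMap.range (Matrix.vecMulLinear M)) := by
    refine EI_of_retract T.d2 T.e2 T.s1 T.h1 ?_
    rw [hv1]
    intro w
    rw [tw_mst]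
    exact ⟨_, rfl⟩
  have hv3 : v ∈ Finsupp.supported _ (MonoidAlgebra R H) (κ : Set U2) :=
    hκ y' (hS1' z hzS)
  obtain ⟨u', hu', hu'v⟩ := hQ2 v ⟨hv2, hv3⟩
  refine ⟨y' - TL (MonoidAlgebra R H) T.d2 u', ?_, ?_, ?_⟩
  · rw [← mst_eq_zero_iff, map_sub, mst_TL _ T.e2, hu'v, hv1, sub_self]
  · refine Submodule.sub_mem _ ?_ ?_
    · exact Finsupp.supported_mono (by
        rw [Finset.coe_union]
        exact Set.subset_union_left) (hS1' z hzS)
    · exact Finsupp.supported_mono (by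
        rw [Finset.coe_union]
        exact Set.subset_union_right) (hS1'' u' hu')
  · rw [map_sub, hy'z, T.c4, sub_zero]

include T in
/-- **The property for groups with a two-dimensional resolution.** -/
theorem ddp (r0 : ∀ u : U0, RegCoh (MonoidAlgebra R (MulAction.stabilizer H u)))
    (r1 : ∀ u : U1, RegCoh (MonoidAlgebra R (MulAction.stabilizer H u)))
    (r2 : ∀ u : U2, IsRegularRing (MonoidAlgebra R (MulAction.stabilizer H u))) :
    DDP (MonoidAlgebra R H) := by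
  classical
  refine ddp_of_rq fun m n M Φ hΦ hΦM => ?_
  -- the supports
  let zf : (Fin m → MonoidAlgebra R H) → (U0 →₀ (Fin m → MonoidAlgebra R H)) := fun φ =>
    utw (Finsupp.single T.u0 φ)
  have hzf1 : ∀ φ, ag (MonoidAlgebra R H) (zf φ) = φ := fun φ => by
    rw [← ag_tw, tw_utw, ag_single]
  have hzf2 : ∀ φ ∈ Φ, zf φ ∈ EI U0 (rker M) := by
    intro φ hφ w
    rw [tw_utw, Finsupp.single_apply]
    split_ifs
    · exact hΦM φ hφ
    · exact Submodule.zero_mem _
  obtain ⟨S0, hS0⟩ : ∃ S0 : Finset U0, ∀ φ ∈ Φ,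
      zf φ ∈ Finsupp.supported _ (MonoidAlgebra R H) (S0 : Set U0) := by
    refine ⟨hΦ.toFinset.biUnion fun φ => (zf φ).support, fun φ hφ => ?_⟩
    rw [Finsupp.mem_supported]
    intro u hu
    rw [Finset.mem_coe, Finset.mem_biUnion]
    exact ⟨φ, hΦ.mem_toFinset.2 hφ, hu⟩
  obtain ⟨S1, hS1⟩ := T.exists_S1 r2 M S0
  obtain ⟨S2, hS2⟩ := exists_supp_map (M := Fin m → MonoidAlgebra R H)
    (TL (MonoidAlgebra R H) T.s1) S1
  obtain ⟨S1', hS1'⟩ := exists_supp_map (M := Fin m → MonoidAlgebra R H)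
    (TL (MonoidAlgebra R H) T.d2) S2
  obtain ⟨S0', hS0'⟩ := exists_supp_map (M := Fin m → MonoidAlgebra R H)
    (TL (MonoidAlgebra R H) T.d1) (S1 ∪ S1')
  -- the modules
  let W0 : Submodule (MonoidAlgebra R H) (U0 →₀ (Fin m → MonoidAlgebra R H)) :=
    EI U0 (rker M) ⊓ Finsupp.supported _ _ ((S0 ∪ S0' : Finset U0) : Set U0)
  let W1 : Submodule (MonoidAlgebra R H) (U1 →₀ (Fin m → MonoidAlgebra R H)) :=
    EI U1 (rker M) ⊓ Finsupp.supported _ _ ((S1 ∪ S1' : Finset U1) : Set U1)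
  let W2 : Submodule (MonoidAlgebra R H) (U2 →₀ (Fin m → MonoidAlgebra R H)) :=
    EI U2 (rker M) ⊓ Finsupp.supported _ _ (S2 : Set U2)
  have p0 : Perf (MonoidAlgebra R H) W0 := perf_EI_rker r0 _ _
  have p1 : Perf (MonoidAlgebra R H) W1 := perf_EI_rker r1 _ _
  have p2 : Perf (MonoidAlgebra R H) W2 := perf_EI r2 _ _
  have m2 : ∀ x ∈ W2, TL (MonoidAlgebra R H) T.d2 x ∈ W1 := fun x hx =>
    ⟨EI_TL _ T.e2 hx.1, Finsupp.supported_mono (by
      rw [Finset.coe_union]
      exact Set.subset_union_right) (hS1' x hx.2)⟩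
  have m1 : ∀ x ∈ W1, TL (MonoidAlgebra R H) T.d1 x ∈ W0 := fun x hx =>
    ⟨EI_TL _ T.e1 hx.1, Finsupp.supported_mono (by
      rw [Finset.coe_union]
      exact Set.subset_union_right) (hS0' x hx.2)⟩
  obtain ⟨k, hk⟩ := rq_three (TL (MonoidAlgebra R H) T.d2) (TL (MonoidAlgebra R H) T.d1)
    (ag (MonoidAlgebra R H)) p2 p1 p0 m2 m1 (rker M) (fun x hx => EI_ag hx.1)
    (Finsupp.supported _ _ (S1 : Set U1)) (Finsupp.supported _ _ (S0 : Set U0)) T.c4 T.c5
    (fun x _ hx => by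
      have h := T.c1 (A := MonoidAlgebra R H) x
      rw [hx, map_zero] at h
      exact h.symm)
    (fun y hy hyB hy0 => by
      have hx := T.c2 _ hy0
      refine ⟨_, ⟨EI_of_retract T.d2 T.e2 T.s1 T.h1 ?_, hS2 _ hyB⟩, hx⟩
      rw [hx]
      exact hy.1)
    (fun z hz hzB hz0 => by
      obtain ⟨y, hy1, hy2, hyz⟩ := hS1 z hz.1 hzB hz0
      exact ⟨y, ⟨hy1, Finsupp.supported_mono (by
        rw [Finset.coe_union]
        exact Set.subset_union_left) hy2⟩, hy2, hyz⟩)
  refine ⟨k, _, fun φ hφ => ?_, hk⟩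
  exact ⟨zf φ, ⟨hS0 φ hφ, hzf2 φ hφ, Finsupp.supported_mono (by
    rw [Finset.coe_union]
    exact Set.subset_union_left) (hS0 φ hφ)⟩, hzf1 φ⟩

end TwoC

end

end Pool.Agent.Lib.MP_c052b4_al
end

section

/-!
# Two-dimensional complexes, with weaker conditions on the vertex stabilizers
-/

set_option autoImplicit false
set_option linter.unusedSectionVars false

namespace Pool.Agent.Lib.MP_c052b4_al

open Matrix

universe u v w w'

section Three

variable {C : Type u} [Ring C] {E0 E1 E2 F : Type u} [AddCommGroup E0] [Module C E0]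
  [AddCommGroup E1] [Module C E1] [AddCommGroup E2] [Module C E2] [AddCommGroup F] [Module C F]

/-- three steps, with a resolving submodule in degree zero -/
theorem rq_three' (D2 : E2 →ₗ[C] E1) (D1 : E1 →ₗ[C] E0) (e : E0 →ₗ[C] F)
    {W0 : Submodule C E0} {W1 : Submodule C E1} {W2 : Submodule C E2}
    (p2 : Perf C W2) (p1 : Perf C W1) (m2 : ∀ x ∈ W2, D2 x ∈ W1) {k0 : ℕ} {L0 : Submodule C E0}
    (hL0 : RQ C k0 E0 W0 L0) (m1 : ∀ x ∈ W1, D1 x ∈ L0) (K : Submodule C F)
    (mK : ∀ x ∈ W0, e x ∈ K)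
    (B1 : Submodule C E1) (B0 : Submodule C E0) (c4 : ∀ x, D1 (D2 x) = 0)
    (c5 : ∀ x, e (D1 x) = 0) (hinj : ∀ x ∈ W2, D2 x = 0 → x = 0)
    (ex1 : ∀ y ∈ W1, y ∈ B1 → D1 y = 0 → ∃ x ∈ W2, D2 x = y)
    (ex0 : ∀ z ∈ W0, z ∈ B0 → e z = 0 → ∃ y ∈ W1, y ∈ B1 ∧ D1 y = z) :
    ∃ k, RQ C k F K ((L0 ⊓ B0).map e) := by
  let ρ2 : W2 →ₗ[C] W1 := D2.restrict m2
  let ρ1 : W1 →ₗ[C] E0 := D1.domRestrict W1
  let L2 : Submodule C W2 := B1.comap (D2.domRestrict W2)
  let L1 : Submodule C W1 := B1.comap W1.subtype ⊓ B0.comap (D1.domRestrict W1)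
  have a1 : LinearMap.range ρ2 ≤ LinearMap.ker ρ1 := by
    rintro _ ⟨x, rfl⟩
    exact c4 (x : E2)
  have a2 : L2.map ρ2 = L1 ⊓ LinearMap.ker ρ1 := by
    ext y
    constructor
    · rintro ⟨x, hx, rfl⟩
      refine ⟨⟨hx, ?_⟩, ?_⟩
      · change D1 (D2 (x : E2)) ∈ B0
        rw [c4]
        exact Submodule.zero_mem _
      · exact c4 (x : E2)
    · rintro ⟨⟨hy1, -⟩, hy2⟩
      obtain ⟨x, hx, hxy⟩ := ex1 (y : E1) y.2 hy1 hy2
      refine ⟨⟨x, hx⟩, ?_, Subtype.ext hxy⟩
      change D2 x ∈ B1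
      rw [hxy]
      exact hy1
  have a3 : L2 ⊓ LinearMap.ker ρ2 = ⊥ := by
    rw [eq_bot_iff]
    rintro x ⟨-, hx⟩
    exact Subtype.ext (hinj (x : E2) x.2 (congrArg Subtype.val hx))
  obtain ⟨n1, hn1⟩ := RQ.step (n := 0) p2 ρ2 L2 a1 a2 a3
  have hle : ∀ z ∈ L0, z ∈ W0 := fun z hz => hL0.le hz
  have b1 : LinearMap.range ρ1 ≤ L0 ⊓ LinearMap.ker e := by
    rintro _ ⟨x, rfl⟩
    exact ⟨m1 _ x.2, c5 (x : E1)⟩
  have b2 : L1.map ρ1 = (L0 ⊓ B0) ⊓ LinearMap.ker e := by
    ext z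
    constructor
    · rintro ⟨y, hy, rfl⟩
      exact ⟨⟨m1 _ y.2, hy.2⟩, c5 (y : E1)⟩
    · rintro ⟨⟨hz1, hz2⟩, hz3⟩
      obtain ⟨y, hy1, hy2, hyz⟩ := ex0 z (hle z hz1) hz2 hz3
      refine ⟨⟨y, hy1⟩, ⟨hy2, ?_⟩, hyz⟩
      change D1 y ∈ B0
      rw [hyz]
      exact hz2
  obtain ⟨n0, hn0⟩ := RQ.step p1 ρ1 L1 b1 b2 hn1
  obtain ⟨n', hn'⟩ := RQ.quot e hL0 inf_le_left hn0
  refine ⟨n', hn'.mono ?_⟩
  rintro _ ⟨x, hx, rfl⟩
  exact mK x hx

end Three

section

variable {R : Type u} [Ring R] {H : Type v} [Group H] {U : Type v} [MulAction H U] {m n : ℕ}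

/-- the graded property, for functions -/
theorem exists_rq_EI (hddp : ∀ u : U, DDP (MonoidAlgebra R (MulAction.stabilizer H u)))
    (M : Matrix (Fin m) (Fin n) (MonoidAlgebra R H)) (S : Finset U)
    (Φ : Set (U →₀ (Fin m → MonoidAlgebra R H))) (hΦ : Φ.Finite)
    (hΦW : ∀ x ∈ Φ, x ∈ (EI U (rker M) ⊓ Finsupp.supported _ _ (S : Set U) :
      Submodule (MonoidAlgebra R H) (U →₀ (Fin m → MonoidAlgebra R H)))) :
    ∃ (k : ℕ) (L : Submodule (MonoidAlgebra R H) (U →₀ (Fin m → MonoidAlgebra R H))),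
      RQ (MonoidAlgebra R H) k (U →₀ (Fin m → MonoidAlgebra R H))
        (EI U (rker M) ⊓ Finsupp.supported _ _ (S : Set U)) L ∧ ∀ x ∈ Φ, x ∈ L := by
  classical
  let e : Fin S.card → U := fun a => (S.equivFin.symm a : U)
  have he : Function.Injective e := Subtype.val_injective.comp S.equivFin.symm.injective
  have hr : Set.range e = (S : Set U) := by
    ext u
    constructor
    · rintro ⟨a, rfl⟩
      exact (S.equivFin.symm a).2
    · intro hu
      refine ⟨S.equivFin ⟨u, hu⟩, ?_⟩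
      change ((S.equivFin.symm (S.equivFin ⟨u, hu⟩)) : U) = u
      rw [Equiv.symm_apply_apply]
  let l : Fin S.card × Fin m → U := fun p => e p.1
  have hW : (gker l (agm R H S.card m * M)).map (lam R H m e) =
      (EI U (rker M) ⊓ Finsupp.supported _ _ (S : Set U) :
        Submodule (MonoidAlgebra R H) (U →₀ (Fin m → MonoidAlgebra R H))) := by
    have h := map_lam he (rker M)
    rw [gpt_comap_rker, hr] at h
    exact h
  obtain ⟨V, lV, ρ, L, -, hρg, hρM, hL, hLΦ⟩ := gdp_of_ddp (R := R) (G := H) (X := U)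
    (Fin S.card × Fin m) l (fun i => hddp _) (Fin n) (agm R H S.card m * M)
    (lam R H m e ⁻¹' Φ) (hΦ.preimage (lam_injective he).injOn) (by
      intro x hx
      have h := hΦW _ hx
      rw [← hW] at h
      obtain ⟨y, hy, hyx⟩ := h
      rw [← lam_injective he hyx]
      exact hy)
  obtain ⟨k, hk⟩ := hL.rq (X := gker l (agm R H S.card m * M)) (by
    intro i
    rw [mem_gker]
    intro ξ
    by_cases h : ξ = lV i
    · subst h
      have h0 : cp l {lV i} (ρ i) = ρ i := hg_iff.1 hρg i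
      rw [h0]
      exact congrFun hρM i
    · have h0 : cp l {lV i} (ρ i) = ρ i := hg_iff.1 hρg i
      rw [cp_eq_zero_of_disjoint h0 (Set.disjoint_singleton.2 h), Matrix.zero_vecMul])
  have ht := hk.transport ((lam R H m e).domRestrict (gker l (agm R H S.card m * M)))
    (fun x y h => Subtype.ext (lam_injective he h))
    (X' := (EI U (rker M) ⊓ Finsupp.supported _ _ (S : Set U) :
        Submodule (MonoidAlgebra R H) (U →₀ (Fin m → MonoidAlgebra R H)))) (by
      rintro _ ⟨x, rfl⟩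
      rw [← hW]
      exact ⟨x, x.2, rfl⟩)
  refine ⟨k, _, ht, fun x hx => ?_⟩
  have h := hΦW _ hx
  rw [← hW] at h
  obtain ⟨y, hy, rfl⟩ := h
  obtain ⟨z, hz, hzy⟩ := hLΦ y hx
  exact ⟨⟨y, hy⟩, ⟨z, hz, hzy⟩, rfl⟩

end

section

variable {R : Type u} [Ring R] {H : Type v} [Group H] {U0 U1 U2 : Type v} [MulAction H U0]
  [MulAction H U1] [MulAction H U2]

namespace TwoC

variable (T : TwoC H U0 U1 U2) {m n : ℕ}

include T in
/-- **The property for groups acting on two-dimensional complexes.** -/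
theorem ddp' (r0 : ∀ u : U0, DDP (MonoidAlgebra R (MulAction.stabilizer H u)))
    (r1 : ∀ u : U1, RegCoh (MonoidAlgebra R (MulAction.stabilizer H u)))
    (r2 : ∀ u : U2, IsRegularRing (MonoidAlgebra R (MulAction.stabilizer H u))) :
    DDP (MonoidAlgebra R H) := by
  classical
  refine ddp_of_rq fun m n M Φ hΦ hΦM => ?_
  -- the supports
  let zf : (Fin m → MonoidAlgebra R H) → (U0 →₀ (Fin m → MonoidAlgebra R H)) := fun φ =>
    utw (Finsupp.single T.u0 φ)
  have hzf1 : ∀ φ, ag (MonoidAlgebra R H) (zf φ) = φ := fun φ => by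
    rw [← ag_tw, tw_utw, ag_single]
  have hzf2 : ∀ φ ∈ Φ, zf φ ∈ EI U0 (rker M) := by
    intro φ hφ w
    rw [tw_utw, Finsupp.single_apply]
    split_ifs
    · exact hΦM φ hφ
    · exact Submodule.zero_mem _
  obtain ⟨S0, hS0⟩ : ∃ S0 : Finset U0, ∀ φ ∈ Φ,
      zf φ ∈ Finsupp.supported _ (MonoidAlgebra R H) (S0 : Set U0) := by
    refine ⟨hΦ.toFinset.biUnion fun φ => (zf φ).support, fun φ hφ => ?_⟩
    rw [Finsupp.mem_supported]
    intro u hu
    rw [Finset.mem_coe, Finset.mem_biUnion]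
    exact ⟨φ, hΦ.mem_toFinset.2 hφ, hu⟩
  obtain ⟨S1, hS1⟩ := T.exists_S1 r2 M S0
  obtain ⟨S2, hS2⟩ := exists_supp_map (M := Fin m → MonoidAlgebra R H)
    (TL (MonoidAlgebra R H) T.s1) S1
  obtain ⟨S1', hS1'⟩ := exists_supp_map (M := Fin m → MonoidAlgebra R H)
    (TL (MonoidAlgebra R H) T.d2) S2
  obtain ⟨S0', hS0'⟩ := exists_supp_map (M := Fin m → MonoidAlgebra R H)
    (TL (MonoidAlgebra R H) T.d1) (S1 ∪ S1')
  -- the modules
  let W0 : Submodule (MonoidAlgebra R H) (U0 →₀ (Fin m → MonoidAlgebra R H)) :=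
    EI U0 (rker M) ⊓ Finsupp.supported _ _ ((S0 ∪ S0' : Finset U0) : Set U0)
  let W1 : Submodule (MonoidAlgebra R H) (U1 →₀ (Fin m → MonoidAlgebra R H)) :=
    EI U1 (rker M) ⊓ Finsupp.supported _ _ ((S1 ∪ S1' : Finset U1) : Set U1)
  let W2 : Submodule (MonoidAlgebra R H) (U2 →₀ (Fin m → MonoidAlgebra R H)) :=
    EI U2 (rker M) ⊓ Finsupp.supported _ _ (S2 : Set U2)
  have p1 : Perf (MonoidAlgebra R H) W1 := perf_EI_rker r1 _ _
  have p2 : Perf (MonoidAlgebra R H) W2 := perf_EI r2 _ _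
  have m2 : ∀ x ∈ W2, TL (MonoidAlgebra R H) T.d2 x ∈ W1 := fun x hx =>
    ⟨EI_TL _ T.e2 hx.1, Finsupp.supported_mono (by
      rw [Finset.coe_union]
      exact Set.subset_union_right) (hS1' x hx.2)⟩
  have m1 : ∀ x ∈ W1, TL (MonoidAlgebra R H) T.d1 x ∈ W0 := fun x hx =>
    ⟨EI_TL _ T.e1 hx.1, Finsupp.supported_mono (by
      rw [Finset.coe_union]
      exact Set.subset_union_right) (hS0' x hx.2)⟩
  -- the resolved submodule of `W0`
  have hfg : W1.FG := Module.Finite.iff_fg.1 p1.finite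
  obtain ⟨t, ht⟩ := hfg
  have htW : ∀ x ∈ t, x ∈ W1 := fun x hx => by
    rw [← ht]
    exact Submodule.subset_span hx
  obtain ⟨k0, L0, hL0, hL0Φ⟩ := exists_rq_EI r0 M (S0 ∪ S0')
    (zf '' Φ ∪ TL (MonoidAlgebra R H) T.d1 '' (t : Set (U1 →₀ (Fin m → MonoidAlgebra R H))))
    ((hΦ.image _).union (t.finite_toSet.image _)) (by
      rintro x (⟨φ, hφ, rfl⟩ | ⟨y, hy, rfl⟩)
      · exact ⟨hzf2 φ hφ, Finsupp.supported_mono (by
          rw [Finset.coe_union]
          exact Set.subset_union_left) (hS0 φ hφ)⟩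
      · exact m1 y (htW y hy))
  have hW1L : ∀ x ∈ W1, TL (MonoidAlgebra R H) T.d1 x ∈ L0 := by
    intro x hx
    rw [← ht] at hx
    induction hx using Submodule.span_induction with
    | mem x hx => exact hL0Φ _ (Or.inr ⟨x, hx, rfl⟩)
    | zero =>
      rw [map_zero]
      exact L0.zero_mem
    | add x y _ _ hx hy =>
      rw [map_add]
      exact L0.add_mem hx hy
    | smul a x _ hx =>
      rw [map_smul]
      exact L0.smul_mem _ hx
  obtain ⟨k, hk⟩ := rq_three' (TL (MonoidAlgebra R H) T.d2) (TL (MonoidAlgebra R H) T.d1)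
    (ag (MonoidAlgebra R H)) p2 p1 m2 hL0 hW1L (rker M) (fun x hx => EI_ag hx.1)
    (Finsupp.supported _ _ (S1 : Set U1)) (Finsupp.supported _ _ (S0 : Set U0)) T.c4 T.c5
    (fun x _ hx => by
      have h := T.c1 (A := MonoidAlgebra R H) x
      rw [hx, map_zero] at h
      exact h.symm)
    (fun y hy hyB hy0 => by
      have hx := T.c2 _ hy0
      refine ⟨_, ⟨EI_of_retract T.d2 T.e2 T.s1 T.h1 ?_, hS2 _ hyB⟩, hx⟩
      rw [hx]
      exact hy.1)
    (fun z hz hzB hz0 => by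
      obtain ⟨y, hy1, hy2, hyz⟩ := hS1 z hz.1 hzB hz0
      exact ⟨y, ⟨hy1, Finsupp.supported_mono (by
        rw [Finset.coe_union]
        exact Set.subset_union_left) hy2⟩, hy2, hyz⟩)
  refine ⟨k, _, fun φ hφ => ?_, hk⟩
  exact ⟨zf φ, ⟨hL0Φ _ (Or.inl ⟨φ, hφ, rfl⟩), hS0 φ hφ⟩, hzf1 φ⟩

end TwoC

end

end Pool.Agent.Lib.MP_c052b4_al
end

section

/-!
# Nilpotent matrices with trivial class
-/

set_option autoImplicit false
set_option linter.unusedSectionVars false

namespace Pool.Agent.Lib.MP_c052b4_al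

open Matrix MulAction

universe u v w w'

section Neg

variable {A : Type u} [Ring A]

/-- the class function `M ↦ [1 - M]` -/
noncomputable def kfNeg (A : Type u) [Ring A] : KF A (KOne A) :=
  KF.ks (RingHom.id A) (-1) fun x => by simp

theorem kfNeg_k {n : Type} [Fintype n] [DecidableEq n] (M : Matrix n n A) :
    (kfNeg A).k M = kk (-M) := by
  change kk ((-1 : A) • M.map (RingHom.id A)) = kk (-M)
  congr 1
  ext i j
  simp

end Neg

variable {R : Type u} [Ring R] {G : Type v} [Group G] {X : Type w} [MulAction G X]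

section Good

variable {D : Subgroup G → Prop}

/-- **Nilpotent matrices with good chains have trivial class.** -/
theorem nil_goodT (hD : ∀ H : Subgroup G, D H → DDP (MonoidAlgebra R H)) (k : ℕ) :
    ∀ (X : Type w) [MulAction G X] {ι : Type} [Fintype ι] [DecidableEq ι] (l : ι → X)
      (N : Matrix ι ι (MonoidAlgebra R G)) (_ : IsNilpotent N) (_ : Flt l N),
      (∀ i, GoodCh D l N k i 1 ⊤) → kk (-N) = 0 := by
  induction k with
  | zero =>
    intro X _ ι _ _ l N hN F h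
    rw [← kfNeg_k]
    refine nil_td (kfNeg _) (gdp_of_ddp (R := R) (G := G) (X := X)) (l := l) (fun i => ?_) hN F
    have h1 : D (⊤ ⊓ stabilizer G ((1 : G) • l i)) := h i
    rw [top_inf_eq, one_smul] at h1
    exact hD _ h1
  | succ k ih =>
    intro X _ ι _ _ l N hN F h
    rw [← Rec.kk_N' l N]
    refine ih (X × X) (Rec.l' l N) (Rec.N' l N) ?_ (Rec.flt l N F) fun t =>
      goodCh_recode l N k t.1 t.2 1 ⊤ (h t.1)
    refine isNilpotent_mul_swap _ _ ?_
    rw [Rec.fa_mul_fb]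
    exact hN

/-- **Theorem N.** Graded nilpotent matrices such that all infinite chains have an initial segment
with good stabilizer. -/
theorem nil_rayT (hmono : ∀ H H' : Subgroup G, H' ≤ H → D H → D H')
    (hD : ∀ H : Subgroup G, D H → DDP (MonoidAlgebra R H)) {ι : Type} [Fintype ι] [DecidableEq ι]
    (l : ι → X) (N : Matrix ι ι (MonoidAlgebra R G)) (hN' : IsNilpotent N) (F : Flt l N)
    (P : X → X → Prop)
    (hP : ∀ (g : G) x y, P (g • x) (g • y) ↔ P x y) (hN : Sp l l P N)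
    (hray : ∀ x : ℕ → X, (∀ n, P (x n) (x (n + 1))) → ∃ n, D (fixG G x n)) :
    kk (-N) = 0 := by
  by_contra hne
  have h1 : ∀ k, ∃ i, ¬ GoodCh D l N k i 1 ⊤ := by
    intro k
    by_contra h
    push Not at h
    exact hne (nil_goodT hD k X l N hN' F h)
  obtain ⟨x, hx, hx'⟩ := exists_ray hmono l N P hP hN h1
  obtain ⟨n, hn⟩ := hray x hx
  exact hx' n hn

end Good

section Ungraded

/-- the trivial action on a point -/
@[reducible] def trivAct (G : Type v) [Group G] : MulAction G PUnit.{1} where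
  smul _ _ := PUnit.unit
  one_smul _ := rfl
  mul_smul _ _ _ := rfl

/-- **Class functions vanish on nilpotent matrices.** -/
theorem nil_zero {B : Type w} [AddCommGroup B] (K : KF (MonoidAlgebra R G) B)
    (h : DDP (MonoidAlgebra R (⊤ : Subgroup G))) {ι : Type} [Fintype ι] [DecidableEq ι]
    (N : Matrix ι ι (MonoidAlgebra R G)) (hN : IsNilpotent N) : K.k N = 0 := by
  let _ : MulAction G PUnit.{1} := trivAct G
  have hs : stabilizer G (PUnit.unit : PUnit.{1}) = ⊤ := by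
    rw [eq_top_iff]
    intro g _
    rfl
  have hcp : ∀ (ξ : PUnit.{1}) (x : ι → MonoidAlgebra R G),
      cp (fun _ : ι => PUnit.unit) {ξ} x = x := by
    intro ξ x
    have : ({ξ} : Set PUnit.{1}) = Set.univ := by
      ext y
      simp
    rw [this, cp_univ]
  refine nil_td K (gdp_of_ddp (R := R) (G := G) (X := PUnit.{1})) (l := fun _ => PUnit.unit)
    (fun i => ?_) hN (fltPow _ N hN fun k ξ ξ' x _ hx => ?_)
  · rw [hs]
    exact h
  · rw [hcp, Matrix.vecMul_vecMul, ← pow_succ']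
    exact hx

end Ungraded

section Directed

/-- the property for a subgroup and vectors supported in it -/
theorem ddp_of_directed (S : Set (Subgroup G)) (hS : S.Nonempty)
    (hdir : DirectedOn (· ≤ ·) S)
    (hcov : ∀ g : G, ∃ H ∈ S, g ∈ H) (h : ∀ H ∈ S, DDP (MonoidAlgebra R H)) :
    DDP (MonoidAlgebra R G) := by
  classical
  intro m n M Φ hΦ hΦM
  obtain ⟨K, hK, hT⟩ := exists_mem_of_directed S hS hdir hcov
    (⋃ x ∈ Φ, ⋃ i, ((x i).coeff.support : Set G)) (by
      exact hΦ.biUnion fun x _ => Set.finite_iUnion fun i => Finset.finite_toSet _)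
  have hx : ∀ x ∈ Φ, ∀ i, ∀ g, (x i).coeff g ≠ 0 → g ∈ K := by
    intro x hx i g hg
    apply hT
    simp only [Set.mem_iUnion]
    exact ⟨x, hx, i, Finsupp.mem_support_iff.2 hg⟩
  have hst : stabilizer G ((1 : G) : G ⧸ K) = K := stabilizer_quotient K
  have hcp : ∀ x ∈ Φ, ∀ ξ : G ⧸ K, cp (fun _ : Fin m => ((1 : G) : G ⧸ K)) {ξ} x ᵥ* M = 0 := by
    intro x hxΦ ξ
    have h0 : cp (fun _ : Fin m => ((1 : G) : G ⧸ K)) {((1 : G) : G ⧸ K)} x = x := by
      funext i
      ext g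
      rw [NrmD.cp_apply]
      by_cases hg : (x i).coeff g = 0
      · rw [hg, ite_self]
      · rw [if_pos]
        have h1 : g ∈ stabilizer G ((1 : G) : G ⧸ K) := by
          rw [hst]
          exact hx x hxΦ i g hg
        exact h1
    by_cases hξ : ξ = ((1 : G) : G ⧸ K)
    · subst hξ
      rw [h0]
      exact hΦM x hxΦ
    · rw [cp_eq_zero_of_disjoint h0 (by
        rw [Set.disjoint_singleton]
        exact hξ), Matrix.zero_vecMul]
  obtain ⟨V, lV, ρ, L, -, -, h1, h2, h3⟩ := gdp_of_ddp (R := R) (G := G) (X := G ⧸ K) (Fin m)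
    (fun _ => ((1 : G) : G ⧸ K)) (fun i => by
      beta_reduce
      rw [hst]
      exact h K hK) (Fin n) M Φ hΦ fun x hx => mem_gker.2 (hcp x hx)
  exact ⟨V, ρ, L, h1, h2, h3⟩

end Directed

end Pool.Agent.Lib.MP_c052b4_al
end

section

/-!
# Trees as two-dimensional complexes without faces
-/

set_option autoImplicit false
set_option linter.unusedSectionVars false

namespace Pool.Agent.Lib.MP_c052b4_al

open Matrix

universe u v w w'

namespace OTree

section

variable {G : Type v} [Group G] {V E : Type v} [MulAction G V] [MulAction G E] (O : OTree G V E)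

/-- the boundary of an edge -/
noncomputable def bd (e : E) : V →₀ ℤ := Finsupp.single (O.t e) 1 - Finsupp.single (O.o e) 1

theorem bd_smul (g : G) (e : E) : O.bd (g • e) = (O.bd e).mapDomain fun v => g • v := by
  unfold bd
  have h : ∀ x y : V →₀ ℤ, (x - y).mapDomain (fun v => g • v) =
      x.mapDomain (fun v => g • v) - y.mapDomain (fun v => g • v) := fun x y =>
    map_sub (Finsupp.mapDomain.addMonoidHom (M := ℤ) fun v : V => g • v) x y
  rw [h, Finsupp.mapDomain_single, Finsupp.mapDomain_single, O.o_smul, O.t_smul]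

theorem TL_bd_apply (c : E →₀ ℤ) (v : V) :
    TL ℤ O.bd c v = ∑ e ∈ c.support, O.bd e v * c e := by
  have h : TL ℤ O.bd c = c.sum fun u x => sx (O.bd u) x := by
    unfold TL
    rw [Finsupp.lsum_apply]
    rfl
  rw [h, Finsupp.sum, Finsupp.finsetSum_apply]
  refine Finset.sum_congr rfl fun e _ => ?_
  rw [sx_apply, smul_eq_mul]

theorem bd_apply_ne {e : E} {v : V} (h : O.bd e v ≠ 0) : v = O.t e ∨ v = O.o e := by
  classical
  by_contra hn
  push Not at hn
  apply h
  unfold bd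
  rw [Finsupp.sub_apply, Finsupp.single_apply, Finsupp.single_apply, if_neg (Ne.symm hn.1),
    if_neg (Ne.symm hn.2), sub_zero]

theorem o_ne_t (e : E) : O.o e ≠ O.t e := (O.adj e).ne

theorem bd_t (e : E) : O.bd e (O.t e) = 1 := by
  classical
  unfold bd
  rw [Finsupp.sub_apply, Finsupp.single_apply, Finsupp.single_apply, if_pos rfl,
    if_neg (O.o_ne_t e), sub_zero]

theorem bd_o (e : E) : O.bd e (O.o e) = -1 := by
  classical
  unfold bd
  rw [Finsupp.sub_apply, Finsupp.single_apply, Finsupp.single_apply, if_pos rfl,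
    if_neg (O.o_ne_t e).symm, zero_sub]

/-- A tree has no cycles. -/
theorem eq_zero_of_TL_bd (c : E →₀ ℤ) (h : TL ℤ O.bd c = 0) : c = 0 := by
  classical
  by_contra hc
  obtain ⟨r⟩ : Nonempty V := O.tree.connected.nonempty
  have hne : c.support.Nonempty := Finsupp.support_nonempty_iff.2 hc
  obtain ⟨e, he, hmax⟩ := c.support.exists_max_image
    (fun e => max (O.T.dist r (O.o e)) (O.T.dist r (O.t e))) hne
  have hce : c e ≠ 0 := Finsupp.mem_support_iff.1 he
  -- the far end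
  have key : ∀ (v w : V), ((v = O.o e ∧ w = O.t e) ∨ (v = O.t e ∧ w = O.o e)) →
      O.T.dist r v = O.T.dist r w + 1 → False := by
    intro v w hvw hd
    have hvwadj : O.T.Adj v w := by
      rcases hvw with ⟨rfl, rfl⟩ | ⟨rfl, rfl⟩
      · exact O.adj e
      · exact (O.adj e).symm
    have hfar : max (O.T.dist r (O.o e)) (O.T.dist r (O.t e)) = O.T.dist r v := by
      rcases hvw with ⟨rfl, rfl⟩ | ⟨rfl, rfl⟩
      · exact max_eq_left (by omega)
      · exact max_eq_right (by omega)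
    have h1 := O.TL_bd_apply c v
    rw [h, Finset.sum_eq_single e] at h1
    · have h2 : O.bd e v = 1 ∨ O.bd e v = -1 := by
        rcases hvw with ⟨rfl, rfl⟩ | ⟨rfl, rfl⟩
        · exact Or.inr (O.bd_o e)
        · exact Or.inl (O.bd_t e)
      apply hce
      rcases h2 with h2 | h2
      · rw [h2, one_mul] at h1
        exact h1.symm
      · rw [h2, neg_one_mul] at h1
        have h3 : (0 : ℤ) = - c e := h1
        omega
    · intro f hf hfe
      by_contra hne0
      have hbf : O.bd f v ≠ 0 := left_ne_zero_of_mul hne0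
      have hff := hmax f hf
      simp only [hfar] at hff
      -- the other end of `f`
      obtain ⟨w', hw', hfw⟩ : ∃ w', O.T.Adj v w' ∧ ((v = O.o f ∧ w' = O.t f) ∨
          (v = O.t f ∧ w' = O.o f)) := by
        rcases O.bd_apply_ne hbf with h2 | h2
        · exact ⟨O.o f, by rw [h2]; exact (O.adj f).symm, Or.inr ⟨h2, rfl⟩⟩
        · exact ⟨O.t f, by rw [h2]; exact O.adj f, Or.inl ⟨h2, rfl⟩⟩
      have hw'd : O.T.dist r w' ≤ O.T.dist r v := by
        rcases hfw with ⟨-, rfl⟩ | ⟨-, rfl⟩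
        · exact (le_max_right _ _).trans hff
        · exact (le_max_left _ _).trans hff
      have hd' : O.T.dist r v = O.T.dist r w' + 1 := by
        rcases O.tree.dist_eq_dist_add_one_of_adj r hw' with h3 | h3 <;> omega
      have hww : w = w' := closer_unique O.tree r hvwadj hw' hd hd'
      subst hww
      rcases hvw with ⟨h3, h4⟩ | ⟨h3, h4⟩ <;> rcases hfw with ⟨h5, h6⟩ | ⟨h5, h6⟩
      · exact hfe (O.inj f e (h5.symm.trans h3) (h6.symm.trans h4))
      · exact O.anti e f (h3.symm.trans h5) (h4.symm.trans h6)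
      · exact O.anti e f (h4.symm.trans h6) (h3.symm.trans h5)
      · exact hfe (O.inj f e (h6.symm.trans h4) (h5.symm.trans h3))
    · intro h2
      exact absurd he h2
  rcases O.tree.dist_eq_dist_add_one_of_adj r (O.adj e) with h2 | h2
  · exact key _ _ (Or.inl ⟨rfl, rfl⟩) h2
  · exact key _ _ (Or.inr ⟨rfl, rfl⟩) h2

theorem exists_path (r : V) (n : ℕ) : ∀ v : V, O.T.dist r v = n →
    ∃ c : E →₀ ℤ, TL ℤ O.bd c = Finsupp.single v 1 - Finsupp.single r 1 := by
  induction n with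
  | zero =>
    intro v hv
    have : r = v := (O.tree.connected.dist_eq_zero_iff).1 hv
    refine ⟨0, ?_⟩
    rw [map_zero, this, sub_self]
  | succ n ih =>
    intro v hv
    have hvr : v ≠ r := by
      rintro rfl
      rw [SimpleGraph.dist_self] at hv
      omega
    obtain ⟨y, hy, hd⟩ := exists_closer O.tree r hvr
    obtain ⟨c, hc⟩ := ih y (by omega)
    rcases O.cover v y hy with ⟨e, h1, h2⟩ | ⟨e, h1, h2⟩
    · refine ⟨c - Finsupp.single e 1, ?_⟩
      rw [map_sub, hc, TL_single]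
      have : sx (O.bd e) (1 : ℤ) = O.bd e := by
        ext w
        rw [sx_apply, smul_eq_mul, mul_one]
      rw [this]
      unfold bd
      rw [h1, h2]
      abel
    · refine ⟨c + Finsupp.single e 1, ?_⟩
      rw [map_add, hc, TL_single]
      have : sx (O.bd e) (1 : ℤ) = O.bd e := by
        ext w
        rw [sx_apply, smul_eq_mul, mul_one]
      rw [this]
      unfold bd
      rw [h1, h2]
      abel

/-- the empty set with an action -/
@[reducible] def emptyAct (G : Type v) [Group G] : MulAction G PEmpty.{v + 1} where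
  smul _ u := u
  one_smul u := u.elim
  mul_smul _ _ u := u.elim

include O in
/-- A tree is a two-dimensional complex without faces. -/
theorem exists_twoC : Nonempty (@TwoC G _ V E PEmpty.{v + 1} _ _ (emptyAct G)) := by
  classical
  letI := emptyAct G
  obtain ⟨r⟩ : Nonempty V := O.tree.connected.nonempty
  choose s0 hs0 using fun v => O.exists_path r _ v rfl
  have hsx : ∀ {U : Type v} (d : U →₀ ℤ), sx d (1 : ℤ) = d := by
    intro U d
    ext w
    rw [sx_apply, smul_eq_mul, mul_one]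
  have hbd : ∀ e, TL ℤ s0 (O.bd e) = s0 (O.t e) - s0 (O.o e) := by
    intro e
    unfold bd
    rw [map_sub, TL_single, TL_single, hsx, hsx]
  refine ⟨{
    d1 := O.bd
    d2 := fun u => u.elim
    e1 := O.bd_smul
    e2 := fun _ u => u.elim
    u0 := r
    s0 := s0
    s1 := fun _ => 0
    h1 := fun u => u.elim
    h2 := fun e => ?_
    h3 := fun v => ?_
    h4 := fun u => u.elim
    h5 := fun e => ?_ }⟩
  · rw [map_zero, zero_add, hbd, ← sub_eq_zero]
    apply O.eq_zero_of_TL_bd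
    rw [map_sub, map_sub, hs0, hs0, TL_single, hsx]
    unfold bd
    abel
  · rw [hs0, sub_add_cancel]
  · unfold bd
    rw [map_sub, ag_single, ag_single, sub_self]

end

end OTree

end Pool.Agent.Lib.MP_c052b4_al
end
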