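import Pool.Agent.Lib.MP_c052b4_al.Mg.G077
import Pool.Agent.Lib.MP_c052b4_al.Mg.G076
import Pool.Agent.Lib.MP_c052b4_al.Mg.G075
import Pool.Agent.Lib.MP_c052b4_al.TR.PAll

section

/-!
# The class of the vertex part: final statement
-/

set_option autoImplicit false
set_option linter.unusedSectionVars false

namespace Pool.Agent.Lib.MP_c052b4_al

open Matrix Kern

universe u v w w'

section Split

variable {R : Type u} [Ring R] {G : Type v} [Group G] {E : Type w} [MulAction G E]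

/-- A homogeneous idempotent is stably equivalent to a constant one. -/
theorem exists_split (hE : ∀ e : E, KSurj R (MulAction.stabilizer G e)) {ι : Type} [Fintype ι]
    [DecidableEq ι] (l : ι → E) (p : Matrix ι ι (MonoidAlgebra R G))
    (hp : p * p = p) (hpl : Hg l l id p) :
      ∃ (μ₁ μ₂ : Type) (_ : Fintype μ₁) (_ : DecidableEq μ₁) (_ : Fintype μ₂)
        (_ : DecidableEq μ₂) (l₁ : μ₁ → E) (l₂ : μ₂ → E)
        (f : Matrix μ₂ μ₂ R) (x : Matrix (ι ⊕ μ₁) μ₂ (MonoidAlgebra R G))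
        (y : Matrix μ₂ (ι ⊕ μ₁) (MonoidAlgebra R G)), f * f = f ∧
        (∀ i j, f i j ≠ 0 → l₂ i = l₂ j) ∧ Hg (Sum.elim l l₁) l₂ id x ∧
        Hg l₂ (Sum.elim l l₁) id y ∧ x * y = fromBlocks p 0 0 1 ∧ y * x = f.map (cG R G) := by
  classical
  obtain ⟨ρ, γ, h1, h2⟩ := exists_reps G E
  set D : (Matrix ι ι (MonoidAlgebra R G))ˣ := dg R (γ ∘ l) with hD
  set p' := ((D⁻¹ : (Matrix ι ι (MonoidAlgebra R G))ˣ) : Matrix ι ι (MonoidAlgebra R G)) * p *
    (D : Matrix ι ι (MonoidAlgebra R G)) with hp'd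
  have hp' : p' * p' = p' := by
    have e1 : p' * p' = ((D⁻¹ : (Matrix ι ι (MonoidAlgebra R G))ˣ) :
        Matrix ι ι (MonoidAlgebra R G)) * (p * ((D : Matrix ι ι (MonoidAlgebra R G)) *
        ((D⁻¹ : (Matrix ι ι (MonoidAlgebra R G))ˣ) : Matrix ι ι (MonoidAlgebra R G))) * p) *
        (D : Matrix ι ι (MonoidAlgebra R G)) := by
      simp only [hp'd, Matrix.mul_assoc]
    rw [e1, Units.mul_inv, Matrix.mul_one, hp]
  obtain ⟨μ₁, μ₂, _, _, _, _, l₁, l₂, f, x, y, hf, hfl, hx, hy, hxy, hyx⟩ :=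
    exists_split_aux hE (Fintype.card ι) (ρ ∘ l)
      (fun i j g h => reps_eq h1 h2 h) p' hp' (hg_dg h1 hpl) le_rfl
  have hDg : Hg l (ρ ∘ l) id (D : Matrix ι ι (MonoidAlgebra R G)) := by
    intro i j g hg
    rw [coe_dg] at hg
    by_cases hij : i = j
    · subst hij
      rw [Matrix.diagonal_apply_eq, MonoidAlgebra.coeff_single, Finsupp.single_apply] at hg
      have h3 : γ (l i) = g := by
        by_contra h
        exact hg (if_neg h)
      rw [← h3]
      exact h1 _
    · rw [Matrix.diagonal_apply_ne _ hij] at hg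
      exact absurd rfl hg
  have hDg' : Hg (ρ ∘ l) l id (((D⁻¹ : (Matrix ι ι (MonoidAlgebra R G))ˣ) :
        Matrix ι ι (MonoidAlgebra R G))) := by
    intro i j g hg
    rw [coe_dg_inv] at hg
    by_cases hij : i = j
    · subst hij
      rw [Matrix.diagonal_apply_eq, MonoidAlgebra.coeff_single, Finsupp.single_apply] at hg
      have h3 : (γ (l i))⁻¹ = g := by
        by_contra h
        exact hg (if_neg h)
      rw [← h3]
      exact inv_smul_eq_iff.2 (h1 _).symm
    · rw [Matrix.diagonal_apply_ne _ hij] at hg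
      exact absurd rfl hg
  set DB : Matrix (ι ⊕ μ₁) (ι ⊕ μ₁) (MonoidAlgebra R G) :=
    fromBlocks (D : Matrix ι ι (MonoidAlgebra R G)) 0 0 1 with hDB
  set DB' : Matrix (ι ⊕ μ₁) (ι ⊕ μ₁) (MonoidAlgebra R G) :=
    fromBlocks ((D⁻¹ : (Matrix ι ι (MonoidAlgebra R G))ˣ) :
        Matrix ι ι (MonoidAlgebra R G)) 0 0 1 with hDB'
  have e2 : DB * fromBlocks p' 0 0 1 * DB' = fromBlocks p 0 0 1 := by
    rw [hDB, hDB', fromBlocks_multiply, fromBlocks_multiply]
    simp only [Matrix.zero_mul, Matrix.mul_zero, add_zero, zero_add, Matrix.one_mul]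
    congr 1
    have e3 : (D : Matrix ι ι (MonoidAlgebra R G)) * p' *
        ((D⁻¹ : (Matrix ι ι (MonoidAlgebra R G))ˣ) : Matrix ι ι (MonoidAlgebra R G)) =
        ((D : Matrix ι ι (MonoidAlgebra R G)) *
        ((D⁻¹ : (Matrix ι ι (MonoidAlgebra R G))ˣ) : Matrix ι ι (MonoidAlgebra R G))) * p *
        ((D : Matrix ι ι (MonoidAlgebra R G)) *
        ((D⁻¹ : (Matrix ι ι (MonoidAlgebra R G))ˣ) : Matrix ι ι (MonoidAlgebra R G))) := by
      simp only [hp'd, Matrix.mul_assoc]
    rw [e3, Units.mul_inv, Matrix.one_mul, Matrix.mul_one]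
  have e4 : DB' * DB = 1 := by
    rw [hDB, hDB', fromBlocks_multiply]
    simp only [Matrix.zero_mul, Matrix.mul_zero, add_zero, zero_add, Matrix.one_mul,
      Units.inv_mul, fromBlocks_one]
  refine ⟨μ₁, μ₂, inferInstance, inferInstance, inferInstance, inferInstance, l₁, l₂, f,
    DB * x, y * DB', hf, hfl, ?_, ?_, ?_, ?_⟩
  · exact (hg_fromBlocks hDg (hg_zero _ _ _) (hg_zero _ _ _) (hg_one l₁)).mul
      (f' := id) (fun _ _ => rfl) hx
  · exact hy.mul (f' := id) (fun _ _ => rfl)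
      (hg_fromBlocks hDg' (hg_zero _ _ _) (hg_zero _ _ _) (hg_one l₁))
  · rw [← e2, ← hxy]
    simp only [Matrix.mul_assoc]
  · have e5 : y * DB' * (DB * x) = y * (DB' * DB) * x := by
      simp only [Matrix.mul_assoc]
    rw [e5, e4, Matrix.mul_one, hyx]

end Split

theorem blk_mul {S : Type*} [Ring S] {a b a' b' a'' b'' : Type*} [Fintype a'] [Fintype b']
    (X : Matrix a a' S) (Y : Matrix b b' S) (X' : Matrix a' a'' S) (Y' : Matrix b' b'' S) :
    fromBlocks X 0 0 Y * fromBlocks X' 0 0 Y' = fromBlocks (X * X') 0 0 (Y * Y') := by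
  rw [fromBlocks_multiply]
  simp only [Matrix.zero_mul, Matrix.mul_zero, add_zero, zero_add]

/-- Conjugation of equivalent idempotents. -/
theorem exists_alpha {S : Type*} [Ring S] {a b : Type} [Fintype a] [Fintype b] [DecidableEq a]
    [DecidableEq b] {e : Matrix a a S} {F : Matrix b b S} (he : e * e = e) (hF : F * F = F)
    {x : Matrix a b S} {y : Matrix b a S} (hxy : x * y = e) (hyx : y * x = F) :
    fromBlocks (1 - e) (e * x * F) (F * y * e) (1 - F) *
      fromBlocks (1 - e) (e * x * F) (F * y * e) (1 - F) = 1 ∧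
    fromBlocks 0 0 0 F * fromBlocks (1 - e) (e * x * F) (F * y * e) (1 - F) =
      fromBlocks (1 - e) (e * x * F) (F * y * e) (1 - F) * fromBlocks e 0 0 0 := by
  have h1 : (1 - e) * (1 - e) = 1 - e := KZero.one_sub_idem he
  have h2 : (1 - F) * (1 - F) = 1 - F := KZero.one_sub_idem hF
  have h3 : e * x * F * (F * y * e) = e := by
    have e1 : e * x * F * (F * y * e) = e * (x * (F * F) * y) * e := by
      simp only [Matrix.mul_assoc]
    have e2 : x * F * y = e := by
      have e3 : x * F * y = (x * y) * (x * y) := by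
        rw [← hyx]
        simp only [Matrix.mul_assoc]
      rw [e3, hxy, he]
    rw [e1, hF, e2, he, he]
  have h4 : F * y * e * (e * x * F) = F := by
    have e1 : F * y * e * (e * x * F) = F * (y * (e * e) * x) * F := by
      simp only [Matrix.mul_assoc]
    have e2 : y * e * x = F := by
      have e3 : y * e * x = (y * x) * (y * x) := by
        rw [← hxy]
        simp only [Matrix.mul_assoc]
      rw [e3, hyx, hF]
    rw [e1, he, e2, hF, hF]
  have h5 : (1 - e) * e = 0 := by rw [Matrix.sub_mul, he, Matrix.one_mul, sub_self]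
  have h6 : F * (1 - F) = 0 := by rw [Matrix.mul_sub, hF, Matrix.mul_one, sub_self]
  have h7 : (1 - F) * F = 0 := by rw [Matrix.sub_mul, hF, Matrix.one_mul, sub_self]
  have h8 : e * (1 - e) = 0 := by rw [Matrix.mul_sub, he, Matrix.mul_one, sub_self]
  constructor
  · rw [fromBlocks_multiply, h1, h2, h3, h4, ← fromBlocks_one]
    congr 1
    · abel
    · rw [← Matrix.mul_assoc, ← Matrix.mul_assoc, h5, Matrix.zero_mul, Matrix.zero_mul,
        Matrix.mul_assoc _ F, h6, Matrix.mul_zero, add_zero]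
    · rw [Matrix.mul_assoc _ e, h8, Matrix.mul_zero, ← Matrix.mul_assoc, ← Matrix.mul_assoc, h7,
        Matrix.zero_mul, Matrix.zero_mul, add_zero]
    · abel
  · rw [fromBlocks_multiply, fromBlocks_multiply]
    simp only [Matrix.zero_mul, Matrix.mul_zero, add_zero, zero_add]
    congr 1
    · exact h5.symm
    · rw [← Matrix.mul_assoc, ← Matrix.mul_assoc, hF, Matrix.mul_assoc _ e, he]

section K2

variable {R : Type u} [Ring R] {G : Type v} [Group G] {E : Type w} [MulAction G E]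
  {V : Type w'} [MulAction G V]

/-- change of the summands -/
def sg4 (α β γ δ : Type) : ((α ⊕ β) ⊕ γ) ⊕ δ ≃ ((α ⊕ δ) ⊕ β) ⊕ γ where
  toFun
    | Sum.inl (Sum.inl (Sum.inl i)) => Sum.inl (Sum.inl (Sum.inl i))
    | Sum.inl (Sum.inl (Sum.inr i)) => Sum.inl (Sum.inr i)
    | Sum.inl (Sum.inr i) => Sum.inr i
    | Sum.inr i => Sum.inl (Sum.inl (Sum.inr i))
  invFun
    | Sum.inl (Sum.inl (Sum.inl i)) => Sum.inl (Sum.inl (Sum.inl i))
    | Sum.inl (Sum.inl (Sum.inr i)) => Sum.inr i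
    | Sum.inl (Sum.inr i) => Sum.inl (Sum.inl (Sum.inr i))
    | Sum.inr i => Sum.inl (Sum.inr i)
  left_inv := by rintro (((i | i) | i) | i) <;> rfl
  right_inv := by rintro (((i | i) | i) | i) <;> rfl

/-- change of the labels along an equivariant map -/
theorem Hg.comp_label {o : E → V} (ho : ∀ (g : G) e, o (g • e) = g • o e) {ι κ : Type*}
    {l : ι → E} {l' : κ → E} {M : Matrix ι κ (MonoidAlgebra R G)} (h : Hg l l' id M) :
    Hg (o ∘ l) (o ∘ l') id M := by
  intro i j g hg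
  have h1 := h i j g hg
  change g • o (l' j) = o (l i)
  rw [← ho, h1]
  rfl

/-- K2. The class of the vertex part. -/
theorem k1_vertex_mem {ι κ ν : Type} [Fintype ι] [Fintype κ] [Fintype ν] [DecidableEq ι]
    [DecidableEq κ] [DecidableEq ν] (lE : ι → E) (lV : κ → V) (o t : E → V)
    (ho : ∀ (g : G) e, o (g • e) = g • o e) (ht : ∀ (g : G) e, t (g • e) = g • t e) (r : V)
    (p : Matrix ι ι (MonoidAlgebra R G)) (hp : p * p = p) (hph : Hg lE lE id p)
    (A : Matrix ι κ (MonoidAlgebra R G)) (B : Matrix ν κ (MonoidAlgebra R G))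
    (h1 : Hg lE lV o (p * A)) (h2 : Hg lE lV t ((1 - p) * A))
    (h3 : Hg (fun _ : ν => r) lV id B)
    (C : Matrix κ (ι ⊕ ν) (MonoidAlgebra R G)) (hC : fromRows A B * C = 1)
    (hC' : C * fromRows A B = 1)
    (T : Matrix (ι ⊕ ν) κ R) (T' : Matrix κ (ι ⊕ ν) R) (hT : T * T' = 1) (hT' : T' * T = 1)
    (U : (Matrix (ι ⊕ ν) (ι ⊕ ν) (MonoidAlgebra R G))ˣ)
    (hU : (U : Matrix (ι ⊕ ν) (ι ⊕ ν) (MonoidAlgebra R G)) = fromRows A B * T'.map (cG R G))
    (hV : ∀ v : V, imA1 R (MulAction.stabilizer G v) = ⊤)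
    (hE : ∀ e : E, KSurj R (MulAction.stabilizer G e)) : k1 U ∈ imA1 R G := by
  classical
  obtain ⟨μ₁, μ₂, _, _, _, _, l₁, l₂, f, x, y, hf, hfl, hx, hy, hxy, hyx⟩ :=
    exists_split hE lE p hp hph
  set c := cG R G with hc
  set e := fromBlocks p 0 0 (1 : Matrix μ₁ μ₁ (MonoidAlgebra R G)) with he
  have hee : e * e = e := blocks_idem hp (Matrix.one_mul _)
  set F := f.map c with hFd
  have hF : F * F = F := by rw [hFd, ← Matrix.map_mul, hf]
  obtain ⟨ha1, ha2⟩ := exists_alpha hee hF hxy hyx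
  set al := fromBlocks (1 - e) (e * x * F) (F * y * e) (1 - F) with hal
  set lE' : (ι ⊕ μ₁) ⊕ μ₂ → E := Sum.elim (Sum.elim lE l₁) l₂ with hlE'
  have heH : Hg (Sum.elim lE l₁) (Sum.elim lE l₁) id e :=
    hg_fromBlocks hph (hg_zero _ _ _) (hg_zero _ _ _) (hg_one l₁)
  have hFH : Hg l₂ l₂ id F := hg_const fun i j h => (hfl i j h).symm
  have halH : Hg lE' lE' id al := by
    refine hg_fromBlocks ((hg_one _).sub heH) ?_ ?_ ((hg_one _).sub hFH)
    · exact (heH.mul (f' := id) (fun _ _ => rfl) hx).mul (f' := id) (fun _ _ => rfl) hFH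
    · exact (hFH.mul (f' := id) (fun _ _ => rfl) hy).mul (f' := id) (fun _ _ => rfl) heH
  let alU : (Matrix ((ι ⊕ μ₁) ⊕ μ₂) ((ι ⊕ μ₁) ⊕ μ₂) (MonoidAlgebra R G))ˣ := ⟨al, al, ha1, ha1⟩
  have hkal : k1 alU ∈ imA1 R G :=
    k1_hg_mem (o ∘ lE') alU (halH.comp_label ho) hV
  let σ : ((ι ⊕ μ₁) ⊕ μ₂) ⊕ ν ≃ ((ι ⊕ ν) ⊕ μ₁) ⊕ μ₂ := sg4 ι μ₁ μ₂ ν
  -- the enlarged matrix
  set Ap := fromBlocks (fromBlocks A 0 0 (1 : Matrix μ₁ μ₁ (MonoidAlgebra R G))) 0 0
    (1 : Matrix μ₂ μ₂ (MonoidAlgebra R G)) with hAp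
  set Bp : Matrix ν ((κ ⊕ μ₁) ⊕ μ₂) (MonoidAlgebra R G) := fromCols (fromCols B 0) 0 with hBp
  have hMp : fromRows Ap Bp = (fromBlocks (fromBlocks (fromRows A B) 0 0
      (1 : Matrix μ₁ μ₁ (MonoidAlgebra R G))) 0 0
      (1 : Matrix μ₂ μ₂ (MonoidAlgebra R G))).submatrix σ id := by
    refine Matrix.ext fun i j => ?_
    rcases i with ((i | i) | i) | i <;> rcases j with (j | j) | j <;> rfl
  set Cp := (fromBlocks (fromBlocks C 0 0 (1 : Matrix μ₁ μ₁ (MonoidAlgebra R G))) 0 0
      (1 : Matrix μ₂ μ₂ (MonoidAlgebra R G))).submatrix id σ with hCp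
  have hMC : fromRows Ap Bp * Cp = 1 := by
    rw [hMp, hCp, ← Matrix.submatrix_mul _ _ _ _ _ Function.bijective_id, fromBlocks_multiply,
      fromBlocks_multiply]
    simp only [Matrix.zero_mul, Matrix.mul_zero, add_zero, zero_add, Matrix.one_mul, hC,
      fromBlocks_one, Matrix.submatrix_one_equiv]
  have hCM : Cp * fromRows Ap Bp = 1 := by
    rw [hMp, hCp, Matrix.submatrix_mul_equiv, Matrix.submatrix_id_id, fromBlocks_multiply,
      fromBlocks_multiply]
    simp only [Matrix.zero_mul, Matrix.mul_zero, add_zero, zero_add, Matrix.one_mul, hC',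
      fromBlocks_one]
  set a1 := fromBlocks al 0 0 (1 : Matrix ν ν (MonoidAlgebra R G)) with ha1d
  have ha11 : a1 * a1 = 1 := by
    rw [ha1d, fromBlocks_multiply]
    simp only [Matrix.zero_mul, Matrix.mul_zero, add_zero, zero_add, Matrix.one_mul, ha1,
      fromBlocks_one]
  set q0 : Matrix (((ι ⊕ μ₁) ⊕ μ₂) ⊕ ν) (((ι ⊕ μ₁) ⊕ μ₂) ⊕ ν) R :=
    fromBlocks (fromBlocks 0 0 0 f) 0 0 1 with hq0
  have hqq : q0 * q0 = q0 := blocks_idem (blocks_idem (Matrix.mul_zero _) hf) (Matrix.one_mul _)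
  have hqL : ∀ (h : E → V) i j, q0 i j ≠ 0 → Sum.elim (h ∘ lE') (fun _ => r) i =
      Sum.elim (h ∘ lE') (fun _ => r) j := by
    rintro h ((i | i) | i) ((j | j) | j) hij
    · exact absurd rfl hij
    · exact absurd rfl hij
    · exact absurd rfl hij
    · exact absurd rfl hij
    · exact congrArg h (hfl i j hij)
    · exact absurd rfl hij
    · exact absurd rfl hij
    · exact absurd rfl hij
    · rfl
  have hqL' : ∀ (h : E → V) i j, (1 - q0) i j ≠ 0 → Sum.elim (h ∘ lE') (fun _ => r) i =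
      Sum.elim (h ∘ lE') (fun _ => r) j := by
    intro h i j hij
    by_cases hij' : i = j
    · rw [hij']
    · apply hqL h i j
      intro h0
      apply hij
      rw [Matrix.sub_apply, Matrix.one_apply_ne hij', h0, sub_zero]
  set lV' : (κ ⊕ μ₁) ⊕ μ₂ → V := Sum.elim (Sum.elim lV (o ∘ l₁)) (t ∘ l₂) with hlV'
  have hq0m : q0.map c = fromBlocks (fromBlocks 0 0 0 F) 0 0 1 := by
    rw [hq0, VMon.map_add_blocks, VMon.map_add_blocks, KZero.map_one_mat,
      Matrix.map_zero _ (map_zero c)]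
  have hBH : ∀ h : E → V, Hg (fun _ : ν => r) lV' id Bp := by
    rintro h i ((j | j) | j) g hg
    · exact h3 i j g hg
    · exact absurd rfl hg
    · exact absurd rfl hg
  have haH : ∀ h : E → V, (∀ (g : G) e, h (g • e) = g • h e) →
      Hg (Sum.elim (h ∘ lE') (fun _ : ν => r)) (Sum.elim (h ∘ lE') (fun _ : ν => r)) id a1 := by
    intro h hh
    exact hg_fromBlocks (halH.comp_label hh) (hg_zero _ _ _) (hg_zero _ _ _) (hg_one _)
  set eh : Matrix (((ι ⊕ μ₁) ⊕ μ₂) ⊕ ν) (((ι ⊕ μ₁) ⊕ μ₂) ⊕ ν) (MonoidAlgebra R G) :=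
    fromBlocks (fromBlocks e 0 0 0) 0 0 1 with heh
  -- the two parts
  have hP1 : q0.map c * (a1 * fromRows Ap Bp) = a1 *
      fromRows (fromBlocks (fromBlocks (p * A) 0 0 (1 : Matrix μ₁ μ₁ (MonoidAlgebra R G))) 0 0
      (0 : Matrix μ₂ μ₂ (MonoidAlgebra R G))) Bp := by
    have e1 : q0.map c * a1 = a1 * eh := by
      rw [hq0m, ha1d, heh, blk_mul, blk_mul, ha2]
    have e2 : eh * fromRows Ap Bp =
        fromRows (fromBlocks (fromBlocks (p * A) 0 0 (1 : Matrix μ₁ μ₁ (MonoidAlgebra R G))) 0 0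
      (0 : Matrix μ₂ μ₂ (MonoidAlgebra R G))) Bp := by
      rw [heh, Matrix.fromBlocks_mul_fromRows, hAp, he, fromBlocks_multiply, fromBlocks_multiply]
      simp only [Matrix.zero_mul, Matrix.mul_zero, add_zero, zero_add, Matrix.one_mul]
    rw [← Matrix.mul_assoc, e1, Matrix.mul_assoc, e2]
  have hP2 : (1 - q0).map c * (a1 * fromRows Ap Bp) = a1 *
      fromRows (fromBlocks (fromBlocks ((1 - p) * A) 0 0
        (0 : Matrix μ₁ μ₁ (MonoidAlgebra R G))) 0 0
      (1 : Matrix μ₂ μ₂ (MonoidAlgebra R G))) 0 := by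
    have e0 : (1 - q0).map c = 1 - q0.map c := by
      rw [Matrix.map_sub _ (map_sub c), KZero.map_one_mat]
    rw [e0, Matrix.sub_mul, hP1, Matrix.one_mul, ← Matrix.mul_sub]
    congr 1
    refine Matrix.ext fun i j => ?_
    rcases i with ((i | i) | i) | i <;> rcases j with (j | j) | j
    · change A i j - (p * A) i j = ((1 - p) * A : Matrix ι κ (MonoidAlgebra R G)) i j
      rw [Matrix.sub_mul, Matrix.one_mul, Matrix.sub_apply]
    all_goals exact (by
      first
        | exact sub_self _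
        | exact sub_zero _)
  let U' : (Matrix (((ι ⊕ μ₁) ⊕ μ₂) ⊕ ν) (((ι ⊕ μ₁) ⊕ μ₂) ⊕ ν) (MonoidAlgebra R G))ˣ :=
    bl alU 1 * rU σ.symm (bl (bl U (1 : (Matrix μ₁ μ₁ (MonoidAlgebra R G))ˣ))
      (1 : (Matrix μ₂ μ₂ (MonoidAlgebra R G))ˣ))
  have hkU' : k1 U' = k1 alU + k1 U := by
    rw [k1_mul, k1_bl_one, k1_rU, k1_bl_one, k1_bl_one]
  have key : k1 U' ∈ imA1 R G := by
    refine k1_two_mem (Sum.elim (o ∘ lE') (fun _ : ν => r)) (Sum.elim (t ∘ lE') (fun _ : ν => r))
      lV' hqq (hqL o) (hqL' t) (a1 * fromRows Ap Bp) (Cp * a1) ?_ ?_ ?_ ?_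
      ((fromBlocks (fromBlocks T 0 0 (1 : Matrix μ₁ μ₁ R)) 0 0
        (1 : Matrix μ₂ μ₂ R)).submatrix σ id)
      ((fromBlocks (fromBlocks T' 0 0 (1 : Matrix μ₁ μ₁ R)) 0 0
        (1 : Matrix μ₂ μ₂ R)).submatrix id σ) ?_ ?_ U' ?_ hV
    · have e1 : a1 * fromRows Ap Bp * (Cp * a1) = a1 * (fromRows Ap Bp * Cp) * a1 := by
        simp only [Matrix.mul_assoc]
      rw [e1, hMC, Matrix.mul_one, ha11]
    · have e1 : Cp * a1 * (a1 * fromRows Ap Bp) = Cp * (a1 * a1) * fromRows Ap Bp := by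
        simp only [Matrix.mul_assoc]
      rw [e1, ha11, Matrix.mul_one, hCM]
    · rw [hP1]
      refine (haH o ho).mul (f' := id) (fun _ _ => rfl) (hg_fromRows ?_ (hBH o))
      have e1 : o ∘ lE' = Sum.elim (Sum.elim (o ∘ lE) (o ∘ l₁)) (o ∘ l₂) := by
        funext z
        rcases z with (z | z) | z <;> rfl
      rw [e1]
      exact hg_fromBlocks (hg_fromBlocks (fun i j g hg => h1 i j g hg) (hg_zero _ _ _)
        (hg_zero _ _ _) (hg_one _)) (hg_zero _ _ _) (hg_zero _ _ _) (hg_zero _ _ _)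
    · rw [hP2]
      refine (haH t ht).mul (f' := id) (fun _ _ => rfl) (hg_fromRows ?_ (hg_zero _ _ _))
      have e1 : t ∘ lE' = Sum.elim (Sum.elim (t ∘ lE) (t ∘ l₁)) (t ∘ l₂) := by
        funext z
        rcases z with (z | z) | z <;> rfl
      rw [e1]
      exact hg_fromBlocks (hg_fromBlocks (fun i j g hg => h2 i j g hg) (hg_zero _ _ _)
        (hg_zero _ _ _) (hg_zero _ _ _)) (hg_zero _ _ _) (hg_zero _ _ _) (hg_one _)
    · rw [← Matrix.submatrix_mul _ _ _ _ _ Function.bijective_id, fromBlocks_multiply,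
        fromBlocks_multiply]
      simp only [Matrix.zero_mul, Matrix.mul_zero, add_zero, zero_add, Matrix.one_mul, hT,
        fromBlocks_one, Matrix.submatrix_one_equiv]
    · rw [Matrix.submatrix_mul_equiv, Matrix.submatrix_id_id, fromBlocks_multiply,
        fromBlocks_multiply]
      simp only [Matrix.zero_mul, Matrix.mul_zero, add_zero, zero_add, Matrix.one_mul, hT',
        fromBlocks_one]
    · rw [Units.val_mul, coe_bl, coe_rU, coe_bl, coe_bl, hU, Matrix.mul_assoc]
      change a1 * _ = a1 * _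
      congr 1
      have e1 : ((fromBlocks (fromBlocks T' 0 0 (1 : Matrix μ₁ μ₁ R)) 0 0
        (1 : Matrix μ₂ μ₂ R)).submatrix id σ).map c =
        (fromBlocks (fromBlocks (T'.map c) 0 0 (1 : Matrix μ₁ μ₁ (MonoidAlgebra R G))) 0 0
        (1 : Matrix μ₂ μ₂ (MonoidAlgebra R G))).submatrix id σ := by
        rw [← Matrix.submatrix_map, Matrix.fromBlocks_map, Matrix.fromBlocks_map,
          Matrix.map_zero _ (map_zero c), Matrix.map_zero _ (map_zero c),
          Matrix.map_zero _ (map_zero c), Matrix.map_zero _ (map_zero c), KZero.map_one_mat,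
          KZero.map_one_mat]
      rw [e1, hMp, ← Matrix.submatrix_mul _ _ _ _ _ Function.bijective_id, fromBlocks_multiply,
        fromBlocks_multiply]
      simp only [Matrix.zero_mul, Matrix.mul_zero, add_zero, zero_add, Matrix.one_mul,
        Units.val_one]
      rfl
  rw [hkU'] at key
  have h9 := AddSubgroup.sub_mem _ key hkal
  rwa [add_sub_cancel_left] at h9

end K2

end Pool.Agent.Lib.MP_c052b4_al
end

section

/-!
# `A₁` is onto for groups acting on trees
-/

set_option autoImplicit false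
set_option linter.unusedSectionVars false

namespace Pool.Agent.Lib.MP_c052b4_al

open Matrix

universe u v w w'

section Lift

variable {R : Type u} [Ring R] {G : Type v} [Group G] {V : Type w} {E : Type w'}
    [MulAction G V] [MulAction G E] {O : OTree G V E} {r : V} {n : ℕ} {F : Finset V}
    (M : TMat O r n F)

/-- integer matrices over a ring -/
abbrev zc (C : Type*) [Ring C] {m k : Type*} (N : Matrix m k ℤ) : Matrix m k C :=
  N.map (Int.castRingHom C)

/-- The lift of a vector to the vertex module, in degree `r`. -/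
noncomputable def lf (x : Fin n → MonoidAlgebra R G) : M.κ → MonoidAlgebra R G :=
  fun j => cpA {h | h • M.lV j = r} (x (M.q j))

theorem lf_mul_a (x : Fin n → MonoidAlgebra R G)
    (hx : ∀ k g, (x k).coeff g ≠ 0 → g⁻¹ • r ∈ F) :
    lf M x ᵥ* zc (MonoidAlgebra R G) M.a = x := by
  classical
  funext k
  have h1 : (lf M x ᵥ* zc (MonoidAlgebra R G) M.a) k =
      ∑ j, if M.q j = k then cpA {h | h • M.lV j = r} (x k) else 0 := by
    rw [Matrix.vecMul, dotProduct]
    refine Finset.sum_congr rfl fun j _ => ?_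
    simp only [lf, Matrix.map_apply, M.ha]
    by_cases h : M.q j = k
    · subst h
      rw [if_pos rfl, if_pos rfl, map_one, mul_one]
    · rw [if_neg h, if_neg h, map_zero, mul_zero]
  rw [h1]
  ext g
  rw [MonoidAlgebra.coeff_sum, Finsupp.finsetSum_apply]
  by_cases hg : (x k).coeff g = 0
  · rw [hg]
    refine Finset.sum_eq_zero fun j _ => ?_
    split_ifs
    · rw [coeff_cpA, hg, ite_self]
    · rfl
  · obtain ⟨j, hj1, hj2⟩ := M.hF _ (hx k g hg) k
    rw [Finset.sum_eq_single j]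
    · rw [if_pos hj2, coeff_cpA, if_pos]
      change g • M.lV j = r
      rw [hj1, smul_inv_smul]
    · intro j' _ hne
      split_ifs with h2
      · rw [coeff_cpA, if_neg]
        intro h3
        apply hne
        apply M.hinj
        · rw [hj1, eq_inv_smul_iff]
          exact h3
        · rw [h2, hj2]
      · rfl
    · intro h
      exact absurd (Finset.mem_univ _) h

theorem cp_lf (x : Fin n → MonoidAlgebra R G) : cp M.lV {r} (lf M x) = lf M x := by
  classical
  funext j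
  change cpA {g | g • M.lV j ∈ ({r} : Set V)} (cpA {h | h • M.lV j = r} (x (M.q j))) = _
  ext g
  rw [coeff_cpA]
  simp only [lf, coeff_cpA, Set.mem_setOf_eq, Set.mem_singleton_iff]
  split_ifs <;> rfl

theorem zc_coeff_ne {m k : Type*} {N : Matrix m k ℤ} {i : m} {j : k} {g : G}
    (h : (zc (MonoidAlgebra R G) N i j).coeff g ≠ 0) : N i j ≠ 0 ∧ g = 1 := by
  classical
  have h1 : zc (MonoidAlgebra R G) N i j = MonoidAlgebra.single 1 ((N i j : ℤ) : R) := by
    change ((N i j : ℤ) : MonoidAlgebra R G) = _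
    have h2 := map_intCast (MonoidAlgebra.singleOneRingHom : R →+* MonoidAlgebra R G) (N i j)
    exact h2.symm
  rw [h1, MonoidAlgebra.coeff_single] at h
  constructor
  · intro h0
    rw [h0, Int.cast_zero, Finsupp.single_zero] at h
    exact h rfl
  · by_contra hne
    apply h
    rw [Finsupp.single_apply, if_neg fun h => hne h.symm]

theorem hg_zs : Hg M.lE M.lV O.o (zc (MonoidAlgebra R G) M.s) := by
  intro i j g hg
  obtain ⟨h1, rfl⟩ := zc_coeff_ne hg
  rw [one_smul]
  exact M.hs i j h1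

theorem hg_zt : Hg M.lE M.lV O.t (zc (MonoidAlgebra R G) M.t) := by
  intro i j g hg
  obtain ⟨h1, rfl⟩ := zc_coeff_ne hg
  rw [one_smul]
  exact M.ht i j h1

theorem zc_mul {C : Type*} [Ring C] {m k l : Type*} [Fintype k] (N : Matrix m k ℤ)
    (N' : Matrix k l ℤ) : zc C (N * N') = zc C N * zc C N' := Matrix.map_mul

theorem zc_sub {C : Type*} [Ring C] {m k : Type*} (N N' : Matrix m k ℤ) :
    zc C (N - N') = zc C N - zc C N' := Matrix.map_sub _ (map_sub _) _ _

theorem zc_add {C : Type*} [Ring C] {m k : Type*} (N N' : Matrix m k ℤ) :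
    zc C (N + N') = zc C N + zc C N' := Matrix.map_add _ (map_add _) _ _

theorem zc_one {C : Type*} [Ring C] {m : Type*} [DecidableEq m] :
    zc C (1 : Matrix m m ℤ) = 1 := Matrix.map_one _ (map_zero _) (map_one _)

theorem zc_zero {C : Type*} [Ring C] {m k : Type*} :
    zc C (0 : Matrix m k ℤ) = 0 := Matrix.map_zero _ (map_zero _)

theorem e1' (C : Type*) [Ring C] :
    zc C M.ρ * (zc C M.s - zc C M.t) + zc C M.a * zc C M.i0 = 1 := by
  rw [← zc_sub, ← zc_mul, ← zc_mul, ← zc_add, M.e1, zc_one]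

theorem e2' (C : Type*) [Ring C] : (zc C M.s - zc C M.t) * zc C M.ρ = 1 := by
  rw [← zc_sub, ← zc_mul, M.e2, zc_one]

theorem e3' (C : Type*) [Ring C] : (zc C M.s - zc C M.t) * zc C M.a = 0 := by
  rw [← zc_sub, ← zc_mul, M.e3, zc_zero]

theorem e4' (C : Type*) [Ring C] : zc C M.i0 * zc C M.ρ = 0 := by
  rw [← zc_mul, M.e4, zc_zero]

theorem e5' (C : Type*) [Ring C] : zc C M.i0 * zc C M.a = 1 := by
  rw [← zc_mul, M.e5, zc_one]

end Lift

section Main

variable {R : Type u} [Ring R] {G : Type v} [Group G] {V : Type w} {E : Type w'}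
    [MulAction G V] [MulAction G E] (O : OTree G V E)

/-- the complex of an invertible matrix -/
theorem exists_cdata (r : V) {n : ℕ} (U : (Matrix (Fin n) (Fin n) (MonoidAlgebra R G))ˣ) :
    ∃ (F : Finset V) (M : TMat O r n F) (D : CData R O (ν := Fin n) M.lE M.lV r)
      (L : (Matrix (M.ι ⊕ Fin n) (M.ι ⊕ Fin n) (MonoidAlgebra R G))ˣ),
      D.s = zc (MonoidAlgebra R G) M.s ∧ D.t = zc (MonoidAlgebra R G) M.t ∧ k1 L = k1 U ∧
      fromRows (D.s - D.t) D.B * fromCols (zc (MonoidAlgebra R G) M.ρ)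
        (zc (MonoidAlgebra R G) M.a) =
        (L : Matrix (M.ι ⊕ Fin n) (M.ι ⊕ Fin n) (MonoidAlgebra R G)) := by
  classical
  let F : Finset V := Finset.univ.biUnion fun i : Fin n => Finset.univ.biUnion fun j : Fin n =>
    ((U : Matrix (Fin n) (Fin n) (MonoidAlgebra R G)) i j).coeff.support.image fun g => g⁻¹ • r
  obtain ⟨M⟩ := exists_tmat O r n F
  set A := MonoidAlgebra R G with hA
  let B : Matrix (Fin n) M.κ A := fun i => lf M ((U : Matrix (Fin n) (Fin n) A) i)
  have hBa : B * zc A M.a = (U : Matrix (Fin n) (Fin n) A) := by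
    refine Matrix.ext fun i j => ?_
    have h1 := lf_mul_a M ((U : Matrix (Fin n) (Fin n) A) i) (fun k g hg => by
      refine Finset.mem_biUnion.2 ⟨i, Finset.mem_univ _, Finset.mem_biUnion.2
        ⟨k, Finset.mem_univ _, Finset.mem_image.2 ⟨g, Finsupp.mem_support_iff.2 hg, rfl⟩⟩⟩)
    exact congrFun h1 j
  have hBh : Hg (fun _ : Fin n => r) M.lV id B := by
    rw [hg_iff]
    intro i
    exact cp_lf M _
  have c1 := e1' M A
  have c2 := e2' M A
  have c3 := e3' M A
  have c4 := e4' M A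
  have c5 := e5' M A
  let Y : Matrix (Fin n) (Fin n) A := ((U⁻¹ : (Matrix (Fin n) (Fin n) A)ˣ) : Matrix _ _ A)
  have hUY : (U : Matrix (Fin n) (Fin n) A) * Y = 1 := Units.mul_inv U
  have hYU : Y * (U : Matrix (Fin n) (Fin n) A) = 1 := Units.inv_mul U
  let D : CData R O (ν := Fin n) M.lE M.lV r :=
    { s := zc A M.s
      t := zc A M.t
      B := B
      ρ := zc A M.ρ - zc A M.a * Y * B * zc A M.ρ
      σ := zc A M.a * Y
      hs := hg_zs M
      ht := hg_zt M
      hB := hBh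
      e1 := by
        have h1 : B = B * zc A M.ρ * (zc A M.s - zc A M.t) + (U : Matrix (Fin n) (Fin n) A) * zc A M.i0 := by
          conv_lhs => rw [← Matrix.mul_one B, ← c1, Matrix.mul_add, ← Matrix.mul_assoc,
            ← Matrix.mul_assoc, hBa]
        have h2 : zc A M.a * Y * B = zc A M.a * Y * B * zc A M.ρ * (zc A M.s - zc A M.t) +
            zc A M.a * zc A M.i0 := by
          conv_lhs => rw [h1]
          rw [Matrix.mul_add, ← Matrix.mul_assoc, Matrix.mul_assoc (zc A M.a) Y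
            ((U : Matrix (Fin n) (Fin n) A) * zc A M.i0), ← Matrix.mul_assoc Y, hYU,
            Matrix.one_mul]
          congr 1
          simp only [Matrix.mul_assoc]
        have h4 : zc A M.a * Y * B - zc A M.a * Y * B * zc A M.ρ * (zc A M.s - zc A M.t) =
            zc A M.a * zc A M.i0 := by
          rw [sub_eq_iff_eq_add, add_comm]
          exact h2
        calc _ = zc A M.ρ * (zc A M.s - zc A M.t) + (zc A M.a * Y * B -
              zc A M.a * Y * B * zc A M.ρ * (zc A M.s - zc A M.t)) := by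
              rw [Matrix.sub_mul, Matrix.mul_assoc (zc A M.a) Y B]
              abel
          _ = 1 := by
              rw [h4]
              exact c1
      e2 := by
        rw [Matrix.mul_sub, c2]
        have : (zc A M.s - zc A M.t) * (zc A M.a * Y * B * zc A M.ρ) = 0 := by
          rw [Matrix.mul_assoc, Matrix.mul_assoc, ← Matrix.mul_assoc, c3, Matrix.zero_mul]
        rw [this, sub_zero]
      e3 := by rw [← Matrix.mul_assoc, c3, Matrix.zero_mul]
      e4 := by
        rw [Matrix.mul_sub]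
        have : B * (zc A M.a * Y * B * zc A M.ρ) = B * zc A M.ρ := by
          rw [Matrix.mul_assoc, Matrix.mul_assoc, ← Matrix.mul_assoc B, hBa, ← Matrix.mul_assoc,
            hUY, Matrix.one_mul]
        rw [this, sub_self]
      e5 := by rw [← Matrix.mul_assoc, hBa, hUY] }
  refine ⟨F, M, D, bl (1 : (Matrix M.ι M.ι A)ˣ) U * lU (Y * (B * zc A M.ρ)), rfl, rfl, ?_, ?_⟩
  · rw [k1_mul, k1_lU, add_zero, k1_one_bl]
  · change fromRows (zc A M.s - zc A M.t) B * fromCols (zc A M.ρ) (zc A M.a) = _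
    rw [Units.val_mul, coe_bl, coe_lU, fromBlocks_multiply, fromRows_mul_fromCols, c2, c3, hBa]
    simp only [Units.val_one, Matrix.one_mul, Matrix.mul_zero, add_zero, Matrix.zero_mul, zero_add,
      Matrix.mul_one]
    rw [← Matrix.mul_assoc, hUY, Matrix.one_mul]

include O in
/-- **`A₁` is onto for groups acting on trees.** -/
theorem imA1_of_otree (hV : ∀ v : V, imA1 R (MulAction.stabilizer G v) = ⊤)
    (hE : ∀ e : E, KSurj R (MulAction.stabilizer G e))
    (hD : ∀ e : E, DPr (MonoidAlgebra R (MulAction.stabilizer G e))) : imA1 R G = ⊤ := by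
  classical
  rw [eq_top_iff]
  intro x _
  obtain ⟨n, U, rfl⟩ := exists_k1 x
  obtain ⟨r⟩ : Nonempty V := O.tree.connected.nonempty
  obtain ⟨F, M, D, L, hDs, hDt, hL, hLe⟩ := exists_cdata O r U
  set A := MonoidAlgebra R G with hA
  obtain ⟨U1, hU1, hk1⟩ := D.exists_unit
  -- the nilpotent part
  have hnil : kk (-D.Nh) = 0 := by
    refine nil_graded (CData.lD M.lE) D.Nh D.isNilpotent_Nh ?_ ?_
    · intro k ξ ξ' x hx h
      exact CData.unique_step (lE := M.lE) D.Nh D.sp_Nh k ξ ξ' x hx h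
    · rintro (i | i)
      · have h1 : MulAction.stabilizer G (CData.lD M.lE (Sum.inl i)) =
            MulAction.stabilizer G (M.lE i) := by
          ext g
          rw [MulAction.mem_stabilizer_iff, MulAction.mem_stabilizer_iff]
          exact Sum.inl_injective.eq_iff
        rw [h1]
        exact hD _
      · have h1 : MulAction.stabilizer G (CData.lD M.lE (Sum.inr i)) =
            MulAction.stabilizer G (M.lE i) := by
          ext g
          rw [MulAction.mem_stabilizer_iff, MulAction.mem_stabilizer_iff]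
          exact Sum.inr_injective.eq_iff
        rw [h1]
        exact hD _
  rw [hnil, neg_zero] at hk1
  -- the vertex part
  set P : Matrix (M.ι ⊕ Fin n) M.κ A := fromRows (D.p * D.s - (1 - D.p) * D.t) D.B with hP
  set Θ : Matrix (M.ι ⊕ Fin n) M.κ A := fromRows (D.s - D.t) D.B with hΘ
  set Θ' : Matrix M.κ (M.ι ⊕ Fin n) A := fromCols D.ρ D.σ with hΘ'
  have hΘΘ' : Θ * Θ' = 1 := by
    rw [hΘ, hΘ', fromRows_mul_fromCols, D.e2, D.e3, D.e4, D.e5, fromBlocks_one]
  have hΘ'Θ : Θ' * Θ = 1 := by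
    rw [hΘ, hΘ', fromCols_mul_fromRows, D.e1]
  let U1m : Matrix (M.ι ⊕ Fin n) (M.ι ⊕ Fin n) A := U1
  let U1i : Matrix (M.ι ⊕ Fin n) (M.ι ⊕ Fin n) A :=
    ((U1⁻¹ : (Matrix (M.ι ⊕ Fin n) (M.ι ⊕ Fin n) A)ˣ) : Matrix (M.ι ⊕ Fin n) (M.ι ⊕ Fin n) A)
  have hmi : U1m * U1i = 1 := Units.mul_inv U1
  have him : U1i * U1m = 1 := Units.inv_mul U1
  have hU1' : U1m = P * Θ' := hU1
  have hPe : P = U1m * Θ := by
    rw [hU1', Matrix.mul_assoc, hΘ'Θ, Matrix.mul_one]
  let C : Matrix M.κ (M.ι ⊕ Fin n) A := Θ' * U1i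
  have hPC : P * C = 1 := by
    change P * (Θ' * U1i) = 1
    rw [← Matrix.mul_assoc, ← hU1', hmi]
  have hCP : C * P = 1 := by
    change Θ' * U1i * P = 1
    rw [hPe, Matrix.mul_assoc, ← Matrix.mul_assoc U1i, him, Matrix.one_mul, hΘ'Θ]
  let T : Matrix (M.ι ⊕ Fin n) M.κ R := fromRows (zc R M.s - zc R M.t) (zc R M.i0)
  let T' : Matrix M.κ (M.ι ⊕ Fin n) R := fromCols (zc R M.ρ) (zc R M.a)
  have hTT' : T * T' = 1 := by
    change fromRows _ _ * fromCols _ _ = 1
    rw [fromRows_mul_fromCols, e2', e3', e4', e5', fromBlocks_one]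
  have hT'T : T' * T = 1 := by
    change fromCols _ _ * fromRows _ _ = 1
    rw [fromCols_mul_fromRows, e1']
  have hT'A : T'.map (cG R G) = fromCols (zc A M.ρ) (zc A M.a) := by
    refine Matrix.ext fun i j => ?_
    rcases j with j | j
    · change cG R G ((M.ρ i j : ℤ) : R) = ((M.ρ i j : ℤ) : A)
      exact map_intCast _ _
    · change cG R G ((M.a i j : ℤ) : R) = ((M.a i j : ℤ) : A)
      exact map_intCast _ _
  have hfin : ((U1 * L : (Matrix (M.ι ⊕ Fin n) (M.ι ⊕ Fin n) A)ˣ) :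
      Matrix (M.ι ⊕ Fin n) (M.ι ⊕ Fin n) A) = P * T'.map (cG R G) := by
    change U1m * (L : Matrix (M.ι ⊕ Fin n) (M.ι ⊕ Fin n) A) = _
    rw [hT'A, hPe, Matrix.mul_assoc, ← hLe]
  have hmem := k1_vertex_mem M.lE M.lV O.o O.t O.o_smul O.t_smul r D.p D.p_mul_p D.hg_p
    (D.p * D.s - (1 - D.p) * D.t) D.B (by
      have h1 : D.p * (D.p * D.s - (1 - D.p) * D.t) = D.p * D.s := by
        rw [Matrix.mul_sub, ← Matrix.mul_assoc, ← Matrix.mul_assoc, D.p_mul_p, D.p_mul_one_sub,
          Matrix.zero_mul, sub_zero]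
      rw [h1]
      exact Hg.mul O.o_smul D.hg_p D.hs) (by
      have h1 : (1 - D.p) * (D.p * D.s - (1 - D.p) * D.t) = -((1 - D.p) * D.t) := by
        rw [Matrix.mul_sub, ← Matrix.mul_assoc, ← Matrix.mul_assoc, D.one_sub_mul_p,
          D.one_sub_idem', Matrix.zero_mul, zero_sub]
      rw [h1]
      exact (Hg.mul O.t_smul ((hg_one M.lE).sub D.hg_p) D.ht).neg) D.hB C hPC hCP T T' hTT' hT'T
      (U1 * L) hfin hV hE
  rw [k1_mul, hk1, zero_add, hL] at hmem
  exact hmem

end Main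

end Pool.Agent.Lib.MP_c052b4_al
end

section

/-!
# The property DP for groups acting on trees
-/

set_option autoImplicit false
set_option linter.unusedSectionVars false

namespace Pool.Agent.Lib.MP_c052b4_al

open Matrix

universe u v w w'

section Gk

variable {R : Type u} [Ring R] {G : Type v} [Group G] {X : Type w} [MulAction G X]

theorem gker_cp {ι : Type*} [Fintype ι] [DecidableEq ι] {κ : Type*} (l : ι → X)
    (N : Matrix ι κ (MonoidAlgebra R G)) {x : ι → MonoidAlgebra R G} (hx : x ∈ gker l N)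
    (Z : Set X) : cp l Z x ᵥ* N = 0 := by
  classical
  refine eq_zero_of_cp l (Matrix.vecMulLinear N).toAddMonoidHom (cp l Z x) fun ξ => ?_
  change cp l {ξ} (cp l Z x) ᵥ* N = 0
  rw [cp_cp]
  by_cases h : ξ ∈ Z
  · rw [Set.inter_eq_left.2 (Set.singleton_subset_iff.2 h)]
    exact hx ξ
  · rw [Set.singleton_inter_eq_empty.2 h, cp_empty, Matrix.zero_vecMul]

theorem gker_mul {ι : Type*} [Fintype ι] [DecidableEq ι] {κ : Type*} {l : ι → X}
    {N : Matrix ι κ (MonoidAlgebra R G)} {x : ι → MonoidAlgebra R G} (hx : x ∈ gker l N) :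
    x ᵥ* N = 0 := by
  have h := gker_cp l N hx Set.univ
  rwa [cp_univ] at h

end Gk

section Main

variable {R : Type u} [Ring R] {G : Type v} [Group G] {V : Type w} {E : Type w'}
    [MulAction G V] [MulAction G E] (O : OTree G V E)

theorem sd_cut (e f : E) : (O.t f ∈ O.sd (Sum.inl e)) ↔ (O.o f ∈ O.sd (Sum.inl e) ∨ f = e) := by
  have h1 : O.sd (Sum.inl e) = side O.T (O.o e) (O.t e) := rfl
  rw [h1]
  constructor
  · intro h
    by_contra hne
    rw [not_or] at hne
    obtain ⟨h2, h3⟩ := side_cross O.tree (O.adj e) (O.adj f).symm h hne.1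
    exact hne.2 (O.inj _ _ h3 h2)
  · rintro (h | rfl)
    · by_contra hne
      obtain ⟨h2, h3⟩ := side_cross O.tree (O.adj e) (O.adj f) h hne
      exact O.anti f e h2 h3
    · exact right_mem_side (O.adj f)

theorem o_not_mem_sd (e : E) : O.o e ∉ O.sd (Sum.inl e) := left_not_mem_side

include O in
/-- **DP for groups acting on trees.** -/
theorem dpr_of_otree (hV : ∀ v : V, DPr (MonoidAlgebra R (MulAction.stabilizer G v)))
    (hE : ∀ e : E, RegCoh (MonoidAlgebra R (MulAction.stabilizer G e))) :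
    DPr (MonoidAlgebra R G) := by
  classical
  intro n m N Φ hΦ hΦ'
  obtain ⟨r⟩ : Nonempty V := O.tree.connected.nonempty
  let F : Finset V := hΦ.toFinset.biUnion fun x : Fin n → MonoidAlgebra R G =>
    Finset.univ.biUnion fun k : Fin n => (x k).coeff.support.image fun g => g⁻¹ • r
  obtain ⟨M⟩ := exists_tmat O r n F
  have c1 := e1' M (MonoidAlgebra R G)
  have c2 := e2' M (MonoidAlgebra R G)
  have c3 := e3' M (MonoidAlgebra R G)
  set s := zc (MonoidAlgebra R G) M.s with hs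
  set t := zc (MonoidAlgebra R G) M.t with ht
  set a := zc (MonoidAlgebra R G) M.a with ha
  set ρ := zc (MonoidAlgebra R G) M.ρ with hρ
  set i0 := zc (MonoidAlgebra R G) M.i0 with hi0
  have hsa : t * a = s * a := by
    rw [Matrix.sub_mul, sub_eq_zero] at c3
    exact c3.symm
  let KE : Submodule (MonoidAlgebra R G) (M.ι → (MonoidAlgebra R G)) := gker M.lE (s * a * N)
  have hKE : Perf (MonoidAlgebra R G) KE := perf_gker M.lE (s * a * N) fun i => hE _
  have hfg : KE.FG := Module.Finite.iff_fg.1 hKE.finite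
  obtain ⟨S, hS⟩ := hfg
  -- the edge kernel maps to the vertex kernel
  have hst : ∀ y ∈ KE, y ᵥ* (s - t) ∈ gker M.lV (a * N) := by
    intro y hy ξ
    rw [Matrix.vecMul_sub, cp_sub, (hg_zs M).cp_vecMul O.o_smul, (hg_zt M).cp_vecMul O.t_smul,
      Matrix.sub_vecMul, Matrix.vecMul_vecMul, Matrix.vecMul_vecMul, ← Matrix.mul_assoc,
      ← Matrix.mul_assoc]
    change _ ᵥ* (s * a * N) - _ ᵥ* (t * a * N) = 0
    rw [hsa, gker_cp _ _ hy, gker_cp _ _ hy, sub_zero]
  have hlf : ∀ x ∈ Φ, lf M x ᵥ* a = x := by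
    intro x hx
    refine lf_mul_a M x fun k g hg => ?_
    exact Finset.mem_biUnion.2 ⟨x, hΦ.mem_toFinset.2 hx, Finset.mem_biUnion.2
      ⟨k, Finset.mem_univ _, Finset.mem_image.2 ⟨g, Finsupp.mem_support_iff.2 hg, rfl⟩⟩⟩
  have hlf' : ∀ x ∈ Φ, lf M x ∈ gker M.lV (a * N) := by
    intro x hx ξ
    by_cases h : ξ = r
    · subst h
      rw [cp_lf, ← Matrix.vecMul_vecMul, hlf x hx]
      exact hΦ' hx
    · rw [cp_eq_zero_of_disjoint (cp_lf M x) (Set.disjoint_singleton.2 h), Matrix.zero_vecMul]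
  obtain ⟨FV, hFV1, hFV2, hFV3⟩ := dp_gker M.lV (a * N) (fun i => hV _)
    (((fun y : M.ι → (MonoidAlgebra R G) => y ᵥ* (s - t)) '' (S : Set (M.ι → (MonoidAlgebra R G)))) ∪ (lf M '' Φ))
    ((S.finite_toSet.image _).union (hΦ.image _)) (by
      rintro _ (⟨y, hy, rfl⟩ | ⟨x, hx, rfl⟩)
      · exact hst y (hS ▸ Submodule.subset_span hy)
      · exact hlf' x hx)
  have hKF : ∀ y ∈ KE, y ᵥ* (s - t) ∈ FV := by
    intro y hy
    rw [← hS] at hy
    have h1 : Submodule.span (MonoidAlgebra R G) (S : Set (M.ι → (MonoidAlgebra R G))) ≤ FV.comap (Matrix.vecMulLinear (s - t)) := by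
      rw [Submodule.span_le]
      intro z hz
      exact hFV1 (Or.inl ⟨z, hz, rfl⟩)
    exact h1 hy
  refine ⟨FV.map (Matrix.vecMulLinear a), ?_, ?_, ?_⟩
  · intro x hx
    exact ⟨lf M x, hFV1 (Or.inr ⟨x, hx, rfl⟩), hlf x hx⟩
  · rintro _ ⟨x, hx, rfl⟩
    rw [mem_rker]
    change (x ᵥ* a) ᵥ* N = 0
    rw [Matrix.vecMul_vecMul]
    exact gker_mul (hFV2 hx)
  · refine Perf.coker
      ((Matrix.vecMulLinear (s - t)).restrict (p := KE) (q := FV) hKF)
      ((Matrix.vecMulLinear a).restrict (p := FV) (q := FV.map (Matrix.vecMulLinear a))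
        fun x hx => ⟨x, hx, rfl⟩) ?_ ?_ ?_ hKE hFV3
    · rintro ⟨y, hy⟩ ⟨z, hz⟩ h
      have h1 : y ᵥ* (s - t) = z ᵥ* (s - t) := congrArg Subtype.val h
      apply Subtype.ext
      have h2 := congrArg (fun w => w ᵥ* ρ) h1
      simp only [Matrix.vecMul_vecMul, c2, Matrix.vecMul_one] at h2
      exact h2
    · rintro ⟨_, x, hx, rfl⟩
      exact ⟨⟨x, hx⟩, rfl⟩
    · ext ⟨x, hx⟩
      simp only [LinearMap.mem_range, LinearMap.mem_ker]
      constructor
      · rintro ⟨⟨y, hy⟩, h⟩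
        have h1 : y ᵥ* (s - t) = x := congrArg Subtype.val h
        apply Subtype.ext
        change x ᵥ* a = 0
        rw [← h1, Matrix.vecMul_vecMul, c3, Matrix.vecMul_zero]
      · intro h
        have h1 : x ᵥ* a = 0 := congrArg Subtype.val h
        have h2 : x = (x ᵥ* ρ) ᵥ* (s - t) := by
          have h3 : x ᵥ* (ρ * (s - t) + a * i0) = x := by rw [c1, Matrix.vecMul_one]
          rw [Matrix.vecMul_add, ← Matrix.vecMul_vecMul, ← Matrix.vecMul_vecMul, h1,
            Matrix.zero_vecMul, add_zero] at h3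
          exact h3.symm
        have hy : x ᵥ* ρ ∈ KE := by
          intro e
          set y := x ᵥ* ρ with hy
          have h3 : cp M.lV (O.sd (Sum.inl e)) x ᵥ* (a * N) = 0 := gker_cp _ _ (hFV2 hx) _
          have h5 : O.t ⁻¹' (O.sd (Sum.inl e)) = O.o ⁻¹' (O.sd (Sum.inl e)) ∪ {e} := by
            ext f
            exact sd_cut O e f
          have h6 : Disjoint (O.o ⁻¹' (O.sd (Sum.inl e))) {e} := by
            rw [Set.disjoint_singleton_right]
            exact o_not_mem_sd O e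
          rw [h2, Matrix.vecMul_sub, cp_sub, (hg_zs M).cp_vecMul O.o_smul,
            (hg_zt M).cp_vecMul O.t_smul, h5, cp_union _ h6, Matrix.sub_vecMul,
            Matrix.vecMul_vecMul, Matrix.vecMul_vecMul, ← Matrix.mul_assoc,
            ← Matrix.mul_assoc] at h3
          change _ ᵥ* (s * a * N) - _ ᵥ* (t * a * N) = 0 at h3
          rw [hsa, Matrix.add_vecMul, sub_add_eq_sub_sub, sub_self, zero_sub, neg_eq_zero] at h3
          exact h3
        exact ⟨⟨x ᵥ* ρ, hy⟩, Subtype.ext h2.symm⟩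

end Main

end Pool.Agent.Lib.MP_c052b4_al
end
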