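import Mathlib.Algebra.MonoidAlgebra.MapDomain
import Mathlib.GroupTheory.FiniteAbelian.Basic
import Mathlib.GroupTheory.HNNExtension
import Mathlib.LinearAlgebra.Dimension.Free
import Pool.Agent.Lib.MP_c052b4_al.Vas
import Pool.Agent.Lib.MP_c052b4_al.KOneCalc

section

/-!
# Class functions on matrices and their super versions

`KF A B`: a function `k` on square matrices over `A` with values in an abelian group with
`k (X Y) = k (Y X)` and `k (Z + X) = k Z + k X` for nilpotent `Z`, `X` with `Z X = 0`. For a parity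
`q` of the index set, `chi` is the alternating sum of `k` over the two blocks of an even matrix.
-/

set_option autoImplicit false
set_option linter.unusedSectionVars false

namespace Pool.Agent.Lib.MP_c052b4_al

open Matrix

universe u v w

/-- class functions on square matrices -/
structure KF (A : Type u) [Ring A] (B : Type v) [AddCommGroup B] where
  k : ∀ {n : Type} [Fintype n] [DecidableEq n], Matrix n n A → B
  zero : ∀ {n : Type} [Fintype n] [DecidableEq n], k (0 : Matrix n n A) = 0
  comm : ∀ {m n : Type} [Fintype m] [DecidableEq m] [Fintype n] [DecidableEq n]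
    (X : Matrix m n A) (Y : Matrix n m A), k (X * Y) = k (Y * X)
  add : ∀ {n : Type} [Fintype n] [DecidableEq n] (Z X : Matrix n n A), IsNilpotent Z →
    IsNilpotent X → Z * X = 0 → k (Z + X) = k Z + k X

theorem ks_aux {S : Type u} {T : Type v} [Ring S] [Ring T] {c : S →+* T} {s : T}
    (hs : ∀ x, s * c x = c x * s) (p : T) (y z : S) :
    p * c y * (s * c z) = p * s * (c y * c z) := by
  rw [mul_assoc, mul_assoc p s, ← mul_assoc (c y), ← hs y, mul_assoc]

/-- the class function `M ↦ [1 + s c(M)]` -/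
noncomputable def KF.ks {S : Type u} {T : Type v} [Ring S] [Ring T] (c : S →+* T) (s : T)
    (hs : ∀ x, s * c x = c x * s) : KF S (KOne T) where
  k M := Pool.Agent.Lib.MP_c052b4_al.ks c s M
  zero := ks_zero
  comm X Y := ks_comm hs X Y
  add := by
    intro n _ _ Z X hZ hX h
    have hn : ∀ M : Matrix n n S, IsNilpotent M → IsNilpotent (s • M.map c) := by
      rintro M ⟨k, hk⟩
      refine ⟨k, ?_⟩
      have : ∀ j : ℕ, (s • M.map c) ^ j = s ^ j • (M ^ j).map c := by
        intro j
        induction j with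
        | zero => simp
        | succ j ih =>
          rw [pow_succ, ih, pow_succ M, Matrix.map_mul]
          ext a b
          simp only [Matrix.mul_apply, Matrix.smul_apply, Matrix.map_apply, smul_eq_mul,
            Finset.mul_sum, pow_succ]
          refine Finset.sum_congr rfl fun x _ => ?_
          exact ks_aux hs (s ^ j) _ _
      rw [this, hk, Matrix.map_zero _ (map_zero c), smul_zero]
    unfold Pool.Agent.Lib.MP_c052b4_al.ks
    have e1 : s • (Z + X).map c = s • Z.map c + s • X.map c + (s • Z.map c) * (s • X.map c) := by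
      have e2 : (s • Z.map c) * (s • X.map c) = (s * s) • (Z * X).map c := by
        ext a b
        simp only [Matrix.mul_apply, Matrix.smul_apply, Matrix.map_apply, smul_eq_mul,
          Finset.mul_sum, map_sum, map_mul]
        refine Finset.sum_congr rfl fun x _ => ?_
        rw [mul_assoc, ← mul_assoc (c (Z a x)), ← hs, mul_assoc, mul_assoc]
      rw [e2, h, Matrix.map_zero _ (map_zero c), smul_zero, add_zero, ← smul_add]
      congr 1
      ext a b
      simp
    rw [e1]
    exact kk_mul (hn Z hZ).isUnit_one_add (hn X hX).isUnit_one_add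

section Chi

variable {A : Type u} [Ring A] {B : Type v} [AddCommGroup B]

/-- a block of a matrix -/
def sblk {t t' : Type*} (q : t → Bool) (q' : t' → Bool) (b b' : Bool) (M : Matrix t t' A) :
    Matrix {i // q i = b} {j // q' j = b'} A :=
  M.submatrix Subtype.val Subtype.val

theorem sblk_mul {t t' t'' : Type*} [Fintype t'] {q : t → Bool} {q' : t' → Bool}
    {q'' : t'' → Bool} {b b' b'' : Bool} (f : Matrix t t' A) (g : Matrix t' t'' A)
    (hf : ∀ i j, f i j ≠ 0 → q i = b → q' j = b') :
    sblk q q'' b b'' (f * g) = sblk q q' b b' f * sblk q' q'' b' b'' g := by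
  classical
  ext i k
  change (f * g) i.1 k.1 = _
  rw [Matrix.mul_apply, Matrix.mul_apply,
    ← Fintype.sum_subtype_add_sum_subtype (fun j => q' j = b')]
  have : ∑ j : {j // ¬ q' j = b'}, f i.1 j.1 * g j.1 k.1 = 0 := by
    refine Finset.sum_eq_zero fun j _ => ?_
    by_cases h : f i.1 j.1 = 0
    · rw [h, zero_mul]
    · exact absurd (hf _ _ h i.2) j.2
  rw [this, add_zero]
  rfl

theorem sblk_add {t t' : Type*} (q : t → Bool) (q' : t' → Bool) (b b' : Bool)
    (f g : Matrix t t' A) : sblk q q' b b' (f + g) = sblk q q' b b' f + sblk q q' b b' g := rfl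

theorem sblk_zero {t t' : Type*} (q : t → Bool) (q' : t' → Bool) (b b' : Bool) :
    sblk q q' b b' (0 : Matrix t t' A) = 0 := rfl

/-- even matrices -/
def EvM {t t' : Type*} (q : t → Bool) (q' : t' → Bool) (f : Matrix t t' A) : Prop :=
  ∀ i j, f i j ≠ 0 → q i = q' j

/-- odd matrices -/
def OdM {t t' : Type*} (q : t → Bool) (q' : t' → Bool) (f : Matrix t t' A) : Prop :=
  ∀ i j, f i j ≠ 0 → q' j = !(q i)

theorem EvM.add {t t' : Type*} {q : t → Bool} {q' : t' → Bool} {f g : Matrix t t' A}
    (hf : EvM q q' f) (hg : EvM q q' g) : EvM q q' (f + g) := by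
  intro i j h
  by_contra hne
  have h1 : f i j = 0 := by
    by_contra h'
    exact hne (hf i j h')
  have h2 : g i j = 0 := by
    by_contra h'
    exact hne (hg i j h')
  exact h (by rw [Matrix.add_apply, h1, h2, add_zero])

theorem mul_ne_zero' {t t' t'' : Type*} [Fintype t'] {f : Matrix t t' A} {g : Matrix t' t'' A}
    {i : t} {k : t''} (h : (f * g) i k ≠ 0) : ∃ j, f i j ≠ 0 ∧ g j k ≠ 0 := by
  by_contra hn
  push Not at hn
  apply h
  rw [Matrix.mul_apply]
  refine Finset.sum_eq_zero fun j _ => ?_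
  by_cases hf : f i j = 0
  · rw [hf, zero_mul]
  · rw [hn j hf, mul_zero]

theorem EvM.mul {t t' t'' : Type*} [Fintype t'] {q : t → Bool} {q' : t' → Bool}
    {q'' : t'' → Bool} {f : Matrix t t' A} {g : Matrix t' t'' A}
    (hf : EvM q q' f) (hg : EvM q' q'' g) : EvM q q'' (f * g) := by
  intro i k h
  obtain ⟨j, h1, h2⟩ := mul_ne_zero' h
  rw [hf i j h1, hg j k h2]

theorem OdM.mul {t t' t'' : Type*} [Fintype t'] {q : t → Bool} {q' : t' → Bool}
    {q'' : t'' → Bool} {f : Matrix t t' A} {g : Matrix t' t'' A}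
    (hf : OdM q q' f) (hg : OdM q' q'' g) : EvM q q'' (f * g) := by
  intro i k h
  obtain ⟨j, h1, h2⟩ := mul_ne_zero' h
  rw [hg j k h2, hf i j h1, Bool.not_not]

variable (K : KF A B)

namespace KF

theorem submatrix {n m : Type} [Fintype n] [DecidableEq n] [Fintype m] [DecidableEq m]
    (σ : m ≃ n) (M : Matrix n n A) : K.k (M.submatrix σ σ) = K.k M := by
  have h1 : M.submatrix σ σ = ((1 : Matrix n n A).submatrix σ id) * (M.submatrix id σ) := by
    rw [← Matrix.submatrix_mul _ _ _ _ _ Function.bijective_id, Matrix.one_mul]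
  have h2 : (M.submatrix id σ) * ((1 : Matrix n n A).submatrix σ id) = M := by
    have := Matrix.submatrix_mul M (1 : Matrix n n A) id σ id σ.bijective
    rw [Matrix.mul_one, Matrix.submatrix_id_id] at this
    exact this.symm
  rw [h1, K.comm, h2]

theorem of_isEmpty {n : Type} [Fintype n] [DecidableEq n] [IsEmpty n] (M : Matrix n n A) :
    K.k M = 0 := by
  have : M = 0 := by
    ext i
    exact isEmptyElim i
  rw [this, K.zero]

/-- the super class of an even matrix -/
def chi {t : Type} [Fintype t] [DecidableEq t] (q : t → Bool) (M : Matrix t t A) : B :=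
  K.k (sblk q q true true M) - K.k (sblk q q false false M)

theorem chi_comm {t t' : Type} [Fintype t] [DecidableEq t] [Fintype t'] [DecidableEq t']
    {q : t → Bool} {q' : t' → Bool} (f : Matrix t t' A) (g : Matrix t' t A)
    (hf : EvM q q' f) (hg : EvM q' q g) : K.chi q (f * g) = K.chi q' (g * f) := by
  unfold chi
  rw [sblk_mul (q' := q') (b' := true) f g fun i j h hb => by rw [← hf i j h, hb],
    sblk_mul (q' := q') (b' := false) f g fun i j h hb => by rw [← hf i j h, hb],
    sblk_mul (q' := q) (b' := true) g f fun i j h hb => by rw [← hg i j h, hb],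
    sblk_mul (q' := q) (b' := false) g f fun i j h hb => by rw [← hg i j h, hb], K.comm,
    K.comm (sblk q q' false false f)]

theorem chi_comm_odd {t t' : Type} [Fintype t] [DecidableEq t] [Fintype t'] [DecidableEq t']
    {q : t → Bool} {q' : t' → Bool} (f : Matrix t t' A) (g : Matrix t' t A)
    (hf : OdM q q' f) (hg : OdM q' q g) : K.chi q (f * g) = - K.chi q' (g * f) := by
  unfold chi
  rw [sblk_mul (q' := q') (b' := false) f g fun i j h hb => by rw [hf i j h, hb]; rfl,
    sblk_mul (q' := q') (b' := true) f g fun i j h hb => by rw [hf i j h, hb]; rfl,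
    sblk_mul (q' := q) (b' := false) g f fun i j h hb => by rw [hg i j h, hb]; rfl,
    sblk_mul (q' := q) (b' := true) g f fun i j h hb => by rw [hg i j h, hb]; rfl, K.comm,
    K.comm (sblk q q' false true f)]
  abel

theorem sblk_pow {t : Type} [Fintype t] [DecidableEq t] {q : t → Bool} {M : Matrix t t A}
    (hM : EvM q q M) (b : Bool) (j : ℕ) : sblk q q b b (M ^ j) = sblk q q b b M ^ j := by
  induction j with
  | zero =>
    rw [pow_zero, pow_zero]
    ext i k
    change (1 : Matrix t t A) i.1 k.1 = _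
    rw [Matrix.one_apply, Matrix.one_apply]
    exact if_congr Subtype.ext_iff.symm rfl rfl
  | succ j ih =>
    rw [pow_succ', pow_succ', ← ih]
    exact sblk_mul (q' := q) (b' := b) M _ fun i k h hb => by rw [← hM i k h, hb]

theorem chi_add {t : Type} [Fintype t] [DecidableEq t] {q : t → Bool} (Z X : Matrix t t A)
    (hZe : EvM q q Z) (hXe : EvM q q X) (hZ : IsNilpotent Z) (hX : IsNilpotent X)
    (h : Z * X = 0) : K.chi q (Z + X) = K.chi q Z + K.chi q X := by
  have hn : ∀ {M : Matrix t t A} (_ : EvM q q M) (_ : IsNilpotent M) (b : Bool),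
      IsNilpotent (sblk q q b b M) := by
    rintro M hM ⟨j, hj⟩ b
    exact ⟨j, by rw [← sblk_pow hM, hj, sblk_zero]⟩
  have hm : ∀ b, sblk q q b b Z * sblk q q b b X = 0 := by
    intro b
    rw [← sblk_mul (q' := q) (b' := b) Z X fun i k h hb => by rw [← hZe i k h, hb], h, sblk_zero]
  unfold chi
  rw [sblk_add, sblk_add, K.add _ _ (hn hZe hZ _) (hn hXe hX _) (hm _),
    K.add _ _ (hn hZe hZ _) (hn hXe hX _) (hm _)]
  abel

/-- null-homotopic nilpotent chain maps have trivial class -/
theorem chi_null {t : Type} [Fintype t] [DecidableEq t] {q : t → Bool} (D E : Matrix t t A)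
    (hD : OdM q q D) (hE : OdM q q E) (hDD : D * D = 0) (hn : IsNilpotent (E * D + D * E)) :
    K.chi q (E * D + D * E) = 0 := by
  obtain ⟨m, hm⟩ := hn
  have hZX : (E * D) * (D * E) = 0 := by
    rw [Matrix.mul_assoc, ← Matrix.mul_assoc D D E, hDD, Matrix.zero_mul, Matrix.mul_zero]
  have hZ : ∀ j, (E * D) * (E * D + D * E) ^ j = (E * D) ^ (j + 1) := by
    intro j
    induction j with
    | zero => rw [pow_zero, Matrix.mul_one, zero_add, pow_one]
    | succ j ih =>
      rw [pow_succ, ← Matrix.mul_assoc, ih, Matrix.mul_add, pow_succ (E * D) (j + 1),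
        pow_succ (E * D) j, Matrix.mul_assoc _ (E * D) (D * E), hZX, Matrix.mul_zero, add_zero]
  have hX : ∀ j, (E * D + D * E) ^ j * (D * E) = (D * E) ^ (j + 1) := by
    intro j
    induction j with
    | zero => rw [pow_zero, Matrix.one_mul, zero_add, pow_one]
    | succ j ih =>
      rw [pow_succ', Matrix.mul_assoc, ih, Matrix.add_mul, pow_succ' (D * E) (j + 1),
        pow_succ' (D * E) j, ← Matrix.mul_assoc (E * D) (D * E), hZX, Matrix.zero_mul, zero_add]
  rw [K.chi_add _ _ (hE.mul hD) (hD.mul hE) ⟨m + 1, by rw [← hZ, hm, Matrix.mul_zero]⟩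
    ⟨m + 1, by rw [← hX, hm, Matrix.zero_mul]⟩ hZX, K.chi_comm_odd E D hE hD, neg_add_cancel]

/-- a matrix on an even index set -/
theorem chi_true {t : Type} [Fintype t] [DecidableEq t] {q : t → Bool} (hq : ∀ i, q i = true)
    (M : Matrix t t A) : K.chi q M = K.k M := by
  unfold chi
  have : IsEmpty {i // q i = false} := ⟨fun i => by
    have := i.2
    rw [hq] at this
    exact absurd this (by decide)⟩
  rw [K.of_isEmpty (sblk q q false false M), sub_zero]
  exact K.submatrix (Equiv.subtypeUnivEquiv hq) M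

end KF

end Chi

end Pool.Agent.Lib.MP_c052b4_al
end

section

/-!
# Complexes of free modules, resolving submodules, lifting lemmas

A complex is a finite index set `t` with degrees `deg : t → ℕ` and a matrix `D` of degree `-1` with
`D * D = 0` (row vectors, `x ↦ x D`).
-/

set_option autoImplicit false
set_option linter.unusedSectionVars false

namespace Pool.Agent.Lib.MP_c052b4_al

open Matrix

universe u v w

/-- the part of degree `k` of a vector -/
def prt {A : Type u} [Ring A] {t : Type*} (deg : t → ℕ) (k : ℕ) (x : t → A) : t → A :=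
  fun i => if deg i = k then x i else 0

section Prt

variable {A : Type u} [Ring A] {t : Type*} {deg : t → ℕ}

theorem prt_add (k : ℕ) (x y : t → A) : prt deg k (x + y) = prt deg k x + prt deg k y := by
  funext i
  simp only [prt, Pi.add_apply]
  split_ifs <;> simp

theorem prt_sub (k : ℕ) (x y : t → A) : prt deg k (x - y) = prt deg k x - prt deg k y := by
  funext i
  simp only [prt, Pi.sub_apply]
  split_ifs <;> simp

theorem prt_zero (k : ℕ) : prt deg k (0 : t → A) = 0 := by
  funext i
  simp [prt]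

theorem prt_prt (k : ℕ) (x : t → A) : prt deg k (prt deg k x) = prt deg k x := by
  funext i
  simp only [prt]
  split_ifs <;> rfl

/-- the matrix `M` lowers the degree by `c` -/
def Low {t' : Type*} (deg : t → ℕ) (deg' : t' → ℕ) (c : ℕ) (M : Matrix t t' A) : Prop :=
  ∀ i j, M i j ≠ 0 → deg i = deg' j + c

/-- the matrix `M` raises the degree by one -/
def Hi {t' : Type*} (deg : t → ℕ) (deg' : t' → ℕ) (M : Matrix t t' A) : Prop :=
  ∀ i j, M i j ≠ 0 → deg' j = deg i + 1

theorem prt_vecMul {t' : Type*} [Fintype t] {deg' : t' → ℕ} {c : ℕ} {M : Matrix t t' A}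
    (hM : Low deg deg' c M) (k : ℕ) (x : t → A) :
    prt deg' k (x ᵥ* M) = prt deg (k + c) x ᵥ* M := by
  funext j
  simp only [prt, Matrix.vecMul, dotProduct]
  by_cases hj : deg' j = k
  · rw [if_pos hj]
    refine Finset.sum_congr rfl fun i _ => ?_
    by_cases h : M i j = 0
    · rw [h, mul_zero, mul_zero]
    · rw [if_pos (by rw [hM i j h, hj])]
  · rw [if_neg hj]
    symm
    refine Finset.sum_eq_zero fun i _ => ?_
    by_cases h : M i j = 0
    · rw [h, mul_zero]
    · rw [if_neg fun h' => hj (by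
        have := hM i j h
        omega), zero_mul]

theorem vecMul_prt_eq_zero {t' : Type*} [Fintype t] {deg' : t' → ℕ} {c : ℕ} {M : Matrix t t' A}
    (hM : Low deg deg' c M) {k : ℕ} (hk : k < c) (x : t → A) : prt deg k x ᵥ* M = 0 := by
  funext j
  simp only [prt, Matrix.vecMul, dotProduct, Pi.zero_apply]
  refine Finset.sum_eq_zero fun i _ => ?_
  by_cases h : M i j = 0
  · rw [h, mul_zero]
  · rw [if_neg fun h' => by
      have := hM i j h
      omega, zero_mul]

/-- a vector of degree `k` -/
theorem prt_self {k : ℕ} {x : t → A} (h : ∀ i, x i ≠ 0 → deg i = k) : prt deg k x = x := by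
  funext i
  simp only [prt]
  split_ifs with hi
  · rfl
  · by_contra hne
    exact hi (h i (Ne.symm hne))

theorem deg_of_prt {k : ℕ} {x : t → A} {i : t} (h : prt deg k x i ≠ 0) : deg i = k := by
  by_contra hne
  exact h (if_neg hne)

theorem row_vecMul {t' t'' : Type*} [Fintype t] (M : Matrix t' t A) (N : Matrix t t'' A)
    (i : t') : (M * N) i = M i ᵥ* N := rfl

end Prt

/-- finite complexes of finitely generated free modules -/
structure DM (A : Type u) [Ring A] where
  t : Type
  [ft : Fintype t]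
  [dt : DecidableEq t]
  deg : t → ℕ
  D : Matrix t t A
  hD : Low deg deg 1 D
  sq : D * D = 0

attribute [instance] DM.ft DM.dt

section Lifts

variable {A : Type u} [Ring A] {κ : Type*}

/-- a resolving submodule of the complex `Y` with augmentation `π` -/
structure Rz (Y : DM A) (π : Matrix Y.t κ A) (J : Submodule A (Y.t → A)) : Prop where
  p0 : ∀ i, Y.deg i ≠ 0 → π i = 0
  Dp : Y.D * π = 0
  gr : ∀ x ∈ J, ∀ k, prt Y.deg k x ∈ J
  st : ∀ x ∈ J, x ᵥ* Y.D ∈ J
  ex : ∀ x ∈ J, x ᵥ* Y.D = 0 → x ᵥ* π = 0 → ∃ y ∈ J, y ᵥ* Y.D = x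

theorem Rz.vecMul_pos {Y : DM A} {π : Matrix Y.t κ A} {J : Submodule A (Y.t → A)}
    (h : Rz Y π J) {x : Y.t → A} (hx : ∀ i, x i ≠ 0 → Y.deg i ≠ 0) : x ᵥ* π = 0 := by
  funext j
  simp only [Matrix.vecMul, dotProduct, Pi.zero_apply]
  refine Finset.sum_eq_zero fun i _ => ?_
  by_cases hi : x i = 0
  · rw [hi, zero_mul]
  · rw [h.p0 i (hx i hi)]
    simp

theorem Rz.prt_zero_vecMul {Y : DM A} {π : Matrix Y.t κ A} {J : Submodule A (Y.t → A)}
    (h : Rz Y π J) (x : Y.t → A) : prt Y.deg 0 x ᵥ* π = x ᵥ* π := by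
  have : (x - prt Y.deg 0 x) ᵥ* π = 0 := h.vecMul_pos fun i hi hd => hi (by
    simp [prt, hd])
  rw [Matrix.sub_vecMul, sub_eq_zero] at this
  exact this.symm

theorem Rz.ex_deg {Y : DM A} {π : Matrix Y.t κ A} {J : Submodule A (Y.t → A)}
    (h : Rz Y π J) {x : Y.t → A} {n : ℕ} (hx : x ∈ J) (hn : ∀ i, x i ≠ 0 → Y.deg i = n)
    (h1 : x ᵥ* Y.D = 0) (h2 : x ᵥ* π = 0) :
    ∃ y ∈ J, y ᵥ* Y.D = x ∧ ∀ i, y i ≠ 0 → Y.deg i = n + 1 := by
  obtain ⟨y, hy, hyx⟩ := h.ex x hx h1 h2
  refine ⟨prt Y.deg (n + 1) y, h.gr y hy _, ?_, fun i hi => deg_of_prt hi⟩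
  rw [← prt_vecMul Y.hD, hyx, prt_self hn]

/-- the row condition for lifts -/
def LRow {s : Type} [Fintype s] (degs : s → ℕ) (Ds : Matrix s s A) (Y : DM A)
    (π : Matrix Y.t κ A) (J : Submodule A (Y.t → A)) (c : ℕ) (ε : ℤˣ) (f : Matrix s κ A)
    (K : Matrix s Y.t A) (i : s) : Prop :=
  K i ∈ J ∧ (∀ j, K i j ≠ 0 → degs i = Y.deg j + c) ∧ K i ᵥ* Y.D = ((ε : ℤ) • (Ds i ᵥ* K)) ∧
    K i ᵥ* π = f i

theorem dm_exists_lift {s : Type} [Fintype s] (degs : s → ℕ) (Ds : Matrix s s A)
    (hDs : Low degs degs 1 Ds) (hsq : Ds * Ds = 0) (Y : DM A) (π : Matrix Y.t κ A)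
    (J : Submodule A (Y.t → A)) (hJ : Rz Y π J) (c : ℕ) (ε : ℤˣ) (f : Matrix s κ A)
    (hf0 : ∀ i, degs i ≠ c → f i = 0) (hf : ∀ i, ∃ x ∈ J, x ᵥ* π = f i) (hDf : Ds * f = 0) :
    ∃ K : Matrix s Y.t A, (∀ i, K i ∈ J) ∧ Low degs Y.deg c K ∧ K * Y.D = (ε : ℤ) • (Ds * K) ∧
      K * π = f := by
  suffices H : ∀ n : ℕ, ∃ K : Matrix s Y.t A, ∀ i, degs i < n →
      LRow degs Ds Y π J c ε f K i by
    obtain ⟨n, hn⟩ : ∃ n : ℕ, ∀ i, degs i < n :=
      ⟨Finset.univ.sup degs + 1, fun i => Nat.lt_succ_of_le (Finset.le_sup (Finset.mem_univ i))⟩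
    obtain ⟨K, hK⟩ := H n
    refine ⟨K, fun i => (hK i (hn i)).1, fun i j h => (hK i (hn i)).2.1 j h, ?_, ?_⟩
    · funext i
      exact (hK i (hn i)).2.2.1
    · funext i
      exact (hK i (hn i)).2.2.2
  intro n
  induction n with
  | zero => exact ⟨0, fun i hi => absurd hi (Nat.not_lt_zero _)⟩
  | succ n ih =>
    obtain ⟨K, hK⟩ := ih
    have hrow : ∀ i, degs i = n → ∀ j, Ds i j ≠ 0 → degs j < n := fun i hi j hj => by
      have := hDs i j hj
      omega
    have key : ∀ i, degs i = n → ∃ w : Y.t → A, w ∈ J ∧ (∀ j, w j ≠ 0 → degs i = Y.deg j + c) ∧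
        w ᵥ* Y.D = (ε : ℤ) • (Ds i ᵥ* K) ∧ w ᵥ* π = f i := by
      intro i hi
      rcases lt_trichotomy (degs i) c with hlt | heq | hgt
      · refine ⟨0, Submodule.zero_mem _, fun j hj => absurd rfl hj, ?_, ?_⟩
        · rw [Matrix.zero_vecMul]
          symm
          have : Ds i ᵥ* K = 0 := by
            funext j
            simp only [Matrix.vecMul, dotProduct, Pi.zero_apply]
            refine Finset.sum_eq_zero fun x _ => ?_
            by_cases hx : Ds i x = 0
            · rw [hx, zero_mul]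
            · have h1 := hrow i hi x hx
              have h2 : K x j = 0 := by
                by_contra hne
                have := (hK x h1).2.1 j hne
                omega
              rw [h2, mul_zero]
          rw [this, smul_zero]
        · rw [Matrix.zero_vecMul, hf0 i (by omega)]
      · obtain ⟨x, hx, hxf⟩ := hf i
        refine ⟨prt Y.deg 0 x, hJ.gr x hx 0, fun j hj => by rw [heq, deg_of_prt hj, zero_add], ?_,
          ?_⟩
        · rw [vecMul_prt_eq_zero Y.hD (by omega)]
          symm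
          have : Ds i ᵥ* K = 0 := by
            funext j
            simp only [Matrix.vecMul, dotProduct, Pi.zero_apply]
            refine Finset.sum_eq_zero fun x _ => ?_
            by_cases hx : Ds i x = 0
            · rw [hx, zero_mul]
            · have h1 := hrow i hi x hx
              have h2 : K x j = 0 := by
                by_contra hne
                have := (hK x h1).2.1 j hne
                omega
              rw [h2, mul_zero]
          rw [this, smul_zero]
        · rw [hJ.prt_zero_vecMul, hxf]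
      · have hu1 : (ε : ℤ) • (Ds i ᵥ* K) ∈ J := by
          refine zsmul_mem ?_ _
          have : Ds i ᵥ* K = ∑ x, Ds i x • K x := by
            funext j
            simp [Matrix.vecMul, dotProduct, Finset.sum_apply]
          rw [this]
          refine Submodule.sum_mem _ fun x _ => ?_
          by_cases hx : Ds i x = 0
          · rw [hx, zero_smul]
            exact Submodule.zero_mem _
          · exact Submodule.smul_mem _ _ (hK x (hrow i hi x hx)).1
        have hu2 : ∀ j, ((ε : ℤ) • (Ds i ᵥ* K)) j ≠ 0 → Y.deg j = degs i - c - 1 := by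
          intro j hj
          have hj' : (Ds i ᵥ* K) j ≠ 0 := fun h => hj (by rw [Pi.smul_apply, h, smul_zero])
          obtain ⟨x, h1, h2⟩ := mul_ne_zero' (f := Ds) (g := K) (i := i) (k := j) hj'
          have h3 := hDs i x h1
          have h4 := (hK x (hrow i hi x h1)).2.1 j h2
          omega
        have hu3 : ((ε : ℤ) • (Ds i ᵥ* K)) ᵥ* Y.D = 0 := by
          rw [Matrix.smul_vecMul]
          have h1 : (Ds i ᵥ* K) ᵥ* Y.D = (ε : ℤ) • ((Ds i ᵥ* Ds) ᵥ* K) := by
            rw [Matrix.vecMul_vecMul]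
            funext j
            simp only [Matrix.vecMul_vecMul, Matrix.vecMul, dotProduct, Pi.smul_apply,
              Finset.smul_sum]
            refine Finset.sum_congr rfl fun x _ => ?_
            by_cases hx : Ds i x = 0
            · rw [hx, zero_mul, zero_mul, smul_zero]
            · have := congrFun (hK x (hrow i hi x hx)).2.2.1 j
              change Ds i x * (K x ᵥ* Y.D) j = _
              rw [this, Pi.smul_apply, mul_smul_comm]
              rfl
          have h2 : Ds i ᵥ* Ds = 0 := congrFun hsq i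
          rw [h1, h2, Matrix.zero_vecMul, smul_zero, smul_zero]
        have hu4 : ((ε : ℤ) • (Ds i ᵥ* K)) ᵥ* π = 0 := by
          rw [Matrix.smul_vecMul, Matrix.vecMul_vecMul]
          have h1 : Ds i ᵥ* (K * π) = Ds i ᵥ* f := by
            funext j
            simp only [Matrix.vecMul, dotProduct]
            refine Finset.sum_congr rfl fun x _ => ?_
            by_cases hx : Ds i x = 0
            · rw [hx, zero_mul, zero_mul]
            · have := congrFun (hK x (hrow i hi x hx)).2.2.2 j
              congr 1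
          have h2 : Ds i ᵥ* f = 0 := congrFun hDf i
          rw [h1, h2, smul_zero]
        obtain ⟨y, hy1, hy2, hy3⟩ := hJ.ex_deg hu1 hu2 hu3 hu4
        refine ⟨y, hy1, fun j hj => ?_, hy2, ?_⟩
        · have := hy3 j hj
          omega
        · rw [hJ.vecMul_pos fun j hj => by rw [hy3 j hj]; omega, hf0 i (by omega)]
    choose! w hw using key
    let K' : Matrix s Y.t A := fun i => if degs i = n then w i else K i
    have hK' : ∀ i, (∀ j, Ds i j ≠ 0 → degs j < n) → Ds i ᵥ* K' = Ds i ᵥ* K := by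
      intro i hi
      funext j
      simp only [Matrix.vecMul, dotProduct]
      refine Finset.sum_congr rfl fun x _ => ?_
      by_cases hx : Ds i x = 0
      · rw [hx, zero_mul, zero_mul]
      · have : K' x = K x := if_neg (by have := hi x hx; omega)
        rw [this]
    refine ⟨K', fun i hi => ?_⟩
    by_cases hin : degs i = n
    · have h1 : K' i = w i := if_pos hin
      obtain ⟨w1, w2, w3, w4⟩ := hw i hin
      refine ⟨by rw [h1]; exact w1, fun j hj => w2 j (by rw [h1] at hj; exact hj), ?_,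
        by rw [h1]; exact w4⟩
      rw [h1, hK' i (hrow i hin)]
      exact w3
    · have h1 : K' i = K i := if_neg hin
      obtain ⟨w1, w2, w3, w4⟩ := hK i (by omega)
      refine ⟨by rw [h1]; exact w1, fun j hj => w2 j (by rw [h1] at hj; exact hj), ?_,
        by rw [h1]; exact w4⟩
      rw [h1, hK' i fun j hj => by
        have := hDs i j hj
        omega]
      exact w3

/-- the row condition for null-homotopies -/
def NRow {s : Type} [Fintype s] (degs : s → ℕ) (Ds : Matrix s s A) (Y : DM A)
    (J : Submodule A (Y.t → A)) (K : Matrix s Y.t A) (E : Matrix s Y.t A) (i : s) : Prop :=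
  E i ∈ J ∧ (∀ j, E i j ≠ 0 → Y.deg j = degs i + 1) ∧ E i ᵥ* Y.D + Ds i ᵥ* E = K i

theorem dm_exists_null {s : Type} [Fintype s] (degs : s → ℕ) (Ds : Matrix s s A)
    (hDs : Low degs degs 1 Ds) (hsq : Ds * Ds = 0) (Y : DM A) (π : Matrix Y.t κ A)
    (J : Submodule A (Y.t → A)) (hJ : Rz Y π J) (K : Matrix s Y.t A) (hKJ : ∀ i, K i ∈ J)
    (hK0 : Low degs Y.deg 0 K) (hKD : K * Y.D = Ds * K) (hKπ : K * π = 0) :
    ∃ E : Matrix s Y.t A, (∀ i, E i ∈ J) ∧ Hi degs Y.deg E ∧ E * Y.D + Ds * E = K := by
  suffices H : ∀ n : ℕ, ∃ E : Matrix s Y.t A, ∀ i, degs i < n → NRow degs Ds Y J K E i by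
    obtain ⟨n, hn⟩ : ∃ n : ℕ, ∀ i, degs i < n :=
      ⟨Finset.univ.sup degs + 1, fun i => Nat.lt_succ_of_le (Finset.le_sup (Finset.mem_univ i))⟩
    obtain ⟨E, hE⟩ := H n
    refine ⟨E, fun i => (hE i (hn i)).1, fun i j h => (hE i (hn i)).2.1 j h, ?_⟩
    funext i
    exact (hE i (hn i)).2.2
  intro n
  induction n with
  | zero => exact ⟨0, fun i hi => absurd hi (Nat.not_lt_zero _)⟩
  | succ n ih =>
    obtain ⟨E, hE⟩ := ih
    have hrow : ∀ i, degs i = n → ∀ j, Ds i j ≠ 0 → degs j < n := fun i hi j hj => by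
      have := hDs i j hj
      omega
    have key : ∀ i, degs i = n → ∃ w : Y.t → A, w ∈ J ∧ (∀ j, w j ≠ 0 → Y.deg j = degs i + 1) ∧
        w ᵥ* Y.D + Ds i ᵥ* E = K i := by
      intro i hi
      have hu1 : K i - Ds i ᵥ* E ∈ J := by
        refine Submodule.sub_mem _ (hKJ i) ?_
        have : Ds i ᵥ* E = ∑ x, Ds i x • E x := by
          funext j
          simp [Matrix.vecMul, dotProduct, Finset.sum_apply]
        rw [this]
        refine Submodule.sum_mem _ fun x _ => ?_
        by_cases hx : Ds i x = 0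
        · rw [hx, zero_smul]
          exact Submodule.zero_mem _
        · exact Submodule.smul_mem _ _ (hE x (hrow i hi x hx)).1
      have hu2 : ∀ j, (K i - Ds i ᵥ* E) j ≠ 0 → Y.deg j = degs i := by
        intro j hj
        by_cases h0 : K i j = 0
        · have hj' : (Ds i ᵥ* E) j ≠ 0 := fun h => hj (by
            rw [Pi.sub_apply, h, h0, sub_zero])
          obtain ⟨x, h1, h2⟩ := mul_ne_zero' (f := Ds) (g := E) (i := i) (k := j) hj'
          have h3 := hDs i x h1
          have h4 := (hE x (hrow i hi x h1)).2.1 j h2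
          omega
        · have := hK0 i j h0
          omega
      have hu3 : (K i - Ds i ᵥ* E) ᵥ* Y.D = 0 := by
        rw [Matrix.sub_vecMul, sub_eq_zero]
        have h1 : (Ds i ᵥ* E) ᵥ* Y.D = Ds i ᵥ* K - (Ds i ᵥ* Ds) ᵥ* E := by
          rw [Matrix.vecMul_vecMul]
          funext j
          simp only [Matrix.vecMul_vecMul, Matrix.vecMul, dotProduct, Pi.sub_apply,
            ← Finset.sum_sub_distrib]
          refine Finset.sum_congr rfl fun x _ => ?_
          by_cases hx : Ds i x = 0
          · rw [hx, zero_mul, zero_mul, zero_mul, sub_zero]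
          · have := congrFun (hE x (hrow i hi x hx)).2.2 j
            rw [Pi.add_apply] at this
            change Ds i x * (E x ᵥ* Y.D) j = Ds i x * K x j - Ds i x * (Ds x ᵥ* E) j
            rw [← this, mul_add, add_sub_cancel_right]
        have h2 : Ds i ᵥ* Ds = 0 := congrFun hsq i
        rw [h1, h2, Matrix.zero_vecMul, sub_zero]
        exact congrFun hKD i
      have hu4 : (K i - Ds i ᵥ* E) ᵥ* π = 0 := by
        rw [Matrix.sub_vecMul, Matrix.vecMul_vecMul]
        have h1 : Ds i ᵥ* (E * π) = 0 := by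
          funext j
          simp only [Matrix.vecMul, dotProduct, Pi.zero_apply]
          refine Finset.sum_eq_zero fun x _ => ?_
          by_cases hx : Ds i x = 0
          · rw [hx, zero_mul]
          · have h2 : E x ᵥ* π = 0 := hJ.vecMul_pos fun j hj => by
              rw [(hE x (hrow i hi x hx)).2.1 j hj]
              omega
            have := congrFun h2 j
            change Ds i x * (E x ᵥ* π) j = 0
            rw [this, Pi.zero_apply, mul_zero]
        have h2 : K i ᵥ* π = 0 := congrFun hKπ i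
        rw [h1, h2, sub_zero]
      obtain ⟨y, hy1, hy2, hy3⟩ := hJ.ex_deg hu1 hu2 hu3 hu4
      exact ⟨y, hy1, hy3, by rw [hy2, sub_add_cancel]⟩
    choose! w hw using key
    let E' : Matrix s Y.t A := fun i => if degs i = n then w i else E i
    have hE' : ∀ i, (∀ j, Ds i j ≠ 0 → degs j < n) → Ds i ᵥ* E' = Ds i ᵥ* E := by
      intro i hi
      funext j
      simp only [Matrix.vecMul, dotProduct]
      refine Finset.sum_congr rfl fun x _ => ?_
      by_cases hx : Ds i x = 0
      · rw [hx, zero_mul, zero_mul]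
      · have : E' x = E x := if_neg (by have := hi x hx; omega)
        rw [this]
    refine ⟨E', fun i hi => ?_⟩
    by_cases hin : degs i = n
    · have h1 : E' i = w i := if_pos hin
      obtain ⟨w1, w2, w3⟩ := hw i hin
      refine ⟨by rw [h1]; exact w1, fun j hj => w2 j (by rw [h1] at hj; exact hj), ?_⟩
      rw [h1, hE' i (hrow i hin)]
      exact w3
    · have h1 : E' i = E i := if_neg hin
      obtain ⟨w1, w2, w3⟩ := hE i (by omega)
      refine ⟨by rw [h1]; exact w1, fun j hj => w2 j (by rw [h1] at hj; exact hj), ?_⟩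
      rw [h1, hE' i fun j hj => by
        have := hDs i j hj
        omega]
      exact w3

end Lifts

end Pool.Agent.Lib.MP_c052b4_al
end

section

/-!
# Higman's linearization
-/

set_option autoImplicit false
set_option linter.unusedSectionVars false

namespace Pool.Agent.Lib.MP_c052b4_al

open Matrix

universe u v w

section Lin

variable {S : Type u} [Ring S]

/-- sums of products of `k + 1` elements of `T` -/
def pw (T : AddSubgroup S) : ℕ → AddSubgroup S
  | 0 => T
  | k + 1 => AddSubgroup.closure {z | ∃ x ∈ pw T k, ∃ y ∈ T, z = x * y}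

variable {T : AddSubgroup S}

theorem mul_mem_pw {k : ℕ} {x y : S} (hx : x ∈ pw T k) (hy : y ∈ T) : x * y ∈ pw T (k + 1) :=
  AddSubgroup.subset_closure ⟨x, hx, y, hy, rfl⟩

theorem pw_succ_le (h1 : (1 : S) ∈ T) (k : ℕ) : pw T k ≤ pw T (k + 1) := by
  intro x hx
  have := mul_mem_pw hx h1
  rwa [mul_one] at this

theorem pw_mono (h1 : (1 : S) ∈ T) : Monotone (pw T) :=
  monotone_nat_of_le_succ (pw_succ_le h1)

theorem le_pw (h1 : (1 : S) ∈ T) (k : ℕ) : T ≤ pw T k := pw_mono h1 (Nat.zero_le k)

theorem mul_mem_pw_add {k l : ℕ} {x y : S} (hx : x ∈ pw T k) (hy : y ∈ pw T l) :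
    x * y ∈ pw T (k + l + 1) := by
  induction l generalizing y with
  | zero => exact mul_mem_pw hx hy
  | succ l ih =>
    induction hy using AddSubgroup.closure_induction with
    | mem z hz =>
      obtain ⟨a, ha, b, hb, rfl⟩ := hz
      rw [← mul_assoc]
      exact mul_mem_pw (ih ha) hb
    | zero => rw [mul_zero]; exact AddSubgroup.zero_mem _
    | add a b _ _ ha hb => rw [mul_add]; exact AddSubgroup.add_mem _ ha hb
    | neg a _ ha => rw [mul_neg]; exact AddSubgroup.neg_mem _ ha

theorem exists_mem_pw (h1 : (1 : S) ∈ T) {x : S} (hx : x ∈ Subring.closure (T : Set S)) :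
    ∃ k, x ∈ pw T k := by
  induction hx using Subring.closure_induction with
  | mem x hx => exact ⟨0, hx⟩
  | zero => exact ⟨0, AddSubgroup.zero_mem _⟩
  | one => exact ⟨0, h1⟩
  | add x y _ _ hx hy =>
    obtain ⟨k, hk⟩ := hx
    obtain ⟨l, hl⟩ := hy
    exact ⟨max k l, AddSubgroup.add_mem _ (pw_mono h1 (le_max_left _ _) hk)
      (pw_mono h1 (le_max_right _ _) hl)⟩
  | neg x _ hx =>
    obtain ⟨k, hk⟩ := hx
    exact ⟨k, AddSubgroup.neg_mem _ hk⟩
  | mul x y _ _ hx hy =>
    obtain ⟨k, hk⟩ := hx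
    obtain ⟨l, hl⟩ := hy
    exact ⟨_, mul_mem_pw_add hk hl⟩

theorem exists_sum {k : ℕ} {z : S} (hz : z ∈ pw T (k + 1)) :
    ∃ (κ : Type) (_ : Fintype κ) (_ : DecidableEq κ) (x y : κ → S), (∀ i, x i ∈ pw T k) ∧
      (∀ i, y i ∈ T) ∧ z = ∑ i, x i * y i := by
  induction hz using AddSubgroup.closure_induction with
  | mem z hz =>
    obtain ⟨a, ha, b, hb, rfl⟩ := hz
    exact ⟨Unit, inferInstance, inferInstance, fun _ => a, fun _ => b, fun _ => ha, fun _ => hb,
      by simp⟩
  | zero =>
    exact ⟨Empty, inferInstance, inferInstance, fun _ => 0, fun _ => 0,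
      fun i => i.elim, fun i => i.elim, by simp⟩
  | add a b _ _ ha hb =>
    obtain ⟨κ, i1, i2, x, y, hx, hy, rfl⟩ := ha
    obtain ⟨κ', i1', i2', x', y', hx', hy', rfl⟩ := hb
    refine ⟨κ ⊕ κ', inferInstance, inferInstance, Sum.elim x x', Sum.elim y y', ?_, ?_, ?_⟩
    · rintro (i | i)
      · exact hx i
      · exact hx' i
    · rintro (i | i)
      · exact hy i
      · exact hy' i
    · rw [Fintype.sum_sum_type]
      simp
  | neg a _ ha =>
    obtain ⟨κ, i1, i2, x, y, hx, hy, rfl⟩ := ha
    refine ⟨κ, i1, i2, fun i => - x i, y, fun i => AddSubgroup.neg_mem _ (hx i), hy, ?_⟩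
    rw [← Finset.sum_neg_distrib]
    exact Finset.sum_congr rfl fun i _ => (neg_mul _ _).symm

theorem exists_factor {m : Type} [Fintype m] [DecidableEq m] {k : ℕ} {A : Matrix m m S}
    (hA : ∀ i j, A i j ∈ pw T (k + 1)) :
    ∃ (κ : Type) (_ : Fintype κ) (_ : DecidableEq κ) (X : Matrix m κ S) (Y : Matrix κ m S),
      (∀ i j, X i j ∈ pw T k) ∧ (∀ i j, Y i j ∈ T) ∧ A = X * Y := by
  choose κ i1 i2 x y hx hy hxy using fun i j => exists_sum (hA i j)
  refine ⟨Σ p : m × m, κ p.1 p.2, inferInstance, inferInstance,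
    Matrix.of fun i s => if i = s.1.1 then x s.1.1 s.1.2 s.2 else 0,
    Matrix.of fun s j => if j = s.1.2 then y s.1.1 s.1.2 s.2 else 0, ?_, ?_, ?_⟩
  · intro i s
    rw [Matrix.of_apply]
    split_ifs
    · exact hx _ _ _
    · exact AddSubgroup.zero_mem _
  · intro s j
    rw [Matrix.of_apply]
    split_ifs
    · exact hy _ _ _
    · exact AddSubgroup.zero_mem _
  · refine Matrix.ext fun i j => ?_
    rw [Matrix.mul_apply, Fintype.sum_sigma, Fintype.sum_prod_type, Finset.sum_eq_single i,
      Finset.sum_eq_single j]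
    · rw [hxy i j]
      refine Finset.sum_congr rfl fun s _ => ?_
      simp
    · intro j' _ hj'
      refine Finset.sum_eq_zero fun s _ => ?_
      simp [Ne.symm hj']
    · intro h; exact absurd (Finset.mem_univ _) h
    · intro i' _ hi'
      refine Finset.sum_eq_zero fun j' _ => Finset.sum_eq_zero fun s _ => ?_
      simp [Ne.symm hi']
    · intro h; exact absurd (Finset.mem_univ _) h

/-- The class `z` is represented by an invertible matrix with entries in `T`. -/
def Lz (T : AddSubgroup S) (z : KOne S) : Prop :=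
  ∃ (n : ℕ) (A : (Matrix (Fin n) (Fin n) S)ˣ), (∀ i j, (A : Matrix (Fin n) (Fin n) S) i j ∈ T) ∧
    k1 A = z

theorem lz_of {m : Type*} [Fintype m] [DecidableEq m] (A : (Matrix m m S)ˣ)
    (hA : ∀ i j, (A : Matrix m m S) i j ∈ T) : Lz T (k1 A) := by
  refine ⟨Fintype.card m, rU (Fintype.equivFin m) A, ?_, k1_rU _ _⟩
  intro i j
  rw [coe_rU]
  exact hA _ _

theorem lz_step (h1 : (1 : S) ∈ T) {k : ℕ} {z : KOne S} (h : Lz (pw T (k + 1)) z) :
    Lz (pw T k) z := by
  obtain ⟨n, A, hA, rfl⟩ := h
  obtain ⟨κ, i1, i2, X, Y, hX, hY, hXY⟩ := exists_factor hA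
  let B : (Matrix (Fin n ⊕ κ) (Fin n ⊕ κ) S)ˣ := uU (-X) * bl A 1 * lU Y
  have hB : (B : Matrix (Fin n ⊕ κ) (Fin n ⊕ κ) S) = fromBlocks 0 (-X) Y 1 := by
    simp only [B, Units.val_mul, coe_uU, coe_lU, coe_bl, fromBlocks_multiply, hXY]
    simp
  have hk : k1 B = k1 A := by
    simp only [B]
    rw [k1_mul, k1_mul, k1_uU, k1_lU, k1_bl_one, zero_add, add_zero]
  rw [← hk]
  refine lz_of B ?_
  rw [hB]
  rintro (i | i) (j | j)
  · exact AddSubgroup.zero_mem _
  · exact AddSubgroup.neg_mem _ (hX i j)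
  · exact le_pw h1 k (hY i j)
  · change (1 : Matrix κ κ S) i j ∈ _
    rw [Matrix.one_apply]
    split_ifs
    · exact le_pw h1 k h1
    · exact AddSubgroup.zero_mem _

theorem lz_pw (h1 : (1 : S) ∈ T) {k : ℕ} {z : KOne S} (h : Lz (pw T k) z) : Lz T z := by
  induction k with
  | zero => exact h
  | succ k ih => exact ih (lz_step h1 h)

/-- **Higman's linearization.** -/
theorem lz_of_closure (h1 : (1 : S) ∈ T) {m : Type*} [Fintype m] [DecidableEq m]
    (A : (Matrix m m S)ˣ) (hA : ∀ i j, (A : Matrix m m S) i j ∈ Subring.closure (T : Set S)) :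
    Lz T (k1 A) := by
  choose k hk using fun i j => exists_mem_pw h1 (hA i j)
  refine lz_pw h1 (k := Finset.univ.sup fun i => Finset.univ.sup fun j => k i j) (lz_of A ?_)
  intro i j
  refine pw_mono h1 ?_ (hk i j)
  exact (Finset.le_sup (f := fun j => k i j) (Finset.mem_univ j)).trans
    (Finset.le_sup (f := fun i => Finset.univ.sup fun j => k i j) (Finset.mem_univ i))

/-- scalar matrices -/
noncomputable def sU (m : Type*) [Fintype m] [DecidableEq m] (s : Sˣ) : (Matrix m m S)ˣ :=
  Units.map (Matrix.scalar m : S →+* Matrix m m S).toMonoidHom s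

theorem coe_sU (m : Type*) [Fintype m] [DecidableEq m] (s : Sˣ) :
    ((sU m s : (Matrix m m S)ˣ) : Matrix m m S) = (s : S) • (1 : Matrix m m S) := by
  change Matrix.scalar m (s : S) = _
  refine Matrix.ext fun i j => ?_
  rw [Matrix.scalar_apply, Matrix.smul_apply, Matrix.diagonal_apply, Matrix.one_apply]
  split_ifs <;> simp

/-- removing inverses -/
theorem lz_inv {T0 : AddSubgroup S} (hT : T0 ≤ T) (h1 : (1 : S) ∈ T) (s : Sˣ) (hs : (s : S) ∈ T)
    {T' : AddSubgroup S} (hT' : ∀ a ∈ T', ∃ b ∈ T, ∃ c ∈ T0, a = b + ((s⁻¹ : Sˣ) : S) * c)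
    {z : KOne S} (h : Lz T' z) : ∃ n : ℕ, Lz T (z + k1 (sU (Fin n) s)) := by
  obtain ⟨n, A, hA, rfl⟩ := h
  choose b hb c hc habc using fun i j => hT' _ (hA i j)
  refine ⟨n, ?_⟩
  let X : Matrix (Fin n) (Fin n) S := - (((s⁻¹ : Sˣ) : S) • 1)
  let Y : Matrix (Fin n) (Fin n) S := - (((s⁻¹ : Sˣ) : S) • Matrix.of c)
  let B : (Matrix (Fin n ⊕ Fin n) (Fin n ⊕ Fin n) S)ˣ := uU X * bl A (sU (Fin n) s) * lU (-Y)
  have hk : k1 B = k1 A + k1 (sU (Fin n) s) := by
    simp only [B]
    rw [k1_mul, k1_mul, k1_uU, k1_lU, k1_bl, zero_add, add_zero]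
  have hA' : (A : Matrix (Fin n) (Fin n) S) = Matrix.of b + ((s⁻¹ : Sˣ) : S) • Matrix.of c := by
    refine Matrix.ext fun i j => ?_
    exact habc i j
  have hB : (B : Matrix (Fin n ⊕ Fin n) (Fin n ⊕ Fin n) S) =
      fromBlocks (Matrix.of b) (-1) (Matrix.of c) ((s : S) • 1) := by
    have e1 : X * ((s : S) • (1 : Matrix (Fin n) (Fin n) S)) = -1 := by
      simp only [X]
      rw [Matrix.neg_mul, Matrix.smul_mul, Matrix.one_mul, smul_smul, Units.inv_mul, one_smul]
    have e2 : ((s : S) • (1 : Matrix (Fin n) (Fin n) S)) * -Y = Matrix.of c := by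
      simp only [Y]
      rw [neg_neg, Matrix.smul_mul, Matrix.one_mul, smul_smul, Units.mul_inv, one_smul]
    simp only [B, Units.val_mul, coe_uU, coe_lU, coe_bl, coe_sU, fromBlocks_multiply,
      Matrix.one_mul, Matrix.mul_zero, Matrix.mul_one, Matrix.zero_mul, add_zero, zero_add, e1]
    rw [e2, hA']
    congr 1
    simp only [Y]
    rw [neg_neg, Matrix.neg_mul, Matrix.one_mul]
    abel
  rw [← hk]
  refine lz_of B ?_
  rw [hB]
  rintro (i | i) (j | j)
  · exact hb i j
  · change (-1 : Matrix (Fin n) (Fin n) S) i j ∈ _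
    rw [Matrix.neg_apply, Matrix.one_apply]
    split_ifs
    · exact AddSubgroup.neg_mem _ h1
    · exact AddSubgroup.neg_mem _ (AddSubgroup.zero_mem _)
  · exact hT (hc i j)
  · change ((s : S) • (1 : Matrix (Fin n) (Fin n) S)) i j ∈ _
    rw [Matrix.smul_apply, Matrix.one_apply]
    split_ifs
    · rw [smul_eq_mul, mul_one]; exact hs
    · rw [smul_zero]; exact AddSubgroup.zero_mem _

end Lin

end Pool.Agent.Lib.MP_c052b4_al
end
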