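import Pool.Agent.Lib.MP_c052b4_al.Mg.G072
import Pool.Agent.Lib.MP_c052b4_al.HNN

section

/-!
# Free letters: the filtration
-/

set_option autoImplicit false
set_option linter.unusedSectionVars false

namespace Pool.Agent.Lib.MP_c052b4_al

open Matrix Kern

universe u v w

/-- A free letter `t` over the subgroup `H`: `X` (`Y`) is the set of elements whose normal form
starts with `t` (with `t⁻¹`). -/
structure Letter {Γ : Type v} [Group Γ] (H : Subgroup Γ) (t : Γ) where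
  /-- words starting with `t` -/
  X : Set Γ
  /-- words starting with `t⁻¹` -/
  Y : Set Γ
  /-- the number of letters `t`, `t⁻¹` -/
  len : Γ → ℕ
  Xr : ∀ γ, ∀ h ∈ H, (γ * h ∈ X ↔ γ ∈ X)
  Yr : ∀ γ, ∀ h ∈ H, (γ * h ∈ Y ↔ γ ∈ Y)
  oneX : (1 : Γ) ∉ X
  oneY : (1 : Γ) ∉ Y
  tX : ∀ γ, t * γ ∈ X ↔ γ ∉ Y
  tY : ∀ γ, t⁻¹ * γ ∈ Y ↔ γ ∉ X
  Xt : ∀ γ, γ ≠ 1 → (γ * t ∈ X ↔ γ ∈ X)
  Yt : ∀ γ, γ ≠ t⁻¹ → (γ * t ∈ Y ↔ γ ∈ Y)
  lenH : ∀ h ∈ H, ∀ γ, len (h * γ) = len γ
  lent : ∀ γ, γ ∉ Y → len (t * γ) = len γ + 1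
  lent' : ∀ γ, γ ∉ X → len (t⁻¹ * γ) = len γ + 1

/-- the data of an invertible matrix `1 + (t - 1) N` -/
structure LS (R : Type u) [Ring R] {Γ : Type v} [Group Γ] {H : Subgroup Γ} {t : Γ}
    (L : Letter H t) (n : ℕ) where
  /-- the matrix `N` -/
  N : Matrix (Fin n) (Fin n) (MonoidAlgebra R Γ)
  hN : SupM (H : Set Γ) N
  /-- the inverse matrix -/
  V : Matrix (Fin n) (Fin n) (MonoidAlgebra R Γ)
  UV : (MonoidAlgebra.single t (1 : R) • N + (1 - N)) * V = 1
  VU : V * (MonoidAlgebra.single t (1 : R) • N + (1 - N)) = 1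

namespace LS

variable {R : Type u} [Ring R] {Γ : Type v} [Group Γ] {H : Subgroup Γ} {t : Γ}
  {L : Letter H t} {n : ℕ} (D : LS R L n)

theorem _root_.Pool.Agent.Lib.MP_c052b4_al.Letter.Hx (L : Letter H t) {h : Γ} (hh : h ∈ H) :
    h ∉ L.X := by
  intro h1
  rw [← one_mul h, L.Xr 1 h hh] at h1
  exact L.oneX h1

theorem _root_.Pool.Agent.Lib.MP_c052b4_al.Letter.Hy (L : Letter H t) {h : Γ} (hh : h ∈ H) :
    h ∉ L.Y := by
  intro h1
  rw [← one_mul h, L.Yr 1 h hh] at h1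
  exact L.oneY h1

theorem _root_.Pool.Agent.Lib.MP_c052b4_al.Letter.tmem (L : Letter H t) : t⁻¹ ∈ L.Y := by
  have := (L.tY 1).2 L.oneX
  rwa [mul_one] at this

/-- the matrix `U` -/
noncomputable def U : Matrix (Fin n) (Fin n) (MonoidAlgebra R Γ) :=
  MonoidAlgebra.single t (1 : R) • D.N + (1 - D.N)

theorem U_mul_V : D.U * D.V = 1 := D.UV

theorem V_mul_U : D.V * D.U = 1 := D.VU

theorem hN' : SupM (H : Set Γ) (1 - D.N) := by
  intro i j
  refine Sup.sub ?_ (D.hN i j)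
  classical
  rw [Matrix.one_apply]
  split_ifs
  · exact sup_single (γ := 1) H.one_mem 1
  · exact sup_zero _

theorem kv_U (v : Fin n → R) : kv v ᵥ* D.U =
    MonoidAlgebra.single t (1 : R) • (kv v ᵥ* D.N) + kv v ᵥ* (1 - D.N) := by
  unfold U
  rw [Matrix.vecMul_add, kv_vecMul_smul]

theorem supM_U : SupM {y | y ∈ H ∨ t⁻¹ * y ∈ H} D.U := by
  intro i j
  refine Sup.add ?_ ?_
  · refine (Sup.mul (Y := {t}) (sup_single (Set.mem_singleton t) 1) (D.hN i j) ?_ :
      Sup _ (MonoidAlgebra.single t 1 * D.N i j))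
    rintro _ rfl z hz
    right
    rwa [inv_mul_cancel_left]
  · exact (D.hN' i j).mono fun y hy => Or.inl hy

theorem supV_U {S S' : Set Γ} {a : Fin n → MonoidAlgebra R Γ} (ha : SupV S a)
    (h1 : ∀ s ∈ S, ∀ h ∈ H, s * h ∈ S') (h2 : ∀ s ∈ S, ∀ h ∈ H, s * t * h ∈ S') :
    SupV S' (a ᵥ* D.U) := by
  refine ha.vecMul D.supM_U ?_
  rintro s hs y (hy | hy)
  · exact h1 s hs y hy
  · have := h2 s hs _ hy
    rwa [mul_assoc, mul_inv_cancel_left] at this

theorem vUV (a : Fin n → MonoidAlgebra R Γ) : (a ᵥ* D.U) ᵥ* D.V = a := by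
  rw [Matrix.vecMul_vecMul, D.U_mul_V, Matrix.vecMul_one]

/-- the first branch formula -/
theorem lx {a : Fin n → MonoidAlgebra R Γ} (ha : SupV (H : Set Γ) (a ᵥ* D.U)) {g : Γ}
    (hg : g ∈ H) : resV {γ | g⁻¹ * γ ∈ L.X} a =
      - (MonoidAlgebra.single (g * t) (1 : R) • (kv (cv g a) ᵥ* (D.N * D.V))) := by
  set S : Set Γ := {γ | g⁻¹ * γ ∈ L.X} with hS
  have hgS : g ∉ S := by
    intro h
    have h' : g⁻¹ * g ∈ L.X := h
    rw [inv_mul_cancel] at h'
    exact L.oneX h'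
  have hHS : ∀ γ ∈ (H : Set Γ), γ ∉ S := by
    intro γ hγ h
    exact L.Hx (H.mul_mem (H.inv_mem hg) hγ) h
  have h0 := congrArg (fun x => x ᵥ* D.U) (split_at hgS a)
  simp only [Matrix.add_vecMul, Matrix.smul_vecMul, kv_U, smul_add] at h0
  rw [smul_smul, MonoidAlgebra.single_mul_single, mul_one] at h0
  set P := resV S a ᵥ* D.U + MonoidAlgebra.single (g * t) (1 : R) • (kv (cv g a) ᵥ* D.N) with hP
  set Q := MonoidAlgebra.single g (1 : R) • (kv (cv g a) ᵥ* (1 - D.N)) +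
    resV {γ | γ ∉ S ∧ γ ≠ g} a ᵥ* D.U with hQ
  have hPQ : P = a ᵥ* D.U - Q := by
    rw [h0, hP, hQ]; abel
  have hPS : SupV S P := by
    refine SupV.add ?_ ?_
    · refine D.supV_U (supV_resV S a) ?_ ?_
      · intro s hs h hh
        have hs' : g⁻¹ * s ∈ L.X := hs
        change g⁻¹ * (s * h) ∈ L.X
        rwa [← mul_assoc, L.Xr _ h hh]
      · intro s hs h hh
        have hs' : g⁻¹ * s ∈ L.X := hs
        change g⁻¹ * (s * t * h) ∈ L.X
        rw [← mul_assoc, L.Xr _ h hh, ← mul_assoc, L.Xt]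
        · exact hs'
        · intro h1
          rw [h1] at hs'
          exact L.oneX hs'
    · have h1 : SupV (H : Set Γ) (kv (cv g a) ᵥ* D.N) :=
        (supV_kv (Z := {1}) rfl _).vecMul D.hN (by rintro _ rfl z hz; rwa [one_mul])
      refine h1.smul_single 1 ?_
      intro z hz
      change g⁻¹ * (g * t * z) ∈ L.X
      rw [mul_assoc g, inv_mul_cancel_left, L.tX]
      exact L.Hy hz
  have hQS : SupV Sᶜ Q := by
    refine SupV.add ?_ ?_
    · have h1 : SupV (H : Set Γ) (kv (cv g a) ᵥ* (1 - D.N)) :=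
        (supV_kv (Z := {1}) rfl _).vecMul D.hN' (by rintro _ rfl z hz; rwa [one_mul])
      refine h1.smul_single 1 ?_
      intro z hz
      exact hHS _ (H.mul_mem hg hz)
    · refine D.supV_U (supV_resV _ a) ?_ ?_
      · rintro s ⟨hs, hs'⟩ h hh h1
        apply hs
        have h2 : g⁻¹ * (s * h) ∈ L.X := h1
        rwa [← mul_assoc, L.Xr _ h hh] at h2
      · rintro s ⟨hs, hs'⟩ h hh h1
        apply hs
        have h2 : g⁻¹ * (s * t * h) ∈ L.X := h1
        rw [← mul_assoc, L.Xr _ h hh, ← mul_assoc, L.Xt] at h2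
        · exact h2
        · intro h3
          rw [inv_mul_eq_one] at h3
          exact hs' h3.symm
  have hP0 : P = 0 := by
    refine eq_zero_of_supV hPS (Z' := Sᶜ) ?_ (fun γ hγ h => h hγ)
    rw [hPQ]
    exact (ha.mono hHS).sub hQS
  have h2 := congrArg (fun x => x ᵥ* D.V) hP0
  rw [hP] at h2
  simp only [Matrix.add_vecMul, D.vUV, Matrix.smul_vecMul, Matrix.vecMul_vecMul,
    Matrix.zero_vecMul] at h2
  exact eq_neg_of_add_eq_zero_left h2

/-- the second branch formula -/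
theorem ly {a : Fin n → MonoidAlgebra R Γ} (ha : SupV (H : Set Γ) (a ᵥ* D.U)) {g : Γ}
    (hg : g ∈ H) : resV {γ | g⁻¹ * γ ∈ L.Y ∧ γ ≠ g * t⁻¹} a =
      - (MonoidAlgebra.single (g * t⁻¹) (1 : R) •
        (kv (cv (g * t⁻¹) a) ᵥ* ((1 - D.N) * D.V))) := by
  set S : Set Γ := {γ | g⁻¹ * γ ∈ L.Y ∧ γ ≠ g * t⁻¹} with hS
  set S1 : Set Γ := {γ | g⁻¹ * γ ∈ L.Y} with hS1
  have hgS : g * t⁻¹ ∉ S := fun h => h.2 rfl
  have hHS : ∀ γ ∈ (H : Set Γ), γ ∉ S1 := by
    intro γ hγ h
    exact L.Hy (H.mul_mem (H.inv_mem hg) hγ) h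
  have h0 := congrArg (fun x => x ᵥ* D.U) (split_at hgS a)
  simp only [Matrix.add_vecMul, Matrix.smul_vecMul, kv_U, smul_add] at h0
  rw [smul_smul, MonoidAlgebra.single_mul_single, mul_one, inv_mul_cancel_right] at h0
  set P := resV S a ᵥ* D.U + MonoidAlgebra.single (g * t⁻¹) (1 : R) •
    (kv (cv (g * t⁻¹) a) ᵥ* (1 - D.N)) with hP
  set Q := MonoidAlgebra.single g (1 : R) • (kv (cv (g * t⁻¹) a) ᵥ* D.N) +
    resV {γ | γ ∉ S ∧ γ ≠ g * t⁻¹} a ᵥ* D.U with hQ
  have hPQ : P = a ᵥ* D.U - Q := by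
    rw [h0, hP, hQ]; abel
  have hPS : SupV S1 P := by
    refine SupV.add ?_ ?_
    · refine D.supV_U (supV_resV S a) ?_ ?_
      · rintro s ⟨hs, hs'⟩ h hh
        change g⁻¹ * (s * h) ∈ L.Y
        rwa [← mul_assoc, L.Yr _ h hh]
      · rintro s ⟨hs, hs'⟩ h hh
        change g⁻¹ * (s * t * h) ∈ L.Y
        rw [← mul_assoc, L.Yr _ h hh, ← mul_assoc, L.Yt]
        · exact hs
        · intro h1
          exact hs' (inv_mul_eq_iff_eq_mul.1 h1)
    · have h1 : SupV (H : Set Γ) (kv (cv (g * t⁻¹) a) ᵥ* (1 - D.N)) :=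
        (supV_kv (Z := {1}) rfl _).vecMul D.hN' (by rintro _ rfl z hz; rwa [one_mul])
      refine h1.smul_single 1 ?_
      intro z hz
      change g⁻¹ * (g * t⁻¹ * z) ∈ L.Y
      rw [mul_assoc g, inv_mul_cancel_left, L.tY]
      exact L.Hx hz
  have hQS : SupV S1ᶜ Q := by
    refine SupV.add ?_ ?_
    · have h1 : SupV (H : Set Γ) (kv (cv (g * t⁻¹) a) ᵥ* D.N) :=
        (supV_kv (Z := {1}) rfl _).vecMul D.hN (by rintro _ rfl z hz; rwa [one_mul])
      refine h1.smul_single 1 ?_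
      intro z hz
      exact hHS _ (H.mul_mem hg hz)
    · have hS2 : ∀ s, s ∉ S → s ≠ g * t⁻¹ → g⁻¹ * s ∉ L.Y := fun s hs hs' h => hs ⟨h, hs'⟩
      refine D.supV_U (supV_resV _ a) ?_ ?_
      · rintro s ⟨hs, hs'⟩ h hh h1
        apply hS2 s hs hs'
        have h2 : g⁻¹ * (s * h) ∈ L.Y := h1
        rwa [← mul_assoc, L.Yr _ h hh] at h2
      · rintro s ⟨hs, hs'⟩ h hh h1
        apply hS2 s hs hs'
        have h2 : g⁻¹ * (s * t * h) ∈ L.Y := h1
        rw [← mul_assoc, L.Yr _ h hh, ← mul_assoc, L.Yt] at h2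
        · exact h2
        · intro h3
          exact hs' (inv_mul_eq_iff_eq_mul.1 h3)
  have hP0 : P = 0 := by
    refine eq_zero_of_supV hPS (Z' := S1ᶜ) ?_ (fun γ hγ h => h hγ)
    rw [hPQ]
    exact (ha.mono hHS).sub hQS
  have h2 := congrArg (fun x => x ᵥ* D.V) hP0
  rw [hP] at h2
  simp only [Matrix.add_vecMul, D.vUV, Matrix.smul_vecMul, Matrix.vecMul_vecMul,
    Matrix.zero_vecMul] at h2
  exact eq_neg_of_add_eq_zero_left h2

/-- the idempotent -/
noncomputable def e : Matrix (Fin n) (Fin n) R := mcf t⁻¹ (D.N * D.V)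

/-- the relation between the two matrices -/
theorem rel (v : Fin n → R) : kv v ᵥ* ((1 - D.N) * D.V) =
    kv v - MonoidAlgebra.single t (1 : R) • (kv v ᵥ* (D.N * D.V)) := by
  rw [eq_sub_iff_add_eq, add_comm, ← kv_vecMul_smul, ← Matrix.vecMul_add]
  have h := D.U_mul_V
  unfold U at h
  rw [Matrix.add_mul, Matrix.smul_mul] at h
  rw [h, Matrix.vecMul_one]

theorem cv_NV (v : Fin n → R) : cv t⁻¹ (kv v ᵥ* (D.N * D.V)) = v ᵥ* D.e :=
  cv_kv_vecMul _ _ _

/-- consequences of the second branch formula -/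
theorem ly_e {a : Fin n → MonoidAlgebra R Γ} (ha : SupV (H : Set Γ) (a ᵥ* D.U)) {g : Γ}
    (hg : g ∈ H) : cv (g * t⁻¹) a ᵥ* D.e = cv (g * t⁻¹) a := by
  have h := D.ly ha hg
  set u := cv (g * t⁻¹) a with hu
  have h1 := congrArg (cv (g * t⁻¹)) h
  rw [cv_resV_of_notMem (fun h => h.2 rfl), cv_neg, cv_smul_single, inv_mul_cancel, D.rel, cv_sub,
    cv_kv_one, cv_smul_single, mul_one, D.cv_NV] at h1
  have h2 := neg_eq_zero.1 h1.symm
  exact (sub_eq_zero.1 h2).symm

/-- consequences of the first branch formula -/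
theorem lx_e {a : Fin n → MonoidAlgebra R Γ} (ha : SupV (H : Set Γ) (a ᵥ* D.U)) {g : Γ}
    (hg : g ∈ H) : cv g a ᵥ* D.e = 0 := by
  have h := D.lx ha hg
  have h1 := congrArg (cv (g * t * t⁻¹)) h
  rw [cv_neg, cv_smul_single, cv_resV_of_notMem, ← mul_assoc, ← mul_assoc] at h1
  · have h2 : (g * t)⁻¹ * g * t * t⁻¹ = t⁻¹ := by group
    rw [h2, D.cv_NV] at h1
    exact neg_eq_zero.1 h1.symm
  · rw [mul_inv_cancel_right]
    intro h2
    have h3 : g⁻¹ * g ∈ L.X := h2
    rw [inv_mul_cancel] at h3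
    exact L.oneX h3

theorem e_idem : D.e * D.e = D.e := by
  apply matrix_ext
  intro v
  have h1 : SupV (H : Set Γ) ((kv v ᵥ* (D.N * D.V)) ᵥ* D.U) := by
    rw [Matrix.vecMul_vecMul, Matrix.mul_assoc, D.V_mul_U, Matrix.mul_one]
    exact (supV_kv (Z := {1}) rfl _).vecMul D.hN (by rintro _ rfl z hz; rwa [one_mul])
  have h2 := D.ly_e h1 H.one_mem
  rw [one_mul, D.cv_NV, Matrix.vecMul_vecMul] at h2
  exact h2

theorem ve_e (v : Fin n → R) : (v ᵥ* D.e) ᵥ* D.e = v ᵥ* D.e := by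
  rw [Matrix.vecMul_vecMul, D.e_idem]

/-- the first vector -/
noncomputable def y (v : Fin n → R) : Fin n → MonoidAlgebra R Γ :=
  kv (v - v ᵥ* D.e) ᵥ* (D.N * D.V)

/-- the second vector -/
noncomputable def x (v : Fin n → R) : Fin n → MonoidAlgebra R Γ :=
  kv (v ᵥ* D.e) ᵥ* ((1 - D.N) * D.V)

theorem yU (v : Fin n → R) : D.y v ᵥ* D.U = kv (v - v ᵥ* D.e) ᵥ* D.N := by
  unfold y
  rw [Matrix.vecMul_vecMul, Matrix.mul_assoc, D.V_mul_U, Matrix.mul_one]

theorem xU (v : Fin n → R) : D.x v ᵥ* D.U = kv (v ᵥ* D.e) ᵥ* (1 - D.N) := by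
  unfold x
  rw [Matrix.vecMul_vecMul, Matrix.mul_assoc, D.V_mul_U, Matrix.mul_one]

theorem supV_yU (v : Fin n → R) : SupV (H : Set Γ) (D.y v ᵥ* D.U) := by
  rw [yU]
  exact (supV_kv (Z := {1}) rfl _).vecMul D.hN (by rintro _ rfl z hz; rwa [one_mul])

theorem supV_xU (v : Fin n → R) : SupV (H : Set Γ) (D.x v ᵥ* D.U) := by
  rw [xU]
  exact (supV_kv (Z := {1}) rfl _).vecMul D.hN' (by rintro _ rfl z hz; rwa [one_mul])

/-- The filtration. -/
noncomputable def K (j : ℕ) : Submodule R (Fin n → R) where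
  carrier := {v | SupV {γ | L.len γ < j} (D.y v) ∧ SupV {γ | L.len γ < j} (D.x v)}
  add_mem' := by
    rintro v w ⟨h1, h2⟩ ⟨h3, h4⟩
    have e1 : D.y (v + w) = D.y v + D.y w := by
      unfold y
      rw [← Matrix.add_vecMul, ← kv_add, Matrix.add_vecMul]
      congr 2
      abel
    have e2 : D.x (v + w) = D.x v + D.x w := by
      unfold x
      rw [← Matrix.add_vecMul, ← kv_add, Matrix.add_vecMul]
    refine ⟨?_, ?_⟩
    · rw [e1]; exact h1.add h3
    · rw [e2]; exact h2.add h4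
  zero_mem' := by
    have e1 : D.y 0 = 0 := by
      unfold y
      rw [Matrix.zero_vecMul, sub_zero, kv_zero, Matrix.zero_vecMul]
    have e2 : D.x 0 = 0 := by
      unfold x
      rw [Matrix.zero_vecMul, kv_zero, Matrix.zero_vecMul]
    refine ⟨?_, ?_⟩
    · rw [e1]; exact supV_zero _
    · rw [e2]; exact supV_zero _
  smul_mem' := by
    rintro r v ⟨h1, h2⟩
    have e1 : D.y (r • v) = MonoidAlgebra.single (1 : Γ) r • D.y v := by
      unfold y
      rw [← Matrix.smul_vecMul, ← kv_smul, Matrix.smul_vecMul, smul_sub]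
    have e2 : D.x (r • v) = MonoidAlgebra.single (1 : Γ) r • D.x v := by
      unfold x
      rw [← Matrix.smul_vecMul, ← kv_smul, Matrix.smul_vecMul]
    refine ⟨?_, ?_⟩
    · rw [e1]
      exact h1.smul_single r (by intro z hz; rwa [one_mul])
    · rw [e2]
      exact h2.smul_single r (by intro z hz; rwa [one_mul])

theorem mem_K {j : ℕ} {v : Fin n → R} :
    v ∈ D.K j ↔ SupV {γ | L.len γ < j} (D.y v) ∧ SupV {γ | L.len γ < j} (D.x v) := Iff.rfl

theorem K_mono : Monotone D.K := by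
  intro i j hij v hv
  exact ⟨hv.1.mono fun γ hγ => lt_of_lt_of_le hγ hij, hv.2.mono fun γ hγ => lt_of_lt_of_le hγ hij⟩

theorem K_e {j : ℕ} {v : Fin n → R} (hv : v ∈ D.K j) : v ᵥ* D.e ∈ D.K j := by
  refine ⟨?_, ?_⟩
  · unfold y
    rw [D.ve_e, sub_self, kv_zero, Matrix.zero_vecMul]
    exact supV_zero _
  · unfold x
    rw [D.ve_e]
    exact hv.2

/-- the coefficients lie in the previous step: group elements -/
theorem key1 {j : ℕ} {a : Fin n → MonoidAlgebra R Γ} (ha : SupV (H : Set Γ) (a ᵥ* D.U))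
    (hl : SupV {γ | L.len γ < j + 1} a) {g : Γ} (hg : g ∈ H) : cv g a ∈ D.K j := by
  have he := D.lx_e ha hg
  refine ⟨?_, ?_⟩
  · unfold y
    rw [he, sub_zero]
    have h1 := D.lx ha hg
    have h2 : SupV {γ | g⁻¹ * γ ∈ L.X ∧ L.len γ < j + 1}
        (MonoidAlgebra.single (g * t) (1 : R) • (kv (cv g a) ᵥ* (D.N * D.V))) := by
      rw [← neg_eq_iff_eq_neg] at h1
      rw [← h1, supV_iff]
      intro γ hγ
      rw [cv_neg, neg_eq_zero]
      by_cases h3 : γ ∈ {γ | g⁻¹ * γ ∈ L.X}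
      · rw [cv_resV_of_mem h3]
        exact supV_iff.1 hl γ fun h4 => hγ ⟨h3, h4⟩
      · exact cv_resV_of_notMem h3 a
    refine Kern.SupV.mono ?_ (SupV.of_smul_single h2)
    rintro γ ⟨h3, h4⟩
    rw [mul_assoc, inv_mul_cancel_left, L.tX] at h3
    rw [mul_assoc, L.lenH g hg, L.lent γ h3] at h4
    exact Nat.lt_of_succ_lt_succ h4
  · unfold x
    rw [he, kv_zero, Matrix.zero_vecMul]
    exact supV_zero _

/-- the coefficients lie in the previous step: the elements `g t⁻¹` -/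
theorem key2 {j : ℕ} {a : Fin n → MonoidAlgebra R Γ} (ha : SupV (H : Set Γ) (a ᵥ* D.U))
    (hl : SupV {γ | L.len γ < j + 1} a) {g : Γ} (hg : g ∈ H) : cv (g * t⁻¹) a ∈ D.K j := by
  have he := D.ly_e ha hg
  refine ⟨?_, ?_⟩
  · unfold y
    rw [he, sub_self, kv_zero, Matrix.zero_vecMul]
    exact supV_zero _
  · unfold x
    rw [he]
    have h1 := D.ly ha hg
    have h2 : SupV {γ | g⁻¹ * γ ∈ L.Y ∧ L.len γ < j + 1}
        (MonoidAlgebra.single (g * t⁻¹) (1 : R) •
          (kv (cv (g * t⁻¹) a) ᵥ* ((1 - D.N) * D.V))) := by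
      rw [← neg_eq_iff_eq_neg] at h1
      rw [← h1, supV_iff]
      intro γ hγ
      rw [cv_neg, neg_eq_zero]
      by_cases h3 : γ ∈ {γ | g⁻¹ * γ ∈ L.Y ∧ γ ≠ g * t⁻¹}
      · rw [cv_resV_of_mem h3]
        exact supV_iff.1 hl γ fun h4 => hγ ⟨h3.1, h4⟩
      · exact cv_resV_of_notMem h3 a
    refine Kern.SupV.mono ?_ (SupV.of_smul_single h2)
    rintro γ ⟨h3, h4⟩
    rw [mul_assoc, inv_mul_cancel_left, L.tY] at h3
    rw [mul_assoc, L.lenH g hg, L.lent' γ h3] at h4
    exact Nat.lt_of_succ_lt_succ h4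

/-- the coefficient formula -/
theorem cv_U {B : Finset Γ} (hB : SupM (B : Set Γ) D.N) (a : Fin n → MonoidAlgebra R Γ) (g : Γ) :
    cv g (a ᵥ* D.U) = ∑ h ∈ B, cv (g * h⁻¹ * t⁻¹) a ᵥ* mcf h D.N + (cv g a -
      ∑ h ∈ B, cv (g * h⁻¹) a ᵥ* mcf h D.N) := by
  unfold U
  rw [Matrix.vecMul_add, vecMul_smul_single, Matrix.vecMul_sub, Matrix.vecMul_one, cv_add, cv_sub,
    cv_vecMul g _ hB, cv_vecMul g _ hB]
  congr 1
  refine Finset.sum_congr rfl fun h _ => ?_
  rw [cv_rm]

/-- coefficients of `a U` -/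
theorem cv_U_mem {j : ℕ} (hst : ∀ v ∈ D.K j, ∀ h, v ᵥ* mcf h D.N ∈ D.K j)
    {a : Fin n → MonoidAlgebra R Γ} (ha : SupV (H : Set Γ) (a ᵥ* D.U))
    (hl : SupV {γ | L.len γ < j + 1} a) {g : Γ} (hg : g ∈ H) : cv g (a ᵥ* D.U) ∈ D.K j := by
  classical
  obtain ⟨B, hB⟩ := exists_finset_supM D.N
  have hB' : SupM ((B.filter (· ∈ H) : Finset Γ) : Set Γ) D.N := by
    intro i k γ hγ
    by_cases h1 : γ ∈ H
    · refine hB i k γ fun h2 => hγ ?_
      simp only [Finset.coe_filter, Set.mem_ofPred_eq]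
      exact ⟨h2, h1⟩
    · exact D.hN i k γ h1
  have hBH : ∀ h ∈ B.filter (· ∈ H), h ∈ H := fun h hh => (Finset.mem_filter.1 hh).2
  rw [D.cv_U hB']
  refine Submodule.add_mem _ (Submodule.sum_mem _ fun h hh => ?_)
    (Submodule.sub_mem _ (D.key1 ha hl hg) (Submodule.sum_mem _ fun h hh => ?_))
  · exact hst _ (D.key2 ha hl (H.mul_mem hg (H.inv_mem (hBH h hh)))) h
  · exact hst _ (D.key1 ha hl (H.mul_mem hg (H.inv_mem (hBH h hh)))) h

theorem mcf_one_apply [DecidableEq Γ] (g : Γ) :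
    mcf g (1 : Matrix (Fin n) (Fin n) (MonoidAlgebra R Γ)) = if g = 1 then 1 else 0 := by
  classical
  ext i k
  change ((1 : Matrix (Fin n) (Fin n) (MonoidAlgebra R Γ)) i k).coeff g = _
  rw [Matrix.one_apply]
  by_cases h : i = k
  · subst h
    rw [if_pos rfl, MonoidAlgebra.one_def, MonoidAlgebra.coeff_single, Finsupp.single_apply]
    by_cases h1 : g = 1
    · subst h1; simp
    · rw [if_neg (fun h => h1 h.symm), if_neg h1]; rfl
  · rw [if_neg h]
    split_ifs
    · rw [Matrix.one_apply_ne h]; rfl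
    · rfl

/-- the first kind of coefficient -/
theorem cv_yU (v : Fin n → R) (g : Γ) : cv g (D.y v ᵥ* D.U) = v ᵥ* ((1 - D.e) * mcf g D.N) := by
  rw [yU, cv_kv_vecMul, ← Matrix.vecMul_vecMul, Matrix.vecMul_sub, Matrix.vecMul_one]

open Classical in
/-- the second kind of coefficient -/
theorem cv_xU (v : Fin n → R) (g : Γ) : cv g (D.x v ᵥ* D.U) =
    v ᵥ* (D.e * ((if g = 1 then 1 else 0) - mcf g D.N)) := by
  rw [xU, cv_kv_vecMul, ← Matrix.vecMul_vecMul, mcf_sub, mcf_one_apply]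

theorem mcf_of_notMem {g : Γ} (hg : g ∉ H) : mcf g D.N = 0 := by
  ext i k
  exact D.hN i k g hg

open Classical in
/-- stability -/
theorem K_stable_of {j : ℕ} {v : Fin n → R} (hv : v ∈ D.K j)
    (h1 : ∀ g ∈ H, v ᵥ* ((1 - D.e) * mcf g D.N) ∈ D.K j)
    (h2 : ∀ g ∈ H, v ᵥ* (D.e * ((if g = 1 then 1 else 0) - mcf g D.N)) ∈ D.K j) (g : Γ) :
    v ᵥ* mcf g D.N ∈ D.K j := by
  by_cases hg : g ∈ H
  · have h3 : mcf g D.N = (1 - D.e) * mcf g D.N + (D.e * (if g = 1 then 1 else 0) -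
        D.e * ((if g = 1 then 1 else 0) - mcf g D.N)) := by
      rw [Matrix.mul_sub, Matrix.sub_mul, Matrix.one_mul]
      abel
    rw [h3, Matrix.vecMul_add, Matrix.vecMul_sub]
    refine Submodule.add_mem _ (h1 g hg) (Submodule.sub_mem _ ?_ (h2 g hg))
    split_ifs
    · rw [Matrix.mul_one]
      exact D.K_e hv
    · rw [Matrix.mul_zero, Matrix.vecMul_zero]
      exact Submodule.zero_mem _
  · rw [D.mcf_of_notMem hg, Matrix.vecMul_zero]
    exact Submodule.zero_mem _

theorem K_zero_y {v : Fin n → R} (hv : v ∈ D.K 0) : D.y v = 0 := by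
  apply vec_ext
  intro γ
  rw [cv_zero]
  exact supV_iff.1 hv.1 γ (by intro h; exact absurd h (Nat.not_lt_zero _))

theorem K_zero_x {v : Fin n → R} (hv : v ∈ D.K 0) : D.x v = 0 := by
  apply vec_ext
  intro γ
  rw [cv_zero]
  exact supV_iff.1 hv.2 γ (by intro h; exact absurd h (Nat.not_lt_zero _))

theorem K_stable (j : ℕ) : ∀ v ∈ D.K j, ∀ g, v ᵥ* mcf g D.N ∈ D.K j := by
  classical
  induction j with
  | zero =>
    intro v hv g
    refine D.K_stable_of hv ?_ ?_ g
    · intro g _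
      rw [← D.cv_yU, D.K_zero_y hv, Matrix.zero_vecMul, cv_zero]
      exact Submodule.zero_mem _
    · intro g _
      have h := D.cv_xU v g
      rw [D.K_zero_x hv, Matrix.zero_vecMul, cv_zero] at h
      rw [← h]
      exact Submodule.zero_mem _
  | succ j ih =>
    intro v hv g
    refine D.K_stable_of hv ?_ ?_ g
    · intro g hg
      rw [← D.cv_yU]
      exact D.K_mono (Nat.le_succ j) (D.cv_U_mem ih (D.supV_yU v) hv.1 hg)
    · intro g hg
      have h := D.cv_U_mem ih (D.supV_xU v) hv.2 hg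
      rw [D.cv_xU] at h
      exact D.K_mono (Nat.le_succ j) h

theorem K_top : ∃ q, D.K q = ⊤ := by
  classical
  obtain ⟨B, hB⟩ := exists_finset_supM (D.N * D.V)
  obtain ⟨B', hB'⟩ := exists_finset_supM ((1 - D.N) * D.V)
  refine ⟨(B ∪ B').sup L.len + 1, ?_⟩
  rw [eq_top_iff]
  intro v _
  refine ⟨?_, ?_⟩
  · refine (supV_kv (Z := {1}) rfl _).vecMul hB ?_
    rintro _ rfl z hz
    rw [one_mul]
    exact Nat.lt_succ_of_le (Finset.le_sup (f := L.len) (Finset.mem_union_left _ hz))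
  · refine (supV_kv (Z := {1}) rfl _).vecMul hB' ?_
    rintro _ rfl z hz
    rw [one_mul]
    exact Nat.lt_succ_of_le (Finset.le_sup (f := L.len) (Finset.mem_union_right _ hz))

end LS

end Pool.Agent.Lib.MP_c052b4_al
end

section

/-!
# The stable letter of a free product `G * ⟨t⟩`
-/

set_option autoImplicit false
set_option linter.unusedSectionVars false

namespace Pool.Agent.Lib.MP_c052b4_al

open Kern HNNExtension HNNExtension.NormalWord

universe u v w

namespace HN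

variable {G : Type v} [Group G]

/-- the trivial isomorphism -/
abbrev phi0 (G : Type v) [Group G] : (⊥ : Subgroup G) ≃* (⊥ : Subgroup G) := MulEquiv.refl _

/-- the free product with an infinite cyclic group -/
abbrev FP (G : Type v) [Group G] : Type v := HNNExtension G ⊥ ⊥ (phi0 G)

theorem mem_CC_bot {i : Bool} {g : G} : g ∈ CC (⊥ : Subgroup G) ⊥ i ↔ g = 1 := by
  unfold CC toSubgroup
  split_ifs <;> exact Subgroup.mem_bot

theorem mem_toSubgroup_bot {u : ℤˣ} {g : G} : g ∈ toSubgroup (⊥ : Subgroup G) ⊥ u ↔ g = 1 := by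
  unfold toSubgroup
  split_ifs <;> exact Subgroup.mem_bot

theorem sg_not (i : Bool) : sg (!i) = - sg i := by cases i <;> rfl

theorem length_unique {A B : Subgroup G} (φ : A ≃* B) {h h' : G} {l l' : List (ℤˣ × G)}
    (hl : Red A B l) (hl' : Red A B l')
    (he : of h * lp φ l = of h' * lp φ l') : l.length = l'.length := by
  have h1 := ReducedWord.map_fst_eq_and_of_prod_eq φ (w₁ := ⟨h, l, hl⟩) (w₂ := ⟨h', l', hl'⟩) he
  have h2 := congrArg List.length h1.1
  simpa using h2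

/-- the number of stable letters -/
noncomputable def len (γ : FP G) : ℕ :=
  (Classical.choose (Classical.choose_spec (exists_word (phi0 G) γ))).length

theorem len_eq {h : G} {l : List (ℤˣ × G)} (hl : Red ⊥ ⊥ l) :
    len (of h * lp (phi0 G) l) = l.length := by
  have h1 := Classical.choose_spec (Classical.choose_spec
    (exists_word (phi0 G) (of h * lp (phi0 G) l)))
  exact length_unique (phi0 G) h1.1 hl h1.2.symm

theorem len_of_mul (g : G) (γ : FP G) : len (of g * γ) = len γ := by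
  obtain ⟨h, l, hl, rfl⟩ := exists_word (phi0 G) γ
  rw [← mul_assoc, ← map_mul, len_eq hl, len_eq hl]

theorem red_cons {i : Bool} {h : G} {l : List (ℤˣ × G)} (hl : Red ⊥ ⊥ l)
    (hn : of h * lp (phi0 G) l ∉ XX (phi0 G) (!i)) : Red ⊥ ⊥ ((sg i, h) :: l) := by
  cases l with
  | nil => exact List.isChain_singleton _
  | cons a l =>
    refine List.isChain_cons_cons.2 ⟨?_, hl⟩
    intro hh
    rw [mem_toSubgroup_bot] at hh
    have hh' : h = 1 := hh
    by_contra hne
    apply hn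
    have h1 : a.1 = sg (!i) := by
      rw [sg_not]
      rcases Int.units_eq_one_or a.1 with h2 | h2 <;>
      rcases Int.units_eq_one_or (sg i) with h3 | h3
      · exact absurd (h3.trans h2.symm) hne
      · rw [h2, h3]; rfl
      · rw [h2, h3]
      · exact absurd (h3.trans h2.symm) hne
    refine ⟨h, a :: l, hl, rfl, ?_, ?_⟩
    · simp [first, h1]
    · rw [mem_CC_bot]; exact hh'

theorem t_mul_word (i : Bool) (h : G) (l : List (ℤˣ × G)) :
    (t : FP G) ^ (sg i : ℤ) * (of h * lp (phi0 G) l) =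
      of 1 * lp (phi0 G) ((sg i, h) :: l) := by
  rw [lp_cons, map_one, one_mul, mul_assoc]

theorem t_mul_mem {i : Bool} {γ : FP G} (hγ : γ ∉ XX (phi0 G) (!i)) :
    (t : FP G) ^ (sg i : ℤ) * γ ∈ XX (phi0 G) i ∧ len ((t : FP G) ^ (sg i : ℤ) * γ) = len γ + 1 := by
  obtain ⟨h, l, hl, rfl⟩ := exists_word (phi0 G) γ
  have h1 := red_cons hl hγ
  rw [t_mul_word, len_eq h1, len_eq hl]
  refine ⟨⟨1, _, h1, rfl, rfl, (CC _ _ i).one_mem⟩, rfl⟩

theorem t_mul_notMem {i : Bool} {γ : FP G} (hγ : γ ∈ XX (phi0 G) (!i)) :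
    (t : FP G) ^ (sg i : ℤ) * γ ∉ XX (phi0 G) i := by
  obtain ⟨h, l, hl, rfl, hf, hh⟩ := hγ
  rw [mem_CC_bot] at hh
  subst hh
  cases l with
  | nil => exact absurd hf (by simp [first])
  | cons a l =>
    obtain ⟨u, g⟩ := a
    have hu : u = - sg i := by
      simp only [first, List.head?_cons, Option.map_some, Option.some.injEq] at hf
      rw [hf, sg_not]
    subst hu
    have h1 : (t : FP G) ^ (sg i : ℤ) * (of 1 * lp (phi0 G) ((- sg i, g) :: l)) =
        of g * lp (phi0 G) l := by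
      rw [lp_cons, map_one, one_mul, ← mul_assoc, ← mul_assoc]
      congr 1
      rw [← zpow_add]
      simp
    rw [h1]
    intro h2
    have hl' : Red ⊥ ⊥ l := by
      cases l with
      | nil => exact List.isChain_nil
      | cons b l => exact (List.isChain_cons_cons.1 hl).2
    cases l with
    | nil =>
      rw [lp_nil, mul_one] at h2
      exact of_notMem_XX (phi0 G) i g h2
    | cons b l =>
      have h3 : first (b :: l) = some b.1 := rfl
      rw [mem_XX_iff (phi0 G) hl' h3, mem_CC_bot] at h2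
      have h4 := (List.isChain_cons_cons.1 hl).1
      have h5 : g ∈ toSubgroup (⊥ : Subgroup G) ⊥ (- sg i) := mem_toSubgroup_bot.2 h2.2
      have h6 : - sg i = b.1 := h4 h5
      rw [h2.1] at h6
      exact absurd h6 (by cases i <;> decide)

theorem t_mul_iff (i : Bool) (γ : FP G) :
    (t : FP G) ^ (sg i : ℤ) * γ ∈ XX (phi0 G) i ↔ γ ∉ XX (phi0 G) (!i) :=
  ⟨fun h h' => t_mul_notMem h' h, fun h => (t_mul_mem h).1⟩

/-- the precise boundary of the half spaces -/
theorem mul_t_iff {A B : Subgroup G} (φ : A ≃* B) {i : Bool} {γ : HNNExtension G A B φ}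
    (hγ : ¬ (γ ∈ XX φ i ↔ γ * t ∈ XX φ i)) :
    (i = false ∧ ∃ c ∈ CC A B i, γ = of c) ∨ (i = true ∧ ∃ c ∈ CC A B i, γ = of c * t⁻¹) := by
  classical
  obtain ⟨h, l, hl, rfl⟩ := exists_word φ γ
  rcases List.eq_nil_or_concat l with rfl | ⟨l, ⟨u, g⟩, rfl⟩
  · rw [lp_nil, mul_one] at hγ ⊢
    have h1 : of h * t ∈ XX φ i := by
      by_contra h2
      exact hγ ⟨fun h3 => absurd h3 (of_notMem_XX φ i h), fun h3 => absurd h3 h2⟩
    obtain ⟨rfl, h2⟩ := XX_disj φ (t_mem φ) h1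
    exact Or.inl ⟨rfl, h, h2, rfl⟩
  · rw [List.concat_eq_append] at hl hγ ⊢
    by_cases hc : u = -1 ∧ g ∈ toSubgroup A B (-1)
    · obtain ⟨rfl, hg⟩ := hc
      have key : (t : HNNExtension G A B φ) ^ ((-1 : ℤˣ) : ℤ) * of g =
          of (φ.symm ⟨g, hg⟩ : G) * t⁻¹ := by
        have := inv_t_mul_of (φ := φ) ⟨g, hg⟩
        simpa using this
      rcases List.eq_nil_or_concat l with rfl | ⟨l, ⟨u', g'⟩, rfl⟩
      · simp only [List.nil_append, lp_single, key] at hγ ⊢
        have h1 : of h * (of (φ.symm ⟨g, hg⟩ : G) * t⁻¹) * t =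
            (of (h * (φ.symm ⟨g, hg⟩ : G)) : HNNExtension G A B φ) := by
          rw [map_mul]; group
        have h2 : (of h * (of (φ.symm ⟨g, hg⟩ : G) * t⁻¹) : HNNExtension G A B φ) =
            of (h * (φ.symm ⟨g, hg⟩ : G)) * t⁻¹ := by
          rw [map_mul, mul_assoc]
        rw [h1, h2] at hγ
        rw [h2]
        have h3 : (of (h * (φ.symm ⟨g, hg⟩ : G)) * t⁻¹ : HNNExtension G A B φ) ∈ XX φ i := by
          by_contra h4
          exact hγ ⟨fun h5 => absurd h5 h4, fun h5 => absurd h5 (of_notMem_XX φ i _)⟩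
        obtain ⟨rfl, h4⟩ := XX_disj φ (t_inv_mem φ) h3
        exact Or.inr ⟨rfl, _, h4, rfl⟩
      · exfalso
        rw [List.concat_eq_append] at hl hγ
        apply hγ
        have h1 : of h * lp φ (l ++ [(u', g')] ++ [(-1, g)]) * t =
            of h * lp φ (l ++ [(u', g' * (φ.symm ⟨g, hg⟩ : G))]) := by
          rw [lp_append φ (l ++ [(u', g')]), lp_single, key, ← lp_mul_of]
          group
        have hne : l ++ [(u', g')] ≠ [] := by simp
        have h2 : Red A B (l ++ [(u', g')]) := (List.isChain_append.1 hl).1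
        have h3 := red_mul_right h2 (g' * (φ.symm ⟨g, hg⟩ : G))
        obtain ⟨v, hv⟩ : ∃ v, first (l ++ [(u', g')]) = some v := by
          cases l with
          | nil => exact ⟨_, rfl⟩
          | cons a l => exact ⟨_, rfl⟩
        have hv2 : first (l ++ [(u', g')] ++ [(-1, g)]) = some v := by
          rw [first_append hne, hv]
        have hv3 : first (l ++ [(u', g' * (φ.symm ⟨g, hg⟩ : G))]) = some v := by
          rw [← hv]; exact first_append_single _ _ _ _
        rw [h1, mem_XX_iff φ hl hv2, mem_XX_iff φ h3 hv3]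
    · exfalso
      apply hγ
      have h1 : of h * lp φ (l ++ [(u, g)]) * t = of h * lp φ (l ++ [(u, g)] ++ [(1, 1)]) := by
        rw [lp_append φ (l ++ [(u, g)]), lp_single, mul_assoc]
        simp
      have hne : l ++ [(u, g)] ≠ [] := by simp
      have h2 : Red A B (l ++ [(u, g)] ++ [(1, 1)]) := by
        unfold Red
        rw [List.isChain_append]
        refine ⟨hl, List.isChain_singleton _, ?_⟩
        intro x hx y hy hmem
        simp only [List.getLast?_append, List.getLast?_singleton, Option.some_or, Option.mem_def,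
          Option.some.injEq] at hx
        simp only [List.head?_cons, Option.mem_def, Option.some.injEq] at hy
        subst hx hy
        rcases Int.units_eq_one_or u with h3 | h3
        · exact h3
        · exfalso
          apply hc
          refine ⟨h3, ?_⟩
          rw [← h3]; exact hmem
      obtain ⟨v, hv⟩ : ∃ v, first (l ++ [(u, g)]) = some v := by
        cases l with
        | nil => exact ⟨_, rfl⟩
        | cons a l => exact ⟨_, rfl⟩
      have hv2 : first (l ++ [(u, g)] ++ [(1, 1)]) = some v := by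
        rw [first_append hne, hv]
      rw [h1, mem_XX_iff φ hl hv, mem_XX_iff φ h2 hv2]

/-- The stable letter is a free letter. -/
noncomputable def letter (G : Type v) [Group G] :
    Letter (of : G →* FP G).range (t : FP G) where
  X := XX (phi0 G) false
  Y := XX (phi0 G) true
  len := len
  Xr := by
    rintro γ _ ⟨g, rfl⟩
    constructor
    · intro h
      have := XX_right (phi0 G) false g⁻¹ h
      rwa [map_inv, mul_inv_cancel_right] at this
    · exact XX_right (phi0 G) false g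
  Yr := by
    rintro γ _ ⟨g, rfl⟩
    constructor
    · intro h
      have := XX_right (phi0 G) true g⁻¹ h
      rwa [map_inv, mul_inv_cancel_right] at this
    · exact XX_right (phi0 G) true g
  oneX := by
    rw [← map_one (of : G →* FP G)]
    exact of_notMem_XX (phi0 G) false 1
  oneY := by
    rw [← map_one (of : G →* FP G)]
    exact of_notMem_XX (phi0 G) true 1
  tX := by
    intro γ
    have := t_mul_iff false γ
    simpa [sg] using this
  tY := by
    intro γ
    have := t_mul_iff true γ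
    simpa [sg] using this
  Xt := by
    intro γ hγ
    by_contra h
    rcases mul_t_iff (phi0 G) (fun h' => h h'.symm) with ⟨-, c, hc, h1⟩ | ⟨h1, -⟩
    · rw [mem_CC_bot] at hc
      subst hc
      rw [map_one] at h1
      exact hγ h1
    · exact absurd h1 (by decide)
  Yt := by
    intro γ hγ
    by_contra h
    rcases mul_t_iff (phi0 G) (fun h' => h h'.symm) with ⟨h1, -⟩ | ⟨-, c, hc, h1⟩
    · exact absurd h1 (by decide)
    · rw [mem_CC_bot] at hc
      subst hc
      rw [map_one, one_mul] at h1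
      exact hγ h1
  lenH := by
    rintro _ ⟨g, rfl⟩ γ
    exact len_of_mul g γ
  lent := by
    intro γ hγ
    have := (t_mul_mem (i := false) hγ).2
    simpa [sg] using this
  lent' := by
    intro γ hγ
    have := (t_mul_mem (i := true) hγ).2
    simpa [sg] using this

end HN

end Pool.Agent.Lib.MP_c052b4_al
end

section

/-!
# The class of an invertible matrix `1 + (t - 1) N`
-/

set_option autoImplicit false
set_option linter.unusedSectionVars false

namespace Pool.Agent.Lib.MP_c052b4_al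

open Matrix Kern

universe u v w

namespace LS

variable {R : Type u} [Ring R] {Γ : Type v} [Group Γ] {H : Subgroup Γ} {t : Γ}
  {L : Letter H t} {n : ℕ} (D : LS R L n)

/-- the shifted filtration -/
noncomputable def K' (j : ℕ) : Submodule R (Fin n → R) := Nat.casesOn j ⊥ fun j => D.K j

theorem K'_zero : D.K' 0 = ⊥ := rfl

theorem K'_succ (j : ℕ) : D.K' (j + 1) = D.K j := rfl

open Classical in
/-- the family of matrices -/
noncomputable def fm (B : Finset Γ) : (B ⊕ B) → Matrix (Fin n) (Fin n) R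
  | Sum.inl h => (1 - D.e) * mcf (h : Γ) D.N
  | Sum.inr h => D.e * ((if (h : Γ) = 1 then 1 else 0) - mcf (h : Γ) D.N)

/-- `t - 1` -/
noncomputable def s1 (R : Type u) [Ring R] (t : Γ) : MonoidAlgebra R Γ :=
  ((gU R t : (MonoidAlgebra R Γ)ˣ) : MonoidAlgebra R Γ) - 1

/-- `t⁻¹ - 1` -/
noncomputable def s2 (R : Type u) [Ring R] (t : Γ) : MonoidAlgebra R Γ :=
  (((gU R t)⁻¹ : (MonoidAlgebra R Γ)ˣ) : MonoidAlgebra R Γ) - 1

theorem s1_comm (r : R) : s1 R t * cG R Γ r = cG R Γ r * s1 R t := sub_one_comm (gU_comm t) r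

theorem s2_comm (r : R) : s2 R t * cG R Γ r = cG R Γ r * s2 R t :=
  sub_one_comm (inv_comm (gU_comm t)) r

/-- the scalars -/
noncomputable def sc (R : Type u) [Ring R] (t : Γ) (B : Finset Γ) : (B ⊕ B) → MonoidAlgebra R Γ
  | Sum.inl h => s1 R t * MonoidAlgebra.single (h : Γ) 1
  | Sum.inr h => s2 R t * MonoidAlgebra.single (h : Γ) 1

theorem single_comm (h : Γ) (r : R) : MonoidAlgebra.single h (1 : R) * cG R Γ r =
    cG R Γ r * MonoidAlgebra.single h (1 : R) := gU_comm h r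

theorem sc_comm (B : Finset Γ) (i : B ⊕ B) (r : R) :
    sc R t B i * cG R Γ r = cG R Γ r * sc R t B i := by
  rcases i with h | h
  · have h1 : sc R t B (Sum.inl h) = s1 R t * MonoidAlgebra.single (h : Γ) 1 := rfl
    rw [h1, mul_assoc, single_comm, ← mul_assoc, s1_comm, mul_assoc]
  · have h1 : sc R t B (Sum.inr h) = s2 R t * MonoidAlgebra.single (h : Γ) 1 := rfl
    rw [h1, mul_assoc, single_comm, ← mul_assoc, s2_comm, mul_assoc]

theorem fchain {B : Finset Γ} (hB : ∀ h ∈ B, h ∈ H) :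
    ∃ q, FChain (q + 1) (D.fm B) D.K' := by
  classical
  obtain ⟨q, hq⟩ := D.K_top
  refine ⟨q, ?_, rfl, ?_, ?_⟩
  · refine monotone_nat_of_le_succ fun j => ?_
    cases j with
    | zero => exact bot_le
    | succ j => exact D.K_mono (Nat.le_succ j)
  · rw [K'_succ, eq_top_iff, ← hq]
    exact D.K_mono (Nat.le_succ q)
  · intro i j v hv
    rw [K'_succ] at hv
    have hgoal : ∀ a : Fin n → MonoidAlgebra R Γ, SupV {γ | L.len γ < j} a →
        SupV (H : Set Γ) (a ᵥ* D.U) → ∀ g ∈ H, cv g (a ᵥ* D.U) ∈ D.K' j := by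
      intro a ha ha' g hg
      cases j with
      | zero =>
        have h1 : a = 0 := by
          apply vec_ext
          intro γ
          rw [cv_zero]
          exact supV_iff.1 ha γ (by intro h; exact absurd h (Nat.not_lt_zero _))
        rw [h1, Matrix.zero_vecMul, cv_zero]
        exact Submodule.zero_mem _
      | succ j => exact D.cv_U_mem (D.K_stable j) ha' ha hg
    rcases i with h | h
    · change v ᵥ* ((1 - D.e) * mcf (h : Γ) D.N) ∈ D.K' j
      rw [← D.cv_yU]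
      exact hgoal _ hv.1 (D.supV_yU v) _ (hB _ h.2)
    · have h1 := hgoal _ hv.2 (D.supV_xU v) _ (hB _ h.2)
      rw [D.cv_xU] at h1
      exact h1

/-- a matrix with given support -/
theorem _root_.Pool.Agent.Lib.MP_c052b4_al.matrix_eq_sum {B : Finset Γ} {n : ℕ}
    {M : Matrix (Fin n) (Fin n) (MonoidAlgebra R Γ)} (hM : SupM (B : Set Γ) M) :
    M = ∑ h : B, MonoidAlgebra.single (h : Γ) (1 : R) • (mcf (h : Γ) M).map (cG R Γ) := by
  classical
  rw [Finset.sum_coe_sort B (fun h => MonoidAlgebra.single h (1 : R) • (mcf h M).map (cG R Γ))]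
  refine Matrix.ext fun i k => ?_
  rw [Matrix.sum_apply]
  have h1 : M i k = ∑ h ∈ (M i k).coeff.support, MonoidAlgebra.single h ((M i k).coeff h) := by
    conv_lhs => rw [← MonoidAlgebra.sum_coeff_single (M i k)]
    rfl
  rw [h1]
  have h2 : (M i k).coeff.support ⊆ B := by
    intro γ hγ
    by_contra h3
    exact (Finsupp.mem_support_iff.1 hγ) (hM i k γ h3)
  rw [Finset.sum_subset h2 (fun x _ hx => by
    rw [Finsupp.notMem_support_iff.1 hx, MonoidAlgebra.single_zero])]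
  refine Finset.sum_congr rfl fun h _ => ?_
  change _ = MonoidAlgebra.single h (1 : R) * MonoidAlgebra.single 1 ((M i k).coeff h)
  rw [MonoidAlgebra.single_mul_single, mul_one, one_mul]

theorem fam_eq {B : Finset Γ} (hB : SupM (B : Set Γ) D.N) (h1 : (1 : Γ) ∈ B) :
    fam (cG R Γ) (sc R t B) (D.fm B) =
      s1 R t • ((1 - D.e.map (cG R Γ)) * D.N) + s2 R t • (D.e.map (cG R Γ) * (1 - D.N)) := by
  classical
  unfold fam
  rw [Fintype.sum_sum_type]
  congr 1
  · have h2 : ∀ h : B, sc R t B (Sum.inl h) • (D.fm B (Sum.inl h)).map (cG R Γ) =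
        s1 R t • ((1 - D.e.map (cG R Γ)) * (MonoidAlgebra.single (h : Γ) (1 : R) •
          (mcf (h : Γ) D.N).map (cG R Γ))) := by
      intro h
      have h0 : D.fm B (Sum.inl h) = (1 - D.e) * mcf (h : Γ) D.N := rfl
      have h00 : sc R t B (Sum.inl h) = s1 R t * MonoidAlgebra.single (h : Γ) 1 := rfl
      have h3 : (1 - D.e.map (cG R Γ)) = (1 - D.e).map (cG R Γ) := by
        rw [Matrix.map_sub _ (map_sub (cG R Γ)), Matrix.map_one _ (map_zero _) (map_one _)]
      rw [h0, h00, h3, map_mul_smul' (c := cG R Γ) (fun r => single_comm (h : Γ) r), smul_smul]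
    rw [Finset.sum_congr rfl fun h _ => h2 h, ← Finset.smul_sum, ← Matrix.mul_sum,
      ← matrix_eq_sum hB]
  · have hB' : SupM (B : Set Γ) (1 - D.N) := by
      intro i j
      refine Sup.sub ?_ (hB i j)
      rw [Matrix.one_apply]
      split_ifs
      · exact sup_single (γ := 1) h1 1
      · exact sup_zero _
    have h2 : ∀ h : B, sc R t B (Sum.inr h) • (D.fm B (Sum.inr h)).map (cG R Γ) =
        s2 R t • (D.e.map (cG R Γ) * (MonoidAlgebra.single (h : Γ) (1 : R) •
          (mcf (h : Γ) (1 - D.N)).map (cG R Γ))) := by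
      intro h
      have h0 : D.fm B (Sum.inr h) =
        D.e * ((if (h : Γ) = 1 then 1 else 0) - mcf (h : Γ) D.N) := rfl
      have h00 : sc R t B (Sum.inr h) = s2 R t * MonoidAlgebra.single (h : Γ) 1 := rfl
      rw [h0, h00, map_mul_smul' (c := cG R Γ) (fun r => single_comm (h : Γ) r), smul_smul,
        mcf_sub, mcf_one_apply]
    rw [Finset.sum_congr rfl fun h _ => h2 h, ← Finset.smul_sum, ← Matrix.mul_sum,
      ← matrix_eq_sum hB']

theorem map_mul_smul_mat (e : Matrix (Fin n) (Fin n) R) (s : MonoidAlgebra R Γ)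
    (hs : ∀ r, s * cG R Γ r = cG R Γ r * s) (M : Matrix (Fin n) (Fin n) (MonoidAlgebra R Γ)) :
    e.map (cG R Γ) * (s • M) = s • (e.map (cG R Γ) * M) := by
  refine Matrix.ext fun i k => ?_
  simp only [Matrix.mul_apply, Matrix.smul_apply, Matrix.map_apply, smul_eq_mul,
    Finset.mul_sum]
  refine Finset.sum_congr rfl fun l _ => ?_
  rw [← mul_assoc, ← hs, mul_assoc]

theorem U_eq : D.U = 1 + s1 R t • D.N := by
  unfold U s1
  rw [sub_smul, one_smul]
  change ((gU R t : (MonoidAlgebra R Γ)ˣ) : MonoidAlgebra R Γ) • D.N + (1 - D.N) = _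
  abel

theorem s2_mul_s1 : s2 R t * s1 R t = - s1 R t - s2 R t := by
  unfold s1 s2
  rw [sub_mul, mul_sub, Units.inv_mul]
  noncomm_ring

/-- the product -/
theorem te_mul_U : (1 + s2 R t • D.e.map (cG R Γ)) * D.U =
    1 + (s1 R t • ((1 - D.e.map (cG R Γ)) * D.N) +
      s2 R t • (D.e.map (cG R Γ) * (1 - D.N))) := by
  rw [U_eq, Matrix.add_mul, Matrix.one_mul, Matrix.smul_mul, Matrix.mul_add, Matrix.mul_one,
    map_mul_smul_mat _ _ s1_comm, smul_add, smul_smul, s2_mul_s1, Matrix.sub_mul, Matrix.one_mul,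
    Matrix.mul_sub, Matrix.mul_one, smul_sub, smul_sub, sub_smul, neg_smul]
  abel

/-- **The class of an invertible matrix `1 + (t - 1) N`.** -/
theorem k1_U (hR : IsRegularRing R) (u : (Matrix (Fin n) (Fin n) (MonoidAlgebra R Γ))ˣ)
    (hu : (u : Matrix (Fin n) (Fin n) (MonoidAlgebra R Γ)) = D.U) :
    ∃ p : KZero R, k1 u = tauG R t p := by
  classical
  obtain ⟨B0, hB0⟩ := exists_finset_supM D.N
  set B := insert 1 (B0.filter (· ∈ H)) with hB
  have hBH : ∀ h ∈ B, h ∈ H := by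
    intro h hh
    rcases Finset.mem_insert.1 hh with rfl | hh
    · exact H.one_mem
    · exact (Finset.mem_filter.1 hh).2
  have hBN : SupM (B : Set Γ) D.N := by
    intro i k γ hγ
    by_cases h1 : γ ∈ H
    · refine hB0 i k γ fun h2 => hγ ?_
      exact Finset.mem_coe.2 (Finset.mem_insert_of_mem (Finset.mem_filter.2 ⟨h2, h1⟩))
    · exact D.hN i k γ h1
  obtain ⟨q, hq⟩ := D.fchain hBH
  have h1 : kk (fam (cG R Γ) (sc R t B) (D.fm B)) = 0 :=
    kk_fam_nil hR (sc_comm B) (D.fm B) D.K' hq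
  rw [D.fam_eq hBN (Finset.mem_insert_self _ _)] at h1
  set w := (teU (gU R t) (gU_comm t) D.e D.e_idem)⁻¹ with hw
  have h2 : ((w * u : (Matrix (Fin n) (Fin n) (MonoidAlgebra R Γ))ˣ) :
      Matrix (Fin n) (Fin n) (MonoidAlgebra R Γ)) =
      1 + (s1 R t • ((1 - D.e.map (cG R Γ)) * D.N) +
      s2 R t • (D.e.map (cG R Γ) * (1 - D.N))) := by
    rw [Units.val_mul, hu, ← D.te_mul_U]
    rfl
  rw [kk_eq _ h2, k1_mul, hw, k1_inv] at h1
  refine ⟨KZero.kc D.e D.e_idem, ?_⟩
  unfold tauG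
  rw [tau_kc, ks_te (gU R t) (gU_comm t) D.e_idem]
  exact (neg_add_eq_zero.1 h1).symm

end LS

end Pool.Agent.Lib.MP_c052b4_al
end
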