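import Pool.Agent.Lib.MP_c052b4_al.Base
import Pool.Agent.Lib.MP_c052b4_al.BassK
import Pool.Agent.Lib.MP_c052b4_al.DownOne
import Pool.Agent.Lib.MP_c052b4_al.Mg.G080
import Pool.Agent.Lib.MP_c052b4_al.Mg.G067
import Pool.Agent.Lib.MP_c052b4_al.FinOne
import Pool.Agent.Lib.MP_c052b4_al.Mg.G075

section

/-!
# Vanishing of the negative K-groups
-/

set_option autoImplicit false
set_option linter.unusedSectionVars false

namespace Pool.Agent.Lib.MP_c052b4_al

open Kern

universe u v w

/-- functors preserve the property of having trivial value -/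
theorem AbFunctor.subsingleton_of_equiv (F : AbFunctor.{u}) {S T : Type u} [Ring S] [Ring T]
    (e : S ≃+* T) (h : Subsingleton (F.obj S)) : Subsingleton (F.obj T) := by
  have h1 : ∀ x : F.obj T, F.map (e : S →+* T) (F.map (e.symm : T →+* S) x) = x := by
    intro x
    rw [← AddMonoidHom.comp_apply, ← F.map_comp]
    have : (e : S →+* T).comp (e.symm : T →+* S) = RingHom.id T := by ext x; simp
    rw [this, F.map_id]
    rfl
  exact ⟨fun x y => by rw [← h1 x, ← h1 y, Subsingleton.elim (F.map (e.symm : T →+* S) x)]⟩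

theorem TorsionfreeGroup.prod {G : Type v} {H : Type w} [Group G] [Group H]
    (hG : TorsionfreeGroup G) (hH : TorsionfreeGroup H) : TorsionfreeGroup (G × H) := by
  intro g n hn hg
  exact Prod.ext (hG g.1 n hn (congrArg Prod.fst hg)) (hH g.2 n hn (congrArg Prod.snd hg))

/-- vanishing of negative `K`-groups -/
theorem subsingleton_kMinus {R : Type u} [Ring R]
    (h : ∀ (G : Type v) [Group G], TorsionfreeGroup G → KSurj R G) (n : ℕ) :
    ∀ (G : Type v) [Group G], TorsionfreeGroup G →
      Subsingleton ((KMinus (n + 1)).obj (MonoidAlgebra R G)) := by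
  induction n with
  | zero =>
    intro G _ hG
    have h1 := h (Multiplicative ℤ × G) (torsionfree_int.prod hG)
    have h2 : Function.Surjective (KZero.map (polLau (MonoidAlgebra R G) 1)) := by
      intro x
      obtain ⟨y, hy⟩ := h1 (KZero.map
        ((MonoidAlgebra.curryRingEquiv (R := R) (M := Multiplicative ℤ) (N := G)).symm :
          Lau (MonoidAlgebra R G) →+* MonoidAlgebra R (Multiplicative ℤ × G)) x)
      let φ : R →+* Pol (MonoidAlgebra R G) :=
        (MonoidAlgebra.singleOneRingHom).comp MonoidAlgebra.singleOneRingHom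
      refine ⟨KZero.map φ y, ?_⟩
      have h3 : (polLau (MonoidAlgebra R G) 1).comp φ =
          ((MonoidAlgebra.curryRingEquiv (R := R) (M := Multiplicative ℤ) (N := G)) :
            MonoidAlgebra R (Multiplicative ℤ × G) →+* Lau (MonoidAlgebra R G)).comp
            MonoidAlgebra.singleOneRingHom := by
        apply RingHom.ext
        intro r
        change polLau (MonoidAlgebra R G) 1 (MonoidAlgebra.single (1 : Multiplicative ℕ)
          (MonoidAlgebra.single (1 : G) r)) = MonoidAlgebra.curryRingEquiv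
          (MonoidAlgebra.single ((1 : Multiplicative ℤ), (1 : G)) r)
        rw [MonoidAlgebra.curryRingEquiv_single, polLau]
        simp
      rw [← KZero.map_comp, h3, KZero.map_comp, hy, ← KZero.map_comp]
      have h4 : (((MonoidAlgebra.curryRingEquiv (R := R) (M := Multiplicative ℤ) (N := G)) :
            MonoidAlgebra R (Multiplicative ℤ × G) →+* Lau (MonoidAlgebra R G)).comp
          ((MonoidAlgebra.curryRingEquiv (R := R) (M := Multiplicative ℤ) (N := G)).symm :
          Lau (MonoidAlgebra R G) →+* MonoidAlgebra R (Multiplicative ℤ × G))) = RingHom.id _ := by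
        apply RingHom.ext
        intro x
        exact (MonoidAlgebra.curryRingEquiv (R := R) (M := Multiplicative ℤ)
          (N := G)).apply_symm_apply x
      rw [h4, KZero.map_id]
    constructor
    intro x y
    obtain ⟨x, rfl⟩ := QuotientAddGroup.mk_surjective x
    obtain ⟨y, rfl⟩ := QuotientAddGroup.mk_surjective y
    apply (QuotientAddGroup.eq).2
    apply AddSubgroup.mem_sup_left
    exact h2 _
  | succ n ih =>
    intro G _ hG
    have h1 := ih (Multiplicative ℤ × G) (torsionfree_int.prod hG)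
    have h2 := AbFunctor.subsingleton_of_equiv _
      (MonoidAlgebra.curryRingEquiv (R := R) (M := Multiplicative ℤ) (N := G)) h1
    constructor
    intro x y
    obtain ⟨x, rfl⟩ := QuotientAddGroup.mk_surjective x
    obtain ⟨y, rfl⟩ := QuotientAddGroup.mk_surjective y
    rw [Subsingleton.elim x y]

end Pool.Agent.Lib.MP_c052b4_al
end

section

/-!
# Negative `K`-groups for a class of groups closed under products with `ℤ`
-/

set_option autoImplicit false

namespace Pool.Agent.Lib.MP_c052b4_al

universe u v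

theorem subsingleton_kMinus_of {R : Type u} [Ring R] (P : ∀ (G : Type v) [Group G], Prop)
    (hP : ∀ (G : Type v) [Group G], P G → P (Multiplicative ℤ × G))
    (h : ∀ (G : Type v) [Group G], P G → KSurj R G) (n : ℕ) :
    ∀ (G : Type v) [Group G], P G →
      Subsingleton ((KMinus (n + 1)).obj (MonoidAlgebra R G)) := by
  induction n with
  | zero =>
    intro G _ hG
    have h1 := h (Multiplicative ℤ × G) (hP G hG)
    have h2 : Function.Surjective (KZero.map (polLau (MonoidAlgebra R G) 1)) := by
      intro x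
      obtain ⟨y, hy⟩ := h1 (KZero.map
        ((MonoidAlgebra.curryRingEquiv (R := R) (M := Multiplicative ℤ) (N := G)).symm :
          Lau (MonoidAlgebra R G) →+* MonoidAlgebra R (Multiplicative ℤ × G)) x)
      let φ : R →+* Pol (MonoidAlgebra R G) :=
        (MonoidAlgebra.singleOneRingHom).comp MonoidAlgebra.singleOneRingHom
      refine ⟨KZero.map φ y, ?_⟩
      have h3 : (polLau (MonoidAlgebra R G) 1).comp φ =
          ((MonoidAlgebra.curryRingEquiv (R := R) (M := Multiplicative ℤ) (N := G)) :
            MonoidAlgebra R (Multiplicative ℤ × G) →+* Lau (MonoidAlgebra R G)).comp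
            MonoidAlgebra.singleOneRingHom := by
        apply RingHom.ext
        intro r
        change polLau (MonoidAlgebra R G) 1 (MonoidAlgebra.single (1 : Multiplicative ℕ)
          (MonoidAlgebra.single (1 : G) r)) = MonoidAlgebra.curryRingEquiv
          (MonoidAlgebra.single ((1 : Multiplicative ℤ), (1 : G)) r)
        rw [MonoidAlgebra.curryRingEquiv_single, polLau]
        simp
      rw [← KZero.map_comp, h3, KZero.map_comp, hy, ← KZero.map_comp]
      have h4 : (((MonoidAlgebra.curryRingEquiv (R := R) (M := Multiplicative ℤ) (N := G)) :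
            MonoidAlgebra R (Multiplicative ℤ × G) →+* Lau (MonoidAlgebra R G)).comp
          ((MonoidAlgebra.curryRingEquiv (R := R) (M := Multiplicative ℤ) (N := G)).symm :
          Lau (MonoidAlgebra R G) →+* MonoidAlgebra R (Multiplicative ℤ × G))) = RingHom.id _ := by
        apply RingHom.ext
        intro x
        exact (MonoidAlgebra.curryRingEquiv (R := R) (M := Multiplicative ℤ)
          (N := G)).apply_symm_apply x
      rw [h4, KZero.map_id]
    constructor
    intro x y
    obtain ⟨x, rfl⟩ := QuotientAddGroup.mk_surjective x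
    obtain ⟨y, rfl⟩ := QuotientAddGroup.mk_surjective y
    apply (QuotientAddGroup.eq).2
    apply AddSubgroup.mem_sup_left
    exact h2 _
  | succ n ih =>
    intro G _ hG
    have h1 := ih (Multiplicative ℤ × G) (hP G hG)
    have h2 := AbFunctor.subsingleton_of_equiv _
      (MonoidAlgebra.curryRingEquiv (R := R) (M := Multiplicative ℤ) (N := G)) h1
    constructor
    intro x y
    obtain ⟨x, rfl⟩ := QuotientAddGroup.mk_surjective x
    obtain ⟨y, rfl⟩ := QuotientAddGroup.mk_surjective y
    rw [Subsingleton.elim x y]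

end Pool.Agent.Lib.MP_c052b4_al
end

section

/-!
# `K₁` of the group ring of a free product with `ℤ`, and of free groups
-/

set_option autoImplicit false
set_option linter.unusedSectionVars false

namespace Pool.Agent.Lib.MP_c052b4_al

open Matrix Kern HNNExtension

universe u v w

section Gen

variable {R : Type u} [Ring R] {Γ : Type v} [Group Γ]

/-- generation of the group ring -/
theorem mem_closure_of_gen {S : Set Γ} (hS : Subgroup.closure S = ⊤)
    {T : AddSubgroup (MonoidAlgebra R Γ)} (h1 : ∀ r : R, MonoidAlgebra.single 1 r ∈ T)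
    (h2 : ∀ s ∈ S, MonoidAlgebra.single s 1 ∈ T) (h3 : ∀ s ∈ S, MonoidAlgebra.single s⁻¹ 1 ∈ T)
    (x : MonoidAlgebra R Γ) : x ∈ Subring.closure (T : Set (MonoidAlgebra R Γ)) := by
  have key : ∀ γ ∈ Subgroup.closure S,
      MonoidAlgebra.single γ (1 : R) ∈ Subring.closure (T : Set (MonoidAlgebra R Γ)) ∧
      MonoidAlgebra.single γ⁻¹ (1 : R) ∈ Subring.closure (T : Set (MonoidAlgebra R Γ)) := by
    intro γ hγ
    induction hγ using Subgroup.closure_induction with
    | mem s hs => exact ⟨Subring.subset_closure (h2 s hs), Subring.subset_closure (h3 s hs)⟩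
    | one =>
      rw [inv_one]
      exact ⟨Subring.one_mem _, Subring.one_mem _⟩
    | mul a b _ _ ha hb =>
      constructor
      · have := Subring.mul_mem _ ha.1 hb.1
        rwa [MonoidAlgebra.single_mul_single, mul_one] at this
      · have := Subring.mul_mem _ hb.2 ha.2
        rwa [MonoidAlgebra.single_mul_single, mul_one, ← _root_.mul_inv_rev] at this
    | inv a _ ha =>
      rw [inv_inv]
      exact ⟨ha.2, ha.1⟩
  induction x using MonoidAlgebra.induction_linear with
  | zero => exact Subring.zero_mem _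
  | add a b ha hb => exact Subring.add_mem _ ha hb
  | single γ r =>
    have h4 := (key γ (by rw [hS]; trivial)).1
    have h5 : MonoidAlgebra.single 1 r ∈ Subring.closure (T : Set (MonoidAlgebra R Γ)) :=
      Subring.subset_closure (h1 r)
    have := Subring.mul_mem _ h5 h4
    rwa [MonoidAlgebra.single_mul_single, mul_one, one_mul] at this

theorem k1_sU_mem (n : ℕ) (g : Γ) : k1 (sU (Fin n) (gU R g)) ∈ imA1 R Γ := by
  have h1 : (1 : Matrix (Fin n) (Fin n) R) * 1 = 1 := Matrix.one_mul _
  have h2 : sU (Fin n) (gU R g) = teU (gU R g) (gU_comm g) (1 : Matrix (Fin n) (Fin n) R) h1 := by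
    apply Units.ext
    rw [coe_sU]
    change _ = 1 + (((gU R g : (MonoidAlgebra R Γ)ˣ) : MonoidAlgebra R Γ) - 1) •
      (1 : Matrix (Fin n) (Fin n) R).map (cG R Γ)
    rw [Matrix.map_one _ (map_zero _) (map_one _), sub_smul, one_smul]
    abel
  rw [h2, ← ks_te (gU R g) (gU_comm g) h1, ← tau_kc (gU R g) (gU_comm g) h1]
  exact tauG_mem_imA1 g _

end Gen

section FP

variable {R : Type u} [Ring R] {G : Type v} [Group G]

open HN

/-- the retraction -/
noncomputable def rho (G : Type v) [Group G] : FP G →* G :=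
  HNNExtension.lift (MonoidHom.id G) 1 (by
    intro a
    have : (a : G) = 1 := Subgroup.mem_bot.1 a.2
    simp [this])

theorem rho_comp : (rho G).comp (of : G →* FP G) = MonoidHom.id G := by
  ext g
  simp [rho]

theorem rho_t : rho G (t : FP G) = 1 := by simp [rho]

/-- the linear elements -/
noncomputable def T1 (R : Type u) [Ring R] (G : Type v) [Group G] :
    AddSubgroup (MonoidAlgebra R (FP G)) where
  carrier := {a | ∃ c d : MonoidAlgebra R G,
    a = inc R (of : G →* FP G) c + MonoidAlgebra.single t 1 * inc R (of : G →* FP G) d}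
  add_mem' := by
    rintro _ _ ⟨c, d, rfl⟩ ⟨c', d', rfl⟩
    exact ⟨c + c', d + d', by rw [map_add, map_add, mul_add]; abel⟩
  zero_mem' := ⟨0, 0, by simp⟩
  neg_mem' := by
    rintro _ ⟨c, d, rfl⟩
    exact ⟨-c, -d, by rw [map_neg, map_neg, mul_neg, neg_add]⟩

/-- the Laurent linear elements -/
noncomputable def T2 (R : Type u) [Ring R] (G : Type v) [Group G] :
    AddSubgroup (MonoidAlgebra R (FP G)) where
  carrier := {a | ∃ b ∈ T1 R G, ∃ d : MonoidAlgebra R G,
    a = b + MonoidAlgebra.single t⁻¹ 1 * inc R (of : G →* FP G) d}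
  add_mem' := by
    rintro _ _ ⟨c, hc, d, rfl⟩ ⟨c', hc', d', rfl⟩
    exact ⟨c + c', AddSubgroup.add_mem _ hc hc', d + d', by rw [map_add, mul_add]; abel⟩
  zero_mem' := ⟨0, AddSubgroup.zero_mem _, 0, by simp⟩
  neg_mem' := by
    rintro _ ⟨c, hc, d, rfl⟩
    exact ⟨-c, AddSubgroup.neg_mem _ hc, -d, by rw [map_neg, mul_neg, neg_add]⟩

theorem T1_le_T2 : T1 R G ≤ T2 R G := fun a ha => ⟨a, ha, 0, by simp⟩

theorem inc_mem_T1 (c : MonoidAlgebra R G) : inc R (of : G →* FP G) c ∈ T1 R G := ⟨c, 0, by simp⟩

theorem t_mem_T1 : MonoidAlgebra.single (t : FP G) (1 : R) ∈ T1 R G := ⟨0, 1, by simp⟩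

theorem t_inv_mem_T2 : MonoidAlgebra.single (t⁻¹ : FP G) (1 : R) ∈ T2 R G :=
  ⟨0, AddSubgroup.zero_mem _, 1, by simp⟩

theorem closure_FP : Subgroup.closure (Set.range (of : G → FP G) ∪ {t}) = ⊤ := by
  rw [eq_top_iff]
  intro γ _
  induction γ using HNNExtension.induction_on with
  | of g => exact Subgroup.subset_closure (Or.inl ⟨g, rfl⟩)
  | t => exact Subgroup.subset_closure (Or.inr rfl)
  | mul x y hx hy => exact Subgroup.mul_mem _ (hx trivial) (hy trivial)
  | inv x hx => exact Subgroup.inv_mem _ (hx trivial)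

theorem closure_T2 (x : MonoidAlgebra R (FP G)) :
    x ∈ Subring.closure (T2 R G : Set (MonoidAlgebra R (FP G))) := by
  have h0 : ∀ (g : G) (r : R), MonoidAlgebra.single (of g : FP G) r ∈ T2 R G := by
    intro g r
    have := T1_le_T2 (inc_mem_T1 (MonoidAlgebra.single g r))
    simpa using this
  refine mem_closure_of_gen closure_FP ?_ ?_ ?_ x
  · intro r
    have := h0 1 r
    rwa [map_one] at this
  · rintro _ (⟨g, rfl⟩ | rfl)
    · exact h0 g 1
    · exact T1_le_T2 t_mem_T1
  · rintro _ (⟨g, rfl⟩ | rfl)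
    · rw [← map_inv]
      exact h0 _ 1
    · exact t_inv_mem_T2

/-- linear matrices -/
theorem k1_linear_mem (hR : IsRegularRing R) (hG : ∀ x, x ∈ imA1 R G) {n : ℕ}
    (B : (Matrix (Fin n) (Fin n) (MonoidAlgebra R (FP G)))ˣ)
    (hB : ∀ i j, (B : Matrix (Fin n) (Fin n) (MonoidAlgebra R (FP G))) i j ∈ T1 R G) :
    k1 B ∈ imA1 R (FP G) := by
  choose c d hcd using hB
  set C : Matrix (Fin n) (Fin n) (MonoidAlgebra R G) := Matrix.of c with hC
  set E : Matrix (Fin n) (Fin n) (MonoidAlgebra R G) := Matrix.of d with hE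
  have hB2 : (B : Matrix (Fin n) (Fin n) (MonoidAlgebra R (FP G))) =
      C.map (inc R (of : G →* FP G)) + MonoidAlgebra.single (t : FP G) (1 : R) •
        E.map (inc R (of : G →* FP G)) := by
    refine Matrix.ext fun i j => ?_
    rw [Matrix.add_apply, Matrix.smul_apply, Matrix.map_apply, Matrix.map_apply, smul_eq_mul]
    exact hcd i j
  set W0 : (Matrix (Fin n) (Fin n) (MonoidAlgebra R G))ˣ := mU (inc R (rho G)) B with hW0
  have hid : ∀ x, inc R (rho G) (inc R (of : G →* FP G) x) = x := by
    intro x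
    have h1 := MonoidAlgebra.mapDomainRingHom_comp (R := R) (rho G) (of : G →* FP G)
    have h2 := RingHom.congr_fun h1 x
    rw [rho_comp, MonoidAlgebra.mapDomainRingHom_id] at h2
    exact h2.symm
  have ht : inc R (rho G) (MonoidAlgebra.single (t : FP G) (1 : R)) = 1 := by
    simp [rho_t, MonoidAlgebra.one_def]
  have hW0c : (W0 : Matrix (Fin n) (Fin n) (MonoidAlgebra R G)) = C + E := by
    rw [hW0, coe_mU, hB2]
    refine Matrix.ext fun i j => ?_
    rw [Matrix.map_apply, Matrix.add_apply, Matrix.smul_apply, Matrix.map_apply, Matrix.map_apply,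
      Matrix.add_apply, map_add, smul_eq_mul, map_mul, hid, hid, ht, one_mul]
  set W := mU (inc R (of : G →* FP G)) W0 with hW
  have hWc : (W : Matrix (Fin n) (Fin n) (MonoidAlgebra R (FP G))) =
      C.map (inc R (of : G →* FP G)) + E.map (inc R (of : G →* FP G)) := by
    rw [hW, coe_mU, hW0c, Matrix.map_add _ (map_add (inc R (of : G →* FP G)))]
  set N := E.map (inc R (of : G →* FP G)) *
    ((W⁻¹ : (Matrix (Fin n) (Fin n) (MonoidAlgebra R (FP G)))ˣ) :
      Matrix (Fin n) (Fin n) (MonoidAlgebra R (FP G))) with hN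
  set U := B * W⁻¹ with hU
  have hUc : (U : Matrix (Fin n) (Fin n) (MonoidAlgebra R (FP G))) =
      MonoidAlgebra.single (t : FP G) (1 : R) • N + (1 - N) := by
    have h1 : (C.map (inc R (of : G →* FP G)) + E.map (inc R (of : G →* FP G))) *
        ((W⁻¹ : (Matrix (Fin n) (Fin n) (MonoidAlgebra R (FP G)))ˣ) :
      Matrix (Fin n) (Fin n) (MonoidAlgebra R (FP G))) = 1 := by
      rw [← hWc, Units.mul_inv]
    rw [Matrix.add_mul] at h1
    rw [hU, Units.val_mul, hB2, Matrix.add_mul, Matrix.smul_mul, ← hN, ← h1, ← hN]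
    abel
  have hNs : SupM ((of : G →* FP G).range : Set (FP G)) N := by
    have h1 : N = (E * ((W0⁻¹ : (Matrix (Fin n) (Fin n) (MonoidAlgebra R G))ˣ) :
        Matrix (Fin n) (Fin n) (MonoidAlgebra R G))).map (inc R (of : G →* FP G)) := by
      rw [Matrix.map_mul, hN, hW, ← map_inv, coe_mU]
    rw [h1]
    intro i j
    have h2 := sup_inc (R := R) (of : G →* FP G)
      ((E * ((W0⁻¹ : (Matrix (Fin n) (Fin n) (MonoidAlgebra R G))ˣ) :
        Matrix (Fin n) (Fin n) (MonoidAlgebra R G))) i j)
    intro γ hγ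
    exact h2 γ hγ
  let D : LS R (letter G) n :=
    { N := N
      hN := hNs
      V := ((U⁻¹ : (Matrix (Fin n) (Fin n) (MonoidAlgebra R (FP G)))ˣ) :
        Matrix (Fin n) (Fin n) (MonoidAlgebra R (FP G)))
      UV := by rw [← hUc, Units.mul_inv]
      VU := by rw [← hUc, Units.inv_mul] }
  obtain ⟨p, hp⟩ := D.k1_U hR U hUc
  have h3 : k1 B = k1 U + k1 W := by
    rw [← k1_mul, hU, inv_mul_cancel_right]
  rw [h3, hp, hW, ← KOne.map_k1]
  exact AddSubgroup.add_mem _ (tauG_mem_imA1 _ _) (map_imA1 _ (hG _))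

/-- **`K₁` of a free product with an infinite cyclic group.** -/
theorem imA1_FP (hR : IsRegularRing R) (hG : ∀ x, x ∈ imA1 R G)
    (x : KOne (MonoidAlgebra R (FP G))) : x ∈ imA1 R (FP G) := by
  obtain ⟨m, A, rfl⟩ := exists_k1 x
  have h1 : Lz (T2 R G) (k1 A) := lz_of_closure
    (T1_le_T2 (by simpa using inc_mem_T1 (R := R) (G := G) 1)) A (fun i j => closure_T2 _)
  have h2 : ∀ a ∈ T2 R G, ∃ b ∈ T1 R G, ∃ c ∈ (inc R (of : G →* FP G)).range.toAddSubgroup,
      a = b + (((gU R t)⁻¹ : (MonoidAlgebra R (FP G))ˣ) : MonoidAlgebra R (FP G)) * c := by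
    rintro _ ⟨b, hb, d, rfl⟩
    exact ⟨b, hb, _, ⟨d, rfl⟩, rfl⟩
  obtain ⟨n, h3⟩ := lz_inv (T := T1 R G) (T0 := (inc R (of : G →* FP G)).range.toAddSubgroup)
    (by rintro _ ⟨c, rfl⟩; exact inc_mem_T1 c)
    (by simpa using inc_mem_T1 (R := R) (G := G) 1) (gU R t) t_mem_T1 h2 h1
  obtain ⟨q, B, hB, hBz⟩ := h3
  have h4 := k1_linear_mem hR hG B hB
  rw [hBz] at h4
  have h5 := AddSubgroup.sub_mem _ h4 (k1_sU_mem (R := R) n (t : FP G))
  rwa [add_sub_cancel_right] at h5

end FP

section Free

variable {R : Type u} [Ring R]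

open HN

/-- the trivial group -/
theorem imA1_subsingleton {G : Type v} [Group G] [Subsingleton G]
    (x : KOne (MonoidAlgebra R G)) : x ∈ imA1 R G := by
  have h1 : (cG R G).comp (MonoidAlgebra.uniqueRingEquiv (R := R) G :
      MonoidAlgebra R G →+* R) = RingHom.id _ := by
    apply MonoidAlgebra.ringHom_ext
    · intro r
      simp
    · intro g
      simp [Subsingleton.elim g 1]
  have h2 := map_mem_imA1 (G := G) (KOne.map (MonoidAlgebra.uniqueRingEquiv (R := R) G :
      MonoidAlgebra R G →+* R) x)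
  rw [← KOne.map_comp, h1, KOne.map_id] at h2
  exact h2

/-- the embedding of the free group -/
noncomputable def toFP (n : ℕ) : FreeGroup (Fin (n + 1)) →* FP (FreeGroup (Fin n)) :=
  FreeGroup.lift (Fin.cases t fun i => of (FreeGroup.of i))

/-- the retraction -/
noncomputable def ofFP (n : ℕ) : FP (FreeGroup (Fin n)) →* FreeGroup (Fin (n + 1)) :=
  HNNExtension.lift (FreeGroup.map Fin.succ) (FreeGroup.of 0) (by
    intro a
    have : (a : FreeGroup (Fin n)) = 1 := Subgroup.mem_bot.1 a.2
    simp [this])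

theorem ofFP_comp (n : ℕ) : (ofFP n).comp (toFP n) = MonoidHom.id _ := by
  apply FreeGroup.ext_hom
  intro i
  refine Fin.cases ?_ (fun i => ?_) i
  · simp [toFP, ofFP]
  · simp [toFP, ofFP]

/-- **`K₁` of free groups of finite rank.** -/
theorem imA1_freeGroup (hR : IsRegularRing R) (n : ℕ) (x : KOne (MonoidAlgebra R (FreeGroup (Fin n)))) :
    x ∈ imA1 R (FreeGroup (Fin n)) := by
  induction n with
  | zero => exact imA1_subsingleton x
  | succ n ih => exact down1_of_retract (ofFP_comp n) x (imA1_FP hR ih _)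

end Free

end Pool.Agent.Lib.MP_c052b4_al
end

section

/-!
# The image of the assembly map: directed unions, the trivial group, products with `ℤ`
-/

set_option autoImplicit false
set_option linter.unusedSectionVars false

namespace Pool.Agent.Lib.MP_c052b4_al

open Matrix

universe u v w w'

variable {R : Type u} [Ring R] {G : Type v} [Group G]

/-- Z1. The image of the assembly map for directed unions. -/
theorem imA1_of_directed (S : Set (Subgroup G)) (hS : S.Nonempty)
    (hdir : DirectedOn (· ≤ ·) S) (hcov : ∀ g : G, ∃ H ∈ S, g ∈ H)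
    (h : ∀ H ∈ S, imA1 R H = ⊤) : imA1 R G = ⊤ := by
  classical
  rw [eq_top_iff]
  intro x _
  obtain ⟨k, A, rfl⟩ := exists_k1 x
  let A0 : Matrix (Fin k) (Fin k) (MonoidAlgebra R G) := A
  let B0 : Matrix (Fin k) (Fin k) (MonoidAlgebra R G) := (A⁻¹ : (Matrix (Fin k) (Fin k) _)ˣ)
  obtain ⟨K, hK, hT⟩ := exists_mem_of_directed S hS hdir hcov
    ((⋃ i, ⋃ j, ((A0 i j).coeff.support : Set G)) ∪
      ⋃ i, ⋃ j, ((B0 i j).coeff.support : Set G)) (by
      refine Set.Finite.union ?_ ?_ <;>
      exact Set.finite_iUnion fun i => Set.finite_iUnion fun j => Finset.finite_toSet _)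
  let f := K.subtype
  have hf : Function.Injective f := K.subtype_injective
  let A1 : Matrix (Fin k) (Fin k) (MonoidAlgebra R K) := Matrix.of fun i j => rs R f hf (A0 i j)
  let B1 : Matrix (Fin k) (Fin k) (MonoidAlgebra R K) := Matrix.of fun i j => rs R f hf (B0 i j)
  have hA1 : A1.map (inc R f) = A0 := by
    ext1 i j
    refine inc_rs_of_support K (A0 i j) fun g hg => hT ?_
    left
    simp only [Set.mem_iUnion]
    exact ⟨i, j, Finsupp.mem_support_iff.2 hg⟩
  have hB1 : B1.map (inc R f) = B0 := by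
    ext1 i j
    refine inc_rs_of_support K (B0 i j) fun g hg => hT ?_
    right
    simp only [Set.mem_iUnion]
    exact ⟨i, j, Finsupp.mem_support_iff.2 hg⟩
  have hinj : Function.Injective
      (fun M : Matrix (Fin k) (Fin k) (MonoidAlgebra R K) => M.map (inc R f)) :=
    Matrix.map_injective (inc_injective f hf)
  have h1 : A1 * B1 = 1 := by
    apply hinj
    change (A1 * B1).map (inc R f) = (1 : Matrix (Fin k) (Fin k) (MonoidAlgebra R K)).map (inc R f)
    rw [Matrix.map_mul, hA1, hB1, Matrix.map_one _ (map_zero _) (map_one _)]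
    exact A.mul_inv
  have h2 : B1 * A1 = 1 := by
    apply hinj
    change (B1 * A1).map (inc R f) = (1 : Matrix (Fin k) (Fin k) (MonoidAlgebra R K)).map (inc R f)
    rw [Matrix.map_mul, hA1, hB1, Matrix.map_one _ (map_zero _) (map_one _)]
    exact A.inv_mul
  let U : (Matrix (Fin k) (Fin k) (MonoidAlgebra R K))ˣ := ⟨A1, B1, h1, h2⟩
  have h3 : k1 A = KOne.map (inc R f) (k1 U) := by
    rw [KOne.map_k1]
    congr 1
    apply Units.ext
    exact hA1.symm
  rw [h3]
  exact map_imA1 f (by rw [h K hK]; trivial)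

/-- Z2. The trivial group. -/
theorem imA1_of_subsingleton [Subsingleton G] : imA1 R G = ⊤ := by
  rw [eq_top_iff]
  intro x _
  exact imA1_subsingleton x

/-- the identification of the group ring of a product -/
noncomputable def curG (R : Type u) [Ring R] (G : Type v) [Group G] :
    MonoidAlgebra (Lau R) G →+* MonoidAlgebra R (G × Multiplicative ℤ) :=
  ((MonoidAlgebra.curryRingEquiv (R := R) (M := G) (N := Multiplicative ℤ)).symm :
    MonoidAlgebra (Lau R) G →+* MonoidAlgebra R (G × Multiplicative ℤ))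

theorem curG_single (g : G) (z : Multiplicative ℤ) (r : R) :
    curG R G (MonoidAlgebra.single g (MonoidAlgebra.single z r)) =
      MonoidAlgebra.single (g, z) r := by
  have h := MonoidAlgebra.curryRingEquiv_single (R := R) (M := G) (N := Multiplicative ℤ)
    (m := g) (n := z) (r := r)
  unfold curG
  rw [← h]
  exact (MonoidAlgebra.curryRingEquiv (R := R) (M := G) (N := Multiplicative ℤ)).symm_apply_apply _

theorem curG_comp : (curG R G).comp (cG (Lau R) G) =
    MonoidAlgebra.mapDomainRingHom R (MonoidHom.inr G (Multiplicative ℤ)) := by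
  apply MonoidAlgebra.ringHom_ext
  · intro r
    rw [RingHom.comp_apply]
    change curG R G (MonoidAlgebra.single 1 (MonoidAlgebra.single 1 r)) = _
    rw [curG_single]
    simp
  · intro z
    rw [RingHom.comp_apply]
    change curG R G (MonoidAlgebra.single 1 (MonoidAlgebra.single z 1)) = _
    rw [curG_single]
    simp

theorem map_curG_tauG (g : G) (x : KZero R) :
    KOne.map (curG R G) (tauG (Lau R) g (KZero.map (cG R (Multiplicative ℤ)) x)) =
      tauG R (g, (1 : Multiplicative ℤ)) x := by
  have h2 : (KOne.map (curG R G)).comp ((tauG (Lau R) g).comp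
      (KZero.map (cG R (Multiplicative ℤ)))) = tauG R (g, (1 : Multiplicative ℤ)) := by
    apply kZero_hom_ext
    intro p
    rw [AddMonoidHom.comp_apply, AddMonoidHom.comp_apply, KZero.map_cls]
    unfold tauG
    rw [tau_cls, tau_cls, map_ks_te _ _ (gU_comm _) (p.map (cG R (Multiplicative ℤ))).idem]
    have h3 : curG R G ((gU (Lau R) g : (MonoidAlgebra (Lau R) G)ˣ) : MonoidAlgebra (Lau R) G) =
        ((gU R (g, (1 : Multiplicative ℤ)) : (MonoidAlgebra R (G × Multiplicative ℤ))ˣ) :
          MonoidAlgebra R (G × Multiplicative ℤ)) := curG_single g 1 1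
    rw [h3, curG_comp]
    unfold ks
    congr 2
    change ((p.mat.map (cG R (Multiplicative ℤ))).map
      (MonoidAlgebra.mapDomainRingHom R (MonoidHom.inr G (Multiplicative ℤ)))) = _
    rw [Matrix.map_map]
    congr 1
    funext r
    exact RingHom.congr_fun (singleOne_comp (R := R) (MonoidHom.inr G (Multiplicative ℤ))) r
  exact DFunLike.congr_fun h2 x

/-- Z3. Passage to `ℤ × G`. -/
theorem imA1_int_prod (h : ∀ (R : Type u) [Ring R], IsRegularRing R → imA1 R G = ⊤)
    (hR : IsRegularRing R) : imA1 R (Multiplicative ℤ × G) = ⊤ := by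
  have hreg : IsRegularRing (Lau R) := (nice_int hR).reg
  have hsurj : Function.Surjective (KZero.map (cG R (Multiplicative ℤ))) := (nice_int hR).surj
  have key : ∀ x : KOne (MonoidAlgebra R (G × Multiplicative ℤ)),
      x ∈ imA1 R (G × Multiplicative ℤ) := by
    have hle : imA1 (Lau R) G ≤ (imA1 R (G × Multiplicative ℤ)).comap (KOne.map (curG R G)) := by
      refine imA1_le ?_ ?_
      · intro y
        rw [AddSubgroup.mem_comap, ← KOne.map_comp, curG_comp]
        exact map_imA1 _ (imA1_int hR y)
      · intro g y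
        obtain ⟨y, rfl⟩ := hsurj y
        rw [AddSubgroup.mem_comap, map_curG_tauG]
        exact tauG_mem_imA1 _ _
    intro x
    let ψ : MonoidAlgebra R (G × Multiplicative ℤ) →+* MonoidAlgebra (Lau R) G :=
      ((MonoidAlgebra.curryRingEquiv (R := R) (M := G) (N := Multiplicative ℤ)) :
        MonoidAlgebra R (G × Multiplicative ℤ) →+* MonoidAlgebra (Lau R) G)
    have h1 : KOne.map ψ x ∈ imA1 (Lau R) G := by
      rw [h (Lau R) hreg]
      trivial
    have h2 := hle h1
    rw [AddSubgroup.mem_comap, ← KOne.map_comp] at h2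
    have h3 : (curG R G).comp ψ = RingHom.id _ := by
      apply RingHom.ext
      intro x
      exact (MonoidAlgebra.curryRingEquiv (R := R) (M := G)
        (N := Multiplicative ℤ)).symm_apply_apply x
    rw [h3, KOne.map_id] at h2
    exact h2
  rw [eq_top_iff]
  intro x _
  exact imA1_of_mulEquiv (MulEquiv.prodComm : G × Multiplicative ℤ ≃* Multiplicative ℤ × G) key x

end Pool.Agent.Lib.MP_c052b4_al
end
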