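import Pool.Agent.Lib.MP_c052b4_al.Mg.G072
import Pool.Agent.Lib.MP_c052b4_al.Mg.G078
import Pool.Agent.Lib.MP_c052b4_al.Mg.G079
import Pool.Agent.Lib.MP_c052b4_al.TR.TreeAct
import Pool.Agent.Lib.MP_c052b4_al.Mg.G073

section

/-!
# Groups acting on trees: the class of groups
-/

set_option autoImplicit false
set_option linter.unusedSectionVars false

namespace Pool.Agent.Lib.MP_c052b4_al

open Matrix MulAction

universe u v w w'

namespace TreeAction

variable {G : Type v} [Group G] {V : Type w} [MulAction G V] (T : TreeAction G V)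

/-- the orbit of a pair -/
abbrev orb (p : V × V) : MulAction.orbitRel.Quotient G (V × V) := Quotient.mk _ p

theorem orb_smul (g : G) (p : V × V) : orb (G := G) (g • p) = orb p := by
  apply Quotient.sound
  exact ⟨g, rfl⟩

/-- the oriented edges -/
structure Edge where
  pr : V × V
  adj : T.graph.Adj pr.1 pr.2
  lt : WellOrderingRel (orb (G := G) pr) (orb (G := G) pr.swap)

variable {T} in
theorem Edge.ext' {e f : T.Edge} (h : e.pr = f.pr) : e = f := by
  cases e
  cases f
  cases h
  rfl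

instance : MulAction G T.Edge where
  smul g e := ⟨g • e.pr, T.adj_smul g _ _ e.adj, by
    have h1 : orb (G := G) (g • e.pr) = orb e.pr := orb_smul g _
    have h2 : orb (G := G) (g • e.pr).swap = orb e.pr.swap := orb_smul g e.pr.swap
    rw [h1, h2]
    exact e.lt⟩
  one_smul e := Edge.ext' (one_smul G e.pr)
  mul_smul g h e := Edge.ext' (mul_smul g h e.pr)

theorem pr_smul (g : G) (e : T.Edge) : (g • e).pr = g • e.pr := rfl

/-- the oriented tree -/
def otree : OTree G V T.Edge where
  T := T.graph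
  o e := e.pr.1
  t e := e.pr.2
  tree := T.tree
  o_smul _ _ := rfl
  t_smul _ _ := rfl
  adj e := e.adj
  inj e f h1 h2 := Edge.ext' (Prod.ext h1 h2)
  cover x y h := by
    rcases trichotomous_of WellOrderingRel (orb (G := G) (x, y)) (orb (G := G) (y, x)) with h1 | h1 | h1
    · exact Or.inl ⟨⟨(x, y), h, h1⟩, rfl, rfl⟩
    · exfalso
      have h2 : (orbitRel G (V × V)) (x, y) (y, x) := Quotient.exact h1
      obtain ⟨g, hg⟩ := h2
      have h3 : g • y = x := congrArg Prod.fst hg
      have h4 : g • x = y := congrArg Prod.snd hg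
      exact T.no_inversion g x y h h4 h3
    · exact Or.inr ⟨⟨(y, x), h.symm, h1⟩, rfl, rfl⟩
  anti e f h1 h2 := by
    have h3 : f.pr = e.pr.swap := Prod.ext h2.symm h1.symm
    have h4 := f.lt
    rw [h3, Prod.swap_swap] at h4
    exact asymm_of WellOrderingRel h4 e.lt
  tadj := T.adj_smul

theorem stabilizer_edge (e : T.Edge) :
    stabilizer G e = stabilizer G e.pr.1 ⊓ stabilizer G e.pr.2 := by
  ext g
  rw [Subgroup.mem_inf, mem_stabilizer_iff, mem_stabilizer_iff, mem_stabilizer_iff]
  constructor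
  · intro h
    have h1 := congrArg Edge.pr h
    rw [pr_smul] at h1
    exact ⟨congrArg Prod.fst h1, congrArg Prod.snd h1⟩
  · rintro ⟨h1, h2⟩
    exact Edge.ext' (Prod.ext h1 h2)

/-- restriction to a subgroup -/
def comp {H : Type v} [Group H] (f : H →* G) : @TreeAction H _ V (MulAction.compHom V f) :=
  letI : MulAction H V := MulAction.compHom V f
  { graph := T.graph
    tree := T.tree
    adj_smul := fun g x y h => T.adj_smul (f g) x y h
    no_inversion := fun g x y h => T.no_inversion (f g) x y h }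

end TreeAction

/-- `A₁` is onto for all regular coefficient rings. -/
def HK (G : Type v) [Group G] : Prop :=
  ∀ (R : Type u) [Ring R], IsRegularRing R → imA1 R G = ⊤

/-- DP holds for all regular coefficient rings. -/
def HD (G : Type v) [Group G] : Prop :=
  ∀ (R : Type u) [Ring R], IsRegularRing R → DPr (MonoidAlgebra R G)

/-- `RG` is regular coherent for every regular ring `R`. -/
def RegCohGroup (G : Type v) [Group G] : Prop :=
  ∀ (R : Type u) [Ring R], IsRegularRing R → RegCoh (MonoidAlgebra R G)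

/-- Waldhausen's class of groups: the smallest class of groups which contains the trivial groups and
is closed under subgroups, directed unions and tree actions (without inversions) with vertex
stabilizers in the class and regular coherent edge stabilizers. -/
inductive Wald : ∀ (G : Type v) [Group G], Prop
  | triv (G : Type v) [Group G] [Subsingleton G] : Wald G
  | sub (G H : Type v) [Group G] [Group H] (f : H →* G) : Function.Injective f → Wald G → Wald H
  | union (G : Type v) [Group G] (S : Set (Subgroup G)) : S.Nonempty → DirectedOn (· ≤ ·) S →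
      (∀ g : G, ∃ H ∈ S, g ∈ H) → (∀ H ∈ S, Wald H) → Wald G
  | tree (G : Type v) [Group G] (V : Type v) [MulAction G V] (T : TreeAction G V) :
      (∀ v : V, Wald (stabilizer G v)) →
      (∀ x y : V, T.graph.Adj x y →
        RegCohGroup.{u} ↥(stabilizer G x ⊓ stabilizer G y)) → Wald G

theorem HK.int_prod {G : Type v} [Group G] (h : HK.{u} G) : HK.{u} (Multiplicative ℤ × G) :=
  fun _ _ hR => imA1_int_prod h hR

theorem HK.kSurj {G : Type v} [Group G] (h : HK.{u} G) {R : Type u} [Ring R]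
    (hR : IsRegularRing R) : KSurj R G :=
  kSurj_of_imA1 (h.int_prod R hR)

section Trees

variable {G : Type v} [Group G] {V : Type w} [MulAction G V] (T : TreeAction G V)

include T in
theorem hk_of_tree (hv : ∀ v : V, HK.{u} (stabilizer G v))
    (he : ∀ x y : V, T.graph.Adj x y → HK.{u} ↥(stabilizer G x ⊓ stabilizer G y) ∧
      HD.{u} ↥(stabilizer G x ⊓ stabilizer G y)) : HK.{u} G := by
  intro R _ hR
  refine imA1_of_otree T.otree (fun v => hv v R hR) (fun e => ?_) (fun e => ?_)
  · rw [T.stabilizer_edge]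
    exact (he _ _ e.adj).1.kSurj hR
  · rw [T.stabilizer_edge]
    exact (he _ _ e.adj).2 R hR

include T in
theorem hd_of_tree (hv : ∀ v : V, HD.{u} (stabilizer G v))
    (he : ∀ x y : V, T.graph.Adj x y → RegCohGroup.{u} ↥(stabilizer G x ⊓ stabilizer G y)) :
    HD.{u} G := by
  intro R _ hR
  refine dpr_of_otree T.otree (fun v => hv v R hR) (fun e => ?_)
  rw [T.stabilizer_edge]
  exact he _ _ e.adj R hR

end Trees

theorem RegCohGroup.of_injective {G H : Type v} [Group G] [Group H] (f : H →* G)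
    (hf : Function.Injective f) (h : RegCohGroup.{u} G) : RegCohGroup.{u} H :=
  fun R _ hR => (h R hR).of_injective f hf

/-- the induced map of a subgroup and the image -/
def subMap {G H : Type v} [Group G] [Group H] (f : H →* G) (A : Subgroup H) (B : Subgroup G)
    (h : ∀ x ∈ A, f x ∈ B) : A →* B where
  toFun x := ⟨f x.1, h x.1 x.2⟩
  map_one' := Subtype.ext (map_one f)
  map_mul' x y := Subtype.ext (map_mul f x.1 y.1)

theorem subMap_injective {G H : Type v} [Group G] [Group H] (f : H →* G)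
    (hf : Function.Injective f) (A : Subgroup H) (B : Subgroup G)
    (h : ∀ x ∈ A, f x ∈ B) : Function.Injective (subMap f A B h) := by
  intro x y hxy
  exact Subtype.ext (hf (congrArg Subtype.val hxy))

/-- All subgroups of groups in Waldhausen's class satisfy `HK` and `HD`. -/
theorem Wald.hered {G : Type v} [Group G] (h : Wald.{u} G) : ∀ (H : Type v) [Group H] (f : H →* G),
    Function.Injective f → HK.{u} H ∧ HD.{u} H := by
  induction h with
  | triv G =>
    intro H _ f hf
    have : Subsingleton H := hf.subsingleton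
    exact ⟨fun R _ hR => imA1_of_subsingleton, fun R _ hR => (regCoh_of_subsingleton hR).dpr⟩
  | sub G G' g hg _ ih =>
    intro H _ f hf
    exact ih H (g.comp f) (hg.comp hf)
  | union G S hS hdir hcov _ ih =>
    intro H _ f hf
    have hd : DirectedOn (· ≤ ·) ((fun A : Subgroup G => A.comap f) '' S) := by
      rintro _ ⟨A, hA, rfl⟩ _ ⟨B, hB, rfl⟩
      obtain ⟨C, hC, h1, h2⟩ := hdir A hA B hB
      exact ⟨_, ⟨C, hC, rfl⟩, Subgroup.comap_mono h1, Subgroup.comap_mono h2⟩
    have hc : ∀ g : H, ∃ A ∈ ((fun A : Subgroup G => A.comap f) '' S), g ∈ A := by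
      intro g
      obtain ⟨A, hA, hg⟩ := hcov (f g)
      exact ⟨_, ⟨A, hA, rfl⟩, hg⟩
    have key : ∀ B ∈ ((fun A : Subgroup G => A.comap f) '' S), HK.{u} B ∧ HD.{u} B := by
      rintro _ ⟨A, hA, rfl⟩
      exact ih A hA _ (subMap f (A.comap f) A fun x hx => hx) (subMap_injective f hf _ _ _)
    exact ⟨fun R _ hR => imA1_of_directed _ (hS.image _) hd hc fun B hB => (key B hB).1 R hR,
      fun R _ hR => dpr_of_directed _ (hS.image _) hd hc fun B hB => (key B hB).2 R hR⟩
  | tree G V T _ he ih =>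
    intro H _ f hf
    let _ : MulAction H V := MulAction.compHom V f
    let T' : TreeAction H V := T.comp f
    have hv : ∀ v : V, HK.{u} (stabilizer H v) ∧ HD.{u} (stabilizer H v) := fun v =>
      ih v _ (subMap f (stabilizer H v) (stabilizer G v) fun x hx => hx)
        (subMap_injective f hf _ _ _)
    have he1 : ∀ x y : V, T'.graph.Adj x y →
        HK.{u} ↥(stabilizer H x ⊓ stabilizer H y) ∧ HD.{u} ↥(stabilizer H x ⊓ stabilizer H y) :=
      fun x y _ => ih x _ (subMap f (stabilizer H x ⊓ stabilizer H y) (stabilizer G x)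
        fun x hx => hx.1) (subMap_injective f hf _ _ _)
    have he2 : ∀ x y : V, T'.graph.Adj x y →
        RegCohGroup.{u} ↥(stabilizer H x ⊓ stabilizer H y) := fun x y hxy =>
      (he x y hxy).of_injective (subMap f _ (stabilizer G x ⊓ stabilizer G y)
        fun x hx => hx) (subMap_injective f hf _ _ _)
    exact ⟨hk_of_tree T' (fun v => (hv v).1) he1, hd_of_tree T' (fun v => (hv v).2) he2⟩

theorem Wald.hk {G : Type v} [Group G] (h : Wald.{u} G) : HK.{u} G :=
  (h.hered G (MonoidHom.id G) Function.injective_id).1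

theorem Wald.hd {G : Type v} [Group G] (h : Wald.{u} G) : HD.{u} G :=
  (h.hered G (MonoidHom.id G) Function.injective_id).2

/-- **Theorem B.** -/
theorem hk_of_tree_wald {G : Type v} [Group G] {V : Type w} [MulAction G V] (T : TreeAction G V)
    (hv : ∀ v : V, HK.{u} (stabilizer G v))
    (he : ∀ x y : V, T.graph.Adj x y → Wald.{u} ↥(stabilizer G x ⊓ stabilizer G y)) :
    HK.{u} G :=
  hk_of_tree T hv fun x y hxy => ⟨(he x y hxy).hk, (he x y hxy).hd⟩

/-- consequences of `HK` -/
theorem HK.lowDegree {G : Type v} [Group G] (h : HK.{u} G) (R : Type u) [Ring R]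
    (hR : IsRegularRing R) :
    imA R G = ⊤ ∧ Function.Bijective (kMap (MonoidAlgebra.singleOneRingHom : R →+* MonoidAlgebra R G))
      ∧ ∀ n : ℕ, 0 < n → Subsingleton ((KMinus n).obj (MonoidAlgebra R G)) := by
  refine ⟨imA_eq_top_iff.2 (h R hR), ⟨kZero_coeff_injective R G, h.kSurj hR⟩, ?_⟩
  intro n hn
  obtain ⟨m, rfl⟩ : ∃ m, n = m + 1 := ⟨n - 1, by omega⟩
  exact subsingleton_kMinus_of (fun G _ => HK.{u} G) (fun G _ hG => hG.int_prod)
    (fun G _ hG => hG.kSurj hR) m G h

end Pool.Agent.Lib.MP_c052b4_al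
end

section

/-!
# `A₁` is onto for groups acting on trees, with a condition on the rays (second version)
-/

set_option autoImplicit false
set_option linter.unusedSectionVars false

namespace Pool.Agent.Lib.MP_c052b4_al

open Matrix MulAction

universe u v w w'

section Main

variable {R : Type u} [Ring R] {G : Type v} [Group G] {V : Type w} {E : Type w'}
    [MulAction G V] [MulAction G E] (O : OTree G V E)

include O in
/-- **`A₁` is onto for groups acting on trees.** -/
theorem imA1_of_otree_rayT (hV : ∀ v : V, imA1 R (MulAction.stabilizer G v) = ⊤)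
    (hE : ∀ e : E, KSurj R (MulAction.stabilizer G e)) {P : Subgroup G → Prop}
    (hmono : ∀ H H' : Subgroup G, H' ≤ H → P H → P H')
    (hD : ∀ H : Subgroup G, P H → DDP (MonoidAlgebra R H))
    (hray : ∀ x : ℕ → E ⊕ E, (∀ n, O.fol (x n) (x (n + 1))) → ∃ n, P (fixG G x n)) :
    imA1 R G = ⊤ := by
  classical
  rw [eq_top_iff]
  intro x _
  obtain ⟨n, U, rfl⟩ := exists_k1 x
  obtain ⟨r⟩ : Nonempty V := O.tree.connected.nonempty
  obtain ⟨F, M, D, L, hDs, hDt, hL, hLe⟩ := exists_cdata O r U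
  set A := MonoidAlgebra R G with hA
  obtain ⟨U1, hU1, hk1⟩ := D.exists_unit
  -- the nilpotent part
  have hnil : kk (-D.Nh) = 0 :=
    nil_rayT hmono hD (CData.lD M.lE) D.Nh D.isNilpotent_Nh (fltPow (CData.lD M.lE) D.Nh D.isNilpotent_Nh
      fun k ξ ξ' x hx h => CData.unique_step (lE := M.lE) D.Nh D.sp_Nh k ξ ξ' x hx h)
      O.fol (fun g x y => O.fol_smul g x y) D.sp_Nh hray
  rw [hnil, neg_zero] at hk1
  -- the vertex part
  set Pm : Matrix (M.ι ⊕ Fin n) M.κ A := fromRows (D.p * D.s - (1 - D.p) * D.t) D.B with hP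
  set Θ : Matrix (M.ι ⊕ Fin n) M.κ A := fromRows (D.s - D.t) D.B with hΘ
  set Θ' : Matrix M.κ (M.ι ⊕ Fin n) A := fromCols D.ρ D.σ with hΘ'
  have hΘΘ' : Θ * Θ' = 1 := by
    rw [hΘ, hΘ', fromRows_mul_fromCols, D.e2, D.e3, D.e4, D.e5, fromBlocks_one]
  have hΘ'Θ : Θ' * Θ = 1 := by
    rw [hΘ, hΘ', fromCols_mul_fromRows, D.e1]
  let U1m : Matrix (M.ι ⊕ Fin n) (M.ι ⊕ Fin n) A := U1
  let U1i : Matrix (M.ι ⊕ Fin n) (M.ι ⊕ Fin n) A :=
    ((U1⁻¹ : (Matrix (M.ι ⊕ Fin n) (M.ι ⊕ Fin n) A)ˣ) : Matrix (M.ι ⊕ Fin n) (M.ι ⊕ Fin n) A)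
  have hmi : U1m * U1i = 1 := Units.mul_inv U1
  have him : U1i * U1m = 1 := Units.inv_mul U1
  have hU1' : U1m = Pm * Θ' := hU1
  have hPe : Pm = U1m * Θ := by
    rw [hU1', Matrix.mul_assoc, hΘ'Θ, Matrix.mul_one]
  let C : Matrix M.κ (M.ι ⊕ Fin n) A := Θ' * U1i
  have hPC : Pm * C = 1 := by
    change Pm * (Θ' * U1i) = 1
    rw [← Matrix.mul_assoc, ← hU1', hmi]
  have hCP : C * Pm = 1 := by
    change Θ' * U1i * Pm = 1
    rw [hPe, Matrix.mul_assoc, ← Matrix.mul_assoc U1i, him, Matrix.one_mul, hΘ'Θ]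
  let T : Matrix (M.ι ⊕ Fin n) M.κ R := fromRows (zc R M.s - zc R M.t) (zc R M.i0)
  let T' : Matrix M.κ (M.ι ⊕ Fin n) R := fromCols (zc R M.ρ) (zc R M.a)
  have hTT' : T * T' = 1 := by
    change fromRows _ _ * fromCols _ _ = 1
    rw [fromRows_mul_fromCols, e2', e3', e4', e5', fromBlocks_one]
  have hT'T : T' * T = 1 := by
    change fromCols _ _ * fromRows _ _ = 1
    rw [fromCols_mul_fromRows, e1']
  have hT'A : T'.map (cG R G) = fromCols (zc A M.ρ) (zc A M.a) := by
    refine Matrix.ext fun i j => ?_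
    rcases j with j | j
    · change cG R G ((M.ρ i j : ℤ) : R) = ((M.ρ i j : ℤ) : A)
      exact map_intCast _ _
    · change cG R G ((M.a i j : ℤ) : R) = ((M.a i j : ℤ) : A)
      exact map_intCast _ _
  have hfin : ((U1 * L : (Matrix (M.ι ⊕ Fin n) (M.ι ⊕ Fin n) A)ˣ) :
      Matrix (M.ι ⊕ Fin n) (M.ι ⊕ Fin n) A) = Pm * T'.map (cG R G) := by
    change U1m * (L : Matrix (M.ι ⊕ Fin n) (M.ι ⊕ Fin n) A) = _
    rw [hT'A, hPe, Matrix.mul_assoc, ← hLe]
  have hmem := k1_vertex_mem M.lE M.lV O.o O.t O.o_smul O.t_smul r D.p D.p_mul_p D.hg_p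
    (D.p * D.s - (1 - D.p) * D.t) D.B (by
      have h1 : D.p * (D.p * D.s - (1 - D.p) * D.t) = D.p * D.s := by
        rw [Matrix.mul_sub, ← Matrix.mul_assoc, ← Matrix.mul_assoc, D.p_mul_p, D.p_mul_one_sub,
          Matrix.zero_mul, sub_zero]
      rw [h1]
      exact Hg.mul O.o_smul D.hg_p D.hs) (by
      have h1 : (1 - D.p) * (D.p * D.s - (1 - D.p) * D.t) = -((1 - D.p) * D.t) := by
        rw [Matrix.mul_sub, ← Matrix.mul_assoc, ← Matrix.mul_assoc, D.one_sub_mul_p,
          D.one_sub_idem', Matrix.zero_mul, zero_sub]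
      rw [h1]
      exact (Hg.mul O.t_smul ((hg_one M.lE).sub D.hg_p) D.ht).neg) D.hB C hPC hCP T T' hTT' hT'T
      (U1 * L) hfin hV hE
  rw [k1_mul, hk1, zero_add, hL] at hmem
  exact hmem

end Main

end Pool.Agent.Lib.MP_c052b4_al
end

section

/-!
# The class of groups with two-dimensional resolutions by permutation modules
-/

set_option autoImplicit false
set_option linter.unusedSectionVars false

namespace Pool.Agent.Lib.MP_c052b4_al

open Matrix MulAction

universe u v w w'

section Hered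

/-- The group rings over regular rings are regular. -/
def RegGroup (G : Type v) [Group G] : Prop :=
  ∀ (R : Type u) [Ring R], IsRegularRing R → IsRegularRing (MonoidAlgebra R G)

theorem isRegularRing_of_regCoh {C : Type u} [Ring C] (hN : IsNoetherianRing C) (h : RegCoh C) :
    IsRegularRing C := by
  refine ⟨hN, fun M _ _ hM => ?_⟩
  obtain ⟨m, π, hπ⟩ := Module.Finite.exists_fin' C M
  have h1 : IsNoetherian C (Fin m → C) := isNoetherian_pi
  have h2 : Module.Finite C (LinearMap.ker π) := Module.Finite.iff_fg.2 (h1.noetherian _)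
  obtain ⟨n, π', hπ'⟩ := Module.Finite.exists_fin' C (LinearMap.ker π)
  obtain ⟨P, hP⟩ := exists_mat ((LinearMap.ker π).subtype ∘ₗ π')
  have hP' : ∀ v, v ᵥ* P = (π' v : LinearMap.ker π) := hP
  have h3 : rker P = LinearMap.ker π' := by
    ext v
    rw [mem_rker, hP']
    constructor
    · intro h2
      exact Subtype.ext h2
    · intro h2
      have h3 : π' v = 0 := h2
      rw [h3]
      rfl
  obtain ⟨d, hd⟩ := h n m P
  have h4 : HasRes (RingHom.id C) (d + 2) M :=
    ⟨m, π, hπ, n, π', hπ', hd.congr (LinearEquiv.ofEq _ _ h3)⟩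
  exact ⟨d + 2, h4.finProjRes⟩

theorem IsRegularRing.regCoh {C : Type u} [Ring C] (h : IsRegularRing C) : RegCoh C :=
  fun _ _ _ => h.perf_submodule _

theorem RegGroup.of_injective {G H : Type v} [Group G] [Group H] (hG : RegGroup.{u} G)
    (f : H →* G) (hf : Function.Injective f) : RegGroup.{u} H := by
  intro R _ hR
  have h := hG R hR
  refine isRegularRing_of_regCoh ?_ (h.regCoh.of_injective f hf)
  have h0 := h.1
  have h1 : IsNoetherian (MonoidAlgebra R H) (Fin 1 → MonoidAlgebra R H) := by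
    refine ⟨fun K => fg_of_ind_fg f hf K ?_⟩
    have h2 : IsNoetherian (MonoidAlgebra R G) (Fin 1 → MonoidAlgebra R G) := isNoetherian_pi
    exact h2.noetherian _
  exact isNoetherian_of_linearEquiv (LinearEquiv.funUnique (Fin 1) (MonoidAlgebra R H)
    (MonoidAlgebra R H))

theorem RegCohGroup.of_injective' {G H : Type v} [Group G] [Group H] (hG : RegCohGroup.{u} G)
    (f : H →* G) (hf : Function.Injective f) : RegCohGroup.{u} H :=
  fun R _ hR => (hG R hR).of_injective f hf

end Hered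

/-- A resolution `0 → ℤ[U₂] → ℤ[U₁] → ℤ[U₀] → ℤ → 0` of the trivial module by permutation
modules. -/
structure PRes (H : Type v) [Group H] (U₀ U₁ U₂ : Type v) [MulAction H U₀] [MulAction H U₁]
    [MulAction H U₂] where
  d₁ : (U₁ →₀ ℤ) →ₗ[ℤ] (U₀ →₀ ℤ)
  d₂ : (U₂ →₀ ℤ) →ₗ[ℤ] (U₁ →₀ ℤ)
  equivariant₁ : ∀ (h : H) (x : U₁ →₀ ℤ),
    d₁ (x.mapDomain fun u => h • u) = (d₁ x).mapDomain fun u => h • u
  equivariant₂ : ∀ (h : H) (x : U₂ →₀ ℤ),
    d₂ (x.mapDomain fun u => h • u) = (d₂ x).mapDomain fun u => h • u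
  nonempty : Nonempty U₀
  exact₀ : ∀ x : U₀ →₀ ℤ, (x.sum fun _ n => n) = 0 ↔ ∃ y, d₁ y = x
  exact₁ : ∀ x : U₁ →₀ ℤ, d₁ x = 0 ↔ ∃ y, d₂ y = x
  injective : Function.Injective d₂

namespace PRes

variable {H : Type v} [Group H] {U₀ U₁ U₂ : Type v} [MulAction H U₀] [MulAction H U₁]
    [MulAction H U₂] (P : PRes H U₀ U₁ U₂)

/-- restriction to a subgroup -/
def comp {H' : Type v} [Group H'] (f : H' →* H) :
    @PRes H' _ U₀ U₁ U₂ (MulAction.compHom U₀ f) (MulAction.compHom U₁ f)
      (MulAction.compHom U₂ f) :=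
  letI : MulAction H' U₀ := MulAction.compHom U₀ f
  letI : MulAction H' U₁ := MulAction.compHom U₁ f
  letI : MulAction H' U₂ := MulAction.compHom U₂ f
  { d₁ := P.d₁
    d₂ := P.d₂
    equivariant₁ := fun h x => P.equivariant₁ (f h) x
    equivariant₂ := fun h x => P.equivariant₂ (f h) x
    nonempty := P.nonempty
    exact₀ := P.exact₀
    exact₁ := P.exact₁
    injective := P.injective }

theorem ag_int (x : U₀ →₀ ℤ) : ag ℤ x = x.sum fun _ n => n := by
  unfold ag
  rw [Finsupp.lsum_apply]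
  rfl

include P in
/-- the contraction -/
theorem exists_twoC : Nonempty (TwoC H U₀ U₁ U₂) := by
  obtain ⟨u0⟩ := P.nonempty
  have hag : ∀ x : U₀ →₀ ℤ, ag ℤ x = 0 ↔ ∃ y, P.d₁ y = x := by
    intro x
    rw [ag_int]
    exact P.exact₀ x
  -- the map `x ↦ x - ε(x) u0`
  let q : (U₀ →₀ ℤ) →ₗ[ℤ] (U₀ →₀ ℤ) := LinearMap.id - Finsupp.lsingle u0 ∘ₗ ag ℤ
  have hq : ∀ x, q x = x - Finsupp.single u0 (ag ℤ x) := fun x => rfl
  have hq0 : ∀ x, ag ℤ (q x) = 0 := by
    intro x
    rw [hq, map_sub, ag_single, sub_self]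
  let q' : (U₀ →₀ ℤ) →ₗ[ℤ] LinearMap.range P.d₁ :=
    LinearMap.codRestrict _ q fun x => (hag _).1 (hq0 x)
  obtain ⟨σ0, hσ0⟩ := Module.projective_lifting_property P.d₁.rangeRestrict q'
    P.d₁.surjective_rangeRestrict
  have hσ0' : ∀ x, P.d₁ (σ0 x) = x - Finsupp.single u0 (ag ℤ x) := fun x =>
    congrArg Subtype.val (LinearMap.congr_fun hσ0 x)
  -- the second map
  let e := LinearEquiv.ofInjective P.d₂ P.injective
  have he : ∀ y, ((e y : LinearMap.range P.d₂) : U₁ →₀ ℤ) = P.d₂ y := fun y => rfl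
  let r : (U₁ →₀ ℤ) →ₗ[ℤ] (U₁ →₀ ℤ) := LinearMap.id - σ0 ∘ₗ P.d₁
  have hr : ∀ x, r x = x - σ0 (P.d₁ x) := fun x => rfl
  have hr0 : ∀ x, r x ∈ LinearMap.range P.d₂ := by
    intro x
    refine (P.exact₁ _).1 ?_
    rw [hr, map_sub, hσ0', (hag (P.d₁ x)).2 ⟨x, rfl⟩, Finsupp.single_zero, sub_zero, sub_self]
  let σ1 : (U₁ →₀ ℤ) →ₗ[ℤ] (U₂ →₀ ℤ) := e.symm.toLinearMap ∘ₗ LinearMap.codRestrict _ r hr0
  have hσ1 : ∀ x, P.d₂ (σ1 x) = x - σ0 (P.d₁ x) := by
    intro x
    rw [← he]
    change ((e (e.symm _) : LinearMap.range P.d₂) : U₁ →₀ ℤ) = _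
    rw [LinearEquiv.apply_symm_apply]
    rfl
  have hσ1' : ∀ x, σ1 (P.d₂ x) = x := by
    intro x
    apply P.injective
    rw [hσ1, (P.exact₁ _).2 ⟨x, rfl⟩, map_zero, sub_zero]
  refine ⟨{
    d1 := fun u => P.d₁ (Finsupp.single u 1)
    d2 := fun u => P.d₂ (Finsupp.single u 1)
    e1 := fun h u => ?_
    e2 := fun h u => ?_
    u0 := u0
    s0 := fun u => σ0 (Finsupp.single u 1)
    s1 := fun u => σ1 (Finsupp.single u 1)
    h1 := fun u => ?_
    h2 := fun u => ?_
    h3 := fun u => ?_
    h4 := fun u => ?_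
    h5 := fun u => ?_ }⟩
  · rw [← P.equivariant₁, Finsupp.mapDomain_single]
  · rw [← P.equivariant₂, Finsupp.mapDomain_single]
  · rw [TL_of_linear, hσ1']
  · rw [TL_of_linear, TL_of_linear, hσ1, sub_add_cancel]
  · rw [TL_of_linear, hσ0', ag_single, sub_add_cancel]
  · rw [TL_of_linear]
    exact (P.exact₁ _).2 ⟨_, rfl⟩
  · exact (hag _).2 ⟨_, rfl⟩

end PRes

/-- The smallest class of groups which contains the regular coherent groups and is closed under
subgroups, directed unions, tree actions with vertex stabilizers in the class and regular coherent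
edge stabilizers, and actions on two-dimensional complexes (resolutions by permutation modules) with
stabilizers in the class in degree `0`, regular coherent in degree `1`, regular in degree `2`. -/
inductive TDCl : ∀ (G : Type v) [Group G], Prop
  | coh (H : Type v) [Group H] : RegCohGroup.{u} H → TDCl H
  | two (H : Type v) [Group H] (U₀ U₁ U₂ : Type v) [MulAction H U₀] [MulAction H U₁]
      [MulAction H U₂] (P : PRes H U₀ U₁ U₂) :
      (∀ u : U₀, TDCl (stabilizer H u)) → (∀ u : U₁, RegCohGroup.{u} (stabilizer H u)) →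
      (∀ u : U₂, RegGroup.{u} (stabilizer H u)) → TDCl H
  | sub (G H : Type v) [Group G] [Group H] (f : H →* G) : Function.Injective f → TDCl G → TDCl H
  | union (G : Type v) [Group G] (S : Set (Subgroup G)) : S.Nonempty → DirectedOn (· ≤ ·) S →
      (∀ g : G, ∃ H ∈ S, g ∈ H) → (∀ H ∈ S, TDCl H) → TDCl G
  | tree (G : Type v) [Group G] (V : Type v) [MulAction G V] (T : TreeAction G V) :
      (∀ v : V, TDCl (stabilizer G v)) →
      (∀ x y : V, T.graph.Adj x y →
        RegCohGroup.{u} ↥(stabilizer G x ⊓ stabilizer G y)) → TDCl G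

/-- `DDP` holds for all regular coefficient rings. -/
def HDT (G : Type v) [Group G] : Prop :=
  ∀ (R : Type u) [Ring R], IsRegularRing R → DDP (MonoidAlgebra R G)

/-- Regular coherent rings. -/
theorem RegCoh.ddp {C : Type u} [Ring C] (h : RegCoh C) : DDP C := by
  refine ddp_of_rq fun m n M Φ _ hM => ?_
  obtain ⟨k, hk⟩ := RQ.step (n := 0) (h m n M) (rker M).subtype ⊤ (X := rker M) (L := rker M)
    (by rw [Submodule.range_subtype]) (by rw [Submodule.map_top, Submodule.range_subtype]) (by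
      change ⊤ ⊓ LinearMap.ker (rker M).subtype = ⊥
      rw [Submodule.ker_subtype, inf_bot_eq])
  exact ⟨k, rker M, hM, hk⟩

theorem TDCl.hered {G : Type v} [Group G] (h : TDCl.{u} G) : ∀ (H : Type v) [Group H] (f : H →* G),
    Function.Injective f → HDT.{u} H := by
  induction h with
  | coh G hG =>
    intro H _ f hf
    exact fun R _ hR => (hG.of_injective' f hf R hR).ddp
  | two G U₀ U₁ U₂ P _ h1 h2 ih =>
    intro H _ f hf
    let _ : MulAction H U₀ := MulAction.compHom U₀ f
    let _ : MulAction H U₁ := MulAction.compHom U₁ f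
    let _ : MulAction H U₂ := MulAction.compHom U₂ f
    let P' : PRes H U₀ U₁ U₂ := P.comp f
    obtain ⟨T⟩ := P'.exists_twoC
    intro R _ hR
    refine T.ddp' (fun u => ?_) (fun u => ?_) (fun u => ?_)
    · exact ih u _ (subMap f (stabilizer H u) (stabilizer G u) fun x hx => hx)
        (subMap_injective f hf _ _ _) R hR
    · exact (h1 u).of_injective' (subMap f (stabilizer H u) (stabilizer G u) fun x hx => hx)
        (subMap_injective f hf _ _ _) R hR
    · exact (h2 u).of_injective (subMap f (stabilizer H u) (stabilizer G u) fun x hx => hx)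
        (subMap_injective f hf _ _ _) R hR
  | tree G V T _ he ih =>
    intro H _ f hf
    let _ : MulAction H V := MulAction.compHom V f
    let T' : TreeAction H V := T.comp f
    intro R _ hR
    let _ := OTree.emptyAct H
    obtain ⟨TT⟩ := T'.otree.exists_twoC
    refine TT.ddp' (fun u => ?_) (fun e => ?_) (fun u => u.elim)
    · exact ih u _ (subMap f (stabilizer H u) (stabilizer G u) fun x hx => hx)
        (subMap_injective f hf _ _ _) R hR
    · rw [T'.stabilizer_edge]
      exact (he _ _ e.adj).of_injective' (subMap f (stabilizer H e.pr.1 ⊓ stabilizer H e.pr.2)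
        (stabilizer G e.pr.1 ⊓ stabilizer G e.pr.2) fun x hx => hx)
        (subMap_injective f hf _ _ _) R hR
  | sub G G' g hg _ ih =>
    intro H _ f hf
    exact ih H (g.comp f) (hg.comp hf)
  | union G S hS hdir hcov _ ih =>
    intro H _ f hf
    have hd : DirectedOn (· ≤ ·) ((fun A : Subgroup G => A.comap f) '' S) := by
      rintro _ ⟨A, hA, rfl⟩ _ ⟨B, hB, rfl⟩
      obtain ⟨C, hC, h1, h2⟩ := hdir A hA B hB
      exact ⟨_, ⟨C, hC, rfl⟩, Subgroup.comap_mono h1, Subgroup.comap_mono h2⟩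
    have hc : ∀ g : H, ∃ A ∈ ((fun A : Subgroup G => A.comap f) '' S), g ∈ A := by
      intro g
      obtain ⟨A, hA, hg⟩ := hcov (f g)
      exact ⟨_, ⟨A, hA, rfl⟩, hg⟩
    have key : ∀ B ∈ ((fun A : Subgroup G => A.comap f) '' S), HDT.{u} B := by
      rintro _ ⟨A, hA, rfl⟩
      exact ih A hA _ (subMap f (A.comap f) A fun x hx => hx) (subMap_injective f hf _ _ _)
    exact fun R _ hR => ddp_of_directed _ (hS.image _) hd hc fun B hB => key B hB R hR

theorem TDCl.hd {G : Type v} [Group G] (h : TDCl.{u} G) : HDT.{u} G :=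
  h.hered G (MonoidHom.id G) Function.injective_id

theorem TDCl.mono {G : Type v} [Group G] (H H' : Subgroup G) (hH : H' ≤ H) (h : TDCl.{u} H) :
    TDCl.{u} H' := TDCl.sub _ _ (Subgroup.inclusion hH) (Subgroup.inclusion_injective hH) h

/-- Every ray has an initial segment whose pointwise stabilizer lies in the class `TDCl`. -/
def RayCondT {G : Type v} [Group G] {V : Type w} [MulAction G V] (T : TreeAction G V) : Prop :=
  ∀ ρ : ℕ → V, (∀ n, T.graph.Adj (ρ n) (ρ (n + 1))) → (∀ n, ρ (n + 2) ≠ ρ n) →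
    ∃ n : ℕ, TDCl.{u} ↥(⨅ i : Fin (n + 1), stabilizer G (ρ i))

theorem hk_of_tree_rayT {G : Type v} [Group G] {V : Type w} [MulAction G V] (T : TreeAction G V)
    (hray : RayCondT.{u} T) (hv : ∀ v : V, HK.{u} (stabilizer G v))
    (he : ∀ x y : V, T.graph.Adj x y → ∀ (R : Type u) [Ring R], IsRegularRing R →
      KSurj R ↥(stabilizer G x ⊓ stabilizer G y)) : HK.{u} G := by
  intro R _ hR
  refine imA1_of_otree_rayT T.otree (fun v => hv v R hR) (fun e => ?_)
    (P := fun H => TDCl.{u} H) (fun H H' hH h => TDCl.mono H H' hH h) (fun H h => h.hd R hR) ?_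
  · rw [T.stabilizer_edge]
    exact he _ _ e.adj R hR
  · intro x hx
    have h1 : ∀ n, T.otree.org (x (n + 1)) = (T.otree.dd (x n)).1.2 := by
      intro n
      rw [OTree.org_eq]
      exact (hx n).1
    obtain ⟨n, hn⟩ := hray (fun n => T.otree.org (x n)) (fun n => by
      rw [h1, OTree.org_eq]
      exact (T.otree.dd (x n)).2) (fun n => by
      rw [h1, OTree.org_eq]
      exact (hx n).2)
    refine ⟨n, TDCl.mono _ _ ?_ hn⟩
    unfold fixG
    refine iInf_mono fun i => ?_
    intro g hg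
    rw [mem_stabilizer_iff] at hg ⊢
    rw [← OTree.org_smul, hg]

end Pool.Agent.Lib.MP_c052b4_al
end
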