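import Pool.Agent.Lib.MP_c052b4_al.Trans
import Pool.Agent.Lib.MP_c052b4_al.Vas
import Pool.Agent.Lib.MP_c052b4_al.TR.TreeAct

section

/-!
# Exactness at the vertices: definitions

`FC φ D κ`: the operator `D` on row vectors over `T` is `1 + (finite rank over S)` and its class in
`K₁(S)` is `κ`. `trc`, `trl`: multiplication by matrices over a group ring, truncated to the parts of
a colouring of the positions.
-/

set_option autoImplicit false
set_option linter.unusedSectionVars false

namespace Pool.Agent.Lib.MP_c052b4_al.LK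

open Matrix Kern

universe u v w

section General

variable {S : Type u} {T : Type v} [Ring S] [Ring T]

/-- `S`-linear functionals on the row vectors over `T`. -/
structure IsFun (φ : S →+* T) {p : Type*} (a : (p → T) → S) : Prop where
  add : ∀ x y, a (x + y) = a x + a y
  smul : ∀ (s : S) (x : p → T), a (φ s • x) = s * a x

/-- `S`-linear operators on the row vectors over `T`. -/
structure IsOp (φ : S →+* T) {p : Type*} (D : (p → T) → (p → T)) : Prop where
  add : ∀ x y, D (x + y) = D x + D y
  smul : ∀ (s : S) (x : p → T), D (φ s • x) = φ s • D x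

/-- `D = 1 + b ∘ a` where `a` maps to `S ^ k`, and the class of `1 + a ∘ b` is `κ`. -/
def FC (φ : S →+* T) {p : Type*} (D : (p → T) → (p → T)) (κ : KOne S) : Prop :=
  ∃ (k : ℕ) (a : Fin k → (p → T) → S) (b : Fin k → p → T), (∀ i, IsFun φ (a i)) ∧
    (∀ m, D m = m + ∑ i, φ (a i m) • b i) ∧
    IsUnit (1 + Matrix.of fun i j => a j (b i) : Matrix (Fin k) (Fin k) S) ∧
    kk (Matrix.of fun i j => a j (b i) : Matrix (Fin k) (Fin k) S) = κ

/-- Dual bases for finitely many vectors. -/
def LFr (φ : S →+* T) (p : Type*) : Prop :=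
  ∀ (k : ℕ) (x : Fin k → p → T), ∃ (n : ℕ) (q : Fin n → (p → T) → S) (m : Fin n → p → T),
    (∀ t, IsFun φ (q t)) ∧ ∀ i, x i = ∑ t, φ (q t (x i)) • m t

/-- `D` on the image of `P`, the identity on the kernel of `P`. -/
def RS {p : Type*} (D P : (p → T) → (p → T)) : (p → T) → (p → T) := fun m => D (P m) + (m - P m)

/-- The matrix `N` maps the coordinates in `α` to the other ones. -/
def OneS {p : Type*} (α : p → Prop) (N : Matrix p p T) : Prop := ∀ i j, N i j ≠ 0 → α i ∧ ¬ α j

end General

section Group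

variable {R : Type u} [Ring R] {Γ : Type v} [Group Γ]

/-- The vector with one entry `r γ`. -/
noncomputable def es {p : Type*} [DecidableEq p] (γ : Γ) (i : p) (r : R) :
    p → MonoidAlgebra R Γ := Pi.single i (MonoidAlgebra.single γ r)

/-- Finite type over `H`: the operator kills the vectors supported outside finitely many `H`-cosets.
-/
def FT (H : Subgroup Γ) {p : Type*} (W : (p → MonoidAlgebra R Γ) → (p → MonoidAlgebra R Γ)) : Prop :=
  ∃ B : Finset Γ, ∀ m : p → MonoidAlgebra R Γ,
    (∀ i γ, (∃ h ∈ H, ∃ b ∈ B, γ = h * b) → (m i).coeff γ = 0) → W m = 0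

variable {V : Type w} [MulAction Γ V] {C : Type*}

/-- Restriction of a vector to the positions in `X`; the position of `γ eᵢ` is `γ • v i`. -/
noncomputable def resP {p : Type*} (v : p → V) (X : Set V) (m : p → MonoidAlgebra R Γ) :
    p → MonoidAlgebra R Γ := fun j => res {γ | γ • v j ∈ X} (m j)

/-- Multiplication by `N`, truncated to the classes of the colouring. -/
noncomputable def trc {p : Type*} [Fintype p] (col : V → C) (v : p → V)
    (N : Matrix p p (MonoidAlgebra R Γ)) (m : p → MonoidAlgebra R Γ) : p → MonoidAlgebra R Γ :=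
  fun j => ∑ i, (m i).coeff.sum fun γ r =>
    res {γ' | col (γ' • v j) = col (γ • v i)} (MonoidAlgebra.single γ r * N i j)

/-- The composition of the truncated multiplications. -/
noncomputable def trl {p : Type*} [Fintype p] (col : V → C) (v : p → V) :
    List (Matrix p p (MonoidAlgebra R Γ)) → (p → MonoidAlgebra R Γ) → (p → MonoidAlgebra R Γ)
  | [], m => m
  | E :: l, m => trl col v l (trc col v E m)

/-- `H` preserves the partition given by the colouring. -/
def Pres (H : Subgroup Γ) (col : V → C) : Prop :=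
  ∀ h ∈ H, ∀ w w' : V, col (h • w) = col (h • w') ↔ col w = col w'

/-- Modulo `H` only finitely many translates of a pair of points are separated by the colouring. -/
def FinCut (H : Subgroup Γ) (col : V → C) : Prop :=
  ∀ w w' : V, ∃ S : Finset Γ, ∀ γ : Γ, col (γ • w) ≠ col (γ • w') → ∃ h ∈ H, ∃ s ∈ S, γ = h * s

variable (Γ V) in
/-- The combinatorics of a tree: `c y w` is the neighbour of `y` in the direction of `w`, and
`c y y = y`. -/
structure CutSys where
  c : V → V → V
  self : ∀ y, c y y = y
  ne : ∀ y w, w ≠ y → c y w ≠ y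
  adj : ∀ y w, c y (c y w) = c y w
  equiv : ∀ (γ : Γ) (y w : V), c (γ • y) (γ • w) = γ • c y w
  side : ∀ y z, c y z = z → y ≠ z → ∀ w, (c y w = z ↔ c z w ≠ y)
  fin : ∀ w w', {y | c y w ≠ c y w'}.Finite
  noinv : ∀ (γ : Γ) (y z : V), c y z = z → y ≠ z → γ • y = z → γ • z ≠ y

namespace CutSys

variable (K : CutSys Γ V)

/-- `y` and `z` are adjacent -/
def Adj (y z : V) : Prop := K.c y z = z ∧ y ≠ z

/-- the colouring of the two sides of the edge from `y` to `z` -/
def colE (y z : V) (w : V) : Prop := K.c y w = z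

/-- the side of `z` of the edge from `y` to `z` -/
def sideE (y z : V) : Set V := {w | K.c y w = z}

/-- the union of the sides of the translates of the edge from `y` to `z` -/
def sideO (y z : V) : Set V := {w | ∃ h ∈ MulAction.stabilizer Γ y, K.c y w = h • z}

end CutSys

variable (R) in
/-- A product of unipotent matrices which preserves the positions. -/
structure LData (K : CutSys Γ V) (p : Type*) [Fintype p] [DecidableEq p] where
  v : p → V
  l : List (Matrix p p (MonoidAlgebra R Γ))
  W : Matrix p p (MonoidAlgebra R Γ)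
  os : ∀ E ∈ l, ∃ α : p → Prop, OneS α (E - 1)
  lW : l.prod * W = 1
  Wl : W * l.prod = 1
  gr : ∀ i j g, (l.prod i j).coeff g ≠ 0 → g • v j = v i
  grW : ∀ i j g, (W i j).coeff g ≠ 0 → g • v j = v i

/-- The operator `E⁻¹ t(E₁) ⋯ t(E_l)`. -/
noncomputable def LData.D {K : CutSys Γ V} {p : Type*} [Fintype p] [DecidableEq p]
    (L : LData R K p) (col : V → C) (m : p → MonoidAlgebra R Γ) : p → MonoidAlgebra R Γ :=
  trl col L.v L.l (m ᵥ* L.W)

/-- The class of the operator on the part `X`. -/
def LData.Tau {K : CutSys Γ V} {p : Type*} [Fintype p] [DecidableEq p] (L : LData R K p)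
    (H : Subgroup Γ) (col : V → C) (X : Set V) (κ : KOne (MonoidAlgebra R H)) : Prop :=
  FC (inc R H.subtype) (RS (L.D col) (resP L.v X)) κ

variable (Γ) in
/-- Conjugation of the stabilizers of two points. -/
def conjStab (γ : Γ) (y : V) :
    ↥(MulAction.stabilizer Γ y) →* ↥(MulAction.stabilizer Γ (γ • y)) where
  toFun h := ⟨γ * h * γ⁻¹, by
    rw [MulAction.mem_stabilizer_iff, mul_smul, mul_smul, inv_smul_smul, h.2]⟩
  map_one' := Subtype.ext (by simp)
  map_mul' a b := Subtype.ext (by simp [mul_assoc])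

variable (Γ) in
/-- Conjugation of the stabilizers of two pairs. -/
def conjPair (γ : Γ) (y z : V) :
    ↥(MulAction.stabilizer Γ y ⊓ MulAction.stabilizer Γ z) →*
      ↥(MulAction.stabilizer Γ (γ • y) ⊓ MulAction.stabilizer Γ (γ • z)) where
  toFun h := ⟨γ * h * γ⁻¹, by
    have h1 : (h : Γ) • y = y := MulAction.mem_stabilizer_iff.1 (Subgroup.mem_inf.1 h.2).1
    have h2 : (h : Γ) • z = z := MulAction.mem_stabilizer_iff.1 (Subgroup.mem_inf.1 h.2).2
    refine Subgroup.mem_inf.2 ⟨?_, ?_⟩
    · rw [MulAction.mem_stabilizer_iff, mul_smul, mul_smul, inv_smul_smul, h1]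
    · rw [MulAction.mem_stabilizer_iff, mul_smul, mul_smul, inv_smul_smul, h2]⟩
  map_one' := Subtype.ext (by simp)
  map_mul' a b := Subtype.ext (by simp [mul_assoc])

end Group

end Pool.Agent.Lib.MP_c052b4_al.LK
end

section

set_option autoImplicit false
set_option linter.unusedSectionVars false

namespace Pool.Agent.Lib.MP_c052b4_al.LK

open Matrix Kern

universe u v w

section

private theorem d01_exists_next {V : Type w} {G : SimpleGraph V} (hG : G.IsTree) {y w : V}
    (h : w ≠ y) : ∃ z, G.Adj y z ∧ G.dist z w + 1 = G.dist y w := by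
  obtain ⟨p, hp, hl⟩ := hG.1.exists_path_of_dist y w
  cases p with
  | nil => exact absurd rfl h
  | cons hadj q =>
    rename_i z
    refine ⟨z, hadj, ?_⟩
    rw [SimpleGraph.Walk.length_cons] at hl
    have h1 : G.dist z w ≤ q.length := SimpleGraph.dist_le q
    have h2 : G.dist y w ≤ G.dist y z + G.dist z w := hG.1.dist_triangle
    have h3 : G.dist y z = 1 := SimpleGraph.dist_eq_one_iff_adj.2 hadj
    omega

private theorem d01_unique_next {V : Type w} {G : SimpleGraph V} (hG : G.IsTree) {y w z z' : V}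
    (h1 : G.Adj y z) (h2 : G.dist z w + 1 = G.dist y w) (h1' : G.Adj y z')
    (h2' : G.dist z' w + 1 = G.dist y w) : z = z' := by
  obtain ⟨q, hq⟩ := hG.1.exists_walk_length_eq_dist z w
  obtain ⟨q', hq'⟩ := hG.1.exists_walk_length_eq_dist z' w
  have hp : (SimpleGraph.Walk.cons h1 q).IsPath := by
    apply SimpleGraph.Walk.isPath_of_length_eq_dist
    rw [SimpleGraph.Walk.length_cons, hq, h2]
  have hp' : (SimpleGraph.Walk.cons h1' q').IsPath := by
    apply SimpleGraph.Walk.isPath_of_length_eq_dist
    rw [SimpleGraph.Walk.length_cons, hq', h2']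
  have he := (hG.existsUnique_path y w).unique hp hp'
  have h3 := congrArg SimpleGraph.Walk.snd he
  simpa using h3

private theorem d01_dist_smul_le {Γ : Type v} [Group Γ] {V : Type w} [MulAction Γ V]
    (T : TreeAction Γ V) (γ : Γ) (y w : V) :
    T.graph.dist (γ • y) (γ • w) ≤ T.graph.dist y w := by
  obtain ⟨q, hq⟩ := T.tree.1.exists_walk_length_eq_dist y w
  have h := SimpleGraph.dist_le (q.map
    (⟨fun x => γ • x, fun {a b} h => T.adj_smul γ a b h⟩ : T.graph →g T.graph))
  rw [SimpleGraph.Walk.length_map, hq] at h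
  exact h

private theorem d01_dist_smul {Γ : Type v} [Group Γ] {V : Type w} [MulAction Γ V]
    (T : TreeAction Γ V) (γ : Γ) (y w : V) :
    T.graph.dist (γ • y) (γ • w) = T.graph.dist y w := by
  apply le_antisymm (d01_dist_smul_le T γ y w)
  have h := d01_dist_smul_le T γ⁻¹ (γ • y) (γ • w)
  rwa [inv_smul_smul, inv_smul_smul] at h

variable {Γ : Type v} [Group Γ] {V : Type w} [MulAction Γ V]

open Classical in
/-- The neighbour of `y` in the direction of `w`. -/
private noncomputable def d01_c (T : TreeAction Γ V) (y w : V) : V :=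
  if h : w ≠ y then (d01_exists_next T.tree h).choose else y

private theorem d01_c_self (T : TreeAction Γ V) (y : V) : d01_c T y y = y := by
  unfold d01_c
  rw [dif_neg (by simp)]

private theorem d01_c_spec (T : TreeAction Γ V) {y w : V} (h : w ≠ y) :
    T.graph.Adj y (d01_c T y w) ∧ T.graph.dist (d01_c T y w) w + 1 = T.graph.dist y w := by
  unfold d01_c
  rw [dif_pos h]
  exact (d01_exists_next T.tree h).choose_spec

private theorem d01_c_eq (T : TreeAction Γ V) {y w z : V} (h1 : T.graph.Adj y z)
    (h2 : T.graph.dist z w + 1 = T.graph.dist y w) : d01_c T y w = z := by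
  have h : w ≠ y := by
    rintro rfl
    rw [SimpleGraph.dist_self] at h2
    omega
  obtain ⟨h3, h4⟩ := d01_c_spec T h
  exact d01_unique_next T.tree h3 h4 h1 h2

private theorem d01_adj_of (T : TreeAction Γ V) {y z : V} (h : d01_c T y z = z) (hne : y ≠ z) :
    T.graph.Adj y z := by
  have h1 := (d01_c_spec T (Ne.symm hne)).1
  rwa [h] at h1

private theorem d01_c_adj (T : TreeAction Γ V) {y z : V} (h : T.graph.Adj y z) :
    d01_c T y z = z := by
  apply d01_c_eq T h
  rw [SimpleGraph.dist_self, SimpleGraph.dist_eq_one_iff_adj.2 h]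

private theorem d01_step (T : TreeAction Γ V) {w w' y : V}
    (hw : y ≠ w) (h : T.graph.dist y w' = T.graph.dist y w + 1)
    (ha : T.graph.Adj w w') : d01_c T y w = d01_c T y w' := by
  obtain ⟨h1, h2⟩ := d01_c_spec T (Ne.symm hw)
  symm
  apply d01_c_eq T h1
  have h3 : T.graph.dist (d01_c T y w) w' ≤
      T.graph.dist (d01_c T y w) w + T.graph.dist w w' := T.tree.1.dist_triangle
  have h4 : T.graph.dist w w' = 1 := SimpleGraph.dist_eq_one_iff_adj.2 ha
  have h5 : T.graph.dist y w' ≤ T.graph.dist y (d01_c T y w) +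
      T.graph.dist (d01_c T y w) w' := T.tree.1.dist_triangle
  have h6 : T.graph.dist y (d01_c T y w) = 1 := SimpleGraph.dist_eq_one_iff_adj.2 h1
  omega

private theorem d01_fin_adj (T : TreeAction Γ V) {w w' : V} (ha : T.graph.Adj w w') :
    {y | d01_c T y w ≠ d01_c T y w'}.Finite := by
  apply Set.Finite.subset (Set.toFinite ({w, w'} : Set V))
  intro y hy
  by_contra hne
  simp only [Set.mem_insert_iff, Set.mem_singleton_iff, not_or] at hne
  apply hy
  rcases T.tree.dist_eq_dist_add_one_of_adj y ha with h | h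
  · exact (d01_step T hne.2 h ha.symm).symm
  · exact d01_step T hne.1 h ha

private theorem d01_fin (T : TreeAction Γ V) {w w' : V} (p : T.graph.Walk w w') :
    {y | d01_c T y w ≠ d01_c T y w'}.Finite := by
  induction p with
  | nil => simp
  | cons h q ih =>
    rename_i a b e
    apply Set.Finite.subset ((d01_fin_adj T h).union ih)
    intro y hy
    simp only [Set.mem_union, Set.mem_ofPred_eq]
    by_contra hne
    push Not at hne
    exact hy (hne.1.trans hne.2)

/-- The cut system of a tree action. -/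
theorem exists_cutSys (T : TreeAction Γ V) :
    ∃ K : CutSys Γ V, ∀ y z : V, K.Adj y z ↔ T.graph.Adj y z := by
  refine ⟨{
    c := d01_c T
    self := d01_c_self T
    ne := ?_
    adj := ?_
    equiv := ?_
    side := ?_
    fin := ?_
    noinv := ?_ }, ?_⟩
  · intro y w h h'
    have h1 := (d01_c_spec T h).1
    rw [h'] at h1
    exact h1.ne rfl
  · intro y w
    by_cases h : w = y
    · subst h
      rw [d01_c_self, d01_c_self]
    · exact d01_c_adj T (d01_c_spec T h).1
  · intro γ y w
    by_cases h : w = y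
    · subst h
      rw [d01_c_self, d01_c_self]
    · obtain ⟨h1, h2⟩ := d01_c_spec T h
      apply d01_c_eq T (T.adj_smul γ _ _ h1)
      rw [d01_dist_smul, d01_dist_smul, h2]
  · intro y z h hne w
    have ha := d01_adj_of T h hne
    rcases T.tree.dist_eq_dist_add_one_of_adj w ha with h1 | h1
    · rw [SimpleGraph.dist_comm, SimpleGraph.dist_comm (u := w)] at h1
      have h2 : d01_c T y w = z := d01_c_eq T ha h1.symm
      refine ⟨fun _ h3 => ?_, fun _ => h2⟩
      by_cases hw : w = z
      · subst hw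
        rw [d01_c_self] at h3
        exact hne h3.symm
      · have h4 := (d01_c_spec T hw).2
        rw [h3] at h4
        omega
    · rw [SimpleGraph.dist_comm, SimpleGraph.dist_comm (u := w)] at h1
      have h2 : d01_c T z w = y := d01_c_eq T ha.symm h1.symm
      refine ⟨fun h3 => ?_, fun h3 => absurd h2 h3⟩
      by_cases hw : w = y
      · subst hw
        rw [d01_c_self] at h3
        exact absurd h3 hne
      · have h4 := (d01_c_spec T hw).2
        rw [h3] at h4
        omega
  · intro w w'
    obtain ⟨p⟩ := T.tree.1.preconnected w w'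
    exact d01_fin T p
  · intro γ y z h hne
    exact T.no_inversion γ y z (d01_adj_of T h hne)
  · intro y z
    constructor
    · rintro ⟨h, hne⟩
      exact d01_adj_of T h hne
    · intro h
      exact ⟨d01_c_adj T h, h.ne⟩

end

end Pool.Agent.Lib.MP_c052b4_al.LK
end

section

set_option autoImplicit false
set_option linter.unusedSectionVars false

namespace Pool.Agent.Lib.MP_c052b4_al.LK

open Matrix Kern

universe u v w

private theorem a01_zero {S : Type u} {T : Type v} [Ring S] [Ring T] {φ : S →+* T} {p : Type*}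
    {a : (p → T) → S} (ha : IsFun φ a) : a 0 = 0 := by
  have h := ha.smul 0 0
  rwa [map_zero, zero_smul, zero_mul] at h

private theorem a01_sum {S : Type u} {T : Type v} [Ring S] [Ring T] {φ : S →+* T} {p : Type*}
    {a : (p → T) → S} (ha : IsFun φ a) {ι : Type*} (s : Finset ι) (c : ι → S) (x : ι → p → T) :
    a (∑ i ∈ s, φ (c i) • x i) = ∑ i ∈ s, c i * a (x i) := by
  classical
  induction s using Finset.induction_on with
  | empty => rw [Finset.sum_empty, Finset.sum_empty, a01_zero ha]
  | insert i s hi ih => rw [Finset.sum_insert hi, Finset.sum_insert hi, ha.add, ha.smul, ih]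

private theorem a01_aux {S : Type u} {T : Type v} [Ring S] [Ring T] {φ : S →+* T} {p : Type*}
    {D : (p → T) → (p → T)} {k n : ℕ} {a : Fin k → (p → T) → S} {b : Fin k → p → T}
    {q : Fin n → (p → T) → S} {m : Fin n → p → T} (ha : ∀ i, IsFun φ (a i))
    (hq : ∀ t, IsFun φ (q t)) (hD : ∀ m, D m = m + ∑ i, φ (a i m) • b i)
    (hx : ∀ i, b i = ∑ t, φ (q t (b i)) • m t) :
    kk (Matrix.of fun i j => a j (b i) : Matrix (Fin k) (Fin k) S) =
      kk (Matrix.of fun t s => q s (D (m t) - m t) : Matrix (Fin n) (Fin n) S) := by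
  have h1 : (Matrix.of fun i j => a j (b i) : Matrix (Fin k) (Fin k) S) =
      (Matrix.of fun i t => q t (b i) : Matrix (Fin k) (Fin n) S) *
        (Matrix.of fun t j => a j (m t) : Matrix (Fin n) (Fin k) S) := by
    ext i j
    rw [Matrix.mul_apply]
    simp only [Matrix.of_apply]
    rw [← a01_sum (ha j), ← hx i]
  have h2 : (Matrix.of fun t s => q s (D (m t) - m t) : Matrix (Fin n) (Fin n) S) =
      (Matrix.of fun t j => a j (m t) : Matrix (Fin n) (Fin k) S) *
        (Matrix.of fun i t => q t (b i) : Matrix (Fin k) (Fin n) S) := by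
    ext t s
    rw [Matrix.mul_apply]
    simp only [Matrix.of_apply]
    rw [← a01_sum (hq s), hD, add_sub_cancel_left]
  rw [h1, h2, kk_comm]

/-- The class of an operator is unique. -/
theorem FC.unique {S : Type u} {T : Type v} [Ring S] [Ring T] {φ : S →+* T} {p : Type*}
    (hL : LFr φ p) {D : (p → T) → (p → T)} {κ κ' : KOne S} (h : FC φ D κ)
    (h' : FC φ D κ') : κ = κ' := by
  obtain ⟨k, a, b, ha, hD, -, rfl⟩ := h
  obtain ⟨k', a', b', ha', hD', -, rfl⟩ := h'
  obtain ⟨n, q, m, hq, hx⟩ := hL (k + k') (Fin.append b b')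
  rw [a01_aux (q := q) (m := m) ha hq hD, a01_aux (q := q) (m := m) ha' hq hD']
  · intro i
    have h1 := hx (Fin.natAdd k i)
    rwa [Fin.append_right] at h1
  · intro i
    have h1 := hx (Fin.castAdd k' i)
    rwa [Fin.append_left] at h1

end Pool.Agent.Lib.MP_c052b4_al.LK
end

section

set_option autoImplicit false
set_option linter.unusedSectionVars false

namespace Pool.Agent.Lib.MP_c052b4_al.LK

open Matrix Kern

universe u v w

private theorem a02_zero {S : Type u} {T : Type v} [Ring S] [Ring T] {φ : S →+* T} {p : Type*}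
    {a : (p → T) → S} (ha : IsFun φ a) : a 0 = 0 := by
  have h := ha.smul 0 0
  rwa [map_zero, zero_smul, zero_mul] at h

private theorem a02_sum {S : Type u} {T : Type v} [Ring S] [Ring T] {φ : S →+* T} {p : Type*}
    {a : (p → T) → S} (ha : IsFun φ a) {ι : Type*} (s : Finset ι) (c : ι → S) (x : ι → p → T) :
    a (∑ i ∈ s, φ (c i) • x i) = ∑ i ∈ s, c i * a (x i) := by
  classical
  induction s using Finset.induction_on with
  | empty => rw [Finset.sum_empty, Finset.sum_empty, a02_zero ha]
  | insert i s hi ih => rw [Finset.sum_insert hi, Finset.sum_insert hi, ha.add, ha.smul, ih]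

/-- A presentation with an arbitrary finite index type. -/
private theorem a02_of {S : Type u} {T : Type v} [Ring S] [Ring T] {φ : S →+* T} {p : Type*}
    {D : (p → T) → (p → T)} {κ : KOne S} {ι : Type} [Fintype ι] [DecidableEq ι]
    (a : ι → (p → T) → S) (b : ι → p → T) (ha : ∀ i, IsFun φ (a i))
    (hD : ∀ m, D m = m + ∑ i, φ (a i m) • b i) (U : (Matrix ι ι S)ˣ)
    (hU : (U : Matrix ι ι S) = 1 + Matrix.of fun i j => a j (b i)) (hκ : k1 U = κ) :
    FC φ D κ := by
  let e := Fintype.equivFin ι
  have h1 : (Matrix.of fun i j => a (e.symm j) (b (e.symm i)) :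
      Matrix (Fin (Fintype.card ι)) (Fin (Fintype.card ι)) S) =
      (Matrix.of fun i j => a j (b i) : Matrix ι ι S).submatrix e.symm e.symm := rfl
  refine ⟨Fintype.card ι, fun i => a (e.symm i), fun i => b (e.symm i), fun i => ha _,
    fun m => ?_, ?_, ?_⟩
  · rw [hD, ← e.symm.sum_comp]
  · rw [h1, ← coe_rU_add e _ U hU]
    exact Units.isUnit _
  · rw [h1, kk_reindex, kk_eq U hU, hκ]

/-- The class of a composition. -/
theorem FC.comp {S : Type u} {T : Type v} [Ring S] [Ring T] {φ : S →+* T} {p : Type*}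
    {D D' : (p → T) → (p → T)} {κ κ' : KOne S} (h : FC φ D κ) (h' : FC φ D' κ') :
    FC φ (fun m => D (D' m)) (κ + κ') := by
  obtain ⟨k, a, b, ha, hD, ⟨U, hU⟩, rfl⟩ := h
  obtain ⟨k', a', b', ha', hD', ⟨V, hV⟩, rfl⟩ := h'
  have hA : ∀ j m, a j (D' m) = a j m + ∑ l, a' l m * a j (b' l) := by
    intro j m
    rw [hD', (ha j).add, a02_sum (ha j)]
  let Y : Matrix (Fin k) (Fin k') S := Matrix.of fun i l => a' l (b i)
  let Z : Matrix (Fin k') (Fin k) S := Matrix.of fun l j => a j (b' l)
  refine a02_of (ι := Fin k ⊕ Fin k') (Sum.elim (fun j m => a j (D' m)) a') (Sum.elim b b') ?_ ?_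
    (uU (Y * ((V⁻¹ : (Matrix (Fin k') (Fin k') S)ˣ) : Matrix (Fin k') (Fin k') S)) *
      bl U V * lU Z) ?_ ?_
  · rintro (j | l)
    · refine ⟨fun x y => ?_, fun s x => ?_⟩
      · change a j (D' (x + y)) = a j (D' x) + a j (D' y)
        have h0 : D' (x + y) = D' x + D' y := by
          rw [hD', hD', hD']
          have h1 : ∀ i, φ (a' i (x + y)) • b' i = φ (a' i x) • b' i + φ (a' i y) • b' i := by
            intro i
            rw [(ha' i).add, map_add, add_smul]
          rw [Finset.sum_congr rfl fun i _ => h1 i, Finset.sum_add_distrib]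
          abel
        rw [h0, (ha j).add]
      · change a j (D' (φ s • x)) = s * a j (D' x)
        have h0 : D' (φ s • x) = φ s • D' x := by
          rw [hD', hD', smul_add, Finset.smul_sum]
          congr 1
          refine Finset.sum_congr rfl fun i _ => ?_
          rw [(ha' i).smul, map_mul, mul_smul]
        rw [h0, (ha j).smul]
    · exact ha' l
  · intro m
    rw [hD (D' m), Fintype.sum_sum_type]
    simp only [Sum.elim_inl, Sum.elim_inr]
    nth_rewrite 1 [hD' m]
    abel
  · rw [Units.val_mul, Units.val_mul, coe_uU, coe_bl, coe_lU, fromBlocks_multiply,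
      fromBlocks_multiply]
    have h1 : Y * ((V⁻¹ : (Matrix (Fin k') (Fin k') S)ˣ) : Matrix (Fin k') (Fin k') S) *
        (V : Matrix (Fin k') (Fin k') S) = Y := by
      rw [Matrix.mul_assoc, Units.inv_mul, Matrix.mul_one]
    simp only [Matrix.one_mul, Matrix.zero_mul, Matrix.mul_zero, Matrix.mul_one, add_zero,
      zero_add, h1]
    rw [hU, hV]
    ext i j
    rcases i with i | i <;> rcases j with j | j
    · simp [Y, Z, hA, Matrix.mul_apply, Matrix.add_apply, Matrix.one_apply, add_assoc]
    · simp [Y]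
    · simp [Z, hA, Matrix.mul_apply, Matrix.add_apply, Matrix.add_mul]
    · simp [Matrix.one_apply]
  · rw [k1_mul, k1_mul, k1_uU, k1_lU, k1_bl, zero_add, add_zero, kk_eq U hU, kk_eq V hV]

end Pool.Agent.Lib.MP_c052b4_al.LK
end

section

set_option autoImplicit false
set_option linter.unusedSectionVars false

namespace Pool.Agent.Lib.MP_c052b4_al.LK

open Matrix Kern

universe u v w

section

variable {S : Type u} {T : Type v} [Ring S] [Ring T] {φ : S →+* T} {p : Type*}

theorem a03_sum {a : (p → T) → S} (ha : IsFun φ a) {ι : Type*} (s : Finset ι) (x : ι → p → T) :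
    a (∑ i ∈ s, x i) = ∑ i ∈ s, a (x i) := map_sum (AddMonoidHom.mk' a ha.add) x s

theorem a03_neg {a : (p → T) → S} (ha : IsFun φ a) (x : p → T) : a (-x) = - a x :=
  map_neg (AddMonoidHom.mk' a ha.add) x

theorem a03_comb {a : (p → T) → S} (ha : IsFun φ a) {k : ℕ} (s : Fin k → S) (x : Fin k → p → T) :
    a (∑ i, φ (s i) • x i) = ∑ i, s i * a (x i) := by
  rw [a03_sum ha]
  exact Finset.sum_congr rfl fun i _ => ha.smul _ _

theorem FC.isOp {D : (p → T) → (p → T)} {κ : KOne S} (h : FC φ D κ) : IsOp φ D := by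
  obtain ⟨k, a, b, ha, hD, -, -⟩ := h
  constructor
  · intro x y
    rw [hD, hD, hD]
    simp only [(ha _).add, map_add, add_smul, Finset.sum_add_distrib]
    abel
  · intro s x
    rw [hD, hD]
    simp only [(ha _).smul, map_mul, mul_smul, smul_add, Finset.smul_sum]

theorem isUnit_of_inverse {k : ℕ} {a : Fin k → (p → T) → S} {b : Fin k → p → T}
    (ha : ∀ i, IsFun φ (a i)) {D D' : (p → T) → (p → T)}
    (hD : ∀ m, D m = m + ∑ i, φ (a i m) • b i) (h1 : ∀ m, D (D' m) = m)
    (h2 : ∀ m, D' (D m) = m) :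
    IsUnit (1 + Matrix.of fun i j => a j (b i) : Matrix (Fin k) (Fin k) S) := by
  have hadd : ∀ x y, D (x + y) = D x + D y := by
    intro x y
    rw [hD, hD, hD]
    simp only [(ha _).add, map_add, add_smul, Finset.sum_add_distrib]
    abel
  have hsm : ∀ (s : S) (x : p → T), D (φ s • x) = φ s • D x := by
    intro s x
    rw [hD, hD]
    simp only [(ha _).smul, map_mul, mul_smul, smul_add, Finset.smul_sum]
  have hadd' : ∀ x y, D' (x + y) = D' x + D' y := by
    intro x y
    have e := hadd (D' x) (D' y)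
    rw [h1, h1] at e
    rw [← e, h2]
  have hsm' : ∀ (s : S) (x : p → T), D' (φ s • x) = φ s • D' x := by
    intro s x
    have e := hsm s (D' x)
    rw [h1] at e
    rw [← e, h2]
  have hsum' : ∀ (y : Fin k → p → T), D' (∑ i, y i) = ∑ i, D' (y i) := fun y =>
    map_sum (AddMonoidHom.mk' D' hadd') y Finset.univ
  have e1 : ∀ i l, a l (D' (b i)) + ∑ j, a j (D' (b i)) * a l (b j) = a l (b i) := by
    intro i l
    have e := hD (D' (b i))
    rw [h1] at e
    have e' := congrArg (a l) e
    rw [(ha l).add, a03_comb (ha l)] at e'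
    exact e'.symm
  have e2 : ∀ i l, a l (D' (b i)) + ∑ j, a j (b i) * a l (D' (b j)) = a l (b i) := by
    intro i l
    have e := h2 (b i)
    rw [hD, hadd', hsum'] at e
    simp only [hsm'] at e
    have e' := congrArg (a l) e
    rw [(ha l).add, a03_comb (ha l)] at e'
    exact e'
  let X : Matrix (Fin k) (Fin k) S := Matrix.of fun i j => a j (b i)
  let Y : Matrix (Fin k) (Fin k) S := Matrix.of fun i j => a j (D' (b i))
  have f1 : Y + Y * X = X := by
    ext i l
    rw [Matrix.add_apply, Matrix.mul_apply]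
    exact e1 i l
  have f2 : Y + X * Y = X := by
    ext i l
    rw [Matrix.add_apply, Matrix.mul_apply]
    exact e2 i l
  refine ⟨⟨1 + X, 1 - Y, ?_, ?_⟩, rfl⟩
  · have : (1 + X) * (1 - Y) = 1 + X - (Y + X * Y) := by
      simp only [Matrix.add_mul, Matrix.mul_sub, Matrix.one_mul, Matrix.mul_one]
    rw [this, f2, add_sub_cancel_right]
  · have : (1 - Y) * (1 + X) = 1 + X - (Y + Y * X) := by
      simp only [Matrix.sub_mul, Matrix.mul_add, Matrix.one_mul, Matrix.mul_one]
      abel
    rw [this, f1, add_sub_cancel_right]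

theorem FC.inverse {D : (p → T) → (p → T)} {κ : KOne S} (h : FC φ D κ) :
    ∃ D' : (p → T) → (p → T), (∀ m, D (D' m) = m) ∧ (∀ m, D' (D m) = m) ∧
      FC φ D' (-κ) := by
  obtain ⟨k, a, b, ha, hD, ⟨U, hU⟩, hk⟩ := h
  set X : Matrix (Fin k) (Fin k) S := Matrix.of fun i j => a j (b i) with hX
  have hk' : k1 U = κ := by rw [← hk, kk_eq U hU]
  let c : Fin k → p → T := fun i => ∑ j, φ ((U⁻¹ : (Matrix (Fin k) (Fin k) S)ˣ).val i j) • b j
  have hVX : (U⁻¹ : (Matrix (Fin k) (Fin k) S)ˣ).val * X =
      1 - (U⁻¹ : (Matrix (Fin k) (Fin k) S)ˣ).val := by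
    have e : (U⁻¹ : (Matrix (Fin k) (Fin k) S)ˣ).val * U.val = 1 := Units.inv_mul U
    rw [hU, Matrix.mul_add, Matrix.mul_one] at e
    rw [← e, add_sub_cancel_left]
  have hac : ∀ i l, a l (c i) = (1 : Matrix (Fin k) (Fin k) S) i l -
      (U⁻¹ : (Matrix (Fin k) (Fin k) S)ˣ).val i l := by
    intro i l
    have e := congrFun (congrFun hVX i) l
    rw [Matrix.mul_apply, Matrix.sub_apply] at e
    rw [← e, a03_comb (ha l)]
    rfl
  have hone : ∀ (s : Fin k → S) (l : Fin k), ∑ i, s i * (1 : Matrix (Fin k) (Fin k) S) i l = s l := by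
    intro s l
    simp [Matrix.one_apply]
  have hD1 : ∀ m l, a l (m + ∑ i, φ (a i m) • (- c i)) =
      ∑ i, a i m * (U⁻¹ : (Matrix (Fin k) (Fin k) S)ˣ).val i l := by
    intro m l
    rw [(ha l).add, a03_comb (ha l)]
    simp only [a03_neg (ha l), hac, mul_neg, mul_sub, Finset.sum_neg_distrib,
      Finset.sum_sub_distrib, hone]
    abel
  have hD2 : ∀ m l, a l (D m) = ∑ i, a i m * U.val i l := by
    intro m l
    rw [hD, (ha l).add, a03_comb (ha l), hU]
    simp only [Matrix.add_apply, mul_add, Finset.sum_add_distrib, hone]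
    rfl
  refine ⟨fun m => m + ∑ i, φ (a i m) • (- c i), ?_, ?_, ?_⟩
  · intro m
    dsimp only
    rw [hD]
    simp only [hD1]
    have e : ∑ l, φ (∑ i, a i m * (U⁻¹ : (Matrix (Fin k) (Fin k) S)ˣ).val i l) • b l =
        ∑ i, φ (a i m) • c i := by
      simp only [c, map_sum, map_mul, Finset.sum_smul, Finset.smul_sum, mul_smul]
      rw [Finset.sum_comm]
    rw [e]
    simp only [smul_neg, Finset.sum_neg_distrib]
    abel
  · intro m
    dsimp only
    simp only [hD2]
    have e : ∑ i, φ (∑ l, a l m * U.val l i) • c i = ∑ l, φ (a l m) • b l := by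
      have e1 : ∀ i, φ (∑ l, a l m * U.val l i) • c i =
          ∑ j, φ (∑ l, a l m * U.val l i * (U⁻¹ : (Matrix (Fin k) (Fin k) S)ˣ).val i j) • b j := by
        intro i
        simp only [c, Finset.smul_sum, ← mul_smul, ← map_mul, Finset.sum_mul]
      simp only [e1]
      rw [Finset.sum_comm]
      refine Finset.sum_congr rfl fun j _ => ?_
      rw [← Finset.sum_smul, ← map_sum]
      congr 2
      rw [Finset.sum_comm]
      have e2 : ∀ l, ∑ i, a l m * U.val l i * (U⁻¹ : (Matrix (Fin k) (Fin k) S)ˣ).val i j =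
          a l m * (1 : Matrix (Fin k) (Fin k) S) l j := by
        intro l
        have e3 : (U.val * (U⁻¹ : (Matrix (Fin k) (Fin k) S)ˣ).val) l j =
            (1 : Matrix (Fin k) (Fin k) S) l j := by rw [Units.mul_inv]
        rw [← e3, Matrix.mul_apply, Finset.mul_sum]
        simp only [mul_assoc]
      simp only [e2, hone]
    simp only [smul_neg, Finset.sum_neg_distrib]
    rw [e, hD]
    abel
  · have hmat : (1 + Matrix.of fun i j => a j (- c i) : Matrix (Fin k) (Fin k) S) =
        (U⁻¹ : (Matrix (Fin k) (Fin k) S)ˣ).val := by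
      ext i l
      rw [Matrix.add_apply, Matrix.of_apply, a03_neg (ha l), hac]
      abel
    refine ⟨k, a, fun i => - c i, ha, fun m => rfl, ⟨U⁻¹, hmat.symm⟩, ?_⟩
    rw [kk_eq U⁻¹ hmat.symm, ← hk']
    have e := k1_mul U U⁻¹
    rw [mul_inv_cancel, k1_one] at e
    exact (neg_eq_of_add_eq_zero_right e.symm).symm

end

end Pool.Agent.Lib.MP_c052b4_al.LK
end
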