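import Mathlib
import Pool.Agent.Lib.MP_c052b4_al.TR.TreeAct

section

set_option autoImplicit false
set_option linter.unusedSectionVars false

namespace Pool.Agent.Lib.MP_c052b4_al.LK

universe u v w

private theorem e01_mk_eq {Γ : Type v} [Group Γ] {X : Type w} [MulAction Γ X] (p q : X) :
    (Quotient.mk (MulAction.orbitRel Γ X) p = Quotient.mk (MulAction.orbitRel Γ X) q) ↔
      ∃ γ : Γ, γ • q = p := by
  rw [Quotient.eq, MulAction.orbitRel_apply, MulAction.mem_orbit_iff]

open Classical in
/-- Summation over the orbits of vertices and oriented edges. -/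
theorem orbit_sum {Γ : Type v} [Group Γ] {V : Type w} [MulAction Γ V] {B : Type u}
    [AddCommGroup B] (adj : V → V → Prop) (f : V → V → B) (Q : Finset (V × V)) {n : ℕ}
    (y : Fin n → V) (b : Fin n → B)
    (hadj : ∀ (γ : Γ) y z, adj y z → adj (γ • y) (γ • z)) (hsymm : ∀ y z, adj y z → adj z y)
    (hinv : ∀ (γ : Γ) y z, adj y z → γ • y = z → γ • z ≠ y)
    (hf : ∀ (γ : Γ) y z, f (γ • y) (γ • z) = f y z) (hf0 : ∀ y z, ¬ adj y z → f y z = 0)
    (hanti : ∀ y z, adj y z → f y z + f z y = 0)
    (hQ : ∀ y z, f y z ≠ 0 → ∃ γ : Γ, (γ • y, γ • z) ∈ Q)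
    (hZ : ∀ x : V, ∃ Z : Finset V, (∀ z ∈ Z, adj x z) ∧
      (∀ z ∈ Z, ∀ z' ∈ Z, ∀ h ∈ MulAction.stabilizer Γ x, h • z = z' → z = z') ∧
      (∀ z, f x z ≠ 0 → ∃ h ∈ MulAction.stabilizer Γ x, h • z ∈ Z) ∧
      (∑ i, if (∃ γ : Γ, γ • y i = x) then b i else 0) = ∑ z ∈ Z, f x z) :
    ∑ i, b i = 0 := by
  -- orbits of vertices and of pairs
  let m1 : V → Quotient (MulAction.orbitRel Γ V) := Quotient.mk _
  let m2 : V × V → Quotient (MulAction.orbitRel Γ (V × V)) := Quotient.mk _
  have hm1 : ∀ p q : V, m1 p = m1 q ↔ ∃ γ : Γ, γ • q = p := e01_mk_eq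
  have hm2 : ∀ p q : V × V, m2 p = m2 q ↔ ∃ γ : Γ, γ • q = p := e01_mk_eq
  let F : Quotient (MulAction.orbitRel Γ (V × V)) → B :=
    Quotient.lift (fun p : V × V => f p.1 p.2) (by
      intro p q h
      obtain ⟨γ, rfl⟩ := (e01_mk_eq p q).1 (Quotient.sound h)
      exact hf γ q.1 q.2)
  have hF : ∀ a c : V, F (m2 (a, c)) = f a c := fun a c => rfl
  let sw : Quotient (MulAction.orbitRel Γ (V × V)) → Quotient (MulAction.orbitRel Γ (V × V)) :=
    Quotient.lift (fun p : V × V => m2 (p.2, p.1)) (by
      intro p q h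
      obtain ⟨γ, rfl⟩ := (e01_mk_eq p q).1 (Quotient.sound h)
      exact (hm2 _ _).2 ⟨γ, rfl⟩)
  have hsw : ∀ a c : V, sw (m2 (a, c)) = m2 (c, a) := fun a c => rfl
  let fst : Quotient (MulAction.orbitRel Γ (V × V)) → Quotient (MulAction.orbitRel Γ V) :=
    Quotient.lift (fun p : V × V => m1 p.1) (by
      intro p q h
      obtain ⟨γ, rfl⟩ := (e01_mk_eq p q).1 (Quotient.sound h)
      exact (hm1 _ _).2 ⟨γ, rfl⟩)
  have hfst : ∀ a c : V, fst (m2 (a, c)) = m1 a := fun a c => rfl
  have hind : ∀ o : Quotient (MulAction.orbitRel Γ (V × V)), ∃ a c : V, m2 (a, c) = o := by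
    intro o
    obtain ⟨p, hp⟩ := Quotient.exists_rep o
    exact ⟨p.1, p.2, hp⟩
  -- the orbits with nonzero value
  let P : Finset (Quotient (MulAction.orbitRel Γ (V × V))) := (Q.image m2).filter fun o => F o ≠ 0
  have hP : ∀ o, F o ≠ 0 → o ∈ P := by
    intro o ho
    obtain ⟨a, c, rfl⟩ := hind o
    obtain ⟨γ, hγ⟩ := hQ a c ho
    refine Finset.mem_filter.2 ⟨Finset.mem_image.2 ⟨_, hγ, ?_⟩, ho⟩
    exact (hm2 _ _).2 ⟨γ, rfl⟩
  have hP' : ∀ o ∈ P, F o ≠ 0 := fun o ho => (Finset.mem_filter.1 ho).2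
  have hadjF : ∀ a c : V, F (m2 (a, c)) ≠ 0 → adj a c := by
    intro a c h
    by_contra hn
    exact h (hf0 a c hn)
  -- the sum over all pairs vanishes
  have hsum : ∑ o ∈ P, F o = 0 := by
    refine Finset.sum_involution (fun o _ => sw o) ?_ ?_ ?_ ?_
    · intro o ho
      obtain ⟨a, c, rfl⟩ := hind o
      rw [hsw, hF, hF]
      exact hanti a c (hadjF a c (hP' _ ho))
    · intro o ho hne
      obtain ⟨a, c, rfl⟩ := hind o
      rw [hsw]
      intro he
      obtain ⟨γ, hγ⟩ := (hm2 _ _).1 he
      have h1 : γ • a = c := congrArg Prod.fst hγ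
      have h2 : γ • c = a := congrArg Prod.snd hγ
      exact hinv γ a c (hadjF a c (hP' _ ho)) h1 h2
    · intro o ho
      obtain ⟨a, c, rfl⟩ := hind o
      apply hP
      rw [hsw, hF]
      intro h0
      have h1 := hanti a c (hadjF a c (hP' _ ho))
      rw [h0, add_zero] at h1
      exact hP' _ ho h1
    · intro o ho
      obtain ⟨a, c, rfl⟩ := hind o
      rw [hsw, hsw]
  -- the fibre over one orbit of vertices
  have hfib : ∀ q : Quotient (MulAction.orbitRel Γ V),
      (∑ o ∈ P with fst o = q, F o) = ∑ i, if m1 (y i) = q then b i else 0 := by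
    intro q
    obtain ⟨x, hx⟩ := Quotient.exists_rep q
    obtain ⟨Z, hZ1, hZ2, hZ3, hZ4⟩ := hZ x
    have h1 : (∑ i, if m1 (y i) = q then b i else 0) =
        ∑ i, if (∃ γ : Γ, γ • y i = x) then b i else 0 := by
      refine Finset.sum_congr rfl fun i _ => ?_
      have : (m1 (y i) = q) ↔ ∃ γ : Γ, γ • y i = x := by
        rw [← hx]
        change m1 (y i) = m1 x ↔ _
        rw [eq_comm, hm1]
      simp only [this]
    rw [h1, hZ4]
    symm
    have h2 : ∑ z ∈ Z, f x z = ∑ z ∈ Z with f x z ≠ 0, f x z := by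
      rw [Finset.sum_filter_ne_zero]
    rw [h2]
    refine Finset.sum_bij (fun z _ => m2 (x, z)) ?_ ?_ ?_ ?_
    · intro z hz
      have hz' := (Finset.mem_filter.1 hz).2
      refine Finset.mem_filter.2 ⟨hP _ hz', ?_⟩
      rw [hfst]
      exact hx
    · intro z hz z' hz' he
      obtain ⟨γ, hγ⟩ := (hm2 _ _).1 he
      have h1 : γ • x = x := congrArg Prod.fst hγ
      have h2 : γ • z' = z := congrArg Prod.snd hγ
      exact (hZ2 z' (Finset.mem_filter.1 hz').1 z (Finset.mem_filter.1 hz).1 γ
        (MulAction.mem_stabilizer_iff.2 h1) h2).symm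
    · intro o ho
      obtain ⟨ho1, ho2⟩ := Finset.mem_filter.1 ho
      obtain ⟨a, c, rfl⟩ := hind o
      rw [hfst, ← hx] at ho2
      obtain ⟨γ, hγ⟩ := (hm1 x a).1 ho2.symm
      have h3 : m2 (a, c) = m2 (x, γ • c) := by
        rw [eq_comm]
        exact (hm2 _ _).2 ⟨γ, by rw [← hγ]; rfl⟩
      have h4 : f x (γ • c) ≠ 0 := by
        rw [← hF, ← h3]
        exact hP' _ ho1
      obtain ⟨h, hh, hhZ⟩ := hZ3 _ h4
      have h5 : m2 (x, h • γ • c) = m2 (x, γ • c) :=
        (hm2 _ _).2 ⟨h, by
          change (h • x, h • γ • c) = _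
          rw [MulAction.mem_stabilizer_iff.1 hh]⟩
      refine ⟨h • γ • c, Finset.mem_filter.2 ⟨hhZ, ?_⟩, ?_⟩
      · rw [← hF, h5]
        exact h4
      · rw [h5, h3]
    · intro z hz
      rfl
  -- summation over the orbits
  let T : Finset (Quotient (MulAction.orbitRel Γ V)) :=
    (Finset.univ.image fun i => m1 (y i)) ∪ P.image fst
  have h1 : ∑ q ∈ T, ∑ o ∈ P with fst o = q, F o = ∑ o ∈ P, F o :=
    Finset.sum_fiberwise_of_maps_to (fun o ho =>
      Finset.mem_union_right _ (Finset.mem_image_of_mem _ ho)) _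
  have h2 : ∑ q ∈ T, (∑ i, if m1 (y i) = q then b i else 0) = ∑ i, b i := by
    rw [Finset.sum_comm]
    refine Finset.sum_congr rfl fun i _ => ?_
    rw [Finset.sum_ite_eq, if_pos]
    exact Finset.mem_union_left _ (Finset.mem_image_of_mem _ (Finset.mem_univ i))
  calc ∑ i, b i = ∑ q ∈ T, (∑ i, if m1 (y i) = q then b i else 0) := h2.symm
    _ = ∑ q ∈ T, ∑ o ∈ P with fst o = q, F o := Finset.sum_congr rfl fun q _ => (hfib q).symm
    _ = ∑ o ∈ P, F o := h1
    _ = 0 := hsum

end Pool.Agent.Lib.MP_c052b4_al.LK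
end

section

/-!
# The abelianization of a group acting on a tree modulo the vertex groups is torsionfree
-/

set_option autoImplicit false
set_option linter.unusedSectionVars false

namespace Pool.Agent.Lib.MP_c052b4_al.LK

universe u v w

/-- The sum of a function along a walk. -/
def wsum {V : Type w} {Gr : SimpleGraph V} {C : Type*} [AddCommGroup C] (D : V → V → C) :
    ∀ {a b : V}, Gr.Walk a b → C
  | _, _, .nil => 0
  | a, _, .cons (v := b) _ p => D a b + wsum D p

theorem wsum_nil {V : Type w} {Gr : SimpleGraph V} {C : Type*} [AddCommGroup C] (D : V → V → C)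
    (a : V) : wsum D (SimpleGraph.Walk.nil : Gr.Walk a a) = 0 := rfl

theorem wsum_cons {V : Type w} {Gr : SimpleGraph V} {C : Type*} [AddCommGroup C] (D : V → V → C)
    {a b c : V} (h : Gr.Adj a b) (p : Gr.Walk b c) :
    wsum D (SimpleGraph.Walk.cons h p) = D a b + wsum D p := rfl

theorem wsum_append {V : Type w} {Gr : SimpleGraph V} {C : Type*} [AddCommGroup C]
    (D : V → V → C) {a b c : V} (p : Gr.Walk a b) (q : Gr.Walk b c) :
    wsum D (p.append q) = wsum D p + wsum D q := by
  induction p with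
  | nil => rw [SimpleGraph.Walk.nil_append, wsum_nil, zero_add]
  | cons h p ih => rw [SimpleGraph.Walk.cons_append, wsum_cons, wsum_cons, ih, add_assoc]

/-- Antisymmetric functions on the oriented edges of a tree are differences. -/
theorem exists_potential {V : Type w} {Gr : SimpleGraph V} (hG : Gr.IsTree) {C : Type*}
    [AddCommGroup C] (D : V → V → C) (hD : ∀ v w, Gr.Adj v w → D w v = - D v w) :
    ∃ F : V → C, ∀ v w, Gr.Adj v w → F w - F v = D v w := by
  classical
  obtain ⟨v0⟩ := hG.connected.nonempty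
  have hex : ∀ v : V, ∃ p : Gr.Walk v0 v, p.IsPath := fun v => by
    obtain ⟨p⟩ := hG.connected.preconnected v0 v
    exact ⟨p.bypass, p.bypass_isPath⟩
  choose P hP using hex
  refine ⟨fun v => wsum D (P v), fun v w h => ?_⟩
  have huniq : ∀ {a b : V} (p q : Gr.Walk a b), p.IsPath → q.IsPath → p = q := by
    intro a b p q hp hq
    have := hG.isAcyclic.subsingleton_path a b
    exact congrArg Subtype.val (Subsingleton.elim (⟨p, hp⟩ : Gr.Path a b) ⟨q, hq⟩)
  by_cases hw : w ∈ (P v).support
  · have h1 : (P v).takeUntil w hw = P w :=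
      huniq _ _ ((hP v).takeUntil hw) (hP w)
    have h2 : (P v).dropUntil w hw = SimpleGraph.Walk.cons h.symm SimpleGraph.Walk.nil := by
      refine huniq _ _ ((hP v).dropUntil hw) ?_
      rw [SimpleGraph.Walk.cons_isPath_iff]
      refine ⟨SimpleGraph.Walk.IsPath.nil, ?_⟩
      simp only [SimpleGraph.Walk.support_nil, List.mem_singleton]
      exact h.ne'
    have h3 : wsum D (P v) = wsum D (P w) + D w v := by
      conv_lhs => rw [← (P v).take_spec hw]
      rw [wsum_append, h1, h2, wsum_cons, wsum_nil, add_zero]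
    show wsum D (P w) - wsum D (P v) = D v w
    rw [h3, hD v w h]
    abel
  · have h1 : (P v).append (SimpleGraph.Walk.cons h SimpleGraph.Walk.nil) = P w := by
      refine huniq _ _ ?_ (hP w)
      have h2 := (hP v).concat hw h
      rwa [SimpleGraph.Walk.concat] at h2
    show wsum D (P w) - wsum D (P v) = D v w
    rw [← h1, wsum_append, wsum_cons, wsum_nil, add_zero]
    abel

/-- The abelianization modulo the vertex groups is torsionfree. -/
theorem ab_torsionfree {G : Type v} [Group G] {V : Type w} [MulAction G V] (T : TreeAction G V)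
    (N : Subgroup (Abelianization G)) (hN : ∀ (g : G) (x : V), g • x = x →
      Abelianization.of g ∈ N) (hN' : ∀ N' : Subgroup (Abelianization G),
        (∀ (g : G) (x : V), g • x = x → Abelianization.of g ∈ N') → N ≤ N')
    (a : Abelianization G) (n : ℕ) (hn : 0 < n) (h : a ^ n ∈ N) : a ∈ N := by
  classical
  let O := Quotient (MulAction.orbitRel G (V × V))
  let m : V → V → O := fun x y => Quotient.mk _ (x, y)
  have hm : ∀ (g : G) (x y : V), m (g • x) (g • y) = m x y := by
    intro g x y
    exact Quotient.sound ⟨g, rfl⟩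
  have hm' : ∀ {x y x' y' : V}, m x y = m x' y' → ∃ g : G, g • x' = x ∧ g • y' = y := by
    intro x y x' y' hxy
    obtain ⟨g, hg⟩ := Quotient.exact hxy
    exact ⟨g, congrArg Prod.fst hg, congrArg Prod.snd hg⟩
  have hne : ∀ x y, T.graph.Adj x y → m x y ≠ m y x := by
    intro x y hxy he
    obtain ⟨g, h1, h2⟩ := hm' he
    exact T.no_inversion g x y hxy h2 h1
  let _ : LinearOrder O := linearOrderOfSTO WellOrderingRel
  -- the class of an oriented edge
  let D : V → V → (O →₀ ℤ) := fun x y =>
    if m x y < m y x then Finsupp.single (m x y) 1 else - Finsupp.single (m y x) 1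
  have hD : ∀ x y, T.graph.Adj x y → D y x = - D x y := by
    intro x y hxy
    show (if m y x < m x y then Finsupp.single (m y x) 1 else - Finsupp.single (m x y) 1) =
      - (if m x y < m y x then Finsupp.single (m x y) 1 else - Finsupp.single (m y x) (1 : ℤ))
    rcases lt_or_gt_of_ne (hne x y hxy) with h1 | h1
    · rw [if_neg (not_lt_of_gt h1), if_pos h1]
    · rw [if_pos h1, if_neg (not_lt_of_gt h1), neg_neg]
  obtain ⟨F, hF⟩ := exists_potential T.tree D hD
  obtain ⟨v0⟩ := T.tree.connected.nonempty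
  have hDs : ∀ (g : G) (x y : V), D (g • x) (g • y) = D x y := by
    intro g x y
    show (if m (g • x) (g • y) < m (g • y) (g • x) then
      Finsupp.single (m (g • x) (g • y)) 1 else - Finsupp.single (m (g • y) (g • x)) 1) = D x y
    rw [hm, hm]
  -- the function is quasi invariant
  have hinv : ∀ (g : G) (x y : V), F (g • x) - F x = F (g • y) - F y := by
    intro g x y
    obtain ⟨p⟩ := T.tree.connected.preconnected x y
    induction p with
    | nil => rfl
    | @cons a b c hab p ih =>
      rw [← ih]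
      have h1 := hF a b hab
      have h2 := hF (g • a) (g • b) (T.adj_smul g a b hab)
      rw [hDs, ← h1] at h2
      rw [sub_eq_sub_iff_add_eq_add] at h2 ⊢
      rw [add_comm, ← h2, add_comm]
  let φ : G →* Multiplicative (O →₀ ℤ) :=
    { toFun := fun g => Multiplicative.ofAdd (F (g • v0) - F v0)
      map_one' := by
        rw [one_smul, sub_self]
        rfl
      map_mul' := fun g g' => by
        rw [← ofAdd_add, mul_smul]
        congr 1
        rw [hinv g v0 (g' • v0)]
        abel }
  have hφ : ∀ (g : G) (x : V), φ g = Multiplicative.ofAdd (F (g • x) - F x) := fun g x =>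
    congrArg Multiplicative.ofAdd (hinv g v0 x)
  -- labels of the vertices in the quotient
  let A := Abelianization G ⧸ N
  let lam : G →* A := (QuotientGroup.mk' N).comp Abelianization.of
  have hlam : ∀ (g : G) (x : V), g • x = x → lam g = 1 := fun g x hg =>
    (QuotientGroup.eq_one_iff _).2 (hN g x hg)
  let r : V → V := fun x => (Quotient.mk (MulAction.orbitRel G V) x).out
  have hr : ∀ x : V, ∃ g : G, g • r x = x := by
    intro x
    obtain ⟨g, hg⟩ := Quotient.exact (Quotient.out_eq (Quotient.mk (MulAction.orbitRel G V) x)).symm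
    exact ⟨g, hg⟩
  have hr' : ∀ (g : G) (x : V), r (g • x) = r x := by
    intro g x
    show (Quotient.mk (MulAction.orbitRel G V) (g • x)).out = _
    have h1 : Quotient.mk (MulAction.orbitRel G V) (g • x) = Quotient.mk _ x :=
      Quotient.sound ⟨g, rfl⟩
    rw [h1]
  choose s hs using hr
  let mu : V → A := fun x => lam (s x)
  have hmu : ∀ (g : G) (x : V), mu (g • x) = lam g * mu x := by
    intro g x
    show lam (s (g • x)) = lam g * lam (s x)
    have h1 : ((g * s x)⁻¹ * s (g • x)) • r x = r x := by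
      rw [mul_smul, ← hr' g x, hs, inv_smul_eq_iff, mul_smul, hr' g x, hs]
    have h2 := hlam _ _ h1
    rw [map_mul, map_inv, inv_mul_eq_one, map_mul] at h2
    exact h2.symm
  let del : O → Additive A := Quotient.lift
    (fun p : V × V => Additive.ofMul ((mu p.1)⁻¹ * mu p.2)) (by
      rintro ⟨a, b⟩ ⟨c, d⟩ hh
      obtain ⟨g, hg⟩ := hh
      have h1 : g • c = a := congrArg Prod.fst hg
      have h2 : g • d = b := congrArg Prod.snd hg
      subst h1; subst h2
      show Additive.ofMul ((mu (g • c))⁻¹ * mu (g • d)) = Additive.ofMul ((mu c)⁻¹ * mu d)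
      rw [hmu, hmu, mul_inv_rev, mul_assoc, inv_mul_cancel_left])
  have hdel : ∀ x y : V, del (m x y) = Additive.ofMul ((mu x)⁻¹ * mu y) := fun x y => rfl
  let Lam : (O →₀ ℤ) →+ Additive A := Finsupp.liftAddHom fun o =>
    (zmultiplesHom (Additive A)) (del o)
  have hLam1 : ∀ o, Lam (Finsupp.single o 1) = del o := by
    intro o
    show Finsupp.liftAddHom _ _ = _
    rw [Finsupp.liftAddHom_apply_single, zmultiplesHom_apply, one_zsmul]
  have hLamD : ∀ x y, Lam (D x y) = Additive.ofMul ((mu x)⁻¹ * mu y) := by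
    intro x y
    show Lam (if m x y < m y x then Finsupp.single (m x y) 1 else
      - Finsupp.single (m y x) 1) = _
    split_ifs with h1
    · rw [hLam1, hdel]
    · rw [map_neg, hLam1, hdel, ← ofMul_inv, mul_inv_rev, inv_inv]
  have hLamF : ∀ x y : V, Lam (F y - F x) = Additive.ofMul ((mu x)⁻¹ * mu y) := by
    intro x y
    obtain ⟨p⟩ := T.tree.connected.preconnected x y
    induction p with
    | nil => rw [sub_self, map_zero, inv_mul_cancel]; rfl
    | @cons a b c hab p ih =>
      have h1 : F c - F a = (F b - F a) + (F c - F b) := by abel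
      rw [h1, map_add, ih, hF a b hab, hLamD, ← ofMul_mul, mul_assoc, mul_inv_cancel_left]
  -- conclusion
  obtain ⟨g, rfl⟩ := QuotientGroup.mk_surjective a
  have hab : ∀ g' : G, (QuotientGroup.mk g' : Abelianization G) = Abelianization.of g' :=
    fun g' => rfl
  rw [hab, ← map_pow] at h
  rw [hab]
  -- the homomorphism kills N
  have hk : ∀ b : Abelianization G, b ∈ N → Abelianization.lift φ b = 1 := by
    intro b hb
    have h1 := hN' (Abelianization.lift φ).ker (fun g' x hx => by
      rw [MonoidHom.mem_ker, Abelianization.lift_apply_of, hφ g' x, hx, sub_self]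
      rfl) hb
    exact h1
  have h1 := hk _ h
  rw [Abelianization.lift_apply_of, map_pow] at h1
  have h2 : n • (F (g • v0) - F v0) = 0 := h1
  have h3 : F (g • v0) - F v0 = 0 := by
    rcases smul_eq_zero.1 h2 with h4 | h4
    · omega
    · exact h4
  have h4 := hLamF v0 (g • v0)
  rw [h3, map_zero, hmu, mul_comm (lam g), inv_mul_cancel_left] at h4
  exact (QuotientGroup.eq_one_iff _).1 (congrArg Additive.toMul h4).symm

end Pool.Agent.Lib.MP_c052b4_al.LK
end
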