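import Pool.Agent.Lib.MP_c052b4_al.Mg.G083

section

set_option autoImplicit false
set_option linter.unusedSectionVars false

namespace Pool.Agent.Lib.MP_c052b4_al.LK

open Matrix Kern

universe u v w

section

variable {S : Type u} {T : Type v} [Ring S] [Ring T] {φ : S →+* T} {p : Type*}

theorem RS_add {D P Q : (p → T) → (p → T)} (hD : ∀ x y, D (x + y) = D x + D y)
    (hP : ∀ x y, P (x + y) = P x + P y) (hPP : ∀ m, P (P m) = P m) (hPQ : ∀ m, P (Q m) = 0)
    (hPD : ∀ m, P (D m) = D (P m)) :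
    RS D (fun m => P m + Q m) = fun m => RS D P (RS D Q m) := by
  have hD0 : D 0 = 0 := by
    have h := hD 0 0
    rw [add_zero] at h
    exact left_eq_add.mp h
  have hPsub : ∀ x y, P (x - y) = P x - P y := by
    intro x y
    have h := hP (x - y) y
    rw [sub_add_cancel] at h
    rw [h, add_sub_cancel_right]
  funext m
  have hy : P (RS D Q m) = P m := by
    unfold RS
    rw [hP, hPsub, hPD, hPQ, hD0, sub_zero, zero_add]
  have h1 : RS D P (RS D Q m) = D (P m) + (RS D Q m - P m) := by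
    conv_lhs => unfold RS
    rw [show P (D (Q m) + (m - Q m)) = P m from hy]
    rfl
  rw [h1]
  change D (P m + Q m) + (m - (P m + Q m)) = D (P m) + (D (Q m) + (m - Q m) - P m)
  rw [hD]
  abel

theorem FC.restrict {D P : (p → T) → (p → T)} (hP : IsOp φ P) (hPP : ∀ m, P (P m) = P m)
    (hPD : ∀ m, P (D m) = D (P m)) {κ : KOne S} (h : FC φ D κ) :
    ∃ κ' : KOne S, FC φ (RS D P) κ' := by
  obtain ⟨D', hD1, hD2, hD3⟩ := h.inverse
  obtain ⟨k, a, b, ha, hD, hU, hk⟩ := h
  have hPsub : ∀ x y, P (x - y) = P x - P y := by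
    intro x y
    have h := hP.add (x - y) y
    rw [sub_add_cancel] at h
    rw [h, add_sub_cancel_right]
  have hPD' : ∀ m, P (D' m) = D' (P m) := by
    intro m
    have h1 := hPD (D' m)
    rw [hD1] at h1
    rw [h1, hD2]
  have hRS : ∀ m, RS D P m = m + ∑ i, φ (a i (P m)) • b i := by
    intro m
    unfold RS
    rw [hD]
    abel
  have ha' : ∀ i, IsFun φ (fun m => a i (P m)) := by
    intro i
    refine ⟨fun x y => ?_, fun s x => ?_⟩
    · rw [hP.add, (ha i).add]
    · rw [hP.smul, (ha i).smul]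
  have hinv : ∀ (D D' : (p → T) → (p → T)), (∀ m, D (D' m) = m) → (∀ m, P (D' m) = D' (P m)) →
      ∀ m, RS D P (RS D' P m) = m := by
    intro D D' h1 h2 m
    have hy : P (RS D' P m) = D' (P m) := by
      unfold RS
      rw [hP.add, hPsub, h2, hPP, sub_self, add_zero]
    have h3 : RS D P (RS D' P m) = D (D' (P m)) + (RS D' P m - D' (P m)) := by
      conv_lhs => unfold RS
      rw [show P (D' (P m) + (m - P m)) = D' (P m) from hy]
      rfl
    rw [h3, h1]
    unfold RS
    abel
  have hunit := isUnit_of_inverse (a := fun i m => a i (P m)) (b := b) ha' hRS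
    (hinv D D' hD1 hPD') (hinv D' D hD2 hPD)
  exact ⟨_, k, fun i m => a i (P m), b, ha', hRS, hunit, rfl⟩

end

end Pool.Agent.Lib.MP_c052b4_al.LK
end

section

set_option autoImplicit false
set_option linter.unusedSectionVars false

namespace Pool.Agent.Lib.MP_c052b4_al.LK

open Matrix Kern

universe u v w

section

variable {S : Type u} {T : Type v} [Ring S] [Ring T] {φ : S →+* T} {p : Type*}

theorem FC.refl : FC φ (fun m : p → T => m) 0 := by
  refine ⟨0, fun i => i.elim0, fun i => i.elim0, fun i => i.elim0, ?_, ?_, ?_⟩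
  · intro m
    rw [Finset.univ_eq_empty, Finset.sum_empty, add_zero]
  · exact isUnit_of_subsingleton _
  · have h : (Matrix.of fun i j => (fun i => i.elim0 : Fin 0 → (p → T) → S) j
        ((fun i => i.elim0 : Fin 0 → p → T) i) : Matrix (Fin 0) (Fin 0) S) = 0 := Subsingleton.elim _ _
    rw [h, kk_zero]

theorem FC.unip {k : ℕ} {a : Fin k → (p → T) → S} {b : Fin k → p → T}
    (ha : ∀ i, IsFun φ (a i)) (hab : ∀ i j, a j (b i) = 0) :
    FC φ (fun m => m + ∑ i, φ (a i m) • b i) 0 := by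
  have h : (Matrix.of fun i j => a j (b i) : Matrix (Fin k) (Fin k) S) = 0 := by
    ext i j
    exact hab i j
  refine ⟨k, a, b, ha, fun m => rfl, ?_, ?_⟩
  · rw [h, add_zero]
    exact isUnit_one
  · rw [h, kk_zero]

theorem FC.transport {S' : Type u} {T' : Type v} [Ring S'] [Ring T'] (ψ : S ≃+* S')
    (φ' : S' →+* T') {p' : Type*} (L : (p → T) → (p' → T')) (L' : (p' → T') → (p → T))
    (h1 : ∀ m, L (L' m) = m) (h2 : ∀ m, L' (L m) = m) (hadd : ∀ x y, L (x + y) = L x + L y)
    (hsm : ∀ (s : S) (x : p → T), L (φ s • x) = φ' (ψ s) • L x)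
    {D : (p → T) → (p → T)} {κ : KOne S} (h : FC φ D κ) :
    FC φ' (fun m => L (D (L' m))) (KOne.map (ψ : S →+* S') κ) := by
  obtain ⟨k, a, b, ha, hD, hU, hκ⟩ := h
  have hinj : ∀ x y, L x = L y → x = y := fun x y hxy => by
    rw [← h2 x, hxy, h2]
  have hadd' : ∀ x y, L' (x + y) = L' x + L' y := by
    intro x y
    apply hinj
    rw [h1, hadd, h1, h1]
  have hsm' : ∀ (s : S) (x : p' → T'), L' (φ' (ψ s) • x) = φ s • L' x := by
    intro s x
    apply hinj
    rw [h1, hsm, h1]
  have hL0 : L 0 = 0 := by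
    have h3 := hadd 0 0
    rw [add_zero] at h3
    exact left_eq_add.1 h3
  have hsum : ∀ (f : Fin k → p → T), L (∑ i, f i) = ∑ i, L (f i) := by
    intro f
    exact map_sum ({ toFun := L, map_zero' := hL0, map_add' := hadd } : (p → T) →+ (p' → T')) f Finset.univ
  have hX : (Matrix.of fun i j => (fun i m => ψ (a i (L' m)) : Fin k → (p' → T') → S') j
      ((fun i => L (b i)) i) : Matrix (Fin k) (Fin k) S') =
      (Matrix.of fun i j => a j (b i) : Matrix (Fin k) (Fin k) S).map (ψ : S →+* S') := by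
    ext i j
    show ψ (a j (L' (L (b i)))) = ψ (a j (b i))
    rw [h2]
  obtain ⟨U, hU'⟩ := hU
  have hU2 : ((mU (ψ : S →+* S') U : (Matrix (Fin k) (Fin k) S')ˣ) : Matrix (Fin k) (Fin k) S') =
      1 + (Matrix.of fun i j => a j (b i) : Matrix (Fin k) (Fin k) S).map (ψ : S →+* S') := by
    rw [coe_mU, hU', Matrix.map_add _ (map_add _), Matrix.map_one _ (map_zero _) (map_one _)]
  refine ⟨k, fun i m => ψ (a i (L' m)), fun i => L (b i), fun i => ⟨?_, ?_⟩, ?_, ?_, ?_⟩
  · intro x y
    show ψ (a i (L' (x + y))) = ψ (a i (L' x)) + ψ (a i (L' y))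
    rw [hadd', (ha i).add, map_add]
  · intro s x
    show ψ (a i (L' (φ' s • x))) = s * ψ (a i (L' x))
    obtain ⟨s', rfl⟩ := ψ.surjective s
    rw [hsm', (ha i).smul, map_mul]
  · intro m
    show L (D (L' m)) = m + ∑ i, φ' (ψ (a i (L' m))) • L (b i)
    rw [hD, hadd, h1, hsum]
    congr 1
    apply Finset.sum_congr rfl
    intro i _
    rw [hsm]
  · rw [hX]
    exact ⟨_, hU2⟩
  · rw [hX, kk_eq _ hU2, ← hκ, kk_eq U hU', KOne.map_k1]

theorem FC.conj {L L' : (p → T) → (p → T)} (hL : IsOp φ L) (h1 : ∀ m, L (L' m) = m)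
    (h2 : ∀ m, L' (L m) = m) {D : (p → T) → (p → T)} {κ : KOne S} (h : FC φ D κ) :
    FC φ (fun m => L (D (L' m))) κ := by
  obtain ⟨k, a, b, ha, hD, hU, hκ⟩ := h
  have hinj : ∀ x y, L x = L y → x = y := fun x y hxy => by
    rw [← h2 x, hxy, h2]
  have hadd' : ∀ x y, L' (x + y) = L' x + L' y := by
    intro x y
    apply hinj
    rw [h1, hL.add, h1, h1]
  have hsm' : ∀ (s : S) (x : p → T), L' (φ s • x) = φ s • L' x := by
    intro s x
    apply hinj
    rw [h1, hL.smul, h1]
  have hL0 : L 0 = 0 := by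
    have h3 := hL.add 0 0
    rw [add_zero] at h3
    exact left_eq_add.1 h3
  have hsum : ∀ (f : Fin k → p → T), L (∑ i, f i) = ∑ i, L (f i) := by
    intro f
    exact map_sum ({ toFun := L, map_zero' := hL0, map_add' := hL.add } : (p → T) →+ (p → T)) f Finset.univ
  have hX : (Matrix.of fun i j => (fun i m => a i (L' m) : Fin k → (p → T) → S) j
      ((fun i => L (b i)) i) : Matrix (Fin k) (Fin k) S) =
      (Matrix.of fun i j => a j (b i) : Matrix (Fin k) (Fin k) S) := by
    ext i j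
    show a j (L' (L (b i))) = a j (b i)
    rw [h2]
  refine ⟨k, fun i m => a i (L' m), fun i => L (b i), fun i => ⟨?_, ?_⟩, ?_, ?_, ?_⟩
  · intro x y
    show a i (L' (x + y)) = a i (L' x) + a i (L' y)
    rw [hadd', (ha i).add]
  · intro s x
    show a i (L' (φ s • x)) = s * a i (L' x)
    rw [hsm', (ha i).smul]
  · intro m
    show L (D (L' m)) = m + ∑ i, φ (a i (L' m)) • L (b i)
    rw [hD, hL.add, h1, hsum]
    congr 1
    apply Finset.sum_congr rfl
    intro i _
    rw [hL.smul]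
  · rw [hX]
    exact hU
  · rw [hX, hκ]

end

end Pool.Agent.Lib.MP_c052b4_al.LK
end

section

set_option autoImplicit false
set_option linter.unusedSectionVars false

namespace Pool.Agent.Lib.MP_c052b4_al.LK

open Matrix Kern

universe u v w

section

variable {R : Type u} [Ring R] {Γ : Type v} [Group Γ] {V : Type w} [MulAction Γ V]
  {p : Type*} (v : p → V)

private theorem b02_res_mul {Z Z' Y : Set Γ} {b : MonoidAlgebra R Γ} (hb : Sup Y b)
    (h : ∀ γ, ∀ y ∈ Y, γ * y ∈ Z ↔ γ ∈ Z') (a : MonoidAlgebra R Γ) :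
    res Z (a * b) = res Z' a * b := by
  have h1 : a * b = res Z' a * b + res Z'ᶜ a * b := by rw [← add_mul, res_add_res_compl]
  have h2 : res Z (res Z' a * b) = res Z' a * b :=
    res_eq_self ((sup_res Z' a).mul hb fun γ hγ y hy => (h γ y hy).2 hγ)
  have h3 : res Z (res Z'ᶜ a * b) = 0 :=
    res_eq_zero ((sup_res Z'ᶜ a).mul (W := Zᶜ) hb
      fun γ hγ y hy => fun h' => hγ ((h γ y hy).1 h')) (fun γ hγ => hγ)
  rw [h1, map_add, h2, h3, add_zero]

private theorem b02_supp (b : MonoidAlgebra R Γ) : Sup {g | b.coeff g ≠ 0} b := fun γ hγ => by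
  by_contra h
  exact hγ h

theorem resP_add (X : Set V) (x y : p → MonoidAlgebra R Γ) :
    resP v X (x + y) = resP v X x + resP v X y := by
  funext j
  simp only [resP, Pi.add_apply, map_add]

theorem resP_sub (X : Set V) (x y : p → MonoidAlgebra R Γ) :
    resP v X (x - y) = resP v X x - resP v X y := by
  funext j
  simp only [resP, Pi.sub_apply, map_sub]

theorem resP_resP (X Y : Set V) (m : p → MonoidAlgebra R Γ) :
    resP v X (resP v Y m) = resP v (X ∩ Y) m := by
  funext j
  simp only [resP]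
  ext γ
  by_cases hX : γ • v j ∈ X
  · rw [coeff_res_of_mem (show γ ∈ {γ : Γ | γ • v j ∈ X} from hX)]
    by_cases hY : γ • v j ∈ Y
    · rw [coeff_res_of_mem (show γ ∈ {γ : Γ | γ • v j ∈ Y} from hY),
        coeff_res_of_mem (show γ ∈ {γ : Γ | γ • v j ∈ X ∩ Y} from ⟨hX, hY⟩)]
    · rw [coeff_res_of_notMem (show γ ∉ {γ : Γ | γ • v j ∈ Y} from hY),
        coeff_res_of_notMem (show γ ∉ {γ : Γ | γ • v j ∈ X ∩ Y} from fun h => hY h.2)]
  · rw [coeff_res_of_notMem (show γ ∉ {γ : Γ | γ • v j ∈ X} from hX),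
      coeff_res_of_notMem (show γ ∉ {γ : Γ | γ • v j ∈ X ∩ Y} from fun h => hX h.1)]

theorem resP_univ (m : p → MonoidAlgebra R Γ) : resP v Set.univ m = m := by
  funext j
  exact res_eq_self fun γ hγ => absurd (Set.mem_univ (γ • v j)) hγ

theorem resP_empty (m : p → MonoidAlgebra R Γ) : resP v ∅ m = 0 := by
  funext j
  have h1 : Sup (Set.univ : Set Γ) (m j) := fun γ hγ => absurd (Set.mem_univ γ) hγ
  exact res_eq_zero h1 fun γ _ h => h

theorem resP_union {X Y : Set V} (h : Disjoint X Y) (m : p → MonoidAlgebra R Γ) :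
    resP v (X ∪ Y) m = resP v X m + resP v Y m := by
  funext j
  simp only [resP, Pi.add_apply]
  ext γ
  rw [MonoidAlgebra.coeff_add, Finsupp.add_apply]
  by_cases hX : γ • v j ∈ X
  · have hY : γ • v j ∉ Y := fun hY => Set.disjoint_left.1 h hX hY
    rw [coeff_res_of_mem (show γ ∈ {γ : Γ | γ • v j ∈ X} from hX),
      coeff_res_of_notMem (show γ ∉ {γ : Γ | γ • v j ∈ Y} from hY),
      coeff_res_of_mem (show γ ∈ {γ : Γ | γ • v j ∈ X ∪ Y} from Or.inl hX), add_zero]
  · rw [coeff_res_of_notMem (show γ ∉ {γ : Γ | γ • v j ∈ X} from hX), zero_add]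
    by_cases hY : γ • v j ∈ Y
    · rw [coeff_res_of_mem (show γ ∈ {γ : Γ | γ • v j ∈ Y} from hY),
        coeff_res_of_mem (show γ ∈ {γ : Γ | γ • v j ∈ X ∪ Y} from Or.inr hY)]
    · rw [coeff_res_of_notMem (show γ ∉ {γ : Γ | γ • v j ∈ Y} from hY),
        coeff_res_of_notMem (show γ ∉ {γ : Γ | γ • v j ∈ X ∪ Y} from fun h => h.elim hX hY)]

theorem resP_es_of_mem [DecidableEq p] {X : Set V} {γ : Γ} {i : p} (h : γ • v i ∈ X) (r : R) :
    resP v X (es γ i r) = es γ i r := by
  funext j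
  by_cases hj : j = i
  · subst hj
    have h1 : (es γ j r : p → MonoidAlgebra R Γ) j = MonoidAlgebra.single γ r :=
      Pi.single_eq_same j _
    simp only [resP]
    rw [h1]
    exact res_eq_self (sup_single (show γ ∈ {γ : Γ | γ • v j ∈ X} from h) r)
  · have h1 : (es γ i r : p → MonoidAlgebra R Γ) j = 0 := Pi.single_eq_of_ne hj _
    simp only [resP]
    rw [h1, map_zero]

theorem resP_es_of_notMem [DecidableEq p] {X : Set V} {γ : Γ} {i : p} (h : γ • v i ∉ X) (r : R) :
    resP v X (es γ i r) = 0 := by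
  funext j
  by_cases hj : j = i
  · subst hj
    have h1 : (es γ j r : p → MonoidAlgebra R Γ) j = MonoidAlgebra.single γ r :=
      Pi.single_eq_same j _
    simp only [resP]
    rw [h1]
    refine res_eq_zero (sup_single (Set.mem_singleton γ) r) fun γ' hγ' => ?_
    rw [Set.mem_singleton_iff.1 hγ']
    exact h
  · have h1 : (es γ i r : p → MonoidAlgebra R Γ) j = 0 := Pi.single_eq_of_ne hj _
    simp only [resP]
    rw [h1, map_zero]
    rfl

/-- Multiplication by a matrix which preserves the positions. -/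
theorem resP_vecMul [Fintype p] {N : Matrix p p (MonoidAlgebra R Γ)}
    (hN : ∀ i j g, (N i j).coeff g ≠ 0 → g • v j = v i) (X : Set V)
    (m : p → MonoidAlgebra R Γ) : resP v X (m ᵥ* N) = resP v X m ᵥ* N := by
  funext j
  simp only [resP, Matrix.vecMul, dotProduct, map_sum]
  refine Finset.sum_congr rfl fun i _ => ?_
  refine b02_res_mul (b02_supp (N i j)) (fun γ y hy => ?_) (m i)
  simp only [Set.mem_ofPred_eq, mul_smul, hN i j y hy]

/-- Multiplication by a matrix which preserves the set of the positions `X`. -/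
theorem resP_vecMul_of [Fintype p] {N : Matrix p p (MonoidAlgebra R Γ)} {X : Set V}
    (hN : ∀ (γ : Γ) (i : p), γ • v i ∈ X → ∀ j g, (N i j).coeff g ≠ 0 → (γ * g) • v j ∈ X)
    (m : p → MonoidAlgebra R Γ) : resP v X (resP v X m ᵥ* N) = resP v X m ᵥ* N := by
  funext j
  simp only [resP, Matrix.vecMul, dotProduct, map_sum]
  refine Finset.sum_congr rfl fun i _ => ?_
  exact res_eq_self ((sup_res _ (m i)).mul (b02_supp (N i j)) fun γ hγ y hy => hN γ i hγ j y hy)

end

end Pool.Agent.Lib.MP_c052b4_al.LK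
end
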