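import Pool.Agent.Lib.MP_c052b4_al.Mg.G083
import Pool.Agent.Lib.MP_c052b4_al.Mg.G084

section

set_option autoImplicit false
set_option linter.unusedSectionVars false

namespace Pool.Agent.Lib.MP_c052b4_al.LK

open Matrix Kern

universe u v w

section

variable {R : Type u} [Ring R] {Γ : Type v} [Group Γ]

/-- The vector with given coordinates as a combination of the vectors `es`. -/
theorem a07_th_eq {H' : Type*} [Group H'] (j : H' →* Γ) {k : ℕ} (t : Fin k → Γ) {p : Type*}
    [Fintype p] [DecidableEq p] (x : Fin k × p → MonoidAlgebra R H') :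
    th j t x = ∑ y : Fin k × p, inc R j (x y) • (es (t y.1) y.2 1 : p → MonoidAlgebra R Γ) := by
  funext b
  rw [Finset.sum_apply, Fintype.sum_prod_type]
  unfold th
  refine Finset.sum_congr rfl fun i _ => ?_
  rw [Finset.sum_eq_single b]
  · rw [Pi.smul_apply, es, Pi.single_eq_same, smul_eq_mul]
  · intro b' _ hb'
    rw [Pi.smul_apply, es, Pi.single_eq_of_ne hb'.symm, smul_zero]
  · intro h
    exact absurd (Finset.mem_univ _) h

/-- A transversal of finitely many cosets. -/
theorem a07_trans (H : Subgroup Γ) (B : Finset Γ) :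
    Nonempty (Trans H.subtype {γ : Γ | ∃ h ∈ H, ∃ b ∈ B, γ = h * b}) := by
  refine exists_trans H.subtype H.subtype_injective B _ ?_ ?_
  · rintro h γ ⟨h', hh', b, hb, rfl⟩
    refine ⟨(h : Γ) * h', H.mul_mem h.2 hh', b, hb, ?_⟩
    rw [mul_assoc]
    rfl
  · rintro z ⟨h, hh, b, hb, rfl⟩
    exact ⟨b, hb, ⟨h, hh⟩, rfl⟩


/-- Group rings are free over the group rings of subgroups. -/
theorem lfr_inc (H : Subgroup Γ) (p : Type*) [Finite p] : LFr (inc R H.subtype) p := by
  classical
  have := Fintype.ofFinite p
  intro k x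
  obtain ⟨B, hB⟩ := exists_finset_supM (Matrix.of x : Matrix (Fin k) p (MonoidAlgebra R Γ))
  obtain ⟨E⟩ := a07_trans H B
  have hx : ∀ i, SupV {γ : Γ | ∃ h ∈ H, ∃ b ∈ B, γ = h * b} (x i) := by
    intro i j γ hγ
    refine hB i j γ fun h => hγ ⟨1, H.one_mem, γ, h, ?_⟩
    rw [one_mul]
  let e : Fin (Fintype.card (Fin E.k × p)) ≃ Fin E.k × p := (Fintype.equivFin _).symm
  refine ⟨_, fun s m => ka E m (e s), fun s => es (E.t (e s).1) (e s).2 1, fun s => ⟨?_, ?_⟩, ?_⟩
  · intro y z
    change ka E (y + z) (e s) = ka E y (e s) + ka E z (e s)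
    rw [ka_add]
    rfl
  · intro r y
    change ka E (inc R H.subtype r • y) (e s) = r * ka E y (e s)
    rw [ka_smul]
    rfl
  · intro i
    conv_lhs => rw [← th_ka E (hx i), a07_th_eq]
    exact (Equiv.sum_comp e fun y : Fin E.k × p => inc R H.subtype (ka E (x i) y) •
      (es (E.t y.1) y.2 1 : p → MonoidAlgebra R Γ)).symm

/-- One-sided operators of finite type. -/
theorem FC.one_sided (H : Subgroup Γ) {p : Type*} [Fintype p] [DecidableEq p]
    {W : (p → MonoidAlgebra R Γ) → (p → MonoidAlgebra R Γ)} (hW : IsOp (inc R H.subtype) W)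
    (hft : FT H W) (α : p → Prop)
    (h1 : ∀ m : p → MonoidAlgebra R Γ, (∀ i, α i → m i = 0) → W m = 0)
    (h2 : ∀ (m : p → MonoidAlgebra R Γ) (j : p), α j → W m j = 0) :
    FC (inc R H.subtype) (fun m => m + W m) 0 := by
  classical
  obtain ⟨B, hB⟩ := hft
  obtain ⟨E⟩ := a07_trans H B
  have hW0 : W 0 = 0 := by
    have h := hW.add 0 0
    rw [add_zero] at h
    exact left_eq_add.mp h
  have hWsum : ∀ (ι : Type _) (s : Finset ι) (f : ι → p → MonoidAlgebra R Γ),
      W (∑ i ∈ s, f i) = ∑ i ∈ s, W (f i) := by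
    intro ι s f
    induction s using Finset.induction_on with
    | empty => rw [Finset.sum_empty, Finset.sum_empty, hW0]
    | insert a s ha ih => rw [Finset.sum_insert ha, hW.add, ih, Finset.sum_insert ha]
  have hWm : ∀ m, W m = ∑ y : Fin E.k × p, inc R H.subtype (if α y.2 then ka E m y else 0) •
      W (es (E.t y.1) y.2 1) := by
    intro m
    have h3 : W m = W (th H.subtype E.t (ka E m)) := by
      conv_lhs => rw [← resV_add_compl {γ : Γ | ∃ h ∈ H, ∃ b ∈ B, γ = h * b} m]
      rw [hW.add]
      rw [hB (resV {γ : Γ | ∃ h ∈ H, ∃ b ∈ B, γ = h * b}ᶜ m) (fun i γ hγ =>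
        coeff_res_of_notMem (show γ ∉ {γ : Γ | ∃ h ∈ H, ∃ b ∈ B, γ = h * b}ᶜ from
          fun h => h hγ) _), add_zero]
      rw [← ka_res E m, th_ka E (supV_resV _ m)]
    rw [h3, a07_th_eq, hWsum]
    refine Finset.sum_congr rfl fun y _ => ?_
    rw [hW.smul]
    by_cases hy : α y.2
    · rw [if_pos hy]
    · have h4 : W (es (E.t y.1) y.2 1) = 0 := by
        refine h1 _ fun i hi => ?_
        rw [es, Pi.single_eq_of_ne]
        rintro rfl
        exact hy hi
      rw [h4, smul_zero, smul_zero]
  let e : Fin (Fintype.card (Fin E.k × p)) ≃ Fin E.k × p := (Fintype.equivFin _).symm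
  let a : Fin (Fintype.card (Fin E.k × p)) → (p → MonoidAlgebra R Γ) → MonoidAlgebra R H :=
    fun s m => if α (e s).2 then ka E m (e s) else 0
  let b : Fin (Fintype.card (Fin E.k × p)) → p → MonoidAlgebra R Γ :=
    fun s => W (es (E.t (e s).1) (e s).2 1)
  have hab : ∀ i j, a j (b i) = 0 := by
    intro i j
    by_cases hj : α (e j).2
    · have h5 : a j (b i) = ka E (b i) (e j) := if_pos hj
      rw [h5]
      ext h
      have h6 : (ka E (b i) (e j)).coeff h = (b i (e j).2).coeff (H.subtype h * E.t (e j).1) := rfl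
      rw [h6, show b i (e j).2 = 0 from h2 _ _ hj]
      rfl
    · exact if_neg hj
  have hM : (Matrix.of fun i j => a j (b i) : Matrix (Fin (Fintype.card (Fin E.k × p)))
      (Fin (Fintype.card (Fin E.k × p))) (MonoidAlgebra R H)) = 0 := by
    refine Matrix.ext fun i j => ?_
    exact hab i j
  refine ⟨_, a, b, fun s => ⟨?_, ?_⟩, ?_, ?_, ?_⟩
  · intro y z
    by_cases hj : α (e s).2
    · change (if α (e s).2 then ka E (y + z) (e s) else 0) =
        (if α (e s).2 then ka E y (e s) else 0) + (if α (e s).2 then ka E z (e s) else 0)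
      rw [if_pos hj, if_pos hj, if_pos hj, ka_add]
      rfl
    · change (if α (e s).2 then ka E (y + z) (e s) else 0) =
        (if α (e s).2 then ka E y (e s) else 0) + (if α (e s).2 then ka E z (e s) else 0)
      rw [if_neg hj, if_neg hj, if_neg hj, add_zero]
  · intro r y
    by_cases hj : α (e s).2
    · change (if α (e s).2 then ka E (inc R H.subtype r • y) (e s) else 0) =
        r * (if α (e s).2 then ka E y (e s) else 0)
      rw [if_pos hj, if_pos hj, ka_smul]
      rfl
    · change (if α (e s).2 then ka E (inc R H.subtype r • y) (e s) else 0) =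
        r * (if α (e s).2 then ka E y (e s) else 0)
      rw [if_neg hj, if_neg hj, mul_zero]
  · intro m
    beta_reduce
    rw [hWm m]
    congr 1
    exact (Equiv.sum_comp e fun y : Fin E.k × p => inc R H.subtype
      (if α y.2 then ka E m y else 0) • W (es (E.t y.1) y.2 1)).symm
  · rw [hM, add_zero]
    exact isUnit_one
  · rw [hM, kk_zero]

end

end Pool.Agent.Lib.MP_c052b4_al.LK
end

section

set_option autoImplicit false
set_option linter.unusedSectionVars false

namespace Pool.Agent.Lib.MP_c052b4_al.LK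

open Matrix Kern

universe u v w

section

variable {R : Type u} [Ring R] {Γ : Type v} [Group Γ] {V : Type w} [MulAction Γ V] {C : Type*}
  {p : Type*} [Fintype p] [DecidableEq p]

/-- Additive operators are determined by their values on the vectors `es`. -/
theorem ext_es {D D' : (p → MonoidAlgebra R Γ) → (p → MonoidAlgebra R Γ)}
    (hD : ∀ x y, D (x + y) = D x + D y) (hD' : ∀ x y, D' (x + y) = D' x + D' y)
    (h : ∀ γ i r, D (es γ i r) = D' (es γ i r)) (m : p → MonoidAlgebra R Γ) : D m = D' m := by
  have h0 : D 0 = 0 := by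
    have h := hD 0 0
    rw [add_zero] at h
    exact left_eq_add.mp h
  have h0' : D' 0 = 0 := by
    have h := hD' 0 0
    rw [add_zero] at h
    exact left_eq_add.mp h
  have hsup : SupV (Set.univ : Set Γ) m := fun _ _ hγ => absurd (Set.mem_univ _) hγ
  refine supV_induction (P := fun m => D m = D' m) ?_ ?_ ?_ hsup
  · rw [h0, h0']
  · intro a b ha hb
    rw [hD, hD', ha, hb]
  · intro j γ _ r
    exact h γ j r

theorem trc_add (col : V → C) (v : p → V) (N : Matrix p p (MonoidAlgebra R Γ))
    (x y : p → MonoidAlgebra R Γ) : trc col v N (x + y) = trc col v N x + trc col v N y := by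
  funext j
  rw [Pi.add_apply]
  unfold trc
  rw [← Finset.sum_add_distrib]
  refine Finset.sum_congr rfl fun i _ => ?_
  rw [Pi.add_apply, MonoidAlgebra.coeff_add]
  refine Finsupp.sum_add_index' (fun γ => ?_) (fun γ r r' => ?_)
  · rw [MonoidAlgebra.single_zero, zero_mul, map_zero]
  · rw [MonoidAlgebra.single_add, add_mul, map_add]

theorem trc_es (col : V → C) (v : p → V) (N : Matrix p p (MonoidAlgebra R Γ)) (γ : Γ) (i : p)
    (r : R) : trc col v N (es γ i r) =
      resP v {w | col w = col (γ • v i)} (es γ i r ᵥ* N) := by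
  funext j
  have hrhs : resP v {w | col w = col (γ • v i)} (es γ i r ᵥ* N) j =
      res {γ' | col (γ' • v j) = col (γ • v i)} (MonoidAlgebra.single γ r * N i j) := by
    unfold resP es
    rw [Matrix.single_vecMul]
    rfl
  rw [hrhs]
  unfold trc
  rw [Finset.sum_eq_single i]
  · unfold es
    rw [Pi.single_eq_same, MonoidAlgebra.coeff_single]
    refine Finsupp.sum_single_index ?_
    rw [MonoidAlgebra.single_zero, zero_mul, map_zero]
  · intro i' _ hi'
    unfold es
    rw [Pi.single_eq_of_ne hi', MonoidAlgebra.coeff_zero]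
    exact Finsupp.sum_zero_index
  · intro h
    exact absurd (Finset.mem_univ _) h

theorem isOp_trc {H : Subgroup Γ} {col : V → C} (hp : Pres H col) (v : p → V)
    (N : Matrix p p (MonoidAlgebra R Γ)) : IsOp (inc R H.subtype) (trc col v N) := by
  have hadd := trc_add (R := R) (Γ := Γ) col v N
  have h0 : trc col v N (0 : p → MonoidAlgebra R Γ) = 0 := by
    have h := hadd 0 0
    rw [add_zero] at h
    exact left_eq_add.mp h
  refine ⟨hadd, fun s m => ?_⟩
  induction s using MonoidAlgebra.induction_linear with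
  | zero => rw [map_zero, zero_smul, zero_smul, h0]
  | add s s' hs hs' => rw [map_add, add_smul, add_smul, hadd, hs, hs']
  | single h r' =>
    refine ext_es (D := fun m => trc col v N (inc R H.subtype (MonoidAlgebra.single h r') • m))
      (D' := fun m => inc R H.subtype (MonoidAlgebra.single h r') • trc col v N m) ?_ ?_ ?_ m
    · intro x y
      rw [smul_add, hadd]
    · intro x y
      rw [hadd, smul_add]
    · intro γ i r
      have h1 : inc R H.subtype (MonoidAlgebra.single h r') =
          MonoidAlgebra.single (h : Γ) r' := by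
        rw [inc, MonoidAlgebra.mapDomainRingHom_apply, MonoidAlgebra.mapDomain_single]
        rfl
      have h2 : MonoidAlgebra.single (h : Γ) r' • (es γ i r : p → MonoidAlgebra R Γ) =
          es ((h : Γ) * γ) i (r' * r) := by
        unfold es
        rw [← Pi.single_smul, smul_eq_mul, MonoidAlgebra.single_mul_single]
      rw [h1, h2, trc_es, ← h2, trc_es, Matrix.smul_vecMul]
      funext j
      have h3 : {γ' : Γ | γ' • v j ∈ {w | col w = col (((h : Γ) * γ) • v i)}} =
          {γ' | (h : Γ)⁻¹ * γ' ∈ {γ' : Γ | γ' • v j ∈ {w | col w = col (γ • v i)}}} := by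
        ext γ'
        simp only [Set.mem_ofPred_eq]
        have h4 := hp (h : Γ) h.2 (((h : Γ)⁻¹ * γ') • v j) (γ • v i)
        rw [← h4, ← mul_smul, ← mul_smul, mul_inv_cancel_left]
      unfold resP
      rw [h3, Pi.smul_apply, Pi.smul_apply, smul_eq_mul, smul_eq_mul, res_single_mul]

theorem isOp_vecMul (H : Subgroup Γ) (N : Matrix p p (MonoidAlgebra R Γ)) :
    IsOp (inc R H.subtype) (fun m : p → MonoidAlgebra R Γ => m ᵥ* N) := by
  refine ⟨fun x y => ?_, fun s x => ?_⟩
  · rw [Matrix.add_vecMul]
  · rw [Matrix.smul_vecMul]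

theorem isOp_resP {H : Subgroup Γ} (v : p → V) {X : Set V} (hX : ∀ h ∈ H, ∀ w ∈ X, h • w ∈ X) :
    IsOp (inc R H.subtype) (resP v X : (p → MonoidAlgebra R Γ) → (p → MonoidAlgebra R Γ)) := by
  have hadd : ∀ x y : p → MonoidAlgebra R Γ, resP v X (x + y) = resP v X x + resP v X y := by
    intro x y
    funext j
    unfold resP
    rw [Pi.add_apply, Pi.add_apply, map_add]
  have h0 : resP v X (0 : p → MonoidAlgebra R Γ) = 0 := by
    have h := hadd 0 0
    rw [add_zero] at h
    exact left_eq_add.mp h
  refine ⟨hadd, fun s m => ?_⟩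
  induction s using MonoidAlgebra.induction_linear with
  | zero => rw [map_zero, zero_smul, zero_smul, h0]
  | add s s' hs hs' => rw [map_add, add_smul, add_smul, hadd, hs, hs']
  | single h r' =>
    have h1 : inc R H.subtype (MonoidAlgebra.single h r') =
        MonoidAlgebra.single (h : Γ) r' := by
      rw [inc, MonoidAlgebra.mapDomainRingHom_apply, MonoidAlgebra.mapDomain_single]
      rfl
    rw [h1]
    funext j
    have h3 : {γ' : Γ | γ' • v j ∈ X} = {γ' | (h : Γ)⁻¹ * γ' ∈ {γ' : Γ | γ' • v j ∈ X}} := by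
      ext γ'
      simp only [Set.mem_ofPred_eq]
      constructor
      · intro hγ
        rw [mul_smul]
        exact hX _ (H.inv_mem h.2) _ hγ
      · intro hγ
        have h4 := hX _ h.2 _ hγ
        rwa [← mul_smul, mul_inv_cancel_left] at h4
    unfold resP
    rw [Pi.smul_apply, Pi.smul_apply, smul_eq_mul, smul_eq_mul]
    conv_lhs => rw [h3]
    rw [res_single_mul]

end

end Pool.Agent.Lib.MP_c052b4_al.LK
end

section

set_option autoImplicit false
set_option linter.unusedSectionVars false

namespace Pool.Agent.Lib.MP_c052b4_al.LK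

open Matrix Kern

universe u v w

section

variable {R : Type u} [Ring R] {Γ : Type v} [Group Γ] {V : Type w} [MulAction Γ V] {C : Type*}
  {p : Type*} [Fintype p] [DecidableEq p] (col : V → C) (v : p → V)

private theorem b03_es_vecMul (γ : Γ) (i : p) (r : R) (N : Matrix p p (MonoidAlgebra R Γ)) (j : p) :
    (es γ i r ᵥ* N) j = MonoidAlgebra.single γ r * N i j := by
  unfold es
  rw [Matrix.single_vecMul]
  rfl

private theorem b03_trc_zero (N : Matrix p p (MonoidAlgebra R Γ)) :
    trc col v N (0 : p → MonoidAlgebra R Γ) = 0 := by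
  have h := trc_add col v N (0 : p → MonoidAlgebra R Γ) 0
  rw [add_zero] at h
  exact left_eq_add.1 h

private theorem b03_resP_zero (X : Set V) :
    resP v X (0 : p → MonoidAlgebra R Γ) = 0 := by
  have h := resP_add v X (0 : p → MonoidAlgebra R Γ) 0
  rw [add_zero] at h
  exact left_eq_add.1 h

private theorem b03_trc_eq_zero {α : p → Prop} {N : Matrix p p (MonoidAlgebra R Γ)}
    (hN : OneS α N) {m : p → MonoidAlgebra R Γ} (hm : ∀ i, α i → m i = 0) :
    trc col v N m = 0 := by
  funext j
  unfold trc
  refine Finset.sum_eq_zero fun i _ => ?_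
  by_cases h : N i j = 0
  · rw [h]
    simp only [mul_zero, map_zero]
    exact Finset.sum_const_zero
  · rw [hm i (hN i j h).1]
    rfl

theorem trc_one_add (N : Matrix p p (MonoidAlgebra R Γ)) (m : p → MonoidAlgebra R Γ) :
    trc col v (1 + N) m = m + trc col v N m := by
  refine ext_es (D := fun m => trc col v (1 + N) m) (D' := fun m => m + trc col v N m)
    (fun x y => trc_add col v (1 + N) x y) (fun x y => ?_) (fun γ i r => ?_) m
  · show x + y + trc col v N (x + y) = x + trc col v N x + (y + trc col v N y)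
    rw [trc_add]
    abel
  · show trc col v (1 + N) (es γ i r) = es γ i r + trc col v N (es γ i r)
    rw [trc_es, trc_es, Matrix.vecMul_add, Matrix.vecMul_one, resP_add, resP_es_of_mem]
    rfl

theorem trc_vecMul_oneS {α : p → Prop} {N : Matrix p p (MonoidAlgebra R Γ)} (hN : OneS α N)
    (m : p → MonoidAlgebra R Γ) : trc col v N (m ᵥ* N) = 0 := by
  refine b03_trc_eq_zero col v hN fun i hi => ?_
  show ∑ k, m k * N k i = 0
  refine Finset.sum_eq_zero fun k _ => ?_
  by_cases h : N k i = 0
  · rw [h, mul_zero]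
  · exact absurd hi (hN k i h).2

theorem trc_trc_oneS {α : p → Prop} {N : Matrix p p (MonoidAlgebra R Γ)} (hN : OneS α N)
    (m : p → MonoidAlgebra R Γ) : trc col v N (trc col v N m) = 0 := by
  refine b03_trc_eq_zero col v hN fun i hi => ?_
  unfold trc
  refine Finset.sum_eq_zero fun k _ => ?_
  by_cases h : N k i = 0
  · rw [h]
    simp only [mul_zero, map_zero]
    exact Finset.sum_const_zero
  · exact absurd hi (hN k i h).2

/-- `trc` commutes with the restriction to a union of classes. -/
theorem trc_resP (Y : Set C) (N : Matrix p p (MonoidAlgebra R Γ)) (m : p → MonoidAlgebra R Γ) :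
    trc col v N (resP v (col ⁻¹' Y) m) = resP v (col ⁻¹' Y) (trc col v N m) := by
  refine ext_es (D := fun m => trc col v N (resP v (col ⁻¹' Y) m))
    (D' := fun m => resP v (col ⁻¹' Y) (trc col v N m))
    (fun x y => ?_) (fun x y => ?_) (fun γ i r => ?_) m
  · show trc col v N (resP v (col ⁻¹' Y) (x + y)) = _
    rw [resP_add, trc_add]
  · show resP v (col ⁻¹' Y) (trc col v N (x + y)) = _
    rw [trc_add, resP_add]
  · show trc col v N (resP v (col ⁻¹' Y) (es γ i r)) =
      resP v (col ⁻¹' Y) (trc col v N (es γ i r))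
    by_cases h : γ • v i ∈ col ⁻¹' Y
    · rw [resP_es_of_mem v h, trc_es, resP_resP]
      congr 1
      ext w
      constructor
      · intro hw
        refine ⟨?_, hw⟩
        have hw' : col w = col (γ • v i) := hw
        show col w ∈ Y
        rw [hw']
        exact h
      · intro hw
        exact hw.2
    · rw [resP_es_of_notMem v h, trc_es, resP_resP, b03_trc_zero]
      have h1 : col ⁻¹' Y ∩ {w | col w = col (γ • v i)} = ∅ := by
        ext w
        constructor
        · rintro ⟨hw, hw'⟩
          have hw'' : col w = col (γ • v i) := hw'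
          apply h
          show col (γ • v i) ∈ Y
          rw [← hw'']
          exact hw
        · intro hw
          exact hw.elim
      rw [h1, resP_empty]

/-- `trc` on a class. -/
theorem trc_resP_class (c : C) (N : Matrix p p (MonoidAlgebra R Γ)) (m : p → MonoidAlgebra R Γ) :
    trc col v N (resP v {w | col w = c} m) =
      resP v {w | col w = c} (resP v {w | col w = c} m ᵥ* N) := by
  refine ext_es (D := fun m => trc col v N (resP v {w | col w = c} m))
    (D' := fun m => resP v {w | col w = c} (resP v {w | col w = c} m ᵥ* N))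
    (fun x y => ?_) (fun x y => ?_) (fun γ i r => ?_) m
  · show trc col v N (resP v {w | col w = c} (x + y)) = _
    rw [resP_add, trc_add]
  · show resP v {w | col w = c} (resP v {w | col w = c} (x + y) ᵥ* N) = _
    rw [resP_add, Matrix.add_vecMul, resP_add]
  · show trc col v N (resP v {w | col w = c} (es γ i r)) =
      resP v {w | col w = c} (resP v {w | col w = c} (es γ i r) ᵥ* N)
    by_cases h : col (γ • v i) = c
    · rw [resP_es_of_mem v (show γ • v i ∈ {w | col w = c} from h), trc_es, h]
    · rw [resP_es_of_notMem v (show γ • v i ∉ {w | col w = c} from h), b03_trc_zero,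
        Matrix.zero_vecMul, b03_resP_zero]

private theorem b03_resP_eq_self {X : Set V} {m : p → MonoidAlgebra R Γ}
    (h : ∀ j γ', (m j).coeff γ' ≠ 0 → γ' • v j ∈ X) : resP v X m = m := by
  funext j
  refine res_eq_self fun γ' hγ' => ?_
  by_contra h'
  exact hγ' (h j γ' h')

/-- `trc` on a set of positions where the matrix preserves the classes. -/
theorem trc_resP_of {X : Set V} {N : Matrix p p (MonoidAlgebra R Γ)}
    (hN : ∀ (γ : Γ) (i : p), γ • v i ∈ X → ∀ j g, (N i j).coeff g ≠ 0 →
      col ((γ * g) • v j) = col (γ • v i)) (m : p → MonoidAlgebra R Γ) :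
    trc col v N (resP v X m) = resP v X m ᵥ* N := by
  refine ext_es (D := fun m => trc col v N (resP v X m)) (D' := fun m => resP v X m ᵥ* N)
    (fun x y => ?_) (fun x y => ?_) (fun γ i r => ?_) m
  · show trc col v N (resP v X (x + y)) = _
    rw [resP_add, trc_add]
  · show resP v X (x + y) ᵥ* N = _
    rw [resP_add, Matrix.add_vecMul]
  · show trc col v N (resP v X (es γ i r)) = resP v X (es γ i r) ᵥ* N
    by_cases h : γ • v i ∈ X
    · rw [resP_es_of_mem v h, trc_es]
      refine b03_resP_eq_self v fun j γ' hγ' => ?_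
      rw [b03_es_vecMul, MonoidAlgebra.coeff_single_mul_apply] at hγ'
      have h1 : (N i j).coeff (γ⁻¹ * γ') ≠ 0 := by
        intro h0
        rw [h0, mul_zero] at hγ'
        exact hγ' rfl
      have h2 := hN γ i h j _ h1
      rw [mul_inv_cancel_left] at h2
      exact h2
    · rw [resP_es_of_notMem v h, b03_trc_zero, Matrix.zero_vecMul]

end

end Pool.Agent.Lib.MP_c052b4_al.LK
end
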