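import Pool.Agent.Lib.MP_c052b4_al.Mg.G083

section

set_option autoImplicit false
set_option linter.unusedSectionVars false

namespace Pool.Agent.Lib.MP_c052b4_al.LK

open Matrix Kern

universe u v w

section

variable {R : Type u} [Ring R] {Γ : Type v} [Group Γ] {V : Type w} [MulAction Γ V] {C : Type*}
  {p : Type*} [Fintype p] [DecidableEq p]

/-- The crossing part of a multiplication has finite type. -/
theorem ft_off {H : Subgroup Γ} {col : V → C} (hf : FinCut H col) (v : p → V)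
    (N : Matrix p p (MonoidAlgebra R Γ)) :
    FT H (fun m : p → MonoidAlgebra R Γ => m ᵥ* N - trc col v N m) := by
  classical
  choose S hS using hf
  refine ⟨Finset.univ.biUnion fun i : p => Finset.univ.biUnion fun j : p =>
    (N i j).coeff.support.biUnion fun g => S (v i) (g • v j), fun m hm => ?_⟩
  rw [sub_eq_zero]
  funext j
  change ∑ i, m i * N i j = ∑ i, (m i).coeff.sum fun γ r =>
    res {γ' | col (γ' • v j) = col (γ • v i)} (MonoidAlgebra.single γ r * N i j)
  refine Finset.sum_congr rfl fun i _ => ?_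
  have h1 : m i * N i j = ∑ γ ∈ (m i).coeff.support,
      MonoidAlgebra.single γ ((m i).coeff γ) * N i j := by
    conv_lhs => rw [← MonoidAlgebra.sum_coeff_single (m i)]
    rw [Finsupp.sum, Finset.sum_mul]
  rw [h1, Finsupp.sum]
  refine Finset.sum_congr rfl fun γ hγ => ?_
  symm
  refine res_eq_self fun γ' hγ' => ?_
  rw [MonoidAlgebra.coeff_single_mul_apply]
  by_contra hne
  have hg : (N i j).coeff (γ⁻¹ * γ') ≠ 0 := fun h0 => hne (by rw [h0, mul_zero])
  have hcol : col (γ • v i) ≠ col (γ • (γ⁻¹ * γ') • v j) := by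
    rw [smul_smul, mul_inv_cancel_left]
    exact fun h => hγ' h.symm
  obtain ⟨h, hh, s, hs, e⟩ := hS (v i) ((γ⁻¹ * γ') • v j) γ hcol
  refine Finsupp.mem_support_iff.1 hγ (hm i γ ⟨h, hh, s, ?_, e⟩)
  simp only [Finset.mem_biUnion, Finset.mem_univ, true_and]
  exact ⟨i, j, γ⁻¹ * γ', Finsupp.mem_support_iff.2 hg, hs⟩

theorem FT.add {H : Subgroup Γ} {W W' : (p → MonoidAlgebra R Γ) → (p → MonoidAlgebra R Γ)}
    (h : FT H W) (h' : FT H W') : FT H (fun m => W m + W' m) := by
  classical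
  obtain ⟨B, hB⟩ := h
  obtain ⟨B', hB'⟩ := h'
  refine ⟨B ∪ B', fun m hm => ?_⟩
  change W m + W' m = 0
  rw [hB m fun i γ ⟨g, hg, b, hb, e⟩ => hm i γ ⟨g, hg, b, Finset.mem_union_left _ hb, e⟩,
    hB' m fun i γ ⟨g, hg, b, hb, e⟩ => hm i γ ⟨g, hg, b, Finset.mem_union_right _ hb, e⟩,
    add_zero]

theorem FT.neg {H : Subgroup Γ} {W : (p → MonoidAlgebra R Γ) → (p → MonoidAlgebra R Γ)}
    (h : FT H W) : FT H (fun m => - W m) := by
  obtain ⟨B, hB⟩ := h
  exact ⟨B, fun m hm => by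
    change - W m = 0
    rw [hB m hm, neg_zero]⟩

theorem FT.comp_left {H : Subgroup Γ} {W D : (p → MonoidAlgebra R Γ) → (p → MonoidAlgebra R Γ)}
    (h : FT H W) (hD : D 0 = 0) : FT H (fun m => D (W m)) := by
  obtain ⟨B, hB⟩ := h
  exact ⟨B, fun m hm => by
    change D (W m) = 0
    rw [hB m hm, hD]⟩

theorem FT.vecMul {H : Subgroup Γ} {W : (p → MonoidAlgebra R Γ) → (p → MonoidAlgebra R Γ)}
    (h : FT H W) (N : Matrix p p (MonoidAlgebra R Γ)) : FT H (fun m => W (m ᵥ* N)) := by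
  classical
  obtain ⟨B, hB⟩ := h
  refine ⟨Finset.univ.biUnion fun i : p => Finset.univ.biUnion fun j : p =>
    (N i j).coeff.support.biUnion fun g => B.image fun b => b * g⁻¹, fun m hm => ?_⟩
  change W (m ᵥ* N) = 0
  refine hB _ ?_
  rintro j γ ⟨g, hg, b, hb, rfl⟩
  change (∑ i, m i * N i j).coeff (g * b) = 0
  rw [MonoidAlgebra.coeff_sum, Finsupp.finsetSum_apply]
  refine Finset.sum_eq_zero fun i _ => ?_
  refine coeff_mul_eq_zero (Y := {x | (m i).coeff x ≠ 0}) (Z := {x | (N i j).coeff x ≠ 0})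
    (fun a ha => not_not.1 ha) (fun a ha => not_not.1 ha) ?_
  intro a ha c hc e
  refine ha (hm i a ⟨g, hg, b * c⁻¹, ?_, ?_⟩)
  · simp only [Finset.mem_biUnion, Finset.mem_univ, true_and, Finset.mem_image]
    exact ⟨i, j, c, Finsupp.mem_support_iff.2 hc, b, hb, rfl⟩
  · rw [← mul_assoc, ← e, mul_inv_cancel_right]

theorem FT.resP {H : Subgroup Γ} {W : (p → MonoidAlgebra R Γ) → (p → MonoidAlgebra R Γ)}
    (h : FT H W) (v : p → V) (X : Set V) : FT H (fun m => W (LK.resP v X m)) := by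
  obtain ⟨B, hB⟩ := h
  refine ⟨B, fun m hm => ?_⟩
  change W (LK.resP v X m) = 0
  refine hB _ fun i γ hγ => ?_
  change (Kern.res {γ | γ • v i ∈ X} (m i)).coeff γ = 0
  by_cases h1 : γ ∈ {γ | γ • v i ∈ X}
  · rw [coeff_res_of_mem h1]
    exact hm i γ hγ
  · exact coeff_res_of_notMem h1 _

/-- The restriction to the position `y` has finite type over the stabilizer. -/
theorem ft_resP_singleton (v : p → V) (y : V) :
    FT (MulAction.stabilizer Γ y)
      (LK.resP v {y} : (p → MonoidAlgebra R Γ) → (p → MonoidAlgebra R Γ)) := by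
  classical
  have h1 : ∀ i : p, ∃ g : Γ, (∃ γ : Γ, γ • v i = y) → g • v i = y := by
    intro i
    by_cases h : ∃ γ : Γ, γ • v i = y
    · exact ⟨h.choose, fun _ => h.choose_spec⟩
    · exact ⟨1, fun h' => absurd h' h⟩
  choose g hg using h1
  refine ⟨Finset.univ.image g, fun m hm => ?_⟩
  funext j
  change Kern.res {γ | γ • v j ∈ ({y} : Set V)} (m j) = 0
  ext γ
  by_cases hγ : γ ∈ {γ | γ • v j ∈ ({y} : Set V)}
  · rw [coeff_res_of_mem hγ]
    have h2 : γ • v j = y := hγ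
    have h3 := hg j ⟨γ, h2⟩
    refine hm j γ ⟨γ * (g j)⁻¹, ?_, g j, Finset.mem_image_of_mem _ (Finset.mem_univ _), ?_⟩
    · rw [MulAction.mem_stabilizer_iff]
      conv_lhs => rw [← h3]
      rw [smul_smul, inv_mul_cancel_right, h2]
    · rw [inv_mul_cancel_right]
  · rw [coeff_res_of_notMem hγ]
    rfl

end

end Pool.Agent.Lib.MP_c052b4_al.LK
end

section

set_option autoImplicit false
set_option linter.unusedSectionVars false

namespace Pool.Agent.Lib.MP_c052b4_al.LK

open Matrix Kern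

universe u v w

section

variable {Γ : Type v} [Group Γ] {V : Type w} [MulAction Γ V] (K : CutSys Γ V)

theorem CutSys.symm {y z : V} (h : K.Adj y z) : K.Adj z y := by
  refine ⟨?_, fun e => h.2 e.symm⟩
  by_contra hc
  have h1 := (K.side y z h.1 h.2 y).2 hc
  rw [K.self] at h1
  exact h.2 h1

theorem CutSys.adj_smul {y z : V} (h : K.Adj y z) (γ : Γ) : K.Adj (γ • y) (γ • z) := by
  refine ⟨?_, fun e => h.2 (MulAction.injective γ e)⟩
  rw [K.equiv, h.1]

theorem CutSys.adj_c {y w : V} (h : w ≠ y) : K.Adj y (K.c y w) :=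
  ⟨K.adj y w, fun e => K.ne y w h e.symm⟩

theorem CutSys.c_eq_self_iff {y w : V} : K.c y w = y ↔ w = y := by
  constructor
  · intro h
    by_contra hc
    exact K.ne y w hc h
  · intro h
    rw [h, K.self]

private theorem d02_c_smul {y : V} {h : Γ} (hh : h ∈ MulAction.stabilizer Γ y) (w : V) :
    K.c y (h • w) = h • K.c y w := by
  rw [← K.equiv, MulAction.mem_stabilizer_iff.1 hh]

theorem CutSys.pres_c (y : V) : Pres (MulAction.stabilizer Γ y) (K.c y) := by
  intro h hh w w'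
  rw [d02_c_smul K hh, d02_c_smul K hh]
  exact (MulAction.injective h).eq_iff

private theorem d02_c_inv (y : V) (γ : Γ) (w : V) : K.c y (γ • w) = γ • K.c (γ⁻¹ • y) w := by
  rw [← K.equiv, smul_inv_smul]

theorem CutSys.finCut_c (y : V) : FinCut (MulAction.stabilizer Γ y) (K.c y) := by
  classical
  intro w w'
  refine ⟨(K.fin w w').toFinset.image
    (fun x => if hx : ∃ s : Γ, s⁻¹ • y = x then Classical.choose hx else 1), ?_⟩
  intro γ hγ
  rw [d02_c_inv, d02_c_inv] at hγ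
  have h1 : γ⁻¹ • y ∈ {y | K.c y w ≠ K.c y w'} := fun e => hγ (by rw [e])
  have hx : ∃ s : Γ, s⁻¹ • y = γ⁻¹ • y := ⟨γ, rfl⟩
  have hs := Classical.choose_spec hx
  refine ⟨γ * (Classical.choose hx)⁻¹, ?_, Classical.choose hx, ?_, ?_⟩
  · rw [MulAction.mem_stabilizer_iff, mul_smul, hs, smul_inv_smul]
  · rw [Finset.mem_image]
    refine ⟨γ⁻¹ • y, (K.fin w w').mem_toFinset.2 h1, ?_⟩
    rw [dif_pos hx]
  · rw [inv_mul_cancel_right]

theorem CutSys.pres_colE (y z : V) :
    Pres (MulAction.stabilizer Γ y ⊓ MulAction.stabilizer Γ z) (K.colE y z) := by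
  intro h hh w w'
  have hy := (Subgroup.mem_inf.1 hh).1
  have hz := MulAction.mem_stabilizer_iff.1 (Subgroup.mem_inf.1 hh).2
  have h1 : ∀ w, K.colE y z (h • w) = K.colE y z w := by
    intro w
    apply propext
    change K.c y (h • w) = z ↔ K.c y w = z
    rw [d02_c_smul K hy]
    conv_lhs => rw [← hz]
    exact (MulAction.injective h).eq_iff
  rw [h1, h1]

theorem CutSys.finCut_colE {y z : V} (h : K.Adj y z) :
    FinCut (MulAction.stabilizer Γ y ⊓ MulAction.stabilizer Γ z) (K.colE y z) := by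
  classical
  intro w w'
  refine ⟨((K.fin w w').toFinset.image (fun x => (x, K.c x w)) ∪
      (K.fin w w').toFinset.image (fun x => (x, K.c x w'))).image
    (fun x => if hx : ∃ s : Γ, s⁻¹ • y = x.1 ∧ s⁻¹ • z = x.2 then Classical.choose hx else 1), ?_⟩
  intro γ hγ
  have h0 : K.c y (γ • w) ≠ K.c y (γ • w') := by
    intro e
    apply hγ
    change (K.c y (γ • w) = z) = (K.c y (γ • w') = z)
    rw [e]
  have h2 : K.c y (γ • w) = z ∨ K.c y (γ • w') = z := by
    by_contra hc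
    rw [not_or] at hc
    apply hγ
    change (K.c y (γ • w) = z) = (K.c y (γ • w') = z)
    rw [eq_false hc.1, eq_false hc.2]
  rw [d02_c_inv, d02_c_inv] at h0 h2
  have h1 : γ⁻¹ • y ∈ {y | K.c y w ≠ K.c y w'} := fun e => h0 (by rw [e])
  have hx : ∃ s : Γ, s⁻¹ • y = (γ⁻¹ • y, γ⁻¹ • z).1 ∧ s⁻¹ • z = (γ⁻¹ • y, γ⁻¹ • z).2 :=
    ⟨γ, rfl, rfl⟩
  have hs := Classical.choose_spec hx
  refine ⟨γ * (Classical.choose hx)⁻¹, ?_, Classical.choose hx, ?_, ?_⟩
  · rw [Subgroup.mem_inf, MulAction.mem_stabilizer_iff, MulAction.mem_stabilizer_iff, mul_smul,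
      mul_smul, hs.1, hs.2]
    exact ⟨smul_inv_smul _ _, smul_inv_smul _ _⟩
  · rw [Finset.mem_image]
    refine ⟨(γ⁻¹ • y, γ⁻¹ • z), ?_, ?_⟩
    · rw [Finset.mem_union, Finset.mem_image, Finset.mem_image]
      rcases h2 with h2 | h2
      · left
        refine ⟨γ⁻¹ • y, (K.fin w w').mem_toFinset.2 h1, ?_⟩
        rw [← h2, inv_smul_smul]
      · right
        refine ⟨γ⁻¹ • y, (K.fin w w').mem_toFinset.2 h1, ?_⟩
        rw [← h2, inv_smul_smul]
    · rw [dif_pos hx]
  · rw [inv_mul_cancel_right]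

/-- An element which maps a point of a side into the same side fixes the edge. -/
theorem CutSys.mem_of_sideE {y z : V} {h : Γ} (hh : h ∈ MulAction.stabilizer Γ y) {w : V}
    (hw : w ∈ K.sideE y z) (hhw : h • w ∈ K.sideE y z) :
    h ∈ MulAction.stabilizer Γ y ⊓ MulAction.stabilizer Γ z := by
  refine Subgroup.mem_inf.2 ⟨hh, MulAction.mem_stabilizer_iff.2 ?_⟩
  have h1 : K.c y w = z := hw
  have h2 : K.c y (h • w) = z := hhw
  rw [d02_c_smul K hh, h1] at h2
  exact h2

end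

end Pool.Agent.Lib.MP_c052b4_al.LK
end
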