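import Pool.Agent.Lib.MP_c052b4_al.Mg.G083
import Pool.Agent.Lib.MP_c052b4_al.Mg.G084
import Pool.Agent.Lib.MP_c052b4_al.Mg.G085
import Pool.Agent.Lib.MP_c052b4_al.Mg.G086

section

set_option autoImplicit false
set_option linter.unusedSectionVars false

namespace Pool.Agent.Lib.MP_c052b4_al.LK

open Matrix Kern

universe u v w

section

variable {R : Type u} [Ring R] {Γ : Type v} [Group Γ] {V : Type w} [MulAction Γ V] {C : Type*}
  {p : Type*} [Fintype p] [DecidableEq p]

private theorem c01_mul_self {α : p → Prop} {N : Matrix p p (MonoidAlgebra R Γ)}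
    (hN : OneS α N) : N * N = 0 := by
  refine Matrix.ext fun i j => ?_
  rw [Matrix.mul_apply, Matrix.zero_apply]
  refine Finset.sum_eq_zero fun k _ => ?_
  by_cases h1 : N i k = 0
  · rw [h1, zero_mul]
  by_cases h2 : N k j = 0
  · rw [h2, mul_zero]
  exact absurd (hN k j h2).1 (hN i k h1).2

private theorem c01_fcE {H : Subgroup Γ} {col : V → C} (hp : Pres H col) (hf : FinCut H col)
    (v : p → V) {α : p → Prop} {N : Matrix p p (MonoidAlgebra R Γ)} (hN : OneS α N) :
    FC (inc R H.subtype)
      (fun u : p → MonoidAlgebra R Γ => u + (trc col v N u + -(u ᵥ* N))) 0 := by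
  have h1 := isOp_trc (R := R) hp v N
  have h2 := isOp_vecMul (R := R) H N
  refine FC.one_sided H ⟨fun x y => ?_, fun s x => ?_⟩ ?_ α ?_ ?_
  · rw [h1.add, Matrix.add_vecMul]
    abel
  · rw [h1.smul, smul_add, smul_neg]
    have h3 := h2.smul s x
    change (inc R H.subtype s • x) ᵥ* N = inc R H.subtype s • (x ᵥ* N) at h3
    rw [h3]
  · have h3 := (ft_off (R := R) hf v N).neg
    have h4 : (fun m : p → MonoidAlgebra R Γ => -(m ᵥ* N - trc col v N m)) =
        fun u => trc col v N u + -(u ᵥ* N) := by
      funext m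
      abel
    rw [h4] at h3
    exact h3
  · intro m hm
    have h3 : m ᵥ* N = 0 := by
      funext j
      change ∑ i, m i * N i j = 0
      refine Finset.sum_eq_zero fun i _ => ?_
      by_cases h : N i j = 0
      · rw [h, mul_zero]
      · rw [hm i (hN i j h).1, zero_mul]
    have h4 : trc col v N m = 0 := by
      funext j
      unfold trc
      refine Finset.sum_eq_zero fun i _ => ?_
      by_cases h : N i j = 0
      · rw [h]
        simp [Finsupp.sum]
      · rw [hm i (hN i j h).1]
        simp
    rw [h3, h4, neg_zero, add_zero]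
  · intro m j hj
    have h3 : (m ᵥ* N) j = 0 := by
      change ∑ i, m i * N i j = 0
      refine Finset.sum_eq_zero fun i _ => ?_
      by_cases h : N i j = 0
      · rw [h, mul_zero]
      · exact absurd hj (hN i j h).2
    have h4 : trc col v N m j = 0 := by
      unfold trc
      refine Finset.sum_eq_zero fun i _ => ?_
      by_cases h : N i j = 0
      · rw [h]
        simp [Finsupp.sum]
      · exact absurd hj (hN i j h).2
    rw [Pi.add_apply, Pi.neg_apply, h3, h4, neg_zero, add_zero]

/-- The operator `E⁻¹ t(E₁) ⋯ t(E_l)` has class zero and finite type. -/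
theorem fc_trl {H : Subgroup Γ} {col : V → C} (hp : Pres H col) (hf : FinCut H col) (v : p → V)
    (l : List (Matrix p p (MonoidAlgebra R Γ)))
    (hl : ∀ E ∈ l, ∃ α : p → Prop, OneS α (E - 1)) (W : Matrix p p (MonoidAlgebra R Γ))
    (h1 : l.prod * W = 1) (h2 : W * l.prod = 1) :
    FC (inc R H.subtype) (fun m : p → MonoidAlgebra R Γ => trl col v l (m ᵥ* W)) 0 ∧
      FT H (fun m : p → MonoidAlgebra R Γ => trl col v l (m ᵥ* W) - m) := by
  classical
  induction l generalizing W with
  | nil =>
    rw [List.prod_nil, one_mul] at h1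
    subst h1
    have h3 : (fun m : p → MonoidAlgebra R Γ =>
        trl col v ([] : List (Matrix p p (MonoidAlgebra R Γ))) (m ᵥ* 1)) = fun m => m := by
      funext m
      change m ᵥ* 1 = m
      rw [Matrix.vecMul_one]
    refine ⟨?_, ∅, fun m _ => ?_⟩
    · rw [h3]
      exact FC.refl
    · have h4 := congrFun h3 m
      change trl col v ([] : List (Matrix p p (MonoidAlgebra R Γ))) (m ᵥ* 1) = m at h4
      change trl col v ([] : List (Matrix p p (MonoidAlgebra R Γ))) (m ᵥ* 1) - m = 0
      rw [h4, sub_self]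
  | cons E l ih =>
    obtain ⟨α, hα⟩ := hl E List.mem_cons_self
    rw [List.prod_cons] at h1 h2
    set N := E - 1 with hN
    have hE : E = 1 + N := by rw [hN]; abel
    have hNN := c01_mul_self hα
    have hE1 : (1 - N) * E = 1 := by
      rw [hE]
      calc (1 - N) * (1 + N) = 1 - N * N := by noncomm_ring
        _ = 1 := by rw [hNN, sub_zero]
    have hE2 : E * (1 - N) = 1 := by
      rw [hE]
      calc (1 + N) * (1 - N) = 1 - N * N := by noncomm_ring
        _ = 1 := by rw [hNN, sub_zero]
    have h1' : l.prod * (W * E) = 1 := by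
      calc l.prod * (W * E) = ((1 - N) * E) * (l.prod * (W * E)) := by rw [hE1, one_mul]
        _ = (1 - N) * ((E * l.prod * W) * E) := by simp only [mul_assoc]
        _ = 1 := by rw [h1, one_mul, hE1]
    have h2' : (W * E) * l.prod = 1 := by rw [mul_assoc]; exact h2
    obtain ⟨ih1, B2, hB2⟩ := ih (fun E' hE' => hl E' (List.mem_cons_of_mem _ hE')) (W * E) h1' h2'
    have hfe := c01_fcE hp hf v hα
    have hoP := isOp_vecMul (R := R) (p := p) H l.prod
    have hconj := FC.conj (L := fun y : p → MonoidAlgebra R Γ => y ᵥ* l.prod)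
      (L' := fun y : p → MonoidAlgebra R Γ => y ᵥ* (W * E)) hoP
      (fun m => by
        change (m ᵥ* (W * E)) ᵥ* l.prod = m
        rw [Matrix.vecMul_vecMul, h2', Matrix.vecMul_one])
      (fun m => by
        change (m ᵥ* l.prod) ᵥ* (W * E) = m
        rw [Matrix.vecMul_vecMul, h1', Matrix.vecMul_one]) hfe
    have hcomp := FC.comp ih1 hconj
    rw [add_zero] at hcomp
    have hkey : ∀ m : p → MonoidAlgebra R Γ, trl col v (E :: l) (m ᵥ* W) =
        trl col v l (((m ᵥ* (W * E) + (trc col v N (m ᵥ* (W * E)) + -((m ᵥ* (W * E)) ᵥ* N))) ᵥ*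
          l.prod) ᵥ* (W * E)) := by
      intro m
      rw [Matrix.vecMul_vecMul _ l.prod, h1', Matrix.vecMul_one]
      change trl col v l (trc col v E (m ᵥ* W)) = _
      congr 1
      set u := m ᵥ* (W * E) with hu
      have h3 : m ᵥ* W = u + (-u) ᵥ* N := by
        have h4 : W = (W * E) * (1 - N) := by rw [mul_assoc, hE2, mul_one]
        calc m ᵥ* W = m ᵥ* ((W * E) * (1 - N)) := by rw [← h4]
          _ = u ᵥ* (1 - N) := by rw [← Matrix.vecMul_vecMul]
          _ = u + (-u) ᵥ* N := by
            rw [Matrix.vecMul_sub, Matrix.vecMul_one, Matrix.neg_vecMul]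
            abel
      rw [hE, trc_one_add, h3, trc_add, trc_vecMul_oneS col v hα, Matrix.neg_vecMul]
      abel
    refine ⟨?_, ?_⟩
    · have h3 : (fun m : p → MonoidAlgebra R Γ => trl col v (E :: l) (m ᵥ* W)) = _ :=
        funext hkey
      rw [h3]
      exact hcomp
    · have hW3 : FT H (fun m : p → MonoidAlgebra R Γ =>
          (trc col v N (m ᵥ* (W * E)) + -((m ᵥ* (W * E)) ᵥ* N)) ᵥ* l.prod) := by
        have h3 := (ft_off (R := R) hf v N).neg
        have h4 : (fun m : p → MonoidAlgebra R Γ => -(m ᵥ* N - trc col v N m)) =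
            fun u => trc col v N u + -(u ᵥ* N) := by
          funext m
          abel
        rw [h4] at h3
        have h5 := h3.vecMul (W * E)
        exact h5.comp_left (D := fun y => y ᵥ* l.prod) (Matrix.zero_vecMul _)
      obtain ⟨B1, hB1⟩ := hW3
      refine ⟨B1 ∪ B2, fun m hm => ?_⟩
      have h3 := hB1 m fun i γ ⟨h, hh, b, hb, e⟩ =>
        hm i γ ⟨h, hh, b, Finset.mem_union_left _ hb, e⟩
      have h4 := hB2 m fun i γ ⟨h, hh, b, hb, e⟩ =>
        hm i γ ⟨h, hh, b, Finset.mem_union_right _ hb, e⟩
      change (trc col v N (m ᵥ* (W * E)) + -((m ᵥ* (W * E)) ᵥ* N)) ᵥ* l.prod = 0 at h3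
      change trl col v l (m ᵥ* (W * E)) - m = 0 at h4
      change trl col v (E :: l) (m ᵥ* W) - m = 0
      rw [hkey, Matrix.add_vecMul, h3, add_zero, Matrix.vecMul_vecMul m (W * E) l.prod, h2',
        Matrix.vecMul_one]
      exact h4

end

end Pool.Agent.Lib.MP_c052b4_al.LK
end

section

set_option autoImplicit false
set_option linter.unusedSectionVars false

namespace Pool.Agent.Lib.MP_c052b4_al.LK

open Matrix Kern

universe u v w

section

variable {R : Type u} [Ring R] {Γ : Type v} [Group Γ] {V : Type w} [MulAction Γ V] {C C' : Type*}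
  {p : Type*} [Fintype p] [DecidableEq p] {K : CutSys Γ V} (L : LData R K p)

private theorem c02_trl_add (col : V → C) (v : p → V)
    (l : List (Matrix p p (MonoidAlgebra R Γ))) :
    ∀ x y : p → MonoidAlgebra R Γ, trl col v l (x + y) = trl col v l x + trl col v l y := by
  induction l with
  | nil => intro x y; rfl
  | cons E l ih =>
    intro x y
    change trl col v l (trc col v E (x + y)) = trl col v l (trc col v E x) +
      trl col v l (trc col v E y)
    rw [trc_add, ih]

private theorem c02_trl_resP (col : V → C) (v : p → V) (Y : Set C)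
    (l : List (Matrix p p (MonoidAlgebra R Γ))) :
    ∀ x : p → MonoidAlgebra R Γ, resP v (col ⁻¹' Y) (trl col v l x) =
      trl col v l (resP v (col ⁻¹' Y) x) := by
  induction l with
  | nil => intro x; rfl
  | cons E l ih =>
    intro x
    change resP v (col ⁻¹' Y) (trl col v l (trc col v E x)) =
      trl col v l (trc col v E (resP v (col ⁻¹' Y) x))
    rw [ih, trc_resP]

private theorem c02_trl_pres (col : V → C) (v : p → V) (Y : Set C)
    (l : List (Matrix p p (MonoidAlgebra R Γ)))
    (hY : ∀ E ∈ l, ∀ (γ : Γ) (i : p), col (γ • v i) ∈ Y → ∀ j g,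
      ((E - 1) i j).coeff g ≠ 0 → col ((γ * g) • v j) = col (γ • v i)) :
    ∀ x : p → MonoidAlgebra R Γ, resP v (col ⁻¹' Y) x = x →
      trl col v l x = x ᵥ* l.prod := by
  induction l with
  | nil =>
    intro x _
    rw [List.prod_nil, Matrix.vecMul_one]
    rfl
  | cons E l ih =>
    intro x hx
    change trl col v l (trc col v E x) = _
    have h1 : trc col v E x = x ᵥ* E := by
      have h2 : E = 1 + (E - 1) := by abel
      have h3 : trc col v (E - 1) (resP v (col ⁻¹' Y) x) =
          resP v (col ⁻¹' Y) x ᵥ* (E - 1) :=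
        trc_resP_of col v (fun γ i hi j g hg => hY E List.mem_cons_self γ i hi j g hg) x
      rw [hx] at h3
      rw [h2, trc_one_add, Matrix.vecMul_add, Matrix.vecMul_one, h3]
    have h2 : resP v (col ⁻¹' Y) (trc col v E x) = trc col v E x := by
      rw [← trc_resP, hx]
    rw [ih (fun E' hE' => hY E' (List.mem_cons_of_mem _ hE')) _ h2, h1, Matrix.vecMul_vecMul,
      List.prod_cons]

private theorem c02_trl_class {col : V → C} {col' : V → C'} {c : C} {c' : C'} (v : p → V)
    (h : ∀ w, col w = c ↔ col' w = c') (l : List (Matrix p p (MonoidAlgebra R Γ))) :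
    ∀ x : p → MonoidAlgebra R Γ, trl col v l (resP v {w | col w = c} x) =
      trl col' v l (resP v {w | col w = c} x) := by
  have hs : {w | col w = c} = {w | col' w = c'} := Set.ext fun w => h w
  induction l with
  | nil => intro x; rfl
  | cons E l ih =>
    intro x
    change trl col v l (trc col v E (resP v {w | col w = c} x)) =
      trl col' v l (trc col' v E (resP v {w | col w = c} x))
    rw [trc_resP_class, ih]
    have h1 : trc col' v E (resP v {w | col w = c} x) =
        resP v {w | col w = c} (resP v {w | col w = c} x ᵥ* E) := by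
      rw [hs]
      exact trc_resP_class col' v c' E x
    rw [h1]

private theorem c02_trc_congr {col : V → C} {col' : V → C'} (v : p → V)
    (h : ∀ w w', col w = col w' ↔ col' w = col' w') (N : Matrix p p (MonoidAlgebra R Γ))
    (m : p → MonoidAlgebra R Γ) : trc col v N m = trc col' v N m := by
  have hs : ∀ (i j : p) (γ : Γ), {γ' : Γ | col (γ' • v j) = col (γ • v i)} =
      {γ' | col' (γ' • v j) = col' (γ • v i)} := fun i j γ => Set.ext fun γ' => h _ _
  unfold trc
  simp only [hs]

private theorem c02_trl_congr {col : V → C} {col' : V → C'} (v : p → V)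
    (h : ∀ w w', col w = col w' ↔ col' w = col' w')
    (l : List (Matrix p p (MonoidAlgebra R Γ))) :
    ∀ x : p → MonoidAlgebra R Γ, trl col v l x = trl col' v l x := by
  induction l with
  | nil => intro x; rfl
  | cons E l ih =>
    intro x
    change trl col v l (trc col v E x) = trl col' v l (trc col' v E x)
    rw [ih, c02_trc_congr v h]

theorem LData.D_add (col : V → C) (x y : p → MonoidAlgebra R Γ) :
    L.D col (x + y) = L.D col x + L.D col y := by
  unfold LData.D
  rw [Matrix.add_vecMul, c02_trl_add]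

/-- The operator commutes with the restriction to a union of classes. -/
theorem LData.D_resP (col : V → C) (Y : Set C) (m : p → MonoidAlgebra R Γ) :
    resP L.v (col ⁻¹' Y) (L.D col m) = L.D col (resP L.v (col ⁻¹' Y) m) := by
  unfold LData.D
  rw [c02_trl_resP, resP_vecMul L.v L.grW]

/-- On a set of positions on which all the matrices preserve the classes the operator is the
identity. -/
theorem LData.D_of_pres (col : V → C) (Y : Set C)
    (hY : ∀ E ∈ L.l, ∀ (γ : Γ) (i : p), col (γ • L.v i) ∈ Y → ∀ j g,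
      ((E - 1) i j).coeff g ≠ 0 → col ((γ * g) • L.v j) = col (γ • L.v i))
    (m : p → MonoidAlgebra R Γ) :
    L.D col (resP L.v (col ⁻¹' Y) m) = resP L.v (col ⁻¹' Y) m := by
  unfold LData.D
  have h1 : resP L.v (col ⁻¹' Y) (resP L.v (col ⁻¹' Y) m ᵥ* L.W) =
      resP L.v (col ⁻¹' Y) m ᵥ* L.W := by
    rw [resP_vecMul L.v L.grW, resP_resP, Set.inter_self]
  rw [c02_trl_pres col L.v Y L.l hY _ h1, Matrix.vecMul_vecMul, L.Wl, Matrix.vecMul_one]

/-- The operators of two colourings agree on a common class. -/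
theorem LData.D_class {col : V → C} {col' : V → C'} {c : C} {c' : C'}
    (h : ∀ w, col w = c ↔ col' w = c') (m : p → MonoidAlgebra R Γ) :
    L.D col (resP L.v {w | col w = c} m) = L.D col' (resP L.v {w | col w = c} m) := by
  unfold LData.D
  rw [← resP_vecMul L.v L.grW]
  exact c02_trl_class L.v h L.l _

/-- The operator depends only on the partition. -/
theorem LData.D_congr {col : V → C} {col' : V → C'}
    (h : ∀ w w', col w = col w' ↔ col' w = col' w') (m : p → MonoidAlgebra R Γ) :
    L.D col m = L.D col' m := by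
  unfold LData.D
  exact c02_trl_congr L.v h L.l _

end

end Pool.Agent.Lib.MP_c052b4_al.LK
end

section

set_option autoImplicit false
set_option linter.unusedSectionVars false

namespace Pool.Agent.Lib.MP_c052b4_al.LK

open Matrix Kern

universe u v w

section

variable {R : Type u} [Ring R] {Γ : Type v} [Group Γ] {V : Type w} [MulAction Γ V] {C : Type*}
  {p : Type*} [Fintype p] [DecidableEq p] {K : CutSys Γ V} (L : LData R K p)
  {H : Subgroup Γ} {col : V → C}

theorem LData.tau_unique {X : Set V} {κ κ' : KOne (MonoidAlgebra R H)} (h : L.Tau H col X κ)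
    (h' : L.Tau H col X κ') : κ = κ' :=
  FC.unique (lfr_inc H p) h h'

theorem LData.tau_exists (hp : Pres H col) (hf : FinCut H col) (Y : Set C)
    (hY : ∀ h ∈ H, ∀ w : V, col w ∈ Y → col (h • w) ∈ Y) :
    ∃ κ : KOne (MonoidAlgebra R H), L.Tau H col (col ⁻¹' Y) κ :=
  FC.restrict (isOp_resP L.v fun h hh w hw => hY h hh w hw)
    (fun m => by rw [resP_resP, Set.inter_self]) (fun m => L.D_resP col Y m)
    (fc_trl hp hf L.v L.l L.os L.W L.lW L.Wl).1

theorem LData.tau_univ (hp : Pres H col) (hf : FinCut H col) : L.Tau H col Set.univ 0 := by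
  have h := (fc_trl hp hf L.v L.l L.os L.W L.lW L.Wl).1
  have h1 : RS (L.D col) (resP L.v Set.univ) =
      fun m : p → MonoidAlgebra R Γ => trl col L.v L.l (m ᵥ* L.W) := by
    funext m
    unfold RS
    rw [resP_univ, sub_self, add_zero]
    rfl
  unfold LData.Tau
  rw [h1]
  exact h

theorem LData.tau_union {Y Y' : Set C} (hY : Disjoint Y Y') {κ κ' : KOne (MonoidAlgebra R H)}
    (h : L.Tau H col (col ⁻¹' Y) κ) (h' : L.Tau H col (col ⁻¹' Y') κ') :
    L.Tau H col (col ⁻¹' (Y ∪ Y')) (κ + κ') := by
  have hd : Disjoint (col ⁻¹' Y) (col ⁻¹' Y') := hY.preimage col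
  have h1 : (resP L.v (col ⁻¹' (Y ∪ Y')) : (p → MonoidAlgebra R Γ) → _) =
      fun m => resP L.v (col ⁻¹' Y) m + resP L.v (col ⁻¹' Y') m := by
    funext m
    rw [Set.preimage_union, resP_union L.v hd]
  unfold LData.Tau at h h' ⊢
  rw [h1, RS_add (L.D_add col) (resP_add L.v _) (fun m => by rw [resP_resP, Set.inter_self])
    (fun m => by rw [resP_resP, hd.inter_eq, resP_empty]) (fun m => L.D_resP col Y m)]
  exact FC.comp h h'

theorem LData.tau_of_pres {Y : Set C}
    (hY : ∀ E ∈ L.l, ∀ (γ : Γ) (i : p), col (γ • L.v i) ∈ Y → ∀ j g,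
      ((E - 1) i j).coeff g ≠ 0 → col ((γ * g) • L.v j) = col (γ • L.v i)) :
    L.Tau H col (col ⁻¹' Y) 0 := by
  have h1 : RS (L.D col) (resP L.v (col ⁻¹' Y)) = fun m : p → MonoidAlgebra R Γ => m := by
    funext m
    unfold RS
    rw [L.D_of_pres col Y hY, add_sub_cancel]
  unfold LData.Tau
  rw [h1]
  exact FC.refl

end

end Pool.Agent.Lib.MP_c052b4_al.LK
end

section

set_option autoImplicit false
set_option linter.unusedSectionVars false

namespace Pool.Agent.Lib.MP_c052b4_al.LK

open Matrix Kern

universe u v w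

section

variable {R : Type u} [Ring R] {Γ : Type v} [Group Γ] {V : Type w} [MulAction Γ V]
  {p : Type*} [Fintype p] [DecidableEq p] {K : CutSys Γ V} (L : LData R K p)

private theorem c06_transport {H H' : Subgroup Γ} (h : H = H') {C : Type*} {col : V → C}
    {X : Set V} {κ : KOne (MonoidAlgebra R H)} (hT : L.Tau H col X κ) :
    L.Tau H' col X (KOne.map (inc R (Subgroup.inclusion (le_of_eq h))) κ) := by
  subst h
  have h1 : Subgroup.inclusion (le_of_eq (rfl : H = H)) = MonoidHom.id H := by
    ext x
    rfl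
  have h2 : inc R (MonoidHom.id H) = RingHom.id _ := MonoidAlgebra.mapDomainRingHom_id
  rw [h1, h2, KOne.map_id]
  exact hT

/-- The classes of the two sides of an edge are inverse to each other. -/
theorem LData.tau_antisymm {y z : V} (hyz : K.Adj y z)
    {κ : KOne (MonoidAlgebra R ↥(MulAction.stabilizer Γ y ⊓ MulAction.stabilizer Γ z))}
    {κ' : KOne (MonoidAlgebra R ↥(MulAction.stabilizer Γ z ⊓ MulAction.stabilizer Γ y))}
    (h : L.Tau (MulAction.stabilizer Γ y ⊓ MulAction.stabilizer Γ z) (K.colE y z)
      (K.sideE y z) κ)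
    (h' : L.Tau (MulAction.stabilizer Γ z ⊓ MulAction.stabilizer Γ y) (K.colE z y)
      (K.sideE z y) κ') :
    κ' = - KOne.map (inc R (Subgroup.inclusion (le_of_eq (inf_comm _ _)))) κ := by
  have hK := K.side y z hyz.1 hyz.2
  have h1 : ∀ w, K.colE z y w ↔ ¬ K.colE y z w := fun w => by
    have h2 := hK w
    change K.c z w = y ↔ ¬ K.c y w = z
    tauto
  have hcol : ∀ w w', K.colE y z w = K.colE y z w' ↔ K.colE z y w = K.colE z y w' := by
    intro w w'
    rw [eq_iff_iff, eq_iff_iff, h1 w, h1 w']
    tauto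
  have hD : L.D (K.colE y z) = L.D (K.colE z y) := funext fun m => L.D_congr hcol m
  have h3 := c06_transport L (inf_comm _ _) h
  have h4 : L.Tau (MulAction.stabilizer Γ z ⊓ MulAction.stabilizer Γ y) (K.colE z y)
      (K.colE z y ⁻¹' {False})
      (KOne.map (inc R (Subgroup.inclusion (le_of_eq (inf_comm _ _)))) κ) := by
    have h5 : K.colE z y ⁻¹' {False} = K.sideE y z := by
      ext w
      change (K.colE z y w = False) ↔ K.colE y z w
      rw [eq_iff_iff, h1 w]
      tauto
    rw [h5]
    unfold LData.Tau at h3 ⊢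
    rw [← hD]
    exact h3
  have h6 : L.Tau (MulAction.stabilizer Γ z ⊓ MulAction.stabilizer Γ y) (K.colE z y)
      (K.colE z y ⁻¹' {True}) κ' := by
    have h5 : K.colE z y ⁻¹' {True} = K.sideE z y := by
      ext w
      change (K.colE z y w = True) ↔ K.colE z y w
      rw [eq_iff_iff]
      tauto
    rw [h5]
    exact h'
  have h7 : Disjoint ({True} : Set Prop) {False} := by
    rw [Set.disjoint_singleton]
    exact fun h => by
      rw [← h]
      trivial
  have h8 := L.tau_union h7 h6 h4
  have h9 : K.colE z y ⁻¹' ({True} ∪ {False}) = Set.univ := by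
    ext w
    simp only [Set.mem_preimage, Set.mem_union, Set.mem_singleton_iff, Set.mem_univ, iff_true,
      eq_iff_iff]
    tauto
  rw [h9] at h8
  have h10 := L.tau_unique h8 (L.tau_univ (K.pres_colE z y) (K.finCut_colE (K.symm hyz)))
  exact eq_neg_of_add_eq_zero_left h10

end

end Pool.Agent.Lib.MP_c052b4_al.LK
end
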