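import Pool.Agent.Lib.MP_c052b4_al.KOneKernel
import Pool.Agent.Lib.MP_c052b4_al.Mg.G083
import Pool.Agent.Lib.MP_c052b4_al.Mg.G085
import Pool.Agent.Lib.MP_c052b4_al.Mg.G084

section

set_option autoImplicit false
set_option linter.unusedSectionVars false

namespace Pool.Agent.Lib.MP_c052b4_al.LK

open Matrix Kern

universe u v w

section

variable {R : Type u} [Ring R] {Γ : Type v} [Group Γ] {V : Type w} [MulAction Γ V]

theorem a09_zero {S : Type*} {T : Type*} [Ring S] [Ring T] {φ : S →+* T} {p : Type*}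
    {W : (p → T) → (p → T)} (hW : IsOp φ W) : W 0 = 0 := by
  have h := hW.add 0 0
  rw [add_zero] at h
  exact left_eq_add.mp h

theorem a09_sum {S : Type*} {T : Type*} [Ring S] [Ring T] {φ : S →+* T} {p : Type*}
    {W : (p → T) → (p → T)} (hW : IsOp φ W) {ι : Type*} (s : Finset ι) (f : ι → p → T) :
    W (∑ i ∈ s, f i) = ∑ i ∈ s, W (f i) := by
  classical
  induction s using Finset.induction_on with
  | empty => rw [Finset.sum_empty, Finset.sum_empty, a09_zero hW]
  | insert a s ha ih => rw [Finset.sum_insert ha, hW.add, ih, Finset.sum_insert ha]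

/-- The vector with given coordinates as a combination of the vectors `es`. -/
theorem a09_th_eq {H' : Type*} [Group H'] (j : H' →* Γ) {k : ℕ} (t : Fin k → Γ) {p : Type*}
    [Fintype p] [DecidableEq p] (x : Fin k × p → MonoidAlgebra R H') :
    th j t x = ∑ y : Fin k × p, inc R j (x y) • (es (t y.1) y.2 1 : p → MonoidAlgebra R Γ) := by
  funext b
  rw [Finset.sum_apply, Fintype.sum_prod_type]
  unfold th
  refine Finset.sum_congr rfl fun i _ => ?_
  rw [Finset.sum_eq_single b]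
  · rw [Pi.smul_apply, es, Pi.single_eq_same, smul_eq_mul]
  · intro b' _ hb'
    rw [Pi.smul_apply, es, Pi.single_eq_of_ne hb'.symm, smul_zero]
  · intro h
    exact absurd (Finset.mem_univ _) h

/-- A transversal of finitely many cosets. -/
theorem a09_trans (H : Subgroup Γ) (B : Finset Γ) :
    Nonempty (Trans H.subtype {γ : Γ | ∃ h ∈ H, ∃ b ∈ B, γ = h * b}) := by
  refine exists_trans H.subtype H.subtype_injective B _ ?_ ?_
  · rintro h γ ⟨h', hh', b, hb, rfl⟩
    refine ⟨(h : Γ) * h', H.mul_mem h.2 hh', b, hb, ?_⟩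
    rw [mul_assoc]
    rfl
  · rintro z ⟨h, hh, b, hb, rfl⟩
    exact ⟨b, hb, ⟨h, hh⟩, rfl⟩

theorem a09_formula (H : Subgroup Γ) {p : Type*} [Fintype p] [DecidableEq p]
    {W : (p → MonoidAlgebra R Γ) → (p → MonoidAlgebra R Γ)} (hW : IsOp (inc R H.subtype) W)
    (B : Finset Γ) (hB : ∀ m : p → MonoidAlgebra R Γ,
      (∀ i γ, (∃ h ∈ H, ∃ b ∈ B, γ = h * b) → (m i).coeff γ = 0) → W m = 0)
    (E : Trans H.subtype {γ : Γ | ∃ h ∈ H, ∃ b ∈ B, γ = h * b}) (m : p → MonoidAlgebra R Γ) :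
    W m = ∑ y : Fin E.k × p, inc R H.subtype (ka E m y) • W (es (E.t y.1) y.2 1) := by
  have h3 : W m = W (th H.subtype E.t (ka E m)) := by
    conv_lhs => rw [← resV_add_compl {γ : Γ | ∃ h ∈ H, ∃ b ∈ B, γ = h * b} m]
    rw [hW.add]
    rw [hB (resV {γ : Γ | ∃ h ∈ H, ∃ b ∈ B, γ = h * b}ᶜ m) (fun i γ hγ =>
      coeff_res_of_notMem (show γ ∉ {γ : Γ | ∃ h ∈ H, ∃ b ∈ B, γ = h * b}ᶜ from
        fun h => h hγ) _), add_zero]
    rw [← ka_res E m, th_ka E (supV_resV _ m)]
  rw [h3, a09_th_eq, a09_sum hW]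
  exact Finset.sum_congr rfl fun y _ => hW.smul _ _

theorem a09_ext_es {p : Type*} [Fintype p] [DecidableEq p]
    {D D' : (p → MonoidAlgebra R Γ) → (p → MonoidAlgebra R Γ)}
    (hD : ∀ x y, D (x + y) = D x + D y) (hD' : ∀ x y, D' (x + y) = D' x + D' y)
    (h : ∀ γ i r, D (es γ i r) = D' (es γ i r)) (m : p → MonoidAlgebra R Γ) : D m = D' m := by
  have h0 : D 0 = 0 := by
    have h := hD 0 0
    rw [add_zero] at h
    exact left_eq_add.mp h
  have h0' : D' 0 = 0 := by
    have h := hD' 0 0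
    rw [add_zero] at h
    exact left_eq_add.mp h
  have hsup : SupV (Set.univ : Set Γ) m := fun _ _ hγ => absurd (Set.mem_univ _) hγ
  refine supV_induction (P := fun m => D m = D' m) ?_ ?_ ?_ hsup
  · rw [h0, h0']
  · intro a b ha hb
    rw [hD, hD', ha, hb]
  · intro j γ _ r
    exact h γ j r

theorem a09_resP_mem {p : Type*} [DecidableEq p] (v : p → V) {X : Set V} {γ : Γ} {i : p}
    (h : γ • v i ∈ X) (r : R) : resP v X (es γ i r) = es γ i r := by
  funext j
  unfold resP es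
  by_cases hj : j = i
  · subst hj
    rw [Pi.single_eq_same]
    exact res_eq_self (sup_single (show γ ∈ {γ : Γ | γ • v j ∈ X} from h) r)
  · rw [Pi.single_eq_of_ne hj, map_zero]

theorem a09_resP_notMem {p : Type*} [DecidableEq p] (v : p → V) {X : Set V} {γ : Γ} {i : p}
    (h : γ • v i ∉ X) (r : R) : resP v X (es γ i r) = 0 := by
  funext j
  unfold resP es
  by_cases hj : j = i
  · subst hj
    rw [Pi.single_eq_same]
    refine res_eq_zero (Z := {γ}) (sup_single (Set.mem_singleton γ) r) ?_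
    rintro _ rfl
    exact h
  · rw [Pi.single_eq_of_ne hj, map_zero, Pi.zero_apply]

theorem a09_coeff {p : Type*} {v : p → V} {X : Set V} {m : p → MonoidAlgebra R Γ}
    (hm : resP v X m = m) {i : p} {γ : Γ} (h : γ • v i ∉ X) : (m i).coeff γ = 0 := by
  rw [← hm]
  exact coeff_res_of_notMem (show γ ∉ {γ : Γ | γ • v i ∈ X} from h) _

open Classical in
/-- The coordinate functionals over `R[H']`. -/
noncomputable def a09_f {H' : Subgroup Γ} {Z : Set Γ} (E : Trans H'.subtype Z) {p : Type*}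
    (v : p → V) (X : Set V) (y : Fin E.k × p) (m : p → MonoidAlgebra R Γ) :
    MonoidAlgebra R H' :=
  if E.t y.1 • v y.2 ∈ X then ka E m y else 0

open Classical in
/-- The coordinate functionals over `R[H]`. -/
noncomputable def a09_g (H : Subgroup Γ) {H' : Subgroup Γ} {Z : Set Γ} (E : Trans H'.subtype Z)
    {p : Type*} (v : p → V) (X : Set V) (y : Fin E.k × p) (m : p → MonoidAlgebra R Γ) :
    MonoidAlgebra R H :=
  if E.t y.1 • v y.2 ∈ X then prC H (m y.2 * MonoidAlgebra.single (E.t y.1)⁻¹ 1) else 0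

theorem a09_f_fun {H' : Subgroup Γ} {Z : Set Γ} (E : Trans H'.subtype Z) {p : Type*}
    (v : p → V) (X : Set V) (y : Fin E.k × p) :
    IsFun (inc R H'.subtype) (a09_f (R := R) E v X y) := by
  by_cases h : E.t y.1 • v y.2 ∈ X
  · have h1 : ∀ m : p → MonoidAlgebra R Γ, a09_f E v X y m = ka E m y := fun m => if_pos h
    refine ⟨fun x z => ?_, fun s x => ?_⟩
    · rw [h1, h1, h1, ka_add, Pi.add_apply]
    · rw [h1, h1, ka_smul, Pi.smul_apply, smul_eq_mul]
  · have h1 : ∀ m : p → MonoidAlgebra R Γ, a09_f E v X y m = 0 := fun m => if_neg h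
    refine ⟨fun x z => ?_, fun s x => ?_⟩
    · rw [h1, h1, h1, add_zero]
    · rw [h1, h1, mul_zero]

theorem a09_g_fun (H : Subgroup Γ) {H' : Subgroup Γ} {Z : Set Γ} (E : Trans H'.subtype Z)
    {p : Type*} (v : p → V) (X : Set V) (y : Fin E.k × p) :
    IsFun (inc R H.subtype) (a09_g (R := R) H E v X y) := by
  by_cases h : E.t y.1 • v y.2 ∈ X
  · have h1 : ∀ m : p → MonoidAlgebra R Γ, a09_g H E v X y m =
        prC H (m y.2 * MonoidAlgebra.single (E.t y.1)⁻¹ 1) := fun m => if_pos h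
    refine ⟨fun x z => ?_, fun s x => ?_⟩
    · rw [h1, h1, h1, Pi.add_apply, add_mul, prC_add]
    · rw [h1, h1, Pi.smul_apply, smul_eq_mul, mul_assoc, prC_inc_mul]
  · have h1 : ∀ m : p → MonoidAlgebra R Γ, a09_g H E v X y m = 0 := fun m => if_neg h
    refine ⟨fun x z => ?_, fun s x => ?_⟩
    · rw [h1, h1, h1, add_zero]
    · rw [h1, h1, mul_zero]

theorem a09_g_eq {H' H : Subgroup Γ} (hH : H' ≤ H) {Z : Set Γ} (E : Trans H'.subtype Z)
    {p : Type*} (v : p → V) (X : Set V)
    (hd : ∀ h ∈ H, ∀ w ∈ X, h • w ∈ X → h ∈ H') (y : Fin E.k × p)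
    {m : p → MonoidAlgebra R Γ} (hm : resP v X m = m) :
    a09_g H E v X y m = inc R (Subgroup.inclusion hH) (a09_f E v X y m) := by
  by_cases h : E.t y.1 • v y.2 ∈ X
  · have h1 : a09_g H E v X y m =
        prC H (m y.2 * MonoidAlgebra.single (E.t y.1)⁻¹ 1) := if_pos h
    have h2 : a09_f E v X y m = ka E m y := if_pos h
    rw [h1, h2]
    ext g
    rw [coeff_prC, MonoidAlgebra.coeff_mul_single_apply, inv_inv, mul_one]
    by_cases hg : (g : Γ) ∈ H'
    · have h3 : g = Subgroup.inclusion hH ⟨(g : Γ), hg⟩ := rfl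
      have h4 : (inc R (Subgroup.inclusion hH) (ka E m y)).coeff g =
          (ka E m y).coeff ⟨(g : Γ), hg⟩ := by
        conv_lhs => rw [h3]
        exact coeff_inc _ (Subgroup.inclusion_injective hH) _ _
      rw [h4]
      rfl
    · have h3 : (g : Γ) • (E.t y.1 • v y.2) ∉ X := fun h3 => hg (hd g g.2 _ h h3)
      rw [← mul_smul] at h3
      rw [a09_coeff hm h3]
      symm
      refine sup_inc (Subgroup.inclusion hH) _ g ?_
      rintro ⟨g', rfl⟩
      exact hg g'.2
  · have h1 : a09_g H E v X y m = 0 := if_neg h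
    have h2 : a09_f E v X y m = 0 := if_neg h
    rw [h1, h2, map_zero]

/-- The presentation of `N'`. -/
theorem a09_N' {H' : Subgroup Γ} {p : Type*} [Fintype p] [DecidableEq p]
    (v : p → V) (X : Set V) {N' : (p → MonoidAlgebra R Γ) → (p → MonoidAlgebra R Γ)}
    (hN' : IsOp (inc R H'.subtype) N') (h1 : ∀ m, N' (resP v X m) = N' m)
    (B : Finset Γ) (hB : ∀ m : p → MonoidAlgebra R Γ,
      (∀ i γ, (∃ h ∈ H', ∃ b ∈ B, γ = h * b) → (m i).coeff γ = 0) → N' m = 0)
    (E : Trans H'.subtype {γ : Γ | ∃ h ∈ H', ∃ b ∈ B, γ = h * b}) (m : p → MonoidAlgebra R Γ) :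
    N' m = ∑ y : Fin E.k × p, inc R H'.subtype (a09_f E v X y m) • N' (es (E.t y.1) y.2 1) := by
  rw [a09_formula H' hN' B hB E m]
  refine Finset.sum_congr rfl fun y _ => ?_
  by_cases h : E.t y.1 • v y.2 ∈ X
  · have h2 : a09_f E v X y m = ka E m y := if_pos h
    rw [h2]
  · have h3 : N' (es (E.t y.1) y.2 1) = 0 := by
      rw [← h1, a09_resP_notMem v h, a09_zero hN']
    rw [h3, smul_zero, smul_zero]

/-- The presentation of `N`. -/
theorem a09_N {H' H : Subgroup Γ} (hH : H' ≤ H) {p : Type*} [Fintype p] [DecidableEq p]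
    (v : p → V) (X : Set V)
    (hd : ∀ h ∈ H, ∀ w ∈ X, h • w ∈ X → h ∈ H')
    {N' N : (p → MonoidAlgebra R Γ) → (p → MonoidAlgebra R Γ)}
    (hN' : IsOp (inc R H'.subtype) N') (hN : IsOp (inc R H.subtype) N)
    (h1 : ∀ m, N' (resP v X m) = N' m)
    (h3 : ∀ m, N (resP v X m) = N' m)
    (h4 : ∀ m, N (resP v {w | ∃ h ∈ H, h • w ∈ X} m) = N m)
    (B : Finset Γ) (hB : ∀ m : p → MonoidAlgebra R Γ,
      (∀ i γ, (∃ h ∈ H', ∃ b ∈ B, γ = h * b) → (m i).coeff γ = 0) → N' m = 0)
    (E : Trans H'.subtype {γ : Γ | ∃ h ∈ H', ∃ b ∈ B, γ = h * b}) (m : p → MonoidAlgebra R Γ) :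
    N m = ∑ y : Fin E.k × p, inc R H.subtype (a09_g H E v X y m) • N' (es (E.t y.1) y.2 1) := by
  have hadd : ∀ x z : p → MonoidAlgebra R Γ,
      ∑ y : Fin E.k × p, inc R H.subtype (a09_g H E v X y (x + z)) • N' (es (E.t y.1) y.2 1) =
      ∑ y : Fin E.k × p, inc R H.subtype (a09_g H E v X y x) • N' (es (E.t y.1) y.2 1) +
      ∑ y : Fin E.k × p, inc R H.subtype (a09_g H E v X y z) • N' (es (E.t y.1) y.2 1) := by
    intro x z
    rw [← Finset.sum_add_distrib]
    refine Finset.sum_congr rfl fun y _ => ?_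
    rw [(a09_g_fun H E v X y).add, map_add, add_smul]
  have hsmul : ∀ (s : MonoidAlgebra R H) (x : p → MonoidAlgebra R Γ),
      ∑ y : Fin E.k × p, inc R H.subtype (a09_g H E v X y (inc R H.subtype s • x)) •
        N' (es (E.t y.1) y.2 1) =
      inc R H.subtype s •
        ∑ y : Fin E.k × p, inc R H.subtype (a09_g H E v X y x) • N' (es (E.t y.1) y.2 1) := by
    intro s x
    rw [Finset.smul_sum]
    refine Finset.sum_congr rfl fun y _ => ?_
    rw [(a09_g_fun H E v X y).smul, map_mul, mul_smul]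
  refine a09_ext_es (D := N) (D' := fun m => ∑ y : Fin E.k × p,
    inc R H.subtype (a09_g H E v X y m) • N' (es (E.t y.1) y.2 1)) hN.add hadd ?_ m
  classical
  intro γ i r
  by_cases hc : ∃ h ∈ H, h • (γ • v i) ∈ X
  · obtain ⟨h, hh, hX⟩ := hc
    rw [← mul_smul] at hX
    have e1 : (es γ i r : p → MonoidAlgebra R Γ) =
        inc R H.subtype (MonoidAlgebra.single (⟨h⁻¹, H.inv_mem hh⟩ : H) r) • es (h * γ) i 1 := by
      have h5 : inc R H.subtype (MonoidAlgebra.single (⟨h⁻¹, H.inv_mem hh⟩ : H) r) =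
          MonoidAlgebra.single h⁻¹ r := by
        rw [inc, MonoidAlgebra.mapDomainRingHom_apply, MonoidAlgebra.mapDomain_single]
        rfl
      rw [h5]
      unfold es
      rw [← Pi.single_smul, smul_eq_mul, MonoidAlgebra.single_mul_single, inv_mul_cancel_left,
        mul_one]
    have e2 : resP v X (es (h * γ) i 1 : p → MonoidAlgebra R Γ) = es (h * γ) i 1 :=
      a09_resP_mem v hX 1
    have e3 : N (es (h * γ) i 1) = ∑ y : Fin E.k × p,
        inc R H.subtype (a09_g H E v X y (es (h * γ) i 1)) • N' (es (E.t y.1) y.2 1) := by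
      have e4 : N (es (h * γ) i 1) = N' (es (h * γ) i 1) := by
        rw [← h3, e2]
      rw [e4]
      conv_lhs => rw [a09_N' v X hN' h1 B hB E (es (h * γ) i 1)]
      refine Finset.sum_congr rfl fun y _ => ?_
      rw [a09_g_eq hH E v X hd y e2]
      congr 1
      generalize a09_f (R := R) E v X y (es (h * γ) i 1) = x
      change _ = ((inc R H.subtype).comp (inc R (Subgroup.inclusion hH))) x
      rw [inc, inc, inc, ← MonoidAlgebra.mapDomainRingHom_comp]
      rfl
    rw [e1, hN.smul, e3]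
    exact (hsmul _ _).symm
  · have e1 : N (es γ i r) = 0 := by
      rw [← h4, a09_resP_notMem v (X := {w | ∃ h ∈ H, h • w ∈ X}) hc, a09_zero hN]
    rw [e1]
    symm
    refine Finset.sum_eq_zero fun y _ => ?_
    have e2 : a09_g H E v X y (es γ i r) = 0 := by
      by_cases h : E.t y.1 • v y.2 ∈ X
      · have h5 : a09_g H E v X y (es γ i r) =
            prC H ((es γ i r : p → MonoidAlgebra R Γ) y.2 *
              MonoidAlgebra.single (E.t y.1)⁻¹ 1) := if_pos h
        rw [h5]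
        by_cases hi : y.2 = i
        · ext g
          rw [coeff_prC, es, hi, Pi.single_eq_same, MonoidAlgebra.single_mul_single,
            MonoidAlgebra.coeff_single, Finsupp.single_apply, if_neg]
          · rfl
          · intro hg
            apply hc
            refine ⟨(g : Γ)⁻¹, H.inv_mem g.2, ?_⟩
            have h6 : (g : Γ)⁻¹ * γ = E.t y.1 := by
              rw [← hg]
              group
            rw [← mul_smul, h6, ← hi]
            exact h
        · rw [es, Pi.single_eq_of_ne hi, zero_mul, prC_zero]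
      · exact if_neg h
    rw [e2, map_zero, zero_smul]


/-- Induction from the subgroup `H'` to `H`. -/
theorem FC.ind {H' H : Subgroup Γ} (hH : H' ≤ H) {p : Type*} [Fintype p] [DecidableEq p]
    (v : p → V) (X : Set V) (hX : ∀ h ∈ H', ∀ w ∈ X, h • w ∈ X)
    (hd : ∀ h ∈ H, ∀ w ∈ X, h • w ∈ X → h ∈ H')
    {N' N : (p → MonoidAlgebra R Γ) → (p → MonoidAlgebra R Γ)}
    (hN' : IsOp (inc R H'.subtype) N') (hN : IsOp (inc R H.subtype) N)
    (h1 : ∀ m, N' (resP v X m) = N' m) (h2 : ∀ m, resP v X (N' m) = N' m)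
    (h3 : ∀ m, N (resP v X m) = N' m)
    (h4 : ∀ m, N (resP v {w | ∃ h ∈ H, h • w ∈ X} m) = N m) (hft : FT H' N')
    {κ : KOne (MonoidAlgebra R H')} (h : FC (inc R H'.subtype) (fun m => m + N' m) κ) :
    FC (inc R H.subtype) (fun m => m + N m)
      (KOne.map (inc R (Subgroup.inclusion hH)) κ) := by
  classical
  obtain ⟨B, hB⟩ := hft
  obtain ⟨E⟩ := a09_trans H' B
  obtain ⟨D', hD1, hD2, -⟩ := h.inverse
  let e : Fin (Fintype.card (Fin E.k × p)) ≃ Fin E.k × p := (Fintype.equivFin _).symm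
  let b : Fin (Fintype.card (Fin E.k × p)) → p → MonoidAlgebra R Γ :=
    fun s => N' (es (E.t (e s).1) (e s).2 1)
  let a : Fin (Fintype.card (Fin E.k × p)) → (p → MonoidAlgebra R Γ) → MonoidAlgebra R H' :=
    fun s => a09_f E v X (e s)
  let c : Fin (Fintype.card (Fin E.k × p)) → (p → MonoidAlgebra R Γ) → MonoidAlgebra R H :=
    fun s => a09_g H E v X (e s)
  have ha : ∀ s, IsFun (inc R H'.subtype) (a s) := fun s => a09_f_fun E v X (e s)
  have hc : ∀ s, IsFun (inc R H.subtype) (c s) := fun s => a09_g_fun H E v X (e s)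
  have hDa : ∀ m, (fun m => m + N' m) m = m + ∑ s, inc R H'.subtype (a s m) • b s := by
    intro m
    change m + N' m = _
    rw [a09_N' v X hN' h1 B hB E m]
    congr 1
    exact (Equiv.sum_comp e fun y : Fin E.k × p => inc R H'.subtype (a09_f E v X y m) •
      N' (es (E.t y.1) y.2 1)).symm
  have hDc : ∀ m, (fun m => m + N m) m = m + ∑ s, inc R H.subtype (c s m) • b s := by
    intro m
    change m + N m = _
    rw [a09_N hH v X hd hN' hN h1 h3 h4 B hB E m]
    congr 1
    exact (Equiv.sum_comp e fun y : Fin E.k × p => inc R H.subtype (a09_g H E v X y m) •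
      N' (es (E.t y.1) y.2 1)).symm
  have hUa := isUnit_of_inverse ha hDa hD1 hD2
  have hka := FC.unique (lfr_inc H' p) ⟨_, a, b, ha, hDa, hUa, rfl⟩ h
  have hM : (Matrix.of fun i j => c j (b i) : Matrix (Fin (Fintype.card (Fin E.k × p)))
      (Fin (Fintype.card (Fin E.k × p))) (MonoidAlgebra R H)) =
      (Matrix.of fun i j => a j (b i) : Matrix (Fin (Fintype.card (Fin E.k × p)))
      (Fin (Fintype.card (Fin E.k × p))) (MonoidAlgebra R H')).map
        (inc R (Subgroup.inclusion hH)) := by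
    refine Matrix.ext fun i j => ?_
    exact a09_g_eq hH E v X hd (e j) (h2 _)
  obtain ⟨U, hU⟩ := hUa
  have hU2 : ((mU (inc R (Subgroup.inclusion hH)) U : (Matrix (Fin (Fintype.card (Fin E.k × p)))
      (Fin (Fintype.card (Fin E.k × p))) (MonoidAlgebra R H))ˣ) :
      Matrix (Fin (Fintype.card (Fin E.k × p)))
      (Fin (Fintype.card (Fin E.k × p))) (MonoidAlgebra R H)) =
      1 + (Matrix.of fun i j => c j (b i)) := by
    rw [coe_mU, hU, hM, Matrix.map_add _ (map_add _), Matrix.map_one _ (map_zero _) (map_one _)]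
  refine ⟨_, c, b, hc, hDc, ⟨_, hU2⟩, ?_⟩
  rw [kk_eq _ hU2, ← KOne.map_k1, ← hka, kk_eq _ hU]

end

end Pool.Agent.Lib.MP_c052b4_al.LK
end

section

set_option autoImplicit false
set_option linter.unusedSectionVars false

namespace Pool.Agent.Lib.MP_c052b4_al.LK

open Matrix Kern

universe u v w

section

variable {R : Type u} [Ring R] {Γ : Type v} [Group Γ] {V : Type w} [MulAction Γ V]
  {p : Type*} [Fintype p] [DecidableEq p] {K : CutSys Γ V} (L : LData R K p)

private noncomputable abbrev c11_lm (γ : Γ) (m : p → MonoidAlgebra R Γ) : p → MonoidAlgebra R Γ :=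
  MonoidAlgebra.single γ (1 : R) • m

private theorem c11_lm_lm (γ γ' : Γ) (h : γ * γ' = 1) (m : p → MonoidAlgebra R Γ) :
    c11_lm γ (c11_lm γ' m) = m := by
  simp only [c11_lm]
  rw [← mul_smul, MonoidAlgebra.single_mul_single, h, mul_one, ← MonoidAlgebra.one_def, one_smul]

private theorem c11_lm_add (γ : Γ) (x y : p → MonoidAlgebra R Γ) :
    c11_lm γ (x + y) = c11_lm γ x + c11_lm γ y := smul_add _ _ _

private theorem c11_lm_es (γ γ' : Γ) (i : p) (r : R) :
    c11_lm γ (es γ' i r) = es (γ * γ') i r := by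
  simp only [c11_lm, es]
  rw [← Pi.single_smul, smul_eq_mul, MonoidAlgebra.single_mul_single, one_mul]

private theorem c11_resP (v : p → V) {X X' : Set V} (γ : Γ) (h : ∀ w, γ • w ∈ X' ↔ w ∈ X)
    (m : p → MonoidAlgebra R Γ) : resP v X' (c11_lm γ m) = c11_lm γ (resP v X m) := by
  funext j
  have h1 := res_single_mul (R := R) {γ' : Γ | γ' • v j ∈ X} γ 1 (m j)
  have h2 : {γ' : Γ | γ⁻¹ * γ' ∈ {γ' : Γ | γ' • v j ∈ X}} = {γ' : Γ | γ' • v j ∈ X'} := by
    ext γ'
    simp only [Set.mem_ofPred_eq]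
    rw [← h ((γ⁻¹ * γ') • v j), ← mul_smul, mul_inv_cancel_left]
  rw [h2] at h1
  exact h1

private theorem c11_trc {C C' : Type*} (col : V → C) (col' : V → C') (v : p → V) (γ : Γ)
    (h : ∀ w w', col' (γ • w) = col' (γ • w') ↔ col w = col w')
    (N : Matrix p p (MonoidAlgebra R Γ)) (m : p → MonoidAlgebra R Γ) :
    trc col' v N (c11_lm γ m) = c11_lm γ (trc col v N m) := by
  refine ext_es (D := fun m => trc col' v N (c11_lm γ m)) (D' := fun m => c11_lm γ (trc col v N m))
    ?_ ?_ ?_ m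
  · intro x y
    rw [c11_lm_add, trc_add]
  · intro x y
    rw [trc_add, c11_lm_add]
  · intro γ' i r
    rw [c11_lm_es, trc_es, trc_es, ← c11_lm_es, Matrix.smul_vecMul]
    refine c11_resP v γ ?_ _
    intro w
    simp only [Set.mem_ofPred_eq]
    rw [mul_smul]
    exact h w _

private theorem c11_trl {C C' : Type*} (col : V → C) (col' : V → C') (v : p → V) (γ : Γ)
    (h : ∀ w w', col' (γ • w) = col' (γ • w') ↔ col w = col w')
    (l : List (Matrix p p (MonoidAlgebra R Γ))) : ∀ m : p → MonoidAlgebra R Γ,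
    trl col' v l (c11_lm γ m) = c11_lm γ (trl col v l m) := by
  induction l with
  | nil => intro m; rfl
  | cons E l ih =>
    intro m
    change trl col' v l (trc col' v E (c11_lm γ m)) = c11_lm γ (trl col v l (trc col v E m))
    rw [c11_trc col col' v γ h, ih]

private theorem c11_D {C C' : Type*} (col : V → C) (col' : V → C') (γ : Γ)
    (h : ∀ w w', col' (γ • w) = col' (γ • w') ↔ col w = col w') (m : p → MonoidAlgebra R Γ) :
    L.D col' (c11_lm γ m) = c11_lm γ (L.D col m) := by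
  change trl col' L.v L.l (c11_lm γ m ᵥ* L.W) = c11_lm γ (trl col L.v L.l (m ᵥ* L.W))
  rw [Matrix.smul_vecMul]
  exact c11_trl col col' L.v γ h L.l _

variable (R) in
private theorem c11_comm (γ : Γ) (y z : V)
    (s : MonoidAlgebra R ↥(MulAction.stabilizer Γ y ⊓ MulAction.stabilizer Γ z)) :
    MonoidAlgebra.single γ (1 : R) *
      inc R (MulAction.stabilizer Γ y ⊓ MulAction.stabilizer Γ z).subtype s =
    inc R (MulAction.stabilizer Γ (γ • y) ⊓ MulAction.stabilizer Γ (γ • z)).subtype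
      (inc R (conjPair Γ γ y z) s) * MonoidAlgebra.single γ (1 : R) := by
  induction s using MonoidAlgebra.induction_linear with
  | zero => simp
  | add a b ha hb => rw [map_add, map_add, map_add, mul_add, add_mul, ha, hb]
  | single h r =>
    rw [MonoidAlgebra.mapDomainRingHom_apply, MonoidAlgebra.mapDomainRingHom_apply,
      MonoidAlgebra.mapDomainRingHom_apply, MonoidAlgebra.mapDomain_single,
      MonoidAlgebra.mapDomain_single, MonoidAlgebra.mapDomain_single,
      MonoidAlgebra.single_mul_single, MonoidAlgebra.single_mul_single]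
    congr 1
    · change γ * (h : Γ) = γ * (h : Γ) * γ⁻¹ * γ
      rw [inv_mul_cancel_right]
    · rw [one_mul, mul_one]

private theorem c11_bij (γ : Γ) (y z : V) : Function.Bijective (inc R (conjPair Γ γ y z)) := by
  have hb : Function.Bijective (conjPair Γ γ y z) := by
    constructor
    · intro a b hab
      have h1 : γ * (a : Γ) * γ⁻¹ = γ * (b : Γ) * γ⁻¹ := congrArg Subtype.val hab
      exact Subtype.ext (mul_left_cancel (mul_right_cancel h1))
    · intro b
      have h1 : (b : Γ) • (γ • y) = γ • y :=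
        MulAction.mem_stabilizer_iff.1 (Subgroup.mem_inf.1 b.2).1
      have h2 : (b : Γ) • (γ • z) = γ • z :=
        MulAction.mem_stabilizer_iff.1 (Subgroup.mem_inf.1 b.2).2
      refine ⟨⟨γ⁻¹ * b * γ, Subgroup.mem_inf.2 ⟨?_, ?_⟩⟩, ?_⟩
      · rw [MulAction.mem_stabilizer_iff, mul_smul, mul_smul, h1, inv_smul_smul]
      · rw [MulAction.mem_stabilizer_iff, mul_smul, mul_smul, h2, inv_smul_smul]
      · refine Subtype.ext ?_
        change γ * (γ⁻¹ * b * γ) * γ⁻¹ = b
        group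
  refine ⟨fun a b hab => ?_, fun b => ?_⟩
  · ext h
    rw [← coeff_inc (R := R) (conjPair Γ γ y z) hb.1 a h, hab, coeff_inc (R := R) _ hb.1]
  · induction b using MonoidAlgebra.induction_linear with
    | zero => exact ⟨0, map_zero _⟩
    | add a b ha hb' =>
      obtain ⟨a', rfl⟩ := ha
      obtain ⟨b', rfl⟩ := hb'
      exact ⟨a' + b', map_add _ _ _⟩
    | single h r =>
      obtain ⟨h', rfl⟩ := hb.2 h
      refine ⟨MonoidAlgebra.single h' r, ?_⟩
      rw [MonoidAlgebra.mapDomainRingHom_apply, MonoidAlgebra.mapDomain_single]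

/-- Equivariance. -/
theorem LData.tau_smul (γ : Γ) {y z : V}
    {κ : KOne (MonoidAlgebra R ↥(MulAction.stabilizer Γ y ⊓ MulAction.stabilizer Γ z))}
    (h : L.Tau (MulAction.stabilizer Γ y ⊓ MulAction.stabilizer Γ z) (K.colE y z)
      (K.sideE y z) κ) :
    L.Tau (MulAction.stabilizer Γ (γ • y) ⊓ MulAction.stabilizer Γ (γ • z))
      (K.colE (γ • y) (γ • z)) (K.sideE (γ • y) (γ • z))
      (KOne.map (inc R (conjPair Γ γ y z)) κ) := by
  let ψ : MonoidAlgebra R ↥(MulAction.stabilizer Γ y ⊓ MulAction.stabilizer Γ z) ≃+*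
      MonoidAlgebra R ↥(MulAction.stabilizer Γ (γ • y) ⊓ MulAction.stabilizer Γ (γ • z)) :=
    RingEquiv.ofBijective (inc R (conjPair Γ γ y z)) (c11_bij γ y z)
  have hψ : (ψ : MonoidAlgebra R ↥(MulAction.stabilizer Γ y ⊓ MulAction.stabilizer Γ z) →+*
      MonoidAlgebra R ↥(MulAction.stabilizer Γ (γ • y) ⊓ MulAction.stabilizer Γ (γ • z))) =
      inc R (conjPair Γ γ y z) := RingHom.ext fun _ => rfl
  have hc : ∀ w : V, K.colE (γ • y) (γ • z) (γ • w) = K.colE y z w := by
    intro w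
    refine propext ?_
    change K.c (γ • y) (γ • w) = γ • z ↔ K.c y w = z
    rw [K.equiv]
    exact ⟨fun h => MulAction.injective γ h, fun h => congrArg _ h⟩
  have h1 := FC.transport ψ
    (inc R (MulAction.stabilizer Γ (γ • y) ⊓ MulAction.stabilizer Γ (γ • z)).subtype)
    (c11_lm γ) (c11_lm γ⁻¹) (c11_lm_lm γ γ⁻¹ (mul_inv_cancel γ))
    (c11_lm_lm γ⁻¹ γ (inv_mul_cancel γ)) (c11_lm_add γ) (by
      intro s x
      change MonoidAlgebra.single γ (1 : R) • (_ • x) = _ • (MonoidAlgebra.single γ (1 : R) • x)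
      rw [← mul_smul, ← mul_smul]
      congr 1
      exact c11_comm R γ y z s) h
  rw [hψ] at h1
  have h2 : (fun m => c11_lm γ (RS (L.D (K.colE y z)) (resP L.v (K.sideE y z)) (c11_lm γ⁻¹ m))) =
      RS (L.D (K.colE (γ • y) (γ • z))) (resP L.v (K.sideE (γ • y) (γ • z))) := by
    funext m
    have h3 : resP L.v (K.sideE (γ • y) (γ • z)) m =
        c11_lm γ (resP L.v (K.sideE y z) (c11_lm γ⁻¹ m)) := by
      conv_lhs => rw [← c11_lm_lm γ γ⁻¹ (mul_inv_cancel γ) m]
      refine c11_resP L.v γ ?_ _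
      intro w
      exact iff_of_eq (hc w)
    change c11_lm γ (L.D (K.colE y z) (resP L.v (K.sideE y z) (c11_lm γ⁻¹ m)) +
      (c11_lm γ⁻¹ m - resP L.v (K.sideE y z) (c11_lm γ⁻¹ m))) =
      L.D (K.colE (γ • y) (γ • z)) (resP L.v (K.sideE (γ • y) (γ • z)) m) +
        (m - resP L.v (K.sideE (γ • y) (γ • z)) m)
    rw [h3, c11_D L (K.colE y z) (K.colE (γ • y) (γ • z)) γ (fun w w' => by rw [hc, hc]),
      c11_lm_add]
    congr 1
    change MonoidAlgebra.single γ (1 : R) • (_ - _) = _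
    rw [smul_sub]
    congr 1
    exact c11_lm_lm γ γ⁻¹ (mul_inv_cancel γ) m
  unfold LData.Tau
  rw [← h2]
  exact h1

end

end Pool.Agent.Lib.MP_c052b4_al.LK
end

section

set_option autoImplicit false
set_option linter.unusedSectionVars false

namespace Pool.Agent.Lib.MP_c052b4_al.LK

open Matrix Kern

universe u v w

section

section Aux

variable {S : Type u} [Ring S] {m n l : Type*} [Fintype m] [Fintype n] [Fintype l]
  [DecidableEq m] [DecidableEq n] [DecidableEq l]

private theorem e02_bl_rU (σ : m ≃ n) (A : (Matrix m m S)ˣ) :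
    bl (rU σ A) (1 : (Matrix l l S)ˣ) = rU (Equiv.sumCongr σ (Equiv.refl l)) (bl A 1) := by
  apply Units.ext
  rw [coe_rU, coe_bl, coe_bl, coe_rU]
  ext i j
  rcases i with i | i <;> rcases j with j | j <;> simp [Matrix.one_apply]

private theorem e02_assoc (A : (Matrix n n S)ˣ) :
    bl (bl A (1 : (Matrix m m S)ˣ)) (1 : (Matrix l l S)ˣ) =
      rU (Equiv.sumAssoc n m l).symm (bl A (1 : (Matrix (m ⊕ l) (m ⊕ l) S)ˣ)) := by
  apply Units.ext
  rw [coe_rU, coe_bl, coe_bl, coe_bl]
  ext i j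
  rcases i with (i | i) | i <;> rcases j with (j | j) | j <;> simp [Matrix.one_apply]

private theorem e02_re (τ : m ≃ l) (A : (Matrix n n S)ˣ) :
    bl A (1 : (Matrix l l S)ˣ) = rU (Equiv.sumCongr (Equiv.refl n) τ) (bl A 1) := by
  apply Units.ext
  rw [coe_rU, coe_bl, coe_bl]
  ext i j
  rcases i with i | i <;> rcases j with j | j <;> simp [Matrix.one_apply]

private theorem e02_stab {r : ℕ} (σ : n ⊕ Fin r ≃ m) (A : (Matrix n n S)ˣ) (s : ℕ) :
    ∃ (q : ℕ) (τ : n ⊕ Fin q ≃ m ⊕ Fin s),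
      bl (rU σ (bl A (1 : (Matrix (Fin r) (Fin r) S)ˣ))) (1 : (Matrix (Fin s) (Fin s) S)ˣ) =
        rU τ (bl A 1) := by
  refine ⟨r + s, ((Equiv.sumCongr (Equiv.refl n) (finSumFinEquiv (m := r) (n := s)).symm).trans
    (Equiv.sumAssoc n (Fin r) (Fin s)).symm).trans (Equiv.sumCongr σ (Equiv.refl _)), ?_⟩
  rw [e02_bl_rU, e02_assoc, e02_re (finSumFinEquiv (m := r) (n := s)).symm A, rU_rU, rU_rU]
  rfl

private theorem e02_tr {c k : ℕ} (h : c ≤ k) (A : (Matrix (Fin c) (Fin c) S)ˣ) :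
    ∃ (q : ℕ) (τ : Fin c ⊕ Fin q ≃ Fin k), Omega.tr (stabHom S) c k h A = rU τ (bl A 1) := by
  induction k, h using Nat.le_induction with
  | base =>
    refine ⟨0, Equiv.sumEmpty (Fin c) (Fin 0), ?_⟩
    rw [Omega.tr_self]
    apply Units.ext
    rw [coe_rU, coe_bl]
    ext i j
    simp
  | succ k hk ih =>
    obtain ⟨q, τ, h⟩ := ih
    rw [Omega.tr_succ _ _ k hk, MonoidHom.comp_apply, h]
    obtain ⟨q', τ', h'⟩ := e02_stab τ A 1
    refine ⟨q', τ'.trans finSumFinEquiv, ?_⟩
    rw [← rU_rU, ← h']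
    rfl

end Aux

/-- A matrix whose class in `K₁` vanishes is stably a product of block unitriangular matrices. -/
theorem exists_el2 {T : Type u} [Ring T] {n : Type} [Fintype n] [DecidableEq n]
    (A : (Matrix n n T)ˣ) (h : k1 A = 0) :
    ∃ (q k : ℕ) (σ : n ⊕ Fin q ≃ Fin k ⊕ Fin k),
      rU σ (bl A (1 : (Matrix (Fin q) (Fin q) T)ˣ)) ∈ El (Fin k) T := by
  unfold k1 at h
  obtain ⟨k0, hk0⟩ := Omega.exists_commutator _ (commutator_of_kf h)
  obtain ⟨y, hy, hyA⟩ := hk0 (max k0 (Fintype.card n)) (le_max_left _ _)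
  have hle : Fintype.card n ≤ max k0 (Fintype.card n) := le_max_right _ _
  generalize max k0 (Fintype.card n) = k at y hy hyA hle
  have h2 : Omega.toLim (stabHom T) k y = Omega.toLim (stabHom T) k
      (Omega.tr (stabHom T) _ k hle (rU (Fintype.equivFin n) A)) := by
    rw [hyA, Omega.toLim_tr]
  have h3 := Omega.toLim_injective (f := stabHom T) stabHom_injective k h2
  obtain ⟨q, τ, h4⟩ := e02_tr hle (rU (Fintype.equivFin n) A)
  rw [e02_bl_rU, rU_rU] at h4
  obtain ⟨q', τ', h5⟩ := e02_stab ((Equiv.sumCongr (Fintype.equivFin n) (Equiv.refl (Fin q))).trans τ)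
    A k
  refine ⟨q', k, τ', ?_⟩
  rw [← h5, ← h4, ← h3]
  exact whitehead hy

/-- A finite family of classes is represented by matrices of the same size. -/
theorem exists_common_size {n : ℕ} {S : Fin n → Type u} [∀ i, Ring (S i)]
    (x : ∀ i, KOne (S i)) :
    ∃ (k : ℕ) (A : ∀ i, (Matrix (Fin k) (Fin k) (S i))ˣ), ∀ i, k1 (A i) = x i := by
  choose k A hA using fun i => exists_kf (x i)
  have hle : ∀ i, k i ≤ Finset.univ.sup k := fun i => Finset.le_sup (Finset.mem_univ i)
  refine ⟨Finset.univ.sup k, fun i => Omega.tr (stabHom (S i)) _ _ (hle i) (A i), fun i => ?_⟩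
  rw [k1_fin, kf_tr, hA]

/-- Unipotent matrices in a product representing an element of `El`. -/
theorem exists_list_oneS {T : Type u} [Ring T] {k : ℕ}
    {U : (Matrix (Fin k ⊕ Fin k) (Fin k ⊕ Fin k) T)ˣ} (hU : U ∈ El (Fin k) T) :
    ∃ l : List (Matrix (Fin k ⊕ Fin k) (Fin k ⊕ Fin k) T),
      (∀ E ∈ l, ∃ α : Fin k ⊕ Fin k → Prop, OneS α (E - 1)) ∧ l.prod = U := by
  obtain ⟨l, hl, hl'⟩ := exists_list_of_el hU
  refine ⟨l, fun E hE => ?_, hl'⟩
  rcases hl E hE with ⟨X, rfl⟩ | ⟨X, rfl⟩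
  · refine ⟨fun i => i.isLeft = true, fun i j hij => ?_⟩
    rcases i with i | i <;> rcases j with j | j <;> simp_all [Matrix.one_apply]
  · refine ⟨fun i => i.isRight = true, fun i j hij => ?_⟩
    rcases i with i | i <;> rcases j with j | j <;> simp_all [Matrix.one_apply]

end

end Pool.Agent.Lib.MP_c052b4_al.LK
end
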