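import Pool.Agent.Lib.MP_c052b4_al.Mg.G088
import Pool.Agent.Lib.MP_c052b4_al.Mg.G087
import Pool.Agent.Lib.MP_c052b4_al.Mg.G086
import Pool.Agent.Lib.MP_c052b4_al.Mg.G083
import Pool.Agent.Lib.MP_c052b4_al.Mg.G084
import Pool.Agent.Lib.MP_c052b4_al.Mg.G085

section

set_option autoImplicit false
set_option linter.unusedSectionVars false

namespace Pool.Agent.Lib.MP_c052b4_al.LK

open Matrix Kern

universe u v w

section

variable {R : Type u} [Ring R] {Γ : Type v} [Group Γ] {V : Type w} [MulAction Γ V]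
  {p : Type*} [Fintype p] [DecidableEq p] {K : CutSys Γ V} (L : LData R K p)

private theorem c07_c_smul (K : CutSys Γ V) {y : V} {h : Γ} (hh : h ∈ MulAction.stabilizer Γ y)
    (w : V) : K.c y (h • w) = h • K.c y w := by
  have h1 := K.equiv h y w
  rwa [MulAction.mem_stabilizer_iff.1 hh] at h1

private theorem c07_isOp {C : Type*} {H : Subgroup Γ} {col : V → C} (hp : Pres H col)
    (hf : FinCut H col) {X : Set V} (hX : ∀ h ∈ H, ∀ w ∈ X, h • w ∈ X) :
    IsOp (inc R H.subtype) (fun m : p → MonoidAlgebra R Γ =>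
      L.D col (resP L.v X m) - resP L.v X m) := by
  have h1 : IsOp (inc R H.subtype) (fun m : p → MonoidAlgebra R Γ => trl col L.v L.l (m ᵥ* L.W)) :=
    (fc_trl hp hf L.v L.l L.os L.W L.lW L.Wl).1.isOp
  have h2 : IsOp (inc R H.subtype)
      (resP L.v X : (p → MonoidAlgebra R Γ) → (p → MonoidAlgebra R Γ)) := isOp_resP L.v hX
  have h3 : ∀ m, L.D col m = trl col L.v L.l (m ᵥ* L.W) := fun m => rfl
  constructor
  · intro x y
    have h4 := h1.add (resP L.v X x) (resP L.v X y)
    simp only [← h3] at h4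
    show L.D col (resP L.v X (x + y)) - resP L.v X (x + y) =
      (L.D col (resP L.v X x) - resP L.v X x) + (L.D col (resP L.v X y) - resP L.v X y)
    rw [h2.add, h4]
    abel
  · intro s x
    have h4 := h1.smul s (resP L.v X x)
    simp only [← h3] at h4
    show L.D col (resP L.v X (inc R H.subtype s • x)) - resP L.v X (inc R H.subtype s • x) =
      inc R H.subtype s • (L.D col (resP L.v X x) - resP L.v X x)
    rw [h2.smul, h4, smul_sub]

private theorem c07_ft {C : Type*} {H : Subgroup Γ} {col : V → C} (hp : Pres H col)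
    (hf : FinCut H col) (X : Set V) :
    FT H (fun m : p → MonoidAlgebra R Γ => L.D col (resP L.v X m) - resP L.v X m) := by
  have h1 := (fc_trl hp hf L.v L.l L.os L.W L.lW L.Wl).2
  exact h1.resP L.v X

private theorem c07_sideE (K : CutSys Γ V) (y z : V) :
    K.sideE y z = (K.colE y z) ⁻¹' {True} := by
  ext w
  simp [CutSys.sideE, CutSys.colE]

private theorem c07_sideE' (K : CutSys Γ V) (y z : V) :
    K.sideE y z = {w | K.colE y z w = True} := by
  ext w
  simp [CutSys.sideE, CutSys.colE]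

/-- From an edge to the vertex. -/
theorem LData.tau_ind {y z : V} (hyz : K.Adj y z)
    {κ : KOne (MonoidAlgebra R ↥(MulAction.stabilizer Γ y ⊓ MulAction.stabilizer Γ z))}
    (h : L.Tau (MulAction.stabilizer Γ y ⊓ MulAction.stabilizer Γ z) (K.colE y z)
      (K.sideE y z) κ) :
    L.Tau (MulAction.stabilizer Γ y) (K.c y) (K.sideO y z)
      (KOne.map (inc R (Subgroup.inclusion inf_le_left)) κ) := by
  have hp' := K.pres_colE y z
  have hf' := K.finCut_colE hyz
  have hp := K.pres_c y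
  have hf := K.finCut_c y
  have hX : ∀ h ∈ MulAction.stabilizer Γ y ⊓ MulAction.stabilizer Γ z, ∀ w ∈ K.sideE y z,
      h • w ∈ K.sideE y z := by
    intro h hh w hw
    have h1 := (Subgroup.mem_inf.1 hh).1
    have h2 := MulAction.mem_stabilizer_iff.1 (Subgroup.mem_inf.1 hh).2
    show K.c y (h • w) = z
    have h3 : K.c y w = z := hw
    rw [c07_c_smul K h1, h3, h2]
  have hO : ∀ h ∈ MulAction.stabilizer Γ y, ∀ w ∈ K.sideO y z, h • w ∈ K.sideO y z := by
    rintro h hh w ⟨h', hh', hw⟩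
    exact ⟨h * h', mul_mem hh hh', by rw [c07_c_smul K hh, hw, mul_smul]⟩
  have hXO : K.sideO y z ∩ K.sideE y z = K.sideE y z := by
    refine Set.inter_eq_right.2 ?_
    intro w hw
    exact ⟨1, one_mem _, by rw [one_smul]; exact hw⟩
  have hOX : K.sideO y z ∩ {w | ∃ h ∈ MulAction.stabilizer Γ y, h • w ∈ K.sideE y z} =
      K.sideO y z := by
    refine Set.inter_eq_left.2 ?_
    rintro w ⟨h, hh, hw⟩
    refine ⟨h⁻¹, inv_mem hh, ?_⟩
    show K.c y (h⁻¹ • w) = z
    rw [c07_c_smul K (inv_mem hh), hw, inv_smul_smul]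
  have hmain := FC.ind (R := R) (H' := MulAction.stabilizer Γ y ⊓ MulAction.stabilizer Γ z)
    (H := MulAction.stabilizer Γ y) inf_le_left L.v (K.sideE y z) hX
    (fun h hh w hw hhw => K.mem_of_sideE hh hw hhw)
    (N' := fun m => L.D (K.colE y z) (resP L.v (K.sideE y z) m) - resP L.v (K.sideE y z) m)
    (N := fun m => L.D (K.c y) (resP L.v (K.sideO y z) m) - resP L.v (K.sideO y z) m)
    (c07_isOp L hp' hf' hX) (c07_isOp L hp hf hO)
    (fun m => by
      simp only [resP_resP, Set.inter_self])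
    (fun m => by
      rw [resP_sub, resP_resP, Set.inter_self]
      congr 1
      have h1 := L.D_resP (K.colE y z) {True} (resP L.v (K.sideE y z) m)
      rw [← c07_sideE K y z, resP_resP, Set.inter_self] at h1
      exact h1)
    (fun m => by
      simp only [resP_resP, hXO]
      congr 1
      have h1 := L.D_class (col := K.colE y z) (col' := K.c y) (c := True) (c' := z)
        (fun w => by
          simp only [CutSys.colE, eq_iff_iff, iff_true]) m
      rw [← c07_sideE' K y z] at h1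
      exact h1.symm)
    (fun m => by
      simp only [resP_resP, hOX])
    (c07_ft L hp' hf' (K.sideE y z)) (κ := κ)
    (by
      have h1 : (fun m : p → MonoidAlgebra R Γ => m +
          (L.D (K.colE y z) (resP L.v (K.sideE y z) m) - resP L.v (K.sideE y z) m)) =
          RS (L.D (K.colE y z)) (resP L.v (K.sideE y z)) := by
        funext m
        unfold RS
        abel
      rw [h1]
      exact h)
  have h2 : (fun m : p → MonoidAlgebra R Γ => m +
      (L.D (K.c y) (resP L.v (K.sideO y z) m) - resP L.v (K.sideO y z) m)) =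
      RS (L.D (K.c y)) (resP L.v (K.sideO y z)) := by
    funext m
    unfold RS
    abel
  rw [h2] at hmain
  exact hmain

end

end Pool.Agent.Lib.MP_c052b4_al.LK
end

section

set_option autoImplicit false
set_option linter.unusedSectionVars false

namespace Pool.Agent.Lib.MP_c052b4_al.LK

open Matrix Kern

universe u v w

section

private theorem c08_isOp_comp {S : Type u} {T : Type v} [Ring S] [Ring T] {φ : S →+* T} {p : Type*}
    {D D' : (p → T) → (p → T)} (h : IsOp φ D) (h' : IsOp φ D') : IsOp φ (fun m => D (D' m)) :=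
  ⟨fun x y => by rw [h'.add, h.add], fun s x => by rw [h'.smul, h.smul]⟩

end

section

variable {R : Type u} [Ring R] {Γ : Type v} [Group Γ] {V : Type w} [MulAction Γ V]
  {p : Type*} [Fintype p] [DecidableEq p] {K : CutSys Γ V} (L : LData R K p)

omit [Fintype p] [DecidableEq p] in
private theorem c08_idem (v : p → V) (X : Set V) (m : p → MonoidAlgebra R Γ) :
    resP v X (resP v X m) = resP v X m := by
  rw [resP_resP, Set.inter_self]

private theorem c08_set (K : CutSys Γ V) (y : V) : ({y} : Set V) = {w | K.c y w = y} := by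
  ext w
  rw [Set.mem_singleton_iff, Set.mem_ofPred_eq, K.c_eq_self_iff]

/-- One factor. -/
private theorem c08_step (K : CutSys Γ V) (v : p → V) (y : V) (E : Matrix p p (MonoidAlgebra R Γ))
    (hE : ∃ α : p → Prop, OneS α (E - 1)) :
    FC (inc R (MulAction.stabilizer Γ y).subtype)
      (RS (trc (K.c y) v E) (resP v {y}) : (p → MonoidAlgebra R Γ) → (p → MonoidAlgebra R Γ)) 0 := by
  obtain ⟨α, hα⟩ := hE
  obtain ⟨N, hN⟩ : ∃ N, N = E - 1 := ⟨_, rfl⟩
  have hE' : E = 1 + N := by
    rw [hN]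
    abel
  rw [← hN] at hα
  have e : (RS (trc (K.c y) v E) (resP v {y}) :
      (p → MonoidAlgebra R Γ) → (p → MonoidAlgebra R Γ)) =
      fun m => m + resP v {y} (resP v {y} m ᵥ* N) := by
    funext m
    change trc (K.c y) v E (resP v {y} m) + (m - resP v {y} m) = _
    have h1 : trc (K.c y) v N (resP v {y} m) = resP v {y} (resP v {y} m ᵥ* N) := by
      rw [c08_set K y]
      exact trc_resP_class (K.c y) v y N m
    rw [hE', trc_one_add, h1]
    abel
  rw [e]
  have hop : IsOp (inc R (MulAction.stabilizer Γ y).subtype)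
      (resP v {y} : (p → MonoidAlgebra R Γ) → (p → MonoidAlgebra R Γ)) := by
    refine isOp_resP v fun h hh w hw => ?_
    rw [Set.mem_singleton_iff] at hw ⊢
    rw [hw]
    exact MulAction.mem_stabilizer_iff.1 hh
  have h0 : resP v {y} (0 : p → MonoidAlgebra R Γ) = 0 := by
    funext i
    exact map_zero _
  refine FC.one_sided (MulAction.stabilizer Γ y) (c08_isOp_comp hop
    (c08_isOp_comp (isOp_vecMul (MulAction.stabilizer Γ y) N) hop)) ?_ α ?_ ?_
  · refine FT.comp_left (D := fun x : p → MonoidAlgebra R Γ => resP v {y} (x ᵥ* N))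
      (ft_resP_singleton v y) ?_
    change resP v {y} ((0 : p → MonoidAlgebra R Γ) ᵥ* N) = 0
    rw [Matrix.zero_vecMul, h0]
  · intro m hm
    have h1 : resP v {y} m ᵥ* N = 0 := by
      funext j
      change ∑ i, (resP v {y} m) i * N i j = 0
      refine Finset.sum_eq_zero fun i _ => ?_
      by_cases hij : N i j = 0
      · rw [hij, mul_zero]
      · have h2 : m i = 0 := hm i (hα i j hij).1
        change res {γ | γ • v i ∈ ({y} : Set V)} (m i) * N i j = 0
        rw [h2, map_zero, zero_mul]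
    rw [h1, h0]
  · intro m j hj
    change res {γ | γ • v j ∈ ({y} : Set V)} (∑ i, (resP v {y} m) i * N i j) = 0
    have h1 : ∑ i, (resP v {y} m) i * N i j = 0 := by
      refine Finset.sum_eq_zero fun i _ => ?_
      by_cases hij : N i j = 0
      · rw [hij, mul_zero]
      · exact absurd hj (hα i j hij).2
    rw [h1, map_zero]

private theorem c08_trl (K : CutSys Γ V) (v : p → V) (y : V)
    (l : List (Matrix p p (MonoidAlgebra R Γ)))
    (hl : ∀ E ∈ l, ∃ α : p → Prop, OneS α (E - 1)) :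
    FC (inc R (MulAction.stabilizer Γ y).subtype)
      (RS (trl (K.c y) v l) (resP v {y}) : (p → MonoidAlgebra R Γ) → (p → MonoidAlgebra R Γ)) 0 := by
  induction l with
  | nil =>
    have e : (RS (trl (K.c y) v []) (resP v {y}) :
        (p → MonoidAlgebra R Γ) → (p → MonoidAlgebra R Γ)) = fun m => m := by
      funext m
      change resP v {y} m + (m - resP v {y} m) = m
      abel
    rw [e]
    exact FC.refl
  | cons E l ih =>
    have h1 := FC.comp (ih fun E' hE' => hl E' (List.mem_cons_of_mem _ hE'))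
      (c08_step K v y E (hl E List.mem_cons_self))
    rw [add_zero] at h1
    have e : (RS (trl (K.c y) v (E :: l)) (resP v {y}) :
        (p → MonoidAlgebra R Γ) → (p → MonoidAlgebra R Γ)) = fun m =>
        RS (trl (K.c y) v l) (resP v {y}) (RS (trc (K.c y) v E) (resP v {y}) m) := by
      funext m
      have h2 : resP v {y} (RS (trc (K.c y) v E) (resP v {y}) m) =
          trc (K.c y) v E (resP v {y} m) := by
        change resP v {y} (trc (K.c y) v E (resP v {y} m) + (m - resP v {y} m)) = _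
        have h3 := trc_resP (K.c y) v {y} E m
        have h4 : K.c y ⁻¹' {y} = ({y} : Set V) := by
          ext w
          rw [Set.mem_preimage, Set.mem_singleton_iff, Set.mem_singleton_iff, K.c_eq_self_iff]
        rw [h4] at h3
        rw [resP_add, resP_sub, c08_idem, sub_self, add_zero, h3, c08_idem]
      change trl (K.c y) v l (trc (K.c y) v E (resP v {y} m)) + (m - resP v {y} m) =
        trl (K.c y) v l (resP v {y} (RS (trc (K.c y) v E) (resP v {y}) m)) +
          (RS (trc (K.c y) v E) (resP v {y}) m -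
            resP v {y} (RS (trc (K.c y) v E) (resP v {y}) m))
      rw [h2]
      change _ = _ + (trc (K.c y) v E (resP v {y} m) + (m - resP v {y} m) - _)
      rw [add_sub_cancel_left]
    rw [e]
    exact h1

/-- The position `y` itself. -/
theorem LData.tau_base (y : V) {κ : KOne (MonoidAlgebra R (MulAction.stabilizer Γ y))}
    (h : FC (inc R (MulAction.stabilizer Γ y).subtype)
      (RS (fun m : p → MonoidAlgebra R Γ => m ᵥ* L.W) (resP L.v {y})) κ) :
    L.Tau (MulAction.stabilizer Γ y) (K.c y) {y} κ := by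
  have h1 := FC.comp (c08_trl K L.v y L.l L.os) h
  rw [zero_add] at h1
  change FC (inc R (MulAction.stabilizer Γ y).subtype) (RS (L.D (K.c y)) (resP L.v {y})) κ
  have e : RS (L.D (K.c y)) (resP L.v {y}) = fun m : p → MonoidAlgebra R Γ =>
      RS (trl (K.c y) L.v L.l) (resP L.v {y})
        (RS (fun m : p → MonoidAlgebra R Γ => m ᵥ* L.W) (resP L.v {y}) m) := by
    funext m
    have h2 : resP L.v {y} (RS (fun m : p → MonoidAlgebra R Γ => m ᵥ* L.W) (resP L.v {y}) m) =
        resP L.v {y} m ᵥ* L.W := by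
      change resP L.v {y} (resP L.v {y} m ᵥ* L.W + (m - resP L.v {y} m)) = _
      rw [resP_add, resP_sub, c08_idem, sub_self, add_zero,
        resP_vecMul L.v L.grW {y} (resP L.v {y} m), c08_idem]
    change trl (K.c y) L.v L.l (resP L.v {y} m ᵥ* L.W) + (m - resP L.v {y} m) =
      trl (K.c y) L.v L.l (resP L.v {y}
        (RS (fun m : p → MonoidAlgebra R Γ => m ᵥ* L.W) (resP L.v {y}) m)) +
        (RS (fun m : p → MonoidAlgebra R Γ => m ᵥ* L.W) (resP L.v {y}) m -
          resP L.v {y} (RS (fun m : p → MonoidAlgebra R Γ => m ᵥ* L.W) (resP L.v {y}) m))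
    rw [h2]
    change _ = _ + (resP L.v {y} m ᵥ* L.W + (m - resP L.v {y} m) - _)
    rw [add_sub_cancel_left]
  rw [e]
  exact h1

end

end Pool.Agent.Lib.MP_c052b4_al.LK
end

section

set_option autoImplicit false
set_option linter.unusedSectionVars false

namespace Pool.Agent.Lib.MP_c052b4_al.LK

open Matrix Kern

universe u v w

section

variable {R : Type u} [Ring R] {Γ : Type v} [Group Γ] {V : Type w} [MulAction Γ V]
  {p : Type*} [Fintype p] [DecidableEq p] {K : CutSys Γ V} (L : LData R K p)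

private theorem c09_exists_Q : ∃ Q : Finset (V × V), ∀ E ∈ L.l, ∀ (γ : Γ) (i j : p) (g : Γ),
    ((E - 1) i j).coeff g ≠ 0 → ∀ y : V, K.c y (γ • L.v i) ≠ K.c y ((γ * g) • L.v j) →
      (γ⁻¹ • y, γ⁻¹ • K.c y (γ • L.v i)) ∈ Q := by
  classical
  have hfin : {q : V × V | ∃ E ∈ L.l, ∃ i j : p, ∃ g ∈ ((E - 1) i j).coeff.support,
      ∃ y0 ∈ {y | K.c y (L.v i) ≠ K.c y (g • L.v j)}, (y0, K.c y0 (L.v i)) = q}.Finite := by
    have h1 : {q : V × V | ∃ E ∈ L.l, ∃ i j : p, ∃ g ∈ ((E - 1) i j).coeff.support,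
        ∃ y0 ∈ {y | K.c y (L.v i) ≠ K.c y (g • L.v j)}, (y0, K.c y0 (L.v i)) = q} =
        ⋃ E ∈ {E | E ∈ L.l}, ⋃ i : p, ⋃ j : p,
          ⋃ g ∈ (((E - 1) i j).coeff.support : Set Γ),
            (fun y0 => (y0, K.c y0 (L.v i))) '' {y | K.c y (L.v i) ≠ K.c y (g • L.v j)} := by
      ext q
      simp only [Set.mem_setOf_eq, Set.mem_iUnion, Set.mem_image, Finset.mem_coe]
      constructor
      · rintro ⟨E, hE, i, j, g, hg, y0, hy0, hq⟩
        exact ⟨E, hE, i, j, g, hg, y0, hy0, hq⟩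
      · rintro ⟨E, hE, i, j, g, hg, y0, hy0, hq⟩
        exact ⟨E, hE, i, j, g, hg, y0, hy0, hq⟩
    rw [h1]
    refine Set.Finite.biUnion (List.finite_toSet L.l) fun E _ => ?_
    refine Set.finite_iUnion fun i => Set.finite_iUnion fun j => ?_
    refine Set.Finite.biUnion (Finset.finite_toSet _) fun g _ => ?_
    exact (K.fin (L.v i) (g • L.v j)).image _
  refine ⟨hfin.toFinset, ?_⟩
  intro E hE γ i j g hg y hne
  rw [Set.Finite.mem_toFinset]
  have h1 : ∀ w : V, K.c (γ⁻¹ • y) w = γ⁻¹ • K.c y (γ • w) := fun w => by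
    have h2 := K.equiv γ⁻¹ y (γ • w)
    rwa [inv_smul_smul] at h2
  refine ⟨E, hE, i, j, g, Finsupp.mem_support_iff.2 hg, γ⁻¹ • y, ?_, ?_⟩
  · show K.c (γ⁻¹ • y) (L.v i) ≠ K.c (γ⁻¹ • y) (g • L.v j)
    rw [h1, h1, smul_smul γ g]
    intro h3
    exact hne (smul_left_cancel _ h3)
  · rw [h1]

private theorem c09_reps (K : CutSys Γ V) (Q : Finset (V × V)) (y : V) : ∃ Z : Finset V,
    (∀ z ∈ Z, K.Adj y z) ∧
    (∀ z ∈ Z, ∀ z' ∈ Z, ∀ h ∈ MulAction.stabilizer Γ y, h • z = z' → z = z') ∧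
    ∀ z : V, K.Adj y z → (∃ γ : Γ, (γ • y, γ • z) ∈ Q) →
      ∃ h ∈ MulAction.stabilizer Γ y, h • z ∈ Z := by
  classical
  let S := MulAction.stabilizer Γ y
  let st : Setoid V := MulAction.orbitRel S V
  let tr : V × V → V := fun q => if h : ∃ γ : Γ, γ • q.1 = y then h.choose • q.2 else y
  let Z0 : Finset V := (Q.image tr).filter fun z => K.Adj y z
  let f : V → V := fun z => (Quotient.mk st z).out
  have hf : ∀ z, ∃ h ∈ S, h • z = f z := by
    intro z
    have h1 : st (f z) z := Quotient.exact (Quotient.out_eq (Quotient.mk st z))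
    obtain ⟨h, hh⟩ := MulAction.orbitRel_apply.1 h1
    exact ⟨h.1, h.2, hh⟩
  have hf' : ∀ z z', (∃ h ∈ S, h • z = z') → f z = f z' := by
    rintro z z' ⟨h, hh, rfl⟩
    have h1 : Quotient.mk st z = Quotient.mk st (h • z) := by
      apply Quotient.sound
      show st z (h • z)
      apply st.symm
      exact MulAction.orbitRel_apply.2 ⟨⟨h, hh⟩, rfl⟩
    show (Quotient.mk st z).out = (Quotient.mk st (h • z)).out
    rw [h1]
  refine ⟨Z0.image f, ?_, ?_, ?_⟩
  · intro z hz
    obtain ⟨z0, hz0, rfl⟩ := Finset.mem_image.1 hz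
    have h1 : K.Adj y z0 := (Finset.mem_filter.1 hz0).2
    obtain ⟨h, hh, hz1⟩ := hf z0
    rw [← hz1]
    have h2 := K.adj_smul h1 h
    rwa [MulAction.mem_stabilizer_iff.1 hh] at h2
  · intro z hz z' hz' h hh hzz
    obtain ⟨a, ha, rfl⟩ := Finset.mem_image.1 hz
    obtain ⟨b, hb, rfl⟩ := Finset.mem_image.1 hz'
    obtain ⟨h1, hh1, h2⟩ := hf a
    obtain ⟨h3, hh3, h4⟩ := hf b
    apply hf'
    refine ⟨h3⁻¹ * (h * h1), mul_mem (inv_mem hh3) (mul_mem hh hh1), ?_⟩
    rw [mul_smul, mul_smul, h2, hzz, ← h4, inv_smul_smul]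
  · rintro z hz ⟨γ, hγ⟩
    have hex : ∃ γ' : Γ, γ' • (γ • y, γ • z).1 = y := ⟨γ⁻¹, inv_smul_smul γ y⟩
    have h1 : tr (γ • y, γ • z) = hex.choose • (γ • z) := dif_pos hex
    have h2 : hex.choose * γ ∈ S := by
      rw [MulAction.mem_stabilizer_iff, mul_smul]
      exact hex.choose_spec
    have h3 : tr (γ • y, γ • z) = (hex.choose * γ) • z := by rw [h1, mul_smul]
    have h4 : K.Adj y (tr (γ • y, γ • z)) := by
      rw [h3]
      have h5 := K.adj_smul hz (hex.choose * γ)
      rwa [MulAction.mem_stabilizer_iff.1 h2] at h5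
    have h5 : tr (γ • y, γ • z) ∈ Z0 :=
      Finset.mem_filter.2 ⟨Finset.mem_image_of_mem tr hγ, h4⟩
    obtain ⟨h, hh, h6⟩ := hf (tr (γ • y, γ • z))
    refine ⟨h * (hex.choose * γ), mul_mem hh h2, ?_⟩
    rw [mul_smul, ← h3, h6]
    exact Finset.mem_image_of_mem f h5

private theorem c09_sideE (K : CutSys Γ V) (y z : V) :
    K.sideE y z = (K.colE y z) ⁻¹' {True} := by
  ext w
  simp [CutSys.sideE, CutSys.colE]

private theorem c09_tau {Q : Finset (V × V)}
    (hQ : ∀ E ∈ L.l, ∀ (γ : Γ) (i j : p) (g : Γ),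
    ((E - 1) i j).coeff g ≠ 0 → ∀ y : V, K.c y (γ • L.v i) ≠ K.c y ((γ * g) • L.v j) →
      (γ⁻¹ • y, γ⁻¹ • K.c y (γ • L.v i)) ∈ Q) (y z : V)
    (h : ∀ γ : Γ, (γ • y, γ • z) ∉ Q) :
    L.Tau (MulAction.stabilizer Γ y ⊓ MulAction.stabilizer Γ z) (K.colE y z)
        (K.sideE y z) 0 := by
  rw [c09_sideE]
  refine L.tau_of_pres ?_
  intro E hE γ i hγ j g hg
  have h1 : K.c y (γ • L.v i) = z := by
    have h2 : (K.c y (γ • L.v i) = z) = True := hγ
    exact of_eq_true h2
  have h2 : K.c y ((γ * g) • L.v j) = z := by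
    by_contra hne
    have h3 := hQ E hE γ i j g hg y (by
      rw [h1]
      exact fun h4 => hne h4.symm)
    rw [h1] at h3
    exact h γ⁻¹ h3
  show (K.c y ((γ * g) • L.v j) = z) = (K.c y (γ • L.v i) = z)
  rw [h1, h2]

/-- Only finitely many edges modulo `Γ` contribute. -/
theorem LData.tau_finite : ∃ Q : Finset (V × V), ∀ y z : V, K.Adj y z →
    (∀ γ : Γ, (γ • y, γ • z) ∉ Q) →
      L.Tau (MulAction.stabilizer Γ y ⊓ MulAction.stabilizer Γ z) (K.colE y z)
        (K.sideE y z) 0 := by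
  obtain ⟨Q, hQ⟩ := c09_exists_Q L
  exact ⟨Q, fun y z _ h => c09_tau L hQ y z h⟩

/-- Only finitely many edges at `y` modulo the stabilizer contribute. -/
theorem LData.tau_finite_at (y : V) : ∃ Z : Finset V, (∀ z ∈ Z, K.Adj y z) ∧
    (∀ z ∈ Z, ∀ z' ∈ Z, ∀ h ∈ MulAction.stabilizer Γ y, h • z = z' → z = z') ∧
    L.Tau (MulAction.stabilizer Γ y) (K.c y) {w | w ≠ y ∧ ∀ z ∈ Z, w ∉ K.sideO y z} 0 ∧
    ∀ z : V, K.Adj y z → (∀ h ∈ MulAction.stabilizer Γ y, h • z ∉ Z) →
      L.Tau (MulAction.stabilizer Γ y ⊓ MulAction.stabilizer Γ z) (K.colE y z)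
        (K.sideE y z) 0 := by
  obtain ⟨Q, hQ⟩ := c09_exists_Q L
  obtain ⟨Z, hZ1, hZ2, hZ3⟩ := c09_reps K Q y
  refine ⟨Z, hZ1, hZ2, ?_, ?_⟩
  · have h1 : {w | w ≠ y ∧ ∀ z ∈ Z, w ∉ K.sideO y z} =
        K.c y ⁻¹' {x | x ≠ y ∧ ∀ z ∈ Z, ∀ h ∈ MulAction.stabilizer Γ y, x ≠ h • z} := by
      ext w
      simp only [Set.mem_setOf_eq, Set.mem_preimage, CutSys.sideO, not_exists, not_and, ne_eq,
        K.c_eq_self_iff]
    rw [h1]
    refine L.tau_of_pres ?_
    rintro E hE γ i ⟨hy, hγ⟩ j g hg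
    by_contra hne
    have h2 := hQ E hE γ i j g hg y (fun h4 => hne h4.symm)
    have h3 : K.Adj y (K.c y (γ • L.v i)) := K.adj_c fun h4 => hy (K.c_eq_self_iff.2 h4)
    obtain ⟨h, hh, h4⟩ := hZ3 _ h3 ⟨γ⁻¹, h2⟩
    exact hγ _ h4 h⁻¹ (inv_mem hh) (inv_smul_smul h _).symm
  · intro z hz hh
    refine c09_tau L hQ y z fun γ hγ => ?_
    obtain ⟨h, h1, h2⟩ := hZ3 z hz ⟨γ, hγ⟩
    exact hh h h1 h2

end

end Pool.Agent.Lib.MP_c052b4_al.LK
end
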