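import Pool.Agent.Lib.MP_c052b4_al.KOneKernel
import Pool.Agent.Lib.MP_c052b4_al.Mg.G083
import Pool.Agent.Lib.MP_c052b4_al.Mg.G084
import Pool.Agent.Lib.MP_c052b4_al.LK.E03
import Pool.Agent.Lib.MP_c052b4_al.Mg.G087
import Pool.Agent.Lib.MP_c052b4_al.Mg.G089
import Pool.Agent.Lib.MP_c052b4_al.Mg.G088
import Pool.Agent.Lib.MP_c052b4_al.Mg.G090

section

set_option autoImplicit false
set_option linter.unusedSectionVars false

namespace Pool.Agent.Lib.MP_c052b4_al.LK

open Matrix Kern

universe u v w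

section

variable {R : Type u} [Ring R] {Γ : Type v} [Group Γ] {V : Type w} [MulAction Γ V]

private theorem e04_res (y0 : V) (γ : Γ) (a : MonoidAlgebra R Γ) :
    res {γ' : Γ | γ' • y0 ∈ ({γ • y0} : Set V)} a
      = inc R (MulAction.stabilizer Γ (γ • y0)).subtype
          (prC (MulAction.stabilizer Γ (γ • y0)) (a * MonoidAlgebra.single γ⁻¹ 1))
        * MonoidAlgebra.single γ 1 := by
  ext g
  rw [MonoidAlgebra.coeff_mul_single_apply, mul_one]
  by_cases hg : g • y0 = γ • y0
  · have hg' : g ∈ {γ' : Γ | γ' • y0 ∈ ({γ • y0} : Set V)} := hg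
    rw [coeff_res_of_mem hg']
    have hm : g * γ⁻¹ ∈ MulAction.stabilizer Γ (γ • y0) := by
      rw [MulAction.mem_stabilizer_iff, mul_smul, inv_smul_smul, hg]
    have h1 := coeff_inc (R := R) (MulAction.stabilizer Γ (γ • y0)).subtype
      (Subgroup.subtype_injective _)
      (prC (MulAction.stabilizer Γ (γ • y0)) (a * MonoidAlgebra.single γ⁻¹ 1)) ⟨g * γ⁻¹, hm⟩
    rw [Subgroup.coe_subtype] at h1
    rw [h1, coeff_prC, MonoidAlgebra.coeff_mul_single_apply, mul_one, inv_inv,
      inv_mul_cancel_right]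
  · have hg' : g ∉ {γ' : Γ | γ' • y0 ∈ ({γ • y0} : Set V)} := hg
    rw [coeff_res_of_notMem hg']
    symm
    apply sup_inc
    rintro ⟨c, hc⟩
    apply hg
    have h2 := MulAction.mem_stabilizer_iff.1 c.2
    rw [Subgroup.coe_subtype] at hc
    rw [hc, mul_smul, inv_smul_smul] at h2
    exact h2

private theorem e04_conj (y0 : V) (γ : Γ) (x : MonoidAlgebra R (MulAction.stabilizer Γ y0)) :
    MonoidAlgebra.single γ 1 * inc R (MulAction.stabilizer Γ y0).subtype x
        * MonoidAlgebra.single γ⁻¹ 1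
      = inc R (MulAction.stabilizer Γ (γ • y0)).subtype (inc R (conjStab Γ γ y0) x) := by
  induction x using MonoidAlgebra.induction_linear with
  | zero => simp
  | add s s' hs hs' => rw [map_add, mul_add, add_mul, hs, hs', map_add, map_add]
  | single h r =>
    simp only [MonoidAlgebra.mapDomainRingHom_apply, MonoidAlgebra.mapDomain_single,
      MonoidAlgebra.single_mul_single, one_mul, mul_one]
    rfl

private theorem e04_prC (H : Subgroup Γ) (s : MonoidAlgebra R H) :
    prC H (inc R H.subtype s) = s := by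
  have h := prC_inc_mul H s (1 : MonoidAlgebra R Γ)
  rw [mul_one, prC_one, mul_one] at h
  exact h

/-- the action of one block -/
private noncomputable def e04V {n k : ℕ} (y : Fin n → V)
    (A : ∀ i, (Matrix (Fin k) (Fin k) (MonoidAlgebra R (MulAction.stabilizer Γ (y i))))ˣ)
    {q : Type} {p : Type}
    (σ : (Fin k × Fin n) ⊕ q ≃ p) (v : p → V) (z : V) (i : Fin n)
    (m : p → MonoidAlgebra R Γ) : p → MonoidAlgebra R Γ := fun x =>
  Sum.elim (fun a : Fin k × Fin n => if a.2 = i then
      ∑ j, resP v {z} m (σ (Sum.inl (j, i))) * inc R (MulAction.stabilizer Γ (y i)).subtype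
        (((A i : Matrix (Fin k) (Fin k) (MonoidAlgebra R (MulAction.stabilizer Γ (y i)))) - 1) j a.1)
      else 0)
    (fun _ => 0) (σ.symm x)

variable {n k : ℕ} (y : Fin n → V)
    (A : ∀ i, (Matrix (Fin k) (Fin k) (MonoidAlgebra R (MulAction.stabilizer Γ (y i))))ˣ)
    {q : Type} {p : Type}
    (σ : (Fin k × Fin n) ⊕ q ≃ p) (v : p → V) (z : V) (i : Fin n)

private theorem e04V_inl (m : p → MonoidAlgebra R Γ) (a : Fin k × Fin n) :
    e04V y A σ v z i m (σ (Sum.inl a)) = if a.2 = i then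
      ∑ j, resP v {z} m (σ (Sum.inl (j, i))) * inc R (MulAction.stabilizer Γ (y i)).subtype
        (((A i : Matrix (Fin k) (Fin k) (MonoidAlgebra R (MulAction.stabilizer Γ (y i)))) - 1) j a.1)
      else 0 := by
  rw [e04V, Equiv.symm_apply_apply]
  rfl

private theorem e04V_inr (m : p → MonoidAlgebra R Γ) (t : q) :
    e04V y A σ v z i m (σ (Sum.inr t)) = 0 := by
  rw [e04V, Equiv.symm_apply_apply]
  rfl

private theorem e04V_add (m m' : p → MonoidAlgebra R Γ) :
    e04V y A σ v z i (m + m') = e04V y A σ v z i m + e04V y A σ v z i m' := by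
  funext x
  obtain ⟨x, rfl⟩ := σ.surjective x
  rw [Pi.add_apply]
  rcases x with a | t
  · rw [e04V_inl, e04V_inl, e04V_inl]
    split_ifs with h
    · rw [← Finset.sum_add_distrib]
      refine Finset.sum_congr rfl (fun j _ => ?_)
      rw [resP_add, Pi.add_apply, add_mul]
    · rw [add_zero]
  · rw [e04V_inr, e04V_inr, e04V_inr, add_zero]

private theorem e04V_V {i' : Fin n} (h : i ≠ i') (m : p → MonoidAlgebra R Γ) :
    e04V y A σ v z i' (e04V y A σ v z i m) = 0 := by
  funext x
  obtain ⟨x, rfl⟩ := σ.surjective x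
  rw [Pi.zero_apply]
  rcases x with a | t
  · rw [e04V_inl]
    split_ifs with h1
    · refine Finset.sum_eq_zero (fun j _ => ?_)
      have h2 : resP v {z} (e04V y A σ v z i m) (σ (Sum.inl (j, i'))) = 0 := by
        rw [resP, e04V_inl, if_neg (fun h3 => h h3.symm), map_zero]
      rw [h2, zero_mul]
    · rfl
  · rw [e04V_inr]

/-- the functionals -/
private noncomputable def e04c (γ : Γ) (j : Fin k) (m : p → MonoidAlgebra R Γ) :
    MonoidAlgebra R (MulAction.stabilizer Γ (γ • y i)) :=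
  prC (MulAction.stabilizer Γ (γ • y i)) (m (σ (Sum.inl (j, i))) * MonoidAlgebra.single γ⁻¹ 1)

/-- the vectors -/
private noncomputable def e04b (γ : Γ) (j : Fin k) : p → MonoidAlgebra R Γ := fun x =>
  Sum.elim (fun a : Fin k × Fin n => if a.2 = i then
      MonoidAlgebra.single γ 1 * inc R (MulAction.stabilizer Γ (y i)).subtype
        (((A i : Matrix (Fin k) (Fin k) (MonoidAlgebra R (MulAction.stabilizer Γ (y i)))) - 1)
          j a.1) else 0)
    (fun _ => 0) (σ.symm x)

private theorem e04b_inl (γ : Γ) (j : Fin k) (a : Fin k × Fin n) :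
    e04b y A σ i γ j (σ (Sum.inl a)) = if a.2 = i then
      MonoidAlgebra.single γ 1 * inc R (MulAction.stabilizer Γ (y i)).subtype
        (((A i : Matrix (Fin k) (Fin k) (MonoidAlgebra R (MulAction.stabilizer Γ (y i)))) - 1)
          j a.1) else 0 := by
  rw [e04b, Equiv.symm_apply_apply]
  rfl

private theorem e04b_inr (γ : Γ) (j : Fin k) (t : q) :
    e04b y A σ i γ j (σ (Sum.inr t)) = 0 := by
  rw [e04b, Equiv.symm_apply_apply]
  rfl

private theorem e04c_isFun (γ : Γ) (j : Fin k) :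
    IsFun (inc R (MulAction.stabilizer Γ (γ • y i)).subtype)
      (e04c y σ i γ j : (p → MonoidAlgebra R Γ) → _) := by
  constructor
  · intro x x'
    rw [e04c, Pi.add_apply, add_mul, prC_add]
    rfl
  · intro s x
    rw [e04c, Pi.smul_apply, smul_eq_mul, mul_assoc, prC_inc_mul]
    rfl

private theorem e04c_b (γ : Γ) (j j' : Fin k) :
    e04c y σ i γ j' (e04b y A σ i γ j) = inc R (conjStab Γ γ (y i))
      (((A i : Matrix (Fin k) (Fin k) (MonoidAlgebra R (MulAction.stabilizer Γ (y i)))) - 1) j j') := by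
  rw [e04c, e04b_inl, if_pos rfl, e04_conj, e04_prC]

private theorem e04_rep (hv : ∀ a, v (σ (Sum.inl a)) = y a.2) (γ : Γ)
    (m : p → MonoidAlgebra R Γ) :
    e04V y A σ v (γ • y i) i m
      = ∑ j, inc R (MulAction.stabilizer Γ (γ • y i)).subtype (e04c y σ i γ j m)
          • e04b y A σ i γ j := by
  funext x
  obtain ⟨x, rfl⟩ := σ.surjective x
  rw [Finset.sum_apply]
  rcases x with a | t
  · rw [e04V_inl]
    split_ifs with h
    · refine Finset.sum_congr rfl (fun j _ => ?_)
      rw [Pi.smul_apply, smul_eq_mul, e04b_inl, if_pos h, resP, hv, e04_res, mul_assoc]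
      rfl
    · symm
      refine Finset.sum_eq_zero (fun j _ => ?_)
      rw [Pi.smul_apply, smul_eq_mul, e04b_inl, if_neg h, mul_zero]
  · rw [e04V_inr]
    symm
    refine Finset.sum_eq_zero (fun j _ => ?_)
    rw [Pi.smul_apply, smul_eq_mul, e04b_inr, mul_zero]

private theorem e04_FC (hv : ∀ a, v (σ (Sum.inl a)) = y a.2)
    {B : Type*} [AddCommGroup B]
    (β : ∀ x : V, KOne (MonoidAlgebra R (MulAction.stabilizer Γ x)) →+ B)
    (hβ : ∀ (γ : Γ) (x : V) (a : KOne (MonoidAlgebra R (MulAction.stabilizer Γ x))),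
      β (γ • x) (KOne.map (inc R (conjStab Γ γ x)) a) = β x a) :
    ∃ κ : KOne (MonoidAlgebra R (MulAction.stabilizer Γ z)),
      FC (inc R (MulAction.stabilizer Γ z).subtype)
        (fun m : p → MonoidAlgebra R Γ => m + e04V y A σ v z i m) κ ∧
      (((∃ γ : Γ, γ • y i = z) → β z κ = β (y i) (k1 (A i))) ∧
        ((¬ ∃ γ : Γ, γ • y i = z) → β z κ = 0)) := by
  by_cases hz : ∃ γ : Γ, γ • y i = z
  · obtain ⟨γ, rfl⟩ := hz
    refine ⟨KOne.map (inc R (conjStab Γ γ (y i))) (k1 (A i)), ?_, fun _ => hβ γ (y i) _,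
      fun h => absurd ⟨γ, rfl⟩ h⟩
    refine ⟨k, e04c y σ i γ, e04b y A σ i γ, e04c_isFun y σ i γ, ?_, ?_⟩
    · intro m
      exact congrArg (fun x => m + x) (e04_rep y A σ v i hv γ m)
    · have hM : (Matrix.of fun j j' => e04c y σ i γ j' (e04b y A σ i γ j) :
          Matrix (Fin k) (Fin k) (MonoidAlgebra R (MulAction.stabilizer Γ (γ • y i))))
          = ((A i : Matrix (Fin k) (Fin k) (MonoidAlgebra R (MulAction.stabilizer Γ (y i)))) - 1).map
              (inc R (conjStab Γ γ (y i))) := by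
        ext1 j j'
        rw [Matrix.of_apply, Matrix.map_apply, e04c_b]
      have h1 : ((mU (inc R (conjStab Γ γ (y i))) (A i) :
          (Matrix (Fin k) (Fin k) (MonoidAlgebra R (MulAction.stabilizer Γ (γ • y i))))ˣ) :
          Matrix (Fin k) (Fin k) (MonoidAlgebra R (MulAction.stabilizer Γ (γ • y i))))
          = 1 + ((A i : Matrix (Fin k) (Fin k) (MonoidAlgebra R (MulAction.stabilizer Γ (y i)))) - 1).map
              (inc R (conjStab Γ γ (y i))) := by
        rw [coe_mU, Matrix.map_sub _ (map_sub _), Matrix.map_one _ (map_zero _) (map_one _),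
          add_sub_cancel]
      rw [hM]
      refine ⟨⟨_, h1⟩, ?_⟩
      rw [kk_eq _ h1, KOne.map_k1]
  · refine ⟨0, ?_, fun h => absurd h hz, fun _ => map_zero _⟩
    have h0 : (fun m : p → MonoidAlgebra R Γ => m + e04V y A σ v z i m) = fun m => m := by
      funext m
      have h1 : e04V y A σ v z i m = 0 := by
        funext x
        obtain ⟨x, rfl⟩ := σ.surjective x
        rw [Pi.zero_apply]
        rcases x with a | t
        · rw [e04V_inl]
          split_ifs with h1
          · refine Finset.sum_eq_zero (fun j _ => ?_)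
            have h2 : resP v {z} m (σ (Sum.inl (j, i))) = 0 := by
              rw [resP, hv]
              refine res_eq_zero (Z := Set.univ) (fun γ hγ => absurd (Set.mem_univ _) hγ) ?_
              intro γ _ hγ
              exact hz ⟨γ, hγ⟩
            rw [h2, zero_mul]
          · rfl
        · rw [e04V_inr]
      rw [h1, add_zero]
    rw [h0]
    exact FC.refl

open Classical in
/-- The class of a block diagonal matrix at the position `z`. -/
theorem exists_fc_block {n k : ℕ} (y : Fin n → V)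
    (A : ∀ i, (Matrix (Fin k) (Fin k) (MonoidAlgebra R (MulAction.stabilizer Γ (y i))))ˣ)
    {q : Type} [Fintype q] [DecidableEq q] {p : Type} [Fintype p] [DecidableEq p]
    (σ : (Fin k × Fin n) ⊕ q ≃ p) (v : p → V) (hv : ∀ a, v (σ (Sum.inl a)) = y a.2) (z : V)
    {B : Type*} [AddCommGroup B]
    (β : ∀ x : V, KOne (MonoidAlgebra R (MulAction.stabilizer Γ x)) →+ B)
    (hβ : ∀ (γ : Γ) (x : V) (a : KOne (MonoidAlgebra R (MulAction.stabilizer Γ x))),
      β (γ • x) (KOne.map (inc R (conjStab Γ γ x)) a) = β x a) :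
    ∃ κ : KOne (MonoidAlgebra R (MulAction.stabilizer Γ z)),
      FC (inc R (MulAction.stabilizer Γ z).subtype)
        (RS (fun m : p → MonoidAlgebra R Γ =>
          m ᵥ* ((rU σ (bl (blkU y A) 1) : (Matrix p p (MonoidAlgebra R Γ))ˣ) :
            Matrix p p (MonoidAlgebra R Γ))) (resP v {z})) κ ∧
      β z κ = ∑ i, if (∃ γ : Γ, γ • y i = z) then β (y i) (k1 (A i)) else 0 := by
  have h1 : ∀ s : Finset (Fin n), ∃ κ : KOne (MonoidAlgebra R (MulAction.stabilizer Γ z)),
      FC (inc R (MulAction.stabilizer Γ z).subtype)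
        (fun m : p → MonoidAlgebra R Γ => m + ∑ i ∈ s, e04V y A σ v z i m) κ ∧
      β z κ = ∑ i ∈ s, if (∃ γ : Γ, γ • y i = z) then β (y i) (k1 (A i)) else 0 := by
    intro s
    induction s using Finset.induction_on with
    | empty =>
      refine ⟨0, ?_, ?_⟩
      · have h0 : (fun m : p → MonoidAlgebra R Γ =>
            m + ∑ i ∈ (∅ : Finset (Fin n)), e04V y A σ v z i m) = fun m => m := by
          funext m
          rw [Finset.sum_empty, add_zero]
        rw [h0]
        exact FC.refl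
      · rw [map_zero, Finset.sum_empty]
    | insert i s hi ih =>
      obtain ⟨κ, hκ, hβκ⟩ := ih
      obtain ⟨κ', hκ', hβ1, hβ2⟩ := e04_FC y A σ v z i hv β hβ
      refine ⟨κ + κ', ?_, ?_⟩
      · have h2 := FC.comp hκ hκ'
        have h3 : (fun m : p → MonoidAlgebra R Γ =>
            (m + e04V y A σ v z i m) + ∑ i' ∈ s, e04V y A σ v z i' (m + e04V y A σ v z i m))
            = (fun m : p → MonoidAlgebra R Γ => m + ∑ i ∈ insert i s, e04V y A σ v z i m) := by
          funext m
          rw [Finset.sum_insert hi, ← add_assoc]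
          congr 1
          refine Finset.sum_congr rfl (fun i' hi' => ?_)
          rw [e04V_add, e04V_V y A σ v z i (fun h => hi (h ▸ hi')), add_zero]
        rw [← h3]
        exact h2
      · rw [map_add, hβκ, Finset.sum_insert hi, add_comm]
        congr 1
        split_ifs with h
        · exact hβ1 h
        · exact hβ2 h
  obtain ⟨κ, hκ, hβκ⟩ := h1 Finset.univ
  refine ⟨κ, ?_, hβκ⟩
  have h2 : RS (fun m : p → MonoidAlgebra R Γ =>
          m ᵥ* ((rU σ (bl (blkU y A) 1) : (Matrix p p (MonoidAlgebra R Γ))ˣ) :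
            Matrix p p (MonoidAlgebra R Γ))) (resP v {z})
      = fun m : p → MonoidAlgebra R Γ => m + ∑ i, e04V y A σ v z i m := by
    funext m
    have h3 : ∀ x, (resP v {z} m ᵥ* ((rU σ (bl (blkU y A) 1) : (Matrix p p (MonoidAlgebra R Γ))ˣ) :
            Matrix p p (MonoidAlgebra R Γ))) x - resP v {z} m x = (∑ i, e04V y A σ v z i m) x := by
      intro x
      obtain ⟨x, rfl⟩ := σ.surjective x
      have h4 : (resP v {z} m ᵥ* ((rU σ (bl (blkU y A) 1) : (Matrix p p (MonoidAlgebra R Γ))ˣ) :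
            Matrix p p (MonoidAlgebra R Γ))) (σ x)
          = ∑ x', resP v {z} m (σ x') * (fromBlocks (blkM y fun i => (A i : Matrix (Fin k) (Fin k) _))
              0 0 1 : Matrix ((Fin k × Fin n) ⊕ q) ((Fin k × Fin n) ⊕ q) (MonoidAlgebra R Γ)) x' x := by
        rw [Matrix.vecMul, dotProduct, ← Equiv.sum_comp σ]
        refine Finset.sum_congr rfl (fun x' _ => ?_)
        rw [coe_rU, Matrix.submatrix_apply, Equiv.symm_apply_apply, Equiv.symm_apply_apply]
        rfl
      rw [h4, Fintype.sum_sum_type, Finset.sum_apply]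
      rcases x with a | t
      · obtain ⟨j', i0⟩ := a
        have h5 : ∀ t : q, resP v {z} m (σ (Sum.inr t)) * (fromBlocks
            (blkM y fun i => (A i : Matrix (Fin k) (Fin k) _)) 0 0 1 :
            Matrix ((Fin k × Fin n) ⊕ q) ((Fin k × Fin n) ⊕ q) (MonoidAlgebra R Γ))
              (Sum.inr t) (Sum.inl (j', i0)) = 0 := by
          intro t
          rw [fromBlocks_apply₂₁, Matrix.zero_apply, mul_zero]
        rw [Finset.sum_congr rfl (fun t _ => h5 t), Finset.sum_const_zero, add_zero,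
          Fintype.sum_prod_type]
        have h6 : ∀ j : Fin k, ∑ i, resP v {z} m (σ (Sum.inl (j, i))) * (fromBlocks
            (blkM y fun i => (A i : Matrix (Fin k) (Fin k) _)) 0 0 1 :
            Matrix ((Fin k × Fin n) ⊕ q) ((Fin k × Fin n) ⊕ q) (MonoidAlgebra R Γ))
              (Sum.inl (j, i)) (Sum.inl (j', i0))
            = resP v {z} m (σ (Sum.inl (j, i0))) *
              inc R (MulAction.stabilizer Γ (y i0)).subtype ((A i0 : Matrix (Fin k) (Fin k) _) j j') := by
          intro j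
          rw [Finset.sum_eq_single i0]
          · rw [fromBlocks_apply₁₁, blkM, Matrix.blockDiagonal_apply, if_pos rfl, Matrix.map_apply]
          · intro i _ hi
            rw [fromBlocks_apply₁₁, blkM, Matrix.blockDiagonal_apply, if_neg hi, mul_zero]
          · intro h
            exact absurd (Finset.mem_univ _) h
        rw [Finset.sum_congr rfl (fun j _ => h6 j),
          Finset.sum_congr rfl (fun i _ => e04V_inl y A σ v z i m (j', i0)),
          Finset.sum_ite_eq, if_pos (Finset.mem_univ _)]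
        have h7 : ∀ j : Fin k, resP v {z} m (σ (Sum.inl (j, i0))) *
            inc R (MulAction.stabilizer Γ (y i0)).subtype
              (((A i0 : Matrix (Fin k) (Fin k) (MonoidAlgebra R (MulAction.stabilizer Γ (y i0)))) - 1)
                j j')
            = resP v {z} m (σ (Sum.inl (j, i0))) *
              inc R (MulAction.stabilizer Γ (y i0)).subtype ((A i0 : Matrix (Fin k) (Fin k) _) j j')
              - (if j = j' then resP v {z} m (σ (Sum.inl (j, i0))) else 0) := by
          intro j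
          rw [Matrix.sub_apply, map_sub, mul_sub, Matrix.one_apply]
          split_ifs with h
          · rw [map_one, mul_one]
          · rw [map_zero, mul_zero]
        rw [Finset.sum_congr rfl (fun j _ => h7 j), Finset.sum_sub_distrib, Finset.sum_ite_eq',
          if_pos (Finset.mem_univ _)]
      · have h5 : ∀ a : Fin k × Fin n, resP v {z} m (σ (Sum.inl a)) * (fromBlocks
            (blkM y fun i => (A i : Matrix (Fin k) (Fin k) _)) 0 0 1 :
            Matrix ((Fin k × Fin n) ⊕ q) ((Fin k × Fin n) ⊕ q) (MonoidAlgebra R Γ))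
              (Sum.inl a) (Sum.inr t) = 0 := by
          intro a
          rw [fromBlocks_apply₁₂, Matrix.zero_apply, mul_zero]
        have h6 : ∀ t' : q, resP v {z} m (σ (Sum.inr t')) * (fromBlocks
            (blkM y fun i => (A i : Matrix (Fin k) (Fin k) _)) 0 0 1 :
            Matrix ((Fin k × Fin n) ⊕ q) ((Fin k × Fin n) ⊕ q) (MonoidAlgebra R Γ))
              (Sum.inr t') (Sum.inr t) = if t' = t then resP v {z} m (σ (Sum.inr t')) else 0 := by
          intro t'
          rw [fromBlocks_apply₂₂, Matrix.one_apply]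
          split_ifs with h
          · rw [mul_one]
          · rw [mul_zero]
        rw [Finset.sum_congr rfl (fun t _ => h5 t), Finset.sum_const_zero, zero_add,
          Finset.sum_congr rfl (fun t _ => h6 t), Finset.sum_ite_eq', if_pos (Finset.mem_univ _),
          sub_self, Finset.sum_congr rfl (fun i _ => e04V_inr y A σ v z i m t),
          Finset.sum_const_zero]
    funext x
    rw [RS, Pi.add_apply, Pi.add_apply, Pi.sub_apply, ← h3 x]
    abel
  rw [h2]
  exact hκ

end

end Pool.Agent.Lib.MP_c052b4_al.LK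
end

section

/-!
# Exactness at the vertices: assembly
-/

set_option autoImplicit false
set_option linter.unusedSectionVars false

namespace Pool.Agent.Lib.MP_c052b4_al.LK

open Matrix Kern

universe u v w

section

variable {R : Type u} [Ring R] {Γ : Type v} [Group Γ] {V : Type w} [MulAction Γ V]
  {p : Type*} [Fintype p] [DecidableEq p] {K : CutSys Γ V} (L : LData R K p)

theorem colE_preimage (y z : V) : K.sideE y z = K.colE y z ⁻¹' {True} := by
  ext w
  simp [CutSys.sideE, CutSys.colE]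

/-- The class of the edge from `y` to `z`. -/
theorem LData.tau_edge_exists {y z : V} (h : K.Adj y z) :
    ∃ κ : KOne (MonoidAlgebra R ↥(MulAction.stabilizer Γ y ⊓ MulAction.stabilizer Γ z)),
      L.Tau (MulAction.stabilizer Γ y ⊓ MulAction.stabilizer Γ z) (K.colE y z)
        (K.sideE y z) κ := by
  rw [colE_preimage]
  refine L.tau_exists (K.pres_colE y z) (K.finCut_colE h) {True} ?_
  intro g hg w hw
  have h1 : K.c y w = z := by simpa [CutSys.colE] using hw
  have hy : g • y = y := MulAction.mem_stabilizer_iff.1 (Subgroup.mem_inf.1 hg).1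
  have hz : g • z = z := MulAction.mem_stabilizer_iff.1 (Subgroup.mem_inf.1 hg).2
  have h2 : K.c y (g • w) = z := by
    have h3 := K.equiv g y w
    rw [hy, h1, hz] at h3
    exact h3
  simp [CutSys.colE, h2]

open Classical in
/-- A choice of the classes of the edges. -/
noncomputable def LData.tauE (y z : V) :
    KOne (MonoidAlgebra R ↥(MulAction.stabilizer Γ y ⊓ MulAction.stabilizer Γ z)) :=
  if h : K.Adj y z then (L.tau_edge_exists h).choose else 0

theorem LData.tauE_spec {y z : V} (h : K.Adj y z) :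
    L.Tau (MulAction.stabilizer Γ y ⊓ MulAction.stabilizer Γ z) (K.colE y z)
      (K.sideE y z) (L.tauE y z) := by
  classical
  unfold LData.tauE
  rw [dif_pos h]
  exact (L.tau_edge_exists h).choose_spec

theorem LData.tauE_eq {y z : V} (h : K.Adj y z)
    {κ : KOne (MonoidAlgebra R ↥(MulAction.stabilizer Γ y ⊓ MulAction.stabilizer Γ z))}
    (hκ : L.Tau (MulAction.stabilizer Γ y ⊓ MulAction.stabilizer Γ z) (K.colE y z)
      (K.sideE y z) κ) : L.tauE y z = κ :=
  L.tau_unique (L.tauE_spec h) hκ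

theorem LData.tauE_of_not {y z : V} (h : ¬ K.Adj y z) : L.tauE y z = 0 := by
  classical
  unfold LData.tauE
  rw [dif_neg h]

variable {B : Type*} [AddCommGroup B]
    (β : ∀ x : V, KOne (MonoidAlgebra R (MulAction.stabilizer Γ x)) →+ B)

/-- The contribution of an oriented edge. -/
noncomputable def LData.ff (y z : V) : B :=
  β y (KOne.map (inc R (Subgroup.inclusion inf_le_left)) (L.tauE y z))

theorem map_inc_map_inc {G H J : Type*} [Group G] [Group H] [Group J] (f : G →* H) (g : H →* J)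
    (x : KOne (MonoidAlgebra R G)) :
    KOne.map (inc R g) (KOne.map (inc R f) x) = KOne.map (inc R (g.comp f)) x := by
  rw [← KOne.map_comp]
  congr 2
  exact (MonoidAlgebra.mapDomainRingHom_comp (R := R) g f).symm

theorem LData.ff_smul
    (hconj : ∀ (γ : Γ) (x : V) (a : KOne (MonoidAlgebra R (MulAction.stabilizer Γ x))),
      β (γ • x) (KOne.map (inc R (conjStab Γ γ x)) a) = β x a) (γ : Γ) (y z : V) :
    L.ff β (γ • y) (γ • z) = L.ff β y z := by
  by_cases h : K.Adj y z
  · have h1 : L.tauE (γ • y) (γ • z) = KOne.map (inc R (conjPair Γ γ y z)) (L.tauE y z) :=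
      L.tauE_eq (K.adj_smul h γ) (L.tau_smul γ (L.tauE_spec h))
    unfold LData.ff
    rw [h1, ← hconj γ y, map_inc_map_inc, map_inc_map_inc]
    rfl
  · have h' : ¬ K.Adj (γ • y) (γ • z) := by
      intro h1
      apply h
      have h2 := K.adj_smul h1 γ⁻¹
      rwa [inv_smul_smul, inv_smul_smul] at h2
    unfold LData.ff
    rw [L.tauE_of_not h, L.tauE_of_not h', map_zero, map_zero, map_zero, map_zero]

theorem LData.ff_anti
    (hedge : ∀ y z : V, K.Adj y z →
      ∀ a : KOne (MonoidAlgebra R ↥(MulAction.stabilizer Γ y ⊓ MulAction.stabilizer Γ z)),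
        β y (KOne.map (inc R (Subgroup.inclusion inf_le_left)) a) =
          β z (KOne.map (inc R (Subgroup.inclusion inf_le_right)) a))
    {y z : V} (h : K.Adj y z) : L.ff β y z + L.ff β z y = 0 := by
  have h1 := L.tau_antisymm h (L.tauE_spec h) (L.tauE_spec (K.symm h))
  unfold LData.ff
  rw [hedge y z h, h1, map_neg, map_neg, map_inc_map_inc]
  rw [← sub_eq_add_neg, sub_eq_zero]
  rfl

end

section

variable {R : Type u} [Ring R] {Γ : Type v} [Group Γ] {V : Type w} [MulAction Γ V]
  {p : Type*} [Fintype p] [DecidableEq p] {K : CutSys Γ V} (L : LData R K p)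

theorem LData.tau_empty {C : Type*} (H : Subgroup Γ) (col : V → C) :
    L.Tau H col (col ⁻¹' ∅) (0 : KOne (MonoidAlgebra R H)) :=
  L.tau_of_pres fun _ _ _ _ h => absurd h (Set.notMem_empty _)

/-- The finitely many edges at a vertex. -/
theorem LData.tau_sum (x : V) (Z : Finset V) (hZ1 : ∀ z ∈ Z, K.Adj x z)
    (hZ2 : ∀ z ∈ Z, ∀ z' ∈ Z, ∀ h ∈ MulAction.stabilizer Γ x, h • z = z' → z = z') :
    ∀ S ⊆ Z, L.Tau (MulAction.stabilizer Γ x) (K.c x)
      (K.c x ⁻¹' {u | ∃ z ∈ S, ∃ h ∈ MulAction.stabilizer Γ x, u = h • z})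
      (∑ z ∈ S, KOne.map (inc R (Subgroup.inclusion inf_le_left)) (L.tauE x z)) := by
  classical
  intro S
  induction S using Finset.induction_on with
  | empty =>
    intro _
    have h : {u : V | ∃ z ∈ (∅ : Finset V), ∃ h ∈ MulAction.stabilizer Γ x, u = h • z} = ∅ := by
      ext u
      simp
    rw [h, Finset.sum_empty]
    exact L.tau_empty _ _
  | insert z S hz ih =>
    intro hS
    have hzZ : z ∈ Z := hS (Finset.mem_insert_self z S)
    have hSZ : S ⊆ Z := fun a ha => hS (Finset.mem_insert_of_mem ha)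
    rw [Finset.sum_insert hz]
    have h1 := L.tau_ind (hZ1 z hzZ) (L.tauE_spec (hZ1 z hzZ))
    have h2 : K.sideO x z = K.c x ⁻¹' {u | ∃ h ∈ MulAction.stabilizer Γ x, u = h • z} := rfl
    rw [h2] at h1
    have hd : Disjoint {u : V | ∃ h ∈ MulAction.stabilizer Γ x, u = h • z}
        {u | ∃ z ∈ S, ∃ h ∈ MulAction.stabilizer Γ x, u = h • z} := by
      rw [Set.disjoint_left]
      rintro u ⟨h, hh, rfl⟩ ⟨z', hz', h', hh', he⟩
      apply hz
      have h3 : (h'⁻¹ * h) • z = z' := by rw [mul_smul, he, inv_smul_smul]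
      rw [hZ2 z hzZ z' (hSZ hz') _ (Subgroup.mul_mem _ (Subgroup.inv_mem _ hh') hh) h3]
      exact hz'
    have h3 := L.tau_union hd h1 (ih hSZ)
    have h4 : {u : V | ∃ h ∈ MulAction.stabilizer Γ x, u = h • z} ∪
        {u | ∃ z ∈ S, ∃ h ∈ MulAction.stabilizer Γ x, u = h • z} =
        {u | ∃ z' ∈ insert z S, ∃ h ∈ MulAction.stabilizer Γ x, u = h • z'} := by
      ext u
      simp only [Set.mem_union, Set.mem_setOf_eq, Finset.mem_insert]
      constructor
      · rintro (h | ⟨z', hz', h⟩)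
        · exact ⟨z, Or.inl rfl, h⟩
        · exact ⟨z', Or.inr hz', h⟩
      · rintro ⟨z', rfl | hz', h⟩
        · exact Or.inl h
        · exact Or.inr ⟨z', hz', h⟩
    rw [h4] at h3
    exact h3

/-- The relation at a vertex. -/
theorem LData.vertex_rel (x : V) {κ : KOne (MonoidAlgebra R (MulAction.stabilizer Γ x))}
    (h : FC (inc R (MulAction.stabilizer Γ x).subtype)
      (RS (fun m : p → MonoidAlgebra R Γ => m ᵥ* L.W) (resP L.v {x})) κ) (Z : Finset V)
    (hZ1 : ∀ z ∈ Z, K.Adj x z)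
    (hZ2 : ∀ z ∈ Z, ∀ z' ∈ Z, ∀ h ∈ MulAction.stabilizer Γ x, h • z = z' → z = z')
    (hZ3 : L.Tau (MulAction.stabilizer Γ x) (K.c x) {w | w ≠ x ∧ ∀ z ∈ Z, w ∉ K.sideO x z} 0) :
    κ + ∑ z ∈ Z, KOne.map (inc R (Subgroup.inclusion inf_le_left)) (L.tauE x z) = 0 := by
  have h1 := L.tau_base x h
  have e1 : ({x} : Set V) = K.c x ⁻¹' {x} := by
    ext w
    simp [K.c_eq_self_iff]
  rw [e1] at h1
  have h2 := L.tau_sum x Z hZ1 hZ2 Z (Finset.Subset.refl Z)
  have e3 : {w | w ≠ x ∧ ∀ z ∈ Z, w ∉ K.sideO x z} = K.c x ⁻¹' {u | u ≠ x ∧ ∀ z ∈ Z,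
      ¬ ∃ h ∈ MulAction.stabilizer Γ x, u = h • z} := by
    ext w
    simp only [Set.mem_setOf_eq, Set.mem_preimage, CutSys.sideO, ne_eq, K.c_eq_self_iff]
  rw [e3] at hZ3
  have hx : ∀ z ∈ Z, ∀ h ∈ MulAction.stabilizer Γ x, x ≠ h • z := by
    intro z hz h hh he
    have h3 : h⁻¹ • x = z := by rw [he, inv_smul_smul]
    have h4 : h⁻¹ • x = x := MulAction.mem_stabilizer_iff.1 (Subgroup.inv_mem _ hh)
    exact (hZ1 z hz).2 (h4.symm.trans h3)
  have hd1 : Disjoint ({x} : Set V) {u | ∃ z ∈ Z, ∃ h ∈ MulAction.stabilizer Γ x, u = h • z} := by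
    rw [Set.disjoint_left]
    rintro u hu ⟨z, hz, g, hg, he⟩
    rw [Set.mem_singleton_iff] at hu
    rw [hu] at he
    exact hx z hz g hg he
  have h3 := L.tau_union hd1 h1 h2
  have hd2 : Disjoint (({x} : Set V) ∪ {u | ∃ z ∈ Z, ∃ h ∈ MulAction.stabilizer Γ x, u = h • z})
      {u | u ≠ x ∧ ∀ z ∈ Z, ¬ ∃ h ∈ MulAction.stabilizer Γ x, u = h • z} := by
    rw [Set.disjoint_left]
    rintro u (hu | ⟨z, hz, h⟩) ⟨h5, h6⟩
    · exact h5 hu
    · exact h6 z hz h
  have h4 := L.tau_union hd2 h3 hZ3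
  have e4 : (({x} : Set V) ∪ {u | ∃ z ∈ Z, ∃ h ∈ MulAction.stabilizer Γ x, u = h • z}) ∪
      {u | u ≠ x ∧ ∀ z ∈ Z, ¬ ∃ h ∈ MulAction.stabilizer Γ x, u = h • z} = Set.univ := by
    ext u
    simp only [Set.mem_union, Set.mem_singleton_iff, Set.mem_setOf_eq, Set.mem_univ, iff_true]
    by_cases h5 : u = x
    · exact Or.inl (Or.inl h5)
    · by_cases h6 : ∃ z ∈ Z, ∃ h ∈ MulAction.stabilizer Γ x, u = h • z
      · exact Or.inl (Or.inr h6)
      · exact Or.inr ⟨h5, fun z hz h7 => h6 ⟨z, hz, h7⟩⟩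
  rw [e4, Set.preimage_univ] at h4
  have h5 := L.tau_unique h4 (L.tau_univ (K.pres_c x) (K.finCut_c x))
  rwa [add_zero] at h5

end

section

variable {R : Type u} [Ring R] {Γ : Type v} [Group Γ] {V : Type w} [MulAction Γ V]

theorem graded_aux {n k : ℕ} (y : Fin n → V)
    (A : ∀ i, Matrix (Fin k) (Fin k) (MonoidAlgebra R (MulAction.stabilizer Γ (y i))))
    {q : Type} [Fintype q] [DecidableEq q] {p : Type} [Fintype p] [DecidableEq p]
    (σ : (Fin k × Fin n) ⊕ q ≃ p) (v : p → V) (y0 : V)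
    (hv : ∀ a, v a = Sum.elim (fun b : Fin k × Fin n => y b.2) (fun _ => y0) (σ.symm a))
    (i j : p) (g : Γ)
    (h : (((fromBlocks (blkM y A) 0 0 (1 : Matrix q q (MonoidAlgebra R Γ))).submatrix
      σ.symm σ.symm) i j).coeff g ≠ 0) : g • v j = v i := by
  rw [hv, hv]
  rw [Matrix.submatrix_apply] at h
  rcases hi : σ.symm i with a | a <;> rcases hj : σ.symm j with b | b
  · rw [hi, hj, fromBlocks_apply₁₁] at h
    exact blkM_graded y A a b g h
  · rw [hi, hj, fromBlocks_apply₁₂] at h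
    exact absurd rfl h
  · rw [hi, hj, fromBlocks_apply₂₁] at h
    exact absurd rfl h
  · rw [hi, hj, fromBlocks_apply₂₂] at h
    by_cases hab : a = b
    · subst hab
      rw [Matrix.one_apply_eq, MonoidAlgebra.one_def, MonoidAlgebra.coeff_single] at h
      have hg : g = 1 := by
        by_contra hg
        exact h (Finsupp.single_eq_of_ne hg)
      subst hg
      exact one_smul _ _
    · rw [Matrix.one_apply_ne hab] at h
      exact absurd rfl h

theorem coe_block {n k : ℕ} (y : Fin n → V)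
    (A : ∀ i, (Matrix (Fin k) (Fin k) (MonoidAlgebra R (MulAction.stabilizer Γ (y i))))ˣ)
    {q : Type} [Fintype q] [DecidableEq q] {p : Type} [Fintype p] [DecidableEq p]
    (σ : (Fin k × Fin n) ⊕ q ≃ p) :
    ((rU σ (bl (blkU y A :) 1) : (Matrix p p (MonoidAlgebra R Γ))ˣ) :
      Matrix p p (MonoidAlgebra R Γ)) =
      (fromBlocks (blkM y fun i => (A i : Matrix (Fin k) (Fin k) _)) 0 0
        (1 : Matrix q q (MonoidAlgebra R Γ))).submatrix σ.symm σ.symm := by
  rw [coe_rU, coe_bl]
  rfl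

theorem blkU_inv {n k : ℕ} (y : Fin n → V)
    (A : ∀ i, (Matrix (Fin k) (Fin k) (MonoidAlgebra R (MulAction.stabilizer Γ (y i))))ˣ) :
    (blkU y A)⁻¹ = blkU y fun i => (A i)⁻¹ :=
  Units.ext rfl

theorem bl_one_inv {T : Type u} [Ring T] {m q : Type} [Fintype m] [DecidableEq m] [Fintype q]
    [DecidableEq q] (A : (Matrix m m T)ˣ) :
    (bl A (1 : (Matrix q q T)ˣ))⁻¹ = bl A⁻¹ 1 :=
  Units.ext rfl

theorem rU_inv' {T : Type u} [Ring T] {m q : Type} [Fintype m] [DecidableEq m] [Fintype q]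
    [DecidableEq q] (σ : m ≃ q) (A : (Matrix m m T)ˣ) :
    (rU σ A)⁻¹ = rU σ A⁻¹ :=
  Units.ext rfl

theorem block_inv {n k : ℕ} (y : Fin n → V)
    (A : ∀ i, (Matrix (Fin k) (Fin k) (MonoidAlgebra R (MulAction.stabilizer Γ (y i))))ˣ)
    {q : Type} [Fintype q] [DecidableEq q] {p : Type} [Fintype p] [DecidableEq p]
    (σ : (Fin k × Fin n) ⊕ q ≃ p) :
    (rU σ (bl (blkU y A :) (1 : (Matrix q q (MonoidAlgebra R Γ))ˣ)))⁻¹ =
      rU σ (bl (blkU y (fun i => (A i)⁻¹) :) 1) := by
  rw [rU_inv', bl_one_inv, blkU_inv]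

theorem exists_LData (K : CutSys Γ V) {n k q k' : ℕ} (y : Fin n → V) (y0 : V)
    (A : ∀ i, (Matrix (Fin k) (Fin k) (MonoidAlgebra R (MulAction.stabilizer Γ (y i))))ˣ)
    (σ : (Fin k × Fin n) ⊕ Fin q ≃ Fin k' ⊕ Fin k')
    (hσ : rU σ (bl (blkU y A :) (1 : (Matrix (Fin q) (Fin q) (MonoidAlgebra R Γ))ˣ)) ∈
      El (Fin k') (MonoidAlgebra R Γ)) :
    ∃ L : LData R K (Fin k' ⊕ Fin k'), (∀ a, L.v (σ (Sum.inl a)) = y a.2) ∧
      L.W = ((rU σ (bl (blkU y (fun i => (A i)⁻¹) :) 1) :
        (Matrix (Fin k' ⊕ Fin k') (Fin k' ⊕ Fin k') (MonoidAlgebra R Γ))ˣ) :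
          Matrix (Fin k' ⊕ Fin k') (Fin k' ⊕ Fin k') (MonoidAlgebra R Γ)) := by
  obtain ⟨l, hl, hlE⟩ := exists_list_oneS hσ
  have h1 := coe_block y A σ
  have h2 := coe_block y (fun i => (A i)⁻¹) σ
  have h3 := block_inv y A σ
  generalize hE : rU σ (bl (blkU y A :) (1 : (Matrix (Fin q) (Fin q) (MonoidAlgebra R Γ))ˣ)) = E
    at *
  generalize hF : rU σ (bl (blkU y (fun i => (A i)⁻¹) :)
    (1 : (Matrix (Fin q) (Fin q) (MonoidAlgebra R Γ))ˣ)) = F at *
  refine ⟨{ v := fun a => Sum.elim (fun b : Fin k × Fin n => y b.2) (fun _ => y0) (σ.symm a)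
            l := l
            W := F
            os := hl
            lW := ?_
            Wl := ?_
            gr := ?_
            grW := ?_ }, ?_, rfl⟩
  · rw [hlE, ← h3]
    exact E.mul_inv
  · rw [hlE, ← h3]
    exact E.inv_mul
  · intro i j g hg
    rw [hlE, h1] at hg
    exact graded_aux y _ σ _ y0 (fun _ => rfl) i j g hg
  · intro i j g hg
    rw [h2] at hg
    exact graded_aux y _ σ _ y0 (fun _ => rfl) i j g hg
  · intro a
    change Sum.elim _ _ (σ.symm (σ (Sum.inl a))) = _
    rw [Equiv.symm_apply_apply]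
    rfl

/-- **Exactness at the vertices.** -/
theorem lemmaK (K : CutSys Γ V) {B : Type*} [AddCommGroup B]
    (β : ∀ x : V, KOne (MonoidAlgebra R (MulAction.stabilizer Γ x)) →+ B)
    (hconj : ∀ (γ : Γ) (x : V) (a : KOne (MonoidAlgebra R (MulAction.stabilizer Γ x))),
      β (γ • x) (KOne.map (inc R (conjStab Γ γ x)) a) = β x a)
    (hedge : ∀ y z : V, K.Adj y z →
      ∀ a : KOne (MonoidAlgebra R ↥(MulAction.stabilizer Γ y ⊓ MulAction.stabilizer Γ z)),
        β y (KOne.map (inc R (Subgroup.inclusion inf_le_left)) a) =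
          β z (KOne.map (inc R (Subgroup.inclusion inf_le_right)) a))
    {n : ℕ} (y : Fin n → V)
    (x : ∀ i, KOne (MonoidAlgebra R (MulAction.stabilizer Γ (y i))))
    (h : ∑ i, KOne.map (inc R (MulAction.stabilizer Γ (y i)).subtype) (x i) = 0) :
    ∑ i, β (y i) (x i) = 0 := by
  classical
  rcases n with _ | n
  · exact Finset.sum_eq_zero fun i => i.elim0
  obtain ⟨k, A, hA⟩ := exists_common_size x
  have h1 : k1 (blkU y A :) = 0 := by
    rw [k1_blkU, ← h]
    refine Finset.sum_congr rfl fun i _ => ?_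
    rw [hA]
  obtain ⟨q, k', σ, hσ⟩ := exists_el2 (blkU y A :) h1
  obtain ⟨L, hLv, hLW⟩ := exists_LData K y (y 0) A σ hσ
  obtain ⟨Q, hQ⟩ := L.tau_finite
  refine orbit_sum (Γ := Γ) K.Adj (L.ff β) Q y (fun i => β (y i) (x i))
    (fun γ y z h => K.adj_smul h γ) (fun y z h => K.symm h)
    (fun γ y z h => K.noinv γ y z h.1 h.2) (fun γ y z => L.ff_smul β hconj γ y z) ?_
    (fun y z h => L.ff_anti β hedge h) ?_ ?_
  · intro y z hyz
    unfold LData.ff
    rw [L.tauE_of_not hyz, map_zero, map_zero]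
  · intro y z hyz
    by_contra hne
    push Not at hne
    apply hyz
    unfold LData.ff
    by_cases hadj : K.Adj y z
    · rw [L.tauE_eq hadj (hQ y z hadj hne), map_zero, map_zero]
    · rw [L.tauE_of_not hadj, map_zero, map_zero]
  · intro z
    obtain ⟨Z, hZ1, hZ2, hZ3, hZ4⟩ := L.tau_finite_at z
    refine ⟨Z, hZ1, hZ2, ?_, ?_⟩
    · intro z' hz'
      by_contra hne
      push Not at hne
      apply hz'
      unfold LData.ff
      by_cases hadj : K.Adj z z'
      · rw [L.tauE_eq hadj (hZ4 z' hadj hne), map_zero, map_zero]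
      · rw [L.tauE_of_not hadj, map_zero, map_zero]
    · obtain ⟨κ, hκ, hβκ⟩ := exists_fc_block y (fun i => (A i)⁻¹) σ L.v hLv z β hconj
      rw [← hLW] at hκ
      have h2 := congrArg (β z) (L.vertex_rel z hκ Z hZ1 hZ2 hZ3)
      rw [map_add, map_zero, hβκ, map_sum] at h2
      have h3 : (∑ i, if (∃ γ : Γ, γ • y i = z) then β (y i) (k1 (A i)⁻¹) else 0) =
          - ∑ i, if (∃ γ : Γ, γ • y i = z) then β (y i) (x i) else 0 := by
        rw [← Finset.sum_neg_distrib]
        refine Finset.sum_congr rfl fun i _ => ?_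
        split_ifs
        · rw [k1_inv, map_neg, hA]
        · rw [neg_zero]
      rw [h3, neg_add_eq_zero] at h2
      exact h2

end

end Pool.Agent.Lib.MP_c052b4_al.LK
end
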