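import Pool.Agent.Lib.MP_c052b4_al.FinOne
import Pool.Agent.Lib.MP_c052b4_al.TR.Inj
import Pool.Agent.Lib.MP_c052b4_al.Mg.G075
import Pool.Agent.Lib.MP_c052b4_al.Mg.G083
import Pool.Agent.Lib.MP_c052b4_al.Mg.G090
import Pool.Agent.Lib.MP_c052b4_al.Mg.G091

section

/-!
# The assembly map `K₁(R) ⊕ G_ab ⊗ K₀(R) → K₁(R[G])`
-/

set_option autoImplicit false
set_option linter.unusedSectionVars false

namespace Pool.Agent.Lib.MP_c052b4_al

open Matrix TensorProduct Bdry

universe u v w w'

section Defs

variable (R : Type u) [Ring R] (G : Type v) [Group G] (B : Type v) [CommGroup B]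

/-- `tauG` as a homomorphism in the group element. -/
noncomputable def tauHom : G →* Multiplicative (KZero R →+ KOne (MonoidAlgebra R G)) where
  toFun g := Multiplicative.ofAdd (tauG R g)
  map_one' := by rw [tauG_one]; rfl
  map_mul' g h := by rw [tauG_mul]; rfl

/-- The bilinear map `G_ab × K₀(R) → K₁(R[G])`. -/
noncomputable def tauAb : Additive (Abelianization G) →+ (KZero R →+ KOne (MonoidAlgebra R G)) :=
  MonoidHom.toAdditiveLeft (Abelianization.lift (tauHom R G))

theorem tauAb_of (g : G) : tauAb R G (Additive.ofMul (Abelianization.of g)) = tauG R g := by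
  change Multiplicative.toAdd (Abelianization.lift (tauHom R G) (Abelianization.of g)) = _
  rw [Abelianization.lift_apply_of]
  rfl

/-- The bilinear map `B × K₀(R) → K₁(R[B])` for abelian groups. -/
noncomputable def tauCm : Additive B →+ (KZero R →+ KOne (MonoidAlgebra R B)) :=
  MonoidHom.toAdditiveLeft (tauHom R B)

theorem tauCm_of (b : B) : tauCm R B (Additive.ofMul b) = tauG R b := rfl

/-- `G_ab ⊗ K₀(R) → K₁(R[G])`. -/
noncomputable def tens : Additive (Abelianization G) ⊗[ℤ] KZero R →+ KOne (MonoidAlgebra R G) :=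
  TensorProduct.liftAddHom (tauAb R G) (fun r m n => by
    rw [map_zsmul, AddMonoidHom.zsmul_apply, map_zsmul])

/-- `B ⊗ K₀(R) → K₁(R[B])` for abelian groups `B`. -/
noncomputable def tensC : Additive B ⊗[ℤ] KZero R →+ KOne (MonoidAlgebra R B) :=
  TensorProduct.liftAddHom (tauCm R B) (fun r m n => by
    rw [map_zsmul, AddMonoidHom.zsmul_apply, map_zsmul])

theorem tens_tmul (a : Additive (Abelianization G)) (k : KZero R) :
    tens R G (a ⊗ₜ k) = tauAb R G a k := rfl

theorem tensC_tmul (a : Additive B) (k : KZero R) :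
    tensC R B (a ⊗ₜ k) = tauG R a.toMul k := rfl

end Defs

section Nat

variable {R : Type u} [Ring R] {G : Type v} [Group G] {B : Type v} [CommGroup B]
  {C : Type w} [CommGroup C]

theorem map_of_tens (z : Additive (Abelianization G) ⊗[ℤ] KZero R) :
    KOne.map (inc R (Abelianization.of : G →* Abelianization G)) (tens R G z) =
      tensC R (Abelianization G) z := by
  induction z with
  | zero => rw [map_zero, map_zero, map_zero]
  | add x y hx hy => rw [map_add, map_add, map_add, hx, hy]
  | tmul a k =>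
    obtain ⟨g, rfl⟩ : ∃ g : G, Additive.ofMul (Abelianization.of g) = a := by
      obtain ⟨g, hg⟩ := QuotientGroup.mk_surjective a.toMul
      exact ⟨g, congrArg Additive.ofMul hg⟩
    rw [tens_tmul, tauAb_of, map_tauG, tensC_tmul]
    rfl

theorem map_tensC (f : B →* C) (z : Additive B ⊗[ℤ] KZero R) :
    KOne.map (inc R f) (tensC R B z) =
      tensC R C ((AddMonoidHom.toIntLinearMap (MonoidHom.toAdditive f)).rTensor (KZero R) z) := by
  induction z with
  | zero => rw [map_zero, map_zero, map_zero, map_zero]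
  | add x y hx hy => rw [map_add, map_add, map_add, map_add, hx, hy]
  | tmul a k =>
    rw [tensC_tmul, map_tauG, LinearMap.rTensor_tmul, tensC_tmul]
    rfl

theorem del_tensC (z : Additive (Multiplicative ℤ) ⊗[ℤ] KZero R) :
    del R (tensC R (Multiplicative ℤ) z) =
      TensorProduct.lid ℤ (KZero R) ((AddMonoidHom.toIntLinearMap
        ((AddEquiv.additiveMultiplicative ℤ : Additive (Multiplicative ℤ) ≃+ ℤ) :
          Additive (Multiplicative ℤ) →+ ℤ)).rTensor (KZero R) z) := by
  induction z with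
  | zero => rw [map_zero, map_zero, map_zero, map_zero]
  | add x y hx hy => rw [map_add, map_add, map_add, map_add, hx, hy]
  | tmul a k =>
    rw [tensC_tmul, LinearMap.rTensor_tmul, TensorProduct.lid_tmul]
    have h : a.toMul = (Multiplicative.ofAdd (1 : ℤ)) ^ (Multiplicative.toAdd a.toMul) := by
      rw [← ofAdd_zsmul, smul_eq_mul, mul_one]
      rfl
    rw [h, tauG_zpow, AddMonoidHom.zsmul_apply, map_zsmul, del_tauG]
    rfl

end Nat

section Free

variable {R : Type u} [Ring R] {B : Type v} [CommGroup B]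

/-- `B ⊗ K₀(R) → K₁(R[B])` is injective for finitely generated torsionfree abelian groups. -/
theorem tensC_injective_of_free [Module.Free ℤ (Additive B)] [Module.Finite ℤ (Additive B)]
    (z : Additive B ⊗[ℤ] KZero R) (hz : tensC R B z = 0) : z = 0 := by
  classical
  let b := Module.Free.chooseBasis ℤ (Additive B)
  have key : ∀ i, TensorProduct.lid ℤ (KZero R) ((b.coord i).rTensor (KZero R) z) = 0 := by
    intro i
    let f : B →* Multiplicative ℤ :=
      AddMonoidHom.toMultiplicativeRight ((b.coord i).toAddMonoidHom)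
    have h1 := map_tensC (R := R) f z
    rw [hz, map_zero] at h1
    have h2 := congrArg (del R) h1
    rw [map_zero, del_tensC] at h2
    rw [← LinearMap.comp_apply, ← LinearMap.rTensor_comp] at h2
    have h3 : (AddMonoidHom.toIntLinearMap
        ((AddEquiv.additiveMultiplicative ℤ : Additive (Multiplicative ℤ) ≃+ ℤ) :
          Additive (Multiplicative ℤ) →+ ℤ)) ∘ₗ (AddMonoidHom.toIntLinearMap
            (MonoidHom.toAdditive f)) = b.coord i := by
      apply LinearMap.ext
      intro x
      rfl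
    rw [h3] at h2
    exact h2.symm
  have h4 : (TensorProduct.equivFinsuppOfBasisLeft b (N := KZero R)) z = 0 := by
    ext i
    have h5 := key i
    rw [Finsupp.zero_apply, ← h5]
    clear h5 key hz
    induction z with
    | zero => simp
    | add x y hx hy => simp only [map_add, Finsupp.add_apply, hx, hy]
    | tmul a k => simp
  exact (LinearEquiv.map_eq_zero_iff _).1 h4

end Free

section Stage

variable {R : Type u} [Ring R] {G : Type v} [Group G]

theorem exists_mat_sub {n : Type*} [Fintype n] (X : Matrix n n (MonoidAlgebra R G)) :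
    ∃ T : Set G, T.Finite ∧ ∀ K : Subgroup G, T ⊆ K → ∃ X' : Matrix n n (MonoidAlgebra R K),
      X'.map (inc R K.subtype) = X := by
  classical
  refine ⟨⋃ i, ⋃ j, ((X i j).coeff.support : Set G),
    Set.finite_iUnion fun i => Set.finite_iUnion fun j => Finset.finite_toSet _, fun K hT => ?_⟩
  refine ⟨Matrix.of fun i j => rs R K.subtype K.subtype_injective (X i j), ?_⟩
  ext1 i j
  refine inc_rs_of_support K (X i j) fun g hg => hT ?_
  simp only [Set.mem_iUnion]
  exact ⟨i, j, Finsupp.mem_support_iff.2 hg⟩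

theorem exists_el_sub {n : Type*} [Fintype n] [DecidableEq n]
    {E : (Matrix (n ⊕ n) (n ⊕ n) (MonoidAlgebra R G))ˣ} (hE : E ∈ El n _) :
    ∃ T : Set G, T.Finite ∧ ∀ K : Subgroup G, T ⊆ K → ∃ E' ∈ El n (MonoidAlgebra R K),
      mU (inc R K.subtype) E' = E := by
  induction hE using Subgroup.closure_induction with
  | mem U hU =>
    rcases hU with ⟨X, rfl⟩ | ⟨X, rfl⟩
    · obtain ⟨T, hT, h⟩ := exists_mat_sub X
      refine ⟨T, hT, fun K hK => ?_⟩
      obtain ⟨X', hX'⟩ := h K hK
      exact ⟨uU X', uU_mem _, by rw [mU_uU, hX']⟩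
    · obtain ⟨T, hT, h⟩ := exists_mat_sub X
      refine ⟨T, hT, fun K hK => ?_⟩
      obtain ⟨X', hX'⟩ := h K hK
      exact ⟨lU X', lU_mem _, by rw [mU_lU, hX']⟩
  | one => exact ⟨∅, Set.finite_empty, fun K _ => ⟨1, Subgroup.one_mem _, map_one _⟩⟩
  | mul A B _ _ hA hB =>
    obtain ⟨T, hT, hA⟩ := hA
    obtain ⟨T', hT', hB⟩ := hB
    refine ⟨T ∪ T', hT.union hT', fun K hK => ?_⟩
    obtain ⟨A', hA', hA''⟩ := hA K (Set.subset_union_left.trans hK)
    obtain ⟨B', hB', hB''⟩ := hB K (Set.subset_union_right.trans hK)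
    exact ⟨A' * B', Subgroup.mul_mem _ hA' hB', by rw [map_mul, hA'', hB'']⟩
  | inv A _ hA =>
    obtain ⟨T, hT, hA⟩ := hA
    refine ⟨T, hT, fun K hK => ?_⟩
    obtain ⟨A', hA', hA''⟩ := hA K hK
    exact ⟨A'⁻¹, Subgroup.inv_mem _ hA', by rw [map_inv, hA'']⟩

theorem exists_sub_zero {H : Type w} [Group H] (f : H →* G) (w : KOne (MonoidAlgebra R H))
    (hw : KOne.map (inc R f) w = 0) :
    ∃ T : Set G, T.Finite ∧ ∀ (K : Subgroup G) (f' : H →* K), K.subtype.comp f' = f → T ⊆ K →
      KOne.map (inc R f') w = 0 := by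
  obtain ⟨m, A, rfl⟩ := exists_k1 w
  obtain ⟨q, B, hBA, hB⟩ := exists_el (inc R f) A hw
  obtain ⟨T, hT, h⟩ := exists_el_sub hB
  refine ⟨T, hT, fun K f' hf' hK => ?_⟩
  obtain ⟨E', hE', hE''⟩ := h K hK
  have h1 : mU (inc R f') B = E' := by
    have hinj : Function.Injective (inc R K.subtype) :=
      MonoidAlgebra.mapDomain_injective K.subtype_injective
    have h2 : mU (inc R K.subtype) (mU (inc R f') B) = mU (inc R K.subtype) E' := by
      rw [hE'']
      apply Units.ext
      rw [coe_mU, coe_mU, coe_mU, Matrix.map_map]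
      have h3 := MonoidAlgebra.mapDomainRingHom_comp (R := R) K.subtype f'
      rw [hf'] at h3
      congr 1
      funext s
      exact (RingHom.congr_fun h3 s).symm
    apply Units.ext
    have h3 := congrArg Units.val h2
    rw [coe_mU, coe_mU] at h3
    exact Matrix.map_injective hinj h3
  rw [← hBA, KOne.map_k1, h1]
  exact k1_of_el hE'

end Stage

section Torsionfree

variable {R : Type u} [Ring R] {C : Type v} [CommGroup C]

theorem exists_tensor_sub {N : Type w} [AddCommGroup N] (z : Additive C ⊗[ℤ] N) :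
    ∃ T : Set C, T.Finite ∧ ∀ K : Subgroup C, T ⊆ K → ∃ z' : Additive K ⊗[ℤ] N,
      (AddMonoidHom.toIntLinearMap (MonoidHom.toAdditive K.subtype)).rTensor N z' = z := by
  induction z with
  | zero => exact ⟨∅, Set.finite_empty, fun K _ => ⟨0, map_zero _⟩⟩
  | add x y hx hy =>
    obtain ⟨T, hT, hx⟩ := hx
    obtain ⟨T', hT', hy⟩ := hy
    refine ⟨T ∪ T', hT.union hT', fun K hK => ?_⟩
    obtain ⟨x', rfl⟩ := hx K (Set.subset_union_left.trans hK)
    obtain ⟨y', rfl⟩ := hy K (Set.subset_union_right.trans hK)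
    exact ⟨x' + y', map_add _ _ _⟩
  | tmul a k =>
    refine ⟨{a.toMul}, Set.finite_singleton _, fun K hK => ?_⟩
    exact ⟨(Additive.ofMul (⟨a.toMul, hK rfl⟩ : K)) ⊗ₜ k, rfl⟩

/-- `C ⊗ K₀(R) → K₁(R[C])` is injective for torsionfree abelian groups. -/
theorem tensC_injective (htf : ∀ (c : C) (n : ℕ), 0 < n → c ^ n = 1 → c = 1)
    (z : Additive C ⊗[ℤ] KZero R) (hz : tensC R C z = 0) : z = 0 := by
  obtain ⟨T0, hT0, h0⟩ := exists_tensor_sub z
  obtain ⟨z0, hz0⟩ := h0 (Subgroup.closure T0) Subgroup.subset_closure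
  have h1 : KOne.map (inc R (Subgroup.closure T0).subtype) (tensC R (Subgroup.closure T0) z0) = 0 := by
    rw [map_tensC, hz0, hz]
  obtain ⟨T, hT, h⟩ := exists_sub_zero _ _ h1
  let K : Subgroup C := Subgroup.closure (T0 ∪ T)
  have hK0 : Subgroup.closure T0 ≤ K := Subgroup.closure_mono Set.subset_union_left
  have h2 := h K (Subgroup.inclusion hK0) rfl
    (Set.subset_union_right.trans Subgroup.subset_closure)
  rw [map_tensC] at h2
  have hfg : Group.FG K := by
    rw [Group.fg_iff_subgroup_fg, Subgroup.fg_iff]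
    exact ⟨T0 ∪ T, rfl, hT0.union hT⟩
  have hfin : Module.Finite ℤ (Additive K) := by
    rw [Module.Finite.iff_addGroup_fg]
    exact GroupFG.iff_add_fg.1 hfg
  have htf' : Module.IsTorsionFree ℤ (Additive K) := by
    refine ⟨fun r hr x y hxy => ?_⟩
    have hr0 : r ≠ 0 := hr.ne_zero
    have h1 : r • (x - y) = 0 := by
      rw [smul_sub, sub_eq_zero]
      exact hxy
    have h2 : r.natAbs • (x - y) = 0 := by
      rcases Int.natAbs_eq r with h | h
      · rw [h, natCast_zsmul] at h1
        exact h1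
      · rw [h, neg_smul, neg_eq_zero, natCast_zsmul] at h1
        exact h1
    have h3 : (((x - y).toMul : K) : C) ^ r.natAbs = 1 := by
      have h4 : ((x - y).toMul : K) ^ r.natAbs = 1 := h2
      exact_mod_cast congrArg Subtype.val h4
    have h5 := htf _ _ (Int.natAbs_pos.2 hr0) h3
    have h6 : ((x - y).toMul : K) = 1 := Subtype.ext h5
    exact sub_eq_zero.1 h6
  have hfree : Module.Free ℤ (Additive K) := inferInstance
  have h3 := tensC_injective_of_free _ h2
  rw [← hz0]
  have h4 : (AddMonoidHom.toIntLinearMap (MonoidHom.toAdditive K.subtype)) ∘ₗ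
      (AddMonoidHom.toIntLinearMap (MonoidHom.toAdditive (Subgroup.inclusion hK0))) =
      AddMonoidHom.toIntLinearMap (MonoidHom.toAdditive (Subgroup.closure T0).subtype) := rfl
  rw [← h4, LinearMap.rTensor_comp, LinearMap.comp_apply, h3, map_zero]

end Torsionfree

section Main

variable {R : Type u} [Ring R] {G : Type v} [Group G]

/-- The kernel of `G_ab ⊗ K₀(R) → K₁(R[G])` is contained in the image of the torsion part. -/
theorem tens_ker (z : Additive (Abelianization G) ⊗[ℤ] KZero R) (hz : tens R G z = 0) :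
    z ∈ AddSubgroup.closure {y | ∃ (a : Additive (Abelianization G)) (n : ℕ) (k : KZero R),
      0 < n ∧ n • a = 0 ∧ y = a ⊗ₜ[ℤ] k} := by
  let B := Abelianization G
  have h0 : tensC R B z = 0 := by rw [← map_of_tens, hz, map_zero]
  let T : Subgroup B := CommGroup.torsion B
  let π : B →* B ⧸ T := QuotientGroup.mk' T
  have h1 : tensC R (B ⧸ T) ((AddMonoidHom.toIntLinearMap (MonoidHom.toAdditive π)).rTensor _ z) =
      0 := by
    rw [← map_tensC, h0, map_zero]
  have htf : ∀ (c : B ⧸ T) (n : ℕ), 0 < n → c ^ n = 1 → c = 1 := by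
    intro c n hn hc
    obtain ⟨b, rfl⟩ := QuotientGroup.mk_surjective c
    rw [← QuotientGroup.mk_pow, QuotientGroup.eq_one_iff] at hc
    rw [QuotientGroup.eq_one_iff]
    obtain ⟨m, hm, hm'⟩ := (isOfFinOrder_iff_pow_eq_one.1 hc)
    refine isOfFinOrder_iff_pow_eq_one.2 ⟨n * m, Nat.mul_pos hn hm, ?_⟩
    rw [pow_mul]
    exact hm'
  have h2 := tensC_injective htf _ h1
  have hex : Function.Exact (AddMonoidHom.toIntLinearMap (MonoidHom.toAdditive T.subtype))
      (AddMonoidHom.toIntLinearMap (MonoidHom.toAdditive π)) := by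
    intro x
    constructor
    · intro hx
      have hx' : (x.toMul : B) ∈ T := by
        rw [← QuotientGroup.eq_one_iff]
        exact hx
      exact ⟨Additive.ofMul ⟨x.toMul, hx'⟩, rfl⟩
    · rintro ⟨y, rfl⟩
      let t : T := y.toMul
      have ht : ((t : B) : B ⧸ T) = 1 := (QuotientGroup.eq_one_iff (t : B)).2 t.2
      exact ht
  have hsurj : Function.Surjective (AddMonoidHom.toIntLinearMap (MonoidHom.toAdditive π)) :=
    fun x => by
      obtain ⟨b, hb⟩ := QuotientGroup.mk_surjective x.toMul
      exact ⟨Additive.ofMul b, congrArg Additive.ofMul hb⟩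
  have h3 := (rTensor_exact (KZero R) hex hsurj) z
  obtain ⟨y, rfl⟩ := h3.1 h2
  clear h0 h1 h2 h3 hz
  induction y with
  | zero => rw [map_zero]; exact AddSubgroup.zero_mem _
  | add x y hx hy => rw [map_add]; exact AddSubgroup.add_mem _ hx hy
  | tmul a k =>
    apply AddSubgroup.subset_closure
    let t : T := a.toMul
    have ht : IsOfFinOrder (t : B) := t.2
    obtain ⟨m, hm, hm'⟩ := isOfFinOrder_iff_pow_eq_one.1 ht
    refine ⟨Additive.ofMul (t : B), m, k, hm, ?_, rfl⟩
    exact hm'

theorem aug_tauG (g : G) (k : KZero R) : KOne.map (augG R G) (tauG R g k) = 0 := by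
  have h : (KOne.map (augG R G)).comp (tauG R g) = 0 := by
    apply kZero_hom_ext
    intro p
    unfold tauG
    rw [AddMonoidHom.comp_apply, tau_cls, map_ks_te _ _ (gU_comm g) p.idem]
    have h1 : augG R G ((gU R g : (MonoidAlgebra R G)ˣ) : MonoidAlgebra R G) = 1 := augG_single _ _
    rw [h1, sub_self, AddMonoidHom.zero_apply]
    unfold ks
    rw [zero_smul, kk_zero]
  exact DFunLike.congr_fun h k

theorem aug_tens (z : Additive (Abelianization G) ⊗[ℤ] KZero R) :
    KOne.map (augG R G) (tens R G z) = 0 := by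
  induction z with
  | zero => rw [map_zero, map_zero]
  | add x y hx hy => rw [map_add, map_add, hx, hy, add_zero]
  | tmul a k =>
    obtain ⟨g, rfl⟩ : ∃ g : G, Additive.ofMul (Abelianization.of g) = a := by
      obtain ⟨g, hg⟩ := QuotientGroup.mk_surjective a.toMul
      exact ⟨g, congrArg Additive.ofMul hg⟩
    rw [tens_tmul, tauAb_of, aug_tauG]

theorem aug_cG (x : KOne R) : KOne.map (augG R G) (KOne.map (cG R G) x) = x := by
  rw [← KOne.map_comp]
  have h : (augG R G).comp (cG R G) = RingHom.id R := by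
    ext r
    exact augG_single _ _
  rw [h, KOne.map_id]

/-- The assembly map `K₁(R) ⊕ G_ab ⊗ K₀(R) → K₁(R[G])`. -/
noncomputable def asm (R : Type u) [Ring R] (G : Type v) [Group G] :
    KOne R × (Additive (Abelianization G) ⊗[ℤ] KZero R) →+ KOne (MonoidAlgebra R G) :=
  (KOne.map (cG R G)).coprod (tens R G)

theorem asm_ker (z : KOne R × (Additive (Abelianization G) ⊗[ℤ] KZero R)) (hz : asm R G z = 0) :
    z.1 = 0 ∧ z.2 ∈ AddSubgroup.closure {y | ∃ (a : Additive (Abelianization G)) (n : ℕ)
      (k : KZero R), 0 < n ∧ n • a = 0 ∧ y = a ⊗ₜ[ℤ] k} := by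
  obtain ⟨x, y⟩ := z
  have h0 : KOne.map (cG R G) x + tens R G y = 0 := hz
  have h1 : x = 0 := by
    have h2 := congrArg (KOne.map (augG R G)) h0
    rw [map_add, aug_cG, aug_tens, add_zero, map_zero] at h2
    exact h2
  subst h1
  rw [map_zero, zero_add] at h0
  exact ⟨rfl, tens_ker y h0⟩

theorem range_asm : (asm R G).range = imA1 R G := by
  apply le_antisymm
  · rintro _ ⟨⟨x, y⟩, rfl⟩
    refine AddSubgroup.add_mem _ (map_mem_imA1 x) ?_
    change tens R G y ∈ imA1 R G
    induction y with
    | zero => rw [map_zero]; exact AddSubgroup.zero_mem _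
    | add x y hx hy => rw [map_add]; exact AddSubgroup.add_mem _ hx hy
    | tmul a k =>
      obtain ⟨g, rfl⟩ : ∃ g : G, Additive.ofMul (Abelianization.of g) = a := by
        obtain ⟨g, hg⟩ := QuotientGroup.mk_surjective a.toMul
        exact ⟨g, congrArg Additive.ofMul hg⟩
      rw [tens_tmul, tauAb_of]
      exact tauG_mem_imA1 g k
  · refine imA1_le ?_ ?_
    · intro x
      refine ⟨(x, 0), ?_⟩
      change KOne.map (cG R G) x + tens R G 0 = _
      rw [map_zero, add_zero]
    · intro g k
      refine ⟨(0, Additive.ofMul (Abelianization.of g) ⊗ₜ k), ?_⟩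
      change KOne.map (cG R G) 0 + tens R G (Additive.ofMul (Abelianization.of g) ⊗ₜ k) = _
      rw [map_zero, zero_add, tens_tmul, tauAb_of]

end Main

end Pool.Agent.Lib.MP_c052b4_al
end

section

/-!
# Naturality of the assembly map in degree one
-/

set_option autoImplicit false
set_option linter.unusedSectionVars false

namespace Pool.Agent.Lib.MP_c052b4_al.LK

open Matrix TensorProduct

universe u v w w'

section

variable (R : Type u) [Ring R] {G : Type v} [Group G] {H : Type w} [Group H]

/-- The map `G_ab ⊗ K₀(R) → H_ab ⊗ K₀(R)`. -/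
noncomputable def tmap (f : G →* H) : Additive (Abelianization G) ⊗[ℤ] KZero R →+
    Additive (Abelianization H) ⊗[ℤ] KZero R :=
  ((AddMonoidHom.toIntLinearMap (MonoidHom.toAdditive (Abelianization.map f))).rTensor
    (KZero R)).toAddMonoidHom

variable {R}

theorem tmap_tmul (f : G →* H) (a : Additive (Abelianization G)) (k : KZero R) :
    tmap R f (a ⊗ₜ k) = (MonoidHom.toAdditive (Abelianization.map f) a) ⊗ₜ k := rfl

theorem tmap_of (f : G →* H) (g : G) (k : KZero R) :
    tmap R f (Additive.ofMul (Abelianization.of g) ⊗ₜ k) =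
      Additive.ofMul (Abelianization.of (f g)) ⊗ₜ k := rfl

theorem exists_of (a : Additive (Abelianization G)) :
    ∃ g : G, Additive.ofMul (Abelianization.of g) = a := by
  obtain ⟨g, hg⟩ := QuotientGroup.mk_surjective a.toMul
  exact ⟨g, congrArg Additive.ofMul hg⟩

/-- Additive maps agree if they agree on the elements `g ⊗ k`. -/
theorem tens_ext {A : Type*} [AddCommGroup A]
    {f f' : Additive (Abelianization G) ⊗[ℤ] KZero R →+ A}
    (h : ∀ (g : G) (k : KZero R), f (Additive.ofMul (Abelianization.of g) ⊗ₜ k) =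
      f' (Additive.ofMul (Abelianization.of g) ⊗ₜ k)) : f = f' := by
  ext z
  induction z with
  | zero => rw [map_zero, map_zero]
  | add x y hx hy => rw [map_add, map_add, hx, hy]
  | tmul a k =>
    obtain ⟨g, rfl⟩ := exists_of a
    exact h g k

theorem tens_of (g : G) (k : KZero R) :
    tens R G (Additive.ofMul (Abelianization.of g) ⊗ₜ k) = tauG R g k := by
  rw [tens_tmul, tauAb_of]

theorem tmap_tmap {J : Type w'} [Group J] (f : G →* H) (g : H →* J)
    (z : Additive (Abelianization G) ⊗[ℤ] KZero R) :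
    tmap R g (tmap R f z) = tmap R (g.comp f) z := by
  have h : (tmap R g).comp (tmap R f) = tmap R (g.comp f) := tens_ext fun g k => rfl
  exact DFunLike.congr_fun h z

theorem tmap_id (z : Additive (Abelianization G) ⊗[ℤ] KZero R) :
    tmap R (MonoidHom.id G) z = z := by
  have h : tmap R (MonoidHom.id G) = AddMonoidHom.id _ := tens_ext fun g k => rfl
  exact DFunLike.congr_fun h z

/-- Homomorphisms which agree up to conjugation. -/
theorem tmap_conj {f f' : G →* H} (c : H) (h : ∀ g, f' g = c * f g * c⁻¹)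
    (z : Additive (Abelianization G) ⊗[ℤ] KZero R) : tmap R f' z = tmap R f z := by
  have h : tmap R f' = tmap R f := tens_ext fun g k => by
    have h1 : (Abelianization.of (f' g) : Abelianization H) = Abelianization.of (f g) := by
      rw [h g, map_mul, map_mul, map_inv, mul_comm (Abelianization.of c), mul_inv_cancel_right]
    rw [tmap_of, tmap_of, h1]
  exact DFunLike.congr_fun h z

theorem map_tens (f : G →* H) (z : Additive (Abelianization G) ⊗[ℤ] KZero R) :
    KOne.map (inc R f) (tens R G z) = tens R H (tmap R f z) := by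
  have h : (KOne.map (inc R f)).comp (tens R G) = (tens R H).comp (tmap R f) :=
    tens_ext fun g k => by
      rw [AddMonoidHom.comp_apply, AddMonoidHom.comp_apply, tmap_of, tens_of, tens_of, map_tauG]
  exact DFunLike.congr_fun h z

theorem map_cG (f : G →* H) (x : KOne R) :
    KOne.map (inc R f) (KOne.map (cG R G) x) = KOne.map (cG R H) x := by
  rw [← KOne.map_comp]
  have h : (inc R f).comp (cG R G) = cG R H := by
    refine RingHom.ext fun r => ?_
    change MonoidAlgebra.mapDomain f (MonoidAlgebra.single 1 r) = MonoidAlgebra.single 1 r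
    rw [MonoidAlgebra.mapDomain_single, map_one]
  rw [h]

theorem map_asm (f : G →* H) (x : KOne R) (z : Additive (Abelianization G) ⊗[ℤ] KZero R) :
    KOne.map (inc R f) (asm R G (x, z)) = asm R H (x, tmap R f z) := by
  change KOne.map (inc R f) (KOne.map (cG R G) x + tens R G z) =
    KOne.map (cG R H) x + tens R H (tmap R f z)
  rw [map_add, map_cG, map_tens]

variable (R G) in
/-- The assembly map in degree one is injective. -/
def InjA : Prop := ∀ z : Additive (Abelianization G) ⊗[ℤ] KZero R, tens R G z = 0 → z = 0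

theorem InjA.asm_inj (h : InjA R G) {y y' : KOne R × (Additive (Abelianization G) ⊗[ℤ] KZero R)}
    (hy : asm R G y = asm R G y') : y = y' := by
  have h1 : asm R G (y - y') = 0 := by rw [map_sub, hy, sub_self]
  obtain ⟨h2, -⟩ := asm_ker _ h1
  have h3 : (y - y').2 = 0 := by
    apply h
    have h4 : KOne.map (cG R G) (y - y').1 + tens R G (y - y').2 = 0 := h1
    rwa [h2, map_zero, zero_add] at h4
  exact sub_eq_zero.1 (Prod.ext h2 h3)

theorem asm_surj (h : imA1 R G = ⊤) (x : KOne (MonoidAlgebra R G)) : ∃ y, asm R G y = x := by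
  have h1 : x ∈ (asm R G).range := by
    rw [range_asm, h]
    trivial
  exact h1

/-- The inverse of the assembly map. -/
noncomputable def asmInv (h : imA1 R G = ⊤) (hi : InjA R G) :
    KOne (MonoidAlgebra R G) →+ KOne R × (Additive (Abelianization G) ⊗[ℤ] KZero R) :=
  ((AddEquiv.ofBijective (asm R G) ⟨fun _ _ => hi.asm_inj, asm_surj h⟩).symm :
    KOne (MonoidAlgebra R G) →+ KOne R × (Additive (Abelianization G) ⊗[ℤ] KZero R))

theorem asmInv_asm (h : imA1 R G = ⊤) (hi : InjA R G)
    (y : KOne R × (Additive (Abelianization G) ⊗[ℤ] KZero R)) :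
    asmInv h hi (asm R G y) = y :=
  (AddEquiv.ofBijective (asm R G) ⟨fun _ _ => hi.asm_inj, asm_surj h⟩).symm_apply_apply y

/-- Isomorphic groups. -/
theorem InjA.of_equiv (e : G ≃* H) (h : InjA R G) : InjA R H := by
  intro z hz
  have h1 : tens R G (tmap R e.symm.toMonoidHom z) = 0 := by
    rw [← map_tens, hz, map_zero]
  have h2 := congrArg (tmap R e.toMonoidHom) (h _ h1)
  rw [tmap_tmap, map_zero] at h2
  have h3 : e.toMonoidHom.comp e.symm.toMonoidHom = MonoidHom.id H := by
    ext x
    exact e.apply_symm_apply x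
  rwa [h3, tmap_id] at h2

theorem InjA.of_subsingleton [Subsingleton G] : InjA R G := by
  intro z _
  have h : AddMonoidHom.id _ = (0 : Additive (Abelianization G) ⊗[ℤ] KZero R →+
      Additive (Abelianization G) ⊗[ℤ] KZero R) := tens_ext fun g k => by
    rw [Subsingleton.elim g 1, map_one, ofMul_one, TensorProduct.zero_tmul, map_zero, map_zero]
  exact DFunLike.congr_fun h z

/-- Abelian torsionfree groups. -/
theorem InjA.of_torsionfree_ab (htf : ∀ (c : Abelianization G) (n : ℕ), 0 < n → c ^ n = 1 → c = 1) :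
    InjA R G := by
  intro z hz
  apply tensC_injective htf
  rw [← map_of_tens, hz, map_zero]

/-- Elements come from finitely generated subgroups. -/
theorem exists_tmap_sub (z : Additive (Abelianization G) ⊗[ℤ] KZero R) :
    ∃ T : Set G, T.Finite ∧ ∀ K : Subgroup G, T ⊆ K →
      ∃ z' : Additive (Abelianization K) ⊗[ℤ] KZero R, tmap R K.subtype z' = z := by
  induction z with
  | zero => exact ⟨∅, Set.finite_empty, fun K _ => ⟨0, map_zero _⟩⟩
  | add x y hx hy =>
    obtain ⟨T, hT, hx⟩ := hx
    obtain ⟨T', hT', hy⟩ := hy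
    refine ⟨T ∪ T', hT.union hT', fun K hK => ?_⟩
    obtain ⟨x', rfl⟩ := hx K (Set.subset_union_left.trans hK)
    obtain ⟨y', rfl⟩ := hy K (Set.subset_union_right.trans hK)
    exact ⟨x' + y', map_add _ _ _⟩
  | tmul a k =>
    obtain ⟨g, rfl⟩ := exists_of a
    refine ⟨{g}, Set.finite_singleton _, fun K hK => ?_⟩
    exact ⟨Additive.ofMul (Abelianization.of (⟨g, hK rfl⟩ : K)) ⊗ₜ k, rfl⟩

/-- Directed unions. -/
theorem InjA.of_fg (h : ∀ K : Subgroup G, K.FG → InjA R K) : InjA R G := by
  intro z hz
  obtain ⟨T0, hT0, h0⟩ := exists_tmap_sub z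
  obtain ⟨z0, hz0⟩ := h0 (Subgroup.closure T0) Subgroup.subset_closure
  have h1 : KOne.map (inc R (Subgroup.closure T0).subtype) (tens R (Subgroup.closure T0) z0) = 0 := by
    rw [map_tens, hz0, hz]
  obtain ⟨T, hT, h2⟩ := exists_sub_zero _ _ h1
  have hK0 : Subgroup.closure T0 ≤ Subgroup.closure (T0 ∪ T) :=
    Subgroup.closure_mono Set.subset_union_left
  have h3 := h2 (Subgroup.closure (T0 ∪ T)) (Subgroup.inclusion hK0) rfl
    (Set.subset_union_right.trans Subgroup.subset_closure)
  rw [map_tens] at h3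
  have h4 := h _ ((Subgroup.fg_iff _).2 ⟨T0 ∪ T, rfl, hT0.union hT⟩) _ h3
  rw [← hz0]
  have h5 := congrArg (tmap R (Subgroup.closure (T0 ∪ T)).subtype) h4
  rw [tmap_tmap, map_zero] at h5
  exact h5

/-- Directed unions. -/
theorem InjA.of_directed (S : Set (Subgroup G)) (hne : S.Nonempty)
    (hdir : ∀ H ∈ S, ∀ K ∈ S, ∃ L ∈ S, H ≤ L ∧ K ≤ L) (hcov : ∀ g : G, ∃ H ∈ S, g ∈ H)
    (h : ∀ H ∈ S, InjA R H) : InjA R G := by
  classical
  have hfin : ∀ T : Set G, T.Finite → ∃ H ∈ S, T ⊆ H := by
    intro T hT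
    induction T, hT using Set.Finite.induction_on with
    | empty =>
      obtain ⟨H, hH⟩ := hne
      exact ⟨H, hH, Set.empty_subset _⟩
    | @insert g T _ _ ih =>
      obtain ⟨H, hH, hT⟩ := ih
      obtain ⟨K, hK, hg⟩ := hcov g
      obtain ⟨L, hL, h1, h2⟩ := hdir H hH K hK
      exact ⟨L, hL, Set.insert_subset (h2 hg) (hT.trans h1)⟩
  intro z hz
  obtain ⟨T0, hT0, h0⟩ := exists_tmap_sub z
  obtain ⟨z0, hz0⟩ := h0 (Subgroup.closure T0) Subgroup.subset_closure
  have h1 : KOne.map (inc R (Subgroup.closure T0).subtype) (tens R (Subgroup.closure T0) z0) = 0 := by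
    rw [map_tens, hz0, hz]
  obtain ⟨T, hT, h2⟩ := exists_sub_zero _ _ h1
  obtain ⟨K, hK, hTK⟩ := hfin (T0 ∪ T) (hT0.union hT)
  have hK0 : Subgroup.closure T0 ≤ K :=
    (Subgroup.closure_le _).2 (Set.subset_union_left.trans hTK)
  have h3 := h2 K (Subgroup.inclusion hK0) rfl (Set.subset_union_right.trans hTK)
  rw [map_tens] at h3
  have h4 := h K hK _ h3
  rw [← hz0]
  have h5 := congrArg (tmap R K.subtype) h4
  rw [tmap_tmap, map_zero] at h5
  exact h5

end

end Pool.Agent.Lib.MP_c052b4_al.LK
end

section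

/-!
# The assembly map in degree one is injective for groups acting on trees
-/

set_option autoImplicit false
set_option linter.unusedSectionVars false

namespace Pool.Agent.Lib.MP_c052b4_al.LK

open Matrix TensorProduct

universe u v w

section

variable {R : Type u} [Ring R] {G : Type v} [Group G]

/-- Right exactness: elements with vanishing image in `(G_ab / N) ⊗ K₀(R)`, where `N` is generated by
the images of the groups `S y`. -/
theorem exists_sum_of_quot {V : Type w} (S : V → Subgroup G) (N : Subgroup (Abelianization G))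
    (hN : ∀ N' : Subgroup (Abelianization G),
      (∀ (y : V) (g : G), g ∈ S y → Abelianization.of g ∈ N') → N ≤ N')
    (z : Additive (Abelianization G) ⊗[ℤ] KZero R)
    (hz : (AddMonoidHom.toIntLinearMap (MonoidHom.toAdditive (QuotientGroup.mk' N))).rTensor
      (KZero R) z = 0) :
    ∃ (n : ℕ) (y : Fin n → V)
      (x : ∀ i, Additive (Abelianization (S (y i))) ⊗[ℤ] KZero R),
      z = ∑ i, tmap R (S (y i)).subtype (x i) := by
  classical
  let π : Abelianization G →* Abelianization G ⧸ N := QuotientGroup.mk' N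
  have hex : Function.Exact (AddMonoidHom.toIntLinearMap (MonoidHom.toAdditive N.subtype))
      (AddMonoidHom.toIntLinearMap (MonoidHom.toAdditive π)) := by
    intro x
    constructor
    · intro hx
      have hx' : (x.toMul : Abelianization G) ∈ N := by
        rw [← QuotientGroup.eq_one_iff]
        exact hx
      exact ⟨Additive.ofMul ⟨x.toMul, hx'⟩, rfl⟩
    · rintro ⟨y, rfl⟩
      let t : N := y.toMul
      have ht : ((t : Abelianization G) : Abelianization G ⧸ N) = 1 :=
        (QuotientGroup.eq_one_iff (t : Abelianization G)).2 t.2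
      exact ht
  have hsurj : Function.Surjective (AddMonoidHom.toIntLinearMap (MonoidHom.toAdditive π)) :=
    fun x => by
      obtain ⟨b, hb⟩ := QuotientGroup.mk_surjective x.toMul
      exact ⟨Additive.ofMul b, congrArg Additive.ofMul hb⟩
  obtain ⟨y, rfl⟩ := (rTensor_exact (KZero R) hex hsurj z).1 hz
  clear hz
  -- the set of all sums
  let P : AddSubgroup (Additive (Abelianization G) ⊗[ℤ] KZero R) :=
    AddSubgroup.closure {t | ∃ (y : V) (x : Additive (Abelianization (S y)) ⊗[ℤ] KZero R),
      t = tmap R (S y).subtype x}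
  have hP : ∀ t ∈ P, ∃ (n : ℕ)
      (f : Fin n → Σ y : V, (Additive (Abelianization (S y)) ⊗[ℤ] KZero R)),
      t = ∑ i, tmap R (S (f i).1).subtype (f i).2 := by
    intro t ht
    induction ht using AddSubgroup.closure_induction with
    | mem t ht =>
      obtain ⟨y, x, rfl⟩ := ht
      exact ⟨1, fun _ => ⟨y, x⟩, by simp⟩
    | zero => exact ⟨0, fun i => i.elim0, by simp⟩
    | add a b _ _ ha hb =>
      obtain ⟨n, f, rfl⟩ := ha
      obtain ⟨m, f', rfl⟩ := hb
      refine ⟨n + m, Fin.append f f', ?_⟩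
      rw [Fin.sum_univ_add]
      congr 1
      · refine Finset.sum_congr rfl fun i _ => ?_
        rw [Fin.append_left]
      · refine Finset.sum_congr rfl fun i _ => ?_
        rw [Fin.append_right]
    | neg a _ ha =>
      obtain ⟨n, f, rfl⟩ := ha
      exact ⟨n, fun i => ⟨(f i).1, - (f i).2⟩, by simp⟩
  suffices hs : (AddMonoidHom.toIntLinearMap (MonoidHom.toAdditive N.subtype)).rTensor
      (KZero R) y ∈ P by
    obtain ⟨n, f, hf⟩ := hP _ hs
    exact ⟨n, fun i => (f i).1, fun i => (f i).2, hf⟩
  clear hP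
  induction y with
  | zero => rw [map_zero]; exact AddSubgroup.zero_mem _
  | add x y hx hy => rw [map_add]; exact AddSubgroup.add_mem _ hx hy
  | tmul a k =>
    have h1 : N ≤ AddSubgroup.toSubgroup' (P.comap
        ((TensorProduct.mk ℤ (Additive (Abelianization G)) (KZero R)).flip k).toAddMonoidHom) := by
      apply hN
      intro y g hg
      apply AddSubgroup.subset_closure
      exact ⟨y, Additive.ofMul (Abelianization.of (⟨g, hg⟩ : S y)) ⊗ₜ k, rfl⟩
    exact h1 a.toMul.2

/-- **Theorem.** The assembly map `A₁` is injective for a group acting on a tree if it is bijective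
for the vertex groups and surjective for the edge groups. -/
theorem injA_of_tree {V : Type w} [MulAction G V] (T : TreeAction G V)
    (hv : ∀ x : V, imA1 R (MulAction.stabilizer G x) = ⊤)
    (hi : ∀ x : V, InjA R (MulAction.stabilizer G x))
    (he : ∀ x y : V, T.graph.Adj x y →
      imA1 R ↥(MulAction.stabilizer G x ⊓ MulAction.stabilizer G y) = ⊤) : InjA R G := by
  intro z hz
  let N : Subgroup (Abelianization G) :=
    Subgroup.closure {a | ∃ (g : G) (x : V), g • x = x ∧ a = Abelianization.of g}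
  have hN1 : ∀ (g : G) (x : V), g • x = x → Abelianization.of g ∈ N := fun g x h =>
    Subgroup.subset_closure ⟨g, x, h, rfl⟩
  have hN2 : ∀ N' : Subgroup (Abelianization G),
      (∀ (g : G) (x : V), g • x = x → Abelianization.of g ∈ N') → N ≤ N' := by
    intro N' h
    rw [Subgroup.closure_le]
    rintro _ ⟨g, x, h1, rfl⟩
    exact h g x h1
  have htf : ∀ (c : Abelianization G ⧸ N) (n : ℕ), 0 < n → c ^ n = 1 → c = 1 := by
    intro c n hn hc
    obtain ⟨a, rfl⟩ := QuotientGroup.mk_surjective c
    rw [← QuotientGroup.mk_pow, QuotientGroup.eq_one_iff] at hc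
    rw [QuotientGroup.eq_one_iff]
    exact ab_torsionfree T N hN1 hN2 a n hn hc
  have h1 : (AddMonoidHom.toIntLinearMap (MonoidHom.toAdditive (QuotientGroup.mk' N))).rTensor
      (KZero R) z = 0 := by
    apply tensC_injective htf
    rw [← map_tensC, ← map_of_tens, hz, map_zero, map_zero]
  obtain ⟨n, y, x, rfl⟩ := exists_sum_of_quot (fun x : V => MulAction.stabilizer G x) N
    (fun N' h => hN2 N' fun g x hg => h x g hg) z h1
  obtain ⟨K, hK⟩ := exists_cutSys T
  let β : ∀ x : V, KOne (MonoidAlgebra R (MulAction.stabilizer G x)) →+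
      (Additive (Abelianization G) ⊗[ℤ] KZero R) := fun x =>
    (tmap R (MulAction.stabilizer G x).subtype).comp
      ((AddMonoidHom.snd _ _).comp (asmInv (hv x) (hi x)))
  have hβ : ∀ (x : V) (u : KOne R)
      (t : Additive (Abelianization (MulAction.stabilizer G x)) ⊗[ℤ] KZero R),
      β x (asm R _ (u, t)) = tmap R (MulAction.stabilizer G x).subtype t := by
    intro x u t
    show tmap R _ (asmInv (hv x) (hi x) (asm R _ (u, t))).2 = _
    rw [asmInv_asm]
  have h2 := lemmaK K β (fun γ x a => by
      obtain ⟨⟨u, t⟩, rfl⟩ := asm_surj (hv x) a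
      rw [map_asm, hβ, hβ, tmap_tmap]
      exact tmap_conj γ (fun g => rfl) t)
    (fun x y hxy a => by
      obtain ⟨⟨u, t⟩, rfl⟩ := asm_surj (he x y ((hK x y).1 hxy)) a
      rw [map_asm, map_asm, hβ, hβ, tmap_tmap, tmap_tmap]
      rfl) y (fun i => tens R _ (x i)) (by
      rw [map_sum] at hz
      rw [← hz]
      exact Finset.sum_congr rfl fun i _ => map_tens _ _)
  rw [← h2]
  refine Finset.sum_congr rfl fun i _ => ?_
  have h3 := hβ (y i) 0 (x i)
  rw [← h3]
  congr 1
  show KOne.map (cG R _) 0 + tens R _ (x i) = tens R _ (x i)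
  rw [map_zero, zero_add]

end

end Pool.Agent.Lib.MP_c052b4_al.LK
end
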