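import Pool.Agent.Lib.MP_c052b4_al.Mg.G013
import Pool.Agent.Lib.MP_c052b4_al.Mg.G012
import Pool.Agent.Lib.MP_c052b4_al.LK.F4

section

/-!
# Groups acting on products of trees: directed unions
-/

set_option autoImplicit false
set_option linter.unusedSectionVars false

namespace Pool.Agent.Lib.MP_c052b4_al.MT

universe u

/-- `G` acts on finitely many trees without inversions and only `1` fixes a vertex in each tree. -/
def FreeOnTrees (G : Type u) [Group G] : Prop :=
  ∃ (n : ℕ) (V : Fin n → Type u) (_ : ∀ i, MulAction G (V i)) (_ : ∀ i, TreeAction G (V i)),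
    ∀ g : G, (∀ i, ∃ x : V i, g • x = x) → g = 1

theorem FreeOnTrees.hk {G : Type u} [Group G] (h : FreeOnTrees G) : HK.{u} G := by
  obtain ⟨n, V, _, T, hfree⟩ := h
  exact hk_of_free_trees G V T hfree

/-- All finitely generated subgroups act freely on products of trees. -/
theorem hk_of_fg {G : Type u} [Group G] (h : ∀ H : Subgroup G, H.FG → HK.{u} H) : HK.{u} G := by
  intro R _ hR
  refine imA1_of_directed {H : Subgroup G | H.FG} ⟨⊥, ?_⟩ ?_ ?_ fun H hH => h H hH R hR
  · exact (Subgroup.fg_iff _).2 ⟨∅, by simp, Set.finite_empty⟩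
  · intro H hH K hK
    exact ⟨H ⊔ K, Subgroup.FG.sup hH hK, le_sup_left, le_sup_right⟩
  · intro g
    exact ⟨Subgroup.closure {g}, (Subgroup.fg_iff _).2 ⟨{g}, rfl, Set.finite_singleton g⟩,
      Subgroup.subset_closure (Set.mem_singleton g)⟩

end Pool.Agent.Lib.MP_c052b4_al.MT
end

section

/-!
# The induction on the number of planes
-/

set_option autoImplicit false

namespace Pool.Agent.Lib.MP_c052b4_al.JK

open MvPolynomial MulAction

universe u

theorem htf_sub {G : Type u} [Group G] (htf : ∀ g : G, IsOfFinOrder g → g = 1) (H : Subgroup G) :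
    ∀ h : H, IsOfFinOrder h → h = 1 := fun h hh =>
  Subtype.ext (htf h ((Submonoid.isOfFinOrder_coe (H := H.toSubmonoid)).2 hh))

theorem mem_of_smul {K : Type u} [Field K] {S : Subgroup (AutA K)} {s a : AutA K}
    (h : ((a * s : AutA K) : AutA K ⧸ S) = (s : AutA K ⧸ S)) : s⁻¹ * a * s ∈ S := by
  have h1 := QuotientGroup.eq.1 h.symm
  rwa [← mul_assoc] at h1

/-- A group of automorphisms fixing a vertex has a representation of rank two with torsion
kernel. -/
theorem exists_rep_fix {K : Type u} [Field K] (p : ℕ) (hp : 0 < p) [CharP K p] {H : Type u}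
    [Group H] (r : H →* AutA K) (x : VT K) (hx : ∀ h, r h • x = x) :
    ∃ θ : H →* GL (Fin 2) K, ∀ h, θ h = 1 → ∃ M : ℕ, 0 < M ∧ r (h ^ M) = 1 := by
  rcases x with q | q
  · obtain ⟨s, rfl⟩ := QuotientGroup.mk_surjective q
    exact exists_rep_aff p hp r s fun h => mem_of_smul (Sum.inl_injective (hx h))
  · obtain ⟨s, rfl⟩ := QuotientGroup.mk_surjective q
    exact exists_rep_tri p hp r s fun h => mem_of_smul (Sum.inr_injective (hx h))

/-- **The induction.** -/
theorem Adm.hk (k : ℕ) : ∀ (G : Type u) [Group G] (_ : ∀ g : G, IsOfFinOrder g → g = 1)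
    (S : Set G) (_ : Adm G k S) (_ : ∀ g ∈ S, g = 1), HK.{u} G := by
  induction k with
  | zero =>
    intro G _ htf S hS hS1
    cases hS with
    | base V act T A N hN hA ρ =>
      refine MT.hk_of_fg fun H hH => ?_
      let _ : ∀ i, MulAction H (V i) := fun i => MulAction.compHom (V i) H.subtype
      refine MT.hk_of_trees_rep ((Group.fg_iff_subgroup_fg H).2 hH) (htf_sub htf H) V
        (fun i => ⟨(T i).some.comp H.subtype⟩) A N hN hA (ρ.comp H.subtype) fun h h1 h2 => ?_
      exact Subtype.ext (hS1 h ⟨h1, h2⟩)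
  | succ k ih =>
    intro G _ htf S hS hS1
    cases hS with
    | @step _ S' hS' F _ _ p hp _ r =>
      let _ : MulAction G (VT F) := MulAction.compHom (VT F) r
      let T : TreeAction G (VT F) := (jTree (K := F)).comp r
      -- subgroups with a representation of rank two replacing the plane
      have key : ∀ (H : Subgroup G) (B : Type u) [CommRing B] (M : ℕ) (_ : 0 < M)
          (_ : (M : B) = 0) (θ : H →* GL (Fin 2) B),
          (∀ h, θ h = 1 → ∃ M : ℕ, 0 < M ∧ r ((h : G) ^ M) = 1) → HK.{u} H := by
        intro H B _ M hM hB θ hθ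
        refine ih H (htf_sub htf H) _ ((hS'.comap H.subtype).add B M hM hB θ) ?_
        rintro h ⟨h1, h2⟩
        obtain ⟨n, hn, h3⟩ := hθ h h2
        have h4 : (h : G) ^ n = 1 := hS1 _ ⟨hS'.pow_mem h1 n, h3⟩
        exact Subtype.ext (htf h (isOfFinOrder_iff_pow_eq_one.2 ⟨n, hn, h4⟩))
      have keyv : ∀ (H : Subgroup G) (x : VT F), (∀ h ∈ H, h • x = x) → HK.{u} H := by
        intro H x hx
        obtain ⟨θ, hθ⟩ := exists_rep_fix p hp (r.comp H.subtype) x fun h => hx h h.2
        exact key H F p hp (CharP.cast_eq_zero F p) θ hθ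
      refine hk_of_tree_lines T (fun v => keyv _ v fun h hh => hh) (fun x y _ R _ hR => ?_)
        (fun ℓ hℓ _ => ?_) fun ℓ hℓ _ => ?_
      · exact (keyv (stabilizer G x ⊓ stabilizer G y) x fun h hh => hh.1).kSurj hR
      · exact stable_seg r ℓ hℓ
      · obtain ⟨θ, hθ⟩ := exists_rep_trl (G := G) hℓ
        have hB : ((p : ℕ) : LaurentPolynomial F) = 0 := by
          rw [← map_natCast (algebraMap F (LaurentPolynomial F)), CharP.cast_eq_zero, map_zero]
        refine key (Trl G ℓ) (LaurentPolynomial F) p hp hB θ fun h hh => ?_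
        obtain ⟨n, hn, h1⟩ := isOfFinOrder_iff_pow_eq_one.1 (fix_line p hp (r h) ℓ hℓ (hθ h hh))
        exact ⟨n, hn, by rw [map_pow]; exact h1⟩

end Pool.Agent.Lib.MP_c052b4_al.JK
end

section

/-!
# The assembly map in degree one: products of trees
-/

set_option autoImplicit false
set_option linter.unusedSectionVars false

namespace Pool.Agent.Lib.MP_c052b4_al.LK

open Matrix TensorProduct MulAction

universe u v w

section Trees

theorem hb_of_free_trees_aux (n : ℕ) : ∀ (G : Type u) [Group G] (J : Type) [Finite J]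
    (_ : Nat.card J = n) (V : J → Type u) [∀ a, MulAction G (V a)] (_ : ∀ a, TreeAction G (V a))
    (_ : ∀ g : G, (∀ a, ∃ v : V a, g • v = v) → g = 1), HB.{u} G := by
  classical
  induction n with
  | zero =>
    intro G _ J _ hJ V _ T hfree
    have hJ0 : IsEmpty J := by
      rw [Finite.card_eq_zero_iff] at hJ
      exact hJ
    have : Subsingleton G :=
      ⟨fun a b => (hfree a fun j => isEmptyElim j).trans (hfree b fun j => isEmptyElim j).symm⟩
    exact HB.of_subsingleton G
  | succ n ih =>
    intro G _ J _ hJ V _ T hfree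
    have hne : Nonempty J := by
      by_contra h
      rw [not_nonempty_iff] at h
      rw [Nat.card_of_isEmpty] at hJ
      omega
    obtain ⟨a0⟩ := hne
    have _ : Fintype J := Fintype.ofFinite J
    have hcard : Nat.card {a // a ≠ a0} = n := by
      have h2 : Nat.card {a // a ≠ a0} + 1 = Nat.card J := by
        rw [Nat.card_eq_fintype_card, Nat.card_eq_fintype_card, Fintype.card_subtype_compl,
          Fintype.card_subtype_eq]
        have : 0 < Fintype.card J := Fintype.card_pos_iff.2 ⟨a0⟩
        omega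
      omega
    refine HB.of_tree (MT.hk_of_free_trees G V T hfree) (T a0) (fun x => ?_) fun x y _ => ?_
    · let H : Subgroup G := stabilizer G x
      let _ : ∀ a : {a // a ≠ a0}, MulAction H (V a.1) := fun a =>
        MulAction.compHom (V a.1) H.subtype
      refine ih H {a // a ≠ a0} hcard (fun a => V a.1) (fun a => (T a.1).comp H.subtype) ?_
      intro g hg
      apply Subtype.ext
      apply hfree
      intro a
      by_cases h2 : a = a0
      · subst h2
        exact ⟨x, g.2⟩
      · exact hg ⟨a, h2⟩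
    · let H : Subgroup G := stabilizer G x ⊓ stabilizer G y
      let _ : ∀ a : J, MulAction H (V a) := fun a => MulAction.compHom (V a) H.subtype
      exact MT.hk_of_free_trees H V (fun a => (T a).comp H.subtype) fun g hg =>
        Subtype.ext (hfree g hg)

/-- **Theorem.** Groups which act on finitely many trees without inversions such that only `1` fixes
a vertex in each of the trees. -/
theorem hb_of_free_trees (G : Type u) [Group G] {J : Type} [Finite J] (V : J → Type u)
    [∀ a, MulAction G (V a)] (T : ∀ a, TreeAction G (V a))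
    (hfree : ∀ g : G, (∀ a, ∃ v : V a, g • v = v) → g = 1) : HB.{u} G :=
  hb_of_free_trees_aux (Nat.card J) G J rfl V T hfree

/-- A finite family of tree actions with trivial joint stabilizers. -/
theorem hb_of_hasTrees {G : Type u} [Group G] (h : MT.L.HasTrees.{u, u} G {1}) : HB.{u} G := by
  obtain ⟨ι, _, V, act, hT, hfree⟩ := h
  exact @hb_of_free_trees G _ ι _ V act (fun i => (hT i).some) fun g hg => hfree g hg

/-- Trees and a representation of rank two in positive characteristic. -/
theorem hb_of_trees_rep {G : Type u} [Group G] (hfg : Group.FG G)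
    (htf : ∀ g : G, IsOfFinOrder g → g = 1)
    {n : ℕ} (V : Fin n → Type u) [∀ i, MulAction G (V i)]
    (T : ∀ i, Nonempty (TreeAction G (V i)))
    (A : Type u) [CommRing A] (N : ℕ) (hN : 0 < N) (hA : (N : A) = 0) (rho : G →* GL (Fin 2) A)
    (h : ∀ g : G, rho g = 1 → (∀ i, ∃ x : V i, g • x = x) → g = 1) : HB.{u} G := by
  refine hb_of_hasTrees ?_
  have h1 : MT.L.HasTrees.{u, u} G {g | ∀ i, ∃ x : V i, g • x = x} :=
    ⟨Fin n, inferInstance, V, fun _ => inferInstance, T, fun _ hg => hg⟩
  refine ((MT.hasTrees_finOrder A N hN hA G rho).inter h1).mono ?_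
  rintro g ⟨hg1, hg2⟩
  obtain ⟨k, hk, hk1⟩ := isOfFinOrder_iff_pow_eq_one.1 hg1
  refine htf g (isOfFinOrder_iff_pow_eq_one.2 ⟨k, hk, h _ ?_ fun i => ?_⟩)
  · rw [map_pow]
    exact hk1
  · obtain ⟨x, hx⟩ := hg2 i
    refine ⟨x, ?_⟩
    have h2 : ∀ j : ℕ, g ^ j • x = x := fun j => by
      induction j with
      | zero => rw [pow_zero, one_smul]
      | succ j ih => rw [pow_succ, mul_smul, hx, ih]
    exact h2 k

end Trees

end Pool.Agent.Lib.MP_c052b4_al.LK
end
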