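import Pool.Agent.Lib.MP_c052b4_al.Mg.G009

section

/-!
# The evaluation functor into functors on the label category
-/

set_option autoImplicit false
set_option linter.unusedVariables false

namespace Pool.Agent.Lib.MP_c052b4_al.MT

open CategoryTheory Opposite

universe u

variable {S : Type u} [Ring S] {G : Type u} [Group G] (L : Lbl G)

/-- The category with objects the labels and `Hom x y = {g | x ≤ g y}`. -/
structure Q where
  w : L.W

variable {L}

/-- The morphisms of `Q`. -/
@[ext]
structure QHom (x y : Q L) where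
  g : G
  le : L.le x.w (g • y.w)

instance : Category (Q L) where
  Hom x y := QHom x y
  id x := ⟨1, by rw [one_smul]; exact L.refl _⟩
  comp f g := ⟨f.g * g.g, by rw [mul_smul]; exact L.trans f.le (L.smul _ g.le)⟩
  id_comp f := QHom.ext (one_mul _)
  comp_id f := QHom.ext (mul_one _)
  assoc f g h := QHom.ext (mul_assoc _ _ _)

/-- The group element of a morphism. -/
def qg {x y : Q L} (f : x ⟶ y) : G := QHom.g f

theorem qle {x y : Q L} (f : x ⟶ y) : L.le x.w (qg f • y.w) := QHom.le f

/-- The morphism given by a group element. -/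
def qmk {x y : Q L} (g : G) (h : L.le x.w (g • y.w)) : x ⟶ y := ⟨g, h⟩

@[simp] theorem qg_mk {x y : Q L} (g : G) (h : L.le x.w (g • y.w)) : qg (qmk g h) = g := rfl

@[simp] theorem qg_id (x : Q L) : qg (𝟙 x) = 1 := rfl

@[simp] theorem qg_comp {x y z : Q L} (f : x ⟶ y) (g : y ⟶ z) : qg (f ≫ g) = qg f * qg g := rfl

theorem q_ext {x y : Q L} {f g : x ⟶ y} (h : qg f = qg g) : f = g := QHom.ext h

variable (S L) in
/-- The functor category. -/
abbrev AA := (Q L)ᵒᵖ ⥤ ModuleCat.{u} S

namespace VCat

variable (X : VCat S L)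

/-- multiplication with a group element, as an `S`-linear map -/
noncomputable def gmul (X : VCat S L) (g : G) : X.M →ₗ[S] X.M where
  toFun v := MonoidAlgebra.single g (1 : S) • v
  map_add' := smul_add _
  map_smul' s v := by
    rw [RingHom.id_apply]
    have h1 : ∀ v : X.M, s • v = (MonoidAlgebra.single (1 : G) s) • v := by
      intro v
      ext i h
      rw [Finsupp.smul_apply, MonoidAlgebra.coeff_smul, Finsupp.smul_apply, Finsupp.smul_apply,
        smul_eq_mul, smul_eq_mul, MonoidAlgebra.coeff_single_mul_apply, inv_one, one_mul]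
    rw [h1, h1, smul_smul, smul_smul, MonoidAlgebra.single_mul_single,
      MonoidAlgebra.single_mul_single, one_mul, mul_one, one_mul, mul_one]

theorem gmul_apply (g : G) (v : X.M) : X.gmul g v = MonoidAlgebra.single g (1 : S) • v := rfl

theorem gmul_one (v : X.M) : X.gmul 1 v = v := one_smul _ _

theorem gmul_mul (g h : G) (v : X.M) : X.gmul (g * h) v = X.gmul g (X.gmul h v) := by
  rw [gmul_apply, gmul_apply, gmul_apply, smul_smul, MonoidAlgebra.single_mul_single, mul_one]

theorem gmul_mem {w w' : L.W} {g : G} (h : L.le w (g • w')) {v : X.M} (hv : v ∈ X.fil w') :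
    X.gmul g v ∈ X.fil w := fil_mono h (smul_mem_fil g hv)

theorem lin_gmul {X Y : VCat S L} (f : X ⟶ Y) (g : G) (v : X.M) :
    lin f (X.gmul g v) = Y.gmul g (lin f v) := LinearMap.map_smul _ _ _

/-- The restriction maps. -/
noncomputable def evMap {w w' : L.W} (g : G) (h : L.le w (g • w')) : X.fil w' →ₗ[S] X.fil w :=
  ((X.gmul g).comp (X.fil w').subtype).codRestrict (X.fil w) fun v => X.gmul_mem h v.2

@[simp]
theorem coe_evMap {w w' : L.W} (g : G) (h : L.le w (g • w')) (v : X.fil w') :
    (X.evMap g h v : X.M) = X.gmul g v := rfl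

/-- The functor attached to a labelled free module. -/
noncomputable def evObj : AA S L where
  obj x := ModuleCat.of S (X.fil x.unop.w)
  map {x y} f := ModuleCat.ofHom (X.evMap (qg f.unop) (qle f.unop))
  map_id x := by
    refine ModuleCat.hom_ext (LinearMap.ext fun v => Subtype.ext ?_)
    exact X.gmul_one _
  map_comp f g := by
    refine ModuleCat.hom_ext (LinearMap.ext fun v => Subtype.ext ?_)
    exact X.gmul_mul _ _ _

/-- A morphism as an `S`-linear map. -/
noncomputable def linS {X Y : VCat S L} (f : X ⟶ Y) : X.M →ₗ[S] Y.M where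
  toFun := lin f
  map_add' := map_add _
  map_smul' s v := by
    have h1 : ∀ (Z : VCat S L) (v : Z.M), s • v = (MonoidAlgebra.single (1 : G) s) • v := by
      intro Z v
      ext i h
      rw [Finsupp.smul_apply, MonoidAlgebra.coeff_smul, Finsupp.smul_apply, Finsupp.smul_apply,
        smul_eq_mul, smul_eq_mul, MonoidAlgebra.coeff_single_mul_apply, inv_one, one_mul]
    rw [RingHom.id_apply, h1 X v, h1 Y, map_smul]

theorem linS_apply {X Y : VCat S L} (f : X ⟶ Y) (v : X.M) : linS f v = lin f v := rfl

/-- The map of filtration steps. -/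
noncomputable def evHom {X Y : VCat S L} (f : X ⟶ Y) (w : L.W) : X.fil w →ₗ[S] Y.fil w :=
  ((linS f).comp (X.fil w).subtype).codRestrict (Y.fil w) fun v => lin_mem f v.2

@[simp]
theorem coe_evHom {X Y : VCat S L} (f : X ⟶ Y) (w : L.W) (v : X.fil w) :
    (evHom f w v : Y.M) = lin f v := rfl

/-- Evaluation of labelled free modules as functors. -/
noncomputable def ev : VCat S L ⥤ AA S L where
  obj X := X.evObj
  map {X Y} f :=
    { app := fun x => ModuleCat.ofHom (evHom f x.unop.w)
      naturality := fun x y g => by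
        refine ModuleCat.hom_ext (LinearMap.ext fun v => Subtype.ext ?_)
        exact lin_gmul f _ _ }
  map_id X := by
    ext x v
    rfl
  map_comp f g := by
    ext x v
    rfl

end VCat

end Pool.Agent.Lib.MP_c052b4_al.MT
end

section

/-!
# TREES^n, section 4, A01: the evaluation functor is additive, full and faithful (Yoneda)
-/

set_option autoImplicit false
set_option linter.unusedVariables false

namespace Pool.Agent.Lib.MP_c052b4_al.MT

open CategoryTheory Opposite

universe u

variable {S : Type u} [Ring S] {G : Type u} [Group G] {L : Lbl G}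

namespace VCat

instance ev_additive : (ev : VCat S L ⥤ AA S L).Additive where
  map_add := by
    intro X Y f g
    ext x v
    rfl

instance ev_faithful : (ev : VCat S L ⥤ AA S L).Faithful where
  map_injective := by
    intro X Y f g h
    refine ext_e fun i => ?_
    have h1 := congrArg (fun t : ev.obj X ⟶ ev.obj Y =>
      (t.app (op ⟨X.l i⟩)).hom (⟨X.e i, X.e_mem i⟩ : X.fil (X.l i))) h
    exact congrArg (Subtype.val) h1

open Classical in
/-- the value on the basis vector `g e_i` -/
private noncomputable def a01_val (X : VCat S L) (N : AA S L) (n : ∀ i, N.obj (op ⟨X.l i⟩))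
    (x : Q L) (i : X.I) (g : G) : N.obj (op x) :=
  if h : L.le x.w (g • X.l i) then
    (N.map (qmk (x := x) (y := ⟨X.l i⟩) g h).op).hom (n i) else 0

private noncomputable def a01_coeffL (S : Type u) [Ring S] (G : Type u) :
    MonoidAlgebra S G →ₗ[S] (G →₀ S) where
  toFun := fun a => a.coeff
  map_add' := fun a b => rfl
  map_smul' := fun s a => rfl

omit [Group G] in
private theorem a01_coeffL_single (g : G) (s : S) :
    a01_coeffL S G (MonoidAlgebra.single g s) = Finsupp.single g s :=
  MonoidAlgebra.coeff_single g s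

private noncomputable def a01_T (X : VCat S L) (N : AA S L) (n : ∀ i, N.obj (op ⟨X.l i⟩))
    (x : Q L) : X.M →ₗ[S] N.obj (op x) :=
  Finsupp.lsum ℕ fun i =>
    (Finsupp.lsum ℕ fun g => LinearMap.toSpanSingleton S _ (a01_val X N n x i g)).comp
      (a01_coeffL S G)

private theorem a01_T_single (X : VCat S L) (N : AA S L) (n : ∀ i, N.obj (op ⟨X.l i⟩))
    (x : Q L) (i : X.I) (g : G) (s : S) :
    a01_T X N n x (Finsupp.single i (MonoidAlgebra.single g s)) = s • a01_val X N n x i g := by
  unfold a01_T
  rw [Finsupp.lsum_single, LinearMap.comp_apply, a01_coeffL_single, Finsupp.lsum_single,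
    LinearMap.toSpanSingleton_apply]

private theorem a01_decomp (X : VCat S L) (v : X.M) :
    v = ∑ i ∈ v.support, ∑ g ∈ (v i).coeff.support,
      (Finsupp.single i (MonoidAlgebra.single g ((v i).coeff g)) : X.M) := by
  have h1 : ∀ i, (v i) = ∑ g ∈ (v i).coeff.support, MonoidAlgebra.single g ((v i).coeff g) := by
    intro i
    apply MonoidAlgebra.coeff_injective
    rw [MonoidAlgebra.coeff_sum]
    simp only [MonoidAlgebra.coeff_single]
    exact (Finsupp.sum_single _).symm
  conv_lhs => rw [← Finsupp.sum_single v]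
  rw [Finsupp.sum]
  refine Finset.sum_congr rfl fun i _ => ?_
  conv_lhs => rw [h1 i]
  exact Finsupp.single_finsetSum _ _ _

private theorem a01_ind (X : VCat S L) (w : L.W) {A : Type*} [AddCommMonoid A] (p q : X.M →+ A)
    (h : ∀ i g (s : S), L.le w (g • X.l i) →
      p (Finsupp.single i (MonoidAlgebra.single g s)) =
        q (Finsupp.single i (MonoidAlgebra.single g s)))
    (v : X.M) (hv : v ∈ X.fil w) : p v = q v := by
  rw [a01_decomp X v, map_sum, map_sum]
  refine Finset.sum_congr rfl fun i _ => ?_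
  rw [map_sum, map_sum]
  refine Finset.sum_congr rfl fun g hg => ?_
  exact h i g _ (hv i g (Finsupp.mem_support_iff.1 hg))

private theorem a01_gmul_single (X : VCat S L) (g₀ : G) (i : X.I) (g : G) (s : S) :
    X.gmul g₀ (Finsupp.single i (MonoidAlgebra.single g s)) =
      Finsupp.single i (MonoidAlgebra.single (g₀ * g) s) := by
  rw [gmul_apply, Finsupp.smul_single, smul_eq_mul, MonoidAlgebra.single_mul_single, one_mul]

private theorem a01_nat (X : VCat S L) (N : AA S L) (n : ∀ i, N.obj (op ⟨X.l i⟩))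
    {x y : Q L} (f : x ⟶ y) (v : X.M) (hv : v ∈ X.fil y.w) :
    a01_T X N n x (X.gmul (qg f) v) = (N.map f.op).hom (a01_T X N n y v) := by
  refine a01_ind X y.w
    ((a01_T X N n x).toAddMonoidHom.comp (X.gmul (qg f)).toAddMonoidHom)
    ((N.map f.op).hom.toAddMonoidHom.comp (a01_T X N n y).toAddMonoidHom) ?_ v hv
  intro i g s hle
  change a01_T X N n x (X.gmul (qg f) _) = (N.map f.op).hom (a01_T X N n y _)
  rw [a01_gmul_single, a01_T_single, a01_T_single, map_smul]
  congr 1
  have hle2 : L.le x.w ((qg f * g) • X.l i) := by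
    rw [mul_smul]
    exact L.trans (qle f) (L.smul _ hle)
  unfold a01_val
  rw [dif_pos hle, dif_pos hle2]
  have h3 : qmk (x := x) (y := ⟨X.l i⟩) (qg f * g) hle2 =
      f ≫ qmk (x := y) (y := ⟨X.l i⟩) g hle := q_ext rfl
  rw [h3, op_comp, N.map_comp]
  rfl

/-- Yoneda, existence: elements `n i ∈ N(l i)` are the values on the basis of a morphism `ev X ⟶ N`.
Proof: for a label `x` define the `S`-linear map `T x : X.M →ₗ[S] N(x)`,
`T x v = ∑ i ∑ g, (v i).coeff g • (if h : x ≤ g • l i then N.map (qmk g h).op (n i) else 0)`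
(`Finsupp.sum` twice; additive and `S`-linear in `v`), and restrict it to `X.fil x`. Naturality for
`f : x ⟶ y` in `Q L` with group element `g₀` (`x ≤ g₀ y`): for `v ∈ fil y` the vector `g₀ v` has
`(g₀ v i).coeff (g₀ g) = (v i).coeff g`, this is nonzero only if `y ≤ g l i`, and then
`x ≤ g₀ y ≤ g₀ g l i` and `N.map (qmk (g₀ g)) = N.map f ∘ N.map (qmk g)` (as `qmk (g₀ g) = f ≫ qmk g`).
The value on `e i ∈ fil (l i)` is `N.map (qmk 1) (n i) = n i`. -/
theorem yon_exists (X : VCat S L) (N : AA S L) (n : ∀ i, N.obj (op ⟨X.l i⟩)) :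
    ∃ f : ev.obj X ⟶ N, ∀ i,
      (f.app (op ⟨X.l i⟩)).hom (⟨X.e i, X.e_mem i⟩ : X.fil (X.l i)) = n i := by
  refine ⟨{ app := fun x => ModuleCat.ofHom ((a01_T X N n x.unop).comp (X.fil x.unop.w).subtype)
            naturality := ?_ }, ?_⟩
  · intro x y f
    refine ModuleCat.hom_ext (LinearMap.ext fun v => ?_)
    exact a01_nat X N n f.unop v.1 v.2
  · intro i
    change a01_T X N n ⟨X.l i⟩ (X.e i) = n i
    have h1 : X.e i = Finsupp.single i (MonoidAlgebra.single 1 (1 : S)) := rfl
    rw [h1, a01_T_single, one_smul]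
    have hle : L.le (X.l i) ((1 : G) • X.l i) := by
      rw [one_smul]
      exact L.refl _
    unfold a01_val
    rw [dif_pos hle]
    have h2 : qmk (x := ⟨X.l i⟩) (y := ⟨X.l i⟩) (1 : G) hle = 𝟙 _ := q_ext rfl
    rw [h2, op_id, N.map_id]
    rfl

/-- Yoneda, uniqueness: a morphism `ev X ⟶ N` is determined by its values on the basis.
Proof: for `v ∈ fil x` write `v = ∑ i ∑ g, s_{i,g} • (single g 1 • e i)` (finite sum over the support)
where `x ≤ g • l i`; the element `single g 1 • e i` of `fil x` is
`(ev.obj X).map (qmk g h).op ⟨e i, _⟩`, so naturality gives the value of `f` and of `g` on it. -/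
theorem yon_ext {X : VCat S L} {N : AA S L} {f g : ev.obj X ⟶ N}
    (h : ∀ i, (f.app (op ⟨X.l i⟩)).hom (⟨X.e i, X.e_mem i⟩ : X.fil (X.l i)) =
      (g.app (op ⟨X.l i⟩)).hom (⟨X.e i, X.e_mem i⟩ : X.fil (X.l i))) : f = g := by
  refine NatTrans.ext (funext fun x => ?_)
  refine ModuleCat.hom_ext (LinearMap.ext fun v => ?_)
  have key : ∀ i (k : G) (s : S) (hle : L.le x.unop.w (k • X.l i))
      (hm : (Finsupp.single i (MonoidAlgebra.single k s) : X.M) ∈ X.fil x.unop.w),
      (f.app x).hom (⟨Finsupp.single i (MonoidAlgebra.single k s), hm⟩ : X.fil x.unop.w) =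
      (g.app x).hom (⟨Finsupp.single i (MonoidAlgebra.single k s), hm⟩ : X.fil x.unop.w) := by
    intro i k s hle hm
    have h1 : (⟨Finsupp.single i (MonoidAlgebra.single k s), hm⟩ : X.fil x.unop.w) =
        s • (X.evMap k hle (⟨X.e i, X.e_mem i⟩ : X.fil (X.l i))) := by
      refine Subtype.ext ?_
      change _ = s • X.gmul k (X.e i)
      have h2 : X.e i = Finsupp.single i (MonoidAlgebra.single 1 (1 : S)) := rfl
      rw [h2, a01_gmul_single, mul_one, Finsupp.smul_single, MonoidAlgebra.smul_single,
        smul_eq_mul, mul_one]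
    have nf := congrArg (fun t => t.hom (⟨X.e i, X.e_mem i⟩ : X.fil (X.l i)))
      (f.naturality (qmk (x := x.unop) (y := ⟨X.l i⟩) k hle).op)
    have ng := congrArg (fun t => t.hom (⟨X.e i, X.e_mem i⟩ : X.fil (X.l i)))
      (g.naturality (qmk (x := x.unop) (y := ⟨X.l i⟩) k hle).op)
    have nf' : (f.app x).hom (X.evMap k hle (⟨X.e i, X.e_mem i⟩ : X.fil (X.l i))) =
        (N.map (qmk (x := x.unop) (y := ⟨X.l i⟩) k hle).op).hom
          ((f.app (op ⟨X.l i⟩)).hom (⟨X.e i, X.e_mem i⟩ : X.fil (X.l i))) := nf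
    have ng' : (g.app x).hom (X.evMap k hle (⟨X.e i, X.e_mem i⟩ : X.fil (X.l i))) =
        (N.map (qmk (x := x.unop) (y := ⟨X.l i⟩) k hle).op).hom
          ((g.app (op ⟨X.l i⟩)).hom (⟨X.e i, X.e_mem i⟩ : X.fil (X.l i))) := ng
    rw [h1]
    refine (map_smul (f.app x).hom s _).trans (Eq.trans ?_ (map_smul (g.app x).hom s _).symm)
    rw [nf', ng', h i]
  have hH : (v.1 : X.M) ∈ Submodule.map (X.fil x.unop.w).subtype
      (LinearMap.eqLocus (f.app x).hom (g.app x).hom) := by
    rw [a01_decomp X v.1]
    refine Submodule.sum_mem _ fun i _ => Submodule.sum_mem _ fun k hk => ?_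
    have hle : L.le x.unop.w (k • X.l i) := v.2 i k (Finsupp.mem_support_iff.1 hk)
    have hm : (Finsupp.single i (MonoidAlgebra.single k ((v.1 i).coeff k)) : X.M) ∈
        X.fil x.unop.w := by
      have h3 : (Finsupp.single i (MonoidAlgebra.single k ((v.1 i).coeff k)) : X.M) =
          ((v.1 i).coeff k) • (X.gmul k (X.e i)) := by
        have h2 : X.e i = Finsupp.single i (MonoidAlgebra.single 1 (1 : S)) := rfl
        rw [h2, a01_gmul_single, mul_one, Finsupp.smul_single, MonoidAlgebra.smul_single,
          smul_eq_mul, mul_one]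
      rw [h3]
      exact (X.fil x.unop.w).smul_mem _ (X.gmul_mem hle (X.e_mem i))
    exact ⟨⟨_, hm⟩, key i k _ hle hm, rfl⟩
  obtain ⟨w, hw, hwv⟩ := hH
  have hwv' : w = v := Subtype.ext hwv
  rw [← hwv']
  exact hw

/-- `ev` is full: given `t : ev X ⟶ ev Y` put `n i = t (e i) ∈ Y.fil (X.l i)` and use `ofBasis n`;
`ev.map (ofBasis n) = t` by `yon_ext` (and `lin_ofBasis_e`). -/
instance ev_full : (ev : VCat S L ⥤ AA S L).Full where
  map_surjective := by
    intro X Y t
    refine ⟨ofBasis fun i => (t.app (op ⟨X.l i⟩)).hom (⟨X.e i, X.e_mem i⟩ : X.fil (X.l i)), ?_⟩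
    refine yon_ext fun i => ?_
    refine Subtype.ext ?_
    exact lin_ofBasis_e _ i

end VCat

end Pool.Agent.Lib.MP_c052b4_al.MT
end

section

/-!
# TREES^n, section 4, C01: functors of finite type
-/

set_option autoImplicit false
set_option linter.unusedVariables false

namespace Pool.Agent.Lib.MP_c052b4_al.MT

open CategoryTheory Opposite Limits
open scoped ZeroObject

universe u

variable {S : Type u} [Ring S] {G : Type u} [Group G] {L : Lbl G}

/-- The conditions on the labels at the top level: a partial order with finite lower sets on which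
`G` acts freely. -/
structure TopL {G : Type u} [Group G] (L : Lbl G) : Prop where
  antisymm : ∀ x y : L.W, L.le x y → L.le y x → x = y
  free : ∀ (g : G) (x : L.W), g • x = x → g = 1
  lower : ∀ y : L.W, {x | L.le x y}.Finite

/-- Functors of finite type: finitely generated values, nonzero in finitely many orbits only. -/
def FT (S : Type u) [Ring S] {G : Type u} [Group G] (L : Lbl G) : ObjectProperty (AA S L) :=
  fun N => (∀ x : (Q L)ᵒᵖ, Module.Finite S (N.obj x)) ∧
    ∃ Φ : Set L.W, Φ.Finite ∧ ∀ x : L.W, ¬ Subsingleton (N.obj (op ⟨x⟩)) → ∃ g : G, g • x ∈ Φ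

/-- functors of finite type: subobjects -/
theorem c01_sub [IsNoetherianRing S] {X Y : AA S L} (f : X ⟶ Y) [Mono f] (hY : FT S L Y) :
    FT S L X := by
  have hi : ∀ x, Function.Injective (f.app x).hom := fun x =>
    (ModuleCat.mono_iff_injective _).1 ((NatTrans.mono_iff_mono_app f).1 inferInstance x)
  obtain ⟨h1, Φ, hΦ, h2⟩ := hY
  refine ⟨fun x => ?_, Φ, hΦ, fun x hx => h2 x fun h => hx ?_⟩
  · have := h1 x
    have := isNoetherian_of_isNoetherianRing_of_finite S (Y.obj x)
    exact Module.Finite.of_injective (f.app x).hom (hi x)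
  · exact (hi (op ⟨x⟩)).subsingleton

/-- functors of finite type: quotients -/
theorem c01_quot {X Y : AA S L} (f : X ⟶ Y) [Epi f] (hX : FT S L X) :
    FT S L Y := by
  have hi : ∀ x, Function.Surjective (f.app x).hom := fun x =>
    (ModuleCat.epi_iff_surjective _).1 ((NatTrans.epi_iff_epi_app f).1 inferInstance x)
  obtain ⟨h1, Φ, hΦ, h2⟩ := hX
  refine ⟨fun x => ?_, Φ, hΦ, fun x hx => h2 x fun h => hx ?_⟩
  · have := h1 x
    exact Module.Finite.of_surjective (f.app x).hom (hi x)
  · exact (hi (op ⟨x⟩)).subsingleton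

/-- functors of finite type: extensions -/
theorem c01_ext [IsNoetherianRing S] {T : ShortComplex (AA S L)} (hT : T.ShortExact)
    (h1 : FT S L T.X₁) (h3 : FT S L T.X₃) : FT S L T.X₂ := by
  have key : ∀ x : (Q L)ᵒᵖ, LinearMap.range (T.f.app x).hom = LinearMap.ker (T.g.app x).hom :=
    fun x => (hT.exact.map ((evaluation (Q L)ᵒᵖ (ModuleCat.{u} S)).obj x)).moduleCat_range_eq_ker
  obtain ⟨h1, Φ1, hΦ1, h1'⟩ := h1
  obtain ⟨h3, Φ3, hΦ3, h3'⟩ := h3
  refine ⟨fun x => ?_, Φ1 ∪ Φ3, hΦ1.union hΦ3, fun x hx => ?_⟩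
  · have := h1 x
    have := h3 x
    have := isNoetherian_of_isNoetherianRing_of_finite S (T.X₁.obj x)
    have := isNoetherian_of_isNoetherianRing_of_finite S (T.X₃.obj x)
    have : IsNoetherian S (T.X₂.obj x) := isNoetherian_of_range_eq_ker _ _ (key x)
    infer_instance
  · by_contra hc
    have k1 : Subsingleton (T.X₁.obj (op ⟨x⟩)) := by
      by_contra h
      obtain ⟨g, hg⟩ := h1' x h
      exact hc ⟨g, Or.inl hg⟩
    have k3 : Subsingleton (T.X₃.obj (op ⟨x⟩)) := by
      by_contra h
      obtain ⟨g, hg⟩ := h3' x h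
      exact hc ⟨g, Or.inr hg⟩
    refine hx ⟨fun a b => ?_⟩
    have h0 : ∀ a : T.X₂.obj (op ⟨x⟩), a = 0 := by
      intro a
      have h2 : a ∈ LinearMap.ker (T.g.app (op ⟨x⟩)).hom := by
        rw [LinearMap.mem_ker]
        exact Subsingleton.elim _ _
      rw [← key] at h2
      obtain ⟨c, rfl⟩ := h2
      rw [Subsingleton.elim c 0, map_zero]
    rw [h0 a, h0 b]

/-- Functors of finite type form a Serre class if `S` is left Noetherian.
Proof: short exact sequences of functors are pointwise short exact (evaluation is exact); pointwise: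
submodules, quotients and extensions of finite modules over a Noetherian ring are finite; the set of
labels with nonzero value: unions. -/
instance ft_serre [IsNoetherianRing S] : (FT S L).IsSerreClass where
  exists_zero := by
    refine ⟨0, isZero_zero _, ?_⟩
    have h0 : ∀ x : (Q L)ᵒᵖ, Subsingleton ((0 : AA S L).obj x) := fun x =>
      ModuleCat.subsingleton_of_isZero
        (((evaluation (Q L)ᵒᵖ (ModuleCat.{u} S)).obj x).map_isZero (isZero_zero _))
    exact ⟨fun x => by have := h0 x; infer_instance, ∅, Set.finite_empty,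
      fun x hx => absurd (h0 (op ⟨x⟩)) hx⟩
  prop_of_mono f _ h := c01_sub f h
  prop_of_epi f _ h := c01_quot f h
  prop_X₂_of_shortExact hS h1 h3 := c01_ext hS h1 h3

end Pool.Agent.Lib.MP_c052b4_al.MT
end

section

/-!
# TREES^n, section 4, A02: `ev X` is projective
-/

set_option autoImplicit false
set_option linter.unusedVariables false

namespace Pool.Agent.Lib.MP_c052b4_al.MT

open CategoryTheory Opposite

universe u

variable {S : Type u} [Ring S] {G : Type u} [Group G] {L : Lbl G}

/-- An epimorphism of functors is surjective on elements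
(`NatTrans.epi_iff_epi_app`, `ModuleCat.epi_iff_surjective`). -/
theorem aa_surj {N N' : AA S L} (f : N ⟶ N') [Epi f] (x : (Q L)ᵒᵖ) :
    Function.Surjective (f.app x).hom := by
  have h : Epi (f.app x) := (NatTrans.epi_iff_epi_app f).1 inferInstance x
  exact (ModuleCat.epi_iff_surjective _).1 h

/-- `ev X` is projective: given an epimorphism `e : N ⟶ N'` and `f : ev X ⟶ N'` choose
`n i ∈ N(l i)` over the value of `f` at the basis element `e i` (`aa_surj`), and use
`VCat.yon_exists`, `VCat.yon_ext`. -/
instance ev_projective (X : VCat S L) : Projective (VCat.ev.obj X) where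
  factors := by
    intro N' N f e he
    have h1 : ∀ i, ∃ n : N'.obj (op ⟨X.l i⟩), (e.app (op ⟨X.l i⟩)).hom n =
        (f.app (op ⟨X.l i⟩)).hom (⟨X.e i, X.e_mem i⟩ : X.fil (X.l i)) :=
      fun i => aa_surj e (op ⟨X.l i⟩) _
    choose n hn using h1
    obtain ⟨t, ht⟩ := VCat.yon_exists X N' n
    refine ⟨t, VCat.yon_ext fun i => ?_⟩
    rw [← hn i, ← ht i]
    rfl

end Pool.Agent.Lib.MP_c052b4_al.MT
end
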