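import Pool.Agent.Lib.MP_c052b4_al.Mg.G001
import Pool.Agent.Lib.MP_c052b4_al.Mg.G002
import Pool.Agent.Lib.MP_c052b4_al.Mg.G003
import Pool.Agent.Lib.MP_c052b4_al.Mg.G027

section

/-!
# The leading part of an endomorphism
-/

set_option autoImplicit false

namespace Pool.Agent.Lib.MP_c052b4_al.JK

open MvPolynomial

universe u

variable {K : Type u} [Field K] {w : Fin 2 → ℚ}

private theorem tophom_C (φ : A2 K →ₐ[K] A2 K) (c : K) : φ (C c) = C c := by
  have := φ.commutes c
  rw [MvPolynomial.algebraMap_eq] at this
  exact this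

private theorem tophom_monomial (e : A2 K →ₐ[K] A2 K) (he : ∀ v, Wle w (w v) (e (X v)))
    (d : Fin 2 →₀ ℕ) (c : K) :
    Wle w (Finsupp.weight w d) (e (monomial d c)) ∧
      aeval (fun v => top w (w v) (e (X v))) (monomial d c) =
        top w (Finsupp.weight w d) (e (monomial d c)) := by
  induction d using Finsupp.induction_linear generalizing c with
  | zero =>
    rw [← C_apply, map_zero, tophom_C, tophom_C, top_C]
    exact ⟨wle_C c, rfl⟩
  | add d f hd hf =>
    have h1 : (monomial (d + f) c : A2 K) = monomial d c * monomial f 1 := by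
      rw [monomial_mul, mul_one]
    obtain ⟨h2, h3⟩ := hd c
    obtain ⟨h4, h5⟩ := hf 1
    rw [h1, map_mul, map_mul, map_add]
    exact ⟨h2.mul h4, by rw [top_mul h2 h4, h3, h5]⟩
  | single v n =>
    have hX : ∀ n : ℕ, Wle w (Finsupp.weight w (Finsupp.single v n)) (e (X v ^ n)) ∧
        aeval (fun v => top w (w v) (e (X v))) (X v ^ n : A2 K) =
          top w (Finsupp.weight w (Finsupp.single v n)) (e (X v ^ n)) := by
      intro n
      induction n with
      | zero =>
        rw [pow_zero, map_one, map_one, Finsupp.single_zero, map_zero]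
        have h1 : (1 : A2 K) = C 1 := C_1.symm
        rw [h1, top_C]
        exact ⟨wle_C 1, rfl⟩
      | succ n ih =>
        have hw : Finsupp.weight w (Finsupp.single v (n + 1)) =
            Finsupp.weight w (Finsupp.single v n) + w v := by
          rw [Finsupp.single_add, map_add, Finsupp.weight_single w v 1, one_smul]
        rw [pow_succ, map_mul, map_mul, hw]
        exact ⟨ih.1.mul (he v), by rw [top_mul ih.1 (he v), ih.2, aeval_X]⟩
    have h1 : (monomial (Finsupp.single v n) c : A2 K) = C c * X v ^ n := by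
      rw [← C_mul_X_pow_eq_monomial]
    rw [h1, map_mul, map_mul, tophom_C, tophom_C]
    have h2 := (hX n)
    have h3 : Wle w 0 (C c : A2 K) := wle_C c
    have h4 := top_mul h3 h2.1
    rw [zero_add] at h4
    have h5 := h3.mul h2.1
    rw [zero_add] at h5
    exact ⟨h5, by rw [h4, top_C, h2.2]⟩

/-- Homomorphisms which map `X v` to an element of weight at most `w v` do not raise weights, and
their leading part is the homomorphism given by the components of weight `w v` of the images of
`X v`. Proof: as `bar_monomial` and `bar_top` in `Tp.lean`, with `Wle`, `top` in place of `WLE`,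
`TOP`. -/
theorem top_hom (e : A2 K →ₐ[K] A2 K) (he : ∀ v, Wle w (w v) (e (X v))) (q : ℚ) (a : A2 K)
    (ha : Wle w q a) :
    Wle w q (e a) ∧ top w q (e a) = aeval (fun v => top w (w v) (e (X v))) (top w q a) := by
  classical
  have key : ∀ s : Finset (Fin 2 →₀ ℕ), (∀ d ∈ s, Finsupp.weight w d ≤ q) →
      ∀ b : A2 K, b = ∑ d ∈ s, monomial d (coeff d a) →
      Wle w q (e b) ∧ top w q (e b) = aeval (fun v => top w (w v) (e (X v))) (top w q b) := by
    intro s
    induction s using Finset.induction_on with
    | empty =>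
      intro _ b hb
      rw [Finset.sum_empty] at hb
      subst hb
      rw [map_zero, top_zero, map_zero]
      exact ⟨wle_zero _, rfl⟩
    | insert d s hd ih =>
      intro hs b hb
      rw [Finset.sum_insert hd] at hb
      obtain ⟨h1, h2⟩ := ih (fun f hf => hs f (Finset.mem_insert_of_mem hf)) _ rfl
      obtain ⟨h3, h4⟩ := tophom_monomial e he d (coeff d a)
      have hle : Finsupp.weight w d ≤ q := hs d (Finset.mem_insert_self d s)
      have h5 : top w q (e (monomial d (coeff d a))) =
          aeval (fun v => top w (w v) (e (X v))) (top w q (monomial d (coeff d a))) := by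
        rcases hle.lt_or_eq with h | h
        · rw [top_monomial_ne d _ (ne_of_lt h), map_zero, top_of_lt h h3]
        · rw [← h, top_monomial_self, h4]
      subst hb
      rw [map_add, top_add, top_add, map_add, h2, h5]
      exact ⟨(h3.mono hle).add h1, rfl⟩
  refine key a.support (fun d hd => ha d (mem_support_iff.1 hd)) a ?_
  exact (support_sum_monomial_coeff a).symm

end Pool.Agent.Lib.MP_c052b4_al.JK
end

section

/-!
# Reduction of the degree of a coordinate: generic shear
-/

set_option autoImplicit false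

namespace Pool.Agent.Lib.MP_c052b4_al.JK

open MvPolynomial

universe u

variable {K : Type u} [Field K]

private theorem redA1_sum (d : Fin 2 →₀ ℕ) : (d.sum fun _ e => e) = d 0 + d 1 := by
  rw [Finsupp.sum_fintype _ _ (fun _ => rfl), Fin.sum_univ_two]

private theorem redA1_w (v : Fin 2) : wt 1 1 v = 1 := by
  fin_cases v <;> simp [wt]

private theorem redA1_weight (d : Fin 2 →₀ ℕ) : Finsupp.weight (wt 1 1) d = ((d 0 + d 1 : ℕ) : ℚ) := by
  rw [weight_wt]
  push_cast
  ring

/-- Proof. Let `G` be the homogeneous component of degree `n = totalDegree g` of `g`, `G ≠ 0`. The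
polynomial `G(T, 1)` is not zero (its coefficient at `T^i` is the coefficient of `x^i y^(n-i)`), so
there is `c` with `G(c, 1) ≠ 0` (`K` is infinite). Take `e = sh (Polynomial.C c * Polynomial.X)`,
that is `x ↦ x + c y`. The total degree of `e g` is at most `n` (`top_hom` with `w = 1`, or
directly) and the coefficient of `y^n` in `e g` is `G(c, 1)`: by `top_hom` it is the coefficient of
`y^n` in `G(x + c y, y)`; put `x = 0`. -/
theorem red_A1 [Infinite K] (g : A2 K) (hg : g ≠ 0) : ∃ e ∈ Aff K,
    (∀ d, coeff d (e g) ≠ 0 → d 0 + d 1 ≤ g.totalDegree) ∧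
      coeff (Finsupp.single 1 g.totalDegree) (e g) ≠ 0 := by
  classical
  obtain ⟨n, hn⟩ : ∃ n, n = g.totalDegree := ⟨_, rfl⟩
  obtain ⟨G, hG⟩ : ∃ G, G = top (wt 1 1) n g := ⟨_, rfl⟩
  have hG0 : G ≠ 0 := by
    obtain ⟨d, hd, hdn⟩ : ∃ d ∈ g.support, g.totalDegree = d.sum fun _ e => e :=
      Finset.exists_mem_eq_sup _ (support_nonempty.2 hg) _
    intro h0
    have h1 : coeff d G = coeff d g := by
      rw [hG, coeff_top, if_pos]
      rw [redA1_weight, hn, hdn, redA1_sum]
    rw [h0, coeff_zero] at h1
    exact (mem_support_iff.1 hd) h1.symm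
  obtain ⟨p, hp⟩ : ∃ p : Fin 2 → K, eval p (X 1 * G) ≠ 0 := by
    by_contra h
    push Not at h
    have h2 : (X 1 * G : A2 K) = 0 := by
      apply MvPolynomial.funext
      intro p
      rw [h p, map_zero]
    rcases mul_eq_zero.1 h2 with h3 | h3
    · exact X_ne_zero 1 h3
    · exact hG0 h3
  rw [map_mul, eval_X] at hp
  have hp1 : p 1 ≠ 0 := left_ne_zero_of_mul hp
  have hp2 : eval p G ≠ 0 := right_ne_zero_of_mul hp
  obtain ⟨c, hc⟩ : ∃ c, c = p 0 / p 1 := ⟨_, rfl⟩
  obtain ⟨e, he⟩ : ∃ e : AutA K, e = sh (Polynomial.C c * Polynomial.X) := ⟨_, rfl⟩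
  have hX0 : e (X 0) = X 0 + C c * X 1 := by
    rw [he, sh_X0, map_mul, Polynomial.aeval_C, Polynomial.aeval_X]
    rfl
  have hX1 : e (X 1) = X 1 := by
    rw [he, sh_X1]
  have hC1 : Wle (wt 1 1) 1 (C c * X 1 : A2 K) := by
    have h := (wle_C (w := wt 1 1) c).mul (wle_X (K := K) (w := wt 1 1) 1)
    rw [redA1_w, zero_add] at h
    exact h
  have hle : ∀ v, Wle (wt 1 1) (wt 1 1 v) ((e : A2 K →ₐ[K] A2 K) (X v)) := by
    intro v
    fin_cases v
    · change Wle (wt 1 1) (wt 1 1 0) (e (X 0))
      rw [hX0]
      refine (wle_X 0).add ?_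
      rw [redA1_w]
      exact hC1
    · change Wle (wt 1 1) (wt 1 1 1) (e (X 1))
      rw [hX1]
      exact wle_X 1
  have hgle : Wle (wt 1 1) n g := by
    intro d hd
    rw [redA1_weight]
    have h := le_totalDegree (mem_support_iff.2 hd)
    rw [redA1_sum, ← hn] at h
    exact_mod_cast h
  obtain ⟨h1, h2⟩ := top_hom (e : A2 K →ₐ[K] A2 K) hle n g hgle
  rw [← hG] at h2
  obtain ⟨H, hH⟩ : ∃ H, H = top (wt 1 1) n (e g) := ⟨_, rfl⟩
  have hcoe : ((e : A2 K →ₐ[K] A2 K)) g = e g := rfl
  rw [hcoe] at h1 h2
  rw [← hH] at h2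
  have hev : eval ![0, p 1] H = eval p G := by
    rw [h2]
    have h3 : ((eval ![0, p 1]).comp (aeval (fun v => top (wt 1 1) (wt 1 1 v)
        ((e : A2 K →ₐ[K] A2 K) (X v)))).toRingHom : A2 K →+* K) = eval p := by
      apply MvPolynomial.ringHom_ext
      · intro r
        simp
      · intro v
        fin_cases v
        · change eval ![0, p 1] (aeval _ (X 0)) = eval p (X 0)
          rw [aeval_X]
          change eval ![0, p 1] (top (wt 1 1) (wt 1 1 0) (e (X 0))) = _
          have h4 : top (wt 1 1) (wt 1 1 0) (C c * X 1 : A2 K) = C c * X 1 := by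
            have h := top_mul (wle_C (w := wt 1 1) c) (wle_X (K := K) (w := wt 1 1) 1)
            rw [top_C, top_X, zero_add, redA1_w] at h
            rw [redA1_w]
            exact h
          rw [hX0, top_add, h4, top_X]
          simp only [map_add, map_mul, eval_X, eval_C, hc]
          simp [div_mul_cancel₀ _ hp1]
        · change eval ![0, p 1] (aeval _ (X 1)) = eval p (X 1)
          rw [aeval_X]
          change eval ![0, p 1] (top (wt 1 1) (wt 1 1 1) (e (X 1))) = _
          rw [hX1, top_X]
          simp
    exact RingHom.congr_fun h3 G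
  refine ⟨e, ?_, ?_, ?_⟩
  · rw [he]
    apply sh_mem_Aff
    exact (Polynomial.natDegree_C_mul_le _ _).trans Polynomial.natDegree_X_le
  · intro d hd
    have h := h1 d hd
    rw [redA1_weight] at h
    rw [← hn]
    exact_mod_cast h
  · rw [← hn]
    rw [← hev, eval_eq'] at hp2
    obtain ⟨d, hd, hne⟩ := Finset.exists_ne_zero_of_sum_ne_zero hp2
    have h5 := mem_support_iff.1 hd
    rw [hH, coeff_top] at h5
    have h6 : d 0 = 0 := by
      by_contra h0
      apply hne
      rw [Fin.prod_univ_two]
      simp [h0]
    by_cases h7 : Finsupp.weight (wt 1 1) d = n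
    · rw [if_pos h7] at h5
      rw [redA1_weight] at h7
      have h8 : d 0 + d 1 = n := by exact_mod_cast h7
      have h9 : d = Finsupp.single 1 n := by
        ext v
        fin_cases v
        · simp [h6]
        · simp only [Fin.mk_one, Finsupp.single_eq_same]
          omega
      rw [← h9]
      exact h5
    · rw [if_neg h7] at h5
      exact (h5 rfl).elim

end Pool.Agent.Lib.MP_c052b4_al.JK
end

section

/-!
# TREES^n, section 4, E05a: values of functors
-/

set_option autoImplicit false
set_option linter.unusedVariables false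

namespace Pool.Agent.Lib.MP_c052b4_al.MT

open CategoryTheory Opposite Limits

universe u

variable {S : Type u} [Ring S] {G : Type u} [Group G] {L : Lbl G}

/-- Evaluation of functors at a label. -/
noncomputable abbrev valF (S : Type u) [Ring S] {G : Type u} [Group G] {L : Lbl G} (x : L.W) :
    AA S L ⥤ ModuleCat.{u} S := (evaluation _ _).obj (op ⟨x⟩)

/-- A complex of functors is acyclic iff all its values are acyclic (evaluation functors are exact
and jointly reflect zero objects). -/
theorem acyclic_iff_val (K : CochainComplex (AA S L) ℤ) :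
    K.Acyclic ↔ ∀ x : L.W, (((valF S x).mapHomologicalComplex (ComplexShape.up ℤ)).obj K).Acyclic := by
  constructor
  · intro h x i
    rw [HomologicalComplex.exactAt_iff]
    exact ((HomologicalComplex.exactAt_iff _ _).1 (h i)).map (valF S x)
  · intro h i
    rw [HomologicalComplex.exactAt_iff, ShortComplex.exact_iff_isZero_homology,
      Functor.isZero_iff]
    rintro ⟨⟨x⟩⟩
    have h1 := (HomologicalComplex.exactAt_iff _ _).1 (h x i)
    have h2 : ((K.sc i).map (valF S x)).Exact := h1
    rw [ShortComplex.exact_iff_isZero_homology] at h2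
    exact h2.of_iso ((K.sc i).mapHomologyIso (valF S x)).symm

end Pool.Agent.Lib.MP_c052b4_al.MT
end
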