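import Pool.Agent.Lib.MP_c052b4_al.Mg.G001
import Pool.Agent.Lib.MP_c052b4_al.Mg.G027

section

/-!
# Coefficientwise partial derivatives on `A[t]`
-/

set_option autoImplicit false

namespace Pool.Agent.Lib.MP_c052b4_al.JK

open MvPolynomial

universe u

variable {K : Type u} [Field K]

/-- the partial derivative of the coefficients -/
noncomputable def Dc (v : Fin 2) (P : Polynomial (A2 K)) : Polynomial (A2 K) :=
  ∑ i ∈ P.support, Polynomial.monomial i (pderiv v (P.coeff i))

theorem coeff_Dc (v : Fin 2) (P : Polynomial (A2 K)) (i : ℕ) :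
    (Dc v P).coeff i = pderiv v (P.coeff i) := by
  classical
  rw [Dc, Polynomial.finsetSum_coeff]
  simp only [Polynomial.coeff_monomial]
  rw [Finset.sum_ite_eq' P.support i]
  split_ifs with h
  · rfl
  · rw [Polynomial.notMem_support_iff.1 h, map_zero]

theorem Dc_sub (v : Fin 2) (P Q : Polynomial (A2 K)) : Dc v (P - Q) = Dc v P - Dc v Q := by
  ext1 i
  rw [Polynomial.coeff_sub, coeff_Dc, coeff_Dc, coeff_Dc, Polynomial.coeff_sub, map_sub]

theorem Dc_mul (v : Fin 2) (P Q : Polynomial (A2 K)) :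
    Dc v (P * Q) = P * Dc v Q + Dc v P * Q := by
  ext1 i
  rw [coeff_Dc, Polynomial.coeff_add, Polynomial.coeff_mul, Polynomial.coeff_mul,
    Polynomial.coeff_mul, map_sum, ← Finset.sum_add_distrib]
  refine Finset.sum_congr rfl fun x _ => ?_
  rw [coeff_Dc, coeff_Dc, Derivation.leibniz, smul_eq_mul, smul_eq_mul, mul_comm (Q.coeff x.2)]

theorem Dc_C (v : Fin 2) (a : A2 K) : Dc v (Polynomial.C a) = Polynomial.C (pderiv v a) := by
  ext1 i
  rw [coeff_Dc, Polynomial.coeff_C, Polynomial.coeff_C]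
  split_ifs
  · rfl
  · rw [map_zero]

theorem Dc_pow (v : Fin 2) (P : Polynomial (A2 K)) (n : ℕ) :
    Dc v (P ^ n) = (n : Polynomial (A2 K)) * P ^ (n - 1) * Dc v P := by
  induction n with
  | zero =>
    have h : (1 : Polynomial (A2 K)) = Polynomial.C 1 := by rw [Polynomial.C_1]
    rw [pow_zero, h, Dc_C, Derivation.map_one_eq_zero, Polynomial.C_0, Nat.cast_zero, zero_mul,
      zero_mul]
  | succ n ih =>
    rw [pow_succ, Dc_mul, ih]
    rcases Nat.eq_zero_or_pos n with rfl | hn
    · simp
    · obtain ⟨m, rfl⟩ : ∃ m, n = m + 1 := ⟨n - 1, by omega⟩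
      rw [Nat.add_sub_cancel, Nat.add_sub_cancel]
      push_cast
      ring

theorem natDegree_Dc_le (v : Fin 2) (P : Polynomial (A2 K)) :
    (Dc v P).natDegree ≤ P.natDegree := by
  rw [Polynomial.natDegree_le_iff_coeff_eq_zero]
  intro n hn
  rw [coeff_Dc, Polynomial.coeff_eq_zero_of_natDegree_lt hn, map_zero]

end Pool.Agent.Lib.MP_c052b4_al.JK
end

section

/-!
# The Jacobian relation
-/

set_option autoImplicit false

namespace Pool.Agent.Lib.MP_c052b4_al.JK

open MvPolynomial

universe u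

variable {K : Type u} [Field K]

/-- The Jacobian determinant of `P, Q`. -/
noncomputable def Jac (P Q : Polynomial (A2 K)) : Polynomial (A2 K) :=
  Dc 0 P * Dc 1 Q - Dc 1 P * Dc 0 Q

/-- Proof: the coefficient at `t ^ 0` is `1`. -/
theorem Jac_ne_zero (P Q : Polynomial (A2 K)) (hP : P.coeff 0 = X 0) (hQ : Q.coeff 0 = X 1) :
    Jac P Q ≠ 0 := by
  intro h
  have h1 : (Jac P Q).coeff 0 = 0 := by rw [h, Polynomial.coeff_zero]
  rw [Jac, Polynomial.coeff_sub, Polynomial.mul_coeff_zero, Polynomial.mul_coeff_zero,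
    coeff_Dc, coeff_Dc, coeff_Dc, coeff_Dc, hP, hQ, pderiv_X_self, pderiv_X_self,
    pderiv_X_of_ne (by decide), pderiv_X_of_ne (by decide)] at h1
  simp at h1

private theorem excl1_D (v : Fin 2) (P Q : Polynomial (A2 K)) (a b : ℕ) (γ δ : K) (h : A2 K)
    (hrel : Polynomial.C (C δ) * P ^ a - Polynomial.C (C γ) * Q ^ b = Polynomial.C h) :
    Polynomial.C (C δ) * ((a : Polynomial (A2 K)) * P ^ (a - 1) * Dc v P) -
      Polynomial.C (C γ) * ((b : Polynomial (A2 K)) * Q ^ (b - 1) * Dc v Q) =
      Polynomial.C (pderiv v h) := by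
  have h1 := congrArg (Dc v) hrel
  rw [Dc_sub, Dc_mul, Dc_mul, Dc_C, Dc_C, Dc_C, Dc_pow, Dc_pow, pderiv_C, pderiv_C,
    Polynomial.C_0, zero_mul, zero_mul, add_zero, add_zero] at h1
  exact h1

/-- Proof. Apply `Dc 0` and `Dc 1` to the relation `C (C δ) * P ^ a - C (C γ) * Q ^ b = C h`:
`δ a P^(a-1) D₀P - γ b Q^(b-1) D₀Q = C (∂₀h)`, `δ a P^(a-1) D₁P - γ b Q^(b-1) D₁Q = C (∂₁h)`.
Multiply the first by `D₁P`, the second by `D₀P` and subtract:
`γ b Q^(b-1) Jac P Q = C (∂₀h) D₁P - C (∂₁h) D₀P`. -/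
theorem Jac_rel (P Q : Polynomial (A2 K)) (a b : ℕ) (γ δ : K) (h : A2 K)
    (hrel : Polynomial.C (C δ) * P ^ a - Polynomial.C (C γ) * Q ^ b = Polynomial.C h) :
    Polynomial.C (C (γ * b)) * Q ^ (b - 1) * Jac P Q =
      Polynomial.C (pderiv 0 h) * Dc 1 P - Polynomial.C (pderiv 1 h) * Dc 0 P := by
  have e0 := excl1_D 0 P Q a b γ δ h hrel
  have e1 := excl1_D 1 P Q a b γ δ h hrel
  have e2 : Polynomial.C (C (γ * b) : A2 K) =
      Polynomial.C (C γ) * (b : Polynomial (A2 K)) := by
    rw [C_mul, Polynomial.C_mul, map_natCast, map_natCast]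
  rw [e2, Jac, ← e0, ← e1]
  ring

/-- Proof. By `Jac_rel` (with `γ b ≠ 0` in `K` and `Jac P Q ≠ 0`) and degrees in `t`:
`(b - 1) natDegree Q ≤ natDegree (γ b Q^(b-1) Jac P Q) ≤ natDegree P` (`natDegree_Dc_le`). -/
theorem natDegree_half (P Q : Polynomial (A2 K)) (hJ : Jac P Q ≠ 0) (a b : ℕ) (γ δ : K) (h : A2 K)
    (hγ : γ ≠ 0) (hb : (b : K) ≠ 0)
    (hrel : Polynomial.C (C δ) * P ^ a - Polynomial.C (C γ) * Q ^ b = Polynomial.C h) :
    (b - 1) * Q.natDegree ≤ P.natDegree := by
  have e := Jac_rel P Q a b γ δ h hrel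
  by_cases hQ : Q = 0
  · rw [hQ, Polynomial.natDegree_zero, mul_zero]
    exact Nat.zero_le _
  have h1 : Polynomial.C (C (γ * b) : A2 K) ≠ 0 := by
    rw [Ne, Polynomial.C_eq_zero, MvPolynomial.C_eq_zero]
    exact mul_ne_zero hγ hb
  have h2 : (Polynomial.C (C (γ * b)) * Q ^ (b - 1) * Jac P Q).natDegree =
      (b - 1) * Q.natDegree + (Jac P Q).natDegree := by
    rw [Polynomial.natDegree_mul (mul_ne_zero h1 (pow_ne_zero _ hQ)) hJ,
      Polynomial.natDegree_mul h1 (pow_ne_zero _ hQ), Polynomial.natDegree_C,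
      Polynomial.natDegree_pow, zero_add]
  have h3 : ∀ (g : A2 K) (v : Fin 2),
      (Polynomial.C g * Dc v P).natDegree ≤ P.natDegree := fun g v =>
    (Polynomial.natDegree_C_mul_le _ _).trans (natDegree_Dc_le v P)
  have h4 : (Polynomial.C (C (γ * b)) * Q ^ (b - 1) * Jac P Q).natDegree ≤ P.natDegree := by
    rw [e]
    exact (Polynomial.natDegree_sub_le _ _).trans (max_le (h3 _ _) (h3 _ _))
  omega

end Pool.Agent.Lib.MP_c052b4_al.JK
end

section

/-!
# TREES^n, section 4, E01: tree directions and acyclic functors (definitions)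
-/

set_option autoImplicit false
set_option linter.unusedVariables false

namespace Pool.Agent.Lib.MP_c052b4_al.MT

open CategoryTheory Opposite Limits

universe u

variable {S : Type u} [Ring S] {G : Type u} [Group G]

/-- `p : L → L'` forgets a label which is a finite subtree of a tree with vertices `V`, oriented edges
`E`. `vx x v` (`ex x e`) is the label `x` with the forgotten label replaced by the vertex `v` (by the
edge `e`). `path v` is the chain of the path from the root to `v`. -/
structure TreeDir {L L' : Lbl G} (p : LblHom L L') where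
  E : Type u
  V : Type u
  src : E → V
  tgt : E → V
  root : V
  path : V → E →₀ ℤ
  path_diff : ∀ e, path (tgt e) - path (src e) = Finsupp.single e 1
  bdry_path : ∀ v, (path v).sum (fun e n => n • (Finsupp.single (tgt e) (1 : ℤ) -
    Finsupp.single (src e) 1)) = Finsupp.single v 1 - Finsupp.single root 1
  surj : Function.Surjective p.f
  vx : L.W → V → L.W
  ex : L.W → E → L.W
  src_le : ∀ x e, L.le (vx x (src e)) (ex x e)
  tgt_le : ∀ x e, L.le (vx x (tgt e)) (ex x e)
  below : ∀ x y, L'.le (p.f x) (p.f y) ↔ ∃ v, L.le (vx x v) y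
  conn : ∀ x y v v', L.le (vx x v) y → L.le (vx x v') y → ∀ e, path v' e ≠ path v e →
    L.le (ex x e) y

variable {L : Lbl G}

/-- `N ↦ ⨁ i, N(f i)`. -/
noncomputable def dsF (S : Type u) [Ring S] {ι : Type u} (f : ι → Q L) : AA S L ⥤ ModuleCat.{u} S where
  obj N := ModuleCat.of S (DirectSum ι fun i => N.obj (op (f i)))
  map {N N'} t := ModuleCat.ofHom (DirectSum.lmap fun i => (t.app (op (f i))).hom)
  map_id N := ModuleCat.hom_ext (LinearMap.ext fun v => DFinsupp.ext fun i => rfl)
  map_comp t t' := ModuleCat.hom_ext (LinearMap.ext fun v => DFinsupp.ext fun i => rfl)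

instance dsF_additive {ι : Type u} (f : ι → Q L) : (dsF S f).Additive where
  map_add := ModuleCat.hom_ext (LinearMap.ext fun v => DFinsupp.ext fun i => rfl)

namespace TreeDir

variable {L' : Lbl G} {p : LblHom L L'} (d : TreeDir p)

/-- The direct sum over the edges. -/
noncomputable abbrev CE (S : Type u) [Ring S] (x : L.W) : AA S L ⥤ ModuleCat.{u} S :=
  dsF S fun e : d.E => (⟨d.ex x e⟩ : Q L)

/-- The direct sum over the vertices. -/
noncomputable abbrev CV (S : Type u) [Ring S] (x : L.W) : AA S L ⥤ ModuleCat.{u} S :=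
  dsF S fun v : d.V => (⟨d.vx x v⟩ : Q L)

/-- The inclusion of the end of an edge. -/
def tgtHom (x : L.W) (e : d.E) : (⟨d.vx x (d.tgt e)⟩ : Q L) ⟶ ⟨d.ex x e⟩ :=
  qmk 1 (by rw [one_smul]; exact d.tgt_le x e)

/-- The inclusion of the origin of an edge. -/
def srcHom (x : L.W) (e : d.E) : (⟨d.vx x (d.src e)⟩ : Q L) ⟶ ⟨d.ex x e⟩ :=
  qmk 1 (by rw [one_smul]; exact d.src_le x e)

open Classical in
/-- The boundary map. -/
noncomputable def bdryLin (x : L.W) (N : AA S L) :
    (DirectSum d.E fun e => N.obj (op (⟨d.ex x e⟩ : Q L))) →ₗ[S]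
      (DirectSum d.V fun v => N.obj (op (⟨d.vx x v⟩ : Q L))) :=
  DirectSum.toModule S d.E _ fun e =>
    (DirectSum.lof S d.V (fun v => N.obj (op (⟨d.vx x v⟩ : Q L))) (d.tgt e)).comp
      (N.map (d.tgtHom x e).op).hom -
    (DirectSum.lof S d.V (fun v => N.obj (op (⟨d.vx x v⟩ : Q L))) (d.src e)).comp
      (N.map (d.srcHom x e).op).hom

open Classical in
theorem bdryLin_lof (x : L.W) (N : AA S L) (e : d.E) (n : N.obj (op (⟨d.ex x e⟩ : Q L))) :
    d.bdryLin x N (DirectSum.lof S d.E (fun e => N.obj (op (⟨d.ex x e⟩ : Q L))) e n) =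
      DirectSum.lof S d.V (fun v => N.obj (op (⟨d.vx x v⟩ : Q L))) (d.tgt e)
        ((N.map (d.tgtHom x e).op).hom n) -
      DirectSum.lof S d.V (fun v => N.obj (op (⟨d.vx x v⟩ : Q L))) (d.src e)
        ((N.map (d.srcHom x e).op).hom n) := by
  unfold bdryLin
  rw [DirectSum.toModule_lof, LinearMap.sub_apply, LinearMap.comp_apply, LinearMap.comp_apply]

/-- The boundary map as a natural transformation. -/
noncomputable def bdry (S : Type u) [Ring S] (x : L.W) : d.CE S x ⟶ d.CV S x where
  app N := ModuleCat.ofHom (d.bdryLin x N)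
  naturality N N' t := by
    classical
    refine ModuleCat.hom_ext (DirectSum.linearMap_ext _ fun e => LinearMap.ext fun v => ?_)
    have h1 := congrArg (fun f => f.hom v) (t.naturality (d.tgtHom x e).op)
    have h2 := congrArg (fun f => f.hom v) (t.naturality (d.srcHom x e).op)
    simp only [ModuleCat.hom_comp, LinearMap.comp_apply] at h1 h2
    change d.bdryLin x N' (DirectSum.lmap (fun e => (t.app (op (⟨d.ex x e⟩ : Q L))).hom)
        (DirectSum.lof S d.E (fun e => N.obj (op (⟨d.ex x e⟩ : Q L))) e v)) =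
      DirectSum.lmap (fun w => (t.app (op (⟨d.vx x w⟩ : Q L))).hom)
        (d.bdryLin x N (DirectSum.lof S d.E (fun e => N.obj (op (⟨d.ex x e⟩ : Q L))) e v))
    rw [DirectSum.lmap_lof, bdryLin_lof, bdryLin_lof, map_sub, DirectSum.lmap_lof,
      DirectSum.lmap_lof]
    exact congrArg₂ (fun a b => a - b) (congrArg _ h1.symm) (congrArg _ h2.symm)

/-- Acyclic functors (in the direction `d`): all boundary maps are bijective. -/
def Ac (S : Type u) [Ring S] : ObjectProperty (AA S L) := fun N =>
  ∀ x : L.W, Function.Bijective ((d.bdry S x).app N).hom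

end TreeDir

end Pool.Agent.Lib.MP_c052b4_al.MT
end

section

/-!
# TREES^n, section 4, E02a: exactness of direct sums
-/

set_option autoImplicit false
set_option linter.unusedVariables false

namespace Pool.Agent.Lib.MP_c052b4_al.MT

open CategoryTheory Opposite Limits

universe u

variable {S : Type u} [Ring S] {G : Type u} [Group G] {L : Lbl G}

/-- `dsF` maps short exact sequences of functors to short exact sequences of modules: short exact
sequences of functors are pointwise short exact; direct sums of injective (surjective) maps are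
injective (surjective): `DirectSum.lmap_injective`, `DirectSum.lmap_surjective`; exactness in the
middle: `DirectSum.ker_lmap`, `DirectSum.range_lmap`. -/
theorem dsF_shortExact {ι : Type u} (f : ι → Q L) (T : ShortComplex (AA S L)) (hT : T.ShortExact) :
    (T.map (dsF S f)).ShortExact := by
  classical
  have hp : ∀ i : ι, (T.map ((evaluation (Q L)ᵒᵖ (ModuleCat.{u} S)).obj (op (f i)))).ShortExact :=
    fun i => hT.map_of_exact _
  have hinj : ∀ i : ι, Function.Injective ((T.f.app (op (f i))).hom) := fun i =>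
    (ModuleCat.mono_iff_injective _).1 (hp i).mono_f
  have hsurj : ∀ i : ι, Function.Surjective ((T.g.app (op (f i))).hom) := fun i =>
    (ModuleCat.epi_iff_surjective _).1 (hp i).epi_g
  have hex : ∀ i : ι, LinearMap.range ((T.f.app (op (f i))).hom) =
      LinearMap.ker ((T.g.app (op (f i))).hom) := fun i =>
    (ShortComplex.moduleCat_exact_iff_range_eq_ker _).1 (hp i).exact
  refine ShortComplex.ShortExact.mk' ?_ ?_ ?_
  · rw [ShortComplex.moduleCat_exact_iff_range_eq_ker]
    change LinearMap.range (DirectSum.lmap fun i => (T.f.app (op (f i))).hom) =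
      LinearMap.ker (DirectSum.lmap fun i => (T.g.app (op (f i))).hom)
    rw [DirectSum.ker_lmap, DirectSum.range_lmap]
    simp only [hex]
  · refine (ModuleCat.mono_iff_injective _).2 ?_
    exact (DirectSum.lmap_injective _).2 hinj
  · refine (ModuleCat.epi_iff_surjective _).2 ?_
    exact (DirectSum.lmap_surjective _).2 hsurj

/-- `dsF` is exact (`Functor.preservesFiniteLimits_tfae`/`exact_tfae` and `dsF_shortExact`). -/
instance dsF_lim {ι : Type u} (f : ι → Q L) : PreservesFiniteLimits (dsF S f) := by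
  have := ((Functor.exact_tfae (dsF S f)).out 0 3).1 (fun T hT => dsF_shortExact f T hT)
  exact this.1

instance dsF_colim {ι : Type u} (f : ι → Q L) : PreservesFiniteColimits (dsF S f) := by
  have := ((Functor.exact_tfae (dsF S f)).out 0 3).1 (fun T hT => dsF_shortExact f T hT)
  exact this.2

end Pool.Agent.Lib.MP_c052b4_al.MT
end
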