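import Pool.Agent.Lib.MP_c052b4_al.Mg.G001

section

/-!
# Degrees and arithmetic
-/

set_option autoImplicit false

namespace Pool.Agent.Lib.MP_c052b4_al.JK

open MvPolynomial

universe u

variable {K : Type u} [Field K]

/-- Proof. If `a * natDegree P ≠ b * natDegree Q` the two terms have different degrees, so the
degree of the difference is the larger one of these, which is positive: contradiction with
`natDegree (C h) = 0`. -/
theorem natDegree_eq_of_rel (P Q : Polynomial (A2 K)) (hP : P ≠ 0) (hQ : Q ≠ 0) (a b : ℕ)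
    (γ δ : K) (h : A2 K) (hγ : γ ≠ 0) (hδ : δ ≠ 0)
    (hrel : Polynomial.C (C δ) * P ^ a - Polynomial.C (C γ) * Q ^ b = Polynomial.C h) :
    a * P.natDegree = b * Q.natDegree := by
  have h1 : Polynomial.C (C δ : A2 K) ≠ 0 := by
    rw [Ne, Polynomial.C_eq_zero, MvPolynomial.C_eq_zero]
    exact hδ
  have h2 : Polynomial.C (C γ : A2 K) ≠ 0 := by
    rw [Ne, Polynomial.C_eq_zero, MvPolynomial.C_eq_zero]
    exact hγ
  have h3 : (Polynomial.C (C δ) * P ^ a).natDegree = a * P.natDegree := by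
    rw [Polynomial.natDegree_mul h1 (pow_ne_zero _ hP), Polynomial.natDegree_C,
      Polynomial.natDegree_pow, zero_add]
  have h4 : (Polynomial.C (C γ) * Q ^ b).natDegree = b * Q.natDegree := by
    rw [Polynomial.natDegree_mul h2 (pow_ne_zero _ hQ), Polynomial.natDegree_C,
      Polynomial.natDegree_pow, zero_add]
  have h5 := congrArg Polynomial.natDegree hrel
  rw [Polynomial.natDegree_C] at h5
  rcases lt_trichotomy (a * P.natDegree) (b * Q.natDegree) with hlt | heq | hgt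
  · rw [Polynomial.natDegree_sub_eq_right_of_natDegree_lt (by rw [h3, h4]; exact hlt), h4] at h5
    omega
  · exact heq
  · rw [Polynomial.natDegree_sub_eq_left_of_natDegree_lt (by rw [h3, h4]; exact hgt), h3] at h5
    omega

/-- Arithmetic: `b (a - 1) ≤ a` with `a, b ≥ 2` implies `a = b = 2`. -/
theorem arith_half {a b α β : ℕ} (ha : 2 ≤ a) (hb : 2 ≤ b) (hab : a.Coprime b) (hβ : β ≠ 0)
    (h1 : a * α = b * β) (h2 : (b - 1) * β ≤ α) : False := by
  have h3 : a * ((b - 1) * β) ≤ b * β := by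
    rw [← h1]
    exact Nat.mul_le_mul_left a h2
  have h4 : a * (b - 1) ≤ b := by
    refine Nat.le_of_mul_le_mul_right ?_ (Nat.pos_of_ne_zero hβ)
    rw [mul_assoc]
    exact h3
  have h5 : 2 * (b - 1) ≤ a * (b - 1) := Nat.mul_le_mul_right _ ha
  have hb2 : b = 2 := by omega
  subst hb2
  have ha2 : a = 2 := by omega
  subst ha2
  exact absurd hab (by decide)

end Pool.Agent.Lib.MP_c052b4_al.JK
end

section

/-!
# The leading part of a homomorphism `A → A[t]`: existence of the weight of `t`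
-/

set_option autoImplicit false

namespace Pool.Agent.Lib.MP_c052b4_al.JK

open MvPolynomial

universe u

variable {K : Type u} [Field K]

/-- Proof: `MvPolynomial.algHom_ext` for `φ` and the coefficient embedding. -/
theorem triv_of_X (φ : A2 K →ₐ[K] Polynomial (A2 K))
    (h : ∀ v, φ (X v) = Polynomial.C (X v)) (a : A2 K) : φ a = Polynomial.C a := by
  have h1 : φ = (Polynomial.CAlgHom : A2 K →ₐ[K] Polynomial (A2 K)) := algHom_ext fun v => h v
  rw [h1]
  rfl

/-- Proof: the same for the composition of `φ` with the evaluation at `t = 0`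
(`Polynomial.constantCoeff`). -/
theorem fix_of_X (φ : A2 K →ₐ[K] Polynomial (A2 K))
    (h : ∀ v, (φ (X v)).coeff 0 = X v) (a : A2 K) : (φ a).coeff 0 = a := by
  have h1 : ((Polynomial.aeval (0 : A2 K)).restrictScalars K).comp φ = AlgHom.id K (A2 K) := by
    refine algHom_ext fun v => ?_
    rw [AlgHom.comp_apply, AlgHom.restrictScalars_apply, AlgHom.id_apply, ← Polynomial.coeff_zero_eq_aeval_zero]
    exact h v
  have h2 := DFunLike.congr_fun h1 a
  rw [AlgHom.comp_apply, AlgHom.restrictScalars_apply, AlgHom.id_apply, ← Polynomial.coeff_zero_eq_aeval_zero] at h2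
  exact h2

/-- Proof. Let `S` be the finite set of all triples `(v, i, d)` with `i ≥ 1` and `d` in the support
of the `i`-th coefficient of `ψ (X v)`. It is not empty (otherwise `ψ (X v) = C (X v)` for all `v`
by `h0`, and `triv_of_X`). Let `τ` be the maximum of `(weight w d - w v) / i` over `S`
(`Finset.exists_max_image`). For `i = 0` the coefficient is `X v`, of weight `w v`; for `i ≥ 1` all
`d` in the support have `weight w d ≤ w v + i τ`: this is `WLE`. The coefficient `0` of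
`bar w τ ψ (X v) = TOP w τ (w v) (ψ (X v))` is `top w (w v) (X v) = X v` (use `fix_of_X`). If
`(v, i, d)` attains the maximum, the `i`-th coefficient of `TOP w τ (w v) (ψ (X v))` has the nonzero
coefficient at `d`, so `bar w τ ψ (X v) ≠ C (X v)` (`i ≥ 1`). -/
theorem exists_tau (w : Fin 2 → ℚ) (ψ : A2 K →ₐ[K] Polynomial (A2 K))
    (h0 : ∀ a, (ψ a).coeff 0 = a) (hnt : ¬ ∀ a, ψ a = Polynomial.C a) :
    ∃ τ : ℚ, (∀ v, WLE w τ (w v) (ψ (X v))) ∧ (∀ a, (bar w τ ψ a).coeff 0 = a) ∧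
      ¬ ∀ a, bar w τ ψ a = Polynomial.C a := by
  classical
  let S : Finset (Σ _ : Fin 2, Σ _ : ℕ, (Fin 2 →₀ ℕ)) :=
    (Finset.univ.sigma fun v => (ψ (X v)).support.sigma fun i => ((ψ (X v)).coeff i).support).filter
      fun x => x.2.1 ≠ 0
  have hmem : ∀ (v : Fin 2) (i : ℕ) (d : Fin 2 →₀ ℕ),
      (⟨v, i, d⟩ : Σ _ : Fin 2, Σ _ : ℕ, (Fin 2 →₀ ℕ)) ∈ S ↔ coeff d ((ψ (X v)).coeff i) ≠ 0 ∧ i ≠ 0 := by
    intro v i d
    rw [Finset.mem_filter, Finset.mem_sigma, Finset.mem_sigma]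
    constructor
    · rintro ⟨⟨-, -, h1⟩, h2⟩
      exact ⟨mem_support_iff.1 h1, h2⟩
    · rintro ⟨h1, h2⟩
      refine ⟨⟨Finset.mem_univ _, ?_, mem_support_iff.2 h1⟩, h2⟩
      rw [Polynomial.mem_support_iff]
      intro h3
      exact h1 (by rw [show (ψ (X v)).coeff i = 0 from h3, coeff_zero])
  have hne : S.Nonempty := by
    by_contra hS
    rw [Finset.not_nonempty_iff_eq_empty] at hS
    refine hnt (triv_of_X ψ fun v => ?_)
    ext1 i
    rw [Polynomial.coeff_C]
    split_ifs with hi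
    · rw [hi]
      exact h0 _
    · ext1 d
      rw [coeff_zero]
      by_contra hd
      have h1 := (hmem v i d).2 ⟨hd, hi⟩
      rw [hS] at h1
      exact absurd h1 (Finset.notMem_empty _)
  obtain ⟨⟨v₀, i₀, d₀⟩, hx₀, hmax⟩ := Finset.exists_max_image S
    (fun x => (Finsupp.weight w x.2.2 - w x.1) / (x.2.1 : ℚ)) hne
  obtain ⟨hc₀, hi₀⟩ := (hmem v₀ i₀ d₀).1 hx₀
  have hi₀' : (0 : ℚ) < i₀ := by exact_mod_cast Nat.pos_of_ne_zero hi₀
  refine ⟨(Finsupp.weight w d₀ - w v₀) / (i₀ : ℚ), ?_, ?_, ?_⟩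
  · intro v i
    rcases Nat.eq_zero_or_pos i with hi | hi
    · subst hi
      rw [h0, Nat.cast_zero, zero_mul, add_zero]
      exact wle_X v
    · intro d hd
      have h1 := hmax ⟨v, i, d⟩ ((hmem v i d).2 ⟨hd, hi.ne'⟩)
      have hi' : (0 : ℚ) < i := by exact_mod_cast hi
      have h2 : Finsupp.weight w d - w v ≤ (Finsupp.weight w d₀ - w v₀) / (i₀ : ℚ) * i :=
        (div_le_iff₀ hi').1 h1
      linarith
  · refine fix_of_X _ fun v => ?_
    rw [bar_X, coeff_TOP, h0, Nat.cast_zero, zero_mul, add_zero, top_X]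
  · intro hall
    have h1 := congrArg (fun P : Polynomial (A2 K) => coeff d₀ (P.coeff i₀)) (hall (X v₀))
    beta_reduce at h1
    rw [bar_X, coeff_TOP, coeff_top, Polynomial.coeff_C, if_neg hi₀, coeff_zero, if_pos] at h1
    · exact hc₀ h1
    · rw [mul_div_cancel₀ _ hi₀'.ne']
      ring

end Pool.Agent.Lib.MP_c052b4_al.JK
end

section

/-!
# Factors of fixed elements are fixed
-/

set_option autoImplicit false

namespace Pool.Agent.Lib.MP_c052b4_al.JK

open MvPolynomial

universe u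

variable {K : Type u} [Field K]

/-- Proof: `c = a b`, `φ a * φ b = C c ≠ 0`, so `natDegree (φ a) + natDegree (φ b) = 0`
(`Polynomial.natDegree_mul`), `φ a = C ((φ a).coeff 0) = C a`. -/
theorem fac_dvd (φ : A2 K →ₐ[K] Polynomial (A2 K)) (h0 : ∀ a, (φ a).coeff 0 = a) {a c : A2 K}
    (hc : c ≠ 0) (h : φ c = Polynomial.C c) (hd : a ∣ c) : φ a = Polynomial.C a := by
  obtain ⟨b, rfl⟩ := hd
  rw [map_mul] at h
  have hne : φ a * φ b ≠ 0 := by
    rw [h]
    exact Polynomial.C_ne_zero.2 hc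
  have h1 : (φ a).natDegree + (φ b).natDegree = 0 := by
    rw [← Polynomial.natDegree_mul (left_ne_zero_of_mul hne) (right_ne_zero_of_mul hne), h,
      Polynomial.natDegree_C]
  have h2 := Polynomial.eq_C_of_natDegree_eq_zero (Nat.eq_zero_of_add_eq_zero_right h1)
  rw [h0] at h2
  exact h2

/-- Proof: `φ (X 0) = φ (X 0 - C r * X 1 ^ b) + φ (C r * X 1 ^ b)` and `triv_of_X`, `alg_C`. -/
theorem triv_of_y (φ : A2 K →ₐ[K] Polynomial (A2 K)) (r : K) (b : ℕ)
    (h1 : φ (X 1) = Polynomial.C (X 1))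
    (h2 : φ (X 0 - C r * X 1 ^ b) = Polynomial.C (X 0 - C r * X 1 ^ b)) (a : A2 K) :
    φ a = Polynomial.C a := by
  refine triv_of_X φ (fun v => ?_) a
  have h3 : φ (X 0) = Polynomial.C (X 0) := by
    have h4 : (X 0 : A2 K) = (X 0 - C r * X 1 ^ b) + C r * X 1 ^ b := by ring
    have h5 : φ (C r * X 1 ^ b) = Polynomial.C (C r * X 1 ^ b) := by
      rw [map_mul, map_pow, alg_C, h1, Polynomial.C_mul, Polynomial.C_pow]
    calc φ (X 0) = φ ((X 0 - C r * X 1 ^ b) + C r * X 1 ^ b) := by rw [← h4]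
      _ = Polynomial.C (X 0 - C r * X 1 ^ b) + Polynomial.C (C r * X 1 ^ b) := by rw [map_add, h2, h5]
      _ = Polynomial.C (X 0) := by rw [← Polynomial.C_add, ← h4]
  fin_cases v
  · exact h3
  · exact h1

/-- Proof: the difference of the two fixed elements is `C (s - r) * X 1 ^ b`, so it is fixed, so its
divisor `X 1` is fixed (`fac_dvd`, `b ≠ 0`); now `triv_of_y`. -/
theorem triv_of_two (φ : A2 K →ₐ[K] Polynomial (A2 K)) (h0 : ∀ a, (φ a).coeff 0 = a)
    (r s : K) (hrs : r ≠ s) (b : ℕ) (hb : b ≠ 0)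
    (h1 : φ (X 0 - C r * X 1 ^ b) = Polynomial.C (X 0 - C r * X 1 ^ b))
    (h2 : φ (X 0 - C s * X 1 ^ b) = Polynomial.C (X 0 - C s * X 1 ^ b)) (a : A2 K) :
    φ a = Polynomial.C a := by
  refine triv_of_y φ r b ?_ h1 a
  have h3 : (C (s - r) * X 1 ^ b : A2 K) = (X 0 - C r * X 1 ^ b) - (X 0 - C s * X 1 ^ b) := by
    rw [C_sub]
    ring
  have h4 : φ (C (s - r) * X 1 ^ b) = Polynomial.C (C (s - r) * X 1 ^ b) := by
    rw [h3, map_sub φ, h1, h2]
    exact (map_sub Polynomial.C _ _).symm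
  refine fac_dvd φ h0 ?_ h4 ?_
  · refine mul_ne_zero ?_ (pow_ne_zero _ (X_ne_zero _))
    rw [Ne, C_eq_zero]
    exact sub_ne_zero.2 hrs.symm
  · exact (dvd_pow_self _ hb).mul_left _

end Pool.Agent.Lib.MP_c052b4_al.JK
end
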