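import Pool.Agent.Lib.MP_c052b4_al.Mg.G003
import Pool.Agent.Lib.MP_c052b4_al.Mg.G002
import Pool.Agent.Lib.MP_c052b4_al.Mg.G006
import Pool.Agent.Lib.MP_c052b4_al.Mg.G007
import Pool.Agent.Lib.MP_c052b4_al.Mg.G008
import Pool.Agent.Lib.MP_c052b4_al.Mg.G005
import Pool.Agent.Lib.MP_c052b4_al.Mg.G009

section

/-!
# Degrees and the action of affine and triangular automorphisms from the right
-/

set_option autoImplicit false

namespace Pool.Agent.Lib.MP_c052b4_al.JK

open MvPolynomial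

universe u

variable {K : Type u} [Field K]

/-- the degree of an automorphism -/
noncomputable def dg (g : AutA K) : ℕ := max (g (X 0)).totalDegree (g (X 1)).totalDegree

theorem aut_X_pos (g : AutA K) (v : Fin 2) : 0 < (g (X v)).totalDegree := by
  refine Nat.pos_of_ne_zero ?_
  have h0 : (g (X 0)).totalDegree ≠ 0 := by
    refine Coord.totalDegree_ne_zero ⟨g * swp K, ?_⟩
    show g (swp K (X 1)) = g (X 0)
    rw [swp_X1]
  have h1 : (g (X 1)).totalDegree ≠ 0 := Coord.totalDegree_ne_zero ⟨g, rfl⟩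
  fin_cases v
  · exact h0
  · exact h1

/-- Proof: `Aff_X` for `a` and for `a⁻¹`, `totalDegree_comb_le`. -/
theorem dg_mul_Aff (g a : AutA K) (ha : a ∈ Aff K) : dg (g * a) = dg g := by
  have key : ∀ g a : AutA K, a ∈ Aff K → dg (g * a) ≤ dg g := by
    intro g a ha
    obtain ⟨a₀, b₀, c₀, a₁, b₁, c₁, h0, h1, _⟩ := Aff_X ha
    refine max_le ?_ ?_
    · show (g (a (X 0))).totalDegree ≤ dg g
      rw [h0, map_add, map_add, map_mul, map_mul, aut_C, aut_C, aut_C]
      exact totalDegree_comb_le _ _ _ (le_max_left _ _) (le_max_right _ _) _ _ _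
    · show (g (a (X 1))).totalDegree ≤ dg g
      rw [h1, map_add, map_add, map_mul, map_mul, aut_C, aut_C, aut_C]
      exact totalDegree_comb_le _ _ _ (le_max_left _ _) (le_max_right _ _) _ _ _
  refine le_antisymm (key g a ha) ?_
  have h := key (g * a) a⁻¹ ((Aff K).inv_mem ha)
  rwa [mul_inv_cancel_right] at h

/-- Proof: `Tri_X1`, so `(g * t) (X 1) = C c * g (X 1) + C d`, `c ≠ 0`. -/
theorem deg_mul_Tri (g t : AutA K) (ht : t ∈ Tri K) :
    ((g * t) (X 1)).totalDegree = (g (X 1)).totalDegree := by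
  obtain ⟨c, d, hc, h⟩ := Tri_X1 ht
  show (g (t (X 1))).totalDegree = _
  have h1 := totalDegree_comb (g (X 1)) 0 (by
    rw [totalDegree_zero]
    exact aut_X_pos g 1) c 0 d hc
  rw [h, map_add, map_mul, aut_C, aut_C, ← h1, mul_zero, add_zero]

/-- Proof: `a (X 1) = C a₁ * X 0 + C b₁ * X 1 + C c₁`; if `a₁ = 0` then `a ∈ Tri K`
(`mem_Tri_of`); `totalDegree_comb`, and `totalDegree_comb_le` for `X 0`. -/
theorem deg_mul_Aff_of_notMem (h a : AutA K) (hlt : (h (X 1)).totalDegree < (h (X 0)).totalDegree)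
    (ha : a ∈ Aff K) (hat : a ∉ Tri K) : ((h * a) (X 1)).totalDegree = (h (X 0)).totalDegree ∧
      ((h * a) (X 0)).totalDegree ≤ (h (X 0)).totalDegree := by
  obtain ⟨a₀, b₀, c₀, a₁, b₁, c₁, h0, h1, _⟩ := Aff_X ha
  have ha1 : a₁ ≠ 0 := by
    rintro rfl
    refine hat (mem_Tri_of (c := b₁) (d := c₁) ?_)
    rw [h1, C_0, zero_mul, zero_add]
  constructor
  · show (h (a (X 1))).totalDegree = _
    rw [h1, map_add, map_add, map_mul, map_mul, aut_C, aut_C, aut_C]
    exact totalDegree_comb _ _ hlt _ _ _ ha1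
  · show (h (a (X 0))).totalDegree ≤ _
    rw [h0, map_add, map_add, map_mul, map_mul, aut_C, aut_C, aut_C]
    exact totalDegree_comb_le _ _ _ le_rfl hlt.le _ _ _

/-- Proof: `t (X 0) = C a * X 0 + P(X 1)` (`Tri_X0`), `natDegree P ≥ 2` because otherwise
`t ∈ Aff K` (`mem_Aff_of`), `(h * t) (X 0) = C a * h (X 0) + P (h (X 1))` has total degree
`natDegree P * d > d = totalDegree (h (X 1)) = totalDegree ((h * t) (X 1))`, `d ≥ 1`. -/
theorem deg_mul_Tri_of_notMem (h t : AutA K) (hle : (h (X 0)).totalDegree ≤ (h (X 1)).totalDegree)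
    (ht : t ∈ Tri K) (hta : t ∉ Aff K) :
    ((h * t) (X 1)).totalDegree < ((h * t) (X 0)).totalDegree := by
  obtain ⟨a, P, ha, h0⟩ := Tri_X0 ht
  obtain ⟨c, d, hc, h1⟩ := Tri_X1 ht
  have hP : 2 ≤ P.natDegree := by
    by_contra hP
    push Not at hP
    refine hta (mem_Aff_of t ?_)
    have e0 : (t (X 0)).totalDegree ≤ 1 := by
      rw [h0]
      refine (totalDegree_add _ _).trans (max_le ?_ ?_)
      · refine (totalDegree_mul _ _).trans ?_
        rw [totalDegree_C, totalDegree_X]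
      · rw [totalDegree_aeval, totalDegree_X]
        omega
    have e1 : (t (X 1)).totalDegree ≤ 1 := by
      rw [h1]
      refine (totalDegree_add _ _).trans (max_le ?_ ?_)
      · refine (totalDegree_mul _ _).trans ?_
        rw [totalDegree_C, totalDegree_X]
      · rw [totalDegree_C]
        exact Nat.zero_le _
    intro v
    fin_cases v
    · exact e0
    · exact e1
  rw [deg_mul_Tri h t ht]
  show _ < (h (t (X 0))).totalDegree
  have h2 : h (Polynomial.aeval (X 1) P) = Polynomial.aeval (h (X 1)) P :=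
    (Polynomial.aeval_algHom_apply h (X 1) P).symm
  have h3 : (Polynomial.aeval (h (X 1)) P).totalDegree = P.natDegree * (h (X 1)).totalDegree :=
    totalDegree_aeval _ _
  have hd := aut_X_pos h 1
  have h4 : (h (X 1)).totalDegree < P.natDegree * (h (X 1)).totalDegree := by
    nlinarith
  have h5 : (C a * h (X 0)).totalDegree ≤ (h (X 0)).totalDegree := by
    refine (totalDegree_mul _ _).trans ?_
    rw [totalDegree_C, zero_add]
  rw [h0, map_add, map_mul, aut_C, h2, totalDegree_add_eq_right_of_totalDegree_lt, h3]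
  · exact h4
  · rw [h3]
    omega

end Pool.Agent.Lib.MP_c052b4_al.JK
end

section

/-!
# Nontrivial homomorphisms `A → A[t]` do not fix `x^a - γ y^b` with `a, b ≥ 2`
-/

set_option autoImplicit false

namespace Pool.Agent.Lib.MP_c052b4_al.JK

open MvPolynomial

universe u

variable {K : Type u} [Field K]

theorem excl_cast {a b : ℕ} (hab : a.Coprime b) : (a : K) ≠ 0 ∨ (b : K) ≠ 0 := by
  by_contra hcon
  rw [not_or, not_not, not_not] at hcon
  obtain ⟨p, hp⟩ := CharP.exists K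
  have h1 : p ∣ a := (CharP.cast_eq_zero_iff K p a).1 hcon.1
  have h2 : p ∣ b := (CharP.cast_eq_zero_iff K p b).1 hcon.2
  have h3 : p ∣ 1 := by
    have := Nat.dvd_gcd h1 h2
    rwa [hab] at this
  have h4 : ((1 : ℕ) : K) = 0 := (CharP.cast_eq_zero_iff K p 1).2 h3
  rw [Nat.cast_one] at h4
  exact one_ne_zero h4

/-- **Exclusion.** -/
theorem excl (φ : A2 K →ₐ[K] Polynomial (A2 K)) (h0 : ∀ a, (φ a).coeff 0 = a) (a b : ℕ)
    (ha : 2 ≤ a) (hb : 2 ≤ b) (hab : a.Coprime b) (γ : K) (hγ : γ ≠ 0)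
    (h : φ (X 0 ^ a - C γ * X 1 ^ b) = Polynomial.C (X 0 ^ a - C γ * X 1 ^ b)) (p : A2 K) :
    φ p = Polynomial.C p := by
  have hP0 : (φ (X 0)).coeff 0 = X 0 := h0 _
  have hQ0 : (φ (X 1)).coeff 0 = X 1 := h0 _
  have hP : φ (X 0) ≠ 0 := fun hz => X_ne_zero (R := K) (0 : Fin 2) (by rw [← hP0, hz, Polynomial.coeff_zero])
  have hQ : φ (X 1) ≠ 0 := fun hz => X_ne_zero (R := K) (1 : Fin 2) (by rw [← hQ0, hz, Polynomial.coeff_zero])
  have hrel : Polynomial.C (C 1) * φ (X 0) ^ a - Polynomial.C (C γ) * φ (X 1) ^ b =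
      Polynomial.C (X 0 ^ a - C γ * X 1 ^ b : A2 K) := by
    rw [← h, map_sub, map_mul, map_pow, map_pow, alg_C, C_1, Polynomial.C_1, one_mul]
  have hrel' : Polynomial.C (C γ) * φ (X 1) ^ b - Polynomial.C (C 1) * φ (X 0) ^ a =
      Polynomial.C (-(X 0 ^ a - C γ * X 1 ^ b) : A2 K) := by
    rw [Polynomial.C_neg, ← hrel, neg_sub]
  have hdeg := natDegree_eq_of_rel (φ (X 0)) (φ (X 1)) hP hQ a b γ 1 _ hγ one_ne_zero hrel
  have hJ := Jac_ne_zero _ _ hP0 hQ0
  have hJ' : Jac (φ (X 1)) (φ (X 0)) ≠ 0 := by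
    have h1 : Jac (φ (X 1)) (φ (X 0)) = - Jac (φ (X 0)) (φ (X 1)) := by
      rw [Jac, Jac]
      ring
    rw [h1]
    exact neg_ne_zero.2 hJ
  by_cases hQd : (φ (X 1)).natDegree = 0
  · have hPd : (φ (X 0)).natDegree = 0 := by
      rw [hQd, mul_zero] at hdeg
      rcases Nat.mul_eq_zero.1 hdeg with h1 | h1
      · omega
      · exact h1
    refine triv_of_X φ (fun v => ?_) p
    have key : ∀ u : Fin 2, (φ (X u)).natDegree = 0 → φ (X u) = Polynomial.C (X u) := by
      intro u hu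
      rw [Polynomial.eq_C_of_natDegree_eq_zero hu, h0, ]
    fin_cases v
    · exact key 0 hPd
    · exact key 1 hQd
  · exfalso
    have hPd : (φ (X 0)).natDegree ≠ 0 := by
      intro hz
      rw [hz, mul_zero] at hdeg
      rcases Nat.mul_eq_zero.1 hdeg.symm with h1 | h1
      · omega
      · exact hQd h1
    rcases excl_cast (K := K) hab with hc | hc
    · exact arith_half hb ha hab.symm hPd hdeg.symm
        (natDegree_half _ _ hJ' b a 1 γ _ one_ne_zero hc hrel')
    · exact arith_half ha hb hab hQd hdeg (natDegree_half _ _ hJ a b γ 1 _ hγ hc hrel)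

end Pool.Agent.Lib.MP_c052b4_al.JK
end

section

/-!
# The leading form of an invariant polynomial
-/

set_option autoImplicit false

namespace Pool.Agent.Lib.MP_c052b4_al.JK

open MvPolynomial

universe u

variable {K : Type u} [Field K]

theorem lead_pow (r : K) (k : ℕ) :
    ((Polynomial.X - Polynomial.C r) ^ k).homogenize k =
      ((Polynomial.X - Polynomial.C r).homogenize 1) ^ k := by
  induction k with
  | zero => rw [pow_zero, pow_zero, Polynomial.homogenize_one, pow_zero]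
  | succ k ih =>
    rw [pow_succ, pow_succ, Polynomial.homogenize_mul _ _ ?_ ?_, ih]
    · rw [Polynomial.natDegree_pow, Polynomial.natDegree_X_sub_C, mul_one]
    · rw [Polynomial.natDegree_X_sub_C]


/-- Proof. `w = wt a b`, `q = a n`, `G = top w q g ≠ 0` (its coefficient at `y^n`). `exists_tau`
gives `τ`; `φ = bar w τ ψ` is not trivial, `φ G = TOP w τ q (ψ g) = TOP w τ q (C g) = C G`
(`bar_top`, `TOP_C`; `Wle` from `hle`). `exists_poly` gives `P`. For every root `r` of `P`: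
`r ≠ 0`, `X - C r ∣ P`, so `X 0 ^ a - C r * X 1 ^ b ∣ G` (`Polynomial.homogenize_dvd`, `Hm_root`)
and it is fixed by `φ` (`fac_dvd`). There is a root `r` (`IsAlgClosed`). If `a ≥ 2`, then `b ≥ 2`
(`a ≤ b`) and `excl` is a contradiction. So `a = 1`. If `s` is another root: `triv_of_two`. So all
roots are equal to `r` and `eq_pow_of_roots`. If `n ≠ b * natDegree P`, then `X 1 ∣ G`, so `X 1` is
fixed, `triv_of_y`. Hence `G = Hm (homogenize (C lc * (X - C r)^k) k) = C lc * (X 0 - C r X 1^b)^k`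
(`Polynomial.homogenize_C_mul`, `homogenize_finsetProd` or `homogenize_mul` and induction),
`γ = r`, `c = lc`, `k = natDegree P`. -/
theorem lead [IsAlgClosed K] (g : A2 K) (ψ : A2 K →ₐ[K] Polynomial (A2 K))
    (h0 : ∀ a, (ψ a).coeff 0 = a) (hg : ψ g = Polynomial.C g)
    (hnt : ¬ ∀ a, ψ a = Polynomial.C a) (a b n : ℕ) (ha : 0 < a) (hle : a ≤ b)
    (hab : a.Coprime b) (hw : ∀ d, coeff d g ≠ 0 → b * d 0 + a * d 1 ≤ a * n)
    (hy : coeff (Finsupp.single 1 n) g ≠ 0)
    (hx : ∃ d, coeff d g ≠ 0 ∧ d 0 ≠ 0 ∧ b * d 0 + a * d 1 = a * n) :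
    a = 1 ∧ ∃ (γ c : K) (k : ℕ), γ ≠ 0 ∧ c ≠ 0 ∧ k ≠ 0 ∧ n = b * k ∧
      top (wt 1 b) (n : ℚ) g = C c * (X 0 - C γ * X 1 ^ b) ^ k := by
  classical
  have hb : 0 < b := lt_of_lt_of_le ha hle
  have hWle : Wle (wt a b) (a * n : ℚ) g := by
    intro d hd
    rw [weight_wt]
    exact_mod_cast hw d hd
  have hG0 : top (wt a b) (a * n : ℚ) g ≠ 0 := by
    intro h
    have h1 := congrArg (coeff (Finsupp.single 1 n)) h
    rw [coeff_top, weight_wt, coeff_zero, if_pos] at h1
    · exact hy h1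
    · rw [Finsupp.single_eq_same, Finsupp.single_eq_of_ne (by decide)]
      simp
  obtain ⟨τ, hτ1, hτ2, hτ3⟩ := exists_tau (wt a b) ψ h0 hnt
  have hφG : bar (wt a b) τ ψ (top (wt a b) (a * n : ℚ) g) =
      Polynomial.C (top (wt a b) (a * n : ℚ) g) := by
    rw [(bar_top ψ hτ1 _ g hWle).2, hg, TOP_C]
  obtain ⟨P, hP0, hPd, hbN, hG⟩ := exists_poly g a b n ha hb hab hy hx
  have hroot : ∀ r, P.IsRoot r → r ≠ 0 ∧
      bar (wt a b) τ ψ (X 0 ^ a - C r * X 1 ^ b) =
        Polynomial.C (X 0 ^ a - C r * X 1 ^ b) := by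
    intro r hr
    constructor
    · rintro rfl
      apply hP0
      rw [Polynomial.coeff_zero_eq_eval_zero]
      exact hr
    · refine fac_dvd _ hτ2 hG0 hφG ?_
      rw [hG]
      have h1 := Polynomial.homogenize_dvd (Polynomial.dvd_iff_isRoot.2 hr)
      rw [Polynomial.natDegree_X_sub_C] at h1
      have h2 := map_dvd (Hm K a b) h1
      rw [Hm_root] at h2
      exact h2.mul_left _
  have hPdeg : P.degree ≠ 0 := by
    intro h
    exact hPd (Polynomial.natDegree_eq_of_degree_eq_some h)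
  obtain ⟨r, hr⟩ := IsAlgClosed.exists_root P hPdeg
  obtain ⟨hr0, hrφ⟩ := hroot r hr
  have ha1 : a = 1 := by
    by_contra hne
    have ha2 : 2 ≤ a := by omega
    exact hτ3 (fun p => excl _ hτ2 a b ha2 (le_trans ha2 hle) hab r hr0 hrφ p)
  subst ha1
  refine ⟨rfl, ?_⟩
  have hfix : ∀ s, P.IsRoot s → bar (wt 1 b) τ ψ (X 0 - C s * X 1 ^ b) =
      Polynomial.C (X 0 - C s * X 1 ^ b) := by
    intro s hs
    have h1 := (hroot s hs).2
    rwa [pow_one] at h1
  have hall : ∀ s, P.IsRoot s → s = r := by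
    intro s hs
    by_contra hne
    exact hτ3 (fun p => triv_of_two _ hτ2 r s (Ne.symm hne) b hb.ne' (hfix r hr) (hfix s hs) p)
  have hn : n = b * P.natDegree := by
    by_contra hne
    have h1 : n - b * P.natDegree ≠ 0 := by omega
    have h2 : bar (wt 1 b) τ ψ (X 1) = Polynomial.C (X 1) := by
      refine fac_dvd _ hτ2 hG0 hφG ?_
      rw [hG]
      exact (dvd_pow_self _ h1).mul_right _
    exact hτ3 (fun p => triv_of_y _ r b h2 (hfix r hr) p)
  have hP := eq_pow_of_roots P r hall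
  have hPne : P ≠ 0 := by
    rintro rfl
    exact hPd Polynomial.natDegree_zero
  refine ⟨r, P.leadingCoeff, P.natDegree, hr0, Polynomial.leadingCoeff_ne_zero.2 hPne, hPd, hn, ?_⟩
  have hH : P.homogenize P.natDegree =
      C P.leadingCoeff * ((Polynomial.X - Polynomial.C r).homogenize 1) ^ P.natDegree := by
    rw [← lead_pow, ← Polynomial.homogenize_C_mul, ← hP]
  rw [hH, map_mul, map_pow, Hm_root, pow_one, ← hn, Nat.sub_self, pow_zero, one_mul] at hG
  have h3 : (Hm K 1 b) (C P.leadingCoeff) = C P.leadingCoeff := by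
    rw [Hm, algHom_C]
    rfl
  rw [h3] at hG
  have h4 : ((1 : ℕ) : ℚ) * n = n := by
    rw [Nat.cast_one, one_mul]
  rw [h4] at hG
  exact hG

end Pool.Agent.Lib.MP_c052b4_al.JK
end

section

/-!
# Reduction of the degree of a coordinate: linear factor
-/

set_option autoImplicit false

namespace Pool.Agent.Lib.MP_c052b4_al.JK

open MvPolynomial

universe u

variable {K : Type u} [Field K]

/-- Proof. If the only monomial of degree `n` of `g` is `y^n`, take `e = 1`. Otherwise `lead` with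
`a = b = 1` (`Coord.exists_flow`): the component of degree `n` is `c (x - γ y)^n`, `n = k`. Let
`e = swp * sh (γ T)`, so `e (X 0) = swp (X 0 + γ X 1) = X 1 + γ X 0`, `e (X 1) = X 0`,
`e (X 0 - γ X 1) = X 1`. By `top_hom` (weights `wt 1 1`) `e g` has degree at most `n` and component
`c y^n`. -/
theorem red_A2 [IsAlgClosed K] (g : A2 K) (hg : Coord g) (n : ℕ) (hn : n ≠ 0)
    (h1 : ∀ d, coeff d g ≠ 0 → d 0 + d 1 ≤ n) (h2 : coeff (Finsupp.single 1 n) g ≠ 0) :
    ∃ e ∈ Aff K, StdForm n (e g) := by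
  by_cases hA : ∀ d, coeff d g ≠ 0 → d 0 ≠ 0 → d 0 + d 1 < n
  · exact ⟨1, one_mem _, h1, h2, hA⟩
  push Not at hA
  obtain ⟨d, hd, hd0, hdn⟩ := hA
  obtain ⟨ψ, hψ0, hψg, hψt⟩ := hg.exists_flow
  obtain ⟨_, γ, c, k, hγ, hc, hk, hnk, htop⟩ := lead g ψ hψ0 hψg hψt 1 1 n one_pos le_rfl
    (Nat.coprime_one_left 1) (fun d hd => by have := h1 d hd; omega) h2
    ⟨d, hd, hd0, by have := h1 d hd; omega⟩
  rw [one_mul] at hnk
  subst hnk
  set P : Polynomial K := Polynomial.C γ * Polynomial.X with hP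
  have hPd : P.natDegree ≤ 1 := (Polynomial.natDegree_C_mul_le γ Polynomial.X).trans
    Polynomial.natDegree_X_le
  have hPe : (Polynomial.aeval (X 1) P : A2 K) = C γ * X 1 := by
    rw [hP, map_mul, Polynomial.aeval_C, Polynomial.aeval_X, MvPolynomial.algebraMap_eq]
  have he0 : (swp K * sh P) (X 0) = X 1 + C γ * X 0 := by
    change swp K (sh P (X 0)) = _
    rw [sh_X0, hPe, map_add, map_mul, swp_X0, swp_X1, aut_C]
  have he1 : (swp K * sh P) (X 1) = X 0 := by
    change swp K (sh P (X 1)) = _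
    rw [sh_X1, swp_X1]
  have hw0 : wt 1 1 0 = 1 := by simp [wt]
  have hw1 : wt 1 1 1 = 1 := by simp [wt]
  have hX0 : Wle (wt 1 1) 1 (X 0 : A2 K) := by
    have := wle_X (K := K) (w := wt 1 1) 0
    rwa [hw0] at this
  have hX1 : Wle (wt 1 1) 1 (X 1 : A2 K) := by
    have := wle_X (K := K) (w := wt 1 1) 1
    rwa [hw1] at this
  have hCX : Wle (wt 1 1) 1 (C γ * X 0 : A2 K) := by
    have := (wle_C (w := wt 1 1) γ).mul hX0
    rwa [zero_add] at this
  have ht0 : top (wt 1 1) 1 (X 0 : A2 K) = X 0 := by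
    have := top_X (K := K) (w := wt 1 1) 0
    rwa [hw0] at this
  have ht1 : top (wt 1 1) 1 (X 1 : A2 K) = X 1 := by
    have := top_X (K := K) (w := wt 1 1) 1
    rwa [hw1] at this
  have htC : top (wt 1 1) 1 (C γ * X 0 : A2 K) = C γ * X 0 := by
    have := top_mul (wle_C (w := wt 1 1) γ) hX0
    rwa [zero_add, top_C, ht0] at this
  have hwg : Wle (wt 1 1) (n : ℚ) g := by
    intro d hd
    rw [weight_wt]
    have := h1 d hd
    push_cast
    rw [one_mul, one_mul]
    exact_mod_cast this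
  obtain ⟨hA1, hA2⟩ := top_hom (w := wt 1 1) ((swp K * sh P : AutA K) : A2 K →ₐ[K] A2 K)
    (fun v => by
      fin_cases v
      · change Wle (wt 1 1) (wt 1 1 0) ((swp K * sh P) (X 0))
        rw [hw0, he0]
        exact hX1.add hCX
      · change Wle (wt 1 1) (wt 1 1 1) ((swp K * sh P) (X 1))
        rw [hw1, he1]
        exact hX0) (n : ℚ) g hwg
  have hA3 : top (wt 1 1) (n : ℚ) ((swp K * sh P) g) = C c * X 1 ^ n := by
    have h3 : top (wt 1 1) (n : ℚ) ((swp K * sh P) g) =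
        aeval (fun v => top (wt 1 1) (wt 1 1 v) ((swp K * sh P) (X v)))
          (top (wt 1 1) (n : ℚ) g) := hA2
    rw [h3, htop]
    simp only [map_mul, map_pow, map_sub, aeval_X, algHom_C, MvPolynomial.algebraMap_eq, he0, he1,
      hw0, hw1, top_add, ht0, ht1, htC, pow_one]
    congr 2
    ring
  refine ⟨swp K * sh P, mul_mem swp_mem (sh_mem_Aff P hPd), ?_, ?_, ?_⟩
  · intro d hd
    have h3 := hA1 d hd
    rw [weight_wt] at h3
    push_cast at h3
    rw [one_mul, one_mul] at h3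
    exact_mod_cast h3
  · have h3 := congrArg (coeff (Finsupp.single 1 n)) hA3
    rw [coeff_top, if_pos (by rw [weight_wt]; simp), coeff_C_mul, coeff_X_pow, if_pos rfl,
      mul_one] at h3
    rw [h3]
    exact hc
  · intro d hd hd0
    have h3 := hA1 d hd
    rw [weight_wt] at h3
    push_cast at h3
    rw [one_mul, one_mul] at h3
    have h4 : d 0 + d 1 ≤ n := by exact_mod_cast h3
    refine lt_of_le_of_ne h4 fun h5 => hd ?_
    have h6 := congrArg (coeff d) hA3
    rw [coeff_top, if_pos (by rw [weight_wt, ← h5]; push_cast; ring), coeff_C_mul,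
      coeff_X_pow, if_neg (fun h7 => hd0 (by rw [← h7]; simp)), mul_zero] at h6
    exact h6

end Pool.Agent.Lib.MP_c052b4_al.JK
end

section

/-!
# Reduction of the degree of a coordinate
-/

set_option autoImplicit false

namespace Pool.Agent.Lib.MP_c052b4_al.JK

open MvPolynomial

universe u

variable {K : Type u} [Field K]

private theorem redc_deg (p : A2 K) (n : ℕ) (hn : 0 < n)
    (h : ∀ d, coeff d p ≠ 0 → d 0 + d 1 < n) : p.totalDegree < n := by
  have h1 : p.totalDegree ≤ n - 1 := by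
    refine Finset.sup_le (fun d hd => ?_)
    have h2 := h d (mem_support_iff.1 hd)
    have h3 : (d.sum fun _ e => e) = d 0 + d 1 := by
      rw [Finsupp.sum_fintype _ _ (fun _ => rfl), Fin.sum_univ_two]
    rw [h3]
    omega
  omega

private theorem redc_ext (d : Fin 2 →₀ ℕ) (n : ℕ) (h0 : d 0 = 0) (h1 : d 1 = n) :
    d = Finsupp.single 1 n := by
  ext v
  fin_cases v
  · show d 0 = _
    rw [h0]
    simp
  · show d 1 = _
    rw [h1]
    simp

private theorem redc_CX (γ : K) (b : ℕ) :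
    (C γ * X 1 ^ b : A2 K) = monomial (Finsupp.single 1 b) γ := by
  rw [← C_mul_X_pow_eq_monomial]

private theorem redc_wt (b : ℕ) :
    Finsupp.weight (wt 1 b) (Finsupp.single (1 : Fin 2) b) = (b : ℚ) := by
  rw [weight_wt]
  simp

/-- Proof. `red_B` and `exists_slope` for the set of the `(d 0, d 1)`, `d` in the support of `g`,
`d 0 ≠ 0`, give `a < b`; `lead` (`Coord.exists_flow`; monomials with `d 0 = 0` have `d 1 ≤ n`) gives
`a = 1`, `n = b k`, `top (wt 1 b) n g = C c * (X 0 - C γ * X 1 ^ b) ^ k`. Let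
`e = sh (C γ * T^b)`. By `top_hom` (weights `wt 1 b`, `e` is homogeneous of weight `0`) all monomials
`x^i y^j` of `e g` satisfy `b i + j ≤ n`, and the component of weight `n` of `e g` is `c x^k`. So the
monomials of `e g` satisfy `i + j < n`: if `i = 0` then `j ≤ n` and `j ≠ n` (`y^n` is not a monomial
of `c x^k`); if `i ≥ 1` then `i + j ≤ n - (b - 1) i < n` since `b ≥ 2`. -/
theorem red_C [IsAlgClosed K] (g : A2 K) (hg : Coord g) (n : ℕ) (hn : 2 ≤ n)
    (h : StdForm n g) : ∃ e ∈ Tri K, (e g).totalDegree < n := by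
  classical
  obtain ⟨h1, h2, h3⟩ := h
  obtain ⟨d₀, hd₀, hd₀'⟩ := red_B g hg n hn ⟨h1, h2, h3⟩
  set S : Finset (ℕ × ℕ) := (g.support.filter (fun d => d 0 ≠ 0)).image (fun d => (d 0, d 1))
    with hSdef
  have hmem : ∀ d, coeff d g ≠ 0 → d 0 ≠ 0 → (d 0, d 1) ∈ S := by
    intro d hd hd0
    rw [hSdef, Finset.mem_image]
    exact ⟨d, Finset.mem_filter.2 ⟨mem_support_iff.2 hd, hd0⟩, rfl⟩
  have hmem' : ∀ x ∈ S, ∃ d, coeff d g ≠ 0 ∧ d 0 ≠ 0 ∧ x = (d 0, d 1) := by
    intro x hx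
    rw [hSdef, Finset.mem_image] at hx
    obtain ⟨d, hd, rfl⟩ := hx
    rw [Finset.mem_filter, mem_support_iff] at hd
    exact ⟨d, hd.1, hd.2, rfl⟩
  obtain ⟨a, b, ha, hab, hcop, hle, x₁, hx₁, hx₁'⟩ := exists_slope S ⟨_, hmem d₀ hd₀ hd₀'⟩ n (by
    intro x hx
    obtain ⟨d, hd, hd0, rfl⟩ := hmem' x hx
    exact ⟨hd0, h3 d hd hd0⟩)
  obtain ⟨ψ, hψ0, hψg, hψn⟩ := hg.exists_flow
  obtain ⟨ha1, γ, c, k, hγ, hc, hk, hnk, htop⟩ := lead g ψ hψ0 hψg hψn a b n ha hab.le hcop
    (by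
      intro d hd
      by_cases hd0 : d 0 = 0
      · have := h1 d hd
        rw [hd0, mul_zero, zero_add]
        exact Nat.mul_le_mul_left a (by omega)
      · exact hle _ (hmem d hd hd0))
    h2
    (by
      obtain ⟨d, hd, hd0, rfl⟩ := hmem' x₁ hx₁
      exact ⟨d, hd, hd0, hx₁'⟩)
  subst ha1
  have hb2 : 2 ≤ b := hab
  refine ⟨sh (Polynomial.C γ * Polynomial.X ^ b), sh_mem _, ?_⟩
  set e : AutA K := sh (Polynomial.C γ * Polynomial.X ^ b) with hedef
  have hX0 : e (X 0) = X 0 + monomial (Finsupp.single 1 b) γ := by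
    rw [hedef, sh_X0, map_mul, map_pow, Polynomial.aeval_C, Polynomial.aeval_X,
      MvPolynomial.algebraMap_eq, redc_CX]
  have hX1 : e (X 1) = X 1 := sh_X1 _
  have hwt0 : wt 1 b 0 = (b : ℚ) := rfl
  have hwt1 : wt 1 b 1 = (1 : ℚ) := by
    show ((1 : ℕ) : ℚ) = 1
    norm_num
  have hWm : Wle (wt 1 b) (b : ℚ) (monomial (Finsupp.single (1 : Fin 2) b) γ : A2 K) := by
    have := wle_monomial (w := wt 1 b) (Finsupp.single (1 : Fin 2) b) γ
    rw [redc_wt] at this
    exact this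
  have hTm : top (wt 1 b) (b : ℚ) (monomial (Finsupp.single (1 : Fin 2) b) γ : A2 K) =
      monomial (Finsupp.single (1 : Fin 2) b) γ := by
    have := top_monomial_self (w := wt 1 b) (Finsupp.single (1 : Fin 2) b) γ
    rw [redc_wt] at this
    exact this
  have hWX0 : Wle (wt 1 b) (b : ℚ) (X 0 : A2 K) := wle_X (w := wt 1 b) 0
  have hTX0 : top (wt 1 b) (b : ℚ) (X 0 : A2 K) = X 0 := top_X (w := wt 1 b) 0
  have hWX1 : Wle (wt 1 b) (wt 1 b 1) (X 1 : A2 K) := wle_X (w := wt 1 b) 1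
  have hTX1 : top (wt 1 b) (wt 1 b 1) (X 1 : A2 K) = X 1 := top_X (w := wt 1 b) 1
  have he : ∀ v, Wle (wt 1 b) (wt 1 b v) ((e : A2 K →ₐ[K] A2 K) (X v)) := by
    intro v
    fin_cases v
    · show Wle (wt 1 b) (b : ℚ) (e (X 0))
      rw [hX0]
      exact hWX0.add hWm
    · show Wle (wt 1 b) (wt 1 b 1) (e (X 1))
      rw [hX1]
      exact hWX1
  have hWg : Wle (wt 1 b) (n : ℚ) g := by
    intro d hd
    rw [weight_wt]
    have hd' : b * d 0 + 1 * d 1 ≤ 1 * n := by
      by_cases hd0 : d 0 = 0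
      · have := h1 d hd
        rw [hd0, mul_zero, zero_add]
        exact Nat.mul_le_mul_left 1 (by omega)
      · exact hle _ (hmem d hd hd0)
    rw [one_mul, one_mul] at hd'
    rw [Nat.cast_one, one_mul]
    exact_mod_cast hd'
  obtain ⟨hW, hT⟩ := top_hom (e : A2 K →ₐ[K] A2 K) he (n : ℚ) g hWg
  have hEq : ((e : A2 K →ₐ[K] A2 K) g) = e g := rfl
  rw [hEq] at hW hT
  have hT2 : top (wt 1 b) (n : ℚ) (e g) = C c * X 0 ^ k := by
    rw [hT, htop, map_mul, map_pow, map_sub, map_mul, map_pow, aeval_X, aeval_X,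
      MvPolynomial.aeval_C, MvPolynomial.aeval_C, MvPolynomial.algebraMap_eq]
    have h5 : top (wt 1 b) (wt 1 b 0) ((e : A2 K →ₐ[K] A2 K) (X 0)) =
        X 0 + C γ * X 1 ^ b := by
      show top (wt 1 b) (b : ℚ) (e (X 0)) = _
      rw [hX0, top_add, hTX0, hTm, redc_CX]
    have h6 : top (wt 1 b) (wt 1 b 1) ((e : A2 K →ₐ[K] A2 K) (X 1)) = X 1 := by
      show top (wt 1 b) (wt 1 b 1) (e (X 1)) = _
      rw [hX1, hTX1]
    rw [h5, h6, add_sub_cancel_right]
  refine redc_deg _ n (by omega) (fun d hd => ?_)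
  have hwd := hW d hd
  rw [weight_wt, Nat.cast_one, one_mul] at hwd
  have hwd' : b * d 0 + d 1 ≤ n := by exact_mod_cast hwd
  by_cases hd0 : d 0 = 0
  · rw [hd0, mul_zero, zero_add] at hwd'
    rw [hd0, zero_add]
    refine lt_of_le_of_ne hwd' (fun hcon => ?_)
    have h7 : coeff d (top (wt 1 b) (n : ℚ) (e g)) = coeff d (e g) := by
      rw [coeff_top, if_pos]
      rw [weight_wt, hd0, hcon]
      simp
    rw [hT2] at h7
    have h8 : coeff d (C c * X 0 ^ k : A2 K) = 0 := by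
      rw [coeff_C_mul, coeff_X_pow, if_neg, mul_zero]
      intro h9
      have h10 : (Finsupp.single (0 : Fin 2) k) 0 = d 0 := by rw [h9]
      rw [Finsupp.single_eq_same, hd0] at h10
      exact hk h10
    rw [h8] at h7
    exact hd h7.symm
  · have h11 : 1 ≤ d 0 := Nat.one_le_iff_ne_zero.2 hd0
    have h12 : 2 * d 0 ≤ b * d 0 := Nat.mul_le_mul_right _ hb2
    omega

end Pool.Agent.Lib.MP_c052b4_al.JK
end
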