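import Mathlib

section

/-!
# TREES^n, section 4, E04: general facts about homology
-/

set_option autoImplicit false
set_option linter.unusedVariables false

namespace Pool.Agent.Lib.MP_c052b4_al.MT

open CategoryTheory Limits

universe v u v' u'

variable {C : Type u} [Category.{v} C] [Abelian C] {D : Type u'} [Category.{v'} D] [Abelian D]

omit [Abelian D] in
private theorem e04b_iso {A B B' A' : D} (a : A ≅ B) (g : B ⟶ B') (b : A' ≅ B') :
    IsIso (a.hom ≫ g ≫ b.inv) ↔ IsIso g := by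
  constructor
  · intro h
    have h2 : g = a.inv ≫ (a.hom ≫ g ≫ b.inv) ≫ b.hom := by
      simp only [Category.assoc, Iso.inv_hom_id, Category.comp_id, Iso.inv_hom_id_assoc]
    rw [h2]
    have h3 : IsIso ((a.hom ≫ g ≫ b.inv) ≫ b.hom) := inferInstance
    infer_instance
  · intro h
    infer_instance

/-- Homology commutes with exact functors, naturally: a natural transformation `δ : F ⟶ F'` of exact
functors induces an isomorphism on `H_q(F K) → H_q(F' K)` if and only if `δ` is an isomorphism at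
`H_q(K)` (`ShortComplex.mapHomologyIso` and its naturality,
`ShortComplex.homologyMap_mapNatTrans` or similar). -/
theorem isIso_homology_natTrans {F F' : C ⥤ D} [F.Additive] [F'.Additive]
    [PreservesFiniteLimits F] [PreservesFiniteColimits F] [PreservesFiniteLimits F']
    [PreservesFiniteColimits F'] (δ : F ⟶ F') (K : CochainComplex C ℤ) (q : ℤ) :
    IsIso (HomologicalComplex.homologyMap
      ((NatTrans.mapHomologicalComplex δ (ComplexShape.up ℤ)).app K) q) ↔
      IsIso (δ.app (K.homology q)) := by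
  have h1 : HomologicalComplex.homologyMap
      ((NatTrans.mapHomologicalComplex δ (ComplexShape.up ℤ)).app K) q =
      ((K.sc q).mapHomologyIso F).hom ≫ δ.app (K.sc q).homology ≫
        ((K.sc q).mapHomologyIso F').inv :=
    ShortComplex.homologyMap_mapNatTrans (K.sc q) δ
  rw [h1]
  exact e04b_iso _ _ _

end Pool.Agent.Lib.MP_c052b4_al.MT
end

section

/-!
# TREES^n, section 4, F02a: homology modulo a Serre class
-/

set_option autoImplicit false
set_option linter.unusedVariables false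

namespace Pool.Agent.Lib.MP_c052b4_al.MT

open CategoryTheory Opposite Limits

universe u v w

/-- An exact functor which inverts the three components of a morphism of short complexes inverts
the induced map on homology. -/
private theorem f02a_isIso_map_homologyMap {C D : Type*} [Category C] [Category D] [Abelian C]
    [Abelian D] (L : C ⥤ D) [L.PreservesZeroMorphisms] [PreservesFiniteLimits L]
    [PreservesFiniteColimits L] {S₁ S₂ : ShortComplex C} (φ : S₁ ⟶ S₂)
    (h₁ : IsIso (L.map φ.τ₁)) (h₂ : IsIso (L.map φ.τ₂)) (h₃ : IsIso (L.map φ.τ₃)) :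
    IsIso (L.map (ShortComplex.homologyMap φ)) := by
  have hφ : IsIso (L.mapShortComplex.map φ) := by
    have : IsIso (L.mapShortComplex.map φ).τ₁ := h₁
    have : IsIso (L.mapShortComplex.map φ).τ₂ := h₂
    have : IsIso (L.mapShortComplex.map φ).τ₃ := h₃
    exact ShortComplex.isIso_of_isIso _
  have i : IsIso (ShortComplex.homologyMap (L.mapShortComplex.map φ)) := inferInstance
  have key := ShortComplex.mapHomologyIso_hom_naturality φ L
  have e := (Iso.eq_inv_comp (S₁.mapHomologyIso L)).2 key.symm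
  rw [e]
  exact IsIso.comp_isIso' inferInstance (IsIso.comp_isIso' i inferInstance)

section General

variable {C : Type w} [Category.{v} C] [Abelian C] (P : ObjectProperty C) [P.IsSerreClass]

/-- A morphism of complexes which is degreewise an isomorphism modulo a Serre class induces
isomorphisms modulo this class on homology.
Proof: let `ℓ : C ⥤ C'` be the localization `P.isoModSerre.Q`. `C'` is abelian
(`ObjectProperty.SerreClassLocalization.abelian`) and `ℓ` is exact (`preservesFiniteLimits`,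
`preservesFiniteColimits` in the same file), so `ℓ` commutes with homology. `ℓ` maps `f` to a
degreewise isomorphism, hence `ℓ (homologyMap f q)` is an isomorphism, now
`SerreClassLocalization.isIso_map_iff`. -/
theorem homology_isoModSerre {K K' : CochainComplex C ℤ} (f : K ⟶ K')
    (h : ∀ n, P.isoModSerre (f.f n)) (q : ℤ) :
    P.isoModSerre (HomologicalComplex.homologyMap f q) := by
  let L := P.isoModSerre.Q
  let _ : Abelian P.isoModSerre.Localization :=
    ObjectProperty.SerreClassLocalization.abelian L P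
  have : PreservesFiniteLimits L :=
    ObjectProperty.SerreClassLocalization.preservesFiniteLimits L P
  have : PreservesFiniteColimits L :=
    ObjectProperty.SerreClassLocalization.preservesFiniteColimits L P
  rw [← ObjectProperty.SerreClassLocalization.isIso_map_iff L P]
  have hL : ∀ n, IsIso (L.map (f.f n)) := fun n =>
    (ObjectProperty.SerreClassLocalization.isIso_map_iff L P (f.f n)).2 (h n)
  exact f02a_isIso_map_homologyMap L
    ((HomologicalComplex.shortComplexFunctor C (ComplexShape.up ℤ) q).map f) (hL _) (hL _) (hL _)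

end General

end Pool.Agent.Lib.MP_c052b4_al.MT
end

section

set_option autoImplicit false
set_option linter.unusedVariables false

namespace Pool.Agent.Lib.MP_c052b4_al.MT

open CategoryTheory Limits
open scoped ZeroObject

universe v u

variable {C : Type u} [Category.{v} C] [Preadditive C] [HasZeroObject C] [HasBinaryBiproducts C]

/-- The terms of the periodic complex. -/
noncomputable def b02X (F : C) : ℤ → C
  | Int.ofNat 0 => F
  | Int.ofNat (Nat.succ _) => (0 : C)
  | Int.negSucc _ => F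

/-- The differential of the periodic complex. -/
noncomputable def b02d (F : C) (p : F ⟶ F) : ∀ n : ℤ, b02X F n ⟶ b02X F (n + 1)
  | Int.ofNat _ => 0
  | Int.negSucc 0 => (𝟙 F - p : F ⟶ F)
  | Int.negSucc (Nat.succ m) => (if m % 2 = 0 then p else 𝟙 F - p : F ⟶ F)

omit [HasBinaryBiproducts C] in
theorem b02_sq (F : C) (p : F ⟶ F) (hp : p ≫ p = p) : ∀ n : ℤ, b02d F p n ≫ b02d F p (n + 1) = 0
  | Int.ofNat _ => zero_comp
  | Int.negSucc 0 => comp_zero
  | Int.negSucc (Nat.succ 0) => by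
    change p ≫ (𝟙 F - p) = 0
    rw [Preadditive.comp_sub, Category.comp_id, hp, sub_self]
  | Int.negSucc (Nat.succ (Nat.succ m)) => by
    change (if (m + 1) % 2 = 0 then p else 𝟙 F - p : F ⟶ F) ≫ (if m % 2 = 0 then p else 𝟙 F - p : F ⟶ F) = 0
    rcases Nat.mod_two_eq_zero_or_one m with h | h
    · have h1 : ¬ (m + 1) % 2 = 0 := by omega
      rw [if_neg h1, if_pos h, Preadditive.sub_comp, Category.id_comp, hp, sub_self]
    · have h1 : (m + 1) % 2 = 0 := by omega
      have h2 : ¬ m % 2 = 0 := by omega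
      rw [if_pos h1, if_neg h2, Preadditive.comp_sub, Category.comp_id, hp, sub_self]

/-- The periodic complex. -/
noncomputable def b02K (F : C) (p : F ⟶ F) (hp : p ≫ p = p) : CochainComplex C ℤ :=
  CochainComplex.of (b02X F) (b02d F p) (b02_sq F p hp)

/-- The homotopy. -/
noncomputable def b02h (F : C) : ∀ n : ℤ, b02X F (n + 1) ⟶ b02X F n
  | Int.ofNat _ => 0
  | Int.negSucc 0 => (𝟙 F : F ⟶ F)
  | Int.negSucc (Nat.succ _) => (𝟙 F : F ⟶ F)

omit [HasBinaryBiproducts C] in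
theorem b02K_d (F : C) (p : F ⟶ F) (hp : p ≫ p = p) (n : ℤ) :
    (b02K F p hp).d n (n + 1) = b02d F p n := CochainComplex.of_d _ _ _

/-- component of the projection -/
noncomputable def b02phi (F : C) (p : F ⟶ F) (hp : p ≫ p = p) : (b02K F p hp).X 0 ⟶ F := p

/-- component of the inclusion -/
noncomputable def b02psi (F : C) (p : F ⟶ F) (hp : p ≫ p = p) : F ⟶ (b02K F p hp).X 0 := 𝟙 F

omit [HasBinaryBiproducts C] in
theorem b02_psi_phi (F : C) (p : F ⟶ F) (hp : p ≫ p = p) :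
    b02psi F p hp ≫ b02phi F p hp = p := Category.id_comp p

omit [HasBinaryBiproducts C] in
theorem b02_phi_psi (F : C) (p : F ⟶ F) (hp : p ≫ p = p) :
    b02phi F p hp ≫ b02psi F p hp = (show F ⟶ F from p) := Category.comp_id p

/-- the projection -/
noncomputable def b02s (F : C) (p : F ⟶ F) (hp : p ≫ p = p) :
    b02K F p hp ⟶ (HomologicalComplex.single C (ComplexShape.up ℤ) 0).obj F :=
  HomologicalComplex.mkHomToSingle (b02phi F p hp) (by
    intro i hi
    obtain rfl : i = -1 := by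
      have : i + 1 = 0 := hi
      omega
    have h1 : (b02K F p hp).d (-1) 0 = (𝟙 F - p : F ⟶ F) := b02K_d F p hp (-1)
    rw [h1]
    change (𝟙 F - p : F ⟶ F) ≫ p = 0
    rw [Preadditive.sub_comp, Category.id_comp, hp, sub_self])

/-- the inclusion -/
noncomputable def b02r (F : C) (p : F ⟶ F) (hp : p ≫ p = p) :
    (HomologicalComplex.single C (ComplexShape.up ℤ) 0).obj F ⟶ b02K F p hp :=
  HomologicalComplex.mkHomFromSingle (b02psi F p hp) (by
    intro i hi
    obtain rfl : i = 0 + 1 := by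
      have : (0 : ℤ) + 1 = i := hi
      omega
    have h1 : (b02K F p hp).d 0 (0 + 1) = 0 := b02K_d F p hp 0
    rw [h1, comp_zero])

omit [HasBinaryBiproducts C] in
theorem b02_rs (F : C) (p : F ⟶ F) (hp : p ≫ p = p) :
    b02r F p hp ≫ b02s F p hp = (HomologicalComplex.single C (ComplexShape.up ℤ) 0).map p := by
  apply HomologicalComplex.from_single_hom_ext
  rw [HomologicalComplex.comp_f]
  unfold b02r b02s
  rw [HomologicalComplex.mkHomFromSingle_f, HomologicalComplex.mkHomToSingle_f,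
    HomologicalComplex.single_map_f_self, Category.assoc, ← Category.assoc (b02psi F p hp),
    b02_psi_phi]

omit [HasBinaryBiproducts C] in
/-- components of `s ≫ r` -/
theorem b02_sr_zero (F : C) (p : F ⟶ F) (hp : p ≫ p = p) :
    (b02s F p hp ≫ b02r F p hp).f 0 = (show F ⟶ F from p) := by
  rw [HomologicalComplex.comp_f]
  unfold b02r b02s
  rw [HomologicalComplex.mkHomFromSingle_f, HomologicalComplex.mkHomToSingle_f, Category.assoc,
    Iso.inv_hom_id_assoc, b02_phi_psi]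

omit [HasBinaryBiproducts C] in
theorem b02_sr_ne (F : C) (p : F ⟶ F) (hp : p ≫ p = p) (n : ℤ) (hn : n ≠ 0) :
    (b02s F p hp ≫ b02r F p hp).f n = 0 := by
  rw [HomologicalComplex.comp_f]
  have h1 : (b02s F p hp).f n = 0 :=
    (HomologicalComplex.isZero_single_obj_X (ComplexShape.up ℤ) 0 F n hn).eq_of_tgt _ _
  rw [h1, zero_comp]

/-- the homotopy, all degrees -/
noncomputable def b02H (F : C) (p : F ⟶ F) (hp : p ≫ p = p) :
    ∀ i j : ℤ, (ComplexShape.up ℤ).Rel j i → ((b02K F p hp).X i ⟶ (b02K F p hp).X j) :=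
  fun i j h => eqToHom (congrArg (b02X F) (show i = j + 1 from Eq.symm h)) ≫ b02h F j

omit [HasBinaryBiproducts C] in
theorem b02H_succ (F : C) (p : F ⟶ F) (hp : p ≫ p = p) (j : ℤ) :
    b02H F p hp (j + 1) j rfl = b02h F j := by
  exact Category.id_comp (b02h F j)

omit [HasBinaryBiproducts C] in
theorem b02_id_sub (F : C) (p : F ⟶ F) (hp : p ≫ p = p) :
    𝟙 (b02K F p hp) - b02s F p hp ≫ b02r F p hp = Homotopy.nullHomotopicMap' (b02H F p hp) := by
  ext n
  obtain ⟨m, rfl⟩ : ∃ m : ℤ, n = m + 1 := ⟨n - 1, by omega⟩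
  rw [Homotopy.nullHomotopicMap'_f (k₂ := m) (k₁ := m + 1) (k₀ := m + 1 + 1) rfl rfl,
    b02H_succ, b02H_succ, b02K_d, b02K_d, HomologicalComplex.sub_f_apply, HomologicalComplex.id_f]
  match m with
  | Int.ofNat k =>
    rw [b02_sr_ne F p hp _ (by simp only [Int.ofNat_eq_natCast]; omega)]
    have hz : IsZero ((b02K F p hp).X (Int.ofNat k + 1)) := isZero_zero C
    exact hz.eq_of_src _ _
  | Int.negSucc 0 =>
    have h0 := b02_sr_zero F p hp
    change 𝟙 ((b02K F p hp).X 0) - (b02s F p hp ≫ b02r F p hp).f 0 = _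
    rw [h0]
    change (𝟙 F - p : F ⟶ F) = (0 : F ⟶ (0 : C)) ≫ (0 : (0 : C) ⟶ F) + 𝟙 F ≫ (𝟙 F - p)
    rw [comp_zero, zero_add, Category.id_comp]
  | Int.negSucc (Nat.succ 0) =>
    rw [b02_sr_ne F p hp _ (by decide), sub_zero]
    change 𝟙 F = (𝟙 F - p) ≫ 𝟙 F + 𝟙 F ≫ p
    rw [Category.comp_id, Category.id_comp, sub_add_cancel]
  | Int.negSucc (Nat.succ (Nat.succ k)) =>
    rw [b02_sr_ne F p hp _ (by
      intro h
      have h2 : Int.negSucc (k.succ.succ) + 1 = Int.negSucc k.succ := rfl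
      rw [h2] at h
      exact absurd h (by simp [Int.negSucc_ne_zero])), sub_zero]
    change 𝟙 F = (if k % 2 = 0 then p else 𝟙 F - p : F ⟶ F) ≫ 𝟙 F +
      𝟙 F ≫ (if (k + 1) % 2 = 0 then p else 𝟙 F - p : F ⟶ F)
    rw [Category.comp_id, Category.id_comp]
    rcases Nat.mod_two_eq_zero_or_one k with h | h
    · have h1 : ¬ (k + 1) % 2 = 0 := by omega
      rw [if_pos h, if_neg h1, add_sub_cancel]
    · have h1 : (k + 1) % 2 = 0 := by omega
      have h2 : ¬ k % 2 = 0 := by omega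
      rw [if_neg h2, if_pos h1, sub_add_cancel]

/-- An idempotent `p` of an object `F` splits in the homotopy category of unbounded complexes. -/
theorem idem_split (F : C) (p : F ⟶ F) (hp : p ≫ p = p) :
    ∃ (K : HomotopyCategory C (ComplexShape.up ℤ))
      (s : K ⟶ (HomotopyCategory.singleFunctor C 0).obj F)
      (r : (HomotopyCategory.singleFunctor C 0).obj F ⟶ K),
      s ≫ r = 𝟙 K ∧ r ≫ s = (HomotopyCategory.singleFunctor C 0).map p := by
  refine ⟨(HomotopyCategory.quotient C (ComplexShape.up ℤ)).obj (b02K F p hp),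
    (HomotopyCategory.quotient C (ComplexShape.up ℤ)).map (b02s F p hp),
    (HomotopyCategory.quotient C (ComplexShape.up ℤ)).map (b02r F p hp), ?_, ?_⟩
  · have h1 := Homotopy.nullHomotopy' (b02H F p hp)
    rw [← b02_id_sub] at h1
    have h2 : Homotopy (𝟙 (b02K F p hp)) (b02s F p hp ≫ b02r F p hp) :=
      (Homotopy.equivSubZero).symm h1
    have h3 := HomotopyCategory.eq_of_homotopy _ _ h2
    rw [CategoryTheory.Functor.map_id, CategoryTheory.Functor.map_comp] at h3
    exact h3.symm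
  · change (HomotopyCategory.quotient C (ComplexShape.up ℤ)).map (b02r F p hp) ≫
      (HomotopyCategory.quotient C (ComplexShape.up ℤ)).map (b02s F p hp) = _
    rw [← Functor.map_comp, b02_rs]
    rfl

end Pool.Agent.Lib.MP_c052b4_al.MT
end

section

/-!
# TREES^n, section 4, D02a: splitting idempotents in triangles
-/

set_option autoImplicit false
set_option linter.unusedVariables false

namespace Pool.Agent.Lib.MP_c052b4_al.MT

open CategoryTheory Opposite Limits Pretriangulated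

universe u v


section General

variable {C : Type u} [Category.{v} C] [HasZeroObject C] [HasShift C ℤ] [Preadditive C]
  [∀ (n : ℤ), (shiftFunctor C n).Additive] [Pretriangulated C]

/-- An endomorphism of a distinguished triangle which is zero on the first two objects has square
zero on the third one.
Proof: `h : T.obj₃ ⟶ T.obj₃` with `T.mor₂ ≫ h = 0` and `h ≫ T.mor₃ = 0` (commutation with the
triangle maps). By exactness (`Triangle.yoneda_exact₃`) `h = T.mor₃ ≫ k`. So
`h ≫ h = h ≫ T.mor₃ ≫ k = 0`. -/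
theorem sq_zero_third (T : Triangle C) (hT : T ∈ distTriang C) (h : T.obj₃ ⟶ T.obj₃)
    (h2 : T.mor₂ ≫ h = 0) (h3 : h ≫ T.mor₃ = 0) : h ≫ h = 0 := by
  obtain ⟨k, hk⟩ := Triangle.yoneda_exact₃ T hT h h2
  have h4 : h ≫ h = h ≫ (T.mor₃ ≫ k) := congrArg (fun x => h ≫ x) hk
  rw [h4, ← Category.assoc, h3, zero_comp]

/-- Splitting of an idempotent on the third object of a triangle.
Let `T, T'` be distinguished triangles, `s : T ⟶ T'`, `r : T' ⟶ T` morphisms of triangles with
`s.hom₁ ≫ r.hom₁ = 𝟙`, `s.hom₂ ≫ r.hom₂ = 𝟙`, and let `ε` be an endomorphism of the triangle `T'`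
with `ε.hom₃` idempotent, `r.hom₁ ≫ s.hom₁ = ε.hom₁`, `r.hom₂ ≫ s.hom₂ = ε.hom₂`. Then `ε.hom₃` splits
through `T.obj₃`.
Proof: write `s₃, r₃, ε₃`. `v = s₃ ≫ ε₃ ≫ r₃` extends the identity of `T.obj₁, T.obj₂`
(`s₁ ≫ ε₁ ≫ r₁ = s₁ r₁ s₁ r₁ = 𝟙`), so `v` is an isomorphism (`isIso₃_of_isIso₁₂`); let `w` be its
inverse, it extends the identities as well. Put `π = ε₃ ≫ r₃ ≫ w ≫ s₃ ≫ ε₃`. Then `π ≫ π = π`,
`π ≫ ε₃ = π = ε₃ ≫ π`, and `π` extends `ε₁, ε₂`
(`ε₁ r₁ s₁ ε₁ = ε₁ ε₁ ε₁ = ε₁`, as `ε₁ ≫ ε₁ = r₁ s₁ r₁ s₁ = r₁ s₁ = ε₁`). So `h = ε₃ - π` is an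
endomorphism of the triangle with `h₁ = h₂ = 0`, by `sq_zero_third` `h ≫ h = 0`, but
`h ≫ h = ε₃ - π - π + π = h`, so `π = ε₃`. The splitting is `s' = w ≫ s₃ ≫ ε₃`, `r' = ε₃ ≫ r₃`. -/
theorem split_third (T T' : Triangle C) (hT : T ∈ distTriang C) (hT' : T' ∈ distTriang C)
    (s : T ⟶ T') (r : T' ⟶ T) (ε : T' ⟶ T')
    (h1 : s.hom₁ ≫ r.hom₁ = 𝟙 _) (h2 : s.hom₂ ≫ r.hom₂ = 𝟙 _)
    (h1' : r.hom₁ ≫ s.hom₁ = ε.hom₁) (h2' : r.hom₂ ≫ s.hom₂ = ε.hom₂)
    (hε : ε.hom₃ ≫ ε.hom₃ = ε.hom₃) :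
    ∃ (s' : T.obj₃ ⟶ T'.obj₃) (r' : T'.obj₃ ⟶ T.obj₃), s' ≫ r' = 𝟙 _ ∧ r' ≫ s' = ε.hom₃ := by
  have hv1 : (s ≫ ε ≫ r).hom₁ = 𝟙 _ := by
    rw [comp_hom₁, comp_hom₁, ← h1', Category.assoc, h1, Category.comp_id, h1]
  have hv2 : (s ≫ ε ≫ r).hom₂ = 𝟙 _ := by
    rw [comp_hom₂, comp_hom₂, ← h2', Category.assoc, h2, Category.comp_id, h2]
  have hv3 : (s ≫ ε ≫ r).hom₃ = s.hom₃ ≫ ε.hom₃ ≫ r.hom₃ := by
    rw [comp_hom₃, comp_hom₃]
  have hiso : IsIso (s ≫ ε ≫ r).hom₃ :=
    isIso₃_of_isIso₁₂ (s ≫ ε ≫ r) hT hT (by rw [hv1]; infer_instance)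
      (by rw [hv2]; infer_instance)
  obtain ⟨w, hvw, hwv⟩ := hiso.out
  have c2 := (s ≫ ε ≫ r).comm₂
  have c3 := (s ≫ ε ≫ r).comm₃
  rw [hv2, Category.id_comp] at c2
  rw [hv1, CategoryTheory.Functor.map_id, Category.comp_id] at c3
  have w2 : T.mor₂ ≫ w = T.mor₂ := by
    conv_lhs => rw [← c2]
    rw [Category.assoc, hvw, Category.comp_id]
  have w3 : w ≫ T.mor₃ = T.mor₃ := by
    conv_lhs => rw [c3]
    rw [← Category.assoc, hwv, Category.id_comp]
  rw [hv3] at hvw hwv
  have hvw' : w ≫ s.hom₃ ≫ ε.hom₃ ≫ r.hom₃ = 𝟙 _ := hwv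
  -- the idempotents on the first two objects
  have e2 : ε.hom₂ ≫ r.hom₂ ≫ s.hom₂ ≫ ε.hom₂ = ε.hom₂ := by
    rw [← Category.assoc r.hom₂, h2', ← h2']
    simp only [Category.assoc]
    rw [← Category.assoc s.hom₂ r.hom₂, h2, Category.id_comp,
      ← Category.assoc s.hom₂ r.hom₂, h2, Category.id_comp]
  have e1 : ε.hom₁ ≫ r.hom₁ ≫ s.hom₁ ≫ ε.hom₁ = ε.hom₁ := by
    rw [← Category.assoc r.hom₁, h1', ← h1']
    simp only [Category.assoc]
    rw [← Category.assoc s.hom₁ r.hom₁, h1, Category.id_comp,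
      ← Category.assoc s.hom₁ r.hom₁, h1, Category.id_comp]
  have p2 : T'.mor₂ ≫ (ε.hom₃ - ε.hom₃ ≫ r.hom₃ ≫ w ≫ s.hom₃ ≫ ε.hom₃) = 0 := by
    rw [Preadditive.comp_sub, sub_eq_zero, ε.comm₂, ← Category.assoc T'.mor₂, ε.comm₂,
      Category.assoc, ← Category.assoc T'.mor₂ r.hom₃, r.comm₂, Category.assoc,
      ← Category.assoc T.mor₂ w, w2, ← Category.assoc T.mor₂ s.hom₃, s.comm₂, Category.assoc,
      ε.comm₂]
    have := congrArg (fun x => x ≫ T'.mor₂) e2
    simp only [Category.assoc] at this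
    exact this.symm
  have q1 : (shiftFunctor C (1 : ℤ)).map ε.hom₁ ≫ (shiftFunctor C (1 : ℤ)).map r.hom₁ ≫
      (shiftFunctor C (1 : ℤ)).map s.hom₁ ≫ (shiftFunctor C (1 : ℤ)).map ε.hom₁ =
      (shiftFunctor C (1 : ℤ)).map ε.hom₁ := by
    rw [← Functor.map_comp, ← Functor.map_comp, ← Functor.map_comp, e1]
  have p3 : (ε.hom₃ - ε.hom₃ ≫ r.hom₃ ≫ w ≫ s.hom₃ ≫ ε.hom₃) ≫ T'.mor₃ = 0 := by
    rw [Preadditive.sub_comp, sub_eq_zero]
    simp only [Category.assoc]
    rw [← ε.comm₃, ← Category.assoc s.hom₃, ← s.comm₃, Category.assoc, ← Category.assoc w, w3,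
      ← Category.assoc r.hom₃, ← r.comm₃, Category.assoc, ← Category.assoc ε.hom₃, ← ε.comm₃,
      Category.assoc, q1]
  have hpp : (ε.hom₃ ≫ r.hom₃ ≫ w ≫ s.hom₃ ≫ ε.hom₃) ≫ (ε.hom₃ ≫ r.hom₃ ≫ w ≫ s.hom₃ ≫ ε.hom₃)
      = ε.hom₃ ≫ r.hom₃ ≫ w ≫ s.hom₃ ≫ ε.hom₃ := by
    simp only [Category.assoc]
    rw [← Category.assoc ε.hom₃ ε.hom₃ (r.hom₃ ≫ _), hε]
    have : s.hom₃ ≫ ε.hom₃ ≫ r.hom₃ ≫ w ≫ s.hom₃ ≫ ε.hom₃ = s.hom₃ ≫ ε.hom₃ := by
      have h9 := congrArg (fun x => x ≫ s.hom₃ ≫ ε.hom₃) hvw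
      simp only [Category.assoc, Category.id_comp] at h9
      exact h9
    rw [this]
  have hep : ε.hom₃ ≫ (ε.hom₃ ≫ r.hom₃ ≫ w ≫ s.hom₃ ≫ ε.hom₃)
      = ε.hom₃ ≫ r.hom₃ ≫ w ≫ s.hom₃ ≫ ε.hom₃ := by
    rw [← Category.assoc ε.hom₃ ε.hom₃, hε]
  have hpe : (ε.hom₃ ≫ r.hom₃ ≫ w ≫ s.hom₃ ≫ ε.hom₃) ≫ ε.hom₃
      = ε.hom₃ ≫ r.hom₃ ≫ w ≫ s.hom₃ ≫ ε.hom₃ := by
    simp only [Category.assoc]
    rw [hε]
  have hsq := sq_zero_third T' hT' _ p2 p3
  rw [Preadditive.sub_comp, Preadditive.comp_sub, Preadditive.comp_sub, hε, hep, hpe, hpp,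
    sub_self, sub_zero, sub_eq_zero] at hsq
  refine ⟨w ≫ s.hom₃ ≫ ε.hom₃, ε.hom₃ ≫ r.hom₃, ?_, ?_⟩
  · simp only [Category.assoc]
    rw [← Category.assoc ε.hom₃ ε.hom₃, hε]
    exact hvw'
  · simp only [Category.assoc]
    exact hsq.symm

end General

end Pool.Agent.Lib.MP_c052b4_al.MT
end

section

set_option autoImplicit false

namespace Pool.Agent.Lib.MP_c052b4_al.MT.L

universe u

/-- An integral unit of a ring of positive characteristic has finite order. -/
theorem isOfFinOrder_of_integral {M : Type u} [Ring M] (N : ℕ) (hN : 0 < N) (hM : (N : M) = 0)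
    (z : Mˣ) (hz : IsIntegral ℤ (z : M)) : IsOfFinOrder z := by
  have h1 : (Subalgebra.toSubmodule (Algebra.adjoin ℤ {(z : M)})).FG := hz.fg_adjoin_singleton
  have h2 : Module.Finite ℤ (Subalgebra.toSubmodule (Algebra.adjoin ℤ {(z : M)})) :=
    Module.Finite.iff_fg.mpr h1
  have h3 : Module.IsTorsion ℤ (Subalgebra.toSubmodule (Algebra.adjoin ℤ {(z : M)})) := by
    intro x
    refine ⟨⟨(N : ℤ), mem_nonZeroDivisors_of_ne_zero (by exact_mod_cast hN.ne')⟩, ?_⟩
    apply Subtype.ext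
    change (N : ℤ) • (x : M) = 0
    rw [zsmul_eq_mul]
    push_cast
    rw [hM, zero_mul]
  have h4 : Finite (Subalgebra.toSubmodule (Algebra.adjoin ℤ {(z : M)})) :=
    Module.finite_of_fg_torsion _ h3
  by_contra hfin
  have hinj := injective_pow_iff_not_isOfFinOrder.mpr hfin
  have hmem : ∀ n : ℕ, (z : M) ^ n ∈ Subalgebra.toSubmodule (Algebra.adjoin ℤ {(z : M)}) := by
    intro n
    exact pow_mem (Algebra.self_mem_adjoin_singleton ℤ (z : M)) n
  have hinj2 : Function.Injective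
      (fun n : ℕ => (⟨(z : M) ^ n, hmem n⟩ : Subalgebra.toSubmodule (Algebra.adjoin ℤ {(z : M)}))) := by
    intro a b hab
    apply hinj
    apply Units.ext
    have := congrArg Subtype.val hab
    simpa using this
  exact not_injective_infinite_finite _ hinj2

end Pool.Agent.Lib.MP_c052b4_al.MT.L
end
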