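import Mathlib

section

set_option autoImplicit false

namespace Pool.Agent.Lib.MP_c052b4_al.MT.L

universe u v

/-- A finitely generated group of matrices over `A` is defined over a finitely generated subring. -/
theorem exists_fg_subring {A : Type u} [CommRing A] {G : Type v} [Group G] [Group.FG G]
    (rho : G →* GL (Fin 2) A) :
    ∃ (A' : Subalgebra ℤ A) (_ : Algebra.FiniteType ℤ A') (rho' : G →* GL (Fin 2) A'),
      ∀ g : G, Matrix.GeneralLinearGroup.map (A'.val : A' →+* A) (rho' g) = rho g := by
  classical
  obtain ⟨S, hS⟩ := (Group.FG.out : (⊤ : Subgroup G).FG)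
  let T : Set A := ⋃ g ∈ (S : Set G), ⋃ i : Fin 2, ⋃ j : Fin 2,
    ({(rho g).1 i j, (rho g⁻¹).1 i j} : Set A)
  have hT : T.Finite := by
    refine Set.Finite.biUnion S.finite_toSet fun g _ => Set.finite_iUnion fun i =>
      Set.finite_iUnion fun j => ?_
    exact Set.toFinite _
  have hfg : (Algebra.adjoin ℤ T).FG := by
    refine ⟨hT.toFinset, ?_⟩
    rw [Set.Finite.coe_toFinset]
  have hft : Algebra.FiniteType ℤ (Algebra.adjoin ℤ T) := (Subalgebra.fg_iff_finiteType _).mp hfg
  -- all the entries are in the subalgebra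
  let K : Subgroup G :=
    { carrier := {g | ∀ i j, (rho g).1 i j ∈ Algebra.adjoin ℤ T ∧ (rho g⁻¹).1 i j ∈ Algebra.adjoin ℤ T}
      mul_mem' := by
        intro a b ha hb i j
        constructor
        · rw [map_mul, Units.val_mul, Matrix.mul_apply]
          exact sum_mem fun l _ => mul_mem (ha i l).1 (hb l j).1
        · rw [mul_inv_rev, map_mul, Units.val_mul, Matrix.mul_apply]
          exact sum_mem fun l _ => mul_mem (hb i l).2 (ha l j).2
      one_mem' := by
        intro i j
        rw [inv_one, map_one, Units.val_one]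
        by_cases hij : i = j
        · subst hij
          rw [Matrix.one_apply_eq]
          exact ⟨one_mem _, one_mem _⟩
        · rw [Matrix.one_apply_ne hij]
          exact ⟨zero_mem _, zero_mem _⟩
      inv_mem' := by
        intro a ha i j
        refine ⟨(ha i j).2, ?_⟩
        rw [inv_inv]
        exact (ha i j).1 }
  have hK : K = ⊤ := by
    rw [eq_top_iff, ← hS, Subgroup.closure_le]
    intro g hg i j
    constructor
    · refine Algebra.subset_adjoin ?_
      simp only [T, Set.mem_iUnion]
      exact ⟨g, hg, i, j, Or.inl rfl⟩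
    · refine Algebra.subset_adjoin ?_
      simp only [T, Set.mem_iUnion]
      exact ⟨g, hg, i, j, Or.inr rfl⟩
  have hmem : ∀ g i j, (rho g).1 i j ∈ Algebra.adjoin ℤ T := fun g i j => by
    have : g ∈ K := by rw [hK]; exact Subgroup.mem_top g
    exact (this i j).1
  let f : G →* Matrix (Fin 2) (Fin 2) (Algebra.adjoin ℤ T) :=
    { toFun := fun g => Matrix.of fun i j => ⟨(rho g).1 i j, hmem g i j⟩
      map_one' := by
        ext i j
        change (rho 1).1 i j = ((1 : Matrix (Fin 2) (Fin 2) (Algebra.adjoin ℤ T)) i j : A)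
        rw [map_one, Units.val_one]
        by_cases hij : i = j
        · subst hij
          rw [Matrix.one_apply_eq, Matrix.one_apply_eq]
          rfl
        · rw [Matrix.one_apply_ne hij, Matrix.one_apply_ne hij]
          rfl
      map_mul' := fun a b => by
        ext i j
        change (rho (a * b)).1 i j = _
        rw [map_mul, Units.val_mul, Matrix.mul_apply, Matrix.mul_apply, AddSubmonoidClass.coe_finsetSum]
        rfl }
  refine ⟨Algebra.adjoin ℤ T, hft, MonoidHom.toHomUnits f, fun g => ?_⟩
  apply Units.ext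
  ext i j
  rfl

end Pool.Agent.Lib.MP_c052b4_al.MT.L
end

section

set_option autoImplicit false

namespace Pool.Agent.Lib.MP_c052b4_al.MT.L

universe u

private theorem r02_pow_mem {A : Type u} [CommRing A] (I : Ideal A)
    (m : Matrix (Fin 2) (Fin 2) A) (hm : ∀ i j, m i j ∈ I) (n : ℕ) :
    ∀ i j, (m ^ n) i j ∈ I ^ n := by
  induction n with
  | zero => intro i j; simp
  | succ n ih =>
    intro i j
    rw [pow_succ (I : Ideal A) n, pow_succ m n, Matrix.mul_apply]
    exact Ideal.sum_mem _ fun l _ => Ideal.mul_mem_mul (ih i l) (hm l j)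

/-- A matrix over a noetherian ring is integral if its images modulo the minimal primes are. -/
theorem integral_of_minimalPrimes {A : Type u} [CommRing A] [IsNoetherianRing A]
    (g : Matrix (Fin 2) (Fin 2) A)
    (h : ∀ P ∈ minimalPrimes A,
      IsIntegral ℤ ((Ideal.Quotient.mk P).mapMatrix g : Matrix (Fin 2) (Fin 2) (A ⧸ P))) :
    IsIntegral ℤ g := by
  classical
  have hfin : (minimalPrimes A).Finite := minimalPrimes.finite_of_isNoetherianRing A
  choose! f hf1 hf2 using h
  let S := hfin.toFinset
  let F : Polynomial ℤ := ∏ P ∈ S, f P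
  have hF : F.Monic := Polynomial.monic_prod_of_monic _ _ fun P hP => hf1 P (by simpa [S] using hP)
  have hmem : ∀ i j, (Polynomial.aeval g F) i j ∈ nilradical A := by
    intro i j
    have hn : nilradical A = sInf (minimalPrimes A) := by
      rw [nilradical, ← Ideal.sInf_minimalPrimes]
      rfl
    rw [hn, Ideal.mem_sInf]
    intro P hP
    have h1 : Polynomial.aeval ((Ideal.Quotient.mk P).mapMatrix g) (f P) = 0 := hf2 P hP
    have h2 : Polynomial.aeval ((Ideal.Quotient.mk P).mapMatrix g) F = 0 := by
      have : f P ∣ F := Finset.dvd_prod_of_mem _ (by simpa [S] using hP)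
      obtain ⟨c, hc⟩ := this
      rw [hc, map_mul, h1, zero_mul]
    have h3 : (Ideal.Quotient.mk P).mapMatrix (Polynomial.aeval g F) =
        Polynomial.aeval ((Ideal.Quotient.mk P).mapMatrix g) F := by
      have := Polynomial.map_aeval_eq_aeval_map (S := Matrix (Fin 2) (Fin 2) A) (T := ℤ)
        (U := Matrix (Fin 2) (Fin 2) (A ⧸ P)) (φ := RingHom.id ℤ)
        (ψ := ((Ideal.Quotient.mk P).mapMatrix)) (RingHom.ext_int _ _) F g
      simpa using this
    rw [h2] at h3
    have h4 := congrFun (congrFun h3 i) j
    rw [RingHom.mapMatrix_apply, Matrix.map_apply] at h4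
    exact Ideal.Quotient.eq_zero_iff_mem.mp h4
  obtain ⟨n, hn⟩ := IsNoetherianRing.isNilpotent_nilradical A
  refine ⟨F ^ n, hF.pow n, ?_⟩
  rw [← Polynomial.aeval_def, map_pow]
  ext i j
  have := r02_pow_mem (nilradical A) _ hmem n i j
  rw [hn] at this
  simpa using this

end Pool.Agent.Lib.MP_c052b4_al.MT.L
end

section

set_option autoImplicit false

namespace Pool.Agent.Lib.MP_c052b4_al.MT.L

universe u

/-- A finite extension of fields of characteristic `p` maps into its separable part by an iterated
Frobenius. -/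
theorem exists_frob {F L : Type u} [Field F] [Field L] [Algebra F L] [FiniteDimensional F L]
    (p : ℕ) [Fact p.Prime] [CharP F p] :
    ∃ (E : IntermediateField F L) (n : ℕ) (f : L →+* E), Algebra.IsSeparable F E ∧
      ∀ x : L, ((f x : E) : L) = x ^ p ^ n := by
  have : CharP (separableClosure F L) p :=
    charP_of_injective_algebraMap (algebraMap F (separableClosure F L)).injective p
  have : ExpChar (separableClosure F L) p := ExpChar.prime Fact.out
  have : FiniteDimensional (separableClosure F L) L := FiniteDimensional.right F _ L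
  refine ⟨separableClosure F L, IsPurelyInseparable.exponent (separableClosure F L) L,
    IsPurelyInseparable.iterateFrobenius (separableClosure F L) L p le_rfl,
    separableClosure.isSeparable F L, fun x => ?_⟩
  exact IsPurelyInseparable.algebraMap_iterateFrobenius (separableClosure F L) p le_rfl x

end Pool.Agent.Lib.MP_c052b4_al.MT.L
end

section

set_option autoImplicit false

open scoped WithZero

namespace Pool.Agent.Lib.MP_c052b4_al.MT.L

universe u

open Classical in
/-- The valuation `- (total degree)` at infinity of a polynomial ring over a field. -/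
noncomputable def degVal (k : Type u) [Field k] (d : ℕ) :
    Valuation (MvPolynomial (Fin d) k) ℤᵐ⁰ where
  toFun f := if f = 0 then 0 else WithZero.exp (f.totalDegree : ℤ)
  map_zero' := if_pos rfl
  map_one' := by
    rw [if_neg one_ne_zero, MvPolynomial.totalDegree_one, Nat.cast_zero, WithZero.exp_zero]
  map_mul' := by
    intro f g
    by_cases hf : f = 0
    · rw [hf, zero_mul, if_pos rfl, zero_mul]
    by_cases hg : g = 0
    · rw [hg, mul_zero, if_pos rfl, mul_zero]
    rw [if_neg hf, if_neg hg, if_neg (mul_ne_zero hf hg),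
      MvPolynomial.totalDegree_mul_of_isDomain hf hg, Nat.cast_add, WithZero.exp_add]
  map_add_le_max' := by
    intro f g
    by_cases hf : f = 0
    · rw [hf, zero_add]
      exact le_max_right _ _
    by_cases hg : g = 0
    · rw [hg, add_zero]
      exact le_max_left _ _
    by_cases hfg : f + g = 0
    · change (if f + g = 0 then (0 : ℤᵐ⁰) else WithZero.exp ((f + g).totalDegree : ℤ)) ≤ _
      rw [if_pos hfg]
      exact zero_le
    change (if f + g = 0 then (0 : ℤᵐ⁰) else WithZero.exp ((f + g).totalDegree : ℤ)) ≤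
      max (if f = 0 then (0 : ℤᵐ⁰) else WithZero.exp (f.totalDegree : ℤ))
        (if g = 0 then (0 : ℤᵐ⁰) else WithZero.exp (g.totalDegree : ℤ))
    rw [if_neg hf, if_neg hg, if_neg hfg, le_max_iff, WithZero.exp_le_exp, WithZero.exp_le_exp]
    have h := MvPolynomial.totalDegree_add f g
    rw [le_max_iff] at h
    rcases h with h | h
    · exact Or.inl (by exact_mod_cast h)
    · exact Or.inr (by exact_mod_cast h)

theorem degVal_of_ne_zero {k : Type u} [Field k] {d : ℕ} {f : MvPolynomial (Fin d) k}
    (hf : f ≠ 0) : degVal k d f = WithZero.exp (f.totalDegree : ℤ) := if_neg hf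

theorem degVal_le_one {k : Type u} [Field k] {d : ℕ} {f : MvPolynomial (Fin d) k}
    (hf : degVal k d f ≤ 1) : ∃ c : k, MvPolynomial.C c = f := by
  by_cases h : f = 0
  · exact ⟨0, by rw [h, map_zero]⟩
  · rw [degVal_of_ne_zero h, ← WithZero.exp_zero, WithZero.exp_le_exp] at hf
    have h1 : f.totalDegree = 0 := by
      have : (f.totalDegree : ℤ) ≤ 0 := hf
      omega
    exact ⟨f.coeff 0, (MvPolynomial.totalDegree_eq_zero_iff_eq_C.1 h1).symm⟩

end Pool.Agent.Lib.MP_c052b4_al.MT.L
end

section

set_option autoImplicit false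

open scoped WithZero

namespace Pool.Agent.Lib.MP_c052b4_al.MT.L

universe u

/-- An element which is integral over `k[t_1, ..., t_d]` and over a valuation ring `O` which meets
`k[t_1, ..., t_d]` in `k` is integral over `k`. -/
theorem integral_of_two {k F E : Type u} [Field k] {d : ℕ} [Field F] [Field E]
    [Algebra (MvPolynomial (Fin d) k) F] [IsFractionRing (MvPolynomial (Fin d) k) F]
    [Algebra F E] [Algebra (MvPolynomial (Fin d) k) E]
    [IsScalarTower (MvPolynomial (Fin d) k) F E] [Algebra k E]
    [IsScalarTower k (MvPolynomial (Fin d) k) E]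
    (O : ValuationSubring F)
    (hO : ∀ f : MvPolynomial (Fin d) k, algebraMap (MvPolynomial (Fin d) k) F f ∈ O →
        ∃ c : k, MvPolynomial.C c = f)
    (x : E) (h1 : IsIntegral (MvPolynomial (Fin d) k) x) (h2 : IsIntegral O x) :
    IsIntegral k x := by
  have e1 : minpoly F x = (minpoly (MvPolynomial (Fin d) k) x).map (algebraMap _ F) :=
    minpoly.isIntegrallyClosed_eq_field_fractions' F h1
  have e2 : minpoly F x = (minpoly O x).map (algebraMap O F) :=
    minpoly.isIntegrallyClosed_eq_field_fractions' F h2
  have hm : (minpoly (MvPolynomial (Fin d) k) x).Monic := minpoly.monic h1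
  have hl : minpoly (MvPolynomial (Fin d) k) x ∈
      Polynomial.lifts (MvPolynomial.C : k →+* MvPolynomial (Fin d) k) := by
    rw [Polynomial.lifts_iff_coeff_lifts]
    intro n
    obtain ⟨c, hc⟩ := hO ((minpoly (MvPolynomial (Fin d) k) x).coeff n) (by
      have : algebraMap (MvPolynomial (Fin d) k) F
          ((minpoly (MvPolynomial (Fin d) k) x).coeff n) =
          algebraMap O F ((minpoly O x).coeff n) := by
        rw [← Polynomial.coeff_map, ← Polynomial.coeff_map, ← e1, ← e2]
      rw [this]
      exact ((minpoly O x).coeff n).2)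
    exact ⟨c, hc⟩
  obtain ⟨q, hq, -, hqm⟩ := Polynomial.lifts_and_natDegree_eq_and_monic hl hm
  refine ⟨q, hqm, ?_⟩
  have h3 : algebraMap k E = (algebraMap (MvPolynomial (Fin d) k) E).comp
      (MvPolynomial.C : k →+* MvPolynomial (Fin d) k) := by
    rw [IsScalarTower.algebraMap_eq k (MvPolynomial (Fin d) k) E]
    rfl
  rw [h3, ← Polynomial.eval₂_map, hq]
  exact minpoly.aeval (MvPolynomial (Fin d) k) x

end Pool.Agent.Lib.MP_c052b4_al.MT.L
end

section

set_option autoImplicit false

namespace Pool.Agent.Lib.MP_c052b4_al.MT.L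

universe u

/-- Adjunction of square roots. -/
theorem exists_sqrt (k B : Type u) [Field k] [CommRing B] [IsDomain B] [Algebra k B]
    [Algebra.FiniteType k B] (s : Set B) (hs : s.Finite) :
    ∃ (B' : Type u) (_ : CommRing B') (_ : IsDomain B') (_ : Algebra k B')
      (_ : Algebra.FiniteType k B') (f : B →+* B'), Function.Injective f ∧
      ∀ b ∈ s, ∃ c : B', c ^ 2 = f b := by
  have hc : ∀ b : B, ∃ c : AlgebraicClosure (FractionRing B),
      c ^ 2 = algebraMap B (AlgebraicClosure (FractionRing B)) b := fun b =>
    IsAlgClosed.exists_pow_nat_eq _ (by norm_num)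
  choose c hc using hc
  have hfg : (Algebra.adjoin B (c '' s)).FG :=
    Subalgebra.fg_def.2 ⟨c '' s, hs.image c, rfl⟩
  have : Algebra.FiniteType B (Algebra.adjoin B (c '' s)) :=
    (Subalgebra.fg_iff_finiteType _).1 hfg
  refine ⟨Algebra.adjoin B (c '' s), inferInstance, inferInstance, inferInstance,
    Algebra.FiniteType.trans (S := B) inferInstance inferInstance,
    algebraMap B (Algebra.adjoin B (c '' s)), ?_, fun b hb =>
      ⟨⟨c b, Algebra.subset_adjoin ⟨b, hb, rfl⟩⟩, Subtype.ext (hc b)⟩⟩
  intro x y hxy
  have h := congrArg Subtype.val hxy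
  have h2 : Function.Injective (algebraMap B (AlgebraicClosure (FractionRing B))) := by
    rw [IsScalarTower.algebraMap_eq B (FractionRing B) (AlgebraicClosure (FractionRing B))]
    exact (algebraMap (FractionRing B) (AlgebraicClosure (FractionRing B))).injective.comp
      (IsFractionRing.injective B (FractionRing B))
  exact h2 h

end Pool.Agent.Lib.MP_c052b4_al.MT.L
end

section

set_option autoImplicit false

namespace Pool.Agent.Lib.MP_c052b4_al.MT.L

universe u v

/-- All determinants of a finitely generated group of matrices become squares. -/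
theorem exists_sqrt_det (k B : Type u) [Field k] [CommRing B] [IsDomain B] [Algebra k B]
    [Algebra.FiniteType k B] (G : Type v) [Group G] [Group.FG G] (rho : G →* GL (Fin 2) B) :
    ∃ (B' : Type u) (_ : CommRing B') (_ : IsDomain B') (_ : Algebra k B')
      (_ : Algebra.FiniteType k B') (f : B →+* B'), Function.Injective f ∧
      ∀ g : G, ∃ c : B', c ^ 2 = f ((rho g : Matrix (Fin 2) (Fin 2) B).det) := by
  obtain ⟨S, hS⟩ := Group.fg_def.mp (inferInstance : Group.FG G)
  obtain ⟨B', i1, i2, i3, i4, f, hf, hsq⟩ := exists_sqrt k B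
    ((fun g : G => ((rho g : Matrix (Fin 2) (Fin 2) B)).det) '' (S : Set G))
    (S.finite_toSet.image _)
  refine ⟨B', i1, i2, i3, i4, f, hf, ?_⟩
  intro g
  have hg : g ∈ Subgroup.closure (S : Set G) := by rw [hS]; trivial
  induction hg using Subgroup.closure_induction with
  | mem x hx => exact hsq _ ⟨x, hx, rfl⟩
  | one => exact ⟨1, by simp⟩
  | mul x y hx hy ihx ihy =>
    obtain ⟨a, ha⟩ := ihx
    obtain ⟨b, hb⟩ := ihy
    refine ⟨a * b, ?_⟩
    rw [mul_pow, ha, hb, map_mul, Units.val_mul, Matrix.det_mul, map_mul]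
  | inv x hx ihx =>
    obtain ⟨a, ha⟩ := ihx
    refine ⟨a * f ((rho x⁻¹ : Matrix (Fin 2) (Fin 2) B).det), ?_⟩
    have h1 : f ((rho x : Matrix (Fin 2) (Fin 2) B).det) *
        f ((rho x⁻¹ : Matrix (Fin 2) (Fin 2) B).det) = 1 := by
      rw [← map_mul, ← Matrix.det_mul, ← Units.val_mul, ← map_mul]
      simp
    rw [mul_pow, ha, sq, ← mul_assoc, h1, one_mul]

end Pool.Agent.Lib.MP_c052b4_al.MT.L
end
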