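import Mathlib
import Pool.Agent.Lib.MP_c052b4_al.Mg.G041

section

set_option autoImplicit false

open scoped WithZero

namespace Pool.Agent.Lib.MP_c052b4_al.MT.L

universe u

/-- A nontrivial valuation with values in `ℤᵐ⁰` has a discrete valuation ring. -/
theorem dvr_of_val {F : Type u} [Field F] (w : Valuation F ℤᵐ⁰)
    (hw : ∃ x : F, x ≠ 0 ∧ w x ≠ 1) : IsDiscreteValuationRing w.valuationSubring := by
  have h1 : IsCyclic (ℤᵐ⁰)ˣ :=
    isCyclic_of_surjective (WithZero.unitsWithZeroEquiv (α := Multiplicative ℤ)).symm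
      (WithZero.unitsWithZeroEquiv (α := Multiplicative ℤ)).symm.surjective
  have h2 : IsCyclic (MonoidWithZeroHom.valueGroup (.ofClass w)) := Subgroup.isCyclic _
  have h3 : Nontrivial (MonoidWithZeroHom.valueGroup (.ofClass w)) := by
    obtain ⟨x, hx, hx1⟩ := hw
    have hwx : w x ≠ 0 := (Valuation.ne_zero_iff w).2 hx
    refine ⟨⟨⟨Units.mk0 (w x) hwx, ?_⟩, 1, ?_⟩⟩
    · exact MonoidWithZeroHom.mem_valueGroup _ ⟨x, rfl⟩
    · intro h
      apply hx1
      have h4 := congrArg (fun t => ((t : (ℤᵐ⁰)ˣ) : ℤᵐ⁰)) (congrArg Subtype.val h)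
      exact h4
  infer_instance

end Pool.Agent.Lib.MP_c052b4_al.MT.L
end

section

set_option autoImplicit false

open scoped WithZero

namespace Pool.Agent.Lib.MP_c052b4_al.MT.L

universe u

/-- The valuation ring at infinity of the rational function field in `d > 0` variables. -/
theorem exists_infVal (k : Type u) [Field k] (d : ℕ) (hd : 0 < d) (F : Type u) [Field F]
    [Algebra (MvPolynomial (Fin d) k) F] [IsFractionRing (MvPolynomial (Fin d) k) F] :
    ∃ O : ValuationSubring F, IsDiscreteValuationRing O ∧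
      ∀ f : MvPolynomial (Fin d) k, algebraMap (MvPolynomial (Fin d) k) F f ∈ O →
        ∃ c : k, MvPolynomial.C c = f := by
  have hS : nonZeroDivisors (MvPolynomial (Fin d) k) ≤ (degVal k d).supp.primeCompl := by
    intro f hf hf'
    have h0 : f ≠ 0 := nonZeroDivisors.ne_zero hf
    have h1 : degVal k d f = 0 := (Valuation.mem_supp_iff _ _).1 hf'
    rw [degVal_of_ne_zero h0] at h1
    exact WithZero.exp_ne_zero h1
  obtain ⟨w, hw⟩ : ∃ w : Valuation F ℤᵐ⁰, ∀ f : MvPolynomial (Fin d) k,
      w (algebraMap (MvPolynomial (Fin d) k) F f) = degVal k d f :=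
    ⟨(degVal k d).extendToLocalization hS F,
      fun f => Valuation.extendToLocalization_apply_map_apply _ hS F f⟩
  refine ⟨w.valuationSubring, dvr_of_val w
    ⟨algebraMap (MvPolynomial (Fin d) k) F (MvPolynomial.X ⟨0, hd⟩), ?_, ?_⟩, fun f hf => ?_⟩
  · intro h
    have h1 := hw (MvPolynomial.X ⟨0, hd⟩)
    rw [h, map_zero, degVal_of_ne_zero (MvPolynomial.X_ne_zero _)] at h1
    exact WithZero.exp_ne_zero h1.symm
  · rw [hw, degVal_of_ne_zero (MvPolynomial.X_ne_zero _), MvPolynomial.totalDegree_X]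
    intro h
    rw [← WithZero.exp_zero, WithZero.exp_inj] at h
    norm_num at h
  · rw [Valuation.mem_valuationSubring_iff, hw] at hf
    exact degVal_le_one hf

end Pool.Agent.Lib.MP_c052b4_al.MT.L
end

section

set_option autoImplicit false

open scoped WithZero

namespace Pool.Agent.Lib.MP_c052b4_al.MT.L

universe u

open IsDedekindDomain in
/-- A discrete valuation ring has finitely many primes in a finite separable extension. -/
theorem finite_heightOne {F E : Type u} [Field F] [Field E] [Algebra F E]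
    [FiniteDimensional F E] [Algebra.IsSeparable F E] (O : Type u) [CommRing O] [IsDomain O]
    [IsDiscreteValuationRing O] [Algebra O F] [IsFractionRing O F] [Algebra O E]
    [IsScalarTower O F E] [IsDedekindDomain (integralClosure O E)] :
    Finite (HeightOneSpectrum (integralClosure O E)) := by
  obtain ⟨ϖ, hϖ⟩ := IsDiscreteValuationRing.exists_irreducible O
  have hinj : Function.Injective (algebraMap O (integralClosure O E)) := by
    have h1 : Function.Injective (algebraMap O E) := by
      rw [IsScalarTower.algebraMap_eq O F E]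
      exact (algebraMap F E).injective.comp (IsFractionRing.injective O F)
    rw [IsScalarTower.algebraMap_eq O (integralClosure O E) E, RingHom.coe_comp] at h1
    exact Function.Injective.of_comp h1
  have hne : Ideal.span {algebraMap O (integralClosure O E) ϖ} ≠ 0 := by
    rw [Ideal.zero_eq_bot, Ne, Ideal.span_singleton_eq_bot]
    intro h
    exact hϖ.ne_zero (hinj (by rw [h, map_zero]))
  have hfin := Ideal.finite_factors hne
  have hall : {v : HeightOneSpectrum (integralClosure O E) |
      v.asIdeal ∣ Ideal.span {algebraMap O (integralClosure O E) ϖ}} = Set.univ := by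
    refine Set.eq_univ_of_forall fun v => ?_
    change v.asIdeal ∣ _
    rw [Ideal.dvd_span_singleton]
    have hprime : (v.asIdeal.comap (algebraMap O (integralClosure O E))).IsPrime :=
      Ideal.IsPrime.comap _ (hK := v.isPrime)
    have hne2 : v.asIdeal.comap (algebraMap O (integralClosure O E)) ≠ ⊥ := by
      obtain ⟨x, hx, hx0⟩ := Submodule.exists_mem_ne_zero_of_ne_bot v.ne_bot
      exact Ideal.comap_ne_bot_of_integral_mem hx0 hx (Algebra.IsIntegral.isIntegral x)
    have hmax : v.asIdeal.comap (algebraMap O (integralClosure O E)) =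
        IsLocalRing.maximalIdeal O :=
      IsLocalRing.eq_maximalIdeal (hprime.isMaximal hne2)
    have h2 : ϖ ∈ IsLocalRing.maximalIdeal O := by
      rw [IsLocalRing.mem_maximalIdeal]
      exact hϖ.not_isUnit
    rw [← hmax] at h2
    exact h2
  rw [hall] at hfin
  exact Set.finite_univ_iff.1 hfin

end Pool.Agent.Lib.MP_c052b4_al.MT.L
end

section

set_option autoImplicit false

open scoped WithZero

namespace Pool.Agent.Lib.MP_c052b4_al.MT.L

universe u

/-- The finitely many valuations of `E` above a discrete valuation ring `O` of `F`. -/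
theorem exists_primes {F E : Type u} [Field F] [Field E] [Algebra F E]
    [FiniteDimensional F E] [Algebra.IsSeparable F E] (O : Type u) [CommRing O] [IsDomain O]
    [IsDiscreteValuationRing O] [Algebra O F] [IsFractionRing O F] [Algebra O E]
    [IsScalarTower O F E] :
    ∃ (ι : Type) (_ : Finite ι) (W : ι → Valuation E ℤᵐ⁰),
      (∀ i, ∃ q : E, W i q = WithZero.exp (-1 : ℤ)) ∧
        ∀ x : E, (∀ i, W i x ≤ 1) → IsIntegral O x := by
  have : IsDedekindDomain (integralClosure O E) := integralClosure.isDedekindDomain O F E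
  have : IsFractionRing (integralClosure O E) E :=
    integralClosure.isFractionRing_of_finite_extension F E
  have := finite_heightOne (F := F) (E := E) O
  obtain ⟨n, ⟨e⟩⟩ := Finite.exists_equiv_fin
    (IsDedekindDomain.HeightOneSpectrum (integralClosure O E))
  refine ⟨Fin n, inferInstance, fun i => (e.symm i).valuation E, fun i => ?_, fun x hx => ?_⟩
  · exact (e.symm i).valuation_exists_uniformizer E
  · have h1 : ∀ v : IsDedekindDomain.HeightOneSpectrum (integralClosure O E),
        v.valuation E x ≤ 1 := by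
      intro v
      have h2 : (e.symm (e v)).valuation E x ≤ 1 := hx (e v)
      rwa [e.symm_apply_apply] at h2
    obtain ⟨y, hy⟩ := IsDedekindDomain.HeightOneSpectrum.mem_integers_of_valuation_le_one E x h1
    rw [← hy]
    exact y.2

end Pool.Agent.Lib.MP_c052b4_al.MT.L
end

section

/-!
# Coherent trees, P04: Noether normalization over the integers
-/

set_option autoImplicit false
set_option linter.unusedVariables false
set_option linter.unusedSectionVars false

namespace Pool.Agent.Lib.MP_c052b4_al.CT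

open Pool.Agent.Lib.MP_c052b4_al.MT.L
open scoped WithZero

universe u

/-- Multiplication of the variables with a constant. -/
private noncomputable def p04_sc (d : ℕ) (a : ℚ) :
    MvPolynomial (Fin d) ℚ →ₐ[ℚ] MvPolynomial (Fin d) ℚ :=
  MvPolynomial.aeval fun i => MvPolynomial.C a * MvPolynomial.X i

private theorem p04_sc_sc (d : ℕ) (a b : ℚ) (h : a * b = 1) (f : MvPolynomial (Fin d) ℚ) :
    p04_sc d a (p04_sc d b f) = f := by
  have h1 : (p04_sc d a).comp (p04_sc d b) = AlgHom.id ℚ _ := by
    apply MvPolynomial.algHom_ext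
    intro i
    simp only [p04_sc, AlgHom.comp_apply, MvPolynomial.aeval_X, map_mul, MvPolynomial.algHom_C,
      MvPolynomial.algebraMap_eq, AlgHom.id_apply]
    rw [← mul_assoc, ← map_mul, mul_comm b a, h, map_one, one_mul]
  exact congrArg (fun φ => φ f) h1

private theorem p04_den {B L : Type u} [CommRing B] [Field L] [CharZero L] [Algebra B L]
    (S : Finset B) (y : L) (hy : y ∈ Algebra.adjoin ℚ (algebraMap B L '' (S : Set B))) :
    ∃ n : ℕ, 0 < n ∧ ∃ b : B, algebraMap B L b = n * y := by
  induction hy using Algebra.adjoin_induction with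
  | mem x hx =>
    obtain ⟨b, -, rfl⟩ := hx
    exact ⟨1, one_pos, b, by simp⟩
  | algebraMap q =>
    refine ⟨q.den, q.den_pos, (q.num : B), ?_⟩
    have h1 : ((q.den : ℚ) : L) ≠ 0 := by exact_mod_cast q.den_ne_zero
    rw [map_intCast, eq_ratCast (algebraMap ℚ L) q]
    have h2 : (q.den : ℚ) * q = q.num := Rat.den_mul_eq_num q
    have h3 := congrArg (fun t : ℚ => (t : L)) h2
    push_cast at h3
    exact h3.symm
  | add x y _ _ hx hy =>
    obtain ⟨n, hn, b, hb⟩ := hx
    obtain ⟨m, hm, c, hc⟩ := hy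
    refine ⟨n * m, Nat.mul_pos hn hm, m * b + n * c, ?_⟩
    rw [map_add, map_mul, map_mul, hb, hc, map_natCast, map_natCast]
    push_cast
    ring
  | mul x y _ _ hx hy =>
    obtain ⟨n, hn, b, hb⟩ := hx
    obtain ⟨m, hm, c, hc⟩ := hy
    refine ⟨n * m, Nat.mul_pos hn hm, b * c, ?_⟩
    rw [map_mul, hb, hc]
    push_cast
    ring

attribute [local instance] MvPolynomial.algebraMvPolynomial in
private theorem p04_int {B L : Type u} [CommRing B] [Field L] [Algebra B L] {d : ℕ}
    (hinj : Function.Injective (algebraMap B L)) (g : MvPolynomial (Fin d) ℤ →+* B)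
    (h : MvPolynomial (Fin d) ℚ →+* L)
    (hgh : ∀ f, algebraMap B L (g f) = h (MvPolynomial.map (Int.castRingHom ℚ) f)) (b : B)
    (hb : h.IsIntegralElem (algebraMap B L b)) :
    ∃ m : ℕ, 0 < m ∧ g.IsIntegralElem ((m : B) * b) := by
  let : Algebra (MvPolynomial (Fin d) ℤ) B := g.toAlgebra
  let : Algebra (MvPolynomial (Fin d) ℚ) L := h.toAlgebra
  let : Algebra (MvPolynomial (Fin d) ℤ) L := ((algebraMap B L).comp g).toAlgebra
  have : IsScalarTower (MvPolynomial (Fin d) ℤ) B L := IsScalarTower.of_algebraMap_eq fun x => rfl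
  have : IsScalarTower (MvPolynomial (Fin d) ℤ) (MvPolynomial (Fin d) ℚ) L :=
    IsScalarTower.of_algebraMap_eq fun x => hgh x
  obtain ⟨⟨m, z, hz, rfl⟩, hm⟩ := IsIntegral.exists_multiple_integral_of_isLocalization
    (M := (nonZeroDivisors ℤ).map (MvPolynomial.C (σ := Fin d)))
    (Rₘ := MvPolynomial (Fin d) ℚ) (algebraMap B L b) hb
  have h1 : IsIntegral (MvPolynomial (Fin d) ℤ) (algebraMap B L ((z : B) * b)) := by
    have h2 : algebraMap B L ((z : B) * b) =
        (⟨MvPolynomial.C z, z, hz, rfl⟩ : (nonZeroDivisors ℤ).map (MvPolynomial.C (σ := Fin d))) •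
          algebraMap B L b := by
      rw [Submonoid.smul_def, Algebra.smul_def, map_mul]
      congr 1
      change algebraMap B L (z : B) = algebraMap B L (g (MvPolynomial.C z))
      congr 1
      have h3 : MvPolynomial.C (σ := Fin d) z = ((z : ℤ) : MvPolynomial (Fin d) ℤ) := by
        simp
      rw [h3, map_intCast]
    rw [h2]
    exact hm
  have h4 : IsIntegral (MvPolynomial (Fin d) ℤ) ((z : B) * b) :=
    (isIntegral_algebraMap_iff hinj).1 h1
  have hz0 : z ≠ 0 := nonZeroDivisors.ne_zero hz
  refine ⟨z.natAbs, Int.natAbs_pos.2 hz0, ?_⟩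
  change IsIntegral (MvPolynomial (Fin d) ℤ) ((z.natAbs : B) * b)
  rcases Int.natAbs_eq z with h5 | h5
  · have h6 : (z : B) = (z.natAbs : B) := by
      conv_lhs => rw [h5]
      exact Int.cast_natCast _
    rw [← h6]
    exact h4
  · have h6 : (z : B) = -(z.natAbs : B) := by
      conv_lhs => rw [h5]
      rw [Int.cast_neg, Int.cast_natCast]
    have h7 : (z.natAbs : B) * b = -((z : B) * b) := by
      rw [h6]
      ring
    rw [h7]
    exact h4.neg

/-- **Noether normalization over the integers**, up to denominators.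
Proof: let `S` be a finite generating set of `B` over `ℤ`, `L = FractionRing B` (a `ℚ`-algebra:
characteristic zero), `Bq = Algebra.adjoin ℚ (S : Set L)`. Noether normalization
(`exists_finite_inj_algHom_of_fg`) gives an injective finite `g₀ : MvPolynomial (Fin d) ℚ →ₐ[ℚ] Bq`.
Every element of `Bq` becomes an element of `B` after multiplication with a positive integer
(the elements with this property form a `ℚ`-subalgebra containing `S`), so there is `N₁ > 0` with
`N₁ * g₀ (X i) ∈ B` for all `i`. Let `g (X i) = N₁ * g₀ (X i)`. `g` is injective: `g₀` composed with the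
automorphism `X i ↦ N₁ X i` of `MvPolynomial (Fin d) ℚ` is injective, and `ℤ[X] → ℚ[X]` is
injective. Each `x ∈ S` is integral over `ℚ[X]` (via `g₀`), so it is a root of a monic polynomial with
coefficients in `ℚ[N₁ X]`; with a common denominator `N₂` of all coefficients of these
polynomials `N₂ * x` is integral over `ℤ[N₁ X]` (multiply by `N₂ ^ n`). With `N = N₂` (for all
`x ∈ S`) the set of `b ∈ B` such that some `N ^ k * b` is integral is a subring containing `S`, so it
is `B`. -/
theorem noether_int (B : Type u) [CommRing B] [IsDomain B] [CharZero B]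
    [Algebra.FiniteType ℤ B] :
    ∃ (d N : ℕ) (g : MvPolynomial (Fin d) ℤ →+* B), 0 < N ∧ Function.Injective g ∧
      ∀ b : B, ∃ k : ℕ, g.IsIntegralElem ((N : B) ^ k * b) := by
  classical
  obtain ⟨S, hS⟩ := Algebra.FiniteType.out (R := ℤ) (A := B)
  let L := FractionRing B
  have hinj : Function.Injective (algebraMap B L) := IsFractionRing.injective B L
  have : CharZero L := charZero_of_injective_algebraMap hinj
  let A : Subalgebra ℚ L := Algebra.adjoin ℚ (algebraMap B L '' (S : Set B))
  have : Algebra.FiniteType ℚ A :=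
    Subalgebra.fg_iff_finiteType _ |>.1 ⟨S.image (algebraMap B L), by simp [A]⟩
  obtain ⟨d, g₀, hg₀, hi₀⟩ := exists_integral_inj_algHom_of_fg ℚ A
  have hden : ∀ i, ∃ n : ℕ, 0 < n ∧ ∃ b : B,
      algebraMap B L b = n * (g₀ (MvPolynomial.X i) : L) :=
    fun i => p04_den S _ (g₀ (MvPolynomial.X i)).2
  choose n hn b hb using hden
  have hN₁ : (∏ i, n i) ≠ 0 := (Finset.prod_pos fun i _ => hn i).ne'
  have hc : ∀ i, ∃ c : B, algebraMap B L c = (∏ i, n i : ℕ) * (g₀ (MvPolynomial.X i) : L) := by
    intro i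
    refine ⟨((∏ j ∈ Finset.univ.erase i, n j : ℕ) : B) * b i, ?_⟩
    rw [map_mul, hb, map_natCast, ← Finset.prod_erase_mul _ _ (Finset.mem_univ i), Nat.cast_mul,
      mul_assoc]
  choose c hc using hc
  obtain ⟨N₁, hN₁', hN₁⟩ : ∃ N₁ : ℕ, N₁ = ∏ i, n i ∧ N₁ ≠ 0 := ⟨_, rfl, hN₁⟩
  rw [← hN₁'] at hc
  let g : MvPolynomial (Fin d) ℤ →+* B := MvPolynomial.eval₂Hom (Int.castRingHom B) c
  let h : MvPolynomial (Fin d) ℚ →+* L := (A.val.comp (g₀.comp (p04_sc d N₁))).toRingHom
  have hgh : ∀ f, algebraMap B L (g f) = h (MvPolynomial.map (Int.castRingHom ℚ) f) := by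
    intro f
    have h1 : (algebraMap B L).comp g = h.comp (MvPolynomial.map (Int.castRingHom ℚ)) := by
      apply MvPolynomial.ringHom_ext
      · intro r
        simp [g, h, p04_sc]
      · intro i
        simp only [RingHom.comp_apply, g, h, MvPolynomial.coe_eval₂Hom, MvPolynomial.eval₂_X,
          MvPolynomial.map_X]
        rw [hc i]
        simp [p04_sc]
    exact congrArg (fun φ => φ f) h1
  have hNN : (N₁ : ℚ)⁻¹ * N₁ = 1 := inv_mul_cancel₀ (by exact_mod_cast hN₁)
  have hhinj : Function.Injective h := by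
    intro x y hxy
    have h1 : g₀ (p04_sc d N₁ x) = g₀ (p04_sc d N₁ y) := Subtype.ext hxy
    have h2 := hg₀ h1
    have h3 := congrArg (p04_sc d (N₁ : ℚ)⁻¹) h2
    rwa [p04_sc_sc d _ _ hNN, p04_sc_sc d _ _ hNN] at h3
  have hginj : Function.Injective g := by
    intro x y hxy
    apply MvPolynomial.map_injective (Int.castRingHom ℚ) Int.cast_injective
    apply hhinj
    rw [← hgh, ← hgh, hxy]
  have hhint : ∀ y : A, h.IsIntegralElem (y : L) := by
    intro y
    obtain ⟨p, hp, hpe⟩ := hi₀ y
    refine ⟨p.map (p04_sc d (N₁ : ℚ)⁻¹).toRingHom, hp.map _, ?_⟩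
    rw [Polynomial.eval₂_map]
    have h1 : h.comp (p04_sc d (N₁ : ℚ)⁻¹).toRingHom = (A.val.toRingHom).comp g₀.toRingHom := by
      refine RingHom.ext fun x => ?_
      change ((g₀ (p04_sc d N₁ (p04_sc d (N₁ : ℚ)⁻¹ x)) : A) : L) = _
      rw [p04_sc_sc d _ _ (by rw [mul_comm]; exact hNN)]
      rfl
    rw [h1]
    have h2 := congrArg A.val.toRingHom hpe
    rw [Polynomial.hom_eval₂, map_zero] at h2
    exact h2
  have hSint : ∀ x : B, x ∈ S → ∃ m : ℕ, 0 < m ∧ g.IsIntegralElem ((m : B) * x) := fun x hx =>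
    p04_int hinj g h hgh x (hhint ⟨algebraMap B L x, Algebra.subset_adjoin ⟨x, hx, rfl⟩⟩)
  choose m hm hmi using hSint
  let : Algebra (MvPolynomial (Fin d) ℤ) B := g.toAlgebra
  have hNS : ∀ x ∈ S, IsIntegral (MvPolynomial (Fin d) ℤ)
      (((∏ x ∈ S.attach, m x.1 x.2 : ℕ) : B) * x) := by
    intro x hx
    rw [← Finset.prod_erase_mul _ _ (Finset.mem_attach S ⟨x, hx⟩)]
    push_cast
    rw [mul_assoc]
    refine IsIntegral.mul ?_ (hmi x hx)
    have h1 : IsIntegral (MvPolynomial (Fin d) ℤ)
        (((∏ j ∈ S.attach.erase ⟨x, hx⟩, m j.1 j.2 : ℕ) : B)) := isIntegral_natCast _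
    push_cast at h1
    exact h1
  refine ⟨d, ∏ x ∈ S.attach, m x.1 x.2, g, Finset.prod_pos fun i _ => hm _ _, hginj, fun b => ?_⟩
  generalize (∏ x ∈ S.attach, m x.1 x.2) = N at hNS
  change ∃ k : ℕ, IsIntegral (MvPolynomial (Fin d) ℤ) ((N : B) ^ k * b)
  have hbS : b ∈ Algebra.adjoin ℤ (S : Set B) := by rw [hS]; trivial
  have hNint : ∀ k : ℕ, IsIntegral (MvPolynomial (Fin d) ℤ) ((N : B) ^ k) := fun k =>
    (isIntegral_natCast N).pow k
  induction hbS using Algebra.adjoin_induction with
  | mem x hx => exact ⟨1, by rw [pow_one]; exact hNS x hx⟩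
  | algebraMap z =>
    refine ⟨0, ?_⟩
    rw [pow_zero, one_mul, eq_intCast]
    exact isIntegral_intCast z
  | add x y _ _ hx hy =>
    obtain ⟨k, hk⟩ := hx
    obtain ⟨l, hl⟩ := hy
    refine ⟨k + l, ?_⟩
    have h1 : (N : B) ^ (k + l) * (x + y) =
        (N : B) ^ l * ((N : B) ^ k * x) + (N : B) ^ k * ((N : B) ^ l * y) := by ring
    rw [h1]
    exact ((hNint l).mul hk).add ((hNint k).mul hl)
  | mul x y _ _ hx hy =>
    obtain ⟨k, hk⟩ := hx
    obtain ⟨l, hl⟩ := hy
    refine ⟨k + l, ?_⟩
    have h1 : (N : B) ^ (k + l) * (x * y) = ((N : B) ^ k * x) * ((N : B) ^ l * y) := by ring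
    rw [h1]
    exact hk.mul hl

end Pool.Agent.Lib.MP_c052b4_al.CT
end
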