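import Pool.Agent.Lib.MP_c052b4_al.Mg.G027
import Pool.Agent.Lib.MP_c052b4_al.Mg.G076
import Pool.Agent.Lib.MP_c052b4_al.TR.TreeAct
import Pool.Agent.Lib.MP_c052b4_al.Mg.G009
import Pool.Agent.Lib.MP_c052b4_al.Mg.G042
import Pool.Agent.Lib.MP_c052b4_al.Mg.G041

section

/-!
# TREES^n, section 4, D03: the functors `F_y ⊗ V`
-/

set_option autoImplicit false
set_option linter.unusedVariables false

namespace Pool.Agent.Lib.MP_c052b4_al.MT

open CategoryTheory Opposite Limits

universe u

variable {S : Type u} [Ring S] {G : Type u} [Group G] {L : Lbl G}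

/-- The functor `F_y ⊗ V` on objects: `x ↦ (Hom(x, y) →₀ V)`. -/
noncomputable def fyObj (y : Q L) (V : ModuleCat.{u} S) : AA S L where
  obj x := ModuleCat.of S ((x.unop ⟶ y) →₀ V)
  map {x x'} f := ModuleCat.ofHom (Finsupp.lmapDomain V S fun g : (x.unop ⟶ y) => f.unop ≫ g)
  map_id x := by
    refine ModuleCat.hom_ext (LinearMap.ext fun v => ?_)
    change Finsupp.mapDomain _ v = v
    simp only [unop_id, Category.id_comp]
    exact Finsupp.mapDomain_id
  map_comp f g := by
    refine ModuleCat.hom_ext (LinearMap.ext fun v => ?_)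
    change Finsupp.mapDomain _ v = Finsupp.mapDomain _ (Finsupp.mapDomain _ v)
    rw [← Finsupp.mapDomain_comp]
    congr 1
    funext h
    simp [Function.comp]

/-- The functor `F_y ⊗ V`, functorial in `V`. -/
noncomputable def fy (y : Q L) : ModuleCat.{u} S ⥤ AA S L where
  obj V := fyObj y V
  map {V V'} f :=
    { app := fun x => ModuleCat.ofHom (Finsupp.mapRange.linearMap f.hom)
      naturality := fun x x' g => by
        refine ModuleCat.hom_ext (Finsupp.lhom_ext fun a v => ?_)
        change Finsupp.mapRange f.hom (map_zero _) (Finsupp.mapDomain _ (Finsupp.single a v)) =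
          Finsupp.mapDomain _ (Finsupp.mapRange f.hom (map_zero _) (Finsupp.single a v))
        rw [Finsupp.mapDomain_single, Finsupp.mapRange_single, Finsupp.mapRange_single,
          Finsupp.mapDomain_single] }
  map_id V := by
    ext x
    exact Finsupp.mapRange_id _
  map_comp f g := by
    refine NatTrans.ext (funext fun x => ModuleCat.hom_ext (LinearMap.ext fun v => ?_))
    exact Finsupp.ext fun a => rfl

instance fy_additive (y : Q L) : (fy y : ModuleCat.{u} S ⥤ AA S L).Additive where
  map_add {V V' f g} := by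
    refine NatTrans.ext (funext fun x => ModuleCat.hom_ext (LinearMap.ext fun v => ?_))
    exact Finsupp.ext fun a => rfl

/-- pointwise exactness of `fy y` -/
private theorem d03_exact (y : Q L) (x : (Q L)ᵒᵖ) (T : ShortComplex (ModuleCat.{u} S)) (hT : T.Exact) :
    (T.map ((fy y : ModuleCat.{u} S ⥤ AA S L) ⋙ (evaluation _ _).obj x)).Exact := by
  classical
  rw [ShortComplex.moduleCat_exact_iff] at hT ⊢
  intro v hv
  change (x.unop ⟶ y) →₀ T.X₂ at v
  change Finsupp.mapRange T.g.hom (map_zero _) v = 0 at hv
  have h1 : ∀ a, T.g.hom (v a) = 0 := fun a => by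
    have h2 := DFunLike.congr_fun hv a
    rwa [Finsupp.mapRange_apply] at h2
  choose w hw using fun a => hT (v a) (h1 a)
  refine ⟨(Finsupp.onFinset v.support (fun a => if v a = 0 then 0 else w a) fun a ha => by
    by_contra h3
    rw [Finsupp.mem_support_iff, not_not] at h3
    rw [if_pos h3] at ha
    exact ha rfl : (x.unop ⟶ y) →₀ T.X₁), ?_⟩
  change Finsupp.mapRange T.f.hom (map_zero _) _ = v
  refine Finsupp.ext fun a => ?_
  rw [Finsupp.mapRange_apply, Finsupp.onFinset_apply]
  split_ifs with h4
  · rw [h4, map_zero]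
  · exact hw a

private theorem d03_both (y : Q L) (x : (Q L)ᵒᵖ) :
    PreservesFiniteLimits ((fy y : ModuleCat.{u} S ⥤ AA S L) ⋙ (evaluation _ _).obj x) ∧
      PreservesFiniteColimits ((fy y : ModuleCat.{u} S ⥤ AA S L) ⋙ (evaluation _ _).obj x) :=
  ((Functor.exact_tfae ((fy y : ModuleCat.{u} S ⥤ AA S L) ⋙ (evaluation _ _).obj x)).out 1 3).1
    fun T hT => d03_exact y x T hT

/-- `fy y` is exact (preserves finite limits): pointwise it is `V ↦ (Hom(x, y) →₀ V)`.
(For both instances: `Functor.exact_tfae`-type lemmas in Mathlib reduce to: short exact sequences of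
modules go to short exact sequences of functors; exactness of functors is pointwise; and
`Finsupp.mapRange` of an exact sequence is exact.) -/
instance fy_lim (y : Q L) : PreservesFiniteLimits (fy y : ModuleCat.{u} S ⥤ AA S L) :=
  preservesFiniteLimits_of_evaluation _ fun x => (d03_both y x).1

instance fy_colim (y : Q L) : PreservesFiniteColimits (fy y : ModuleCat.{u} S ⥤ AA S L) :=
  preservesFiniteColimits_of_evaluation _ fun x => (d03_both y x).2

end Pool.Agent.Lib.MP_c052b4_al.MT
end

section

/-!
# Finite subtrees as labels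

For a group acting on a tree: the poset of finite nonempty subtrees, vertices and edges as
elements of it, the path chains, fixed vertices of elements which preserve a finite subtree.
-/

set_option autoImplicit false

namespace Pool.Agent.Lib.MP_c052b4_al.MT

open SimpleGraph

universe u v w

section tree

variable {V : Type w} {T : SimpleGraph V}

/-- A finite set of vertices is connected. -/
def Conn (T : SimpleGraph V) (s : Finset V) : Prop :=
  ∀ x ∈ s, ∀ y ∈ s, Relation.ReflTransGen (fun a b => T.Adj a b ∧ a ∈ s ∧ b ∈ s) x y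

theorem conn_symm {s : Finset V} {x y : V}
    (h : Relation.ReflTransGen (fun a b => T.Adj a b ∧ a ∈ s ∧ b ∈ s) x y) :
    Relation.ReflTransGen (fun a b => T.Adj a b ∧ a ∈ s ∧ b ∈ s) y x := by
  induction h with
  | refl => exact Relation.ReflTransGen.refl
  | tail _ h ih => exact Relation.ReflTransGen.head ⟨h.1.symm, h.2.2, h.2.1⟩ ih

theorem conn_of_base {s : Finset V} (x : V)
    (h : ∀ y ∈ s, Relation.ReflTransGen (fun a b => T.Adj a b ∧ a ∈ s ∧ b ∈ s) x y) :
    Conn T s := fun y hy z hz => (conn_symm (h y hy)).trans (h z hz)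

theorem conn_mono {s s' : Finset V} (hs : s ⊆ s') {x y : V}
    (h : Relation.ReflTransGen (fun a b => T.Adj a b ∧ a ∈ s ∧ b ∈ s) x y) :
    Relation.ReflTransGen (fun a b => T.Adj a b ∧ a ∈ s' ∧ b ∈ s') x y :=
  Relation.ReflTransGen.mono (fun _ _ hab => ⟨hab.1, hs hab.2.1, hs hab.2.2⟩) _ _ h

theorem conn_singleton (x : V) : Conn T {x} := by
  intro a ha b hb
  rw [Finset.mem_singleton] at ha hb
  rw [ha, hb]

theorem conn_pair [DecidableEq V] {x y : V} (h : T.Adj x y) : Conn T {x, y} := by
  apply conn_of_base x
  intro z hz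
  rw [Finset.mem_insert, Finset.mem_singleton] at hz
  rcases hz with rfl | rfl
  · exact Relation.ReflTransGen.refl
  · exact Relation.ReflTransGen.single ⟨h, by simp, by simp⟩

theorem conn_walk [DecidableEq V] {x y : V} (p : T.Walk x y) (s : Finset V)
    (hs : ∀ z ∈ p.support, z ∈ s) :
    ∀ z ∈ p.support, Relation.ReflTransGen (fun a b => T.Adj a b ∧ a ∈ s ∧ b ∈ s) x z := by
  induction p with
  | nil =>
    intro z hz
    rw [Walk.support_nil, List.mem_singleton] at hz
    rw [hz]
  | cons h p ih =>
    intro z hz
    rw [Walk.support_cons, List.mem_cons] at hz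
    rcases hz with rfl | hz
    · exact Relation.ReflTransGen.refl
    · refine Relation.ReflTransGen.head ⟨h, hs _ (by simp), hs _ ?_⟩
        (ih (fun z hz => hs z (by simp [hz])) z hz)
      simp

/-- Two finite subtrees are contained in a finite subtree. -/
theorem exists_conn_sup (hT : T.Connected) {s s' : Finset V} (hs : s.Nonempty) (hc : Conn T s)
    (hs' : s'.Nonempty) (hc' : Conn T s') : ∃ t : Finset V, Conn T t ∧ s ⊆ t ∧ s' ⊆ t := by
  classical
  obtain ⟨x, hx⟩ := hs
  obtain ⟨y, hy⟩ := hs'
  obtain ⟨p⟩ := hT.preconnected x y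
  refine ⟨s ∪ s' ∪ p.support.toFinset, ?_, fun z hz => by simp [hz], fun z hz => by simp [hz]⟩
  have hp := conn_walk p (s ∪ s' ∪ p.support.toFinset) (fun z hz => by simp [hz])
  apply conn_of_base x
  intro z hz
  rw [Finset.mem_union, Finset.mem_union, List.mem_toFinset] at hz
  rcases hz with (hz | hz) | hz
  · exact conn_mono (fun z hz => by simp [hz]) (hc x hx z hz)
  · exact (hp y (Walk.end_mem_support p)).trans (conn_mono (fun z hz => by simp [hz]) (hc' y hy z hz))
  · exact hp z hz

/-- A connected set which meets both half trees contains the edge. -/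
theorem Conn.cross (hT : T.IsTree) {s : Finset V} (hs : Conn T s) {a b x y : V} (hab : T.Adj a b)
    (hx : x ∈ s) (hy : y ∈ s) (hxs : x ∉ side T a b) (hys : y ∈ side T a b) : a ∈ s ∧ b ∈ s := by
  have h := hs x hx y hy
  clear hy
  induction h with
  | refl => exact absurd hys hxs
  | @tail c d _ h ih =>
    by_cases hc : c ∈ side T a b
    · exact ih hc
    · obtain ⟨h1, h2⟩ := side_cross hT hab h.1.symm hys hc
      rw [← h1, ← h2]
      exact ⟨h.2.1, h.2.2⟩

/-- nested half trees -/
theorem side_subset (hT : T.IsTree) {a a' b b' : V} (ha : T.Adj a a') (hb : T.Adj b b')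
    (h1 : b ∈ side T a a') (h2 : a ∉ side T b b') : side T b b' ⊆ side T a a' := by
  have h3 : b' ∈ side T a a' := by
    by_contra h
    obtain ⟨_, h5⟩ := side_cross hT ha hb h1 h
    rw [h5] at hb h2
    exact h2 (right_mem_side hb)
  have key : ∀ (n : ℕ) (x : V), T.dist b' x = n → x ∈ side T b b' → x ∈ side T a a' := by
    intro n
    induction n with
    | zero =>
      intro x hx _
      have : b' = x := (hT.connected.dist_eq_zero_iff).1 hx
      subst this
      exact h3
    | succ n ih =>
      intro x hx hxs
      have hne : x ≠ b' := by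
        rintro rfl
        rw [dist_self] at hx
        omega
      obtain ⟨y, hxy, hy⟩ := exists_closer hT b' hne
      have hys : y ∈ side T b b' := by
        rw [mem_side] at hxs ⊢
        rw [dist_comm (u := b') (v := x), dist_comm (u := b') (v := y)] at hy
        have e1 := hT.dist_eq_dist_add_one_of_adj b hxy
        rw [dist_comm (u := b) (v := x), dist_comm (u := b) (v := y)] at e1
        have e2 := hT.dist_eq_dist_add_one_of_adj x hb
        have e3 := hT.dist_eq_dist_add_one_of_adj y hb
        omega
      have hye := ih y (by omega) hys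
      by_contra hxe
      obtain ⟨_, h7⟩ := side_cross hT ha hxy.symm hye hxe
      rw [h7] at hxs
      exact h2 hxs
  exact fun x hx => key _ x rfl hx

/-- The parent of a vertex. -/
noncomputable def par (hT : T.IsTree) (r : V) (x : {x : V // x ≠ r}) : V :=
  Classical.choose (exists_closer hT r x.2)

theorem par_adj (hT : T.IsTree) (r : V) (x : {x : V // x ≠ r}) : T.Adj x.1 (par hT r x) :=
  (Classical.choose_spec (exists_closer hT r x.2)).1

theorem par_dist (hT : T.IsTree) (r : V) (x : {x : V // x ≠ r}) :
    T.dist r x.1 = T.dist r (par hT r x) + 1 :=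
  (Classical.choose_spec (exists_closer hT r x.2)).2

/-- auxiliary definition of the path chain -/
noncomputable def pathAux (hT : T.IsTree) (r : V) : ℕ → V → ({x : V // x ≠ r} →₀ ℤ)
  | 0 => fun _ => 0
  | (n + 1) => fun x => by
      classical
      exact if h : x = r then 0
        else Finsupp.single ⟨x, h⟩ 1 + pathAux hT r n (par hT r ⟨x, h⟩)

/-- The chain of the path from the root to a vertex. -/
noncomputable def pth (hT : T.IsTree) (r : V) (x : V) : {x : V // x ≠ r} →₀ ℤ :=
  pathAux hT r (T.dist r x) x

theorem pth_root (hT : T.IsTree) (r : V) : pth hT r r = 0 := by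
  rw [pth, dist_self]
  rfl

theorem pth_eq (hT : T.IsTree) (r : V) (x : {x : V // x ≠ r}) :
    pth hT r x.1 = Finsupp.single x 1 + pth hT r (par hT r x) := by
  rw [pth, par_dist hT r x]
  simp only [pathAux]
  rw [dif_neg x.2]
  rfl

/-- adjacent vertices: one is the parent of the other -/
theorem adj_cases (hT : T.IsTree) (r : V) {x y : V} (h : T.Adj x y) :
    (∃ hx : x ≠ r, par hT r ⟨x, hx⟩ = y) ∨ (∃ hy : y ≠ r, par hT r ⟨y, hy⟩ = x) := by
  rcases hT.dist_eq_dist_add_one_of_adj r h with h1 | h1
  · left
    have hx : x ≠ r := by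
      rintro rfl
      rw [dist_self] at h1
      omega
    exact ⟨hx, closer_unique hT r (par_adj hT r ⟨x, hx⟩) h (par_dist hT r ⟨x, hx⟩) h1⟩
  · right
    have hy : y ≠ r := by
      rintro rfl
      rw [dist_self] at h1
      omega
    exact ⟨hy, closer_unique hT r (par_adj hT r ⟨y, hy⟩) h.symm (par_dist hT r ⟨y, hy⟩) h1⟩

/-- The difference of the paths to two vertices of a subtree lies in the subtree. -/
theorem pth_sub (hT : T.IsTree) (r : V) {s : Finset V} (hs : Conn T s) {x y : V} (hx : x ∈ s)
    (hy : y ∈ s) (e : {x : V // x ≠ r}) (he : (pth hT r y - pth hT r x) e ≠ 0) :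
    e.1 ∈ s ∧ par hT r e ∈ s := by
  have h := hs x hx y hy
  clear hy
  induction h with
  | refl => exact absurd (by rw [sub_self]; rfl) he
  | @tail c d _ h ih =>
    by_cases hc : (pth hT r c - pth hT r x) e = 0
    · have h1 : (pth hT r d - pth hT r c) e ≠ 0 := by
        have h2 : (pth hT r d - pth hT r x) e =
            (pth hT r d - pth hT r c) e + (pth hT r c - pth hT r x) e := by
          rw [← Finsupp.add_apply]
          congr 1
          abel
        rwa [h2, hc, add_zero] at he
      classical
      rcases adj_cases hT r h.1 with ⟨hcr, h3⟩ | ⟨hdr, h3⟩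
      · have h4 := pth_eq hT r ⟨c, hcr⟩
        rw [h3] at h4
        simp only at h4
        rw [h4] at h1
        have h5 : e = ⟨c, hcr⟩ := by
          by_contra hne
          apply h1
          rw [Finsupp.sub_apply, Finsupp.add_apply, Finsupp.single_apply,
            if_neg (fun h => hne h.symm), zero_add, sub_self]
        rw [h5, h3]
        exact h.2
      · have h4 := pth_eq hT r ⟨d, hdr⟩
        rw [h3] at h4
        simp only at h4
        rw [h4] at h1
        have h5 : e = ⟨d, hdr⟩ := by
          by_contra hne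
          apply h1
          rw [Finsupp.sub_apply, Finsupp.add_apply, Finsupp.single_apply,
            if_neg (fun h => hne h.symm), zero_add, sub_self]
        rw [h5, h3]
        exact h.2.symm
    · exact ih hc

end tree

/-! ### Group actions -/

section act

variable {G : Type v} [Group G] {V : Type w} [MulAction G V] (A : TreeAction G V)

theorem dist_smul_le (g : G) (x y : V) : A.graph.dist (g • x) (g • y) ≤ A.graph.dist x y := by
  obtain ⟨p, hp⟩ := A.tree.connected.exists_walk_length_eq_dist x y
  have key : ∀ {x y : V} (p : A.graph.Walk x y), ∃ q : A.graph.Walk (g • x) (g • y),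
      q.length = p.length := by
    intro x y p
    induction p with
    | nil => exact ⟨Walk.nil, rfl⟩
    | cons h p ih =>
      obtain ⟨q, hq⟩ := ih
      exact ⟨Walk.cons (A.adj_smul g _ _ h) q, by rw [Walk.length_cons, Walk.length_cons, hq]⟩
  obtain ⟨q, hq⟩ := key p
  rw [← hp, ← hq]
  exact dist_le q

theorem dist_smul (g : G) (x y : V) : A.graph.dist (g • x) (g • y) = A.graph.dist x y := by
  apply le_antisymm (dist_smul_le A g x y)
  have h := dist_smul_le A g⁻¹ (g • x) (g • y)
  rwa [inv_smul_smul, inv_smul_smul] at h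

theorem smul_mem_side (g : G) {a b x : V} :
    g • x ∈ side A.graph (g • a) (g • b) ↔ x ∈ side A.graph a b := by
  rw [mem_side, mem_side, dist_smul, dist_smul]

theorem mem_side_smul (g : G) {a b x : V} :
    x ∈ side A.graph (g • a) (g • b) ↔ g⁻¹ • x ∈ side A.graph a b := by
  rw [← smul_mem_side A g (x := g⁻¹ • x), smul_inv_smul]

/-- An element which maps a finite subtree into itself fixes a vertex of it. -/
theorem exists_fixed {s : Finset V} (hne : s.Nonempty) (hs : Conn A.graph s) (g : G)
    (hg : ∀ x ∈ s, g • x ∈ s) : ∃ x ∈ s, g • x = x := by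
  by_contra hno
  push Not at hno
  have hT := A.tree
  obtain ⟨v, hv, hmin⟩ := s.exists_min_image (fun x => A.graph.dist x (g • x)) hne
  have hgv : v ≠ g • v := fun h => hno v hv h.symm
  obtain ⟨u, hadj, hu⟩ := exists_closer hT (g • v) hgv
  have hgv2 : g • v ∈ side A.graph v u := by
    rw [mem_side]
    omega
  have hvs : v ∉ side A.graph v u := left_not_mem_side
  have hus : u ∈ s := (hs.cross hT hadj hv (hg v hv) hvs hgv2).2
  have hgadj : A.graph.Adj (g • v) (g • u) := A.adj_smul g v u hadj
  have h1 : v ∉ side A.graph (g • v) (g • u) := by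
    intro h
    rw [mem_side] at h
    have e1 := hT.dist_eq_dist_add_one_of_adj v hgadj
    by_cases hgu : g • u ∈ side A.graph v u
    · rw [mem_side] at hgu
      have h2 := hmin u hus
      rw [dist_comm (u := g • u) (v := u), dist_comm (u := g • u) (v := v)] at hgu
      omega
    · obtain ⟨h3, h4⟩ := side_cross hT hadj hgadj hgv2 hgu
      exact A.no_inversion g v u hadj h3 h4
  have hsub : side A.graph (g • v) (g • u) ⊆ side A.graph v u :=
    side_subset hT hadj hgadj hgv2 h1
  have hpow : ∀ k : ℕ, g ^ (k + 1) • v ∈ side A.graph v u := by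
    intro k
    induction k with
    | zero => rwa [zero_add, pow_one]
    | succ k ih =>
      apply hsub
      rw [mem_side_smul, pow_succ', mul_smul, inv_smul_smul]
      exact ih
  have hmem : ∀ k : ℕ, g ^ k • v ∈ s := by
    intro k
    induction k with
    | zero => simpa using hv
    | succ k ih =>
      rw [pow_succ', mul_smul]
      exact hg _ ih
  have hninj : ¬ Function.Injective (fun k : ℕ => (⟨g ^ k • v, hmem k⟩ : s)) :=
    not_injective_infinite_finite _
  have hpair : ∃ i j : ℕ, i < j ∧ g ^ i • v = g ^ j • v := by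
    by_contra hcon
    push Not at hcon
    apply hninj
    intro i j hij
    have hij' : g ^ i • v = g ^ j • v := congrArg Subtype.val hij
    rcases lt_trichotomy i j with h | h | h
    · exact absurd hij' (hcon i j h)
    · exact h
    · exact absurd hij'.symm (hcon j i h)
  obtain ⟨i, j, hij, h5⟩ := hpair
  obtain ⟨k, rfl⟩ := Nat.exists_eq_add_of_lt hij
  have h6 : g ^ (k + 1) • v = v := by
    have h7 : g ^ (i + k + 1) • v = g ^ i • (g ^ (k + 1) • v) := by
      rw [← mul_smul, ← pow_add, add_assoc]
    rw [h7] at h5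
    exact (MulAction.injective (g ^ i) h5).symm
  have h8 := hpow k
  rw [h6] at h8
  exact hvs h8

/-- The finite nonempty subtrees. -/
def STree (A : TreeAction G V) : Type w := {s : Finset V // s.Nonempty ∧ Conn A.graph s}

namespace STree

variable {A}

instance : PartialOrder (STree A) := inferInstanceAs (PartialOrder (Subtype _))

theorem le_iff {s t : STree A} : s ≤ t ↔ s.1 ⊆ t.1 := Iff.rfl

theorem conn_map (g : G) {s : Finset V} (hs : Conn A.graph s) :
    Conn A.graph (s.map (MulAction.toPerm g).toEmbedding) := by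
  intro x hx y hy
  rw [Finset.mem_map] at hx hy
  obtain ⟨x, hx, rfl⟩ := hx
  obtain ⟨y, hy, rfl⟩ := hy
  have h := hs x hx y hy
  clear hy
  induction h with
  | refl => exact Relation.ReflTransGen.refl
  | @tail c d _ h ih =>
    refine Relation.ReflTransGen.tail ih ⟨A.adj_smul g _ _ h.1, ?_, ?_⟩
    · exact Finset.mem_map_of_mem _ h.2.1
    · exact Finset.mem_map_of_mem _ h.2.2

instance : SMul G (STree A) where
  smul g s := ⟨s.1.map (MulAction.toPerm g).toEmbedding, s.2.1.map, conn_map g s.2.2⟩

theorem smul_val (g : G) (s : STree A) : (g • s).1 = s.1.map (MulAction.toPerm g).toEmbedding := rfl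

theorem mem_smul {g : G} {s : STree A} {x : V} : x ∈ (g • s).1 ↔ g⁻¹ • x ∈ s.1 := by
  rw [smul_val, Finset.mem_map]
  constructor
  · rintro ⟨y, hy, rfl⟩
    change g⁻¹ • g • y ∈ s.1
    rwa [inv_smul_smul]
  · intro h
    exact ⟨g⁻¹ • x, h, smul_inv_smul g x⟩

theorem smul_mem_smul {g : G} {s : STree A} {x : V} : g • x ∈ (g • s).1 ↔ x ∈ s.1 := by
  rw [mem_smul, inv_smul_smul]

instance : MulAction G (STree A) where
  one_smul s := by
    apply Subtype.ext
    ext x
    rw [mem_smul, inv_one, one_smul]
  mul_smul g h s := by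
    apply Subtype.ext
    ext x
    rw [mem_smul, mem_smul, mem_smul, mul_inv_rev, mul_smul]

theorem smul_mono (g : G) {s t : STree A} (h : s ≤ t) : g • s ≤ g • t := by
  intro x hx
  rw [mem_smul] at hx ⊢
  exact h hx

theorem exists_ge (s t : STree A) : ∃ u : STree A, s ≤ u ∧ t ≤ u := by
  obtain ⟨u, hu, h1, h2⟩ := exists_conn_sup A.tree.connected s.2.1 s.2.2 t.2.1 t.2.2
  exact ⟨⟨u, s.2.1.mono h1, hu⟩, h1, h2⟩

/-- The number of vertices. -/
def card (s : STree A) : ℕ := s.1.card

theorem card_pos (s : STree A) : 0 < s.card := s.2.1.card_pos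

theorem card_smul (g : G) (s : STree A) : (g • s).card = s.card := by
  rw [card, card, smul_val, Finset.card_map]

theorem card_mono {s t : STree A} (h : s ≤ t) : s.card ≤ t.card := Finset.card_le_card h

theorem eq_of_le_of_card {s t : STree A} (h : s ≤ t) (h2 : t.card ≤ s.card) : s = t :=
  Subtype.ext (Finset.eq_of_subset_of_card_le h h2)

/-- Only finitely many subtrees are contained in a given one. -/
theorem finite_le (t : STree A) : {s : STree A | s ≤ t}.Finite := by
  have h : (Subtype.val '' {s : STree A | s ≤ t}).Finite := by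
    apply (t.1.powerset.finite_toSet).subset
    rintro _ ⟨s, hs, rfl⟩
    rw [Finset.mem_coe, Finset.mem_powerset]
    exact hs
  exact h.of_finite_image (Subtype.val_injective.injOn)

/-- A vertex as a subtree. -/
def vtx (A : TreeAction G V) (v : V) : STree A := ⟨{v}, Finset.singleton_nonempty v, conn_singleton v⟩

theorem vtx_le {v : V} {s : STree A} : vtx A v ≤ s ↔ v ∈ s.1 := by
  rw [le_iff]
  exact Finset.singleton_subset_iff

theorem smul_vtx (g : G) (v : V) : g • vtx A v = vtx A (g • v) := by
  apply Subtype.ext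
  rw [smul_val]
  exact Finset.map_singleton _ _

/-- An edge as a subtree. -/
def edg (A : TreeAction G V) (x y : V) (h : A.graph.Adj x y) : STree A :=
  ⟨Finset.cons x {y} (by rw [Finset.mem_singleton]; exact h.ne), Finset.cons_nonempty _, by
    classical
    rw [Finset.cons_eq_insert]
    exact conn_pair h⟩

theorem edg_le {x y : V} {h : A.graph.Adj x y} {s : STree A} :
    edg A x y h ≤ s ↔ x ∈ s.1 ∧ y ∈ s.1 := by
  rw [le_iff, edg, Finset.cons_subset, Finset.singleton_subset_iff]

theorem vtx_le_edg_left {x y : V} (h : A.graph.Adj x y) : vtx A x ≤ edg A x y h := by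
  rw [vtx_le]
  simp [edg]

theorem vtx_le_edg_right {x y : V} (h : A.graph.Adj x y) : vtx A y ≤ edg A x y h := by
  rw [vtx_le]
  simp [edg]

theorem exists_vtx_le (s : STree A) : ∃ v, vtx A v ≤ s := by
  obtain ⟨v, hv⟩ := s.2.1
  exact ⟨v, vtx_le.2 hv⟩

/-- An element which fixes a finite subtree fixes a vertex of it. -/
theorem exists_fixed_of_smul_eq {g : G} {s : STree A} (h : g • s = s) : ∃ v ∈ s.1, g • v = v := by
  apply exists_fixed A s.2.1 s.2.2 g
  intro x hx
  rw [← h]
  exact smul_mem_smul.2 hx

instance : Nonempty (STree A) := by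
  obtain ⟨v⟩ := A.tree.connected.nonempty
  exact ⟨vtx A v⟩

end STree

end act

end Pool.Agent.Lib.MP_c052b4_al.MT
end

section

/-!
# The chain complex of a tree with label conditions

`TreeData Y`: vertices and edges of a tree as elements of the poset `Y` of labels, with the path
chains. `TreeData.d`, `TreeData.h`: boundary and path operators with coefficients in any abelian
group. `exists_edge_chain`, `exists_vertex_chain`: the exactness (4.2) for labelled free modules.
-/

set_option autoImplicit false

namespace Pool.Agent.Lib.MP_c052b4_al.MT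

open SimpleGraph

universe u v w

/-- Tree data over the poset `Y`. -/
structure TreeData (Y : Type u) [Preorder Y] where
  V : Type u
  E : Type u
  o : E → V
  t : E → V
  vtx : V → Y
  edg : E → Y
  o_le : ∀ e, vtx (o e) ≤ edg e
  t_le : ∀ e, vtx (t e) ≤ edg e
  root : V
  path : V → E →₀ ℤ
  path_edge : ∀ e, path (t e) - path (o e) = Finsupp.single e 1
  bdry : ∀ v, (path v).sum (fun e n => Finsupp.single (t e) n - Finsupp.single (o e) n) =
    Finsupp.single v 1 - Finsupp.single root 1
  supp : ∀ (y : Y) (v v' : V), vtx v ≤ y → vtx v' ≤ y →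
    ∀ e, (path v' - path v) e ≠ 0 → edg e ≤ y
  exists_le : ∀ y, ∃ v, vtx v ≤ y

section bdry

variable {V : Type w} {T : SimpleGraph V}

theorem pth_bdry (hT : T.IsTree) (r : V) : ∀ (n : ℕ) (v : V), T.dist r v = n →
    (pth hT r v).sum (fun e n => Finsupp.single e.1 n - Finsupp.single (par hT r e) n) =
      Finsupp.single v 1 - Finsupp.single r 1 := by
  intro n
  induction n with
  | zero =>
    intro v hv
    have : r = v := (hT.connected.dist_eq_zero_iff).1 hv
    subst this
    rw [pth_root, Finsupp.sum_zero_index, sub_self]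
  | succ n ih =>
    intro v hv
    have hne : v ≠ r := by
      rintro rfl
      rw [dist_self] at hv
      omega
    have h1 := par_dist hT r ⟨v, hne⟩
    have h2 := ih (par hT r ⟨v, hne⟩) (by simp only at h1; omega)
    rw [pth_eq hT r ⟨v, hne⟩, Finsupp.sum_add_index', h2, Finsupp.sum_single_index]
    · abel
    · simp
    · intro a
      simp
    · intro a b c
      rw [Finsupp.single_add, Finsupp.single_add]
      abel

end bdry

/-- The tree data of a group action on a tree. -/
noncomputable def treeData {G : Type v} [Group G] {V : Type u} [MulAction G V]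
    (A : TreeAction G V) : TreeData (STree A) where
  V := V
  E := {x : V // x ≠ Classical.choice A.tree.connected.nonempty}
  o := par A.tree _
  t := Subtype.val
  vtx := STree.vtx A
  edg e := STree.edg A e.1 (par A.tree _ e) (par_adj A.tree _ e)
  o_le e := STree.vtx_le_edg_right _
  t_le e := STree.vtx_le_edg_left _
  root := Classical.choice A.tree.connected.nonempty
  path := pth A.tree _
  path_edge e := by
    rw [pth_eq]
    abel
  bdry v := pth_bdry A.tree _ _ v rfl
  supp y v v' h h' e he := by
    rw [STree.edg_le]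
    exact pth_sub A.tree _ y.2.2 (STree.vtx_le.1 h) (STree.vtx_le.1 h') e he
  exists_le := STree.exists_vtx_le

namespace TreeData

variable {Y : Type u} [Preorder Y] (D : TreeData Y) {M : Type v} [AddCommGroup M]

/-- integral chains times an element -/
noncomputable def tens {E : Type u} (c : E →₀ ℤ) (m : M) : E →₀ M :=
  c.mapRange (fun n => n • m) (zero_smul ℤ m)

theorem tens_apply {E : Type u} (c : E →₀ ℤ) (m : M) (e : E) : tens c m e = c e • m := by
  rw [tens, Finsupp.mapRange_apply]

/-- boundary operator -/
noncomputable def d : (D.E →₀ M) →+ (D.V →₀ M) :=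
  Finsupp.liftAddHom fun e => Finsupp.singleAddHom (D.t e) - Finsupp.singleAddHom (D.o e)

theorem d_single (e : D.E) (m : M) :
    D.d (Finsupp.single e m) = Finsupp.single (D.t e) m - Finsupp.single (D.o e) m := by
  rw [d, Finsupp.liftAddHom_apply_single]
  rfl

/-- path operator -/
noncomputable def h : (D.V →₀ M) →+ (D.E →₀ M) :=
  Finsupp.liftAddHom fun v =>
    { toFun := tens (D.path v)
      map_zero' := by
        ext e
        rw [tens_apply, smul_zero]
        rfl
      map_add' := fun a b => by
        ext e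
        rw [Finsupp.add_apply, tens_apply, tens_apply, tens_apply, smul_add] }

theorem h_single (v : D.V) (m : M) : D.h (Finsupp.single v m) = tens (D.path v) m := by
  rw [h, Finsupp.liftAddHom_apply_single]
  rfl

theorem h_apply (f : D.V →₀ M) (e : D.E) :
    D.h f e = f.sum fun v m => D.path v e • m := by
  rw [h, Finsupp.liftAddHom_apply, Finsupp.sum, Finsupp.finsetSum_apply]
  exact Finset.sum_congr rfl fun v _ => tens_apply _ _ _

theorem tens_sub {E : Type u} (c c' : E →₀ ℤ) (m : M) : tens (c - c') m = tens c m - tens c' m := by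
  ext e
  rw [Finsupp.sub_apply, tens_apply, tens_apply, tens_apply, Finsupp.sub_apply, sub_smul]

theorem tens_add {E : Type u} (c c' : E →₀ ℤ) (m : M) : tens (c + c') m = tens c m + tens c' m := by
  ext e
  rw [Finsupp.add_apply, tens_apply, tens_apply, tens_apply, Finsupp.add_apply, add_smul]

theorem tens_zero {E : Type u} (m : M) : tens (0 : E →₀ ℤ) m = 0 := by
  ext e
  rw [tens_apply, Finsupp.zero_apply, Finsupp.zero_apply, zero_smul]

theorem tens_single {E : Type u} (e : E) (n : ℤ) (m : M) :
    tens (Finsupp.single e n) m = Finsupp.single e (n • m) := by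
  classical
  ext e'
  rw [tens_apply, Finsupp.single_apply, Finsupp.single_apply]
  split_ifs
  · rfl
  · rw [zero_smul]

/-- The path operator is a left inverse of the boundary operator. -/
theorem h_d (f : D.E →₀ M) : D.h (D.d f) = f := by
  induction f using Finsupp.induction_linear with
  | zero => rw [map_zero, map_zero]
  | add f g hf hg => rw [map_add, map_add, hf, hg]
  | single e m =>
    rw [d_single, map_sub, h_single, h_single, ← tens_sub, D.path_edge, tens_single, one_smul]

theorem d_injective : Function.Injective (D.d (M := M)) :=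
  Function.LeftInverse.injective D.h_d

theorem d_tens (c : D.E →₀ ℤ) (m : M) : D.d (tens c m) =
    tens (c.sum (fun e n => Finsupp.single (D.t e) n - Finsupp.single (D.o e) n)) m := by
  induction c using Finsupp.induction_linear with
  | zero => rw [tens_zero, map_zero, Finsupp.sum_zero_index, tens_zero]
  | add f g hf hg =>
    rw [tens_add, map_add, hf, hg, Finsupp.sum_add_index', tens_add]
    · intro a
      simp
    · intro a b c
      rw [Finsupp.single_add, Finsupp.single_add]
      abel
  | single e n =>
    rw [tens_single, d_single, Finsupp.sum_single_index (by simp), tens_sub, tens_single,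
      tens_single]

theorem d_h (f : D.V →₀ M) :
    D.d (D.h f) = f - Finsupp.single D.root (f.sum fun _ m => m) := by
  induction f using Finsupp.induction_linear with
  | zero =>
    rw [map_zero, map_zero, Finsupp.sum_zero_index, Finsupp.single_zero, sub_zero]
  | add f g hf hg =>
    rw [map_add, map_add, hf, hg, Finsupp.sum_add_index' (fun _ => rfl) (fun _ _ _ => rfl),
      Finsupp.single_add]
    abel
  | single v m =>
    rw [h_single, d_tens, D.bdry, tens_sub, tens_single, tens_single, one_smul,
      Finsupp.sum_single_index rfl]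

/-- Exactness in the middle, with label conditions on coordinates. -/
theorem exact_mid {K : Type*} {N : Type*} [AddCommGroup N] (c : K → M →+ N) (L : K → Y)
    (f : D.V →₀ M) (hf : ∀ v k, c k (f v) ≠ 0 → D.vtx v ≤ L k)
    (hsum : (f.sum fun _ m => m) = 0) :
    D.d (D.h f) = f ∧
      ∀ e k, c k (D.h f e) ≠ 0 → D.edg e ≤ L k ∧ ∃ v, c k (f v) ≠ 0 := by
  refine ⟨by rw [d_h, hsum, Finsupp.single_zero, sub_zero], fun e k hk => ?_⟩
  by_cases hall : ∀ v, c k (f v) = 0
  · exfalso
    apply hk
    rw [h_apply, Finsupp.sum, map_sum]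
    refine Finset.sum_eq_zero fun v _ => ?_
    rw [map_zsmul, hall, smul_zero]
  · push Not at hall
    obtain ⟨v0, hv0⟩ := hall
    refine ⟨?_, v0, hv0⟩
    have h1 : c k (D.h f e) = f.sum fun v m => (D.path v - D.path v0) e • c k m := by
      have h2 : (f.sum fun _ m => c k m) = 0 := by
        have := congrArg (c k) hsum
        rw [map_zero, Finsupp.sum, map_sum] at this
        exact this
      have h3 : c k (D.h f e) = f.sum fun v m => D.path v e • c k m := by
        rw [h_apply, Finsupp.sum, map_sum, Finsupp.sum]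
        exact Finset.sum_congr rfl fun v _ => map_zsmul _ _ _
      have h4 : (f.sum fun _ m => D.path v0 e • c k m) = 0 := by
        rw [Finsupp.sum, ← Finset.smul_sum]
        rw [Finsupp.sum] at h2
        rw [h2, smul_zero]
      have h5 : (f.sum fun v m => (D.path v - D.path v0) e • c k m) =
          (f.sum fun v m => D.path v e • c k m) - (f.sum fun _ m => D.path v0 e • c k m) := by
        rw [Finsupp.sum, Finsupp.sum, Finsupp.sum, ← Finset.sum_sub_distrib]
        exact Finset.sum_congr rfl fun v _ => by rw [Finsupp.sub_apply, sub_smul]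
      rw [h3, h5, h4, sub_zero]
    rw [h1, Finsupp.sum] at hk
    obtain ⟨v, -, hv⟩ := Finset.exists_ne_zero_of_sum_ne_zero hk
    have h6 : (D.path v - D.path v0) e ≠ 0 := fun h => hv (by rw [h, zero_smul])
    have h7 : c k (f v) ≠ 0 := fun h => hv (by rw [h, smul_zero])
    exact D.supp _ v0 v (hf v0 k hv0) (hf v k h7) e h6

end TreeData

end Pool.Agent.Lib.MP_c052b4_al.MT
end

section

/-!
# The exact sequence (4.2) for labelled free modules

`X` a labelled free module with labels in the directions in `A`, `b ∈ A`, `D` tree data for `Y_b`: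
`0 → ⊕_e X(w, e) → ⊕_v X(w, v) → (p_b X)(w) → 0` is exact (`h_d_mem`, `exists_edge_chain`,
`exists_vertex_chain`, `d_mem`).
-/

set_option autoImplicit false

namespace Pool.Agent.Lib.MP_c052b4_al.MT

universe u

variable {G : Type u} [Group G] {I : Type} [DecidableEq I] {Ys : I → Dir G}
  {S : Type u} [Ring S] {A : Set I} {b : I}

/-- Replace the coordinate `b` of a label by `y`. -/
def upd (w : (UL Ys A).W) (b : I) (y : (Ys b).Y) : (UL Ys A).W :=
  (Function.update (show ∀ a, (Ys a).Y from w) b y : ∀ a, (Ys a).Y)

theorem upd_self (w : (UL Ys A).W) (b : I) (y : (Ys b).Y) :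
    (show ∀ a, (Ys a).Y from upd w b y) b = y := Function.update_self _ _ _

theorem upd_of_ne (w : (UL Ys A).W) {a b : I} (h : a ≠ b) (y : (Ys b).Y) :
    (show ∀ a, (Ys a).Y from upd w b y) a = (show ∀ a, (Ys a).Y from w) a :=
  Function.update_of_ne h _ _

/-- The filtration for a label with the coordinate `b` replaced by `y`. -/
theorem mem_fil_update (hb : b ∈ A) (X : VCat S (UL Ys A)) (w : (UL Ys A).W) (y : (Ys b).Y)
    (m : X.M) : m ∈ X.fil (upd w b y) ↔
      ∀ i g, (m i).coeff g ≠ 0 →
        (∀ a ∈ A \ {b}, (show ∀ a, (Ys a).Y from w) a ≤ g • (X.l i : ∀ a, (Ys a).Y) a) ∧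
          y ≤ g • (X.l i : ∀ a, (Ys a).Y) b := by
  constructor
  · intro h i g hg
    have h1 : ∀ a ∈ A, (show ∀ a, (Ys a).Y from upd w b y) a ≤ g • (X.l i : ∀ a, (Ys a).Y) a := h i g hg
    refine ⟨fun a ha => ?_, ?_⟩
    · have h2 := h1 a ha.1
      rwa [upd_of_ne w (fun h => ha.2 h)] at h2
    · have h2 := h1 b hb
      rwa [upd_self] at h2
  · intro h i g hg
    obtain ⟨h1, h2⟩ := h i g hg
    change ∀ a ∈ A, (show ∀ a, (Ys a).Y from upd w b y) a ≤ g • (X.l i : ∀ a, (Ys a).Y) a
    intro a ha
    by_cases hab : a = b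
    · subst hab
      rwa [upd_self]
    · rw [upd_of_ne w hab]
      exact h1 a ⟨ha, hab⟩

/-- The filtration after forgetting the direction `b`. -/
theorem mem_fil_sub (X : VCat S (UL Ys A)) (w : (UL Ys A).W) (m : X.M) :
    m ∈ (VCat.mapObj (subHom Ys (A := A) (A' := A \ {b}) Set.sdiff_subset) X).fil w ↔
      ∀ i g, (m i).coeff g ≠ 0 → ∀ a ∈ A \ {b}, (show ∀ a, (Ys a).Y from w) a ≤ g • (X.l i : ∀ a, (Ys a).Y) a := Iff.rfl

variable (D : TreeData (Ys b).Y)

/-- The coordinate homomorphisms. -/
noncomputable def coord (X : VCat S (UL Ys A)) (k : X.I × G) : X.M →+ S where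
  toFun m := (m k.1).coeff k.2
  map_zero' := rfl
  map_add' _ _ := rfl

theorem coord_apply (X : VCat S (UL Ys A)) (k : X.I × G) (m : X.M) :
    coord X k m = (m k.1).coeff k.2 := rfl

/-- The boundary operator respects the labels. -/
theorem d_mem (hb : b ∈ A) (X : VCat S (UL Ys A)) (w : (UL Ys A).W) (f : D.E →₀ X.M)
    (hf : ∀ e, f e ∈ X.fil (upd w b (D.edg e))) (v : D.V) :
    D.d f v ∈ X.fil (upd w b (D.vtx v)) := by
  have hmono : ∀ (y y' : (Ys b).Y), y ≤ y' →
      X.fil (upd w b y') ≤ X.fil (upd w b y) := by
    intro y y' hy m hm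
    rw [mem_fil_update hb] at hm ⊢
    exact fun i g hg => ⟨(hm i g hg).1, hy.trans (hm i g hg).2⟩
  have h1 : D.d f = f.sum fun e m => Finsupp.single (D.t e) m - Finsupp.single (D.o e) m := by
    rw [TreeData.d, Finsupp.liftAddHom_apply]
    rfl
  rw [h1, Finsupp.sum, Finsupp.finsetSum_apply]
  refine Submodule.sum_mem _ fun e _ => ?_
  rw [Finsupp.sub_apply]
  classical
  refine Submodule.sub_mem _ ?_ ?_
  · rw [Finsupp.single_apply]
    split_ifs with h
    · subst h
      exact hmono _ _ (D.t_le e) (hf e)
    · exact Submodule.zero_mem _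
  · rw [Finsupp.single_apply]
    split_ifs with h
    · subst h
      exact hmono _ _ (D.o_le e) (hf e)
    · exact Submodule.zero_mem _

/-- Exactness in the middle. -/
theorem exists_edge_chain (hb : b ∈ A) (X : VCat S (UL Ys A)) (w : (UL Ys A).W)
    (f : D.V →₀ X.M) (hf : ∀ v, f v ∈ X.fil (upd w b (D.vtx v)))
    (hsum : (f.sum fun _ m => m) = 0) :
    D.d (D.h f) = f ∧ ∀ e, D.h f e ∈ X.fil (upd w b (D.edg e)) := by
  obtain ⟨h1, h2⟩ := D.exact_mid (coord X) (fun k => k.2 • (X.l k.1 : ∀ a, (Ys a).Y) b) f
    (fun v k hk => ((mem_fil_update hb X w _ _).1 (hf v) k.1 k.2 hk).2) hsum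
  refine ⟨h1, fun e => ?_⟩
  rw [mem_fil_update hb]
  intro i g hg
  obtain ⟨h3, v, hv⟩ := h2 e (i, g) hg
  exact ⟨((mem_fil_update hb X w _ _).1 (hf v) i g hv).1, h3⟩

/-- Exactness at the right. -/
theorem exists_vertex_chain (hb : b ∈ A) (X : VCat S (UL Ys A)) (w : (UL Ys A).W) (m : X.M)
    (hm : m ∈ (VCat.mapObj (subHom Ys (A := A) (A' := A \ {b}) Set.sdiff_subset) X).fil w) :
    ∃ f : D.V →₀ X.M, (∀ v, f v ∈ X.fil (upd w b (D.vtx v))) ∧
      (f.sum fun _ m => m) = m := by
  classical
  have hm' := (mem_fil_sub X w m).1 hm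
  choose φ hφ using fun k : X.I × G => D.exists_le (k.2 • (X.l k.1 : ∀ a, (Ys a).Y) b)
  let term : X.I → G → D.V →₀ X.M := fun i g =>
    Finsupp.single (φ (i, g)) (Finsupp.single i (MonoidAlgebra.single g ((m i).coeff g)))
  refine ⟨∑ i ∈ m.support, ∑ g ∈ (m i).coeff.support, term i g, fun v => ?_, ?_⟩
  · rw [Finsupp.finsetSum_apply]
    refine Submodule.sum_mem _ fun i _ => ?_
    rw [Finsupp.finsetSum_apply]
    refine Submodule.sum_mem _ fun g hg => ?_
    have hg' := Finsupp.mem_support_iff.1 hg
    simp only [term]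
    rw [Finsupp.single_apply]
    split_ifs with h
    · rw [mem_fil_update hb]
      intro i' g' hg2
      have hi : i = i' := by
        by_contra hne
        apply hg2
        rw [Finsupp.single_apply, if_neg hne]
        rfl
      subst hi
      rw [Finsupp.single_eq_same, MonoidAlgebra.coeff_single, Finsupp.single_apply] at hg2
      have hgg : g = g' := by
        by_contra hne
        rw [if_neg hne] at hg2
        exact hg2 rfl
      subst hgg
      refine ⟨hm' i g hg', ?_⟩
      rw [← h]
      exact hφ (i, g)
    · exact Submodule.zero_mem _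
  · have hs : ∀ (ι : Type u) (s : Finset ι) (F : ι → D.V →₀ X.M),
        ((∑ i ∈ s, F i).sum fun _ m => m) = ∑ i ∈ s, ((F i).sum fun _ m => m) := by
      intro ι s F
      induction s using Finset.induction_on with
      | empty => rfl
      | insert a s ha ih =>
        rw [Finset.sum_insert ha, Finset.sum_insert ha,
          Finsupp.sum_add_index' (fun _ => rfl) (fun _ _ _ => rfl), ih]
    rw [hs]
    have h3 : ∀ i ∈ m.support, ((∑ g ∈ (m i).coeff.support, term i g).sum fun _ m => m) =
        Finsupp.single i (m i) := by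
      intro i _
      rw [hs]
      have h4 : ∀ g ∈ (m i).coeff.support, ((term i g).sum fun _ m => m) =
          Finsupp.single i (MonoidAlgebra.single g ((m i).coeff g)) := by
        intro g _
        exact Finsupp.sum_single_index rfl
      rw [Finset.sum_congr rfl h4]
      have h5 : m i = ∑ g ∈ (m i).coeff.support, MonoidAlgebra.single g ((m i).coeff g) := by
        apply MonoidAlgebra.coeff_injective
        rw [MonoidAlgebra.coeff_sum]
        simp only [MonoidAlgebra.coeff_single]
        exact (Finsupp.sum_single _).symm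
      conv_rhs => rw [h5]
      exact (map_sum (Finsupp.singleAddHom i) _ _).symm
    rw [Finset.sum_congr rfl h3]
    exact Finsupp.sum_single m

/-! ### Sizes and stabilizers -/

section sizes

universe v

variable {J : Type} {V : J → Type u} [∀ a, MulAction G (V a)] (T : ∀ a, TreeAction G (V a))

/-- The directed poset of finite subtrees. -/
def dirOf {V : Type u} [MulAction G V] (T : TreeAction G V) : Dir G where
  Y := STree T
  mono g _ _ h := STree.smul_mono g h
  dir := STree.exists_ge

/-- An element which fixes a label in some directions fixes a vertex in each of them. -/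
theorem exists_fixed_of_label (y : ∀ a, (dirOf (T a)).Y) (g : G) (a : J) (h : g • y a = y a) :
    ∃ v : V a, g • v = v := by
  obtain ⟨v, _, hv⟩ := STree.exists_fixed_of_smul_eq (s := (y a : STree (T a))) h
  exact ⟨v, hv⟩

/-- Free simultaneous action: trivial stabilizers of labels. -/
theorem eq_one_of_label (hfree : ∀ g : G, (∀ a, ∃ v : V a, g • v = v) → g = 1)
    (y : ∀ a, (dirOf (T a)).Y) (g : G) (h : g • y = y) : g = 1 :=
  hfree g fun a => exists_fixed_of_label T y g a (congrFun h a)

/-- Free simultaneous action: only finitely many group elements map one label above another. -/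
theorem finite_label_le [Finite J] (hfree : ∀ g : G, (∀ a, ∃ v : V a, g • v = v) → g = 1)
    (y y' : ∀ a, (dirOf (T a)).Y) : {g : G | ∀ a, y a ≤ g • y' a}.Finite := by
  classical
  choose v hv using fun a => STree.exists_vtx_le (y a : STree (T a))
  have key : ∀ g : {g : G // ∀ a, y a ≤ g • y' a}, ∀ a, (g.1⁻¹ • v a) ∈ (y' a : STree (T a)).1 := by
    intro g a
    have h1 : STree.vtx (T a) (v a) ≤ g.1 • (y' a : STree (T a)) := (hv a).trans (g.2 a)
    exact STree.mem_smul.1 (STree.vtx_le.1 h1)
  let F : {g : G // ∀ a, y a ≤ g • y' a} → ∀ a, ((y' a : STree (T a)).1 : Set (V a)) :=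
    fun g a => ⟨g.1⁻¹ • v a, key g a⟩
  have hF : Function.Injective F := by
    intro g g' h
    apply Subtype.ext
    have h1 : ∀ a, g.1⁻¹ • v a = g'.1⁻¹ • v a := fun a =>
      congrArg Subtype.val (congrFun h a)
    have h2 : g'.1 * g.1⁻¹ = 1 := hfree _ fun a => ⟨v a, by rw [mul_smul, h1, smul_inv_smul]⟩
    exact (mul_inv_eq_one.1 h2).symm
  have : Finite {g : G // ∀ a, y a ≤ g • y' a} := Finite.of_injective F hF
  exact Set.finite_coe_iff.1 this

/-- The size of a label in the directions of a finite set. -/
def lsize (B : Finset J) (y : ∀ a, (dirOf (T a)).Y) : ℕ := ∑ a ∈ B, STree.card (y a : STree (T a))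

theorem lsize_smul (B : Finset J) (g : G) (y : ∀ a, (dirOf (T a)).Y) :
    lsize T B (g • y) = lsize T B y :=
  Finset.sum_congr rfl fun _ _ => STree.card_smul g _

theorem lsize_mono (B : Finset J) {y y' : ∀ a, (dirOf (T a)).Y} (h : ∀ a ∈ B, y a ≤ y' a) :
    lsize T B y ≤ lsize T B y' :=
  Finset.sum_le_sum fun a ha => STree.card_mono (h a ha)

/-- Comparable labels of the same size agree. -/
theorem eq_of_lsize (B : Finset J) {y y' : ∀ a, (dirOf (T a)).Y} (h : ∀ a ∈ B, y a ≤ y' a)
    (h2 : lsize T B y' ≤ lsize T B y) (a : J) (ha : a ∈ B) : y a = y' a := by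
  apply STree.eq_of_le_of_card (h a ha)
  by_contra hlt
  push Not at hlt
  have h3 : lsize T B y < lsize T B y' :=
    Finset.sum_lt_sum (fun a ha => STree.card_mono (h a ha)) ⟨a, ha, hlt⟩
  omega

theorem lsize_le_of_le_smul (B : Finset J) {y y' : ∀ a, (dirOf (T a)).Y} (g : G)
    (h : ∀ a ∈ B, y a ≤ g • y' a) : lsize T B y ≤ lsize T B y' := by
  rw [← lsize_smul T B g y']
  exact lsize_mono T B h

theorem eq_smul_of_lsize (B : Finset J) {y y' : ∀ a, (dirOf (T a)).Y} (g : G)
    (h : ∀ a ∈ B, y a ≤ g • y' a) (h2 : lsize T B y' ≤ lsize T B y) (a : J) (ha : a ∈ B) :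
    y a = g • y' a :=
  eq_of_lsize T B (y' := g • y') h (by rw [lsize_smul]; exact h2) a ha

/-- In each direction only finitely many labels lie below a given one. -/
theorem finite_le_label (a : J) (t : (dirOf (T a)).Y) : {s : (dirOf (T a)).Y | s ≤ t}.Finite :=
  STree.finite_le (A := T a) t

end sizes

end Pool.Agent.Lib.MP_c052b4_al.MT
end

section

set_option autoImplicit false

open scoped WithZero

namespace Pool.Agent.Lib.MP_c052b4_al.MT.L

universe u

/-- The places at infinity of a finite separable extension of a rational function field. (For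
`d = 0` take `ι` empty.) -/
theorem exists_places {k F E : Type u} [Field k] {d : ℕ} [Field F] [Field E]
    [Algebra (MvPolynomial (Fin d) k) F] [IsFractionRing (MvPolynomial (Fin d) k) F]
    [Algebra F E] [FiniteDimensional F E] [Algebra.IsSeparable F E]
    [Algebra (MvPolynomial (Fin d) k) E]
    [IsScalarTower (MvPolynomial (Fin d) k) F E] [Algebra k E]
    [IsScalarTower k (MvPolynomial (Fin d) k) E] :
    ∃ (ι : Type) (_ : Finite ι) (W : ι → Valuation E ℤᵐ⁰),
      (∀ i, ∃ q : E, W i q = WithZero.exp (-1 : ℤ)) ∧
        ∀ x : E, IsIntegral (MvPolynomial (Fin d) k) x → (∀ i, W i x ≤ 1) → IsIntegral k x := by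
  rcases Nat.eq_zero_or_pos d with hd | hd
  · subst hd
    refine ⟨Empty, inferInstance, fun i => i.elim, fun i => i.elim, fun x hx _ => ?_⟩
    have hs : Function.Surjective (algebraMap k (MvPolynomial (Fin 0) k)) :=
      MvPolynomial.C_surjective (Fin 0)
    have : Algebra.IsIntegral k (MvPolynomial (Fin 0) k) :=
      ⟨fun f => by
        obtain ⟨c, rfl⟩ := hs f
        exact isIntegral_algebraMap⟩
    exact isIntegral_trans x hx
  · obtain ⟨O, hdvr, hO⟩ := exists_infVal k d hd F
    obtain ⟨ι, hι, W, hW1, hW2⟩ := exists_primes (F := F) (E := E) O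
    exact ⟨ι, hι, W, hW1, fun x h1 h2 => integral_of_two O hO x h1 (hW2 x h2)⟩

end Pool.Agent.Lib.MP_c052b4_al.MT.L
end

section

/-!
# Coherent trees, T03: projection to a subtree
-/

set_option autoImplicit false
set_option linter.unusedVariables false
set_option linter.unusedSectionVars false

namespace Pool.Agent.Lib.MP_c052b4_al.CT

open MulAction
open Pool.Agent.Lib.MP_c052b4_al.MT

universe u v w

/-- **A group which acts on a tree with a fixed vertex fixes a vertex in each stable subtree.**
Proof: let `f v = dist w (ι v)` in the tree `B.graph`, `f (g • v) = f v` (`dist_smul` for `B`, `g • w = w`).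
Let `v₀` minimize `f` (`V` is nonempty). Claim: `f v = f v₀ + dist v₀ v` (distance in `A.graph`) for all `v`;
so `v₀` is the only vertex with minimal `f`, and `g • v₀ = v₀`. Proof of the claim by induction on
`dist v₀ v = n`, together with the statement that the last step goes away from `w`: for `n = 0` clear. Let
`v ≠ v₀`, `v'` the neighbour of `v` closer to `v₀` (`exists_closer`), `f v' = f v₀ + n - 1` by induction.
`f v = f v' + 1` or `f v + 1 = f v'` (`IsTree.dist_eq_dist_add_one_of_adj` in `B`). In the second case: if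
`v' = v₀` this contradicts the minimality; otherwise let `v''` be the neighbour of `v'` closer to `v₀`,
`f v'' = f v' - 1` by induction, so `ι v` and `ι v''` are neighbours of `ι v'` closer to `w`, so they are equal
(`closer_unique`), `v = v''` by injectivity, but the distances to `v₀` differ. -/
theorem exists_fixed_of_embedding {G : Type u} [Group G] {V : Type v} {W : Type w}
    [MulAction G V] [MulAction G W] (A : TreeAction G V) (B : TreeAction G W) (ι : V → W)
    (hinj : Function.Injective ι) (hadj : ∀ x y, A.graph.Adj x y → B.graph.Adj (ι x) (ι y))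
    (hι : ∀ (g : G) (x : V), ι (g • x) = g • ι x) (w : W) (hw : ∀ g : G, g • w = w) :
    ∃ v : V, ∀ g : G, g • v = v := by
  obtain ⟨f, hf⟩ : ∃ f : V → ℕ, ∀ v, f v = B.graph.dist w (ι v) := ⟨_, fun _ => rfl⟩
  have hfg : ∀ (g : G) (v : V), f (g • v) = f v := by
    intro g v
    rw [hf, hf, hι, ← dist_smul B g w (ι v), hw]
  have hne : Nonempty V := A.tree.connected.nonempty
  obtain ⟨v₀, hv₀⟩ : ∃ v₀, ∀ v, f v₀ ≤ f v := ⟨Function.argmin f, fun v => Function.argmin_le f v⟩
  have key : ∀ (n : ℕ) (v : V), A.graph.dist v₀ v = n → f v = f v₀ + n := by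
    intro n
    induction n using Nat.strong_induction_on with
    | _ n ih =>
      intro v hv
      by_cases hvv : v = v₀
      · subst hvv
        rw [SimpleGraph.dist_self] at hv
        omega
      obtain ⟨v', ha, hd⟩ := exists_closer A.tree v₀ hvv
      have h1 := ih (A.graph.dist v₀ v') (by omega) v' rfl
      have h2 := hadj _ _ ha
      rcases B.tree.dist_eq_dist_add_one_of_adj w h2 with h3 | h3
      · rw [← hf, ← hf] at h3
        omega
      · rw [← hf, ← hf] at h3
        exfalso
        by_cases hv' : v' = v₀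
        · subst hv'
          have := hv₀ v
          omega
        · obtain ⟨v'', ha', hd'⟩ := exists_closer A.tree v₀ hv'
          have h4 := ih (A.graph.dist v₀ v'') (by omega) v'' rfl
          have h5 : B.graph.dist w (ι v') = B.graph.dist w (ι v) + 1 := by
            rw [← hf, ← hf]
            exact h3
          have h6 : B.graph.dist w (ι v') = B.graph.dist w (ι v'') + 1 := by
            rw [← hf, ← hf]
            omega
          have h7 := hinj (closer_unique B.tree w h2.symm (hadj _ _ ha') h5 h6)
          rw [← h7] at hd'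
          omega
  refine ⟨v₀, fun g => ?_⟩
  have h1 := key _ (g • v₀) rfl
  rw [hfg] at h1
  have h2 : A.graph.dist v₀ (g • v₀) = 0 := by omega
  exact ((A.tree.connected.dist_eq_zero_iff).1 h2).symm

end Pool.Agent.Lib.MP_c052b4_al.CT
end
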