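import Pool.Agent.Lib.MP_c052b4_al.Mg.G027
import Pool.Agent.Lib.MP_c052b4_al.Mg.G033
import Pool.Agent.Lib.MP_c052b4_al.Mg.G023
import Pool.Agent.Lib.MP_c052b4_al.Mg.G006
import Pool.Agent.Lib.MP_c052b4_al.Mg.G041

section

/-!
# TREES^n, section 4, D05c: the counit
-/

set_option autoImplicit false
set_option linter.unusedVariables false

namespace Pool.Agent.Lib.MP_c052b4_al.MT

open CategoryTheory Opposite Limits

universe u

variable {S : Type u} [Ring S] {G : Type u} [Group G] {L : Lbl G}

/-- The morphism `F_y ⊗ N(y) ⟶ N` (Yoneda): `single g v ↦ N.map g.op v` for `g : x ⟶ y`. At the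
object `y` it is surjective, as `single (𝟙 y) v ↦ v`. -/
theorem fy_counit (y : Q L) (N : AA S L) :
    ∃ α : (fy y).obj (N.obj (op y)) ⟶ N, ∀ (v : N.obj (op y)),
      (α.app (op y)).hom (Finsupp.single (𝟙 y) v) = v := by
  refine ⟨{ app := fun x => ModuleCat.ofHom
              (Finsupp.lsum ℕ fun g : (x.unop ⟶ y) => (N.map g.op).hom)
            naturality := ?_ }, ?_⟩
  · intro x x' f
    refine ModuleCat.hom_ext (Finsupp.lhom_ext fun a v => ?_)
    change (Finsupp.lsum ℕ fun g : (x'.unop ⟶ y) => (N.map g.op).hom)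
        (Finsupp.mapDomain (fun g : (x.unop ⟶ y) => f.unop ≫ g) (Finsupp.single a v)) =
      (N.map f).hom ((Finsupp.lsum ℕ fun g : (x.unop ⟶ y) => (N.map g.op).hom)
        (Finsupp.single a v))
    rw [Finsupp.mapDomain_single, Finsupp.lsum_single, Finsupp.lsum_single, op_comp,
      N.map_comp, ModuleCat.hom_comp, LinearMap.comp_apply, Quiver.Hom.op_unop]
  · intro v
    change (Finsupp.lsum ℕ fun g : (y ⟶ y) => (N.map g.op).hom) (Finsupp.single (𝟙 y) v) = v
    rw [Finsupp.lsum_single, op_id, N.map_id]
    rfl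

/-- The support of a functor. -/
def supp (N : AA S L) : Set L.W := {x | ¬ Subsingleton (N.obj (op ⟨x⟩))}

/-- The support is `G`-stable (for `x ∈ W`, `g ∈ G` the labels `x` and `g x` are isomorphic in
`Q L`: `qmk g⁻¹ : g x ⟶ x`). -/
theorem supp_smul (N : AA S L) (g : G) (x : L.W) : g • x ∈ supp N ↔ x ∈ supp N := by
  let a : (⟨g • x⟩ : Q L) ⟶ ⟨x⟩ := qmk g (L.refl _)
  let b : (⟨x⟩ : Q L) ⟶ ⟨g • x⟩ := qmk g⁻¹ (by rw [inv_smul_smul]; exact L.refl _)
  have hab : a ≫ b = 𝟙 _ := q_ext (mul_inv_cancel g)
  have hba : b ≫ a = 𝟙 _ := q_ext (inv_mul_cancel g)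
  have e1 : ∀ v : N.obj (op ⟨x⟩), (N.map b.op).hom ((N.map a.op).hom v) = v := by
    intro v
    have h1 : N.map a.op ≫ N.map b.op = 𝟙 _ := by
      rw [← N.map_comp, ← op_comp, hba, op_id, N.map_id]
    exact congrArg (fun t => t.hom v) h1
  have e2 : ∀ v : N.obj (op ⟨g • x⟩), (N.map a.op).hom ((N.map b.op).hom v) = v := by
    intro v
    have h1 : N.map b.op ≫ N.map a.op = 𝟙 _ := by
      rw [← N.map_comp, ← op_comp, hab, op_id, N.map_id]
    exact congrArg (fun t => t.hom v) h1
  constructor
  · intro h1 h2
    refine h1 ⟨fun v w => ?_⟩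
    rw [← e2 v, ← e2 w, h2.elim ((N.map b.op).hom v) ((N.map b.op).hom w)]
  · intro h1 h2
    refine h1 ⟨fun v w => ?_⟩
    rw [← e1 v, ← e1 w, h2.elim ((N.map a.op).hom v) ((N.map a.op).hom w)]

private theorem d05c_one (hL : TopL L) (y : L.W) (h : G) (hy : L.le y (h • y)) : h = 1 := by
  have hf := hL.lower y
  have hsub : {x | L.le x y} ⊆ {x | L.le x (h • y)} := fun x hx => L.trans hx hy
  have himg : {x | L.le x (h • y)} = (fun x : L.W => h • x) '' {x | L.le x y} := by
    ext x
    constructor
    · intro hx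
      refine ⟨h⁻¹ • x, ?_, smul_inv_smul h x⟩
      have h1 := L.smul h⁻¹ hx
      rwa [inv_smul_smul] at h1
    · rintro ⟨z, hz, rfl⟩
      exact L.smul h hz
  have hcard : {x | L.le x (h • y)}.ncard ≤ {x | L.le x y}.ncard := by
    rw [himg]
    exact Set.ncard_image_le hf
  have hf' : {x | L.le x (h • y)}.Finite := by
    rw [himg]
    exact hf.image _
  have heq := Set.eq_of_subset_of_ncard_le hsub hcard hf'
  have h2 : h • y ∈ {x | L.le x y} := by
    rw [heq]
    exact L.refl _
  exact hL.free h y (hL.antisymm _ _ h2 hy)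

/-- Kernel and cokernel of the counit at a label `y` of maximal size.
Here the size of a label `x` is the number of elements of its lower set. Assume that no label of the
support of `N` is strictly bigger than a translate of `y`. Then:
* the cokernel of `α` has support in `supp N` and not containing `y`;
* the kernel of `α` has support in `{x | ∃ g, x < g y strictly}`.
Proof: cokernel: quotient of `N`, and `α` is surjective at `y`. Kernel: subfunctor of `F_y ⊗ N(y)`,
which is zero at `x` unless `x ≤ g y` for some `g`; at `x = g y` it is `v ↦ N(g)(v)`, injective: the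
only `h` with `y ≤ h y` is `1`: as `|lower (h y)| = |lower y|` and lower sets are finite, `y ≤ h y`
gives `y = h y` (`antisymm`, counting), so `h = 1` by `free`; so `F_y ⊗ V` at `y` is `V`, and `α` is
bijective at `y`, hence at all `g y`. -/
theorem counit_supp (hL : TopL L) (y : Q L) (N : AA S L)
    (α : (fy y).obj (N.obj (op y)) ⟶ N)
    (hα : ∀ v : N.obj (op y), (α.app (op y)).hom (Finsupp.single (𝟙 y) v) = v) :
    (supp (cokernel α) ⊆ supp N \ {x | ∃ g : G, x = g • y.w}) ∧
    (supp (kernel α) ⊆ {x | ∃ g : G, L.le x (g • y.w) ∧ x ≠ g • y.w}) := by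
  have hsing : ∀ w : (y ⟶ y) →₀ N.obj (op y), w = Finsupp.single (𝟙 y) (w (𝟙 y)) := by
    intro w
    ext h
    have h1 : h = 𝟙 y := q_ext (d05c_one hL y.w (qg h) (qle h))
    subst h1
    rw [Finsupp.single_eq_same]
  constructor
  · intro x hx
    refine ⟨fun h1 => hx ?_, ?_⟩
    · refine ⟨fun v w => ?_⟩
      obtain ⟨v', rfl⟩ := aa_surj (cokernel.π α) (op ⟨x⟩) v
      obtain ⟨w', rfl⟩ := aa_surj (cokernel.π α) (op ⟨x⟩) w
      rw [h1.elim v' w']
    · rintro ⟨g, rfl⟩
      have h1 : y.w ∈ supp (cokernel α) := (supp_smul _ g y.w).1 hx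
      refine h1 ⟨fun v w => ?_⟩
      have h2 : ∀ v : N.obj (op y), ((cokernel.π α).app (op y)).hom v = 0 := by
        intro v
        have h3 := congrArg (fun t : (fy y).obj (N.obj (op y)) ⟶ cokernel α =>
          (t.app (op y)).hom (Finsupp.single (𝟙 y) v)) (cokernel.condition α)
        change ((cokernel.π α).app (op y)).hom ((α.app (op y)).hom (Finsupp.single (𝟙 y) v)) =
          0 at h3
        rwa [hα] at h3
      obtain ⟨v', rfl⟩ := aa_surj (cokernel.π α) (op y) v
      obtain ⟨w', rfl⟩ := aa_surj (cokernel.π α) (op y) w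
      rw [h2, h2]
  · have hinj : ∀ x : (Q L)ᵒᵖ, Function.Injective ((kernel.ι α).app x).hom := fun x =>
      (ModuleCat.mono_iff_injective _).1 ((NatTrans.mono_iff_mono_app (kernel.ι α)).1
        inferInstance x)
    intro x hx
    by_contra hcon
    have hcon' : ∀ g : G, L.le x (g • y.w) → x = g • y.w := by
      intro g hg
      by_contra h1
      exact hcon ⟨g, hg, h1⟩
    by_cases he : ∃ g : G, L.le x (g • y.w)
    · obtain ⟨g, hg⟩ := he
      have h0 := hcon' g hg
      subst h0
      have h1 : y.w ∈ supp (kernel α) := (supp_smul _ g y.w).1 hx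
      refine h1 ⟨fun v w => ?_⟩
      have h2 : ∀ v : (kernel α).obj (op y), v = 0 := by
        intro v
        apply hinj (op y)
        rw [map_zero]
        have h3 := congrArg (fun t : kernel α ⟶ N => (t.app (op y)).hom v) (kernel.condition α)
        change (α.app (op y)).hom (((kernel.ι α).app (op y)).hom v) = 0 at h3
        have h4 := hsing (((kernel.ι α).app (op y)).hom v)
        rw [h4, hα] at h3
        rw [h3, Finsupp.single_zero] at h4
        exact h4
      exact (h2 v).trans (h2 w).symm
    · refine hx ⟨fun v w => hinj (op ⟨x⟩) ?_⟩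
      have hemp : IsEmpty ((⟨x⟩ : Q L) ⟶ y) := ⟨fun f => he ⟨qg f, qle f⟩⟩
      have hs : Subsingleton (((⟨x⟩ : Q L) ⟶ y) →₀ N.obj (op y)) := inferInstance
      exact hs.elim _ _

end Pool.Agent.Lib.MP_c052b4_al.MT
end

section

/-!
# TREES^n, section 4, H01: dominated complexes which vanish after forgetting directions
-/

set_option autoImplicit false
set_option linter.unusedVariables false

namespace Pool.Agent.Lib.MP_c052b4_al.MT

open CategoryTheory Limits Pretriangulated

universe u

variable {R : Type u} [Ring R] {G : Type u} [Group G] {L : Lbl G} {ι : Type} {L' : ι → Lbl G}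

/-- Base change to `R[z, 1/z]` on the homotopy categories. -/
noncomputable abbrev lK (R : Type u) [Ring R] {G : Type u} [Group G] (L : Lbl G) :
    KV (Polynomial R) L ⥤ KV (LaurentPolynomial R) L :=
  kR (S := Polynomial R) (S' := LaurentPolynomial R) L Polynomial.toLaurent

/-- Dominated complexes which become zero after the changes of labels `p i`. -/
def DomZ (S : Type u) [Ring S] (p : ∀ i, LblHom L (L' i)) : ObjectProperty (KV S L) :=
  fun X => Dom S L X ∧ ∀ i, IsZero ((kL S (p i)).obj X)

instance domZ_triangulated (S : Type u) [Ring S] (p : ∀ i, LblHom L (L' i)) :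
    (DomZ S p).IsTriangulated where
  exists_zero := by
    obtain ⟨Z, hZ, h⟩ := (Dom S L).exists_prop_of_containsZero
    exact ⟨Z, hZ, h, fun i => (kL S (p i)).map_isZero hZ⟩
  isStableUnderShiftBy m := ⟨fun X hX => ⟨(Dom S L).le_shift m _ hX.1, fun i =>
    IsZero.of_iso ((shiftFunctor (KV S (L' i)) m).map_isZero (hX.2 i))
      (((kL S (p i)).commShiftIso m).app X)⟩⟩
  ext₂' T hT h₁ h₃ := by
    refine (DomZ S p).le_isoClosure _ ⟨?_, fun i => ?_⟩
    · exact (Dom S L).ext_of_isTriangulatedClosed₂ T hT h₁.1 h₃.1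
    · exact Triangle.isZero₂_of_isZero₁₃ _ ((kL S (p i)).map_distinguished T hT) (h₁.2 i) (h₃.2 i)

instance domZ_retracts (S : Type u) [Ring S] (p : ∀ i, LblHom L (L' i)) :
    (DomZ S p).IsStableUnderRetracts where
  of_retract {X Y} r hY := by
    refine ⟨(Dom S L).prop_of_retract r hY.1, fun i => ?_⟩
    have r' := r.map (kL S (p i))
    rw [IsZero.iff_id_eq_zero, ← r'.retract, (hY.2 i).eq_of_tgt r'.i 0, zero_comp]

private theorem h01_iso {S S' : Type u} [Ring S] [Ring S'] (φ : S →+* S') (F : VCat S L) :
    Nonempty ((kR L φ).obj (kS F) ≅ kS ((VCat.bc φ).obj F)) :=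
  ⟨(HomotopyCategory.quotient (VCat S' L) (ComplexShape.up ℤ)).mapIso
    ((HomologicalComplex.singleMapHomologicalComplex (VCat.bc φ) (ComplexShape.up ℤ) 0).app F)⟩

/-- Base change preserves dominated complexes (`Dom.le`, `bc` of a finite object is finite). -/
theorem dom_kR {S S' : Type u} [Ring S] [Ring S'] (φ : S →+* S') {X : KV S L} (hX : Dom S L X) :
    Dom S' L ((kR L φ).obj X) := by
  have : ((Dom S' L).inverseImage (kR L φ)).IsStableUnderRetracts :=
    ⟨fun {X Y} r hY => (Dom S' L).prop_of_retract (r.map (kR L φ)) hY⟩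
  refine Dom.le (P := (Dom S' L).inverseImage (kR L φ)) (fun F hF => ?_) _ hX
  obtain ⟨e⟩ := h01_iso (L := L) φ F
  have hF' : Finite ((VCat.bc φ).obj F).I := hF
  exact (Dom S' L).prop_of_iso e.symm (dom_kS _)

/-- `kR` and `kL` commute, so base change preserves `DomZ`. -/
theorem domZ_kR {S S' : Type u} [Ring S] [Ring S'] (φ : S →+* S') (p : ∀ i, LblHom L (L' i))
    {X : KV S L} (hX : DomZ S p X) : DomZ S' p ((kR L φ).obj X) :=
  ⟨dom_kR φ hX.1, fun i => (kR (L' i) φ).map_isZero (hX.2 i)⟩

/-- Multiplication with a power of `z` is invertible over `R[z, 1/z]`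
(`kR_zKn`, `zK_comp`, with `s = T 1`, `t = T (-1)`). -/
theorem isIso_lK_zKn (X : KV (Polynomial R) L) (k : ℕ) :
    IsIso ((lK R L).map (zKn Polynomial.X (zX_central R) X k)) := by
  have ht : ∀ x : LaurentPolynomial R, LaurentPolynomial.T (-1) * x =
      x * LaurentPolynomial.T (-1) := fun x => (LaurentPolynomial.commute_T (-1) x).eq
  have h1 : (Polynomial.toLaurent : Polynomial R →+* LaurentPolynomial R) Polynomial.X *
      LaurentPolynomial.T (-1) = 1 := by
    rw [Polynomial.toLaurent_X, ← LaurentPolynomial.T_add, add_neg_cancel,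
      LaurentPolynomial.T_zero]
  have h2 : LaurentPolynomial.T (-1) *
      (Polynomial.toLaurent : Polynomial R →+* LaurentPolynomial R) Polynomial.X = 1 := by
    rw [Polynomial.toLaurent_X, ← LaurentPolynomial.T_add, neg_add_cancel,
      LaurentPolynomial.T_zero]
  have h3 : ∀ Y : KV (LaurentPolynomial R) L,
      IsIso (zK ((Polynomial.toLaurent : Polynomial R →+* LaurentPolynomial R) Polynomial.X)
        (zT_central R) Y) := fun Y =>
    ⟨zK (LaurentPolynomial.T (-1)) ht Y, zK_comp (zT_central R) ht h1 Y,
      zK_comp ht (zT_central R) h2 Y⟩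
  rw [kR_zKn (zX_central R) (Polynomial.toLaurent : Polynomial R →+* LaurentPolynomial R)
    (zT_central R)]
  induction k with
  | zero =>
    rw [zKn_zero]
    infer_instance
  | succ k ih =>
    rw [zKn_succ]
    have := h3 ((kR L (Polynomial.toLaurent : Polynomial R →+* LaurentPolynomial R)).obj X)
    infer_instance

end Pool.Agent.Lib.MP_c052b4_al.MT
end

section

/-!
# TREES^n, section 4, I01: the labels of products of trees

`treeDir`: tree data in one direction give a `TreeDir`. `topL_tree`: the conditions of the top level.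
-/

set_option autoImplicit false
set_option linter.unusedVariables false

namespace Pool.Agent.Lib.MP_c052b4_al.MT

open CategoryTheory

universe u

variable {G : Type u} [Group G] {J : Type}

/-- Comparison with a label whose coordinate `b` is replaced by `y`. -/
theorem upd_le_iff [DecidableEq J] {Ys : J → Dir G} {A : Set J} {b : J} (hb : b ∈ A)
    (x z : (UL Ys A).W) (y : (Ys b).Y) : (UL Ys A).le (upd x b y) z ↔
      (∀ a ∈ A \ {b}, (x : ∀ a, (Ys a).Y) a ≤ (z : ∀ a, (Ys a).Y) a) ∧
        y ≤ (z : ∀ a, (Ys a).Y) b := by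
  constructor
  · intro h
    refine ⟨fun a ha => ?_, ?_⟩
    · exact (le_of_eq (upd_of_ne x (fun h => ha.2 h) y).symm).trans (h a ha.1)
    · exact (le_of_eq (upd_self x b y).symm).trans (h b hb)
  · rintro ⟨h1, h2⟩ a ha
    by_cases hab : a = b
    · subst hab
      exact (le_of_eq (upd_self x a y)).trans h2
    · exact (le_of_eq (upd_of_ne x hab y)).trans (h1 a ⟨ha, hab⟩)

/-- Replacing a coordinate is monotone. -/
theorem upd_le_upd [DecidableEq J] {Ys : J → Dir G} {A : Set J} {b : J} (hb : b ∈ A)
    (x : (UL Ys A).W) {y y' : (Ys b).Y} (h : y ≤ y') :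
    (UL Ys A).le (upd x b y) (upd x b y') := by
  rw [upd_le_iff hb]
  exact ⟨fun a ha => le_of_eq (upd_of_ne x (fun h => ha.2 h) y').symm,
    h.trans (le_of_eq (upd_self x b y').symm)⟩

/-- Tree data in the direction `b` give a tree direction. -/
noncomputable def treeDirOf [DecidableEq J] (Ys : J → Dir G) (A : Set J) {b : J} (hb : b ∈ A)
    (D : TreeData (Ys b).Y) :
    TreeDir (subHom Ys (A := A) (A' := A \ {b}) Set.sdiff_subset) where
  E := D.E
  V := D.V
  src := D.o
  tgt := D.t
  root := D.root
  path := D.path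
  path_diff := D.path_edge
  bdry_path v := by
    rw [← D.bdry v]
    refine Finsupp.sum_congr fun e _ => ?_
    rw [smul_sub, Finsupp.smul_single, Finsupp.smul_single, smul_eq_mul, mul_one]
  surj := fun x => ⟨x, rfl⟩
  vx x v := upd x b (D.vtx v)
  ex x e := upd x b (D.edg e)
  src_le x e := upd_le_upd hb x (D.o_le e)
  tgt_le x e := upd_le_upd hb x (D.t_le e)
  below x y := by
    constructor
    · intro h
      obtain ⟨v, hv⟩ := D.exists_le ((y : ∀ a, (Ys a).Y) b)
      exact ⟨v, (upd_le_iff hb x y _).2 ⟨h, hv⟩⟩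
    · rintro ⟨v, hv⟩
      exact ((upd_le_iff hb x y _).1 hv).1
  conn x y v v' h h' e he := by
    have h3 : (D.path v' - D.path v) e ≠ 0 := by
      rw [Finsupp.sub_apply]
      exact sub_ne_zero.2 he
    rw [upd_le_iff hb] at h h' ⊢
    exact ⟨h.1, D.supp _ v v' h.2 h'.2 e h3⟩

variable {V : J → Type u} [∀ a, MulAction G (V a)] (T : ∀ a, TreeAction G (V a))

/-- The tree direction `b` of a group acting on trees. -/
noncomputable def treeDir [DecidableEq J] (b : J) :
    TreeDir (subHom (fun a => dirOf (T a)) (A := Set.univ) (A' := Set.univ \ {b})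
      Set.sdiff_subset) :=
  treeDirOf (fun a => dirOf (T a)) Set.univ (Set.mem_univ b) (treeData (T b))

/-- The conditions of the top level for a simultaneously free action on finitely many trees. -/
theorem topL_tree [Finite J] (hfree : ∀ g : G, (∀ a, ∃ v : V a, g • v = v) → g = 1) :
    TopL (UL (fun a => dirOf (T a)) Set.univ) where
  antisymm x y h h' := funext fun a =>
    le_antisymm (α := STree (T a)) (h a (Set.mem_univ a)) (h' a (Set.mem_univ a))
  free g x h := eq_one_of_label T hfree x g h
  lower y := by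
    have h1 : {f : ∀ a, (dirOf (T a)).Y | ∀ a, f a ∈ {s : (dirOf (T a)).Y |
        s ≤ (y : ∀ a, (dirOf (T a)).Y) a}}.Finite :=
      Set.Finite.pi' fun a => finite_le_label T a _
    exact h1.subset fun x hx a => hx a (Set.mem_univ a)

end Pool.Agent.Lib.MP_c052b4_al.MT
end

section

set_option autoImplicit false

open scoped WithZero

namespace Pool.Agent.Lib.MP_c052b4_al.MT.L

universe u

/-- A domain of finite type over a field `k` of characteristic `p` has an embedding into a field
with finitely many discrete valuations, such that the elements of the domain which are integral for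
all these valuations are integral over the prime field.

Proof: Noether normalization `k[t_1, ..., t_d] → B` (`exists_finite_inj_algHom_of_fg`), fraction
fields `F`, `L` (`L/F` finite), `exists_frob`, `exists_places`. -/
theorem exists_embedding (p : ℕ) [Fact p.Prime] (B : Type u) [CommRing B] [IsDomain B]
    (k : Type u) [Field k] [CharP k p] [Algebra k B] [Algebra.FiniteType k B] :
    ∃ (E : Type u) (_ : Field E) (f : B →+* E) (ι : Type) (_ : Finite ι)
      (W : ι → Valuation E ℤᵐ⁰), Function.Injective f ∧
      (∀ i, ∃ q : E, W i q = WithZero.exp (-1 : ℤ)) ∧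
        ∀ b : B, (∀ i, W i (f b) ≤ 1) → IsIntegral k b := by
  obtain ⟨d, g, hg, hgf⟩ := exists_finite_inj_algHom_of_fg k B
  let : Algebra (MvPolynomial (Fin d) k) B := g.toRingHom.toAlgebra
  have hfin : Module.Finite (MvPolynomial (Fin d) k) B := hgf
  have hkRB : IsScalarTower k (MvPolynomial (Fin d) k) B :=
    IsScalarTower.of_algebraMap_eq fun x => (g.commutes x).symm
  have hinj : Function.Injective (algebraMap (MvPolynomial (Fin d) k) B) := hg
  have : FaithfulSMul (MvPolynomial (Fin d) k) B :=
    (faithfulSMul_iff_algebraMap_injective _ _).2 hinj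
  have : Module.IsTorsionFree (MvPolynomial (Fin d) k) B := inferInstance
  have hBL : Function.Injective (algebraMap B (FractionRing B)) :=
    IsFractionRing.injective B (FractionRing B)
  let : Algebra (FractionRing (MvPolynomial (Fin d) k)) (FractionRing B) :=
    FractionRing.liftAlgebra _ _
  have hRFL : IsScalarTower (MvPolynomial (Fin d) k)
      (FractionRing (MvPolynomial (Fin d) k)) (FractionRing B) := inferInstance
  have : FiniteDimensional (FractionRing (MvPolynomial (Fin d) k)) (FractionRing B) := by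
    exact .of_isLocalization (MvPolynomial (Fin d) k) B
      (nonZeroDivisors (MvPolynomial (Fin d) k))
  have : CharP (FractionRing (MvPolynomial (Fin d) k)) p :=
    charP_of_injective_algebraMap (FaithfulSMul.algebraMap_injective k _) p
  obtain ⟨E, n, f, hsep, hf⟩ := exists_frob (F := FractionRing (MvPolynomial (Fin d) k))
    (L := FractionRing B) p
  have hkRL : IsScalarTower k (MvPolynomial (Fin d) k) (FractionRing B) :=
    IsScalarTower.of_algebraMap_eq fun x => by
      rw [IsScalarTower.algebraMap_apply k B (FractionRing B),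
        IsScalarTower.algebraMap_apply (MvPolynomial (Fin d) k) B (FractionRing B),
        ← IsScalarTower.algebraMap_apply k (MvPolynomial (Fin d) k) B]
  have hkFL : IsScalarTower k (FractionRing (MvPolynomial (Fin d) k)) (FractionRing B) :=
    IsScalarTower.of_algebraMap_eq fun x => by
      rw [IsScalarTower.algebraMap_apply k (MvPolynomial (Fin d) k)
          (FractionRing (MvPolynomial (Fin d) k)), ← IsScalarTower.algebraMap_apply
          (MvPolynomial (Fin d) k) (FractionRing (MvPolynomial (Fin d) k)) (FractionRing B),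
        ← IsScalarTower.algebraMap_apply k (MvPolynomial (Fin d) k) (FractionRing B)]
  have hkRE : IsScalarTower k (MvPolynomial (Fin d) k) E :=
    IsScalarTower.of_algebraMap_eq fun x => Subtype.ext
      (IsScalarTower.algebraMap_apply k (MvPolynomial (Fin d) k) (FractionRing B) x)
  have hREL : IsScalarTower (MvPolynomial (Fin d) k) E (FractionRing B) :=
    IsScalarTower.of_algebraMap_eq fun x => rfl
  have hkEL : IsScalarTower k E (FractionRing B) := IsScalarTower.of_algebraMap_eq fun x => rfl
  obtain ⟨ι, hι, W, hW1, hW2⟩ := exists_places (k := k) (d := d)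
    (F := FractionRing (MvPolynomial (Fin d) k)) (E := E)
  have hEL : Function.Injective (algebraMap E (FractionRing B)) := Subtype.val_injective
  refine ⟨E, inferInstance, f.comp (algebraMap B (FractionRing B)), ι, hι, W,
    f.injective.comp hBL, hW1, fun b hb => ?_⟩
  have hbR : IsIntegral (MvPolynomial (Fin d) k) b := Algebra.IsIntegral.isIntegral b
  have hval : algebraMap E (FractionRing B) (f (algebraMap B (FractionRing B) b)) =
      (algebraMap B (FractionRing B) b) ^ p ^ n := hf _
  have h1 : IsIntegral (MvPolynomial (Fin d) k) (f (algebraMap B (FractionRing B) b)) := by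
    rw [← isIntegral_algebraMap_iff hEL, hval]
    exact (hbR.algebraMap (B := FractionRing B)).pow _
  have h2 := hW2 _ h1 hb
  rw [← isIntegral_algebraMap_iff hEL, hval] at h2
  have h3 := h2.of_pow (pow_pos (Fact.out : p.Prime).pos n)
  exact (isIntegral_algebraMap_iff hBL).1 h3

end Pool.Agent.Lib.MP_c052b4_al.MT.L
end
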