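import Mathlib
import Pool.Agent.Lib.MP_c052b4_al.TR.TreeAct

section

set_option autoImplicit false

namespace Pool.Agent.Lib.MP_c052b4_al.MT.L

universe u

/-- A matrix with integral trace and determinant is integral (Cayley-Hamilton). -/
theorem integral_of_trace_det {B : Type u} [CommRing B] (g : Matrix (Fin 2) (Fin 2) B)
    (ht : IsIntegral ℤ g.trace) (hd : IsIntegral ℤ g.det) : IsIntegral ℤ g := by
  rcases subsingleton_or_nontrivial B with hB | hB
  · have : g = 0 := Subsingleton.elim _ _
    rw [this]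
    exact isIntegral_zero
  have h : IsIntegral (integralClosure ℤ B) g := by
    refine ⟨Polynomial.X ^ 2 - Polynomial.C ⟨g.trace, ht⟩ * Polynomial.X
      + Polynomial.C ⟨g.det, hd⟩, ?_, ?_⟩
    · monicity!
    · have h1 := Matrix.aeval_self_charpoly g
      rw [Matrix.charpoly_fin_two] at h1
      simp only [map_add, map_sub, map_pow, Polynomial.aeval_X, map_mul, Polynomial.aeval_C] at h1
      rw [← Polynomial.aeval_def]
      simp only [map_add, map_sub, map_pow, Polynomial.aeval_X, map_mul, Polynomial.aeval_C]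
      exact h1
  exact isIntegral_trans g h

end Pool.Agent.Lib.MP_c052b4_al.MT.L
end

section

/-!
# Finite families of tree actions
-/

set_option autoImplicit false

namespace Pool.Agent.Lib.MP_c052b4_al.MT.L

universe v w

/-- There is a finite family of tree actions of `G` such that all elements which fix a vertex in
each of the trees lie in `S`. -/
def HasTrees (G : Type v) [Group G] (S : Set G) : Prop :=
  ∃ (ι : Type) (_ : Finite ι) (V : ι → Type w) (act : ∀ i, MulAction G (V i)),
    (∀ i, Nonempty (@TreeAction G _ (V i) (act i))) ∧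
      ∀ g : G, (∀ i, ∃ x : V i, (act i).smul g x = x) → g ∈ S

/-- One tree. -/
theorem HasTrees.one {G : Type v} [Group G] {V : Type w} [MulAction G V] (T : TreeAction G V)
    {S : Set G} (hS : ∀ g : G, ∀ x : V, g • x = x → g ∈ S) : HasTrees.{v, w} G S :=
  ⟨Unit, inferInstance, fun _ => V, fun _ => inferInstance, fun _ => ⟨T⟩,
    fun g h => (h ()).elim fun x hx => hS g x hx⟩

theorem HasTrees.mono {G : Type v} [Group G] {S S' : Set G} (h : HasTrees.{v, w} G S)
    (hS : S ⊆ S') : HasTrees.{v, w} G S' := by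
  obtain ⟨ι, h1, V, act, h2, h3⟩ := h
  exact ⟨ι, h1, V, act, h2, fun g hg => hS (h3 g hg)⟩

/-- Every element is allowed: no trees at all. -/
theorem HasTrees.univ {G : Type v} [Group G] : HasTrees.{v, w} G (Set.univ : Set G) :=
  ⟨Empty, inferInstance, fun _ => PUnit, fun i => i.elim, fun i => i.elim, fun _ _ => trivial⟩

/-- Finite intersections. -/
theorem HasTrees.iInter {G : Type v} [Group G] {J : Type*} [Finite J] {S : J → Set G}
    (h : ∀ j, HasTrees.{v, w} G (S j)) : HasTrees.{v, w} G (⋂ j, S j) := by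
  obtain ⟨n, ⟨e⟩⟩ := Finite.exists_equiv_fin J
  have h' : ∀ i : Fin n, HasTrees.{v, w} G (S (e.symm i)) := fun i => h _
  choose ι fin V act tr hS using h'
  have hfin : Finite (Σ i : Fin n, ι i) := by
    have := fun i => fin i
    infer_instance
  refine ⟨Σ i : Fin n, ι i, hfin, fun x => V x.1 x.2, fun x => act x.1 x.2,
    fun x => tr x.1 x.2, ?_⟩
  intro g hg
  rw [Set.mem_iInter]
  intro j
  have h1 : g ∈ S (e.symm (e j)) := hS (e j) g fun i => hg ⟨e j, i⟩
  rwa [Equiv.symm_apply_apply] at h1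

theorem HasTrees.inter {G : Type v} [Group G] {S S' : Set G}
    (h : HasTrees.{v, w} G S) (h' : HasTrees.{v, w} G S') : HasTrees.{v, w} G (S ∩ S') := by
  have := HasTrees.iInter (S := fun b : Bool => cond b S S') (G := G) fun b => by
    cases b
    · exact h'
    · exact h
  refine this.mono fun g hg => ?_
  rw [Set.mem_iInter] at hg
  exact ⟨hg true, hg false⟩

/-- Restriction along a homomorphism. -/
theorem HasTrees.comap {G H : Type v} [Group G] [Group H] (f : H →* G) {S : Set G}
    (h : HasTrees.{v, w} G S) : HasTrees.{v, w} H (f ⁻¹' S) := by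
  obtain ⟨ι, h1, V, act, h2, h3⟩ := h
  refine ⟨ι, h1, V, fun i => @MulAction.compHom G H (V i) _ (act i) _ f, ?_, ?_⟩
  · intro i
    obtain ⟨T⟩ := h2 i
    refine ⟨@TreeAction.mk H _ (V i) (@MulAction.compHom G H (V i) _ (act i) _ f) T.graph T.tree
      ?_ ?_⟩
    · intro g x y hxy
      exact T.adj_smul (f g) x y hxy
    · intro g x y hxy hg
      exact T.no_inversion (f g) x y hxy hg
  · intro g hg
    exact h3 (f g) hg

end Pool.Agent.Lib.MP_c052b4_al.MT.L
end

section

/-!
# Lattice classes: scaled integral matrices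
-/

set_option autoImplicit false

open scoped Matrix WithZero

namespace Pool.Agent.Lib.MP_c052b4_al.MT.L

universe u v

variable {E : Type u} [Field E]

/-- `k` is, up to a scalar `l`, integral with determinant of valuation `c`. -/
def ScInt (w : Valuation E ℤᵐ⁰) (c : ℤᵐ⁰) (k : GL (Fin 2) E) : Prop :=
  ∃ l : E, l ≠ 0 ∧ (∀ i j, w ((k : Matrix (Fin 2) (Fin 2) E) i j) ≤ w l) ∧
    w ((k : Matrix (Fin 2) (Fin 2) E).det) = w l ^ 2 * c

theorem scInt_mul_aux (w : Valuation E ℤᵐ⁰) {c c' : ℤᵐ⁰} {k k' : GL (Fin 2) E}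
    (h : ScInt w c k) (h' : ScInt w c' k') : ScInt w (c * c') (k * k') := by
  obtain ⟨l, hl, h1, h2⟩ := h
  obtain ⟨l', hl', h1', h2'⟩ := h'
  refine ⟨l * l', mul_ne_zero hl hl', fun i j => ?_, ?_⟩
  · rw [Matrix.GeneralLinearGroup.coe_mul, Matrix.mul_apply]
    refine Valuation.map_sum_le w fun t _ => ?_
    rw [map_mul, map_mul]
    exact mul_le_mul' (h1 i t) (h1' t j)
  · rw [Matrix.GeneralLinearGroup.coe_mul, Matrix.det_mul, map_mul, h2, h2', map_mul, mul_pow,
      mul_mul_mul_comm]

/-- The entries and the determinant of the inverse. -/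
theorem scInt_inv_aux (w : Valuation E ℤᵐ⁰) {c : ℤᵐ⁰} {k : GL (Fin 2) E} {q : E} (hq : w q = c)
    (hq0 : q ≠ 0) (h : ScInt w c k) : ScInt w c k⁻¹ := by
  obtain ⟨l, hl, h1, h2⟩ := h
  have hwl : w l ≠ 0 := (Valuation.ne_zero_iff w).2 hl
  have hwq : w q ≠ 0 := (Valuation.ne_zero_iff w).2 hq0
  subst hq
  have hdet : w (((k⁻¹ : GL (Fin 2) E) : Matrix (Fin 2) (Fin 2) E).det) = (w l ^ 2 * w q)⁻¹ := by
    rw [← h2, Matrix.coe_units_inv, Matrix.det_nonsing_inv, Ring.inverse_eq_inv', map_inv₀]
  refine ⟨(l * q)⁻¹, inv_ne_zero (mul_ne_zero hl hq0), fun i j => ?_, ?_⟩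
  · rw [Matrix.coe_units_inv, Matrix.inv_def, Ring.inverse_eq_inv', Matrix.smul_apply,
      smul_eq_mul, map_mul, map_inv₀, h2, map_inv₀, map_mul]
    have hadj : w ((k : Matrix (Fin 2) (Fin 2) E).adjugate i j) ≤ w l := by
      rw [Matrix.adjugate_fin_two]
      fin_cases i <;> fin_cases j
      · exact h1 1 1
      · change w (- (k : Matrix (Fin 2) (Fin 2) E) 0 1) ≤ w l
        rw [Valuation.map_neg]
        exact h1 0 1
      · change w (- (k : Matrix (Fin 2) (Fin 2) E) 1 0) ≤ w l
        rw [Valuation.map_neg]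
        exact h1 1 0
      · exact h1 0 0
    calc (w l ^ 2 * w q)⁻¹ * w ((k : Matrix (Fin 2) (Fin 2) E).adjugate i j)
        ≤ (w l ^ 2 * w q)⁻¹ * w l := mul_le_mul_right hadj _
      _ = (w l * w q)⁻¹ := by
        field_simp
  · rw [hdet, map_inv₀, map_mul]
    field_simp

end Pool.Agent.Lib.MP_c052b4_al.MT.L
end

section

/-!
# The graph of a parent map is a tree
-/

set_option autoImplicit false

namespace Pool.Agent.Lib.MP_c052b4_al.MT.L

/-- Let `par` be a self-map without cycles such that any two elements have a common ancestor. Then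
the graph joining each `x` to `par x` is a tree. -/
theorem isTree_of_parent {V : Type*} [Nonempty V] (par : V → V)
    (hcyc : ∀ (x : V) (n : ℕ), 0 < n → par^[n] x ≠ x)
    (hanc : ∀ x y : V, ∃ m n : ℕ, par^[m] x = par^[n] y)
    (Gr : SimpleGraph V) (hadj : ∀ x y : V, Gr.Adj x y ↔ (par x = y ∨ par y = x)) :
    Gr.IsTree := by
  have hreach : ∀ (n : ℕ) (x : V), Gr.Reachable x (par^[n] x) := by
    intro n
    induction n with
    | zero => intro x; exact SimpleGraph.Reachable.refl _
    | succ n ih =>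
      intro x
      have h1 : Gr.Adj x (par x) := (hadj x (par x)).2 (Or.inl rfl)
      exact h1.reachable.trans (ih (par x))
  refine ⟨⟨fun x y => ?_⟩, ?_⟩
  · obtain ⟨m, n, h⟩ := hanc x y
    exact (hreach m x).trans (h ▸ (hreach n y).symm)
  · have key : ∀ x : V, ¬ (Gr.deleteEdges {s(x, par x)}).Reachable x (par x) := by
      intro x hr
      have hinv : ∀ (y : V), (Gr.deleteEdges {s(x, par x)}).Reachable x y →
          ∃ n : ℕ, par^[n] y = x := by
        intro y hy
        rw [SimpleGraph.reachable_iff_reflTransGen] at hy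
        induction hy with
        | refl => exact ⟨0, rfl⟩
        | @tail y z _ hyz ih =>
          obtain ⟨n, hn⟩ := ih
          rw [SimpleGraph.deleteEdges_adj] at hyz
          obtain ⟨h1, h2⟩ := hyz
          rcases (hadj y z).1 h1 with h3 | h3
          · cases n with
            | zero =>
              exfalso
              apply h2
              simp only [Function.iterate_zero, id_eq] at hn
              subst hn
              rw [← h3]
              exact Set.mem_singleton _
            | succ n =>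
              refine ⟨n, ?_⟩
              rw [← h3]
              exact hn
          · refine ⟨n + 1, ?_⟩
            rw [Function.iterate_succ_apply, h3]
            exact hn
      obtain ⟨n, hn⟩ := hinv _ hr
      exact hcyc x (n + 1) (Nat.succ_pos n) hn
    rw [SimpleGraph.isAcyclic_iff_forall_adj_isBridge]
    intro x y hxy
    rw [SimpleGraph.isBridge_iff]
    rcases (hadj x y).1 hxy with h | h
    · subst h
      exact key x
    · subst h
      intro hr
      apply key y
      rw [Sym2.eq_swap]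
      exact hr.symm

/-- Translations of the line. -/
theorem isTree_int (Gr : SimpleGraph ℤ) (hadj : ∀ x y : ℤ, Gr.Adj x y ↔ (x + 1 = y ∨ y + 1 = x)) :
    Gr.IsTree := by
  have hit : ∀ (n : ℕ) (x : ℤ), (fun x : ℤ => x + 1)^[n] x = x + n := by
    intro n
    induction n with
    | zero => intro x; simp
    | succ n ih =>
      intro x
      rw [Function.iterate_succ_apply, ih]
      push_cast
      ring
  refine isTree_of_parent (fun x => x + 1) (fun x n hn => ?_) (fun x y => ?_) Gr hadj
  · rw [hit]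
    omega
  · refine ⟨(y - x).toNat, (x - y).toNat, ?_⟩
    rw [hit, hit]
    omega

end Pool.Agent.Lib.MP_c052b4_al.MT.L
end

section

/-!
# Lattice classes: the definitions
-/

set_option autoImplicit false

open scoped Matrix WithZero

namespace Pool.Agent.Lib.MP_c052b4_al.MT.L

universe u v

variable {E : Type u} [Field E]

/-- The stabilizer of the standard lattice class. -/
def Hsub (w : Valuation E ℤᵐ⁰) : Subgroup (GL (Fin 2) E) where
  carrier := {k | ScInt w 1 k}
  mul_mem' := fun {a b} ha hb => by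
    have := scInt_mul_aux w ha hb
    rwa [one_mul] at this
  one_mem' := by
    refine ⟨1, one_ne_zero, fun i j => ?_, ?_⟩
    · rw [Units.val_one, map_one]
      by_cases h : i = j
      · subst h
        rw [Matrix.one_apply_eq, map_one]
      · rw [Matrix.one_apply_ne h, map_zero]
        exact zero_le_one
    · rw [Units.val_one, Matrix.det_one, map_one]
      simp
  inv_mem' := fun {a} ha => scInt_inv_aux w (q := 1) (map_one w) one_ne_zero ha

/-- Lattice classes. -/
def TV (w : Valuation E ℤᵐ⁰) : Type u := GL (Fin 2) E ⧸ Hsub w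

/-- The class of a matrix. -/
def TV.mk (w : Valuation E ℤᵐ⁰) (g : GL (Fin 2) E) : TV w := QuotientGroup.mk g

theorem TV.mk_surjective (w : Valuation E ℤᵐ⁰) : Function.Surjective (TV.mk w) :=
  Quotient.mk_surjective

theorem TV.mk_eq (w : Valuation E ℤᵐ⁰) {g h : GL (Fin 2) E} :
    TV.mk w g = TV.mk w h ↔ ScInt w 1 (g⁻¹ * h) := QuotientGroup.eq

instance (w : Valuation E ℤᵐ⁰) : MulAction (GL (Fin 2) E) (TV w) :=
  inferInstanceAs (MulAction (GL (Fin 2) E) (GL (Fin 2) E ⧸ Hsub w))

theorem TV.smul_mk (w : Valuation E ℤᵐ⁰) (g h : GL (Fin 2) E) :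
    g • TV.mk w h = TV.mk w (g * h) := rfl

/-- Adjacency of lattice classes. -/
def TV.Rel (w : Valuation E ℤᵐ⁰) (x y : TV w) : Prop :=
  ∃ g h : GL (Fin 2) E, TV.mk w g = x ∧ TV.mk w h = y ∧ ScInt w (WithZero.exp (-1 : ℤ)) (g⁻¹ * h)

/-- The standard representatives. -/
def std (p : E) (hp : p ≠ 0) (r : ℤ) (a : E) : GL (Fin 2) E :=
  Matrix.GeneralLinearGroup.mkOfDetNeZero !![p ^ r, a; 0, 1] (by
    rw [Matrix.det_fin_two_of]
    simpa using zpow_ne_zero r hp)

end Pool.Agent.Lib.MP_c052b4_al.MT.L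
end

section

set_option autoImplicit false

open scoped Matrix WithZero

namespace Pool.Agent.Lib.MP_c052b4_al.MT.L

universe u v

variable {E : Type u} [Field E]

private theorem l04_zpow (w : Valuation E ℤᵐ⁰) {p : E} (hp : w p = WithZero.exp (-1 : ℤ)) (n : ℤ) :
    w (p ^ n) = WithZero.exp (-n) := by
  rw [map_zpow₀, hp, ← WithZero.exp_zsmul]
  congr 1
  simp

private theorem l04_exists (w : Valuation E ℤᵐ⁰) {l : E} (hl : l ≠ 0) :
    ∃ m : ℤ, w l = WithZero.exp m :=
  ⟨WithZero.log (w l), (WithZero.exp_log ((Valuation.ne_zero_iff w).mpr hl)).symm⟩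

private theorem l04_sq (m : ℤ) : (WithZero.exp m : ℤᵐ⁰) ^ 2 = WithZero.exp (2 * m) := by
  rw [← WithZero.exp_nsmul]
  congr 1

private theorem l04_le (x : ℤᵐ⁰) (r n : ℤ) :
    WithZero.exp r * x ≤ WithZero.exp n ↔ x ≤ WithZero.exp (n - r) := by
  by_cases hx : x = 0
  · subst hx
    rw [mul_zero]
    exact ⟨fun _ => zero_le, fun _ => zero_le⟩
  · rw [← WithZero.exp_log hx, ← WithZero.exp_add, WithZero.exp_le_exp, WithZero.exp_le_exp]
    omega

theorem std_inv_mul (p : E) (hp0 : p ≠ 0) (r s : ℤ) (a b : E) :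
    (((std p hp0 r a)⁻¹ * std p hp0 s b : GL (Fin 2) E) : Matrix (Fin 2) (Fin 2) E) =
      !![p ^ (s - r), p ^ (-r) * (b - a); 0, 1] := by
  have h : ((std p hp0 r a : GL (Fin 2) E) : Matrix (Fin 2) (Fin 2) E) *
      !![p ^ (s - r), p ^ (-r) * (b - a); 0, 1] =
      ((std p hp0 s b : GL (Fin 2) E) : Matrix (Fin 2) (Fin 2) E) := by
    have e1 : ∀ (r : ℤ) (a : E), ((std p hp0 r a : GL (Fin 2) E) : Matrix (Fin 2) (Fin 2) E) =
        !![p ^ r, a; 0, 1] := fun _ _ => rfl
    rw [e1, e1, Matrix.mul_fin_two]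
    have e2 : p ^ r * p ^ (s - r) = p ^ s := by
      rw [← zpow_add₀ hp0]
      congr 1
      ring
    have e3 : p ^ r * (p ^ (-r) * (b - a)) = b - a := by
      rw [← mul_assoc, ← zpow_add₀ hp0]
      simp
    rw [e2, e3]
    simp
  rw [Units.val_mul, ← h, ← mul_assoc, ← Units.val_mul, inv_mul_cancel, Units.val_one, one_mul]

theorem std_eq_iff (w : Valuation E ℤᵐ⁰) {p : E} (hp : w p = WithZero.exp (-1 : ℤ))
    (hp0 : p ≠ 0) (r s : ℤ) (a b : E) :
    TV.mk w (std p hp0 r a) = TV.mk w (std p hp0 s b) ↔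
      r = s ∧ w (b - a) ≤ WithZero.exp (-r : ℤ) := by
  rw [TV.mk_eq]
  unfold ScInt
  rw [std_inv_mul p hp0 r s a b]
  have hdet : w (Matrix.det !![p ^ (s - r), p ^ (-r) * (b - a); 0, 1]) = WithZero.exp (r - s) := by
    rw [Matrix.det_fin_two_of, mul_one, mul_zero, sub_zero, l04_zpow w hp]
    congr 1
    ring
  have h00 : w ((!![p ^ (s - r), p ^ (-r) * (b - a); 0, 1] : Matrix (Fin 2) (Fin 2) E) 0 0) =
      WithZero.exp (r - s) := by
    change w (p ^ (s - r)) = _
    rw [l04_zpow w hp]
    congr 1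
    ring
  have h01 : w ((!![p ^ (s - r), p ^ (-r) * (b - a); 0, 1] : Matrix (Fin 2) (Fin 2) E) 0 1) =
      WithZero.exp r * w (b - a) := by
    change w (p ^ (-r) * (b - a)) = _
    rw [map_mul, l04_zpow w hp]
    congr 2
    ring
  have h11 : w ((!![p ^ (s - r), p ^ (-r) * (b - a); 0, 1] : Matrix (Fin 2) (Fin 2) E) 1 1) =
      WithZero.exp 0 := by
    change w (1 : E) = _
    rw [map_one, WithZero.exp_zero]
  have h10 : w ((!![p ^ (s - r), p ^ (-r) * (b - a); 0, 1] : Matrix (Fin 2) (Fin 2) E) 1 0) =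
      0 := by
    change w (0 : E) = _
    rw [map_zero]
  constructor
  · rintro ⟨l, hl, h1, h2⟩
    obtain ⟨m, hm⟩ := l04_exists w hl
    rw [hdet, hm, l04_sq, mul_one, WithZero.exp_inj] at h2
    have e1 := h1 0 0
    have e2 := h1 0 1
    have e3 := h1 1 1
    rw [h00, hm, WithZero.exp_le_exp] at e1
    rw [h01, hm, l04_le] at e2
    rw [h11, hm, WithZero.exp_le_exp] at e3
    have hm0 : m = 0 := by omega
    subst hm0
    refine ⟨by omega, ?_⟩
    rwa [zero_sub] at e2
  · rintro ⟨rfl, h⟩
    refine ⟨1, one_ne_zero, fun i j => ?_, ?_⟩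
    · rw [map_one, ← WithZero.exp_zero]
      fin_cases i <;> fin_cases j
      · refine le_of_eq (h00.trans ?_)
        rw [sub_self]
      · refine le_trans (le_of_eq h01) ?_
        rw [l04_le, zero_sub]
        exact h
      · exact le_trans (le_of_eq h10) zero_le
      · exact le_of_eq h11
    · rw [hdet, map_one, sub_self, WithZero.exp_zero, one_pow, mul_one]

end Pool.Agent.Lib.MP_c052b4_al.MT.L
end
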