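import Pool.Agent.Lib.MP_c052b4_al.Mg.G043

section

set_option autoImplicit false

open scoped Matrix WithZero

namespace Pool.Agent.Lib.MP_c052b4_al.MT.L

universe u v

variable {E : Type u} [Field E]

private theorem l03_exists_zpow (w : Valuation E ℤᵐ⁰) {p : E}
    (hp : w p = WithZero.exp (-1 : ℤ)) (y : ℤᵐ⁰) (hy : y ≠ 0) : ∃ r : ℤ, w (p ^ r) = y := by
  refine ⟨-WithZero.log y, ?_⟩
  rw [map_zpow₀, hp, ← WithZero.exp_zsmul]
  conv_rhs => rw [← WithZero.exp_log hy]
  congr 1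
  simp

/-- Iwasawa decomposition. -/
theorem exists_std (w : Valuation E ℤᵐ⁰) {p : E} (hp : w p = WithZero.exp (-1 : ℤ))
    (hp0 : p ≠ 0) (x : TV w) : ∃ (r : ℤ) (a : E), TV.mk w (std p hp0 r a) = x := by
  obtain ⟨g, rfl⟩ := TV.mk_surjective w x
  have hdet : (g : Matrix (Fin 2) (Fin 2) E).det ≠ 0 := by
    have := g.det.ne_zero
    simpa using this
  set a := (g : Matrix (Fin 2) (Fin 2) E) 0 0 with ha
  set b := (g : Matrix (Fin 2) (Fin 2) E) 0 1 with hb
  set c := (g : Matrix (Fin 2) (Fin 2) E) 1 0 with hc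
  set d := (g : Matrix (Fin 2) (Fin 2) E) 1 1 with hd
  have hD : (g : Matrix (Fin 2) (Fin 2) E).det = a * d - b * c := by
    rw [Matrix.det_fin_two]
  have hinv : ∀ (r : ℤ) (e : E),
      (((std p hp0 r e)⁻¹ * g : GL (Fin 2) E) : Matrix (Fin 2) (Fin 2) E)
        = !![p ^ (-r) * (a - e * c), p ^ (-r) * (b - e * d); c, d] := by
    intro r e
    have hpr : p ^ r ≠ 0 := zpow_ne_zero r hp0
    have h1 : (g : Matrix (Fin 2) (Fin 2) E)
        = (std p hp0 r e : Matrix (Fin 2) (Fin 2) E) *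
          !![p ^ (-r) * (a - e * c), p ^ (-r) * (b - e * d); c, d] := by
      have h2 : (std p hp0 r e : Matrix (Fin 2) (Fin 2) E) = !![p ^ r, e; 0, 1] := rfl
      rw [h2]
      ext i j
      fin_cases i <;> fin_cases j <;>
        simp [Matrix.mul_apply, Fin.sum_univ_two, zpow_neg, ← ha, ← hb, ← hc, ← hd, hpr]
    rw [Matrix.GeneralLinearGroup.coe_mul, h1, ← Matrix.mul_assoc,
      ← Matrix.GeneralLinearGroup.coe_mul, inv_mul_cancel, Units.val_one, Matrix.one_mul]
  by_cases hcd : w c ≤ w d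
  · have hd0 : d ≠ 0 := by
      intro h0
      have hc0 : c = 0 := by
        rw [h0, map_zero] at hcd
        exact (Valuation.zero_iff w).1 (le_antisymm hcd zero_le')
      apply hdet
      rw [hD, h0, hc0]
      ring
    have hwd : w d ≠ 0 := (Valuation.ne_zero_iff w).2 hd0
    obtain ⟨r, hr⟩ := l03_exists_zpow w hp (w (g : Matrix (Fin 2) (Fin 2) E).det / w d ^ 2)
      (div_ne_zero ((Valuation.ne_zero_iff w).2 hdet) (pow_ne_zero 2 hwd))
    have hwD : w (g : Matrix (Fin 2) (Fin 2) E).det ≠ 0 := (Valuation.ne_zero_iff w).2 hdet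
    have hrn : w (p ^ (-r)) = w d ^ 2 / w (g : Matrix (Fin 2) (Fin 2) E).det := by
      rw [zpow_neg, map_inv₀, hr, inv_div]
    refine ⟨r, b / d, ?_⟩
    rw [TV.mk_eq]
    refine ⟨d, hd0, ?_, ?_⟩
    · rw [hinv]
      have e1 : p ^ (-r) * (a - b / d * c) = p ^ (-r) * (g : Matrix (Fin 2) (Fin 2) E).det / d := by
        rw [hD]
        field_simp
      have e2 : p ^ (-r) * (b - b / d * d) = 0 := by
        rw [div_mul_cancel₀ b hd0, sub_self, mul_zero]
      intro i j
      fin_cases i <;> fin_cases j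
      · change w (p ^ (-r) * (a - b / d * c)) ≤ w d
        rw [e1, map_div₀, map_mul, hrn, div_mul_cancel₀ _ hwD, pow_two,
          mul_div_assoc, div_self hwd, mul_one]
      · change w (p ^ (-r) * (b - b / d * d)) ≤ w d
        rw [e2, map_zero]
        exact zero_le'
      · exact hcd
      · exact le_refl _
    · rw [hinv, Matrix.det_fin_two_of]
      have e3 : p ^ (-r) * (a - b / d * c) * d - p ^ (-r) * (b - b / d * d) * c
          = p ^ (-r) * (g : Matrix (Fin 2) (Fin 2) E).det := by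
        rw [hD]
        field_simp
        ring
      rw [e3, map_mul, hrn, div_mul_cancel₀ _ hwD, mul_one]
  · have hdc : w d ≤ w c := le_of_lt (not_le.1 hcd)
    have hc0 : c ≠ 0 := by
      intro h0
      apply hcd
      rw [h0, map_zero]
      exact zero_le'
    have hwc : w c ≠ 0 := (Valuation.ne_zero_iff w).2 hc0
    obtain ⟨r, hr⟩ := l03_exists_zpow w hp (w (g : Matrix (Fin 2) (Fin 2) E).det / w c ^ 2)
      (div_ne_zero ((Valuation.ne_zero_iff w).2 hdet) (pow_ne_zero 2 hwc))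
    have hwD : w (g : Matrix (Fin 2) (Fin 2) E).det ≠ 0 := (Valuation.ne_zero_iff w).2 hdet
    have hrn : w (p ^ (-r)) = w c ^ 2 / w (g : Matrix (Fin 2) (Fin 2) E).det := by
      rw [zpow_neg, map_inv₀, hr, inv_div]
    refine ⟨r, a / c, ?_⟩
    rw [TV.mk_eq]
    refine ⟨c, hc0, ?_, ?_⟩
    · rw [hinv]
      have e1 : p ^ (-r) * (b - a / c * d) =
          - (p ^ (-r) * (g : Matrix (Fin 2) (Fin 2) E).det / c) := by
        rw [hD]
        field_simp
        ring
      have e2 : p ^ (-r) * (a - a / c * c) = 0 := by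
        rw [div_mul_cancel₀ a hc0, sub_self, mul_zero]
      intro i j
      fin_cases i <;> fin_cases j
      · change w (p ^ (-r) * (a - a / c * c)) ≤ w c
        rw [e2, map_zero]
        exact zero_le'
      · change w (p ^ (-r) * (b - a / c * d)) ≤ w c
        rw [e1, Valuation.map_neg, map_div₀, map_mul, hrn, div_mul_cancel₀ _ hwD, pow_two,
          mul_div_assoc, div_self hwc, mul_one]
      · exact le_refl _
      · exact hdc
    · rw [hinv, Matrix.det_fin_two_of]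
      have e3 : p ^ (-r) * (a - a / c * c) * d - p ^ (-r) * (b - a / c * d) * c
          = p ^ (-r) * (g : Matrix (Fin 2) (Fin 2) E).det := by
        rw [hD]
        field_simp
        ring
      rw [e3, map_mul, hrn, div_mul_cancel₀ _ hwD, mul_one]

end Pool.Agent.Lib.MP_c052b4_al.MT.L
end

section

set_option autoImplicit false

open scoped Matrix WithZero

namespace Pool.Agent.Lib.MP_c052b4_al.MT.L

universe u v

variable {E : Type u} [Field E]

theorem TV.rel_mk (w : Valuation E ℤᵐ⁰) (g h : GL (Fin 2) E) :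
    TV.Rel w (TV.mk w g) (TV.mk w h) ↔ ScInt w (WithZero.exp (-1 : ℤ)) (g⁻¹ * h) := by
  constructor
  · rintro ⟨g', h', hg, hh, hr⟩
    have h1 : ScInt w 1 (g⁻¹ * g') := (TV.mk_eq w).1 hg.symm
    have h2 : ScInt w 1 (h'⁻¹ * h) := (TV.mk_eq w).1 hh
    have h3 := scInt_mul_aux w (scInt_mul_aux w h1 hr) h2
    rw [one_mul, mul_one] at h3
    have h4 : g⁻¹ * g' * (g'⁻¹ * h') * (h'⁻¹ * h) = g⁻¹ * h := by group
    rwa [h4] at h3
  · intro hr
    exact ⟨g, h, rfl, rfl, hr⟩

theorem TV.rel_symm (w : Valuation E ℤᵐ⁰) {p : E} (hp : w p = WithZero.exp (-1 : ℤ))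
    {x y : TV w} (h : TV.Rel w x y) : TV.Rel w y x := by
  obtain ⟨g, h, hg, hh, hr⟩ := h
  have hp0 : p ≠ 0 := by
    intro h0
    rw [h0, map_zero] at hp
    exact WithZero.exp_ne_zero hp.symm
  refine ⟨h, g, hh, hg, ?_⟩
  have h1 := scInt_inv_aux w hp hp0 hr
  have h2 : (g⁻¹ * h)⁻¹ = h⁻¹ * g := by group
  rwa [h2] at h1

theorem TV.rel_irrefl (w : Valuation E ℤᵐ⁰) (x : TV w) : ¬ TV.Rel w x x := by
  obtain ⟨g, rfl⟩ := TV.mk_surjective w x
  intro h
  rw [TV.rel_mk, inv_mul_cancel] at h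
  obtain ⟨l, hl, -, h2⟩ := h
  have hwl : w l ≠ 0 := (Valuation.ne_zero_iff w).2 hl
  rw [Units.val_one, Matrix.det_one, map_one] at h2
  have h3 := congrArg WithZero.log h2
  rw [WithZero.log_one, WithZero.log_mul (pow_ne_zero 2 hwl) WithZero.exp_ne_zero,
    WithZero.log_pow, WithZero.log_exp] at h3
  rw [nsmul_eq_mul] at h3
  push_cast at h3
  omega

theorem TV.rel_smul (w : Valuation E ℤᵐ⁰) (g : GL (Fin 2) E) {x y : TV w} (h : TV.Rel w x y) :
    TV.Rel w (g • x) (g • y) := by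
  obtain ⟨a, b, ha, hb, hr⟩ := h
  refine ⟨g * a, g * b, ?_, ?_, ?_⟩
  · rw [← TV.smul_mk, ha]
  · rw [← TV.smul_mk, hb]
  · have h2 : (g * a)⁻¹ * (g * b) = a⁻¹ * b := by group
    rwa [h2]

end Pool.Agent.Lib.MP_c052b4_al.MT.L
end

section

set_option autoImplicit false

open scoped Matrix WithZero

namespace Pool.Agent.Lib.MP_c052b4_al.MT.L

universe u v

variable {E : Type u} [Field E]

private theorem l05_zpow (w : Valuation E ℤᵐ⁰) {p : E} (hp : w p = WithZero.exp (-1 : ℤ)) (n : ℤ) :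
    w (p ^ n) = WithZero.exp (-n) := by
  rw [map_zpow₀, hp, ← WithZero.exp_zsmul]
  congr 1
  simp

private theorem l05_exists (w : Valuation E ℤᵐ⁰) {l : E} (hl : l ≠ 0) :
    ∃ m : ℤ, w l = WithZero.exp m :=
  ⟨WithZero.log (w l), (WithZero.exp_log ((Valuation.ne_zero_iff w).mpr hl)).symm⟩

private theorem l05_sq (m : ℤ) : (WithZero.exp m : ℤᵐ⁰) ^ 2 = WithZero.exp (2 * m) := by
  rw [← WithZero.exp_nsmul]
  congr 1

private theorem l05_le (x : ℤᵐ⁰) (r n : ℤ) :
    WithZero.exp r * x ≤ WithZero.exp n ↔ x ≤ WithZero.exp (n - r) := by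
  by_cases hx : x = 0
  · subst hx
    rw [mul_zero]
    exact ⟨fun _ => zero_le, fun _ => zero_le⟩
  · rw [← WithZero.exp_log hx, ← WithZero.exp_add, WithZero.exp_le_exp, WithZero.exp_le_exp]
    omega

theorem std_rel_iff (w : Valuation E ℤᵐ⁰) {p : E} (hp : w p = WithZero.exp (-1 : ℤ))
    (hp0 : p ≠ 0) (r s : ℤ) (a b : E) :
    TV.Rel w (TV.mk w (std p hp0 r a)) (TV.mk w (std p hp0 s b)) ↔
      (s = r - 1 ∧ w (b - a) ≤ WithZero.exp (-s : ℤ)) ∨
      (r = s - 1 ∧ w (b - a) ≤ WithZero.exp (-r : ℤ)) := by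
  rw [TV.rel_mk]
  unfold ScInt
  rw [std_inv_mul p hp0 r s a b]
  have hdet : w (Matrix.det !![p ^ (s - r), p ^ (-r) * (b - a); 0, 1]) = WithZero.exp (r - s) := by
    rw [Matrix.det_fin_two_of, mul_one, mul_zero, sub_zero, l05_zpow w hp]
    congr 1
    ring
  have h00 : w ((!![p ^ (s - r), p ^ (-r) * (b - a); 0, 1] : Matrix (Fin 2) (Fin 2) E) 0 0) =
      WithZero.exp (r - s) := by
    change w (p ^ (s - r)) = _
    rw [l05_zpow w hp]
    congr 1
    ring
  have h01 : w ((!![p ^ (s - r), p ^ (-r) * (b - a); 0, 1] : Matrix (Fin 2) (Fin 2) E) 0 1) =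
      WithZero.exp r * w (b - a) := by
    change w (p ^ (-r) * (b - a)) = _
    rw [map_mul, l05_zpow w hp]
    congr 2
    ring
  have h11 : w ((!![p ^ (s - r), p ^ (-r) * (b - a); 0, 1] : Matrix (Fin 2) (Fin 2) E) 1 1) =
      WithZero.exp 0 := by
    change w (1 : E) = _
    rw [map_one, WithZero.exp_zero]
  have h10 : w ((!![p ^ (s - r), p ^ (-r) * (b - a); 0, 1] : Matrix (Fin 2) (Fin 2) E) 1 0) =
      0 := by
    change w (0 : E) = _
    rw [map_zero]
  have key : ∀ (l : E) (m : ℤ), w l = WithZero.exp m → r - s ≤ m → 0 ≤ m →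
      w (b - a) ≤ WithZero.exp (m - r) →
      ∀ i j, w ((!![p ^ (s - r), p ^ (-r) * (b - a); 0, 1] : Matrix (Fin 2) (Fin 2) E) i j) ≤
        w l := by
    intro l m hm h1 h2 h3 i j
    rw [hm]
    fin_cases i <;> fin_cases j
    · refine le_trans (le_of_eq h00) ?_
      rw [WithZero.exp_le_exp]
      exact h1
    · refine le_trans (le_of_eq h01) ?_
      rw [l05_le]
      exact h3
    · exact le_trans (le_of_eq h10) zero_le
    · refine le_trans (le_of_eq h11) ?_
      rw [WithZero.exp_le_exp]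
      exact h2
  constructor
  · rintro ⟨l, hl, h1, h2⟩
    obtain ⟨m, hm⟩ := l05_exists w hl
    rw [hdet, hm, l05_sq, ← WithZero.exp_add, WithZero.exp_inj] at h2
    have e1 := h1 0 0
    have e2 := h1 0 1
    have e3 := h1 1 1
    rw [h00, hm, WithZero.exp_le_exp] at e1
    rw [h01, hm, l05_le] at e2
    rw [h11, hm, WithZero.exp_le_exp] at e3
    have hm01 : m = 0 ∨ m = 1 := by omega
    rcases hm01 with rfl | rfl
    · right
      refine ⟨by omega, ?_⟩
      rwa [zero_sub] at e2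
    · left
      refine ⟨by omega, ?_⟩
      have : (1 : ℤ) - r = -s := by omega
      rwa [this] at e2
  · rintro (⟨hs, h⟩ | ⟨hr, h⟩)
    · have hl : w (p ^ (-1 : ℤ)) = WithZero.exp 1 := by
        rw [l05_zpow w hp]
        congr 1
      refine ⟨p ^ (-1 : ℤ), zpow_ne_zero _ hp0, key _ 1 hl (by omega) (by omega) ?_, ?_⟩
      · have : (1 : ℤ) - r = -s := by omega
        rwa [this]
      · rw [hdet, hl, l05_sq, ← WithZero.exp_add, WithZero.exp_inj]
        omega
    · have hl : w (1 : E) = WithZero.exp 0 := by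
        rw [map_one, WithZero.exp_zero]
      refine ⟨1, one_ne_zero, key _ 0 hl (by omega) (by omega) ?_, ?_⟩
      · rwa [zero_sub]
      · rw [hdet, hl, l05_sq, ← WithZero.exp_add, WithZero.exp_inj]
        omega

end Pool.Agent.Lib.MP_c052b4_al.MT.L
end

section

set_option autoImplicit false

open scoped Matrix WithZero

namespace Pool.Agent.Lib.MP_c052b4_al.MT.L

universe u v

variable {E : Type u} [Field E]

/-- The graph of lattice classes is a tree. (Use `isTree_of_parent` with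
`par (r, a) = (r - 1, a)` in standard coordinates.) -/
theorem TV.isTree (w : Valuation E ℤᵐ⁰) {p : E} (hp : w p = WithZero.exp (-1 : ℤ))
    (Gr : SimpleGraph (TV w)) (hGr : ∀ x y, Gr.Adj x y ↔ TV.Rel w x y) : Gr.IsTree := by
  classical
  have hp0 : p ≠ 0 := by
    intro h
    rw [h, map_zero] at hp
    exact WithZero.exp_ne_zero hp.symm
  choose R A hRA using exists_std w hp hp0
  obtain ⟨par, hpar⟩ : ∃ par : TV w → TV w, par = fun x =>
    TV.mk w (std p hp0 (R x - 1) (A x)) := ⟨_, rfl⟩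
  have hpar1 : ∀ (r : ℤ) (a : E), par (TV.mk w (std p hp0 r a)) = TV.mk w (std p hp0 (r - 1) a) := by
    intro r a
    have h1 := (std_eq_iff w hp hp0 _ _ _ _).1 (hRA (TV.mk w (std p hp0 r a)))
    rw [hpar]
    refine (std_eq_iff w hp hp0 _ _ _ _).2 ⟨by rw [h1.1], h1.2.trans ?_⟩
    rw [WithZero.exp_le_exp]
    omega
  have hparn : ∀ (n : ℕ) (r : ℤ) (a : E), par^[n] (TV.mk w (std p hp0 r a)) =
      TV.mk w (std p hp0 (r - n) a) := by
    intro n
    induction n with
    | zero =>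
      intro r a
      simp
    | succ n ih =>
      intro r a
      rw [Function.iterate_succ_apply, hpar1, ih]
      congr 2
      push_cast
      ring
  haveI : Nonempty (TV w) := ⟨TV.mk w 1⟩
  refine isTree_of_parent par (fun x n hn h => ?_) (fun x y => ?_) Gr (fun x y => ?_)
  · obtain ⟨r, a, rfl⟩ := exists_std w hp hp0 x
    rw [hparn] at h
    have h1 := (std_eq_iff w hp hp0 _ _ _ _).1 h
    omega
  · obtain ⟨r, a, rfl⟩ := exists_std w hp hp0 x
    obtain ⟨s, b, rfl⟩ := exists_std w hp hp0 y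
    obtain ⟨e, he⟩ : ∃ e : ℤ, w (b - a) ≤ WithZero.exp e := by
      by_cases h0 : w (b - a) = 0
      · exact ⟨0, by rw [h0]; exact zero_le⟩
      · exact ⟨WithZero.log (w (b - a)), le_of_eq (WithZero.exp_log h0).symm⟩
    obtain ⟨t, ht⟩ : ∃ t : ℤ, t = min (min r s) (-e) := ⟨_, rfl⟩
    refine ⟨(r - t).toNat, (s - t).toNat, ?_⟩
    rw [hparn, hparn]
    have h1 : r - ((r - t).toNat : ℤ) = t := by omega
    have h2 : s - ((s - t).toNat : ℤ) = t := by omega
    rw [h1, h2]
    refine (std_eq_iff w hp hp0 _ _ _ _).2 ⟨rfl, he.trans ?_⟩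
    rw [WithZero.exp_le_exp]
    omega
  · obtain ⟨r, a, rfl⟩ := exists_std w hp hp0 x
    obtain ⟨s, b, rfl⟩ := exists_std w hp hp0 y
    rw [hGr, std_rel_iff w hp hp0, hpar1, hpar1, std_eq_iff w hp hp0, std_eq_iff w hp hp0,
      Valuation.map_sub_swap w a b]
    constructor
    · rintro (⟨h1, h2⟩ | ⟨h1, h2⟩)
      · left
        exact ⟨h1.symm, by rwa [← h1]⟩
      · right
        exact ⟨h1.symm, by rwa [← h1]⟩
    · rintro (⟨h1, h2⟩ | ⟨h1, h2⟩)
      · left
        exact ⟨h1.symm, by rwa [← h1]⟩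
      · right
        exact ⟨h1.symm, by rwa [← h1]⟩

end Pool.Agent.Lib.MP_c052b4_al.MT.L
end

section

set_option autoImplicit false

open scoped Matrix WithZero

namespace Pool.Agent.Lib.MP_c052b4_al.MT.L

universe u v

variable {E : Type u} [Field E]

theorem l07_mul (w : Valuation E ℤᵐ⁰) (g h : GL (Fin 2) E) :
    w (((g * h : GL (Fin 2) E) : Matrix (Fin 2) (Fin 2) E).det) =
      w ((g : Matrix (Fin 2) (Fin 2) E).det) * w ((h : Matrix (Fin 2) (Fin 2) E).det) := by
  rw [Units.val_mul, Matrix.det_mul, map_mul]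

theorem l07_ne (w : Valuation E ℤᵐ⁰) (g : GL (Fin 2) E) :
    w ((g : Matrix (Fin 2) (Fin 2) E).det) ≠ 0 := by
  intro h
  have h1 := l07_mul w g g⁻¹
  rw [mul_inv_cancel, h, zero_mul, Units.val_one, Matrix.det_one, map_one] at h1
  exact one_ne_zero h1

/-- The parity of the determinant distinguishes the ends of an edge. -/
theorem TV.no_inv (w : Valuation E ℤᵐ⁰) (g : GL (Fin 2) E)
    (hg : ∃ n : ℤ, w ((g : Matrix (Fin 2) (Fin 2) E).det) = WithZero.exp (2 * n))
    (x y : TV w) (h : TV.Rel w x y) : g • x ≠ y := by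
  intro hgx
  obtain ⟨a, rfl⟩ := TV.mk_surjective w x
  obtain ⟨b, rfl⟩ := TV.mk_surjective w y
  rw [TV.rel_mk] at h
  rw [TV.smul_mk, TV.mk_eq] at hgx
  obtain ⟨n, hn⟩ := hg
  obtain ⟨l, hl, -, h1⟩ := h
  obtain ⟨l', hl', -, h2⟩ := hgx
  have e1 := l07_mul w a (a⁻¹ * b)
  have e2 := l07_mul w (g * a) ((g * a)⁻¹ * b)
  rw [mul_inv_cancel_left] at e1 e2
  rw [l07_mul w g a, e1, h1, h2, hn, mul_one, mul_comm (WithZero.exp (2 * n)), mul_assoc] at e2
  have e3 := mul_left_cancel₀ (l07_ne w a) e2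
  have hwl : w l ≠ 0 := (Valuation.ne_zero_iff w).2 hl
  have hwl' : w l' ≠ 0 := (Valuation.ne_zero_iff w).2 hl'
  rw [← WithZero.exp_log hwl, ← WithZero.exp_log hwl', ← WithZero.exp_nsmul, ← WithZero.exp_nsmul,
    ← WithZero.exp_add, ← WithZero.exp_add, WithZero.exp_inj] at e3
  simp only [nsmul_eq_mul] at e3
  push_cast at e3
  omega

/-- The trace and the determinant of an element which fixes a lattice class. -/
theorem TV.stab (w : Valuation E ℤᵐ⁰) (g : GL (Fin 2) E) (x : TV w) (h : g • x = x) :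
    ∃ l : E, l ≠ 0 ∧ w ((g : Matrix (Fin 2) (Fin 2) E).trace) ≤ w l ∧
      w ((g : Matrix (Fin 2) (Fin 2) E).det) = w l ^ 2 := by
  obtain ⟨a, rfl⟩ := TV.mk_surjective w x
  have h' := h.symm
  rw [TV.smul_mk, TV.mk_eq] at h'
  obtain ⟨l, hl, h1, h2⟩ := h'
  have ht : ((a⁻¹ * (g * a) : GL (Fin 2) E) : Matrix (Fin 2) (Fin 2) E).trace =
      (g : Matrix (Fin 2) (Fin 2) E).trace := by
    rw [Units.val_mul, Matrix.trace_mul_comm, ← Units.val_mul, mul_inv_cancel_right]
  have hd : w (((a⁻¹ * (g * a) : GL (Fin 2) E) : Matrix (Fin 2) (Fin 2) E).det) =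
      w ((g : Matrix (Fin 2) (Fin 2) E).det) := by
    have e1 := l07_mul w a (a⁻¹ * (g * a))
    rw [mul_inv_cancel_left, l07_mul, mul_comm] at e1
    exact (mul_left_cancel₀ (l07_ne w a) e1).symm
  refine ⟨l, hl, ?_, ?_⟩
  · rw [← ht, Matrix.trace_fin_two]
    exact Valuation.map_add_le w (h1 0 0) (h1 1 1)
  · rw [← hd, h2, mul_one]

end Pool.Agent.Lib.MP_c052b4_al.MT.L
end
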