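import Mathlib
import Pool.Agent.Lib.MP_c052b4_al.Mg.G042

section

set_option autoImplicit false

namespace Pool.Agent.Lib.MP_c052b4_al.MT.L

universe u

/-- A finitely generated domain of positive characteristic is an algebra of finite type over a
prime field (in the universe of the domain; take `k = ULift (ZMod p)`). -/
theorem exists_prime_field (B : Type u) [CommRing B] [IsDomain B] [Algebra.FiniteType ℤ B] (N : ℕ)
    (hN : 0 < N) (hB : (N : B) = 0) :
    ∃ (p : ℕ) (_ : Fact p.Prime) (k : Type u) (_ : Field k) (_ : CharP k p) (_ : Finite k)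
      (_ : Algebra k B), Algebra.FiniteType k B := by
  obtain ⟨p, hp⟩ := CharP.exists B
  have hdvd : p ∣ N := (CharP.cast_eq_zero_iff B p N).mp hB
  have hp0 : p ≠ 0 := by
    rintro rfl
    exact hN.ne' (Nat.eq_zero_of_zero_dvd hdvd)
  have hprime : p.Prime := (CharP.char_is_prime_or_zero B p).resolve_right hp0
  haveI hfact : Fact p.Prime := ⟨hprime⟩
  letI hf : Field (ULift.{u} (ZMod p)) := ULift.field
  letI alg : Algebra (ULift.{u} (ZMod p)) B :=
    ((ZMod.castHom (dvd_refl p) B).comp (ULift.ringEquiv (R := ZMod p)).toRingHom).toAlgebra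
  have hc : CharP (ULift.{u} (ZMod p)) p := by
    refine charP_of_injective_ringHom (f := (ULift.ringEquiv (R := ZMod p)).symm.toRingHom) ?_ p
    exact (ULift.ringEquiv (R := ZMod p)).symm.injective
  refine ⟨p, hfact, ULift.{u} (ZMod p), hf, hc, inferInstance, alg, ?_⟩
  haveI : IsScalarTower ℤ (ULift.{u} (ZMod p)) B := IsScalarTower.of_algebraMap_eq fun n => by
    rw [eq_intCast, eq_intCast, map_intCast]
  exact Algebra.FiniteType.of_restrictScalars_finiteType ℤ (ULift.{u} (ZMod p)) B

end Pool.Agent.Lib.MP_c052b4_al.MT.L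
end

section

/-!
# Coherent trees, P01: discrete valuations of rational function fields
-/

set_option autoImplicit false
set_option linter.unusedVariables false
set_option linter.unusedSectionVars false

namespace Pool.Agent.Lib.MP_c052b4_al.CT

open Pool.Agent.Lib.MP_c052b4_al.MT.L
open scoped WithZero

universe u

/-- A logarithmic function gives a valuation. -/
private theorem p01_val {R : Type*} [CommRing R] [IsDomain R] (D : R → ℤ) (h1 : D 1 = 0)
    (hm : ∀ f g : R, f ≠ 0 → g ≠ 0 → D (f * g) = D f + D g)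
    (ha : ∀ f g : R, f ≠ 0 → g ≠ 0 → f + g ≠ 0 → D (f + g) ≤ max (D f) (D g)) :
    ∃ w : Valuation R ℤᵐ⁰, ∀ f : R, f ≠ 0 → w f = WithZero.exp (D f) := by
  classical
  refine ⟨⟨⟨⟨fun f => if f = 0 then 0 else WithZero.exp (D f), if_pos rfl⟩, ?_, ?_⟩, ?_⟩,
    fun f hf => if_neg hf⟩
  · change (if (1 : R) = 0 then (0 : ℤᵐ⁰) else WithZero.exp (D 1)) = 1
    rw [if_neg one_ne_zero, h1, WithZero.exp_zero]
  · intro f g
    change (if f * g = 0 then (0 : ℤᵐ⁰) else WithZero.exp (D (f * g))) =
      (if f = 0 then (0 : ℤᵐ⁰) else WithZero.exp (D f)) *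
        (if g = 0 then (0 : ℤᵐ⁰) else WithZero.exp (D g))
    by_cases hf : f = 0
    · rw [hf, zero_mul, if_pos rfl, zero_mul]
    by_cases hg : g = 0
    · rw [hg, mul_zero, if_pos rfl, mul_zero]
    rw [if_neg hf, if_neg hg, if_neg (mul_ne_zero hf hg), hm f g hf hg, WithZero.exp_add]
  · intro f g
    change (if f + g = 0 then (0 : ℤᵐ⁰) else WithZero.exp (D (f + g))) ≤
      max (if f = 0 then (0 : ℤᵐ⁰) else WithZero.exp (D f))
        (if g = 0 then (0 : ℤᵐ⁰) else WithZero.exp (D g))
    by_cases hf : f = 0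
    · rw [hf, zero_add]
      exact le_max_right _ _
    by_cases hg : g = 0
    · rw [hg, add_zero]
      exact le_max_left _ _
    by_cases hfg : f + g = 0
    · rw [if_pos hfg]
      exact zero_le
    rw [if_neg hf, if_neg hg, if_neg hfg, le_max_iff, WithZero.exp_le_exp, WithZero.exp_le_exp]
    exact le_max_iff.1 (ha f g hf hg hfg)

/-- Extension of a valuation without kernel to the fraction field. -/
private theorem p01_ext {R : Type*} [CommRing R] [IsDomain R] {F : Type u} [Field F] [Algebra R F]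
    [IsFractionRing R F] (D : R → ℤ) (w : Valuation R ℤᵐ⁰)
    (hw : ∀ f : R, f ≠ 0 → w f = WithZero.exp (D f)) :
    ∃ v : Valuation F ℤᵐ⁰, ∀ f : R, v (algebraMap R F f) = w f := by
  have hS : nonZeroDivisors R ≤ w.supp.primeCompl := by
    intro f hf hf'
    have h0 : f ≠ 0 := nonZeroDivisors.ne_zero hf
    have h1 : w f = 0 := (Valuation.mem_supp_iff _ _).1 hf'
    rw [hw f h0] at h1
    exact WithZero.exp_ne_zero h1
  exact ⟨w.extendToLocalization hS F,
    fun f => Valuation.extendToLocalization_apply_map_apply _ hS F f⟩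

/-- **The valuation at infinity over the integers.** -/
theorem exists_infVal0 (d : ℕ) (hd : 0 < d) (F : Type u) [Field F]
    [Algebra (MvPolynomial (Fin d) ℤ) F] [IsFractionRing (MvPolynomial (Fin d) ℤ) F] :
    ∃ O : ValuationSubring F, IsDiscreteValuationRing O ∧
      ∀ f : MvPolynomial (Fin d) ℤ, algebraMap (MvPolynomial (Fin d) ℤ) F f ∈ O →
        ∃ c : ℤ, MvPolynomial.C c = f := by
  obtain ⟨w0, h0⟩ := p01_val (R := MvPolynomial (Fin d) ℤ) (fun f => (f.totalDegree : ℤ))
    (by simp) (fun f g hf hg => by simp [MvPolynomial.totalDegree_mul_of_isDomain hf hg])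
    (fun f g _ _ _ => by exact_mod_cast MvPolynomial.totalDegree_add f g)
  obtain ⟨w, hw⟩ := p01_ext (F := F) _ w0 h0
  have hX : (MvPolynomial.X ⟨0, hd⟩ : MvPolynomial (Fin d) ℤ) ≠ 0 := MvPolynomial.X_ne_zero _
  refine ⟨w.valuationSubring, dvr_of_val w
    ⟨algebraMap (MvPolynomial (Fin d) ℤ) F (MvPolynomial.X ⟨0, hd⟩), ?_, ?_⟩, fun f hf => ?_⟩
  · intro h
    have h1 := hw (MvPolynomial.X ⟨0, hd⟩)
    rw [h, map_zero, h0 _ hX] at h1
    exact WithZero.exp_ne_zero h1.symm
  · rw [hw, h0 _ hX, MvPolynomial.totalDegree_X]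
    intro h
    rw [← WithZero.exp_zero, WithZero.exp_inj] at h
    norm_num at h
  · rw [Valuation.mem_valuationSubring_iff, hw] at hf
    by_cases h : f = 0
    · exact ⟨0, by rw [h, map_zero]⟩
    · rw [h0 _ h, ← WithZero.exp_zero, WithZero.exp_le_exp] at hf
      have h1 : f.totalDegree = 0 := by
        have : (f.totalDegree : ℤ) ≤ 0 := hf
        omega
      exact ⟨f.coeff 0, (MvPolynomial.totalDegree_eq_zero_iff_eq_C.1 h1).symm⟩

/-- **The Gauss valuation of a prime `p`.** -/
theorem exists_gaussVal (d : ℕ) (p : ℕ) (hp : p.Prime) (F : Type u) [Field F]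
    [Algebra (MvPolynomial (Fin d) ℤ) F] [IsFractionRing (MvPolynomial (Fin d) ℤ) F] :
    ∃ O : ValuationSubring F, IsDiscreteValuationRing O ∧
      ∀ a b : ℤ, b ≠ 0 → (a : F) / (b : F) ∈ O → ∀ n : ℕ, (p : ℤ) ^ n ∣ b → (p : ℤ) ^ n ∣ a := by
  have hpp : Prime (MvPolynomial.C (p : ℤ) : MvPolynomial (Fin d) ℤ) :=
    (MvPolynomial.prime_C_iff _).2 (Nat.prime_iff_prime_int.1 hp)
  set P : MvPolynomial (Fin d) ℤ := MvPolynomial.C (p : ℤ) with hP
  have hfin : ∀ f : MvPolynomial (Fin d) ℤ, f ≠ 0 → FiniteMultiplicity P f := fun f hf =>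
    FiniteMultiplicity.of_not_isUnit hpp.not_isUnit hf
  obtain ⟨w0, h0⟩ := p01_val (R := MvPolynomial (Fin d) ℤ) (fun f => -(multiplicity P f : ℤ))
    (by simp [multiplicity_eq_zero, hpp.not_isUnit, isUnit_iff_dvd_one.symm])
    (fun f g hf hg => by
      rw [multiplicity_mul hpp (hfin _ (mul_ne_zero hf hg))]
      push_cast
      ring)
    (fun f g hf hg hfg => by
      have hm : P ^ min (multiplicity P f) (multiplicity P g) ∣ f + g :=
        dvd_add ((pow_dvd_pow _ (min_le_left _ _)).trans (pow_multiplicity_dvd _ _))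
          ((pow_dvd_pow _ (min_le_right _ _)).trans (pow_multiplicity_dvd _ _))
      have h := (hfin _ hfg).le_multiplicity_of_pow_dvd hm
      omega)
  obtain ⟨w, hw⟩ := p01_ext (F := F) _ w0 h0
  have hC : ∀ a : ℤ, algebraMap (MvPolynomial (Fin d) ℤ) F (MvPolynomial.C a) = (a : F) :=
    fun a => by simp
  refine ⟨w.valuationSubring, dvr_of_val w ⟨algebraMap (MvPolynomial (Fin d) ℤ) F P, ?_, ?_⟩,
    fun a b hb hab n hn => ?_⟩
  · intro h
    have h1 := hw P
    rw [h, map_zero, h0 _ hpp.ne_zero] at h1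
    exact WithZero.exp_ne_zero h1.symm
  · rw [hw, h0 _ hpp.ne_zero, multiplicity_self]
    intro h
    rw [← WithZero.exp_zero, WithZero.exp_inj] at h
    norm_num at h
  · by_cases ha : a = 0
    · rw [ha]
      exact dvd_zero _
    have hCa : (MvPolynomial.C a : MvPolynomial (Fin d) ℤ) ≠ 0 := by simpa using ha
    have hCb : (MvPolynomial.C b : MvPolynomial (Fin d) ℤ) ≠ 0 := by simpa using hb
    rw [Valuation.mem_valuationSubring_iff, map_div₀, ← hC a, ← hC b, hw, hw, h0 _ hCa, h0 _ hCb,
      ← WithZero.exp_sub, ← WithZero.exp_zero, WithZero.exp_le_exp] at hab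
    have h1 : n ≤ multiplicity P (MvPolynomial.C b) :=
      (hfin _ hCb).le_multiplicity_of_pow_dvd (by
        rw [hP, ← map_pow]
        exact map_dvd MvPolynomial.C hn)
    have h2 : n ≤ multiplicity P (MvPolynomial.C a) := by
      have h3 : -(multiplicity P (MvPolynomial.C a) : ℤ) - -(multiplicity P (MvPolynomial.C b) : ℤ)
        ≤ 0 := hab
      omega
    have h3 := pow_dvd_of_le_multiplicity h2
    rw [hP, ← map_pow, MvPolynomial.C_dvd_iff_dvd_coeff] at h3
    have h4 := h3 0
    rwa [MvPolynomial.coeff_C, if_pos rfl] at h4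

end Pool.Agent.Lib.MP_c052b4_al.CT
end

section

/-!
# Coherent trees, P02: integrality and places
-/

set_option autoImplicit false
set_option linter.unusedVariables false
set_option linter.unusedSectionVars false

namespace Pool.Agent.Lib.MP_c052b4_al.CT

open Pool.Agent.Lib.MP_c052b4_al.MT.L
open scoped WithZero

universe u

variable {F E : Type u} {d : ℕ} [Field F] [Field E] [Algebra (MvPolynomial (Fin d) ℤ) F]
  [IsFractionRing (MvPolynomial (Fin d) ℤ) F] [Algebra F E]
  [Algebra (MvPolynomial (Fin d) ℤ) E] [IsScalarTower (MvPolynomial (Fin d) ℤ) F E]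

/-- The coefficients of the minimal polynomial.
Proof: let `n` be the degree of `minpoly F x`. `minpoly F (N ^ k * x)` has the coefficients
`N ^ (k * (n - i)) * coeff (minpoly F x) i` (`minpoly` of a multiple by a nonzero constant: scale the
roots, `Polynomial.scaleRoots`, or check that the scaled polynomial is monic, irreducible and kills
`N ^ k * x`), and by `minpoly.isIntegrallyClosed_eq_field_fractions'` its coefficients come from
`MvPolynomial (Fin d) ℤ` (integrally closed, as it is a unique factorization domain). `F` has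
characteristic zero, since `MvPolynomial (Fin d) ℤ` embeds into it. -/
theorem coeff_minpoly (x : E) (N k : ℕ) (hN : 0 < N)
    (hx : IsIntegral (MvPolynomial (Fin d) ℤ) ((N : E) ^ k * x)) (hxF : IsIntegral F x) (i : ℕ) :
    ∃ (j : ℕ) (f : MvPolynomial (Fin d) ℤ), (N : F) ^ j * (minpoly F x).coeff i =
      algebraMap (MvPolynomial (Fin d) ℤ) F f := by
  have hinj : Function.Injective (algebraMap (MvPolynomial (Fin d) ℤ) F) :=
    IsFractionRing.injective _ _
  have hcz : CharZero F := charZero_of_injective_algebraMap hinj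
  have hN0 : (N : F) ^ k ≠ 0 := pow_ne_zero _ (by exact_mod_cast hN.ne')
  have e1 : (N : E) ^ k * x = ((N : F) ^ k) • x := by
    rw [Algebra.smul_def, map_pow, map_natCast]
  have e2 := IsIntegrallyClosed.minpoly_smul hN0 hxF
  rw [← e1, minpoly.isIntegrallyClosed_eq_field_fractions' F hx] at e2
  have e3 := congrArg (fun P => Polynomial.coeff P i) e2
  simp only [Polynomial.coeff_map, Polynomial.coeff_scaleRoots] at e3
  refine ⟨k * ((minpoly F x).natDegree - i),
    (minpoly (MvPolynomial (Fin d) ℤ) ((N : E) ^ k * x)).coeff i, ?_⟩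
  rw [e3, pow_mul, mul_comm]

/-- **Integrality over `ℤ`.**
Proof: let `c` be a coefficient of `minpoly F x`. For a valuation ring `O` of `F` with `IsIntegral O x`
the coefficients of `minpoly F x` are in `O` (`minpoly.isIntegrallyClosed_eq_field_fractions'` for
`O`). By `coeff_minpoly` `N ^ j * c` is a polynomial `f` over `ℤ`, and it is constant: for `d = 0`
because all polynomials are, for `d > 0` by `h∞` (`N ^ j * c ∈ O∞`). So `c = a / N ^ j`,
and for all primes `p ∣ N`, from `hp`: `p ^ n ∣ N ^ j` implies `p ^ n ∣ a`; so `N ^ j ∣ a` (compare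
the factorizations; a prime power dividing `N ^ j` divides `a`) and `c` is an integer. So
`minpoly F x` is the image of a monic polynomial over `ℤ`. -/
theorem integral_of_places (x : E) (N k : ℕ) (hN : 0 < N)
    (hx : IsIntegral (MvPolynomial (Fin d) ℤ) ((N : E) ^ k * x))
    (hinf : 0 < d → ∃ O : ValuationSubring F,
      (∀ f : MvPolynomial (Fin d) ℤ, algebraMap (MvPolynomial (Fin d) ℤ) F f ∈ O →
        ∃ c : ℤ, MvPolynomial.C c = f) ∧ IsIntegral O x)
    (hp : ∀ p : ℕ, p.Prime → p ∣ N → ∃ O : ValuationSubring F,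
      (∀ a b : ℤ, b ≠ 0 → (a : F) / (b : F) ∈ O → ∀ n : ℕ, (p : ℤ) ^ n ∣ b → (p : ℤ) ^ n ∣ a) ∧
        IsIntegral O x) : IsIntegral ℤ x := by
  have hinj : Function.Injective (algebraMap (MvPolynomial (Fin d) ℤ) F) :=
    IsFractionRing.injective _ _
  have hcz : CharZero F := charZero_of_injective_algebraMap hinj
  have hN0 : (N : F) ^ k ≠ 0 := pow_ne_zero _ (by exact_mod_cast hN.ne')
  have e1 : (N : E) ^ k * x = ((N : F) ^ k) • x := by
    rw [Algebra.smul_def, map_pow, map_natCast]
  have hxF : IsIntegral F x := by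
    have h1 : IsIntegral F ((N : E) ^ k * x) := hx.tower_top
    have h2 : IsIntegral F (((N : F) ^ k)⁻¹ • ((N : E) ^ k * x)) := h1.smul _
    rwa [e1, inv_smul_smul₀ hN0] at h2
  -- coefficients lie in the valuation rings
  have hco : ∀ (O : ValuationSubring F), IsIntegral O x → ∀ i, (minpoly F x).coeff i ∈ O := by
    intro O hO i
    rw [minpoly.isIntegrallyClosed_eq_field_fractions' F hO, Polynomial.coeff_map]
    exact ((minpoly O x).coeff i).2
  have hint : ∀ i, ∃ c : ℤ, (c : F) = (minpoly F x).coeff i := by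
    intro i
    obtain ⟨j, f, hf⟩ := coeff_minpoly x N k hN hx hxF i
    obtain ⟨a, ha⟩ : ∃ a : ℤ, MvPolynomial.C a = f := by
      rcases Nat.eq_zero_or_pos d with h0 | h0
      · subst h0
        exact ⟨_, (MvPolynomial.eq_C_of_isEmpty f).symm⟩
      · obtain ⟨O, hO1, hO2⟩ := hinf h0
        refine hO1 f ?_
        rw [← hf]
        refine O.mul_mem _ _ (O.toSubring.pow_mem ?_ j) (hco O hO2 i)
        exact natCast_mem O N
    have hNj : (N : F) ^ j ≠ 0 := pow_ne_zero _ (by exact_mod_cast hN.ne')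
    have ha' : (N : F) ^ j * (minpoly F x).coeff i = (a : F) := by
      rw [hf, ← ha, ← map_intCast (algebraMap (MvPolynomial (Fin d) ℤ) F) a]
      simp
    have hquot : (a : F) / (((N : ℤ) ^ j : ℤ) : F) = (minpoly F x).coeff i := by
      rw [← ha']
      push_cast
      field_simp
    have hdvd : (N : ℤ) ^ j ∣ a := by
      have hpp : ∀ (p n : ℕ), p.Prime → p ^ n ∣ N ^ j → p ^ n ∣ a.natAbs := by
        intro p n hp' hpn
        rcases Nat.eq_zero_or_pos n with h0 | h0
        · subst h0; simp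
        · have hpN : p ∣ N := by
            have : p ∣ N ^ j := (dvd_pow_self p h0.ne').trans hpn
            exact hp'.dvd_of_dvd_pow this
          obtain ⟨O, hO1, hO2⟩ := hp p hp' hpN
          have h3 := hO1 a ((N : ℤ) ^ j) (pow_ne_zero _ (by exact_mod_cast hN.ne'))
            (by rw [hquot]; exact hco O hO2 i) n (by exact_mod_cast hpn)
          rw [← Int.natCast_dvd]
          exact_mod_cast h3
      have h4 : N ^ j ∣ a.natAbs := by
        rw [Nat.dvd_iff_prime_pow_dvd_dvd]
        exact hpp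
      rw [← Int.natCast_dvd] at h4
      exact_mod_cast h4
    obtain ⟨c, hc⟩ := hdvd
    refine ⟨c, ?_⟩
    have h5 : (N : F) ^ j * (minpoly F x).coeff i = (N : F) ^ j * (c : F) := by
      rw [ha', hc]
      push_cast
      ring
    exact (mul_left_cancel₀ hNj h5).symm
  have hlift : minpoly F x ∈ Polynomial.lifts (Int.castRingHom F) := by
    rw [Polynomial.lifts_iff_coeff_lifts]
    intro i
    obtain ⟨c, hc⟩ := hint i
    exact ⟨c, by simpa using hc⟩
  obtain ⟨q, hq1, -, hq3⟩ := Polynomial.lifts_and_degree_eq_and_monic hlift (minpoly.monic hxF)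
  refine ⟨q, hq3, ?_⟩
  have h6 : Polynomial.aeval x (minpoly F x) = 0 := minpoly.aeval F x
  rw [← hq1, Polynomial.aeval_def, Polynomial.eval₂_map] at h6
  have h7 : algebraMap ℤ E = (algebraMap F E).comp (Int.castRingHom F) := RingHom.ext_int _ _
  rw [h7]
  exact h6

end Pool.Agent.Lib.MP_c052b4_al.CT
end
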