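import Pool.Agent.Lib.MP_c052b4_al.LaurentReg
import Pool.Agent.Lib.MP_c052b4_al.Mg.G043
import Pool.Agent.Lib.MP_c052b4_al.Mg.G044
import Pool.Agent.Lib.MP_c052b4_al.Mg.G036
import Pool.Agent.Lib.MP_c052b4_al.Mg.G041
import Pool.Agent.Lib.MP_c052b4_al.Mg.G045

section

/-!
# Polynomial rings over regular rings are regular
-/

set_option autoImplicit false

namespace Pool.Agent.Lib.MP_c052b4_al

open Matrix Polynomial

universe u v w

set_option linter.unusedSectionVars false

namespace PolyExt

variable {S : Type u} [Ring S]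

section Vec

variable {I : Type*}

/-- the `k`-th coefficient vector of a vector of polynomials -/
noncomputable def cf (w : I → S[X]) (k : ℕ) : I → S := fun i => (w i).coeff k

theorem cf_ext {w w' : I → S[X]} (h : ∀ k, cf w k = cf w' k) : w = w' := by
  funext i
  ext k
  exact congrFun (h k) i

@[simp] theorem cf_zero (k : ℕ) : cf (0 : I → S[X]) k = 0 := by
  funext i; simp [cf]

theorem cf_add (w w' : I → S[X]) (k : ℕ) : cf (w + w') k = cf w k + cf w' k := by
  funext i; simp [cf]

theorem cf_sub (w w' : I → S[X]) (k : ℕ) : cf (w - w') k = cf w k - cf w' k := by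
  funext i; simp [cf]

theorem cf_X_smul (j : ℕ) (w : I → S[X]) (k : ℕ) :
    cf ((X : S[X]) ^ j • w) k = if j ≤ k then cf w (k - j) else 0 := by
  funext i
  simp only [cf, Pi.smul_apply, smul_eq_mul, coeff_X_pow_mul']
  split_ifs <;> rfl

theorem cf_C_smul (s : S) (w : I → S[X]) (k : ℕ) : cf (C s • w) k = s • cf w k := by
  funext i; simp [cf]

/-- the vector of polynomials given by a vector over `S` -/
noncomputable def emb (v : I → S) : I → S[X] := fun i => C (v i)

theorem emb_add (v v' : I → S) : emb (v + v') = emb v + emb v' := by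
  funext i; simp [emb]

@[simp] theorem emb_zero : emb (0 : I → S) = 0 := by
  funext i; simp [emb]

theorem emb_smul (s : S) (v : I → S) : emb (s • v) = C s • emb v := by
  funext i; simp [emb]

theorem cf_emb (v : I → S) (k : ℕ) : cf (emb v) k = if k = 0 then v else 0 := by
  funext i
  simp only [cf, emb, coeff_C]
  split_ifs <;> rfl

theorem cf_X_emb (j : ℕ) (v : I → S) (k : ℕ) :
    cf ((X : S[X]) ^ j • emb v) k = if k = j then v else 0 := by
  rw [cf_X_smul]
  by_cases h : j ≤ k
  · rw [if_pos h, cf_emb]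
    by_cases h2 : k = j
    · subst h2; simp
    · rw [if_neg h2, if_neg (by omega)]
  · rw [if_neg h, if_neg (by omega)]

theorem cf_vecMul [Fintype I] {J : Type*} (w : I → S[X]) (F : Matrix I J S) (k : ℕ) :
    cf (w ᵥ* F.map (C : S →+* S[X])) k = cf w k ᵥ* F := by
  funext j
  simp only [cf, Matrix.vecMul, dotProduct, Matrix.map_apply, finsetSum_coeff, coeff_mul_C]

variable [Finite I]

theorem exists_window (w : I → S[X]) : ∃ r : ℕ, ∀ k, r < k → cf w k = 0 := by
  classical
  have : Fintype I := Fintype.ofFinite I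
  refine ⟨∑ i, (w i).natDegree, fun k hk => ?_⟩
  funext i
  apply coeff_eq_zero_of_natDegree_lt
  exact lt_of_le_of_lt (Finset.single_le_sum (f := fun i => (w i).natDegree)
    (fun i _ => Nat.zero_le _) (Finset.mem_univ i)) hk

theorem cf_sum (s : Finset ℕ) {J : Type*} (v : ℕ → J → S) (k : ℕ) :
    cf (∑ k ∈ s, (X : S[X]) ^ k • emb (v k)) k = if k ∈ s then v k else 0 := by
  classical
  induction s using Finset.induction_on with
  | empty => simp
  | insert j s hj ih =>
    rw [Finset.sum_insert hj, cf_add, ih, cf_X_emb]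
    by_cases hkj : k = j
    · subst hkj; simp [hj]
    · simp [hkj]

/-- assemble a vector from finitely many coordinates -/
theorem exists_of_cf (w : I → S[X]) {J : Type*} (v : ℕ → J → S) :
    ∃ w' : J → S[X], ∀ k, (cf w' k = v k ∨ (cf w k = 0 ∧ cf w' k = 0)) := by
  classical
  obtain ⟨r, h⟩ := exists_window w
  refine ⟨∑ k ∈ Finset.range (r + 1), (X : S[X]) ^ k • emb (v k), fun k => ?_⟩
  rw [cf_sum]
  by_cases hk : k ∈ Finset.range (r + 1)
  · left; simp [hk]
  · right
    refine ⟨h k ?_, by simp [hk]⟩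
    rw [Finset.mem_range] at hk
    omega

theorem vec_expand (w : I → S[X]) :
    ∃ s : Finset ℕ, w = ∑ k ∈ s, (X : S[X]) ^ k • emb (cf w k) := by
  classical
  obtain ⟨r, h⟩ := exists_window w
  refine ⟨Finset.range (r + 1), ?_⟩
  apply cf_ext
  intro k
  rw [cf_sum]
  by_cases hk : k ∈ Finset.range (r + 1)
  · simp [hk]
  · rw [if_neg hk]
    apply h
    rw [Finset.mem_range] at hk
    omega

end Vec

section Ind

variable {I : Type*}

/-- The module induced from an `S`-submodule of a free module. -/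
def ind (K : Submodule S (I → S)) : Submodule S[X] (I → S[X]) where
  carrier := {w | ∀ k, cf w k ∈ K}
  add_mem' := fun {w w'} hw hw' k => by
    rw [cf_add]; exact K.add_mem (hw k) (hw' k)
  zero_mem' := fun k => by rw [cf_zero]; exact K.zero_mem
  smul_mem' := by
    intro x w hw
    induction x using Polynomial.induction_on' with
    | add x y hx hy => intro k; rw [add_smul, cf_add]; exact K.add_mem (hx k) (hy k)
    | monomial j s =>
      intro k
      rw [← C_mul_X_pow_eq_monomial, mul_smul, cf_C_smul, cf_X_smul]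
      refine K.smul_mem _ ?_
      split_ifs
      · exact hw _
      · exact K.zero_mem

theorem mem_ind {K : Submodule S (I → S)} {w : I → S[X]} : w ∈ ind K ↔ ∀ k, cf w k ∈ K :=
  Iff.rfl

theorem emb_mem_ind {K : Submodule S (I → S)} {v : I → S} (hv : v ∈ K) : emb v ∈ ind K := by
  intro k
  rw [cf_emb]
  split_ifs
  · exact hv
  · exact K.zero_mem

end Ind

theorem ind_good {I : Type} [Finite I] (K : Submodule S (I → S))
    (h : Good (RingHom.id S) K) : Good (C : S →+* S[X]) (ind K) := by
  obtain ⟨p, ⟨θ⟩, -⟩ := h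
  let F : Matrix (Fin p.size) I S := fun i => (θ ⟨p.mat i, row_mem_img p.idem i⟩ : I → S)
  have hF : ∀ x : img p.mat, ((θ x : K) : I → S) = (x : Fin p.size → S) ᵥ* F := by
    intro x
    have := img_map_eq p.idem (θ : img p.mat →ₗ[S] K) x
    have h2 := congrArg Subtype.val this
    rw [LinearEquiv.coe_coe] at h2
    rw [h2, AddSubmonoidClass.coe_finsetSum]
    funext j
    simp [Matrix.vecMul, dotProduct, F]
  have hF2 : ∀ v : Fin p.size → S, v ᵥ* F ∈ K := by
    intro v
    have : v ᵥ* F = ∑ i, v i • (θ ⟨p.mat i, row_mem_img p.idem i⟩ : I → S) := by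
      funext j
      simp [Matrix.vecMul, dotProduct, F]
    rw [this]
    exact K.sum_mem fun i _ => K.smul_mem _ (θ _).2
  have hpι := map_idem p.idem (C : S →+* S[X])
  have hmem : ∀ w : Fin p.size → S[X], w ∈ img (p.mat.map (C : S →+* S[X])) ↔
      ∀ k, cf w k ∈ img p.mat := by
    intro w
    rw [mem_img hpι]
    constructor
    · intro hw k
      rw [mem_img p.idem, ← cf_vecMul, hw]
    · intro hw
      apply cf_ext
      intro k
      rw [cf_vecMul]
      exact (mem_img p.idem).1 (hw k)
  let g : img (p.mat.map (C : S →+* S[X])) →ₗ[S[X]] ind K :=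
    (Matrix.vecMulLinear (F.map (C : S →+* S[X]))).restrict (fun w _ k => by
      change cf (w ᵥ* F.map (C : S →+* S[X])) k ∈ K
      rw [cf_vecMul]; exact hF2 _)
  have hg : ∀ w, ((g w : ind K) : I → S[X]) =
      (w : Fin p.size → S[X]) ᵥ* F.map (C : S →+* S[X]) := fun _ => rfl
  have hginj : Function.Injective g := by
    rw [← LinearMap.ker_eq_bot, LinearMap.ker_eq_bot']
    intro w hw
    have h1 : (w : Fin p.size → S[X]) ᵥ* F.map (C : S →+* S[X]) = 0 := by
      rw [← hg, hw]; rfl
    apply Subtype.ext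
    apply cf_ext
    intro k
    have h2 : cf (w : Fin p.size → S[X]) k ᵥ* F = 0 := by
      rw [← cf_vecMul, h1, cf_zero]
    have h3 := (hmem _).1 w.2 k
    have h4 : θ ⟨_, h3⟩ = 0 := by
      apply Subtype.ext
      rw [hF]
      exact h2
    have h5 : (⟨cf (w : Fin p.size → S[X]) k, h3⟩ : img p.mat) = 0 := by
      apply θ.injective
      rw [h4, map_zero]
    have h6 := congrArg Subtype.val h5
    simpa using h6
  have hgsurj : Function.Surjective g := by
    rintro ⟨w, hw⟩
    obtain ⟨w', hw'⟩ := exists_of_cf w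
      (fun k => ((θ.symm ⟨cf w k, hw k⟩ : img p.mat) : Fin p.size → S))
    have h1 : ∀ k, cf w' k = ((θ.symm ⟨cf w k, hw k⟩ : img p.mat) : Fin p.size → S) := by
      intro k
      rcases hw' k with h | ⟨h, h'⟩
      · exact h
      · rw [h']
        have : (⟨cf w k, hw k⟩ : K) = 0 := Subtype.ext h
        rw [this, map_zero]; rfl
    have h2 : w' ∈ img (p.mat.map (C : S →+* S[X])) := by
      rw [hmem]
      intro k
      rw [h1]
      exact (θ.symm _).2
    refine ⟨⟨w', h2⟩, ?_⟩
    apply Subtype.ext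
    apply cf_ext
    intro k
    rw [hg]
    change cf (w' ᵥ* F.map (C : S →+* S[X])) k = cf w k
    rw [cf_vecMul, h1, ← hF, LinearEquiv.apply_symm_apply]
  rw [good_iff hpι (LinearEquiv.ofBijective g ⟨hginj, hgsurj⟩)]
  exact ⟨_, KZero.kc_map (C : S →+* S[X]) p.mat p.idem⟩

theorem ind_hasRes {n : ℕ} : ∀ {I : Type} [Finite I] (K : Submodule S (I → S)),
    HasRes (RingHom.id S) n K → HasRes (C : S →+* S[X]) n (ind K) := by
  induction n with
  | zero => intro I _ K h; exact ind_good K h
  | succ n ih =>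
    intro I _ K h
    obtain ⟨m, f, hf, h⟩ := h
    let F : Matrix (Fin m) I S := fun i => (f (Pi.single i 1) : I → S)
    have hF : ∀ v : Fin m → S, ((f v : K) : I → S) = v ᵥ* F := by
      intro v
      have h1 : v = ∑ i, v i • (Pi.single i (1 : S) : Fin m → S) := by
        funext j
        simp [Pi.single_apply]
      have h2 : f v = ∑ i, v i • f (Pi.single i 1) := by
        conv_lhs => rw [h1]
        rw [map_sum]
        exact Finset.sum_congr rfl fun i _ => map_smul f _ _
      rw [h2, AddSubmonoidClass.coe_finsetSum]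
      funext j
      simp [Matrix.vecMul, dotProduct, F]
    let g : (Fin m → S[X]) →ₗ[S[X]] ind K :=
      (Matrix.vecMulLinear (F.map (C : S →+* S[X]))).codRestrict (ind K) (fun w k => by
        change cf (w ᵥ* F.map (C : S →+* S[X])) k ∈ K
        rw [cf_vecMul, ← hF]; exact (f _).2)
    have hg : ∀ w, ((g w : ind K) : I → S[X]) = w ᵥ* F.map (C : S →+* S[X]) := fun _ => rfl
    have hgsurj : Function.Surjective g := by
      rintro ⟨w, hw⟩
      choose v hv using fun k => hf ⟨cf w k, hw k⟩
      obtain ⟨w', hw'⟩ := exists_of_cf w v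
      refine ⟨w', ?_⟩
      apply Subtype.ext
      apply cf_ext
      intro k
      rw [hg]
      change cf (w' ᵥ* F.map (C : S →+* S[X])) k = cf w k
      rw [cf_vecMul]
      rcases hw' k with h | ⟨h, h'⟩
      · rw [h, ← hF, hv]
      · rw [h', h, Matrix.zero_vecMul]
    refine ⟨m, g, hgsurj, ?_⟩
    have hker : ind (LinearMap.ker f) = LinearMap.ker g := by
      ext w
      rw [LinearMap.mem_ker, mem_ind]
      constructor
      · intro hw
        apply Subtype.ext
        apply cf_ext
        intro k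
        rw [hg, cf_vecMul, ← hF]
        have : f (cf w k) = 0 := hw k
        rw [this]
        simp
      · intro hw k
        rw [LinearMap.mem_ker]
        apply Subtype.ext
        rw [hF, ← cf_vecMul, ← hg, hw]
        simp
    exact (ih _ h).congr (LinearEquiv.ofEq _ _ hker)

section MV

variable {J : Type} [Finite J] (d : ℕ)

/-- the map `(w_a) ↦ ∑ w_a t^a` -/
noncomputable def Phi : (Fin (d + 1) × J → S[X]) →ₗ[S[X]] (J → S[X]) where
  toFun w j := ∑ a : Fin (d + 1), w (a, j) * X ^ (a : ℕ)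
  map_add' w w' := by funext j; simp [add_mul, Finset.sum_add_distrib]
  map_smul' x w := by funext j; simp [mul_assoc, Finset.mul_sum]

theorem Phi_apply (w : Fin (d + 1) × J → S[X]) (j : J) :
    Phi d w j = ∑ a : Fin (d + 1), w (a, j) * X ^ (a : ℕ) := rfl

theorem co_Phi (w : Fin (d + 1) × J → S[X]) (j : J) (D : ℕ) :
    (Phi d w j).coeff D =
      ∑ a : Fin (d + 1), if (a : ℕ) ≤ D then (w (a, j)).coeff (D - (a : ℕ)) else 0 := by
  rw [Phi_apply, finsetSum_coeff]
  exact Finset.sum_congr rfl fun a _ => coeff_mul_X_pow' _ _ _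

/-- lattice of `M` -/
def lat (M : Submodule S[X] (J → S[X])) : Submodule S (Fin (d + 1) × J → S) where
  carrier := {u | Phi d (emb u) ∈ M}
  add_mem' := fun {u u'} hu hu' => by
    change Phi d (emb (u + u')) ∈ M
    rw [emb_add, map_add]; exact M.add_mem hu hu'
  zero_mem' := by
    change Phi d (emb 0) ∈ M
    rw [emb_zero, map_zero]; exact M.zero_mem
  smul_mem' := fun s u hu => by
    change Phi d (emb (s • u)) ∈ M
    rw [emb_smul, map_smul]; exact M.smul_mem _ hu

/-- shift down over `T`: `(w_a) ↦ (w_{a+1} t)` -/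
noncomputable def dnT (w : Fin (d + 1) × J → S[X]) : Fin (d + 1) × J → S[X] :=
  fun x => Fin.lastCases (motive := fun _ => S[X]) 0 (fun b : Fin d => w (b.succ, x.2) * X) x.1

/-- shift down over `S` -/
def dnS (u : Fin (d + 1) × J → S) : Fin (d + 1) × J → S :=
  fun x => Fin.lastCases (motive := fun _ => S) 0 (fun b : Fin d => u (b.succ, x.2)) x.1

/-- shift up over `S` -/
def upS (u : Fin (d + 1) × J → S) : Fin (d + 1) × J → S :=
  fun x => Fin.cases (motive := fun _ => S) 0 (fun b : Fin d => u (b.castSucc, x.2)) x.1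

omit [Finite J] in
theorem dnT_last (w : Fin (d + 1) × J → S[X]) (j : J) : dnT d w (Fin.last d, j) = 0 := by
  simp [dnT]

omit [Finite J] in
theorem dnT_castSucc (w : Fin (d + 1) × J → S[X]) (b : Fin d) (j : J) :
    dnT d w (b.castSucc, j) = w (b.succ, j) * X := by
  simp [dnT]

omit [Finite J] in
theorem dnS_last (w : Fin (d + 1) × J → S) (j : J) : dnS d w (Fin.last d, j) = 0 := by
  simp [dnS]

omit [Finite J] in
theorem dnS_castSucc (w : Fin (d + 1) × J → S) (b : Fin d) (j : J) :
    dnS d w (b.castSucc, j) = w (b.succ, j) := by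
  simp [dnS]

omit [Finite J] in
theorem upS_zero (w : Fin (d + 1) × J → S) (j : J) : upS d w (0, j) = 0 := by
  simp [upS]

omit [Finite J] in
theorem upS_succ (w : Fin (d + 1) × J → S) (b : Fin d) (j : J) :
    upS d w (b.succ, j) = w (b.castSucc, j) := by
  simp [upS]

omit [Finite J] in
theorem dnS_add (u u' : Fin (d + 1) × J → S) : dnS d (u + u') = dnS d u + dnS d u' := by
  funext ⟨a, j⟩
  refine Fin.lastCases ?_ (fun b => ?_) a
  · simp [dnS_last]
  · simp [dnS_castSucc]

omit [Finite J] in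
theorem dnS_zero : dnS d (0 : Fin (d + 1) × J → S) = 0 := by
  funext ⟨a, j⟩
  refine Fin.lastCases ?_ (fun b => ?_) a
  · simp [dnS_last]
  · simp [dnS_castSucc]

omit [Finite J] in
theorem dnS_smul (s : S) (u : Fin (d + 1) × J → S) : dnS d (s • u) = s • dnS d u := by
  funext ⟨a, j⟩
  refine Fin.lastCases ?_ (fun b => ?_) a
  · simp [dnS_last]
  · simp [dnS_castSucc]

omit [Finite J] in
theorem dnS_upS (u : Fin (d + 1) × J → S) (hu : ∀ j, u (Fin.last d, j) = 0) :
    dnS d (upS d u) = u := by
  funext ⟨a, j⟩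
  refine Fin.lastCases ?_ (fun b => ?_) a
  · simp [dnS_last, hu]
  · simp [dnS_castSucc, upS_succ]

/-- the lattice of the multiples of the variable -/
def lat0 (M : Submodule S[X] (J → S[X])) : Submodule S (Fin (d + 1) × J → S) where
  carrier := {u | dnS d u ∈ lat d M ∧ ∀ j, u (0, j) = 0}
  add_mem' := fun {u u'} hu hu' =>
    ⟨by rw [dnS_add]; exact (lat d M).add_mem hu.1 hu'.1, fun j => by simp [hu.2 j, hu'.2 j]⟩
  zero_mem' := ⟨by rw [dnS_zero]; exact (lat d M).zero_mem, fun j => rfl⟩
  smul_mem' := fun s u hu =>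
    ⟨by rw [dnS_smul]; exact (lat d M).smul_mem s hu.1, fun j => by simp [hu.2 j]⟩

/-- `Ψ(w) = w - dn(w)` -/
noncomputable def Psi : (Fin (d + 1) × J → S[X]) →ₗ[S[X]] (Fin (d + 1) × J → S[X]) where
  toFun w := w - dnT d w
  map_add' w w' := by
    funext ⟨a, j⟩
    refine Fin.lastCases ?_ (fun b => ?_) a
    · simp [dnT_last]
    · simp [dnT_castSucc, add_mul]; abel
  map_smul' x w := by
    funext ⟨a, j⟩
    refine Fin.lastCases ?_ (fun b => ?_) a
    · simp [dnT_last]
    · simp [dnT_castSucc, mul_sub, mul_assoc]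

theorem Psi_apply (w : Fin (d + 1) × J → S[X]) : Psi d w = w - dnT d w := rfl

theorem Psi_injective : Function.Injective (Psi (S := S) (J := J) d) := by
  rw [← LinearMap.ker_eq_bot, LinearMap.ker_eq_bot']
  intro w hw
  have h : w = dnT d w := sub_eq_zero.1 hw
  have key : ∀ (a : Fin (d + 1)) (j : J), w (a, j) = 0 := by
    intro a
    refine Fin.reverseInduction (motive := fun a => ∀ j : J, w (a, j) = 0) ?_ ?_ a
    · intro j
      rw [h, dnT_last]
    · intro b ih j
      rw [h, dnT_castSucc, ih, zero_mul]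
  funext ⟨a, j⟩
  exact key a j

theorem Phi_Psi (w : Fin (d + 1) × J → S[X]) (j : J) : Phi d (Psi d w) j = w (0, j) := by
  rw [Psi_apply, map_sub, Pi.sub_apply, Phi_apply, Phi_apply, Fin.sum_univ_succ,
    Fin.sum_univ_castSucc (n := d) (fun a => dnT d w (a, j) * X ^ (a : ℕ))]
  simp only [dnT_castSucc, dnT_last, zero_mul, add_zero, Fin.val_zero, pow_zero,
    mul_one, Fin.val_succ, Fin.val_castSucc]
  have : ∀ b : Fin d, w (b.succ, j) * X * X ^ (b : ℕ) = w (b.succ, j) * X ^ ((b : ℕ) + 1) := by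
    intro b
    rw [mul_assoc, pow_succ']
  simp only [this]
  abel

omit [Finite J] in
theorem cf_dnT_succ (w : Fin (d + 1) × J → S[X]) (k : ℕ) :
    cf (dnT d w) (k + 1) = dnS d (cf w k) := by
  funext ⟨a, j⟩
  refine Fin.lastCases ?_ (fun b => ?_) a
  · simp [cf, dnT_last, dnS_last]
  · simp only [cf, dnT_castSucc, dnS_castSucc, coeff_mul_X]

omit [Finite J] in
theorem cf_dnT_zero (w : Fin (d + 1) × J → S[X]) : cf (dnT d w) 0 = 0 := by
  funext ⟨a, j⟩
  refine Fin.lastCases ?_ (fun b => ?_) a
  · simp [cf, dnT_last]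
  · simp [cf, dnT_castSucc]

theorem Phi_dnS (u : Fin (d + 1) × J → S) (hu : ∀ j, u (0, j) = 0) :
    (X : S[X]) • Phi d (emb (dnS d u)) = Phi d (emb u) := by
  funext j
  rw [Pi.smul_apply, Phi_apply, Phi_apply,
    Fin.sum_univ_succ (n := d) (fun a => emb u (a, j) * X ^ (a : ℕ)),
    Fin.sum_univ_castSucc (n := d) (fun a => emb (dnS d u) (a, j) * X ^ (a : ℕ))]
  simp only [emb, dnS_last, dnS_castSucc, hu, map_zero, zero_mul, zero_add, add_zero, Fin.val_succ,
    Fin.val_castSucc, smul_eq_mul, Finset.mul_sum]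
  refine Finset.sum_congr rfl fun b _ => ?_
  rw [← mul_assoc, X_mul_C, mul_assoc, ← pow_succ']

theorem lat0_le (M : Submodule S[X] (J → S[X])) : lat0 d M ≤ lat d M := by
  intro u hu
  change Phi d (emb u) ∈ M
  rw [← Phi_dnS d u hu.2]
  exact M.smul_mem _ hu.1

theorem Psi_emb_upS (k : ℕ) (u : Fin (d + 1) × J → S) (hu : ∀ j, u (Fin.last d, j) = 0) :
    Psi d ((X : S[X]) ^ k • emb (upS d u)) =
      (X : S[X]) ^ k • emb (upS d u) - (X : S[X]) ^ (k + 1) • emb u := by
  rw [Psi_apply]
  congr 1
  funext ⟨a, j⟩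
  refine Fin.lastCases ?_ (fun b => ?_) a
  · simp [dnT_last, emb, hu]
  · simp only [dnT_castSucc, emb, upS_succ, Pi.smul_apply, smul_eq_mul]
    rw [mul_assoc, ← X_mul_C, ← mul_assoc, ← pow_succ]

theorem upS_mem_lat0 {M : Submodule S[X] (J → S[X])} {u : Fin (d + 1) × J → S}
    (hu : u ∈ lat d M) (hu' : ∀ j, u (Fin.last d, j) = 0) : upS d u ∈ lat0 d M := by
  refine ⟨?_, fun j => upS_zero d u j⟩
  rw [dnS_upS d u hu']
  exact hu

theorem Psi_mem {M : Submodule S[X] (J → S[X])} {w : Fin (d + 1) × J → S[X]}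
    (hw : w ∈ ind (lat0 d M)) : Psi d w ∈ ind (lat d M) := by
  intro k
  rw [Psi_apply, cf_sub]
  refine (lat d M).sub_mem (lat0_le d M (hw k)) ?_
  cases k with
  | zero => rw [cf_dnT_zero]; exact (lat d M).zero_mem
  | succ k => rw [cf_dnT_succ]; exact (hw k).1

theorem Phi_mem {M : Submodule S[X] (J → S[X])} {w : Fin (d + 1) × J → S[X]}
    (hw : w ∈ ind (lat d M)) : Phi d w ∈ M := by
  obtain ⟨s, hs⟩ := vec_expand w
  rw [hs, map_sum]
  refine M.sum_mem fun k _ => ?_
  rw [map_smul]
  exact M.smul_mem _ (hw k)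

theorem co_Phi_emb (u : Fin (d + 1) × J → S) (a : Fin (d + 1)) (j : J) :
    (Phi d (emb u) j).coeff (a : ℕ) = u (a, j) := by
  rw [co_Phi, Finset.sum_eq_single a]
  · rw [if_pos le_rfl, Nat.sub_self]
    simp [emb]
  · intro b _ hb
    split_ifs with h
    · have h2 : (a : ℕ) - (b : ℕ) ≠ 0 := by
        intro h0
        apply hb
        apply Fin.ext
        omega
      simp only [emb, coeff_C]
      rw [if_neg h2]
    · rfl
  · intro h; exact absurd (Finset.mem_univ a) h

theorem emb_eq_zero_of_Phi {u : Fin (d + 1) × J → S} (h : Phi d (emb u) = 0) : u = 0 := by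
  funext ⟨a, j⟩
  rw [← co_Phi_emb d u a j, h]
  simp

theorem ker_Phi_aux {M : Submodule S[X] (J → S[X])} (r : ℕ) : ∀ (w : Fin (d + 1) × J → S[X]),
    w ∈ ind (lat d M) → Phi d w = 0 → (∀ k, r < k → cf w k = 0) →
    ∃ w' ∈ ind (lat0 d M), Psi d w' = w := by
  induction r with
  | zero =>
    intro w hw h0 hwin
    have h1 : w = emb (cf w 0) := by
      apply cf_ext
      intro k
      rw [cf_emb]
      split_ifs with hk
      · rw [hk]
      · apply hwin; omega
    have h2 : cf w 0 = 0 := by
      apply emb_eq_zero_of_Phi d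
      rw [← h1]
      exact h0
    refine ⟨0, Submodule.zero_mem _, ?_⟩
    rw [map_zero, h1, h2, emb_zero]
  | succ r ih =>
    intro w hw h0 hwin
    set u := cf w (r + 1) with hu
    have huK : u ∈ lat d M := hw (r + 1)
    have hlast : ∀ j, u (Fin.last d, j) = 0 := by
      intro j
      have h1 := co_Phi d w j (r + 1 + d)
      rw [h0] at h1
      simp only [Pi.zero_apply, coeff_zero] at h1
      rw [Finset.sum_eq_single (Fin.last d)] at h1
      · rw [Fin.val_last, if_pos (by omega), Nat.add_sub_cancel] at h1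
        exact h1.symm
      · intro c _ hc
        have hc' : (c : ℕ) < d := by
          rcases lt_or_eq_of_le (Nat.lt_succ_iff.1 c.2) with h | h
          · exact h
          · exact absurd (Fin.ext (by simpa using h)) hc
        rw [if_pos (by omega)]
        exact congrFun (hwin (r + 1 + d - (c : ℕ)) (by omega)) (c, j)
      · intro h; exact absurd (Finset.mem_univ _) h
    have hup := upS_mem_lat0 d huK hlast
    have e1 : (X : S[X]) ^ r • emb (upS d u) ∈ ind (lat0 d M) :=
      Submodule.smul_mem _ _ (emb_mem_ind hup)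
    have h4 := Psi_emb_upS d r u hlast
    obtain ⟨w'', hw'', hw2⟩ := ih (w + Psi d ((X : S[X]) ^ r • emb (upS d u)))
      (Submodule.add_mem _ hw (Psi_mem d e1)) (by
        rw [map_add, h0, zero_add]
        funext j
        rw [Phi_Psi]
        simp [emb, upS_zero]) (by
        intro k hk
        rw [h4, cf_add, cf_sub, cf_X_emb, cf_X_emb, if_neg (by omega)]
        by_cases hkb : k = r + 1
        · rw [if_pos hkb, hkb, ← hu]; abel
        · rw [if_neg hkb, hwin k (by omega)]; abel)
    refine ⟨w'' - (X : S[X]) ^ r • emb (upS d u), Submodule.sub_mem _ hw'' e1, ?_⟩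
    rw [map_sub, hw2]
    abel

/-- Resolution of a submodule of a free module generated by a lattice. -/
theorem hasRes_of_lat {n : ℕ} {M : Submodule S[X] (J → S[X])}
    (hgen : M ≤ Submodule.span S[X] (Set.range fun u : lat d M => Phi d (emb (u : _ → S))))
    (h1 : HasRes (RingHom.id S) n (lat d M)) (h2 : HasRes (RingHom.id S) n (lat0 d M)) :
    HasRes (C : S →+* S[X]) (n + 1) M := by
  refine HasRes.coker
    ((Psi d).restrict (p := ind (lat0 d M)) (q := ind (lat d M))
      (fun w hw => Psi_mem d hw))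
    ((Phi d).restrict (p := ind (lat d M)) (q := M) (fun w hw => Phi_mem d hw))
    ?_ ?_ ?_ (ind_hasRes _ h2) (ind_hasRes _ h1)
  · intro x y hxy
    apply Subtype.ext
    exact Psi_injective d (congrArg Subtype.val hxy)
  · rintro ⟨m, hm⟩
    have h3 : M ≤ (ind (lat d M)).map (Phi d) := by
      refine hgen.trans ?_
      rw [Submodule.span_le]
      rintro _ ⟨u, rfl⟩
      exact ⟨emb u, emb_mem_ind u.2, rfl⟩
    obtain ⟨w, hw, hwm⟩ := h3 hm
    exact ⟨⟨w, hw⟩, Subtype.ext hwm⟩
  · ext ⟨w, hw⟩
    rw [LinearMap.mem_range, LinearMap.mem_ker]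
    constructor
    · rintro ⟨⟨w', hw'⟩, h⟩
      have h4 : Psi d w' = w := congrArg Subtype.val h
      subst h4
      apply Subtype.ext
      change Phi d (Psi d w') = 0
      funext j
      rw [Phi_Psi]
      ext k
      have := (hw' k).2 j
      simpa [cf] using this
    · intro h
      have h5 : Phi d w = 0 := congrArg Subtype.val h
      obtain ⟨r, hwin⟩ := exists_window w
      obtain ⟨w', hw', hww⟩ := ker_Phi_aux d r w hw h5 hwin
      exact ⟨⟨w', hw'⟩, Subtype.ext hww⟩

end MV

section

variable {J : Type} [Finite J]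

/-- elements of `M` of degree at most `d` -/
def win (M : Submodule S[X] (J → S[X])) (d : ℕ) (w : J → S[X]) : Prop :=
  w ∈ M ∧ ∀ k : ℕ, d < k → cf w k = 0

/-- leading coefficients -/
def lead (M : Submodule S[X] (J → S[X])) (d : ℕ) : Submodule S (J → S) where
  carrier := {v | ∃ w, win M d w ∧ cf w d = v}
  add_mem' := by
    rintro v v' ⟨w, ⟨hw, hw2⟩, rfl⟩ ⟨w', ⟨hw', hw2'⟩, rfl⟩
    refine ⟨w + w', ⟨M.add_mem hw hw', fun k hk => ?_⟩, cf_add _ _ _⟩
    rw [cf_add, hw2 k hk, hw2' k hk, add_zero]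
  zero_mem' := ⟨0, ⟨M.zero_mem, fun k _ => cf_zero k⟩, cf_zero _⟩
  smul_mem' := by
    rintro s v ⟨w, ⟨hw, hw2⟩, rfl⟩
    refine ⟨C s • w, ⟨M.smul_mem _ hw, fun k hk => ?_⟩, ?_⟩
    · rw [cf_C_smul, hw2 k hk, smul_zero]
    · rw [cf_C_smul]

theorem lead_mono (M : Submodule S[X] (J → S[X])) : Monotone (lead M) := by
  refine monotone_nat_of_le_succ fun d => ?_
  rintro v ⟨w, ⟨hw, hw2⟩, rfl⟩
  refine ⟨(X : S[X]) ^ 1 • w, ⟨M.smul_mem _ hw, fun k hk => ?_⟩, ?_⟩
  · rw [cf_X_smul, if_pos (by omega)]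
    apply hw2
    omega
  · rw [cf_X_smul, if_pos (by omega), Nat.add_sub_cancel]

theorem exists_lat_of_win {M : Submodule S[X] (J → S[X])} {d : ℕ} {w : J → S[X]}
    (hw : win M d w) : ∃ u : lat d M, Phi d (emb (u : _ → S)) = w := by
  let u : Fin (d + 1) × J → S := fun x => cf w (x.1 : ℕ) x.2
  have hu : Phi d (emb u) = w := by
    funext j
    ext D
    by_cases hD : d < D
    · have h1 := congrFun (hw.2 D hD) j
      change (w j).coeff D = 0 at h1
      rw [h1, co_Phi]
      refine Finset.sum_eq_zero fun a _ => ?_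
      have ha : (a : ℕ) ≤ d := by have := a.2; omega
      rw [if_pos (by omega)]
      simp only [emb, coeff_C]
      rw [if_neg (by omega)]
    · exact co_Phi_emb d u (⟨D, by omega⟩ : Fin (d + 1)) j
  exact ⟨⟨u, by change Phi d (emb u) ∈ M; rw [hu]; exact hw.1⟩, hu⟩

theorem exists_gen [IsNoetherianRing S] (M : Submodule S[X] (J → S[X])) :
    ∃ d : ℕ, M ≤ Submodule.span S[X]
      (Set.range fun u : lat d M => Phi d (emb (u : Fin (d + 1) × J → S))) := by
  obtain ⟨N, hN⟩ := monotone_stabilizes_iff_noetherian.2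
    (inferInstance : IsNoetherian S (J → S)) ⟨lead M, lead_mono M⟩
  have hN' : ∀ m, N ≤ m → lead M N = lead M m := hN
  refine ⟨N, ?_⟩
  set G := Submodule.span S[X]
    (Set.range fun u : lat N M => Phi N (emb (u : Fin (N + 1) × J → S))) with hG
  have hbase : ∀ w, win M N w → w ∈ G := by
    intro w hw
    obtain ⟨u, hu⟩ := exists_lat_of_win hw
    exact Submodule.subset_span ⟨u, hu⟩
  have hstep : ∀ r : ℕ, ∀ w, win M (N + r) w → w ∈ G := by
    intro r
    induction r with
    | zero => exact hbase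
    | succ r ih =>
      intro w hw
      have h1 : cf w (N + (r + 1)) ∈ lead M (N + (r + 1)) := ⟨w, hw, rfl⟩
      rw [← hN' _ (by omega)] at h1
      obtain ⟨w', hw', h2⟩ := h1
      have h3 : win M (N + r) (w - (X : S[X]) ^ (r + 1) • w') := by
        refine ⟨M.sub_mem hw.1 (M.smul_mem _ hw'.1), fun k hk => ?_⟩
        rw [cf_sub, cf_X_smul, if_pos (by omega)]
        by_cases hk2 : k = N + (r + 1)
        · subst hk2
          rw [Nat.add_sub_cancel, h2, sub_self]
        · rw [hw.2 k (by omega), hw'.2 _ (by omega), sub_self]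
      have h4 := ih _ h3
      have h5 := G.add_mem h4 (G.smul_mem ((X : S[X]) ^ (r + 1)) (hbase _ hw'))
      simpa using h5
  intro w hw
  obtain ⟨r, hwin⟩ := exists_window w
  exact hstep r w ⟨hw, fun k hk => hwin k (by omega)⟩

end

theorem exists_hasRes (hS : IsRegularRing S) {J : Type} [Finite J]
    (M : Submodule S[X] (J → S[X])) : ∃ n : ℕ, HasRes (C : S →+* S[X]) n M := by
  have hN : IsNoetherianRing S := hS.1
  obtain ⟨d, hd⟩ := exists_gen M
  obtain ⟨n1, h1⟩ := hS.hasRes (lat d M)
  obtain ⟨n2, h2⟩ := hS.hasRes (lat0 d M)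
  exact ⟨_, hasRes_of_lat d hd (h1.mono (le_max_left n1 n2)) (h2.mono (le_max_right n1 n2))⟩

theorem isNoetherianRing (hS : IsRegularRing S) : IsNoetherianRing S[X] := by
  have h1 : IsNoetherian S[X] (Fin 1 → S[X]) := by
    refine ⟨fun M => ?_⟩
    obtain ⟨n, hn⟩ := exists_hasRes hS M
    have := hn.finite
    exact Module.Finite.iff_fg.1 this
  exact isNoetherian_of_linearEquiv (LinearEquiv.funUnique (Fin 1) S[X] S[X])

end PolyExt

/-- The polynomial ring over a regular ring is regular. -/
theorem IsRegularRing.polynomial {S : Type u} [Ring S] (hS : IsRegularRing S) :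
    IsRegularRing S[X] :=
  isRegularRing_of_hasRes (φ := (C : S →+* S[X])) (PolyExt.isNoetherianRing hS)
    fun _ M => PolyExt.exists_hasRes hS M

/-- The Laurent polynomial ring as a Laurent extension. -/
noncomputable def laurentPolynomialExt (S : Type u) [Ring S] :
    LaurentExt S (LaurentPolynomial S) where
  ι := LaurentPolynomial.C
  t := ⟨LaurentPolynomial.T 1, LaurentPolynomial.T (-1),
    by rw [← LaurentPolynomial.T_add]; simp, by rw [← LaurentPolynomial.T_add]; simp⟩
  σ := RingEquiv.refl S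
  comm := fun s => (LaurentPolynomial.commute_T 1 (LaurentPolynomial.C s)).eq
  co := (AddMonoidAlgebra.coeffAddEquiv (R := S) (M := ℤ)).toAddMonoidHom
  co_injective := (AddMonoidAlgebra.coeffAddEquiv (R := S) (M := ℤ)).injective
  co_t_mul := by
    intro x k
    change ((LaurentPolynomial.T 1 : LaurentPolynomial S) * x).coeff k = x.coeff (k - 1)
    rw [LaurentPolynomial.T, AddMonoidAlgebra.coeff_single_mul_apply, one_mul]
    congr 1
    ring
  co_mul_ι := by
    intro x s k
    change (x * LaurentPolynomial.C s).coeff k = x.coeff k * s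
    rw [← LaurentPolynomial.single_eq_C, AddMonoidAlgebra.coeff_mul_single_apply]
    simp
  co_one := rfl

/-- The Laurent polynomial ring over a regular ring is regular. -/
theorem IsRegularRing.laurentPolynomial {S : Type u} [Ring S] (hS : IsRegularRing S) :
    IsRegularRing (LaurentPolynomial S) :=
  (laurentPolynomialExt S).isRegularRing hS

end Pool.Agent.Lib.MP_c052b4_al
end

section

/-!
# The tree and the line of a valuation
-/

set_option autoImplicit false

open scoped Matrix WithZero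

namespace Pool.Agent.Lib.MP_c052b4_al.MT.L

universe u v

/-- The line, with the action by translations through `c`. -/
theorem hasTrees_line {G : Type v} [Group G] (c : G →* Multiplicative ℤ) :
    HasTrees.{v, u} G {g | c g = 1} := by
  let act : MulAction G (ULift.{u} ℤ) :=
    { smul := fun g n => ⟨n.down + Multiplicative.toAdd (c g)⟩
      one_smul := fun n => by
        apply ULift.ext
        change n.down + Multiplicative.toAdd (c 1) = n.down
        rw [map_one, toAdd_one, add_zero]
      mul_smul := fun g h n => by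
        apply ULift.ext
        change n.down + Multiplicative.toAdd (c (g * h)) =
          (n.down + Multiplicative.toAdd (c h)) + Multiplicative.toAdd (c g)
        rw [map_mul, toAdd_mul]
        ring }
  have hsmul : ∀ (g : G) (n : ULift.{u} ℤ),
      (g • n).down = n.down + Multiplicative.toAdd (c g) := fun _ _ => rfl
  obtain ⟨Gr, hGr⟩ : ∃ Gr : SimpleGraph (ULift.{u} ℤ), ∀ n m : ULift.{u} ℤ,
      Gr.Adj n m ↔ (n.down + 1 = m.down ∨ m.down + 1 = n.down) :=
    ⟨{ Adj := fun n m => n.down + 1 = m.down ∨ m.down + 1 = n.down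
       symm := ⟨fun n m h => h.symm⟩
       loopless := ⟨fun n h => by rcases h with h | h <;> omega⟩ }, fun _ _ => Iff.rfl⟩
  have hit : ∀ (n : ℕ) (x : ULift.{u} ℤ),
      ((fun x : ULift.{u} ℤ => (⟨x.down + 1⟩ : ULift.{u} ℤ))^[n] x).down = x.down + n := by
    intro n
    induction n with
    | zero => intro x; simp
    | succ n ih =>
      intro x
      rw [Function.iterate_succ_apply, ih]
      push_cast
      ring
  have htree : Gr.IsTree := by
    refine isTree_of_parent (fun x : ULift.{u} ℤ => (⟨x.down + 1⟩ : ULift.{u} ℤ))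
      (fun x n hn h => ?_) (fun x y => ?_) Gr (fun x y => ?_)
    · have h1 := congrArg ULift.down h
      rw [hit] at h1
      omega
    · refine ⟨(y.down - x.down).toNat, (x.down - y.down).toNat, ULift.ext _ _ ?_⟩
      rw [hit, hit]
      omega
    · rw [hGr, ULift.ext_iff, ULift.ext_iff]
  refine HasTrees.one (V := ULift.{u} ℤ)
    { graph := Gr
      tree := htree
      adj_smul := fun g x y h => ?_
      no_inversion := fun g x y h h1 h2 => ?_ } fun g x h => ?_
  · rw [hGr] at h ⊢
    rw [hsmul, hsmul]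
    rcases h with h | h
    · left
      omega
    · right
      omega
  · rw [hGr] at h
    have e1 := congrArg ULift.down h1
    have e2 := congrArg ULift.down h2
    rw [hsmul] at e1 e2
    omega
  · have e1 := congrArg ULift.down h
    rw [hsmul] at e1
    have e2 : Multiplicative.toAdd (c g) = 0 := by omega
    exact toAdd_eq_zero.1 e2

variable {E : Type u} [Field E]

theorem l08_mul (w : Valuation E ℤᵐ⁰) (g h : GL (Fin 2) E) :
    w (((g * h : GL (Fin 2) E) : Matrix (Fin 2) (Fin 2) E).det) =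
      w ((g : Matrix (Fin 2) (Fin 2) E).det) * w ((h : Matrix (Fin 2) (Fin 2) E).det) := by
  rw [Units.val_mul, Matrix.det_mul, map_mul]

theorem l08_ne (w : Valuation E ℤᵐ⁰) (g : GL (Fin 2) E) :
    w ((g : Matrix (Fin 2) (Fin 2) E).det) ≠ 0 := by
  intro h
  have h1 := l08_mul w g g⁻¹
  rw [mul_inv_cancel, h, zero_mul, Units.val_one, Matrix.det_one, map_one] at h1
  exact one_ne_zero h1

theorem hasTrees_tree (w : Valuation E ℤᵐ⁰) {p : E} (hp : w p = WithZero.exp (-1 : ℤ))
    {G : Type v} [Group G] (rho : G →* GL (Fin 2) E)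
    (hg : ∀ g : G, ∃ n : ℤ, w ((rho g : Matrix (Fin 2) (Fin 2) E).det) = WithZero.exp (2 * n)) :
    HasTrees.{v, u} G {g | ∃ l : E, l ≠ 0 ∧ w ((rho g : Matrix (Fin 2) (Fin 2) E).trace) ≤ w l ∧
      w ((rho g : Matrix (Fin 2) (Fin 2) E).det) = w l ^ 2} := by
  let act : MulAction G (TV w) := MulAction.compHom (TV w) rho
  have hsmul : ∀ (g : G) (x : TV w), g • x = rho g • x := fun _ _ => rfl
  obtain ⟨Gr, hGr⟩ : ∃ Gr : SimpleGraph (TV w), ∀ x y : TV w, Gr.Adj x y ↔ TV.Rel w x y :=
    ⟨{ Adj := fun x y => TV.Rel w x y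
       symm := ⟨fun x y h => TV.rel_symm w hp h⟩
       loopless := ⟨fun x h => TV.rel_irrefl w x h⟩ }, fun _ _ => Iff.rfl⟩
  refine HasTrees.one (V := TV w)
    { graph := Gr
      tree := TV.isTree w hp Gr hGr
      adj_smul := fun g x y h => ?_
      no_inversion := fun g x y h h1 h2 => ?_ } fun g x h => ?_
  · rw [hGr] at h ⊢
    rw [hsmul, hsmul]
    exact TV.rel_smul w (rho g) h
  · rw [hGr] at h
    exact TV.no_inv w (rho g) (hg g) x y h h1
  · exact TV.stab w (rho g) x h

theorem hasTrees_det (w : Valuation E ℤᵐ⁰)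
    {G : Type v} [Group G] (rho : G →* GL (Fin 2) E) :
    HasTrees.{v, u} G {g | w ((rho g : Matrix (Fin 2) (Fin 2) E).det) = 1} := by
  refine (hasTrees_line (MonoidHom.mk' (fun g : G => Multiplicative.ofAdd
    (WithZero.log (w ((rho g : Matrix (Fin 2) (Fin 2) E).det)))) fun a b => ?_)).mono
    fun g hg => ?_
  · rw [map_mul, l08_mul, WithZero.log_mul (l08_ne w _) (l08_ne w _), ofAdd_add]
  · have h1 : Multiplicative.ofAdd (WithZero.log (w ((rho g : Matrix (Fin 2) (Fin 2) E).det))) =
        1 := hg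
    have h2 : WithZero.log (w ((rho g : Matrix (Fin 2) (Fin 2) E).det)) = 0 := ofAdd_eq_one.1 h1
    have h3 := WithZero.exp_log (l08_ne w (rho g))
    rw [h2, WithZero.exp_zero] at h3
    exact h3.symm

theorem hasTrees_val (w : Valuation E ℤᵐ⁰) {p : E} (hp : w p = WithZero.exp (-1 : ℤ))
    {G : Type v} [Group G] (rho : G →* GL (Fin 2) E)
    (hg : ∀ g : G, ∃ n : ℤ, w ((rho g : Matrix (Fin 2) (Fin 2) E).det) = WithZero.exp (2 * n)) :
    HasTrees.{v, u} G {g | w ((rho g : Matrix (Fin 2) (Fin 2) E).trace) ≤ 1 ∧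
      w ((rho g : Matrix (Fin 2) (Fin 2) E).det) = 1} := by
  refine ((hasTrees_tree w hp rho hg).inter (hasTrees_det w rho)).mono ?_
  rintro g ⟨⟨l, hl, h1, h2⟩, h3⟩
  have h3' : w ((rho g : Matrix (Fin 2) (Fin 2) E).det) = 1 := h3
  rw [h3'] at h2
  have h4 : w l = 1 := by
    have h5 : w l ^ 2 = 1 ^ 2 := by rw [← h2, one_pow]
    exact (pow_left_inj₀ zero_le zero_le two_ne_zero).1 h5
  exact ⟨h4 ▸ h1, h3'⟩

end Pool.Agent.Lib.MP_c052b4_al.MT.L
end

section

set_option autoImplicit false

open scoped WithZero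

namespace Pool.Agent.Lib.MP_c052b4_al.MT.L

universe u v

theorem val_sq {E : Type u} [Field E] (w : Valuation E ℤᵐ⁰) {a c : E} (ha : a ≠ 0)
    (h : c ^ 2 = a) : ∃ n : ℤ, w a = WithZero.exp (2 * n) := by
  have hc : c ≠ 0 := by
    rintro rfl
    apply ha
    rw [← h]
    exact zero_pow two_ne_zero
  refine ⟨WithZero.log (w c), ?_⟩
  rw [← h, map_pow, two_mul, WithZero.exp_add, WithZero.exp_log ((Valuation.ne_zero_iff w).2 hc),
    pow_two]

/-- Finitely generated groups of matrices over a finitely generated domain of positive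
characteristic: the elements which fix a vertex in each tree of a suitable finite family are
integral. -/
theorem dom_trees (B : Type u) [CommRing B] [IsDomain B] [Algebra.FiniteType ℤ B] (N : ℕ)
    (hN : 0 < N) (hB : (N : B) = 0) (G : Type v) [Group G] [Group.FG G]
    (rho : G →* GL (Fin 2) B) :
    HasTrees.{v, u} G {g | IsIntegral ℤ (rho g : Matrix (Fin 2) (Fin 2) B)} := by
  classical
  obtain ⟨p, hp, k, hk, hcp, hkf, hkB, hft⟩ := exists_prime_field B N hN hB
  obtain ⟨B', hB1, hB2, hkB', hft', f, hf, hsq⟩ := exists_sqrt_det k B G rho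
  obtain ⟨E, hE, e, ι, hι, W, he, hW, hint⟩ := exists_embedding p B' k
  have hinj : Function.Injective (e.comp f) := he.comp hf
  let sigma : G →* GL (Fin 2) E := (Matrix.GeneralLinearGroup.map (e.comp f)).comp rho
  have hdet : ∀ g, (sigma g : Matrix (Fin 2) (Fin 2) E).det =
      e (f ((rho g : Matrix (Fin 2) (Fin 2) B).det)) := by
    intro g
    have h1 : (sigma g : Matrix (Fin 2) (Fin 2) E) =
      (e.comp f).mapMatrix (rho g : Matrix (Fin 2) (Fin 2) B) := rfl
    rw [h1, ← RingHom.map_det]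
    rfl
  have htr : ∀ g, (sigma g : Matrix (Fin 2) (Fin 2) E).trace =
      e (f ((rho g : Matrix (Fin 2) (Fin 2) B).trace)) := by
    intro g
    have h1 : (sigma g : Matrix (Fin 2) (Fin 2) E) =
      (e.comp f).mapMatrix (rho g : Matrix (Fin 2) (Fin 2) B) := rfl
    rw [h1, Matrix.trace_fin_two, Matrix.trace_fin_two, map_add, map_add]
    rfl
  have hev : ∀ (i : ι) (g : G), ∃ n : ℤ,
      W i ((sigma g : Matrix (Fin 2) (Fin 2) E).det) = WithZero.exp (2 * n) := by
    intro i g
    obtain ⟨c, hc⟩ := hsq g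
    have h0 : (sigma g : Matrix (Fin 2) (Fin 2) E).det ≠ 0 :=
      ((Matrix.isUnit_iff_isUnit_det _).1 (sigma g).isUnit).ne_zero
    refine val_sq (W i) (c := e c) h0 ?_
    rw [hdet, ← hc, map_pow]
  have hall : HasTrees.{v, u} G (⋂ i : ι, {g | W i ((sigma g : Matrix (Fin 2) (Fin 2) E).trace) ≤ 1 ∧
      W i ((sigma g : Matrix (Fin 2) (Fin 2) E).det) = 1}) := by
    refine HasTrees.iInter fun i => ?_
    obtain ⟨q, hq⟩ := hW i
    exact hasTrees_val (W i) hq sigma (hev i)
  have hkint : ∀ b : B, IsIntegral k (f b) → IsIntegral ℤ b := by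
    intro b hb
    have h1 : Algebra.IsIntegral ℤ k := ⟨fun x => by
      have : Fintype k := Fintype.ofFinite k
      refine ⟨Polynomial.X ^ Fintype.card k - Polynomial.X, ?_, ?_⟩
      · exact Polynomial.monic_X_pow_sub (by
          rw [Polynomial.degree_X]
          exact_mod_cast Fintype.one_lt_card)
      · simp [FiniteField.pow_card]⟩
    have h2 : IsIntegral ℤ (f b) := isIntegral_trans (R := ℤ) (A := k) _ hb
    exact (isIntegral_algHom_iff f.toIntAlgHom hf).1 h2
  refine hall.mono fun g hg => ?_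
  rw [Set.mem_iInter] at hg
  refine integral_of_trace_det _ ?_ ?_
  · refine hkint _ (hint _ fun i => ?_)
    rw [← htr]
    exact (hg i).1
  · refine hkint _ (hint _ fun i => ?_)
    rw [← hdet]
    exact (hg i).2.le

end Pool.Agent.Lib.MP_c052b4_al.MT.L
end
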