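import Pool.Agent.Lib.MP_c052b4_al.Mg.G005
import Pool.Agent.Lib.MP_c052b4_al.Mg.G004
import Pool.Agent.Lib.MP_c052b4_al.Mg.G002
import Pool.Agent.Lib.MP_c052b4_al.Mg.G009
import Pool.Agent.Lib.MP_c052b4_al.TR.TreeAct
import Pool.Agent.Lib.MP_c052b4_al.Mg.G038
import Pool.Agent.Lib.MP_c052b4_al.Mg.G041
import Pool.Agent.Lib.MP_c052b4_al.Mg.G029

section

/-!
# Generation by affine and triangular automorphisms
-/

set_option autoImplicit false

namespace Pool.Agent.Lib.MP_c052b4_al.JK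

open MvPolynomial

universe u

variable {K : Type u} [Field K]

/-- **Jung - van der Kulk**, generation. Proof. By strong induction on the total degree of
`σ (X 1)`. It is not zero (`Coord.totalDegree_ne_zero`). If it is one, `exists_lin` and
`exists_Aff_X1` give `a ∈ Aff` with `a (X 1) = σ (X 1)`; `a⁻¹ * σ` fixes `X 1`, so it is in `Tri`
(`mem_Tri_of`). If it is `n ≥ 2`: `red_A1` (its coordinate has coefficient of `y^n` not zero),
`red_A2`, `red_C` give `e ∈ closure` with `totalDegree (e (σ (X 1))) < n`, so `e * σ` is in the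
closure, so `σ` is. -/
theorem closure_eq_top [IsAlgClosed K] :
    Subgroup.closure ((Aff K : Set (AutA K)) ∪ (Tri K : Set (AutA K))) = ⊤ := by
  haveI : Infinite K := IsAlgClosed.instInfinite
  set H : Subgroup (AutA K) := Subgroup.closure ((Aff K : Set (AutA K)) ∪ (Tri K : Set (AutA K)))
    with hH
  have hA : ∀ a ∈ Aff K, a ∈ H := fun a ha => Subgroup.subset_closure (Or.inl ha)
  have hT : ∀ a ∈ Tri K, a ∈ H := fun a ha => Subgroup.subset_closure (Or.inr ha)
  have key : ∀ n : ℕ, ∀ σ : AutA K, (σ (X 1)).totalDegree = n → σ ∈ H := by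
    intro n
    induction n using Nat.strong_induction_on with
    | _ n ih =>
      intro σ hσ
      have hc : Coord (σ (X 1)) := ⟨σ, rfl⟩
      have hn0 : n ≠ 0 := hσ ▸ hc.totalDegree_ne_zero
      by_cases hn1 : n = 1
      · obtain ⟨a, b, c, habc⟩ := exists_lin (σ (X 1)) (by rw [hσ, hn1])
        have hab : a ≠ 0 ∨ b ≠ 0 := by
          by_contra hcon
          rw [not_or, not_not, not_not] at hcon
          apply hc.totalDegree_ne_zero
          rw [habc, hcon.1, hcon.2, C_0, zero_mul, zero_mul, zero_add, zero_add, totalDegree_C]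
        obtain ⟨τ, hτ, hτ1⟩ := exists_Aff_X1 a b c hab
        have h1 : (τ⁻¹ * σ) (X 1) = C 1 * X 1 + C 0 := by
          show τ⁻¹ (σ (X 1)) = _
          rw [habc, ← hτ1, C_1, C_0, one_mul, add_zero]
          exact τ.symm_apply_apply (X 1)
        have h2 : τ⁻¹ * σ ∈ H := hT _ (mem_Tri_of h1)
        have h3 : σ = τ * (τ⁻¹ * σ) := by rw [mul_inv_cancel_left]
        rw [h3]
        exact H.mul_mem (hA τ hτ) h2
      · have hg0 : σ (X 1) ≠ 0 := by
          intro hcon
          apply hc.totalDegree_ne_zero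
          rw [hcon, totalDegree_zero]
        obtain ⟨e, he, h1, h2⟩ := red_A1 (σ (X 1)) hg0
        rw [hσ] at h1 h2
        obtain ⟨e', he', h3⟩ := red_A2 (e (σ (X 1))) (hc.map e) n hn0 h1 h2
        obtain ⟨e'', he'', h4⟩ := red_C (e' (e (σ (X 1)))) ((hc.map e).map e') n (by omega) h3
        have h5 : e'' * (e' * (e * σ)) ∈ H := ih _ h4 _ rfl
        have h6 := (Subgroup.mul_mem_cancel_left H (hT e'' he'')).1 h5
        have h7 := (Subgroup.mul_mem_cancel_left H (hA e' he')).1 h6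
        exact (Subgroup.mul_mem_cancel_left H (hA e he)).1 h7
  rw [eq_top_iff]
  intro σ _
  exact key _ σ rfl

end Pool.Agent.Lib.MP_c052b4_al.JK
end

section

/-!
# Good automorphisms
-/

set_option autoImplicit false

namespace Pool.Agent.Lib.MP_c052b4_al.JK

open MvPolynomial

universe u

variable {K : Type u} [Field K]

/-- The cosets of `g` modulo `Aff` (`true`) and modulo `Tri` (`false`) can be joined to the trivial
coset by a path with decreasing degrees. -/
inductive Good : Bool → AutA K → Prop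
  | root (a : AutA K) (ha : a ∈ Aff K) : Good true a
  | stepT (h t : AutA K) (hle : (h (X 0)).totalDegree ≤ (h (X 1)).totalDegree)
      (hh : Good true h) (ht : t ∈ Tri K) : Good false (h * t)
  | stepA (h a : AutA K) (hlt : (h (X 1)).totalDegree < (h (X 0)).totalDegree)
      (hh : Good false h) (ha : a ∈ Aff K) : Good true (h * a)

theorem Good.mul_Aff {g a : AutA K} (h : Good true g) (ha : a ∈ Aff K) : Good true (g * a) := by
  cases h with
  | root _ ha' => exact Good.root _ ((Aff K).mul_mem ha' ha)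
  | stepA h a' hlt hh ha' =>
    rw [mul_assoc]
    exact Good.stepA h (a' * a) hlt hh ((Aff K).mul_mem ha' ha)

theorem Good.mul_Tri {g t : AutA K} (h : Good false g) (ht : t ∈ Tri K) : Good false (g * t) := by
  cases h with
  | stepT h t' hle hh ht' =>
    rw [mul_assoc]
    exact Good.stepT h (t' * t) hle hh ((Tri K).mul_mem ht' ht)

/-- Proof. `g = a ∈ Aff`: the degrees of `a (X v)` are `1`, so `stepT` with `t = 1`. `g = h * a` with
`Good false h`, `deg h(X 1) < deg h(X 0)`: if `a ∈ Tri`, `Good.mul_Tri`; if not,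
`deg_mul_Aff_of_notMem` and `stepT (h * a) 1`. -/
theorem Good.to_false {g : AutA K} (h : Good true g) : Good false g := by
  cases h with
  | root _ ha =>
    have h1 : (g (X 0)).totalDegree ≤ (g (X 1)).totalDegree := by
      obtain ⟨a₀, b₀, c₀, a₁, b₁, c₁, h0, _, _⟩ := Aff_X ha
      have h2 : (g (X 0)).totalDegree ≤ 1 := by
        rw [h0]
        exact totalDegree_lin_le _ _ _
      exact h2.trans (aut_X_pos g 1)
    have h2 := Good.stepT g 1 h1 (Good.root g ha) (Tri K).one_mem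
    rwa [mul_one] at h2
  | stepA h a hlt hh ha =>
    by_cases hat : a ∈ Tri K
    · exact hh.mul_Tri hat
    · obtain ⟨h1, h2⟩ := deg_mul_Aff_of_notMem h a hlt ha hat
      have h3 := Good.stepT (h * a) 1 (h2.trans h1.ge) (Good.stepA h a hlt hh ha)
        (Tri K).one_mem
      rwa [mul_one] at h3

/-- Proof. `g = h * t`: if `t ∈ Aff`, `Good.mul_Aff`; if not, `deg_mul_Tri_of_notMem` and
`stepA (h * t) 1`, where `Good false (h * t)` by `stepT`. -/
theorem Good.to_true {g : AutA K} (h : Good false g) : Good true g := by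
  cases h with
  | stepT h t hle hh ht =>
    by_cases hta : t ∈ Aff K
    · exact hh.mul_Aff hta
    · have h3 := Good.stepA (h * t) 1 (deg_mul_Tri_of_notMem h t hle ht hta)
        (Good.stepT h t hle hh ht) (Aff K).one_mem
      rwa [mul_one] at h3

/-- Proof: `closure_eq_top` and `Subgroup.closure_induction_right`. -/
theorem good_true [IsAlgClosed K] (g : AutA K) : Good true g := by
  have hg : g ∈ Subgroup.closure ((Aff K : Set (AutA K)) ∪ (Tri K : Set (AutA K))) := by
    rw [closure_eq_top]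
    exact Subgroup.mem_top g
  have step : ∀ x y : AutA K, y ∈ ((Aff K : Set (AutA K)) ∪ (Tri K : Set (AutA K))) →
      Good true x → Good true (x * y) := by
    intro x y hy hx
    rcases hy with hy | hy
    · exact hx.mul_Aff hy
    · exact (hx.to_false.mul_Tri hy).to_true
  induction hg using Subgroup.closure_induction_right with
  | one => exact Good.root 1 (Aff K).one_mem
  | mul_right x hx y hy ih => exact step x y hy ih
  | mul_inv_cancel x hx y hy ih =>
    refine step x y⁻¹ ?_ ih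
    rcases hy with hy | hy
    · exact Or.inl ((Aff K).inv_mem hy)
    · exact Or.inr ((Tri K).inv_mem hy)

/-- Proof: cases on `good_true g`; take `a⁻¹`. -/
theorem exists_Aff [IsAlgClosed K] (g : AutA K) : g ∈ Aff K ∨
    ∃ a ∈ Aff K, ((g * a) (X 1)).totalDegree < ((g * a) (X 0)).totalDegree := by
  have h := good_true g
  cases h with
  | root _ ha => exact Or.inl ha
  | stepA h a hlt hh ha =>
    refine Or.inr ⟨a⁻¹, (Aff K).inv_mem ha, ?_⟩
    rw [mul_inv_cancel_right]
    exact hlt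

/-- Proof: cases on `(good_true g).to_false`; take `t⁻¹`. -/
theorem exists_Tri [IsAlgClosed K] (g : AutA K) :
    ∃ t ∈ Tri K, ((g * t) (X 0)).totalDegree ≤ ((g * t) (X 1)).totalDegree := by
  have h := (good_true g).to_false
  cases h with
  | stepT h t hle hh ht =>
    refine ⟨t⁻¹, (Tri K).inv_mem ht, ?_⟩
    rw [mul_inv_cancel_right]
    exact hle

end Pool.Agent.Lib.MP_c052b4_al.JK
end

section

/-!
# The tree of the automorphism group of the polynomial ring in two variables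
-/

set_option autoImplicit false

namespace Pool.Agent.Lib.MP_c052b4_al.JK

open MvPolynomial

universe u

variable (K : Type u) [Field K]

/-- the vertices: cosets of `Aff` and `Tri` -/
abbrev VT : Type u := (AutA K ⧸ Aff K) ⊕ (AutA K ⧸ Tri K)

/-- the graph: `g Aff` and `g Tri` are joined by an edge -/
def JGraph : SimpleGraph (VT K) where
  Adj x y := ∃ g : AutA K, (x = Sum.inl (g : AutA K ⧸ Aff K) ∧ y = Sum.inr (g : AutA K ⧸ Tri K)) ∨
    (x = Sum.inr (g : AutA K ⧸ Tri K) ∧ y = Sum.inl (g : AutA K ⧸ Aff K))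
  symm := ⟨by
    rintro x y ⟨g, h | h⟩
    · exact ⟨g, Or.inr ⟨h.2, h.1⟩⟩
    · exact ⟨g, Or.inl ⟨h.2, h.1⟩⟩⟩
  loopless := ⟨by
    rintro x ⟨g, h | h⟩
    · exact Sum.inl_ne_inr (h.1.symm.trans h.2)
    · exact Sum.inl_ne_inr (h.2.symm.trans h.1)⟩

/-- the rank: twice the degree, and twice the degree of the coordinate plus one -/
noncomputable def rk : VT K → ℕ
  | Sum.inl q => 2 * dg q.out
  | Sum.inr q => 2 * (q.out (X 1)).totalDegree + 1

variable {K}

/-- Proof: `g = q.out * a` with `a ∈ Aff` (`QuotientGroup.mk_out_eq_mul`), `dg_mul_Aff`. -/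
theorem rk_inl (g : AutA K) : rk K (Sum.inl (g : AutA K ⧸ Aff K)) = 2 * dg g := by
  obtain ⟨a, ha⟩ := QuotientGroup.mk_out_eq_mul (Aff K) g
  show 2 * dg (g : AutA K ⧸ Aff K).out = _
  rw [ha, dg_mul_Aff g _ a.2]

theorem rk_inr (g : AutA K) :
    rk K (Sum.inr (g : AutA K ⧸ Tri K)) = 2 * (g (X 1)).totalDegree + 1 := by
  obtain ⟨a, ha⟩ := QuotientGroup.mk_out_eq_mul (Tri K) g
  show 2 * ((g : AutA K ⧸ Tri K).out (X 1)).totalDegree + 1 = _
  rw [ha, deg_mul_Tri g _ a.2]

/-- Proof. `x = g Aff`: `exists_Aff`: if `g ∈ Aff` then `x = inl 1`; otherwise with `h = g a`,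
`x = h Aff` and `y = h Tri` has rank `2 deg (h X1) + 1 < 2 dg h`. `x = g Tri`: `exists_Tri`,
`h = g t`, `y = h Aff` has rank `2 dg h = 2 deg (h X1)`. -/
theorem rk_parent [IsAlgClosed K] (x : VT K) (hx : x ≠ Sum.inl ((1 : AutA K) : AutA K ⧸ Aff K)) :
    ∃ y, (JGraph K).Adj x y ∧ rk K y < rk K x := by
  rcases x with q | q
  · obtain ⟨g, rfl⟩ := QuotientGroup.mk_surjective q
    rcases exists_Aff g with hg | ⟨a, ha, hlt⟩
    · exfalso
      apply hx
      congr 1
      rw [QuotientGroup.eq, mul_one]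
      exact (Aff K).inv_mem hg
    · have hq : (g : AutA K ⧸ Aff K) = ((g * a : AutA K) : AutA K ⧸ Aff K) :=
        (QuotientGroup.mk_mul_of_mem g ha).symm
      refine ⟨Sum.inr ((g * a : AutA K) : AutA K ⧸ Tri K), ⟨g * a, Or.inl ⟨?_, rfl⟩⟩, ?_⟩
      · exact congrArg Sum.inl hq
      · have e1 : rk K (Sum.inl (g : AutA K ⧸ Aff K)) = 2 * dg (g * a) := by
          rw [hq, rk_inl]
        have e2 := rk_inr (g * a)
        have e3 : ((g * a) (X 0)).totalDegree ≤ dg (g * a) := le_max_left _ _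
        show rk K (Sum.inr ((g * a : AutA K) : AutA K ⧸ Tri K)) <
          rk K (Sum.inl (g : AutA K ⧸ Aff K))
        omega
  · obtain ⟨g, rfl⟩ := QuotientGroup.mk_surjective q
    obtain ⟨t, ht, hle⟩ := exists_Tri g
    have hq : (g : AutA K ⧸ Tri K) = ((g * t : AutA K) : AutA K ⧸ Tri K) :=
      (QuotientGroup.mk_mul_of_mem g ht).symm
    refine ⟨Sum.inl ((g * t : AutA K) : AutA K ⧸ Aff K), ⟨g * t, Or.inr ⟨?_, rfl⟩⟩, ?_⟩
    · exact congrArg Sum.inr hq
    · have e1 : rk K (Sum.inr (g : AutA K ⧸ Tri K)) =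
          2 * ((g * t) (X 1)).totalDegree + 1 := by
        rw [hq, rk_inr]
      have e2 := rk_inl (g * t)
      have e3 : dg (g * t) = ((g * t) (X 1)).totalDegree := max_eq_right hle
      show rk K (Sum.inl ((g * t : AutA K) : AutA K ⧸ Aff K)) <
        rk K (Sum.inr (g : AutA K ⧸ Tri K))
      omega

/-- Proof. Let `g₂ = g₁ a`, `a ∈ Aff`, `deg (g₁ X1) < dg g₁` and `deg (g₂ X1) < dg g₂`. Then
`a ∈ Tri` by `deg_mul_Aff_of_notMem` (`dg g₁ = deg (g₁ X0) = dg g₂`, `dg_mul_Aff`). -/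
theorem uniq_A (g₁ a : AutA K) (ha : a ∈ Aff K) (h1 : (g₁ (X 1)).totalDegree < dg g₁)
    (h2 : ((g₁ * a) (X 1)).totalDegree < dg g₁) : a ∈ Tri K := by
  by_contra hn
  have h3 : (g₁ (X 1)).totalDegree < (g₁ (X 0)).totalDegree := by
    by_contra h4
    have h5 : dg g₁ = (g₁ (X 1)).totalDegree := max_eq_right (not_lt.1 h4)
    omega
  have h5 : dg g₁ = (g₁ (X 0)).totalDegree := max_eq_left h3.le
  have h6 := (deg_mul_Aff_of_notMem g₁ a h3 ha hn).1
  omega

/-- Proof. `deg_mul_Tri_of_notMem`: if `t ∉ Aff` then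
`deg ((g₁ t) X0) > deg ((g₁ t) X1) = deg (g₁ X1)`. -/
theorem uniq_T (g₁ t : AutA K) (ht : t ∈ Tri K) (h1 : dg g₁ ≤ (g₁ (X 1)).totalDegree)
    (h2 : dg (g₁ * t) ≤ (g₁ (X 1)).totalDegree) : t ∈ Aff K := by
  by_contra hn
  have h3 : (g₁ (X 0)).totalDegree ≤ (g₁ (X 1)).totalDegree := (le_max_left _ _).trans h1
  have h4 := deg_mul_Tri_of_notMem g₁ t h3 ht hn
  have h5 := deg_mul_Tri g₁ t ht
  have h6 : ((g₁ * t) (X 0)).totalDegree ≤ dg (g₁ * t) := le_max_left _ _
  omega

/-- Proof. `x = g Aff`, `y = g₁ Tri`, `z = g₂ Tri` with `g₁, g₂ ∈ g Aff`, `g₂ = g₁ a`; the ranks are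
`2 deg (g_i X1) + 1 ≤ 2 dg g`, `uniq_A`. `x = g Tri`, `y = g₁ Aff`, `z = g₂ Aff`, `g₂ = g₁ t`:
`2 dg g_i ≤ 2 deg (g X1) + 1`, `deg_mul_Tri`, `uniq_T`. -/
theorem rk_uniq (x y z : VT K) (hxy : (JGraph K).Adj x y) (hxz : (JGraph K).Adj x z)
    (hy : rk K y ≤ rk K x) (hz : rk K z ≤ rk K x) : y = z := by
  obtain ⟨g₁, ⟨hx1, hy1⟩ | ⟨hx1, hy1⟩⟩ := hxy
  · obtain ⟨g₂, ⟨hx2, hz2⟩ | ⟨hx2, hz2⟩⟩ := hxz
    · have he : (g₁ : AutA K ⧸ Aff K) = (g₂ : AutA K ⧸ Aff K) :=
        Sum.inl_injective (hx1.symm.trans hx2)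
      have ha : g₁⁻¹ * g₂ ∈ Aff K := QuotientGroup.eq.1 he
      have hg : g₁ * (g₁⁻¹ * g₂) = g₂ := mul_inv_cancel_left g₁ g₂
      rw [hx1, hy1, rk_inl, rk_inr] at hy
      rw [hx1, hz2, rk_inl, rk_inr] at hz
      have hT : g₁⁻¹ * g₂ ∈ Tri K := by
        refine uniq_A g₁ _ ha (by omega) ?_
        rw [hg]
        omega
      rw [hy1, hz2]
      congr 1
      exact QuotientGroup.eq.2 hT
    · exact (Sum.inl_ne_inr (hx1.symm.trans hx2)).elim
  · obtain ⟨g₂, ⟨hx2, hz2⟩ | ⟨hx2, hz2⟩⟩ := hxz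
    · exact (Sum.inl_ne_inr (hx2.symm.trans hx1)).elim
    · have he : (g₁ : AutA K ⧸ Tri K) = (g₂ : AutA K ⧸ Tri K) :=
        Sum.inr_injective (hx1.symm.trans hx2)
      have ht : g₁⁻¹ * g₂ ∈ Tri K := QuotientGroup.eq.1 he
      have hg : g₁ * (g₁⁻¹ * g₂) = g₂ := mul_inv_cancel_left g₁ g₂
      rw [hx1, hy1, rk_inl, rk_inr] at hy
      rw [hx1, hz2, rk_inl, rk_inr] at hz
      have hA : g₁⁻¹ * g₂ ∈ Aff K := by
        refine uniq_T g₁ _ ht (by omega) ?_
        rw [hg]
        omega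
      rw [hy1, hz2]
      congr 1
      exact QuotientGroup.eq.2 hA

theorem jgraph_isTree [IsAlgClosed K] : (JGraph K).IsTree :=
  isTree_of_rank (JGraph K) (rk K) (Sum.inl ((1 : AutA K) : AutA K ⧸ Aff K)) rk_parent rk_uniq

/-- The action of the automorphism group on its tree. -/
def jTree [IsAlgClosed K] : TreeAction (AutA K) (VT K) where
  graph := JGraph K
  tree := jgraph_isTree
  adj_smul := by
    rintro g x y ⟨h, ⟨rfl, rfl⟩ | ⟨rfl, rfl⟩⟩
    · exact ⟨g * h, Or.inl ⟨rfl, rfl⟩⟩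
    · exact ⟨g * h, Or.inr ⟨rfl, rfl⟩⟩
  no_inversion := by
    rintro g x y ⟨h, ⟨rfl, rfl⟩ | ⟨rfl, rfl⟩⟩ h1
    · exact (Sum.inl_ne_inr h1).elim
    · exact (Sum.inl_ne_inr h1.symm).elim

end Pool.Agent.Lib.MP_c052b4_al.JK
end

section

set_option autoImplicit false

open scoped WithZero

namespace Pool.Agent.Lib.MP_c052b4_al.MT.L

universe u v

theorem ring_trees (A : Type u) [CommRing A] [Algebra.FiniteType ℤ A] (N : ℕ)
    (hN : 0 < N) (hA : (N : A) = 0) (G : Type v) [Group G] [Group.FG G]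
    (rho : G →* GL (Fin 2) A) :
    HasTrees.{v, u} G {g | IsIntegral ℤ (rho g : Matrix (Fin 2) (Fin 2) A)} := by
  have hnoeth : IsNoetherianRing A := Algebra.FiniteType.isNoetherianRing ℤ A
  have hfin : (minimalPrimes A).Finite := minimalPrimes.finite_of_isNoetherianRing A
  have : Finite (minimalPrimes A) := hfin
  have h1 : HasTrees.{v, u} G (⋂ P : minimalPrimes A, {g | IsIntegral ℤ
      ((Ideal.Quotient.mk P.1).mapMatrix (rho g : Matrix (Fin 2) (Fin 2) A) :
        Matrix (Fin 2) (Fin 2) (A ⧸ P.1))}) := by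
    refine HasTrees.iInter fun P => ?_
    have hP : P.1.IsPrime := P.2.1.1
    have hft : @Algebra.FiniteType ℤ (A ⧸ P.1) _ _ (Ring.toIntAlgebra _) :=
      Algebra.FiniteType.of_surjective (Ideal.Quotient.mk P.1).toIntAlgHom
        Ideal.Quotient.mk_surjective
    have hN' : ((N : ℕ) : A ⧸ P.1) = 0 := by
      rw [← map_natCast (Ideal.Quotient.mk P.1), hA, map_zero]
    exact dom_trees (A ⧸ P.1) N hN hN' G ((Matrix.GeneralLinearGroup.map (Ideal.Quotient.mk P.1)).comp rho)
  refine h1.mono fun g hg => ?_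
  rw [Set.mem_iInter] at hg
  exact integral_of_minimalPrimes _ fun P hP => hg ⟨P, hP⟩

/-- A finitely generated torsionfree group of invertible `2 × 2` matrices over a commutative ring
of positive characteristic acts freely on a finite product of trees. -/
theorem lin_trees (A : Type u) [CommRing A] (N : ℕ) (hN : 0 < N) (hA : (N : A) = 0)
    (G : Type v) [Group G] [Group.FG G] (rho : G →* GL (Fin 2) A)
    (hrho : Function.Injective rho) (htf : ∀ g : G, IsOfFinOrder g → g = 1) :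
    HasTrees.{v, u} G {1} := by
  obtain ⟨A', hA', rho', hr⟩ := exists_fg_subring rho
  have hN' : ((N : ℕ) : A') = 0 := by
    apply Subtype.ext
    simpa using hA
  have hinj : Function.Injective rho' := by
    intro g h hgh
    apply hrho
    rw [← hr, ← hr, hgh]
  refine (ring_trees A' N hN hN' G rho').mono fun g hg => ?_
  have h1 : ((N : ℕ) : Matrix (Fin 2) (Fin 2) A') = 0 := by
    have h2 : ((N : ℕ) : Matrix (Fin 2) (Fin 2) A') = algebraMap A' _ ((N : ℕ) : A') :=
      (map_natCast _ _).symm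
    rw [h2, hN', map_zero]
  have h2 : IsOfFinOrder (rho' g) := isOfFinOrder_of_integral N hN h1 (rho' g) hg
  exact htf g ((Function.Injective.isOfFinOrder_iff hinj).1 h2)

end Pool.Agent.Lib.MP_c052b4_al.MT.L
end
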