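import Mathlib

section

/-!
# Homotopies (TREES^n, helper78)
-/

set_option autoImplicit false
set_option linter.unusedVariables false

namespace Pool.Agent.Lib.MP_c052b4_al.MT

open CategoryTheory CategoryTheory.Limits

universe v u

variable {V : Type u} [Category.{v} V] [Preadditive V]

/-- A chain map which is zero in the homotopy category.

PROOF. `HomotopyCategory.homotopyOfEq f 0` (after `Functor.map_zero`) is a `Homotopy f 0`; take
`k n = H.hom (n + 1) n`; at degree `n + 1`, `Homotopy.comm` with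
`dNext_eq`, `prevD_eq` (relations `n + 1 + 1`, `n`). -/
theorem exists_homotopy_of_map_zero {K K' : CochainComplex V ℤ} (f : K ⟶ K')
    (h : (HomotopyCategory.quotient V (ComplexShape.up ℤ)).map f = 0) :
    ∃ k : ∀ n, K.X (n + 1) ⟶ K'.X n, ∀ n,
      f.f (n + 1) = k n ≫ K'.d n (n + 1) + K.d (n + 1) (n + 1 + 1) ≫ k (n + 1) := by
  have H : Homotopy f 0 := HomotopyCategory.homotopyOfEq f 0 (by rw [h, Functor.map_zero])
  refine ⟨fun n => H.hom (n + 1) n, fun n => ?_⟩
  have hc := H.comm (n + 1)
  rw [dNext_eq H.hom (show (ComplexShape.up ℤ).Rel (n + 1) (n + 1 + 1) from rfl),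
    prevD_eq H.hom (show (ComplexShape.up ℤ).Rel n (n + 1) from rfl)] at hc
  rw [hc]
  simp [add_comm]

/-- The converse.

PROOF. Homotopy with `hom i j = if h : j + 1 = i then eqToHom ≫ k j else 0`
(or `Homotopy.nullHomotopicMap'`, `Homotopy.nullHomotopy'`); then `HomotopyCategory.eq_of_homotopy`.
Every degree is of the form `n + 1`. -/
theorem map_zero_of_homotopy {K K' : CochainComplex V ℤ} (f : K ⟶ K')
    (k : ∀ n, K.X (n + 1) ⟶ K'.X n)
    (h : ∀ n, f.f (n + 1) = k n ≫ K'.d n (n + 1) + K.d (n + 1) (n + 1 + 1) ≫ k (n + 1)) :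
    (HomotopyCategory.quotient V (ComplexShape.up ℤ)).map f = 0 := by
  have H : Homotopy f 0 :=
    { hom := fun i j => if hij : j + 1 = i then eqToHom (by rw [hij]) ≫ k j else 0
      zero := fun i j hij => by
        rw [dif_neg]
        exact fun e => hij e
      comm := fun i => by
        obtain ⟨n, rfl⟩ : ∃ n, n + 1 = i := ⟨i - 1, by ring⟩
        rw [dNext_eq _ (show (ComplexShape.up ℤ).Rel (n + 1) (n + 1 + 1) from rfl),
          prevD_eq _ (show (ComplexShape.up ℤ).Rel n (n + 1) from rfl)]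
        simp only [dite_true, eqToHom_refl, Category.id_comp, HomologicalComplex.zero_f_apply,
          add_zero]
        rw [h n]; exact add_comm (k n ≫ K'.d n (n + 1)) _ }
  have := HomotopyCategory.eq_of_homotopy f 0 H
  rw [this, Functor.map_zero]

end Pool.Agent.Lib.MP_c052b4_al.MT
end

section

/-!
# Lemmas on pretriangulated categories (TREES^n, helper78)
-/

set_option autoImplicit false

namespace Pool.Agent.Lib.MP_c052b4_al.MT

open CategoryTheory CategoryTheory.Limits CategoryTheory.Pretriangulated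

universe v u

variable {C : Type u} [Category.{v} C] [HasZeroObject C] [HasShift C ℤ] [Preadditive C]
  [∀ n : ℤ, (shiftFunctor C n).Additive] [Pretriangulated C]

/-- Replace the third object of a distinguished triangle. -/
theorem tri_iso₃ {X Y Z Z' : C} (f : X ⟶ Y) (g : Y ⟶ Z) (h : Z ⟶ X⟦(1 : ℤ)⟧)
    (hT : Triangle.mk f g h ∈ distTriang C) (e : Z ≅ Z') :
    Triangle.mk f (g ≫ e.hom) (e.inv ≫ h) ∈ distTriang C := by
  refine isomorphic_distinguished _ hT _ ?_
  exact Triangle.isoMk _ _ (Iso.refl _) (Iso.refl _) e.symm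
    ((Category.comp_id _).trans (Category.id_comp _).symm)
    (by
      change (g ≫ e.hom) ≫ e.inv = 𝟙 _ ≫ g
      rw [Category.assoc, e.hom_inv_id, Category.comp_id, Category.id_comp])
    (by
      change (e.inv ≫ h) ≫ (shiftFunctor _ (1 : ℤ)).map (𝟙 _) = e.inv ≫ h
      rw [CategoryTheory.Functor.map_id, Category.comp_id])

/-- Cone of an endomorphism which is `z` on a direct summand and the identity on the complement. -/
theorem cone_iso_of_retract {X M Cz Cf : C} (z : X ⟶ X) (f : M ⟶ M)
    (g₁ : X ⟶ Cz) (h₁ : Cz ⟶ X⟦(1 : ℤ)⟧) (g₂ : M ⟶ Cf) (h₂ : Cf ⟶ M⟦(1 : ℤ)⟧)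
    (hz : Triangle.mk z g₁ h₁ ∈ distTriang C) (hf : Triangle.mk f g₂ h₂ ∈ distTriang C)
    (i : X ⟶ M) (r : M ⟶ X) (hir : i ≫ r = 𝟙 X) (hi : z ≫ i = i ≫ f) (hr : f ≫ r = r ≫ z)
    (h1 : f - f ≫ r ≫ i = 𝟙 M - r ≫ i) : Nonempty (Cf ≅ Cz) := by
  obtain ⟨s, hs1, hs2⟩ : ∃ s : Cz ⟶ Cf, g₁ ≫ s = i ≫ g₂ ∧ h₁ ≫ i⟦(1 : ℤ)⟧' = s ≫ h₂ :=
    complete_distinguished_triangle_morphism _ _ hz hf i i hi
  obtain ⟨t, ht1, ht2⟩ : ∃ t : Cf ⟶ Cz, g₂ ≫ t = r ≫ g₁ ∧ h₂ ≫ r⟦(1 : ℤ)⟧' = t ≫ h₁ :=
    complete_distinguished_triangle_morphism _ _ hf hz r r hr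
  have hst : IsIso (s ≫ t) := by
    let T := Triangle.mk z g₁ h₁
    let φ : T ⟶ T := Triangle.homMk _ _ (𝟙 X) (𝟙 X) (s ≫ t) ((Category.comp_id z).trans (Category.id_comp z).symm)
      (by
        change g₁ ≫ s ≫ t = 𝟙 X ≫ g₁
        rw [← Category.assoc, hs1, Category.assoc, ht1, ← Category.assoc, hir])
      (by
        change h₁ ≫ (𝟙 X)⟦(1 : ℤ)⟧' = (s ≫ t) ≫ h₁
        rw [Category.assoc, ← ht2, ← Category.assoc, ← hs2, Category.assoc, ← Functor.map_comp,
          hir])
    exact isIso₃_of_isIso₁₂ φ hz hz (inferInstanceAs (IsIso (𝟙 X))) (inferInstanceAs (IsIso (𝟙 X)))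
  -- the idempotent
  have hg1 : g₂ ≫ t ≫ inv (s ≫ t) ≫ s = r ≫ i ≫ g₂ := by
    have h2 : g₁ ≫ inv (s ≫ t) = g₁ := by
      rw [IsIso.comp_inv_eq, ← Category.assoc, hs1, Category.assoc, ht1, ← Category.assoc, hir,
        Category.id_comp]
    rw [← Category.assoc g₂, ht1, Category.assoc, ← Category.assoc g₁, h2, hs1]
  have hh1 : t ≫ inv (s ≫ t) ≫ s ≫ h₂ = h₂ ≫ (r ≫ i)⟦(1 : ℤ)⟧' := by
    have h2 : inv (s ≫ t) ≫ h₁ = h₁ := by
      rw [IsIso.inv_comp_eq, Category.assoc, ← ht2, ← Category.assoc, ← hs2, Category.assoc,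
        ← Functor.map_comp, hir, CategoryTheory.Functor.map_id, Category.comp_id]
    rw [← hs2, ← Category.assoc (inv (s ≫ t)), h2, ← Category.assoc t, ← ht2, Category.assoc,
      ← Functor.map_comp]
  have hfg : f ≫ g₂ = 0 := comp_distTriang_mor_zero₁₂ _ hf
  have hhf : h₂ ≫ f⟦(1 : ℤ)⟧' = 0 := comp_distTriang_mor_zero₃₁ _ hf
  have hcomm : f ≫ r ≫ i = r ≫ i ≫ f := by
    rw [← Category.assoc, hr, Category.assoc, hi]
  let w : Cf ⟶ Cf := 𝟙 Cf - t ≫ inv (s ≫ t) ≫ s
  have hw1 : g₂ ≫ w = 0 := by
    change g₂ ≫ (𝟙 Cf - t ≫ inv (s ≫ t) ≫ s) = 0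
    rw [Preadditive.comp_sub, Category.comp_id, hg1]
    have h3 : (𝟙 M - r ≫ i) ≫ g₂ = 0 := by
      rw [← h1, hcomm]
      have : f - r ≫ i ≫ f = (𝟙 M - r ≫ i) ≫ f := by
        rw [Preadditive.sub_comp, Category.id_comp, Category.assoc]
      rw [this, Category.assoc, hfg, comp_zero]
    rw [Preadditive.sub_comp, Category.id_comp, Category.assoc] at h3
    exact h3
  have hw2 : w ≫ h₂ = 0 := by
    change (𝟙 Cf - t ≫ inv (s ≫ t) ≫ s) ≫ h₂ = 0
    rw [Preadditive.sub_comp, Category.id_comp, Category.assoc, Category.assoc, hh1]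
    have h3 : h₂ ≫ (𝟙 M - r ≫ i)⟦(1 : ℤ)⟧' = 0 := by
      have : f - f ≫ r ≫ i = f ≫ (𝟙 M - r ≫ i) := by
        rw [Preadditive.comp_sub, Category.comp_id]
      rw [← h1, this, Functor.map_comp, ← Category.assoc, hhf, zero_comp]
    rw [Functor.map_sub, CategoryTheory.Functor.map_id, Preadditive.comp_sub, Category.comp_id] at h3
    exact h3
  have hww : w ≫ w = w := by
    change (𝟙 Cf - t ≫ inv (s ≫ t) ≫ s) ≫ (𝟙 Cf - t ≫ inv (s ≫ t) ≫ s) =
      𝟙 Cf - t ≫ inv (s ≫ t) ≫ s
    have h4 : (t ≫ inv (s ≫ t) ≫ s) ≫ (t ≫ inv (s ≫ t) ≫ s) = t ≫ inv (s ≫ t) ≫ s := by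
      have : (t ≫ inv (s ≫ t) ≫ s) ≫ (t ≫ inv (s ≫ t) ≫ s) =
          t ≫ (inv (s ≫ t) ≫ (s ≫ t)) ≫ inv (s ≫ t) ≫ s := by simp only [Category.assoc]
      rw [this, IsIso.inv_hom_id, Category.id_comp]
    rw [Preadditive.sub_comp, Category.id_comp, Preadditive.comp_sub, Category.comp_id, h4,
      sub_self, sub_zero]
  obtain ⟨v, hv⟩ : ∃ v : M⟦(1 : ℤ)⟧ ⟶ Cf, w = h₂ ≫ v := Triangle.yoneda_exact₃ _ hf w hw1
  have hw0 : w = 0 := by
    rw [← hww]
    conv_lhs => rw [hv]
    have : (h₂ ≫ v) ≫ h₂ ≫ v = w ≫ h₂ ≫ v := by rw [← hv]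
    rw [this, ← Category.assoc, hw2, zero_comp]
  have h5 : t ≫ inv (s ≫ t) ≫ s = 𝟙 Cf := (sub_eq_zero.1 hw0).symm
  exact ⟨⟨t, inv (s ≫ t) ≫ s, h5, by rw [Category.assoc, IsIso.inv_hom_id]⟩⟩

/-- A map killed by `z` out of which an object is a retract factors through the cone of `z`. -/
theorem retract_cone_of_comp_zero {X M Cz : C} (z : M ⟶ M) (g : M ⟶ Cz) (h : Cz ⟶ M⟦(1 : ℤ)⟧)
    (hz : Triangle.mk z g h ∈ distTriang C) (R : Retract X M) (h0 : z ≫ R.r = 0) :
    Nonempty (Retract X Cz) := by
  obtain ⟨r', hr'⟩ := Triangle.yoneda_exact₂ _ hz R.r h0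
  refine ⟨⟨R.i ≫ g, r', ?_⟩⟩
  rw [Category.assoc]
  have : g ≫ r' = R.r := hr'.symm
  rw [this, R.retract]

/-- The step of the retract lemma. -/
theorem retract_shift_of_comp_zero {X P P' Cn : C} (ι : P ⟶ P') (g : P' ⟶ Cn)
    (h : Cn ⟶ P⟦(1 : ℤ)⟧) (hT : Triangle.mk ι g h ∈ distTriang C) (R : Retract X P)
    (h0 : R.r ≫ R.i ≫ ι = 0) : Nonempty (Retract (X⟦(1 : ℤ)⟧) Cn) := by
  have h1 : ((R.r ≫ R.i)⟦(1 : ℤ)⟧') ≫ (Triangle.mk ι g h).mor₁⟦(1 : ℤ)⟧' = 0 := by
    rw [← Functor.map_comp]
    change (shiftFunctor C (1 : ℤ)).map ((R.r ≫ R.i) ≫ ι) = 0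
    rw [Category.assoc, h0, Functor.map_zero]
  obtain ⟨t, ht⟩ : ∃ t : P⟦(1 : ℤ)⟧ ⟶ Cn, (R.r ≫ R.i)⟦(1 : ℤ)⟧' = t ≫ h :=
    Triangle.coyoneda_exact₁ _ hT _ h1
  refine ⟨⟨(R.i⟦(1 : ℤ)⟧') ≫ t, h ≫ (R.r⟦(1 : ℤ)⟧'), ?_⟩⟩
  rw [Category.assoc, ← Category.assoc t, ← ht, ← Functor.map_comp, ← Functor.map_comp,
    Category.assoc, R.retract, Category.comp_id, R.retract, CategoryTheory.Functor.map_id]

/-- Cones of the powers of an endomorphism. -/
theorem cone_pow [IsTriangulated C] (P : ObjectProperty C) [P.IsTriangulatedClosed₂]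
    [P.IsClosedUnderIsomorphisms] [P.ContainsZero] {M Cz : C} (z : M ⟶ M) (g : M ⟶ Cz)
    (h : Cz ⟶ M⟦(1 : ℤ)⟧) (hz : Triangle.mk z g h ∈ distTriang C) (hP : P Cz)
    (f : ℕ → (M ⟶ M)) (hf0 : f 0 = 𝟙 M) (hf : ∀ n, f (n + 1) = f n ≫ z) (n : ℕ) :
    ∀ {Cn : C} (g' : M ⟶ Cn) (h' : Cn ⟶ M⟦(1 : ℤ)⟧)
      (_ : Triangle.mk (f n) g' h' ∈ distTriang C), P Cn := by
  induction n with
  | zero =>
    intro Cn g' h' hn
    rw [hf0] at hn
    have h1 : IsZero Cn := (Triangle.isZero₃_iff_isIso₁ _ hn).2 (inferInstanceAs (IsIso (𝟙 M)))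
    obtain ⟨Z, hZ, hPZ⟩ := P.exists_prop_of_containsZero
    exact P.prop_of_iso (hZ.iso h1) hPZ
  | succ n ih =>
    intro Cn g' h' hn
    obtain ⟨C1, g1, h1, hT1⟩ := distinguished_cocone_triangle (f n)
    have o := Triangulated.someOctahedron (hf n).symm hT1 hz hn
    exact P.ext_of_isTriangulatedClosed₂ _ o.mem (ih g1 h1 hT1) hP

end Pool.Agent.Lib.MP_c052b4_al.MT
end

section

/-!
# TREES^n, section 4, B03: dévissage along the homology
-/

set_option autoImplicit false
set_option linter.unusedVariables false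

namespace Pool.Agent.Lib.MP_c052b4_al.MT

open CategoryTheory Limits Pretriangulated

universe w v u

variable {C : Type u} [Category.{v} C] [Abelian C] [HasDerivedCategory.{w} C]

/-- an object with zero homology is zero -/
theorem b03_isZero (X : DerivedCategory C)
    (h : ∀ i : ℤ, IsZero ((DerivedCategory.homologyFunctor C i).obj X)) : IsZero X := by
  have h1 : IsIso (0 : X ⟶ X) := by
    rw [DerivedCategory.isIso_iff]
    intro n
    rw [show (DerivedCategory.homologyFunctor C n).map (0 : X ⟶ X) =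
      𝟙 ((DerivedCategory.homologyFunctor C n).obj X) from (h n).eq_of_src _ _]
    infer_instance
  rw [IsZero.iff_id_eq_zero, ← IsIso.hom_inv_id (0 : X ⟶ X), zero_comp]

/-- the induction -/
theorem b03_ind (P : ObjectProperty (DerivedCategory C)) [P.IsTriangulated]
    [P.IsClosedUnderIsomorphisms] (n : ℕ) : ∀ (X : DerivedCategory C) (a b : ℤ),
    b < a + n → X.IsGE a → X.IsLE b →
    (∀ q : ℤ, P ((DerivedCategory.singleFunctor C 0).obj
      ((DerivedCategory.homologyFunctor C q).obj X))) → P X := by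
  induction n with
  | zero =>
    intro X a b hab ha hb h
    refine P.prop_of_isZero (b03_isZero X fun i => ?_)
    rcases lt_or_ge i a with h1 | h1
    · exact X.isZero_of_isGE a i h1
    · exact X.isZero_of_isLE b i (by push_cast at hab; omega)
  | succ n ih =>
    intro X a b hab ha hb h
    obtain ⟨X', X'', hX', hX'', f, g, δ, hT⟩ :=
      (DerivedCategory.TStructure.t (C := C)).exists_triangle X (b - 1) b (by omega)
    have e1 : X'.IsLE (b - 1) := ⟨hX'⟩
    have e2 : X''.IsGE b := ⟨hX''⟩
    have k1 : ∀ i : ℤ, i < b → IsIso ((DerivedCategory.homologyFunctor C i).map f) := by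
      intro i hi
      have hm : Mono ((DerivedCategory.homologyFunctor C i).map f) :=
        (DerivedCategory.HomologySequence.mono_homologyMap_mor₁_iff _ hT (i - 1) i (by omega)).2
          ((X''.isZero_of_isGE b (i - 1) (by omega)).eq_of_src _ _)
      have he : Epi ((DerivedCategory.homologyFunctor C i).map f) :=
        (DerivedCategory.HomologySequence.epi_homologyMap_mor₁_iff _ hT i).2
          ((X''.isZero_of_isGE b i hi).eq_of_tgt _ _)
      exact isIso_of_mono_of_epi _
    have k2 : ∀ i : ℤ, b ≤ i → IsIso ((DerivedCategory.homologyFunctor C i).map g) := by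
      intro i hi
      have hm : Mono ((DerivedCategory.homologyFunctor C i).map g) :=
        (DerivedCategory.HomologySequence.mono_homologyMap_mor₂_iff _ hT i).2
          ((X'.isZero_of_isLE (b - 1) i (by omega)).eq_of_src _ _)
      have he : Epi ((DerivedCategory.homologyFunctor C i).map g) :=
        (DerivedCategory.HomologySequence.epi_homologyMap_mor₂_iff _ hT i (i + 1) rfl).2
          ((X'.isZero_of_isLE (b - 1) (i + 1) (by omega)).eq_of_tgt _ _)
      exact isIso_of_mono_of_epi _
    have hP' : P X' := by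
      refine ih X' a (b - 1) (by push_cast at hab; omega) ?_ e1 fun q => ?_
      · rw [DerivedCategory.isGE_iff]
        intro i hi
        rcases lt_or_ge i b with h1 | h1
        · have := k1 i h1
          exact (X.isZero_of_isGE a i hi).of_iso
            (asIso ((DerivedCategory.homologyFunctor C i).map f))
        · exact X'.isZero_of_isLE (b - 1) i (by omega)
      · rcases lt_or_ge q b with h1 | h1
        · have := k1 q h1
          exact P.prop_of_iso ((DerivedCategory.singleFunctor C 0).mapIso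
            (asIso ((DerivedCategory.homologyFunctor C q).map f))).symm (h q)
        · exact P.prop_of_isZero ((DerivedCategory.singleFunctor C 0).map_isZero
            (X'.isZero_of_isLE (b - 1) q (by omega)))
    have hP'' : P X'' := by
      have e3 : X''.IsLE b := by
        rw [DerivedCategory.isLE_iff]
        intro i hi
        have := k2 i hi.le
        exact (X.isZero_of_isLE b i hi).of_iso
          (asIso ((DerivedCategory.homologyFunctor C i).map g)).symm
      obtain ⟨Y, ⟨e⟩⟩ := X''.exists_iso_singleFunctor_obj_of_isGE_of_isLE b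
      have hk := k2 b le_rfl
      have e4 : (DerivedCategory.homologyFunctor C b).obj X ≅ Y :=
        asIso ((DerivedCategory.homologyFunctor C b).map g) ≪≫
          (DerivedCategory.homologyFunctor C b).mapIso e ≪≫
          (DerivedCategory.singleFunctorCompHomologyFunctorIso C b).app Y
      have h2 : P ((DerivedCategory.singleFunctor C 0).obj Y) :=
        P.prop_of_iso ((DerivedCategory.singleFunctor C 0).mapIso e4) (h b)
      have e5 : ((DerivedCategory.singleFunctor C b).obj Y)⟦b⟧ ≅
          (DerivedCategory.singleFunctor C 0).obj Y :=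
        ((DerivedCategory.singleFunctors C).shiftIso b 0 b (add_zero b)).app Y
      have h3 : P (((DerivedCategory.singleFunctor C b).obj Y)⟦b⟧) := P.prop_of_iso e5.symm h2
      rw [P.prop_shift_iff_of_isStableUnderShift] at h3
      exact P.prop_of_iso e.symm h3
    exact P.ext_of_isTriangulatedClosed₂ _ hT hP' hP''

/-- **Dévissage**. A triangulated property which holds for the complexes `H_q(X)` (in degree `0`),
for all `q`, holds for the bounded object `X`.
Proof: let `X` be `≥ a` and `≤ b`, induction on `(b - a).toNat` (for all `X`). If `b < a` then `X` is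
zero. Otherwise `TStructure.t.exists_triangle X (b - 1) b` gives a distinguished triangle
`X' → X → X'' → X'⟦1⟧` with `X'` being `≤ b - 1` and `X''` being `≥ b`. The long exact homology
sequence gives: `X'` is `≥ a` and `H_q(X') ≅ H_q(X)` for `q < b`; `X''` is `≤ b` and
`H_b(X'') ≅ H_b(X)`. By induction `P X'`. `X''` is concentrated in degree `b`:
`exists_iso_singleFunctor_obj_of_isGE_of_isLE` gives `X'' ≅ (singleFunctor C b).obj Y`, so
`Y ≅ H_b(X'') ≅ H_b(X)`, and `(singleFunctor C b).obj Y` is a shift of `(singleFunctor C 0).obj Y`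
(`SingleFunctors.shiftIso`). Hence `P X''`, and `P X` as `P` is closed under extensions. -/
theorem prop_of_homology (P : ObjectProperty (DerivedCategory C)) [P.IsTriangulated]
    [P.IsClosedUnderIsomorphisms] (X : DerivedCategory C)
    (hX : (DerivedCategory.TStructure.t (C := C)).bounded X)
    (h : ∀ q : ℤ, P ((DerivedCategory.singleFunctor C 0).obj
      ((DerivedCategory.homologyFunctor C q).obj X))) : P X := by
  obtain ⟨⟨a, ha⟩, ⟨b, hb⟩⟩ := hX
  exact b03_ind P (b - a + 1).toNat X a b (by omega) ha hb h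

end Pool.Agent.Lib.MP_c052b4_al.MT
end

section

/-!
# TREES^n, section 4, B01: homology in a Serre class
-/

set_option autoImplicit false
set_option linter.unusedVariables false

namespace Pool.Agent.Lib.MP_c052b4_al.MT

open CategoryTheory Limits Pretriangulated

universe w v u

variable {C : Type u} [Category.{v} C] [Abelian C] [HasDerivedCategory.{w} C]

/-- The objects of the derived category all of whose homology objects satisfy `P`. -/
def HIn (P : ObjectProperty C) : ObjectProperty (DerivedCategory C) :=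
  fun X => ∀ q : ℤ, P ((DerivedCategory.homologyFunctor C q).obj X)

/-- Retracts: a retract of `X` gives a retract on homology, and a Serre class is closed under
subobjects (`prop_of_mono`). -/
instance hIn_retracts (P : ObjectProperty C) [P.IsSerreClass] : (HIn P).IsStableUnderRetracts where
  of_retract {X Y} r h q := by
    have r' := r.map (DerivedCategory.homologyFunctor C q)
    exact P.prop_of_mono r'.i (h q)

open ZeroObject in
/-- `HIn P` is a triangulated subcategory, for a Serre class `P`.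
Proof: zero object: homology is zero. Shifts: `H_q(X⟦n⟧) ≅ H_{q+n}(X)`
(`DerivedCategory.shift_homologyFunctor` or the shift sequence of `homologyFunctor`). Triangles
(`IsTriangulatedClosed₂`, via `mk'` if convenient): for a distinguished triangle `X₁ → X₂ → X₃` the
sequence `H_q X₁ → H_q X₂ → H_q X₃` is exact (`homologyFunctor` is homological), now
`ObjectProperty.prop_X₂_of_exact`. -/
instance hIn_triangulated (P : ObjectProperty C) [P.IsSerreClass] : (HIn P).IsTriangulated where
  exists_zero := by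
    refine ⟨0, isZero_zero _, fun q => ?_⟩
    exact P.prop_of_isZero ((DerivedCategory.homologyFunctor C q).map_isZero (isZero_zero _))
  isStableUnderShiftBy n :=
    { le_shift := by
        intro X hX q
        exact P.prop_of_iso (((DerivedCategory.homologyFunctor C 0).shiftIso n q (q + n)
          (by rw [add_comm])).app X).symm (hX (q + n)) }
  ext₂' T hT h₁ h₃ := by
    refine ObjectProperty.le_isoClosure _ _ (fun q => ?_)
    exact P.prop_X₂_of_exact (DerivedCategory.HomologySequence.exact₂ T hT q) (h₁ q) (h₃ q)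

/-- Bounded objects: a retract of a bounded object is bounded (`isGE_iff`, `isLE_iff`: homology of a
retract is a retract of the homology, and a retract of a zero object is zero). -/
instance bounded_retracts :
    (DerivedCategory.TStructure.t (C := C)).bounded.IsStableUnderRetracts where
  of_retract {X Y} r h := by
    have hz : ∀ q : ℤ, IsZero ((DerivedCategory.homologyFunctor C q).obj Y) →
        IsZero ((DerivedCategory.homologyFunctor C q).obj X) := by
      intro q hq
      have r' := r.map (DerivedCategory.homologyFunctor C q)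
      exact hq.of_mono r'.i
    obtain ⟨⟨a, ha⟩, ⟨b, hb⟩⟩ := h
    refine ⟨⟨a, ?_⟩, ⟨b, ?_⟩⟩
    · have ha' : Y.IsGE a := ha
      have : X.IsGE a := by
        rw [DerivedCategory.isGE_iff] at ha' ⊢
        exact fun i hi => hz i (ha' i hi)
      exact this
    · have hb' : Y.IsLE b := hb
      have : X.IsLE b := by
        rw [DerivedCategory.isLE_iff] at hb' ⊢
        exact fun i hi => hz i (hb' i hi)
      exact this

end Pool.Agent.Lib.MP_c052b4_al.MT
end

section

/-!
# TREES^n, section 4, E04: general facts about homology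
-/

set_option autoImplicit false
set_option linter.unusedVariables false

namespace Pool.Agent.Lib.MP_c052b4_al.MT

open CategoryTheory Limits

universe v u v' u'

variable {C : Type u} [Category.{v} C] [Abelian C] {D : Type u'} [Category.{v'} D] [Abelian D]

/-- In a short exact sequence of complexes the third complex is acyclic if and only if the first map
is a quasi-isomorphism (long exact homology sequence: `ShortComplex.ShortExact.homology_exact₁` etc.
in `Mathlib.Algebra.Homology.HomologySequence`). -/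
theorem acyclic_iff_isIso (T : ShortComplex (CochainComplex C ℤ)) (hT : T.ShortExact) :
    T.X₃.Acyclic ↔ ∀ q : ℤ, IsIso (HomologicalComplex.homologyMap T.f q) := by
  constructor
  · intro h q
    have hz : ∀ i, IsZero (T.X₃.homology i) := fun i =>
      (HomologicalComplex.exactAt_iff_isZero_homology _ _).1 (h i)
    have h1 : Mono (HomologicalComplex.homologyMap T.f q) :=
      (hT.homology_exact₁ (q - 1) q (by simp)).mono_g ((hz (q - 1)).eq_of_src _ _)
    have h2 : Epi (HomologicalComplex.homologyMap T.f q) :=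
      (hT.homology_exact₂ q).epi_f ((hz q).eq_of_tgt _ _)
    exact isIso_of_mono_of_epi _
  · intro h
    have : QuasiIso T.f := ⟨fun i => by
      rw [quasiIsoAt_iff_isIso_homologyMap]
      exact h i⟩
    exact hT.acyclic_X₃ this

/-- An object of the derived category is zero iff its homology objects are zero (`isGE_iff`,
`isLE_iff`, `TStructure.isZero`). -/
theorem isZero_iff_homology [HasDerivedCategory C] (X : DerivedCategory C) :
    IsZero X ↔ ∀ q : ℤ, IsZero ((DerivedCategory.homologyFunctor C q).obj X) := by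
  constructor
  · intro h q
    exact Functor.map_isZero _ h
  · intro h
    obtain ⟨Z, hZ⟩ := (inferInstance : HasZeroObject (DerivedCategory C)).zero
    have h1 : IsIso (0 : X ⟶ Z) := by
      rw [DerivedCategory.isIso_iff]
      intro q
      have hz : IsZero ((DerivedCategory.homologyFunctor C q).obj Z) :=
        Functor.map_isZero _ hZ
      exact ⟨0, (h q).eq_of_src _ _, hz.eq_of_src _ _⟩
    exact hZ.of_iso (asIso (0 : X ⟶ Z))

/-- `Q.obj K` is zero if and only if `K` is acyclic. -/
theorem isZero_Q_iff [HasDerivedCategory C] (K : CochainComplex C ℤ) :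
    IsZero (DerivedCategory.Q.obj K) ↔ K.Acyclic := by
  rw [isZero_iff_homology, HomologicalComplex.acyclic_iff]
  refine forall_congr' fun q => ?_
  rw [HomologicalComplex.exactAt_iff_isZero_homology]
  exact ((DerivedCategory.homologyFunctorFactors C q).app K).isZero_iff

end Pool.Agent.Lib.MP_c052b4_al.MT
end
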