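import Pool.Agent.Lib.MP_c052b4_al.Mg.G011
import Pool.Agent.Lib.MP_c052b4_al.Mg.G020
import Pool.Agent.Lib.MP_c052b4_al.Mg.G023
import Pool.Agent.Lib.MP_c052b4_al.Mg.G027

section

/-!
# Choice of labels (TREES^n, helper78)
-/

set_option autoImplicit false
set_option linter.unusedVariables false

namespace Pool.Agent.Lib.MP_c052b4_al.MT

open CategoryTheory

universe u

variable {S : Type u} [Ring S] {G : Type u} [Group G]

/-- Upper bounds of finite sets.

PROOF. `Set.Finite.induction_on`, `Y.ne`, `Y.dir`. -/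
theorem Dir.exists_ub (Y : Dir G) (s : Set Y.Y) (hs : s.Finite) : ∃ z : Y.Y, ∀ y ∈ s, y ≤ z := by
  induction s, hs using Set.Finite.induction_on with
  | empty =>
    obtain ⟨z⟩ := Y.ne
    exact ⟨z, fun y hy => absurd hy (Set.notMem_empty y)⟩
  | insert _ _ ih =>
    rename_i a s _ _
    obtain ⟨z, hz⟩ := ih
    obtain ⟨z', h1, h2⟩ := Y.dir a z
    refine ⟨z', fun y hy => ?_⟩
    rcases hy with rfl | hy
    · exact h1
    · exact le_trans (hz y hy) h2

/-- The group elements in a matrix with finitely many rows are finitely many.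

PROOF. Union over the finitely many `i`, over `j` in the support of `f (Finsupp.single i 1)`
of the support of the coefficient. -/
theorem supp_finite {I J : Type u} [Finite I] (f : LM S G I J) :
    {g : G | ∃ i j, ((f (Finsupp.single i 1)) j).coeff g ≠ 0}.Finite := by
  classical
  have h : {g : G | ∃ i j, ((f (Finsupp.single i 1)) j).coeff g ≠ 0} ⊆
      ⋃ i : I, ⋃ j ∈ (f (Finsupp.single i 1)).support,
        (((f (Finsupp.single i 1)) j).coeff.support : Set G) := by
    rintro g ⟨i, j, hg⟩
    refine Set.mem_iUnion.2 ⟨i, Set.mem_iUnion₂.2 ⟨j, ?_, ?_⟩⟩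
    · rw [Finsupp.mem_support_iff]
      intro h0
      exact hg (by rw [h0]; rfl)
    · exact Finset.mem_coe.2 (Finsupp.mem_support_iff.2 hg)
  refine Set.Finite.subset (Set.finite_iUnion fun i => ?_) h
  exact Set.Finite.biUnion (Finset.finite_toSet _) fun j _ => Finset.finite_toSet _

/-- The same for a bounded family.

PROOF. For `|n| ≤ N` finitely many `n` (`Set.finite_Icc`), for the others `E.I n` is empty. -/
theorem GC.supp_finite' {E : GC S G} (hE : E.Fin') {J : ℤ → Type u}
    (f : ∀ n, LM S G (E.I n) (J n)) {Z : Type u} (q : ∀ n, E.I n → J n → G → Z) :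
    {z : Z | ∃ n i j g, ((f n (Finsupp.single i 1)) j).coeff g ≠ 0 ∧ z = q n i j g}.Finite := by
  classical
  obtain ⟨hfin, N, hN⟩ := hE
  have key : ∀ n, {z : Z | ∃ i j g, ((f n (Finsupp.single i 1)) j).coeff g ≠ 0 ∧
      z = q n i j g}.Finite := by
    intro n
    have := hfin n
    have h : {z : Z | ∃ i j g, ((f n (Finsupp.single i 1)) j).coeff g ≠ 0 ∧ z = q n i j g} ⊆
        ⋃ i : E.I n, ⋃ j ∈ (f n (Finsupp.single i 1)).support,
          ((q n i j) '' (((f n (Finsupp.single i 1)) j).coeff.support : Set G)) := by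
      rintro z ⟨i, j, g, hg, rfl⟩
      refine Set.mem_iUnion.2 ⟨i, Set.mem_iUnion₂.2 ⟨j, ?_, ?_⟩⟩
      · rw [Finsupp.mem_support_iff]
        intro h0
        exact hg (by rw [h0]; rfl)
      · exact ⟨g, Finset.mem_coe.2 (Finsupp.mem_support_iff.2 hg), rfl⟩
    refine Set.Finite.subset (Set.finite_iUnion fun i => ?_) h
    exact Set.Finite.biUnion (Finset.finite_toSet _) fun j _ =>
      (Finset.finite_toSet _).image _
  refine Set.Finite.subset (Set.Finite.biUnion (Set.finite_Icc (-N) N) fun n _ => key n) ?_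
  rintro z ⟨n, i, j, g, hg, rfl⟩
  refine Set.mem_iUnion₂.2 ⟨n, ?_, ⟨i, j, g, hg, rfl⟩⟩
  by_contra hn
  refine (hN n ?_).false i
  rw [Set.mem_Icc, not_and_or, not_le, not_le] at hn
  rcases hn with hn | hn
  · exact lt_of_lt_of_le (by omega) (neg_le_abs n)
  · exact lt_of_lt_of_le hn (le_abs_self n)

/-- Choice of labels.

PROOF. Let `N ≥ 0` with `E.I n` empty for `n < -N`. Define `a : ℕ → Y.Y` by recursion: `a 0 = y`,
`a (k + 1)` = an upper bound of the finite set
`{y} ∪ {g⁻¹ • a k | ∃ i j, ((E.d (k - N) (single i 1)) j).coeff g ≠ 0}` (`Dir.exists_ub`,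
`supp_finite`; use `Classical.choose`), and `lam n = a (n + N).toNat`. For `-N ≤ n` we have
`(n + 1 + N).toNat = (n + N).toNat + 1` and `((n + N).toNat : ℤ) - N = n`; then
`g⁻¹ • lam n ≤ lam (n + 1)` gives `lam n ≤ g • lam (n + 1)` by `Y.mono g` and `smul_inv_smul`.
For `n < -N` there is no `i`. (To avoid the cast `(k - N)`, quantify over all `n` with `n + N = k` in the
definition of the set.) -/
theorem GC.choose_lam {E : GC S G} (hE : E.Fin') (Y : Dir G) (y : Y.Y) :
    ∃ lam : ℤ → Y.Y, (∀ n, y ≤ lam n) ∧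
      ∀ n i j g, ((E.d n (Finsupp.single i 1)) j).coeff g ≠ 0 → lam n ≤ g • lam (n + 1) := by
  classical
  obtain ⟨N, hN⟩ := hE.2
  have hS : ∀ (k : ℕ) (z : Y.Y), ({y} ∪ {w : Y.Y | ∃ n, n + N = k ∧ ∃ i j g,
      ((E.d n (Finsupp.single i 1)) j).coeff g ≠ 0 ∧ w = g⁻¹ • z}).Finite := by
    intro k z
    refine (Set.finite_singleton y).union ?_
    refine Set.Finite.subset (GC.supp_finite' hE (J := fun n => E.I (n + 1)) (fun n => E.d n)
      (fun n i j g => g⁻¹ • z)) ?_
    rintro w ⟨n, -, i, j, g, hg, rfl⟩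
    exact ⟨n, i, j, g, hg, rfl⟩
  choose F hF using fun (k : ℕ) (z : Y.Y) => Dir.exists_ub Y _ (hS k z)
  let a : ℕ → Y.Y := fun k => Nat.rec y (fun k z => F k z) k
  have ha0 : a 0 = y := rfl
  have ha1 : ∀ k, a (k + 1) = F k (a k) := fun k => rfl
  refine ⟨fun n => a (n + N).toNat, fun n => ?_, fun n i j g hg => ?_⟩
  · change y ≤ a (n + N).toNat
    rcases (n + N).toNat with _ | k
    · exact le_refl y
    · rw [ha1]
      exact hF k (a k) y (Or.inl rfl)
  · change a (n + N).toNat ≤ g • a (n + 1 + N).toNat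
    have hn : |n| ≤ N := by
      by_contra hn
      exact (hN n (not_le.1 hn)).false i
    have h0 : 0 ≤ n + N := by
      have := neg_le_abs n
      omega
    have h1 : (n + 1 + N).toNat = (n + N).toNat + 1 := by omega
    have h2 : g⁻¹ • a (n + N).toNat ≤ a (n + 1 + N).toNat := by
      rw [h1, ha1]
      exact hF _ _ _ (Or.inr ⟨n, (Int.toNat_of_nonneg h0).symm, i, j, g, hg, rfl⟩)
    have h3 := Y.mono g h2
    rwa [smul_inv_smul] at h3

end Pool.Agent.Lib.MP_c052b4_al.MT
end

section

/-!
# Clearing denominators (TREES^n)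
-/

set_option autoImplicit false
set_option linter.unusedVariables false

namespace Pool.Agent.Lib.MP_c052b4_al.MT

open CategoryTheory CategoryTheory.Limits

universe u

variable {R : Type u} [Ring R] {G : Type u} [Group G] {L : Lbl G}

section LocHomAux

open VCat

/-- powers of a central element are central -/
private theorem lochom_pow_central {S : Type u} [Ring S] {s : S} (hs : ∀ x, s * x = x * s) (k : ℕ) :
    ∀ x, s ^ k * x = x * s ^ k := fun x => ((show Commute s x from hs x).pow_left k).eq

/-- The polynomial obtained by clearing denominators. -/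
private noncomputable def lochomP (k : ℕ) (x : LaurentPolynomial R) : Polynomial R :=
  open Classical in
  if h : ∃ p : Polynomial R, Polynomial.toLaurent p =
      (Polynomial.toLaurent (Polynomial.X : Polynomial R)) ^ k * x then h.choose else 0

private theorem lochomP_spec {k : ℕ} {x : LaurentPolynomial R}
    (h : ∃ p : Polynomial R, Polynomial.toLaurent p =
      (Polynomial.toLaurent (Polynomial.X : Polynomial R)) ^ k * x) :
    Polynomial.toLaurent (lochomP k x) =
      (Polynomial.toLaurent (Polynomial.X : Polynomial R)) ^ k * x := by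
  unfold lochomP
  rw [dif_pos h]
  exact h.choose_spec

private theorem lochomP_zero (k : ℕ) : lochomP k (0 : LaurentPolynomial R) = 0 := by
  apply Polynomial.toLaurent_injective
  rw [lochomP_spec ⟨0, by rw [map_zero, mul_zero]⟩, mul_zero, map_zero]

private theorem lochomP_eventually (x : LaurentPolynomial R) :
    ∀ᶠ k in Filter.atTop, ∃ p : Polynomial R, Polynomial.toLaurent p =
      (Polynomial.toLaurent (Polynomial.X : Polynomial R)) ^ k * x := by
  obtain ⟨n, p, hp⟩ := LaurentPolynomial.exists_T_pow x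
  refine Filter.eventually_atTop.2 ⟨n, fun k hk => ?_⟩
  obtain ⟨m, rfl⟩ := Nat.exists_eq_add_of_le hk
  refine ⟨Polynomial.X ^ m * p, ?_⟩
  rw [map_mul, map_pow, hp, Polynomial.toLaurent_X]
  have h1 : (LaurentPolynomial.T (n : ℤ) : LaurentPolynomial R) = LaurentPolynomial.T 1 ^ n := by
    rw [LaurentPolynomial.T_pow, mul_one]
  rw [h1]
  have h2 : Commute ((LaurentPolynomial.T 1 : LaurentPolynomial R) ^ n) x :=
    (LaurentPolynomial.commute_T 1 x).pow_left n
  rw [add_comm n m, pow_add, mul_assoc _ _ x, h2.eq]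

/-- clearing denominators for vectors -/
private noncomputable def lochomV (k : ℕ) (Y : VCat (Polynomial R) L)
    (v : (bcObj (LaurentPolynomial R) Y).M) : Y.M :=
  Finsupp.mapRange (fun a : MonoidAlgebra (LaurentPolynomial R) G =>
    (⟨Finsupp.mapRange (lochomP k) (lochomP_zero k) a.coeff⟩ : MonoidAlgebra (Polynomial R) G))
    (by
      apply MonoidAlgebra.coeff_injective
      refine Finsupp.ext fun g => ?_
      exact lochomP_zero k) v

private theorem lochomV_coeff (k : ℕ) (Y : VCat (Polynomial R) L)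
    (v : (bcObj (LaurentPolynomial R) Y).M) (i : Y.I) (g : G) :
    ((lochomV k Y v) i).coeff g = lochomP k ((v i).coeff g) := rfl

private theorem lochomV_mem (k : ℕ) (Y : VCat (Polynomial R) L)
    (v : (bcObj (LaurentPolynomial R) Y).M) {w : L.W}
    (hv : v ∈ (bcObj (LaurentPolynomial R) Y).fil w) : lochomV k Y v ∈ Y.fil w := by
  intro i g hg
  refine hv i g fun h => hg ?_
  rw [lochomV_coeff, h, lochomP_zero]

private theorem lochomV_eventually (Y : VCat (Polynomial R) L)
    (v : (bcObj (LaurentPolynomial R) Y).M) :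
    ∀ᶠ k in Filter.atTop, bcVec (Polynomial.toLaurent : Polynomial R →+* LaurentPolynomial R) Y
      (lochomV k Y v) = MonoidAlgebra.single (1 : G)
        ((Polynomial.toLaurent (Polynomial.X : Polynomial R)) ^ k) • v := by
  have h1 : ∀ᶠ k in Filter.atTop, ∀ i ∈ v.support, ∀ g ∈ (v i).coeff.support,
      ∃ p : Polynomial R, Polynomial.toLaurent p =
      (Polynomial.toLaurent (Polynomial.X : Polynomial R)) ^ k * (v i).coeff g := by
    rw [Filter.eventually_all_finset]
    intro i _
    rw [Filter.eventually_all_finset]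
    intro g _
    exact lochomP_eventually _
  filter_upwards [h1] with k hk
  refine Finsupp.ext fun i => ?_
  apply MonoidAlgebra.coeff_injective
  refine Finsupp.ext fun g => ?_
  rw [bcVec_coeff, lochomV_coeff, Finsupp.smul_apply, smul_eq_mul,
    MonoidAlgebra.coeff_single_mul_apply, inv_one, one_mul]
  by_cases hi : v i = 0
  · have h0 : (v i).coeff g = 0 := by rw [hi]; rfl
    rw [h0, lochomP_zero, map_zero, mul_zero]
  · by_cases hg : (v i).coeff g = 0
    · rw [hg, lochomP_zero, map_zero, mul_zero]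
    · exact lochomP_spec (hk i (Finsupp.mem_support_iff.2 hi) g (Finsupp.mem_support_iff.2 hg))

private theorem lochom_bcVec_inj (Y : VCat (Polynomial R) L) {v w : Y.M}
    (h : bcVec (Polynomial.toLaurent : Polynomial R →+* LaurentPolynomial R) Y v =
      bcVec (Polynomial.toLaurent : Polynomial R →+* LaurentPolynomial R) Y w) : v = w := by
  refine Finsupp.ext fun i => ?_
  apply MonoidAlgebra.coeff_injective
  refine Finsupp.ext fun g => ?_
  apply Polynomial.toLaurent_injective
  have := congrArg (fun z : (bcObj (LaurentPolynomial R) Y).M => (z i).coeff g) h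
  exact this

private theorem lochom_bc_inj {X Y : VCat (Polynomial R) L} {f g : X ⟶ Y}
    (h : bcMap (Polynomial.toLaurent : Polynomial R →+* LaurentPolynomial R) f =
      bcMap (Polynomial.toLaurent : Polynomial R →+* LaurentPolynomial R) g) : f = g := by
  refine ext_e fun i => lochom_bcVec_inj Y ?_
  rw [← lin_bcMap_e, ← lin_bcMap_e, h]

private theorem lochom_bc_comp {X Y Z : VCat (Polynomial R) L} (f : X ⟶ Y) (g : Y ⟶ Z) :
    bcMap (Polynomial.toLaurent : Polynomial R →+* LaurentPolynomial R) (f ≫ g) =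
      bcMap (Polynomial.toLaurent : Polynomial R →+* LaurentPolynomial R) f ≫
      bcMap (Polynomial.toLaurent : Polynomial R →+* LaurentPolynomial R) g :=
  (bc (Polynomial.toLaurent : Polynomial R →+* LaurentPolynomial R)).map_comp f g

private theorem lochom_bc_add {X Y : VCat (Polynomial R) L} (f g : X ⟶ Y) :
    bcMap (Polynomial.toLaurent : Polynomial R →+* LaurentPolynomial R) (f + g) =
      bcMap (Polynomial.toLaurent : Polynomial R →+* LaurentPolynomial R) f +
      bcMap (Polynomial.toLaurent : Polynomial R →+* LaurentPolynomial R) g :=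
  (bc (Polynomial.toLaurent : Polynomial R →+* LaurentPolynomial R)).map_add (f := f) (g := g)

private theorem lochom_single (A B : VCat (Polynomial R) L) (k : ℕ)
    (f : bcObj (LaurentPolynomial R) A ⟶ bcObj (LaurentPolynomial R) B)
    (hk : ∀ i : A.I, bcVec (Polynomial.toLaurent : Polynomial R →+* LaurentPolynomial R) B
      (lochomV k B (lin f ((bcObj (LaurentPolynomial R) A).e i))) =
        MonoidAlgebra.single (1 : G)
        ((Polynomial.toLaurent (Polynomial.X : Polynomial R)) ^ k) •
          (lin f ((bcObj (LaurentPolynomial R) A).e i))) :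
    ∃ g : A ⟶ B, bcMap (Polynomial.toLaurent : Polynomial R →+* LaurentPolynomial R) g =
        cen ((Polynomial.toLaurent (Polynomial.X : Polynomial R)) ^ k)
          (lochom_pow_central (zT_central R) k) _ ≫ f := by
  refine ⟨ofBasis fun i => ⟨lochomV k B
    (lin f ((bcObj (LaurentPolynomial R) A).e i)), lochomV_mem k _ _
      (lin_mem f ((bcObj (LaurentPolynomial R) A).e_mem i))⟩, ?_⟩
  refine ext_e fun i => ?_
  rw [lin_bcMap_e, lin_ofBasis_e, hk i, lin_comp, LinearMap.comp_apply, lin_cen, map_smul]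

/-- Clearing denominators for a bounded family of morphisms. -/
private theorem lochom_family (A B : ℤ → VCat (Polynomial R) L) (hA : ∀ n, Finite (A n).I)
    (hN : ∃ N : ℤ, ∀ n, N < |n| → IsEmpty (A n).I)
    (f : ∀ n, bcObj (LaurentPolynomial R) (A n) ⟶ bcObj (LaurentPolynomial R) (B n)) :
    ∃ (k : ℕ) (g : ∀ n, A n ⟶ B n), ∀ n,
      bcMap (Polynomial.toLaurent : Polynomial R →+* LaurentPolynomial R) (g n) =
        cen ((Polynomial.toLaurent (Polynomial.X : Polynomial R)) ^ k)
          (lochom_pow_central (zT_central R) k) _ ≫ f n := by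
  obtain ⟨N, hN⟩ := hN
  have h1 : ∀ᶠ k in Filter.atTop, ∀ n ∈ Finset.Icc (-N) N, ∀ i : (A n).I,
      bcVec (Polynomial.toLaurent : Polynomial R →+* LaurentPolynomial R) (B n)
      (lochomV k (B n) (lin (f n) ((bcObj (LaurentPolynomial R) (A n)).e i))) =
        MonoidAlgebra.single (1 : G)
        ((Polynomial.toLaurent (Polynomial.X : Polynomial R)) ^ k) •
          (lin (f n) ((bcObj (LaurentPolynomial R) (A n)).e i)) := by
    rw [Filter.eventually_all_finset]
    intro n _
    have := hA n
    rw [Filter.eventually_all]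
    intro i
    exact lochomV_eventually _ _
  obtain ⟨k, hk⟩ := h1.exists
  have h2 : ∀ n, ∃ g : A n ⟶ B n,
      bcMap (Polynomial.toLaurent : Polynomial R →+* LaurentPolynomial R) g =
        cen ((Polynomial.toLaurent (Polynomial.X : Polynomial R)) ^ k)
          (lochom_pow_central (zT_central R) k) _ ≫ f n := by
    intro n
    refine lochom_single _ _ k (f n) fun i => ?_
    by_cases hn : N < |n|
    · exact ((hN n hn).false i).elim
    · refine hk n ?_ i
      rw [Finset.mem_Icc]
      exact abs_le.1 (not_lt.1 hn)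
  choose g hg using h2
  exact ⟨k, g, hg⟩

private theorem lochom_cenC_one {S : Type u} [Ring S] (hs : ∀ x : S, 1 * x = x * 1)
    (K : CochainComplex (VCat S L) ℤ) : cenC 1 hs K = 𝟙 K := by
  ext n : 1
  apply hom_ext
  refine LinearMap.ext fun v => ?_
  exact one_smul _ v

private theorem lochom_cenC_mul {S : Type u} [Ring S] {s t : S} (hs : ∀ x, s * x = x * s)
    (ht : ∀ x, t * x = x * t) (hst : ∀ x, (s * t) * x = x * (s * t))
    (K : CochainComplex (VCat S L) ℤ) : cenC (s * t) hst K = cenC s hs K ≫ cenC t ht K := by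
  ext n : 1
  apply hom_ext
  refine LinearMap.ext fun v => ?_
  change MonoidAlgebra.single (1 : G) (s * t) • v =
    MonoidAlgebra.single (1 : G) t • (MonoidAlgebra.single (1 : G) s • v)
  rw [smul_smul, MonoidAlgebra.single_mul_single, mul_one, hs]

private theorem lochom_zKn {S : Type u} [Ring S] {s : S} (hs : ∀ x, s * x = x * s) (X : KV S L)
    (k : ℕ) : zKn s hs X k = (QL S L).map (cenC (s ^ k) (lochom_pow_central hs k) X.as) := by
  induction k with
  | zero =>
    rw [zKn_zero]
    have h1 : cenC (s ^ 0) (lochom_pow_central hs 0) X.as = 𝟙 X.as := by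
      simp only [pow_zero]
      exact lochom_cenC_one _ _
    rw [h1]
    rfl
  | succ k ih =>
    rw [zKn_succ, ih]
    have h1 : cenC (s ^ (k + 1)) (lochom_pow_central hs (k + 1)) X.as =
        cenC (s ^ k) (lochom_pow_central hs k) X.as ≫ cenC s hs X.as := by
      have h2 := lochom_cenC_mul (lochom_pow_central hs k) hs
        (by simpa only [pow_succ] using lochom_pow_central hs (k + 1)) X.as
      simp only [pow_succ]
      exact h2
    rw [h1, Functor.map_comp]
    rfl

/-- transfer along retracts of bounded complexes of finite objects -/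
private theorem lochom_retract {X : KV (Polynomial R) L} (hX : Dom (Polynomial R) L X) :
    ∃ (K : CochainComplex (VCat (Polynomial R) L) ℤ) (_ : FFc K)
      (i : X ⟶ (QL (Polynomial R) L).obj K) (r : (QL (Polynomial R) L).obj K ⟶ X), i ≫ r = 𝟙 X := by
  obtain ⟨Y0, ⟨K, hK, ⟨e⟩⟩, ⟨ρ⟩⟩ := Dom_le_retract X hX
  refine ⟨K, hK, ρ.i ≫ e.hom, e.inv ≫ ρ.r, ?_⟩
  rw [Category.assoc, e.hom_inv_id_assoc, ρ.retract]

private noncomputable abbrev lochomB (R : Type u) [Ring R] (L : Lbl G) :
    CochainComplex (VCat (Polynomial R) L) ℤ ⥤ CochainComplex (VCat (LaurentPolynomial R) L) ℤ :=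
  (bc (Polynomial.toLaurent : Polynomial R →+* LaurentPolynomial R)).mapHomologicalComplex
    (ComplexShape.up ℤ)

private theorem lochom_chain_step {A A₁ B B₁ : VCat (Polynomial R) L} (k : ℕ)
    (g : A ⟶ B) (g₁ : A₁ ⟶ B₁) (d : A ⟶ A₁) (d' : B ⟶ B₁)
    (f : bcObj (LaurentPolynomial R) A ⟶ bcObj (LaurentPolynomial R) B)
    (f₁ : bcObj (LaurentPolynomial R) A₁ ⟶ bcObj (LaurentPolynomial R) B₁)
    (e : f ≫ bcMap (Polynomial.toLaurent : Polynomial R →+* LaurentPolynomial R) d' =
      bcMap (Polynomial.toLaurent : Polynomial R →+* LaurentPolynomial R) d ≫ f₁)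
    (e1 : bcMap (Polynomial.toLaurent : Polynomial R →+* LaurentPolynomial R) g =
        cen ((Polynomial.toLaurent (Polynomial.X : Polynomial R)) ^ k)
          (lochom_pow_central (zT_central R) k) _ ≫ f)
    (e2 : bcMap (Polynomial.toLaurent : Polynomial R →+* LaurentPolynomial R) g₁ =
        cen ((Polynomial.toLaurent (Polynomial.X : Polynomial R)) ^ k)
          (lochom_pow_central (zT_central R) k) _ ≫ f₁) : g ≫ d' = d ≫ g₁ := by
  apply lochom_bc_inj
  rw [lochom_bc_comp, lochom_bc_comp, e1, e2, Category.assoc, e, ← Category.assoc,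
    ← Category.assoc, cen_nat]

private theorem lochom_chain (K K' : CochainComplex (VCat (Polynomial R) L) ℤ) (hK : FFc K)
    (f₀ : (lochomB R L).obj K ⟶ (lochomB R L).obj K') :
    ∃ (k : ℕ) (g₀ : K ⟶ K'), (lochomB R L).map g₀ =
      cenC ((Polynomial.toLaurent (Polynomial.X : Polynomial R)) ^ k)
        (lochom_pow_central (zT_central R) k) _ ≫ f₀ := by
  obtain ⟨k, g, hg⟩ := lochom_family K.X K'.X hK.1 hK.2 fun n => f₀.f n
  refine ⟨k, { f := g, comm' := fun i j _ => ?_ }, ?_⟩
  · exact lochom_chain_step k (g i) (g j) (K.d i j) (K'.d i j) (f₀.f i) (f₀.f j)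
      (f₀.comm i j) (hg i) (hg j)
  · ext n : 1
    exact hg n

private theorem lochom_htpy_step {A A₁ B B₁ : VCat (Polynomial R) L} (k : ℕ)
    (g : A ⟶ B) (h : bcObj (LaurentPolynomial R) A ⟶ bcObj (LaurentPolynomial R) B₁)
    (h₁ : bcObj (LaurentPolynomial R) A₁ ⟶ bcObj (LaurentPolynomial R) B)
    (d' : B₁ ⟶ B) (d : A ⟶ A₁)
    (e : bcMap (Polynomial.toLaurent : Polynomial R →+* LaurentPolynomial R) g =
      h ≫ bcMap (Polynomial.toLaurent : Polynomial R →+* LaurentPolynomial R) d' +
        bcMap (Polynomial.toLaurent : Polynomial R →+* LaurentPolynomial R) d ≫ h₁)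
    (h' : A ⟶ B₁) (h₁' : A₁ ⟶ B)
    (e1 : bcMap (Polynomial.toLaurent : Polynomial R →+* LaurentPolynomial R) h' =
        cen ((Polynomial.toLaurent (Polynomial.X : Polynomial R)) ^ k)
          (lochom_pow_central (zT_central R) k) _ ≫ h)
    (e2 : bcMap (Polynomial.toLaurent : Polynomial R →+* LaurentPolynomial R) h₁' =
        cen ((Polynomial.toLaurent (Polynomial.X : Polynomial R)) ^ k)
          (lochom_pow_central (zT_central R) k) _ ≫ h₁) :
    cen ((Polynomial.X : Polynomial R) ^ k) (lochom_pow_central (zX_central R) k) A ≫ g =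
      h' ≫ d' + d ≫ h₁' := by
  have h3 : bcMap (Polynomial.toLaurent : Polynomial R →+* LaurentPolynomial R)
      (cen ((Polynomial.X : Polynomial R) ^ k) (lochom_pow_central (zX_central R) k) A) =
      cen ((Polynomial.toLaurent (Polynomial.X : Polynomial R)) ^ k)
        (lochom_pow_central (zT_central R) k) _ := by
    refine ext_e fun i => ?_
    rw [lin_bcMap_e, lin_cen, lin_cen, LinearMap.map_smulₛₗ, bcVec_e,
      MonoidAlgebra.mapRingHom_single, map_pow]
  apply lochom_bc_inj
  rw [lochom_bc_comp, lochom_bc_add, lochom_bc_comp, lochom_bc_comp, h3, e, e1, e2,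
    Preadditive.comp_add, Category.assoc]
  congr 1
  rw [← Category.assoc, ← Category.assoc, cen_nat]

private theorem lochom_htpy (K K' : CochainComplex (VCat (Polynomial R) L) ℤ) (hK : FFc K)
    (g₀ : K ⟶ K') (h1 : (QL (LaurentPolynomial R) L).map ((lochomB R L).map g₀) = 0) :
    ∃ k : ℕ, (QL (Polynomial R) L).map
      (cenC ((Polynomial.X : Polynomial R) ^ k) (lochom_pow_central (zX_central R) k) K ≫ g₀) =
        0 := by
  obtain ⟨h, hh⟩ := exists_homotopy_of_map_zero _ h1
  obtain ⟨k, h', hh'⟩ := lochom_family (fun n => K.X (n + 1)) K'.X (fun n => hK.1 _)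
    (by
      obtain ⟨N, hN⟩ := hK.2
      refine ⟨N + 1, fun n hn => hN _ ?_⟩
      have h2 := abs_sub_abs_le_abs_sub n (-1)
      rw [abs_neg, abs_one, sub_neg_eq_add] at h2
      omega) fun n => h n
  refine ⟨k, map_zero_of_homotopy _ (fun n => h' n) fun n => ?_⟩
  exact lochom_htpy_step k (g₀.f (n + 1)) (h n) (h (n + 1)) (K'.d n (n + 1))
    (K.d (n + 1) (n + 1 + 1)) (hh n) (h' n) (h' (n + 1)) (hh' n) (hh' (n + 1))

private theorem lochom_surj0 (K : CochainComplex (VCat (Polynomial R) L) ℤ) (hK : FFc K)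
    (Y : KV (Polynomial R) L)
    (f : (kR L (Polynomial.toLaurent : Polynomial R →+* LaurentPolynomial R)).obj
      ((QL (Polynomial R) L).obj K) ⟶
      (kR L (Polynomial.toLaurent : Polynomial R →+* LaurentPolynomial R)).obj Y) :
    ∃ (k : ℕ) (g : (QL (Polynomial R) L).obj K ⟶ Y),
      (kR L (Polynomial.toLaurent : Polynomial R →+* LaurentPolynomial R)).map g =
        (kR L (Polynomial.toLaurent : Polynomial R →+* LaurentPolynomial R)).map
          (zKn Polynomial.X (zX_central R) ((QL (Polynomial R) L).obj K) k) ≫ f := by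
  obtain ⟨f₀, hf₀⟩ := (QL (LaurentPolynomial R) L).map_surjective
    (X := (lochomB R L).obj K) (Y := (lochomB R L).obj Y.as) f
  obtain ⟨k, g₀, hg⟩ := lochom_chain K Y.as hK f₀
  refine ⟨k, (QL (Polynomial R) L).map g₀, ?_⟩
  rw [kR_zKn (zX_central R) Polynomial.toLaurent (zT_central R), lochom_zKn, ← hf₀]
  refine Eq.trans ?_ ((QL (LaurentPolynomial R) L).map_comp _ _)
  exact congrArg (QL (LaurentPolynomial R) L).map hg

private theorem lochom_inj0 (K : CochainComplex (VCat (Polynomial R) L) ℤ) (hK : FFc K)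
    (Y : KV (Polynomial R) L) (g : (QL (Polynomial R) L).obj K ⟶ Y)
    (hg : (kR L (Polynomial.toLaurent : Polynomial R →+* LaurentPolynomial R)).map g = 0) :
    ∃ k : ℕ, zKn Polynomial.X (zX_central R) ((QL (Polynomial R) L).obj K) k ≫ g = 0 := by
  obtain ⟨g₀, hg₀⟩ := (QL (Polynomial R) L).map_surjective (X := K) (Y := Y.as) g
  have h1 : (QL (LaurentPolynomial R) L).map ((lochomB R L).map g₀) = 0 := by
    rw [← hg₀] at hg
    exact hg
  obtain ⟨k, hk⟩ := lochom_htpy K Y.as hK g₀ h1
  refine ⟨k, ?_⟩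
  rw [lochom_zKn, ← hg₀]
  refine ((QL (Polynomial R) L).map_comp _ _).symm.trans ?_
  exact hk

end LocHomAux

/-- Clearing denominators. PROOF for `X = Q K`, `FFc K`, `Y = Q K'`: choose a chain map `f₀` representing `f`.
For every `n` and the finitely many `i : (K.X n).I` the vector `lin (f₀.f n) (e_i)` has finitely many coefficients
(in `LaurentPolynomial R`), so for large `k` (uniform in `n`: `K` is bounded) `T k • lin (f₀.f n) (e_i) =
bcVec toLaurent (v n i)` with `v n i ∈ (K'.X n).fil ((K.X n).l i)`. Put `g n = VCat.ofBasis (v n)`; it is a chain map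
because `bcVec toLaurent` is injective (`Polynomial.toLaurent_injective`) and `T k • f₀` is one (`cen_nat`). General case: `X` is a retract of `Q K`
(`Dom_le_retract`): `f' = loc(R.r) ≫ f`, then compose with `R.i` and use `zKn_nat`. -/
theorem lochom_surj {X Y : KV (Polynomial R) L} (hX : Dom (Polynomial R) L X)
    (f : (kR L (Polynomial.toLaurent : Polynomial R →+* LaurentPolynomial R)).obj X ⟶
      (kR L (Polynomial.toLaurent : Polynomial R →+* LaurentPolynomial R)).obj Y) :
    ∃ (k : ℕ) (g : X ⟶ Y),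
      (kR L (Polynomial.toLaurent : Polynomial R →+* LaurentPolynomial R)).map g =
        (kR L (Polynomial.toLaurent : Polynomial R →+* LaurentPolynomial R)).map
          (zKn Polynomial.X (zX_central R) X k) ≫ f := by
  obtain ⟨K, hK, i, r, hir⟩ := lochom_retract hX
  obtain ⟨k, g, hg⟩ := lochom_surj0 K hK Y
    ((kR L (Polynomial.toLaurent : Polynomial R →+* LaurentPolynomial R)).map r ≫ f)
  refine ⟨k, i ≫ g, ?_⟩
  rw [Functor.map_comp, hg, ← Category.assoc, ← Category.assoc, ← Functor.map_comp,
    ← Functor.map_comp, ← zKn_nat, Category.assoc, hir, Category.comp_id]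

/-- PROOF. The same with the matrices of a homotopy (`exists_homotopy_of_map_zero`,
`map_zero_of_homotopy` in Hty.lean): `T k • h n = loc (h' n)` for a uniform `k`, then
`z^k g = h' d + d h'` by injectivity of `bcVec toLaurent`; retracts as above. -/
theorem lochom_inj {X Y : KV (Polynomial R) L} (hX : Dom (Polynomial R) L X) (g : X ⟶ Y)
    (hg : (kR L (Polynomial.toLaurent : Polynomial R →+* LaurentPolynomial R)).map g = 0) :
    ∃ k : ℕ, zKn Polynomial.X (zX_central R) X k ≫ g = 0 := by
  obtain ⟨K, hK, i, r, hir⟩ := lochom_retract hX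
  obtain ⟨k, hk⟩ := lochom_inj0 K hK Y (r ≫ g) (by rw [Functor.map_comp, hg, comp_zero])
  refine ⟨k, ?_⟩
  calc zKn Polynomial.X (zX_central R) X k ≫ g
      = zKn Polynomial.X (zX_central R) X k ≫ (i ≫ r) ≫ g := by rw [hir, Category.id_comp]
    _ = (zKn Polynomial.X (zX_central R) X k ≫ i) ≫ r ≫ g := by
        rw [Category.assoc, Category.assoc]
    _ = (i ≫ zKn Polynomial.X (zX_central R) _ k) ≫ r ≫ g := by rw [zKn_nat]
    _ = 0 := by rw [Category.assoc, hk, comp_zero]

end Pool.Agent.Lib.MP_c052b4_al.MT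
end

section

/-!
# TREES^n, section 4, C02: finite objects give functors of finite type
-/

set_option autoImplicit false
set_option linter.unusedVariables false

namespace Pool.Agent.Lib.MP_c052b4_al.MT

open CategoryTheory Opposite Limits

universe u

variable {S : Type u} [Ring S] {G : Type u} [Group G] {L : Lbl G}

/-- the basis vectors of a filtration step -/
noncomputable def c02_b (F : VCat S L) (p : F.I × G) : F.M :=
  Finsupp.single p.1 (MonoidAlgebra.single p.2 (1 : S))

/-- the index set of the basis of a filtration step -/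
def c02_T (F : VCat S L) (x : L.W) : Set (F.I × G) := {p | L.le x (p.2 • F.l p.1)}

theorem c02_T_finite (hL : TopL L) (F : VCat S L) (hF : Finite F.I) (x : L.W) :
    (c02_T F x).Finite := by
  have h1 : ∀ i : F.I, {g : G | L.le x (g • F.l i)}.Finite := by
    intro i
    refine Set.Finite.of_finite_image (f := fun g : G => g⁻¹ • x) ((hL.lower (F.l i)).subset ?_) ?_
    · rintro _ ⟨g, hg, rfl⟩
      have h2 := L.smul g⁻¹ hg
      rwa [inv_smul_smul] at h2
    · intro g hg h hh hgh
      have h3 : (h * g⁻¹) • x = x := by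
        rw [mul_smul]
        have h4 : g⁻¹ • x = h⁻¹ • x := hgh
        rw [h4, smul_inv_smul]
      exact (mul_inv_eq_one.1 (hL.free _ _ h3)).symm
  refine (Set.finite_iUnion (fun i : F.I => ((h1 i).image (fun g => (i, g))))).subset ?_
  rintro ⟨i, g⟩ hg
  exact Set.mem_iUnion.2 ⟨i, ⟨g, hg, rfl⟩⟩

theorem c02_mem_span (F : VCat S L) (x : L.W) (v : F.M) (hv : v ∈ F.fil x) :
    v ∈ Submodule.span S (c02_b F '' c02_T F x) := by
  classical
  have key : ∀ i (a : MonoidAlgebra S G), (∀ g, a.coeff g ≠ 0 → L.le x (g • F.l i)) →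
      (Finsupp.single i a : F.M) ∈ Submodule.span S (c02_b F '' c02_T F x) := by
    intro i a ha
    have h1 : (Finsupp.single i a : F.M) =
        ∑ g ∈ a.coeff.support, (a.coeff g) • c02_b F (i, g) := by
      have h0 : a = ∑ g ∈ a.coeff.support, MonoidAlgebra.single g (a.coeff g) := by
        apply MonoidAlgebra.coeff_injective
        rw [MonoidAlgebra.coeff_sum]
        simp only [MonoidAlgebra.coeff_single]
        exact (Finsupp.sum_single _).symm
      conv_lhs => rw [h0]
      rw [Finsupp.single_finsetSum]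
      refine Finset.sum_congr rfl fun g _ => ?_
      unfold c02_b
      rw [Finsupp.smul_single, MonoidAlgebra.smul_single, smul_eq_mul, mul_one]
    rw [h1]
    exact Submodule.sum_mem _ fun g hg => Submodule.smul_mem _ _ (Submodule.subset_span
      ⟨(i, g), ha g (Finsupp.mem_support_iff.1 hg), rfl⟩)
  rw [← Finsupp.sum_single v, Finsupp.sum]
  exact Submodule.sum_mem _ fun i _ => key i _ (hv i)

theorem c02_b_mem (F : VCat S L) (x : L.W) (p : F.I × G) (hp : p ∈ c02_T F x) :
    c02_b F p ∈ F.fil x := by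
  classical
  intro i g hg
  unfold c02_b at hg
  rw [Finsupp.single_apply] at hg
  split_ifs at hg with h1
  · rw [MonoidAlgebra.coeff_single, Finsupp.single_apply] at hg
    split_ifs at hg with h2
    · subst h2
      rw [← h1]
      exact hp
    · exact absurd rfl hg
  · exact absurd (by simp) hg

theorem c02_span (F : VCat S L) (x : L.W) :
    F.fil x = Submodule.span S (c02_b F '' c02_T F x) := by
  refine le_antisymm (fun v hv => c02_mem_span F x v hv) (Submodule.span_le.2 ?_)
  rintro _ ⟨p, hp, rfl⟩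
  exact c02_b_mem F x p hp

/-- `ev F` is of finite type for finite `F`.
Proof: `{(i, g) | x ≤ g • F.l i}` is finite: `x ≤ g l i` iff `g⁻¹ x ≤ l i`, the lower set of `l i` is
finite and `g ↦ g⁻¹ x` is injective (`free`). So `F.fil x` is contained in the finitely generated
`S`-module of the vectors supported on this finite set, and it is equal to it, spanned by the
elements `single g 1 • e i`. If `F.fil x` is nonzero then `x ≤ g l i` for some `g, i`, so `g⁻¹ x` is
in the finite union `Φ` of the lower sets of the `l i`. -/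
theorem ft_ev (hL : TopL L) (F : VCat S L) (hF : Finite F.I) : FT S L (VCat.ev.obj F) := by
  refine ⟨fun x => ?_, ⋃ i : F.I, {y | L.le y (F.l i)},
    Set.finite_iUnion (fun i => hL.lower (F.l i)), fun x hx => ?_⟩
  · have h1 : (F.fil x.unop.w).FG := by
      rw [c02_span]
      exact Submodule.fg_span ((c02_T_finite hL F hF x.unop.w).image _)
    exact Module.Finite.iff_fg.2 h1
  · by_contra hc
    refine hx ⟨fun a b => ?_⟩
    have h0 : ∀ a : F.fil x, a = 0 := by
      rintro ⟨v, hv⟩
      refine Subtype.ext (Finsupp.ext fun i => ?_)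
      change v i = 0
      apply MonoidAlgebra.coeff_injective
      refine Finsupp.ext fun g => ?_
      by_contra h
      have h2 := L.smul g⁻¹ (hv i g h)
      rw [inv_smul_smul] at h2
      exact hc ⟨g⁻¹, Set.mem_iUnion.2 ⟨i, h2⟩⟩
    exact (h0 a).trans (h0 b).symm

end Pool.Agent.Lib.MP_c052b4_al.MT
end
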