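import Mathlib.Algebra.MonoidAlgebra.MapDomain
import Mathlib.GroupTheory.FiniteAbelian.Basic
import Mathlib.GroupTheory.HNNExtension
import Mathlib.LinearAlgebra.Dimension.Free
import Pool.Agent.Lib.MP_c052b4_al.Vas
import Pool.Agent.Lib.MP_c052b4_al.Mg.G011
import Pool.Agent.Lib.MP_c052b4_al.Mg.G024
import Pool.Agent.Lib.MP_c052b4_al.Mg.G020

section

/-!
# TREES, section 6: triangular matrices
-/

set_option autoImplicit false
set_option linter.unusedSectionVars false

namespace Pool.Agent.Lib.MP_c052b4_al.MT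

open Matrix

universe u v w

section Dp

variable {T : Type u} [Ring T] {I J K : Type}

/-- The part of a matrix which preserves the value of `s`. -/
def dp (s : I → ℤ) (t : J → ℤ) (M : Matrix I J T) : Matrix I J T :=
  Matrix.of fun i j => if s i = t j then M i j else 0

theorem dp_apply (s : I → ℤ) (t : J → ℤ) (M : Matrix I J T) (i : I) (j : J) :
    dp s t M i j = if s i = t j then M i j else 0 := rfl

theorem dp_mul [Fintype J] (s : I → ℤ) (t : J → ℤ) (r : K → ℤ) {M : Matrix I J T}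
    {N : Matrix J K T} (hM : ∀ i j, M i j ≠ 0 → s i ≤ t j) (hN : ∀ i j, N i j ≠ 0 → t i ≤ r j) :
    dp s r (M * N) = dp s t M * dp t r N := by
  refine Matrix.ext fun i k => ?_
  rw [dp_apply, Matrix.mul_apply]
  split_ifs with h
  · rw [Matrix.mul_apply]
    refine Finset.sum_congr rfl fun j _ => ?_
    rw [dp_apply, dp_apply]
    by_cases h1 : s i = t j
    · rw [if_pos h1, if_pos (h1.symm.trans h)]
    · rw [if_neg h1, zero_mul]
      by_contra h2
      have h3 : M i j ≠ 0 := fun h3 => h2 (by rw [h3, zero_mul])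
      have h4 : N j k ≠ 0 := fun h4 => h2 (by rw [h4, mul_zero])
      exact h1 (le_antisymm (hM i j h3) (by rw [h]; exact hN j k h4))
  · symm
    refine Finset.sum_eq_zero fun j _ => ?_
    change dp s t M i j * dp t r N j k = 0
    rw [dp_apply, dp_apply]
    by_cases h1 : s i = t j
    · rw [if_neg fun h2 => h (h1.trans h2), mul_zero]
    · rw [if_neg h1, zero_mul]

end Dp

section Tri

variable {T : Type u} [Ring T] {I J : Type} [Fintype I] [DecidableEq I] [Fintype J]
  [DecidableEq J]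

theorem isUnit_add_of_mul {X Y : Matrix I I T} (hX : IsUnit (1 + X)) (hY : IsUnit (1 + Y)) :
    IsUnit (1 + (X + Y + X * Y)) := by
  have h : (1 + (X + Y + X * Y)) = (1 + X) * (1 + Y) := by
    rw [Matrix.add_mul, Matrix.one_mul, Matrix.mul_add, Matrix.mul_one]
    abel
  rw [h]
  exact hX.mul hY

theorem isUnit_of_sq {X : Matrix I I T} (h : X * X = 0) : IsUnit (1 + X) :=
  ⟨⟨1 + X, 1 - X, by
    rw [Matrix.add_mul, Matrix.mul_sub, Matrix.mul_sub, h, Matrix.one_mul, Matrix.one_mul,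
      Matrix.mul_one]
    abel, by
    rw [Matrix.sub_mul, Matrix.mul_add, Matrix.mul_add, h, Matrix.one_mul, Matrix.one_mul,
      Matrix.mul_one]
    abel⟩, rfl⟩

/-- Strictly triangular matrices. -/
theorem kk_strict (s : I → ℤ) (m : ℕ) : ∀ (N : Matrix I I T) (c : ℤ),
    (∀ i j, N i j ≠ 0 → s i < s j) → (∀ i j, N i j ≠ 0 → c ≤ s j ∧ s j < c + m) →
      IsUnit (1 + N) ∧ kk N = 0 := by
  induction m with
  | zero =>
    intro N c _ h2
    have h3 : N = 0 := by
      refine Matrix.ext fun i j => ?_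
      by_contra h
      have := h2 i j h
      rw [Nat.cast_zero, add_zero] at this
      omega
    rw [h3, add_zero, kk_zero]
    exact ⟨isUnit_one, rfl⟩
  | succ m ih =>
    intro N c h1 h2
    let e : Matrix I I T := Matrix.diagonal fun i => if s i = c + m then 1 else 0
    have hN : N = N * e + (N - N * e) := by abel
    have hNe : ∀ i j, (N * e) i j = if s j = c + m then N i j else 0 := by
      intro i j
      rw [Matrix.mul_diagonal]
      split_ifs <;> simp
    have heN : e * N = 0 := by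
      refine Matrix.ext fun i j => ?_
      rw [Matrix.diagonal_mul]
      by_cases h3 : s i = c + m
      · rw [if_pos h3, one_mul]
        by_contra h4
        have h5 := h1 i j h4
        have h6 := (h2 i j h4).2
        push_cast at h6
        omega
      · rw [if_neg h3, zero_mul]
        rfl
    have h3 : IsUnit (1 + (N - N * e)) ∧ kk (N - N * e) = 0 := by
      refine ih (N - N * e) c ?_ ?_
      · intro i j h
        refine h1 i j fun h4 => h ?_
        rw [Matrix.sub_apply, hNe, h4]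
        simp
      · intro i j h
        have h4 : N i j ≠ 0 := by
          intro h4
          apply h
          rw [Matrix.sub_apply, hNe, h4]
          simp
        have h5 : s j ≠ c + m := by
          intro h5
          apply h
          rw [Matrix.sub_apply, hNe, if_pos h5, sub_self]
        have h6 := h2 i j h4
        push_cast at h6
        omega
    have h4 : (N * e) * (N * e) = 0 := by
      rw [Matrix.mul_assoc, ← Matrix.mul_assoc e, heN, Matrix.zero_mul, Matrix.mul_zero]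
    have h5 : (N * e) * (N - N * e) = 0 := by
      rw [Matrix.mul_sub, h4, Matrix.mul_assoc, heN, Matrix.mul_zero, sub_zero]
    have h6 : N = N * e + (N - N * e) + (N * e) * (N - N * e) := by
      rw [h5]
      abel
    have h7 := kk_mul (isUnit_of_sq h4) h3.1
    have h8 := isUnit_add_of_mul (isUnit_of_sq h4) h3.1
    rw [← h6] at h7 h8
    refine ⟨h8, ?_⟩
    rw [h7, h3.2, add_zero, kk_comm, heN, kk_zero]

theorem kk_strict' (s : I → ℤ) (N : Matrix I I T) (h : ∀ i j, N i j ≠ 0 → s i < s j) :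
    IsUnit (1 + N) ∧ kk N = 0 := by
  obtain ⟨c, hc⟩ : ∃ c : ℤ, ∀ i, c ≤ s i := by
    obtain ⟨c, hc⟩ := (Set.finite_range s).bddBelow
    exact ⟨c, fun i => hc ⟨i, rfl⟩⟩
  obtain ⟨b, hb⟩ : ∃ b : ℤ, ∀ i, s i ≤ b := by
    obtain ⟨b, hb⟩ := (Set.finite_range s).bddAbove
    exact ⟨b, fun i => hb ⟨i, rfl⟩⟩
  refine kk_strict s (b - c + 1).toNat N c h fun i j _ => ⟨hc j, ?_⟩
  have := hb j
  have := Int.self_le_toNat (b - c + 1)
  omega

theorem dp_one (s : I → ℤ) : dp s s (1 : Matrix I I T) = 1 := by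
  refine Matrix.ext fun i j => ?_
  rw [dp_apply]
  split_ifs with h
  · rfl
  · rw [Matrix.one_apply_ne fun h1 => h (by rw [h1])]

theorem dp_add (s : I → ℤ) (t : J → ℤ) (M N : Matrix I J T) :
    dp s t (M + N) = dp s t M + dp s t N := by
  refine Matrix.ext fun i j => ?_
  rw [Matrix.add_apply, dp_apply, dp_apply, dp_apply]
  split_ifs <;> simp

theorem dp_sub (s : I → ℤ) (t : J → ℤ) (M N : Matrix I J T) :
    dp s t (M - N) = dp s t M - dp s t N := by
  refine Matrix.ext fun i j => ?_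
  rw [Matrix.sub_apply, dp_apply, dp_apply, dp_apply]
  split_ifs <;> simp

/-- Triangular matrices have the class of their diagonal part. -/
theorem kk_tri (s : I → ℤ) (M M' : Matrix I I T) (hM : ∀ i j, M i j ≠ 0 → s i ≤ s j)
    (hM' : ∀ i j, M' i j ≠ 0 → s i ≤ s j) (h1 : (1 + M) * (1 + M') = 1)
    (h2 : (1 + M') * (1 + M) = 1) : kk M = kk (dp s s M) := by
  have hadd : ∀ {X : Matrix I I T}, (∀ i j, X i j ≠ 0 → s i ≤ s j) →
      ∀ i j, (1 + X) i j ≠ 0 → s i ≤ s j := by
    intro X hX i j h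
    by_cases hij : i = j
    · rw [hij]
    · refine hX i j fun h0 => h ?_
      rw [Matrix.add_apply, Matrix.one_apply_ne hij, h0, add_zero]
  have e1 : (1 + dp s s M) * (1 + dp s s M') = 1 := by
    have := dp_mul s s s (hadd hM) (hadd hM')
    rw [h1, dp_one, dp_add, dp_add, dp_one] at this
    exact this.symm
  have e2 : (1 + dp s s M') * (1 + dp s s M) = 1 := by
    have := dp_mul s s s (hadd hM') (hadd hM)
    rw [h2, dp_one, dp_add, dp_add, dp_one] at this
    exact this.symm
  have hu : IsUnit (1 + dp s s M) := ⟨⟨_, _, e1, e2⟩, rfl⟩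
  set N : Matrix I I T := (1 + dp s s M') * (M - dp s s M) with hN
  have hNs : ∀ i j, N i j ≠ 0 → s i < s j := by
    intro i j h
    rw [hN, Matrix.mul_apply] at h
    obtain ⟨k, -, hk⟩ := Finset.exists_ne_zero_of_sum_ne_zero h
    have h3 : (1 + dp s s M') i k ≠ 0 := fun h3 => hk (by rw [h3, zero_mul])
    have h4 : (M - dp s s M) k j ≠ 0 := fun h4 => hk (by rw [h4, mul_zero])
    have h5 : s i ≤ s k := by
      refine hadd (X := dp s s M') (fun i j h => ?_) i k h3
      rw [dp_apply] at h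
      split_ifs at h with h6
      · exact h6.le
      · exact absurd rfl h
    rw [Matrix.sub_apply, dp_apply] at h4
    split_ifs at h4 with h6
    · exact absurd (sub_self _) h4
    · rw [sub_zero] at h4
      exact lt_of_le_of_lt h5 (lt_of_le_of_ne (hM k j h4) h6)
  obtain ⟨h3, h4⟩ := kk_strict' s N hNs
  have h5 : M = dp s s M + N + dp s s M * N := by
    have h6 : (1 + dp s s M) * N = M - dp s s M := by
      rw [hN, ← Matrix.mul_assoc, e1, Matrix.one_mul]
    rw [Matrix.add_mul, Matrix.one_mul] at h6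
    rw [add_assoc, h6]
    abel
  have h6 := kk_mul hu h3
  rw [← h5, h4, add_zero] at h6
  exact h6

/-- Block triangular matrices. -/
theorem kk_fromBlocks (X : Matrix I I T) (Z : Matrix I J T) (Y : Matrix J J T)
    (hX : IsUnit (1 + X)) (hY : IsUnit (1 + Y)) :
    kk (fromBlocks X Z 0 Y) = kk X + kk Y := by
  obtain ⟨U, hU⟩ := hX
  obtain ⟨V, hV⟩ := hY
  have h1 : IsUnit (1 + fromBlocks X 0 0 Y) := by
    refine ⟨bl U V, ?_⟩
    rw [coe_bl, hU, hV, ← fromBlocks_one, fromBlocks_add]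
    simp
  set Z' : Matrix I J T := ((U⁻¹ : (Matrix I I T)ˣ) : Matrix I I T) * Z with hZ'
  have h2 : (fromBlocks (0 : Matrix I I T) Z' 0 (0 : Matrix J J T)) *
      fromBlocks (0 : Matrix I I T) Z' 0 (0 : Matrix J J T) = 0 := by
    rw [fromBlocks_multiply]
    simp
  have h3 : kk (fromBlocks (0 : Matrix I I T) Z' 0 (0 : Matrix J J T)) = 0 := by
    refine (kk_strict' (Sum.elim (fun _ => 0) (fun _ => 1)) _ ?_).2
    rintro (i | i) (j | j) h
    · exact absurd rfl h
    · simp
    · exact absurd rfl h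
    · exact absurd rfl h
  have h4 := kk_mul h1 (isUnit_of_sq h2)
  rw [h3, add_zero, kk_blocks ⟨U, hU⟩ ⟨V, hV⟩] at h4
  rw [← h4]
  congr 1
  rw [fromBlocks_multiply, fromBlocks_add, fromBlocks_add]
  have h5 : Z = Z' + X * Z' := by
    have h6 : (1 + X) * Z' = Z := by
      rw [hZ', ← Matrix.mul_assoc, ← hU, Units.mul_inv, Matrix.one_mul]
    rw [Matrix.add_mul, Matrix.one_mul] at h6
    exact h6.symm
  simp [← h5]

end Tri

end Pool.Agent.Lib.MP_c052b4_al.MT
end

section

/-!
# TREES, section 6: independence of the contraction, over a ring `T`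
-/

set_option autoImplicit false
set_option linter.unusedSectionVars false

namespace Pool.Agent.Lib.MP_c052b4_al.MT

open Matrix

universe u v w w'

section Pj

variable {T : Type u} [Ring T] {I J K : Type} [Fintype I] [DecidableEq I] [Fintype J]
  [DecidableEq J] [Fintype K] [DecidableEq K]

/-- The projection to the degrees satisfying `P`. -/
noncomputable def pj (T : Type u) [Ring T] (deg : I → ℤ) (P : ℤ → Prop) : Matrix I I T :=
  open Classical in Matrix.diagonal fun i => if P (deg i) then 1 else 0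

theorem pj_mul_apply (deg : I → ℤ) (P : ℤ → Prop) [DecidablePred P] (M : Matrix I J T) (i : I)
    (j : J) : (pj T deg P * M) i j = if P (deg i) then M i j else 0 := by
  unfold pj
  rw [Matrix.diagonal_mul]
  split_ifs <;> simp

theorem mul_pj_apply (deg : J → ℤ) (P : ℤ → Prop) [DecidablePred P] (M : Matrix I J T) (i : I)
    (j : J) : (M * pj T deg P) i j = if P (deg j) then M i j else 0 := by
  unfold pj
  rw [Matrix.mul_diagonal]
  split_ifs <;> simp

theorem pj_comm (deg : I → ℤ) (deg' : J → ℤ) (P P' : ℤ → Prop) {M : Matrix I J T}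
    (hM : ∀ i j, M i j ≠ 0 → (P (deg i) ↔ P' (deg' j))) :
    pj T deg P * M = M * pj T deg' P' := by
  classical
  refine Matrix.ext fun i j => ?_
  rw [pj_mul_apply, mul_pj_apply]
  by_cases h : M i j = 0
  · rw [h, ite_self, ite_self]
  · by_cases h1 : P (deg i)
    · rw [if_pos h1, if_pos ((hM i j h).1 h1)]
    · rw [if_neg h1, if_neg fun h2 => h1 ((hM i j h).2 h2)]

theorem pj_mul_pj (deg : I → ℤ) (P P' : ℤ → Prop) :
    pj T deg P * pj T deg P' = pj T deg fun q => P q ∧ P' q := by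
  classical
  refine Matrix.ext fun i j => ?_
  rw [pj_mul_apply]
  unfold pj
  by_cases hij : i = j
  · subst hij
    rw [Matrix.diagonal_apply_eq, Matrix.diagonal_apply_eq]
    by_cases h1 : P (deg i) <;> by_cases h2 : P' (deg i) <;> simp [h1, h2]
  · rw [Matrix.diagonal_apply_ne _ hij, Matrix.diagonal_apply_ne _ hij, ite_self]

theorem pj_congr (deg : I → ℤ) {P P' : ℤ → Prop} (h : ∀ i, P (deg i) ↔ P' (deg i)) :
    pj T deg P = pj T deg P' := by
  classical
  unfold pj
  congr 1
  funext i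
  by_cases h1 : P (deg i)
  · rw [if_pos h1, if_pos ((h i).1 h1)]
  · rw [if_neg h1, if_neg fun h2 => h1 ((h i).2 h2)]

theorem pj_idem (deg : I → ℤ) (P : ℤ → Prop) : pj T deg P * pj T deg P = pj T deg P := by
  rw [pj_mul_pj]
  exact pj_congr deg fun i => and_self_iff

theorem pj_false (deg : I → ℤ) {P : ℤ → Prop} (h : ∀ i, ¬ P (deg i)) : pj T deg P = 0 := by
  classical
  refine Matrix.ext fun i j => ?_
  unfold pj
  by_cases hij : i = j
  · subst hij
    rw [Matrix.diagonal_apply_eq, if_neg (h i)]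
    rfl
  · rw [Matrix.diagonal_apply_ne _ hij]
    rfl

theorem pj_add (deg : I → ℤ) {P P' Q : ℤ → Prop} (h1 : ∀ q, Q q ↔ (P q ∨ P' q))
    (h2 : ∀ q, ¬ (P q ∧ P' q)) : pj T deg Q = pj T deg P + pj T deg P' := by
  classical
  refine Matrix.ext fun i j => ?_
  rw [Matrix.add_apply]
  unfold pj
  by_cases hij : i = j
  · subst hij
    rw [Matrix.diagonal_apply_eq, Matrix.diagonal_apply_eq, Matrix.diagonal_apply_eq]
    have h3 := h1 (deg i)
    have h4 := h2 (deg i)
    by_cases h5 : P (deg i) <;> by_cases h6 : P' (deg i) <;> simp_all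
  · rw [Matrix.diagonal_apply_ne _ hij, Matrix.diagonal_apply_ne _ hij,
      Matrix.diagonal_apply_ne _ hij, add_zero]

theorem pj_map {T' : Type v} [Ring T'] (φ : T →+* T') (deg : I → ℤ) (P : ℤ → Prop) :
    (pj T deg P).map φ = pj T' deg P := by
  classical
  refine Matrix.ext fun i j => ?_
  rw [Matrix.map_apply]
  unfold pj
  by_cases hij : i = j
  · subst hij
    rw [Matrix.diagonal_apply_eq, Matrix.diagonal_apply_eq]
    split_ifs <;> simp
  · rw [Matrix.diagonal_apply_ne _ hij, Matrix.diagonal_apply_ne _ hij, map_zero]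

end Pj

section KkMore

variable {T : Type u} [Ring T] {I : Type} [Fintype I] [DecidableEq I]

theorem kk_add_of_mul {X Y : Matrix I I T} (hX : IsUnit (1 + X)) (hY : IsUnit (1 + Y))
    (h : X * Y = 0) : IsUnit (1 + (X + Y)) ∧ kk (X + Y) = kk X + kk Y := by
  have h1 := kk_mul hX hY
  have h2 := isUnit_add_of_mul hX hY
  rw [h, add_zero] at h1 h2
  exact ⟨h2, h1⟩

theorem kk_neg_of_sq {X : Matrix I I T} (h : X * X = 0) : kk (-X) = - kk X := by
  have h1 : (-X) * (-X) = 0 := by rw [Matrix.neg_mul, Matrix.mul_neg, neg_neg, h]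
  have h2 : X * -X = 0 := by rw [Matrix.mul_neg, h, neg_zero]
  have h3 := (kk_add_of_mul (isUnit_of_sq h) (isUnit_of_sq h1) h2).2
  rw [add_neg_cancel, kk_zero] at h3
  exact (neg_eq_of_add_eq_zero_right h3.symm).symm

end KkMore

section Ind

variable {T : Type u} [Ring T] {I : Type} [Fintype I] [DecidableEq I]

/-- Degrees of matrices. -/
def HasDeg (deg : I → ℤ) (c : ℤ) (M : Matrix I I T) : Prop :=
  ∀ i j, M i j ≠ 0 → deg j = deg i + c

theorem HasDeg.mul {deg : I → ℤ} {c c' : ℤ} {M N : Matrix I I T} (hM : HasDeg deg c M)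
    (hN : HasDeg deg c' N) : HasDeg deg (c + c') (M * N) := by
  intro i j h
  rw [Matrix.mul_apply] at h
  obtain ⟨k, -, hk⟩ := Finset.exists_ne_zero_of_sum_ne_zero h
  have h1 := hM i k fun h => hk (by rw [h, zero_mul])
  have h2 := hN k j fun h => hk (by rw [h, mul_zero])
  omega

theorem HasDeg.add {deg : I → ℤ} {c : ℤ} {M N : Matrix I I T} (hM : HasDeg deg c M)
    (hN : HasDeg deg c N) : HasDeg deg c (M + N) := by
  intro i j h
  by_cases h1 : M i j = 0
  · exact hN i j fun h2 => h (by rw [Matrix.add_apply, h1, h2, add_zero])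
  · exact hM i j h1

theorem HasDeg.neg {deg : I → ℤ} {c : ℤ} {M : Matrix I I T} (hM : HasDeg deg c M) :
    HasDeg deg c (-M) := by
  intro i j h
  exact hM i j fun h1 => h (by rw [Matrix.neg_apply, h1, neg_zero])

theorem HasDeg.sub {deg : I → ℤ} {c : ℤ} {M N : Matrix I I T} (hM : HasDeg deg c M)
    (hN : HasDeg deg c N) : HasDeg deg c (M - N) := by
  rw [sub_eq_add_neg]
  exact hM.add hN.neg

theorem HasDeg.comm {deg : I → ℤ} {c : ℤ} {M : Matrix I I T} (hM : HasDeg deg c M)
    (P P' : ℤ → Prop) (h : ∀ q, P q ↔ P' (q + c)) : pj T deg P * M = M * pj T deg P' := by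
  refine pj_comm deg deg P P' fun i j hij => ?_
  rw [hM i j hij]
  exact h _

/-- The part in one degree. -/
theorem kk_one_degree (deg : I → ℤ) {d δ : Matrix I I T} (hd : HasDeg deg 1 d)
    (hδ : HasDeg deg (-1) δ) (hdd : d * d = 0) (hdδ : d * δ = -(δ * d)) (q : ℤ) :
    kk (pj T deg (fun r => r = q) * (δ * d)) =
      - kk (pj T deg (fun r => r = q - 1) * (δ * d)) := by
  have e1 : pj T deg (fun r => r = q) * δ = δ * pj T deg (fun r => r = q - 1) :=
    hδ.comm _ _ fun r => by constructor <;> intro h <;> omega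
  have e2 : pj T deg (fun r => r = q - 1) * d = d * pj T deg (fun r => r = q) :=
    hd.comm _ _ fun r => by constructor <;> intro h <;> omega
  have e3 : pj T deg (fun r => r = q) * (δ * d) =
      (pj T deg (fun r => r = q) * δ) * (pj T deg (fun r => r = q - 1) * d) := by
    calc pj T deg (fun r => r = q) * (δ * d) = (pj T deg (fun r => r = q) * δ) * d := by
          rw [Matrix.mul_assoc]
      _ = δ * (pj T deg (fun r => r = q - 1) * pj T deg (fun r => r = q - 1)) * d := by
          rw [e1, pj_idem]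
      _ = (δ * pj T deg (fun r => r = q - 1)) * (pj T deg (fun r => r = q - 1) * d) := by
          simp only [Matrix.mul_assoc]
      _ = _ := by rw [e1]
  have e4 : (pj T deg (fun r => r = q - 1) * d) * (pj T deg (fun r => r = q) * δ) =
      -(pj T deg (fun r => r = q - 1) * (δ * d)) := by
    have e5 : (pj T deg (fun r => r = q - 1) * d) * (pj T deg (fun r => r = q) * δ) =
        pj T deg (fun r => r = q - 1) * (d * pj T deg (fun r => r = q)) * δ := by
      simp only [Matrix.mul_assoc]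
    rw [e5, ← e2, ← Matrix.mul_assoc, pj_idem, Matrix.mul_assoc, hdδ, Matrix.mul_neg]
  rw [e3, kk_comm, e4]
  refine kk_neg_of_sq ?_
  have e6 : pj T deg (fun r => r = q - 1) * (δ * d) = (δ * d) * pj T deg (fun r => r = q - 1) :=
    (hδ.mul hd).comm _ _ fun r => by constructor <;> intro h <;> omega
  have e7 : δ * d * (δ * d) = 0 := by
    have : δ * d * (δ * d) = δ * (d * δ) * d := by simp only [Matrix.mul_assoc]
    rw [this, hdδ, Matrix.mul_neg, Matrix.neg_mul]
    have : δ * (δ * d) * d = δ * δ * (d * d) := by simp only [Matrix.mul_assoc]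
    rw [this, hdd, Matrix.mul_zero, neg_zero]
  have e8 : pj T deg (fun r => r = q - 1) * (δ * d) * (pj T deg (fun r => r = q - 1) * (δ * d)) =
      pj T deg (fun r => r = q - 1) * ((δ * d) * pj T deg (fun r => r = q - 1)) * (δ * d) := by
    simp only [Matrix.mul_assoc]
  rw [e8, ← e6, Matrix.mul_assoc, Matrix.mul_assoc _ (δ * d) (δ * d), e7, Matrix.mul_zero,
    Matrix.mul_zero]

theorem kk_one_degree_zero (deg : I → ℤ) {d δ : Matrix I I T} (hd : HasDeg deg 1 d)
    (hδ : HasDeg deg (-1) δ) (hdd : d * d = 0) (hdδ : d * δ = -(δ * d)) (q : ℤ) :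
    kk (pj T deg (fun r => r = q) * (δ * d)) = 0 := by
  obtain ⟨c, hc⟩ : ∃ c : ℤ, ∀ i, c ≤ deg i := by
    obtain ⟨c, hc⟩ := (Set.finite_range deg).bddBelow
    exact ⟨c, fun i => hc ⟨i, rfl⟩⟩
  have h0 : ∀ r : ℤ, r < c → kk (pj T deg (fun r' => r' = r) * (δ * d)) = 0 := by
    intro r hr
    rw [pj_false deg (fun i h => by have := hc i; omega), Matrix.zero_mul, kk_zero]
  have h1 : ∀ n : ℕ, kk (pj T deg (fun r' => r' = c - 1 + n) * (δ * d)) = 0 := by
    intro n
    induction n with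
    | zero =>
      rw [Nat.cast_zero, add_zero]
      exact h0 _ (by omega)
    | succ n ih =>
      rw [kk_one_degree deg hd hδ hdd hdδ]
      have : c - 1 + ((n + 1 : ℕ) : ℤ) - 1 = c - 1 + n := by push_cast; ring
      rw [this, ih, neg_zero]
  by_cases hq : q < c
  · exact h0 q hq
  · have := h1 (q - (c - 1)).toNat
    rw [Int.toNat_of_nonneg (by omega), add_sub_cancel] at this
    exact this

/-- The part in the degrees satisfying `P`. -/
theorem kk_degrees_zero (deg : I → ℤ) {d δ : Matrix I I T} (hd : HasDeg deg 1 d)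
    (hδ : HasDeg deg (-1) δ) (hdd : d * d = 0) (hdδ : d * δ = -(δ * d)) (P : ℤ → Prop) :
    kk (pj T deg P * (δ * d)) = 0 := by
  classical
  have hcm : ∀ Q : ℤ → Prop, pj T deg Q * (δ * d) = (δ * d) * pj T deg Q := fun Q =>
    (hδ.mul hd).comm _ _ fun r => by norm_num
  have e7 : δ * d * (δ * d) = 0 := by
    have : δ * d * (δ * d) = δ * (d * δ) * d := by simp only [Matrix.mul_assoc]
    rw [this, hdδ, Matrix.mul_neg, Matrix.neg_mul]
    have : δ * (δ * d) * d = δ * δ * (d * d) := by simp only [Matrix.mul_assoc]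
    rw [this, hdd, Matrix.mul_zero, neg_zero]
  have hz : ∀ Q Q' : ℤ → Prop, pj T deg Q * (δ * d) * (pj T deg Q' * (δ * d)) = 0 := by
    intro Q Q'
    have e8 : pj T deg Q * (δ * d) * (pj T deg Q' * (δ * d)) =
        pj T deg Q * ((δ * d) * pj T deg Q') * (δ * d) := by
      simp only [Matrix.mul_assoc]
    rw [e8, ← hcm, Matrix.mul_assoc, Matrix.mul_assoc _ (δ * d) (δ * d), e7, Matrix.mul_zero,
      Matrix.mul_zero]
  have key : ∀ S : Finset ℤ, kk (pj T deg (fun r => P r ∧ r ∈ S) * (δ * d)) = 0 := by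
    intro S
    induction S using Finset.induction_on with
    | empty =>
      rw [pj_false deg (fun i h => by simp at h), Matrix.zero_mul, kk_zero]
    | insert q S hq ih =>
      by_cases hP : P q
      · have h1 : pj T deg (fun r => P r ∧ r ∈ insert q S) =
            pj T deg (fun r => r = q) + pj T deg (fun r => P r ∧ r ∈ S) := by
          refine pj_add deg (fun r => ?_) (fun r => ?_)
          · rw [Finset.mem_insert]
            constructor
            · rintro ⟨h1, h2 | h2⟩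
              · exact Or.inl h2
              · exact Or.inr ⟨h1, h2⟩
            · rintro (h2 | ⟨h1, h2⟩)
              · exact ⟨h2 ▸ hP, Or.inl h2⟩
              · exact ⟨h1, Or.inr h2⟩
          · rintro ⟨h1, h2, h3⟩
            exact hq (h1 ▸ h3)
        rw [h1, Matrix.add_mul, (kk_add_of_mul (isUnit_of_sq (hz _ _)) (isUnit_of_sq (hz _ _))
          (hz _ _)).2, ih, add_zero]
        exact kk_one_degree_zero deg hd hδ hdd hdδ q
      · have h1 : pj T deg (fun r => P r ∧ r ∈ insert q S) =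
            pj T deg (fun r => P r ∧ r ∈ S) := by
          refine pj_congr deg fun i => ?_
          rw [Finset.mem_insert]
          constructor
          · rintro ⟨h1, h2 | h2⟩
            · exact absurd (h2 ▸ h1) hP
            · exact ⟨h1, h2⟩
          · rintro ⟨h1, h2⟩
            exact ⟨h1, Or.inr h2⟩
        rw [h1, ih]
  have h2 := key (Finset.univ.image deg)
  rw [pj_congr deg (P' := P) fun i => by simp] at h2
  exact h2

end Ind

/-- A contraction. -/
structure IsCon {T : Type u} [Ring T] {I : Type} [Fintype I] [DecidableEq I] (deg : I → ℤ)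
    (e d k : Matrix I I T) : Prop where
  deg_e : HasDeg deg 0 e
  deg_d : HasDeg deg 1 d
  deg_k : HasDeg deg (-1) k
  ee : e * e = e
  ed : e * d = d
  de : d * e = d
  ek : e * k = k
  ke : k * e = k
  dd : d * d = 0
  con : d * k + k * d = e

section Con

variable {T : Type u} [Ring T] {I : Type} [Fintype I] [DecidableEq I] {deg : I → ℤ}
  {e d k k' : Matrix I I T}

theorem IsCon.dkd (h : IsCon deg e d k) : d * k * d = d := by
  have h1 : d * k = e - k * d := by rw [← h.con]; abel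
  rw [h1, Matrix.sub_mul, h.ed, Matrix.mul_assoc, h.dd, Matrix.mul_zero, sub_zero]

/-- Improve a contraction to one with square zero. -/
theorem IsCon.sq (h : IsCon deg e d k) : IsCon deg e d (k * d * k) ∧
    (k * d * k) * (k * d * k) = 0 := by
  have h1 : k * d = e - d * k := by rw [← h.con]; abel
  have h2 : d * (k * k) * d = 0 := by
    have e1 : d * (k * k) * d = d * k * (k * d) := by simp only [Matrix.mul_assoc]
    rw [e1, h1, Matrix.mul_sub, Matrix.mul_assoc, h.ke, ← Matrix.mul_assoc (d * k), h.dkd, sub_self]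
  refine ⟨⟨h.deg_e, h.deg_d, ?_, h.ee, h.ed, h.de, ?_, ?_, h.dd, ?_⟩, ?_⟩
  · have := (h.deg_k.mul h.deg_d).mul h.deg_k
    norm_num at this
    exact this
  · rw [← Matrix.mul_assoc, ← Matrix.mul_assoc, h.ek]
  · rw [Matrix.mul_assoc, h.ke]
  · have e1 : d * (k * d * k) + k * d * k * d = (d * k * d) * k + k * (d * k * d) := by
      simp only [Matrix.mul_assoc]
    rw [e1, h.dkd, h.con]
  · have e1 : k * d * k * (k * d * k) = k * (d * (k * k) * d) * k := by
      simp only [Matrix.mul_assoc]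
    rw [e1, h2, Matrix.mul_zero, Matrix.zero_mul]

/-- The square of `d + k`. -/
theorem IsCon.sq_add (h : IsCon deg e d k) (hk : k * k = 0) : (d + k) * (d + k) = e := by
  rw [Matrix.add_mul, Matrix.mul_add, Matrix.mul_add, h.dd, hk, zero_add, add_zero, h.con]

theorem IsCon.e_mul (h : IsCon deg e d k) : e * (d + k) = d + k := by
  rw [Matrix.mul_add, h.ed, h.ek]

theorem IsCon.mul_e (h : IsCon deg e d k) : (d + k) * e = d + k := by
  rw [Matrix.add_mul, h.de, h.ke]

theorem IsCon.odd_mul (h : IsCon deg e d k) :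
    pj T deg (fun q => Odd q) * (d + k) = (d + k) * pj T deg (fun q => ¬ Odd q) := by
  rw [Matrix.mul_add, Matrix.add_mul,
    h.deg_d.comm _ (fun q => ¬ Odd q) (fun q => by rw [Int.odd_iff, Int.odd_iff]; omega),
    h.deg_k.comm _ (fun q => ¬ Odd q) (fun q => by rw [Int.odd_iff, Int.odd_iff]; omega)]

theorem IsCon.even_mul (h : IsCon deg e d k) :
    pj T deg (fun q => ¬ Odd q) * (d + k) = (d + k) * pj T deg (fun q => Odd q) := by
  rw [Matrix.mul_add, Matrix.add_mul,
    h.deg_d.comm _ (fun q => Odd q) (fun q => by rw [Int.odd_iff, Int.odd_iff]; omega),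
    h.deg_k.comm _ (fun q => Odd q) (fun q => by rw [Int.odd_iff, Int.odd_iff]; omega)]

/-- Independence of the contraction, in the form of a class which vanishes. -/
theorem kk_con_con (h : IsCon deg e d k) (h' : IsCon deg e d k') (hk : k * k = 0)
    (hk' : k' * k' = 0) :
    kk (pj T deg (fun q => Odd q) * ((d + k) * (d + k') - e)) = 0 := by
  classical
  set Q := pj T deg (fun q => Odd q) with hQ
  set Q0 := pj T deg (fun q => ¬ Odd q) with hQ0
  have hQe : Q * e = e * Q := h.deg_e.comm _ _ fun q => by rw [add_zero]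
  have hcomm : ∀ {a b : Matrix I I T}, IsCon deg e d a → IsCon deg e d b →
      Q * ((d + a) * (d + b)) = ((d + a) * (d + b)) * Q := by
    intro a b ha hb
    rw [← Matrix.mul_assoc, ha.odd_mul, Matrix.mul_assoc, hb.even_mul, Matrix.mul_assoc]
  have hQQ : Q * Q = Q := pj_idem _ _
  have hinv : ∀ {a b : Matrix I I T}, IsCon deg e d a → IsCon deg e d b → a * a = 0 →
      b * b = 0 → (1 + Q * ((d + a) * (d + b) - e)) * (1 + Q * ((d + b) * (d + a) - e)) = 1 := by
    intro a b ha hb haa hbb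
    set A := (d + a) * (d + b) with hA
    set B := (d + b) * (d + a) with hB
    have hQA : Q * A = A * Q := hcomm ha hb
    have hQB : Q * B = B * Q := hcomm hb ha
    have hAB : A * B = e := by
      have e1 : A * B = (d + a) * ((d + b) * (d + b)) * (d + a) := by
        simp only [hA, hB, Matrix.mul_assoc]
      rw [e1, hb.sq_add hbb, ha.mul_e, ha.sq_add haa]
    have hAe : A * e = A := by rw [hA, Matrix.mul_assoc, hb.mul_e]
    have heB : e * B = B := by rw [hB, ← Matrix.mul_assoc, hb.e_mul]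
    have e2 : Q * (A - e) * (Q * (B - e)) = Q * ((A - e) * (B - e)) := by
      have e3 : Q * (A - e) * (Q * (B - e)) = Q * ((A - e) * Q) * (B - e) := by
        simp only [Matrix.mul_assoc]
      rw [e3, Matrix.sub_mul, ← hQA, ← hQe, ← Matrix.mul_sub, ← Matrix.mul_assoc, hQQ,
        Matrix.mul_assoc]
    rw [Matrix.add_mul, Matrix.one_mul, Matrix.mul_add, Matrix.mul_one, e2, Matrix.sub_mul A e,
      Matrix.mul_sub A, Matrix.mul_sub e, hAB, hAe, heB, h.ee]
    simp only [Matrix.mul_sub]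
    abel
  have hW : (d + k) * (d + k') - e = (k - k') * d + k * k' := by
    have h1 : d * k' = e - k' * d := by rw [← h'.con]; abel
    rw [Matrix.add_mul, Matrix.mul_add, Matrix.mul_add, h.dd, h1, Matrix.sub_mul]
    abel
  have hW' : (d + k') * (d + k) - e = (k' - k) * d + k' * k := by
    have h1 : d * k = e - k * d := by rw [← h.con]; abel
    rw [Matrix.add_mul, Matrix.mul_add, Matrix.mul_add, h.dd, h1, Matrix.sub_mul]
    abel
  have hdegQ : ∀ {c : ℤ} {M : Matrix I I T}, HasDeg deg c M → HasDeg deg c (Q * M) := by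
    intro c M hM i j hij
    rw [hQ, pj_mul_apply] at hij
    split_ifs at hij with h1
    · exact hM i j hij
    · exact absurd rfl hij
  have hsupp : ∀ {a b : Matrix I I T}, IsCon deg e d a → IsCon deg e d b → ∀ i j,
      (Q * ((a - b) * d + a * b)) i j ≠ 0 → -deg i ≤ -deg j := by
    intro a b ha hb i j hij
    rw [Matrix.mul_add, Matrix.add_apply] at hij
    by_cases h1 : (Q * ((a - b) * d)) i j = 0
    · rw [h1, zero_add] at hij
      have := hdegQ (ha.deg_k.mul hb.deg_k) i j hij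
      omega
    · have := hdegQ ((ha.deg_k.sub hb.deg_k).mul ha.deg_d) i j h1
      omega
  have hdp : dp (fun i => -deg i) (fun i => -deg i) (Q * ((k - k') * d + k * k')) =
      Q * ((k - k') * d) := by
    rw [Matrix.mul_add, dp_add]
    have e1 : dp (fun i => -deg i) (fun i => -deg i) (Q * (k * k')) = 0 := by
      refine Matrix.ext fun i j => ?_
      rw [dp_apply]
      split_ifs with h1
      · by_contra h2
        have := hdegQ (h.deg_k.mul h'.deg_k) i j h2
        omega
      · rfl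
    have e2 : dp (fun i => -deg i) (fun i => -deg i) (Q * ((k - k') * d)) =
        Q * ((k - k') * d) := by
      refine Matrix.ext fun i j => ?_
      rw [dp_apply]
      split_ifs with h1
      · rfl
      · by_contra h2
        have := hdegQ ((h.deg_k.sub h'.deg_k).mul h.deg_d) i j (Ne.symm h2)
        omega
    rw [e1, e2, add_zero]
  rw [hW, kk_tri (fun i => -deg i) _ (Q * ((k' - k) * d + k' * k)) (hsupp h h') (hsupp h' h) ?_ ?_,
    hdp]
  · refine kk_degrees_zero deg h.deg_d (h.deg_k.sub h'.deg_k) h.dd ?_ _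
    have h1 := h.con
    rw [← h'.con] at h1
    rw [Matrix.mul_sub, Matrix.sub_mul]
    have h2 : d * k - d * k' = k' * d - k * d := by
      rw [sub_eq_sub_iff_add_eq_add, h1]
      abel
    rw [h2]
    abel
  · rw [← hW, ← hW']
    exact hinv h h' hk hk'
  · rw [← hW, ← hW']
    exact hinv h' h hk' hk

end Con

end Pool.Agent.Lib.MP_c052b4_al.MT
end

section

/-!
# The step of the retract lemma (TREES^n, helper78)
-/

set_option autoImplicit false
set_option linter.unusedVariables false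

namespace Pool.Agent.Lib.MP_c052b4_al.MT

open CategoryTheory CategoryTheory.Limits CategoryTheory.Pretriangulated

universe u

variable {S : Type u} [Ring S] {G : Type u} [Group G] {D : Type} {Ys : D → Dir G}
  {L L' : Lbl G}

namespace GC

variable {E E' : GC S G}

/-- Matrices of a homotopy. -/
theorem exists_k (θ : LblHom L L') {u : ∀ n, E.I n → L.W} {hu : E.Resp L u}
    {v : ∀ n, E'.I n → L.W} {hv : E'.Resp L v} (f : T u hu ⟶ T v hv)
    (h : (kL S θ).map ((QL S L).map f) = 0) :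
    ∃ k : ∀ n, LM S G (E.I (n + 1)) (E'.I n),
      (∀ n, RM L' (k n) (fun i => θ.f (u (n + 1) i)) (fun i => θ.f (v n i))) ∧
      ∀ n, VCat.lin (f.f (n + 1)) = (E'.d n).comp (k n) + (k (n + 1)).comp (E.d (n + 1)) := by
  obtain ⟨k, hk⟩ := exists_homotopy_of_map_zero
    (((VCat.mapL θ).mapHomologicalComplex (ComplexShape.up ℤ)).map f) h
  refine ⟨fun n => VCat.lin (k n), fun n => RM_lin (k n), fun n => ?_⟩
  have h1 := congrArg VCat.lin (hk n)
  have e1 : VCat.lin ((T u hu).d (n + 1) (n + 1 + 1)) = E.d (n + 1) := by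
    rw [T_d]
    rfl
  have e2 : VCat.lin ((T v hv).d n (n + 1)) = E'.d n := by
    rw [T_d]
    rfl
  rw [← e1, ← e2]
  exact h1

/-- A chain map which is zero by a matrix homotopy. -/
theorem map_zero_of_k {u : ∀ n, E.I n → L.W} {hu : E.Resp L u}
    {v : ∀ n, E'.I n → L.W} {hv : E'.Resp L v} (f : T u hu ⟶ T v hv)
    (k : ∀ n, LM S G (E.I (n + 1)) (E'.I n)) (hk : ∀ n, RM L (k n) (u (n + 1)) (v n))
    (h : ∀ n, VCat.lin (f.f (n + 1)) = (E'.d n).comp (k n) + (k (n + 1)).comp (E.d (n + 1))) :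
    (QL S L).map f = 0 := by
  refine map_zero_of_homotopy f
    (fun n => hm (X := ⟨E.I (n + 1), u (n + 1)⟩) (Y := ⟨E'.I n, v n⟩) (k n) (hk n)) fun n => ?_
  rw [T_d, T_d]
  apply VCat.hom_ext
  exact h n

theorem range_finite (hE : E.Fin') {Z : Type u} (q : ∀ n, E.I n → Z) :
    {z : Z | ∃ n i, z = q n i}.Finite := by
  obtain ⟨h1, N, hN⟩ := hE
  refine Set.Finite.subset (s := ⋃ n ∈ Set.Icc (-|N|) |N|, Set.range (q n)) ?_ ?_
  · refine Set.Finite.biUnion (Set.finite_Icc _ _) fun n _ => ?_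
    have := h1 n
    exact Set.finite_range (q n)
  · rintro z ⟨n, i, rfl⟩
    have hn : |n| ≤ N := by
      by_contra hn
      exact (hN n (not_le.1 hn)).false i
    have h2 := abs_le.1 (hn.trans (le_abs_self N))
    exact Set.mem_biUnion (x := n) ⟨h2.1, h2.2⟩ ⟨i, rfl⟩

/-- Shift of the index sets. -/
def shiftG (E : GC S G) : GC S G := ⟨fun n => E.I (n + 1), fun n => E.d (n + 1), fun n => E.dd (n + 1)⟩

theorem shiftG_Fin' (hE : E.Fin') : (shiftG E).Fin' := by
  obtain ⟨h1, N, hN⟩ := hE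
  refine ⟨fun n => h1 (n + 1), |N| + 1, fun n hn => hN (n + 1) ?_⟩
  have h2 := abs_add_le (n + 1) (-1)
  have h3 := le_abs_self N
  rw [add_neg_cancel_right, abs_neg, abs_one] at h2
  omega

theorem Resp_up2 {A B₀ : Set D} {w : ∀ n, E.I n → W2 Ys} (hw : E.Resp (WL Ys A B₀) w) {b : D}
    {lam : ℤ → (Ys b).Y}
    (hlam : ∀ n i j g, ((E.d n (Finsupp.single i 1)) j).coeff g ≠ 0 → lam n ≤ g • lam (n + 1)) :
    E.Resp (WL Ys A (insert b B₀)) fun n i => up2 b (lam n) (w n i) := by
  intro n i j g hg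
  refine ⟨(hw n i j g hg).1, fun a ha => ?_⟩
  by_cases hab : a = b
  · subst hab
    change (up2 a (lam n) (w n i)).2 a ≤ g • (up2 a (lam (n + 1)) (w (n + 1) j)).2 a
    rw [up2_snd_self, up2_snd_self]
    exact hlam n i j g hg
  · change (up2 b (lam n) (w n i)).2 a ≤ g • (up2 b (lam (n + 1)) (w (n + 1) j)).2 a
    rw [up2_snd_ne hab, up2_snd_ne hab]
    exact (hw n i j g hg).2 a (ha.resolve_left hab)

theorem OC_up2 {w : ∀ n, E.I n → W2 Ys} (ho : OC w) {b : D} {lam : ℤ → (Ys b).Y}
    (hlam : ∀ n i, (w n i).1 b ≤ lam n) : OC fun n i => up2 b (lam n) (w n i) := by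
  intro n i a
  by_cases hab : a = b
  · subst hab
    change (w n i).1 a ≤ (up2 a (lam n) (w n i)).2 a
    rw [up2_snd_self]
    exact hlam n i
  · change (w n i).1 a ≤ (up2 b (lam n) (w n i)).2 a
    rw [up2_snd_ne hab]
    exact ho n i a

theorem retract_step {A : Set D} {b : D} {B : List D} (hb : b ∉ B) {X : KV S (UL Ys A)}
    (hz : IsZero ((kL S (subHom Ys (A := A) (A' := A \ {b}) Set.sdiff_subset)).obj X)) (m : ℤ)
    (hE : E.Fin') {w : ∀ n, E.I n → W2 Ys} (ho : OC w)
    (hw : E.Resp (WL Ys A {c | c ∈ B}) w)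
    (h : (psi D E B).Resp (UL Ys A) fun n i => (labB w B n i).1)
    (R : Retract (X⟦m⟧) ((QL S (UL Ys A)).obj (T _ h))) :
    ∃ (w' : ∀ n, E.I n → W2 Ys) (_ : OC w') (_ : E.Resp (WL Ys A {c | c ∈ b :: B}) w')
      (h' : (psi D E (b :: B)).Resp (UL Ys A) fun n i => (labB w' (b :: B) n i).1),
      Nonempty (Retract (X⟦m + 1⟧) ((QL S (UL Ys A)).obj (T _ h'))) := by
  let θ := subHom Ys (A := A) (A' := A \ {b}) Set.sdiff_subset
  let u : ∀ n, (psi D E B).I n → (UL Ys A).W := fun n i => (labB w B n i).1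
  obtain ⟨t, ht⟩ := (QL S (UL Ys A)).map_surjective (R.r ≫ R.i)
  have h0 : (kL S θ).map ((QL S (UL Ys A)).map t) = 0 := by
    have hz' : IsZero ((kL S θ).obj (X⟦m⟧)) :=
      ((shiftFunctor (KV S (UL Ys (A \ {b}))) m).map_isZero hz).of_iso
        (((kL S θ).commShiftIso m).app X)
    rw [ht, Functor.map_comp, hz'.eq_of_tgt ((kL S θ).map R.r) 0, zero_comp]
  obtain ⟨k, hk, hk2⟩ := exists_k θ t h0
  have hP : (psi D E B).Fin' := psi_Fin' hE B
  have hf1 := range_finite hE fun n i => (w n i).1 b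
  have hf2 := supp_finite' (shiftG_Fin' hP) (J := (psi D E B).I) k
    (fun n (i : (psi D E B).I (n + 1)) j g => g⁻¹ • (labB w B (n + 1) i).1 b)
  obtain ⟨y, hy⟩ := (Ys b).exists_ub _ (hf1.union hf2)
  obtain ⟨lam, hlam1, hlam2⟩ := choose_lam hE (Ys b) y
  let w' : ∀ n, E.I n → W2 Ys := fun n i => up2 b (lam n) (w n i)
  have ho' : OC w' := OC_up2 ho fun n i => (hy _ (Or.inl ⟨n, i, rfl⟩)).trans (hlam1 n)
  have hset : {c | c ∈ b :: B} = insert b {c | c ∈ B} := by
    ext c
    exact List.mem_cons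
  have hw' : E.Resp (WL Ys A {c | c ∈ b :: B}) w' := by
    rw [hset]
    exact Resp_up2 hw hlam2
  have hlab : ∀ n i, labB w' B n i = up2 b (lam (degB E B n i)) (labB w B n i) :=
    labB_up2 w lam B hb
  have hbB : b ∈ {c | c ∈ b :: B} := List.mem_cons_self
  have h1 := Resp_labB hw' ho' B fun c hc => List.mem_cons_of_mem _ hc
  have hu' := Resp_fst h1
  have hv' := Resp_fst (Resp_rho h1 hbB)
  have h' := Resp_fst (Resp_labB hw' ho' (b :: B) fun c hc => hc)
  obtain ⟨gg, ll, hT⟩ := psi_triangle hw' ho' b B hbB hu' hv' h'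
  have hfst : ∀ n i, (labB w' B n i).1 = (labB w B n i).1 := fun n i => by
    rw [hlab, up2_fst]
  let jj := iotaIso (L := UL Ys A) h hu'
    (fun n i => by rw [hfst]; exact (UL Ys A).refl _)
    (fun n i => by rw [hfst]; exact (UL Ys A).refl _)
  let R' : Retract (X⟦m⟧) ((QL S (UL Ys A)).obj (T _ hu')) :=
    R.trans (Retract.ofIso ((QL S (UL Ys A)).mapIso jj))
  have hle := fun n i => (le_rho (A := A) (B := {c | c ∈ b :: B}) b (OC_labB ho' B n i)).1
  have hzero : R'.r ≫ R'.i ≫ (QL S (UL Ys A)).map (iota hu' hv' hle) = 0 := by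
    have h2 : R'.r ≫ R'.i ≫ (QL S (UL Ys A)).map (iota hu' hv' hle) =
        (QL S (UL Ys A)).map (jj.inv ≫ t ≫ jj.hom ≫ iota hu' hv' hle) := by
      rw [Functor.map_comp, Functor.map_comp, Functor.map_comp, ht]
      change ((QL S (UL Ys A)).map jj.inv ≫ R.r) ≫ (R.i ≫ (QL S (UL Ys A)).map jj.hom) ≫ _ = _
      simp only [Category.assoc]
    rw [h2]
    refine map_zero_of_k _ k (fun n => ?_) fun n => ?_
    · intro i j g hg a ha
      by_cases hab : a = b
      · subst hab
        change (labB w' B (n + 1) i).1 a ≤ g • (rhoW a (labB w' B n j)).1 a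
        rw [rho_fst_self, hlab n j, up2_snd_self, hfst]
        have h3 : g⁻¹ • (labB w B (n + 1) i).1 a ≤ lam (degB E B n j) :=
          (hy _ (Or.inr ⟨n, i, j, g, hg, rfl⟩)).trans (hlam1 _)
        have h4 := (Ys a).mono g h3
        rwa [smul_inv_smul] at h4
      · change (labB w' B (n + 1) i).1 a ≤ g • (rhoW b (labB w' B n j)).1 a
        rw [rho_fst_ne hab, hfst, hfst]
        exact hk n i j g hg a ⟨ha, hab⟩
    · exact hk2 n
  obtain ⟨R''⟩ := retract_shift_of_comp_zero _ gg ll hT R' hzero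
  exact ⟨w', ho', hw', h', ⟨(Retract.ofIso ((shiftFunctorAdd (KV S (UL Ys A)) m 1).app X)).trans R''⟩⟩

end GC

end Pool.Agent.Lib.MP_c052b4_al.MT
end

section

/-!
# The retract lemma (TREES^n, helper78)
-/

set_option autoImplicit false
set_option linter.unusedVariables false

namespace Pool.Agent.Lib.MP_c052b4_al.MT

open CategoryTheory CategoryTheory.Limits CategoryTheory.Pretriangulated GC

universe u

variable {S : Type u} [Ring S] {G : Type u} [Group G] {D : Type} {Ys : D → Dir G}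

/-- RETRACT LEMMA. -/
theorem retract_lemma {A : Set D} {X : KV S (UL Ys A)} (hX : Dom S (UL Ys A) X) :
    ∀ (B : List D) (_ : B.Nodup)
      (_ : ∀ b ∈ B, IsZero ((kL S (subHom Ys (A := A) (A' := A \ {b}) Set.sdiff_subset)).obj X)),
      ∃ (m : ℤ) (E : GC S G) (_ : E.Fin') (w : ∀ n, E.I n → W2 Ys) (_ : OC w)
        (_ : E.Resp (WL Ys A {c | c ∈ B}) w)
        (h : (psi D E B).Resp (UL Ys A) fun n i => (labB w B n i).1),
        Nonempty (Retract (X⟦m⟧) ((QL S (UL Ys A)).obj (T _ h)))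
  | [], _, _ => by
    obtain ⟨Y, ⟨K, hK, ⟨e⟩⟩, ⟨R⟩⟩ := Dom_le_retract X hX
    refine ⟨0, gcOf K, gcOf_Fin' hK, fun n i => ((K.X n).l i, (K.X n).l i), fun n i a => le_rfl,
      fun n i j g hg => ⟨gcOf_Resp K n i j g hg, fun a ha => absurd ha List.not_mem_nil⟩,
      gcOf_Resp K, ⟨?_⟩⟩
    exact (Retract.ofIso ((shiftFunctorZero (KV S (UL Ys A)) ℤ).app X)).trans
      (R.trans (Retract.ofIso (e ≪≫ (QL S (UL Ys A)).mapIso (gcIso K))))
  | b :: B, hB, hz => by
    obtain ⟨hbB, hB'⟩ := List.nodup_cons.1 hB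
    obtain ⟨m, E, hE, w, ho, hw, h, ⟨R⟩⟩ :=
      retract_lemma hX B hB' fun c hc => hz c (List.mem_cons_of_mem _ hc)
    obtain ⟨w', ho', hw', h', hR⟩ := retract_step hbB (hz b List.mem_cons_self) m hE ho hw h R
    exact ⟨m + 1, E, hE, w', ho', hw', h', hR⟩

theorem lin_T_d {L : Lbl G} {E : GC S G} {w : ∀ n, E.I n → L.W} (h : E.Resp L w) (n : ℤ) :
    VCat.lin ((T w h).d n (n + 1)) = E.d n := by
  rw [T_d]
  rfl

/-- Change of labels of a matrix complex. -/
noncomputable def mapTIso {L L' : Lbl G} (θ : LblHom L L') {E : GC S G} {w : ∀ n, E.I n → L.W}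
    (h : E.Resp L w) (h' : E.Resp L' fun n i => θ.f (w n i)) :
    ((VCat.mapL θ).mapHomologicalComplex (ComplexShape.up ℤ)).obj (T w h) ≅
      T (fun n i => θ.f (w n i)) h' :=
  isoC (fun n => Iso.refl _) fun n => by
    refine (Category.id_comp _).trans (Eq.trans ?_ (Category.comp_id _).symm)
    apply VCat.hom_ext
    exact (lin_T_d h' n).trans (lin_T_d h n).symm

/-- The iterated cones are dominated. -/
theorem Dom_psi {A : Set D} {E : GC S G} (hE : E.Fin') (B : List D)
    {u : ∀ n, (psi D E B).I n → (UL Ys A).W} (h : (psi D E B).Resp (UL Ys A) u) :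
    Dom S (UL Ys A) ((QL S (UL Ys A)).obj (T u h)) :=
  dom_of_FFc (FFc_T (psi_Fin' hE B) u h)

/-- The iterated cones are acyclic in the directions in `B`. -/
theorem DB_psi {A B₀ : Set D} {E : GC S G} (hE : E.Fin') (B : List D)
    {w : ∀ n, E.I n → W2 Ys} (ho : OC w) (hw : E.Resp (WL Ys A B₀) w)
    (hB : ∀ c ∈ B, c ∈ B₀)
    (h : (psi D E B).Resp (UL Ys A) fun n i => (labB w B n i).1) :
    DB S Ys A {c | c ∈ B} ((QL S (UL Ys A)).obj (T _ h)) := by
  refine ⟨Dom_psi hE B h, fun b hb => ?_⟩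
  have hw' : E.Resp (WL Ys (A \ {b}) B₀) w := Resp_mono hw Set.sdiff_subset (le_refl _)
  have h' := Resp_fst (Resp_labB hw' ho B hB)
  have h2 := psi_acyclic (fun h => h.2 rfl) B hb hB hw' ho h'
  exact h2.of_iso ((QL S (UL Ys (A \ {b}))).mapIso (mapTIso (subHom Ys Set.sdiff_subset) h h'))

end Pool.Agent.Lib.MP_c052b4_al.MT
end

section

/-!
# Lifting an idempotent to a further direction (TREES^n, helper78)
-/

set_option autoImplicit false
set_option linter.unusedVariables false

namespace Pool.Agent.Lib.MP_c052b4_al.MT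

open CategoryTheory CategoryTheory.Limits CategoryTheory.Pretriangulated GC

universe u

variable {S : Type u} [Ring S] {G : Type u} [Group G] {D : Type} {Ys : D → Dir G}

/-- Change both labels in direction `a`. -/
noncomputable def up12 (a : D) (y : (Ys a).Y) (x : W2 Ys) : W2 Ys := up2 a y (up1 a y x)

theorem up12_fst_self (a : D) (y : (Ys a).Y) (x : W2 Ys) : (up12 a y x).1 a = y :=
  up1_fst_self a y x

theorem up12_fst_ne {a c : D} (h : c ≠ a) (y : (Ys a).Y) (x : W2 Ys) :
    (up12 a y x).1 c = x.1 c := up1_fst_ne h y x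

theorem up12_snd_self (a : D) (y : (Ys a).Y) (x : W2 Ys) : (up12 a y x).2 a = y :=
  up2_snd_self a y _

theorem up12_snd_ne {a c : D} (h : c ≠ a) (y : (Ys a).Y) (x : W2 Ys) :
    (up12 a y x).2 c = x.2 c := up2_snd_ne h y _

namespace GC

variable {E : GC S G}

theorem labB_up12 (w : ∀ n, E.I n → W2 Ys) {a : D} (lam : ℤ → (Ys a).Y) (B : List D) (h : a ∉ B)
    (n : ℤ) (i : (psi D E B).I n) :
    labB (fun n i => up12 a (lam n) (w n i)) B n i = up12 a (lam (degB E B n i)) (labB w B n i) := by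
  unfold up12
  rw [labB_up2 (fun n i => up1 a (lam n) (w n i)) lam B h, labB_up1 w lam B h]

theorem Resp_up12 {A B₀ : Set D} {w : ∀ n, E.I n → W2 Ys} {a : D}
    (hw : E.Resp (WL Ys (A \ {a}) B₀) w) (haB : a ∉ B₀) {lam : ℤ → (Ys a).Y}
    (hlam : ∀ n i j g, ((E.d n (Finsupp.single i 1)) j).coeff g ≠ 0 → lam n ≤ g • lam (n + 1)) :
    E.Resp (WL Ys A B₀) fun n i => up12 a (lam n) (w n i) := by
  intro n i j g hg
  refine ⟨fun c hc => ?_, fun c hc => ?_⟩
  · change (up12 a (lam n) (w n i)).1 c ≤ g • (up12 a (lam (n + 1)) (w (n + 1) j)).1 c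
    by_cases hca : c = a
    · subst hca
      rw [up12_fst_self, up12_fst_self]
      exact hlam n i j g hg
    · rw [up12_fst_ne hca, up12_fst_ne hca]
      exact (hw n i j g hg).1 c ⟨hc, hca⟩
  · change (up12 a (lam n) (w n i)).2 c ≤ g • (up12 a (lam (n + 1)) (w (n + 1) j)).2 c
    have hca : c ≠ a := fun h => haB (h ▸ hc)
    rw [up12_snd_ne hca, up12_snd_ne hca]
    exact (hw n i j g hg).2 c hc

theorem OC_up12 {w : ∀ n, E.I n → W2 Ys} (ho : OC w) {a : D} {lam : ℤ → (Ys a).Y} :
    OC fun n i => up12 a (lam n) (w n i) := by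
  intro n i c
  change (up12 a (lam n) (w n i)).1 c ≤ (up12 a (lam n) (w n i)).2 c
  by_cases hca : c = a
  · subst hca
    rw [up12_fst_self, up12_snd_self]
  · rw [up12_fst_ne hca, up12_snd_ne hca]
    exact ho n i c

end GC

/-- The identification of `p C'` with `P`. -/
noncomputable def alphaIso {A : Set D} {a : D} {E : GC S G} {u : ∀ n, E.I n → (UL Ys A).W}
    {u' : ∀ n, E.I n → (UL Ys (A \ {a})).W} (h : E.Resp (UL Ys A) u)
    (h' : E.Resp (UL Ys (A \ {a})) u') (hu : ∀ n i c, c ≠ a → u n i c = u' n i c) :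
    ((VCat.mapL (subHom Ys (A := A) (A' := A \ {a}) Set.sdiff_subset)).mapHomologicalComplex
      (ComplexShape.up ℤ)).obj (T u h) ≅ T u' h' :=
  mapTIso (subHom Ys (A := A) (A' := A \ {a}) Set.sdiff_subset) h
    (fun n => (h n).map (subHom Ys (A := A) (A' := A \ {a}) Set.sdiff_subset)) ≪≫
  iotaIso (L := UL Ys (A \ {a}))
    (fun n => (h n).map (subHom Ys (A := A) (A' := A \ {a}) Set.sdiff_subset)) h'
    (fun n i c hc => le_of_eq (hu n i c hc.2)) (fun n i c hc => le_of_eq (hu n i c hc.2).symm)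

theorem alphaIso_lin {A : Set D} {a : D} {E : GC S G} {u : ∀ n, E.I n → (UL Ys A).W}
    {u' : ∀ n, E.I n → (UL Ys (A \ {a})).W} (h : E.Resp (UL Ys A) u)
    (h' : E.Resp (UL Ys (A \ {a})) u') (hu : ∀ n i c, c ≠ a → u n i c = u' n i c) (n : ℤ) :
    VCat.lin ((alphaIso h h' hu).hom.f n) = LinearMap.id := rfl

theorem alphaIso_inv_lin {A : Set D} {a : D} {E : GC S G} {u : ∀ n, E.I n → (UL Ys A).W}
    {u' : ∀ n, E.I n → (UL Ys (A \ {a})).W} (h : E.Resp (UL Ys A) u)
    (h' : E.Resp (UL Ys (A \ {a})) u') (hu : ∀ n i c, c ≠ a → u n i c = u' n i c) (n : ℤ) :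
    VCat.lin ((alphaIso h h' hu).inv.f n) = LinearMap.id := rfl

theorem lift_aux {C : Type*} [Category C] {X P P₁ P₂ : C} (i : X ⟶ P) (r : P ⟶ X)
    (hir : i ≫ r = 𝟙 X) (α1 : P₁ ≅ P) (α2 : P₂ ≅ P) (ι e : P₁ ⟶ P₂)
    (h1 : ι = α1.hom ≫ α2.inv) (h2 : e = α1.hom ≫ (r ≫ i) ≫ α2.inv) :
    (i ≫ α1.inv) ≫ (α1.hom ≫ r) = 𝟙 X ∧ IsIso ι ∧ e = (α1.hom ≫ r) ≫ (i ≫ α1.inv) ≫ ι := by
  subst h1 h2
  refine ⟨?_, inferInstance, ?_⟩
  · rw [Category.assoc, ← Category.assoc α1.inv, α1.inv_hom_id, Category.id_comp, hir]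
  · simp only [Category.assoc]
    rw [← Category.assoc α1.inv, α1.inv_hom_id, Category.id_comp]

/-- LIFTING. -/
theorem lift_idem {A : Set D} {a : D} {B : List D} (hB : B.Nodup) (haB : a ∉ B)
    {X : KV S (UL Ys (A \ {a}))} (hX : DB S Ys (A \ {a}) {c | c ∈ B} X) :
    ∃ (m : ℤ) (C' C'' : KV S (UL Ys A)) (ι e : C' ⟶ C'')
      (i : X⟦m⟧ ⟶ (kL S (subHom Ys (A := A) (A' := A \ {a}) Set.sdiff_subset)).obj C')
      (r : (kL S (subHom Ys (A := A) (A' := A \ {a}) Set.sdiff_subset)).obj C' ⟶ X⟦m⟧),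
      FFK S (UL Ys A) C' ∧ FFK S (UL Ys A) C'' ∧ DB S Ys A {c | c ∈ B} C' ∧
      DB S Ys A {c | c ∈ B} C'' ∧ i ≫ r = 𝟙 _ ∧
      IsIso ((kL S (subHom Ys (A := A) (A' := A \ {a}) Set.sdiff_subset)).map ι) ∧
      (kL S (subHom Ys (A := A) (A' := A \ {a}) Set.sdiff_subset)).map e =
        r ≫ i ≫ (kL S (subHom Ys (A := A) (A' := A \ {a}) Set.sdiff_subset)).map ι := by
  obtain ⟨m, E, hE, w, ho, hw, h, ⟨R⟩⟩ := retract_lemma hX.1 B hB hX.2
  obtain ⟨y₀⟩ := (Ys a).ne
  obtain ⟨lam, -, hlam⟩ := choose_lam hE (Ys a) y₀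
  have ho1 := OC_up12 ho (a := a) (lam := lam)
  have hw1 := Resp_up12 (A := A) hw haB hlam
  have h1 := Resp_fst (Resp_labB hw1 ho1 B fun c hc => hc)
  obtain ⟨t, ht⟩ := (QL S (UL Ys (A \ {a}))).map_surjective (R.r ≫ R.i)
  obtain ⟨k, hk, comm, rfl, -⟩ := exists_Tmap t
  have hP : (psi D E B).Fin' := psi_Fin' hE B
  have hf1 := range_finite hP fun n i => lam (degB E B n i)
  have hf2 := supp_finite' hP (J := (psi D E B).I) k
    (fun n i j g => g⁻¹ • lam (degB E B n i))
  obtain ⟨y, hy⟩ := (Ys a).exists_ub _ (hf1.union hf2)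
  obtain ⟨mu, hmu1, hmu⟩ := choose_lam hE (Ys a) y
  have ho2 := OC_up12 ho (a := a) (lam := mu)
  have hw2 := Resp_up12 (A := A) hw haB hmu
  have h2 := Resp_fst (Resp_labB hw2 ho2 B fun c hc => hc)
  have hle : ∀ n i, (UL Ys A).le (labB (fun n i => up12 a (lam n) (w n i)) B n i).1
      (labB (fun n i => up12 a (mu n) (w n i)) B n i).1 := by
    intro n i c hc
    rw [labB_up12 w lam B haB, labB_up12 w mu B haB]
    by_cases hca : c = a
    · subst hca
      rw [up12_fst_self, up12_fst_self]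
      exact (hy _ (Or.inl ⟨n, i, rfl⟩)).trans (hmu1 _)
    · rw [up12_fst_ne hca, up12_fst_ne hca]
  have hke : ∀ n, RM (UL Ys A) (k n)
      (fun i => (labB (fun n i => up12 a (lam n) (w n i)) B n i).1)
      (fun i => (labB (fun n i => up12 a (mu n) (w n i)) B n i).1) := by
    intro n i j g hg c hc
    change (labB (fun n i => up12 a (lam n) (w n i)) B n i).1 c ≤
      g • (labB (fun n i => up12 a (mu n) (w n i)) B n j).1 c
    rw [labB_up12 w lam B haB, labB_up12 w mu B haB]
    by_cases hca : c = a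
    · subst hca
      rw [up12_fst_self, up12_fst_self]
      have h3 : g⁻¹ • lam (degB E B n i) ≤ mu (degB E B n j) :=
        (hy _ (Or.inr ⟨n, i, j, g, hg, rfl⟩)).trans (hmu1 _)
      have h4 := (Ys c).mono g h3
      rwa [smul_inv_smul] at h4
    · rw [up12_fst_ne hca, up12_fst_ne hca]
      exact hk n i j g hg c ⟨hc, hca⟩
  let ι := iota (L := UL Ys A) h1 h2 hle
  let ee := Tmap (L := UL Ys A) (h := h1) (h' := h2) k hke comm
  let α1 := alphaIso (a := a) h1 h (fun n i c hc => by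
    rw [labB_up12 w lam B haB, up12_fst_ne hc])
  let α2 := alphaIso (a := a) h2 h (fun n i c hc => by
    rw [labB_up12 w mu B haB, up12_fst_ne hc])
  let q := (VCat.mapL (S := S) (subHom Ys (A := A) (A' := A \ {a}) Set.sdiff_subset)).mapHomologicalComplex
    (ComplexShape.up ℤ)
  have e1 : q.map ι = α1.hom ≫ α2.inv := by
    ext n : 1
    rfl
  have e2 : q.map ee = α1.hom ≫ Tmap (h := h) (h' := h) k hk comm ≫ α2.inv := by
    ext n : 1
    rfl
  have e1' : (kL S (subHom Ys (A := A) (A' := A \ {a}) Set.sdiff_subset)).map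
      ((QL S (UL Ys A)).map ι) = (QL S (UL Ys (A \ {a}))).map (α1.hom ≫ α2.inv) :=
    congrArg (QL S (UL Ys (A \ {a}))).map e1
  have e2' : (kL S (subHom Ys (A := A) (A' := A \ {a}) Set.sdiff_subset)).map
      ((QL S (UL Ys A)).map ee) = (QL S (UL Ys (A \ {a}))).map
        (α1.hom ≫ Tmap (h := h) (h' := h) k hk comm ≫ α2.inv) :=
    congrArg (QL S (UL Ys (A \ {a}))).map e2
  have e1'' : (kL S (subHom Ys (A := A) (A' := A \ {a}) Set.sdiff_subset)).map
      ((QL S (UL Ys A)).map ι) = ((QL S (UL Ys (A \ {a}))).mapIso α1).hom ≫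
        ((QL S (UL Ys (A \ {a}))).mapIso α2).inv :=
    e1'.trans (Functor.map_comp _ _ _)
  have e2'' : (kL S (subHom Ys (A := A) (A' := A \ {a}) Set.sdiff_subset)).map
      ((QL S (UL Ys A)).map ee) = ((QL S (UL Ys (A \ {a}))).mapIso α1).hom ≫
        (R.r ≫ R.i) ≫ ((QL S (UL Ys (A \ {a}))).mapIso α2).inv := by
    refine e2'.trans ?_
    rw [← ht]
    exact (Functor.map_comp _ _ _).trans (congrArg _ (Functor.map_comp _ _ _))
  obtain ⟨f1, f2, f3⟩ := lift_aux R.i R.r R.retract _ _ _ _ e1'' e2''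
  exact ⟨m, (QL S (UL Ys A)).obj (T _ h1), (QL S (UL Ys A)).obj (T _ h2),
    (QL S (UL Ys A)).map ι, (QL S (UL Ys A)).map ee, _, _,
    FFK_of_FFc (FFc_T hP _ _), FFK_of_FFc (FFc_T hP _ _),
    DB_psi hE B ho1 hw1 (fun c hc => hc) h1, DB_psi hE B ho2 hw2 (fun c hc => hc) h2, f1, f2, f3⟩

end Pool.Agent.Lib.MP_c052b4_al.MT
end
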