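import Pool.Agent.Lib.MP_c052b4_al.Mg.G014
import Pool.Agent.Lib.MP_c052b4_al.Mg.G015
import Pool.Agent.Lib.MP_c052b4_al.Mg.G008
import Pool.Agent.Lib.MP_c052b4_al.Mg.G009
import Pool.Agent.Lib.MP_c052b4_al.Mg.G018
import Pool.Agent.Lib.MP_c052b4_al.Mg.G071

section

/-!
# TREES, section 6: the torsion of a contractible complex; cones
-/

set_option autoImplicit false
set_option linter.unusedSectionVars false

namespace Pool.Agent.Lib.MP_c052b4_al.MT

open Matrix

universe u v w w'

section TorC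

variable {R : Type u} [Ring R] {G : Type v} [Group G] {I : Type} [Fintype I] [DecidableEq I]

/-- The torsion of a contractible complex. -/
noncomputable def torC (deg : I → ℤ) (e : Matrix I I R) (d k : Matrix I I (MonoidAlgebra R G)) :
    KOne (MonoidAlgebra R G) :=
  tor (pj R deg (fun q => Odd q) * e) (pj (MonoidAlgebra R G) deg (fun q => Odd q) * (d + k))
    (pj (MonoidAlgebra R G) deg (fun q => ¬ Odd q) * (d + k))

theorem cm_pj (deg : I → ℤ) (P : ℤ → Prop) :
    cm G (pj R deg P) = pj (MonoidAlgebra R G) deg P := pj_map _ _ _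

theorem ag_pj (deg : I → ℤ) (P : ℤ → Prop) :
    ag (pj (MonoidAlgebra R G) deg P) = pj (MonoidAlgebra R G) deg P := by
  unfold ag
  rw [pj_map, pj_map]

theorem ag_add {J : Type} (M N : Matrix I J (MonoidAlgebra R G)) :
    ag (M + N) = ag M + ag N := by
  refine Matrix.ext fun i j => ?_
  change cG R G (augm R G (M i j + N i j)) = cG R G (augm R G (M i j)) + cG R G (augm R G (N i j))
  rw [map_add, map_add]

theorem ag_neg {J : Type} (M : Matrix I J (MonoidAlgebra R G)) : ag (-M) = - ag M := by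
  refine Matrix.ext fun i j => ?_
  change cG R G (augm R G (-(M i j))) = - cG R G (augm R G (M i j))
  rw [map_neg, map_neg]

theorem ag_sub {J : Type} (M N : Matrix I J (MonoidAlgebra R G)) :
    ag (M - N) = ag M - ag N := by
  rw [sub_eq_add_neg, ag_add, ag_neg, ← sub_eq_add_neg]

theorem ag_zero {J : Type} : ag (0 : Matrix I J (MonoidAlgebra R G)) = 0 := by
  refine Matrix.ext fun i j => ?_
  change cG R G (augm R G 0) = 0
  rw [map_zero, map_zero]

theorem HasDeg.ag {deg : I → ℤ} {c : ℤ} {M : Matrix I I (MonoidAlgebra R G)}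
    (h : HasDeg deg c M) : HasDeg deg c (ag M) := by
  intro i j hij
  refine h i j fun h1 => hij ?_
  change cG R G (augm R G (M i j)) = 0
  rw [h1, map_zero, map_zero]

variable {deg : I → ℤ} {e : Matrix I I R} {d k k' : Matrix I I (MonoidAlgebra R G)}

theorem IsCon.agc (h : IsCon deg (cm G e) d k) : IsCon deg (cm G e) (ag d) (ag k) where
  deg_e := h.deg_e
  deg_d := h.deg_d.ag
  deg_k := h.deg_k.ag
  ee := h.ee
  ed := by rw [← ag_cm, ← ag_mul, h.ed]
  de := by rw [← ag_cm, ← ag_mul, h.de]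
  ek := by rw [← ag_cm, ← ag_mul, h.ek]
  ke := by rw [← ag_cm, ← ag_mul, h.ke]
  dd := by rw [← ag_mul, h.dd, ag_zero]
  con := by rw [← ag_mul, ← ag_mul, ← ag_add, h.con, ag_cm]

theorem IsCon.isoPair (h : IsCon deg (cm G e) d k) (hk : k * k = 0) :
    IsIsoPair (pj R deg (fun q => Odd q) * e) (pj R deg (fun q => ¬ Odd q) * e)
      (pj (MonoidAlgebra R G) deg (fun q => Odd q) * (d + k)) (pj (MonoidAlgebra R G) deg (fun q => ¬ Odd q) * (d + k)) := by
  have c1 : ∀ P : ℤ → Prop, pj (MonoidAlgebra R G) deg P * cm G e = cm G e * pj (MonoidAlgebra R G) deg P :=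
    fun P => h.deg_e.comm _ _ fun q => by rw [add_zero]
  refine ⟨?_, ?_, ?_, ?_, ?_, ?_⟩
  · rw [cm_mul, cm_pj, Matrix.mul_assoc, ← Matrix.mul_assoc (d + k), ← h.odd_mul,
      Matrix.mul_assoc (pj _ _ _), h.sq_add hk, ← Matrix.mul_assoc, pj_idem]
  · rw [cm_mul, cm_pj, Matrix.mul_assoc, ← Matrix.mul_assoc (d + k), ← h.even_mul,
      Matrix.mul_assoc (pj _ _ _), h.sq_add hk, ← Matrix.mul_assoc, pj_idem]
  · rw [cm_mul, cm_pj, c1, Matrix.mul_assoc, ← Matrix.mul_assoc (pj _ _ _), pj_idem,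
      ← Matrix.mul_assoc, ← c1, Matrix.mul_assoc, h.e_mul]
  · rw [cm_mul, cm_pj, Matrix.mul_assoc, ← Matrix.mul_assoc (d + k), ← h.odd_mul,
      Matrix.mul_assoc (pj _ _ _), h.mul_e, ← Matrix.mul_assoc, pj_idem]
  · rw [cm_mul, cm_pj, c1, Matrix.mul_assoc, ← Matrix.mul_assoc (pj _ _ _), pj_idem,
      ← Matrix.mul_assoc, ← c1, Matrix.mul_assoc, h.e_mul]
  · rw [cm_mul, cm_pj, Matrix.mul_assoc, ← Matrix.mul_assoc (d + k), ← h.even_mul,
      Matrix.mul_assoc (pj _ _ _), h.mul_e, ← Matrix.mul_assoc, pj_idem]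

theorem pj_mul_idem {e : Matrix I I R} (he : e * e = e) (hd : HasDeg deg 0 e) (P : ℤ → Prop) :
    (pj R deg P * e) * (pj R deg P * e) = pj R deg P * e := by
  have c1 : pj R deg P * e = e * pj R deg P := hd.comm _ _ fun q => by rw [add_zero]
  rw [Matrix.mul_assoc, ← Matrix.mul_assoc e, ← c1, Matrix.mul_assoc, he, ← Matrix.mul_assoc,
    pj_idem]

theorem cm_inj {J : Type} {M N : Matrix I J R} (h : cm G M = cm G N) : M = N := by
  refine Matrix.ext fun i j => ?_
  have h1 := congrFun (congrFun h i) j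
  change cG R G (M i j) = cG R G (N i j) at h1
  have h2 := congrArg (augm R G) h1
  rwa [augm_cG, augm_cG] at h2

theorem HasDeg.of_cm {c : ℤ} {e : Matrix I I R} (h : HasDeg deg c (cm G e)) : HasDeg deg c e := by
  intro i j hij
  refine h i j fun h1 => hij ?_
  change cG R G (e i j) = 0 at h1
  have h2 := congrArg (augm R G) h1
  rwa [augm_cG, map_zero] at h2

theorem IsCon.e_idem (h : IsCon deg (cm G e) d k) : e * e = e := by
  apply cm_inj (G := G)
  rw [cm_mul, h.ee]

/-- A formula for the torsion. -/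
theorem torC_eq (h : IsCon deg (cm G e) d k) :
    torC deg e d k = kk (pj (MonoidAlgebra R G) deg (fun q => Odd q) * ((d + k) * ag (d + k) - cm G e)) := by
  unfold torC tor
  rw [ag_mul, ag_pj, cm_mul, cm_pj, Matrix.mul_assoc, ← Matrix.mul_assoc (d + k), ← h.odd_mul,
    Matrix.mul_assoc (pj _ _ _), ← Matrix.mul_assoc (pj _ _ _) (pj _ _ _), pj_idem, Matrix.mul_sub]

theorem torC_eq' (h : IsCon deg (cm G e) d k) (hk : k * k = 0) :
    - torC deg e d k = kk (pj (MonoidAlgebra R G) deg (fun q => ¬ Odd q) * ((d + k) * ag (d + k) - cm G e)) := by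
  unfold torC
  rw [← tor_symm (pj_mul_idem h.e_idem h.deg_e.of_cm _) (h.isoPair hk)]
  unfold tor
  rw [ag_mul, ag_pj, cm_mul, cm_pj, Matrix.mul_assoc, ← Matrix.mul_assoc (d + k), ← h.even_mul,
    Matrix.mul_assoc (pj _ _ _), ← Matrix.mul_assoc (pj _ _ _) (pj _ _ _), pj_idem, Matrix.mul_sub]

/-- The torsion does not depend on the contraction. -/
theorem torC_indep (h : IsCon deg (cm G e) d k) (h' : IsCon deg (cm G e) d k') (hk : k * k = 0)
    (hk' : k' * k' = 0) : torC deg e d k = torC deg e d k' := by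
  have hp := pj_mul_idem h.e_idem h.deg_e.of_cm (fun q => Odd q)
  have i1 := h.isoPair hk
  have i2 := h'.isoPair hk'
  have e1 : torC deg e d k - torC deg e d k' = 0 := by
    unfold torC
    rw [sub_eq_add_neg, ← tor_symm hp i2, ← tor_trans hp i1 i2.symm]
    have i3 := i1.trans i2.symm
    unfold tor
    rw [kk_auto_mul hp i3 i3.ag_h.symm]
    have e2 : ∀ {a b : Matrix I I (MonoidAlgebra R G)}, IsCon deg (cm G e) d a →
        IsCon deg (cm G e) d b → a * a = 0 → b * b = 0 →
        kk (pj (MonoidAlgebra R G) deg (fun q => Odd q) * (d + a) * (pj (MonoidAlgebra R G) deg (fun q => ¬ Odd q) * (d + b)) -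
          cm G (pj R deg (fun q => Odd q) * e)) = 0 := by
      intro a b ha hb haa hbb
      rw [cm_mul, cm_pj, Matrix.mul_assoc, ← Matrix.mul_assoc (d + a), ← ha.odd_mul,
        Matrix.mul_assoc (pj _ _ _), ← Matrix.mul_assoc (pj _ _ _) (pj _ _ _), pj_idem,
        ← Matrix.mul_sub]
      exact kk_con_con ha hb haa hbb
    have e3 : kk (ag (pj (MonoidAlgebra R G) deg (fun q => Odd q) * (d + k') *
        (pj (MonoidAlgebra R G) deg (fun q => ¬ Odd q) * (d + k))) -
          cm G (pj R deg (fun q => Odd q) * e)) = 0 := by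
      have g1 : ag k' * ag k' = 0 := by rw [← ag_mul, hk', ag_zero]
      have g2 : ag k * ag k = 0 := by rw [← ag_mul, hk, ag_zero]
      rw [ag_mul, ag_mul, ag_mul, ag_pj, ag_pj, ag_add, ag_add, cm_mul, cm_pj, Matrix.mul_assoc,
        ← Matrix.mul_assoc (ag d + ag k'), ← h'.agc.odd_mul,
        Matrix.mul_assoc (pj _ _ _), ← Matrix.mul_assoc (pj _ _ _) (pj _ _ _), pj_idem,
        ← Matrix.mul_sub]
      exact kk_con_con h'.agc h.agc g1 g2
    rw [e2 h h' hk hk', e3, add_zero]
  exact sub_eq_zero.1 e1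

end TorC

section Cone

variable {T : Type u} [Ring T] {I J : Type} [Fintype I] [DecidableEq I] [Fintype J]
  [DecidableEq J]

/-- Degrees of the cone. -/
def cdeg (a : I → ℤ) (b : J → ℤ) : I ⊕ J → ℤ := Sum.elim (fun i => a i - 1) b

/-- Rectangular matrices of a given degree. -/
def RDeg (a : I → ℤ) (b : J → ℤ) (c : ℤ) (M : Matrix I J T) : Prop :=
  ∀ i j, M i j ≠ 0 → b j = a i + c

theorem hasDeg_fromBlocks {a : I → ℤ} {b : J → ℤ} {c : ℤ} {A : Matrix I I T} {B : Matrix I J T}
    {C : Matrix J I T} {D : Matrix J J T} (hA : HasDeg a c A) (hB : RDeg a b (c - 1) B)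
    (hC : RDeg b a (c + 1) C) (hD : HasDeg b c D) : HasDeg (cdeg a b) c (fromBlocks A B C D) := by
  rintro (i | i) (j | j) h
  · have := hA i j h
    change a j - 1 = a i - 1 + c
    omega
  · have := hB i j h
    change b j = a i - 1 + c
    omega
  · have := hC i j h
    change a j - 1 = b i + c
    omega
  · exact hD i j h

theorem rdeg_zero {a : I → ℤ} {b : J → ℤ} {c : ℤ} : RDeg a b c (0 : Matrix I J T) :=
  fun _ _ h => absurd rfl h

theorem RDeg.mul {K : Type} {a : I → ℤ} {b : J → ℤ} {c : K → ℤ} {m n : ℤ} {M : Matrix I J T}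
    {N : Matrix J K T} (hM : RDeg a b m M) (hN : RDeg b c n N) : RDeg a c (m + n) (M * N) := by
  intro i j h
  rw [Matrix.mul_apply] at h
  obtain ⟨k, -, hk⟩ := Finset.exists_ne_zero_of_sum_ne_zero h
  have h1 := hM i k fun h => hk (by rw [h, zero_mul])
  have h2 := hN k j fun h => hk (by rw [h, mul_zero])
  omega

theorem RDeg.sub {a : I → ℤ} {b : J → ℤ} {m : ℤ} {M N : Matrix I J T}
    (hM : RDeg a b m M) (hN : RDeg a b m N) : RDeg a b m (M - N) := by
  intro i j h
  by_cases h1 : M i j = 0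
  · exact hN i j fun h2 => h (by rw [Matrix.sub_apply, h1, h2, sub_zero])
  · exact hM i j h1

variable {a : I → ℤ} {b : J → ℤ} {e d k : Matrix I I T} {e' d' k' : Matrix J J T}
  {f : Matrix I J T}

/-- The cone of a chain map of contractible complexes. -/
theorem isCon_cone (h : IsCon a e d k) (h' : IsCon b e' d' k') (hk : k * k = 0)
    (hk' : k' * k' = 0) (hf : RDeg a b 0 f) (hdf : d * f = f * d') (hef : e * f = f)
    (hfe : f * e' = f) :
    IsCon (cdeg a b) (fromBlocks e 0 0 e') (fromBlocks (-d) f 0 d')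
      (fromBlocks (-k) (k * f * k') 0 k') ∧
    (fromBlocks (-k) (k * f * k') 0 k') * (fromBlocks (-k) (k * f * k') 0 k') = 0 := by
  refine ⟨⟨?_, ?_, ?_, ?_, ?_, ?_, ?_, ?_, ?_, ?_⟩, ?_⟩
  · exact hasDeg_fromBlocks h.deg_e rdeg_zero rdeg_zero h'.deg_e
  · exact hasDeg_fromBlocks h.deg_d.neg (by norm_num; exact hf) rdeg_zero h'.deg_d
  · refine hasDeg_fromBlocks h.deg_k.neg ?_ rdeg_zero h'.deg_k
    have h1 : RDeg a b (-1 + 0 + -1) (k * f * k') := RDeg.mul (RDeg.mul h.deg_k hf) h'.deg_k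
    norm_num at h1 ⊢
    exact h1
  · rw [fromBlocks_multiply]
    simp [h.ee, h'.ee]
  · rw [fromBlocks_multiply]
    simp [h.ed, h'.ed, hef]
  · rw [fromBlocks_multiply]
    simp [h.de, h'.de, hfe]
  · rw [fromBlocks_multiply]
    simp only [Matrix.mul_neg, Matrix.zero_mul, Matrix.mul_zero, add_zero, zero_add, h.ek, h'.ek,
      ← Matrix.mul_assoc, neg_zero]
  · rw [fromBlocks_multiply]
    simp only [Matrix.neg_mul, Matrix.zero_mul, Matrix.mul_zero, add_zero, zero_add, h.ke, h'.ke,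
      Matrix.mul_assoc]
  · rw [fromBlocks_multiply]
    simp [h.dd, h'.dd, hdf]
  · rw [fromBlocks_multiply, fromBlocks_multiply, fromBlocks_add]
    have h1 : k * d = e - d * k := by rw [← h.con]; abel
    have h2 : d' * k' = e' - k' * d' := by rw [← h'.con]; abel
    have e1 : -d * (k * f * k') + f * k' + (-k * f + k * f * k' * d') = 0 := by
      have e2 : k * f * k' * d' = k * f * (k' * d') := by rw [Matrix.mul_assoc]
      have e3 : k' * d' = e' - d' * k' := by rw [← h'.con]; abel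
      have e4 : d * (k * f * k') = (d * k) * (f * k') := by simp only [Matrix.mul_assoc]
      have e5 : d * k = e - k * d := by rw [← h.con]; abel
      have e6 : e * (f * k') = f * k' := by rw [← Matrix.mul_assoc, hef]
      have e7 : k * f * e' = k * f := by rw [Matrix.mul_assoc, hfe]
      have e8 : k * d * (f * k') = k * f * (d' * k') := by
        have : k * d * (f * k') = k * (d * f) * k' := by simp only [Matrix.mul_assoc]
        rw [this, hdf]
        simp only [Matrix.mul_assoc]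
      rw [e2, e3, Matrix.neg_mul, e4, e5, Matrix.sub_mul, Matrix.mul_sub, e6, e7, e8,
        Matrix.neg_mul]
      abel
    rw [e1]
    simp [h.con, h'.con]
  · rw [fromBlocks_multiply]
    have e1 : -k * (k * f * k') + k * f * k' * k' = 0 := by
      have e2 : k * (k * f * k') = (k * k) * (f * k') := by simp only [Matrix.mul_assoc]
      rw [Matrix.neg_mul, e2, hk, Matrix.zero_mul, Matrix.mul_assoc, hk', Matrix.mul_zero, neg_zero,
        add_zero]
    rw [e1]
    simp [hk, hk']

end Cone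

section ConeEq

variable {T : Type u} [Ring T] {I J : Type} [Fintype I] [DecidableEq I] [Fintype J]
  [DecidableEq J] {a : I → ℤ} {b : J → ℤ} {e d : Matrix I I T} {e' d' : Matrix J J T}
  {f : Matrix I J T} {g : Matrix J I T} {h : Matrix I I T} {h' : Matrix J J T}

/-- The contraction of the cone of a homotopy equivalence. -/
def ck (f : Matrix I J T) (g : Matrix J I T) (h : Matrix I I T) (h' : Matrix J J T) :
    Matrix (I ⊕ J) (I ⊕ J) T :=
  fromBlocks h 0 g (-h') * (1 - fromBlocks 0 (h * f - f * h') 0 0)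

theorem isCon_ck (de : HasDeg a 0 e) (dd : HasDeg a 1 d) (de' : HasDeg b 0 e')
    (dd' : HasDeg b 1 d') (hf : RDeg a b 0 f) (hg : RDeg b a 0 g) (hh : HasDeg a (-1) h)
    (hh' : HasDeg b (-1) h') (ee : e * e = e) (ed : e * d = d) (dde : d * e = d) (ddd : d * d = 0)
    (ee' : e' * e' = e') (ed' : e' * d' = d') (dde' : d' * e' = d') (ddd' : d' * d' = 0)
    (ef : e * f = f) (fe : f * e' = f) (eg : e' * g = g) (ge : g * e = g) (eh : e * h = h)
    (he : h * e = h) (eh' : e' * h' = h') (he' : h' * e' = h') (df : d * f = f * d')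
    (dg : d' * g = g * d) (fg : f * g = e + (d * h + h * d)) (gf : g * f = e' + (d' * h' + h' * d')) :
    IsCon (cdeg a b) (fromBlocks e 0 0 e') (fromBlocks (-d) f 0 d') (ck f g h h') := by
  set w : Matrix I J T := h * f - f * h' with hw
  set K0 : Matrix (I ⊕ J) (I ⊕ J) T := fromBlocks h 0 g (-h') with hK0
  set N : Matrix (I ⊕ J) (I ⊕ J) T := fromBlocks 0 w 0 0 with hN
  set D : Matrix (I ⊕ J) (I ⊕ J) T := fromBlocks (-d) f 0 d' with hD
  set E : Matrix (I ⊕ J) (I ⊕ J) T := fromBlocks e 0 0 e' with hE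
  have ew : e * w = w := by
    rw [hw, Matrix.mul_sub, ← Matrix.mul_assoc, ← Matrix.mul_assoc, eh, ef]
  have we : w * e' = w := by
    rw [hw, Matrix.sub_mul, Matrix.mul_assoc, Matrix.mul_assoc, he', fe]
  have hEN : E * N = N := by
    rw [hE, hN, fromBlocks_multiply]
    simp [ew]
  have hNE : N * E = N := by
    rw [hE, hN, fromBlocks_multiply]
    simp [we]
  have hEK : E * K0 = K0 := by
    rw [hE, hK0, fromBlocks_multiply]
    simp [eh, eg, eh']
  have hKE : K0 * E = K0 := by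
    rw [hE, hK0, fromBlocks_multiply]
    simp [he, ge, he']
  have hED : E * D = D := by
    rw [hE, hD, fromBlocks_multiply]
    simp [ed, ef, ed']
  have hDE : D * E = D := by
    rw [hE, hD, fromBlocks_multiply]
    simp [dde, fe, dde']
  have hEE : E * E = E := by
    rw [hE, fromBlocks_multiply]
    simp [ee, ee']
  have hDD : D * D = 0 := by
    rw [hD, fromBlocks_multiply]
    simp [ddd, ddd', df]
  have hNN : N * N = 0 := by
    rw [hN, fromBlocks_multiply]
    simp
  have hmain : D * K0 + K0 * D = E + N := by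
    rw [hD, hK0, hE, hN, fromBlocks_multiply, fromBlocks_multiply, fromBlocks_add, fromBlocks_add]
    have e1 : -d * h + f * g + (h * -d + (0 : Matrix I J T) * (0 : Matrix J I T)) = e + 0 := by
      rw [fg, Matrix.neg_mul, Matrix.mul_neg, Matrix.zero_mul]
      abel
    have e2 : -d * (0 : Matrix I J T) + f * -h' + (h * f + (0 : Matrix I J T) * d') = 0 + w := by
      rw [hw, Matrix.mul_zero, Matrix.mul_neg, Matrix.zero_mul]
      abel
    have e3 : (0 : Matrix J I T) * h + d' * g + (g * -d + -h' * (0 : Matrix J I T)) = 0 + 0 := by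
      rw [dg, Matrix.zero_mul, Matrix.mul_neg, Matrix.mul_zero]
      abel
    have e4 : (0 : Matrix J I T) * (0 : Matrix I J T) + d' * -h' + (g * f + -h' * d') =
        e' + 0 := by
      rw [gf, Matrix.zero_mul, Matrix.mul_neg, Matrix.neg_mul]
      abel
    rw [e1, e2, e3, e4]
  have hDN : D * N = N * D := by
    have e1 : D * (E + N) = (E + N) * D := by
      rw [← hmain, Matrix.mul_add, Matrix.add_mul, ← Matrix.mul_assoc, hDD, Matrix.zero_mul,
        Matrix.mul_assoc K0, hDD, Matrix.mul_zero, zero_add, add_zero, Matrix.mul_assoc]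
    rw [Matrix.mul_add, Matrix.add_mul, hDE, hED] at e1
    exact add_left_cancel e1
  have hck : ck f g h h' = K0 * (1 - N) := rfl
  rw [hck]
  refine ⟨?_, ?_, ?_, hEE, hED, hDE, ?_, ?_, hDD, ?_⟩
  · exact hasDeg_fromBlocks de rdeg_zero rdeg_zero de'
  · exact hasDeg_fromBlocks dd.neg (by norm_num; exact hf) rdeg_zero dd'
  · have d1 : HasDeg (cdeg a b) (-1) K0 :=
      hasDeg_fromBlocks hh rdeg_zero (by norm_num; exact hg) hh'.neg
    have d2 : HasDeg (cdeg a b) 0 N := by
      refine hasDeg_fromBlocks (fun _ _ h => absurd rfl h) ?_ rdeg_zero (fun _ _ h => absurd rfl h)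
      have h1 : RDeg a b (-1 + 0) (h * f) := RDeg.mul hh hf
      have h2 : RDeg a b (0 + -1) (f * h') := RDeg.mul hf hh'
      norm_num at h1 h2 ⊢
      exact h1.sub h2
    rw [Matrix.mul_sub, Matrix.mul_one]
    have d3 := d1.mul d2
    norm_num at d3
    exact d1.sub d3
  · rw [← Matrix.mul_assoc, hEK]
  · rw [Matrix.mul_assoc, Matrix.sub_mul, Matrix.one_mul, hNE, Matrix.mul_sub, Matrix.mul_sub, hKE,
      Matrix.mul_one]
  · have e1 : D * (K0 * (1 - N)) + K0 * (1 - N) * D = (D * K0 + K0 * D) * (1 - N) := by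
      rw [Matrix.mul_assoc K0 (1 - N), Matrix.sub_mul 1 N D, Matrix.one_mul, ← hDN, Matrix.add_mul,
        Matrix.mul_assoc, Matrix.mul_assoc K0 D, Matrix.mul_sub D, Matrix.mul_one]
    rw [e1, hmain, Matrix.add_mul, Matrix.mul_sub, Matrix.mul_sub, Matrix.mul_one, Matrix.mul_one,
      hEN, hNN, sub_zero, sub_add_cancel]

end ConeEq

end Pool.Agent.Lib.MP_c052b4_al.MT
end

section

/-!
# TREES, section 6: supports, and complexes given by a matrix
-/

set_option autoImplicit false
set_option linter.unusedSectionVars false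

namespace Pool.Agent.Lib.MP_c052b4_al.MT

open CategoryTheory CategoryTheory.Limits Matrix

universe u

section Supp

variable {R : Type u} [Ring R] {G : Type u} [Group G] {L : Lbl G} {I I' : ℤ → Type u}
  {J J' : Type}

theorem TL_single (t : ℤ → ℤ)
    (F : ∀ n, (I n →₀ MonoidAlgebra R G) →ₗ[MonoidAlgebra R G] (I' (t n) →₀ MonoidAlgebra R G))
    (x : Σ n, I n) (x' : Σ n, I' n)
    (h : TL t F (Finsupp.single x (1 : MonoidAlgebra R G)) x' ≠ 0) :
    ∃ i' : I' (t x.1), x' = ⟨t x.1, i'⟩ ∧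
      TL t F (Finsupp.single x (1 : MonoidAlgebra R G)) x' = F x.1 (Finsupp.single x.2 1) i' := by
  have h2 : Finsupp.single x (1 : MonoidAlgebra R G) = iot I x.1 (Finsupp.single x.2 1) := by
    rw [iot_single]
  rw [h2, TL_iot] at h ⊢
  unfold iot at h ⊢
  rw [Finsupp.lmapDomain_apply] at h ⊢
  by_cases h3 : x' ∈ Set.range (Sigma.mk (t x.1) : I' (t x.1) → Σ n, I' n)
  · obtain ⟨i', rfl⟩ := h3
    exact ⟨i', rfl, Finsupp.mapDomain_apply sigma_mk_injective _ _⟩
  · exact absurd (Finsupp.mapDomain_of_notMem_range _ _ h3) h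

theorem sp_mat (e : J ≃ Σ n, I n) (e' : J' ≃ Σ n, I' n) (t : ℤ → ℤ)
    (F : ∀ n, (I n →₀ MonoidAlgebra R G) →ₗ[MonoidAlgebra R G] (I' (t n) →₀ MonoidAlgebra R G))
    (w : ∀ n, I n → L.W) (w' : ∀ n, I' n → L.W) (hF : ∀ n, RM L (F n) (w n) (w' (t n))) :
    Sp (fun j => w (e j).1 (e j).2) (fun j => w' (e' j).1 (e' j).2) L.le
      (mat e e' (TL t F)) := by
  intro j j' g hg
  rw [mat_apply] at hg
  have h1 : TL t F (Finsupp.single (e j) (1 : MonoidAlgebra R G)) (e' j') ≠ 0 := by
    intro h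
    rw [h] at hg
    exact hg rfl
  obtain ⟨i', h2, h3⟩ := TL_single t F (e j) (e' j') h1
  rw [h3] at hg
  have h4 := hF _ _ _ g hg
  change L.le (w (e j).1 (e j).2) (g • w' (e' j').1 (e' j').2)
  rw [h2]
  exact h4

theorem sp_totD (K : CochainComplex (VCat R L) ℤ) (e : J ≃ Σ n, ix K n) :
    Sp (fun j => (K.X (e j).1).l (e j).2) (fun j => (K.X (e j).1).l (e j).2) L.le
      (mat e e (totD K)) :=
  sp_mat e e (fun n => n + 1) (fun n => VCat.lin (K.d n (n + 1))) (fun n => (K.X n).l)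
    (fun n => (K.X n).l) fun n => RM_lin (K.d n (n + 1))

theorem sp_totF {K K' : CochainComplex (VCat R L) ℤ} (f : K ⟶ K') (e : J ≃ Σ n, ix K n)
    (e' : J' ≃ Σ n, ix K' n) :
    Sp (fun j => (K.X (e j).1).l (e j).2) (fun j => (K'.X (e' j).1).l (e' j).2) L.le
      (mat e e' (totF f)) :=
  sp_mat e e' (fun n => n) (fun n => VCat.lin (f.f n)) (fun n => (K.X n).l)
    (fun n => (K'.X n).l) fun n => RM_lin (f.f n)

theorem sp_totH {K K' : CochainComplex (VCat R L) ℤ} {f g : K ⟶ K'} (h : Homotopy f g)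
    (e : J ≃ Σ n, ix K n) (e' : J' ≃ Σ n, ix K' n) :
    Sp (fun j => (K.X (e j).1).l (e j).2) (fun j => (K'.X (e' j).1).l (e' j).2) L.le
      (mat e e' (totH h)) :=
  sp_mat e e' (fun n => n - 1) (fun n => VCat.lin (h.hom n (n - 1))) (fun n => (K.X n).l)
    (fun n => (K'.X n).l) fun n => RM_lin (h.hom n (n - 1))

end Supp

section Pt

variable {A : Type u} [Ring A] {J : Type} [Fintype J] [DecidableEq J]

/-- The indices of degree `n`. -/
abbrev iJ (deg : J → ℤ) (n : ℤ) : Type u := ULift.{u} {j : J // deg j = n}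

instance (deg : J → ℤ) (n : ℤ) : Finite (iJ.{u} deg n) := by
  unfold iJ
  infer_instance

/-- The part of a matrix between two degrees, as a linear map. -/
noncomputable def pt (deg : J → ℤ) (M : Matrix J J A) (n n' : ℤ) :
    (iJ.{u} deg n →₀ A) →ₗ[A] (iJ.{u} deg n' →₀ A) :=
  Finsupp.linearCombination A fun i =>
    Finsupp.equivFunOnFinite.symm fun i' : iJ.{u} deg n' => M i.down.1 i'.down.1

theorem pt_single (deg : J → ℤ) (M : Matrix J J A) (n n' : ℤ) (i : iJ.{u} deg n)
    (i' : iJ.{u} deg n') : pt deg M n n' (Finsupp.single i 1) i' = M i.down.1 i'.down.1 := by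
  unfold pt
  rw [Finsupp.linearCombination_single, one_smul]
  rfl

theorem pt_comp (deg : J → ℤ) (M N : Matrix J J A) (n n' n'' : ℤ)
    (hM : ∀ i j, M i j ≠ 0 → deg i = n → deg j = n') :
    (pt deg N n' n'').comp (pt deg M n n') = pt deg (M * N) n n'' := by
  classical
  refine Finsupp.lhom_ext' fun i => LinearMap.ext_ring ?_
  ext i''
  change pt deg N n' n'' (pt deg M n n' (Finsupp.single i 1)) i'' =
    pt deg (M * N) n n'' (Finsupp.single i 1) i''
  rw [pt_single, Matrix.mul_apply]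
  have _ : Fintype (iJ.{u} deg n') := Fintype.ofFinite _
  have h1 : pt deg M n n' (Finsupp.single i 1) =
      ∑ i' : iJ.{u} deg n', (M i.down.1 i'.down.1) • Finsupp.single i' (1 : A) := by
    ext k
    rw [pt_single, Finsupp.finsetSum_apply, Finset.sum_eq_single k]
    · rw [Finsupp.smul_apply, Finsupp.single_eq_same, smul_eq_mul, mul_one]
    · intro b _ hb
      rw [Finsupp.smul_apply, Finsupp.single_apply, if_neg hb, smul_zero]
    · intro h
      exact absurd (Finset.mem_univ _) h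
  rw [h1, map_sum, Finsupp.finsetSum_apply]
  have h2 : ∀ i' : iJ.{u} deg n', (pt deg N n' n'' (M i.down.1 i'.down.1 •
      Finsupp.single i' (1 : A))) i'' = M i.down.1 i'.down.1 * N i'.down.1 i''.down.1 := by
    intro i'
    rw [map_smul, Finsupp.smul_apply, pt_single, smul_eq_mul]
  rw [Finset.sum_congr rfl fun i' _ => h2 i']
  have h3 : ∑ i' : iJ.{u} deg n', M i.down.1 i'.down.1 * N i'.down.1 i''.down.1 =
      ∑ j ∈ Finset.univ.map ⟨fun i' : iJ.{u} deg n' => i'.down.1, fun a b h => by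
        cases a
        cases b
        exact congrArg ULift.up (Subtype.ext h)⟩, M i.down.1 j * N j i''.down.1 := by
    rw [Finset.sum_map]
    rfl
  rw [h3]
  refine Finset.sum_subset (Finset.subset_univ _) fun j _ hj => ?_
  by_contra h4
  have h5 : M i.down.1 j ≠ 0 := fun h => h4 (by rw [h, zero_mul])
  exact hj (Finset.mem_map.2 ⟨⟨⟨j, hM _ _ h5 i.down.2⟩⟩, Finset.mem_univ _, rfl⟩)

theorem pt_add (deg : J → ℤ) (M N : Matrix J J A) (n n' : ℤ) :
    pt deg (M + N) n n' = pt deg M n n' + pt deg N n n' := by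
  refine Finsupp.lhom_ext' fun i => LinearMap.ext_ring ?_
  ext i'
  change pt deg (M + N) n n' (Finsupp.single i 1) i' =
    pt deg M n n' (Finsupp.single i 1) i' + pt deg N n n' (Finsupp.single i 1) i'
  rw [pt_single, pt_single, pt_single]
  rfl

theorem pt_zero (deg : J → ℤ) (n n' : ℤ) : pt deg (0 : Matrix J J A) n n' = 0 := by
  refine Finsupp.lhom_ext' fun i => LinearMap.ext_ring ?_
  ext i'
  change pt deg (0 : Matrix J J A) n n' (Finsupp.single i 1) i' = 0
  rw [pt_single]
  rfl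

theorem pt_one (deg : J → ℤ) (n : ℤ) : pt deg (1 : Matrix J J A) n n = LinearMap.id := by
  classical
  refine Finsupp.lhom_ext' fun i => LinearMap.ext_ring ?_
  ext i'
  change pt deg (1 : Matrix J J A) n n (Finsupp.single i 1) i' = Finsupp.single i (1 : A) i'
  rw [pt_single, Finsupp.single_apply, Matrix.one_apply]
  by_cases h : i = i'
  · rw [if_pos h, if_pos (by rw [h])]
  · rw [if_neg h, if_neg fun h' => h (by
      cases i
      cases i'
      exact congrArg ULift.up (Subtype.ext h'))]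

end Pt

section CxOf

variable {R : Type u} [Ring R] {G : Type u} [Group G] {L : Lbl G} {J : Type} [Fintype J]
  [DecidableEq J]

theorem rm_pt {deg : J → ℤ} {M : Matrix J J (MonoidAlgebra R G)} {w : J → L.W}
    (h : Sp w w L.le M) (n n' : ℤ) :
    RM L (pt deg M n n') (fun i : iJ.{u} deg n => w i.down.1) (fun i : iJ.{u} deg n' =>
      w i.down.1) := by
  intro i j g hg
  rw [pt_single] at hg
  exact h _ _ g hg

/-- The graded matrix complex given by a matrix. -/
noncomputable def gcMat (deg : J → ℤ) (M : Matrix J J (MonoidAlgebra R G)) (hM : HasDeg deg 1 M)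
    (hMM : M * M = 0) : GC R G where
  I := iJ.{u} deg
  d n := pt deg M n (n + 1)
  dd n := by
    rw [pt_comp deg M M n (n + 1) (n + 1 + 1) fun i j h hi => by rw [hM i j h, hi], hMM, pt_zero]

/-- The complex given by a matrix. -/
noncomputable def cxOf (deg : J → ℤ) (M : Matrix J J (MonoidAlgebra R G)) (hM : HasDeg deg 1 M)
    (hMM : M * M = 0) (w : J → L.W) (hw : Sp w w L.le M) : CochainComplex (VCat R L) ℤ :=
  GC.T (E := gcMat deg M hM hMM) (fun n (i : iJ.{u} deg n) => w i.down.1) fun n =>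
    rm_pt hw n (n + 1)

variable {deg : J → ℤ} {M : Matrix J J (MonoidAlgebra R G)} {hM : HasDeg deg 1 M}
    {hMM : M * M = 0} {w : J → L.W} {hw : Sp w w L.le M}

/-- The total index set. -/
noncomputable def eJ (hM : HasDeg deg 1 M) (hMM : M * M = 0) (w : J → L.W) (hw : Sp w w L.le M) :
    J ≃ Σ n, ix (cxOf deg M hM hMM w hw) n where
  toFun j := ⟨deg j, ⟨⟨j, rfl⟩⟩⟩
  invFun x := x.2.down.1
  left_inv j := rfl
  right_inv := by
    rintro ⟨n, ⟨⟨j, rfl⟩⟩⟩
    rfl

theorem lin_cxOf_d (n : ℤ) :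
    VCat.lin ((cxOf deg M hM hMM w hw).d n (n + 1)) = pt deg M n (n + 1) :=
  congrArg VCat.lin (GC.T_d (E := gcMat deg M hM hMM) (fun n (i : iJ.{u} deg n) => w i.down.1)
    (fun n => rm_pt hw n (n + 1)) n)

theorem mat_totD_cxOf :
    mat (eJ hM hMM w hw) (eJ hM hMM w hw) (totD (cxOf deg M hM hMM w hw)) = M := by
  refine Matrix.ext fun j k => ?_
  by_cases h : deg k = deg j + 1
  · have h1 : (eJ hM hMM w hw).symm ⟨deg j + 1, (⟨⟨k, h⟩⟩ : iJ.{u} deg (deg j + 1))⟩ = k := rfl
    have h2 : (eJ hM hMM w hw).symm ⟨deg j, (⟨⟨j, rfl⟩⟩ : iJ.{u} deg (deg j))⟩ = j := rfl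
    have h3 := mat_TL_apply (eJ hM hMM w hw) (eJ hM hMM w hw) (fun n => n + 1)
      (fun n => VCat.lin ((cxOf deg M hM hMM w hw).d n (n + 1))) (deg j)
      (⟨⟨j, rfl⟩⟩ : iJ.{u} deg (deg j)) (⟨⟨k, h⟩⟩ : iJ.{u} deg (deg j + 1))
    rw [h1, h2] at h3
    refine h3.trans ?_
    rw [lin_cxOf_d]
    exact pt_single deg M _ _ _ _
  · have h1 : M j k = 0 := by
      by_contra h1
      exact h (hM j k h1)
    rw [h1]
    by_contra h2
    exact h (mat_TL_deg _ _ _ _ j k h2)

theorem ffc_cxOf : FFc (cxOf deg M hM hMM w hw) := by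
  refine ⟨fun n => ?_, ?_⟩
  · change Finite (iJ.{u} deg n)
    infer_instance
  · obtain ⟨N, hN⟩ : ∃ N : ℤ, ∀ j, |deg j| ≤ N := by
      obtain ⟨N, hN⟩ := (Set.finite_range fun j => |deg j|).bddAbove
      exact ⟨N, fun j => hN ⟨j, rfl⟩⟩
    refine ⟨N, fun n hn => ?_⟩
    change IsEmpty (iJ.{u} deg n)
    refine ⟨?_⟩
    rintro ⟨⟨j, hj⟩⟩
    have := hN j
    rw [hj] at this
    omega

end CxOf

end Pool.Agent.Lib.MP_c052b4_al.MT
end
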