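import Pool.Agent.Lib.MP_c052b4_al.Mg.G006

section

/-!
# TREES^n, section 4, E02b: images of acyclic functors
-/

set_option autoImplicit false
set_option linter.unusedVariables false

namespace Pool.Agent.Lib.MP_c052b4_al.MT

open CategoryTheory Opposite Limits

universe u

variable {S : Type u} [Ring S] {G : Type u} [Group G] {L : Lbl G}

variable {L' : Lbl G} {p : LblHom L L'} (d : TreeDir p)

instance ac_iso : (d.Ac S).IsClosedUnderIsomorphisms where
  of_iso {X Y} e hX x := by
    have h1 : IsIso ((d.bdry S x).app X) := (ConcreteCategory.isIso_iff_bijective _).2 (hX x)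
    have h2 : (d.bdry S x).app Y =
        inv ((d.CE S x).map e.hom) ≫ (d.bdry S x).app X ≫ (d.CV S x).map e.hom := by
      rw [← (d.bdry S x).naturality e.hom, IsIso.inv_hom_id_assoc]
    have h3 : IsIso ((d.bdry S x).app Y) := by
      rw [h2]
      infer_instance
    exact (ConcreteCategory.isIso_iff_bijective _).1 h3

/-- **Images of acyclic functors are acyclic** (trees have dimension one).
Proof: let `I` be the image of `f : N ⟶ N'`, `N ↠ I ↪ N'`. For each `x` the boundary map of `I` is
injective, because `dsF` maps the monomorphism `I ⟶ N'` to an injective map and the boundary map of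
`N'` is injective (naturality of `d.bdry S x`); it is surjective, because `dsF` maps the epimorphism
`N ⟶ I` to a surjective map and the boundary map of `N` is surjective. -/
theorem ac_image {N N' : AA S L} (f : N ⟶ N') (h : d.Ac S N) (h' : d.Ac S N') :
    d.Ac S (Abelian.image f) := by
  intro x
  have hn : ∀ {A B : AA S L} (t : A ⟶ B) (v : (d.CE S x).obj A),
      ((d.CV S x).map t).hom (((d.bdry S x).app A).hom v) =
        ((d.bdry S x).app B).hom (((d.CE S x).map t).hom v) := by
    intro A B t v
    have h1 := congrArg (fun k => k.hom v) ((d.bdry S x).naturality t)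
    simp only [ModuleCat.hom_comp, LinearMap.comp_apply] at h1
    exact h1.symm
  constructor
  · have hm : Mono ((d.CE S x).map (Abelian.image.ι f)) := inferInstance
    have hi : Function.Injective ((d.CE S x).map (Abelian.image.ι f)).hom :=
      (ModuleCat.mono_iff_injective _).1 hm
    intro v v' hv
    apply hi
    apply (h' x).1
    rw [← hn, ← hn]
    exact congrArg _ hv
  · have he : Epi ((d.CV S x).map (Abelian.factorThruImage f)) := inferInstance
    have hs : Function.Surjective ((d.CV S x).map (Abelian.factorThruImage f)).hom :=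
      (ModuleCat.epi_iff_surjective _).1 he
    intro w
    obtain ⟨w', rfl⟩ := hs w
    obtain ⟨v', rfl⟩ := (h x).2 w'
    exact ⟨((d.CE S x).map (Abelian.factorThruImage f)).hom v', (hn _ _).symm⟩

end Pool.Agent.Lib.MP_c052b4_al.MT
end

section

/-!
# TREES^n, section 4, E03: the augmentation
-/

set_option autoImplicit false
set_option linter.unusedVariables false

namespace Pool.Agent.Lib.MP_c052b4_al.MT

open CategoryTheory Opposite Limits

universe u

variable {S : Type u} [Ring S] {G : Type u} [Group G] {L L' : Lbl G} {p : LblHom L L'}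

namespace TreeDir

variable (d : TreeDir p)

theorem fil_le (X : VCat S L) (x : L.W) (v : d.V) (m : X.M) (hm : m ∈ X.fil (d.vx x v)) :
    m ∈ (VCat.mapObj p X).fil (p.f x) := by
  intro i g hg
  have h1 := (d.below x (g • X.l i)).2 ⟨v, hm i g hg⟩
  rwa [p.smul] at h1

open Classical in
/-- The augmentation: the sum of the inclusions. -/
noncomputable def augLin (x : L.W) (X : VCat S L) :
    (DirectSum d.V fun v => X.fil (d.vx x v)) →ₗ[S] (VCat.mapObj p X).fil (p.f x) :=
  DirectSum.toModule S d.V _ fun v =>
    { toFun := fun m => ⟨m.1, d.fil_le X x v m.1 m.2⟩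
      map_add' := fun _ _ => rfl
      map_smul' := fun _ _ => rfl }

open Classical in
theorem augLin_lof (x : L.W) (X : VCat S L) (v : d.V) (m : X.fil (d.vx x v)) :
    (d.augLin x X (DirectSum.lof S d.V (fun v => X.fil (d.vx x v)) v m)).1 = m.1 := by
  unfold augLin
  rw [DirectSum.toModule_lof]
  rfl

end TreeDir

end Pool.Agent.Lib.MP_c052b4_al.MT
end

section

/-!
# TREES^n, section 4, E03a: the augmented sequence, ends
-/

set_option autoImplicit false
set_option linter.unusedVariables false

namespace Pool.Agent.Lib.MP_c052b4_al.MT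

open CategoryTheory Opposite Limits

universe u

variable {S : Type u} [Ring S] {G : Type u} [Group G] {L L' : Lbl G} {p : LblHom L L'}

namespace TreeDir

variable (d : TreeDir p)

open Classical in
/-- The chain of the path to `v` with coefficient `m`. -/
private noncomputable def e03a_P (X : VCat S L) (v : d.V) : X.M →ₗ[S] (d.E →₀ X.M) :=
  ∑ e ∈ (d.path v).support, (d.path v e) • (Finsupp.lsingle e : X.M →ₗ[S] (d.E →₀ X.M))

private theorem e03a_P_apply (X : VCat S L) (v : d.V) (m : X.M) (e' : d.E) :
    d.e03a_P X v m e' = (d.path v e') • m := by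
  classical
  unfold e03a_P
  rw [LinearMap.sum_apply, Finsupp.finsetSum_apply]
  by_cases h : e' ∈ (d.path v).support
  · rw [Finset.sum_eq_single e']
    · rw [LinearMap.smul_apply, Finsupp.smul_apply, Finsupp.lsingle_apply, Finsupp.single_eq_same]
    · intro e he hne
      rw [LinearMap.smul_apply, Finsupp.smul_apply, Finsupp.lsingle_apply,
        Finsupp.single_apply, if_neg hne, smul_zero]
    · intro h'
      exact absurd h h'
  · rw [Finset.sum_eq_zero]
    · rw [Finsupp.notMem_support_iff.1 h, zero_smul]
    · intro e he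
      have h' : ¬ e = e' := fun h' => h (by rw [← h']; exact he)
      rw [LinearMap.smul_apply, Finsupp.smul_apply, Finsupp.lsingle_apply,
        Finsupp.single_apply, if_neg h', smul_zero]

/-- The inclusion of a filtration step. -/
private noncomputable def e03a_sub (X : VCat S L) (w : L.W) :
    ((VCat.ev.obj X).obj (op (⟨w⟩ : Q L))) →ₗ[S] X.M := (X.fil w).subtype

private theorem e03a_sub_inj (X : VCat S L) (w : L.W) : Function.Injective (e03a_sub X w) :=
  Subtype.coe_injective

open Classical in
private noncomputable def e03a_Phi (x : L.W) (X : VCat S L) :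
    (DirectSum d.V fun v => (VCat.ev.obj X).obj (op (⟨d.vx x v⟩ : Q L))) →ₗ[S] (d.E →₀ X.M) :=
  DirectSum.toModule S d.V _ fun v => (d.e03a_P X v).comp (e03a_sub X (d.vx x v))

open Classical in
private noncomputable def e03a_Psi (x : L.W) (X : VCat S L) :
    (DirectSum d.E fun e => (VCat.ev.obj X).obj (op (⟨d.ex x e⟩ : Q L))) →ₗ[S] (d.E →₀ X.M) :=
  DirectSum.toModule S d.E _ fun e => (Finsupp.lsingle e : X.M →ₗ[S] (d.E →₀ X.M)).comp
    (e03a_sub X (d.ex x e))

private theorem e03a_Psi_apply (x : L.W) (X : VCat S L)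
    (c : DirectSum d.E fun e => (VCat.ev.obj X).obj (op (⟨d.ex x e⟩ : Q L))) (e : d.E) :
    d.e03a_Psi x X c e = e03a_sub X (d.ex x e) (c e) := by
  classical
  have h : (Finsupp.lapply e : (d.E →₀ X.M) →ₗ[S] X.M).comp (d.e03a_Psi x X) =
      (e03a_sub X (d.ex x e)).comp
        (DirectSum.component S d.E (fun e => (VCat.ev.obj X).obj (op (⟨d.ex x e⟩ : Q L))) e) := by
    refine DirectSum.linearMap_ext _ fun e' => LinearMap.ext fun m => ?_
    rw [LinearMap.comp_apply, LinearMap.comp_apply, LinearMap.comp_apply, LinearMap.comp_apply]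
    unfold e03a_Psi
    rw [DirectSum.toModule_lof, LinearMap.comp_apply, Finsupp.lapply_apply, Finsupp.lsingle_apply,
      Finsupp.single_apply]
    by_cases h' : e' = e
    · subst h'
      rw [if_pos rfl, DirectSum.component.lof_self]
    · rw [if_neg h', DirectSum.component.of, dif_neg h', map_zero]
  exact LinearMap.congr_fun h c

private theorem e03a_comp (x : L.W) (X : VCat S L) :
    (d.e03a_Phi x X).comp (d.bdryLin x (VCat.ev.obj X)) = d.e03a_Psi x X := by
  classical
  refine DirectSum.linearMap_ext _ fun e => LinearMap.ext fun m => ?_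
  rw [LinearMap.comp_apply, LinearMap.comp_apply, bdryLin_lof, map_sub]
  unfold e03a_Phi e03a_Psi
  rw [DirectSum.toModule_lof, DirectSum.toModule_lof, LinearMap.comp_apply, LinearMap.comp_apply,
    LinearMap.comp_apply, DirectSum.toModule_lof, LinearMap.comp_apply]
  refine Finsupp.ext fun e' => ?_
  have h3 : d.path (d.tgt e) e' - d.path (d.src e) e' = (Finsupp.single e (1 : ℤ)) e' := by
    rw [← d.path_diff e, Finsupp.sub_apply]
  change d.e03a_P X (d.tgt e) (X.gmul 1 (e03a_sub X (d.ex x e) m)) e' -
    d.e03a_P X (d.src e) (X.gmul 1 (e03a_sub X (d.ex x e) m)) e' = _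
  rw [VCat.gmul_one, e03a_P_apply, e03a_P_apply, ← sub_smul, h3, Finsupp.lsingle_apply,
    Finsupp.single_apply, Finsupp.single_apply]
  split_ifs
  · exact one_smul _ _
  · exact zero_smul _ _

/-- Injectivity of the boundary map for `ev X`.
Proof: let `P : (d.V →₀ X.M) → (d.E →₀ X.M)` be the additive map `single v m ↦ ∑ e, path v e • single e m`.
For `c ∈ ⨁ e, X.fil (ex x e)`, considered as an element of `d.E →₀ X.M`, the boundary (considered in
`d.V →₀ X.M`) is `∑ e (single (tgt e) (c e) - single (src e) (c e))`, as the transition maps of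
`ev X` for `tgtHom`, `srcHom` are multiplication by `1 ∈ G`; and `P` of it is
`∑ e ∑ e' (path (tgt e) e' - path (src e) e') • single e' (c e) = c` by `path_diff`. -/
theorem bdry_injective (x : L.W) (X : VCat S L) :
    Function.Injective ((d.bdry S x).app (VCat.ev.obj X)).hom := by
  have key : Function.Injective (d.bdryLin x (VCat.ev.obj X)) := by
    intro c c' h
    have h1 : d.e03a_Psi x X c = d.e03a_Psi x X c' := by
      rw [← e03a_comp, LinearMap.comp_apply, LinearMap.comp_apply, h]
    refine DFinsupp.ext fun e => e03a_sub_inj X (d.ex x e) ?_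
    have h2 := DFunLike.congr_fun h1 e
    rwa [e03a_Psi_apply, e03a_Psi_apply] at h2
  exact key

private theorem e03a_single (X : VCat S L) (w : L.W) (i : X.I) (g : G) (s : S)
    (h : L.le w (g • X.l i)) :
    (Finsupp.single i (MonoidAlgebra.single g s) : X.M) ∈ X.fil w := by
  classical
  intro j h' hh
  rw [Finsupp.single_apply] at hh
  split_ifs at hh with hj
  · subst hj
    rw [MonoidAlgebra.coeff_single, Finsupp.single_apply] at hh
    split_ifs at hh with hg'
    · subst hg'
      exact h
    · exact absurd rfl hh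
  · exact absurd (by simp) hh

private theorem e03a_decomp (X : VCat S L) (m : X.M) :
    m = ∑ i ∈ m.support, ∑ g ∈ (m i).coeff.support,
        Finsupp.single i (MonoidAlgebra.single g ((m i).coeff g)) := by
  classical
  conv_lhs => rw [← Finsupp.sum_single m]
  rw [Finsupp.sum]
  refine Finset.sum_congr rfl fun i _ => ?_
  have h2 : m i = ∑ g ∈ (m i).coeff.support, MonoidAlgebra.single g ((m i).coeff g) := by
    apply MonoidAlgebra.coeff_injective
    rw [MonoidAlgebra.coeff_sum]
    simp only [MonoidAlgebra.coeff_single]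
    exact (Finsupp.sum_single _).symm
  conv_lhs => rw [h2]
  exact map_sum (Finsupp.singleAddHom i) _ _

/-- The augmentation is surjective.
Proof: a vector `m ∈ (mapObj p X).fil (p x)` is the finite sum of its parts
`Finsupp.single i (single g s)`, `(i, g)` in the support; for each of them
`p x ≤ g • p (l i) = p (g • l i)`, so `vx x v ≤ g • l i` for some `v` (`below`), and the part is in
`X.fil (vx x v)`. -/
theorem aug_surjective (x : L.W) (X : VCat S L) : Function.Surjective (d.augLin x X) := by
  classical
  rintro ⟨m, hm⟩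
  have hR : ∀ m : X.M, m ∈ (VCat.mapObj p X).fil (p.f x) →
      ∃ c, (d.augLin x X c).1 = m := by
    intro m hm
    have h0 : m ∈ (LinearMap.range (((VCat.mapObj p X).fil (p.f x)).subtype.comp
        (d.augLin x X)) : Submodule S X.M) := by
      rw [e03a_decomp X m]
      refine Submodule.sum_mem _ fun i _ => Submodule.sum_mem _ fun g hg => ?_
      have h3 : L'.le (p.f x) (g • (VCat.mapObj p X).l i) := hm i g (Finsupp.mem_support_iff.1 hg)
      have h4 : L'.le (p.f x) (p.f (g • X.l i)) := by
        rw [p.smul]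
        exact h3
      obtain ⟨v, hv⟩ := (d.below x (g • X.l i)).1 h4
      exact ⟨DirectSum.lof S d.V (fun v => X.fil (d.vx x v)) v
        ⟨_, e03a_single X _ i g ((m i).coeff g) hv⟩, d.augLin_lof x X v _⟩
    obtain ⟨c, hc⟩ := h0
    exact ⟨c, hc⟩
  obtain ⟨c, hc⟩ := hR m hm
  exact ⟨c, Subtype.ext hc⟩

end TreeDir

end Pool.Agent.Lib.MP_c052b4_al.MT
end

section

/-!
# TREES^n, section 4, E03b: the augmented sequence, middle
-/

set_option autoImplicit false
set_option linter.unusedVariables false

namespace Pool.Agent.Lib.MP_c052b4_al.MT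

open CategoryTheory Opposite Limits

universe u

variable {S : Type u} [Ring S] {G : Type u} [Group G] {L L' : Lbl G} {p : LblHom L L'}

namespace TreeDir

variable (d : TreeDir p)

private noncomputable def e03bI (X : VCat S L) (w : L.W) :
    ((VCat.ev.obj X : AA S L).obj (op (⟨w⟩ : Q L))) →ₗ[S] X.M := (X.fil w).subtype

private theorem e03bI_inj (X : VCat S L) (w : L.W) : Function.Injective (e03bI X w) :=
  (X.fil w).injective_subtype

private theorem e03b_tgt (x : L.W) (X : VCat S L) (e : d.E)
    (n : (VCat.ev.obj X : AA S L).obj (op (⟨d.ex x e⟩ : Q L))) :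
    e03bI X _ (((VCat.ev.obj X : AA S L).map (d.tgtHom x e).op).hom n) = e03bI X _ n :=
  X.gmul_one _

private theorem e03b_src (x : L.W) (X : VCat S L) (e : d.E)
    (n : (VCat.ev.obj X : AA S L).obj (op (⟨d.ex x e⟩ : Q L))) :
    e03bI X _ (((VCat.ev.obj X : AA S L).map (d.srcHom x e).op).hom n) = e03bI X _ n :=
  X.gmul_one _

private noncomputable def e03bA (x : L.W) (X : VCat S L) :
    (DirectSum d.V fun v => (VCat.ev.obj X : AA S L).obj (op (⟨d.vx x v⟩ : Q L))) →ₗ[S] X.M :=
  ((VCat.mapObj p X).fil (p.f x)).subtype.comp (d.augLin x X)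

open Classical in
private theorem e03bA_lof (x : L.W) (X : VCat S L) (v : d.V)
    (n : (VCat.ev.obj X : AA S L).obj (op (⟨d.vx x v⟩ : Q L))) :
    d.e03bA x X (DirectSum.lof S d.V
      (fun v => (VCat.ev.obj X : AA S L).obj (op (⟨d.vx x v⟩ : Q L))) v n) = e03bI X _ n :=
  d.augLin_lof x X v n

private noncomputable def e03bC (x : L.W) (X : VCat S L) (w : d.V) :
    (DirectSum d.V fun v => (VCat.ev.obj X : AA S L).obj (op (⟨d.vx x v⟩ : Q L))) →ₗ[S] X.M :=
  (e03bI X (d.vx x w)).comp (DirectSum.component S d.V _ w)

open Classical in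
private theorem e03bC_lof (x : L.W) (X : VCat S L) (w v : d.V)
    (n : (VCat.ev.obj X : AA S L).obj (op (⟨d.vx x v⟩ : Q L))) :
    d.e03bC x X w (DirectSum.lof S d.V
      (fun v => (VCat.ev.obj X : AA S L).obj (op (⟨d.vx x v⟩ : Q L))) v n) =
      if v = w then e03bI X _ n else 0 := by
  unfold e03bC
  rw [LinearMap.comp_apply, DirectSum.component.of]
  by_cases h : v = w
  · subst h
    rw [dif_pos rfl, if_pos rfl]
  · rw [dif_neg h, if_neg h, map_zero]

private theorem e03bC_ext (x : L.W) (X : VCat S L)
    {a b : DirectSum d.V fun v => (VCat.ev.obj X : AA S L).obj (op (⟨d.vx x v⟩ : Q L))}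
    (h : ∀ w, d.e03bC x X w a = d.e03bC x X w b) : a = b :=
  DFinsupp.ext fun w => e03bI_inj X _ (h w)

/-- The composition of the boundary and the augmentation is zero. -/
theorem aug_bdry (x : L.W) (X : VCat S L)
    (c : DirectSum d.E fun e => (VCat.ev.obj X : AA S L).obj (op (⟨d.ex x e⟩ : Q L))) :
    d.augLin x X (d.bdryLin x (VCat.ev.obj X) c) = 0 := by
  classical
  have h : (d.e03bA x X).comp (d.bdryLin x (VCat.ev.obj X)) = 0 := by
    refine DirectSum.linearMap_ext _ fun e => LinearMap.ext fun n => ?_
    rw [LinearMap.comp_apply, LinearMap.comp_apply, bdryLin_lof, map_sub, e03bA_lof, e03bA_lof,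
      e03b_tgt, e03b_src, sub_self]
    rfl
  exact Subtype.ext (LinearMap.congr_fun h c)

/-- Exactness in the middle.
Proof: let `c ∈ ⨁ v, X.fil (vx x v)` have augmentation `∑ v, c v = 0` in `X.M`. Let
`b e = ∑ v, path v e • c v ∈ X.M` (`P c`, finitely supported in `e`, `P` as in `bdry_injective`). By
`bdry_path` the boundary of `b` in `d.V →₀ X.M` is
`∑ v (single v (c v) - single root (c v)) = c - single root 0 = c`. It remains to see that
`b e ∈ X.fil (ex x e)`: let the coefficient of `b e` at `(i, g)` be nonzero. It is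
`∑ v, path v e • coeff (c v)`, and `∑ v, coeff (c v) = 0`, so there are `v, v'` with nonzero
coefficients of `c v`, `c v'` and `path v e ≠ path v' e` (otherwise the sum is a multiple of `0`);
then `vx x v ≤ g • l i`, `vx x v' ≤ g • l i` and `conn` gives `ex x e ≤ g • l i`. -/
theorem aug_exact (x : L.W) (X : VCat S L) (c : DirectSum d.V fun v => X.fil (d.vx x v))
    (hc : d.augLin x X c = 0) :
    ∃ b : DirectSum d.E fun e => (VCat.ev.obj X : AA S L).obj (op (⟨d.ex x e⟩ : Q L)),
      d.bdryLin x (VCat.ev.obj X) b = c := by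
  classical
  have haug : ∀ c : DirectSum d.V fun v => X.fil (d.vx x v),
      (d.augLin x X c).1 = ∑ v ∈ DFinsupp.support c, (c v : X.M) := by
    intro c
    conv_lhs => rw [← DirectSum.sum_support_of c]
    rw [map_sum, AddSubmonoidClass.coe_finsetSum]
    refine Finset.sum_congr rfl fun v _ => ?_
    exact d.augLin_lof x X v (c v)
  have h0 : ∑ v ∈ DFinsupp.support c, (c v : X.M) = 0 := by
    rw [← haug c, hc]
    rfl
  set s := DFinsupp.support c with hs
  let T : d.E → X.M := fun e => ∑ v ∈ s, (d.path v e) • (c v : X.M)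
  let cf : X.I → G → X.M →+ S := fun i g =>
    { toFun := fun m => (m i).coeff g
      map_zero' := rfl
      map_add' := fun _ _ => rfl }
  have hT : ∀ e, T e ∈ X.fil (d.ex x e) := by
    intro e i g hg
    have h1 : (T e i).coeff g = ∑ v ∈ s, (d.path v e) • cf i g (c v : X.M) := by
      change cf i g (T e) = _
      simp only [T]
      rw [map_sum]
      refine Finset.sum_congr rfl fun v _ => ?_
      rw [map_zsmul]
    have h2 : ∑ v ∈ s, cf i g (c v : X.M) = 0 := by
      rw [← map_sum, h0, map_zero]
    have h3 : ∃ v, cf i g (c v : X.M) ≠ 0 := by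
      by_contra! hcon
      exact hg (by rw [h1]; exact Finset.sum_eq_zero fun v _ => by rw [hcon v, smul_zero])
    obtain ⟨v, hv⟩ := h3
    have h4 : ∃ v', cf i g (c v' : X.M) ≠ 0 ∧ d.path v' e ≠ d.path v e := by
      by_contra! hcon
      refine hg ?_
      rw [h1]
      have h5 : ∀ v' ∈ s, (d.path v' e) • cf i g (c v' : X.M) =
          (d.path v e) • cf i g (c v' : X.M) := by
        intro v' _
        by_cases hz : cf i g (c v' : X.M) = 0
        · rw [hz, smul_zero, smul_zero]
        · rw [hcon v' hz]
      rw [Finset.sum_congr rfl h5, ← Finset.smul_sum, h2, smul_zero]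
    obtain ⟨v', hv', hne⟩ := h4
    exact d.conn x (g • X.l i) v v' ((c v).2 i g hv) ((c v').2 i g hv') e hne
  let F : Finset d.E := s.biUnion fun v => (d.path v).support
  let t : ∀ e, (VCat.ev.obj X : AA S L).obj (op (⟨d.ex x e⟩ : Q L)) := fun e =>
    (⟨T e, hT e⟩ : X.fil (d.ex x e))
  have ht : ∀ e, e03bI X _ (t e) = T e := fun e => rfl
  refine ⟨∑ e ∈ F, DirectSum.lof S d.E
    (fun e => (VCat.ev.obj X : AA S L).obj (op (⟨d.ex x e⟩ : Q L))) e (t e), ?_⟩
  rw [map_sum]
  refine d.e03bC_ext x X fun w => ?_
  rw [map_sum]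
  have hB : ∀ e, d.e03bC x X w (d.bdryLin x (VCat.ev.obj X) (DirectSum.lof S d.E
      (fun e => (VCat.ev.obj X : AA S L).obj (op (⟨d.ex x e⟩ : Q L))) e (t e))) =
      ((if d.tgt e = w then 1 else 0) - (if d.src e = w then 1 else 0) : ℤ) • T e := by
    intro e
    rw [bdryLin_lof, map_sub, e03bC_lof, e03bC_lof, e03b_tgt, e03b_src, ht, sub_smul]
    congr 1
    · split_ifs
      · rw [one_smul]
      · rw [zero_smul]
    · split_ifs
      · rw [one_smul]
      · rw [zero_smul]
  rw [Finset.sum_congr rfl fun e _ => hB e]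
  have hpath : ∀ v, ∑ e ∈ (d.path v).support, d.path v e *
      ((if d.tgt e = w then 1 else 0) - (if d.src e = w then 1 else 0)) =
      (if v = w then 1 else 0) - (if d.root = w then 1 else 0) := by
    intro v
    have h1 := congrArg (fun f => f w) (d.bdry_path v)
    simp only [Finsupp.sum, Finsupp.coe_finsetSum, Finset.sum_apply, Finsupp.coe_sub, Pi.sub_apply,
      Finsupp.smul_apply, Finsupp.single_apply, smul_eq_mul] at h1
    exact h1
  have hpathF : ∀ v ∈ s, ∑ e ∈ F, ((if d.tgt e = w then 1 else 0) -
      (if d.src e = w then 1 else 0)) * d.path v e =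
      (if v = w then 1 else 0) - (if d.root = w then 1 else 0) := by
    intro v hv
    rw [← hpath v]
    symm
    rw [Finset.sum_congr rfl fun e _ => mul_comm (d.path v e) _]
    refine Finset.sum_subset (Finset.subset_biUnion_of_mem (fun v => (d.path v).support) hv) ?_
    intro e _ he
    rw [Finsupp.notMem_support_iff.1 he, mul_zero]
  have hfin : ∑ e ∈ F, ((if d.tgt e = w then 1 else 0) - (if d.src e = w then 1 else 0) : ℤ) • T e =
      ∑ v ∈ s, ((if v = w then 1 else 0) - (if d.root = w then 1 else 0) : ℤ) • (c v : X.M) := by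
    simp only [T, Finset.smul_sum, smul_smul]
    rw [Finset.sum_comm]
    refine Finset.sum_congr rfl fun v hv => ?_
    rw [← Finset.sum_smul, hpathF v hv]
  rw [hfin]
  simp only [sub_smul]
  rw [Finset.sum_sub_distrib, ← Finset.smul_sum, h0, smul_zero, sub_zero]
  change _ = (c w : X.M)
  by_cases hw : w ∈ s
  · rw [Finset.sum_eq_single w]
    · rw [if_pos rfl, one_smul]
    · intro v _ hvw
      rw [if_neg hvw, zero_smul]
    · intro h
      exact absurd hw h
  · rw [DFinsupp.notMem_support_iff.1 hw, Finset.sum_eq_zero]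
    · rfl
    · intro v hv
      have hne : v ≠ w := by
        rintro rfl
        exact hw hv
      rw [if_neg hne, zero_smul]

end TreeDir

end Pool.Agent.Lib.MP_c052b4_al.MT
end
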