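import Pool.Agent.Lib.MP_c052b4_al.Mg.G011
import Pool.Agent.Lib.MP_c052b4_al.Mg.G027
import Pool.Agent.Lib.MP_c052b4_al.Mg.G028
import Pool.Agent.Lib.MP_c052b4_al.Mg.G005
import Pool.Agent.Lib.MP_c052b4_al.Mg.G006
import Pool.Agent.Lib.MP_c052b4_al.Mg.G020
import Pool.Agent.Lib.MP_c052b4_al.Mg.G029

section

/-!
# Closure properties of the acyclic dominated complexes (TREES^n, helper78)
-/

set_option autoImplicit false
set_option linter.unusedVariables false

namespace Pool.Agent.Lib.MP_c052b4_al.MT

open CategoryTheory CategoryTheory.Limits CategoryTheory.Pretriangulated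

universe u

variable {S S' : Type u} [Ring S] [Ring S'] {G : Type u} [Group G] {L L' : Lbl G} {D : Type}
  {Ys : D → Dir G}

theorem FFK_kL (θ : LblHom L L') {X : KV S L} (h : FFK S L X) : FFK S L' ((kL S θ).obj X) := by
  obtain ⟨K, hK, ⟨e⟩⟩ := h
  exact ⟨((VCat.mapL θ).mapHomologicalComplex (ComplexShape.up ℤ)).obj K, hK,
    ⟨(kL S θ).mapIso e⟩⟩

theorem FFK_kR (φ : S →+* S') {X : KV S L} (h : FFK S L X) : FFK S' L ((kR L φ).obj X) := by
  obtain ⟨K, hK, ⟨e⟩⟩ := h
  exact ⟨((VCat.bc φ : VCat S L ⥤ VCat S' L).mapHomologicalComplex (ComplexShape.up ℤ)).obj K, hK,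
    ⟨(kR L φ).mapIso e⟩⟩

theorem Dom_of_retract {X Y : KV S L} (R : Retract X Y) (h : Dom S L Y) : Dom S L X :=
  (Dom S L).prop_of_retract R h

theorem Dom_kL (θ : LblHom L L') {X : KV S L} (h : Dom S L X) : Dom S L' ((kL S θ).obj X) := by
  obtain ⟨Y, hY, ⟨R⟩⟩ := Dom_le_retract X h
  exact Dom_of_retract (R.map (kL S θ)) (FFK_le_Dom _ (FFK_kL θ hY))

theorem Dom_kR (φ : S →+* S') {X : KV S L} (h : Dom S L X) : Dom S' L ((kR L φ).obj X) := by
  obtain ⟨Y, hY, ⟨R⟩⟩ := Dom_le_retract X h
  exact Dom_of_retract (R.map (kR L φ)) (FFK_le_Dom _ (FFK_kR φ hY))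

theorem DB_retract {A B : Set D} {X Y : KV S (UL Ys A)} (R : Retract X Y) (h : DB S Ys A B Y) :
    DB S Ys A B X := by
  refine ⟨Dom_of_retract R h.1, fun b hb => ?_⟩
  have R' := R.map (kL S (subHom Ys (A := A) (A' := A \ {b}) Set.sdiff_subset))
  rw [IsZero.iff_id_eq_zero, ← R'.retract, (h.2 b hb).eq_of_tgt R'.i 0, zero_comp]

theorem DB_iso {A B : Set D} {X Y : KV S (UL Ys A)} (e : X ≅ Y) (h : DB S Ys A B X) :
    DB S Ys A B Y := DB_retract (Retract.ofIso e.symm) h

theorem isZero_shift {C C' : Type*} [Category C] [Category C'] [HasShift C ℤ] [HasShift C' ℤ]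
    [Preadditive C'] [∀ n : ℤ, (shiftFunctor C' n).Additive] (F : C ⥤ C') [F.CommShift ℤ] {X : C}
    (m : ℤ) (h : IsZero (F.obj X)) : IsZero (F.obj (X⟦m⟧)) :=
  ((shiftFunctor C' m).map_isZero h).of_iso ((F.commShiftIso m).app X)

theorem DB_shift {A B : Set D} {X : KV S (UL Ys A)} (m : ℤ) (h : DB S Ys A B X) :
    DB S Ys A B (X⟦m⟧) :=
  ⟨(Dom S (UL Ys A)).le_shift m _ h.1, fun b hb => isZero_shift _ m (h.2 b hb)⟩

theorem DB_cone {A B : Set D} (T : Triangle (KV S (UL Ys A))) (hT : T ∈ distTriang _)
    (h₁ : DB S Ys A B T.obj₁) (h₂ : DB S Ys A B T.obj₂) : DB S Ys A B T.obj₃ :=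
  ⟨(Dom S (UL Ys A)).ext_of_isTriangulatedClosed₃ T hT h₁.1 h₂.1, fun b hb =>
    Triangle.isZero₃_of_isZero₁₂ _
      ((kL S (subHom Ys (A := A) (A' := A \ {b}) Set.sdiff_subset)).map_distinguished T hT)
      (h₁.2 b hb) (h₂.2 b hb)⟩

theorem DB_kL {A A' B : Set D} (hA : A' ⊆ A) {X : KV S (UL Ys A)} (h : DB S Ys A B X) :
    DB S Ys A' B ((kL S (subHom Ys hA)).obj X) :=
  ⟨Dom_kL _ h.1, fun b hb =>
    (kL S (subHom Ys (A := A \ {b}) (A' := A' \ {b}) (Set.sdiff_subset_sdiff_left hA))).map_isZero
      (h.2 b hb)⟩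

theorem DB_kR {A B : Set D} (φ : S →+* S') {X : KV S (UL Ys A)} (h : DB S Ys A B X) :
    DB S' Ys A B ((kR (UL Ys A) φ).obj X) :=
  ⟨Dom_kR φ h.1, fun b hb => (kR (UL Ys (A \ {b})) φ).map_isZero (h.2 b hb)⟩

theorem DB_mono {A B B' : Set D} (hB : B' ⊆ B) {X : KV S (UL Ys A)} (h : DB S Ys A B X) :
    DB S Ys A B' X := ⟨h.1, fun b hb => h.2 b (hB hb)⟩

end Pool.Agent.Lib.MP_c052b4_al.MT
end

section

/-!
# TREES^n, section 4, E05b: the short exact sequence of complexes
-/

set_option autoImplicit false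
set_option linter.unusedVariables false

namespace Pool.Agent.Lib.MP_c052b4_al.MT

open CategoryTheory Opposite Limits

universe u

variable {S : Type u} [Ring S] {G : Type u} [Group G] {L L' : Lbl G} {p : LblHom L L'}

namespace TreeDir

variable (d : TreeDir p)

open Classical in
private theorem e05b_nat {S : Type u} [Ring S] (x : L.W) {X Y : VCat S L} (f : X ⟶ Y) (v : d.V)
    (m : X.fil (d.vx x v)) :
    (d.augLin x Y (DirectSum.lmap (fun v => VCat.evHom f (d.vx x v))
        (DirectSum.lof S d.V (fun v => X.fil (d.vx x v)) v m))).1 =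
      VCat.lin f (d.augLin x X (DirectSum.lof S d.V (fun v => X.fil (d.vx x v)) v m)).1 := by
  rw [DirectSum.lmap_lof, augLin_lof, augLin_lof]
  rfl

/-- The augmentation as a natural transformation. -/
noncomputable def aug (S : Type u) [Ring S] (x : L.W) :
    (VCat.ev : VCat S L ⥤ AA S L) ⋙ d.CV S x ⟶ VCat.mapL p ⋙ VCat.ev ⋙ valF S (p.f x) where
  app X := ModuleCat.ofHom (d.augLin x X)
  naturality X Y f := by
    classical
    exact ModuleCat.hom_ext (DirectSum.linearMap_ext _ fun v => LinearMap.ext fun m =>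
      Subtype.ext (e05b_nat d x f v m))

/-- The sequence `0 → ⨁ e, K(ex x e) → ⨁ v, K(vx x v) → (p K)(p x) → 0` of complexes of modules. -/
theorem shortExact_cx (x : L.W) (K : CochainComplex (VCat S L) ℤ) :
    ∃ T : ShortComplex (CochainComplex (ModuleCat.{u} S) ℤ), T.ShortExact ∧
      ∃ (e₁ : T.X₁ ≅ ((d.CE S x).mapHomologicalComplex (ComplexShape.up ℤ)).obj
            ((VCat.ev.mapHomologicalComplex (ComplexShape.up ℤ)).obj K))
        (e₂ : T.X₂ ≅ ((d.CV S x).mapHomologicalComplex (ComplexShape.up ℤ)).obj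
            ((VCat.ev.mapHomologicalComplex (ComplexShape.up ℤ)).obj K))
        (e₃ : T.X₃ ≅ ((valF S (p.f x)).mapHomologicalComplex (ComplexShape.up ℤ)).obj
            ((VCat.ev.mapHomologicalComplex (ComplexShape.up ℤ)).obj
              (((VCat.mapL p).mapHomologicalComplex (ComplexShape.up ℤ)).obj K))),
        T.f ≫ e₂.hom = e₁.hom ≫ (NatTrans.mapHomologicalComplex (d.bdry S x)
          (ComplexShape.up ℤ)).app ((VCat.ev.mapHomologicalComplex (ComplexShape.up ℤ)).obj K) := by
  have hz : ∀ X : VCat S L, (d.bdry S x).app (VCat.ev.obj X) ≫ (d.aug S x).app X = 0 := by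
    intro X
    refine ModuleCat.hom_ext (LinearMap.ext fun c => ?_)
    exact d.aug_bdry x X c
  refine ⟨ShortComplex.mk
    (X₁ := ((d.CE S x).mapHomologicalComplex (ComplexShape.up ℤ)).obj
            ((VCat.ev.mapHomologicalComplex (ComplexShape.up ℤ)).obj K))
    (X₂ := ((d.CV S x).mapHomologicalComplex (ComplexShape.up ℤ)).obj
            ((VCat.ev.mapHomologicalComplex (ComplexShape.up ℤ)).obj K))
    (X₃ := ((valF S (p.f x)).mapHomologicalComplex (ComplexShape.up ℤ)).obj
            ((VCat.ev.mapHomologicalComplex (ComplexShape.up ℤ)).obj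
              (((VCat.mapL p).mapHomologicalComplex (ComplexShape.up ℤ)).obj K)))
    ((NatTrans.mapHomologicalComplex (d.bdry S x)
          (ComplexShape.up ℤ)).app ((VCat.ev.mapHomologicalComplex (ComplexShape.up ℤ)).obj K))
    { f := fun n => (d.aug S x).app (K.X n)
      comm' := fun i j _ => ((d.aug S x).naturality (K.d i j)).symm }
    (by
      ext n : 1
      exact hz (K.X n)), ?_, Iso.refl _, Iso.refl _, Iso.refl _, ?_⟩
  · apply HomologicalComplex.shortExact_of_degreewise_shortExact
    intro n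
    have hex : (ShortComplex.mk ((d.bdry S x).app (VCat.ev.obj (K.X n))) ((d.aug S x).app (K.X n))
        (hz (K.X n))).ShortExact :=
      { exact := by
          rw [ShortComplex.moduleCat_exact_iff]
          intro c hc
          exact d.aug_exact x (K.X n) c hc
        mono_f := (ModuleCat.mono_iff_injective _).2 (d.bdry_injective x (K.X n))
        epi_g := (ModuleCat.epi_iff_surjective _).2 (d.aug_surjective x (K.X n)) }
    exact hex
  · rw [Iso.refl_hom, Iso.refl_hom, Category.comp_id, Category.id_comp]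

end TreeDir

end Pool.Agent.Lib.MP_c052b4_al.MT
end

section

/-!
# TREES^n, section 4, E05c: acyclicity after forgetting a direction
-/

set_option autoImplicit false
set_option linter.unusedVariables false

namespace Pool.Agent.Lib.MP_c052b4_al.MT

open CategoryTheory Opposite Limits

universe u

variable {S : Type u} [Ring S] {G : Type u} [Group G] {L L' : Lbl G} {p : LblHom L L'}

private theorem e05c_acyclic_iso {C : Type*} [Category* C] [Abelian C]
    {K K' : CochainComplex C ℤ} (e : K ≅ K') (h : K.Acyclic) : K'.Acyclic := by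
  intro i
  exact (h i).of_iso e

namespace TreeDir

variable (d : TreeDir p)

/-- **(4.3), for complexes**: after forgetting the direction `d` the complex `K` becomes acyclic iff
the homology functors of `K` are acyclic in the direction `d`.
Proof: `acyclic_iff_val` for `L'` and `d.surj`; for each `x` the short exact sequence
`shortExact_cx` and `acyclic_iff_isIso`; then `isIso_homology_natTrans` for `d.bdry S x` and the
complex `ev K` (and: a morphism of modules is an isomorphism iff it is bijective,
`ConcreteCategory.isIso_iff_bijective`). -/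
theorem acyclic_forget_iff (K : CochainComplex (VCat S L) ℤ) :
    ((VCat.ev.mapHomologicalComplex (ComplexShape.up ℤ)).obj
      (((VCat.mapL p).mapHomologicalComplex (ComplexShape.up ℤ)).obj K)).Acyclic ↔
    ∀ q : ℤ, d.Ac S (((VCat.ev.mapHomologicalComplex (ComplexShape.up ℤ)).obj K).homology q) := by
  have key : ∀ x : L.W, (((valF S (p.f x)).mapHomologicalComplex (ComplexShape.up ℤ)).obj
      ((VCat.ev.mapHomologicalComplex (ComplexShape.up ℤ)).obj
        (((VCat.mapL p).mapHomologicalComplex (ComplexShape.up ℤ)).obj K))).Acyclic ↔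
      ∀ q : ℤ, Function.Bijective ((d.bdry S x).app
        (((VCat.ev.mapHomologicalComplex (ComplexShape.up ℤ)).obj K).homology q)).hom := by
    intro x
    obtain ⟨T, hT, e₁, e₂, e₃, he⟩ := d.shortExact_cx (S := S) x K
    have h1 : (((valF S (p.f x)).mapHomologicalComplex (ComplexShape.up ℤ)).obj
        ((VCat.ev.mapHomologicalComplex (ComplexShape.up ℤ)).obj
        (((VCat.mapL p).mapHomologicalComplex (ComplexShape.up ℤ)).obj K))).Acyclic ↔
        T.X₃.Acyclic :=
      ⟨fun h => e05c_acyclic_iso e₃.symm h, fun h => e05c_acyclic_iso e₃ h⟩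
    rw [h1, acyclic_iff_isIso T hT]
    refine forall_congr' fun q => ?_
    have h2 : (HomologicalComplex.homologyMap T.f q) ≫ HomologicalComplex.homologyMap e₂.hom q =
        HomologicalComplex.homologyMap e₁.hom q ≫ HomologicalComplex.homologyMap
          ((NatTrans.mapHomologicalComplex (d.bdry S x) (ComplexShape.up ℤ)).app
            ((VCat.ev.mapHomologicalComplex (ComplexShape.up ℤ)).obj K)) q := by
      rw [← HomologicalComplex.homologyMap_comp, ← HomologicalComplex.homologyMap_comp, he]
    have h3 : IsIso (HomologicalComplex.homologyMap T.f q) ↔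
        IsIso (HomologicalComplex.homologyMap
          ((NatTrans.mapHomologicalComplex (d.bdry S x) (ComplexShape.up ℤ)).app
            ((VCat.ev.mapHomologicalComplex (ComplexShape.up ℤ)).obj K)) q) := by
      constructor
      · intro h
        have h4 : IsIso (HomologicalComplex.homologyMap e₁.hom q ≫ HomologicalComplex.homologyMap
          ((NatTrans.mapHomologicalComplex (d.bdry S x) (ComplexShape.up ℤ)).app
            ((VCat.ev.mapHomologicalComplex (ComplexShape.up ℤ)).obj K)) q) := by
          rw [← h2]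
          infer_instance
        exact IsIso.of_isIso_comp_left (HomologicalComplex.homologyMap e₁.hom q) _
      · intro h
        have h4 : IsIso ((HomologicalComplex.homologyMap T.f q) ≫
            HomologicalComplex.homologyMap e₂.hom q) := by
          rw [h2]
          infer_instance
        exact IsIso.of_isIso_comp_right _ (HomologicalComplex.homologyMap e₂.hom q)
    rw [h3, isIso_homology_natTrans, ConcreteCategory.isIso_iff_bijective]
  rw [acyclic_iff_val]
  constructor
  · intro h q x
    exact (key x).1 (h (p.f x)) q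
  · intro h x'
    obtain ⟨x, rfl⟩ := d.surj x'
    exact (key x).2 fun q => h q x

end TreeDir

end Pool.Agent.Lib.MP_c052b4_al.MT
end
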