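import Pool.Agent.Lib.MP_c052b4_al.Mg.G027
import Pool.Agent.Lib.MP_c052b4_al.Mg.G009
import Pool.Agent.Lib.MP_c052b4_al.Mg.G006
import Pool.Agent.Lib.MP_c052b4_al.Mg.G045

section

/-!
# TREES^n, section 4, F01: restriction of scalars and base change
-/

set_option autoImplicit false
set_option linter.unusedVariables false

namespace Pool.Agent.Lib.MP_c052b4_al.MT

open CategoryTheory Opposite Limits

universe u

variable {S S' : Type u} [Ring S] [Ring S'] {G : Type u} [Group G] {L : Lbl G}

/-- Restriction of scalars for functors. -/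
noncomputable abbrev rho (L : Lbl G) (φ : S →+* S') : AA S' L ⥤ AA S L :=
  (Functor.whiskeringRight _ _ _).obj (ModuleCat.restrictScalars.{u} φ)

instance rho_additive (φ : S →+* S') : (rho L φ).Additive where
  map_add := by
    intro X Y f g
    ext x v
    rfl

theorem bcVec_smul (φ : S →+* S') (X : VCat S L) (s : S) (v : X.M) :
    VCat.bcVec φ X (s • v) = φ s • VCat.bcVec φ X v := by
  refine Finsupp.ext fun (i : X.I) => ?_
  change MonoidAlgebra.mapRingHom G φ (s • v i) = φ s • MonoidAlgebra.mapRingHom G φ (v i)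
  apply MonoidAlgebra.coeff_injective
  refine Finsupp.ext fun g => ?_
  change φ ((s • v i).coeff g) = (φ s • MonoidAlgebra.mapRingHom G φ (v i)).coeff g
  rw [MonoidAlgebra.coeff_smul, MonoidAlgebra.coeff_smul, Finsupp.smul_apply, Finsupp.smul_apply,
    smul_eq_mul, smul_eq_mul, map_mul]
  rfl

theorem bcVec_gmul (φ : S →+* S') (X : VCat S L) (g : G) (v : X.M) :
    VCat.bcVec φ X (X.gmul g v) = (VCat.bcObj S' X).gmul g (VCat.bcVec φ X v) := by
  rw [VCat.gmul_apply, VCat.gmul_apply, LinearMap.map_smulₛₗ (VCat.bcVec φ X)]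
  congr 1
  rw [MonoidAlgebra.mapRingHom_single, map_one]

/-- Base change on the filtration steps. -/
noncomputable def lamApp (φ : S →+* S') (X : VCat S L) (x : (Q L)ᵒᵖ) :
    (VCat.ev.obj X : AA S L).obj x ⟶ (ModuleCat.restrictScalars.{u} φ).obj
      ((VCat.ev.obj (VCat.bcObj S' X) : AA S' L).obj x) :=
  ModuleCat.ofHom (Y := (ModuleCat.restrictScalars.{u} φ).obj
      ((VCat.ev.obj (VCat.bcObj S' X) : AA S' L).obj x))
    { toFun := fun v : X.fil x.unop.w =>
        (⟨VCat.bcVec φ X v.1, VCat.bcVec_mem φ X v.2⟩ : (VCat.bcObj S' X).fil x.unop.w)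
      map_add' := fun v v' => Subtype.ext (map_add _ _ _)
      map_smul' := fun s v => Subtype.ext (bcVec_smul φ X s v.1) }

theorem lamApp_apply (φ : S →+* S') (X : VCat S L) (x : (Q L)ᵒᵖ) (v : X.fil x.unop.w) :
    ((lamApp φ X x).hom v : (VCat.bcObj S' X).fil x.unop.w).1 = VCat.bcVec φ X v.1 := rfl

/-- The natural transformation from `ev X` to `ev` of the base change of `X`. -/
noncomputable def lam (L : Lbl G) (φ : S →+* S') :
    (VCat.ev : VCat S L ⥤ AA S L) ⟶ VCat.bc φ ⋙ VCat.ev ⋙ rho L φ where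
  app X :=
    { app := fun x => lamApp φ X x
      naturality := fun x y g => by
        refine ModuleCat.hom_ext (LinearMap.ext fun v => Subtype.ext ?_)
        exact bcVec_gmul φ X (qg g.unop) _ }
  naturality X Y f := by
    refine NatTrans.ext (funext fun x => ModuleCat.hom_ext (LinearMap.ext fun v =>
      Subtype.ext ?_))
    exact (VCat.lin_bcMap_bcVec φ f _).symm

end Pool.Agent.Lib.MP_c052b4_al.MT
end

section

/-!
# TREES^n, section 4, F02b: torsion functors
-/

set_option autoImplicit false
set_option linter.unusedVariables false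

namespace Pool.Agent.Lib.MP_c052b4_al.MT

open CategoryTheory Opposite Limits

universe u

variable {S : Type u} [Ring S] {G : Type u} [Group G] {L : Lbl G}

/-- `z`-torsion functors. -/
def Tors (L : Lbl G) (z : S) : ObjectProperty (AA S L) :=
  fun N => ∀ (x : (Q L)ᵒᵖ) (n : N.obj x), ∃ k : ℕ, z ^ k • n = 0

private theorem f02b_inj {N N' : AA S L} (f : N ⟶ N') [Mono f] (x : (Q L)ᵒᵖ) :
    Function.Injective (f.app x).hom :=
  (ModuleCat.mono_iff_injective (f.app x)).1 ((NatTrans.mono_iff_mono_app f).1 inferInstance x)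

private theorem f02b_surj {N N' : AA S L} (f : N ⟶ N') [Epi f] (x : (Q L)ᵒᵖ) :
    Function.Surjective (f.app x).hom :=
  (ModuleCat.epi_iff_surjective (f.app x)).1 ((NatTrans.epi_iff_epi_app f).1 inferInstance x)

/-- `z`-torsion functors form a Serre class (`z` central): pointwise statement about submodules,
quotients, extensions of modules. -/
theorem tors_serre (z : S) (hz : ∀ s : S, Commute z s) : (Tors L z).IsSerreClass where
  exists_zero := by
    obtain ⟨Z, hZ⟩ := (inferInstance : HasZeroObject (AA S L)).zero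
    refine ⟨Z, hZ, fun x n => ⟨0, ?_⟩⟩
    have h2 : (𝟙 Z) = 0 := (IsZero.iff_id_eq_zero _).1 hZ
    have h3 : n = 0 := congrArg (fun t : Z ⟶ Z => (t.app x).hom n) h2
    rw [h3, smul_zero]
  prop_of_mono {N N'} f _ h := by
    intro x n
    obtain ⟨k, hk⟩ := h x ((f.app x).hom n)
    refine ⟨k, f02b_inj f x ?_⟩
    rw [map_smul, hk, map_zero]
  prop_of_epi {N N'} f _ h := by
    intro x n
    obtain ⟨m, rfl⟩ := f02b_surj f x n
    obtain ⟨k, hk⟩ := h x m
    exact ⟨k, by rw [← map_smul, hk, map_zero]⟩
  prop_X₂_of_shortExact {E} hE h₁ h₃ := by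
    intro x n
    have hx : (E.map ((evaluation (Q L)ᵒᵖ (ModuleCat.{u} S)).obj x)).ShortExact :=
      hE.map_of_exact _
    obtain ⟨k, hk⟩ := h₃ x ((E.g.app x).hom n)
    have h1 : (E.g.app x).hom (z ^ k • n) = 0 := by
      rw [map_smul, hk]
    obtain ⟨m, hm⟩ := (ShortComplex.moduleCat_exact_iff _).1 hx.exact (z ^ k • n) h1
    obtain ⟨j, hj⟩ := h₁ x m
    refine ⟨j + k, ?_⟩
    rw [pow_add, mul_smul, ← hm]
    have h2 : (E.f.app x).hom (z ^ j • m) = z ^ j • (E.f.app x).hom m := map_smul _ _ _
    exact h2.symm.trans ((congrArg (E.f.app x).hom hj).trans (map_zero _))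

/-- The polynomial variable. -/
instance tors_serre_X {R : Type u} [Ring R] :
    (Tors L (Polynomial.X : Polynomial R)).IsSerreClass :=
  tors_serre _ fun s => (Polynomial.commute_X s).symm.symm

/-- A criterion: `f` is an isomorphism modulo torsion if elements of the kernel are torsion and
every element of the target becomes a value of `f` after multiplication with a power of `z`. -/
theorem isoMod_of_elements (z : S) [(Tors L z).IsSerreClass] {N N' : AA S L} (f : N ⟶ N')
    (h1 : ∀ x (n : N.obj x), (f.app x).hom n = 0 → ∃ k : ℕ, z ^ k • n = 0)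
    (h2 : ∀ x (n' : N'.obj x), ∃ (k : ℕ) (n : N.obj x), (f.app x).hom n = z ^ k • n') :
    (Tors L z).isoModSerre f := by
  constructor
  · intro x n
    have hk : (f.app x).hom (((kernel.ι f).app x).hom n) = 0 := by
      have h3 := congrArg (fun t : kernel f ⟶ N' => (t.app x).hom n) (kernel.condition f)
      exact h3
    obtain ⟨k, hk⟩ := h1 x _ hk
    refine ⟨k, f02b_inj (kernel.ι f) x ?_⟩
    rw [map_smul, hk, map_zero]
  · intro x y
    obtain ⟨n', rfl⟩ := f02b_surj (cokernel.π f) x y
    obtain ⟨k, n, hn⟩ := h2 x n'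
    refine ⟨k, ?_⟩
    rw [← map_smul, ← hn]
    have h3 := congrArg (fun t : N ⟶ cokernel f => (t.app x).hom n) (cokernel.condition f)
    exact h3

end Pool.Agent.Lib.MP_c052b4_al.MT
end

section

/-!
# TREES^n, section 4, F02c: localization and torsion
-/

set_option autoImplicit false
set_option linter.unusedVariables false

namespace Pool.Agent.Lib.MP_c052b4_al.MT

open CategoryTheory Opposite Limits

universe u

variable {G : Type u} [Group G] {L : Lbl G}

variable {R : Type u} [Ring R]

/-- The localization map `R[z] → R[z, 1/z]`. -/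
noncomputable abbrev lz (R : Type u) [Ring R] : Polynomial R →+* LaurentPolynomial R :=
  Polynomial.toLaurent

private theorem f02c_pow (k : ℕ) : lz R (Polynomial.X ^ k) = LaurentPolynomial.T (k : ℤ) :=
  Polynomial.toLaurent_X_pow k

private theorem f02c_add {X : VCat (Polynomial R) L} {a b : (VCat.bcObj (LaurentPolynomial R) X).M}
    (ha : ∃ (k : ℕ) (n : X.M), VCat.bcVec (lz R) X n =
      (LaurentPolynomial.T (k : ℤ) : LaurentPolynomial R) • a)
    (hb : ∃ (k : ℕ) (n : X.M), VCat.bcVec (lz R) X n =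
      (LaurentPolynomial.T (k : ℤ) : LaurentPolynomial R) • b) :
    ∃ (k : ℕ) (n : X.M), VCat.bcVec (lz R) X n =
      (LaurentPolynomial.T (k : ℤ) : LaurentPolynomial R) • (a + b) := by
  obtain ⟨k1, n1, h1⟩ := ha
  obtain ⟨k2, n2, h2⟩ := hb
  refine ⟨k1 + k2, (Polynomial.X : Polynomial R) ^ k2 • n1 +
    (Polynomial.X : Polynomial R) ^ k1 • n2, ?_⟩
  rw [map_add, bcVec_smul, bcVec_smul, h1, h2, f02c_pow, f02c_pow, smul_add, smul_smul, smul_smul,
    ← LaurentPolynomial.T_add, ← LaurentPolynomial.T_add, Nat.cast_add, add_comm (k2 : ℤ) k1]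

private theorem f02c_vec (X : VCat (Polynomial R) L) (v : (VCat.bcObj (LaurentPolynomial R) X).M) :
    ∃ (k : ℕ) (n : X.M), VCat.bcVec (lz R) X n =
      (LaurentPolynomial.T (k : ℤ) : LaurentPolynomial R) • v := by
  classical
  induction v using Finsupp.induction_linear with
  | zero => exact ⟨0, 0, by rw [map_zero, smul_zero]⟩
  | add a b ha hb => exact f02c_add ha hb
  | single i a =>
    induction a using MonoidAlgebra.induction_linear with
    | zero => exact ⟨0, 0, by rw [map_zero, Finsupp.single_zero, smul_zero]⟩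
    | add a b ha hb =>
      rw [Finsupp.single_add]
      exact f02c_add ha hb
    | single g c =>
      obtain ⟨m, f', hf⟩ := LaurentPolynomial.exists_T_pow c
      refine ⟨m, Finsupp.single (i : X.I) (MonoidAlgebra.single g f'), ?_⟩
      refine (Finsupp.mapRange_single (hf := map_zero _)).trans ?_
      rw [MonoidAlgebra.mapRingHom_single, Finsupp.smul_single, MonoidAlgebra.smul_single]
      congr 2
      exact hf.trans (LaurentPolynomial.commute_T (m : ℤ) c).eq.symm

private theorem f02c_inj (X : VCat (Polynomial R) L) {v : X.M}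
    (h : VCat.bcVec (lz R) X v = 0) : v = 0 := by
  refine Finsupp.ext fun (i : X.I) => ?_
  apply MonoidAlgebra.coeff_injective
  refine Finsupp.ext fun g => ?_
  have h1 := VCat.bcVec_coeff (lz R) X v i g
  rw [h] at h1
  exact Polynomial.toLaurent_injective (h1.symm.trans (map_zero (lz R)).symm)

private theorem f02c_mem (X : VCat (Polynomial R) L) {w : L.W}
    {v : (VCat.bcObj (LaurentPolynomial R) X).M} (hv : v ∈ (VCat.bcObj (LaurentPolynomial R) X).fil w)
    {k : ℕ} {n : X.M} (hn : VCat.bcVec (lz R) X n =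
      (LaurentPolynomial.T (k : ℤ) : LaurentPolynomial R) • v) : n ∈ X.fil w := by
  intro i g hg
  refine hv i g fun h0 => hg ?_
  have h1 := VCat.bcVec_coeff (lz R) X n i g
  rw [hn, Finsupp.smul_apply, MonoidAlgebra.coeff_smul, Finsupp.smul_apply, h0,
    smul_zero] at h1
  exact Polynomial.toLaurent_injective (h1.symm.trans (map_zero (lz R)).symm)

private theorem f02c_lim {S S' : Type u} [Ring S] [Ring S'] (φ : S →+* S') :
    PreservesFiniteLimits (rho L φ) := by
  have : PreservesLimitsOfSize.{0, 0} (ModuleCat.restrictScalars.{u} φ) := ⟨⟨inferInstance⟩⟩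
  have : PreservesLimitsOfSize.{0, 0} (rho L φ) := inferInstance
  exact PreservesLimitsOfSize.preservesFiniteLimits _

private theorem f02c_colim {S S' : Type u} [Ring S] [Ring S'] (φ : S →+* S') :
    PreservesFiniteColimits (rho L φ) := by
  have : PreservesColimitsOfSize.{0, 0} (ModuleCat.restrictScalars.{u} φ) := ⟨⟨inferInstance⟩⟩
  have : PreservesColimitsOfSize.{0, 0} (rho L φ) := inferInstance
  exact PreservesColimitsOfSize.preservesFiniteColimits _

/-- `ev X → ev (R[z,1/z] ⊗ X)` is an isomorphism modulo torsion (it is injective, and every Laurent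
polynomial becomes a polynomial after multiplication with a power of `z`; a vector of
`(bcObj X).fil w` has finitely many coefficients). -/
theorem lam_isoMod (X : VCat (Polynomial R) L) :
    (Tors L (Polynomial.X : Polynomial R)).isoModSerre ((lam L (lz R)).app X) := by
  refine isoMod_of_elements _ _ ?_ ?_
  · intro x n hn
    refine ⟨0, ?_⟩
    have h1 : VCat.bcVec (lz R) X (n : X.fil x.unop.w).1 = 0 := congrArg
      (fun y : (VCat.bcObj (LaurentPolynomial R) X).fil x.unop.w => y.1) hn
    have h2 : n = 0 := Subtype.ext (f02c_inj X h1)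
    rw [h2, smul_zero]
  · intro x n'
    obtain ⟨k, n, hn⟩ := f02c_vec X
      (n' : (VCat.bcObj (LaurentPolynomial R) X).fil x.unop.w).1
    have hmem : n ∈ X.fil x.unop.w :=
      f02c_mem X (n' : (VCat.bcObj (LaurentPolynomial R) X).fil x.unop.w).2 hn
    refine ⟨k, (⟨n, hmem⟩ : X.fil x.unop.w), Subtype.ext ?_⟩
    refine hn.trans ?_
    rw [← f02c_pow]
    rfl

/-- A functor with values in `R[z,1/z]`-modules which is `z`-torsion over `R[z]` is zero. -/
theorem isZero_of_tors (M : AA (LaurentPolynomial R) L)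
    (h : Tors L (Polynomial.X : Polynomial R) ((rho L (lz R)).obj M)) : IsZero M := by
  rw [IsZero.iff_id_eq_zero]
  refine NatTrans.ext (funext fun x => ModuleCat.hom_ext (LinearMap.ext fun n => ?_))
  change n = 0
  obtain ⟨k, hk⟩ := h x n
  have h1 : (LaurentPolynomial.T (k : ℤ) : LaurentPolynomial R) • n = 0 := by
    rw [← f02c_pow]
    exact hk
  have h2 : (LaurentPolynomial.T (-(k : ℤ)) : LaurentPolynomial R) •
      (LaurentPolynomial.T (k : ℤ) : LaurentPolynomial R) • n = n := by
    rw [smul_smul, ← LaurentPolynomial.T_add, neg_add_cancel, LaurentPolynomial.T_zero, one_smul]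
  rw [← h2, h1, smul_zero]

/-- A morphism of functors with values in `R[z,1/z]`-modules which is an isomorphism modulo torsion
is an isomorphism (kernel and cokernel are zero: `rho` is exact, `isZero_of_tors`). -/
theorem isIso_of_isoMod {M M' : AA (LaurentPolynomial R) L} (f : M ⟶ M')
    (h : (Tors L (Polynomial.X : Polynomial R)).isoModSerre ((rho L (lz R)).map f)) : IsIso f := by
  have i1 := f02c_lim (L := L) (lz R)
  have i2 := f02c_colim (L := L) (lz R)
  have h1 : Tors L (Polynomial.X : Polynomial R) (kernel ((rho L (lz R)).map f)) := h.1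
  have h2 : Tors L (Polynomial.X : Polynomial R) (cokernel ((rho L (lz R)).map f)) := h.2
  have h3 : IsZero (kernel f) := isZero_of_tors _
    ((Tors L (Polynomial.X : Polynomial R)).prop_of_iso
      (PreservesKernel.iso (rho L (lz R)) f).symm h1)
  have h4 : IsZero (cokernel f) := isZero_of_tors _
    ((Tors L (Polynomial.X : Polynomial R)).prop_of_iso
      (PreservesCokernel.iso (rho L (lz R)) f).symm h2)
  have h5 : Mono f := Preadditive.mono_of_kernel_zero (h3.eq_of_src _ _)
  have h6 : Epi f := Preadditive.epi_of_cokernel_zero (h4.eq_of_tgt _ _)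
  exact isIso_of_mono_of_epi f

instance rho_lim {S S' : Type u} [Ring S] [Ring S'] (φ : S →+* S') :
    PreservesFiniteLimits (rho L φ) := f02c_lim φ

instance rho_colim {S S' : Type u} [Ring S] [Ring S'] (φ : S →+* S') :
    PreservesFiniteColimits (rho L φ) := f02c_colim φ

end Pool.Agent.Lib.MP_c052b4_al.MT
end

section

/-!
# TREES^n, section 4, F03b: restriction of scalars and acyclic functors
-/

set_option autoImplicit false
set_option linter.unusedVariables false

namespace Pool.Agent.Lib.MP_c052b4_al.MT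

open CategoryTheory Opposite Limits

universe u

variable {G : Type u} [Group G] {L : Lbl G}

private theorem f03b_key {S S' : Type u} [Ring S] [Ring S'] (φ : S →+* S') {L' : Lbl G}
    {p : LblHom L L'} (d : TreeDir p) (M : AA S' L) (x : L.W)
    (v : DirectSum d.E fun e => M.obj (op (⟨d.ex x e⟩ : Q L))) :
    (d.bdryLin x ((rho L φ).obj M) v : DirectSum d.V fun w => M.obj (op (⟨d.vx x w⟩ : Q L))) =
      d.bdryLin x M v := by
  classical
  refine DirectSum.induction_on v ?_ ?_ ?_
  · exact (map_zero (d.bdryLin x ((rho L φ).obj M))).trans (map_zero (d.bdryLin x M)).symm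
  · intro e n
    exact (d.bdryLin_lof x ((rho L φ).obj M) e n).trans (d.bdryLin_lof x M e n).symm
  · intro a b ha hb
    refine (map_add (d.bdryLin x ((rho L φ).obj M)) a b).trans ?_
    refine Eq.trans ?_ (map_add (d.bdryLin x M) a b).symm
    exact congrArg₂ (fun a b : DirectSum d.V fun w => M.obj (op (⟨d.vx x w⟩ : Q L)) => a + b) ha hb

/-- Restriction of scalars preserves acyclic functors: the boundary map of `rho M` is the same map of
sets as the boundary map of `M`. -/
theorem ac_rho {S S' : Type u} [Ring S] [Ring S'] (φ : S →+* S') {L' : Lbl G} {p : LblHom L L'}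
    (d : TreeDir p) (M : AA S' L) (h : d.Ac S' M) : d.Ac S ((rho L φ).obj M) := by
  intro x
  have h1 : Function.Bijective (fun v => d.bdryLin x M v) := h x
  have h2 : (fun v : (DirectSum d.E fun e => M.obj (op (⟨d.ex x e⟩ : Q L))) =>
      (d.bdryLin x ((rho L φ).obj M) v : DirectSum d.V fun w => M.obj (op (⟨d.vx x w⟩ : Q L)))) =
      fun v => d.bdryLin x M v := funext fun v => f03b_key φ d M x v
  rw [← h2] at h1
  exact h1

end Pool.Agent.Lib.MP_c052b4_al.MT
end

section

/-!
# Coherent trees, P03: finitely many places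
-/

set_option autoImplicit false
set_option linter.unusedVariables false
set_option linter.unusedSectionVars false

namespace Pool.Agent.Lib.MP_c052b4_al.CT

open Pool.Agent.Lib.MP_c052b4_al.MT.L
open scoped WithZero

universe u

/-- **Finitely many places detect integrality over the integers.**
Proof: `exists_infVal0` (for `d > 0`) and `exists_gaussVal` for the finitely many primes `p ∣ N`
(`N.primeFactors`) give finitely many discrete valuation rings of `F`; `exists_primes` (L/V05.lean) gives for
each of them finitely many valuations of `E`. The index set is the disjoint union (a finite sigma type,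
in `Type`). Then `integral_of_places`. (Algebra structures `O → E` through `F`, as in
L/V07.lean.) -/
theorem exists_places0 {F E : Type u} {d : ℕ} [Field F] [Field E]
    [Algebra (MvPolynomial (Fin d) ℤ) F] [IsFractionRing (MvPolynomial (Fin d) ℤ) F]
    [Algebra F E] [FiniteDimensional F E] [Algebra.IsSeparable F E]
    [Algebra (MvPolynomial (Fin d) ℤ) E] [IsScalarTower (MvPolynomial (Fin d) ℤ) F E]
    (N : ℕ) (hN : 0 < N) :
    ∃ (ι : Type) (_ : Finite ι) (W : ι → Valuation E ℤᵐ⁰),
      (∀ i, ∃ q : E, W i q = WithZero.exp (-1 : ℤ)) ∧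
        ∀ (x : E) (k : ℕ), IsIntegral (MvPolynomial (Fin d) ℤ) ((N : E) ^ k * x) →
          (∀ i, W i x ≤ 1) → IsIntegral ℤ x := by
  classical
  -- the places at infinity
  obtain ⟨ι₀, hf₀, W₀, hW₀, hI₀⟩ : ∃ (ι : Type) (_ : Finite ι) (W : ι → Valuation E ℤᵐ⁰),
      (∀ i, ∃ q : E, W i q = WithZero.exp (-1 : ℤ)) ∧ (0 < d → ∃ O : ValuationSubring F,
        (∀ f : MvPolynomial (Fin d) ℤ, algebraMap (MvPolynomial (Fin d) ℤ) F f ∈ O →
          ∃ c : ℤ, MvPolynomial.C c = f) ∧ ∀ x : E, (∀ i, W i x ≤ 1) → IsIntegral O x) := by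
    rcases Nat.eq_zero_or_pos d with hd | hd
    · exact ⟨Empty, inferInstance, fun i => i.elim, fun i => i.elim, fun h => by omega⟩
    · obtain ⟨O, hdvr, hO⟩ := exists_infVal0 d hd F
      obtain ⟨ι, hι, W, hW1, hW2⟩ := exists_primes (F := F) (E := E) O
      exact ⟨ι, hι, W, hW1, fun _ => ⟨O, hO, hW2⟩⟩
  -- the places above the prime factors of `N`
  have hP : ∀ p : N.primeFactors, ∃ (ι : Type) (_ : Finite ι) (W : ι → Valuation E ℤᵐ⁰),
      (∀ i, ∃ q : E, W i q = WithZero.exp (-1 : ℤ)) ∧ ∃ O : ValuationSubring F,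
        (∀ a b : ℤ, b ≠ 0 → (a : F) / (b : F) ∈ O → ∀ n : ℕ, ((p : ℕ) : ℤ) ^ n ∣ b →
          ((p : ℕ) : ℤ) ^ n ∣ a) ∧ ∀ x : E, (∀ i, W i x ≤ 1) → IsIntegral O x := by
    intro p
    obtain ⟨O, hdvr, hO⟩ := exists_gaussVal d p (Nat.prime_of_mem_primeFactors p.2) F
    obtain ⟨ι, hι, W, hW1, hW2⟩ := exists_primes (F := F) (E := E) O
    exact ⟨ι, hι, W, hW1, O, hO, hW2⟩
  choose ι hf W hW O hO hI using hP
  refine ⟨ι₀ ⊕ (Σ p : N.primeFactors, ι p), inferInstance,
    Sum.elim W₀ (fun i => W i.1 i.2), ?_, fun x k hx h => ?_⟩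
  · rintro (i | i)
    · exact hW₀ i
    · exact hW i.1 i.2
  · refine integral_of_places (F := F) x N k hN hx (fun hd => ?_) (fun p hp hpN => ?_)
    · obtain ⟨O', h1, h2⟩ := hI₀ hd
      exact ⟨O', h1, h2 x fun i => h (Sum.inl i)⟩
    · have hm : p ∈ N.primeFactors := Nat.mem_primeFactors.2 ⟨hp, hpN, hN.ne'⟩
      exact ⟨O ⟨p, hm⟩, hO ⟨p, hm⟩, hI ⟨p, hm⟩ x fun i => h (Sum.inr ⟨⟨p, hm⟩, i⟩)⟩

end Pool.Agent.Lib.MP_c052b4_al.CT
end
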