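import Pool.Agent.Lib.MP_c052b4_al.Mg.G026
import Pool.Agent.Lib.MP_c052b4_al.Mg.G029
import Pool.Agent.Lib.MP_c052b4_al.Mg.G031
import Pool.Agent.Lib.MP_c052b4_al.Mg.G011
import Pool.Agent.Lib.MP_c052b4_al.Mg.G033

section

/-!
# TREES^n, section 4, F03a: comparison of homology
-/

set_option autoImplicit false
set_option linter.unusedVariables false

namespace Pool.Agent.Lib.MP_c052b4_al.MT

open CategoryTheory Opposite Limits

universe u


/-- Homology of a complex of labelled modules. -/
noncomputable abbrev HH (S : Type u) [Ring S] {G : Type u} [Group G] (L : Lbl G) (q : ℤ) :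
    KV S L ⥤ AA S L := EV S L ⋙ DerivedCategory.homologyFunctor (AA S L) q

/-- The complex of functors of a complex of labelled modules. -/
noncomputable abbrev evC (S : Type u) [Ring S] {G : Type u} [Group G] (L : Lbl G) :
    CochainComplex (VCat S L) ℤ ⥤ CochainComplex (AA S L) ℤ :=
  VCat.ev.mapHomologicalComplex (ComplexShape.up ℤ)

/-- Homology of the class of a complex. -/
noncomputable def HHiso {S : Type u} [Ring S] {G : Type u} [Group G] {L : Lbl G}
    (K : CochainComplex (VCat S L) ℤ) (q : ℤ) :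
    (HH S L q).obj ((HomotopyCategory.quotient _ _).obj K) ≅ ((evC S L).obj K).homology q :=
  (DerivedCategory.homologyFunctorFactors (AA S L) q).app ((evC S L).obj K)

variable {R : Type u} [Ring R] {G : Type u} [Group G] {L : Lbl G}

/-- The comparison morphism of complexes `ev K → ev (R[z,1/z] ⊗ K)`. -/
noncomputable def lamC (K : CochainComplex (VCat (Polynomial R) L) ℤ) :
    (evC (Polynomial R) L).obj K ⟶
      ((rho L (lz R)).mapHomologicalComplex (ComplexShape.up ℤ)).obj
        ((evC (LaurentPolynomial R) L).obj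
          (((VCat.bc (lz R)).mapHomologicalComplex (ComplexShape.up ℤ)).obj K)) where
  f n := (lam L (lz R)).app (K.X n)
  comm' i j _ := ((lam L (lz R)).naturality (K.d i j)).symm

/-- On homology the comparison is an isomorphism modulo torsion
(`homology_isoModSerre`, `lam_isoMod`). -/
theorem lamC_homology (K : CochainComplex (VCat (Polynomial R) L) ℤ) (q : ℤ) :
    (Tors L (Polynomial.X : Polynomial R)).isoModSerre
      (HomologicalComplex.homologyMap (lamC K) q) :=
  homology_isoModSerre _ (lamC K) (fun n => lam_isoMod (K.X n)) q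

/-- The comparison for objects of the homotopy category.
Proof: `Y = quotient K`. The homology of `rho (ev (bc K))` is `rho` of the homology of `ev (bc K)`
(`rho` is exact, `ShortComplex.mapHomologyIso`), and `HHiso` for `K` and for `bc K`. Compose with
`lamC_homology`. -/
theorem exists_lamH (Y : KV (Polynomial R) L) (q : ℤ) :
    ∃ c : (HH (Polynomial R) L q).obj Y ⟶
        (rho L (lz R)).obj ((HH (LaurentPolynomial R) L q).obj ((kR L (lz R)).obj Y)),
      (Tors L (Polynomial.X : Polynomial R)).isoModSerre c := by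
  let K : CochainComplex (VCat (Polynomial R) L) ℤ := Y.as
  let K' : CochainComplex (VCat (LaurentPolynomial R) L) ℤ :=
    ((VCat.bc (lz R)).mapHomologicalComplex (ComplexShape.up ℤ)).obj K
  let E : CochainComplex (AA (LaurentPolynomial R) L) ℤ := (evC (LaurentPolynomial R) L).obj K'
  let i1 : (HH (Polynomial R) L q).obj Y ≅ ((evC (Polynomial R) L).obj K).homology q := HHiso K q
  let i2 : (HH (LaurentPolynomial R) L q).obj ((kR L (lz R)).obj Y) ≅ E.homology q := HHiso K' q
  let i3 : (((rho L (lz R)).mapHomologicalComplex (ComplexShape.up ℤ)).obj E).homology q ≅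
      (rho L (lz R)).obj (E.homology q) := (E.sc q).mapHomologyIso (rho L (lz R))
  refine ⟨i1.hom ≫ HomologicalComplex.homologyMap (lamC K) q ≫ i3.hom ≫
    (rho L (lz R)).map i2.inv, ?_⟩
  refine MorphismProperty.comp_mem _ _ _
    ((Tors L (Polynomial.X : Polynomial R)).isoModSerre_of_isIso _) ?_
  refine MorphismProperty.comp_mem _ _ _ (lamC_homology K q) ?_
  exact (Tors L (Polynomial.X : Polynomial R)).isoModSerre_of_isIso _

/-- A retract `X` of a localized complex: the comparison map from the homology of `Y` to the homology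
of `X` is surjective modulo torsion (compose `exists_lamH` with the split epimorphism
`rho (HH r)`). -/
theorem exists_lamX (Y : KV (Polynomial R) L) (X : KV (LaurentPolynomial R) L)
    (s : X ⟶ (kR L (lz R)).obj Y) (r : (kR L (lz R)).obj Y ⟶ X) (h : s ≫ r = 𝟙 X) (q : ℤ) :
    ∃ c : (HH (Polynomial R) L q).obj Y ⟶
        (rho L (lz R)).obj ((HH (LaurentPolynomial R) L q).obj X),
      (Tors L (Polynomial.X : Polynomial R)).epiModSerre c := by
  obtain ⟨c, hc⟩ := exists_lamH Y q
  let F := HH (LaurentPolynomial R) L q ⋙ rho L (lz R)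
  have h1 : IsSplitEpi (F.map r) := ⟨⟨⟨F.map s, by rw [← F.map_comp, h, F.map_id]⟩⟩⟩
  refine ⟨c ≫ F.map r, MorphismProperty.comp_mem _ _ _ ?_ ?_⟩
  · exact hc.2
  · exact (Tors L (Polynomial.X : Polynomial R)).epiModSerre_of_epi (F.map r)

end Pool.Agent.Lib.MP_c052b4_al.MT
end

section

/-!
# TREES^n, section 4, D01: complexes with a strict finite model
-/

set_option autoImplicit false
set_option linter.unusedVariables false

namespace Pool.Agent.Lib.MP_c052b4_al.MT

open CategoryTheory Opposite Limits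

universe u

variable {S : Type u} [Ring S] {G : Type u} [Group G] {L : Lbl G}

/-- Scalar morphisms: the matrix entries are in `S` and connect equal labels only. -/
def IsScalar {X Y : VCat S L} (f : X ⟶ Y) : Prop :=
  ∀ (i : X.I) (j : Y.I) (g : G), ((VCat.lin f (X.e i)) j).coeff g ≠ 0 → g = 1 ∧ X.l i = Y.l j

/-- Complexes which are the image of a strict scalar idempotent of a finite complex. -/
def Str (S : Type u) [Ring S] {G : Type u} [Group G] (L : Lbl G) : ObjectProperty (KV S L) :=
  fun X => ∃ (E : CochainComplex (VCat S L) ℤ) (ε : E ⟶ E), FFc E ∧ ε ≫ ε = ε ∧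
    (∀ n, IsScalar (ε.f n)) ∧
    ∃ (s : X ⟶ (HomotopyCategory.quotient _ _).obj E)
      (r : (HomotopyCategory.quotient _ _).obj E ⟶ X),
      s ≫ r = 𝟙 X ∧ r ≫ s = (HomotopyCategory.quotient _ _).map ε

/-- `Str` is closed under isomorphisms. -/
instance str_iso : (Str S L).IsClosedUnderIsomorphisms where
  of_iso := by
    rintro X Y e ⟨E, ε, h1, h2, h3, s, r, h4, h5⟩
    refine ⟨E, ε, h1, h2, h3, e.inv ≫ s, r ≫ e.hom, ?_, ?_⟩
    · rw [Category.assoc, ← Category.assoc s r e.hom, h4, Category.id_comp, e.inv_hom_id]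
    · rw [Category.assoc, ← Category.assoc e.hom e.inv s, e.hom_inv_id, Category.id_comp, h5]

/-- Objects of `Str` are dominated: they are retracts of finite bounded complexes
(`dom_of_FFc`, and `Dom` is stable under retracts). -/
theorem str_le_dom : Str S L ≤ Dom S L := by
  rintro X ⟨E, ε, h1, -, -, s, r, h4, -⟩
  exact (Dom S L).prop_of_retract ⟨s, r, h4⟩ (dom_of_FFc h1)

end Pool.Agent.Lib.MP_c052b4_al.MT
end

section

/-!
# TREES^n, section 4, D04a: `F_y ⊗ S^κ` is a labelled free module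
-/

set_option autoImplicit false
set_option linter.unusedVariables false

namespace Pool.Agent.Lib.MP_c052b4_al.MT

open CategoryTheory Opposite Limits

universe u

variable {S : Type u} [Ring S] {G : Type u} [Group G] {L : Lbl G}

/-- The labelled module with basis `κ` and all labels `y`. -/
@[reducible]
def constV (S : Type u) [Ring S] {G : Type u} [Group G] {L : Lbl G} (κ : Type u) (y : L.W) :
    VCat S L := ⟨κ, fun _ => y⟩

/-- multiplication by `single g 1` on coordinates, as an `S`-linear map `(κ →₀ S) → (κ →₀ S[G])` -/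
private noncomputable def d04a_col (S : Type u) [Ring S] (G : Type u) [Group G] (κ : Type u) (g : G) :
    (κ →₀ S) →ₗ[S] (κ →₀ MonoidAlgebra S G) :=
  Finsupp.mapRange.linearMap (MonoidAlgebra.lsingle (R := S) g)

private theorem d04a_col_apply {κ : Type u} (g : G) (w : κ →₀ S) (k : κ) :
    d04a_col S G κ g w k = MonoidAlgebra.single g (w k) := rfl

private theorem d04a_col_single {κ : Type u} (g : G) (s : S) (k : κ) :
    d04a_col S G κ g (Finsupp.single k s) = Finsupp.single k (MonoidAlgebra.single g s) := by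
  unfold d04a_col
  rw [Finsupp.mapRange.linearMap_apply, Finsupp.mapRange_single]
  rfl

/-- the linear map on all vectors -/
private noncomputable def d04a_fwd (x y : Q L) (κ : Type u) :
    ((x ⟶ y) →₀ (κ →₀ S)) →ₗ[S] (κ →₀ MonoidAlgebra S G) :=
  Finsupp.lsum ℕ fun g => d04a_col S G κ (qg g)

private theorem d04a_fwd_single (x y : Q L) (κ : Type u) (g : x ⟶ y) (w : κ →₀ S) :
    d04a_fwd x y κ (Finsupp.single g w) = d04a_col S G κ (qg g) w := by
  unfold d04a_fwd
  rw [Finsupp.lsum_single]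

private theorem d04a_coeff (x y : Q L) (κ : Type u) (v : (x ⟶ y) →₀ (κ →₀ S)) (k : κ) (g : x ⟶ y) :
    (d04a_fwd x y κ v k).coeff (qg g) = v g k := by
  classical
  induction v using Finsupp.induction_linear with
  | zero => rw [map_zero]; rfl
  | add v w hv hw =>
    rw [map_add, Finsupp.add_apply, MonoidAlgebra.coeff_add, Finsupp.add_apply, hv, hw,
      Finsupp.add_apply, Finsupp.add_apply]
  | single h w =>
    rw [d04a_fwd_single, d04a_col_apply, MonoidAlgebra.coeff_single, Finsupp.single_apply,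
      Finsupp.single_apply]
    by_cases hgh : h = g
    · rw [if_pos (congrArg qg hgh), if_pos hgh]
    · rw [if_neg fun hh => hgh (q_ext hh), if_neg hgh]
      rfl

private theorem d04a_mem (x y : Q L) (κ : Type u) (v : (x ⟶ y) →₀ (κ →₀ S)) :
    d04a_fwd x y κ v ∈ (constV S κ y.w).fil x.w := by
  classical
  induction v using Finsupp.induction_linear with
  | zero => rw [map_zero]; exact Submodule.zero_mem _
  | add v w hv hw => rw [map_add]; exact Submodule.add_mem _ hv hw
  | single h w =>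
    rw [d04a_fwd_single]
    intro k g hg
    rw [d04a_col_apply, MonoidAlgebra.coeff_single, Finsupp.single_apply] at hg
    split_ifs at hg with h1
    · rw [← h1]
      exact qle h
    · exact absurd rfl hg

private noncomputable def d04a_lin (x y : Q L) (κ : Type u) :
    ((x ⟶ y) →₀ (κ →₀ S)) →ₗ[S] (constV S κ y.w).fil x.w :=
  (d04a_fwd x y κ).codRestrict _ (d04a_mem x y κ)

private theorem d04a_inj (x y : Q L) (κ : Type u) :
    Function.Injective (d04a_lin (S := S) x y κ) := by
  intro v w h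
  refine Finsupp.ext fun g => Finsupp.ext fun k => ?_
  have h1 : d04a_fwd x y κ v = d04a_fwd x y κ w := congrArg Subtype.val h
  rw [← d04a_coeff, ← d04a_coeff, h1]

private theorem d04a_surj (x y : Q L) (κ : Type u) :
    Function.Surjective (d04a_lin (S := S) x y κ) := by
  classical
  rintro ⟨u, hu⟩
  have key : u ∈ LinearMap.range (d04a_fwd (S := S) x y κ) := by
    have h1 : u = ∑ k ∈ u.support, ∑ g ∈ (u k).coeff.support,
        Finsupp.single k (MonoidAlgebra.single g ((u k).coeff g)) := by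
      conv_lhs => rw [← Finsupp.sum_single u]
      refine Finset.sum_congr rfl fun k _ => ?_
      rw [← Finsupp.single_finsetSum]
      congr 1
      apply MonoidAlgebra.coeff_injective
      rw [MonoidAlgebra.coeff_sum]
      simp only [MonoidAlgebra.coeff_single]
      exact (Finsupp.sum_single _).symm
    rw [h1]
    refine Submodule.sum_mem _ fun k _ => Submodule.sum_mem _ fun g hg => ?_
    have h2 : L.le x.w (g • y.w) := hu k g (Finsupp.mem_support_iff.1 hg)
    refine ⟨Finsupp.single (qmk g h2) (Finsupp.single k ((u k).coeff g)), ?_⟩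
    rw [d04a_fwd_single, d04a_col_single, qg_mk]
  obtain ⟨v, hv⟩ := key
  exact ⟨v, Subtype.ext hv⟩

private noncomputable def d04a_equiv (x y : Q L) (κ : Type u) :
    ((x ⟶ y) →₀ (κ →₀ S)) ≃ₗ[S] (constV S κ y.w).fil x.w :=
  LinearEquiv.ofBijective (d04a_lin x y κ) ⟨d04a_inj x y κ, d04a_surj x y κ⟩

private theorem d04a_coe (x y : Q L) (κ : Type u) (v : (x ⟶ y) →₀ (κ →₀ S)) :
    (d04a_equiv x y κ v : (constV S κ y.w).M) = d04a_fwd x y κ v := rfl

private theorem d04a_nat {x x' y : Q L} (κ : Type u) (f : x' ⟶ x) (v : (x ⟶ y) →₀ (κ →₀ S)) :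
    d04a_fwd x' y κ (Finsupp.mapDomain (fun g : (x ⟶ y) => f ≫ g) v) =
      (constV S κ y.w).gmul (qg f) (d04a_fwd x y κ v) := by
  classical
  induction v using Finsupp.induction_linear with
  | zero => rw [Finsupp.mapDomain_zero, map_zero, map_zero, map_zero]
  | add v w hv hw => rw [Finsupp.mapDomain_add, map_add, map_add, map_add, hv, hw]
  | single h w =>
    rw [Finsupp.mapDomain_single, d04a_fwd_single, d04a_fwd_single, VCat.gmul_apply]
    refine Finsupp.ext fun k => ?_
    rw [Finsupp.smul_apply, d04a_col_apply, d04a_col_apply, smul_eq_mul,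
      MonoidAlgebra.single_mul_single, one_mul, qg_comp]

/-- the isomorphism -/
private noncomputable def d04a_iso (y : Q L) (κ : Type u) :
    (fy y).obj (ModuleCat.of S (κ →₀ S)) ≅ VCat.ev.obj (constV S κ y.w) :=
  NatIso.ofComponents (fun x => (d04a_equiv x.unop y κ).toModuleIso) fun {x x'} f => by
    refine ModuleCat.hom_ext (LinearMap.ext fun v => Subtype.ext ?_)
    exact d04a_nat κ f.unop v

/-- the matrix over `S[G]` -/
private noncomputable def d04a_mat (y : Q L) (κ : Type u)
    (p : ModuleCat.of S (κ →₀ S) ⟶ ModuleCat.of S (κ →₀ S)) :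
    constV S κ y.w ⟶ constV S κ y.w :=
  VCat.ofBasis (X := constV S κ y.w) (Y := constV S κ y.w) fun k =>
    ⟨d04a_col S G κ 1 (p.hom (Finsupp.single k 1)), fun k' g hg => by
      classical
      rw [d04a_col_apply, MonoidAlgebra.coeff_single, Finsupp.single_apply] at hg
      split_ifs at hg with h1
      · rw [← h1, one_smul]
        exact L.refl _
      · exact absurd rfl hg⟩

private theorem d04a_mat_e (y : Q L) (κ : Type u)
    (p : ModuleCat.of S (κ →₀ S) ⟶ ModuleCat.of S (κ →₀ S)) (k : κ) :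
    VCat.lin (d04a_mat y κ p) ((constV S κ y.w).e k) =
      d04a_col S G κ 1 (p.hom (Finsupp.single k 1)) :=
  VCat.lin_ofBasis_e _ _

private theorem d04a_mat_scalar (y : Q L) (κ : Type u)
    (p : ModuleCat.of S (κ →₀ S) ⟶ ModuleCat.of S (κ →₀ S)) : IsScalar (d04a_mat y κ p) := by
  classical
  intro k k' g hg
  rw [d04a_mat_e, d04a_col_apply, MonoidAlgebra.coeff_single, Finsupp.single_apply] at hg
  split_ifs at hg with h1
  · exact ⟨h1.symm, rfl⟩
  · exact absurd rfl hg

private theorem d04a_mat_fwd (x y : Q L) (κ : Type u)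
    (p : ModuleCat.of S (κ →₀ S) ⟶ ModuleCat.of S (κ →₀ S)) (v : (x ⟶ y) →₀ (κ →₀ S)) :
    VCat.lin (d04a_mat y κ p) (d04a_fwd x y κ v) =
      d04a_fwd x y κ (Finsupp.mapRange p.hom (map_zero _) v) := by
  classical
  induction v using Finsupp.induction_linear with
  | zero => rw [Finsupp.mapRange_zero, map_zero, map_zero]
  | add v w hv hw =>
    rw [Finsupp.mapRange_add (map_add p.hom), map_add, map_add, map_add, hv, hw]
  | single h w =>
    rw [Finsupp.mapRange_single, d04a_fwd_single, d04a_fwd_single]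
    induction w using Finsupp.induction_linear with
    | zero => rw [map_zero, map_zero, map_zero, map_zero]
    | add v w hv hw => rw [map_add, map_add, map_add, map_add, hv, hw]
    | single k s =>
      have h1 : Finsupp.single k (MonoidAlgebra.single (qg h) s) =
          (MonoidAlgebra.single (qg h) s : MonoidAlgebra S G) • (constV S κ y.w).e k := by
        unfold VCat.e
        rw [Finsupp.smul_single, smul_eq_mul, mul_one]
      have h2 : (Finsupp.single k s : κ →₀ S) = s • Finsupp.single k 1 := by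
        rw [Finsupp.smul_single, smul_eq_mul, mul_one]
      rw [d04a_col_single]
      refine (congrArg (VCat.lin (d04a_mat y κ p)) h1).trans ?_
      rw [map_smul, d04a_mat_e, h2, map_smul]
      refine Finsupp.ext fun k' => ?_
      rw [Finsupp.smul_apply, d04a_col_apply, d04a_col_apply, Finsupp.smul_apply, smul_eq_mul,
        smul_eq_mul, MonoidAlgebra.single_mul_single, mul_one]

/-- `F_y ⊗ S^κ ≅ ev (κ, y)`, compatible with matrices over `S`.
Proof: for `x` the `S`-module `Hom(x, y) →₀ (κ →₀ S)` is isomorphic to `(constV S κ y).fil x`: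
`single g (single k s) ↦ single k (single g s)` for `g` with `x ≤ g y` (`Finsupp` calculus; a vector
of `fil x` has all its coefficients at `(k, g)` with `x ≤ g y`). This is natural in `x`:
precomposition with `f : x' ⟶ x` with group element `g₀` maps `g` to `g₀ g`, as does `gmul g₀`.
For `p`: let `q : constV S κ y ⟶ constV S κ y` be `ofBasis` of `k ↦ ∑ k', (p (e_k)) k' • e_{k'}`;
it is scalar (`g = 1`, same label `y`), and `ev.map q` corresponds to `(fy y).map p`
(check on the basis with `yon_ext`). -/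
theorem fy_free (y : Q L) (κ : Type u) [Finite κ] :
    ∃ e : (fy y).obj (ModuleCat.of S (κ →₀ S)) ≅ VCat.ev.obj (constV S κ y.w),
      ∀ p : ModuleCat.of S (κ →₀ S) ⟶ ModuleCat.of S (κ →₀ S),
        ∃ q : constV S κ y.w ⟶ constV S κ y.w, IsScalar q ∧
          VCat.ev.map q = e.inv ≫ (fy y).map p ≫ e.hom := by
  refine ⟨d04a_iso y κ, fun p => ⟨d04a_mat y κ p, d04a_mat_scalar y κ p, ?_⟩⟩
  rw [Iso.eq_inv_comp]
  refine NatTrans.ext (funext fun x => ModuleCat.hom_ext (LinearMap.ext fun v => Subtype.ext ?_))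
  exact d04a_mat_fwd x.unop y κ p v

end Pool.Agent.Lib.MP_c052b4_al.MT
end

section

/-!
# TREES^n, section 4, D02b: shifts
-/

set_option autoImplicit false
set_option linter.unusedVariables false

namespace Pool.Agent.Lib.MP_c052b4_al.MT

open CategoryTheory Opposite Limits Pretriangulated

universe u

variable {S : Type u} [Ring S] {G : Type u} [Group G] {L : Lbl G}

/-- `Str` is stable under shifts: shift `E`, `ε`, `s`, `r`
(`(E⟦n⟧).X i = E.X (i + n)`, and `quotient` commutes with shifts). -/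
theorem str_shift (n : ℤ) {X : KV S L} (hX : Str S L X) : Str S L (X⟦n⟧) := by
  obtain ⟨E, ε, ⟨hf, N, hN⟩, hε, hs, s, r, h1, h2⟩ := hX
  let c := ((HomotopyCategory.quotient (VCat S L) (ComplexShape.up ℤ)).commShiftIso n)
  refine ⟨(shiftFunctor (CochainComplex (VCat S L) ℤ) n).obj E,
    (shiftFunctor (CochainComplex (VCat S L) ℤ) n).map ε, ⟨fun i => hf (i + n), N + |n|,
      fun i hi => hN (i + n) ?_⟩, ?_, fun i => hs (i + n),
      s⟦n⟧' ≫ c.inv.app E, c.hom.app E ≫ r⟦n⟧', ?_, ?_⟩
  · have h3 : |i| ≤ |i + n| + |n| := by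
      have := abs_add_le (i + n) (-n)
      rwa [add_neg_cancel_right, abs_neg] at this
    omega
  · rw [← Functor.map_comp, hε]
  · rw [Category.assoc, Iso.inv_hom_id_app_assoc, ← Functor.map_comp, h1, CategoryTheory.Functor.map_id]
  · rw [Category.assoc, ← Category.assoc (r⟦n⟧'), ← Functor.map_comp, h2]
    have h4 := c.hom.naturality ε
    have h5 : c.hom.app E ≫ ((HomotopyCategory.quotient (VCat S L)
        (ComplexShape.up ℤ)).map ε)⟦n⟧' =
        (HomotopyCategory.quotient (VCat S L) (ComplexShape.up ℤ)).map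
          ((shiftFunctor (CochainComplex (VCat S L) ℤ) n).map ε) ≫ c.hom.app E := h4.symm
    rw [← Category.assoc, h5, Category.assoc, Iso.hom_inv_id_app]
    exact Category.comp_id _

end Pool.Agent.Lib.MP_c052b4_al.MT
end

section

/-!
# TREES^n, section 4, D02c: explicit cones
-/

set_option autoImplicit false
set_option linter.unusedVariables false

namespace Pool.Agent.Lib.MP_c052b4_al.MT

open CategoryTheory Opposite Limits Pretriangulated

universe u

variable {S : Type u} [Ring S] {G : Type u} [Group G] {L : Lbl G}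

open CochainComplex CochainComplex.HomComplex

private theorem sum_tot (X Y : VCat S L) :
    VCat.sumFst X Y ≫ VCat.sumInl X Y + VCat.sumSnd X Y ≫ VCat.sumInr X Y = 𝟙 _ :=
  VCat.ext_e fun i => by
    rcases i with i | i
    · change VCat.lin (VCat.sumInl X Y) (VCat.lin (VCat.sumFst X Y) ((VCat.sum X Y).e (Sum.inl i))) +
        VCat.lin (VCat.sumInr X Y) (VCat.lin (VCat.sumSnd X Y) ((VCat.sum X Y).e (Sum.inl i))) = _
      rw [VCat.sumFst_inl, VCat.sumSnd_inl, VCat.sumInl_e, map_zero, add_zero]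
      rfl
    · change VCat.lin (VCat.sumInl X Y) (VCat.lin (VCat.sumFst X Y) ((VCat.sum X Y).e (Sum.inr i))) +
        VCat.lin (VCat.sumInr X Y) (VCat.lin (VCat.sumSnd X Y) ((VCat.sum X Y).e (Sum.inr i))) = _
      rw [VCat.sumFst_inr, VCat.sumSnd_inr, VCat.sumInr_e, map_zero, zero_add]
      rfl

private theorem inl_fst' (X Y : VCat S L) : VCat.sumInl X Y ≫ VCat.sumFst X Y = 𝟙 _ :=
  (VCat.sumBicone X Y).inl_fst

private theorem inl_snd' (X Y : VCat S L) : VCat.sumInl X Y ≫ VCat.sumSnd X Y = 0 :=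
  (VCat.sumBicone X Y).inl_snd

private theorem inr_fst' (X Y : VCat S L) : VCat.sumInr X Y ≫ VCat.sumFst X Y = 0 :=
  (VCat.sumBicone X Y).inr_fst

private theorem inr_snd' (X Y : VCat S L) : VCat.sumInr X Y ≫ VCat.sumSnd X Y = 𝟙 _ :=
  (VCat.sumBicone X Y).inr_snd

private theorem inl_inl (X Y : VCat S L) (v : X.M) (b : X.I) :
    (VCat.lin (VCat.sumInl X Y) v) (Sum.inl b) = v b := by
  have h : (Finsupp.lapply (R := MonoidAlgebra S G) (Sum.inl b : X.I ⊕ Y.I)).comp
      (VCat.lin (VCat.sumInl X Y)) = Finsupp.lapply (R := MonoidAlgebra S G) b := by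
    classical
    refine Finsupp.lhom_ext' fun i => LinearMap.ext_ring ?_
    change (VCat.lin (VCat.sumInl X Y) (X.e i)) (Sum.inl b) = (X.e i) b
    rw [VCat.sumInl_e]
    change (Finsupp.single (Sum.inl i : X.I ⊕ Y.I) (1 : MonoidAlgebra S G)) (Sum.inl b) =
      (Finsupp.single i (1 : MonoidAlgebra S G)) b
    rw [Finsupp.single_apply, Finsupp.single_apply]
    by_cases hib : i = b
    · subst hib
      rw [if_pos rfl, if_pos rfl]
    · rw [if_neg hib, if_neg (fun h => hib (Sum.inl_injective h))]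
  exact LinearMap.congr_fun h v

private theorem inl_inr (X Y : VCat S L) (v : X.M) (b : Y.I) :
    (VCat.lin (VCat.sumInl X Y) v) (Sum.inr b) = 0 := by
  have h : (Finsupp.lapply (R := MonoidAlgebra S G) (Sum.inr b : X.I ⊕ Y.I)).comp
      (VCat.lin (VCat.sumInl X Y)) = 0 := by
    classical
    refine Finsupp.lhom_ext' fun i => LinearMap.ext_ring ?_
    change (VCat.lin (VCat.sumInl X Y) (X.e i)) (Sum.inr b) = 0
    rw [VCat.sumInl_e]
    change (Finsupp.single (Sum.inl i : X.I ⊕ Y.I) (1 : MonoidAlgebra S G)) (Sum.inr b) = 0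
    rw [Finsupp.single_apply]
    exact if_neg (by rintro ⟨⟩)
  exact LinearMap.congr_fun h v

private theorem inr_inr (X Y : VCat S L) (v : Y.M) (b : Y.I) :
    (VCat.lin (VCat.sumInr X Y) v) (Sum.inr b) = v b := by
  have h : (Finsupp.lapply (R := MonoidAlgebra S G) (Sum.inr b : X.I ⊕ Y.I)).comp
      (VCat.lin (VCat.sumInr X Y)) = Finsupp.lapply (R := MonoidAlgebra S G) b := by
    classical
    refine Finsupp.lhom_ext' fun i => LinearMap.ext_ring ?_
    change (VCat.lin (VCat.sumInr X Y) (Y.e i)) (Sum.inr b) = (Y.e i) b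
    rw [VCat.sumInr_e]
    change (Finsupp.single (Sum.inr i : X.I ⊕ Y.I) (1 : MonoidAlgebra S G)) (Sum.inr b) =
      (Finsupp.single i (1 : MonoidAlgebra S G)) b
    rw [Finsupp.single_apply, Finsupp.single_apply]
    by_cases hib : i = b
    · subst hib
      rw [if_pos rfl, if_pos rfl]
    · rw [if_neg hib, if_neg (fun h => hib (Sum.inr_injective h))]
  exact LinearMap.congr_fun h v

private theorem inr_inl (X Y : VCat S L) (v : Y.M) (b : X.I) :
    (VCat.lin (VCat.sumInr X Y) v) (Sum.inl b) = 0 := by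
  have h : (Finsupp.lapply (R := MonoidAlgebra S G) (Sum.inl b : X.I ⊕ Y.I)).comp
      (VCat.lin (VCat.sumInr X Y)) = 0 := by
    classical
    refine Finsupp.lhom_ext' fun i => LinearMap.ext_ring ?_
    change (VCat.lin (VCat.sumInr X Y) (Y.e i)) (Sum.inl b) = 0
    rw [VCat.sumInr_e]
    change (Finsupp.single (Sum.inr i : X.I ⊕ Y.I) (1 : MonoidAlgebra S G)) (Sum.inl b) = 0
    rw [Finsupp.single_apply]
    exact if_neg (by rintro ⟨⟩)
  exact LinearMap.congr_fun h v

private theorem scalar_sum {X Y : VCat S L} (f : X ⟶ X) (g : Y ⟶ Y) (hf : IsScalar f)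
    (hg : IsScalar g) :
    IsScalar (VCat.sumFst X Y ≫ f ≫ VCat.sumInl X Y + VCat.sumSnd X Y ≫ g ≫ VCat.sumInr X Y) := by
  rintro (i | i) j a ha
  · have h1 : VCat.lin (VCat.sumFst X Y ≫ f ≫ VCat.sumInl X Y +
        VCat.sumSnd X Y ≫ g ≫ VCat.sumInr X Y) ((VCat.sum X Y).e (Sum.inl i)) =
        VCat.lin (VCat.sumInl X Y) (VCat.lin f (X.e i)) := by
      change VCat.lin (VCat.sumInl X Y) (VCat.lin f (VCat.lin (VCat.sumFst X Y)
          ((VCat.sum X Y).e (Sum.inl i)))) +
        VCat.lin (VCat.sumInr X Y) (VCat.lin g (VCat.lin (VCat.sumSnd X Y)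
          ((VCat.sum X Y).e (Sum.inl i)))) = _
      rw [VCat.sumFst_inl, VCat.sumSnd_inl, map_zero, map_zero, add_zero]
    rw [h1] at ha
    rcases j with j | j
    · rw [inl_inl] at ha
      exact hf i j a ha
    · rw [inl_inr] at ha
      exact absurd (by simp) ha
  · have h1 : VCat.lin (VCat.sumFst X Y ≫ f ≫ VCat.sumInl X Y +
        VCat.sumSnd X Y ≫ g ≫ VCat.sumInr X Y) ((VCat.sum X Y).e (Sum.inr i)) =
        VCat.lin (VCat.sumInr X Y) (VCat.lin g (Y.e i)) := by
      change VCat.lin (VCat.sumInl X Y) (VCat.lin f (VCat.lin (VCat.sumFst X Y)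
          ((VCat.sum X Y).e (Sum.inr i)))) +
        VCat.lin (VCat.sumInr X Y) (VCat.lin g (VCat.lin (VCat.sumSnd X Y)
          ((VCat.sum X Y).e (Sum.inr i)))) = _
      rw [VCat.sumFst_inr, VCat.sumSnd_inr, map_zero, map_zero, zero_add]
    rw [h1] at ha
    rcases j with j | j
    · rw [inr_inl] at ha
      exact absurd (by simp) ha
    · rw [inr_inr] at ha
      exact hg i j a ha

/-- The components of the isomorphism. -/
private noncomputable def eN {E₁ E₂ : CochainComplex (VCat S L) ℤ} (φ : E₁ ⟶ E₂) (n : ℤ) :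
    VCat.sum (E₁.X (n + 1)) (E₂.X n) ≅ (mappingCone φ).X n where
  hom := VCat.sumFst _ _ ≫ (mappingCone.inl φ).v (n + 1) n (by lia) +
    VCat.sumSnd _ _ ≫ (mappingCone.inr φ).f n
  inv := (mappingCone.fst φ).1.v n (n + 1) rfl ≫ VCat.sumInl _ _ +
    (mappingCone.snd φ).v n n (add_zero n) ≫ VCat.sumInr _ _
  hom_inv_id := by
    rw [Preadditive.add_comp, Preadditive.comp_add, Preadditive.comp_add, Category.assoc,
      Category.assoc, Category.assoc, Category.assoc, mappingCone.inl_v_fst_v_assoc,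
      mappingCone.inl_v_snd_v_assoc, mappingCone.inr_f_fst_v_assoc,
      mappingCone.inr_f_snd_v_assoc, zero_comp, comp_zero, zero_comp, comp_zero, add_zero,
      zero_add, sum_tot]
  inv_hom_id := by
    rw [Preadditive.add_comp, Preadditive.comp_add, Preadditive.comp_add, Category.assoc,
      Category.assoc, Category.assoc, Category.assoc, ← Category.assoc (VCat.sumInl _ _),
      ← Category.assoc (VCat.sumInl _ _), ← Category.assoc (VCat.sumInr _ _),
      ← Category.assoc (VCat.sumInr _ _), inl_fst', inl_snd', inr_fst', inr_snd',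
      Category.id_comp, Category.id_comp, zero_comp, zero_comp, comp_zero, comp_zero,
      add_zero, zero_add, mappingCone.id_X]

/-- The complex. -/
private noncomputable def E3 {E₁ E₂ : CochainComplex (VCat S L) ℤ} (φ : E₁ ⟶ E₂) :
    CochainComplex (VCat S L) ℤ where
  X n := VCat.sum (E₁.X (n + 1)) (E₂.X n)
  d i j := (eN φ i).hom ≫ (mappingCone φ).d i j ≫ (eN φ j).inv
  shape i j h := by rw [(mappingCone φ).shape i j h, zero_comp, comp_zero]
  d_comp_d' i j k hij hjk := by
    rw [Category.assoc, Category.assoc, Iso.inv_hom_id_assoc, HomologicalComplex.d_comp_d_assoc,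
      zero_comp, comp_zero]

private noncomputable def t3 {E₁ E₂ : CochainComplex (VCat S L) ℤ} (φ : E₁ ⟶ E₂) :
    E3 φ ≅ mappingCone φ :=
  HomologicalComplex.Hom.isoOfComponents (fun n => eN φ n) (fun i j hij => by
    change (eN φ i).hom ≫ (mappingCone φ).d i j =
      ((eN φ i).hom ≫ (mappingCone φ).d i j ≫ (eN φ j).inv) ≫ (eN φ j).hom
    rw [Category.assoc, Category.assoc, Iso.inv_hom_id, Category.comp_id])

private theorem inl_map {E₁ E₂ : CochainComplex (VCat S L) ℤ} (φ : E₁ ⟶ E₂)
    (ε₁ : E₁ ⟶ E₁) (ε₂ : E₂ ⟶ E₂) (comm : φ ≫ ε₂ = ε₁ ≫ φ) (n : ℤ) :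
    (mappingCone.inl φ).v (n + 1) n (by lia) ≫ (mappingCone.map φ φ ε₁ ε₂ comm).f n =
      ε₁.f (n + 1) ≫ (mappingCone.inl φ).v (n + 1) n (by lia) := by
  unfold mappingCone.map
  rw [mappingCone.inl_v_desc_f, Cochain.zero_cochain_comp_v, Cochain.ofHom_v]

private theorem inr_map {E₁ E₂ : CochainComplex (VCat S L) ℤ} (φ : E₁ ⟶ E₂)
    (ε₁ : E₁ ⟶ E₁) (ε₂ : E₂ ⟶ E₂) (comm : φ ≫ ε₂ = ε₁ ≫ φ) (n : ℤ) :
    (mappingCone.inr φ).f n ≫ (mappingCone.map φ φ ε₁ ε₂ comm).f n =
      ε₂.f n ≫ (mappingCone.inr φ).f n := by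
  unfold mappingCone.map
  rw [mappingCone.inr_f_desc_f, HomologicalComplex.comp_f]

private theorem eps_f {E₁ E₂ : CochainComplex (VCat S L) ℤ} (φ : E₁ ⟶ E₂)
    (ε₁ : E₁ ⟶ E₁) (ε₂ : E₂ ⟶ E₂) (comm : φ ≫ ε₂ = ε₁ ≫ φ) (n : ℤ) :
    (eN φ n).hom ≫ (mappingCone.map φ φ ε₁ ε₂ comm).f n ≫ (eN φ n).inv =
      VCat.sumFst _ _ ≫ ε₁.f (n + 1) ≫ VCat.sumInl _ _ +
        VCat.sumSnd _ _ ≫ ε₂.f n ≫ VCat.sumInr _ _ := by
  unfold eN
  dsimp only
  rw [Preadditive.add_comp, Category.assoc, Category.assoc,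
    ← Category.assoc ((mappingCone.inl φ).v (n + 1) n (by lia)), inl_map,
    ← Category.assoc ((mappingCone.inr φ).f n), inr_map, Category.assoc, Category.assoc]
  simp only [Preadditive.comp_add, mappingCone.inl_v_fst_v_assoc,
    mappingCone.inl_v_snd_v_assoc, mappingCone.inr_f_fst_v_assoc,
    mappingCone.inr_f_snd_v_assoc, zero_comp, add_zero, zero_add]

/-- The cone of a morphism of finite complexes with scalar idempotents, with explicit entries.
Let `φ : E₁ ⟶ E₂` be a morphism of complexes with `ε₁ ≫ φ = φ` and `φ ≫ ε₂ = φ`. Then there are a finite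
complex `E₃`, a strict scalar idempotent `ε₃` and an isomorphism `E₃ ≅ mappingCone φ` which transforms
`ε₃` into the endomorphism of `mappingCone φ` induced by `ε₁, ε₂`.
Proof: `E₃.X n = VCat.sum (E₁.X (n+1)) (E₂.X n)`, transport of structure along the isomorphisms
`VCat.sum _ _ ≅ biprod _ _ ≅ (mappingCone φ).X n`; the idempotent is the direct sum of `ε₁.f (n+1)`
and `ε₂.f n` in the basis of `VCat.sum`, so it is scalar. -/
theorem cone_model {E₁ E₂ : CochainComplex (VCat S L) ℤ} (h₁ : FFc E₁) (h₂ : FFc E₂)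
    (ε₁ : E₁ ⟶ E₁) (ε₂ : E₂ ⟶ E₂) (i₁ : ε₁ ≫ ε₁ = ε₁) (i₂ : ε₂ ≫ ε₂ = ε₂)
    (c₁ : ∀ n, IsScalar (ε₁.f n)) (c₂ : ∀ n, IsScalar (ε₂.f n)) (φ : E₁ ⟶ E₂)
    (p₁ : ε₁ ≫ φ = φ) (p₂ : φ ≫ ε₂ = φ) :
    ∃ (E₃ : CochainComplex (VCat S L) ℤ) (ε₃ : E₃ ⟶ E₃) (t : E₃ ≅ CochainComplex.mappingCone φ),
      FFc E₃ ∧ ε₃ ≫ ε₃ = ε₃ ∧ (∀ n, IsScalar (ε₃.f n)) ∧
      ε₃ ≫ t.hom = t.hom ≫ CochainComplex.mappingCone.map φ φ ε₁ ε₂ (by rw [p₁, p₂]) := by
  have comm : φ ≫ ε₂ = ε₁ ≫ φ := by rw [p₁, p₂]
  refine ⟨E3 φ, (t3 φ).hom ≫ mappingCone.map φ φ ε₁ ε₂ comm ≫ (t3 φ).inv, t3 φ, ?_, ?_, ?_, ?_⟩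
  · obtain ⟨f₁, N₁, hN₁⟩ := h₁
    obtain ⟨f₂, N₂, hN₂⟩ := h₂
    refine ⟨fun n => ?_, |N₁| + |N₂| + 1, fun n hn => ?_⟩
    · have := f₁ (n + 1)
      have := f₂ n
      exact inferInstanceAs (Finite ((E₁.X (n + 1)).I ⊕ (E₂.X n).I))
    · have a1 := abs_add_le (n + 1) (-1)
      rw [show n + 1 + -1 = n by ring, abs_neg, abs_one] at a1
      have b1 := le_abs_self N₁
      have b2 := le_abs_self N₂
      have b3 := abs_nonneg N₁
      have b4 := abs_nonneg N₂
      have := hN₁ (n + 1) (by omega)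
      have := hN₂ n (by omega)
      exact inferInstanceAs (IsEmpty ((E₁.X (n + 1)).I ⊕ (E₂.X n).I))
  · have hm : mappingCone.map φ φ ε₁ ε₂ comm ≫ mappingCone.map φ φ ε₁ ε₂ comm =
        mappingCone.map φ φ ε₁ ε₂ comm := by
      rw [← mappingCone.map_comp]
      congr 1
    rw [Category.assoc, Category.assoc, Iso.inv_hom_id_assoc, ← Category.assoc (mappingCone.map _ _ _ _ _), hm]
  · intro n
    have h : ((t3 φ).hom ≫ mappingCone.map φ φ ε₁ ε₂ comm ≫ (t3 φ).inv).f n = _ :=
      eps_f φ ε₁ ε₂ comm n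
    rw [h]
    exact scalar_sum _ _ (c₁ (n + 1)) (c₂ n)
  · rw [Category.assoc, Category.assoc, Iso.inv_hom_id, Category.comp_id]

end Pool.Agent.Lib.MP_c052b4_al.MT
end
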