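import Pool.Agent.Lib.MP_c052b4_al.Mg.G023
import Pool.Agent.Lib.MP_c052b4_al.Mg.G008
import Pool.Agent.Lib.MP_c052b4_al.Mg.G009
import Pool.Agent.Lib.MP_c052b4_al.Mg.G027
import Pool.Agent.Lib.MP_c052b4_al.Mg.G020
import Pool.Agent.Lib.MP_c052b4_al.Mg.G024

section

/-!
# Rescaling: finite free complexes over Laurent polynomials come from polynomials (TREES^n)
-/

set_option autoImplicit false
set_option linter.unusedVariables false

namespace Pool.Agent.Lib.MP_c052b4_al.MT

open CategoryTheory CategoryTheory.Limits

universe u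

variable {R : Type u} [Ring R] {G : Type u} [Group G] {L : Lbl G}

section RescaleAux

open VCat

/-- powers of a central element are central -/
private theorem rescale_pow_central {S : Type u} [Ring S] {s : S} (hs : ∀ x, s * x = x * s) (k : ℕ) :
    ∀ x, s ^ k * x = x * s ^ k := fun x => ((show Commute s x from hs x).pow_left k).eq

/-- The polynomial obtained by clearing denominators. -/
private noncomputable def rescaleP (k : ℕ) (x : LaurentPolynomial R) : Polynomial R :=
  open Classical in
  if h : ∃ p : Polynomial R, Polynomial.toLaurent p =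
      (Polynomial.toLaurent (Polynomial.X : Polynomial R)) ^ k * x then h.choose else 0

private theorem rescaleP_spec {k : ℕ} {x : LaurentPolynomial R}
    (h : ∃ p : Polynomial R, Polynomial.toLaurent p =
      (Polynomial.toLaurent (Polynomial.X : Polynomial R)) ^ k * x) :
    Polynomial.toLaurent (rescaleP k x) =
      (Polynomial.toLaurent (Polynomial.X : Polynomial R)) ^ k * x := by
  unfold rescaleP
  rw [dif_pos h]
  exact h.choose_spec

private theorem rescaleP_zero (k : ℕ) : rescaleP k (0 : LaurentPolynomial R) = 0 := by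
  apply Polynomial.toLaurent_injective
  rw [rescaleP_spec ⟨0, by rw [map_zero, mul_zero]⟩, mul_zero, map_zero]

private theorem rescaleP_eventually (x : LaurentPolynomial R) :
    ∀ᶠ k in Filter.atTop, ∃ p : Polynomial R, Polynomial.toLaurent p =
      (Polynomial.toLaurent (Polynomial.X : Polynomial R)) ^ k * x := by
  obtain ⟨n, p, hp⟩ := LaurentPolynomial.exists_T_pow x
  refine Filter.eventually_atTop.2 ⟨n, fun k hk => ?_⟩
  obtain ⟨m, rfl⟩ := Nat.exists_eq_add_of_le hk
  refine ⟨Polynomial.X ^ m * p, ?_⟩
  rw [map_mul, map_pow, hp, Polynomial.toLaurent_X]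
  have h1 : (LaurentPolynomial.T (n : ℤ) : LaurentPolynomial R) = LaurentPolynomial.T 1 ^ n := by
    rw [LaurentPolynomial.T_pow, mul_one]
  rw [h1]
  have h2 : Commute ((LaurentPolynomial.T 1 : LaurentPolynomial R) ^ n) x :=
    (LaurentPolynomial.commute_T 1 x).pow_left n
  rw [add_comm n m, pow_add, mul_assoc _ _ x, h2.eq]

/-- clearing denominators for vectors -/
private noncomputable def rescaleV (k : ℕ) (Y : VCat (Polynomial R) L)
    (v : (bcObj (LaurentPolynomial R) Y).M) : Y.M :=
  Finsupp.mapRange (fun a : MonoidAlgebra (LaurentPolynomial R) G =>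
    (⟨Finsupp.mapRange (rescaleP k) (rescaleP_zero k) a.coeff⟩ : MonoidAlgebra (Polynomial R) G))
    (by
      apply MonoidAlgebra.coeff_injective
      refine Finsupp.ext fun g => ?_
      exact rescaleP_zero k) v

private theorem rescaleV_coeff (k : ℕ) (Y : VCat (Polynomial R) L)
    (v : (bcObj (LaurentPolynomial R) Y).M) (i : Y.I) (g : G) :
    ((rescaleV k Y v) i).coeff g = rescaleP k ((v i).coeff g) := rfl

private theorem rescaleV_mem (k : ℕ) (Y : VCat (Polynomial R) L)
    (v : (bcObj (LaurentPolynomial R) Y).M) {w : L.W}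
    (hv : v ∈ (bcObj (LaurentPolynomial R) Y).fil w) : rescaleV k Y v ∈ Y.fil w := by
  intro i g hg
  refine hv i g fun h => hg ?_
  rw [rescaleV_coeff, h, rescaleP_zero]

private theorem rescaleV_eventually (Y : VCat (Polynomial R) L)
    (v : (bcObj (LaurentPolynomial R) Y).M) :
    ∀ᶠ k in Filter.atTop, bcVec (Polynomial.toLaurent : Polynomial R →+* LaurentPolynomial R) Y
      (rescaleV k Y v) = MonoidAlgebra.single (1 : G)
        ((Polynomial.toLaurent (Polynomial.X : Polynomial R)) ^ k) • v := by
  have h1 : ∀ᶠ k in Filter.atTop, ∀ i ∈ v.support, ∀ g ∈ (v i).coeff.support,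
      ∃ p : Polynomial R, Polynomial.toLaurent p =
      (Polynomial.toLaurent (Polynomial.X : Polynomial R)) ^ k * (v i).coeff g := by
    rw [Filter.eventually_all_finset]
    intro i _
    rw [Filter.eventually_all_finset]
    intro g _
    exact rescaleP_eventually _
  filter_upwards [h1] with k hk
  refine Finsupp.ext fun i => ?_
  apply MonoidAlgebra.coeff_injective
  refine Finsupp.ext fun g => ?_
  rw [bcVec_coeff, rescaleV_coeff, Finsupp.smul_apply, smul_eq_mul,
    MonoidAlgebra.coeff_single_mul_apply, inv_one, one_mul]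
  by_cases hi : v i = 0
  · have h0 : (v i).coeff g = 0 := by rw [hi]; rfl
    rw [h0, rescaleP_zero, map_zero, mul_zero]
  · by_cases hg : (v i).coeff g = 0
    · rw [hg, rescaleP_zero, map_zero, mul_zero]
    · exact rescaleP_spec (hk i (Finsupp.mem_support_iff.2 hi) g (Finsupp.mem_support_iff.2 hg))

private theorem rescale_bcVec_inj (Y : VCat (Polynomial R) L) {v w : Y.M}
    (h : bcVec (Polynomial.toLaurent : Polynomial R →+* LaurentPolynomial R) Y v =
      bcVec (Polynomial.toLaurent : Polynomial R →+* LaurentPolynomial R) Y w) : v = w := by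
  refine Finsupp.ext fun i => ?_
  apply MonoidAlgebra.coeff_injective
  refine Finsupp.ext fun g => ?_
  apply Polynomial.toLaurent_injective
  have := congrArg (fun z : (bcObj (LaurentPolynomial R) Y).M => (z i).coeff g) h
  exact this

private theorem rescale_bc_inj {X Y : VCat (Polynomial R) L} {f g : X ⟶ Y}
    (h : bcMap (Polynomial.toLaurent : Polynomial R →+* LaurentPolynomial R) f =
      bcMap (Polynomial.toLaurent : Polynomial R →+* LaurentPolynomial R) g) : f = g := by
  refine ext_e fun i => rescale_bcVec_inj Y ?_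
  rw [← lin_bcMap_e, ← lin_bcMap_e, h]

private theorem rescale_bc_comp {X Y Z : VCat (Polynomial R) L} (f : X ⟶ Y) (g : Y ⟶ Z) :
    bcMap (Polynomial.toLaurent : Polynomial R →+* LaurentPolynomial R) (f ≫ g) =
      bcMap (Polynomial.toLaurent : Polynomial R →+* LaurentPolynomial R) f ≫
      bcMap (Polynomial.toLaurent : Polynomial R →+* LaurentPolynomial R) g :=
  (bc (Polynomial.toLaurent : Polynomial R →+* LaurentPolynomial R)).map_comp f g

private theorem rescale_bc_add {X Y : VCat (Polynomial R) L} (f g : X ⟶ Y) :
    bcMap (Polynomial.toLaurent : Polynomial R →+* LaurentPolynomial R) (f + g) =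
      bcMap (Polynomial.toLaurent : Polynomial R →+* LaurentPolynomial R) f +
      bcMap (Polynomial.toLaurent : Polynomial R →+* LaurentPolynomial R) g :=
  (bc (Polynomial.toLaurent : Polynomial R →+* LaurentPolynomial R)).map_add (f := f) (g := g)

private theorem rescale_single (A B : VCat (Polynomial R) L) (k : ℕ)
    (f : bcObj (LaurentPolynomial R) A ⟶ bcObj (LaurentPolynomial R) B)
    (hk : ∀ i : A.I, bcVec (Polynomial.toLaurent : Polynomial R →+* LaurentPolynomial R) B
      (rescaleV k B (lin f ((bcObj (LaurentPolynomial R) A).e i))) =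
        MonoidAlgebra.single (1 : G)
        ((Polynomial.toLaurent (Polynomial.X : Polynomial R)) ^ k) •
          (lin f ((bcObj (LaurentPolynomial R) A).e i))) :
    ∃ g : A ⟶ B, bcMap (Polynomial.toLaurent : Polynomial R →+* LaurentPolynomial R) g =
        cen ((Polynomial.toLaurent (Polynomial.X : Polynomial R)) ^ k)
          (rescale_pow_central (zT_central R) k) _ ≫ f := by
  refine ⟨ofBasis fun i => ⟨rescaleV k B
    (lin f ((bcObj (LaurentPolynomial R) A).e i)), rescaleV_mem k _ _
      (lin_mem f ((bcObj (LaurentPolynomial R) A).e_mem i))⟩, ?_⟩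
  refine ext_e fun i => ?_
  rw [lin_bcMap_e, lin_ofBasis_e, hk i, lin_comp, LinearMap.comp_apply, lin_cen, map_smul]

/-- Clearing denominators for a bounded family of morphisms. -/
private theorem rescale_family (A B : ℤ → VCat (Polynomial R) L) (hA : ∀ n, Finite (A n).I)
    (hN : ∃ N : ℤ, ∀ n, N < |n| → IsEmpty (A n).I)
    (f : ∀ n, bcObj (LaurentPolynomial R) (A n) ⟶ bcObj (LaurentPolynomial R) (B n)) :
    ∃ (k : ℕ) (g : ∀ n, A n ⟶ B n), ∀ n,
      bcMap (Polynomial.toLaurent : Polynomial R →+* LaurentPolynomial R) (g n) =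
        cen ((Polynomial.toLaurent (Polynomial.X : Polynomial R)) ^ k)
          (rescale_pow_central (zT_central R) k) _ ≫ f n := by
  obtain ⟨N, hN⟩ := hN
  have h1 : ∀ᶠ k in Filter.atTop, ∀ n ∈ Finset.Icc (-N) N, ∀ i : (A n).I,
      bcVec (Polynomial.toLaurent : Polynomial R →+* LaurentPolynomial R) (B n)
      (rescaleV k (B n) (lin (f n) ((bcObj (LaurentPolynomial R) (A n)).e i))) =
        MonoidAlgebra.single (1 : G)
        ((Polynomial.toLaurent (Polynomial.X : Polynomial R)) ^ k) •
          (lin (f n) ((bcObj (LaurentPolynomial R) (A n)).e i)) := by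
    rw [Filter.eventually_all_finset]
    intro n _
    have := hA n
    rw [Filter.eventually_all]
    intro i
    exact rescaleV_eventually _ _
  obtain ⟨k, hk⟩ := h1.exists
  have h2 : ∀ n, ∃ g : A n ⟶ B n,
      bcMap (Polynomial.toLaurent : Polynomial R →+* LaurentPolynomial R) g =
        cen ((Polynomial.toLaurent (Polynomial.X : Polynomial R)) ^ k)
          (rescale_pow_central (zT_central R) k) _ ≫ f n := by
    intro n
    refine rescale_single _ _ k (f n) fun i => ?_
    by_cases hn : N < |n|
    · exact ((hN n hn).false i).elim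
    · refine hk n ?_ i
      rw [Finset.mem_Icc]
      exact abs_le.1 (not_lt.1 hn)
  choose g hg using h2
  exact ⟨k, g, hg⟩

private theorem rescale_cen_congr {S : Type u} [Ring S] {s t : S} (hs : ∀ x, s * x = x * s)
    (ht : ∀ x, t * x = x * t) (h : s = t) (X : VCat S L) : cen s hs X = cen t ht X := by
  subst h
  rfl

private theorem rescale_cen_mul {S : Type u} [Ring S] {s t : S} (hs : ∀ x, s * x = x * s)
    (ht : ∀ x, t * x = x * t) (hst : ∀ x, (s * t) * x = x * (s * t))
    (X : VCat S L) : cen s hs X ≫ cen t ht X = cen (s * t) hst X := by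
  apply hom_ext
  refine LinearMap.ext fun v => ?_
  change MonoidAlgebra.single (1 : G) t • (MonoidAlgebra.single (1 : G) s • v) =
    MonoidAlgebra.single (1 : G) (s * t) • v
  rw [smul_smul, MonoidAlgebra.single_mul_single, mul_one, hs]

private theorem rescale_T_central (R : Type u) [Ring R] (m : ℤ) (x : LaurentPolynomial R) :
    LaurentPolynomial.T m * x = x * LaurentPolynomial.T m := (LaurentPolynomial.commute_T m x).eq

private noncomputable def rescale_cenIso (m : ℤ) (X : VCat (LaurentPolynomial R) L) : X ≅ X where
  hom := cen (LaurentPolynomial.T m) (rescale_T_central R m) X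
  inv := cen (LaurentPolynomial.T (-m)) (rescale_T_central R (-m)) X
  hom_inv_id := cen_comp _ _ (by rw [← LaurentPolynomial.T_add, add_neg_cancel,
    LaurentPolynomial.T_zero]) X
  inv_hom_id := cen_comp _ _ (by rw [← LaurentPolynomial.T_add, neg_add_cancel,
    LaurentPolynomial.T_zero]) X

private theorem rescale_step (k : ℕ) (n : ℤ) {X Y : VCat (LaurentPolynomial R) L} (d : X ⟶ Y) :
    cen (LaurentPolynomial.T (k * n)) (rescale_T_central R (k * n)) X ≫
      cen ((Polynomial.toLaurent (Polynomial.X : Polynomial R)) ^ k)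
        (rescale_pow_central (zT_central R) k) X ≫ d =
      d ≫ cen (LaurentPolynomial.T (k * (n + 1))) (rescale_T_central R (k * (n + 1))) Y := by
  rw [← cen_nat (rescale_T_central R (k * (n + 1))) d, ← Category.assoc]
  congr 1
  have h1 : (LaurentPolynomial.T (k * (n + 1)) : LaurentPolynomial R) =
      LaurentPolynomial.T (k * n) * (Polynomial.toLaurent (Polynomial.X : Polynomial R)) ^ k := by
    rw [Polynomial.toLaurent_X, LaurentPolynomial.T_pow, ← LaurentPolynomial.T_add]
    congr 1
    ring
  refine (rescale_cen_mul _ _ (fun x => ?_) X).trans (rescale_cen_congr _ _ h1.symm X)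
  rw [← h1]
  exact rescale_T_central R _ x

private noncomputable def rescaleE (A : ℤ → VCat (Polynomial R) L) (g : ∀ n, A n ⟶ A (n + 1))
    (hdd : ∀ n, g n ≫ g (n + 1) = 0) : GC (Polynomial R) G where
  I n := (A n).I
  d n := lin (g n)
  dd n := congrArg lin (hdd n)

private theorem rescaleE_d (A : ℤ → VCat (Polynomial R) L) (g : ∀ n, A n ⟶ A (n + 1))
    (hdd : ∀ n, g n ≫ g (n + 1) = 0) (n : ℤ) :
    (((bc (Polynomial.toLaurent : Polynomial R →+* LaurentPolynomial R)).mapHomologicalComplex
      (ComplexShape.up ℤ)).obj (GC.T (E := rescaleE A g hdd) (fun n => (A n).l)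
        fun n => RM_lin (g n))).d n (n + 1) =
      bcMap (Polynomial.toLaurent : Polynomial R →+* LaurentPolynomial R) (g n) :=
  congrArg (bcMap (Polynomial.toLaurent : Polynomial R →+* LaurentPolynomial R)) (GC.T_d _ _ n)

/-- The complex over the polynomials. -/
private theorem rescale_complex (K : CochainComplex (VCat (LaurentPolynomial R) L) ℤ) (hK : FFc K) :
    ∃ (E : GC (Polynomial R) G) (_ : E.Fin') (w : ∀ n, E.I n → L.W) (h : E.Resp L w),
      Nonempty (K ≅ ((bc (Polynomial.toLaurent :
        Polynomial R →+* LaurentPolynomial R)).mapHomologicalComplex (ComplexShape.up ℤ)).obj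
        (GC.T w h)) := by
  obtain ⟨k, g, hg⟩ := rescale_family (fun n => (⟨(K.X n).I, (K.X n).l⟩ : VCat (Polynomial R) L))
    (fun n => (⟨(K.X (n + 1)).I, (K.X (n + 1)).l⟩ : VCat (Polynomial R) L)) hK.1 hK.2
    (fun n => K.d n (n + 1))
  have hdd : ∀ n, g n ≫ g (n + 1) = 0 := by
    intro n
    apply rescale_bc_inj
    have h0 : bcMap (Polynomial.toLaurent : Polynomial R →+* LaurentPolynomial R)
        (0 : (⟨(K.X n).I, (K.X n).l⟩ : VCat (Polynomial R) L) ⟶
          ⟨(K.X (n + 1 + 1)).I, (K.X (n + 1 + 1)).l⟩) = 0 :=
      (bc (Polynomial.toLaurent : Polynomial R →+* LaurentPolynomial R)).map_zero _ _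
    rw [h0, rescale_bc_comp, hg, hg]
    have h1 : K.d n (n + 1) ≫ K.d (n + 1) (n + 1 + 1) = 0 := K.d_comp_d _ _ _
    have h2 := cen_nat (rescale_pow_central (zT_central R) k) (K.d n (n + 1))
    calc _ = cen _ _ _ ≫ (K.d n (n + 1) ≫ cen _ _ _) ≫ K.d (n + 1) (n + 1 + 1) := by
          rw [Category.assoc, Category.assoc]
      _ = cen _ _ _ ≫ (cen _ _ _ ≫ K.d n (n + 1)) ≫ K.d (n + 1) (n + 1 + 1) := by rw [h2]
      _ = 0 := by rw [Category.assoc, h1, comp_zero, comp_zero]
  refine ⟨rescaleE _ g hdd, hK, fun n => (K.X n).l, fun n => RM_lin (g n),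
    ⟨isoC (fun n => rescale_cenIso (k * n) (K.X n)) fun n => ?_⟩⟩
  refine (congrArg (fun z => (rescale_cenIso (k * n) (K.X n)).hom ≫ z)
    ((rescaleE_d _ g hdd n).trans (hg n))).trans ?_
  exact rescale_step k n (K.d n (n + 1))

end RescaleAux

/-- PROOF. By `FFK`, `gcIso`, `X ≅ Q (T w h)` for a matrix complex `E` over `LaurentPolynomial R`, `E.Fin'`.
Clear denominators (as in LocHom.lean): there are one `N : ℕ` and linear maps `d₊ n` over `Polynomial R` with
`toLaurent (d₊ n) = T N • d n` (entrywise, on the basis) for all `n`. `toLaurent` is injective on coefficients,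
so `d₊ (n + 1) ∘ d₊ n = 0` and `d₊ n` respects the labels `w`. Put `E₊ = ⟨E.I, d₊, _⟩`. The isomorphism
`T w h ≅ (bc toLaurent) (T w h₊)` is multiplication by the central unit `T (N * n)` in degree `n`
(`VCat.cen`, `VCat.cen_comp`; use `isoC`; `d₊ ∘ T (N n) = T N d T (N n) = T (N (n + 1)) ∘ d`). -/
theorem rescale {X : KV (LaurentPolynomial R) L} (hX : FFK (LaurentPolynomial R) L X) :
    ∃ (E : GC (Polynomial R) G) (_ : E.Fin') (w : ∀ n, E.I n → L.W) (h : E.Resp L w),
      Nonempty (X ≅ (kR L (Polynomial.toLaurent : Polynomial R →+* LaurentPolynomial R)).obj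
        ((QL (Polynomial R) L).obj (GC.T w h))) := by
  obtain ⟨K, hK, ⟨e⟩⟩ := hX
  obtain ⟨E, hE, w, h, ⟨e'⟩⟩ := rescale_complex K hK
  exact ⟨E, hE, w, h, ⟨e ≪≫ (QL (LaurentPolynomial R) L).mapIso e'⟩⟩

end Pool.Agent.Lib.MP_c052b4_al.MT
end

section

/-!
# TREES^n, section 4, A03: the homotopy category of labelled modules and the derived category
-/

set_option autoImplicit false
set_option linter.unusedVariables false

namespace Pool.Agent.Lib.MP_c052b4_al.MT

open CategoryTheory Opposite

universe u

noncomputable instance hasDerivedAA (S : Type u) [Ring S] {G : Type u} [Group G] (L : Lbl G) :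
    HasDerivedCategory.{u + 1} (AA S L) := HasDerivedCategory.standard _

/-- The derived category of the functor category. -/
abbrev DA (S : Type u) [Ring S] {G : Type u} [Group G] (L : Lbl G) := DerivedCategory (AA S L)

variable (S : Type u) [Ring S] {G : Type u} [Group G] (L : Lbl G)

/-- Evaluation on the homotopy categories. -/
noncomputable abbrev kEv : KV S L ⥤ HomotopyCategory (AA S L) (ComplexShape.up ℤ) :=
  (VCat.ev : VCat S L ⥤ AA S L).mapHomotopyCategory (ComplexShape.up ℤ)

/-- The functor from the homotopy category of labelled modules to the derived category. -/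
noncomputable abbrev EV : KV S L ⥤ DA S L := kEv S L ⋙ DerivedCategory.Qh

noncomputable example : (EV S L).CommShift ℤ := inferInstance
noncomputable example : (EV S L).IsTriangulated := inferInstance

end Pool.Agent.Lib.MP_c052b4_al.MT
end

section

/-!
# TREES^n, section 4, C03: homology of dominated complexes
-/

set_option autoImplicit false
set_option linter.unusedVariables false

namespace Pool.Agent.Lib.MP_c052b4_al.MT

open CategoryTheory Opposite Limits

universe u

variable {S : Type u} [Ring S] {G : Type u} [Group G] {L : Lbl G}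

/-- the image of a free module in degree `0` -/
noncomputable def c03_iso (F : VCat S L) : (EV S L).obj (kS F) ≅
    (DerivedCategory.singleFunctor (AA S L) 0).obj (VCat.ev.obj F) :=
  DerivedCategory.Qh.mapIso ((HomotopyCategory.quotient (AA S L) (ComplexShape.up ℤ)).mapIso
    ((HomologicalComplex.singleMapHomologicalComplex (VCat.ev : VCat S L ⥤ AA S L)
      (ComplexShape.up ℤ) 0).app F))

/-- inverse images are stable under retracts -/
theorem c03_retracts {C : Type*} [Category C] {D : Type*} [Category D] (F : C ⥤ D)
    (P : ObjectProperty D) [P.IsStableUnderRetracts] : (P.inverseImage F).IsStableUnderRetracts :=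
  ⟨fun r h => P.prop_of_retract (r.map F) h⟩

/-- The homology of dominated complexes is of finite type.
Proof: `Dom.le` for the inverse image of `HIn (FT S L)` under the triangulated functor `EV S L`
(`hIn_triangulated`, `hIn_retracts`; inverse images of triangulated properties are triangulated). For
`kS F`: `EV (kS F)` is isomorphic to `(singleFunctor _ 0).obj (ev F)`, whose homology is `ev F` in
degree `0` and zero in the other degrees. -/
theorem ft_homology [IsNoetherianRing S] (hL : TopL L) {X : KV S L} (hX : Dom S L X) :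
    HIn (FT S L) ((EV S L).obj X) := by
  have hr := c03_retracts (EV S L) (HIn (FT S L))
  refine Dom.le (P := (HIn (FT S L)).inverseImage (EV S L)) (fun F hF => ?_) X hX
  refine (HIn (FT S L)).prop_of_iso (c03_iso F).symm fun q => ?_
  rcases lt_trichotomy q 0 with h | h | h
  · exact (FT S L).prop_of_isZero (DerivedCategory.isZero_of_isGE _ 0 q h)
  · subst h
    exact (FT S L).prop_of_iso
      ((DerivedCategory.singleFunctorCompHomologyFunctorIso (AA S L) 0).app _).symm (ft_ev hL F hF)
  · exact (FT S L).prop_of_isZero (DerivedCategory.isZero_of_isLE _ 0 q h)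

/-- Dominated complexes have bounded homology (same proof: `bounded_retracts`, and Mathlib's
instance that `t.bounded` is triangulated). -/
theorem bounded_EV {X : KV S L} (hX : Dom S L X) :
    (DerivedCategory.TStructure.t (C := AA S L)).bounded ((EV S L).obj X) := by
  have hr := c03_retracts (EV S L) (DerivedCategory.TStructure.t (C := AA S L)).bounded
  refine Dom.le (P := (DerivedCategory.TStructure.t (C := AA S L)).bounded.inverseImage (EV S L))
    (fun F hF => ?_) X hX
  refine (DerivedCategory.TStructure.t (C := AA S L)).bounded.prop_of_iso (c03_iso F).symm ?_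
  exact ⟨⟨0, inferInstance⟩, ⟨0, inferInstance⟩⟩

end Pool.Agent.Lib.MP_c052b4_al.MT
end

section

/-!
# TREES^n, section 4, A04: full faithfulness on dominated complexes
-/

set_option autoImplicit false
set_option linter.unusedVariables false

namespace Pool.Agent.Lib.MP_c052b4_al.MT

open CategoryTheory Opposite Limits

universe u

variable {S : Type u} [Ring S] {G : Type u} [Group G] {L : Lbl G}

private theorem a04_kproj (F : VCat S L) :
    CochainComplex.IsKProjective (((VCat.ev : VCat S L ⥤ AA S L).mapHomologicalComplex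
      (ComplexShape.up ℤ)).obj ((CochainComplex.singleFunctor (VCat S L) 0).obj F)) := by
  have h0 : CochainComplex.IsStrictlyLE (((VCat.ev : VCat S L ⥤ AA S L).mapHomologicalComplex
      (ComplexShape.up ℤ)).obj ((CochainComplex.singleFunctor (VCat S L) 0).obj F)) 0 := by
    rw [CochainComplex.isStrictlyLE_iff]
    intro i hi
    exact Functor.map_isZero VCat.ev
      (CochainComplex.isZero_of_isStrictlyLE
        ((CochainComplex.singleFunctor (VCat S L) 0).obj F) 0 i hi)
  have h1 : ∀ n : ℤ, Projective ((((VCat.ev : VCat S L ⥤ AA S L).mapHomologicalComplex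
      (ComplexShape.up ℤ)).obj ((CochainComplex.singleFunctor (VCat S L) 0).obj F)).X n) := by
    intro n
    exact ev_projective _
  exact CochainComplex.isKProjective_of_projective _ 0

private instance a04_retr {C : Type*} [Category C] [HasZeroMorphisms C] (P : ObjectProperty C) :
    P.leftOrthogonal.IsStableUnderRetracts where
  of_retract := by
    intro X Y r hY Z f hZ
    have h1 : r.r ≫ f = 0 := hY (r.r ≫ f) hZ
    have h2 : f = r.i ≫ (r.r ≫ f) := by rw [← Category.assoc, r.retract, Category.id_comp]
    rw [h2, h1, comp_zero]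

private instance a04_retr2 {C D : Type*} [Category C] [Category D] (P : ObjectProperty D)
    [P.IsStableUnderRetracts] (F : C ⥤ D) : (P.inverseImage F).IsStableUnderRetracts where
  of_retract := by
    intro X Y r hY
    exact P.prop_of_retract (r.map F) hY

/-- Dominated complexes are left orthogonal to the acyclic complexes.
Proof: `Dom.le` applied to the inverse image of `(subcategoryAcyclic _).leftOrthogonal` under the
triangulated functor `kEv`: this is a triangulated property (Mathlib: inverse images of triangulated
properties under triangulated functors, `leftOrthogonal` is triangulated) and closed under retracts.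
For `kS F`: `kEv (kS F)` is isomorphic to the image under `HomotopyCategory.quotient` of the complex
with `ev F` in degree `0`, which is bounded above and has projective terms (`ev_projective`; the zero
object is projective), so it is K-projective (`CochainComplex.isKProjective_of_projective`), and
`CochainComplex.IsKProjective.leftOrthogonal` applies. -/
theorem kEv_leftOrthogonal {X : KV S L} (hX : Dom S L X) :
    (HomotopyCategory.subcategoryAcyclic (AA S L)).leftOrthogonal ((kEv S L).obj X) := by
  have h := Dom.le (S := S) (L := L)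
    (P := ((HomotopyCategory.subcategoryAcyclic (AA S L)).leftOrthogonal).inverseImage (kEv S L))
    (fun F hF => ?_)
  · exact h X hX
  · have := a04_kproj F
    exact CochainComplex.IsKProjective.leftOrthogonal
      (((VCat.ev : VCat S L ⥤ AA S L).mapHomologicalComplex
      (ComplexShape.up ℤ)).obj ((CochainComplex.singleFunctor (VCat S L) 0).obj F))

/-- For dominated `X` the map `Hom(X, Y) → Hom(EV X, EV Y)` is bijective.
Proof: `kEv` is full and faithful (instances `Functor.mapHomotopyCategory`, as `ev` is full and
faithful), and for `Qh` use `ObjectProperty.leftOrthogonal.map_bijective_of_isTriangulated` exactly as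
in Mathlib's `CochainComplex.IsKProjective.Qh_map_bijective`. -/
theorem EV_bij {X : KV S L} (hX : Dom S L X) (Y : KV S L) :
    Function.Bijective ((EV S L).map : (X ⟶ Y) → ((EV S L).obj X ⟶ (EV S L).obj Y)) := by
  have h1 : Function.Bijective (DerivedCategory.Qh.map :
      ((kEv S L).obj X ⟶ (kEv S L).obj Y) → _) :=
    (kEv_leftOrthogonal hX).map_bijective_of_isTriangulated _ _
  have h2 : Function.Bijective ((kEv S L).map : (X ⟶ Y) → _) :=
    ⟨(kEv S L).map_injective, (kEv S L).map_surjective⟩
  exact h1.comp h2

/-- A dominated complex whose image is zero is zero: `𝟙 X` and `0` have the same image. -/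
theorem isZero_of_EV {X : KV S L} (hX : Dom S L X) (h : IsZero ((EV S L).obj X)) : IsZero X := by
  rw [IsZero.iff_id_eq_zero]
  apply (EV_bij hX X).injective
  exact h.eq_of_src _ _

/-- Isomorphisms between images of dominated complexes lift. -/
theorem iso_of_EV {X Y : KV S L} (hX : Dom S L X) (hY : Dom S L Y)
    (e : (EV S L).obj X ≅ (EV S L).obj Y) : ∃ e' : X ≅ Y, (EV S L).map e'.hom = e.hom := by
  obtain ⟨a, ha⟩ := (EV_bij hX Y).surjective e.hom
  obtain ⟨b, hb⟩ := (EV_bij hY X).surjective e.inv
  refine ⟨⟨a, b, ?_, ?_⟩, ha⟩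
  · apply (EV_bij hX X).injective
    rw [Functor.map_comp, ha, hb, e.hom_inv_id, CategoryTheory.Functor.map_id]
  · apply (EV_bij hY Y).injective
    rw [Functor.map_comp, ha, hb, e.inv_hom_id, CategoryTheory.Functor.map_id]

end Pool.Agent.Lib.MP_c052b4_al.MT
end
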