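import Pool.Agent.Lib.MP_c052b4_al.Mg.G029
import Pool.Agent.Lib.MP_c052b4_al.Mg.G032
import Pool.Agent.Lib.MP_c052b4_al.Mg.G024
import Pool.Agent.Lib.MP_c052b4_al.Mg.G026
import Pool.Agent.Lib.MP_c052b4_al.Mg.G036

section

/-!
# TREES^n, section 4, D02d: cones of complexes with a strict finite model
-/

set_option autoImplicit false
set_option linter.unusedVariables false

namespace Pool.Agent.Lib.MP_c052b4_al.MT

open CategoryTheory Opposite Limits Pretriangulated

universe u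

variable {S : Type u} [Ring S] {G : Type u} [Group G] {L : Lbl G}

private theorem d02d_fin {X : KV S L} {E₃ C : CochainComplex (VCat S L) ℤ} (hE₃ : FFc E₃)
    {ε₃ : E₃ ⟶ E₃} (i₃ : ε₃ ≫ ε₃ = ε₃) (c₃ : ∀ n, IsScalar (ε₃.f n)) (t : E₃ ≅ C) (g : C ⟶ C)
    (ht : ε₃ ≫ t.hom = t.hom ≫ g)
    (s' : X ⟶ (HomotopyCategory.quotient (VCat S L) (ComplexShape.up ℤ)).obj C)
    (r' : (HomotopyCategory.quotient (VCat S L) (ComplexShape.up ℤ)).obj C ⟶ X)
    (h1 : s' ≫ r' = 𝟙 X)
    (h2 : r' ≫ s' = (HomotopyCategory.quotient (VCat S L) (ComplexShape.up ℤ)).map g) :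
    Str S L X := by
  refine ⟨E₃, ε₃, hE₃, i₃, c₃, s' ≫ (HomotopyCategory.quotient _ _).map t.inv,
    (HomotopyCategory.quotient _ _).map t.hom ≫ r', ?_, ?_⟩
  · rw [Category.assoc, ← Category.assoc ((HomotopyCategory.quotient _ _).map t.inv),
      ← Functor.map_comp, Iso.inv_hom_id, CategoryTheory.Functor.map_id, Category.id_comp, h1]
  · rw [Category.assoc, ← Category.assoc r', h2, ← Functor.map_comp, ← Functor.map_comp,
      ← Category.assoc, ← ht, Category.assoc, Iso.hom_inv_id, Category.comp_id]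

/-- `Str` is closed under cones: in a distinguished triangle `X₁ → X₂ → X₃ → X₁⟦1⟧` with `X₁, X₂` in
`Str` also `X₃` is in `Str`.
Proof: models `(E₁, ε₁, s₁, r₁)`, `(E₂, ε₂, s₂, r₂)`. Let `φ₀ : E₁ ⟶ E₂` be a morphism of complexes
representing `r₁ ≫ f ≫ s₂` and `φ = ε₁ ≫ φ₀ ≫ ε₂`; it represents the same class, as
`[ε₁] = r₁ ≫ s₁` etc. So `φ` satisfies the hypotheses of `cone_model`. `s₁ ≫ [φ] = f ≫ s₂` and
`r₁ ≫ f = [φ] ≫ r₂`, so `(s₁, s₂)`, `(r₁, r₂)` extend to morphisms of triangles between the given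
triangle and the triangle of the mapping cone of `φ` (`complete_distinguished_triangle_morphism`), and
`(ε₁, ε₂, mappingCone.map)` is an endomorphism of the latter. Now `split_third`, transported along
`t`. -/
theorem str_cone (T : Triangle (KV S L)) (hT : T ∈ distTriang (KV S L)) (h₁ : Str S L T.obj₁)
    (h₂ : Str S L T.obj₂) : Str S L T.obj₃ := by
  obtain ⟨E₁, ε₁, hE₁, i₁, c₁, s₁, r₁, sr₁, rs₁⟩ := h₁
  obtain ⟨E₂, ε₂, hE₂, i₂, c₂, s₂, r₂, sr₂, rs₂⟩ := h₂
  obtain ⟨φ₀, hφ₀⟩ := (HomotopyCategory.quotient (VCat S L) (ComplexShape.up ℤ)).map_surjective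
    (r₁ ≫ T.mor₁ ≫ s₂)
  obtain ⟨φ, hφ⟩ : ∃ φ : E₁ ⟶ E₂, φ = ε₁ ≫ φ₀ ≫ ε₂ := ⟨_, rfl⟩
  have p₁ : ε₁ ≫ φ = φ := by rw [hφ, ← Category.assoc, i₁]
  have p₂ : φ ≫ ε₂ = φ := by rw [hφ, Category.assoc, Category.assoc, i₂]
  have hQ : (HomotopyCategory.quotient _ _).map φ = r₁ ≫ T.mor₁ ≫ s₂ := by
    rw [hφ, Functor.map_comp, Functor.map_comp, hφ₀, ← rs₁, ← rs₂]
    simp only [Category.assoc]
    rw [reassoc_of% sr₁, reassoc_of% sr₂]
  have hcomm : φ ≫ ε₂ = ε₁ ≫ φ := by rw [p₁, p₂]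
  obtain ⟨E₃, ε₃, t, hE₃, i₃, c₃, ht⟩ := cone_model hE₁ hE₂ ε₁ ε₂ i₁ i₂ c₁ c₂ φ p₁ p₂
  have hT' := HomotopyCategory.mappingCone_triangleh_distinguished φ
  obtain ⟨s₃, hs2, hs3⟩ := complete_distinguished_triangle_morphism T
    (CochainComplex.mappingCone.triangleh φ) hT hT' s₁ s₂ (by
      change T.mor₁ ≫ s₂ = s₁ ≫ (HomotopyCategory.quotient _ _).map φ
      rw [hQ, reassoc_of% sr₁])
  obtain ⟨r₃, hr2, hr3⟩ := complete_distinguished_triangle_morphism
    (CochainComplex.mappingCone.triangleh φ) T hT' hT r₁ r₂ (by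
      change (HomotopyCategory.quotient _ _).map φ ≫ r₂ = r₁ ≫ T.mor₁
      rw [hQ, Category.assoc, Category.assoc, sr₂, Category.comp_id])
  obtain ⟨s', r', h1, h2⟩ := split_third T (CochainComplex.mappingCone.triangleh φ) hT hT'
    { hom₁ := s₁, hom₂ := s₂, hom₃ := s₃
      comm₁ := by
        change T.mor₁ ≫ s₂ = s₁ ≫ (HomotopyCategory.quotient _ _).map φ
        rw [hQ, reassoc_of% sr₁]
      comm₂ := hs2
      comm₃ := hs3 }
    { hom₁ := r₁, hom₂ := r₂, hom₃ := r₃
      comm₁ := by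
        change (HomotopyCategory.quotient _ _).map φ ≫ r₂ = r₁ ≫ T.mor₁
        rw [hQ, Category.assoc, Category.assoc, sr₂, Category.comp_id]
      comm₂ := hr2
      comm₃ := hr3 }
    ((HomotopyCategory.quotient _ _).mapTriangle.map
      (CochainComplex.mappingCone.triangleMap φ φ ε₁ ε₂ hcomm))
    sr₁ sr₂ rs₁ rs₂ (by
      change (HomotopyCategory.quotient _ _).map (CochainComplex.mappingCone.map φ φ ε₁ ε₂ hcomm) ≫
        (HomotopyCategory.quotient _ _).map (CochainComplex.mappingCone.map φ φ ε₁ ε₂ hcomm) =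
        (HomotopyCategory.quotient _ _).map (CochainComplex.mappingCone.map φ φ ε₁ ε₂ hcomm)
      rw [← Functor.map_comp]
      congr 1
      have h := ht
      rw [← Iso.inv_comp_eq] at h
      rw [← h]
      simp only [Category.assoc, Iso.hom_inv_id_assoc]
      rw [reassoc_of% i₃])
  exact d02d_fin hE₃ i₃ c₃ t _ ht s' r' h1 h2

end Pool.Agent.Lib.MP_c052b4_al.MT
end

section

/-!
# TREES^n, section 4, D02e: complexes with a strict finite model form a triangulated category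
-/

set_option autoImplicit false
set_option linter.unusedVariables false

namespace Pool.Agent.Lib.MP_c052b4_al.MT

open CategoryTheory Opposite Limits Pretriangulated

universe u

variable {S : Type u} [Ring S] {G : Type u} [Group G] {L : Lbl G}

/-- The zero complex. -/
private noncomputable def d02e_zero (S : Type u) [Ring S] {G : Type u} [Group G] (L : Lbl G) :
    CochainComplex (VCat S L) ℤ where
  X _ := VCat.zeroObj
  d _ _ := 0

private theorem d02e_isZero : IsZero (d02e_zero S L) := by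
  rw [IsZero.iff_id_eq_zero]
  refine HomologicalComplex.hom_ext _ _ fun n => VCat.ext_e fun i => ?_
  exact PEmpty.elim i

private theorem d02e_str : Str S L ((HomotopyCategory.quotient _ _).obj (d02e_zero S L)) := by
  refine ⟨d02e_zero S L, 𝟙 _, ?_, Category.comp_id _, fun n i => PEmpty.elim i, 𝟙 _, 𝟙 _,
    Category.comp_id _, ?_⟩
  · refine ⟨fun n => ?_, 0, fun n _ => ?_⟩
    · change Finite PEmpty
      infer_instance
    · change IsEmpty PEmpty
      infer_instance
  · rw [Category.comp_id]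
    exact (CategoryTheory.Functor.map_id _ _).symm

/-- `Str` is a triangulated subcategory. -/
instance str_triangulated : (Str S L).IsTriangulated := by
  have : (Str S L).ContainsZero :=
    ⟨_, (HomotopyCategory.quotient _ _).map_isZero (d02e_isZero (S := S) (L := L)), d02e_str⟩
  have : (Str S L).IsStableUnderShift ℤ :=
    ⟨fun n => ⟨fun X hX => str_shift n hX⟩⟩
  have : (Str S L).IsTriangulatedClosed₃ :=
    ObjectProperty.IsTriangulatedClosed₃.mk' fun T hT h₁ h₂ => str_cone T hT h₁ h₂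
  have : (Str S L).IsTriangulatedClosed₂ :=
    ObjectProperty.IsTriangulatedClosed₂.of_isTriangulatedClosed₃
  exact {}

end Pool.Agent.Lib.MP_c052b4_al.MT
end

section

/-!
# TREES^n, section 4, H02: localizations form a triangulated category
-/

set_option autoImplicit false
set_option linter.unusedVariables false

namespace Pool.Agent.Lib.MP_c052b4_al.MT

open CategoryTheory Limits Pretriangulated

universe u

variable {R : Type u} [Ring R] {G : Type u} [Group G] {L : Lbl G} {ι : Type} {L' : ι → Lbl G}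

/-- The objects of the derived category which are images of localizations of acyclic dominated
complexes. -/
def LD (R : Type u) [Ring R] (p : ∀ i, LblHom L (L' i)) : ObjectProperty (DA (LaurentPolynomial R) L) :=
  fun Z => ∃ X, DomZ (Polynomial R) p X ∧
    Nonempty ((EV (LaurentPolynomial R) L).obj ((lK R L).obj X) ≅ Z)

instance ld_iso (p : ∀ i, LblHom L (L' i)) : (LD R p).IsClosedUnderIsomorphisms where
  of_iso {Z Z'} e := by
    rintro ⟨X, hX, ⟨i⟩⟩
    exact ⟨X, hX, ⟨i ≪≫ e⟩⟩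

private theorem h02_closed3 (p : ∀ i, LblHom L (L' i)) : (LD R p).IsTriangulatedClosed₃ := by
  refine ObjectProperty.IsTriangulatedClosed₃.mk' fun T hT h₁ h₂ => ?_
  obtain ⟨X₁, hX₁, ⟨e₁⟩⟩ := h₁
  obtain ⟨X₂, hX₂, ⟨e₂⟩⟩ := h₂
  obtain ⟨f, hf⟩ := (EV_bij (dom_kR (Polynomial.toLaurent : Polynomial R →+* LaurentPolynomial R)
    hX₁.1) ((lK R L).obj X₂)).2 (e₁.hom ≫ T.mor₁ ≫ e₂.inv)
  obtain ⟨k, g, hg⟩ := lochom_surj hX₁.1 f
  obtain ⟨X₃, hX₃, b, c, hTr⟩ := (DomZ (Polynomial R) p).distinguished_cocone_triangle g hX₁ hX₂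
  have hF := (lK R L ⋙ EV (LaurentPolynomial R) L).map_distinguished _ hTr
  haveI := isIso_lK_zKn X₁ k
  haveI : IsIso ((EV (LaurentPolynomial R) L).map
    ((lK R L).map (zKn Polynomial.X (zX_central R) X₁ k))) := inferInstance
  let i₁ := asIso ((EV (LaurentPolynomial R) L).map
    ((lK R L).map (zKn Polynomial.X (zX_central R) X₁ k))) ≪≫ e₁
  have hcomm : (EV (LaurentPolynomial R) L).map ((lK R L).map g) ≫ e₂.hom =
      i₁.hom ≫ T.mor₁ := by
    have h1 : (EV (LaurentPolynomial R) L).map ((lK R L).map g) =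
        (EV (LaurentPolynomial R) L).map
          ((lK R L).map (zKn Polynomial.X (zX_central R) X₁ k)) ≫
            (e₁.hom ≫ T.mor₁ ≫ e₂.inv) := by
      rw [← hf, ← Functor.map_comp]
      exact congrArg _ hg
    rw [h1, Category.assoc, Category.assoc, Category.assoc, e₂.inv_hom_id, Category.comp_id]
    change _ = (_ ≫ e₁.hom) ≫ T.mor₁
    rw [Category.assoc]
    rfl
  exact ⟨X₃, hX₃, ⟨Triangle.π₃.mapIso (isoTriangleOfIso₁₂ _ _ hF hT i₁ e₂ hcomm)⟩⟩

/-- `LD` is a triangulated subcategory.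
Proof: zero, shifts: clear. Cones: let `Z₁ → Z₂ → Z₃` be distinguished, `Z_i ≅ EV (lK X_i)` for
`i = 1, 2`. The map `EV (lK X₁) ⟶ EV (lK X₂)` is `EV f` (`EV_bij`, `dom_kR`), and `z^k f = lK g` with
`g : X₁ ⟶ X₂` (`lochom_surj`). Let `X₁ -g-> X₂ → X₃ →` be distinguished, `X₃` is in `DomZ`. As
`z^k : lK X₁ ⟶ lK X₁` is an isomorphism (`isIso_lK_zKn`) the triangles on `f` and on `lK g` are
isomorphic, so `Z₃ ≅ EV (lK X₃)`. -/
instance ld_triangulated (p : ∀ i, LblHom L (L' i)) : (LD R p).IsTriangulated := by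
  haveI h3 := h02_closed3 (R := R) p
  haveI hs : (LD R p).IsStableUnderShift ℤ :=
    { isStableUnderShiftBy := fun a =>
        { le_shift := by
            rintro Z ⟨X, hX, ⟨e⟩⟩
            exact ⟨X⟦a⟧, (DomZ (Polynomial R) p).le_shift a _ hX,
              ⟨((lK R L ⋙ EV (LaurentPolynomial R) L).commShiftIso a).app X ≪≫
                (shiftFunctor _ a).mapIso e⟩⟩ } }
  haveI h2 : (LD R p).IsTriangulatedClosed₂ :=
    ObjectProperty.IsTriangulatedClosed₂.of_isTriangulatedClosed₃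
  haveI h0 : (LD R p).ContainsZero :=
    { exists_zero := by
        obtain ⟨X, hX0, hX⟩ := (DomZ (Polynomial R) p).exists_prop_of_containsZero
        exact ⟨_, Functor.map_isZero (lK R L ⋙ EV (LaurentPolynomial R) L) hX0,
          X, hX, ⟨Iso.refl _⟩⟩ }
  exact { }

end Pool.Agent.Lib.MP_c052b4_al.MT
end
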