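import Pool.Agent.Lib.MP_c052b4_al.Mg.G026
import Pool.Agent.Lib.MP_c052b4_al.Mg.G028
import Pool.Agent.Lib.MP_c052b4_al.Mg.G025
import Pool.Agent.Lib.MP_c052b4_al.Mg.G032
import Pool.Agent.Lib.MP_c052b4_al.Mg.G031
import Pool.Agent.Lib.MP_c052b4_al.Mg.G034

section

/-!
# TREES^n, section 4, E05d: acyclicity of dominated complexes
-/

set_option autoImplicit false
set_option linter.unusedVariables false

namespace Pool.Agent.Lib.MP_c052b4_al.MT

open CategoryTheory Opposite Limits

universe u

variable {S : Type u} [Ring S] {G : Type u} [Group G] {L L' : Lbl G} {p : LblHom L L'}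

/-- Change of labels preserves dominated complexes (`Dom.le` for the inverse image). -/
theorem dom_kL (p : LblHom L L') {X : KV S L} (hX : Dom S L X) : Dom S L' ((kL S p).obj X) := by
  have hr : ((Dom S L').inverseImage (kL S p)).IsStableUnderRetracts :=
    ⟨fun r h => (Dom S L').prop_of_retract (r.map (kL S p)) h⟩
  have h : Dom S L ≤ (Dom S L').inverseImage (kL S p) := Dom.le fun F hF => by
    change Dom S L' ((kL S p).obj (kS F))
    have hfin : Finite ((VCat.mapL p).obj F).I := hF
    refine (Dom S L').prop_of_iso ?_ (dom_kS ((VCat.mapL p).obj F))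
    exact ((HomotopyCategory.quotient _ _).mapIso
      ((HomologicalComplex.singleMapHomologicalComplex (VCat.mapL p)
        (ComplexShape.up ℤ) 0).app F)).symm
  exact h X hX

/-- **(4.3)**: for dominated `X`: forgetting the direction `d` gives zero iff the homology of `X` is
acyclic in the direction `d`.
Proof: `X = (quotient _ _).obj K`. `(kL S p).obj X` is dominated (`dom_kL`), so it is zero iff `EV` of
it is zero (`isZero_of_EV`), iff `ev (mapL p K)` is acyclic (`isZero_Q_iff`); now
`acyclic_forget_iff` and `(homologyFunctor q).obj (EV X) ≅ (ev K).homology q`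
(`DerivedCategory.homologyFunctorFactors`), `ac_iso`. -/
theorem TreeDir.isZero_iff (d : TreeDir p) {X : KV S L} (hX : Dom S L X) :
    IsZero ((kL S p).obj X) ↔
      ∀ q : ℤ, d.Ac S ((DerivedCategory.homologyFunctor _ q).obj ((EV S L).obj X)) := by
  have hd : Dom S L' ((kL S p).obj X) := dom_kL p hX
  obtain ⟨K⟩ := X
  have e1 : (EV S L').obj ((kL S p).obj ((HomotopyCategory.quotient _ _).obj K)) ≅
      DerivedCategory.Q.obj ((VCat.ev.mapHomologicalComplex (ComplexShape.up ℤ)).obj
        (((VCat.mapL p).mapHomologicalComplex (ComplexShape.up ℤ)).obj K)) :=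
    (DerivedCategory.quotientCompQhIso _).app _
  have e2 : (EV S L).obj ((HomotopyCategory.quotient _ _).obj K) ≅
      DerivedCategory.Q.obj ((VCat.ev.mapHomologicalComplex (ComplexShape.up ℤ)).obj K) :=
    (DerivedCategory.quotientCompQhIso _).app _
  have e3 : ∀ q : ℤ, (DerivedCategory.homologyFunctor _ q).obj
      ((EV S L).obj ((HomotopyCategory.quotient _ _).obj K)) ≅
      ((VCat.ev.mapHomologicalComplex (ComplexShape.up ℤ)).obj K).homology q := fun q =>
    (DerivedCategory.homologyFunctor _ q).mapIso e2 ≪≫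
      (DerivedCategory.homologyFunctorFactors _ q).app _
  have h1 : IsZero ((kL S p).obj ((HomotopyCategory.quotient _ _).obj K)) ↔
      IsZero ((EV S L').obj ((kL S p).obj ((HomotopyCategory.quotient _ _).obj K))) :=
    ⟨fun h => Functor.map_isZero (EV S L') h, fun h => isZero_of_EV hd h⟩
  have h2 : (∀ q : ℤ, d.Ac S ((DerivedCategory.homologyFunctor _ q).obj
      ((EV S L).obj ((HomotopyCategory.quotient _ _).obj K)))) ↔
      ∀ q : ℤ, d.Ac S (((VCat.ev.mapHomologicalComplex (ComplexShape.up ℤ)).obj K).homology q) :=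
    forall_congr' fun q => ⟨fun h => (d.Ac S).prop_of_iso (e3 q) h,
      fun h => (d.Ac S).prop_of_iso (e3 q).symm h⟩
  refine h1.trans (Iff.trans ?_ h2.symm)
  rw [e1.isZero_iff, isZero_Q_iff]
  exact d.acyclic_forget_iff K

end Pool.Agent.Lib.MP_c052b4_al.MT
end

section

/-!
# TREES^n, section 4, F03c: the lattice
-/

set_option autoImplicit false
set_option linter.unusedVariables false

namespace Pool.Agent.Lib.MP_c052b4_al.MT

open CategoryTheory Opposite Limits

universe u

variable {R : Type u} [Ring R] {G : Type u} [Group G] {L : Lbl G}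

/-- **The lattice.** Let `X` be a retract of the localization of `Y`, where `Y` is dominated and
becomes zero after forgetting any of the directions `d i`, and the same for `X`. Then the homology
`M = H_q(X)` has a lattice `N`: a functor of finite type over `R[z]`, acyclic in the directions `d i`,
with a morphism `N ⟶ rho M` which is an isomorphism modulo torsion.
Proof: `N` is the image of `c` of `exists_lamX`. It is of finite type, being a quotient of
`H_q(Y)` (`ft_homology`, `ft_serre`; `R[z]` is Noetherian). `H_q(Y)` and `H_q(X)` are acyclic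
(`TreeDir.isZero_iff`), `rho M` is acyclic (`ac_rho`), so `N` is acyclic (`ac_image`). The inclusion
`image c ⟶ rho M` is a monomorphism whose cokernel is the cokernel of `c`. -/
theorem exists_lattice [IsNoetherianRing (Polynomial R)] (hL : TopL L) {ι : Type} {L' : ι → Lbl G}
    {p : ∀ i, LblHom L (L' i)} (d : ∀ i, TreeDir (p i))
    (Y : KV (Polynomial R) L) (hY : Dom _ L Y)
    (hY0 : ∀ i, IsZero ((kL (Polynomial R) (p i)).obj Y))
    (X : KV (LaurentPolynomial R) L) (hX : Dom _ L X)
    (hX0 : ∀ i, IsZero ((kL (LaurentPolynomial R) (p i)).obj X))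
    (s : X ⟶ (kR L (lz R)).obj Y) (r : (kR L (lz R)).obj Y ⟶ X) (h : s ≫ r = 𝟙 X) (q : ℤ) :
    ∃ (N : AA (Polynomial R) L)
      (j : N ⟶ (rho L (lz R)).obj ((HH (LaurentPolynomial R) L q).obj X)),
      FT _ L N ∧ (∀ i, (d i).Ac _ N) ∧ (Tors L (Polynomial.X : Polynomial R)).isoModSerre j := by
  obtain ⟨c, hc⟩ := exists_lamX Y X s r h q
  refine ⟨Abelian.image c, Abelian.image.ι c, ?_, fun i => ?_, ?_⟩
  · have h1 : FT (Polynomial R) L ((HH (Polynomial R) L q).obj Y) := ft_homology hL hY q
    exact (FT (Polynomial R) L).prop_of_epi (Abelian.factorThruImage c) h1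
  · have h1 : (d i).Ac (Polynomial R) ((HH (Polynomial R) L q).obj Y) :=
      ((d i).isZero_iff hY).1 (hY0 i) q
    have h2 : (d i).Ac (LaurentPolynomial R) ((HH (LaurentPolynomial R) L q).obj X) :=
      ((d i).isZero_iff hX).1 (hX0 i) q
    exact ac_image (d i) c h1 (ac_rho (lz R) (d i) _ h2)
  · exact hc.isoModSerre_image_ι

end Pool.Agent.Lib.MP_c052b4_al.MT
end

section

/-!
# TREES^n, section 4, D04b: images of complexes with a strict finite model
-/

set_option autoImplicit false
set_option linter.unusedVariables false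

namespace Pool.Agent.Lib.MP_c052b4_al.MT

open CategoryTheory Opposite Limits

universe u

variable {S : Type u} [Ring S] {G : Type u} [Group G] {L : Lbl G}

/-- The objects of the derived category which are images of objects of `Str`. -/
def SD (S : Type u) [Ring S] {G : Type u} [Group G] (L : Lbl G) : ObjectProperty (DA S L) :=
  fun Z => ∃ X, Str S L X ∧ Nonempty ((EV S L).obj X ≅ Z)

instance sd_iso : (SD S L).IsClosedUnderIsomorphisms where
  of_iso := by
    rintro Z Z' e ⟨X, hX, ⟨e'⟩⟩
    exact ⟨X, hX, ⟨e' ≪≫ e⟩⟩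

/-- `SD` is a triangulated subcategory.
Proof: zero: clear. Shifts: `EV` commutes with shifts, `str_shift`. Cones: let `Z₁ → Z₂ → Z₃ →` be
distinguished with `Z₁ ≅ EV X₁`, `Z₂ ≅ EV X₂`. The map `EV X₁ ⟶ EV X₂` is `EV.map f` (`EV_bij`, as
`X₁` is dominated by `str_le_dom`). Choose a distinguished triangle `X₁ → X₂ → X₃` on `f`; `EV` of it
is distinguished, so `EV X₃ ≅ Z₃`, and `X₃` is in `Str` (`str_cone`). For `IsTriangulatedClosed₂` (the
middle object): rotate. -/
instance sd_triangulated : (SD S L).IsTriangulated := by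
  have h0 : (SD S L).ContainsZero := by
    obtain ⟨Z, hZ, hP⟩ := (Str S L).exists_prop_of_containsZero
    exact ⟨⟨(EV S L).obj Z, (EV S L).map_isZero hZ, ⟨Z, hP, ⟨Iso.refl _⟩⟩⟩⟩
  have hs : (SD S L).IsStableUnderShift ℤ := by
    refine ⟨fun a => ⟨?_⟩⟩
    rintro Z ⟨X, hX, ⟨e⟩⟩
    exact ⟨X⟦a⟧, str_shift a hX,
      ⟨((EV S L).commShiftIso a).app X ≪≫ (shiftFunctor (DA S L) a).mapIso e⟩⟩
  have h3 : (SD S L).IsTriangulatedClosed₃ := by
    refine ObjectProperty.IsTriangulatedClosed₃.mk' ?_
    rintro T hT ⟨X₁, hX₁, ⟨e₁⟩⟩ ⟨X₂, hX₂, ⟨e₂⟩⟩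
    obtain ⟨f, hf⟩ := (EV_bij (str_le_dom _ hX₁) X₂).2 (e₁.hom ≫ T.mor₁ ≫ e₂.inv)
    obtain ⟨X₃, g, h, hT'⟩ := Pretriangulated.distinguished_cocone_triangle f
    have hT'' := (EV S L).map_distinguished _ hT'
    have comm : ((EV S L).mapTriangle.obj (Pretriangulated.Triangle.mk f g h)).mor₁ ≫ e₂.hom =
        e₁.hom ≫ T.mor₁ := by
      change (EV S L).map f ≫ e₂.hom = _
      rw [hf, Category.assoc, Category.assoc, Iso.inv_hom_id, Category.comp_id]
    exact ⟨X₃, str_cone _ hT' hX₁ hX₂,
      ⟨Pretriangulated.Triangle.π₃.mapIso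
        (Pretriangulated.isoTriangleOfIso₁₂ _ _ hT'' hT e₁ e₂ comm)⟩⟩
  have h2 : (SD S L).IsTriangulatedClosed₂ :=
    ObjectProperty.IsTriangulatedClosed₂.of_isTriangulatedClosed₃
  exact { }

end Pool.Agent.Lib.MP_c052b4_al.MT
end

section

/-!
# TREES^n, section 4, D04c: `F_y ⊗ P` for finitely generated projective `P`
-/

set_option autoImplicit false
set_option linter.unusedVariables false

namespace Pool.Agent.Lib.MP_c052b4_al.MT

open CategoryTheory Opposite Limits

universe u

variable {S : Type u} [Ring S] {G : Type u} [Group G] {L : Lbl G}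

/-- The complex with `S^κ` in degree `0`. -/
private noncomputable def oneC (S : Type u) [Ring S] {G : Type u} [Group G] {L : Lbl G}
    (κ : Type u) (y : L.W) : CochainComplex (VCat S L) ℤ where
  X n := ⟨{_i : κ // n = 0}, fun _ => y⟩
  d i j := 0
  shape i j h := rfl
  d_comp_d' i j k hij hjk := zero_comp

private theorem oneC_isZero (κ : Type u) (y : L.W) {n : ℤ} (h : n ≠ 0) :
    IsZero ((oneC S κ y).X n) :=
  (IsZero.iff_id_eq_zero _).2 (VCat.ext_e fun i => absurd i.2 h)

private theorem oneC_d (κ : Type u) (y : L.W) (i j : ℤ) : (oneC S κ y).d i j = 0 := rfl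

private noncomputable def oneTh (κ : Type u) (y : L.W) :
    oneC S κ y ⟶ (HomologicalComplex.single (VCat S L) (ComplexShape.up ℤ) 0).obj
      ((oneC S κ y).X 0) :=
  HomologicalComplex.mkHomToSingle (𝟙 _) (fun i _ => by rw [oneC_d, zero_comp])

private noncomputable def oneTi (κ : Type u) (y : L.W) :
    (HomologicalComplex.single (VCat S L) (ComplexShape.up ℤ) 0).obj
      ((oneC S κ y).X 0) ⟶ oneC S κ y :=
  HomologicalComplex.mkHomFromSingle (𝟙 _) (fun i _ => by rw [oneC_d, comp_zero])

private theorem oneTh_f (κ : Type u) (y : L.W) : (oneTh (S := S) κ y).f 0 =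
    (HomologicalComplex.singleObjXSelf (ComplexShape.up ℤ) 0 ((oneC S κ y).X 0)).inv := by
  rw [oneTh, HomologicalComplex.mkHomToSingle_f, Category.id_comp]

private theorem oneTi_f (κ : Type u) (y : L.W) : (oneTi (S := S) κ y).f 0 =
    (HomologicalComplex.singleObjXSelf (ComplexShape.up ℤ) 0 ((oneC S κ y).X 0)).hom := by
  rw [oneTi, HomologicalComplex.mkHomFromSingle_f, Category.comp_id]

private noncomputable def oneT (κ : Type u) (y : L.W) :
    oneC S κ y ≅ (HomologicalComplex.single (VCat S L) (ComplexShape.up ℤ) 0).obj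
      ((oneC S κ y).X 0) where
  hom := oneTh κ y
  inv := oneTi κ y
  hom_inv_id := by
    ext n : 1
    by_cases h : n = 0
    · subst h
      rw [HomologicalComplex.comp_f, oneTh_f, oneTi_f, Iso.inv_hom_id, HomologicalComplex.id_f]
    · exact (oneC_isZero κ y h).eq_of_src _ _
  inv_hom_id := by
    refine HomologicalComplex.from_single_hom_ext ?_
    rw [HomologicalComplex.comp_f, oneTh_f, oneTi_f, Iso.hom_inv_id, HomologicalComplex.id_f]

private theorem one_eps (κ : Type u) (y : L.W) (q : (oneC S κ y).X 0 ⟶ (oneC S κ y).X 0) :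
    ((oneT κ y).hom ≫ (HomologicalComplex.single (VCat S L) (ComplexShape.up ℤ) 0).map q ≫
      (oneT κ y).inv).f 0 = q := by
  rw [HomologicalComplex.comp_f, HomologicalComplex.comp_f, HomologicalComplex.single_map_f_self]
  change (oneTh κ y).f 0 ≫ (_ ≫ q ≫ _) ≫ (oneTi κ y).f 0 = q
  rw [oneTh_f, oneTi_f, Category.assoc, Category.assoc, Iso.inv_hom_id, Iso.inv_hom_id_assoc,
    Category.comp_id]

/-- A summand of `kS F`, given by a scalar idempotent, is in `Str`. -/
private theorem str_one (κ : Type u) [Finite κ] (y : L.W)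
    (q : (oneC S κ y).X 0 ⟶ (oneC S κ y).X 0) (hq : q ≫ q = q) (hs : IsScalar q) (K : KV S L)
    (s : K ⟶ (HomotopyCategory.quotient (VCat S L) (ComplexShape.up ℤ)).obj
      ((HomologicalComplex.single (VCat S L) (ComplexShape.up ℤ) 0).obj ((oneC S κ y).X 0)))
    (r : (HomotopyCategory.quotient (VCat S L) (ComplexShape.up ℤ)).obj
      ((HomologicalComplex.single (VCat S L) (ComplexShape.up ℤ) 0).obj ((oneC S κ y).X 0)) ⟶ K)
    (h1 : s ≫ r = 𝟙 K)
    (h2 : r ≫ s = (HomotopyCategory.quotient (VCat S L) (ComplexShape.up ℤ)).map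
      ((HomologicalComplex.single (VCat S L) (ComplexShape.up ℤ) 0).map q)) : Str S L K := by
  refine ⟨oneC S κ y, (oneT κ y).hom ≫
    (HomologicalComplex.single (VCat S L) (ComplexShape.up ℤ) 0).map q ≫ (oneT κ y).inv,
    ⟨fun n => inferInstanceAs (Finite {_i : κ // n = 0}), 0, fun n hn => ⟨fun i => ?_⟩⟩, ?_, ?_,
    s ≫ (HomotopyCategory.quotient (VCat S L) (ComplexShape.up ℤ)).map (oneT κ y).inv,
    (HomotopyCategory.quotient (VCat S L) (ComplexShape.up ℤ)).map (oneT κ y).hom ≫ r, ?_, ?_⟩
  · have := i.2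
    rw [this, abs_zero] at hn
    exact lt_irrefl _ hn
  · rw [Category.assoc, Category.assoc, Iso.inv_hom_id_assoc, ← Functor.map_comp_assoc, hq]
  · intro n
    by_cases h : n = 0
    · subst h
      rw [one_eps]
      exact hs
    · intro i
      exact absurd i.2 h
  · rw [Category.assoc, ← Functor.map_comp_assoc, Iso.inv_hom_id, CategoryTheory.Functor.map_id,
      Category.id_comp, h1]
  · rw [Category.assoc, ← Category.assoc r, h2, Functor.map_comp, Functor.map_comp]

private theorem theta (F : VCat S L) :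
    ∃ a : (EV S L).obj (kS F) ≅ (DerivedCategory.singleFunctor (AA S L) 0).obj (VCat.ev.obj F),
      ∀ q : F ⟶ F, (EV S L).map ((HomotopyCategory.singleFunctor (VCat S L) 0).map q) ≫ a.hom =
        a.hom ≫ (DerivedCategory.singleFunctor (AA S L) 0).map (VCat.ev.map q) := by
  refine ⟨(HomotopyCategory.quotient (AA S L) (ComplexShape.up ℤ) ⋙ DerivedCategory.Qh).mapIso
    ((HomologicalComplex.singleMapHomologicalComplex (VCat.ev : VCat S L ⥤ AA S L)
      (ComplexShape.up ℤ) 0).app F), fun q => ?_⟩
  have h := (HomologicalComplex.singleMapHomologicalComplex (VCat.ev : VCat S L ⥤ AA S L)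
      (ComplexShape.up ℤ) 0).hom.naturality q
  have h' := (HomotopyCategory.quotient (AA S L)
    (ComplexShape.up ℤ) ⋙ DerivedCategory.Qh).congr_map h
  rw [Functor.map_comp, Functor.map_comp] at h'
  exact h'

/-- `F_y ⊗ P` (in degree `0`) is in `SD` for a finitely generated projective module `P`.
Proof: choose `κ` finite, `i : P ⟶ S^κ` and `π : S^κ ⟶ P` with `i ≫ π = 𝟙`, `p = π ≫ i` idempotent. By
`fy_free` `p` corresponds to a scalar idempotent `q` of `F = constV S κ y` (`ev` is faithful).
By `idem_split` there are `K`, `s : K ⟶ kS F`, `r : kS F ⟶ K` with `s ≫ r = 𝟙`, `r ≫ s = kS q`. So `K`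
is in `Str` (with `E` = `F` in degree `0`). `EV K` and the complex `F_y ⊗ P` in degree `0` both
split the idempotent of `EV (kS F) ≅ (singleFunctor _ 0).obj (ev F)` given by `q`, so they are
isomorphic. -/
theorem sd_fy_proj (y : Q L) (P : ModuleCat.{u} S) [Module.Finite S P] [Module.Projective S P] :
    SD S L ((DerivedCategory.singleFunctor (AA S L) 0).obj ((fy y).obj P)) := by
  obtain ⟨n, f, hf⟩ := Module.Finite.exists_fin' S P
  let κ₀ : Type u := ULift.{u} (Fin n)
  let κ : Type u := {_i : κ₀ // (0 : ℤ) = 0}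
  have hsurj : Function.Surjective (Finsupp.linearCombination S
      (fun k : κ => f (Pi.single k.1.down 1))) := by
    intro x
    obtain ⟨v, rfl⟩ := hf x
    refine ⟨Finsupp.equivFunOnFinite.symm (fun k : κ => v k.1.down), ?_⟩
    let e : κ ≃ Fin n := (Equiv.subtypeUnivEquiv (fun _ => rfl)).trans Equiv.ulift
    rw [Finsupp.linearCombination_apply, Finsupp.sum_fintype _
      (fun (k : κ) (c : S) => c • f (Pi.single k.1.down 1)) (fun k => zero_smul S _)]
    have h1 : ∀ k : κ, (Finsupp.equivFunOnFinite.symm (fun k : κ => v k.1.down)) k •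
        f (Pi.single k.1.down 1) = (fun j : Fin n => v j • f (Pi.single j 1)) (e k) := fun k => rfl
    rw [Finset.sum_congr rfl (fun k _ => h1 k), e.sum_comp (fun j => v j • f (Pi.single j 1))]
    simp_rw [← map_smul]
    rw [← map_sum]
    congr 1
    funext j
    simp [Finset.sum_apply, Pi.single_apply]
  obtain ⟨g, hg⟩ := Module.projective_lifting_property _ (LinearMap.id (R := S) (M := P)) hsurj
  let i : P ⟶ ModuleCat.of S (κ →₀ S) := ModuleCat.ofHom g
  let π : ModuleCat.of S (κ →₀ S) ⟶ P := ModuleCat.ofHom (Finsupp.linearCombination S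
      (fun k : κ => f (Pi.single k.1.down 1)))
  have hiπ : i ≫ π = 𝟙 P := ModuleCat.hom_ext hg
  obtain ⟨e, he⟩ := fy_free (S := S) y κ
  obtain ⟨q, hqs, hq⟩ := he (π ≫ i)
  have hqq : q ≫ q = q := by
    apply (VCat.ev : VCat S L ⥤ AA S L).map_injective
    rw [Functor.map_comp, hq, Category.assoc, Category.assoc, Iso.hom_inv_id_assoc,
      ← Functor.map_comp_assoc, Category.assoc, ← Category.assoc i, hiπ, Category.id_comp]
  obtain ⟨K, s, r, h1, h2⟩ := idem_split (constV S κ y.w) q hqq
  have hK : Str S L K := str_one κ₀ y.w q hqq hqs K s r h1 h2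
  obtain ⟨a, ha⟩ := theta (constV S κ y.w)
  refine ⟨K, hK, ⟨?_⟩⟩
  let D := DerivedCategory.singleFunctor (AA S L) 0
  have hrs : D.map e.hom ≫ a.inv ≫ (EV S L).map (r ≫ s) ≫ a.hom ≫ D.map e.inv =
      D.map ((fy y).map π) ≫ D.map ((fy y).map i) := by
    rw [h2, ← Category.assoc ((EV S L).map _), ha q, Category.assoc, Iso.inv_hom_id_assoc,
      ← Functor.map_comp, ← Functor.map_comp, ← Functor.map_comp, ← Functor.map_comp, hq]
    congr 1
    rw [Category.assoc, Category.assoc, Iso.hom_inv_id, Category.comp_id, Iso.hom_inv_id_assoc]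
  exact
    { hom := (EV S L).map s ≫ a.hom ≫ D.map e.inv ≫ D.map ((fy y).map π)
      inv := D.map ((fy y).map i) ≫ D.map e.hom ≫ a.inv ≫ (EV S L).map r
      hom_inv_id := by
        have h3 : D.map ((fy y).map π) ≫ D.map ((fy y).map i) ≫ D.map e.hom ≫ a.inv ≫
            (EV S L).map r = D.map e.hom ≫ a.inv ≫ (EV S L).map (r ≫ s) ≫ a.hom ≫ D.map e.inv ≫
              D.map e.hom ≫ a.inv ≫ (EV S L).map r := by
          rw [← Category.assoc (D.map ((fy y).map π)), ← hrs]
          simp only [Category.assoc]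
        rw [Category.assoc, Category.assoc, Category.assoc, h3]
        simp only [← Functor.map_comp_assoc D, Iso.inv_hom_id, Iso.inv_hom_id_assoc,
          CategoryTheory.Functor.map_id, Category.id_comp, Iso.hom_inv_id_assoc,
          ← Functor.map_comp]
        rw [Category.assoc, h1, Category.comp_id, h1, CategoryTheory.Functor.map_id]
      inv_hom_id := by
        simp only [Category.assoc]
        rw [← Functor.map_comp_assoc (EV S L)]
        have h4 : D.map e.hom ≫ a.inv ≫ (EV S L).map (r ≫ s) ≫ a.hom ≫ D.map e.inv ≫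
            D.map ((fy y).map π) = D.map ((fy y).map π) ≫ D.map ((fy y).map i) ≫
              D.map ((fy y).map π) := by
          have := congrArg (fun z => z ≫ D.map ((fy y).map π)) hrs
          simpa only [Category.assoc] using this
        rw [h4, ← Functor.map_comp D, ← Functor.map_comp D, ← Functor.map_comp D,
          ← Functor.map_comp (fy y), ← Functor.map_comp (fy y), ← Functor.map_comp (fy y), hiπ,
          Category.comp_id, hiπ, CategoryTheory.Functor.map_id, CategoryTheory.Functor.map_id] }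

end Pool.Agent.Lib.MP_c052b4_al.MT
end
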