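import Pool.Agent.Lib.MP_c052b4_al.Mg.G030

section

/-!
# TREES^n, section 4, D05a: short exact sequences
-/

set_option autoImplicit false
set_option linter.unusedVariables false

namespace Pool.Agent.Lib.MP_c052b4_al.MT

open CategoryTheory Opposite Limits

universe u


/-- `PRes S n M`: the left `S`-module `M` has a resolution of length `n` by finitely generated
projective modules (same definition as `FinProjRes` of the library). -/
def PRes (S : Type u) [Ring S] : ℕ → ∀ (M : Type u) [AddCommGroup M] [Module S M], Prop
  | 0 => fun M _ _ => Module.Finite S M ∧ Module.Projective S M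
  | (n + 1) => fun M _ _ => ∃ (P : Type u) (_ : AddCommGroup P) (_ : Module S P)
      (f : P →ₗ[S] M), Module.Finite S P ∧ Module.Projective S P ∧ Function.Surjective f ∧
        PRes S n (LinearMap.ker f)

/-- Left regular rings. -/
def Reg (S : Type u) [Ring S] : Prop :=
  IsNoetherianRing S ∧ ∀ (M : Type u) [AddCommGroup M] [Module S M], Module.Finite S M →
    ∃ n : ℕ, PRes S n M

variable {S : Type u} [Ring S] {G : Type u} [Group G] {L : Lbl G}

/-- The functors which are (in degree `0`) in `SD`. -/
def SA (S : Type u) [Ring S] {G : Type u} [Group G] (L : Lbl G) : ObjectProperty (AA S L) :=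
  fun N => SD S L ((DerivedCategory.singleFunctor (AA S L) 0).obj N)

instance sa_iso : (SA S L).IsClosedUnderIsomorphisms where
  of_iso e h := (SD S L).prop_of_iso ((DerivedCategory.singleFunctor (AA S L) 0).mapIso e) h

/-- Two out of three for short exact sequences, first version: a short exact sequence gives a
distinguished triangle of the complexes in degree `0` (`ShortComplex.ShortExact.singleTriangle`), and
`SD` is triangulated. -/
theorem sa_two_of_three {T : ShortComplex (AA S L)} (hT : T.ShortExact) (h1 : SA S L T.X₁)
    (h2 : SA S L T.X₂) : SA S L T.X₃ :=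
  (SD S L).ext_of_isTriangulatedClosed₃ hT.singleTriangle hT.singleTriangle_distinguished h1 h2

theorem sa_ext {T : ShortComplex (AA S L)} (hT : T.ShortExact) (h1 : SA S L T.X₁)
    (h3 : SA S L T.X₃) : SA S L T.X₂ :=
  (SD S L).ext_of_isTriangulatedClosed₂ hT.singleTriangle hT.singleTriangle_distinguished h1 h3

end Pool.Agent.Lib.MP_c052b4_al.MT
end

section

/-!
# TREES^n, section 4, D05b: `F_y ⊗ V` for modules with finite resolutions
-/

set_option autoImplicit false
set_option linter.unusedVariables false

namespace Pool.Agent.Lib.MP_c052b4_al.MT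

open CategoryTheory Opposite Limits

universe u

variable {S : Type u} [Ring S] {G : Type u} [Group G] {L : Lbl G}

/-- `F_y ⊗ V` for `V` with a finite resolution.
Proof: induction on `n` (for all `V`): `n = 0` is `sd_fy_proj`; for `n + 1` apply the exact functor
`fy y` to `0 → ker f → P → V → 0` and use `sa_two_of_three`. -/
theorem sa_fy_pres (y : Q L) (n : ℕ) (V : ModuleCat.{u} S) (h : PRes S n V) :
    SA S L ((fy y).obj V) := by
  induction n generalizing V with
  | zero =>
    obtain ⟨h1, h2⟩ : Module.Finite S V ∧ Module.Projective S V := h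
    exact sd_fy_proj y V
  | succ n ih =>
    obtain ⟨P, iP, mP, f, h1, h2, hf, hk⟩ := h
    let T : ShortComplex (ModuleCat.{u} S) :=
      { X₁ := ModuleCat.of S (LinearMap.ker f)
        X₂ := ModuleCat.of S P
        X₃ := V
        f := ModuleCat.ofHom (LinearMap.ker f).subtype
        g := ModuleCat.ofHom f
        zero := by
          refine ModuleCat.hom_ext (LinearMap.ext fun v => ?_)
          exact v.2 }
    have hT : T.ShortExact :=
      { exact := by
          rw [ShortComplex.ShortExact.moduleCat_exact_iff_function_exact]
          intro v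
          exact ⟨fun hv => ⟨⟨v, hv⟩, rfl⟩, fun ⟨w, hw⟩ => hw ▸ w.2⟩
        mono_f := (ModuleCat.mono_iff_injective _).2 (Submodule.subtype_injective _)
        epi_g := (ModuleCat.epi_iff_surjective _).2 hf }
    have hF : (T.map (fy y : ModuleCat.{u} S ⥤ AA S L)).ShortExact := hT.map_of_exact _
    refine sa_two_of_three hF ?_ ?_
    · exact ih (ModuleCat.of S (LinearMap.ker f)) hk
    · have : Module.Finite S (ModuleCat.of S P) := h1
      have : Module.Projective S (ModuleCat.of S P) := h2
      exact sd_fy_proj y (ModuleCat.of S P)

end Pool.Agent.Lib.MP_c052b4_al.MT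
end
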