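import Pool.Agent.Lib.MP_c052b4_al.Mg.G032
import Pool.Agent.Lib.MP_c052b4_al.Mg.G026

section

/-!
# TREES^n, section 4, F04a: adjunction
-/

set_option autoImplicit false
set_option linter.unusedVariables false

namespace Pool.Agent.Lib.MP_c052b4_al.MT

open CategoryTheory Opposite Limits

universe u

variable {R : Type u} [Ring R] {G : Type u} [Group G] {L : Lbl G}

private theorem f04a_val {S S' : Type u} [Ring S] [Ring S'] (φ : S →+* S') (X : VCat S L)
    (N : AA S' L) (f : VCat.ev.obj ((VCat.bc φ).obj X) ⟶ N) (i : X.I) :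
    ((((lam L φ).app X ≫ (rho L φ).map f).app (op ⟨X.l i⟩)).hom
        (⟨X.e i, X.e_mem i⟩ : X.fil (X.l i)) : N.obj (op ⟨X.l i⟩)) =
      (f.app (op ⟨X.l i⟩)).hom
        (⟨(VCat.bcObj S' X).e i, (VCat.bcObj S' X).e_mem i⟩ :
          (VCat.bcObj S' X).fil ((VCat.bcObj S' X).l i)) := by
  have h : (⟨VCat.bcVec φ X (X.e i), VCat.bcVec_mem φ X (X.e_mem i)⟩ :
      (VCat.bcObj S' X).fil ((VCat.bcObj S' X).l i)) =
      ⟨(VCat.bcObj S' X).e i, (VCat.bcObj S' X).e_mem i⟩ := Subtype.ext (VCat.bcVec_e φ X i)
  exact congrArg (fun v => (f.app (op ⟨X.l i⟩)).hom v) h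

/-- Adjunction for one object: a morphism `ev X ⟶ rho N` extends uniquely to `ev (bc X) ⟶ N`.
Proof: `yon_exists`/`yon_ext` for `bcObj X`: the basis is the same, `lam` maps the basis element `e i`
to `e i` (`bcVec_e`). -/
theorem adj_obj {S S' : Type u} [Ring S] [Ring S'] (φ : S →+* S') (X : VCat S L) (N : AA S' L)
    (g : VCat.ev.obj X ⟶ (rho L φ).obj N) :
    ∃! f : VCat.ev.obj ((VCat.bc φ).obj X) ⟶ N, (lam L φ).app X ≫ (rho L φ).map f = g := by
  obtain ⟨f, hf⟩ := VCat.yon_exists (VCat.bcObj S' X) N fun i : X.I =>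
    ((g.app (op ⟨X.l i⟩)).hom (⟨X.e i, X.e_mem i⟩ : X.fil (X.l i)) : N.obj (op ⟨X.l i⟩))
  refine ⟨f, ?_, ?_⟩
  · refine VCat.yon_ext fun i => ?_
    exact (f04a_val φ X N f i).trans (hf i)
  · intro f' hf'
    refine VCat.yon_ext (X := VCat.bcObj S' X) fun i => ?_
    refine Eq.trans ?_ (hf i).symm
    refine (f04a_val φ X N f' i).symm.trans ?_
    rw [hf']

/-- Adjunction for complexes: degreewise by `adj_obj`; the resulting maps form a morphism of complexes
by the uniqueness part. -/
theorem adj_cx (K : CochainComplex (VCat (Polynomial R) L) ℤ)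
    (Z : CochainComplex (AA (LaurentPolynomial R) L) ℤ)
    (g : (evC (Polynomial R) L).obj K ⟶
      ((rho L (lz R)).mapHomologicalComplex (ComplexShape.up ℤ)).obj Z) :
    ∃ f : (evC (LaurentPolynomial R) L).obj
          (((VCat.bc (lz R)).mapHomologicalComplex (ComplexShape.up ℤ)).obj K) ⟶ Z,
      lamC K ≫ ((rho L (lz R)).mapHomologicalComplex (ComplexShape.up ℤ)).map f = g := by
  choose F hF hF' using fun n : ℤ => adj_obj (lz R) (K.X n) (Z.X n) (g.f n)
  refine ⟨{ f := F, comm' := ?_ }, ?_⟩
  · intro i j hij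
    have e1 : (lam L (lz R)).app (K.X i) ≫ (rho L (lz R)).map (F i ≫ Z.d i j) =
        g.f i ≫ (rho L (lz R)).map (Z.d i j) := by
      rw [Functor.map_comp, ← Category.assoc]
      exact congrArg (fun t => t ≫ (rho L (lz R)).map (Z.d i j)) (hF i)
    have e2 : (lam L (lz R)).app (K.X i) ≫ (rho L (lz R)).map
        (VCat.ev.map ((VCat.bc (lz R)).map (K.d i j)) ≫ F j) =
        g.f i ≫ (rho L (lz R)).map (Z.d i j) := by
      have h1 : g.f i ≫ (rho L (lz R)).map (Z.d i j) = VCat.ev.map (K.d i j) ≫ g.f j :=
        g.comm i j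
      rw [h1, Functor.map_comp, ← Category.assoc]
      have h2 : (lam L (lz R)).app (K.X i) ≫
          (rho L (lz R)).map (VCat.ev.map ((VCat.bc (lz R)).map (K.d i j))) =
          VCat.ev.map (K.d i j) ≫ (lam L (lz R)).app (K.X j) :=
        ((lam L (lz R)).naturality (K.d i j)).symm
      rw [h2, Category.assoc]
      exact congrArg (fun t => VCat.ev.map (K.d i j) ≫ t) (hF j)
    obtain ⟨t, -, ht⟩ := adj_obj (lz R) (K.X i) (Z.X j) (g.f i ≫ (rho L (lz R)).map (Z.d i j))
    exact (ht _ e1).trans (ht _ e2).symm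
  · refine HomologicalComplex.hom_ext _ _ fun n => ?_
    exact hF n

end Pool.Agent.Lib.MP_c052b4_al.MT
end

section

/-!
# TREES^n, section 4, F04b: representing morphisms of the derived category
-/

set_option autoImplicit false
set_option linter.unusedVariables false

namespace Pool.Agent.Lib.MP_c052b4_al.MT

open CategoryTheory Opposite Limits

universe u

variable {R : Type u} [Ring R] {G : Type u} [Group G] {L : Lbl G}

/-- A morphism in the derived category from a dominated complex to a complex is represented by a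
morphism of complexes: `Y = quotient K`, `kEv Y` is left orthogonal to the acyclic complexes
(`kEv_leftOrthogonal`), so `Qh` is bijective on `Hom(kEv Y, -)`
(`ObjectProperty.leftOrthogonal.map_bijective_of_isTriangulated`), and `quotient` is full. -/
theorem exists_cx_map {S : Type u} [Ring S] (K : CochainComplex (VCat S L) ℤ)
    (hK : Dom S L ((HomotopyCategory.quotient _ _).obj K)) (Z : CochainComplex (AA S L) ℤ)
    (f : (EV S L).obj ((HomotopyCategory.quotient _ _).obj K) ⟶ DerivedCategory.Q.obj Z) :
    ∃ g : (evC S L).obj K ⟶ Z, ∀ q : ℤ,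
      (HHiso K q).inv ≫ (DerivedCategory.homologyFunctor _ q).map f ≫
        ((DerivedCategory.homologyFunctorFactors (AA S L) q).app Z).hom =
      HomologicalComplex.homologyMap g q := by
  have hbij := (kEv_leftOrthogonal hK).map_bijective_of_isTriangulated
    (DerivedCategory.Qh : HomotopyCategory (AA S L) (ComplexShape.up ℤ) ⥤ DA S L)
    ((HomotopyCategory.quotient (AA S L) (ComplexShape.up ℤ)).obj Z)
  obtain ⟨g₀, hg₀⟩ := hbij.2 f
  obtain ⟨g, hg⟩ := (HomotopyCategory.quotient (AA S L) (ComplexShape.up ℤ)).map_surjective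
    (X := (evC S L).obj K) (Y := Z) g₀
  refine ⟨g, fun q => ?_⟩
  have h1 : f = (DerivedCategory.Q : CochainComplex (AA S L) ℤ ⥤ DA S L).map g := by
    rw [← hg₀, ← hg]
    rfl
  have h2 := (DerivedCategory.homologyFunctorFactors (AA S L) q).hom.naturality g
  rw [h1]
  exact (Iso.inv_comp_eq (HHiso K q)).2 h2

end Pool.Agent.Lib.MP_c052b4_al.MT
end

section

/-!
# TREES^n, section 4, F04c: localization of a resolution
-/

set_option autoImplicit false
set_option linter.unusedVariables false

namespace Pool.Agent.Lib.MP_c052b4_al.MT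

open CategoryTheory Opposite Limits

universe u

variable {R : Type u} [Ring R] {G : Type u} [Group G] {L : Lbl G}

private theorem f04c_single {C : Type*} [Category C] [Abelian C] (P : ObjectProperty C)
    [P.IsSerreClass] {A B : C} (j : A ⟶ B) (hj : P.isoModSerre j) (n : ℤ) :
    P.isoModSerre (((HomologicalComplex.single C (ComplexShape.up ℤ) 0).map j).f n) := by
  by_cases hn : n = 0
  · subst hn
    rw [HomologicalComplex.single_map_f_self]
    exact P.isoModSerre.comp_mem _ _ (P.isoModSerre_of_isIso _)
      (P.isoModSerre.comp_mem _ _ hj (P.isoModSerre_of_isIso _))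
  · have h1 := HomologicalComplex.isZero_single_obj_X (ComplexShape.up ℤ) 0 A n hn
    have h2 := HomologicalComplex.isZero_single_obj_X (ComplexShape.up ℤ) 0 B n hn
    have : IsIso (((HomologicalComplex.single C (ComplexShape.up ℤ) 0).map j).f n) :=
      ⟨0, h1.eq_of_src _ _, h2.eq_of_src _ _⟩
    exact P.isoModSerre_of_isIso _

private theorem f04c_Q {C : Type*} [Category C] [Abelian C] [HasDerivedCategory C]
    (P : ObjectProperty C) [P.IsSerreClass] {A B : CochainComplex C ℤ} (t : A ⟶ B) (q : ℤ)
    (ht : P.isoModSerre (HomologicalComplex.homologyMap t q)) :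
    P.isoModSerre ((DerivedCategory.homologyFunctor C q).map (DerivedCategory.Q.map t)) := by
  have h := (DerivedCategory.homologyFunctorFactors C q).hom.naturality t
  have e : Arrow.mk (HomologicalComplex.homologyMap t q) ≅
      Arrow.mk ((DerivedCategory.homologyFunctor C q).map (DerivedCategory.Q.map t)) :=
    Arrow.isoMk ((DerivedCategory.homologyFunctorFactors C q).app A).symm
      ((DerivedCategory.homologyFunctorFactors C q).app B).symm
      ((DerivedCategory.homologyFunctorFactors C q).inv.naturality t).symm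
  exact (P.isoModSerre.arrow_mk_iso_iff e).1 ht

private theorem f04c_rho {A B : CochainComplex (AA (LaurentPolynomial R) L) ℤ} (f : A ⟶ B) (q : ℤ)
    (h : (Tors L (Polynomial.X : Polynomial R)).isoModSerre (HomologicalComplex.homologyMap
      (((rho L (lz R)).mapHomologicalComplex (ComplexShape.up ℤ)).map f) q)) :
    (Tors L (Polynomial.X : Polynomial R)).isoModSerre
      ((rho L (lz R)).map (HomologicalComplex.homologyMap f q)) := by
  have h1 := ShortComplex.mapHomologyIso_hom_naturality
    ((HomologicalComplex.shortComplexFunctor _ (ComplexShape.up ℤ) q).map f) (rho L (lz R))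
  have e : Arrow.mk (HomologicalComplex.homologyMap
        (((rho L (lz R)).mapHomologicalComplex (ComplexShape.up ℤ)).map f) q) ≅
      Arrow.mk ((rho L (lz R)).map (HomologicalComplex.homologyMap f q)) :=
    Arrow.isoMk ((A.sc q).mapHomologyIso (rho L (lz R)))
      ((B.sc q).mapHomologyIso (rho L (lz R))) h1.symm
  exact ((Tors L (Polynomial.X : Polynomial R)).isoModSerre.arrow_mk_iso_iff e).1 h

/-- **Localization of a resolution.** Let `Y` be dominated with `EV Y` isomorphic to `N` in degree `0`,
and let `j : N ⟶ rho M` be an isomorphism modulo torsion. Then `EV (kR Y)` is isomorphic to `M` in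
degree `0`.
Proof: let `Y = quotient K`. The morphism `EV Y ≅ N[0] → (rho M)[0] = Q (rho (single M))` is
represented by a morphism of complexes `g : ev K ⟶ rho (single M)` (`exists_cx_map`; use
`DerivedCategory.singleFunctorIsoCompQ` and that `rho` commutes with `single`), and `g` comes from
`f : ev (bc K) ⟶ single M` by `adj_cx`. `f` is a quasi-isomorphism: in degrees `q ≠ 0` both sides have
zero homology, for `ev (bc K)`: `H_q(ev K) = 0` and `lamC_homology` show that `rho H_q(ev (bc K))` is
torsion, `isZero_of_tors`. In degree `0`: `H_0(lamC K) ≫ rho H_0(f) = H_0(g)`, where `H_0(lamC K)` and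
`H_0(g)` (isomorphic to `j`) are isomorphisms modulo torsion, hence so is `rho H_0(f)` (two out of
three), and `H_0(f)` is an isomorphism by `isIso_of_isoMod`. -/
theorem loc_single (Y : KV (Polynomial R) L) (hY : Dom _ L Y) (N : AA (Polynomial R) L)
    (e : (EV (Polynomial R) L).obj Y ≅ (DerivedCategory.singleFunctor _ 0).obj N)
    (M : AA (LaurentPolynomial R) L) (j : N ⟶ (rho L (lz R)).obj M)
    (hj : (Tors L (Polynomial.X : Polynomial R)).isoModSerre j) :
    Nonempty ((EV (LaurentPolynomial R) L).obj ((kR L (lz R)).obj Y) ≅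
      (DerivedCategory.singleFunctor _ 0).obj M) := by
  obtain ⟨K, rfl⟩ : ∃ K, (HomotopyCategory.quotient _ _).obj K = Y := ⟨Y.as, rfl⟩
  let Z : CochainComplex (AA (LaurentPolynomial R) L) ℤ :=
    (HomologicalComplex.single _ (ComplexShape.up ℤ) 0).obj M
  let Zr := ((rho L (lz R)).mapHomologicalComplex (ComplexShape.up ℤ)).obj Z
  let iso := (HomologicalComplex.singleMapHomologicalComplex (rho L (lz R))
    (ComplexShape.up ℤ) 0).app M
  let t : (HomologicalComplex.single (AA (Polynomial R) L) (ComplexShape.up ℤ) 0).obj N ⟶ Zr :=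
    (HomologicalComplex.single (AA (Polynomial R) L) (ComplexShape.up ℤ) 0).map j ≫ iso.inv
  let e' : (EV (Polynomial R) L).obj ((HomotopyCategory.quotient _ _).obj K) ⟶
    DerivedCategory.Q.obj
      ((HomologicalComplex.single (AA (Polynomial R) L) (ComplexShape.up ℤ) 0).obj N) := e.hom
  have he' : IsIso e' := inferInstanceAs (IsIso e.hom)
  obtain ⟨g, hg⟩ := exists_cx_map K hY Zr (e' ≫ DerivedCategory.Q.map t)
  obtain ⟨f, hf⟩ := adj_cx K Z g
  have ht : ∀ n, (Tors L (Polynomial.X : Polynomial R)).isoModSerre (t.f n) := by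
    intro n
    change (Tors L (Polynomial.X : Polynomial R)).isoModSerre
      (((HomologicalComplex.single (AA (Polynomial R) L) (ComplexShape.up ℤ) 0).map j).f n ≫
        iso.inv.f n)
    exact MorphismProperty.comp_mem _ _ _ (f04c_single _ j hj n)
      (ObjectProperty.isoModSerre_of_isIso _ _)
  have hgq : ∀ q, (Tors L (Polynomial.X : Polynomial R)).isoModSerre
      (HomologicalComplex.homologyMap g q) := by
    intro q
    rw [← hg q, Functor.map_comp]
    refine MorphismProperty.comp_mem _ _ _ (ObjectProperty.isoModSerre_of_isIso _ _)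
      (MorphismProperty.comp_mem _ _ _ (MorphismProperty.comp_mem _ _ _
        (ObjectProperty.isoModSerre_of_isIso _ _) ?_) (ObjectProperty.isoModSerre_of_isIso _ _))
    exact f04c_Q _ t q (homology_isoModSerre _ t ht q)
  have hfq : QuasiIso f := ⟨fun q => by
    rw [quasiIsoAt_iff_isIso_homologyMap]
    apply isIso_of_isoMod
    apply f04c_rho
    have h1 := hgq q
    rw [← hf, HomologicalComplex.homologyMap_comp] at h1
    exact MorphismProperty.of_precomp _ _ _ (lamC_homology K q) h1⟩
  have hQ : IsIso (DerivedCategory.Q.map f) :=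
    (DerivedCategory.isIso_Q_map_iff_quasiIso _ f).2 hfq
  let i2 := asIso (DerivedCategory.Q.map f)
  exact ⟨(DerivedCategory.quotientCompQhIso (AA (LaurentPolynomial R) L)).app
    ((evC (LaurentPolynomial R) L).obj
      (((VCat.bc (lz R)).mapHomologicalComplex (ComplexShape.up ℤ)).obj K)) ≪≫ i2⟩

end Pool.Agent.Lib.MP_c052b4_al.MT
end
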