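import Pool.Agent.Lib.MP_c052b4_al.Mg.G020
import Pool.Agent.Lib.MP_c052b4_al.Mg.G017
import Pool.Agent.Lib.MP_c052b4_al.Mg.G035
import Pool.Agent.Lib.MP_c052b4_al.Mg.G036
import Pool.Agent.Lib.MP_c052b4_al.Mg.G024
import Pool.Agent.Lib.MP_c052b4_al.Mg.G034
import Pool.Agent.Lib.MP_c052b4_al.Mg.G037
import Pool.Agent.Lib.MP_c052b4_al.Mg.G030

section

/-!
# TREES, section 6: from retracts in homotopy categories to the image of the assembly map
-/

set_option autoImplicit false
set_option linter.unusedSectionVars false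

namespace Pool.Agent.Lib.MP_c052b4_al.MT

open CategoryTheory CategoryTheory.Limits Matrix

universe u

section Zero

variable {R : Type u} [Ring R] {G : Type u} [Group G] {L L' : Lbl G} {J : Type} [Fintype J]
  [DecidableEq J] {deg : J → ℤ} {M : Matrix J J (MonoidAlgebra R G)} {hM : HasDeg deg 1 M}
    {hMM : M * M = 0} {w : J → L.W} {hw : Sp w w L.le M}

/-- A complex with a contraction becomes zero after the labels are forgotten. -/
theorem isZero_cxOf (θ : LblHom L L') (htriv : ∀ x y : L'.W, L'.le x y)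
    (k : Matrix J J (MonoidAlgebra R G)) (hk : HasDeg deg (-1) k) (hcon : M * k + k * M = 1) :
    IsZero ((kL R θ).obj ((QL R L).obj (cxOf deg M hM hMM w hw))) := by
  rw [IsZero.iff_id_eq_zero]
  let K' : CochainComplex (VCat R L') ℤ :=
    ((VCat.mapL θ).mapHomologicalComplex (ComplexShape.up ℤ)).obj (cxOf deg M hM hMM w hw)
  have key : (QL R L').map (𝟙 K') = 0 := by
    have e1 : ∀ m : ℤ, VCat.lin (K'.d m (m + 1)) = pt deg M m (m + 1) := fun m => lin_cxOf_d m
    let kk' : ∀ n, K'.X (n + 1) ⟶ K'.X n := fun n => hm (X := K'.X (n + 1)) (Y := K'.X n)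
      (pt deg k (n + 1) n) fun i j g _ => htriv _ _
    refine map_zero_of_homotopy (𝟙 K') kk' fun n => ?_
    refine VCat.hom_ext ?_
    have e2 : (LinearMap.id : (iJ.{u} deg (n + 1) →₀ MonoidAlgebra R G) →ₗ[MonoidAlgebra R G] _) =
        (pt deg M n (n + 1)).comp (pt deg k (n + 1) n) +
        (pt deg k (n + 1 + 1) (n + 1)).comp (pt deg M (n + 1) (n + 1 + 1)) := by
      rw [pt_comp deg k M (n + 1) n (n + 1) fun i j h hi => by
          have := hk i j h
          omega,
        pt_comp deg M k (n + 1) (n + 1 + 1) (n + 1) fun i j h hi => by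
          have := hM i j h
          omega, ← pt_add, add_comm (k * M), hcon, pt_one]
    have e3 : VCat.lin (kk' n ≫ K'.d n (n + 1)) = (pt deg M n (n + 1)).comp
        (pt deg k (n + 1) n) :=
      congrArg (fun x => LinearMap.comp x (pt deg k (n + 1) n)) (e1 n)
    have e4 : VCat.lin (K'.d (n + 1) (n + 1 + 1) ≫ kk' (n + 1)) =
        (pt deg k (n + 1 + 1) (n + 1)).comp (pt deg M (n + 1) (n + 1 + 1)) :=
      congrArg (fun x => LinearMap.comp (pt deg k (n + 1 + 1) (n + 1)) x) (e1 (n + 1))
    exact e2.trans (congrArg₂ (fun a b => a + b) e3.symm e4.symm)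
  exact ((QL R L').map_id K').symm.trans key

end Zero

section Main

variable {R : Type u} [Ring R] {G : Type u} [Group G] {D : Type} {Ys : D → Dir G}

/-- Choice of labels. -/
theorem exists_labels (Y : Dir G) {k : ℕ} (U : Matrix (Fin k) (Fin k) (MonoidAlgebra R G))
    (y0 : Y.Y) : ∃ y : Fin k → Y.Y, ∀ i j g, (U i j).coeff g ≠ 0 → y0 ≤ g • y j := by
  classical
  have h1 : ∀ (s : Finset Y.Y), ∃ z, ∀ x ∈ s, x ≤ z := by
    intro s
    induction s using Finset.induction_on with
    | empty => exact ⟨y0, fun x hx => absurd hx (Finset.notMem_empty x)⟩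
    | insert a s _ ih =>
      obtain ⟨z, hz⟩ := ih
      obtain ⟨z', h2, h3⟩ := Y.dir a z
      refine ⟨z', fun x hx => ?_⟩
      rcases Finset.mem_insert.1 hx with rfl | hx
      · exact h2
      · exact (hz x hx).trans h3
  choose z hz using h1
  refine ⟨fun j => z (Finset.univ.biUnion fun i => (U i j).coeff.support.image fun g =>
    g⁻¹ • y0), fun i j g hg => ?_⟩
  have h2 : g⁻¹ • y0 ≤ z (Finset.univ.biUnion fun i => (U i j).coeff.support.image fun g =>
      g⁻¹ • y0) := by
    apply hz
    rw [Finset.mem_biUnion]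
    exact ⟨i, Finset.mem_univ _, Finset.mem_image.2 ⟨g, Finsupp.mem_support_iff.2 hg, rfl⟩⟩
  have h3 := Y.mono g h2
  rwa [smul_inv_smul] at h3

/-- The data which section 6 needs. -/
def Sec6Data (R : Type u) [Ring R] {G : Type u} [Group G] {D : Type} (Ys : D → Dir G) (a0 : D) :
    Prop :=
  ∀ X : KV R (UL Ys {a0}), DB R Ys {a0} {a0} X →
    ∃ (E : CochainComplex (VCat R (UL Ys Set.univ)) ℤ) (ε : E ⟶ E), FFc E ∧ ε ≫ ε = ε ∧
      (∀ n i j g, ((VCat.lin (ε.f n) ((E.X n).e i)) j).coeff g ≠ 0 →
        g = 1 ∧ (E.X n).l i = (E.X n).l j) ∧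
      (∃ (s : X ⟶ (kL R (subHom Ys (Set.subset_univ {a0}))).obj ((QL R _).obj E))
        (r : (kL R (subHom Ys (Set.subset_univ {a0}))).obj ((QL R _).obj E) ⟶ X), s ≫ r = 𝟙 X ∧
        r ≫ s = (kL R (subHom Ys (Set.subset_univ {a0}))).map ((QL R _).map ε)) ∧
      (kL R (subHom Ys (A := Set.univ) (A' := Set.univ \ {a0}) Set.sdiff_subset)).map
        ((QL R _).map ε) = 0

theorem finite_sigma {K : CochainComplex (VCat R (UL Ys Set.univ)) ℤ} (hK : FFc K) :
    Finite (Σ n, ix K n) := by
  obtain ⟨h1, N, hN⟩ := hK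
  have _ := h1
  have h2 : Set.Finite (Set.Icc (-N) N) := Set.finite_Icc _ _
  have _ : Finite (Set.Icc (-N) N) := h2
  refine Finite.of_injective (β := Σ n : Set.Icc (-N) N, ix K n.1)
    (fun x => ⟨⟨x.1, by
      by_contra h
      have h3 : N < |x.1| := by
        rw [Set.mem_Icc, ← abs_le, not_le] at h
        exact h
      exact (hN x.1 h3).false x.2⟩, x.2⟩) ?_
  rintro ⟨n, i⟩ ⟨m, j⟩ h
  have h3 : n = m := congrArg (fun y => y.1.1) h
  subst h3
  have h4 : i = j := eq_of_heq (Sigma.mk.inj h).2
  rw [h4]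

end Main

end Pool.Agent.Lib.MP_c052b4_al.MT
end

section

/-!
# TREES^n, section 4, D05d: functors of finite type are perfect
-/

set_option autoImplicit false
set_option linter.unusedVariables false

namespace Pool.Agent.Lib.MP_c052b4_al.MT

open CategoryTheory Opposite Limits

universe u

variable {S : Type u} [Ring S] {G : Type u} [Group G] {L : Lbl G}

private theorem d05d_zero (N : AA S L) (hN : IsZero N) : SA S L N :=
  (SD S L).prop_of_isZero (Functor.map_isZero _ hN)

private theorem d05d_glue {N' N : AA S L} (α : N' ⟶ N) (h : SA S L N') (hk : SA S L (kernel α))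
    (hc : SA S L (cokernel α)) : SA S L N := by
  have hfac : Abelian.factorThruImage α ≫ Abelian.image.ι α = α := Abelian.image.fac α
  have hk' : SA S L (kernel (Abelian.factorThruImage α)) := by
    have e1 : kernel (Abelian.factorThruImage α ≫ Abelian.image.ι α) ≅
      kernel (Abelian.factorThruImage α) := kernelCompMono _ _
    have e2 : kernel (Abelian.factorThruImage α ≫ Abelian.image.ι α) ≅ kernel α :=
      kernelIsoOfEq hfac
    exact (SA S L).prop_of_iso (e2.symm ≪≫ e1) hk
  have hc' : SA S L (cokernel (Abelian.image.ι α)) := by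
    have e1 : cokernel (Abelian.factorThruImage α ≫ Abelian.image.ι α) ≅
      cokernel (Abelian.image.ι α) := cokernelEpiComp _ _
    have e2 : cokernel (Abelian.factorThruImage α ≫ Abelian.image.ι α) ≅ cokernel α :=
      cokernelIsoOfEq hfac
    exact (SA S L).prop_of_iso (e2.symm ≪≫ e1) hc
  have hI : SA S L (Abelian.image α) := by
    refine sa_two_of_three (T := ShortComplex.mk (kernel.ι (Abelian.factorThruImage α))
      (Abelian.factorThruImage α) (kernel.condition _)) ?_ hk' h
    exact { exact := ShortComplex.exact_of_f_is_kernel _ (kernelIsKernel _) }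
  refine sa_ext (T := ShortComplex.mk (Abelian.image.ι α)
      (cokernel.π (Abelian.image.ι α)) (cokernel.condition _)) ?_ hI hc'
  exact { exact := ShortComplex.exact_of_g_is_cokernel _ (cokernelIsCokernel _) }

private theorem d05d_hom_finite (hL : TopL L) (x y : Q L) : Finite (x ⟶ y) := by
  have h := (hL.lower y.w).to_subtype
  refine Finite.of_injective (β := {z | L.le z y.w})
    (fun f : x ⟶ y => ⟨(qg f)⁻¹ • x.w, ?_⟩) ?_
  · have h1 := L.smul (qg f)⁻¹ (qle f)
    rwa [inv_smul_smul] at h1
  · intro f f' hff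
    have h1 : (qg f)⁻¹ • x.w = (qg f')⁻¹ • x.w := congrArg Subtype.val hff
    refine q_ext ?_
    have h2 : (qg f' * (qg f)⁻¹) • x.w = x.w := by
      rw [mul_smul, h1, smul_inv_smul]
    exact (mul_inv_eq_one.1 (hL.free _ _ h2)).symm

private theorem d05d_ft (hL : TopL L) (y : Q L) (V : ModuleCat.{u} S) [Module.Finite S V] :
    FT S L ((fy y).obj V) := by
  constructor
  · intro x
    have := d05d_hom_finite hL x.unop y
    change Module.Finite S ((x.unop ⟶ y) →₀ V)
    infer_instance
  · refine ⟨{z | L.le z y.w}, hL.lower y.w, ?_⟩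
    intro x hx
    have h1 : Nonempty ((⟨x⟩ : Q L) ⟶ y) := by
      by_contra hcon
      rw [not_nonempty_iff] at hcon
      refine hx ?_
      change Subsingleton (((⟨x⟩ : Q L) ⟶ y) →₀ V)
      infer_instance
    obtain ⟨f⟩ := h1
    refine ⟨(qg f)⁻¹, ?_⟩
    have h1 := L.smul (qg f)⁻¹ (qle f)
    rwa [inv_smul_smul] at h1

private theorem d05d_lower_card (hL : TopL L) (g : G) (x : L.W) :
    {z | L.le z (g • x)}.ncard = {z | L.le z x}.ncard := by
  have h : {z | L.le z (g • x)} = (fun z => g • z) '' {z | L.le z x} := by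
    ext z
    constructor
    · intro hz
      refine ⟨g⁻¹ • z, ?_, smul_inv_smul _ _⟩
      have h1 := L.smul g⁻¹ hz
      rwa [inv_smul_smul] at h1
    · rintro ⟨z, hz, rfl⟩
      exact L.smul g hz
  rw [h]
  exact Set.ncard_image_of_injective _ (MulAction.injective g)

private theorem d05d_eq_of_card (hL : TopL L) {x y : L.W} (h : L.le x y)
    (hc : {z | L.le z y}.ncard ≤ {z | L.le z x}.ncard) : x = y := by
  have h1 : {z | L.le z x} ⊆ {z | L.le z y} := fun z hz => L.trans hz h
  have h2 := Set.eq_of_subset_of_ncard_le h1 hc (hL.lower y)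
  have h3 : y ∈ {z | L.le z x} := by
    rw [h2]
    exact L.refl y
  exact hL.antisymm _ _ h h3

private theorem d05d_main (hS : Reg S) (hL : TopL L) (n : ℕ) :
    ∀ Φ : Set L.W, Φ.Finite → Φ.ncard ≤ n →
      (∀ x ∈ Φ, ∀ x', L.le x' x → ∃ g : G, g • x' ∈ Φ) →
      ∀ N : AA S L, FT S L N → (∀ x ∈ supp N, ∃ g : G, g • x ∈ Φ) → SA S L N := by
  have : IsNoetherianRing S := hS.1
  induction n with
  | zero =>
    intro Φ hfin hcard _ N hN hsupp
    have hΦ : Φ = ∅ := (Set.ncard_eq_zero hfin).1 (Nat.le_zero.1 hcard)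
    refine d05d_zero N ?_
    refine Functor.isZero _ fun x => ?_
    rw [ModuleCat.isZero_iff_subsingleton]
    by_contra hx
    obtain ⟨g, hg⟩ := hsupp x.unop.w hx
    rw [hΦ] at hg
    exact hg
  | succ n ih =>
    intro Φ hfin hcard hdown N hN hsupp
    by_cases hne : Φ.Nonempty
    swap
    · exact ih Φ hfin (by rw [Set.not_nonempty_iff_eq_empty.1 hne, Set.ncard_empty]; exact Nat.zero_le _)
        hdown N hN hsupp
    obtain ⟨y, hy, hmax⟩ := Set.exists_max_image Φ (fun y => {z | L.le z y}.ncard) hfin hne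
    let Φ' : Set L.W := {x ∈ Φ | ¬ ∃ g : G, x = g • y}
    have hsub : Φ' ⊆ Φ := fun x hx => hx.1
    have hssub : Φ' ⊂ Φ := by
      refine ⟨hsub, fun h => (h hy).2 ⟨1, (one_smul _ _).symm⟩⟩
    have hfin' : Φ'.Finite := hfin.subset hsub
    have hcard' : Φ'.ncard ≤ n := by
      have := Set.ncard_lt_ncard hssub hfin
      omega
    have hdown' : ∀ x ∈ Φ', ∀ x', L.le x' x → ∃ g : G, g • x' ∈ Φ' := by
      intro x hx x' hx'
      obtain ⟨g, hg⟩ := hdown x hx.1 x' hx'
      refine ⟨g, hg, ?_⟩
      rintro ⟨h, hh⟩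
      have h1 : x' = (g⁻¹ * h) • y := by rw [mul_smul, ← hh, inv_smul_smul]
      have h2 : x' = x := by
        refine d05d_eq_of_card hL hx' ?_
        rw [h1, d05d_lower_card hL]
        exact hmax x hx.1
      exact hx.2 ⟨g⁻¹ * h, h2 ▸ h1⟩
    obtain ⟨α, hα⟩ := fy_counit (⟨y⟩ : Q L) N
    obtain ⟨hco, hke⟩ := counit_supp hL (⟨y⟩ : Q L) N α hα
    have : Module.Finite S (N.obj (op (⟨y⟩ : Q L))) := hN.1 _
    have hft := d05d_ft hL (⟨y⟩ : Q L) (N.obj (op (⟨y⟩ : Q L)))
    obtain ⟨m, hm⟩ := hS.2 (N.obj (op (⟨y⟩ : Q L))) inferInstance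
    have hsa : SA S L ((fy (⟨y⟩ : Q L)).obj (N.obj (op (⟨y⟩ : Q L)))) := sa_fy_pres _ m _ hm
    refine d05d_glue α hsa ?_ ?_
    · refine ih Φ' hfin' hcard' hdown' _ ((FT S L).prop_of_mono (kernel.ι α) hft) ?_
      intro x hx
      obtain ⟨g, hg, hgne⟩ := hke hx
      change L.le x (g • y) at hg
      change x ≠ g • y at hgne
      have h1 : L.le (g⁻¹ • x) y := by
        have h1 := L.smul g⁻¹ hg
        rwa [inv_smul_smul] at h1
      obtain ⟨h, hh⟩ := hdown y hy _ h1
      refine ⟨h * g⁻¹, by rw [mul_smul]; exact hh, ?_⟩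
      rintro ⟨k, hk⟩
      refine hgne (d05d_eq_of_card hL hg ?_)
      have h2 : x = ((h * g⁻¹)⁻¹ * k) • y := by rw [mul_smul, ← hk, inv_smul_smul]
      rw [h2, d05d_lower_card hL, d05d_lower_card hL]
    · refine ih Φ' hfin' hcard' hdown' _ ((FT S L).prop_of_epi (cokernel.π α) hN) ?_
      intro x hx
      obtain ⟨hx1, hx2⟩ := hco hx
      obtain ⟨g, hg⟩ := hsupp x hx1
      refine ⟨g, hg, ?_⟩
      rintro ⟨k, hk⟩
      refine hx2 ⟨g⁻¹ * k, ?_⟩
      change x = (g⁻¹ * k) • y
      rw [mul_smul, ← hk, inv_smul_smul]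

/-- **Functors of finite type are in `SA`** if `S` is regular and `L` satisfies the top level
conditions.
Proof: for finite sets `Φ` of labels which are closed downwards up to translations (for `x ∈ Φ` and
`x' ≤ x` some `g x'` is in `Φ`) show by induction on the cardinality of `Φ`: every `N` of finite type
with `supp N ⊆ G Φ` is in `SA`. (Every finite set is contained in such a set: add the lower sets.)
`Φ` empty: `N` is zero. Otherwise choose `y ∈ Φ` with the largest lower set (number of elements). Let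
`Φ' = {x ∈ Φ | x is not a translate of y}`: it is smaller and closed downwards up to translations
(if `x' ≤ x ∈ Φ` and `x'` is a translate of `y`, then the lower set of `x'` has the maximal
cardinality so it is equal to the one of `x`, hence `x = x'` and `x` is a translate of `y`).
Let `α` be the counit at `y`. `F_y ⊗ N(y)` is in `SA` (`sa_fy_pres`, regularity) and of finite type
(it is a quotient of `F_y ⊗ S^κ ≅ ev (constV S κ y)`, `ft_ev`), so `ker α`, `coker α` are of finite type
(`ft_serre`); their supports are in `G Φ'` (`counit_supp`: labels strictly below a translate of `y` are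
in `G Φ` and are not translates of `y`, since their lower sets are strictly smaller). By induction
they are in `SA`. Now the two short exact sequences `0 → ker α → F_y ⊗ N(y) → im α → 0` and
`0 → im α → N → coker α → 0` with `sa_two_of_three`, `sa_ext`. -/
theorem sa_ft (hS : Reg S) (hL : TopL L) (N : AA S L) (hN : FT S L N) : SA S L N := by
  obtain ⟨Φ, hΦ, hsupp⟩ := hN.2
  let Ψ : Set L.W := ⋃ y ∈ Φ, {z | L.le z y}
  have hΨ : Ψ.Finite := hΦ.biUnion fun y _ => hL.lower y
  refine d05d_main hS hL Ψ.ncard Ψ hΨ le_rfl ?_ N hN ?_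
  · intro x hx x' hx'
    refine ⟨1, ?_⟩
    rw [one_smul]
    obtain ⟨y, hy, hxy⟩ := Set.mem_iUnion₂.1 hx
    exact Set.mem_iUnion₂.2 ⟨y, hy, L.trans hx' hxy⟩
  · intro x hx
    obtain ⟨g, hg⟩ := hsupp x hx
    exact ⟨g, Set.mem_iUnion₂.2 ⟨g • x, hg, L.refl _⟩⟩

end Pool.Agent.Lib.MP_c052b4_al.MT
end

section

/-!
# TREES^n, section 4, H03: functors with a lattice
-/

set_option autoImplicit false
set_option linter.unusedVariables false

namespace Pool.Agent.Lib.MP_c052b4_al.MT

open CategoryTheory Limits Pretriangulated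

universe u

variable {R : Type u} [Ring R] {G : Type u} [Group G] {L : Lbl G} {ι : Type} {L' : ι → Lbl G}

/-- the zero functor is acyclic -/
private theorem h03_ac_zero {S : Type u} [Ring S] {G : Type u} [Group G] {L L' : Lbl G}
    {p : LblHom L L'} (d : TreeDir p) (N : AA S L) (hN : IsZero N) : d.Ac S N := by
  intro x
  have h1 : IsZero ((d.CE S x).obj N) := Functor.map_isZero _ hN
  have h2 : IsZero ((d.CV S x).obj N) := Functor.map_isZero _ hN
  have h3 : Subsingleton ((d.CE S x).obj N) := ModuleCat.subsingleton_of_isZero h1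
  have h4 : Subsingleton ((d.CV S x).obj N) := ModuleCat.subsingleton_of_isZero h2
  exact ⟨fun a b _ => Subsingleton.elim (α := (d.CE S x).obj N) a b,
    fun b => ⟨0, Subsingleton.elim (α := (d.CV S x).obj N) _ _⟩⟩

/-- the homology of an object in degree `0` -/
private theorem h03_homology {S : Type u} [Ring S] {G : Type u} [Group G] {L L' : Lbl G}
    {p : LblHom L L'} (d : TreeDir p) (N : AA S L) (hN : d.Ac S N) (q : ℤ) :
    d.Ac S ((DerivedCategory.homologyFunctor _ q).obj
      ((DerivedCategory.singleFunctor _ 0).obj N)) := by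
  by_cases hq : q = 0
  · subst hq
    exact (d.Ac S).prop_of_iso
      ((DerivedCategory.singleFunctorCompHomologyFunctorIso (AA S L) 0).app N).symm hN
  · refine h03_ac_zero d _ ?_
    have h1 := HomologicalComplex.isZero_single_obj_homology (ComplexShape.up ℤ) 0 N q hq
    exact h1.of_iso ((DerivedCategory.homologyFunctorFactors (AA S L) q).app
      ((CochainComplex.singleFunctor (AA S L) 0).obj N))

/-- A functor `M` over `R[z, 1/z]` with a lattice (of finite type, acyclic) is in `LD`.
Proof: `N` in degree `0` is in `SD` (`sa_ft`), so `N[0] ≅ EV Y` with `Y` dominated (`str_le_dom`). The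
homology of `EV Y` is `N` in degree `0` and zero otherwise, so it is acyclic in the directions `d i`
and `Y` is in `DomZ` (`TreeDir.isZero_iff`). By `loc_single` `EV (lK Y) ≅ M[0]`. -/
theorem ld_single (hR : Reg (Polynomial R)) (hL : TopL L) {p : ∀ i, LblHom L (L' i)}
    (d : ∀ i, TreeDir (p i)) (M : AA (LaurentPolynomial R) L) (N : AA (Polynomial R) L)
    (j : N ⟶ (rho L (lz R)).obj M) (hN : FT _ L N) (hN' : ∀ i, (d i).Ac _ N)
    (hj : (Tors L (Polynomial.X : Polynomial R)).isoModSerre j) :
    LD R p ((DerivedCategory.singleFunctor _ 0).obj M) := by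
  obtain ⟨Y, hY, ⟨e⟩⟩ := sa_ft hR hL N hN
  have hYd : Dom _ L Y := str_le_dom _ hY
  refine ⟨Y, ⟨hYd, fun i => ?_⟩, loc_single Y hYd N e M j hj⟩
  rw [TreeDir.isZero_iff (d i) hYd]
  intro q
  exact ((d i).Ac _).prop_of_iso
    ((DerivedCategory.homologyFunctor _ q).mapIso e).symm (h03_homology (d i) N (hN' i) q)

end Pool.Agent.Lib.MP_c052b4_al.MT
end

section

/-!
# TREES^n, section 4, H04: the top lemma
-/

set_option autoImplicit false
set_option linter.unusedVariables false

namespace Pool.Agent.Lib.MP_c052b4_al.MT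

open CategoryTheory Limits Pretriangulated

universe u

variable {R : Type u} [Ring R] {G : Type u} [Group G] {L : Lbl G} {ι : Type} {L' : ι → Lbl G}

/-- **TOP LEMMA**. Let `R[z]` be regular and `L` a top level label set with tree directions `d i`. Let
`X` be a dominated complex over `R[z, 1/z]`, zero after forgetting any of the directions, which is a
retract of the localization of such a complex over `R[z]`. Then `X` is isomorphic to the localization
of such a complex.
Proof: `EV X` is bounded (`bounded_EV`) and its homology has lattices (`exists_lattice`), so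
`H_q(X)` in degree `0` is in `LD` (`ld_single`), and `EV X` is in `LD` by `prop_of_homology`. So
`EV X ≅ EV (lK X')`, and `X ≅ lK X'` by `iso_of_EV`. -/
theorem top_lemma (hR : Reg (Polynomial R)) (hL : TopL L) {p : ∀ i, LblHom L (L' i)}
    (d : ∀ i, TreeDir (p i)) (X : KV (LaurentPolynomial R) L) (hX : DomZ _ p X)
    (Y : KV (Polynomial R) L) (hY : DomZ _ p Y) (r : Retract X ((lK R L).obj Y)) :
    ∃ X' : KV (Polynomial R) L, DomZ _ p X' ∧ Nonempty ((lK R L).obj X' ≅ X) := by
  have hN : IsNoetherianRing (Polynomial R) := hR.1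
  have hb := bounded_EV hX.1
  have h : LD R p ((EV (LaurentPolynomial R) L).obj X) := by
    refine prop_of_homology (LD R p) _ hb (fun q => ?_)
    obtain ⟨N, j, hN1, hN2, hj⟩ := exists_lattice hL d Y hY.1 hY.2 X hX.1 hX.2 r.i r.r r.retract q
    exact ld_single hR hL d _ N j hN1 hN2 hj
  obtain ⟨X', hX', ⟨e⟩⟩ := h
  obtain ⟨e', _⟩ := iso_of_EV (dom_kR _ hX'.1) hX.1 e
  exact ⟨X', hX', ⟨e'⟩⟩

end Pool.Agent.Lib.MP_c052b4_al.MT
end
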