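import Pool.Agent.Lib.MP_c052b4_al.Mg.G068
import Pool.Agent.Lib.MP_c052b4_al.Mg.G015
import Pool.Agent.Lib.MP_c052b4_al.Mg.G025
import Pool.Agent.Lib.MP_c052b4_al.Mg.G026

section

/-!
# TREES, section 6: the torsion of an isomorphism of projective modules

`p`, `q` are idempotent matrices over `R`, `φ : p → q` an isomorphism over `R[G]` with inverse `ψ`.
-/

set_option autoImplicit false
set_option linter.unusedSectionVars false

namespace Pool.Agent.Lib.MP_c052b4_al.MT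

open Matrix

universe u v w

section Tor

variable {R : Type u} [Ring R] {G : Type v} [Group G] {I J K : Type}
  [Fintype I] [DecidableEq I] [Fintype J] [DecidableEq J] [Fintype K] [DecidableEq K]

/-- The augmentation of a matrix, considered as a matrix over `R[G]`. -/
noncomputable def ag (M : Matrix I J (MonoidAlgebra R G)) : Matrix I J (MonoidAlgebra R G) :=
  (M.map (augm R G)).map (cG R G)

/-- A constant matrix. -/
noncomputable def cm (G : Type v) [Group G] (p : Matrix I J R) : Matrix I J (MonoidAlgebra R G) :=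
  p.map (cG R G)

theorem ag_mul (M : Matrix I J (MonoidAlgebra R G)) (N : Matrix J K (MonoidAlgebra R G)) :
    ag (M * N) = ag M * ag N := by
  unfold ag
  rw [Matrix.map_mul, Matrix.map_mul]

theorem ag_cm (p : Matrix I J R) : ag (cm G p) = cm G p := by
  unfold ag cm
  refine Matrix.ext fun i j => ?_
  change cG R G (augm R G (cG R G (p i j))) = cG R G (p i j)
  rw [augm_cG]

theorem cm_mul (p : Matrix I J R) (q : Matrix J K R) : cm G (p * q) = cm G p * cm G q := by
  unfold cm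
  rw [Matrix.map_mul]

/-- `φ : p → q` is an isomorphism with inverse `ψ`. -/
structure IsIsoPair (p : Matrix I I R) (q : Matrix J J R) (φ : Matrix I J (MonoidAlgebra R G))
    (ψ : Matrix J I (MonoidAlgebra R G)) : Prop where
  h1 : φ * ψ = cm G p
  h2 : ψ * φ = cm G q
  pφ : cm G p * φ = φ
  φq : φ * cm G q = φ
  qψ : cm G q * ψ = ψ
  ψp : ψ * cm G p = ψ

variable {p : Matrix I I R} {q : Matrix J J R} {r : Matrix K K R}

theorem IsIsoPair.symm {φ : Matrix I J (MonoidAlgebra R G)} {ψ : Matrix J I (MonoidAlgebra R G)}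
    (h : IsIsoPair p q φ ψ) : IsIsoPair q p ψ φ := ⟨h.h2, h.h1, h.qψ, h.ψp, h.pφ, h.φq⟩

theorem IsIsoPair.trans {φ : Matrix I J (MonoidAlgebra R G)} {ψ : Matrix J I (MonoidAlgebra R G)}
    {φ' : Matrix J K (MonoidAlgebra R G)} {ψ' : Matrix K J (MonoidAlgebra R G)}
    (h : IsIsoPair p q φ ψ) (h' : IsIsoPair q r φ' ψ') : IsIsoPair p r (φ * φ') (ψ' * ψ) := by
  refine ⟨?_, ?_, ?_, ?_, ?_, ?_⟩
  · rw [Matrix.mul_assoc, ← Matrix.mul_assoc φ', h'.h1, ← Matrix.mul_assoc, h.φq, h.h1]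
  · rw [Matrix.mul_assoc, ← Matrix.mul_assoc ψ, h.h2, ← Matrix.mul_assoc, h'.ψp, h'.h2]
  · rw [← Matrix.mul_assoc, h.pφ]
  · rw [Matrix.mul_assoc, h'.φq]
  · rw [← Matrix.mul_assoc, h'.qψ]
  · rw [Matrix.mul_assoc, h.ψp]

/-- The torsion of the isomorphism `φ : p → q` with inverse `ψ`. -/
noncomputable def tor (p : Matrix I I R) (φ : Matrix I J (MonoidAlgebra R G))
    (ψ : Matrix J I (MonoidAlgebra R G)) : KOne (MonoidAlgebra R G) :=
  kk (φ * ag ψ - cm G p)

theorem IsIsoPair.ag_h {φ : Matrix I J (MonoidAlgebra R G)} {ψ : Matrix J I (MonoidAlgebra R G)}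
    (h : IsIsoPair p q φ ψ) : IsIsoPair p q (ag φ) (ag ψ) := by
  refine ⟨?_, ?_, ?_, ?_, ?_, ?_⟩
  · rw [← ag_mul, h.h1, ag_cm]
  · rw [← ag_mul, h.h2, ag_cm]
  · conv_rhs => rw [← h.pφ, ag_mul, ag_cm]
  · conv_rhs => rw [← h.φq, ag_mul, ag_cm]
  · conv_rhs => rw [← h.qψ, ag_mul, ag_cm]
  · conv_rhs => rw [← h.ψp, ag_mul, ag_cm]

/-- An automorphism `X` of `p` with inverse `X'` gives the invertible matrix `1 + (X - p)`. -/
theorem isUnit_auto (hp : p * p = p) {X X' : Matrix I I (MonoidAlgebra R G)}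
    (h : IsIsoPair p p X X') : IsUnit (1 + (X - cm G p)) := by
  have hpp : cm G p * cm G p = cm G p := by rw [← cm_mul, hp]
  refine ⟨⟨1 + (X - cm G p), 1 + (X' - cm G p), ?_, ?_⟩, rfl⟩
  · simp only [Matrix.add_mul, Matrix.mul_add, Matrix.one_mul, Matrix.mul_one, Matrix.sub_mul,
      Matrix.mul_sub, h.h1, h.φq, h.qψ, hpp]
    abel
  · simp only [Matrix.add_mul, Matrix.mul_add, Matrix.one_mul, Matrix.mul_one, Matrix.sub_mul,
      Matrix.mul_sub, h.h2, h.pφ, h.ψp, hpp]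
    abel

theorem kk_auto_mul (hp : p * p = p) {X X' Y Y' : Matrix I I (MonoidAlgebra R G)}
    (h : IsIsoPair p p X X') (h' : IsIsoPair p p Y Y') :
    kk (X * Y - cm G p) = kk (X - cm G p) + kk (Y - cm G p) := by
  have hpp : cm G p * cm G p = cm G p := by rw [← cm_mul, hp]
  have h1 : X * Y - cm G p = X - cm G p + (Y - cm G p) + (X - cm G p) * (Y - cm G p) := by
    rw [Matrix.sub_mul, Matrix.mul_sub, Matrix.mul_sub, h.φq, h'.pφ, hpp]
    abel
  rw [h1]
  exact kk_mul (isUnit_auto hp h) (isUnit_auto hp h')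

/-- Conjugation of automorphisms. -/
theorem kk_auto_conj {φ : Matrix I J (MonoidAlgebra R G)} {ψ : Matrix J I (MonoidAlgebra R G)}
    (h : IsIsoPair p q φ ψ) {X : Matrix J J (MonoidAlgebra R G)} (hX : X * cm G q = X) :
    kk (φ * X * ψ - cm G p) = kk (X - cm G q) := by
  have h1 : φ * X * ψ - cm G p = φ * ((X - cm G q) * ψ) := by
    rw [Matrix.sub_mul, h.qψ, Matrix.mul_sub, h.h1, Matrix.mul_assoc]
  have h2 : (X - cm G q) * ψ * φ = X - cm G q := by
    rw [Matrix.mul_assoc, h.h2, Matrix.sub_mul, hX]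
    congr 1
    rw [← h.h2, Matrix.mul_assoc, ← Matrix.mul_assoc φ, h.h1, h.pφ]
  rw [h1, kk_comm, h2]

theorem tor_trans (hp : p * p = p) {φ : Matrix I J (MonoidAlgebra R G)}
    {ψ : Matrix J I (MonoidAlgebra R G)} {φ' : Matrix J K (MonoidAlgebra R G)}
    {ψ' : Matrix K J (MonoidAlgebra R G)} (h : IsIsoPair p q φ ψ) (h' : IsIsoPair q r φ' ψ') :
    tor p (φ * φ') (ψ' * ψ) = tor p φ ψ + tor q φ' ψ' := by
  have h1 := h'.trans h'.ag_h.symm
  have h2 : IsIsoPair p p (φ * (φ' * ag ψ') * ψ) (φ * (ag φ' * ψ') * ψ) := by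
    have h3 := (h.trans h1).trans h.symm
    rw [← Matrix.mul_assoc φ (ag φ' * ψ') ψ] at h3
    exact h3
  have h3 := h.trans h.ag_h.symm
  unfold tor
  rw [← kk_auto_conj h (X := φ' * ag ψ') (by rw [Matrix.mul_assoc, h'.ag_h.ψp]), add_comm,
    ← kk_auto_mul hp h2 h3]
  congr 2
  rw [ag_mul]
  have e1 : ψ * (φ * ag ψ) = ag ψ := by
    rw [← Matrix.mul_assoc, h.h2]
    exact h.ag_h.qψ
  rw [Matrix.mul_assoc _ ψ, e1]
  simp only [Matrix.mul_assoc]

theorem tor_self (hp : p * p = p) : tor p (cm G p) (cm G p) = 0 := by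
  unfold tor
  rw [ag_cm, ← cm_mul, hp, sub_self, kk_zero]

theorem tor_symm (hp : p * p = p) {φ : Matrix I J (MonoidAlgebra R G)}
    {ψ : Matrix J I (MonoidAlgebra R G)} (h : IsIsoPair p q φ ψ) :
    tor q ψ φ = - tor p φ ψ := by
  have h1 := tor_trans hp h h.symm
  rw [h.h1, tor_self hp] at h1
  exact (neg_eq_of_add_eq_zero_right h1.symm).symm

theorem tor_neg (φ : Matrix I J (MonoidAlgebra R G)) (ψ : Matrix J I (MonoidAlgebra R G)) :
    tor p (-φ) (-ψ) = tor p φ ψ := by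
  unfold tor
  have h1 : ag (-ψ) = - ag ψ := by
    unfold ag
    refine Matrix.ext fun i j => ?_
    change cG R G (augm R G (-ψ i j)) = - cG R G (augm R G (ψ i j))
    rw [map_neg, map_neg]
  rw [h1, Matrix.neg_mul, Matrix.mul_neg, neg_neg]

end Tor

end Pool.Agent.Lib.MP_c052b4_al.MT
end

section

/-!
# The step of the retract lemma after a change of coefficients (TREES^n, helper78)
-/

set_option autoImplicit false
set_option linter.unusedVariables false

namespace Pool.Agent.Lib.MP_c052b4_al.MT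

open CategoryTheory CategoryTheory.Limits CategoryTheory.Pretriangulated

universe u

variable {S S' : Type u} [Ring S] [Ring S'] {G : Type u} [Group G] {D : Type} {Ys : D → Dir G}
  {L L' : Lbl G}

/-- The matrix of a base change depends only on the matrix. -/
theorem lin_bcMap_congr (φ : S →+* S') {I J : Type u} {w : I → L.W} {w' : J → L.W}
    {v : I → L'.W} {v' : J → L'.W} (f : (⟨I, w⟩ : VCat S L) ⟶ ⟨J, w'⟩)
    (g : (⟨I, v⟩ : VCat S L') ⟶ ⟨J, v'⟩) (h : VCat.lin f = VCat.lin g) :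
    (VCat.lin (VCat.bcMap φ f) : LM S' G I J) = VCat.lin (VCat.bcMap φ g) := by
  refine lm_ext fun i => ?_
  refine (VCat.lin_bcMap_e φ f i).trans (Eq.trans ?_ (VCat.lin_bcMap_e φ g i).symm)
  have h1 : VCat.lin f (Finsupp.single i 1) = VCat.lin g (Finsupp.single i 1) := by rw [h]
  exact congrArg (Finsupp.mapRange (MonoidAlgebra.mapRingHom G φ) (map_zero _)) h1

theorem lin_bcMap_id (φ : S →+* S') {I : Type u} {w w' : I → L.W}
    (f : (⟨I, w⟩ : VCat S L) ⟶ ⟨I, w'⟩) (h : VCat.lin f = LinearMap.id) :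
    (VCat.lin (VCat.bcMap φ f) : LM S' G I I) = LinearMap.id := by
  refine (lin_bcMap_congr φ f (𝟙 (⟨I, w⟩ : VCat S L)) h).trans ?_
  exact congrArg VCat.lin ((VCat.bc φ : VCat S L ⥤ VCat S' L).map_id ⟨I, w⟩)

theorem map_comp_zero_of_isZero {C C' : Type*} [Category C] [Category C'] [HasZeroMorphisms C']
    (F : C ⥤ C') {P Y P' : C} (r : P ⟶ Y) (i : Y ⟶ P') (h : IsZero (F.obj Y)) :
    F.map (r ≫ i) = 0 := by
  rw [Functor.map_comp, h.eq_of_tgt (F.map r) 0, zero_comp]

theorem comp_aux {C : Type*} [Category C] {P P' P'' X : C} (r : P ⟶ X) (i : X ⟶ P) (t : P ⟶ P)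
    (ht : t = r ≫ i) (a : P' ⟶ P) (b : P ⟶ P') (c : P' ⟶ P'') :
    (a ≫ r) ≫ (i ≫ b) ≫ c = a ≫ t ≫ b ≫ c := by
  subst ht
  simp only [Category.assoc]

namespace GC

variable {E : GC S G}

/-- Base change of the complex of a matrix complex. -/
noncomputable abbrev bT (φ : S →+* S') (w : ∀ n, E.I n → L.W) (h : E.Resp L w) :
    CochainComplex (VCat S' L) ℤ :=
  ((VCat.bc φ : VCat S L ⥤ VCat S' L).mapHomologicalComplex (ComplexShape.up ℤ)).obj (T w h)

/-- The matrix of the differential. -/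
noncomputable def bTd (φ : S →+* S') {w : ∀ n, E.I n → L.W} (h : E.Resp L w) (n : ℤ) :
    LM S' G (E.I n) (E.I (n + 1)) := VCat.lin ((bT φ w h).d n (n + 1))

theorem bTd_eq (φ : S →+* S') {w : ∀ n, E.I n → L.W} (h : E.Resp L w)
    {w' : ∀ n, E.I n → L'.W} (h' : E.Resp L' w') (n : ℤ) : bTd φ h n = bTd φ h' n :=
  lin_bcMap_congr φ ((T w h).d n (n + 1)) ((T w' h').d n (n + 1))
    ((lin_T_d h n).trans (lin_T_d h' n).symm)

theorem retract_stepL (φ : S →+* S') {A : Set D} {b : D} {B : List D} (hb : b ∉ B)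
    {X : KV S' (UL Ys A)}
    (hz : IsZero ((kL S' (subHom Ys (A := A) (A' := A \ {b}) Set.sdiff_subset)).obj X)) (m : ℤ)
    (hE : E.Fin') {w : ∀ n, E.I n → W2 Ys} (ho : OC w)
    (hw : E.Resp (WL Ys A {c | c ∈ B}) w)
    (h : (psi D E B).Resp (UL Ys A) fun n i => (labB w B n i).1)
    (R : Retract (X⟦m⟧) ((kR (UL Ys A) φ).obj ((QL S (UL Ys A)).obj (T _ h)))) :
    ∃ (w' : ∀ n, E.I n → W2 Ys) (_ : OC w') (_ : E.Resp (WL Ys A {c | c ∈ b :: B}) w')
      (h' : (psi D E (b :: B)).Resp (UL Ys A) fun n i => (labB w' (b :: B) n i).1),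
      Nonempty (Retract (X⟦m + 1⟧) ((kR (UL Ys A) φ).obj ((QL S (UL Ys A)).obj (T _ h')))) := by
  let θ := subHom Ys (A := A) (A' := A \ {b}) Set.sdiff_subset
  let u : ∀ n, (psi D E B).I n → (UL Ys A).W := fun n i => (labB w B n i).1
  obtain ⟨t, ht⟩ : ∃ t : bT φ u h ⟶ bT φ u h, (QL S' (UL Ys A)).map t = R.r ≫ R.i :=
    (QL S' (UL Ys A)).map_surjective (R.r ≫ R.i)
  have h0 : (kL S' θ).map ((QL S' (UL Ys A)).map t) = 0 := by
    have hz' : IsZero ((kL S' θ).obj (X⟦m⟧)) :=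
      ((shiftFunctor (KV S' (UL Ys (A \ {b}))) m).map_isZero hz).of_iso
        (((kL S' θ).commShiftIso m).app X)
    exact (congrArg (kL S' θ).map ht).trans (map_comp_zero_of_isZero (kL S' θ) R.r R.i hz')
  obtain ⟨k, hk⟩ := exists_homotopy_of_map_zero
    (((VCat.mapL θ).mapHomologicalComplex (ComplexShape.up ℤ)).map t) h0
  let kk : ∀ n, LM S' G ((psi D E B).I (n + 1)) ((psi D E B).I n) := fun n => VCat.lin (k n)
  have hkk : ∀ n, RM (UL Ys (A \ {b})) (kk n) (fun i => (labB w B (n + 1) i).1)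
      (fun i => (labB w B n i).1) := fun n => RM_lin (k n)
  let tt : ∀ n, LM S' G ((psi D E B).I n) ((psi D E B).I n) := fun n => VCat.lin (t.f n)
  have hk5 : ∀ n, tt (n + 1) = (bTd φ h n).comp (kk n) + (kk (n + 1)).comp (bTd φ h (n + 1)) :=
    fun n => congrArg VCat.lin (hk n)
  have hP : (psi D E B).Fin' := psi_Fin' hE B
  let Z : GC S' G := ⟨fun n => (psi D E B).I (n + 1), fun _ => 0, fun _ => rfl⟩
  have hZ : Z.Fin' := shiftG_Fin' hP
  have hf1 := range_finite hE fun n i => (w n i).1 b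
  have hf2 := supp_finite' hZ (J := (psi D E B).I) kk
    (fun n (i : (psi D E B).I (n + 1)) j g => g⁻¹ • (labB w B (n + 1) i).1 b)
  obtain ⟨y, hy⟩ := (Ys b).exists_ub _ (hf1.union hf2)
  obtain ⟨lam, hlam1, hlam2⟩ := choose_lam hE (Ys b) y
  let w' : ∀ n, E.I n → W2 Ys := fun n i => up2 b (lam n) (w n i)
  have ho' : OC w' := OC_up2 ho fun n i => (hy _ (Or.inl ⟨n, i, rfl⟩)).trans (hlam1 n)
  have hset : {c | c ∈ b :: B} = insert b {c | c ∈ B} := by
    ext c
    exact List.mem_cons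
  have hw' : E.Resp (WL Ys A {c | c ∈ b :: B}) w' := by
    rw [hset]
    exact Resp_up2 hw hlam2
  have hlab : ∀ n i, labB w' B n i = up2 b (lam (degB E B n i)) (labB w B n i) :=
    labB_up2 w lam B hb
  have hbB : b ∈ {c | c ∈ b :: B} := List.mem_cons_self
  have h1 := Resp_labB hw' ho' B fun c hc => List.mem_cons_of_mem _ hc
  have hu' := Resp_fst h1
  have hv' := Resp_fst (Resp_rho h1 hbB)
  have h' := Resp_fst (Resp_labB hw' ho' (b :: B) fun c hc => hc)
  obtain ⟨gg, ll, hT⟩ := psi_triangle hw' ho' b B hbB hu' hv' h'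
  have hT' := (kR (UL Ys A) φ).map_distinguished _ hT
  have hfst : ∀ n i, (labB w' B n i).1 = (labB w B n i).1 := fun n i => by
    rw [hlab, up2_fst]
  let jj := iotaIso (L := UL Ys A) h hu'
    (fun n i => by rw [hfst]; exact (UL Ys A).refl _)
    (fun n i => by rw [hfst]; exact (UL Ys A).refl _)
  have hle := fun n i => (le_rho (A := A) (B := {c | c ∈ b :: B}) b (OC_labB ho' B n i)).1
  let F := (VCat.bc φ : VCat S (UL Ys A) ⥤ VCat S' (UL Ys A)).mapHomologicalComplex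
    (ComplexShape.up ℤ)
  let R' : Retract (X⟦m⟧) ((kR (UL Ys A) φ).obj ((QL S (UL Ys A)).obj (T _ hu'))) :=
    R.trans (Retract.ofIso ((kR (UL Ys A) φ).mapIso ((QL S (UL Ys A)).mapIso jj)))
  have hzero : R'.r ≫ R'.i ≫ (kR (UL Ys A) φ).map ((QL S (UL Ys A)).map (iota hu' hv' hle)) = 0 := by
    have h2 : R'.r ≫ R'.i ≫ (kR (UL Ys A) φ).map ((QL S (UL Ys A)).map (iota hu' hv' hle)) =
        (QL S' (UL Ys A)).map (F.map jj.inv) ≫ (QL S' (UL Ys A)).map t ≫
          (QL S' (UL Ys A)).map (F.map jj.hom) ≫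
            (QL S' (UL Ys A)).map (F.map (iota hu' hv' hle)) :=
      comp_aux R.r R.i _ ht _ _ _
    have h3 : (QL S' (UL Ys A)).map (F.map jj.inv ≫ t ≫ F.map jj.hom ≫ F.map (iota hu' hv' hle)) =
        (QL S' (UL Ys A)).map (F.map jj.inv) ≫ (QL S' (UL Ys A)).map t ≫
          (QL S' (UL Ys A)).map (F.map jj.hom) ≫
            (QL S' (UL Ys A)).map (F.map (iota hu' hv' hle)) := by
      rw [Functor.map_comp, Functor.map_comp, Functor.map_comp]
    refine h2.trans (h3.symm.trans (map_zero_of_homotopy _ (fun n =>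
      hm (X := (bT φ _ hu').X (n + 1)) (Y := (bT φ _ hv').X n)
        (kk n) ?_) fun n => ?_))
    · intro i j g hg a ha
      by_cases hab : a = b
      · subst hab
        change (labB w' B (n + 1) i).1 a ≤ g • (rhoW a (labB w' B n j)).1 a
        rw [rho_fst_self, hlab n j, up2_snd_self, hfst]
        have h3 : g⁻¹ • (labB w B (n + 1) i).1 a ≤ lam (degB E B n j) :=
          (hy _ (Or.inr ⟨n, i, j, g, hg, rfl⟩)).trans (hlam1 _)
        have h4 := (Ys a).mono g h3
        rwa [smul_inv_smul] at h4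
      · change (labB w' B (n + 1) i).1 a ≤ g • (rhoW b (labB w' B n j)).1 a
        rw [rho_fst_ne hab, hfst, hfst]
        exact hkk n i j g hg a ⟨ha, hab⟩
    · apply VCat.hom_ext
      let a1 : LM S' G ((psi D E B).I (n + 1)) ((psi D E B).I (n + 1)) :=
        VCat.lin ((F.map jj.inv).f (n + 1))
      let a2 : LM S' G ((psi D E B).I (n + 1)) ((psi D E B).I (n + 1)) :=
        VCat.lin ((F.map jj.hom).f (n + 1))
      let a3 : LM S' G ((psi D E B).I (n + 1)) ((psi D E B).I (n + 1)) :=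
        VCat.lin ((F.map (iota hu' hv' hle)).f (n + 1))
      have h6 : a1 = LinearMap.id := lin_bcMap_id φ _ rfl
      have h7 : a2 = LinearMap.id := lin_bcMap_id φ _ rfl
      have h8 : a3 = LinearMap.id := lin_bcMap_id φ _ rfl
      change (a3.comp a2).comp ((tt (n + 1)).comp a1) =
        (bTd φ hv' n).comp (kk n) + (kk (n + 1)).comp (bTd φ hu' (n + 1))
      rw [h6, h7, h8, bTd_eq φ hv' h n, bTd_eq φ hu' h (n + 1)]
      exact hk5 n
  obtain ⟨R''⟩ := retract_shift_of_comp_zero _ _ _ hT' R' hzero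
  exact ⟨w', ho', hw', h', ⟨(Retract.ofIso ((shiftFunctorAdd (KV S' (UL Ys A)) m 1).app X)).trans R''⟩⟩

end GC

end Pool.Agent.Lib.MP_c052b4_al.MT
end

section

/-!
# Acyclic dominated complexes over Laurent polynomials (TREES^n, helper78)
-/

set_option autoImplicit false
set_option linter.unusedVariables false

namespace Pool.Agent.Lib.MP_c052b4_al.MT

open CategoryTheory CategoryTheory.Limits CategoryTheory.Pretriangulated GC

universe u

variable {R : Type u} [Ring R] {G : Type u} [Group G] {D : Type} {Ys : D → Dir G}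

/-- RETRACT LEMMA over Laurent polynomials. -/
theorem retract_lemmaL {A : Set D} {X : KV (LaurentPolynomial R) (UL Ys A)}
    (hX : Dom (LaurentPolynomial R) (UL Ys A) X) :
    ∀ (B : List D) (_ : B.Nodup)
      (_ : ∀ b ∈ B, IsZero ((kL (LaurentPolynomial R)
        (subHom Ys (A := A) (A' := A \ {b}) Set.sdiff_subset)).obj X)),
      ∃ (m : ℤ) (E : GC (Polynomial R) G) (_ : E.Fin') (w : ∀ n, E.I n → W2 Ys) (_ : OC w)
        (_ : E.Resp (WL Ys A {c | c ∈ B}) w)
        (h : (psi D E B).Resp (UL Ys A) fun n i => (labB w B n i).1),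
        Nonempty (Retract (X⟦m⟧) ((kR (UL Ys A)
          (Polynomial.toLaurent : Polynomial R →+* LaurentPolynomial R)).obj
            ((QL (Polynomial R) (UL Ys A)).obj (T _ h))))
  | [], _, _ => by
    obtain ⟨Y, hY, ⟨Rt⟩⟩ := Dom_le_retract X hX
    obtain ⟨E, hE, w, h, ⟨e⟩⟩ := rescale hY
    refine ⟨0, E, hE, fun n i => (w n i, w n i), fun n i a => le_rfl,
      fun n i j g hg => ⟨h n i j g hg, fun a ha => absurd ha List.not_mem_nil⟩, h, ⟨?_⟩⟩
    exact (Retract.ofIso ((shiftFunctorZero (KV (LaurentPolynomial R) (UL Ys A)) ℤ).app X)).trans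
      (Rt.trans (Retract.ofIso e))
  | b :: B, hB, hz => by
    obtain ⟨hbB, hB'⟩ := List.nodup_cons.1 hB
    obtain ⟨m, E, hE, w, ho, hw, h, ⟨Rt⟩⟩ :=
      retract_lemmaL hX B hB' fun c hc => hz c (List.mem_cons_of_mem _ hc)
    obtain ⟨w', ho', hw', h', hR⟩ := retract_stepL
      (Polynomial.toLaurent : Polynomial R →+* LaurentPolynomial R) hbB
      (hz b List.mem_cons_self) m hE ho hw h Rt
    exact ⟨m + 1, E, hE, w', ho', hw', h', hR⟩

/-- (RL) Acyclic dominated complexes over Laurent polynomials are retracts of localizations of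
acyclic finite free complexes over polynomials. -/
theorem RL [Finite D] {A B : Set D} {X : KV (LaurentPolynomial R) (UL Ys A)}
    (hX : DB (LaurentPolynomial R) Ys A B X) :
    ∃ L0 : KV (Polynomial R) (UL Ys A), FFK (Polynomial R) (UL Ys A) L0 ∧
      DB (Polynomial R) Ys A B L0 ∧
      Nonempty (Retract X ((kR (UL Ys A)
        (Polynomial.toLaurent : Polynomial R →+* LaurentPolynomial R)).obj L0)) := by
  obtain ⟨l, hl, hlB⟩ : ∃ l : List D, l.Nodup ∧ {c | c ∈ l} = B := by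
    classical
    refine ⟨(Set.toFinite B).toFinset.toList, Finset.nodup_toList _, ?_⟩
    ext c
    simp
  subst hlB
  obtain ⟨m, E, hE, w, ho, hw, h, ⟨Rt⟩⟩ := retract_lemmaL hX.1 l hl hX.2
  let loc := kR (UL Ys A) (Polynomial.toLaurent : Polynomial R →+* LaurentPolynomial R)
  refine ⟨((QL (Polynomial R) (UL Ys A)).obj (T _ h))⟦-m⟧,
    FFK_shift _ _ (FFK_of_FFc (FFc_T (psi_Fin' hE l) _ _)),
    DB_shift _ (DB_psi hE l ho hw (fun c hc => hc) h), ⟨?_⟩⟩
  exact (Retract.ofIso ((shiftFunctorCompIsoId (KV (LaurentPolynomial R) (UL Ys A)) m (-m)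
    (by omega)).app X).symm).trans
      ((Rt.map (shiftFunctor (KV (LaurentPolynomial R) (UL Ys A)) (-m))).trans
        (Retract.ofIso ((loc.commShiftIso (-m)).app _).symm))

end Pool.Agent.Lib.MP_c052b4_al.MT
end
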