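import Pool.Agent.Lib.MP_c052b4_al.Mg.G019
import Pool.Agent.Lib.MP_c052b4_al.MT.ThmZ1
import Pool.Agent.Lib.MP_c052b4_al.Mg.G024
import Pool.Agent.Lib.MP_c052b4_al.Mg.G015
import Pool.Agent.Lib.MP_c052b4_al.Mg.G014
import Pool.Agent.Lib.MP_c052b4_al.Mg.G021

section

/-!
# TREES, section 6: from retracts in homotopy categories to the image of the assembly map, V
-/

set_option autoImplicit false
set_option linter.unusedSectionVars false

namespace Pool.Agent.Lib.MP_c052b4_al.MT

open CategoryTheory CategoryTheory.Limits Matrix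

universe u

section Main

variable {R : Type u} [Ring R] {G : Type u} [Group G] {D : Type} [Fintype D] [DecidableEq D]

/-- The main result of section 6. -/
theorem imA1_top_of_data (Ys : D → Dir G) (a0 : D) (sz : ∀ a, (Ys a).Y → ℤ)
    (hsz : ∀ a (g : G) y, sz a (g • y) = sz a y) (hmono : ∀ a x y, x ≤ y → sz a x ≤ sz a y)
    (heq : ∀ a x y, x ≤ y → sz a x = sz a y → x = y)
    (hV1 : ∀ y : (Ys a0).Y, imA1 R (MulAction.stabilizer G y) = ⊤)
    (hV2 : ∀ y : (∀ a : {a // a ≠ a0}, (Ys a.1).Y), imA1 R (MulAction.stabilizer G y) = ⊤)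
    (hdom : ∀ K : CochainComplex (VCat R (UL Ys {a0})) ℤ, FFc K →
      Dom R (UL Ys {a0}) ((QL R _).obj K))
    (hdata : Sec6Data R Ys a0) : imA1 R G = ⊤ := by
  classical
  rw [eq_top_iff]
  intro x _
  obtain ⟨k, A, rfl⟩ := exists_k1 x
  obtain ⟨y0⟩ := (Ys a0).ne
  obtain ⟨y, hy⟩ := exists_labels (Ys a0) (A : Matrix (Fin k) (Fin k) (MonoidAlgebra R G)) y0
  have hne : ∀ a, Nonempty (Ys a).Y := fun a => (Ys a).ne
  let base : ∀ a, (Ys a).Y := fun a => (hne a).some
  let w : Fin k ⊕ Fin k → (UL Ys {a0}).W :=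
    Sum.elim (fun _ => Function.update base a0 y0) fun j => Function.update base a0 (y j)
  have hcon := isCon_two (R := R) A
  have h1c : cm G (1 : Matrix (Fin k ⊕ Fin k) (Fin k ⊕ Fin k) R) = 1 := by
    unfold cm
    exact Matrix.map_one _ (map_zero _) (map_one _)
  have hw : Sp w w (UL Ys {a0}).le (fromBlocks 0 (A : Matrix (Fin k) (Fin k)
      (MonoidAlgebra R G)) 0 0) := by
    rintro (i | i) (j | j) g hg
    · exact absurd rfl hg
    · intro a ha
      have ha' : a = a0 := ha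
      subst ha'
      change Function.update base a y0 a ≤ g • Function.update base a (y j) a
      rw [Function.update_self, Function.update_self]
      exact hy i j g hg
    · exact absurd rfl hg
    · exact absurd rfl hg
  have hX : DB R Ys {a0} {a0} ((QL R _).obj (cxOf _ _ hcon.deg_d hcon.dd w hw)) := by
    refine ⟨hdom _ ffc_cxOf, ?_⟩
    intro b hb
    refine isZero_cxOf _ ?_ _ hcon.deg_k (by rw [hcon.con, h1c])
    intro x y a ha
    have hb' : b = a0 := hb
    exact absurd (ha.1.trans hb'.symm) ha.2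
  obtain ⟨E, ε, hE, hεε, hεc, ⟨s, r, hsr, hrs⟩, hz⟩ := hdata _ hX
  obtain ⟨σ, hσ⟩ := (HomotopyCategory.quotient (VCat R (UL Ys {a0}))
    (ComplexShape.up ℤ)).map_surjective (X := cxOf _ _ hcon.deg_d hcon.dd w hw)
    (Y := ((VCat.mapL (subHom Ys
      (Set.subset_univ {a0}))).mapHomologicalComplex (ComplexShape.up ℤ)).obj E) s
  obtain ⟨ρ, hρ⟩ := (HomotopyCategory.quotient (VCat R (UL Ys {a0}))
    (ComplexShape.up ℤ)).map_surjective (Y := cxOf _ _ hcon.deg_d hcon.dd w hw)
    (X := ((VCat.mapL (subHom Ys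
      (Set.subset_univ {a0}))).mapHomologicalComplex (ComplexShape.up ℤ)).obj E) r
  refine k1_mem_of_retract Ys a0 sz hsz hmono heq hV1 hV2 A w hcon.deg_d hcon.dd hw E ε hE hεε hεc
    σ ρ ?_ ?_ hz
  · exact (congrArg₂ (fun a b => a ≫ b) hσ hρ).trans hsr
  · exact (congrArg₂ (fun a b => a ≫ b) hρ hσ).trans hrs

end Main

end Pool.Agent.Lib.MP_c052b4_al.MT
end

section

/-!
# Theorem Z (TREES^n, helper78)
-/

set_option autoImplicit false
set_option linter.unusedVariables false

namespace Pool.Agent.Lib.MP_c052b4_al.MT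

open CategoryTheory CategoryTheory.Limits CategoryTheory.Pretriangulated

universe u

variable {R : Type u} [Ring R] {G : Type u} [Group G] {L : Lbl G} {D : Type} {Ys : D → Dir G}

theorem isIso_loc_zKn (X : KV (Polynomial R) L) (n : ℕ) :
    IsIso ((kR L (Polynomial.toLaurent : Polynomial R →+* LaurentPolynomial R)).map
      (zKn Polynomial.X (zX_central R) X n)) := by
  rw [kR_zKn (zX_central R) _ (zT_central R)]
  have hT1 : Polynomial.toLaurent (Polynomial.X : Polynomial R) * LaurentPolynomial.T (-1) = 1 := by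
    rw [Polynomial.toLaurent_X, ← LaurentPolynomial.T_add]
    exact LaurentPolynomial.T_zero
  have hT2 : LaurentPolynomial.T (-1) * Polynomial.toLaurent (Polynomial.X : Polynomial R) = 1 := by
    rw [Polynomial.toLaurent_X, ← LaurentPolynomial.T_add]
    exact LaurentPolynomial.T_zero
  have h1 : ∀ Y : KV (LaurentPolynomial R) L,
      IsIso (zK (Polynomial.toLaurent Polynomial.X) (zT_central R) Y) := fun Y =>
    ⟨zK (LaurentPolynomial.T (-1)) (T_neg_central R) Y, zK_comp _ _ hT1 _, zK_comp _ _ hT2 _⟩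
  induction n with
  | zero =>
    rw [zKn_zero]
    infer_instance
  | succ n ih =>
    rw [zKn_succ]
    have h2 := h1 ((kR L (Polynomial.toLaurent : Polynomial R →+* LaurentPolynomial R)).obj X)
    exact IsIso.comp_isIso' ih h2

theorem res_triangle' (F : KV (Polynomial R) L) :
    ∃ (g : (kRes L).obj F ⟶ (kR L (Polynomial.constantCoeff : Polynomial R →+* R)).obj F)
      (h : (kR L (Polynomial.constantCoeff : Polynomial R →+* R)).obj F ⟶
        ((kRes L).obj F)⟦(1 : ℤ)⟧),
      Triangle.mk ((kRes L).map (zK Polynomial.X (zX_central R) F)) g h ∈ distTriang (KV R L) :=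
  res_triangle F.as

/-- Dominated objects killed by a power of `z` have dominated restrictions. -/
theorem Dom_kRes_of_zKn {X : KV (Polynomial R) L} (hX : Dom (Polynomial R) L X) (M : ℕ)
    (hM : zKn Polynomial.X (zX_central R) X M = 0) : Dom R L ((kRes L).obj X) := by
  obtain ⟨F, hF, ⟨Rt⟩⟩ := Dom_le_retract X hX
  obtain ⟨Cn, g', h', hn⟩ := distinguished_cocone_triangle (zKn Polynomial.X (zX_central R) F M)
  obtain ⟨R2⟩ := retract_cone_of_comp_zero _ g' h' hn Rt (by
    rw [zKn_nat, hM, comp_zero])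
  refine Dom_of_retract (R2.map (kRes L)) ?_
  have hres : Triangle.mk ((kRes L).map (zKn Polynomial.X (zX_central R) F M)) ((kRes L).map g')
      ((kRes L).map h' ≫ ((kRes L).commShiftIso (1 : ℤ)).hom.app F) ∈ distTriang (KV R L) :=
    (kRes L).map_distinguished _ hn
  obtain ⟨g₁, h₁, hT₁⟩ := res_triangle' F
  have hev : Dom R L ((kR L (Polynomial.constantCoeff : Polynomial R →+* R)).obj F) :=
    Dom_kR (S := Polynomial R) (S' := R) (Polynomial.constantCoeff : Polynomial R →+* R)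
      (FFK_le_Dom F hF)
  have hf0 : (kRes L).map (zKn Polynomial.X (zX_central R) F 0) = 𝟙 ((kRes L).obj F) :=
    (kRes L).map_id F
  have hf : ∀ n, (kRes L).map (zKn Polynomial.X (zX_central R) F (n + 1)) =
      (kRes L).map (zKn Polynomial.X (zX_central R) F n) ≫
        (kRes L).map (zK Polynomial.X (zX_central R) F) := fun n => (kRes L).map_comp _ _
  exact cone_pow (Dom R L) ((kRes L).map (zK Polynomial.X (zX_central R) F)) g₁ h₁ hT₁ hev
    (fun n => (kRes L).map (zKn Polynomial.X (zX_central R) F n)) hf0 hf M _ _ hres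

/-- THEOREM Z. -/
theorem theoremZ {A : Set D} {a : D} {B : List D} (hB : B.Nodup) (haB : a ∉ B)
    (H : ∀ Lo : KV (Polynomial R) (UL Ys A), FFK (Polynomial R) (UL Ys A) Lo →
      DB (LaurentPolynomial R) Ys A (insert a {c | c ∈ B})
        ((kR _ (Polynomial.toLaurent : Polynomial R →+* LaurentPolynomial R)).obj Lo) →
      ∃ L₂, DB (Polynomial R) Ys A (insert a {c | c ∈ B}) L₂ ∧
        Nonempty ((kR _ (Polynomial.toLaurent : Polynomial R →+* LaurentPolynomial R)).obj Lo ≅
          (kR _ (Polynomial.toLaurent : Polynomial R →+* LaurentPolynomial R)).obj L₂))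
    {X : KV R (UL Ys (A \ {a}))} (hX : DB R Ys (A \ {a}) {c | c ∈ B} X) :
    ∃ C : KV R (UL Ys A), DB R Ys A {c | c ∈ B} C ∧
      Nonempty ((kL R (subHom Ys (A := A) (A' := A \ {a}) Set.sdiff_subset)).obj C ≅ X) := by
  let loc := kR (UL Ys A) (Polynomial.toLaurent : Polynomial R →+* LaurentPolynomial R)
  let p := kL R (subHom Ys (A := A) (A' := A \ {a}) Set.sdiff_subset)
  let pz := kL (Polynomial R) (subHom Ys (A := A) (A' := A \ {a}) Set.sdiff_subset)
  let rs := kRes (R := R) (UL Ys A)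
  let rs' := kRes (R := R) (UL Ys (A \ {a}))
  obtain ⟨m, C', C'', ι, e, i, r, hC', hC'', hB', hB'', hir, hι, he⟩ := lift_idem hB haB hX
  obtain ⟨Lo, hFF, hDB, hloc0, ⟨e0⟩⟩ := partii ι e i r hir hι he hC' hC'' hB' hB''
  have hDom := FFK_le_Dom _ hFF
  obtain ⟨L₂, hL₂, ⟨ψ⟩⟩ := H Lo hFF ⟨Dom_kR _ hDom, fun b hb => by
    rcases hb with rfl | hb
    · exact hloc0
    · exact (DB_kR _ hDB).2 b hb⟩
  obtain ⟨k, f, hf⟩ := lochom_surj hDom ψ.hom
  have hfi : IsIso (loc.map f) := by
    have h1 := isIso_loc_zKn Lo k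
    have h2 : loc.map f = _ := hf
    rw [h2]
    exact IsIso.comp_isIso' h1 inferInstance
  obtain ⟨Θ, g, h, hT⟩ := distinguished_cocone_triangle f
  have hΘ : DB (Polynomial R) Ys A {c | c ∈ B} Θ :=
    DB_cone _ hT hDB (DB_mono (Set.subset_insert _ _) hL₂)
  have hlocΘ : IsZero (loc.obj Θ) :=
    Triangle.isZero₃_of_isIso₁ _ (loc.map_distinguished _ hT) hfi
  obtain ⟨M, hM⟩ := lochom_inj hΘ.1 (𝟙 Θ) (hlocΘ.eq_of_tgt _ _)
  rw [Category.comp_id] at hM
  have hres : DB R Ys A {c | c ∈ B} (rs.obj Θ) :=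
    ⟨Dom_kRes_of_zKn hΘ.1 M hM, fun b hb =>
      (kRes (R := R) (UL Ys (A \ {b}))).map_isZero (hΘ.2 b hb)⟩
  have hpT := pz.map_distinguished _ hT
  have h3 := (Triangle.isZero₂_iff_isIso₃ _ hpT).1 (hL₂.2 a (Set.mem_insert _ _))
  let e1 : pz.obj Θ ≅ (pz.obj Lo)⟦(1 : ℤ)⟧ := @asIso _ _ _ _ _ h3
  let e2 : rs'.obj (pz.obj Θ) ≅ X⟦m + 1⟧ :=
    rs'.mapIso e1 ≪≫ (rs'.commShiftIso (1 : ℤ)).app _ ≪≫
      (shiftFunctor _ (1 : ℤ)).mapIso e0 ≪≫ ((shiftFunctorAdd _ m (1 : ℤ)).app X).symm
  refine ⟨(rs.obj Θ)⟦-(m + 1)⟧, DB_shift _ hres, ⟨?_⟩⟩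
  exact (p.commShiftIso (-(m + 1))).app (rs.obj Θ) ≪≫
    (shiftFunctor (KV R (UL Ys (A \ {a}))) (-(m + 1))).mapIso e2 ≪≫
    (shiftFunctorCompIsoId (KV R (UL Ys (A \ {a}))) (m + 1) (-(m + 1)) (by omega)).app X

end Pool.Agent.Lib.MP_c052b4_al.MT
end

section

/-!
# The induction over the directions (TREES^n, helper78)
-/

set_option autoImplicit false
set_option linter.unusedVariables false

namespace Pool.Agent.Lib.MP_c052b4_al.MT

open CategoryTheory CategoryTheory.Limits CategoryTheory.Pretriangulated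

universe u

variable {G : Type u} [Group G] {D : Type} (Ys : D → Dir G)

/-- The descent statement for the directions `A` and the ring `R`. -/
def Pst (A : Set D) (R : Type u) [Ring R] : Prop :=
  ∀ (B : Set D) (_ : B ⊆ A) (X : KV R (UL Ys A)) (_ : DB R Ys A B X),
    ∃ C : KV R (UL Ys Set.univ), DB R Ys Set.univ B C ∧
      Nonempty ((kL R (subHom Ys (Set.subset_univ A))).obj C ≅ X)

/-- The statement of the top lemma. -/
def TopSt (R : Type u) [Ring R] : Prop :=
  ∀ (B : Set D) (X : KV (LaurentPolynomial R) (UL Ys Set.univ))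
    (_ : DB (LaurentPolynomial R) Ys Set.univ B X),
    ∃ C : KV (Polynomial R) (UL Ys Set.univ), DB (Polynomial R) Ys Set.univ B C ∧
      Nonempty ((kR _ (Polynomial.toLaurent : Polynomial R →+* LaurentPolynomial R)).obj C ≅ X)

variable {Ys}

theorem Pst_univ (R : Type u) [Ring R] : Pst Ys Set.univ R := fun B _ X hX =>
  ⟨X, hX, ⟨Iso.refl X⟩⟩

theorem Pst_step [Finite D] {R : Type u} [Ring R] (hT : TopSt Ys R) {A : Set D} {a : D}
    (ha : a ∈ A) (h : Pst Ys A R) (h' : Pst Ys A (LaurentPolynomial R)) :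
    Pst Ys (A \ {a}) R := by
  intro B hB X hX
  obtain ⟨l, hl, hlB⟩ : ∃ l : List D, l.Nodup ∧ {c | c ∈ l} = B := by
    classical
    refine ⟨(Set.toFinite B).toFinset.toList, Finset.nodup_toList _, ?_⟩
    ext c
    simp
  subst hlB
  have hal : a ∉ l := fun h => (hB h).2 rfl
  obtain ⟨C₁, hC₁, ⟨e₁⟩⟩ := theoremZ (R := R) (A := A) (a := a) hl hal (fun Lo hFF hDB => by
    obtain ⟨C, hC, ⟨e⟩⟩ := h' _ (Set.insert_subset ha fun c hc => (hB hc).1) _ hDB
    obtain ⟨L', hL', ⟨e'⟩⟩ := hT _ C hC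
    exact ⟨(kL (Polynomial R) (subHom Ys (Set.subset_univ A))).obj L', DB_kL _ hL',
      ⟨e.symm ≪≫ ((kL (LaurentPolynomial R) (subHom Ys (Set.subset_univ A))).mapIso e').symm⟩⟩) hX
  obtain ⟨C₂, hC₂, ⟨e₂⟩⟩ := h _ (fun c hc => (hB hc).1) C₁ hC₁
  exact ⟨C₂, hC₂, ⟨(kL R (subHom Ys (A := A) (A' := A \ {a}) Set.sdiff_subset)).mapIso e₂ ≪≫ e₁⟩⟩

/-- The descent theorem: if the top lemma holds for a class of rings closed under
Laurent extension, then acyclic dominated complexes lift to all directions. -/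
theorem descend [Finite D] (P : ∀ (R : Type u) [Ring R], Prop)
    (hP : ∀ (R : Type u) [Ring R], P R → P (LaurentPolynomial R))
    (hT : ∀ (R : Type u) [Ring R], P R → TopSt Ys R) (A : Set D) :
    ∀ (R : Type u) [Ring R], P R → Pst Ys A R := by
  have key : ∀ s : Set D, s.Finite → ∀ (R : Type u) [Ring R], P R → Pst Ys sᶜ R := by
    intro s hs
    induction s, hs using Set.Finite.induction_on with
    | empty =>
      intro R _ _
      rw [Set.compl_empty]
      exact Pst_univ R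
    | @insert a s ha hs ih =>
      intro R _ hR
      have h1 : (insert a s)ᶜ = sᶜ \ {a} := by
        ext c
        simp only [Set.mem_compl_iff, Set.mem_insert_iff, not_or, Set.mem_sdiff,
          Set.mem_singleton_iff]
        exact and_comm
      rw [h1]
      exact Pst_step (hT R hR) ha (ih R hR) (ih _ (hP R hR))
  have h2 := key Aᶜ (Set.toFinite _)
  rw [compl_compl] at h2
  exact h2

end Pool.Agent.Lib.MP_c052b4_al.MT
end

section

/-!
# The top lemma in the form of the descent theorem (TREES^n, helper78)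
-/

set_option autoImplicit false
set_option linter.unusedVariables false

namespace Pool.Agent.Lib.MP_c052b4_al.MT

open CategoryTheory CategoryTheory.Limits CategoryTheory.Pretriangulated

universe u

variable {G : Type u} [Group G] {D : Type} {Ys : D → Dir G}

/-- The top lemma for a regular ring. -/
theorem topSt [Finite D] (R : Type u) [Ring R] (hR : Reg (Polynomial R))
    (hL : TopL (UL Ys Set.univ))
    (d : ∀ b, TreeDir (subHom Ys (A := Set.univ) (A' := Set.univ \ {b}) Set.sdiff_subset)) :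
    TopSt Ys R := by
  intro B X hX
  obtain ⟨L0, hFF, hDB, ⟨Rt⟩⟩ := RL hX
  obtain ⟨X', hX', ⟨e⟩⟩ := top_lemma (ι := B) (L' := fun b : B => UL Ys (Set.univ \ {b.1})) hR hL
    (p := fun b : B => subHom Ys (A := Set.univ) (A' := Set.univ \ {b.1}) Set.sdiff_subset)
    (fun b => d b.1) X ⟨hX.1, fun b => hX.2 b.1 b.2⟩ L0 ⟨hDB.1, fun b => hDB.2 b.1 b.2⟩ Rt
  exact ⟨X', ⟨hX'.1, fun b hb => hX'.2 ⟨b, hb⟩⟩, ⟨e⟩⟩

/-- The descent theorem for classes of rings which are regular and closed under polynomial and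
Laurent polynomial extensions. -/
theorem descend_reg [Finite D] (P : ∀ (R : Type u) [Ring R], Prop)
    (hP : ∀ (R : Type u) [Ring R], P R → P (LaurentPolynomial R))
    (hR : ∀ (R : Type u) [Ring R], P R → Reg (Polynomial R))
    (hL : TopL (UL Ys Set.univ))
    (d : ∀ b, TreeDir (subHom Ys (A := Set.univ) (A' := Set.univ \ {b}) Set.sdiff_subset))
    (A : Set D) (R : Type u) [Ring R] (h : P R) : Pst Ys A R :=
  descend P hP (fun R _ h => topSt R (hR R h) hL d) A R h

end Pool.Agent.Lib.MP_c052b4_al.MT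
end
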