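import Pool.Agent.Lib.MP_c052b4_al.Mg.G049
import Pool.Agent.Lib.MP_c052b4_al.Mg.G027
import Pool.Agent.Lib.MP_c052b4_al.Good
import Pool.Agent.Lib.MP_c052b4_al.Mg.G036

section

/-!
# Coherent trees, G04: finitely presented objects form a weak Serre class
-/

set_option autoImplicit false
set_option linter.unusedVariables false
set_option linter.unusedSectionVars false

namespace Pool.Agent.Lib.MP_c052b4_al.CT

open CategoryTheory Limits

universe v u

variable {C : Type u} [Category.{v} C] [Abelian C] {P : ObjectProperty C}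

/-- Extensions of finitely presented objects.
Proof: let `π₁ : X → T.X₁`, `π₃ : Y → T.X₃` be epimorphisms with `P X`, `P Y` and finitely generated
kernels, `σ : Y → T.X₂` with `σ ≫ T.g = π₃` (`Y` is projective). Then
`p = biprod.desc (π₁ ≫ T.f) σ : X ⊞ Y → T.X₂` is an epimorphism, and there is a short exact sequence
`0 → kernel π₁ → kernel p → kernel π₃ → 0` (e.g. the snake lemma for the two short exact sequences
`0 → X → X ⊞ Y → Y → 0`, `0 → T.X₁ → T.X₂ → T.X₃ → 0`; or with the refinement lemmas). So `kernel p` is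
finitely generated by `FGe.ext`. -/
theorem FPr.ext (hP : CohP P) {T : ShortComplex C} (hT : T.ShortExact) (h1 : FPr P T.X₁)
    (h3 : FPr P T.X₃) : FPr P T.X₂ := by
  have := hT.mono_f
  have := hT.epi_g
  obtain ⟨X, π₁, hX, hπ₁, hk₁⟩ := h1
  obtain ⟨Y, π₃, hY, hπ₃, hk₃⟩ := h3
  have := hP.proj Y hY
  obtain ⟨σ, hσ⟩ : ∃ σ : Y ⟶ T.X₂, σ ≫ T.g = π₃ :=
    ⟨Projective.factorThru π₃ T.g, Projective.factorThru_comp π₃ T.g⟩
  let p : X ⊞ Y ⟶ T.X₂ := biprod.desc (π₁ ≫ T.f) σ
  have hpg : p ≫ T.g = biprod.snd ≫ π₃ := by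
    apply biprod.hom_ext' <;> simp [p, hσ, T.zero]
  have hp : Epi p := by
    rw [Preadditive.epi_iff_cancel_zero]
    intro Z h hh
    have e1 : π₁ ≫ T.f ≫ h = 0 := by
      have := biprod.inl ≫= hh
      simpa [p] using this
    have e2 : σ ≫ h = 0 := by
      have := biprod.inr ≫= hh
      simpa [p] using this
    have e3 : T.f ≫ h = 0 := by
      rw [← cancel_epi π₁, e1, comp_zero]
    have e4 : T.g ≫ hT.exact.desc h e3 = h := hT.exact.g_desc h e3
    have e5 : π₃ ≫ hT.exact.desc h e3 = 0 := by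
      rw [← hσ, Category.assoc, e4, e2]
    have e6 : hT.exact.desc h e3 = 0 := by
      rw [← cancel_epi π₃, e5, comp_zero]
    rw [← e4, e6, comp_zero]
  have ha : (kernel.ι π₁ ≫ biprod.inl) ≫ p = 0 := by
    simp only [p, Category.assoc, biprod.inl_desc]
    rw [kernel.condition_assoc, zero_comp]
  have hb : (kernel.ι p ≫ biprod.snd) ≫ π₃ = 0 := by
    rw [Category.assoc, ← hpg, kernel.condition_assoc, zero_comp]
  let a : kernel π₁ ⟶ kernel p := kernel.lift p _ ha
  let b : kernel p ⟶ kernel π₃ := kernel.lift π₃ _ hb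
  have ha' : a ≫ kernel.ι p = kernel.ι π₁ ≫ biprod.inl := kernel.lift_ι _ _ _
  have hb' : b ≫ kernel.ι π₃ = kernel.ι p ≫ biprod.snd := kernel.lift_ι _ _ _
  have hab : a ≫ b = 0 := by
    rw [← cancel_mono (kernel.ι π₃), Category.assoc, hb', ← Category.assoc, ha', Category.assoc,
      biprod.inl_snd, comp_zero, zero_comp]
  have hma : Mono a := by
    have : Mono (a ≫ kernel.ι p) := by
      rw [ha']
      infer_instance
    exact mono_of_mono a (kernel.ι p)
  have heb : Epi b := by
    rw [epi_iff_surjective_up_to_refinements]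
    intro A y
    have e1 : (y ≫ kernel.ι π₃ ≫ σ) ≫ T.g = 0 := by
      simp only [Category.assoc]
      rw [hσ, kernel.condition, comp_zero]
    obtain ⟨A', π, hπ, w, hw⟩ := surjective_up_to_refinements_of_epi π₁ (hT.exact.lift _ e1)
    have e2 : hT.exact.lift _ e1 ≫ T.f = y ≫ kernel.ι π₃ ≫ σ := hT.exact.lift_f _ e1
    have e3 : (biprod.lift (-w) (π ≫ y ≫ kernel.ι π₃)) ≫ p = 0 := by
      simp only [p, biprod.lift_desc, Preadditive.neg_comp, Category.assoc]
      rw [← e2, ← Category.assoc w, ← hw, Category.assoc, neg_add_cancel]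
    refine ⟨A', π, hπ, kernel.lift p _ e3, ?_⟩
    rw [← cancel_mono (kernel.ι π₃), Category.assoc, Category.assoc, hb', kernel.lift_ι_assoc,
      biprod.lift_snd]
  have hex : (ShortComplex.mk a b hab).Exact := by
    rw [ShortComplex.exact_iff_exact_up_to_refinements]
    intro A x₂ hx₂
    change x₂ ≫ b = 0 at hx₂
    have e1 : x₂ ≫ kernel.ι p ≫ biprod.snd = 0 := by
      rw [← hb', ← Category.assoc, hx₂, zero_comp]
    have e2 : x₂ ≫ kernel.ι p = (x₂ ≫ kernel.ι p ≫ biprod.fst) ≫ biprod.inl := by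
      apply biprod.hom_ext
      · simp
      · simp [e1]
    have e3 : (x₂ ≫ kernel.ι p ≫ biprod.fst) ≫ π₁ = 0 := by
      rw [← cancel_mono T.f, zero_comp]
      have e4 : ((x₂ ≫ kernel.ι p ≫ biprod.fst) ≫ biprod.inl) ≫ p = 0 := by
        rw [← e2, Category.assoc, kernel.condition, comp_zero]
      simpa [p] using e4
    refine ⟨A, 𝟙 A, inferInstance, kernel.lift π₁ _ e3, ?_⟩
    change 𝟙 A ≫ x₂ = kernel.lift π₁ _ e3 ≫ a
    rw [← cancel_mono (kernel.ι p), Category.id_comp, Category.assoc, ha', kernel.lift_ι_assoc,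
      ← e2]
  have hS : (ShortComplex.mk a b hab).ShortExact :=
    { exact := hex
      mono_f := hma
      epi_g := heb }
  exact ⟨X ⊞ Y, p, hP.sum X Y hX hY, hp, FGe.ext hP hS hk₁ hk₃⟩

/-- **Finitely presented objects form a weak Serre class.**
Proof: zero: `FPr.of_mem` and `FPr.of_iso` (an object isomorphic to the zero object of `CohP.zero`).
Cokernel of `f : X ⟶ Y`: the image of `f` is finitely generated (a quotient of `X`), and `cokernel f` is
the quotient of `Y` by it: `FPr.quot` for `0 → image f → Y → cokernel f → 0`. Kernel: the image `I` is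
finitely generated and a subobject of `Y`, so finitely presented (`FPr.sub`). From
`0 → kernel f → X → I → 0` the kernel is finitely generated (`FGe.of_shortExact`), and it is a
subobject of `X`, so it is finitely presented (`FPr.sub`). Extensions: `FPr.ext`. -/
theorem isWS_fpr (hP : CohP P) : IsWS (FPr P) := by
  refine ⟨?_, fun e h => h.of_iso e, ?_, ?_, fun hT h1 h3 => FPr.ext hP hT h1 h3⟩
  · intro X hX
    obtain ⟨Z, hZ, hPZ⟩ := hP.zero
    exact (FPr.of_mem hP hPZ).of_iso (hZ.iso hX)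
  · intro X Y f hX hY
    have hI : FGe P (Abelian.image f) := hX.fge.of_epi (Abelian.factorThruImage f)
    have hI' : FPr P (Abelian.image f) := FPr.sub hP (Abelian.image.ι f) hI hY
    have w : kernel.ι f ≫ Abelian.factorThruImage f = 0 := by
      rw [← cancel_mono (Abelian.image.ι f), Category.assoc, Abelian.image.fac,
        kernel.condition, zero_comp]
    have hS : (ShortComplex.mk (kernel.ι f) (Abelian.factorThruImage f) w).ShortExact := by
      refine { exact := ?_, mono_f := ?_, epi_g := ?_ }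
      · rw [ShortComplex.exact_iff_exact_up_to_refinements]
        intro A x₂ hx₂
        change x₂ ≫ Abelian.factorThruImage f = 0 at hx₂
        have e1 : x₂ ≫ f = 0 := by
          have e0 : x₂ ≫ Abelian.factorThruImage f ≫ Abelian.image.ι f = 0 := by
            rw [← Category.assoc, hx₂, zero_comp]
          rwa [Abelian.image.fac] at e0
        refine ⟨A, 𝟙 A, inferInstance, kernel.lift f x₂ e1, ?_⟩
        change 𝟙 A ≫ x₂ = kernel.lift f x₂ e1 ≫ kernel.ι f
        rw [kernel.lift_ι, Category.id_comp]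
      · change Mono (kernel.ι f)
        infer_instance
      · change Epi (Abelian.factorThruImage f)
        infer_instance
    exact FPr.sub hP (kernel.ι f) (FGe.of_shortExact hP hS hX.fge hI') hX
  · intro X Y f hX hY
    have hI : FGe P (Abelian.image f) := hX.fge.of_epi (Abelian.factorThruImage f)
    have w : Abelian.image.ι f ≫ cokernel.π f = 0 := kernel.condition _
    have hS : (ShortComplex.mk (Abelian.image.ι f) (cokernel.π f) w).ShortExact := by
      refine { exact := ?_, mono_f := ?_, epi_g := ?_ }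
      · rw [ShortComplex.exact_iff_exact_up_to_refinements]
        intro A x₂ hx₂
        change x₂ ≫ cokernel.π f = 0 at hx₂
        refine ⟨A, 𝟙 A, inferInstance, kernel.lift (cokernel.π f) x₂ hx₂, ?_⟩
        change 𝟙 A ≫ x₂ = kernel.lift (cokernel.π f) x₂ hx₂ ≫ kernel.ι (cokernel.π f)
        rw [kernel.lift_ι, Category.id_comp]
      · change Mono (Abelian.image.ι f)
        infer_instance
      · change Epi (cokernel.π f)
        infer_instance
    exact FPr.quot hP hS hI hY

end Pool.Agent.Lib.MP_c052b4_al.CT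
end

section

/-!
# Coherent trees, A01: labels with finite lower sets
-/

set_option autoImplicit false
set_option linter.unusedVariables false
set_option linter.unusedSectionVars false

namespace Pool.Agent.Lib.MP_c052b4_al.CT

open Pool.Agent.Lib.MP_c052b4_al.MT

universe u

/-- The labels form a partial order with finite lower sets. -/
structure OrdL {G : Type u} [Group G] (L : Lbl G) : Prop where
  antisymm : ∀ x y : L.W, L.le x y → L.le y x → x = y
  lower : ∀ y : L.W, {x | L.le x y}.Finite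

variable {G : Type u} [Group G] {L : Lbl G}

theorem OrdL.card_smul (hL : OrdL L) (g : G) (x : L.W) :
    {z | L.le z (g • x)}.ncard = {z | L.le z x}.ncard := by
  have h : {z | L.le z (g • x)} = (fun z => g • z) '' {z | L.le z x} := by
    ext z
    constructor
    · intro hz
      refine ⟨g⁻¹ • z, ?_, smul_inv_smul _ _⟩
      have h1 := L.smul g⁻¹ hz
      rwa [inv_smul_smul] at h1
    · rintro ⟨z, hz, rfl⟩
      exact L.smul g hz
  rw [h]
  exact Set.ncard_image_of_injective _ (MulAction.injective g)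

theorem OrdL.eq_of_card (hL : OrdL L) {x y : L.W} (h : L.le x y)
    (hc : {z | L.le z y}.ncard ≤ {z | L.le z x}.ncard) : x = y := by
  have h1 : {z | L.le z x} ⊆ {z | L.le z y} := fun z hz => L.trans hz h
  have h2 := Set.eq_of_subset_of_ncard_le h1 hc (hL.lower y)
  have h3 : y ∈ {z | L.le z x} := by
    rw [h2]
    exact L.refl y
  exact hL.antisymm _ _ h h3

theorem OrdL.fix (hL : OrdL L) {y : L.W} {h : G} (hy : L.le y (h • y)) : h • y = y :=
  (hL.eq_of_card hy (hL.card_smul h y).le).symm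

theorem OrdL.fix' (hL : OrdL L) {y : L.W} {h : G} (hy : L.le (h • y) y) : h • y = y :=
  hL.eq_of_card hy (hL.card_smul h y).ge

end Pool.Agent.Lib.MP_c052b4_al.CT
end

section

/-!
# Coherent trees, D02: stably induced idempotents
-/

set_option autoImplicit false
set_option linter.unusedVariables false
set_option linter.unusedSectionVars false

namespace Pool.Agent.Lib.MP_c052b4_al.CT

open Matrix

universe u v w

/-- A stably induced idempotent becomes, after adding an identity matrix, equivalent to an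
idempotent over the small ring.
Proof: `e ⊕ φ(p) ~ φ(q)` (`StabInd`). Add the complement `φ(1 - p)`: `φ(p) ⊕ φ(1 - p) ~ 1`
(`MvN.compl`, `KZero.one_sub_idem`), so `e ⊕ 1 ~ e ⊕ (φ(p) ⊕ φ(1 - p)) ~ (e ⊕ φ(p)) ⊕ φ(1 - p) ~
φ(q) ⊕ φ(1 - p) = φ(q ⊕ (1 - p))` (`MvN.blocks`, `MvN.blocks_assoc`, `MvN.refl`, `MvN.trans`,
`MvN.symm`, see StabInd.lean; the same argument is in `exists_split_block`, TR/K2c). Take
`μ₁ = Fin p.size`, `μ₂ = Fin q.size ⊕ Fin p.size`, `f = fromBlocks q 0 0 (1 - p)`. -/
theorem exists_split_of_stabInd {S : Type u} {T : Type v} [Ring S] [Ring T] (φ : S →+* T)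
    {ι : Type} [Fintype ι] [DecidableEq ι] {e : Matrix ι ι T} (he : e * e = e)
    (h : StabInd φ e) :
    ∃ (μ₁ μ₂ : Type) (_ : Fintype μ₁) (_ : DecidableEq μ₁) (_ : Fintype μ₂) (_ : DecidableEq μ₂)
      (f : Matrix μ₂ μ₂ S) (x : Matrix (ι ⊕ μ₁) μ₂ T) (y : Matrix μ₂ (ι ⊕ μ₁) T), f * f = f ∧
      x * y = fromBlocks e 0 0 1 ∧ y * x = f.map φ := by
  classical
  obtain ⟨a, b, hab⟩ := h
  have ia := map_idem a.idem φ
  have ib := map_idem b.idem φ
  have ia' := KZero.one_sub_idem ia
  have h2 : MvN (fromBlocks (fromBlocks e 0 0 (a.mat.map φ)) 0 0 (1 - a.mat.map φ))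
      (fromBlocks (b.mat.map φ) 0 0 (1 - a.mat.map φ)) :=
    MvN.blocks hab (MvN.refl ia')
  have h3 := MvN.blocks_assoc he ia ia'
  have h4 : MvN (fromBlocks e 0 0 (fromBlocks (a.mat.map φ) 0 0
      (1 - a.mat.map φ))) (fromBlocks e 0 0 1) :=
    MvN.blocks (MvN.refl he) (MvN.compl ia)
  have i1 : (1 : Matrix (Fin a.size) (Fin a.size) T) * 1 = 1 := by simp
  have h5 : MvN (fromBlocks e 0 0 (1 : Matrix (Fin a.size) (Fin a.size) T))
      (fromBlocks (b.mat.map φ) 0 0 (1 - a.mat.map φ)) := by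
    refine MvN.trans (blocks_idem he i1) (blocks_idem ib ia')
      (MvN.trans (blocks_idem he i1) (blocks_idem (blocks_idem he ia) ia') h4.symm h3.symm) h2
  have h6 : fromBlocks (b.mat.map φ) 0 0 (1 - a.mat.map φ) =
      (fromBlocks b.mat 0 0 (1 - a.mat)).map φ := by
    rw [VMon.map_add_blocks, Matrix.map_sub _ (map_sub φ), KZero.map_one_mat]
  rw [h6] at h5
  obtain ⟨x, y, hxy, hyx⟩ := h5
  exact ⟨Fin a.size, Fin b.size ⊕ Fin a.size, inferInstance, inferInstance, inferInstance,
    inferInstance, fromBlocks b.mat 0 0 (1 - a.mat), x, y,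
    blocks_idem b.idem (KZero.one_sub_idem a.idem), hxy, hyx⟩

/-- A module which is good becomes, after adding a free module, the image of a matrix whose kernel
is that of an idempotent over the small ring: for a matrix `M` whose kernel `rker M` is good there
are finite types `μ₁, μ₂`, an idempotent `f` over `S` and a matrix `A` such that the row space of `A`
is the kernel of the matrix `fromRows M 0` (kernel: `rker M × T ^ μ₁`), and the kernel of `A` is the
row space of `(1 - f)`.
Proof: `Good φ (rker M)`: an isomorphism `θ : img e ≃ rker M` with `e = p.mat` idempotent and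
`StabInd φ e`. Let `x, y, f` be as in `exists_split_of_stabInd`. The linear map
`a : (μ₂ → T) → (κ ⊕ μ₁ → T)`, `a v = (θ ((v ᵥ* y) restricted to ι, ᵥ* e), (v ᵥ* y) restricted to
μ₁)` is given by a matrix `A` (`exists_mat`, TR/PDp; or
`LinearMap.toMatrixRight'`). `vecMul v A = 0` iff `v ᵥ* y ᵥ* (e ⊕ 1) = 0` iff
`v ᵥ* (y * x * y) = 0` iff `v ᵥ* f.map φ = 0` (multiply with `x`, `f` idempotent) iff
`v = v ᵥ* (1 - f).map φ`. Its image: all `(θ (w₁ ᵥ* e), w₂)`, because `w ᵥ* (e ⊕ 1) =
(w ᵥ* x) ᵥ* y` for all `w`, so with `v = w ᵥ* x` one has `v ᵥ* y = w ᵥ* (e ⊕ 1)`. -/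
theorem exists_mat_of_good {S : Type u} {T : Type u} [Ring S] [Ring T] (φ : S →+* T)
    {κ l : Type} [Fintype κ] [DecidableEq κ] [Fintype l] (M : Matrix κ l T)
    (h : Good φ (LinearMap.ker (Matrix.vecMulLinear M))) :
    ∃ (μ₁ μ₂ : Type) (_ : Fintype μ₁) (_ : DecidableEq μ₁) (_ : Fintype μ₂) (_ : DecidableEq μ₂)
      (f : Matrix μ₂ μ₂ S) (A : Matrix μ₂ (κ ⊕ μ₁) T), f * f = f ∧
      A * fromRows M (0 : Matrix μ₁ l T) = 0 ∧
      (∀ x, Matrix.vecMul x (fromRows M (0 : Matrix μ₁ l T)) = 0 → ∃ z, Matrix.vecMul z A = x) ∧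
      (1 - f).map φ * A = 0 ∧
      (∀ x, Matrix.vecMul x A = 0 → ∃ z, Matrix.vecMul z ((1 - f).map φ) = x) := by
  classical
  obtain ⟨p, ⟨θ⟩, hp⟩ := h
  obtain ⟨μ₁, μ₂, _, _, _, _, f, x, y, hf, hxy, hyx⟩ := exists_split_of_stabInd φ p.idem hp
  set e := p.mat with he
  have hee : e * e = e := p.idem
  let θ' : (Fin p.size → T) →ₗ[T] (κ → T) :=
    (LinearMap.ker (Matrix.vecMulLinear M)).subtype ∘ₗ θ.toLinearMap ∘ₗ
      (Matrix.vecMulLinear e).rangeRestrict
  obtain ⟨Θ, hΘ⟩ : ∃ Θ : Matrix (Fin p.size) κ T, ∀ v, v ᵥ* Θ = θ' v := by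
    refine ⟨LinearMap.toMatrixRight' θ', fun v => ?_⟩
    have := LinearMap.toMatrixRight'.symm_apply_apply θ'
    exact LinearMap.congr_fun this v
  have hθ : ∀ v, θ' v = (θ ⟨v ᵥ* e, v, rfl⟩ : κ → T) := fun v => rfl
  have hΘe : e * Θ = Θ := by
    refine Matrix.ext_of_single_vecMul fun i => ?_
    rw [← Matrix.vecMul_vecMul, hΘ, hΘ, hθ, hθ]
    congr 2
    apply Subtype.ext
    change (Pi.single i 1 ᵥ* e) ᵥ* e = Pi.single i 1 ᵥ* e
    rw [Matrix.vecMul_vecMul, hee]
  have hΘM : Θ * M = 0 := by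
    refine Matrix.ext_of_single_vecMul fun i => ?_
    rw [← Matrix.vecMul_vecMul, hΘ, hθ, Matrix.vecMul_zero]
    exact (θ _).2
  obtain ⟨B, hB⟩ : ∃ B : Matrix (Fin p.size ⊕ μ₁) (κ ⊕ μ₁) T, B = fromBlocks Θ 0 0 1 :=
    ⟨_, rfl⟩
  obtain ⟨A, hA⟩ : ∃ A : Matrix μ₂ (κ ⊕ μ₁) T, A = y * B := ⟨_, rfl⟩
  refine ⟨μ₁, μ₂, inferInstance, inferInstance, inferInstance, inferInstance, f,
    A, hf, ?_, ?_, ?_, ?_⟩
  · rw [hA, hB, Matrix.mul_assoc, Matrix.fromBlocks_mul_fromRows, hΘM]
    simp
  · intro x' hx'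
    have h1 : (x' ∘ Sum.inl) ᵥ* M = 0 := by
      have h2 : x' ᵥ* fromRows M (0 : Matrix μ₁ l T) = (x' ∘ Sum.inl) ᵥ* M := by
        rw [Matrix.vecMul_fromRows]
        simp
      rw [← h2, hx']
    obtain ⟨u, hu⟩ := θ.surjective ⟨x' ∘ Sum.inl, h1⟩
    have hu2 : (u : Fin p.size → T) ᵥ* e = u := (mem_img hee).1 u.2
    refine ⟨Sum.elim (u : Fin p.size → T) (x' ∘ Sum.inr) ᵥ* x, ?_⟩
    rw [hA, hB, Matrix.vecMul_vecMul, ← Matrix.mul_assoc, hxy, Matrix.fromBlocks_multiply,
      Matrix.vecMul_fromBlocks]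
    simp only [Sum.elim_comp_inl, Sum.elim_comp_inr, Matrix.zero_mul, Matrix.mul_zero,
      Matrix.mul_one, add_zero, zero_add, Matrix.vecMul_zero, Matrix.vecMul_one, hΘe]
    have h4 : (u : Fin p.size → T) ᵥ* Θ = x' ∘ Sum.inl := by
      rw [hΘ, hθ]
      have h5 : (⟨(u : Fin p.size → T) ᵥ* e, (u : Fin p.size → T), rfl⟩ : img e) = u :=
        Subtype.ext hu2
      rw [h5, hu]
    rw [h4, Sum.elim_comp_inl_inr]
  · have h1 : (1 - f).map φ = 1 - y * x := by
      rw [Matrix.map_sub _ (map_sub φ), KZero.map_one_mat, hyx]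
    rw [h1, Matrix.sub_mul, Matrix.one_mul, sub_eq_zero]
    have h2 : y * x * A = y * ((x * y) * B) := by
      rw [hA]
      simp only [Matrix.mul_assoc]
    rw [h2, hxy, hA, hB, Matrix.fromBlocks_multiply]
    simp only [Matrix.zero_mul, Matrix.mul_zero, Matrix.mul_one, add_zero, zero_add, hΘe]
  · intro x' hx'
    refine ⟨x', ?_⟩
    have h1 : (1 - f).map φ = 1 - f.map φ := by
      rw [Matrix.map_sub _ (map_sub φ), KZero.map_one_mat]
    rw [h1, Matrix.vecMul_sub, Matrix.vecMul_one, sub_eq_self]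
    set w := x' ᵥ* y with hw
    rw [hA, ← Matrix.vecMul_vecMul, ← hw, hB, Matrix.vecMul_fromBlocks] at hx'
    simp only [Matrix.vecMul_zero, Matrix.vecMul_one, add_zero, zero_add] at hx'
    have h2 : (w ∘ Sum.inl) ᵥ* Θ = 0 := by
      funext i
      exact congrFun hx' (Sum.inl i)
    have h3 : w ∘ Sum.inr = 0 := by
      funext i
      exact congrFun hx' (Sum.inr i)
    have h4 : (w ∘ Sum.inl) ᵥ* e = 0 := by
      rw [hΘ, hθ] at h2
      have h5 : θ ⟨(w ∘ Sum.inl) ᵥ* e, w ∘ Sum.inl, rfl⟩ = 0 := Subtype.ext h2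
      have h6 := θ.injective (h5.trans (map_zero θ).symm)
      exact congrArg Subtype.val h6
    have h7 : w ᵥ* (x * y) = 0 := by
      rw [hxy, Matrix.vecMul_fromBlocks, h4, h3]
      funext i
      rcases i with i | i <;> simp
    have h8 : x' ᵥ* (f.map φ * f.map φ) = 0 := by
      have h9 : f.map φ * f.map φ = y * ((x * y) * x) := by
        rw [← hyx]
        simp only [Matrix.mul_assoc]
      rw [h9, ← Matrix.vecMul_vecMul, ← hw, ← Matrix.vecMul_vecMul, h7, Matrix.zero_vecMul]
    rw [map_idem hf φ] at h8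
    exact h8

end Pool.Agent.Lib.MP_c052b4_al.CT
end

section

/-!
# Coherent trees, J01: labels of products of trees
-/

set_option autoImplicit false
set_option linter.unusedVariables false
set_option linter.unusedSectionVars false

namespace Pool.Agent.Lib.MP_c052b4_al.CT

open MulAction
open Pool.Agent.Lib.MP_c052b4_al.MT

universe u

variable {G : Type u} [Group G] {J : Type} {V : J → Type u} [∀ a, MulAction G (V a)]

/-- The labels of a product of trees. -/
theorem ordL_tree [Finite J] (T : ∀ a, TreeAction G (V a)) :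
    OrdL (UL (fun a => dirOf (T a)) Set.univ) where
  antisymm x y h h' := funext fun a =>
    le_antisymm (α := STree (T a)) (h a (Set.mem_univ a)) (h' a (Set.mem_univ a))
  lower y := by
    have h1 : {f : ∀ a, (dirOf (T a)).Y | ∀ a, f a ∈ {s : (dirOf (T a)).Y |
        s ≤ (y : ∀ a, (dirOf (T a)).Y) a}}.Finite :=
      Set.Finite.pi' fun a => finite_le_label T a _
    exact h1.subset fun x hx a => hx a (Set.mem_univ a)

/-- The common stabilizer of a family of vertices. -/
def cst (G : Type u) [Group G] {V : J → Type u} [∀ a, MulAction G (V a)] (x : ∀ a, V a) :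
    Subgroup G where
  carrier := {g | ∀ a, g • x a = x a}
  mul_mem' {g h} hg hh a := by rw [mul_smul, hh a, hg a]
  one_mem' a := one_smul G _
  inv_mem' {g} hg a := by
    have h1 := congrArg (fun y => g⁻¹ • y) (hg a)
    change g⁻¹ • g • x a = g⁻¹ • x a at h1
    rw [inv_smul_smul] at h1
    exact h1.symm

theorem mem_cst {x : ∀ a, V a} {g : G} : g ∈ cst G x ↔ ∀ a, g • x a = x a := Iff.rfl

end Pool.Agent.Lib.MP_c052b4_al.CT
end
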