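import Pool.Agent.Lib.MP_c052b4_al.Mg.G021
import Pool.Agent.Lib.MP_c052b4_al.Mg.G026
import Pool.Agent.Lib.MP_c052b4_al.Mg.G020
import Pool.Agent.Lib.MP_c052b4_al.Mg.G050
import Pool.Agent.Lib.MP_c052b4_al.Mg.G032
import Pool.Agent.Lib.MP_c052b4_al.Mg.G069
import Pool.Agent.Lib.MP_c052b4_al.Mg.G035
import Pool.Agent.Lib.MP_c052b4_al.Mg.G030

section

/-!
# TREES^n, section 4, H05: strict finite models
-/

set_option autoImplicit false
set_option linter.unusedVariables false

namespace Pool.Agent.Lib.MP_c052b4_al.MT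

open CategoryTheory Limits Pretriangulated

universe u

variable {G : Type u} [Group G] {L : Lbl G}

/-- **(4.8)** Over a regular ring every dominated complex at the top level has a strict finite model.
Proof: `EV X` is bounded, its homology is of finite type, so it is in `SA` (`sa_ft`); by
`prop_of_homology` `EV X` is in `SD`: `EV X ≅ EV X'` with `X'` in `Str`, and `X ≅ X'` by
`iso_of_EV`. -/
theorem str_of_dom {S : Type u} [Ring S] (hS : Reg S) (hL : TopL L) {X : KV S L}
    (hX : Dom S L X) : Str S L X := by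
  have hN : IsNoetherianRing S := hS.1
  have hb := bounded_EV hX
  have hh := ft_homology hL hX
  have h : SD S L ((EV S L).obj X) :=
    prop_of_homology (SD S L) _ hb (fun q => sa_ft hS hL _ (hh q))
  obtain ⟨X', hX', ⟨e⟩⟩ := h
  obtain ⟨e', _⟩ := iso_of_EV (str_le_dom _ hX') hX e
  exact (Str S L).prop_of_iso e' hX'

end Pool.Agent.Lib.MP_c052b4_al.MT
end

section

/-!
# Coherent trees, A02: matrices over the group ring of a stabilizer as morphisms (definitions)
-/

set_option autoImplicit false
set_option linter.unusedVariables false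
set_option linter.unusedSectionVars false

namespace Pool.Agent.Lib.MP_c052b4_al.CT

open CategoryTheory Opposite
open Pool.Agent.Lib.MP_c052b4_al.MT

universe u

variable {S : Type u} [Ring S] {G : Type u} [Group G] {L : Lbl G}

/-- The group ring of the stabilizer of a label. -/
abbrev CR (S : Type u) [Ring S] {G : Type u} [Group G] {L : Lbl G} (y : L.W) : Type u :=
  MonoidAlgebra S (MulAction.stabilizer G y)

/-- The inclusion of the group ring of the stabilizer. -/
noncomputable abbrev inY (S : Type u) [Ring S] {G : Type u} [Group G] {L : Lbl G} (y : L.W) :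
    CR S y →+* MonoidAlgebra S G := inc S (MulAction.stabilizer G y).subtype

/-- The labelled module with basis `κ`, all basis elements with the label `y`. -/
@[reducible]
def cK (S : Type u) [Ring S] {G : Type u} [Group G] {L : Lbl G} (κ : Type) (y : L.W) : VCat S L :=
  constV S (ULift.{u} κ) y

/-- A row vector over the group ring of the stabilizer. -/
noncomputable def vf {κ : Type} [Fintype κ] {y : L.W} (x : κ → CR S y) : (cK S κ y).M :=
  Finsupp.equivFunOnFinite.symm fun j : ULift.{u} κ => inY S y (x j.down)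

theorem vf_apply {κ : Type} [Fintype κ] {y : L.W} (x : κ → CR S y) (j : ULift.{u} κ) :
    vf x j = inY S y (x j.down) := rfl

theorem coeff_inY_mem {y : L.W} (a : CR S y) {g : G} (hg : (inY S y a).coeff g ≠ 0) :
    g • y = y := by
  by_contra h
  refine hg (coeff_inc_of_notMem (MulAction.stabilizer G y).subtype a g ?_)
  rintro ⟨s, rfl⟩
  exact h s.2

theorem vf_mem {κ : Type} [Fintype κ] {y : L.W} (x : κ → CR S y) : vf x ∈ (cK S κ y).fil y := by
  intro j g hg
  rw [vf_apply] at hg
  show L.le y (g • y)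
  rw [coeff_inY_mem _ hg]
  exact L.refl y

/-- A matrix over the group ring of the stabilizer as a morphism. -/
noncomputable def cy {κ l : Type} [Fintype κ] [Fintype l] {y : L.W} (M : Matrix κ l (CR S y)) :
    cK S κ y ⟶ cK S l y :=
  VCat.ofBasis (X := cK S κ y) (Y := cK S l y) fun i : ULift.{u} κ =>
    ⟨vf (M i.down), vf_mem (M i.down)⟩

theorem lin_cy_e {κ l : Type} [Fintype κ] [Fintype l] {y : L.W} (M : Matrix κ l (CR S y))
    (i : ULift.{u} κ) : VCat.lin (cy M) ((cK S κ y).e i) = vf (M i.down) :=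
  VCat.lin_ofBasis_e _ _

end Pool.Agent.Lib.MP_c052b4_al.CT
end

section

/-!
# Coherent trees, A03: matrices over the group ring of a stabilizer as morphisms (calculus)
-/

set_option autoImplicit false
set_option linter.unusedVariables false
set_option linter.unusedSectionVars false

namespace Pool.Agent.Lib.MP_c052b4_al.CT

open CategoryTheory Opposite
open Pool.Agent.Lib.MP_c052b4_al.MT

universe u

variable {S : Type u} [Ring S] {G : Type u} [Group G] {L : Lbl G} {κ l m : Type} [Fintype κ]
  [Fintype l] [Fintype m] {y : L.W}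

/-- `vf` is injective. -/
theorem vf_injective : Function.Injective (vf : (κ → CR S y) → (cK S κ y).M) := by
  intro x x' h
  funext j
  have h1 := DFunLike.congr_fun h (⟨j⟩ : ULift.{u} κ)
  rw [vf_apply, vf_apply] at h1
  exact inc_injective _ (Subgroup.subtype_injective _) h1

theorem vf_zero : vf (0 : κ → CR S y) = 0 := by
  refine Finsupp.ext fun j => ?_
  rw [vf_apply, Pi.zero_apply, map_zero, Finsupp.zero_apply]

/-- Every vector of the filtration step at `y` comes from a vector over the group ring of the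
stabilizer. -/
theorem exists_vf (hL : OrdL L) (v : (cK S κ y).M) (hv : v ∈ (cK S κ y).fil y) :
    ∃ x : κ → CR S y, vf x = v := by
  have hinj : Function.Injective (MulAction.stabilizer G y).subtype := Subgroup.subtype_injective _
  refine ⟨fun j => rs S (MulAction.stabilizer G y).subtype hinj (v ⟨j⟩), ?_⟩
  refine Finsupp.ext fun j => ?_
  rw [vf_apply]
  ext g
  by_cases hg : g ∈ (MulAction.stabilizer G y).subtype.range
  · obtain ⟨k, rfl⟩ := hg
    exact (coeff_inc _ hinj _ _).trans (coeff_rs _ hinj _ _)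
  · refine (coeff_inc_of_notMem _ _ g hg).trans ?_
    by_contra h
    apply hg
    exact ⟨⟨g, hL.fix (hv j g fun h' => h h'.symm)⟩, rfl⟩

theorem a03_apply {Y : VCat S L} (f : cK S κ y ⟶ Y) (v : (cK S κ y).M) :
    VCat.lin f v = ∑ i : κ, v ⟨i⟩ • VCat.lin f ((cK S κ y).e ⟨i⟩) := by
  have h1 : v = ∑ i : ULift.{u} κ, v i • (cK S κ y).e i := by
    conv_lhs => rw [← Finsupp.univ_sum_single v]
    refine Finset.sum_congr rfl fun i _ => ?_
    unfold VCat.e
    rw [Finsupp.smul_single, smul_eq_mul, mul_one]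
  conv_lhs => rw [h1]
  rw [map_sum, ← Equiv.sum_comp Equiv.ulift.symm]
  refine Finset.sum_congr rfl fun i _ => ?_
  rw [map_smul]
  rfl

private theorem a03_apply' (M : Matrix κ l (CR S y)) (v : (cK S κ y).M) (j : ULift.{u} l) :
    VCat.lin (cy M) v j = ∑ i : κ, v ⟨i⟩ * inY S y (M i j.down) := by
  rw [a03_apply, Finsupp.finsetSum_apply]
  refine Finset.sum_congr rfl fun i _ => ?_
  rw [lin_cy_e, Finsupp.smul_apply, vf_apply, smul_eq_mul]

/-- `cy M` on the vectors over the group ring of the stabilizer. -/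
theorem lin_cy_vf (M : Matrix κ l (CR S y)) (x : κ → CR S y) :
    VCat.lin (cy M) (vf x) = vf (Matrix.vecMul x M) := by
  refine Finsupp.ext fun j => ?_
  rw [a03_apply', vf_apply]
  change _ = inY S y (∑ i, x i * M i j.down)
  rw [map_sum]
  refine Finset.sum_congr rfl fun i _ => ?_
  rw [vf_apply, map_mul]

/-- The same for arbitrary vectors: coordinates. -/
theorem lin_cy_apply (M : Matrix κ l (CR S y)) (v : (cK S κ y).M) (j : ULift.{u} l) :
    VCat.lin (cy M) v j = ∑ i : κ, v ⟨i⟩ * inY S y (M i j.down) := a03_apply' M v j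

/-- Products of matrices. -/
theorem cy_mul (A : Matrix κ l (CR S y)) (B : Matrix l m (CR S y)) :
    cy (A * B) = cy A ≫ cy B := by
  refine VCat.ext_e fun i => ?_
  rw [VCat.lin_comp, LinearMap.comp_apply, lin_cy_e, lin_cy_e, lin_cy_vf]
  rfl

theorem cy_zero : cy (0 : Matrix κ l (CR S y)) = 0 := by
  refine VCat.ext_e fun i => ?_
  rw [lin_cy_e, VCat.lin_zero, LinearMap.zero_apply]
  exact vf_zero

theorem cy_one [DecidableEq κ] : cy (1 : Matrix κ κ (CR S y)) = 𝟙 _ := by
  refine VCat.ext_e fun i => ?_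
  rw [lin_cy_e, VCat.lin_id, LinearMap.id_apply]
  refine Finsupp.ext fun j => ?_
  classical
  rw [vf_apply]
  unfold VCat.e
  rw [Finsupp.single_apply, Matrix.one_apply]
  by_cases h : i = j
  · subst h
    rw [if_pos rfl, if_pos rfl, map_one]
  · rw [if_neg h, if_neg fun h' => h (ULift.ext _ _ h'), map_zero]

theorem cy_sub (A B : Matrix κ l (CR S y)) : cy (A - B) = cy A - cy B := by
  refine VCat.ext_e fun i => ?_
  rw [VCat.lin_sub, LinearMap.sub_apply, lin_cy_e, lin_cy_e, lin_cy_e]
  refine Finsupp.ext fun j => ?_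
  rw [Finsupp.sub_apply, vf_apply, vf_apply, vf_apply, ← map_sub]
  rfl

/-- Every morphism is given by a matrix. -/
theorem exists_cy (hL : OrdL L) (g : cK S κ y ⟶ cK S l y) :
    ∃ M : Matrix κ l (CR S y), cy M = g := by
  have h : ∀ i : κ, ∃ x : l → CR S y, vf x = VCat.lin g ((cK S κ y).e ⟨i⟩) := fun i =>
    exists_vf hL _ (VCat.lin_mem g ((cK S κ y).e_mem ⟨i⟩))
  choose M hM using h
  refine ⟨Matrix.of M, VCat.ext_e fun i => ?_⟩
  rw [lin_cy_e]
  exact hM i.down

/-- A morphism lifts through `ψ` if `ψ` is surjective at `y`. -/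
theorem exists_lift {F : VCat S L} (ψ : cK S l y ⟶ F)
    (hψ : Function.Surjective (VCat.evHom ψ y)) (t : cK S κ y ⟶ F) :
    ∃ g : cK S κ y ⟶ cK S l y, g ≫ ψ = t := by
  have h : ∀ i : ULift.{u} κ, ∃ w : (cK S l y).fil y,
      VCat.lin ψ (w : (cK S l y).M) = VCat.lin t ((cK S κ y).e i) := fun i => by
    obtain ⟨w, hw⟩ := hψ ⟨VCat.lin t ((cK S κ y).e i), VCat.lin_mem t ((cK S κ y).e_mem i)⟩
    exact ⟨w, congrArg Subtype.val hw⟩
  choose w hw using h
  refine ⟨VCat.ofBasis (X := cK S κ y) (Y := cK S l y) w, VCat.ext_e fun i => ?_⟩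
  rw [VCat.lin_comp, LinearMap.comp_apply, VCat.lin_ofBasis_e, hw]

end Pool.Agent.Lib.MP_c052b4_al.CT
end

section

/-!
# Coherent trees, A05: filtration steps are free over the group ring of the stabilizer
-/

set_option autoImplicit false
set_option linter.unusedVariables false
set_option linter.unusedSectionVars false

namespace Pool.Agent.Lib.MP_c052b4_al.CT

open CategoryTheory Opposite
open Pool.Agent.Lib.MP_c052b4_al.MT

universe u

variable {S : Type u} [Ring S] {G : Type u} [Group G] {L : Lbl G}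

/-- **The filtration step of a finite object at `y` is a free module over the group ring of the
stabilizer of `y`, with a finite basis of elements `g e_i`.**
Proof: let `H` be the stabilizer of `y`, `T i = {z : L.W | (∃ g, g⁻¹ • y = z) ∧ L.le z (F.l i)}`, a
finite set (`hL.lower`). The index set is `Σ i, T i`, finite, so equivalent to `Fin k`. For
`p = (i, z)` choose `γ p : G` with `(γ p)⁻¹ • y = z`; then `y ≤ γ p • F.l i`, and `ψ` maps the basis
element `p` to `single i (single (γ p) 1)`, which is in `F.fil y`.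
Formula: for `v ∈ fil y` of the source (its coefficients are supported in `H` by `OrdL.fix`) and
`g : G` the coefficient of `lin ψ v` at `(i, g)` is `∑ z, (v (i, z)).coeff (g (γ (i, z))⁻¹)`, and a
summand can only be nonzero if `g (γ (i, z))⁻¹ = h ∈ H`, i.e. `g⁻¹ y = (γ (i, z))⁻¹ y = z`. So for
`p = (i, z)` and `h ∈ H` we get `(lin ψ v i).coeff (h * γ p) = (v p).coeff h`: this gives injectivity.
Surjectivity: for `u ∈ F.fil y` let `v p` be the element of `S[G]` supported in `H` with
`(v p).coeff h = (u i).coeff (h * γ p)`. If `(u i).coeff g ≠ 0` then `y ≤ g • F.l i`, so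
`z = g⁻¹ y ∈ T i` and `g = h * γ (i, z)` with `h ∈ H`; so `lin ψ v = u`. -/
theorem exists_psi (hL : OrdL L) (F : VCat S L) (hF : Finite F.I) (y : L.W) :
    ∃ (k : ℕ) (ψ : cK S (Fin k) y ⟶ F), Function.Bijective (VCat.evHom ψ y) := by
  classical
  let T : F.I → Set L.W := fun i => {z | (∃ g : G, g⁻¹ • y = z) ∧ L.le z (F.l i)}
  have hT : ∀ i, Finite (T i) := fun i =>
    ((hL.lower (F.l i)).subset fun z hz => hz.2).to_subtype
  have hP : Finite (Σ i, T i) := inferInstance
  obtain ⟨k, ⟨e⟩⟩ := Finite.exists_equiv_fin (Σ i, T i)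
  choose γ hγ using fun p : (Σ i, T i) => p.2.2.1
  let P : ULift.{u} (Fin k) → (Σ i, T i) := fun j => e.symm j.down
  have hmem : ∀ j : ULift.{u} (Fin k), (Finsupp.single (P j).1
      (MonoidAlgebra.single (γ (P j)) (1 : S)) : F.M) ∈ F.fil y := by
    intro j i g hg
    rw [Finsupp.single_apply] at hg
    split_ifs at hg with h1
    · rw [MonoidAlgebra.coeff_single, Finsupp.single_apply] at hg
      split_ifs at hg with h2
      · rw [← h1, ← h2]
        have h3 := L.smul (γ (P j)) (P j).2.2.2
        rwa [← hγ (P j), smul_inv_smul] at h3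
      · exact absurd rfl hg
    · exact absurd (by simp) hg
  let ψ : cK S (Fin k) y ⟶ F := VCat.ofBasis (X := cK S (Fin k) y) (Y := F)
    fun j : ULift.{u} (Fin k) => ⟨_, hmem j⟩
  have hform : ∀ (v : (cK S (Fin k) y).M) (i : F.I) (g : G), (VCat.lin ψ v i).coeff g =
      ∑ j : ULift.{u} (Fin k), if (P j).1 = i then (v j).coeff (g * (γ (P j))⁻¹) else 0 := by
    intro v i g
    have h1 : VCat.lin ψ v = ∑ j : ULift.{u} (Fin k), v j • (Finsupp.single (P j).1
        (MonoidAlgebra.single (γ (P j)) (1 : S)) : F.M) := by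
      change Finsupp.linearCombination (MonoidAlgebra S G) _ v = _
      rw [Finsupp.linearCombination_apply]
      exact Finsupp.sum_fintype _ _ (fun j => zero_smul _ _)
    rw [h1, Finsupp.finsetSum_apply, MonoidAlgebra.coeff_sum, Finsupp.finsetSum_apply]
    refine Finset.sum_congr rfl fun j _ => ?_
    rw [Finsupp.smul_apply, Finsupp.single_apply]
    split_ifs with h2
    · rw [smul_eq_mul, MonoidAlgebra.coeff_mul_single_apply, mul_one]
    · rw [smul_zero]
      rfl
  have hsup : ∀ (v : (cK S (Fin k) y).M), v ∈ (cK S (Fin k) y).fil y →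
      ∀ j g, (v j).coeff g ≠ 0 → g • y = y := fun v hv j g hg => hL.fix (hv j g hg)
  have hext : ∀ (v : (cK S (Fin k) y).M), v ∈ (cK S (Fin k) y).fil y →
      ∀ (j : ULift.{u} (Fin k)) (h : G), h • y = y →
        (VCat.lin ψ v (P j).1).coeff (h * γ (P j)) = (v j).coeff h := by
    intro v hv j h hh
    rw [hform, Finset.sum_eq_single j]
    · rw [if_pos rfl, mul_inv_cancel_right]
    · intro j' _ hj'
      split_ifs with h1
      · by_contra h2
        have h3 := hsup v hv j' _ h2
        apply hj'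
        have h4 : (γ (P j'))⁻¹ • y = (γ (P j))⁻¹ • y := by
          have h5 : h⁻¹ • y = y := by
            rw [inv_smul_eq_iff, hh]
          have h6 : (γ (P j))⁻¹ • h⁻¹ • (h * γ (P j) * (γ (P j'))⁻¹) • y =
              (γ (P j))⁻¹ • h⁻¹ • y := by rw [h3]
          rw [h5, ← mul_smul, ← mul_smul] at h6
          rwa [show (γ (P j))⁻¹ * h⁻¹ * (h * γ (P j) * (γ (P j'))⁻¹) = (γ (P j'))⁻¹ by group] at h6
        rw [hγ, hγ] at h4
        have h7 : P j' = P j := by
          apply Sigma.ext h1
          have h8 : ∀ (a b : F.I) (hab : a = b) (s : T a) (t : T b), (s : L.W) = t → s ≍ t := by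
            rintro a b rfl s t hst
            exact heq_of_eq (Subtype.ext hst)
          exact h8 _ _ h1 _ _ h4
        exact ULift.down_injective (e.symm.injective h7)
      · rfl
    · intro h1
      exact absurd (Finset.mem_univ _) h1
  refine ⟨k, ψ, ?_, ?_⟩
  · rw [injective_iff_map_eq_zero]
    intro v hv
    have h0 : VCat.lin ψ v = 0 := congrArg Subtype.val hv
    apply Subtype.ext
    ext j g
    by_contra h1
    have h1' : ((v : (cK S (Fin k) y).M) j).coeff g ≠ 0 := h1
    have h2 := hsup v v.2 j g h1'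
    rw [← hext v v.2 j g h2, h0] at h1'
    exact h1' rfl
  · intro u
    have hf : Function.Injective (MulAction.stabilizer G y).subtype := Subtype.val_injective
    let x : Fin k → CR S y := fun j => rs S (MulAction.stabilizer G y).subtype hf
      ((u : F.M) (P ⟨j⟩).1 * MonoidAlgebra.single (γ (P ⟨j⟩))⁻¹ 1)
    have hx : ∀ (j : ULift.{u} (Fin k)) (h : G), h • y = y →
        (vf x j).coeff h = ((u : F.M) (P j).1).coeff (h * γ (P j)) := by
      intro j h hh
      rw [vf_apply]
      have h1 := coeff_inc (MulAction.stabilizer G y).subtype hf (x j.down) ⟨h, hh⟩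
      refine Eq.trans h1 ?_
      change (rs S (MulAction.stabilizer G y).subtype hf _).coeff _ = _
      rw [coeff_rs, MonoidAlgebra.coeff_mul_single_apply, inv_inv, mul_one]
      rfl
    refine ⟨⟨vf x, vf_mem x⟩, Subtype.ext ?_⟩
    change VCat.lin ψ (vf x) = u
    ext i g
    by_cases hg : ∃ j : ULift.{u} (Fin k), (P j).1 = i ∧ (g * (γ (P j))⁻¹) • y = y
    · obtain ⟨j, rfl, h2⟩ := hg
      have h3 := hext (vf x) (vf_mem x) j _ h2
      rw [hx j _ h2, inv_mul_cancel_right] at h3
      exact h3
    · have h1 : (VCat.lin ψ (vf x) i).coeff g = 0 := by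
        rw [hform]
        refine Finset.sum_eq_zero fun j _ => ?_
        split_ifs with h2
        · by_contra h3
          exact hg ⟨j, h2, hsup _ (vf_mem x) j _ h3⟩
        · rfl
      have h2 : ((u : F.M) i).coeff g = 0 := by
        by_contra h3
        have h4 := u.2 i g h3
        have h5 := L.smul g⁻¹ h4
        rw [inv_smul_smul] at h5
        let p : Σ i, T i := ⟨i, ⟨g⁻¹ • y, ⟨g, rfl⟩, h5⟩⟩
        refine hg ⟨⟨e p⟩, ?_, ?_⟩
        · change (e.symm (e p)).1 = i
          rw [Equiv.symm_apply_apply]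
        · change (g * (γ (e.symm (e p)))⁻¹) • y = y
          rw [Equiv.symm_apply_apply, mul_smul, hγ p]
          exact smul_inv_smul _ _
      exact h1.trans h2.symm

end Pool.Agent.Lib.MP_c052b4_al.CT
end

section

/-!
# Coherent trees, A04: exact sequences of matrices give exact sequences of filtration steps
-/

set_option autoImplicit false
set_option linter.unusedVariables false
set_option linter.unusedSectionVars false

namespace Pool.Agent.Lib.MP_c052b4_al.CT

open CategoryTheory Opposite
open Pool.Agent.Lib.MP_c052b4_al.MT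

universe u

variable {S : Type u} [Ring S] {G : Type u} [Group G] {L : Lbl G}

/-- **Exactness.** If the kernel of the matrix `B` (acting on row vectors over the group ring of the
stabilizer of `y`) is the row space of `A`, then for every label `x` the kernel of `cy B` on the
filtration step at `x` is the image of the filtration step at `x` under `cy A`.
Proof: let `H` be the stabilizer, `D = rfreeG H.subtype _ : RFree (inY S y) _` (TR/PGrp): `S[G]` is a
free right module over `S[H]`, with basis `D.u q` (group elements, one for each coset `g H`) and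
coordinates `D.ρ q`. Write `v` as a function `v' : l → S[G]`. By `D.dec_vec`
`v' = ∑ q ∈ T, D.u q • vm φ (D.rv q v')`. By `D.rv_vecMul` (and `lin_cy_apply`) the vector
`D.rv q v'` satisfies `vecMul (D.rv q v') B = D.rv q (v' ᵥ* B.map φ) = 0`, so it is `vecMul (z q) A`;
choose `z q = 0` if `D.rv q v' = 0`. Let `w' = ∑ q ∈ T, D.u q • vm φ (z q)`; then
`lin (cy A) w = v`. It remains to see `w ∈ fil x`: the coefficient of `D.u q • vm φ (z q)` can only be
nonzero at elements `g_q h` with `h ∈ H` (`g_q` the group element of `D.u q`), and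
`g_q h y = g_q y`. If `z q ≠ 0` then `D.rv q v' ≠ 0`, so `v` has a nonzero coefficient at some
`g_q h'` with `h' ∈ H`, whence `x ≤ g_q h' y = g_q y`.
(Instead of `rfreeG` one may use the coset decomposition by hand, e.g. with
`rscv`, `finite_rscv`, `coeff_rsc`, `coeff_part` of TR/PGrp.) -/
theorem cy_exact {κ l m : Type} [Fintype κ] [Fintype l] [Fintype m] {y : L.W}
    (A : Matrix κ l (CR S y)) (B : Matrix l m (CR S y))
    (hAB : ∀ x : l → CR S y, Matrix.vecMul x B = 0 → ∃ z, Matrix.vecMul z A = x)
    (x : L.W) (v : (cK S l y).M) (hv : v ∈ (cK S l y).fil x) (h0 : VCat.lin (cy B) v = 0) :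
    ∃ w ∈ (cK S κ y).fil x, VCat.lin (cy A) w = v := by
  classical
  have hf : Function.Injective (MulAction.stabilizer G y).subtype := Subtype.val_injective
  let D := rfreeG (R := S) (MulAction.stabilizer G y).subtype hf
  let v' : l → MonoidAlgebra S G := fun j => v ⟨j⟩
  have hB : Matrix.vecMul v' (B.map (inY S y)) = 0 := by
    funext j
    have h1 := lin_cy_apply B v ⟨j⟩
    rw [h0] at h1
    exact h1.symm
  have hq : ∀ q, Matrix.vecMul (D.rv q v') B = 0 := by
    intro q
    rw [← D.rv_vecMul, hB]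
    funext j
    exact map_zero (D.ρ q)
  have hz : ∀ q, ∃ z, Matrix.vecMul z A = D.rv q v' ∧ (D.rv q v' = 0 → z = 0) := by
    intro q
    by_cases h : D.rv q v' = 0
    · exact ⟨0, by rw [Matrix.zero_vecMul, h], fun _ => rfl⟩
    · obtain ⟨z, hz⟩ := hAB _ (hq q)
      exact ⟨z, hz, fun h' => absurd h' h⟩
  choose z hz1 hz2 using hz
  obtain ⟨T, hT⟩ := D.dec_vec v'
  let w' : κ → MonoidAlgebra S G := ∑ q ∈ T, D.u q • vm (inY S y) (z q)
  have hw' : Matrix.vecMul w' (A.map (inY S y)) = v' := by
    rw [hT]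
    have h1 : Matrix.vecMul w' (A.map (inY S y)) =
        ∑ q ∈ T, D.u q • Matrix.vecMul (vm (inY S y) (z q)) (A.map (inY S y)) := by
      funext j
      simp only [w', Matrix.vecMul, dotProduct, Finset.sum_apply, Pi.smul_apply, smul_eq_mul,
        Finset.sum_mul, Finset.mul_sum, mul_assoc]
      rw [Finset.sum_comm]
    rw [h1]
    refine Finset.sum_congr rfl fun q _ => ?_
    rw [← vm_vecMul, hz1]
  refine ⟨Finsupp.equivFunOnFinite.symm fun j : ULift.{u} κ => w' j.down, ?_, ?_⟩
  · intro i g hg
    have hg' : (w' i.down).coeff g ≠ 0 := hg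
    have h1 : w' i.down = ∑ q ∈ T, D.u q * inY S y (z q i.down) := by
      simp only [w', Finset.sum_apply, Pi.smul_apply, smul_eq_mul]
      rfl
    rw [h1, MonoidAlgebra.coeff_sum, Finsupp.finsetSum_apply] at hg'
    obtain ⟨q, _, hq2⟩ := Finset.exists_ne_zero_of_sum_ne_zero hg'
    have h2 : (D.u q * inY S y (z q i.down)).coeff g =
        (inY S y (z q i.down)).coeff (q.out⁻¹ * g) := by
      change (MonoidAlgebra.single q.out 1 * inY S y (z q i.down)).coeff g = _
      rw [MonoidAlgebra.coeff_single_mul_apply, one_mul]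
    rw [h2] at hq2
    have h3 := coeff_inY_mem _ hq2
    have h4 : g • y = q.out • y := by
      calc g • y = q.out • ((q.out⁻¹ * g) • y) := by rw [← mul_smul, mul_inv_cancel_left]
        _ = q.out • y := congrArg (fun w : L.W => q.out • w) h3
    have h5 : D.rv q v' ≠ 0 := by
      intro h
      rw [hz2 q h] at hq2
      apply hq2
      rw [Pi.zero_apply, map_zero]
      rfl
    obtain ⟨i', hi'⟩ := Function.ne_iff.1 h5
    have h6 : rsc (MulAction.stabilizer G y).subtype hf q.out (v' i') ≠ 0 := hi'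
    obtain ⟨h', hh'⟩ : ∃ h', (rsc (MulAction.stabilizer G y).subtype hf q.out
        (v' i')).coeff h' ≠ 0 := by
      by_contra hcon
      push Not at hcon
      apply h6
      ext h'
      rw [hcon]
      rfl
    rw [coeff_rsc] at hh'
    have h7 : L.le x ((q.out * (h' : G)) • y) := hv ⟨i'⟩ _ hh'
    rw [mul_smul, show (h' : G) • y = y from h'.2] at h7
    show L.le x (g • y)
    rw [h4]
    exact h7
  · ext1 j
    rw [lin_cy_apply]
    exact congrFun hw' j.down

end Pool.Agent.Lib.MP_c052b4_al.CT
end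

section

/-!
# Coherent trees, D01: free functors and scalar idempotents
-/

set_option autoImplicit false
set_option linter.unusedVariables false
set_option linter.unusedSectionVars false

namespace Pool.Agent.Lib.MP_c052b4_al.CT

open CategoryTheory Opposite Limits
open Pool.Agent.Lib.MP_c052b4_al.MT

universe u

variable {S : Type u} [Ring S] {G : Type u} [Group G] {L : Lbl G}

/-- The inclusion of the coefficients. -/
noncomputable abbrev cSy (S : Type u) [Ring S] {G : Type u} [Group G] {L : Lbl G} (y : L.W) :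
    S →+* CR S y := MonoidAlgebra.singleOneRingHom

/-- The complex with `S^κ` in degree `0`. -/
private noncomputable def d01_oneC (S : Type u) [Ring S] {G : Type u} [Group G] {L : Lbl G}
    (κ : Type u) (y : L.W) : CochainComplex (VCat S L) ℤ where
  X n := ⟨{_i : κ // n = 0}, fun _ => y⟩
  d i j := 0
  shape i j h := rfl
  d_comp_d' i j k hij hjk := zero_comp

private theorem d01_oneC_isZero (κ : Type u) (y : L.W) {n : ℤ} (h : n ≠ 0) :
    IsZero ((d01_oneC S κ y).X n) :=
  (IsZero.iff_id_eq_zero _).2 (VCat.ext_e fun i => absurd i.2 h)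

private theorem d01_oneC_d (κ : Type u) (y : L.W) (i j : ℤ) : (d01_oneC S κ y).d i j = 0 := rfl

private noncomputable def d01_oneTh (κ : Type u) (y : L.W) :
    d01_oneC S κ y ⟶ (HomologicalComplex.single (VCat S L) (ComplexShape.up ℤ) 0).obj
      ((d01_oneC S κ y).X 0) :=
  HomologicalComplex.mkHomToSingle (𝟙 _) (fun i _ => by rw [d01_oneC_d, zero_comp])

private noncomputable def d01_oneTi (κ : Type u) (y : L.W) :
    (HomologicalComplex.single (VCat S L) (ComplexShape.up ℤ) 0).obj
      ((d01_oneC S κ y).X 0) ⟶ d01_oneC S κ y :=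
  HomologicalComplex.mkHomFromSingle (𝟙 _) (fun i _ => by rw [d01_oneC_d, comp_zero])

private theorem d01_oneTh_f (κ : Type u) (y : L.W) : (d01_oneTh (S := S) κ y).f 0 =
    (HomologicalComplex.singleObjXSelf (ComplexShape.up ℤ) 0 ((d01_oneC S κ y).X 0)).inv := by
  rw [d01_oneTh, HomologicalComplex.mkHomToSingle_f, Category.id_comp]

private theorem d01_oneTi_f (κ : Type u) (y : L.W) : (d01_oneTi (S := S) κ y).f 0 =
    (HomologicalComplex.singleObjXSelf (ComplexShape.up ℤ) 0 ((d01_oneC S κ y).X 0)).hom := by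
  rw [d01_oneTi, HomologicalComplex.mkHomFromSingle_f, Category.comp_id]

private noncomputable def d01_oneT (κ : Type u) (y : L.W) :
    d01_oneC S κ y ≅ (HomologicalComplex.single (VCat S L) (ComplexShape.up ℤ) 0).obj
      ((d01_oneC S κ y).X 0) where
  hom := d01_oneTh κ y
  inv := d01_oneTi κ y
  hom_inv_id := by
    ext n : 1
    by_cases h : n = 0
    · subst h
      rw [HomologicalComplex.comp_f, d01_oneTh_f, d01_oneTi_f, Iso.inv_hom_id, HomologicalComplex.id_f]
    · exact (d01_oneC_isZero κ y h).eq_of_src _ _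
  inv_hom_id := by
    refine HomologicalComplex.from_single_hom_ext ?_
    rw [HomologicalComplex.comp_f, d01_oneTh_f, d01_oneTi_f, Iso.hom_inv_id, HomologicalComplex.id_f]

private theorem d01_one_eps (κ : Type u) (y : L.W) (q : (d01_oneC S κ y).X 0 ⟶ (d01_oneC S κ y).X 0) :
    ((d01_oneT κ y).hom ≫ (HomologicalComplex.single (VCat S L) (ComplexShape.up ℤ) 0).map q ≫
      (d01_oneT κ y).inv).f 0 = q := by
  rw [HomologicalComplex.comp_f, HomologicalComplex.comp_f, HomologicalComplex.single_map_f_self]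
  change (d01_oneTh κ y).f 0 ≫ (_ ≫ q ≫ _) ≫ (d01_oneTi κ y).f 0 = q
  rw [d01_oneTh_f, d01_oneTi_f, Category.assoc, Category.assoc, Iso.inv_hom_id, Iso.inv_hom_id_assoc,
    Category.comp_id]

/-- A summand of `kS F`, given by a scalar idempotent, is in `Str`. -/
private theorem d01_str_one (κ : Type u) [Finite κ] (y : L.W)
    (q : (d01_oneC S κ y).X 0 ⟶ (d01_oneC S κ y).X 0) (hq : q ≫ q = q) (hs : IsScalar q) (K : KV S L)
    (s : K ⟶ (HomotopyCategory.quotient (VCat S L) (ComplexShape.up ℤ)).obj
      ((HomologicalComplex.single (VCat S L) (ComplexShape.up ℤ) 0).obj ((d01_oneC S κ y).X 0)))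
    (r : (HomotopyCategory.quotient (VCat S L) (ComplexShape.up ℤ)).obj
      ((HomologicalComplex.single (VCat S L) (ComplexShape.up ℤ) 0).obj ((d01_oneC S κ y).X 0)) ⟶ K)
    (h1 : s ≫ r = 𝟙 K)
    (h2 : r ≫ s = (HomotopyCategory.quotient (VCat S L) (ComplexShape.up ℤ)).map
      ((HomologicalComplex.single (VCat S L) (ComplexShape.up ℤ) 0).map q)) : Str S L K := by
  refine ⟨d01_oneC S κ y, (d01_oneT κ y).hom ≫
    (HomologicalComplex.single (VCat S L) (ComplexShape.up ℤ) 0).map q ≫ (d01_oneT κ y).inv,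
    ⟨fun n => inferInstanceAs (Finite {_i : κ // n = 0}), 0, fun n hn => ⟨fun i => ?_⟩⟩, ?_, ?_,
    s ≫ (HomotopyCategory.quotient (VCat S L) (ComplexShape.up ℤ)).map (d01_oneT κ y).inv,
    (HomotopyCategory.quotient (VCat S L) (ComplexShape.up ℤ)).map (d01_oneT κ y).hom ≫ r, ?_, ?_⟩
  · have := i.2
    rw [this, abs_zero] at hn
    exact lt_irrefl _ hn
  · rw [Category.assoc, Category.assoc, Iso.inv_hom_id_assoc, ← Functor.map_comp_assoc, hq]
  · intro n
    by_cases h : n = 0
    · subst h
      rw [d01_one_eps]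
      exact hs
    · intro i
      exact absurd i.2 h
  · rw [Category.assoc, ← Functor.map_comp_assoc, Iso.inv_hom_id, CategoryTheory.Functor.map_id,
      Category.id_comp, h1]
  · rw [Category.assoc, ← Category.assoc r, h2, Functor.map_comp, Functor.map_comp]

private theorem d01_theta (F : VCat S L) :
    ∃ a : (EV S L).obj (kS F) ≅ (DerivedCategory.singleFunctor (AA S L) 0).obj (VCat.ev.obj F),
      ∀ q : F ⟶ F, (EV S L).map ((HomotopyCategory.singleFunctor (VCat S L) 0).map q) ≫ a.hom =
        a.hom ≫ (DerivedCategory.singleFunctor (AA S L) 0).map (VCat.ev.map q) := by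
  refine ⟨(HomotopyCategory.quotient (AA S L) (ComplexShape.up ℤ) ⋙ DerivedCategory.Qh).mapIso
    ((HomologicalComplex.singleMapHomologicalComplex (VCat.ev : VCat S L ⥤ AA S L)
      (ComplexShape.up ℤ) 0).app F), fun q => ?_⟩
  have h := (HomologicalComplex.singleMapHomologicalComplex (VCat.ev : VCat S L ⥤ AA S L)
      (ComplexShape.up ℤ) 0).hom.naturality q
  have h' := (HomotopyCategory.quotient (AA S L)
    (ComplexShape.up ℤ) ⋙ DerivedCategory.Qh).congr_map h
  rw [Functor.map_comp, Functor.map_comp] at h'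
  exact h'

/-- Change of the index set. -/
private noncomputable def d01_dom {κ κ' : Type u} (σ : κ ≃ κ') (y : L.W) :
    constV S κ y ⟶ constV S κ' y :=
  VCat.mkHom (X := constV S κ y) (Y := constV S κ' y)
    (Finsupp.domLCongr (M := MonoidAlgebra S G) (R := MonoidAlgebra S G) σ).toLinearMap
    (fun w v hv i g hg => hv (σ.symm i) g hg)

private theorem d01_dom_apply {κ κ' : Type u} (σ : κ ≃ κ') (y : L.W)
    (v : (constV S κ y).M) (i : κ') : VCat.lin (d01_dom σ y) v i = v (σ.symm i) := rfl

private theorem d01_dom_e {κ κ' : Type u} (σ : κ ≃ κ') (y : L.W) (i : κ) :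
    VCat.lin (d01_dom (S := S) σ y) ((constV S κ y).e i) = (constV S κ' y).e (σ i) :=
  Finsupp.domLCongr_single σ i 1

private theorem d01_dom_dom {κ κ' : Type u} (σ : κ ≃ κ') (y : L.W) :
    d01_dom (S := S) σ y ≫ d01_dom σ.symm y = 𝟙 _ := by
  refine VCat.ext_e fun i => ?_
  rw [VCat.lin_comp, LinearMap.comp_apply, d01_dom_e, d01_dom_e, Equiv.symm_apply_apply]
  rfl

private theorem d01_split (κ₀ : Type u) [Finite κ₀] (y : L.W)
    (q : constV S {_i : κ₀ // (0 : ℤ) = 0} y ⟶ constV S {_i : κ₀ // (0 : ℤ) = 0} y)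
    (hq : q ≫ q = q) (hs : IsScalar q) (N : AA S L)
    (s : N ⟶ VCat.ev.obj (constV S {_i : κ₀ // (0 : ℤ) = 0} y))
    (r : VCat.ev.obj (constV S {_i : κ₀ // (0 : ℤ) = 0} y) ⟶ N)
    (h1 : s ≫ r = 𝟙 N) (h2 : r ≫ s = VCat.ev.map q) : SA S L N := by
  obtain ⟨K, s', r', h1', h2'⟩ := idem_split (constV S {_i : κ₀ // (0 : ℤ) = 0} y) q hq
  have hK : Str S L K := d01_str_one κ₀ y q hq hs K s' r' h1' h2'
  obtain ⟨a, ha⟩ := d01_theta (constV S {_i : κ₀ // (0 : ℤ) = 0} y)
  refine ⟨K, hK, ⟨?_⟩⟩
  let D := DerivedCategory.singleFunctor (AA S L) 0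
  have hD : D.map r ≫ D.map s = D.map (VCat.ev.map q) := by rw [← Functor.map_comp, h2]
  have hE : (EV S L).map r' ≫ (EV S L).map s' =
      (EV S L).map ((HomotopyCategory.singleFunctor (VCat S L) 0).map q) := by
    rw [← Functor.map_comp, h2']
  have hD1 : D.map s ≫ D.map r = 𝟙 _ := by
    rw [← Functor.map_comp, h1, CategoryTheory.Functor.map_id]
  have hE1 : (EV S L).map s' ≫ (EV S L).map r' = 𝟙 _ := by
    rw [← Functor.map_comp, h1', CategoryTheory.Functor.map_id]
  exact
    { hom := (EV S L).map s' ≫ a.hom ≫ D.map r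
      inv := D.map s ≫ a.inv ≫ (EV S L).map r'
      hom_inv_id := by
        have h3 : a.hom ≫ D.map r ≫ D.map s ≫ a.inv = (EV S L).map r' ≫ (EV S L).map s' := by
          rw [← Category.assoc (D.map r), hD, ← Category.assoc, ← ha q, Category.assoc,
            Iso.hom_inv_id, Category.comp_id, hE]
        calc ((EV S L).map s' ≫ a.hom ≫ D.map r) ≫ D.map s ≫ a.inv ≫ (EV S L).map r'
            = (EV S L).map s' ≫ (a.hom ≫ D.map r ≫ D.map s ≫ a.inv) ≫ (EV S L).map r' := by
              simp only [Category.assoc]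
          _ = 𝟙 _ := by
              rw [h3, Category.assoc, ← Category.assoc, hE1, Category.id_comp]
      inv_hom_id := by
        have h3 : a.inv ≫ (EV S L).map r' ≫ (EV S L).map s' ≫ a.hom = D.map r ≫ D.map s := by
          rw [← Category.assoc ((EV S L).map r'), hE, ha q, Iso.inv_hom_id_assoc, hD]
        calc (D.map s ≫ a.inv ≫ (EV S L).map r') ≫ (EV S L).map s' ≫ a.hom ≫ D.map r
            = D.map s ≫ (a.inv ≫ (EV S L).map r' ≫ (EV S L).map s' ≫ a.hom) ≫ D.map r := by
              simp only [Category.assoc]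
          _ = 𝟙 _ := by
              rw [h3, Category.assoc, ← Category.assoc, hD1, Category.id_comp] }

/-- The functor of a free object with one label is in `SA`.
Proof: `fy_free` for `κ' = ULift κ` gives `(fy y).obj (κ' →₀ S) ≅ ev (cK S κ y)`, and
`sd_fy_proj` for the free module `κ' →₀ S`. -/
theorem sa_cK (κ : Type) [Fintype κ] (y : L.W) : SA S L (VCat.ev.obj (cK S κ y)) := by
  obtain ⟨e, -⟩ := fy_free (S := S) (⟨y⟩ : Q L) (ULift.{u} κ)
  refine (SA S L).prop_of_iso e ?_
  have h1 : Module.Finite S (ModuleCat.of S (ULift.{u} κ →₀ S)) :=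
    inferInstanceAs (Module.Finite S (ULift.{u} κ →₀ S))
  have h2 : Module.Projective S (ModuleCat.of S (ULift.{u} κ →₀ S)) :=
    inferInstanceAs (Module.Projective S (ULift.{u} κ →₀ S))
  exact sd_fy_proj (⟨y⟩ : Q L) (ModuleCat.of S (ULift.{u} κ →₀ S))

/-- The morphism of a matrix over `S` is scalar (`lin_cy_e`, `vf_apply`: the entries are
`single 1 (M i j)`). -/
theorem isScalar_cy {κ l : Type} [Fintype κ] [Fintype l] {y : L.W} (M : Matrix κ l S) :
    IsScalar (cy (M.map (cSy S y))) := by
  classical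
  intro i j g hg
  rw [lin_cy_e, vf_apply] at hg
  refine ⟨?_, rfl⟩
  by_contra h
  apply hg
  change (inY S y (MonoidAlgebra.single 1 (M i.down j.down))).coeff g = 0
  rw [inc_single, map_one, MonoidAlgebra.coeff_single, Finsupp.single_apply, if_neg (Ne.symm h)]

/-- A functor which splits a scalar idempotent of a finite object is in `SA`.
Proof: as the end of the proof of `MT.sd_fy_proj` (T/D04c): by `idem_split` there are `K`,
`s' : K ⟶ kS F`, `r' : kS F ⟶ K` with `s' ≫ r' = 𝟙`, `r' ≫ s' = kS q`. `K` is in `Str`, as in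
`str_one` there (private in T/D04c: copy it; here `F` has arbitrary labels: take the complex
with `X n = ⟨{_i : F.I // n = 0}, fun i => F.l i.1⟩`, and for `F = cK S κ y` one can use it as it is).
`EV K` and `N` in degree `0` both split the idempotent of `EV (kS F) ≅ (ev F)[0]` given by `q`, so
they are isomorphic. -/
theorem sa_of_split {κ : Type} [Fintype κ] {y : L.W} (q : cK S κ y ⟶ cK S κ y) (hq : q ≫ q = q)
    (hs : IsScalar q) (N : AA S L) (s : N ⟶ VCat.ev.obj (cK S κ y))
    (r : VCat.ev.obj (cK S κ y) ⟶ N) (h1 : s ≫ r = 𝟙 N) (h2 : r ≫ s = VCat.ev.map q) :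
    SA S L N := by
  let κ' : Type u := {_i : ULift.{u} κ // (0 : ℤ) = 0}
  let σ : κ' ≃ ULift.{u} κ := Equiv.subtypeUnivEquiv fun _ => rfl
  have hσ : d01_dom (S := S) σ.symm y ≫ d01_dom σ y = 𝟙 _ := d01_dom_dom σ.symm y
  have hσ' : d01_dom (S := S) σ y ≫ d01_dom σ.symm y = 𝟙 _ := d01_dom_dom σ y
  refine d01_split (ULift.{u} κ) y (d01_dom σ y ≫ q ≫ d01_dom σ.symm y) ?_ ?_ N
    (s ≫ VCat.ev.map (d01_dom σ.symm y)) (VCat.ev.map (d01_dom σ y) ≫ r) ?_ ?_
  · rw [Category.assoc, Category.assoc, ← Category.assoc (d01_dom σ.symm y), hσ,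
      Category.id_comp, ← Category.assoc q, hq]
  · intro i j g hg
    rw [VCat.lin_comp, VCat.lin_comp, LinearMap.comp_apply, LinearMap.comp_apply, d01_dom_e,
      d01_dom_apply] at hg
    exact ⟨(hs _ _ _ hg).1, rfl⟩
  · rw [Category.assoc, ← Category.assoc (VCat.ev.map (d01_dom σ.symm y)), ← Functor.map_comp, hσ,
      CategoryTheory.Functor.map_id, Category.id_comp, h1]
  · rw [Category.assoc, ← Category.assoc r, h2, Functor.map_comp, Functor.map_comp]

end Pool.Agent.Lib.MP_c052b4_al.CT
end
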