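import Pool.Agent.Lib.MP_c052b4_al.Mg.G002
import Pool.Agent.Lib.MP_c052b4_al.Mg.G011
import Pool.Agent.Lib.MP_c052b4_al.Mg.G081
import Pool.Agent.Lib.MP_c052b4_al.Mg.G010
import Pool.Agent.Lib.MP_c052b4_al.LN.Final
import Pool.Agent.Lib.MP_c052b4_al.Mg.G022
import Pool.Agent.Lib.MP_c052b4_al.Mg.G038
import Pool.Agent.Lib.MP_c052b4_al.Mg.G021
import Pool.Agent.Lib.MP_c052b4_al.Mg.G039
import Pool.Agent.Lib.MP_c052b4_al.Mg.G036

section

/-!
# Groups with plane actions, tree actions and a representation of rank two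
-/

set_option autoImplicit false

namespace Pool.Agent.Lib.MP_c052b4_al.JK

open MvPolynomial MulAction

universe u

/-- the pair of two matrix representations -/
def pairMat {A B : Type u} [CommRing A] [CommRing B] (x : Matrix (Fin 2) (Fin 2) A)
    (y : Matrix (Fin 2) (Fin 2) B) : Matrix (Fin 2) (Fin 2) (A × B) :=
  Matrix.of fun i j => (x i j, y i j)

theorem pairMat_one {A B : Type u} [CommRing A] [CommRing B] :
    pairMat (1 : Matrix (Fin 2) (Fin 2) A) (1 : Matrix (Fin 2) (Fin 2) B) = 1 := by
  ext i j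
  · by_cases h : i = j
    · subst h
      simp [pairMat]
    · simp [pairMat, h]
  · by_cases h : i = j
    · subst h
      simp [pairMat]
    · simp [pairMat, h]

theorem pairMat_mul {A B : Type u} [CommRing A] [CommRing B] (x x' : Matrix (Fin 2) (Fin 2) A)
    (y y' : Matrix (Fin 2) (Fin 2) B) : pairMat (x * x') (y * y') = pairMat x y * pairMat x' y' := by
  ext i j
  · simp [pairMat, Matrix.mul_apply, Fin.sum_univ_two]
  · simp [pairMat, Matrix.mul_apply, Fin.sum_univ_two]

theorem pairMat_inj {A B : Type u} [CommRing A] [CommRing B] {x x' : Matrix (Fin 2) (Fin 2) A}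
    {y y' : Matrix (Fin 2) (Fin 2) B} (h : pairMat x y = pairMat x' y') : x = x' ∧ y = y' := by
  constructor
  · ext i j
    exact congrArg Prod.fst (congrFun (congrFun h i) j)
  · ext i j
    exact congrArg Prod.snd (congrFun (congrFun h i) j)

/-- `G` acts on `k` affine planes over algebraically closed fields of positive characteristic, on
finitely many trees, and has a representation of rank two over a commutative ring of positive
characteristic, such that `S` is the set of the elements which fix a vertex in each of the trees and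
act trivially otherwise. -/
inductive Adm (G : Type u) [Group G] : ℕ → Set G → Prop
  | base {n : ℕ} (V : Fin n → Type u) (act : ∀ i, MulAction G (V i))
      (T : ∀ i, Nonempty (TreeAction G (V i))) (A : Type u) [CommRing A] (N : ℕ) (hN : 0 < N)
      (hA : (N : A) = 0) (ρ : G →* GL (Fin 2) A) :
      Adm G 0 {g | ρ g = 1 ∧ ∀ i, ∃ x : V i, g • x = x}
  | step {k : ℕ} {S : Set G} (h : Adm G k S) (F : Type u) [Field F] [IsAlgClosed F] (p : ℕ)
      (hp : 0 < p) [CharP F p] (r : G →* AutA F) : Adm G (k + 1) {g | g ∈ S ∧ r g = 1}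

theorem Adm.pow_mem {G : Type u} [Group G] {k : ℕ} {S : Set G} (h : Adm G k S) {g : G}
    (hg : g ∈ S) (n : ℕ) : g ^ n ∈ S := by
  induction h with
  | base V act T A N hN hA ρ =>
    refine ⟨by rw [map_pow, hg.1, one_pow], fun i => ?_⟩
    obtain ⟨x, hx⟩ := hg.2 i
    refine ⟨x, ?_⟩
    induction n with
    | zero => rw [pow_zero, one_smul]
    | succ j ih => rw [pow_succ, mul_smul, hx, ih]
  | step _ F p hp r ih => exact ⟨ih hg.1, by rw [map_pow, hg.2, one_pow]⟩

theorem Adm.comap {G : Type u} [Group G] {k : ℕ} {S : Set G} (h : Adm G k S) {H : Type u}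
    [Group H] (f : H →* G) : Adm H k (f ⁻¹' S) := by
  induction h with
  | base V act T A N hN hA ρ =>
    exact Adm.base V (fun i => MulAction.compHom (V i) f) (fun i => ⟨(T i).some.comp f⟩) A N hN hA
      (ρ.comp f)
  | step _ F p hp r ih => exact Adm.step ih F p hp (r.comp f)

theorem Adm.add {G : Type u} [Group G] {k : ℕ} {S : Set G} (h : Adm G k S) (B : Type u)
    [CommRing B] (M : ℕ) (hM : 0 < M) (hB : (M : B) = 0) (θ : G →* GL (Fin 2) B) :
    Adm G k {g | g ∈ S ∧ θ g = 1} := by
  induction h with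
  | base V act T A N hN hA ρ =>
    let m : G →* Matrix (Fin 2) (Fin 2) (A × B) :=
      { toFun := fun g => pairMat (ρ g).val (θ g).val
        map_one' := by rw [map_one, map_one, Units.val_one, Units.val_one, pairMat_one]
        map_mul' := fun a b => by
          rw [map_mul, map_mul, Units.val_mul, Units.val_mul, pairMat_mul] }
    have h1 : ((N * M : ℕ) : A × B) = 0 := by
      refine Prod.ext ?_ ?_
      · rw [Prod.fst_natCast, Nat.cast_mul, hA, zero_mul]
        rfl
      · rw [Prod.snd_natCast, Nat.cast_mul, hB, mul_zero]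
        rfl
    have h2 : ∀ g : G, m.toHomUnits g = 1 ↔ ρ g = 1 ∧ θ g = 1 := by
      intro g
      constructor
      · intro hg
        have h3 : pairMat (ρ g).val (θ g).val = pairMat 1 1 :=
          (congrArg Units.val hg).trans pairMat_one.symm
        obtain ⟨h4, h5⟩ := pairMat_inj h3
        exact ⟨Units.ext h4, Units.ext h5⟩
      · rintro ⟨h4, h5⟩
        apply Units.ext
        show pairMat (ρ g).val (θ g).val = 1
        rw [h4, h5]
        exact pairMat_one
    have h3 := Adm.base V act T (A × B) (N * M) (Nat.mul_pos hN hM) h1 m.toHomUnits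
    convert h3 using 1
    ext g
    rw [Set.mem_setOf_eq, Set.mem_setOf_eq, Set.mem_setOf_eq, h2]
    tauto
  | @step k S _ F _ _ p hp _ r ih =>
    have h3 := Adm.step ih F p hp r
    convert h3 using 1
    ext g
    rw [Set.mem_setOf_eq, Set.mem_setOf_eq, Set.mem_setOf_eq, Set.mem_setOf_eq]
    tauto

/-- An affine part: a group with a homomorphism to the automorphism group and image in a conjugate
of the affine group has a representation of rank two with torsion kernel. -/
theorem exists_rep_aff {K : Type u} [Field K] (p : ℕ) (hp : 0 < p) [CharP K p] {H : Type u}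
    [Group H] (r : H →* AutA K) (s : AutA K) (hs : ∀ h, s⁻¹ * r h * s ∈ Aff K) :
    ∃ θ : H →* GL (Fin 2) K, ∀ h, θ h = 1 → ∃ M : ℕ, 0 < M ∧ r (h ^ M) = 1 := by
  let f : H →* AutA K := (MulAut.conj s⁻¹).toMonoidHom.comp r
  have hf : ∀ h, f h = s⁻¹ * r h * s := fun h => by
    show s⁻¹ * r h * s⁻¹⁻¹ = _
    rw [inv_inv]
  have him : ∀ h, f h ∈ Aff K := fun h => by rw [hf]; exact hs h
  let m : H →* Matrix (Fin 2) (Fin 2) K :=
    { toFun := fun h => linMat (f h)
      map_one' := by rw [map_one, linMat_one]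
      map_mul' := fun a b => by rw [map_mul, linMat_mul _ _ (him a) (him b)] }
  refine ⟨m.toHomUnits, fun h hh => ⟨p, hp, ?_⟩⟩
  have h1 : linMat (f h) = 1 := congrArg Units.val hh
  have h2 := pow_eq_one_of_linMat p (f h) (him h) h1
  rw [← map_pow] at h2
  exact (MulAut.conj s⁻¹).injective (h2.trans (map_one _).symm)

/-- The same for the triangular group. -/
theorem exists_rep_tri {K : Type u} [Field K] (p : ℕ) (hp : 0 < p) [CharP K p] {H : Type u}
    [Group H] (r : H →* AutA K) (s : AutA K) (hs : ∀ h, s⁻¹ * r h * s ∈ Tri K) :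
    ∃ θ : H →* GL (Fin 2) K, ∀ h, θ h = 1 → ∃ M : ℕ, 0 < M ∧ r (h ^ M) = 1 := by
  let f : H →* AutA K := (MulAut.conj s⁻¹).toMonoidHom.comp r
  have hf : ∀ h, f h = s⁻¹ * r h * s := fun h => by
    show s⁻¹ * r h * s⁻¹⁻¹ = _
    rw [inv_inv]
  have him : ∀ h, f h ∈ Tri K := fun h => by rw [hf]; exact hs h
  let m : H →* Matrix (Fin 2) (Fin 2) K :=
    { toFun := fun h => Matrix.diagonal ![(dia (f h)).1, (dia (f h)).2]
      map_one' := by
        rw [map_one, dia_one, ← Matrix.diagonal_one]
        congr 1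
        ext i
        fin_cases i <;> rfl
      map_mul' := fun a b => by
        rw [map_mul, dia_mul _ _ (him a) (him b), Matrix.diagonal_mul_diagonal]
        congr 1
        ext i
        fin_cases i <;> rfl }
  refine ⟨m.toHomUnits, fun h hh => ⟨p * p, Nat.mul_pos hp hp, ?_⟩⟩
  have h1 : Matrix.diagonal ![(dia (f h)).1, (dia (f h)).2] = 1 := congrArg Units.val hh
  have h3 : dia (f h) = 1 := by
    have h4 := congrFun (congrFun h1 0) 0
    have h5 := congrFun (congrFun h1 1) 1
    rw [Matrix.diagonal_apply_eq, Matrix.one_apply_eq] at h4 h5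
    exact Prod.ext h4 h5
  have h2 := pow_eq_one_of_dia p (f h) (him h) h3
  rw [← map_pow] at h2
  exact (MulAut.conj s⁻¹).injective (h2.trans (map_one _).symm)

end Pool.Agent.Lib.MP_c052b4_al.JK
end

section

/-!
# Lines in the tree and their translation groups
-/

set_option autoImplicit false

namespace Pool.Agent.Lib.MP_c052b4_al.JK

open MvPolynomial MulAction

universe u

variable {K : Type u} [Field K]

/-- The rank increases strictly along the end of a line. -/
theorem line_rank {ℓ : ℤ → VT K} (hℓ : IsLine (JGraph K) ℓ) :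
    ∃ n0 : ℤ, ∀ n, n0 ≤ n → rk K (ℓ n) < rk K (ℓ (n + 1)) := by
  have hstart : ∃ n0 : ℤ, rk K (ℓ n0) ≤ rk K (ℓ (n0 + 1)) := by
    by_contra hcon
    push Not at hcon
    have h1 : ∀ m : ℕ, rk K (ℓ m) + m ≤ rk K (ℓ 0) := by
      intro m
      induction m with
      | zero => simp
      | succ m ih =>
        have h2 := hcon m
        push_cast
        omega
    have h2 := h1 (rk K (ℓ 0) + 1)
    omega
  have hstep : ∀ n : ℤ, rk K (ℓ n) ≤ rk K (ℓ (n + 1)) → rk K (ℓ (n + 1)) < rk K (ℓ (n + 1 + 1)) := by
    intro n hn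
    by_contra hcon
    have h1 := (hℓ n).1
    have h2 := (hℓ (n + 1)).1
    have h3 := rk_uniq (ℓ (n + 1)) (ℓ (n + 1 + 1)) (ℓ n) h2 h1.symm (not_lt.1 hcon) hn
    rw [show n + 1 + 1 = n + 2 by ring] at h3
    exact (hℓ n).2 h3
  obtain ⟨n0, h0⟩ := hstart
  refine ⟨n0 + 1, fun n hn => ?_⟩
  obtain ⟨m, rfl⟩ : ∃ m : ℕ, n = n0 + 1 + m := ⟨(n - (n0 + 1)).toNat, by omega⟩
  clear hn
  induction m with
  | zero =>
    rw [Nat.cast_zero, add_zero]
    exact hstep n0 h0
  | succ m ih =>
    have h1 := hstep _ ih.le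
    push_cast
    rw [show n0 + 1 + ((m : ℤ) + 1) = n0 + 1 + m + 1 by ring]
    exact h1

/-- the shift of a line is determined -/
theorem line_shift {ℓ : ℤ → VT K} (hℓ : IsLine (JGraph K) ℓ) {m m' : ℤ}
    (h : ∀ n, ℓ (n + m) = ℓ (n + m')) : m = m' := by
  obtain ⟨n0, h0⟩ := line_rank hℓ
  have hmono : ∀ (j : ℕ) (n : ℤ), n0 ≤ n → 0 < j → rk K (ℓ n) < rk K (ℓ (n + j)) := by
    intro j n hn hj
    induction j with
    | zero => omega
    | succ j ih =>
      have h1 := h0 (n + j) (by omega)
      rw [Nat.cast_succ, ← add_assoc]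
      rcases Nat.eq_zero_or_pos j with rfl | hj'
      · simpa using h1
      · exact (ih hj').trans h1
  have key : ∀ a b : ℤ, (∀ n, ℓ (n + a) = ℓ (n + b)) → ¬ a < b := by
    intro a b hab hlt
    have h1 := hab (n0 - a)
    have h2 := hmono (b - a).toNat n0 le_rfl (by omega)
    rw [show n0 - a + a = n0 by ring, show n0 - a + b = n0 + (b - a).toNat by omega] at h1
    rw [h1] at h2
    exact lt_irrefl _ h2
  rcases lt_trichotomy m m' with h1 | h1 | h1
  · exact (key m m' h h1).elim
  · exact h1
  · exact (key m' m (fun n => (h n).symm) h1).elim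

/-- The translation group of a line has a representation of rank two whose kernel fixes the
line. -/
theorem exists_rep_trl {G : Type u} [Group G] [MulAction G (VT K)] {ℓ : ℤ → VT K}
    (hℓ : IsLine (JGraph K) ℓ) :
    ∃ θ : Trl G ℓ →* GL (Fin 2) (LaurentPolynomial K), ∀ h : Trl G ℓ, θ h = 1 →
      ∀ n, (h : G) • ℓ n = ℓ n := by
  choose t ht using fun h : Trl G ℓ => mem_trl.1 h.2
  have t_one : t 1 = 0 := by
    refine line_shift hℓ fun n => ?_
    rw [← ht, OneMemClass.coe_one, one_smul, add_zero]
  have t_mul : ∀ a b : Trl G ℓ, t (a * b) = t a + t b := by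
    intro a b
    refine line_shift hℓ fun n => ?_
    rw [← ht, Subgroup.coe_mul, mul_smul, ht b, ht a, add_assoc, add_comm (t b)]
  let m : Trl G ℓ →* Matrix (Fin 2) (Fin 2) (LaurentPolynomial K) :=
    { toFun := fun h => Matrix.scalar (Fin 2) (LaurentPolynomial.T (t h))
      map_one' := by rw [t_one, LaurentPolynomial.T_zero, map_one]
      map_mul' := fun a b => by rw [t_mul, LaurentPolynomial.T_add, map_mul] }
  refine ⟨m.toHomUnits, fun h hh n => ?_⟩
  have h1 : Matrix.scalar (Fin 2) (LaurentPolynomial.T (R := K) (t h)) = 1 := congrArg Units.val hh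
  have h2 : (LaurentPolynomial.T (t h) : LaurentPolynomial K) = 1 := by
    have := congrFun (congrFun h1 0) 0
    simpa using this
  have h3 : t h = 0 := by
    rw [← LaurentPolynomial.T_zero] at h2
    exact AddMonoidAlgebra.single_left_injective one_ne_zero h2
  rw [ht, h3, add_zero]

end Pool.Agent.Lib.MP_c052b4_al.JK
end

section

/-!
# Groups acting on products of trees: the main theorem
-/

set_option autoImplicit false
set_option linter.unusedSectionVars false

namespace Pool.Agent.Lib.MP_c052b4_al.MT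

open CategoryTheory CategoryTheory.Limits

universe u

theorem pRes_iff {S : Type u} [Ring S] : ∀ (n : ℕ) (M : Type u) [AddCommGroup M] [Module S M],
    PRes S n M ↔ FinProjRes S n M := by
  intro n
  induction n with
  | zero =>
    intro M _ _
    exact Iff.rfl
  | succ n ih =>
    intro M _ _
    constructor
    · rintro ⟨P, h1, h2, f, h3, h4, h5, h6⟩
      exact ⟨P, h1, h2, f, h3, h4, h5, (ih _).1 h6⟩
    · rintro ⟨P, h1, h2, f, h3, h4, h5, h6⟩
      exact ⟨P, h1, h2, f, h3, h4, h5, (ih _).2 h6⟩

theorem reg_iff {S : Type u} [Ring S] : Reg S ↔ IsRegularRing S := by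
  constructor
  · rintro ⟨h1, h2⟩
    refine ⟨h1, fun M _ _ hM => ?_⟩
    obtain ⟨n, hn⟩ := h2 M hM
    exact ⟨n, (pRes_iff n M).1 hn⟩
  · rintro ⟨h1, h2⟩
    refine ⟨h1, fun M _ _ hM => ?_⟩
    obtain ⟨n, hn⟩ := h2 M hM
    exact ⟨n, (pRes_iff n M).2 hn⟩

section Data

variable {G : Type u} [Group G] {J : Type} [Finite J] [DecidableEq J] {V : J → Type u}
  [∀ a, MulAction G (V a)] (T : ∀ a, TreeAction G (V a))

/-- Sections 1 to 5. -/
theorem sec6Data_trees (hfree : ∀ g : G, (∀ a, ∃ v : V a, g • v = v) → g = 1) {R : Type u} [Ring R]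
    (hR : IsRegularRing R) (a0 : J) : Sec6Data R (fun a => dirOf (T a)) a0 := by
  intro X hX
  have hL := topL_tree T hfree
  obtain ⟨C, hC, ⟨e⟩⟩ := descend_reg (Ys := fun a => dirOf (T a))
    (fun R _ => IsRegularRing R) (fun R _ h => h.laurentPolynomial)
    (fun R _ h => reg_iff.2 h.polynomial) hL (fun b => treeDir T b) {a0} R hR {a0} subset_rfl X hX
  obtain ⟨E, ε, hE, hεε, hεs, s, r, hsr, hrs⟩ := str_of_dom (reg_iff.2 hR) hL hC.1
  refine ⟨E, ε, hE, hεε, fun n i j g hg => hεs n i j g hg, ⟨e.inv ≫ (kL R _).map s,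
    (kL R _).map r ≫ e.hom, ?_, ?_⟩, ?_⟩
  · rw [Category.assoc, ← Category.assoc ((kL R _).map s), ← Functor.map_comp, hsr,
      CategoryTheory.Functor.map_id, Category.id_comp, e.inv_hom_id]
  · rw [Category.assoc, e.hom_inv_id_assoc, ← Functor.map_comp, hrs]
  · have h1 : (kL R (subHom (fun a => dirOf (T a)) (A := Set.univ) (A' := Set.univ \ {a0})
        Set.sdiff_subset)).map (r ≫ s) = 0 := by
      rw [Functor.map_comp, (hC.2 a0 rfl).eq_zero_of_tgt ((kL R _).map r), zero_comp]
    rw [← hrs]
    exact h1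

end Data

end Pool.Agent.Lib.MP_c052b4_al.MT
end

section

/-!
# Groups acting on products of trees: the main theorem, II
-/

set_option autoImplicit false
set_option linter.unusedSectionVars false

namespace Pool.Agent.Lib.MP_c052b4_al.MT

open CategoryTheory CategoryTheory.Limits MulAction

universe u

theorem hk_of_subsingleton (G : Type u) [Group G] [Subsingleton G] : HK.{u} G :=
  fun _ _ _ => imA1_of_subsingleton

/-- Free actions on a tree. -/
theorem hk_of_free_tree (G : Type u) [Group G] (V : Type u) [MulAction G V] (T : TreeAction G V)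
    (hfree : ∀ g : G, (∃ v : V, g • v = v) → g = 1) : HK.{u} G := by
  have h1 : ∀ v : V, Subsingleton (stabilizer G v) := fun v =>
    ⟨fun a b => Subtype.ext ((hfree a.1 ⟨v, a.2⟩).trans (hfree b.1 ⟨v, b.2⟩).symm)⟩
  refine hk_of_tree_wald T (fun v => ?_) fun x y _ => ?_
  · have := h1 v
    exact hk_of_subsingleton _
  · have : Subsingleton ↥(stabilizer G x ⊓ stabilizer G y) :=
      ⟨fun a b => Subtype.ext ((hfree a.1 ⟨x, a.2.1⟩).trans (hfree b.1 ⟨x, b.2.1⟩).symm)⟩
    exact Wald.triv _

theorem hk_of_free_trees_aux (n : ℕ) : ∀ (G : Type u) [Group G] (J : Type) [Finite J]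
    (_ : Nat.card J = n) (V : J → Type u) [∀ a, MulAction G (V a)] (_ : ∀ a, TreeAction G (V a))
    (_ : ∀ g : G, (∀ a, ∃ v : V a, g • v = v) → g = 1), HK.{u} G := by
  classical
  induction n with
  | zero =>
    intro G _ J _ hJ V _ T hfree
    have hJ0 : IsEmpty J := by
      rw [Finite.card_eq_zero_iff] at hJ
      exact hJ
    have : Subsingleton G :=
      ⟨fun a b => (hfree a fun j => isEmptyElim j).trans (hfree b fun j => isEmptyElim j).symm⟩
    exact hk_of_subsingleton G
  | succ n ih =>
    intro G _ J _ hJ V _ T hfree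
    have hne : Nonempty J := by
      by_contra h
      rw [not_nonempty_iff] at h
      rw [Nat.card_of_isEmpty] at hJ
      omega
    obtain ⟨a0⟩ := hne
    by_cases h1 : ∀ a : J, a = a0
    · exact hk_of_free_tree G (V a0) (T a0) fun g hg => hfree g fun a => by
        rw [h1 a]
        exact hg
    intro R _ hR
    have _ : Fintype J := Fintype.ofFinite J
    have hcard : Nat.card {a // a ≠ a0} = n := by
      have h2 : Nat.card {a // a ≠ a0} + 1 = Nat.card J := by
        rw [Nat.card_eq_fintype_card, Nat.card_eq_fintype_card, Fintype.card_subtype_compl,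
          Fintype.card_subtype_eq]
        have : 0 < Fintype.card J := Fintype.card_pos_iff.2 ⟨a0⟩
        omega
      omega
    refine imA1_top_of_data (R := R) (fun a => dirOf (T a)) a0
      (fun a y => ((STree.card (y : STree (T a)) : ℕ) : ℤ)) (fun a g y => ?_) (fun a x y h => ?_)
      (fun a x y h h' => ?_) (fun y => ?_) (fun y => ?_) (fun K hK => dom_of_FFc hK)
      (sec6Data_trees T hfree hR a0)
    · exact congrArg Nat.cast (STree.card_smul g (y : STree (T a)))
    · exact Int.ofNat_le.2 (STree.card_mono h)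
    · exact STree.eq_of_le_of_card h (le_of_eq (Int.ofNat_inj.1 h').symm)
    · let H : Subgroup G := stabilizer G y
      let _ : ∀ a : {a // a ≠ a0}, MulAction H (V a.1) := fun a =>
        MulAction.compHom (V a.1) H.subtype
      refine ih H {a // a ≠ a0} hcard (fun a => V a.1) (fun a => (T a.1).comp H.subtype) ?_ R hR
      intro g hg
      apply Subtype.ext
      apply hfree
      intro a
      by_cases h2 : a = a0
      · subst h2
        obtain ⟨v, _, hv⟩ := STree.exists_fixed_of_smul_eq (s := (y : STree (T a))) g.2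
        exact ⟨v, hv⟩
      · exact hg ⟨a, h2⟩
    · let H : Subgroup G := stabilizer G y
      let _ : MulAction H (V a0) := MulAction.compHom (V a0) H.subtype
      refine hk_of_free_tree H (V a0) ((T a0).comp H.subtype) (fun g hg => ?_) R hR
      apply Subtype.ext
      apply hfree
      intro a
      by_cases h2 : a = a0
      · subst h2
        exact hg
      · have h3 : (g : G) • y ⟨a, h2⟩ = y ⟨a, h2⟩ := congrFun g.2 ⟨a, h2⟩
        obtain ⟨v, _, hv⟩ := STree.exists_fixed_of_smul_eq (s := (y ⟨a, h2⟩ : STree (T a))) h3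
        exact ⟨v, hv⟩

/-- **Theorem.** Groups which act on finitely many trees without inversions such that only `1` fixes
a vertex in each of the trees. -/
theorem hk_of_free_trees (G : Type u) [Group G] {J : Type} [Finite J] (V : J → Type u)
    [∀ a, MulAction G (V a)] (T : ∀ a, TreeAction G (V a))
    (hfree : ∀ g : G, (∀ a, ∃ v : V a, g • v = v) → g = 1) : HK.{u} G :=
  hk_of_free_trees_aux (Nat.card J) G J rfl V T hfree

end Pool.Agent.Lib.MP_c052b4_al.MT
end

section

/-!
# Trees and representations of rank two in positive characteristic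
-/

set_option autoImplicit false
set_option linter.unusedSectionVars false

namespace Pool.Agent.Lib.MP_c052b4_al.MT

universe u v

/-- A finitely generated group of matrices over a ring of positive characteristic acts on finitely
many trees such that all elements which fix a vertex in each of them have finite order. -/
theorem hasTrees_finOrder (A : Type u) [CommRing A] (N : ℕ) (hN : 0 < N) (hA : (N : A) = 0)
    (G : Type v) [Group G] [Group.FG G] (rho : G →* GL (Fin 2) A) :
    L.HasTrees.{v, u} G {g | IsOfFinOrder (rho g)} := by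
  obtain ⟨A', hA', rho', hr⟩ := L.exists_fg_subring rho
  have hN' : ((N : ℕ) : A') = 0 := by
    apply Subtype.ext
    simpa using hA
  refine (L.ring_trees A' N hN hN' G rho').mono fun g hg => ?_
  have h1 : ((N : ℕ) : Matrix (Fin 2) (Fin 2) A') = 0 := by
    have h2 : ((N : ℕ) : Matrix (Fin 2) (Fin 2) A') = algebraMap A' _ ((N : ℕ) : A') :=
      (map_natCast _ _).symm
    rw [h2, hN', map_zero]
  have h2 : IsOfFinOrder (rho' g) := L.isOfFinOrder_of_integral N hN h1 (rho' g) hg
  show IsOfFinOrder (rho g)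
  rw [← hr g]
  exact MonoidHom.isOfFinOrder _ h2

/-- A finite family of tree actions with trivial joint stabilizers. -/
theorem hk_of_hasTrees {G : Type u} [Group G] (h : L.HasTrees.{u, u} G {1}) : HK.{u} G := by
  obtain ⟨ι, _, V, act, hT, hfree⟩ := h
  exact @hk_of_free_trees G _ ι _ V act (fun i => (hT i).some) fun g hg => hfree g hg

/-- Trees and a representation of rank two in positive characteristic. -/
theorem hk_of_trees_rep {G : Type u} [Group G] (hfg : Group.FG G)
    (htf : ∀ g : G, IsOfFinOrder g → g = 1)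
    {n : ℕ} (V : Fin n → Type u) [∀ i, MulAction G (V i)]
    (T : ∀ i, Nonempty (TreeAction G (V i)))
    (A : Type u) [CommRing A] (N : ℕ) (hN : 0 < N) (hA : (N : A) = 0) (rho : G →* GL (Fin 2) A)
    (h : ∀ g : G, rho g = 1 → (∀ i, ∃ x : V i, g • x = x) → g = 1) : HK.{u} G := by
  refine hk_of_hasTrees ?_
  have h1 : L.HasTrees.{u, u} G {g | ∀ i, ∃ x : V i, g • x = x} :=
    ⟨Fin n, inferInstance, V, fun _ => inferInstance, T, fun _ hg => hg⟩
  refine ((hasTrees_finOrder A N hN hA G rho).inter h1).mono ?_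
  rintro g ⟨hg1, hg2⟩
  obtain ⟨k, hk, hk1⟩ := isOfFinOrder_iff_pow_eq_one.1 hg1
  refine htf g (isOfFinOrder_iff_pow_eq_one.2 ⟨k, hk, h _ ?_ fun i => ?_⟩)
  · rw [map_pow]
    exact hk1
  · obtain ⟨x, hx⟩ := hg2 i
    refine ⟨x, ?_⟩
    have h2 : ∀ j : ℕ, g ^ j • x = x := fun j => by
      induction j with
      | zero => rw [pow_zero, one_smul]
      | succ j ih => rw [pow_succ, mul_smul, hx, ih]
    exact h2 k

end Pool.Agent.Lib.MP_c052b4_al.MT
end
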