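import Mathlib
import Pool.Agent.Lib.MP_c052b4_al.Mg.G020

section

/-!
# Coherent trees, G01: finitely generated and finitely presented objects (definitions, quotients)
-/

set_option autoImplicit false
set_option linter.unusedVariables false
set_option linter.unusedSectionVars false

namespace Pool.Agent.Lib.MP_c052b4_al.CT

open CategoryTheory Limits

universe v u

variable {C : Type u} [Category.{v} C] [Abelian C]

/-- Quotients of objects of `P`. -/
def FGe (P : ObjectProperty C) : ObjectProperty C :=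
  fun N => ∃ (X : C) (π : X ⟶ N), P X ∧ Epi π

/-- Objects with a presentation by objects of `P`. -/
def FPr (P : ObjectProperty C) : ObjectProperty C :=
  fun N => ∃ (X : C) (π : X ⟶ N), P X ∧ Epi π ∧ FGe P (kernel π)

/-- The objects of `P` are projective, closed under finite sums, and kernels of morphisms between
them are quotients of objects of `P`. -/
structure CohP (P : ObjectProperty C) : Prop where
  zero : ∃ Z, IsZero Z ∧ P Z
  sum : ∀ X Y, P X → P Y → P (X ⊞ Y)
  proj : ∀ X, P X → Projective X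
  ker : ∀ {X Y : C} (f : X ⟶ Y), P X → P Y → FGe P (kernel f)

/-- A weak Serre class: closed under kernels, cokernels and extensions. -/
structure IsWS (P : ObjectProperty C) : Prop where
  zero : ∀ X : C, IsZero X → P X
  iso : ∀ {X Y : C}, (X ≅ Y) → P X → P Y
  ker : ∀ {X Y : C} (f : X ⟶ Y), P X → P Y → P (kernel f)
  coker : ∀ {X Y : C} (f : X ⟶ Y), P X → P Y → P (cokernel f)
  ext : ∀ {T : ShortComplex C}, T.ShortExact → P T.X₁ → P T.X₃ → P T.X₂

theorem FGe.of_epi {P : ObjectProperty C} {N N' : C} (f : N ⟶ N') [Epi f] (h : FGe P N) :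
    FGe P N' := by
  obtain ⟨X, π, hX, hπ⟩ := h
  exact ⟨X, π ≫ f, hX, epi_comp π f⟩

theorem FGe.of_iso {P : ObjectProperty C} {N N' : C} (e : N ≅ N') (h : FGe P N) : FGe P N' :=
  h.of_epi e.hom

theorem FPr.of_iso {P : ObjectProperty C} {N N' : C} (e : N ≅ N') (h : FPr P N) : FPr P N' := by
  obtain ⟨X, π, hX, hπ, hk⟩ := h
  exact ⟨X, π ≫ e.hom, hX, epi_comp π e.hom, hk.of_iso (kernelCompMono π e.hom).symm⟩

theorem FPr.fge {P : ObjectProperty C} {N : C} (h : FPr P N) : FGe P N := by
  obtain ⟨X, π, hX, hπ, -⟩ := h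
  exact ⟨X, π, hX, hπ⟩

theorem FPr.of_mem {P : ObjectProperty C} (hP : CohP P) {X : C} (hX : P X) : FPr P X := by
  obtain ⟨Z, hZ, hPZ⟩ := hP.zero
  refine ⟨X, 𝟙 X, hX, inferInstance, Z, 0, hPZ, ?_⟩
  have h0 : IsZero (kernel (𝟙 X)) := isZero_kernel_of_mono (𝟙 X)
  exact ⟨fun a b _ => h0.eq_of_src _ _⟩

end Pool.Agent.Lib.MP_c052b4_al.CT
end

section

/-!
# Coherent trees, G02: extensions of finitely generated objects, Schanuel
-/

set_option autoImplicit false
set_option linter.unusedVariables false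
set_option linter.unusedSectionVars false

namespace Pool.Agent.Lib.MP_c052b4_al.CT

open CategoryTheory Limits

universe v u

variable {C : Type u} [Category.{v} C] [Abelian C] {P : ObjectProperty C}

/-- Extensions.
Proof: let `π₁ : X → T.X₁`, `π₃ : Y → T.X₃` be the covers. `Y` is projective and `T.g` is an
epimorphism, so `π₃ = σ ≫ T.g` with `σ : Y → T.X₂`. The morphism `biprod.desc (π₁ ≫ T.f) σ` is an
epimorphism (e.g. with `epi_iff_surjective_up_to_refinements` and
`ShortComplex.exact_iff_exact_up_to_refinements`, or by `Preadditive.epi_iff_cancel_zero`: if its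
composition with `h` is zero then `T.f ≫ h = 0`, so `h` factors through the cokernel `T.g` of `T.f`,
`h = T.g ≫ k`, and `π₃ ≫ k = 0`, so `k = 0`). -/
theorem FGe.ext (hP : CohP P) {T : ShortComplex C} (hT : T.ShortExact) (h1 : FGe P T.X₁)
    (h3 : FGe P T.X₃) : FGe P T.X₂ := by
  obtain ⟨X, π₁, hX, hπ₁⟩ := h1
  obtain ⟨Y, π₃, hY, hπ₃⟩ := h3
  have hg : Epi T.g := hT.epi_g
  have hYp : Projective Y := hP.proj Y hY
  refine ⟨X ⊞ Y, biprod.desc (π₁ ≫ T.f) (Projective.factorThru π₃ T.g), hP.sum X Y hX hY, ?_⟩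
  refine Preadditive.epi_of_cancel_zero _ ?_
  intro R h hh
  have h1 : (π₁ ≫ T.f) ≫ h = 0 := by
    have := congrArg (fun q => biprod.inl ≫ q) hh
    simpa using this
  have h2 : Projective.factorThru π₃ T.g ≫ h = 0 := by
    have := congrArg (fun q => biprod.inr ≫ q) hh
    simpa using this
  have h3 : T.f ≫ h = 0 := by
    rw [Category.assoc] at h1
    rw [← cancel_epi π₁, h1, comp_zero]
  have h4 : T.g ≫ hT.exact.desc h h3 = h := hT.exact.g_desc h h3
  have h5 : π₃ ≫ hT.exact.desc h h3 = 0 := by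
    rw [← Projective.factorThru_comp π₃ T.g, Category.assoc, h4, h2]
  have h6 : hT.exact.desc h h3 = 0 := by
    rw [← cancel_epi π₃, h5, comp_zero]
  rw [← h4, h6, comp_zero]

/-- The kernel of an epimorphism from a finitely generated object to a finitely presented one.
Proof: let `π : X → T.X₃` be an epimorphism with `P X` and `K = kernel π` finitely generated, and
`ρ : Y → T.X₂` an epimorphism with `P Y`. `π = σ ≫ T.g`, `ρ ≫ T.g = τ ≫ π`, `ρ - τ ≫ σ = l ≫ T.f`,
`kernel.ι π ≫ σ = κ ≫ T.f`, and `X' ⊞ Y → K ⊞ Y → T.X₁` is an epimorphism. -/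
theorem FGe.of_shortExact (hP : CohP P) {T : ShortComplex C} (hT : T.ShortExact)
    (h2 : FGe P T.X₂) (h3 : FPr P T.X₃) : FGe P T.X₁ := by
  obtain ⟨X, π, hX, hπ, X', π', hX', hπ'⟩ := h3
  obtain ⟨Y, ρ, hY, hρ⟩ := h2
  have hg : Epi T.g := hT.epi_g
  have hf : Mono T.f := hT.mono_f
  have hXp : Projective X := hP.proj X hX
  have hYp : Projective Y := hP.proj Y hY
  obtain ⟨σ, hσ⟩ : ∃ σ : X ⟶ T.X₂, σ ≫ T.g = π :=
    ⟨Projective.factorThru π T.g, Projective.factorThru_comp π T.g⟩
  obtain ⟨τ, hτ⟩ : ∃ τ : Y ⟶ X, τ ≫ π = ρ ≫ T.g :=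
    ⟨Projective.factorThru (ρ ≫ T.g) π, Projective.factorThru_comp (ρ ≫ T.g) π⟩
  obtain ⟨l, hl⟩ : ∃ l : Y ⟶ T.X₁, l ≫ T.f = ρ - τ ≫ σ := by
    have h0 : (ρ - τ ≫ σ) ≫ T.g = 0 := by
      rw [Preadditive.sub_comp, Category.assoc, hσ, hτ, sub_self]
    exact ⟨hT.exact.lift _ h0, hT.exact.lift_f _ h0⟩
  obtain ⟨κ, hκ⟩ : ∃ κ : kernel π ⟶ T.X₁, κ ≫ T.f = kernel.ι π ≫ σ := by
    have h0 : (kernel.ι π ≫ σ) ≫ T.g = 0 := by
      rw [Category.assoc, hσ, kernel.condition]
    exact ⟨hT.exact.lift _ h0, hT.exact.lift_f _ h0⟩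
  refine ⟨X' ⊞ Y, biprod.desc (π' ≫ κ) l, hP.sum X' Y hX' hY, ?_⟩
  rw [epi_iff_surjective_up_to_refinements]
  intro A y
  obtain ⟨A', p, hp, z, hz⟩ := surjective_up_to_refinements_of_epi ρ (y ≫ T.f)
  have hw0 : (z ≫ τ) ≫ π = 0 := by
    rw [Category.assoc, hτ, ← Category.assoc, ← hz, Category.assoc, Category.assoc, T.zero,
      comp_zero, comp_zero]
  obtain ⟨w, hw⟩ : ∃ w : A' ⟶ kernel π, w ≫ kernel.ι π = z ≫ τ :=
    ⟨kernel.lift π _ hw0, kernel.lift_ι π _ hw0⟩
  obtain ⟨A'', p', hp', w', hw'⟩ := surjective_up_to_refinements_of_epi π' w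
  refine ⟨A'', p' ≫ p, epi_comp p' p, biprod.lift w' (p' ≫ z), ?_⟩
  rw [← cancel_mono T.f, biprod.lift_desc]
  have e1 : (w' ≫ π' ≫ κ) ≫ T.f = p' ≫ z ≫ τ ≫ σ := by
    rw [← Category.assoc w', ← hw', Category.assoc, Category.assoc, hκ, ← Category.assoc w, hw,
      Category.assoc]
  have e2 : ((p' ≫ z) ≫ l) ≫ T.f = p' ≫ z ≫ ρ - p' ≫ z ≫ τ ≫ σ := by
    rw [Category.assoc, Category.assoc, hl, Preadditive.comp_sub, Preadditive.comp_sub]
  rw [Preadditive.add_comp, e1, e2, ← hz]
  simp only [Category.assoc]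
  abel

end Pool.Agent.Lib.MP_c052b4_al.CT
end

section

/-!
# Coherent trees, G03: quotients and subobjects of finitely presented objects
-/

set_option autoImplicit false
set_option linter.unusedVariables false
set_option linter.unusedSectionVars false

namespace Pool.Agent.Lib.MP_c052b4_al.CT

open CategoryTheory Limits

universe v u

variable {C : Type u} [Category.{v} C] [Abelian C] {P : ObjectProperty C}

/-- Quotients of finitely presented objects by finitely generated subobjects.
Proof: let `π : X → T.X₂` be an epimorphism with `P X` and finitely generated kernel. The kernel of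
`π ≫ T.g` is an extension `0 → kernel π → kernel (π ≫ T.g) → T.X₁ → 0` (the second morphism is induced
by `π`, as `T.f` is the kernel of `T.g`; it is an epimorphism since `π` is one), so it is finitely
generated by `FGe.ext`. -/
theorem FPr.quot (hP : CohP P) {T : ShortComplex C} (hT : T.ShortExact)
    (h1 : FGe P T.X₁) (h2 : FPr P T.X₂) : FPr P T.X₃ := by
  obtain ⟨X, π, hX, hπ, hk⟩ := h2
  have := hT.mono_f
  have := hT.epi_g
  refine ⟨X, π ≫ T.g, hX, epi_comp _ _, ?_⟩
  have e1 : (kernel.ι (π ≫ T.g) ≫ π) ≫ T.g = 0 := by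
    rw [Category.assoc, kernel.condition]
  have e2 : kernel.ι π ≫ π ≫ T.g = 0 := by
    rw [← Category.assoc, kernel.condition, zero_comp]
  have e3 : kernel.lift (π ≫ T.g) (kernel.ι π) e2 ≫ hT.exact.lift _ e1 = 0 := by
    rw [← cancel_mono T.f, Category.assoc, ShortComplex.Exact.lift_f, ← Category.assoc,
      kernel.lift_ι, kernel.condition, zero_comp]
  have hm : Mono (kernel.lift (π ≫ T.g) (kernel.ι π) e2) :=
    mono_of_mono_fac (kernel.lift_ι (π ≫ T.g) (kernel.ι π) e2)
  have hS : (ShortComplex.mk _ _ e3).ShortExact := by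
    refine { exact := ?_, mono_f := hm, epi_g := ?_ }
    · refine ShortComplex.exact_of_f_is_kernel _ ?_
      refine KernelFork.IsLimit.ofι' _ _ fun {A} k hk => ⟨kernel.lift π (k ≫ kernel.ι _) ?_, ?_⟩
      · have h3 : k ≫ hT.exact.lift _ e1 = 0 := hk
        have h4 := congrArg (fun q => q ≫ T.f) h3
        simp only [Category.assoc, ShortComplex.Exact.lift_f, zero_comp] at h4
        rw [Category.assoc]
        exact h4
      · show kernel.lift π (k ≫ kernel.ι _) _ ≫ kernel.lift (π ≫ T.g) (kernel.ι π) e2 = k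
        rw [← cancel_mono (kernel.ι (π ≫ T.g)), Category.assoc, kernel.lift_ι, kernel.lift_ι]
    · show Epi (hT.exact.lift _ e1)
      rw [epi_iff_surjective_up_to_refinements]
      intro A y
      obtain ⟨A', π', hπ', x, hx⟩ := surjective_up_to_refinements_of_epi π (y ≫ T.f)
      have h5 : x ≫ π ≫ T.g = 0 := by
        rw [← Category.assoc, ← hx, Category.assoc, Category.assoc, T.zero, comp_zero, comp_zero]
      refine ⟨A', π', hπ', kernel.lift _ x h5, ?_⟩
      rw [← cancel_mono T.f, Category.assoc, Category.assoc, ShortComplex.Exact.lift_f,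
        ← Category.assoc (kernel.lift _ x h5), kernel.lift_ι, hx]
  exact FGe.ext hP hS hk h1

private theorem g03_mem (hP : CohP P) {A B : C} (i : A ⟶ B) [Mono i] (hA : FGe P A) (hB : P B) :
    FPr P A := by
  obtain ⟨Y, π, hY, hπ⟩ := hA
  exact ⟨Y, π, hY, hπ, (hP.ker (π ≫ i) hY hB).of_iso (kernelCompMono π i)⟩

private theorem g03_ker {X Y : C} (f : X ⟶ Y) [Epi f] :
    (ShortComplex.mk (kernel.ι f) f (kernel.condition f)).ShortExact where
  exact := ShortComplex.exact_of_f_is_kernel _ (kernelIsKernel f)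
  mono_f := by dsimp; infer_instance
  epi_g := by dsimp; infer_instance

/-- Finitely generated subobjects of finitely presented objects are finitely presented.
Proof: first let `P B`. If `π : Y → A` is an epimorphism with `P Y` then the kernel of `π` is the kernel
of `π ≫ i : Y → B`, which is finitely generated by `CohP.ker`. In general let `π : X → B` be an
epimorphism with `P X` and finitely generated kernel, `A' = pullback π i`. Then `A' → X` is a
monomorphism, and `A' → A` is an epimorphism with kernel isomorphic to `kernel π`. So `A'` is finitely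
generated (`FGe.ext`), hence finitely presented by the first case, and `A` is finitely presented by
`FPr.quot`. -/
theorem FPr.sub (hP : CohP P) {A B : C} (i : A ⟶ B) [Mono i] (hA : FGe P A) (hB : FPr P B) :
    FPr P A := by
  obtain ⟨X, π, hX, hπ, hk⟩ := hB
  have e1 : kernel.ι π ≫ π = (0 : kernel π ⟶ A) ≫ i := by rw [kernel.condition, zero_comp]
  have e2 : pullback.lift (kernel.ι π) 0 e1 ≫ pullback.snd π i = 0 := pullback.lift_snd _ _ _
  have e3 : (kernel.ι (pullback.snd π i) ≫ pullback.fst π i) ≫ π = 0 := by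
    rw [Category.assoc, pullback.condition, ← Category.assoc, kernel.condition, zero_comp]
  have e4 : kernel.lift π _ e3 ≫ kernel.lift (pullback.snd π i) _ e2 = 𝟙 _ := by
    rw [← cancel_mono (kernel.ι (pullback.snd π i)), Category.assoc, kernel.lift_ι,
      Category.id_comp]
    apply pullback.hom_ext
    · rw [Category.assoc, pullback.lift_fst, kernel.lift_ι]
    · rw [Category.assoc, pullback.lift_snd, comp_zero, kernel.condition]
  have : Epi (kernel.lift (pullback.snd π i) _ e2) := by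
    have : Epi (kernel.lift π _ e3 ≫ kernel.lift (pullback.snd π i) _ e2) := by
      rw [e4]
      infer_instance
    exact epi_of_epi (kernel.lift π _ e3) _
  have h1 : FGe P (kernel (pullback.snd π i)) := hk.of_epi (kernel.lift (pullback.snd π i) _ e2)
  have : Epi (pullback.snd π i) := inferInstance
  have hS := g03_ker (pullback.snd π i)
  have h2 : FGe P (pullback π i) := FGe.ext hP hS h1 hA
  have h3 : FPr P (pullback π i) := g03_mem hP (pullback.fst π i) h2 hX
  exact FPr.quot hP hS h1 h3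

end Pool.Agent.Lib.MP_c052b4_al.CT
end

section

/-!
# Coherent trees, G05: homology in a weak Serre class
-/

set_option autoImplicit false
set_option linter.unusedVariables false
set_option linter.unusedSectionVars false

namespace Pool.Agent.Lib.MP_c052b4_al.CT

open CategoryTheory Limits Pretriangulated
open Pool.Agent.Lib.MP_c052b4_al.MT

universe w v u

variable {C : Type u} [Category.{v} C] [Abelian C] {P : ObjectProperty C}

/-- Images. Proof: the image of `f` is the kernel of `Y → cokernel f`. -/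
theorem IsWS.image (hP : IsWS P) {X Y : C} (f : X ⟶ Y) (hX : P X) (hY : P Y) :
    P (Abelian.image f) := hP.ker _ hY (hP.coker f hX hY)

/-- The middle term of a five term exact sequence.
Proof: `0 → cokernel f₀ → X₂ → kernel f₃ → 0` is exact. -/
theorem IsWS.exact5 (hP : IsWS P) {X₀ X₁ X₂ X₃ X₄ : C} (f₀ : X₀ ⟶ X₁) (f₁ : X₁ ⟶ X₂)
    (f₂ : X₂ ⟶ X₃) (f₃ : X₃ ⟶ X₄) (w₁ : f₀ ≫ f₁ = 0) (w₂ : f₁ ≫ f₂ = 0) (w₃ : f₂ ≫ f₃ = 0)
    (e₁ : (ShortComplex.mk f₀ f₁ w₁).Exact) (e₂ : (ShortComplex.mk f₁ f₂ w₂).Exact)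
    (e₃ : (ShortComplex.mk f₂ f₃ w₃).Exact) (h₀ : P X₀) (h₁ : P X₁) (h₃ : P X₃) (h₄ : P X₄) :
    P X₂ := by
  have ha : Mono (cokernel.desc f₀ f₁ w₁) := e₁.mono_cokernelDesc
  have hb : Epi (kernel.lift f₃ f₂ w₃) := e₃.epi_kernelLift
  have w : cokernel.desc f₀ f₁ w₁ ≫ kernel.lift f₃ f₂ w₃ = 0 := by
    rw [← cancel_epi (cokernel.π f₀), ← cancel_mono (kernel.ι f₃)]
    simp [w₂]
  have hS : (ShortComplex.mk (cokernel.desc f₀ f₁ w₁) (kernel.lift f₃ f₂ w₃) w).ShortExact := by
    refine { exact := ?_, mono_f := ha, epi_g := hb }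
    rw [ShortComplex.exact_iff_exact_up_to_refinements] at e₂ ⊢
    intro A x hx
    change x ≫ kernel.lift f₃ f₂ w₃ = 0 at hx
    have h1 : x ≫ f₂ = 0 := by
      have h2 := congrArg (fun t => t ≫ kernel.ι f₃) hx
      simpa using h2
    obtain ⟨A', π, hπ, x₁, hx₁⟩ := e₂ x h1
    refine ⟨A', π, hπ, x₁ ≫ cokernel.π f₀, ?_⟩
    change π ≫ x = (x₁ ≫ cokernel.π f₀) ≫ cokernel.desc f₀ f₁ w₁
    rw [Category.assoc, cokernel.π_desc]
    exact hx₁
  exact hP.ext hS (hP.coker f₀ h₀ h₁) (hP.ker f₃ h₃ h₄)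

/-- Retracts. Proof: the retract `X` of `Y` (`i : X ⟶ Y`, `r : Y ⟶ X`, `i ≫ r = 𝟙`) is the kernel of
`𝟙 - r ≫ i : Y ⟶ Y`. -/
theorem IsWS.retract (hP : IsWS P) {X Y : C} (r : Retract X Y) (hY : P Y) : P X := by
  have h1 : r.i ≫ (𝟙 Y - r.r ≫ r.i) = 0 := by
    rw [Preadditive.comp_sub, Category.comp_id, ← Category.assoc, r.retract, Category.id_comp,
      sub_self]
  have h2 : kernel.ι (𝟙 Y - r.r ≫ r.i) ≫ r.r ≫ r.i = kernel.ι (𝟙 Y - r.r ≫ r.i) := by
    have h3 := kernel.condition (𝟙 Y - r.r ≫ r.i)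
    rw [Preadditive.comp_sub, Category.comp_id, sub_eq_zero] at h3
    exact h3.symm
  refine hP.iso (X := kernel (𝟙 Y - r.r ≫ r.i)) ?_ (hP.ker _ hY hY)
  exact
    { hom := kernel.ι _ ≫ r.r
      inv := kernel.lift _ r.i h1
      hom_inv_id := by
        rw [← cancel_mono (kernel.ι (𝟙 Y - r.r ≫ r.i)), Category.assoc, kernel.lift_ι,
          Category.id_comp, Category.assoc, h2]
      inv_hom_id := by
        rw [← Category.assoc, kernel.lift_ι, r.retract] }

variable [HasDerivedCategory.{w} C]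

open ZeroObject

/-- The same as `hIn_retracts`, for weak Serre classes. -/
theorem hIn_retracts' (hP : IsWS P) : (HIn P).IsStableUnderRetracts where
  of_retract r h q := hP.retract (r.map (DerivedCategory.homologyFunctor C q)) (h q)

/-- `HIn P` is a triangulated subcategory, for a weak Serre class `P` (same proof as
`MT.hIn_triangulated`, with `IsWS.exact5` for the sequence
`H_{q-1}(X₃) → H_q(X₁) → H_q(X₂) → H_q(X₃) → H_{q+1}(X₁)`,
`DerivedCategory.HomologySequence.exact₁`, `exact₂`, `exact₃`). -/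
theorem hIn_triangulated' (hP : IsWS P) : (HIn P).IsTriangulated where
  exists_zero := by
    refine ⟨0, isZero_zero _, fun q => ?_⟩
    exact hP.zero _ ((DerivedCategory.homologyFunctor C q).map_isZero (isZero_zero _))
  isStableUnderShiftBy n :=
    { le_shift := by
        intro X hX q
        exact hP.iso (((DerivedCategory.homologyFunctor C 0).shiftIso n q (q + n)
          (by rw [add_comm])).app X).symm (hX (q + n)) }
  ext₂' T hT h₁ h₃ := by
    refine ObjectProperty.le_isoClosure _ _ (fun q => ?_)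
    exact hP.exact5 _ _ _ _ _ _ _
      (DerivedCategory.HomologySequence.exact₁ T hT (q - 1) q (by lia))
      (DerivedCategory.HomologySequence.exact₂ T hT q)
      (DerivedCategory.HomologySequence.exact₃ T hT q (q + 1) rfl) (h₃ (q - 1)) (h₁ q) (h₃ q)
      (h₁ (q + 1))

/-- `HIn P` is closed under isomorphisms. -/
theorem hIn_iso' (hP : IsWS P) : (HIn P).IsClosedUnderIsomorphisms where
  of_iso e h q := hP.iso ((DerivedCategory.homologyFunctor C q).mapIso e) (h q)

end Pool.Agent.Lib.MP_c052b4_al.CT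
end
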