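import Mathlib.GroupTheory.HNNExtension
import Pool.Agent.Lib.MP_c052b4_al.Mg.G067
import Pool.Agent.Lib.MP_c052b4_al.K1Pres
import Pool.Agent.Lib.MP_c052b4_al.TauG
import Pool.Agent.Lib.MP_c052b4_al.NilK

section

/-!
# Replacing the degree zero part of a complex; mapping cylinders
-/

set_option autoImplicit false
set_option linter.unusedSectionVars false

namespace Pool.Agent.Lib.MP_c052b4_al

open Matrix

universe u v w

variable {A : Type u} [Ring A]

/-- projection to degree zero -/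
def P0 (Y : DM A) : Matrix Y.t Y.t A := Matrix.diagonal fun i => if Y.deg i = 0 then 1 else 0

/-- projection to positive degrees -/
def P1 (Y : DM A) : Matrix Y.t Y.t A := Matrix.diagonal fun i => if Y.deg i = 0 then 0 else 1

section Proj

variable {Y : DM A} {κ : Type*}

theorem P0_add_P1 : P0 Y + P1 Y = 1 := by
  unfold P0 P1
  rw [Matrix.diagonal_add, ← Matrix.diagonal_one]
  congr 1
  funext i
  split_ifs <;> simp

theorem P0_mul_pos {M : Matrix Y.t κ A} (h : ∀ i j, M i j ≠ 0 → Y.deg i ≠ 0) : P0 Y * M = 0 := by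
  ext i j
  unfold P0
  rw [Matrix.diagonal_mul, Matrix.zero_apply]
  split_ifs with hi
  · by_contra hne
    rw [one_mul] at hne
    exact h i j hne hi
  · rw [zero_mul]

theorem P1_mul_pos {M : Matrix Y.t κ A} (h : ∀ i j, M i j ≠ 0 → Y.deg i ≠ 0) : P1 Y * M = M := by
  have := congrArg (· * M) (P0_add_P1 (Y := Y))
  simp only [Matrix.add_mul, P0_mul_pos h, zero_add, Matrix.one_mul] at this
  exact this

theorem P1_mul_zero {M : Matrix Y.t κ A} (h : ∀ i, Y.deg i ≠ 0 → M i = 0) : P1 Y * M = 0 := by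
  ext i j
  unfold P1
  rw [Matrix.diagonal_mul, Matrix.zero_apply]
  split_ifs with hi
  · rw [zero_mul]
  · rw [h i hi]
    simp

theorem P0_mul_zero {M : Matrix Y.t κ A} (h : ∀ i, Y.deg i ≠ 0 → M i = 0) : P0 Y * M = M := by
  have := congrArg (· * M) (P0_add_P1 (Y := Y))
  simp only [Matrix.add_mul, P1_mul_zero h, add_zero, Matrix.one_mul] at this
  exact this

theorem vecMul_P0 (x : Y.t → A) : x ᵥ* P0 Y = prt Y.deg 0 x := by
  funext i
  unfold P0 prt
  rw [Matrix.vecMul_diagonal]
  split_ifs <;> simp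

theorem vecMul_P1 (x : Y.t → A) : x ᵥ* P1 Y = x - prt Y.deg 0 x := by
  funext i
  unfold P1 prt
  rw [Matrix.vecMul_diagonal, Pi.sub_apply]
  split_ifs <;> simp

theorem vecMul_P1_eq {x : Y.t → A} (h : ∀ i, Y.deg i = 0 → x i = 0) : x ᵥ* P1 Y = x := by
  rw [vecMul_P1]
  have : prt Y.deg 0 x = 0 := by
    funext i
    unfold prt
    split_ifs with hi
    · exact h i hi
    · rfl
  rw [this, sub_zero]

theorem low_pos {t' : Type*} {deg' : t' → ℕ} {c : ℕ} {M : Matrix Y.t t' A}
    (h : Low Y.deg deg' (c + 1) M) : ∀ i j, M i j ≠ 0 → Y.deg i ≠ 0 := fun i j hij => by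
  rw [h i j hij]
  omega

theorem Low.mul {t t' t'' : Type*} [Fintype t'] {d : t → ℕ} {d' : t' → ℕ} {d'' : t'' → ℕ}
    {a b : ℕ} {f : Matrix t t' A} {g : Matrix t' t'' A} (hf : Low d d' a f) (hg : Low d' d'' b g) :
    Low d d'' (b + a) (f * g) := by
  intro i k h
  obtain ⟨j, h1, h2⟩ := mul_ne_zero' h
  rw [hf i j h1, hg j k h2, add_assoc]

end Proj

section WDef

variable (Y V : DM A) (θ : Matrix Y.t V.t A) (hθ : Low Y.deg V.deg 1 θ)
  (hθD : θ * V.D = - (Y.D * θ))

/-- the complex `V ⊕ Y`, the degree zero part of `Y` being isolated -/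
abbrev wDM : DM A where
  t := V.t ⊕ Y.t
  deg := Sum.elim V.deg Y.deg
  D := Matrix.fromBlocks V.D 0 θ (Y.D * P1 Y)
  hD := by
    rintro (i | i) (j | j) h
    · exact V.hD i j h
    · exact absurd rfl h
    · exact hθ i j h
    · rw [Matrix.fromBlocks_apply₂₂] at h
      refine Y.hD i j fun h0 => h ?_
      unfold P1
      rw [Matrix.mul_diagonal, h0, zero_mul]
  sq := by
    rw [Matrix.fromBlocks_multiply, V.sq, Matrix.mul_assoc, P1_mul_pos (low_pos hθ),
      Matrix.mul_assoc Y.D, ← Matrix.mul_assoc (P1 Y), P1_mul_pos (low_pos Y.hD),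
      ← Matrix.mul_assoc Y.D, Y.sq, hθD]
    simp [← Matrix.fromBlocks_zero]

/-- the submodule `J''` -/
def wJ (ρ : Matrix V.t Y.t A) (J : Submodule A (Y.t → A)) (L : Submodule A (V.t → A)) :
    Submodule A (V.t ⊕ Y.t → A) where
  carrier := {x | x ∘ Sum.inl ∈ L ∧ (∀ i, Y.deg i = 0 → x (Sum.inr i) = 0) ∧
    (x ∘ Sum.inl) ᵥ* ρ + x ∘ Sum.inr ∈ J}
  add_mem' := by
    rintro x y ⟨h1, h2, h3⟩ ⟨h4, h5, h6⟩
    refine ⟨L.add_mem h1 h4, fun i hi => ?_, ?_⟩
    · rw [Pi.add_apply, h2 i hi, h5 i hi, add_zero]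
    · have e1 : (x + y) ∘ Sum.inl = x ∘ Sum.inl + (y ∘ Sum.inl : V.t → A) := rfl
      have e2 : (x + y) ∘ Sum.inr = x ∘ Sum.inr + (y ∘ Sum.inr : Y.t → A) := rfl
      rw [e1, e2, Matrix.add_vecMul, add_add_add_comm]
      exact J.add_mem h3 h6
  zero_mem' := by
    refine ⟨L.zero_mem, fun i _ => rfl, ?_⟩
    have e1 : (0 : V.t ⊕ Y.t → A) ∘ Sum.inl = 0 := rfl
    have e2 : (0 : V.t ⊕ Y.t → A) ∘ Sum.inr = 0 := rfl
    rw [e1, e2, Matrix.zero_vecMul, add_zero]
    exact J.zero_mem
  smul_mem' := by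
    rintro c x ⟨h1, h2, h3⟩
    refine ⟨L.smul_mem c h1, fun i hi => ?_, ?_⟩
    · rw [Pi.smul_apply, h2 i hi, smul_zero]
    · have e1 : (c • x) ∘ Sum.inl = c • (x ∘ Sum.inl : V.t → A) := rfl
      have e2 : (c • x) ∘ Sum.inr = c • (x ∘ Sum.inr : Y.t → A) := rfl
      rw [e1, e2, Matrix.smul_vecMul, ← smul_add]
      exact J.smul_mem c h3

variable {Y V θ}

theorem wDM_vecMul (x : V.t ⊕ Y.t → A) :
    x ᵥ* (wDM Y V θ hθ hθD).D = Sum.elim ((x ∘ Sum.inl) ᵥ* V.D + (x ∘ Sum.inr) ᵥ* θ)
      ((x ∘ Sum.inr) ᵥ* (Y.D * P1 Y)) := by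
  change x ᵥ* Matrix.fromBlocks V.D 0 θ (Y.D * P1 Y) = _
  rw [Matrix.vecMul_fromBlocks, Matrix.vecMul_zero, zero_add]

theorem mem_J_vecMul_of_rows {s : Type} [Fintype s] {t : Type} {J : Submodule A (t → A)}
    {M : Matrix s t A} (h : ∀ i, M i ∈ J) (x : s → A) : x ᵥ* M ∈ J := by
  have : x ᵥ* M = ∑ i, x i • M i := by
    funext j
    simp [Matrix.vecMul, dotProduct, Finset.sum_apply]
  rw [this]
  exact J.sum_mem fun i _ => J.smul_mem _ (h i)

theorem wDM_rz {ι : Type} {π : Matrix Y.t ι A} {J : Submodule A (Y.t → A)} (hJ : Rz Y π J)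
    {ρ : Matrix V.t Y.t A} {L : Submodule A (V.t → A)} (hL : Rz V ρ L) (hρ : ρ * P1 Y = 0)
    (hθL : ∀ i, θ i ∈ L) (hθρ : θ * ρ = Y.D * P0 Y) :
    Rz (wDM Y V θ hθ hθD) (Matrix.fromRows (ρ * π) 0) (wJ Y V ρ J L) := by
  have hP0D : P0 Y * Y.D = 0 := P0_mul_pos (low_pos Y.hD)
  have hP0θ : P0 Y * θ = 0 := P0_mul_pos (low_pos hθ)
  have hρ0 : ρ * P0 Y = ρ := by
    have := congrArg (ρ * ·) (P0_add_P1 (Y := Y))
    simp only [Matrix.mul_add, hρ, add_zero, Matrix.mul_one] at this
    exact this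
  have hρD : ρ * Y.D = 0 := by
    rw [← hρ0, Matrix.mul_assoc, hP0D, Matrix.mul_zero]
  have hρθ : ρ * θ = 0 := by
    rw [← hρ0, Matrix.mul_assoc, hP0θ, Matrix.mul_zero]
  have hDP : Y.D = Y.D * P0 Y + Y.D * P1 Y := by
    rw [← Matrix.mul_add, P0_add_P1, Matrix.mul_one]
  constructor
  · rintro (i | i) hi
    · change (ρ * π) i = 0
      rw [row_vecMul, hL.p0 i hi, Matrix.zero_vecMul]
    · rfl
  · change Matrix.fromBlocks V.D 0 θ (Y.D * P1 Y) * Matrix.fromRows (ρ * π) 0 = 0
    rw [Matrix.fromBlocks_mul_fromRows]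
    rw [← Matrix.mul_assoc, hL.Dp, ← Matrix.mul_assoc, hθρ, Matrix.mul_assoc,
      P0_mul_zero hJ.p0, hJ.Dp]
    simp
  · rintro x ⟨h1, h2, h3⟩ k
    have e1 : prt (wDM Y V θ hθ hθD).deg k x ∘ Sum.inl = prt V.deg k (x ∘ Sum.inl) := rfl
    have e2 : prt (wDM Y V θ hθ hθD).deg k x ∘ Sum.inr = prt Y.deg k (x ∘ Sum.inr) := rfl
    have e3 : ∀ i, prt (wDM Y V θ hθ hθD).deg k x (Sum.inr i) =
      prt Y.deg k (x ∘ Sum.inr) i := fun _ => rfl
    refine ⟨by rw [e1]; exact hL.gr _ h1 k, fun i hi => ?_, ?_⟩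
    · rw [e3]
      unfold prt
      split_ifs
      · exact h2 i hi
      · rfl
    · rw [e1, e2]
      have hd : prt Y.deg 0 ((x ∘ Sum.inl) ᵥ* ρ) = (x ∘ Sum.inl) ᵥ* ρ := by
        rw [← vecMul_P0, Matrix.vecMul_vecMul, hρ0]
      have hk : prt V.deg k (x ∘ Sum.inl) ᵥ* ρ = prt Y.deg k ((x ∘ Sum.inl) ᵥ* ρ) := by
        by_cases hk : k = 0
        · subst hk
          rw [hL.prt_zero_vecMul, hd]
        · rw [hL.vecMul_pos fun i hi => by rw [deg_of_prt hi]; exact hk, ← hd]
          funext i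
          unfold prt
          split_ifs with h4 h5
          · exact absurd (h4.symm.trans h5) hk
          · rfl
          · rfl
      rw [hk, ← prt_add]
      exact hJ.gr _ h3 k
  · rintro x ⟨h1, h2, h3⟩
    rw [wDM_vecMul]
    refine ⟨L.add_mem (hL.st _ h1) (mem_J_vecMul_of_rows hθL _), fun i hi => ?_, ?_⟩
    · rw [Sum.elim_inr, ← Matrix.vecMul_vecMul, vecMul_P1, Pi.sub_apply]
      unfold prt
      rw [if_pos hi, sub_self]
    · rw [Sum.elim_comp_inl, Sum.elim_comp_inr, Matrix.add_vecMul, Matrix.vecMul_vecMul,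
        hL.Dp, Matrix.vecMul_zero, zero_add, Matrix.vecMul_vecMul, hθρ, ← Matrix.vecMul_add,
        ← hDP]
      have := hJ.st _ h3
      rw [Matrix.add_vecMul, Matrix.vecMul_vecMul, hρD, Matrix.vecMul_zero, zero_add] at this
      exact this
  · rintro x ⟨h1, h2, h3⟩ h4 h5
    rw [wDM_vecMul] at h4
    have h4a : (x ∘ Sum.inl) ᵥ* V.D + (x ∘ Sum.inr) ᵥ* θ = 0 :=
      congrArg (fun z : V.t ⊕ Y.t → A => z ∘ Sum.inl) h4
    have h4b : (x ∘ Sum.inr) ᵥ* (Y.D * P1 Y) = 0 :=
      congrArg (fun z : V.t ⊕ Y.t → A => z ∘ Sum.inr) h4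
    have h5a : ((x ∘ Sum.inl) ᵥ* ρ) ᵥ* π = 0 := by
      rw [Matrix.vecMul_fromRows, Matrix.vecMul_zero, add_zero] at h5
      rw [Matrix.vecMul_vecMul]
      exact h5
    set v : V.t → A := x ∘ Sum.inl with hv
    set y : Y.t → A := x ∘ Sum.inr with hy
    have h6 : (v ᵥ* ρ + y) ᵥ* Y.D = 0 := by
      rw [Matrix.add_vecMul, Matrix.vecMul_vecMul, hρD, Matrix.vecMul_zero, zero_add, hDP,
        Matrix.vecMul_add, h4b, add_zero, ← hθρ, ← Matrix.vecMul_vecMul]
      have : y ᵥ* θ = - (v ᵥ* V.D) := by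
        rw [eq_neg_iff_add_eq_zero, add_comm]
        exact h4a
      rw [this, Matrix.neg_vecMul, Matrix.vecMul_vecMul, hL.Dp, Matrix.vecMul_zero, neg_zero]
    have h7 : (v ᵥ* ρ + y) ᵥ* π = 0 := by
      rw [Matrix.add_vecMul, h5a, zero_add]
      refine hJ.vecMul_pos fun i hi hd => hi ?_
      exact h2 i hd
    obtain ⟨z, hz, hzD⟩ := hJ.ex _ h3 h6 h7
    set y' : Y.t → A := z ᵥ* P1 Y with hy'
    have hy'J : y' ∈ J := by
      rw [hy', vecMul_P1]
      exact J.sub_mem hz (hJ.gr _ hz 0)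
    have hy'D : y' ᵥ* Y.D = v ᵥ* ρ + y := by
      rw [hy', Matrix.vecMul_vecMul, P1_mul_pos (low_pos Y.hD), hzD]
    have hyP : y ᵥ* P1 Y = y := vecMul_P1_eq fun i hi => h2 i hi
    have h8 : v - y' ᵥ* θ ∈ L := L.sub_mem h1 (mem_J_vecMul_of_rows hθL _)
    have h9 : (v - y' ᵥ* θ) ᵥ* V.D = 0 := by
      rw [Matrix.sub_vecMul, Matrix.vecMul_vecMul, hθD, Matrix.vecMul_neg,
        ← Matrix.vecMul_vecMul, hy'D, Matrix.add_vecMul, Matrix.vecMul_vecMul v ρ, hρθ,
        Matrix.vecMul_zero, zero_add, sub_neg_eq_add, h4a]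
    have h10 : (v - y' ᵥ* θ) ᵥ* ρ = 0 := by
      rw [Matrix.sub_vecMul, Matrix.vecMul_vecMul, hθρ, ← Matrix.vecMul_vecMul, hy'D,
        Matrix.add_vecMul, Matrix.vecMul_vecMul, hρ0]
      have : y ᵥ* P0 Y = 0 := by
        rw [← hyP, Matrix.vecMul_vecMul]
        have : P1 Y * P0 Y = 0 := by
          refine P1_mul_zero fun i hi => ?_
          funext j
          unfold P0
          rw [Matrix.diagonal_apply]
          split_ifs <;> rfl
        rw [this, Matrix.vecMul_zero]
      rw [this, add_zero, sub_self]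
    obtain ⟨v', hv', hv'D⟩ := hL.ex _ h8 h9 h10
    have hv0 : prt V.deg 0 v' ᵥ* V.D = 0 := vecMul_prt_eq_zero V.hD (Nat.zero_lt_one) v'
    have hvρ : (v' - prt V.deg 0 v') ᵥ* ρ = 0 := by
      rw [Matrix.sub_vecMul, hL.prt_zero_vecMul, sub_self]
    refine ⟨Sum.elim (v' - prt V.deg 0 v') y', ⟨?_, fun i hi => ?_, ?_⟩, ?_⟩
    · rw [Sum.elim_comp_inl]
      exact L.sub_mem hv' (hL.gr _ hv' 0)
    · rw [Sum.elim_inr, hy', vecMul_P1, Pi.sub_apply]
      unfold prt
      rw [if_pos hi, sub_self]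
    · rw [Sum.elim_comp_inl, Sum.elim_comp_inr, hvρ, zero_add]
      exact hy'J
    · rw [wDM_vecMul, Sum.elim_comp_inl, Sum.elim_comp_inr, Matrix.sub_vecMul, hv0, sub_zero,
        hv'D, sub_add_cancel, ← Matrix.vecMul_vecMul, hy'D, Matrix.add_vecMul,
        Matrix.vecMul_vecMul, hρ, Matrix.vecMul_zero, zero_add, hyP]
      exact Sum.elim_comp_inl_inr x

/-- the projection `ι : W → Y` -/
def wι (ρ : Matrix V.t Y.t A) : Matrix (V.t ⊕ Y.t) Y.t A := Matrix.fromRows ρ (P1 Y)

theorem wι_chain {ρ : Matrix V.t Y.t A} (hρD : V.D * ρ = 0) (hρ : ρ * P1 Y = 0)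
    (hθρ : θ * ρ = Y.D * P0 Y) : (wDM Y V θ hθ hθD).D * wι ρ = wι ρ * Y.D := by
  have hP0D : P0 Y * Y.D = 0 := P0_mul_pos (low_pos Y.hD)
  have hρ0 : ρ * P0 Y = ρ := by
    have := congrArg (ρ * ·) (P0_add_P1 (Y := Y))
    simp only [Matrix.mul_add, hρ, add_zero, Matrix.mul_one] at this
    exact this
  have hρD' : ρ * Y.D = 0 := by
    rw [← hρ0, Matrix.mul_assoc, hP0D, Matrix.mul_zero]
  have hP : P1 Y * P1 Y = P1 Y := P1_mul_pos fun i j hij h0 => hij (by
    unfold P1
    rw [Matrix.diagonal_apply]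
    split_ifs <;> rfl)
  change Matrix.fromBlocks V.D 0 θ (Y.D * P1 Y) * Matrix.fromRows ρ (P1 Y) =
    Matrix.fromRows ρ (P1 Y) * Y.D
  rw [Matrix.fromBlocks_mul_fromRows, Matrix.fromRows_mul, hρD, hρD', Matrix.zero_mul, add_zero,
    hθρ, Matrix.mul_assoc, hP, P1_mul_pos (low_pos Y.hD), ← Matrix.mul_add, P0_add_P1,
    Matrix.mul_one]

theorem wι_mem {ρ : Matrix V.t Y.t A} {J : Submodule A (Y.t → A)} {L : Submodule A (V.t → A)}
    {x : V.t ⊕ Y.t → A} (h : x ∈ wJ Y V ρ J L) : x ᵥ* wι ρ ∈ J := by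
  unfold wι
  rw [Matrix.vecMul_fromRows, vecMul_P1_eq (x := x ∘ Sum.inr) fun i hi => h.2.1 i hi]
  exact h.2.2

theorem wι_low {ρ : Matrix V.t Y.t A} (hρ0 : ∀ i, V.deg i ≠ 0 → ρ i = 0) (hρ : ρ * P1 Y = 0) :
    Low (wDM Y V θ hθ hθD).deg Y.deg 0 (wι ρ) := by
  rintro (i | i) j hij
  · change V.deg i = Y.deg j + 0
    have h1 : V.deg i = 0 := by
      by_contra hne
      exact hij (congrFun (hρ0 i hne) j)
    have h2 : Y.deg j = 0 := by
      by_contra hne
      apply hij
      have := congrFun (congrFun hρ i) j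
      unfold P1 at this
      rw [Matrix.mul_diagonal, if_neg hne, mul_one] at this
      exact this
    rw [h1, h2]
  · change Y.deg i = Y.deg j + 0
    have : i = j := by
      by_contra hne
      exact hij (by
        change P1 Y i j = 0
        exact Matrix.diagonal_apply_ne _ hne)
    rw [this, add_zero]

end WDef

section Cyl

variable (W Y : DM A)

/-- the direct sum of `W` and the cone of the identity of `Y` -/
abbrev cDM : DM A where
  t := W.t ⊕ (Y.t ⊕ Y.t)
  deg := Sum.elim W.deg (Sum.elim Y.deg fun i => Y.deg i + 1)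
  D := Matrix.fromBlocks W.D 0 0 (Matrix.fromBlocks Y.D 0 1 (-Y.D))
  hD := by
    rintro (i | i | i) (j | j | j) h
    · exact W.hD i j h
    · exact absurd rfl h
    · exact absurd rfl h
    · exact absurd rfl h
    · exact Y.hD i j h
    · exact absurd rfl h
    · exact absurd rfl h
    · have hij : i = j := by
        by_contra hne
        exact h (Matrix.one_apply_ne hne)
      subst hij
      rfl
    · have : Y.D i j ≠ 0 := fun h0 => h (by
        change - Y.D i j = 0
        rw [h0, neg_zero])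
      change Y.deg i + 1 = Y.deg j + 1 + 1
      rw [Y.hD i j this]
  sq := by
    rw [Matrix.fromBlocks_multiply, Matrix.fromBlocks_multiply, W.sq, Y.sq]
    simp [Y.sq]

variable {W Y}

/-- the inclusion of `Y` -/
def cj (j : Matrix Y.t W.t A) : Matrix Y.t (W.t ⊕ (Y.t ⊕ Y.t)) A :=
  Matrix.fromCols j (Matrix.fromCols 1 0)

/-- the projection to `Y` -/
def ci (ι : Matrix W.t Y.t A) (h E : Matrix Y.t Y.t A) : Matrix (W.t ⊕ (Y.t ⊕ Y.t)) Y.t A :=
  Matrix.fromRows ι (Matrix.fromRows h E)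

/-- the homotopy -/
def cE (ι : Matrix W.t Y.t A) (j : Matrix Y.t W.t A) (E : Matrix Y.t Y.t A) :
    Matrix (W.t ⊕ (Y.t ⊕ Y.t)) (W.t ⊕ (Y.t ⊕ Y.t)) A :=
  Matrix.fromBlocks 0 (Matrix.fromCols 0 ι) (Matrix.fromRows (E * j) 0)
    (Matrix.fromBlocks E 0 0 0)

theorem cj_mul_ci (ι : Matrix W.t Y.t A) (j : Matrix Y.t W.t A) (h E : Matrix Y.t Y.t A) :
    cj j * ci ι h E = j * ι + h := by
  unfold cj ci
  rw [Matrix.fromCols_mul_fromRows, Matrix.fromCols_mul_fromRows]
  simp

theorem ci_mul_cj (ι : Matrix W.t Y.t A) (j : Matrix Y.t W.t A) (h E : Matrix Y.t Y.t A) :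
    ci ι h E * cj j = Matrix.fromBlocks (ι * j) (Matrix.fromCols ι 0)
      (Matrix.fromRows (h * j) (E * j)) (Matrix.fromBlocks h 0 E 0) := by
  unfold cj ci
  rw [Matrix.fromRows_mul_fromCols, Matrix.fromRows_mul_fromCols, Matrix.mul_fromCols,
    Matrix.fromRows_mul]
  simp

theorem c_homotopy {ι : Matrix W.t Y.t A} {j : Matrix Y.t W.t A} {E : Matrix Y.t Y.t A}
    (hι : W.D * ι = ι * Y.D) (hj : j * W.D = Y.D * j) :
    ci ι (E * Y.D + Y.D * E) E * cj j - Matrix.fromBlocks (ι * j) 0 0 0 =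
      cE ι j E * (cDM W Y).D + (cDM W Y).D * cE ι j E := by
  rw [ci_mul_cj]
  change _ = cE ι j E * Matrix.fromBlocks W.D 0 0 (Matrix.fromBlocks Y.D 0 1 (-Y.D)) +
    Matrix.fromBlocks W.D 0 0 (Matrix.fromBlocks Y.D 0 1 (-Y.D)) * cE ι j E
  unfold cE
  have h1 : E * j * W.D + Y.D * (E * j) = (E * Y.D + Y.D * E) * j := by
    rw [Matrix.mul_assoc, hj, Matrix.add_mul, Matrix.mul_assoc, Matrix.mul_assoc]
  simp only [Matrix.fromBlocks_multiply, Matrix.fromCols_mul_fromBlocks,
    Matrix.fromBlocks_mul_fromRows, Matrix.mul_zero, Matrix.zero_mul, add_zero, zero_add,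
    Matrix.mul_one, Matrix.one_mul, Matrix.fromRows_mul, Matrix.mul_fromCols, Matrix.mul_neg,
    neg_zero]
  rw [sub_eq_add_neg, Matrix.fromBlocks_neg, Matrix.fromBlocks_add, Matrix.fromBlocks_add]
  congr 1
  · simp
  · ext i (k | k)
    · simp
    · simp [hι]
  · ext (i | i) k
    · have := congrFun (congrFun h1 i) k
      simpa using this.symm
    · simp
  · ext (i | i) (k | k) <;> simp

end Cyl

end Pool.Agent.Lib.MP_c052b4_al
end

section

/-!
# Comparison of the two descriptions of `K₁`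
-/

set_option autoImplicit false

namespace Pool.Agent.Lib.MP_c052b4_al

open Matrix

universe u v w

section Iso

variable {S : Type u} [Ring S] {T : Type v} [Ring T]

theorem isPlusOne_stab {k : ℕ} (A : GLk S k) : IsPlusOne A.val (stabHom S k A).val := by
  have h0 : (stabHom S k A).val = (fromBlocks A.val 0 0 (1 : Matrix (Fin 1) (Fin 1) S)).submatrix
    finSumFinEquiv.symm finSumFinEquiv.symm := rfl
  have h1 : ∀ i : Fin k, i.castSucc = finSumFinEquiv (Sum.inl i : Fin k ⊕ Fin 1) := fun i => by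
    ext; simp
  have h2 : Fin.last k = finSumFinEquiv (Sum.inr 0 : Fin k ⊕ Fin 1) := by
    ext; simp
  rw [h0]
  refine ⟨fun i j => ?_, fun i => ⟨?_, ?_⟩, ?_⟩
  · rw [h1, h1, Matrix.submatrix_apply, Equiv.symm_apply_apply, Equiv.symm_apply_apply]
    rfl
  · rw [h1, h2, Matrix.submatrix_apply, Equiv.symm_apply_apply, Equiv.symm_apply_apply]
    rfl
  · rw [h1, h2, Matrix.submatrix_apply, Equiv.symm_apply_apply, Equiv.symm_apply_apply]
    rfl
  · rw [h2, Matrix.submatrix_apply, Equiv.symm_apply_apply]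
    simp

theorem eq_stab {k : ℕ} {A : GLk S k} {B : GLk S (k + 1)} (h : IsPlusOne A.val B.val) :
    B = stabHom S k A := by
  have h' := isPlusOne_stab A
  apply Units.ext
  refine Matrix.ext fun i j => ?_
  induction i using Fin.lastCases with
  | last =>
    induction j using Fin.lastCases with
    | last => rw [h.2.2, h'.2.2]
    | cast j => rw [(h.2.1 j).2, (h'.2.1 j).2]
  | cast i =>
    induction j using Fin.lastCases with
    | last => rw [(h.2.1 i).1, (h'.2.1 i).1]
    | cast j => rw [h.1, h'.1]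

theorem glMap_eq {k : ℕ} (f : S →+* T) (A : GLk S k) : glMap f A = mU f A := by
  apply Units.ext
  rfl

/-- the map on generators -/
noncomputable def phi0 (S : Type u) [Ring S] : FreeGL S →+ KOne S :=
  FreeAbelianGroup.lift fun x => kf x.1 x.2

theorem phi0_gen {k : ℕ} (A : GLk S k) : phi0 S (gen A) = kf k A :=
  FreeAbelianGroup.lift_apply_of _ _

theorem phi0_rel : k1Rel S ≤ (phi0 S).ker := by
  unfold k1Rel
  rw [AddSubgroup.closure_le]
  rintro _ (⟨k, A, B, rfl⟩ | ⟨k, A, B, hAB, rfl⟩)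
  · change phi0 S _ = 0
    rw [map_sub, map_add, phi0_gen, phi0_gen, phi0_gen, kf_mul, sub_self]
  · change phi0 S _ = 0
    rw [map_sub, phi0_gen, phi0_gen, eq_stab hAB, kf_stab, sub_self]

/-- the comparison map -/
noncomputable def phi (S : Type u) [Ring S] : K1Grp S →+ KOne S :=
  QuotientAddGroup.lift (k1Rel S) (phi0 S) phi0_rel

theorem phi_cls {k : ℕ} (A : GLk S k) : phi S (k1Cls A) = kf k A := phi0_gen A

theorem k1Cls_mul {k : ℕ} (A B : GLk S k) : k1Cls (A * B) = k1Cls A + k1Cls B := by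
  unfold k1Cls
  have h : gen (A * B) - (gen A + gen B) ∈ k1Rel S :=
    AddSubgroup.subset_closure (Or.inl ⟨k, A, B, rfl⟩)
  have h1 : (QuotientAddGroup.mk (gen (A * B)) : FreeGL S ⧸ k1Rel S) =
      QuotientAddGroup.mk (gen A + gen B) := by
    rw [QuotientAddGroup.eq, ← AddSubgroup.neg_mem_iff]
    convert h using 1
    abel
  exact h1

theorem k1Cls_stab {k : ℕ} (A : GLk S k) : k1Cls (stabHom S k A) = k1Cls A := by
  unfold k1Cls
  have h : gen (stabHom S k A) - gen A ∈ k1Rel S :=
    AddSubgroup.subset_closure (Or.inr ⟨k, A, _, isPlusOne_stab A, rfl⟩)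
  have h1 : (QuotientAddGroup.mk (gen (stabHom S k A)) : FreeGL S ⧸ k1Rel S) =
      QuotientAddGroup.mk (gen A) := by
    rw [QuotientAddGroup.eq, ← AddSubgroup.neg_mem_iff]
    convert h using 1
    abel
  exact h1

theorem k1Cls_one (k : ℕ) : k1Cls (1 : GLk S k) = 0 := by
  have h := k1Cls_mul (1 : GLk S k) 1
  rw [mul_one] at h
  exact left_eq_add.1 h

/-- the class as a homomorphism -/
noncomputable def clsHom (S : Type u) [Ring S] (k : ℕ) : GLk S k →* Multiplicative (K1Grp S) where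
  toFun A := Multiplicative.ofAdd (k1Cls A)
  map_one' := by rw [k1Cls_one]; rfl
  map_mul' A B := by rw [k1Cls_mul]; rfl

/-- the inverse of the comparison map -/
noncomputable def psi (S : Type u) [Ring S] : KOne S →+ K1Grp S :=
  KOne.desc (Omega.lift (stabHom S) (fun k => clsHom S k) (by
    intro k A
    change Multiplicative.ofAdd (k1Cls (stabHom S k A)) = Multiplicative.ofAdd (k1Cls A)
    rw [k1Cls_stab]))

theorem psi_kf (k : ℕ) (A : GLk S k) : psi S (kf k A) = k1Cls A := rfl

theorem psi_phi (x : K1Grp S) : psi S (phi S x) = x := by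
  have h : ((psi S).comp (phi S)).comp (QuotientAddGroup.mk' (k1Rel S)) =
      QuotientAddGroup.mk' (k1Rel S) := by
    apply FreeAbelianGroup.lift_ext
    rintro ⟨k, A⟩
    change psi S (phi S (k1Cls A)) = k1Cls A
    rw [phi_cls, psi_kf]
  obtain ⟨y, rfl⟩ := QuotientAddGroup.mk_surjective (s := k1Rel S) x
  exact DFunLike.congr_fun h y

theorem phi_psi (x : KOne S) : phi S (psi S x) = x := by
  obtain ⟨k, A, rfl⟩ := exists_kf x
  rw [psi_kf, phi_cls]

theorem phi_map (f : S →+* T) (x : K1Grp S) : phi T (k1Map f x) = KOne.map f (phi S x) := by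
  obtain ⟨y, rfl⟩ : ∃ y, psi S y = x := ⟨_, psi_phi x⟩
  obtain ⟨k, A, rfl⟩ := exists_kf y
  rw [psi_kf, phi_cls, KOne.map_kf]
  have h : k1Map f (k1Cls A) = k1Cls (glMap f A) := by
    change (QuotientAddGroup.mk (freeMap f (gen A)) : FreeGL T ⧸ k1Rel T) = _
    rw [freeMap_gen]
    rfl
  rw [h, phi_cls, glMap_eq]

theorem phi_injective : Function.Injective (phi S) := fun x y h => by
  rw [← psi_phi x, h, psi_phi]

theorem k1Map_surjective_iff (f : S →+* T) :
    Function.Surjective (k1Map f) ↔ Function.Surjective (KOne.map f) := by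
  constructor
  · intro h y
    obtain ⟨x, hx⟩ := h (psi T y)
    refine ⟨phi S x, ?_⟩
    rw [← phi_map, hx, phi_psi]
  · intro h y
    obtain ⟨x, hx⟩ := h (phi T y)
    refine ⟨psi S x, ?_⟩
    apply phi_injective
    rw [phi_map, phi_psi, hx]

end Iso

section ImA

variable {R : Type u} [Ring R] {G : Type v} [Group G]

theorem elMat_eq (g : G) (e : IdemMat R) :
    ((elU g e : GLk (MonoidAlgebra R G) e.size) :
      Matrix (Fin e.size) (Fin e.size) (MonoidAlgebra R G)) = elMat g e.mat := by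
  change 1 + (MonoidAlgebra.single g 1 - 1) • e.mat.map (cG R G) = _
  refine Matrix.ext fun i j => ?_
  change (1 : Matrix (Fin e.size) (Fin e.size) (MonoidAlgebra R G)) i j +
    (MonoidAlgebra.single g (1 : R) - 1) * MonoidAlgebra.single 1 (e.mat i j) =
    MonoidAlgebra.single 1 ((1 - e.mat) i j) + MonoidAlgebra.single g (e.mat i j)
  have h1 : (1 : Matrix (Fin e.size) (Fin e.size) (MonoidAlgebra R G)) i j =
      MonoidAlgebra.single 1 ((1 : Matrix (Fin e.size) (Fin e.size) R) i j) := by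
    by_cases h : i = j
    · subst h
      rw [Matrix.one_apply_eq, Matrix.one_apply_eq]
      rfl
    · rw [Matrix.one_apply_ne h, Matrix.one_apply_ne h, MonoidAlgebra.single_zero]
  rw [h1, Matrix.sub_apply, MonoidAlgebra.single_sub, sub_mul, MonoidAlgebra.single_mul_single,
    mul_one, one_mul, one_mul]
  abel

theorem phi_mem_imA1 {x : K1Grp (MonoidAlgebra R G)} :
    phi (MonoidAlgebra R G) x ∈ imA1 R G ↔ x ∈ imA R G := by
  constructor
  · intro h
    have h1 : imA1 R G ≤ (imA R G).comap (psi (MonoidAlgebra R G)) := by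
      unfold imA1
      refine sup_le ?_ ?_
      · rintro _ ⟨y, rfl⟩
        rw [AddSubgroup.mem_comap]
        apply AddSubgroup.mem_sup_left
        refine ⟨psi R y, ?_⟩
        apply phi_injective
        rw [phi_map, phi_psi, phi_psi]
      · rw [AddSubgroup.closure_le]
        rintro _ ⟨g, e, rfl⟩
        change psi _ (kf e.size (elU g e)) ∈ imA R G
        rw [psi_kf]
        apply AddSubgroup.mem_sup_right
        apply AddSubgroup.subset_closure
        exact ⟨g, e.size, e.mat, elU g e, e.idem, elMat_eq g e, rfl⟩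
    have h2 := h1 h
    rw [AddSubgroup.mem_comap, psi_phi] at h2
    exact h2
  · intro h
    have h1 : imA R G ≤ (imA1 R G).comap (phi (MonoidAlgebra R G)) := by
      unfold imA
      refine sup_le ?_ ?_
      · rintro _ ⟨y, rfl⟩
        rw [AddSubgroup.mem_comap, phi_map]
        exact AddSubgroup.mem_sup_left ⟨_, rfl⟩
      · rw [AddSubgroup.closure_le]
        rintro _ ⟨g, k, e, A, he, hA, rfl⟩
        change phi _ (k1Cls A) ∈ imA1 R G
        rw [phi_cls]
        apply AddSubgroup.mem_sup_right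
        apply AddSubgroup.subset_closure
        refine ⟨g, ⟨k, e, he⟩, ?_⟩
        have h3 : A = elU g ⟨k, e, he⟩ := by
          apply Units.ext
          rw [elMat_eq]
          exact hA
        rw [h3]
    exact h1 h

theorem imA_eq_top_iff : imA R G = ⊤ ↔ imA1 R G = ⊤ := by
  constructor
  · intro h
    rw [eq_top_iff]
    intro x _
    rw [← phi_psi x, phi_mem_imA1, h]
    trivial
  · intro h
    rw [eq_top_iff]
    intro x _
    rw [← phi_mem_imA1, h]
    trivial

end ImA

end Pool.Agent.Lib.MP_c052b4_al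
end

section

/-!
# Jointly nilpotent families of matrices over regular rings do not contribute to `K₁`
-/

set_option autoImplicit false
set_option linter.unusedSectionVars false

namespace Pool.Agent.Lib.MP_c052b4_al

open Matrix

universe u v w

section NilFam

variable {R : Type u} {T : Type v} [Ring R] [Ring T] {c : R →+* T} {ι : Type w} [Fintype ι]
  {s : ι → T}

/-- the sum `∑ sᵢ c(Nᵢ)` -/
def fam (c : R →+* T) (s : ι → T) {n m : Type*} (N : ι → Matrix n m R) : Matrix n m T :=
  ∑ i, s i • (N i).map c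

theorem smul_map_mul' {x : T} {n m l : Type*} [Fintype m] (X : Matrix n m R) (Y : Matrix m l R) :
    (x • X.map c) * (Y.map c) = x • (X * Y).map c := by
  rw [Matrix.map_mul, Matrix.smul_mul]

theorem map_mul_smul' {x : T} (hs : ∀ r, x * c r = c r * x) {n m l : Type*} [Fintype m]
    (X : Matrix n m R) (Y : Matrix m l R) : (X.map c) * (x • Y.map c) = x • (X * Y).map c := by
  rw [Matrix.map_mul]
  ext i j
  simp only [Matrix.mul_apply, Matrix.smul_apply, Matrix.map_apply, smul_eq_mul, Finset.mul_sum]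
  refine Finset.sum_congr rfl fun k _ => ?_
  rw [← mul_assoc, ← hs, mul_assoc]

theorem fam_mul_map {n m l : Type*} [Fintype m] (C : ι → Matrix n m R) (P : Matrix m l R) :
    fam c s C * P.map c = fam c s (fun i => C i * P) := by
  unfold fam
  rw [Matrix.sum_mul]
  exact Finset.sum_congr rfl fun i _ => smul_map_mul' _ _

theorem map_mul_fam (hs : ∀ i x, s i * c x = c x * s i) {n m l : Type*} [Fintype m]
    (P : Matrix n m R) (C : ι → Matrix m l R) :
    P.map c * fam c s C = fam c s (fun i => P * C i) := by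
  unfold fam
  rw [Matrix.mul_sum]
  exact Finset.sum_congr rfl fun i _ => map_mul_smul' (hs i) _ _

/-- a chain of submodules for a jointly nilpotent family -/
structure FChain (q : ℕ) {n : ℕ} (N : ι → Matrix (Fin n) (Fin n) R)
    (K : ℕ → Submodule R (Fin n → R)) : Prop where
  mono : Monotone K
  zero : K 0 = ⊥
  top : K (q + 1) = ⊤
  step : ∀ i j v, v ∈ K (j + 1) → v ᵥ* N i ∈ K j

theorem kk_fam_comm (hs : ∀ i x, s i * c x = c x * s i) {n m : Type*} [Fintype n] [Fintype m]
    [DecidableEq n] [DecidableEq m] (C : ι → Matrix n m R) (P : Matrix m n R) :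
    kk (fam c s (fun i => C i * P)) = kk (fam c s (fun i => P * C i)) := by
  rw [← fam_mul_map, kk_comm, map_mul_fam hs]

theorem fnil_base (hs : ∀ i x, s i * c x = c x * s i) (q : ℕ) : ∀ {n : ℕ}
    (N : ι → Matrix (Fin n) (Fin n) R) (K : ℕ → Submodule R (Fin n → R)), FChain q N K →
    (∀ j, j ≤ q → Good (RingHom.id R) (K j)) → kk (fam c s N) = 0 := by
  induction q with
  | zero =>
    intro n N K hK _
    have h : ∀ i, N i = 0 := by
      intro i
      apply matrix_ext
      intro v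
      rw [Matrix.vecMul_zero]
      have h1 := hK.step i 0 v (by rw [hK.top]; trivial)
      rwa [hK.zero, Submodule.mem_bot] at h1
    have h2 : fam c s N = 0 := by
      unfold fam
      refine Finset.sum_eq_zero fun i _ => ?_
      rw [h i, Matrix.map_zero _ (map_zero c), smul_zero]
    rw [h2, kk_zero]
  | succ q ih =>
    intro n N K hK hgood
    obtain ⟨p, ⟨θ⟩, -⟩ := hgood (q + 1) le_rfl
    have hN : ∀ i, ∀ v : Fin n → R, v ᵥ* N i ∈ K (q + 1) := fun i v => hK.step i (q + 1) v (by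
      rw [hK.top]; trivial)
    choose Rm hRm using fun i => exists_matrix ((img p.mat).subtype ∘ₗ θ.symm.toLinearMap ∘ₗ
      LinearMap.codRestrict (K (q + 1)) (Matrix.vecMulLinear (N i)) (hN i))
    obtain ⟨Pm, hPm⟩ := exists_matrix ((K (q + 1)).subtype ∘ₗ θ.toLinearMap ∘ₗ
      LinearMap.codRestrict (img p.mat) (Matrix.vecMulLinear p.mat) (vecMul_mem_img p.mat))
    have hR1 : ∀ i v, v ᵥ* Rm i = (θ.symm ⟨v ᵥ* N i, hN i v⟩ : img p.mat) := hRm
    have hP1 : ∀ v, v ᵥ* Pm = (θ ⟨v ᵥ* p.mat, vecMul_mem_img p.mat v⟩ : K (q + 1)) := hPm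
    have hP2 : ∀ v : img p.mat, (v : Fin p.size → R) ᵥ* Pm = (θ v : K (q + 1)) := by
      intro v
      rw [hP1]
      congr 2
      apply Subtype.ext
      exact (mem_img p.idem).1 v.2
    have hRP : ∀ i v, (v ᵥ* Rm i) ᵥ* Pm = v ᵥ* N i := by
      intro i v
      rw [hR1, hP2, LinearEquiv.apply_symm_apply]
    have hPmem : ∀ v, v ᵥ* Pm ∈ K (q + 1) := fun v => by rw [hP1]; exact (θ _).2
    have h1 : N = fun i => Rm i * Pm := by
      funext i
      apply matrix_ext
      intro v
      rw [← Matrix.vecMul_vecMul, hRP]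
    rw [h1, kk_fam_comm hs]
    refine ih (fun i => Pm * Rm i) (fun j => if j ≤ q then
      (img p.mat) ⊓ (K j).comap (Matrix.vecMulLinear Pm) else ⊤) ?_ ?_
    · constructor
      · refine monotone_nat_of_le_succ fun j => ?_
        by_cases h : j + 1 ≤ q
        · rw [if_pos h, if_pos (by omega)]
          exact inf_le_inf_left _ (Submodule.comap_mono (hK.mono (Nat.le_succ j)))
        · rw [if_neg h]
          exact le_top
      · rw [if_pos (Nat.zero_le q), eq_bot_iff]
        rintro v ⟨hv1, hv2⟩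
        have hv3 : v ᵥ* Pm ∈ K 0 := hv2
        rw [hK.zero, Submodule.mem_bot] at hv3
        have hv4 := hP2 ⟨v, hv1⟩
        rw [hv3] at hv4
        have hv5 : θ ⟨v, hv1⟩ = 0 := Subtype.ext hv4.symm
        rw [LinearEquiv.map_eq_zero_iff] at hv5
        exact congrArg Subtype.val hv5
      · rw [if_neg (by omega)]
      · intro i j v hv
        by_cases h : j ≤ q
        · rw [if_pos h]
          have hv2 : v ᵥ* Pm ∈ K (j + 1) := by
            by_cases h' : j + 1 ≤ q
            · rw [if_pos h'] at hv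
              exact hv.2
            · have : j = q := by omega
              subst this
              exact hPmem v
          refine ⟨?_, ?_⟩
          · rw [← Matrix.vecMul_vecMul, hR1]
            exact (θ.symm _).2
          · change (v ᵥ* (Pm * Rm i)) ᵥ* Pm ∈ K j
            rw [← Matrix.vecMul_vecMul, hRP]
            exact hK.step i j _ hv2
        · rw [if_neg h]; trivial
    · intro j hj
      rw [if_pos hj]
      have hle : K j ≤ K (q + 1) := hK.mono (by omega)
      let F : ((img p.mat) ⊓ (K j).comap (Matrix.vecMulLinear Pm) : Submodule R _) →ₗ[R] K j :=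
        (Matrix.vecMulLinear Pm).restrict (fun v hv => hv.2)
      have hF : ∀ x, ((F x : K j) : Fin n → R) = (x : Fin p.size → R) ᵥ* Pm := fun x => rfl
      refine (hgood j (by omega)).congr (LinearEquiv.ofBijective F ⟨?_, ?_⟩).symm
      · rw [← LinearMap.ker_eq_bot, LinearMap.ker_eq_bot']
        intro x hx
        have h2 := hF x
        rw [hx] at h2
        have h3 := hP2 ⟨x, x.2.1⟩
        have h4 : θ ⟨x, x.2.1⟩ = 0 := Subtype.ext (h3.symm.trans h2.symm)
        rw [LinearEquiv.map_eq_zero_iff] at h4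
        have h5 : (x : Fin p.size → R) = 0 := congrArg (fun y : img p.mat => (y : Fin p.size → R)) h4
        exact Subtype.ext h5
      · intro w
        have h2 : ((θ.symm ⟨w, hle w.2⟩ : img p.mat) : Fin p.size → R) ᵥ* Pm = w := by
          rw [hP2, LinearEquiv.apply_symm_apply]
        refine ⟨⟨(θ.symm ⟨w, hle w.2⟩ : img p.mat), (θ.symm _).2, ?_⟩, ?_⟩
        · change ((θ.symm ⟨w, hle w.2⟩ : img p.mat) : Fin p.size → R) ᵥ* Pm ∈ K j
          rw [h2]
          exact w.2
        · apply Subtype.ext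
          exact h2

theorem fnil_main (hs : ∀ i x, s i * c x = c x * s i) {q : ℕ} (hq : 0 < q) (k : ℕ) : ∀ {n : ℕ}
    (N : ι → Matrix (Fin n) (Fin n) R) (K : ℕ → Submodule R (Fin n → R)), FChain q N K →
    (∀ i, i < q → HasRes (RingHom.id R) ((k + i) / q) (K (i + 1))) → kk (fam c s N) = 0 := by
  induction k with
  | zero =>
    intro n N K hK h
    refine fnil_base hs q N K hK ?_
    intro j hj
    cases j with
    | zero => exact good_bot hK.zero
    | succ i =>
      have h1 := h i (by omega)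
      have h2 : (0 + i) / q = 0 := by
        rw [zero_add]
        exact Nat.div_eq_of_lt (by omega)
      rw [h2] at h1
      exact h1
  | succ k ih =>
    intro n N K hK h
    have h0 := h (q - 1) (by omega)
    have h1 : (k + 1 + (q - 1)) / q = k / q + 1 := by
      have : k + 1 + (q - 1) = k + q := by omega
      rw [this, Nat.add_div_right _ hq]
    have h2 : q - 1 + 1 = q := by omega
    rw [h1, h2] at h0
    obtain ⟨m, π, hπ, hker⟩ := h0
    have hN : ∀ i, ∀ v : Fin n → R, v ᵥ* N i ∈ K q := fun i v => hK.step i q v (by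
      rw [hK.top]; trivial)
    choose c0 hc0 using fun i => Module.projective_lifting_property π
      (LinearMap.codRestrict (K q) (Matrix.vecMulLinear (N i)) (hN i)) hπ
    choose C hC using fun i => exists_matrix (c0 i)
    obtain ⟨P, hP⟩ := exists_matrix ((K q).subtype ∘ₗ π)
    have hP1 : ∀ v, v ᵥ* P = (π v : K q) := hP
    have hCP : ∀ i v, (v ᵥ* C i) ᵥ* P = v ᵥ* N i := by
      intro i v
      rw [hP1, hC]
      exact congrArg Subtype.val (LinearMap.congr_fun (hc0 i) v)
    have hNCP : N = fun i => C i * P := by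
      funext i
      apply matrix_ext
      intro v
      rw [← Matrix.vecMul_vecMul, hCP]
    rw [hNCP, kk_fam_comm hs]
    refine ih (fun i => P * C i) (fun j => Nat.casesOn j ⊥
      (fun i => (K i).comap (Matrix.vecMulLinear P))) ?_ ?_
    · constructor
      · refine monotone_nat_of_le_succ fun j => ?_
        cases j with
        | zero => exact bot_le
        | succ j => exact Submodule.comap_mono (hK.mono (Nat.le_succ j))
      · rfl
      · rw [eq_top_iff]
        intro v _
        change v ᵥ* P ∈ K q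
        rw [hP1]
        exact (π v).2
      · intro i j v hv
        cases j with
        | zero =>
          have h3 : v ᵥ* P ∈ K 0 := hv
          rw [hK.zero, Submodule.mem_bot] at h3
          change v ᵥ* (P * C i) ∈ (⊥ : Submodule R (Fin m → R))
          rw [← Matrix.vecMul_vecMul, h3, Matrix.zero_vecMul]
          exact Submodule.zero_mem _
        | succ j =>
          have h3 : v ᵥ* P ∈ K (j + 1) := hv
          change (v ᵥ* (P * C i)) ᵥ* P ∈ K j
          rw [← Matrix.vecMul_vecMul, hCP]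
          exact hK.step i j _ h3
    · intro i hi
      have hi1 : K i ≤ K q := hK.mono (by omega)
      have hker2 : ∀ v, π v = 0 ↔ v ᵥ* P = 0 := by
        intro v
        rw [hP1]
        constructor
        · intro h3; rw [h3]; rfl
        · intro h3; exact Subtype.ext h3
      have hle : LinearMap.ker π ≤ (K i).comap (Matrix.vecMulLinear P) := by
        intro v hv
        have h3 : v ᵥ* P = 0 := (hker2 v).1 hv
        change v ᵥ* P ∈ K i
        rw [h3]
        exact Submodule.zero_mem _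
      refine HasRes.ext (B := LinearMap.ker π) (A := K i) (Submodule.inclusion hle)
        ((Matrix.vecMulLinear P).restrict (p := (K i).comap (Matrix.vecMulLinear P)) (q := K i)
          (fun v hv => hv)) (Submodule.inclusion_injective hle) ?_ ?_ ?_ ?_
      · rintro ⟨w, hw⟩
        obtain ⟨v, hv⟩ := hπ ⟨w, hi1 hw⟩
        have h3 : v ᵥ* P = w := by rw [hP1, hv]
        refine ⟨⟨v, ?_⟩, ?_⟩
        · change v ᵥ* P ∈ K i
          rw [h3]; exact hw
        · apply Subtype.ext
          exact h3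
      · ext ⟨x, hx⟩
        simp only [LinearMap.mem_range, LinearMap.mem_ker]
        constructor
        · rintro ⟨⟨y, hy⟩, hyx⟩
          have h3 : y = x := congrArg Subtype.val hyx
          subst h3
          apply Subtype.ext
          exact (hker2 y).1 hy
        · intro h3
          have h4 : x ᵥ* P = 0 := congrArg Subtype.val h3
          exact ⟨⟨x, (hker2 x).2 h4⟩, rfl⟩
      · exact hker.mono (Nat.div_le_div_right (Nat.le_add_right k i))
      · cases i with
        | zero => exact HasRes.mono (Nat.zero_le _) (n := 0) (good_bot hK.zero)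
        | succ i =>
          have h3 := h i (by omega)
          have h4 : k + 1 + i = k + (i + 1) := by omega
          rwa [h4] at h3

/-- jointly nilpotent families over a regular ring do not contribute to `K₁` -/
theorem kk_fam_nil (hR : IsRegularRing R) (hs : ∀ i x, s i * c x = c x * s i) {n q : ℕ}
    (N : ι → Matrix (Fin n) (Fin n) R) (K : ℕ → Submodule R (Fin n → R))
    (hK : FChain (q + 1) N K) : kk (fam c s N) = 0 := by
  have hnoeth := hR.1
  have hfin : ∀ j, ∃ d : ℕ, HasRes (RingHom.id R) d (K j) := fun j => hR.hasRes (K j)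
  choose d hd using hfin
  set D := (Finset.range (q + 1)).sup fun i => d (i + 1) with hD
  refine fnil_main hs (Nat.succ_pos q) (D * (q + 1)) N K hK ?_
  intro i hi
  refine (hd (i + 1)).mono ?_
  have h1 : d (i + 1) ≤ D := Finset.le_sup (f := fun i => d (i + 1)) (Finset.mem_range.2 hi)
  refine h1.trans ?_
  rw [Nat.le_div_iff_mul_le (Nat.succ_pos q)]
  exact Nat.le_add_right _ _

end NilFam

end Pool.Agent.Lib.MP_c052b4_al
end

section

/-!
# Invertible matrices `1 + (t - 1) N` for a free letter `t`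
-/

set_option autoImplicit false
set_option linter.unusedSectionVars false

namespace Pool.Agent.Lib.MP_c052b4_al

open Matrix Kern

universe u v w

section CV

variable {R : Type u} [Ring R] {Γ : Type v} [Group Γ] {n m : Type*}

/-- coefficient vector -/
def cv (γ : Γ) (a : n → MonoidAlgebra R Γ) : n → R := fun j => (a j).coeff γ

/-- constant vector -/
noncomputable def kv (v : n → R) : n → MonoidAlgebra R Γ := fun j => cG R Γ (v j)

theorem cv_add (γ : Γ) (a b : n → MonoidAlgebra R Γ) : cv γ (a + b) = cv γ a + cv γ b := by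
  funext j; simp [cv]

theorem cv_sub (γ : Γ) (a b : n → MonoidAlgebra R Γ) : cv γ (a - b) = cv γ a - cv γ b := by
  funext j; simp [cv]

theorem cv_neg (γ : Γ) (a : n → MonoidAlgebra R Γ) : cv γ (-a) = - cv γ a := by
  funext j; simp [cv]

theorem cv_zero (γ : Γ) : cv γ (0 : n → MonoidAlgebra R Γ) = 0 := by
  funext j; simp [cv]

theorem supV_iff {Z : Set Γ} {a : n → MonoidAlgebra R Γ} :
    SupV Z a ↔ ∀ γ, γ ∉ Z → cv γ a = 0 := by
  constructor
  · intro h γ hγ
    funext j
    exact h j γ hγ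
  · intro h j γ hγ
    exact congrFun (h γ hγ) j

theorem vec_ext {a b : n → MonoidAlgebra R Γ} (h : ∀ γ, cv γ a = cv γ b) : a = b := by
  funext j
  ext γ
  exact congrFun (h γ) j

theorem cv_resV_of_mem {Z : Set Γ} {γ : Γ} (h : γ ∈ Z) (a : n → MonoidAlgebra R Γ) :
    cv γ (resV Z a) = cv γ a := by
  funext j
  exact coeff_res_of_mem h _

theorem cv_resV_of_notMem {Z : Set Γ} {γ : Γ} (h : γ ∉ Z) (a : n → MonoidAlgebra R Γ) :
    cv γ (resV Z a) = 0 := by
  funext j
  exact coeff_res_of_notMem h _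

theorem cv_smul_single (γ g : Γ) (a : n → MonoidAlgebra R Γ) :
    cv γ (MonoidAlgebra.single g (1 : R) • a) = cv (g⁻¹ * γ) a := by
  funext j
  change (MonoidAlgebra.single g (1 : R) * a j).coeff γ = _
  rw [MonoidAlgebra.coeff_single_mul_apply, one_mul]
  rfl

theorem cv_kv_one (v : n → R) : cv (1 : Γ) (kv v) = v := by
  funext j
  simp [cv, kv]

theorem cv_kv_of_ne {γ : Γ} (h : γ ≠ 1) (v : n → R) : cv γ (kv v) = 0 := by
  classical
  funext j
  simp only [cv, kv, MonoidAlgebra.singleOneRingHom_apply, Pi.zero_apply]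
  exact Finsupp.single_eq_of_ne h

theorem supV_kv {Z : Set Γ} (h : (1 : Γ) ∈ Z) (v : n → R) : SupV Z (kv v) := by
  rw [supV_iff]
  intro γ hγ
  refine cv_kv_of_ne ?_ v
  rintro rfl
  exact hγ h

theorem kv_add (v w : n → R) : (kv (v + w) : n → MonoidAlgebra R Γ) = kv v + kv w := by
  funext j; simp [kv]

theorem kv_sub (v w : n → R) : (kv (v - w) : n → MonoidAlgebra R Γ) = kv v - kv w := by
  funext j; simp [kv]

theorem kv_zero : (kv (0 : n → R) : n → MonoidAlgebra R Γ) = 0 := by
  funext j; simp [kv]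

theorem kv_smul (r : R) (v : n → R) :
    (kv (r • v) : n → MonoidAlgebra R Γ) =
      MonoidAlgebra.single (1 : Γ) r • (kv v : n → MonoidAlgebra R Γ) := by
  funext j
  simp [kv]

/-- decomposition of a vector -/
theorem split_at {S : Set Γ} {g : Γ} (hg : g ∉ S) (a : n → MonoidAlgebra R Γ) :
    a = resV S a + MonoidAlgebra.single g (1 : R) • kv (cv g a) + resV {γ | γ ∉ S ∧ γ ≠ g} a := by
  apply vec_ext
  intro γ
  rw [cv_add, cv_add, cv_smul_single]
  by_cases h1 : γ ∈ S
  · have h2 : g⁻¹ * γ ≠ 1 := by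
      intro h
      rw [inv_mul_eq_one] at h
      exact hg (h ▸ h1)
    rw [cv_resV_of_mem h1, cv_kv_of_ne h2, cv_resV_of_notMem (fun h => h.1 h1), add_zero, add_zero]
  · rw [cv_resV_of_notMem h1, zero_add]
    by_cases h2 : γ = g
    · subst h2
      rw [inv_mul_cancel, cv_kv_one, cv_resV_of_notMem (fun h => h.2 rfl), add_zero]
    · have h3 : g⁻¹ * γ ≠ 1 := by
        intro h
        rw [inv_mul_eq_one] at h
        exact h2 h.symm
      rw [cv_kv_of_ne h3, zero_add, cv_resV_of_mem (show γ ∈ {γ | γ ∉ S ∧ γ ≠ g} from ⟨h1, h2⟩)]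

/-- removing a group element -/
theorem SupV.of_smul_single {Z : Set Γ} {g : Γ} {a : n → MonoidAlgebra R Γ}
    (h : SupV Z (MonoidAlgebra.single g (1 : R) • a)) : SupV {γ | g * γ ∈ Z} a := by
  rw [supV_iff] at h ⊢
  intro γ hγ
  have := h (g * γ) hγ
  rwa [cv_smul_single, inv_mul_cancel_left] at this

variable [Fintype n]

theorem kv_vecMul (v : n → R) (M : Matrix n m R) :
    (kv v : n → MonoidAlgebra R Γ) ᵥ* (M.map (cG R Γ)) = kv (v ᵥ* M) := by
  funext j
  simp only [Matrix.vecMul, dotProduct, kv, Matrix.map_apply, map_sum, map_mul]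

theorem kv_vecMul_smul (v : n → R) (g : Γ) (M : Matrix n m (MonoidAlgebra R Γ)) :
    kv v ᵥ* (MonoidAlgebra.single g (1 : R) • M) = MonoidAlgebra.single g (1 : R) • (kv v ᵥ* M) := by
  funext j
  simp only [Matrix.vecMul, dotProduct, kv, Matrix.smul_apply, smul_eq_mul, Pi.smul_apply,
    Finset.mul_sum]
  refine Finset.sum_congr rfl fun i _ => ?_
  rw [← mul_assoc, ← mul_assoc]
  congr 1
  simp

theorem cv_kv_vecMul (γ : Γ) (v : n → R) (M : Matrix n n (MonoidAlgebra R Γ)) :
    cv γ (kv v ᵥ* M) = v ᵥ* mcf γ M := by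
  funext j
  simp only [cv, Matrix.vecMul, dotProduct, kv, MonoidAlgebra.coeff_sum,
    Finsupp.finsetSum_apply, mcf, Matrix.map_apply]
  refine Finset.sum_congr rfl fun i _ => ?_
  change (MonoidAlgebra.single (1 : Γ) (v i) * M i j).coeff γ = _
  rw [MonoidAlgebra.coeff_single_mul_apply, inv_one, one_mul]

/-- coefficients of a product -/
theorem cv_vecMul {B : Finset Γ} (g : Γ) (a : n → MonoidAlgebra R Γ)
    {M : Matrix n n (MonoidAlgebra R Γ)} (hM : SupM (B : Set Γ) M) :
    cv g (a ᵥ* M) = ∑ h ∈ B, cv (g * h⁻¹) a ᵥ* mcf h M := by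
  funext j
  rw [Finset.sum_apply]
  simp only [cv, Matrix.vecMul, dotProduct, MonoidAlgebra.coeff_sum, Finsupp.finsetSum_apply, mcf,
    Matrix.map_apply]
  rw [Finset.sum_comm]
  refine Finset.sum_congr rfl fun i _ => ?_
  rw [MonoidAlgebra.coeff_mul_apply_right, Finsupp.sum]
  refine Finset.sum_subset ?_ ?_
  · intro x hx
    by_contra h
    exact (Finsupp.mem_support_iff.1 hx) (hM i j x h)
  · intro x _ hx
    rw [Finsupp.notMem_support_iff.1 hx, mul_zero]

/-- multiplication by a group element from the right -/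
noncomputable def rm (t : Γ) (a : n → MonoidAlgebra R Γ) : n → MonoidAlgebra R Γ :=
  fun j => a j * MonoidAlgebra.single t 1

theorem cv_rm (t γ : Γ) (a : n → MonoidAlgebra R Γ) : cv γ (rm t a) = cv (γ * t⁻¹) a := by
  funext j
  change (a j * MonoidAlgebra.single t 1).coeff γ = _
  rw [MonoidAlgebra.coeff_mul_single_apply, mul_one]
  rfl

theorem vecMul_smul_single (t : Γ) (a : n → MonoidAlgebra R Γ)
    (M : Matrix n m (MonoidAlgebra R Γ)) :
    a ᵥ* (MonoidAlgebra.single t (1 : R) • M) = rm t a ᵥ* M := by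
  funext j
  simp only [Matrix.vecMul, dotProduct, rm, Matrix.smul_apply, smul_eq_mul, mul_assoc]

end CV

end Pool.Agent.Lib.MP_c052b4_al
end

section

/-!
# The assembly map in degree one for rings with `K₀(R) = ℤ`: definitions
-/

set_option autoImplicit false

namespace Pool.Agent.Lib.MP_c052b4_al

open Matrix

universe u v w

/-- Every finitely generated projective module is stably free. -/
def ProjectivesStablyFree (R : Type u) [Ring R] : Prop :=
  ∀ (P : Type u) [AddCommGroup P] [Module R P], Module.Finite R P → Module.Projective R P →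
    ∃ m n : ℕ, Nonempty ((P × (Fin m → R)) ≃ₗ[R] (Fin n → R))

/-- The unit `u` of `S` as an invertible matrix of size one. -/
noncomputable def unitMat {S : Type u} [Ring S] (u : Sˣ) : GLk S 1 :=
  Units.map (Matrix.scalar (Fin 1) : S →+* Matrix (Fin 1) (Fin 1) S).toMonoidHom u

/-- The class in `K₁(S)` of a unit of `S`. -/
noncomputable def unitCls (S : Type u) [Ring S] : Additive Sˣ →+ K1Grp S where
  toFun u := k1Cls (unitMat u.toMul)
  map_zero' := by
    rw [unitMat, toMul_zero, map_one, k1Cls_one]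
  map_add' a b := by
    rw [unitMat, toMul_add, map_mul, k1Cls_mul]
    rfl

/-- The homomorphism `G^{ab} → K₁(R[G])` sending a group element to its class. -/
noncomputable def groupCls (R : Type u) [Ring R] (G : Type v) [Group G] :
    Additive (Abelianization G) →+ K1Grp (MonoidAlgebra R G) :=
  MonoidHom.toAdditiveLeft (Abelianization.lift
    ((AddMonoidHom.toMultiplicativeRight (unitCls (MonoidAlgebra R G))).comp
      (MonoidAlgebra.of R G).toHomUnits))

/-- The assembly map `A₁ : K₁(R) ⊕ G^{ab} → K₁(R[G])` if `K₀(R) = ℤ`. -/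
noncomputable def assemblyOne (R : Type u) [Ring R] (G : Type v) [Group G] :
    (K1Grp R) × Additive (Abelianization G) →+ K1Grp (MonoidAlgebra R G) :=
  (k1Map (MonoidAlgebra.singleOneRingHom : R →+* MonoidAlgebra R G)).coprod (groupCls R G)

end Pool.Agent.Lib.MP_c052b4_al
end
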