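import Pool.Agent.Lib.MP_c052b4_al.Mg.G069
import Pool.Agent.Lib.MP_c052b4_al.Mg.G071
import Pool.Agent.Lib.MP_c052b4_al.Mg.G072
import Pool.Agent.Lib.MP_c052b4_al.Mg.G074

section

/-!
# Graded kernels and graded nilpotent matrices
-/

set_option autoImplicit false
set_option linter.unusedSectionVars false

namespace Pool.Agent.Lib.MP_c052b4_al

open Matrix

universe u v w w'

variable {R : Type u} [Ring R] {G : Type v} [Group G] {X : Type w} [MulAction G X]

/-- G1. Graded kernels over regular coherent stabilizers are perfect. -/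
theorem perf_gker' {ι : Type} [Fintype ι] {κ : Type*} [Finite κ] (l : ι → X)
    (M : Matrix ι κ (MonoidAlgebra R G))
    (h : ∀ i, RegCoh (MonoidAlgebra R (MulAction.stabilizer G (l i)))) :
    Perf (MonoidAlgebra R G) (gker l M) := by
  obtain ⟨D⟩ := exists_nrm (G := G) l
  rw [D.gker_eq_gi]
  refine D.perf_gi _ (fun O => D.supp_kerH O M) fun O => ?_
  obtain ⟨n, M', hM'⟩ := D.exists_kerH O M
  rw [hM']
  exact (h O).perf_rker M'

/-- G2. Finite subsets of graded kernels over DP stabilizers lie in perfect submodules. -/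
theorem dp_gker' {ι : Type} [Fintype ι] {κ : Type*} [Finite κ] (l : ι → X)
    (M : Matrix ι κ (MonoidAlgebra R G))
    (h : ∀ i, DPr (MonoidAlgebra R (MulAction.stabilizer G (l i))))
    (Φ : Set (ι → MonoidAlgebra R G)) (hΦ : Φ.Finite) (hΦ' : Φ ⊆ gker l M) :
    ∃ F : Submodule (MonoidAlgebra R G) (ι → MonoidAlgebra R G),
      Φ ⊆ F ∧ F ≤ gker l M ∧ Perf (MonoidAlgebra R G) F := by
  obtain ⟨D⟩ := exists_nrm (G := G) l
  rw [D.gker_eq_gi] at hΦ' ⊢
  have key : ∀ O, ∃ Y : Submodule (MonoidAlgebra R (MulAction.stabilizer G (l O)))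
      (ι → MonoidAlgebra R (MulAction.stabilizer G (l O))),
      (∀ x ∈ Φ, D.sh R O x ∈ ind (inc R (sj G l O)) Y) ∧ Y ≤ D.kerH O M ∧
        Perf (MonoidAlgebra R (MulAction.stabilizer G (l O))) Y := by
    intro O
    obtain ⟨n, M', hM'⟩ := D.exists_kerH O M
    obtain ⟨Y, h1, h2, h3⟩ := (h O).exists_perf M'
      (⋃ x ∈ Φ, {y | ∃ i g, (D.sh R O x i).coeff g ≠ 0 ∧
        y = rscv (sj G l O) (sj_injective l O) g (D.sh R O x)})
      (hΦ.biUnion fun x _ => finite_rscv _ _ _) (by
        intro y hy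
        simp only [Set.mem_iUnion] at hy
        obtain ⟨x, hx, i, g, -, rfl⟩ := hy
        rw [← hM']
        exact (mem_indG_iff _ _ _ _).1 (D.mem_gi.1 (hΦ' hx) O) g)
    refine ⟨Y, fun x hx => mem_indG_of_support _ (sj_injective l O) _ _ fun i g hig => h1 ?_, ?_,
      h3⟩
    · simp only [Set.mem_iUnion]
      exact ⟨x, hx, i, g, hig, rfl⟩
    · rw [hM']
      exact h2
  choose Y h1 h2 h3 using key
  exact ⟨D.gi Y, fun x hx => D.mem_gi.2 fun O => h1 O x hx, D.gi_mono h2,
    D.perf_gi _ (fun O y hy => D.supp_kerH O M y (h2 O hy)) h3⟩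


namespace NrmD

variable {ι : Type} {l : ι → X} (D : NrmD G l)

theorem rscv_one_vm {H : Type*} [Group H] (f : H →* G) (hf : Function.Injective f)
    (y : ι → MonoidAlgebra R H) : rscv f hf 1 (vm (inc R f) y) = y := by
  funext i
  ext h
  change (rsc f hf 1 (inc R f (y i))).coeff h = _
  rw [coeff_rsc, one_mul, coeff_inc f hf]

theorem sh_un_vm {O : ι} (y : ι → MonoidAlgebra R (MulAction.stabilizer G (l O)))
    (hy : ∀ i, D.r i ≠ O → y i = 0) :
    D.sh R O (D.un R O (vm (inc R (sj G l O)) y)) = vm (inc R (sj G l O)) y :=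
  D.sh_un_self _ fun i hi => by
    change inc R (sj G l O) (y i) = 0
    rw [hy i hi, map_zero]

theorem cp_un {O : ι} (hO : D.r O = O)
    (y : ι → MonoidAlgebra R (MulAction.stabilizer G (l O)))
    (hy : ∀ i, D.r i ≠ O → y i = 0) :
    cp l {l O} (D.un R O (vm (inc R (sj G l O)) y)) = D.un R O (vm (inc R (sj G l O)) y) := by
  have h := D.cp_eq hO 1 (D.un R O (vm (inc R (sj G l O)) y))
  rw [one_smul, D.sh_un_vm y hy, rscv_one_vm, ← MonoidAlgebra.one_def, one_smul] at h
  exact h

theorem un_eq_zero {O : ι} (hO : D.r O ≠ O) (z : ι → MonoidAlgebra R G) : D.un R O z = 0 := by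
  funext i
  exact D.un_of_ne _ fun h2 => hO (D.r_eq_of_r h2)

theorem un_mem_gi {K : ∀ O : ι, Submodule (MonoidAlgebra R (MulAction.stabilizer G (l O)))
    (ι → MonoidAlgebra R (MulAction.stabilizer G (l O)))} (hK : ∀ O, D.Supp (K O)) {O : ι}
    {y : ι → MonoidAlgebra R (MulAction.stabilizer G (l O))} (hy : y ∈ K O) :
    D.un R O (vm (inc R (sj G l O)) y) ∈ D.gi K := by
  rw [D.mem_gi]
  intro O'
  by_cases h : O' = O
  · subst h
    rw [D.sh_un_vm y (hK _ y hy)]
    exact vm_mem_ind hy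
  · rw [D.sh_un h]
    exact Submodule.zero_mem _

theorem nil_step [Fintype ι] [DecidableEq ι] (N : Matrix ι ι (MonoidAlgebra R G))
    (hU : ∀ (k : ℕ) (ξ ξ' : X) (x : ι → MonoidAlgebra R G), cp l {ξ} x = x →
      x ᵥ* N ^ (k + 1) = 0 → cp l {ξ'} (x ᵥ* N) ᵥ* N ^ k = 0)
    (h : ∀ i, DPr (MonoidAlgebra R (MulAction.stabilizer G (l i)))) (j : ℕ)
    (K : ∀ O : ι, Submodule (MonoidAlgebra R (MulAction.stabilizer G (l O)))
      (ι → MonoidAlgebra R (MulAction.stabilizer G (l O))))
    (hK : ∀ O, Perf (MonoidAlgebra R (MulAction.stabilizer G (l O))) (K O))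
    (hker : ∀ O, K O ≤ D.kerH O (N ^ (j + 1)))
    (hst : ∀ x ∈ D.gi K, x ᵥ* N ∈ D.gi K) :
    ∃ K' : ∀ O : ι, Submodule (MonoidAlgebra R (MulAction.stabilizer G (l O)))
      (ι → MonoidAlgebra R (MulAction.stabilizer G (l O))),
      (∀ O, Perf (MonoidAlgebra R (MulAction.stabilizer G (l O))) (K' O)) ∧
      (∀ O, K' O ≤ K O) ∧ (∀ O, K' O ≤ D.kerH O (N ^ j)) ∧
      ∀ x ∈ D.gi K, x ᵥ* N ∈ D.gi K' := by
  have hsupp : ∀ O, D.Supp (K O) := fun O y hy => D.supp_kerH O _ y (hker O hy)
  have hfg : ∀ O, ∃ s : Finset (ι → MonoidAlgebra R (MulAction.stabilizer G (l O))),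
      Submodule.span _ (s : Set _) = K O := fun O => Module.Finite.iff_fg.1 (hK O).finite
  choose s hs using hfg
  have hsK : ∀ O, ∀ y ∈ s O, y ∈ K O := fun O y hy => by
    rw [← hs O]
    exact Submodule.subset_span hy
  have hz1 : ∀ O, ∀ y ∈ s O,
      D.un R O (vm (inc R (sj G l O)) y) ᵥ* N ∈ D.gi K := fun O y hy =>
    hst _ (D.un_mem_gi hsupp (hsK O y hy))
  have hz2 : ∀ O, ∀ y ∈ s O,
      D.un R O (vm (inc R (sj G l O)) y) ᵥ* N ∈ D.gi fun O => D.kerH O (N ^ j) := by
    intro O y hy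
    rw [← D.gker_eq_gi, mem_gker]
    intro ξ'
    by_cases hO : D.r O = O
    · have h1 := hker O (hsK O y hy)
      exact hU j (l O) ξ' _ (D.cp_un hO y h1.1) h1.2
    · rw [D.un_eq_zero hO, Matrix.zero_vecMul, cp_zero, Matrix.zero_vecMul]
  have key : ∀ O', ∃ Y : Submodule (MonoidAlgebra R (MulAction.stabilizer G (l O')))
      (ι → MonoidAlgebra R (MulAction.stabilizer G (l O'))),
      (∀ O, ∀ y ∈ s O, D.sh R O' (D.un R O (vm (inc R (sj G l O)) y) ᵥ* N) ∈
        ind (inc R (sj G l O')) Y) ∧ Y ≤ K O' ∧ Y ≤ D.kerH O' (N ^ j) ∧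
        Perf (MonoidAlgebra R (MulAction.stabilizer G (l O'))) Y := by
    intro O'
    obtain ⟨n, M', hM'⟩ := D.exists_kerH O' (N ^ j)
    obtain ⟨Y, h1, h2, h3, h4⟩ := (h O').exists_perf_le (K O') (hK O') M'
      (⋃ O, ⋃ y ∈ s O, {w | ∃ i g, (D.sh R O' (D.un R O (vm (inc R (sj G l O)) y) ᵥ* N)
        i).coeff g ≠ 0 ∧ w = rscv (sj G l O') (sj_injective l O') g
          (D.sh R O' (D.un R O (vm (inc R (sj G l O)) y) ᵥ* N))})
      (Set.finite_iUnion fun O => (Finset.finite_toSet (s O)).biUnion fun y _ =>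
        finite_rscv _ _ _) (by
        intro w hw
        simp only [Set.mem_iUnion] at hw
        obtain ⟨O, y, hy, i, g, -, rfl⟩ := hw
        exact (mem_indG_iff _ _ _ _).1 (D.mem_gi.1 (hz1 O y hy) O') g) (by
        intro w hw
        simp only [Set.mem_iUnion] at hw
        obtain ⟨O, y, hy, i, g, -, rfl⟩ := hw
        rw [← hM']
        exact (mem_indG_iff _ _ _ _).1 (D.mem_gi.1 (hz2 O y hy) O') g)
    refine ⟨Y, fun O y hy => mem_indG_of_support _ (sj_injective l O') _ _
      fun i g hig => h1 ?_, h2, ?_, h4⟩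
    · simp only [Set.mem_iUnion]
      exact ⟨O, y, hy, i, g, hig, rfl⟩
    · rw [hM']
      exact h3
  choose K' h1 h2 h3 h4 using key
  refine ⟨K', h4, h2, h3, fun x hx => ?_⟩
  have hgen : ∀ O, ∀ y ∈ K O, D.un R O (vm (inc R (sj G l O)) y) ᵥ* N ∈ D.gi K' := by
    intro O y hy
    rw [← hs O] at hy
    induction hy using Submodule.span_induction with
    | mem y hy => exact D.mem_gi.2 fun O' => h1 O' O y hy
    | zero =>
      rw [vm_zero, map_zero, Matrix.zero_vecMul]
      exact Submodule.zero_mem _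
    | add y z _ _ hy hz =>
      rw [vm_add, map_add, Matrix.add_vecMul]
      exact Submodule.add_mem _ hy hz
    | smul c y _ hy =>
      rw [vm_smul, map_smul, Matrix.smul_vecMul]
      exact Submodule.smul_mem _ _ hy
  have hgen2 : ∀ O, ∀ z ∈ ind (inc R (sj G l O)) (K O), D.un R O z ᵥ* N ∈ D.gi K' := by
    intro O z hz
    unfold ind at hz
    induction hz using Submodule.span_induction with
    | mem z hz =>
      obtain ⟨y, hy, rfl⟩ := hz
      exact hgen O y hy
    | zero =>
      rw [map_zero, Matrix.zero_vecMul]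
      exact Submodule.zero_mem _
    | add y z _ _ hy hz =>
      rw [map_add, Matrix.add_vecMul]
      exact Submodule.add_mem _ hy hz
    | smul c y _ hy =>
      rw [map_smul, Matrix.smul_vecMul]
      exact Submodule.smul_mem _ _ hy
  have hx' : x ᵥ* N = ∑ O, D.un R O (D.sh R O x) ᵥ* N := by
    conv_lhs => rw [← D.sum_un_sh x]
    exact map_sum (Matrix.vecMulLinear N) _ _
  rw [hx']
  exact Submodule.sum_mem _ fun O _ => hgen2 O _ (D.mem_gi.1 hx O)

theorem nil_chain [Fintype ι] [DecidableEq ι] (N : Matrix ι ι (MonoidAlgebra R G))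
    (hU : ∀ (k : ℕ) (ξ ξ' : X) (x : ι → MonoidAlgebra R G), cp l {ξ} x = x →
      x ᵥ* N ^ (k + 1) = 0 → cp l {ξ'} (x ᵥ* N) ᵥ* N ^ k = 0)
    (h : ∀ i, DPr (MonoidAlgebra R (MulAction.stabilizer G (l i)))) (p : ℕ) :
    ∀ (K : ∀ O : ι, Submodule (MonoidAlgebra R (MulAction.stabilizer G (l O)))
      (ι → MonoidAlgebra R (MulAction.stabilizer G (l O)))),
    (∀ O, Perf (MonoidAlgebra R (MulAction.stabilizer G (l O))) (K O)) →
    (∀ O, K O ≤ D.kerH O (N ^ p)) → (∀ x ∈ D.gi K, x ᵥ* N ∈ D.gi K) →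
    ∃ F : ℕ → Submodule (MonoidAlgebra R G) (ι → MonoidAlgebra R G), F p = D.gi K ∧ F 0 = ⊥ ∧
      (∀ j < p, F j ≤ F (j + 1)) ∧ (∀ j < p, ∀ x ∈ F (j + 1), x ᵥ* N ∈ F j) ∧
      ∀ j ≤ p, Perf (MonoidAlgebra R G) (F j) := by
  induction p with
  | zero =>
    intro K hK hker hst
    have hsupp : ∀ O, D.Supp (K O) := fun O y hy => D.supp_kerH O _ y (hker O hy)
    have h0 : D.gi K = ⊥ := by
      rw [eq_bot_iff]
      refine (D.gi_mono hker).trans ?_
      rw [← D.gker_eq_gi]
      intro x hx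
      rw [mem_gker] at hx
      simp only [pow_zero, Matrix.vecMul_one] at hx
      rw [Submodule.mem_bot]
      classical
      funext i
      ext g
      have h1 := congrArg (fun a : MonoidAlgebra R G => a.coeff g) (congrFun (hx (g • l i)) i)
      rw [cp_apply, if_pos (Set.mem_singleton _)] at h1
      rw [h1]
    refine ⟨fun _ => ⊥, h0.symm, rfl, fun j hj => absurd hj (Nat.not_lt_zero j),
      fun j hj => absurd hj (Nat.not_lt_zero j), fun j _ => ?_⟩
    have := D.perf_gi K hsupp hK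
    rw [h0] at this
    exact this
  | succ p ih =>
    intro K hK hker hst
    have hsupp : ∀ O, D.Supp (K O) := fun O y hy => D.supp_kerH O _ y (hker O hy)
    obtain ⟨K', h1, h2, h3, h4⟩ := D.nil_step N hU h p K hK hker hst
    obtain ⟨F, f1, f2, f3, f4, f5⟩ := ih K' h1 h3 (fun x hx => h4 x (D.gi_mono h2 hx))
    refine ⟨fun j => if j ≤ p then F j else D.gi K, ?_, ?_, ?_, ?_, ?_⟩
    · beta_reduce
      rw [if_neg (by omega)]
    · beta_reduce
      rw [if_pos (by omega), f2]
    · intro j hj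
      beta_reduce
      by_cases hjp : j < p
      · rw [if_pos (by omega), if_pos (by omega)]
        exact f3 j hjp
      · have : j = p := by omega
        subst this
        rw [if_pos le_rfl, if_neg (by omega), f1]
        exact D.gi_mono h2
    · intro j hj x hx
      beta_reduce at hx ⊢
      by_cases hjp : j < p
      · rw [if_pos (by omega)] at hx ⊢
        exact f4 j hjp x hx
      · have : j = p := by omega
        subst this
        rw [if_neg (by omega)] at hx
        rw [if_pos le_rfl, f1]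
        exact h4 x hx
    · intro j hj
      beta_reduce
      by_cases hjp : j ≤ p
      · rw [if_pos hjp]
        exact f5 j hjp
      · rw [if_neg hjp]
        exact D.perf_gi K hsupp hK

theorem perf_kerH_zero [Fintype ι] {κ : Type*} (O : ι) :
    Perf (MonoidAlgebra R (MulAction.stabilizer G (l O)))
      (D.kerH O (0 : Matrix ι κ (MonoidAlgebra R G))) := by
  classical
  let e : Matrix ι ι (MonoidAlgebra R (MulAction.stabilizer G (l O))) :=
    Matrix.diagonal fun i => if D.r i = O then 1 else 0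
  have he : e * e = e := by
    simp only [e, Matrix.diagonal_mul_diagonal]
    congr 1
    funext i
    split_ifs <;> simp
  have h1 : D.kerH O (0 : Matrix ι κ (MonoidAlgebra R G)) = img e := by
    ext y
    rw [mem_kerH, mem_img he]
    constructor
    · rintro ⟨h, -⟩
      funext i
      rw [Matrix.vecMul_diagonal]
      by_cases hi : D.r i = O
      · rw [if_pos hi, mul_one]
      · rw [h i hi, zero_mul]
    · intro h
      refine ⟨fun i hi => ?_, Matrix.vecMul_zero _⟩
      have h2 := congrFun h i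
      rw [Matrix.vecMul_diagonal, if_neg hi, mul_zero] at h2
      exact h2.symm
  rw [h1]
  have := img_projective he
  exact Perf.of_projective

end NrmD

theorem nil_graded' {ι : Type} [Fintype ι] [DecidableEq ι] (l : ι → X)
    (N : Matrix ι ι (MonoidAlgebra R G)) (hN : IsNilpotent N)
    (hU : ∀ (k : ℕ) (ξ ξ' : X) (x : ι → MonoidAlgebra R G), cp l {ξ} x = x →
      x ᵥ* N ^ (k + 1) = 0 → cp l {ξ'} (x ᵥ* N) ᵥ* N ^ k = 0)
    (h : ∀ i, DPr (MonoidAlgebra R (MulAction.stabilizer G (l i)))) : kk (-N) = 0 := by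
  obtain ⟨D⟩ := exists_nrm (G := G) l
  obtain ⟨r, hr⟩ := hN
  have hr' : N ^ (r + 1 + 1) = 0 := by
    rw [pow_add, pow_add, hr, zero_mul, zero_mul]
  have htop : D.gi (fun O => D.kerH O (0 : Matrix ι ι (MonoidAlgebra R G))) = ⊤ := by
    rw [← D.gker_eq_gi, eq_top_iff]
    intro x _
    rw [mem_gker]
    intro ξ
    exact Matrix.vecMul_zero _
  obtain ⟨F, f1, f2, f3, f4, f5⟩ := D.nil_chain N hU h (r + 1 + 1)
    (fun O => D.kerH O (0 : Matrix ι ι (MonoidAlgebra R G))) (fun O => D.perf_kerH_zero O)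
    (fun O => by rw [hr']) (fun x _ => by rw [htop]; trivial)
  rw [htop] at f1
  let n := Fintype.card ι
  let e : ι ≃ Fin n := Fintype.equivFin ι
  rw [← kk_reindex e (-N)]
  let N' : Matrix (Fin n) (Fin n) (MonoidAlgebra R G) := N.submatrix e.symm e.symm
  let θ : (Fin n → MonoidAlgebra R G) ≃ₗ[MonoidAlgebra R G] (ι → MonoidAlgebra R G) :=
    LinearEquiv.funCongrLeft _ _ e
  have hθ : ∀ x : Fin n → MonoidAlgebra R G, θ (x ᵥ* N') = θ x ᵥ* N := by
    intro x
    change (x ᵥ* N.submatrix e.symm e.symm) ∘ e = (x ∘ e) ᵥ* N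
    rw [Matrix.submatrix_vecMul_equiv, Equiv.symm_symm]
    funext i
    simp
  let K : ℕ → Submodule (MonoidAlgebra R G) (Fin n → MonoidAlgebra R G) := fun j =>
    if j ≤ r + 1 + 1 then (F j).comap θ.toLinearMap else ⊤
  have hKle : ∀ j, j ≤ r + 1 + 1 → K j = (F j).comap θ.toLinearMap := fun j hj => if_pos hj
  have hK : Chain (r + 1) N' K := by
    constructor
    · refine monotone_nat_of_le_succ fun j => ?_
      by_cases hj : j < r + 1 + 1
      · rw [hKle j (by omega), hKle (j + 1) (by omega)]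
        exact Submodule.comap_mono (f3 j hj)
      · have : K (j + 1) = ⊤ := if_neg (by omega)
        rw [this]
        exact le_top
    · rw [hKle 0 (by omega), f2]
      exact LinearMap.ker_eq_bot.2 θ.injective
    · rw [hKle _ le_rfl, f1]
      exact Submodule.comap_top _
    · intro j x hx
      by_cases hj : j < r + 1 + 1
      · rw [hKle (j + 1) (by omega)] at hx
        rw [hKle j (by omega)]
        change θ (x ᵥ* N') ∈ F j
        rw [hθ]
        exact f4 j hj _ hx
      · by_cases hj' : j = r + 1 + 1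
        · subst hj'
          rw [hKle _ le_rfl, f1]
          trivial
        · have : K j = ⊤ := if_neg (by omega)
          rw [this]
          trivial
  have hfin : ∀ j, ∃ d : ℕ, j ≤ r + 1 + 1 →
      HasRes (RingHom.id (MonoidAlgebra R G)) d (K j) := by
    intro j
    by_cases hj : j ≤ r + 1 + 1
    · obtain ⟨d, hd⟩ := f5 j hj
      refine ⟨d, fun _ => ?_⟩
      rw [hKle j hj]
      have e1 : (F j) ≃ₗ[MonoidAlgebra R G] (F j).comap θ.toLinearMap :=
        ((LinearEquiv.ofEq _ _ (Submodule.map_comap_eq_of_surjective θ.surjective (F j)).symm).trans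
          (θ.submoduleMap ((F j).comap θ.toLinearMap)).symm)
      exact hd.congr e1
    · exact ⟨0, fun h => absurd h hj⟩
  choose d hd using hfin
  set E := (Finset.range (r + 1)).sup fun i => d (i + 1) with hE
  have hmain : ks (RingHom.id (MonoidAlgebra R G)) (-1) N' = 0 := by
    refine nil_main (fun x => by simp) (Nat.succ_pos r) (E * (r + 1)) N' K hK ?_
    intro i hi
    refine (hd (i + 1) (by omega)).mono ?_
    have h1 : d (i + 1) ≤ E := Finset.le_sup (f := fun i => d (i + 1)) (Finset.mem_range.2 hi)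
    refine h1.trans ?_
    rw [Nat.le_div_iff_mul_le (Nat.succ_pos r)]
    exact Nat.le_add_right _ _
  unfold ks at hmain
  rw [← hmain]
  congr 1
  ext i j
  simp [N']

end Pool.Agent.Lib.MP_c052b4_al
end

section

/-!
# Graded nilpotent matrices with a filtration by graded kernels
-/

set_option autoImplicit false
set_option linter.unusedSectionVars false

namespace Pool.Agent.Lib.MP_c052b4_al

open Matrix

universe u v w w'

variable {R : Type u} [Ring R] {G : Type v} [Group G] {X : Type w} [MulAction G X]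

/-- A filtration of `R[G]^ι` by graded kernels of the matrices `M k`, decreased by `N`. -/
structure Flt {ι : Type} [Fintype ι] [DecidableEq ι] (l : ι → X)
    (N : Matrix ι ι (MonoidAlgebra R G)) where
  κ : ℕ → Type
  fκ : ∀ k, Finite (κ k)
  M : ∀ k, Matrix ι (κ k) (MonoidAlgebra R G)
  inj : ∀ (ξ : X) (x : ι → MonoidAlgebra R G), cp l {ξ} x = x → x ᵥ* M 0 = 0 → x = 0
  len : ℕ
  top : ∀ k, len ≤ k → M k = 0
  step : ∀ (k : ℕ) (ξ ξ' : X) (x : ι → MonoidAlgebra R G), cp l {ξ} x = x →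
      x ᵥ* M (k + 1) = 0 → cp l {ξ'} (x ᵥ* N) ᵥ* M k = 0

attribute [instance] Flt.fκ

namespace NrmD

variable {ι : Type} {l : ι → X} (D : NrmD G l)

theorem nil_stepF [Fintype ι] [DecidableEq ι] (N : Matrix ι ι (MonoidAlgebra R G))
    (F : Flt l N)
    (h : ∀ i, DPr (MonoidAlgebra R (MulAction.stabilizer G (l i)))) (j : ℕ)
    (K : ∀ O : ι, Submodule (MonoidAlgebra R (MulAction.stabilizer G (l O)))
      (ι → MonoidAlgebra R (MulAction.stabilizer G (l O))))
    (hK : ∀ O, Perf (MonoidAlgebra R (MulAction.stabilizer G (l O))) (K O))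
    (hker : ∀ O, K O ≤ D.kerH O (F.M (j + 1)))
    (hst : ∀ x ∈ D.gi K, x ᵥ* N ∈ D.gi K) :
    ∃ K' : ∀ O : ι, Submodule (MonoidAlgebra R (MulAction.stabilizer G (l O)))
      (ι → MonoidAlgebra R (MulAction.stabilizer G (l O))),
      (∀ O, Perf (MonoidAlgebra R (MulAction.stabilizer G (l O))) (K' O)) ∧
      (∀ O, K' O ≤ K O) ∧ (∀ O, K' O ≤ D.kerH O (F.M j)) ∧
      ∀ x ∈ D.gi K, x ᵥ* N ∈ D.gi K' := by
  have hsupp : ∀ O, D.Supp (K O) := fun O y hy => D.supp_kerH O _ y (hker O hy)
  have hfg : ∀ O, ∃ s : Finset (ι → MonoidAlgebra R (MulAction.stabilizer G (l O))),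
      Submodule.span _ (s : Set _) = K O := fun O => Module.Finite.iff_fg.1 (hK O).finite
  choose s hs using hfg
  have hsK : ∀ O, ∀ y ∈ s O, y ∈ K O := fun O y hy => by
    rw [← hs O]
    exact Submodule.subset_span hy
  have hz1 : ∀ O, ∀ y ∈ s O,
      D.un R O (vm (inc R (sj G l O)) y) ᵥ* N ∈ D.gi K := fun O y hy =>
    hst _ (D.un_mem_gi hsupp (hsK O y hy))
  have hz2 : ∀ O, ∀ y ∈ s O,
      D.un R O (vm (inc R (sj G l O)) y) ᵥ* N ∈ D.gi fun O => D.kerH O (F.M j) := by
    intro O y hy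
    rw [← D.gker_eq_gi, mem_gker]
    intro ξ'
    by_cases hO : D.r O = O
    · have h1 := hker O (hsK O y hy)
      exact F.step j (l O) ξ' _ (D.cp_un hO y h1.1) h1.2
    · rw [D.un_eq_zero hO, Matrix.zero_vecMul, cp_zero, Matrix.zero_vecMul]
  have key : ∀ O', ∃ Y : Submodule (MonoidAlgebra R (MulAction.stabilizer G (l O')))
      (ι → MonoidAlgebra R (MulAction.stabilizer G (l O'))),
      (∀ O, ∀ y ∈ s O, D.sh R O' (D.un R O (vm (inc R (sj G l O)) y) ᵥ* N) ∈
        ind (inc R (sj G l O')) Y) ∧ Y ≤ K O' ∧ Y ≤ D.kerH O' (F.M j) ∧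
        Perf (MonoidAlgebra R (MulAction.stabilizer G (l O'))) Y := by
    intro O'
    obtain ⟨n, M', hM'⟩ := D.exists_kerH O' (F.M j)
    obtain ⟨Y, h1, h2, h3, h4⟩ := (h O').exists_perf_le (K O') (hK O') M'
      (⋃ O, ⋃ y ∈ s O, {w | ∃ i g, (D.sh R O' (D.un R O (vm (inc R (sj G l O)) y) ᵥ* N)
        i).coeff g ≠ 0 ∧ w = rscv (sj G l O') (sj_injective l O') g
          (D.sh R O' (D.un R O (vm (inc R (sj G l O)) y) ᵥ* N))})
      (Set.finite_iUnion fun O => (Finset.finite_toSet (s O)).biUnion fun y _ =>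
        finite_rscv _ _ _) (by
        intro w hw
        simp only [Set.mem_iUnion] at hw
        obtain ⟨O, y, hy, i, g, -, rfl⟩ := hw
        exact (mem_indG_iff _ _ _ _).1 (D.mem_gi.1 (hz1 O y hy) O') g) (by
        intro w hw
        simp only [Set.mem_iUnion] at hw
        obtain ⟨O, y, hy, i, g, -, rfl⟩ := hw
        rw [← hM']
        exact (mem_indG_iff _ _ _ _).1 (D.mem_gi.1 (hz2 O y hy) O') g)
    refine ⟨Y, fun O y hy => mem_indG_of_support _ (sj_injective l O') _ _
      fun i g hig => h1 ?_, h2, ?_, h4⟩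
    · simp only [Set.mem_iUnion]
      exact ⟨O, y, hy, i, g, hig, rfl⟩
    · rw [hM']
      exact h3
  choose K' h1 h2 h3 h4 using key
  refine ⟨K', h4, h2, h3, fun x hx => ?_⟩
  have hgen : ∀ O, ∀ y ∈ K O, D.un R O (vm (inc R (sj G l O)) y) ᵥ* N ∈ D.gi K' := by
    intro O y hy
    rw [← hs O] at hy
    induction hy using Submodule.span_induction with
    | mem y hy => exact D.mem_gi.2 fun O' => h1 O' O y hy
    | zero =>
      rw [vm_zero, map_zero, Matrix.zero_vecMul]
      exact Submodule.zero_mem _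
    | add y z _ _ hy hz =>
      rw [vm_add, map_add, Matrix.add_vecMul]
      exact Submodule.add_mem _ hy hz
    | smul c y _ hy =>
      rw [vm_smul, map_smul, Matrix.smul_vecMul]
      exact Submodule.smul_mem _ _ hy
  have hgen2 : ∀ O, ∀ z ∈ ind (inc R (sj G l O)) (K O), D.un R O z ᵥ* N ∈ D.gi K' := by
    intro O z hz
    unfold ind at hz
    induction hz using Submodule.span_induction with
    | mem z hz =>
      obtain ⟨y, hy, rfl⟩ := hz
      exact hgen O y hy
    | zero =>
      rw [map_zero, Matrix.zero_vecMul]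
      exact Submodule.zero_mem _
    | add y z _ _ hy hz =>
      rw [map_add, Matrix.add_vecMul]
      exact Submodule.add_mem _ hy hz
    | smul c y _ hy =>
      rw [map_smul, Matrix.smul_vecMul]
      exact Submodule.smul_mem _ _ hy
  have hx' : x ᵥ* N = ∑ O, D.un R O (D.sh R O x) ᵥ* N := by
    conv_lhs => rw [← D.sum_un_sh x]
    exact map_sum (Matrix.vecMulLinear N) _ _
  rw [hx']
  exact Submodule.sum_mem _ fun O _ => hgen2 O _ (D.mem_gi.1 hx O)

theorem nil_chainF [Fintype ι] [DecidableEq ι] (N : Matrix ι ι (MonoidAlgebra R G))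
    (Fl : Flt l N)
    (h : ∀ i, DPr (MonoidAlgebra R (MulAction.stabilizer G (l i)))) (p : ℕ) :
    ∀ (K : ∀ O : ι, Submodule (MonoidAlgebra R (MulAction.stabilizer G (l O)))
      (ι → MonoidAlgebra R (MulAction.stabilizer G (l O)))),
    (∀ O, Perf (MonoidAlgebra R (MulAction.stabilizer G (l O))) (K O)) →
    (∀ O, K O ≤ D.kerH O (Fl.M p)) → (∀ x ∈ D.gi K, x ᵥ* N ∈ D.gi K) →
    ∃ F : ℕ → Submodule (MonoidAlgebra R G) (ι → MonoidAlgebra R G), F p = D.gi K ∧ F 0 = ⊥ ∧
      (∀ j < p, F j ≤ F (j + 1)) ∧ (∀ j < p, ∀ x ∈ F (j + 1), x ᵥ* N ∈ F j) ∧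
      ∀ j ≤ p, Perf (MonoidAlgebra R G) (F j) := by
  induction p with
  | zero =>
    intro K hK hker hst
    have hsupp : ∀ O, D.Supp (K O) := fun O y hy => D.supp_kerH O _ y (hker O hy)
    have h0 : D.gi K = ⊥ := by
      rw [eq_bot_iff]
      refine (D.gi_mono hker).trans ?_
      rw [← D.gker_eq_gi]
      intro x hx
      rw [mem_gker] at hx
      have hx' : ∀ ξ, cp l {ξ} x = 0 := fun ξ => Fl.inj ξ _ (cp_self _ _ _) (hx ξ)
      rw [Submodule.mem_bot]
      classical
      funext i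
      ext g
      have h1 := congrArg (fun a : MonoidAlgebra R G => a.coeff g) (congrFun (hx' (g • l i)) i)
      rw [cp_apply, if_pos (Set.mem_singleton _)] at h1
      rw [h1]
    refine ⟨fun _ => ⊥, h0.symm, rfl, fun j hj => absurd hj (Nat.not_lt_zero j),
      fun j hj => absurd hj (Nat.not_lt_zero j), fun j _ => ?_⟩
    have := D.perf_gi K hsupp hK
    rw [h0] at this
    exact this
  | succ p ih =>
    intro K hK hker hst
    have hsupp : ∀ O, D.Supp (K O) := fun O y hy => D.supp_kerH O _ y (hker O hy)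
    obtain ⟨K', h1, h2, h3, h4⟩ := D.nil_stepF N Fl h p K hK hker hst
    obtain ⟨F, f1, f2, f3, f4, f5⟩ := ih K' h1 h3 (fun x hx => h4 x (D.gi_mono h2 hx))
    refine ⟨fun j => if j ≤ p then F j else D.gi K, ?_, ?_, ?_, ?_, ?_⟩
    · beta_reduce
      rw [if_neg (by omega)]
    · beta_reduce
      rw [if_pos (by omega), f2]
    · intro j hj
      beta_reduce
      by_cases hjp : j < p
      · rw [if_pos (by omega), if_pos (by omega)]
        exact f3 j hjp
      · have : j = p := by omega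
        subst this
        rw [if_pos le_rfl, if_neg (by omega), f1]
        exact D.gi_mono h2
    · intro j hj x hx
      beta_reduce at hx ⊢
      by_cases hjp : j < p
      · rw [if_pos (by omega)] at hx ⊢
        exact f4 j hjp x hx
      · have : j = p := by omega
        subst this
        rw [if_neg (by omega)] at hx
        rw [if_pos le_rfl, f1]
        exact h4 x hx
    · intro j hj
      beta_reduce
      by_cases hjp : j ≤ p
      · rw [if_pos hjp]
        exact f5 j hjp
      · rw [if_neg hjp]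
        exact D.perf_gi K hsupp hK


end NrmD

theorem nil_gradedF {ι : Type} [Fintype ι] [DecidableEq ι] (l : ι → X)
    (N : Matrix ι ι (MonoidAlgebra R G)) (Fl : Flt l N)
    (h : ∀ i, DPr (MonoidAlgebra R (MulAction.stabilizer G (l i)))) : kk (-N) = 0 := by
  obtain ⟨D⟩ := exists_nrm (G := G) l
  let r := Fl.len
  have hr' : Fl.M (r + 1 + 1) = 0 := Fl.top _ (by omega)
  have htop : D.gi (fun O => D.kerH O (0 : Matrix ι (Fl.κ (r + 1 + 1)) (MonoidAlgebra R G))) = ⊤ := by
    rw [← D.gker_eq_gi, eq_top_iff]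
    intro x _
    rw [mem_gker]
    intro ξ
    exact Matrix.vecMul_zero _
  obtain ⟨F, f1, f2, f3, f4, f5⟩ := D.nil_chainF N Fl h (r + 1 + 1)
    (fun O => D.kerH O (0 : Matrix ι (Fl.κ (r + 1 + 1)) (MonoidAlgebra R G)))
    (fun O => D.perf_kerH_zero O)
    (fun O => by rw [hr']) (fun x _ => by rw [htop]; trivial)
  rw [htop] at f1
  let n := Fintype.card ι
  let e : ι ≃ Fin n := Fintype.equivFin ι
  rw [← kk_reindex e (-N)]
  let N' : Matrix (Fin n) (Fin n) (MonoidAlgebra R G) := N.submatrix e.symm e.symm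
  let θ : (Fin n → MonoidAlgebra R G) ≃ₗ[MonoidAlgebra R G] (ι → MonoidAlgebra R G) :=
    LinearEquiv.funCongrLeft _ _ e
  have hθ : ∀ x : Fin n → MonoidAlgebra R G, θ (x ᵥ* N') = θ x ᵥ* N := by
    intro x
    change (x ᵥ* N.submatrix e.symm e.symm) ∘ e = (x ∘ e) ᵥ* N
    rw [Matrix.submatrix_vecMul_equiv, Equiv.symm_symm]
    funext i
    simp
  let K : ℕ → Submodule (MonoidAlgebra R G) (Fin n → MonoidAlgebra R G) := fun j =>
    if j ≤ r + 1 + 1 then (F j).comap θ.toLinearMap else ⊤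
  have hKle : ∀ j, j ≤ r + 1 + 1 → K j = (F j).comap θ.toLinearMap := fun j hj => if_pos hj
  have hK : Chain (r + 1) N' K := by
    constructor
    · refine monotone_nat_of_le_succ fun j => ?_
      by_cases hj : j < r + 1 + 1
      · rw [hKle j (by omega), hKle (j + 1) (by omega)]
        exact Submodule.comap_mono (f3 j hj)
      · have : K (j + 1) = ⊤ := if_neg (by omega)
        rw [this]
        exact le_top
    · rw [hKle 0 (by omega), f2]
      exact LinearMap.ker_eq_bot.2 θ.injective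
    · rw [hKle _ le_rfl, f1]
      exact Submodule.comap_top _
    · intro j x hx
      by_cases hj : j < r + 1 + 1
      · rw [hKle (j + 1) (by omega)] at hx
        rw [hKle j (by omega)]
        change θ (x ᵥ* N') ∈ F j
        rw [hθ]
        exact f4 j hj _ hx
      · by_cases hj' : j = r + 1 + 1
        · subst hj'
          rw [hKle _ le_rfl, f1]
          trivial
        · have : K j = ⊤ := if_neg (by omega)
          rw [this]
          trivial
  have hfin : ∀ j, ∃ d : ℕ, j ≤ r + 1 + 1 →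
      HasRes (RingHom.id (MonoidAlgebra R G)) d (K j) := by
    intro j
    by_cases hj : j ≤ r + 1 + 1
    · obtain ⟨d, hd⟩ := f5 j hj
      refine ⟨d, fun _ => ?_⟩
      rw [hKle j hj]
      have e1 : (F j) ≃ₗ[MonoidAlgebra R G] (F j).comap θ.toLinearMap :=
        ((LinearEquiv.ofEq _ _ (Submodule.map_comap_eq_of_surjective θ.surjective (F j)).symm).trans
          (θ.submoduleMap ((F j).comap θ.toLinearMap)).symm)
      exact hd.congr e1
    · exact ⟨0, fun h => absurd h hj⟩
  choose d hd using hfin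
  set E := (Finset.range (r + 1)).sup fun i => d (i + 1) with hE
  have hmain : ks (RingHom.id (MonoidAlgebra R G)) (-1) N' = 0 := by
    refine nil_main (fun x => by simp) (Nat.succ_pos r) (E * (r + 1)) N' K hK ?_
    intro i hi
    refine (hd (i + 1) (by omega)).mono ?_
    have h1 : d (i + 1) ≤ E := Finset.le_sup (f := fun i => d (i + 1)) (Finset.mem_range.2 hi)
    refine h1.trans ?_
    rw [Nat.le_div_iff_mul_le (Nat.succ_pos r)]
    exact Nat.le_add_right _ _
  unfold ks at hmain
  rw [← hmain]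
  congr 1
  ext i j
  simp [N']

end Pool.Agent.Lib.MP_c052b4_al
end

section

/-!
# The descending induction for nilpotent matrices

`GDP P`: every finite subset of a graded kernel lies in the image of a resolving submodule of a
finite complex of labelled free modules, the labels being in `P`.

`Stg`: the data of the induction. `nil_td`: the class of a nilpotent matrix with a filtration by
graded kernels vanishes.
-/

set_option autoImplicit false
set_option linter.unusedSectionVars false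

namespace Pool.Agent.Lib.MP_c052b4_al

open Matrix

universe u v w w'

/-- the graded property of the rings of the stabilizers -/
def GDP (R : Type u) [Ring R] (G : Type v) [Group G] {X : Type w} [MulAction G X]
    (P : X → Prop) : Prop :=
  ∀ (s : Type) [Fintype s] [DecidableEq s] (l : s → X), (∀ i, P (l i)) →
    ∀ (κ : Type) [Finite κ] (M : Matrix s κ (MonoidAlgebra R G))
      (Φ : Set (s → MonoidAlgebra R G)), Φ.Finite → (∀ x ∈ Φ, x ∈ gker l M) →
    ∃ (V : DM (MonoidAlgebra R G)) (lV : V.t → X) (ρ : Matrix V.t s (MonoidAlgebra R G))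
      (L : Submodule (MonoidAlgebra R G) (V.t → MonoidAlgebra R G)),
      (∀ i, P (lV i)) ∧ Hg lV l id ρ ∧ ρ * M = 0 ∧ Rz V ρ L ∧ ∀ x ∈ Φ, ∃ y ∈ L, y ᵥ* ρ = x

/-- the parity of the degree -/
def par {t : Type*} (deg : t → ℕ) : t → Bool := fun i => decide (Even (deg i))

section Par

variable {A : Type u} [Ring A] {t t' : Type*} {deg : t → ℕ} {deg' : t' → ℕ} {M : Matrix t t' A}

theorem Low.ev (h : Low deg deg' 0 M) : EvM (par deg) (par deg') M := by
  intro i j hij
  unfold par
  rw [h i j hij, add_zero]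

theorem Low.od (h : Low deg deg' 1 M) : OdM (par deg) (par deg') M := by
  intro i j hij
  unfold par
  rw [h i j hij]
  by_cases he : Even (deg' j)
  · have : ¬ Even (deg' j + 1) := by
      rw [Nat.even_add_one, not_not]
      exact he
    simp [he, this]
  · have : Even (deg' j + 1) := by
      rw [Nat.even_add_one]
      exact he
    simp [he, this]

theorem Hi.od (h : Hi deg deg' M) : OdM (par deg) (par deg') M := by
  intro i j hij
  unfold par
  rw [h i j hij]
  by_cases he : Even (deg i)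
  · have : ¬ Even (deg i + 1) := by
      rw [Nat.even_add_one, not_not]
      exact he
    simp [he, this]
  · have : Even (deg i + 1) := by
      rw [Nat.even_add_one]
      exact he
    simp [he, this]

theorem Low.add {c : ℕ} {M' : Matrix t t' A} (h : Low deg deg' c M) (h' : Low deg deg' c M') :
    Low deg deg' c (M + M') := by
  intro i j hij
  by_cases h0 : M i j = 0
  · refine h' i j fun h1 => hij ?_
    rw [Matrix.add_apply, h0, h1, add_zero]
  · exact h i j h0

theorem Low.sub {c : ℕ} {M' : Matrix t t' A} (h : Low deg deg' c M) (h' : Low deg deg' c M') :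
    Low deg deg' c (M - M') := by
  intro i j hij
  by_cases h0 : M i j = 0
  · refine h' i j fun h1 => hij ?_
    rw [Matrix.sub_apply, h0, h1, sub_zero]
  · exact h i j h0

theorem Hi.sub {M' : Matrix t t' A} (h : Hi deg deg' M) (h' : Hi deg deg' M') :
    Hi deg deg' (M - M') := by
  intro i j hij
  by_cases h0 : M i j = 0
  · refine h' i j fun h1 => hij ?_
    rw [Matrix.sub_apply, h0, h1, sub_zero]
  · exact h i j h0

theorem Hi.mul_low {t'' : Type*} [Fintype t'] {deg'' : t'' → ℕ} (h : Hi deg deg' M)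
    {M' : Matrix t' t'' A} (h' : Low deg' deg'' 0 M') : Hi deg deg'' (M * M') := by
  intro i k hik
  obtain ⟨j, h1, h2⟩ := mul_ne_zero' hik
  have h3 := h i j h1
  have h4 := h' j k h2
  omega

theorem Hi.mul_low_one {t'' : Type*} [Fintype t'] {deg'' : t'' → ℕ} (h : Hi deg deg' M)
    {M' : Matrix t' t'' A} (h' : Low deg' deg'' 1 M') : Low deg deg'' 0 (M * M') := by
  intro i k hik
  obtain ⟨j, h1, h2⟩ := mul_ne_zero' hik
  have h3 := h i j h1
  have h4 := h' j k h2
  omega

theorem Low.mul_hi {t'' : Type*} [Fintype t'] {deg'' : t'' → ℕ} (h : Low deg deg' 1 M)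
    {M' : Matrix t' t'' A} (h' : Hi deg' deg'' M') : Low deg deg'' 0 (M * M') := by
  intro i k hik
  obtain ⟨j, h1, h2⟩ := mul_ne_zero' hik
  have h3 := h i j h1
  have h4 := h' j k h2
  omega

end Par

section CRz

variable {A : Type u} [Ring A] {W : DM A} (Y : DM A) {ι : Type}

/-- the submodule `J` of the first summand -/
def cJ (J : Submodule A (W.t → A)) : Submodule A (W.t ⊕ (Y.t ⊕ Y.t) → A) where
  carrier := {x | x ∘ Sum.inl ∈ J ∧ x ∘ Sum.inr = 0}
  add_mem' := by
    rintro x y ⟨h1, h2⟩ ⟨h3, h4⟩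
    refine ⟨J.add_mem h1 h3, ?_⟩
    have : (x + y) ∘ Sum.inr = x ∘ Sum.inr + (y ∘ Sum.inr : Y.t ⊕ Y.t → A) := rfl
    rw [this, h2, h4, add_zero]
  zero_mem' := ⟨J.zero_mem, rfl⟩
  smul_mem' := by
    rintro c x ⟨h1, h2⟩
    refine ⟨J.smul_mem c h1, ?_⟩
    have : (c • x) ∘ Sum.inr = c • (x ∘ Sum.inr : Y.t ⊕ Y.t → A) := rfl
    rw [this, h2, smul_zero]

theorem cDM_vecMul (x : W.t ⊕ (Y.t ⊕ Y.t) → A) (hx : x ∘ Sum.inr = 0) :
    x ᵥ* (cDM W Y).D = Sum.elim ((x ∘ Sum.inl) ᵥ* W.D) 0 := by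
  change x ᵥ* Matrix.fromBlocks W.D 0 0 (Matrix.fromBlocks Y.D 0 1 (-Y.D)) = _
  rw [Matrix.vecMul_fromBlocks, Matrix.vecMul_zero, Matrix.vecMul_zero, hx, Matrix.zero_vecMul,
    add_zero, zero_add]

theorem cDM_rz {π : Matrix W.t ι A} {J : Submodule A (W.t → A)} (h : Rz W π J) :
    Rz (cDM W Y) (Matrix.fromRows π 0) (cJ Y J) := by
  constructor
  · rintro (i | i | i) hi
    · exact h.p0 i hi
    · rfl
    · rfl
  · change Matrix.fromBlocks W.D 0 0 (Matrix.fromBlocks Y.D 0 1 (-Y.D)) *
      Matrix.fromRows π 0 = 0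
    rw [Matrix.fromBlocks_mul_fromRows, h.Dp]
    simp
  · rintro x ⟨h1, h2⟩ k
    refine ⟨h.gr _ h1 k, ?_⟩
    funext i
    have := congrFun h2 i
    change (if _ = _ then x (Sum.inr i) else 0) = 0
    change x (Sum.inr i) = 0 at this
    rw [this, ite_self]
  · rintro x ⟨h1, h2⟩
    rw [cDM_vecMul Y x h2]
    exact ⟨h.st _ h1, rfl⟩
  · rintro x ⟨h1, h2⟩ h3 h4
    rw [cDM_vecMul Y x h2] at h3
    have h3' : (x ∘ Sum.inl) ᵥ* W.D = 0 :=
      congrArg (fun z : W.t ⊕ (Y.t ⊕ Y.t) → A => z ∘ Sum.inl) h3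
    rw [Matrix.vecMul_fromRows, Matrix.vecMul_zero, add_zero] at h4
    obtain ⟨y, hy, hyx⟩ := h.ex _ h1 h3' h4
    refine ⟨Sum.elim y 0, ⟨hy, rfl⟩, ?_⟩
    rw [cDM_vecMul Y _ rfl, Sum.elim_comp_inl, hyx]
    refine (congrArg _ h2.symm).trans (Sum.elim_comp_inl_inr x)

end CRz

theorem isNilpotent_mul_swap {A : Type u} [Ring A] {m n : Type} [Fintype m] [DecidableEq m]
    [Fintype n] [DecidableEq n] (f : Matrix m n A) (g : Matrix n m A)
    (h : IsNilpotent (f * g)) : IsNilpotent (g * f) := by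
  obtain ⟨k, hk⟩ := h
  refine ⟨k + 1, ?_⟩
  have : ∀ j : ℕ, (g * f) ^ (j + 1) = g * (f * g) ^ j * f := by
    intro j
    induction j with
    | zero => rw [zero_add, pow_one, pow_zero, Matrix.mul_one]
    | succ j ih =>
      rw [pow_succ, ih, pow_succ (f * g) j]
      simp only [Matrix.mul_assoc]
  rw [this, hk, Matrix.mul_zero, Matrix.zero_mul]

section Stage

variable {R : Type u} [Ring R] {G : Type v} [Group G] {X : Type w} [MulAction G X]

/-- the data of the induction -/
structure Stg {B : Type w'} [AddCommGroup B] (K : KF (MonoidAlgebra R G) B) (P : X → Prop)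
    {ι : Type} [Fintype ι] [DecidableEq ι] (l : ι → X) (N : Matrix ι ι (MonoidAlgebra R G))
    {μ : Type} (M : Matrix ι μ (MonoidAlgebra R G)) where
  Y : DM (MonoidAlgebra R G)
  lab : Y.t → X
  hP : ∀ i, P (lab i)
  π : Matrix Y.t ι (MonoidAlgebra R G)
  hπ : Hg lab l id π
  hM : π * M = 0
  J : Submodule (MonoidAlgebra R G) (Y.t → MonoidAlgebra R G)
  hJ : Rz Y π J
  NY : Matrix Y.t Y.t (MonoidAlgebra R G)
  hN0 : Low Y.deg Y.deg 0 NY
  hNn : IsNilpotent NY
  hNk : K.chi (par Y.deg) NY = K.k N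
  κ : Matrix Y.t Y.t (MonoidAlgebra R G)
  hκ0 : Low Y.deg Y.deg 0 κ
  hκD : κ * Y.D = Y.D * κ
  hκJ : ∀ i, κ i ∈ J
  hκπ : κ * π = π * N
  E : Matrix Y.t Y.t (MonoidAlgebra R G)
  hE : Hi Y.deg Y.deg E
  hEE : NY - κ = E * Y.D + Y.D * E

variable {B : Type w'} [AddCommGroup B] {K : KF (MonoidAlgebra R G) B} {P : X → Prop}
    {ι : Type} [Fintype ι] [DecidableEq ι] {l : ι → X} {N : Matrix ι ι (MonoidAlgebra R G)}

/-- the start of the induction -/
theorem Stg.start (K : KF (MonoidAlgebra R G) B) (hl : ∀ i, P (l i)) (hN : IsNilpotent N)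
    {μ : Type} (M : Matrix ι μ (MonoidAlgebra R G)) (hM : M = 0) :
    Nonempty (Stg K P l N M) := by
  let Y : DM (MonoidAlgebra R G) :=
    { t := ι
      deg := fun _ => 0
      D := 0
      hD := fun i j h => absurd rfl h
      sq := Matrix.mul_zero _ }
  refine ⟨{
    Y := Y
    lab := l
    hP := hl
    π := (1 : Matrix ι ι (MonoidAlgebra R G))
    hπ := hg_one l
    hM := by rw [hM]; exact Matrix.mul_zero _
    J := ⊤
    hJ := ⟨fun i hi => absurd rfl hi, Matrix.zero_mul _, fun _ _ _ => trivial,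
      fun _ _ => trivial, fun x _ _ hx => ⟨0, trivial, ?_⟩⟩
    NY := N
    hN0 := fun _ _ _ => rfl
    hNn := hN
    hNk := K.chi_true (fun i => rfl) N
    κ := N
    hκ0 := fun _ _ _ => rfl
    hκD := by
      change N * (0 : Matrix ι ι (MonoidAlgebra R G)) = 0 * N
      rw [Matrix.mul_zero, Matrix.zero_mul]
    hκJ := fun _ => trivial
    hκπ := by
      change N * (1 : Matrix ι ι (MonoidAlgebra R G)) = 1 * N
      rw [Matrix.mul_one, Matrix.one_mul]
    E := 0
    hE := fun i j h => absurd rfl h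
    hEE := ?_ }⟩
  · rw [Matrix.vecMul_one] at hx
    rw [hx]
    exact Matrix.zero_vecMul _
  · change N - N = (0 : Matrix ι ι (MonoidAlgebra R G)) * (0 : Matrix ι ι (MonoidAlgebra R G)) +
      (0 : Matrix ι ι (MonoidAlgebra R G)) * (0 : Matrix ι ι (MonoidAlgebra R G))
    rw [sub_self, Matrix.mul_zero, add_zero]

theorem cp_prt {t : Type*} (lab : t → X) (deg : t → ℕ) (Z : Set X) (k : ℕ)
    (x : t → MonoidAlgebra R G) : cp lab Z (prt deg k x) = prt deg k (cp lab Z x) := by
  funext i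
  change cpA _ (if deg i = k then x i else 0) = if deg i = k then cpA _ (x i) else 0
  split_ifs
  · rfl
  · exact cpA_zero _

theorem vecMul_fromCols' {A : Type u} [Ring A] {s t t' : Type*} [Fintype s] (M : Matrix s t A)
    (M' : Matrix s t' A) (x : s → A) :
    x ᵥ* Matrix.fromCols M M' = Sum.elim (x ᵥ* M) (x ᵥ* M') := by
  funext i
  rcases i with i | i <;> rfl

/-- the first half of the step: the new complex over the old one -/
theorem Stg.pre (hG : GDP R G P) {μ : Type} {M : Matrix ι μ (MonoidAlgebra R G)}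
    (S : Stg K P l N M) {μ' : Type} [Finite μ'] (M' : Matrix ι μ' (MonoidAlgebra R G))
    (hMM : ∀ (ξ ξ' : X) (x : ι → MonoidAlgebra R G), cp l {ξ} x = x → x ᵥ* M = 0 →
      cp l {ξ'} (x ᵥ* N) ᵥ* M' = 0) :
    ∃ (W : DM (MonoidAlgebra R G)) (lW : W.t → X) (πW : Matrix W.t ι (MonoidAlgebra R G))
      (JW : Submodule (MonoidAlgebra R G) (W.t → MonoidAlgebra R G))
      (i' : Matrix W.t S.Y.t (MonoidAlgebra R G)) (j : Matrix S.Y.t W.t (MonoidAlgebra R G)),
      (∀ i, P (lW i)) ∧ Hg lW l id πW ∧ πW * M' = 0 ∧ Rz W πW JW ∧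
      W.D * i' = i' * S.Y.D ∧ Low W.deg S.Y.deg 0 i' ∧ i' * S.π = πW ∧
      (∀ x ∈ JW, x ᵥ* i' ∈ S.J) ∧ (∀ i, j i ∈ JW) ∧ Low S.Y.deg W.deg 0 j ∧
      j * W.D = S.Y.D * j ∧ j * πW = S.π * N := by
  classical
  have hid : ∀ (g : G) (x : X), id (g • x) = g • id x := fun _ _ => rfl
  -- the vectors and the matrix
  have hΦ1 : ∀ i (ξ : X), cp S.lab {ξ} (prt S.Y.deg 0 (S.κ i)) ᵥ*
      Matrix.fromCols (S.π * M') (P1 S.Y) = 0 := by
    intro i ξ
    have h1 : cp S.lab {ξ} (prt S.Y.deg 0 (S.κ i)) ᵥ* S.π = cp l {ξ} (S.π i ᵥ* N) := by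
      have := S.hπ.cp_vecMul hid {ξ} (prt S.Y.deg 0 (S.κ i))
      rw [Set.preimage_id] at this
      rw [← this, S.hJ.prt_zero_vecMul]
      congr 1
      exact congrFun S.hκπ i
    rw [vecMul_fromCols', ← Matrix.vecMul_vecMul, h1, hMM (S.lab i) ξ (S.π i) (hg_iff.1 S.hπ i)
      (congrFun S.hM i), vecMul_P1, cp_prt, prt_prt, sub_self]
    exact Sum.elim_zero_zero
  have hΦ2 : ∀ i (ξ : X), cp S.lab {ξ} (prt S.Y.deg 0 (S.Y.D i)) ᵥ*
      Matrix.fromCols (S.π * M') (P1 S.Y) = 0 := by
    intro i ξ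
    have h1 : cp S.lab {ξ} (prt S.Y.deg 0 (S.Y.D i)) ᵥ* S.π = 0 := by
      have := S.hπ.cp_vecMul hid {ξ} (prt S.Y.deg 0 (S.Y.D i))
      rw [Set.preimage_id] at this
      rw [← this, S.hJ.prt_zero_vecMul]
      have h2 : S.Y.D i ᵥ* S.π = 0 := congrFun S.hJ.Dp i
      rw [h2, cp_zero]
    rw [vecMul_fromCols', ← Matrix.vecMul_vecMul, h1, Matrix.zero_vecMul, vecMul_P1, cp_prt,
      prt_prt, sub_self]
    exact Sum.elim_zero_zero
  obtain ⟨V, lV, ρ, L, hlV, hρg, hρM, hL, hLΦ⟩ := hG S.Y.t S.lab S.hP (μ' ⊕ S.Y.t)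
    (Matrix.fromCols (S.π * M') (P1 S.Y))
    (Set.range (fun i => prt S.Y.deg 0 (S.κ i)) ∪ Set.range fun i => prt S.Y.deg 0 (S.Y.D i))
    ((Set.finite_range _).union (Set.finite_range _)) (by
      rintro x (⟨i, rfl⟩ | ⟨i, rfl⟩)
      · exact mem_gker.2 (hΦ1 i)
      · exact mem_gker.2 (hΦ2 i))
  rw [Matrix.mul_fromCols] at hρM
  have hρ1 : ρ * (S.π * M') = 0 := Matrix.ext fun i j => congrFun (congrFun hρM i) (Sum.inl j)
  have hρ2 : ρ * P1 S.Y = 0 := Matrix.ext fun i j => congrFun (congrFun hρM i) (Sum.inr j)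
  -- the map θ
  obtain ⟨θ, hθL, hθ, hθD', hθρ⟩ := dm_exists_lift S.Y.deg S.Y.D S.Y.hD S.Y.sq V ρ L hL 1 (-1)
    (S.Y.D * P0 S.Y) (by
      intro i hi
      rw [row_vecMul, vecMul_P0]
      funext j
      change (if S.Y.deg j = 0 then S.Y.D i j else 0) = 0
      split_ifs with hj
      · by_contra hne
        exact hi (by rw [S.Y.hD i j hne, hj])
      · rfl) (by
      intro i
      rw [row_vecMul, vecMul_P0]
      exact hLΦ _ (Or.inr ⟨i, rfl⟩)) (by
      rw [← Matrix.mul_assoc, S.Y.sq, Matrix.zero_mul])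
  have hθD : θ * V.D = - (S.Y.D * θ) := by
    rw [hθD', Units.val_neg, Units.val_one, neg_smul, one_smul]
  have hJW := wDM_rz hθ hθD S.hJ hL hρ2 hθL hθρ
  have hιD := wι_chain hθ hθD hL.Dp hρ2 hθρ
  have hι0 := wι_low hθ hθD hL.p0 hρ2
  have hπW : wι ρ * S.π = Matrix.fromRows (ρ * S.π) 0 := by
    unfold wι
    rw [Matrix.fromRows_mul, P1_mul_zero S.hJ.p0]
  -- the map j
  obtain ⟨j, hjJ, hj0, hjD', hjπ⟩ := dm_exists_lift S.Y.deg S.Y.D S.Y.hD S.Y.sq
    (wDM S.Y V θ hθ hθD)
    (Matrix.fromRows (ρ * S.π) 0) (wJ S.Y V ρ S.J L) hJW 0 1 (S.π * N) (by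
      intro i hi
      rw [row_vecMul, S.hJ.p0 i hi, Matrix.zero_vecMul]) (by
      intro i
      obtain ⟨y, hy, hyρ⟩ := hLΦ _ (Or.inl ⟨i, rfl⟩)
      refine ⟨Sum.elim y 0, ⟨hy, fun _ _ => rfl, ?_⟩, ?_⟩
      · rw [Sum.elim_comp_inl, Sum.elim_comp_inr, hyρ, add_zero]
        exact S.hJ.gr _ (S.hκJ i) 0
      · rw [Matrix.vecMul_fromRows, Sum.elim_comp_inl, Sum.elim_comp_inr, Matrix.zero_vecMul,
          add_zero, ← Matrix.vecMul_vecMul, hyρ]
        beta_reduce
        rw [S.hJ.prt_zero_vecMul]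
        exact congrFun S.hκπ i) (by
      rw [← Matrix.mul_assoc, S.hJ.Dp, Matrix.zero_mul])
  refine ⟨wDM S.Y V θ hθ hθD, Sum.elim lV S.lab, Matrix.fromRows (ρ * S.π) 0,
    wJ S.Y V ρ S.J L, wι ρ, j, ?_, ?_, ?_, hJW, hιD, hι0, hπW, fun x hx => wι_mem hx, hjJ, hj0,
    ?_, hjπ⟩
  · rintro (i | i)
    · exact hlV i
    · exact S.hP i
  · rintro (i | i) k g hg
    · have := Hg.mul hid hρg S.hπ
      exact this i k g hg
    · exact absurd rfl hg
  · rw [Matrix.fromRows_mul, Matrix.mul_assoc, hρ1, Matrix.zero_mul]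
    exact Matrix.ext fun i k => by rcases i with i | i <;> rfl
  · rw [hjD', Units.val_one, one_smul]

/-- the step of the induction -/
theorem Stg.step (hG : GDP R G P) {μ : Type} {M : Matrix ι μ (MonoidAlgebra R G)}
    (S : Stg K P l N M) {μ' : Type} [Finite μ'] (M' : Matrix ι μ' (MonoidAlgebra R G))
    (hMM : ∀ (ξ ξ' : X) (x : ι → MonoidAlgebra R G), cp l {ξ} x = x → x ᵥ* M = 0 →
      cp l {ξ'} (x ᵥ* N) ᵥ* M' = 0) : Nonempty (Stg K P l N M') := by
  obtain ⟨W, lW, πW, JW, i', j, hlW, hπg, hπM, hJW, hιD, hι0, hιπ, hιJ, hjJ, hj0, hjD, hjπ⟩ :=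
    S.pre hG M' hMM
  -- the homotopy between `j ι` and `κ`
  obtain ⟨E', -, hE'h, hE'⟩ := dm_exists_null S.Y.deg S.Y.D S.Y.hD S.Y.sq S.Y S.π S.J S.hJ
    (j * i' - S.κ) (by
      intro i
      exact S.J.sub_mem (hιJ _ (hjJ i)) (S.hκJ i)) (by
      exact Low.sub (hj0.mul hι0) S.hκ0) (by
      rw [Matrix.sub_mul, Matrix.mul_sub, S.hκD, Matrix.mul_assoc, ← hιD, ← Matrix.mul_assoc,
        hjD, Matrix.mul_assoc]) (by
      rw [Matrix.sub_mul, Matrix.mul_assoc, hιπ, hjπ, S.hκπ, sub_self])
  obtain ⟨E1, hE1⟩ : ∃ E1, E1 = S.E - E' := ⟨_, rfl⟩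
  obtain ⟨h, hh⟩ : ∃ h, h = E1 * S.Y.D + S.Y.D * E1 := ⟨_, rfl⟩
  have hNY : S.NY = j * i' + h := by
    have h1 := S.hEE
    have h2 : h = (S.E * S.Y.D + S.Y.D * S.E) - (E' * S.Y.D + S.Y.D * E') := by
      rw [hh, hE1, Matrix.sub_mul, Matrix.mul_sub]
      abel
    rw [h2, hE', ← h1]
    abel
  have hE1h : Hi S.Y.deg S.Y.deg E1 := by
    rw [hE1]
    exact S.hE.sub hE'h
  have hhl : Low S.Y.deg S.Y.deg 0 h := by
    rw [hh]
    exact (hE1h.mul_low_one S.Y.hD).add (S.Y.hD.mul_hi hE1h)
  have hci : Low (cDM W S.Y).deg S.Y.deg 0 (ci i' h E1) := by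
    rintro (i | i | i) k hik
    · exact hι0 i k hik
    · exact hhl i k hik
    · exact (hE1h i k hik).symm
  have hcj : Low S.Y.deg (cDM W S.Y).deg 0 (cj j) := by
    rintro i (k | k | k) hik
    · exact hj0 i k hik
    · have : i = k := by
        by_contra hne
        exact hik (Matrix.one_apply_ne hne)
      rw [this]
      rfl
    · exact absurd rfl hik
  have hEE := c_homotopy (E := E1) hιD hjD
  rw [← hh] at hEE
  refine ⟨{
    Y := cDM W S.Y
    lab := Sum.elim lW (Sum.elim S.lab S.lab)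
    hP := ?_
    π := Matrix.fromRows πW 0
    hπ := ?_
    hM := ?_
    J := cJ S.Y JW
    hJ := cDM_rz S.Y hJW
    NY := ci i' h E1 * cj j
    hN0 := hci.mul hcj
    hNn := ?_
    hNk := ?_
    κ := Matrix.fromBlocks (i' * j) 0 0 0
    hκ0 := ?_
    hκD := ?_
    hκJ := ?_
    hκπ := ?_
    E := cE i' j E1
    hE := ?_
    hEE := hEE }⟩
  · rintro (i | i | i)
    · exact hlW i
    · exact S.hP i
    · exact S.hP i
  · rintro (i | i | i) k g hg
    · exact hπg i k g hg
    · exact absurd rfl hg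
    · exact absurd rfl hg
  · rw [Matrix.fromRows_mul, hπM, Matrix.zero_mul]
    exact Matrix.ext fun i k => by rcases i with i | i <;> rfl
  · refine isNilpotent_mul_swap _ _ ?_
    rw [cj_mul_ci, ← hNY]
    exact S.hNn
  · rw [← S.hNk]
    rw [K.chi_comm _ _ hci.ev hcj.ev, cj_mul_ci, ← hNY]
  · rintro (i | i) (k | k) hik
    · exact (hι0.mul hj0) i k hik
    · exact absurd rfl hik
    · exact absurd rfl hik
    · exact absurd rfl hik
  · change Matrix.fromBlocks (i' * j) 0 0 0 * Matrix.fromBlocks W.D 0 0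
      (Matrix.fromBlocks S.Y.D 0 1 (-S.Y.D)) = Matrix.fromBlocks W.D 0 0
      (Matrix.fromBlocks S.Y.D 0 1 (-S.Y.D)) * Matrix.fromBlocks (i' * j) 0 0 0
    rw [Matrix.fromBlocks_multiply, Matrix.fromBlocks_multiply]
    have : i' * j * W.D = W.D * (i' * j) := by
      rw [Matrix.mul_assoc, hjD, ← Matrix.mul_assoc, ← Matrix.mul_assoc, hιD]
    simp [this]
  · rintro (i | i)
    · refine ⟨?_, rfl⟩
      have : (Matrix.fromBlocks (i' * j) 0 0 0 : Matrix (W.t ⊕ (S.Y.t ⊕ S.Y.t))
        (W.t ⊕ (S.Y.t ⊕ S.Y.t)) (MonoidAlgebra R G)) (Sum.inl i) ∘ Sum.inl =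
          i' i ᵥ* j := rfl
      rw [this]
      exact mem_J_vecMul_of_rows hjJ _
    · exact (cJ S.Y JW).zero_mem
  · rw [Matrix.fromBlocks_mul_fromRows, Matrix.mul_assoc, hjπ, Matrix.fromRows_mul, ← hιπ,
      Matrix.mul_assoc]
    simp
  · rintro (i | i | i) (k | k | k) hik
    · exact absurd rfl hik
    · exact absurd rfl hik
    · change S.Y.deg k + 1 = W.deg i + 1
      rw [hι0 i k hik, add_zero]
    · exact (hE1h.mul_low hj0) i k hik
    · exact hE1h i k hik
    · exact absurd rfl hik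
    · exact absurd rfl hik
    · exact absurd rfl hik
    · exact absurd rfl hik

/-- the end of the induction -/
theorem Stg.finish {μ : Type} {M : Matrix ι μ (MonoidAlgebra R G)} (S : Stg K P l N M)
    (hM : ∀ (ξ : X) (x : ι → MonoidAlgebra R G), cp l {ξ} x = x → x ᵥ* M = 0 → x = 0) :
    K.k N = 0 := by
  have hπ0 : S.π = 0 := by
    funext i
    exact hM (S.lab i) (S.π i) (hg_iff.1 S.hπ i) (congrFun S.hM i)
  obtain ⟨E', -, hE'h, hE'⟩ := dm_exists_null S.Y.deg S.Y.D S.Y.hD S.Y.sq S.Y S.π S.J S.hJ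
    S.κ S.hκJ S.hκ0 S.hκD (by rw [hπ0, Matrix.mul_zero])
  have h1 : S.NY = (S.E + E') * S.Y.D + S.Y.D * (S.E + E') := by
    have h2 := S.hEE
    rw [← hE', sub_eq_iff_eq_add] at h2
    rw [h2, Matrix.add_mul, Matrix.mul_add]
    abel
  have hE2 : Hi S.Y.deg S.Y.deg (S.E + E') := by
    intro i j hij
    by_cases h0 : S.E i j = 0
    · refine hE'h i j fun h1 => hij ?_
      rw [Matrix.add_apply, h0, h1, add_zero]
    · exact S.hE i j h0
  rw [← S.hNk, h1]
  refine K.chi_null _ _ S.Y.hD.od hE2.od S.Y.sq ?_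
  rw [← h1]
  exact S.hNn

/-- **The class of a nilpotent matrix with a filtration by graded kernels vanishes.** -/
theorem nil_td (K : KF (MonoidAlgebra R G) B) (hG : GDP R G P) (hl : ∀ i, P (l i))
    (hN : IsNilpotent N) (F : Flt l N) : K.k N = 0 := by
  have key : ∀ j, j ≤ F.len → Nonempty (Stg K P l N (F.M (F.len - j))) := by
    intro j
    induction j with
    | zero =>
      intro _
      exact Stg.start K hl hN _ (F.top _ le_rfl)
    | succ j ih =>
      intro hj
      obtain ⟨S⟩ := ih (by omega)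
      have e : F.len - j = F.len - (j + 1) + 1 := by omega
      refine S.step hG (F.M (F.len - (j + 1))) fun ξ ξ' x hx hxM => ?_
      refine F.step _ ξ ξ' x hx ?_
      rw [← e]
      exact hxM
  obtain ⟨S⟩ := key F.len le_rfl
  refine S.finish ?_
  rw [Nat.sub_self]
  exact F.inj

end Stage

end Pool.Agent.Lib.MP_c052b4_al
end

section

/-!
# Groups with a two-dimensional resolution by permutation modules
-/

set_option autoImplicit false
set_option linter.unusedSectionVars false

namespace Pool.Agent.Lib.MP_c052b4_al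

open Matrix

universe u v w w'

section Gpt

variable {R : Type u} [Ring R] {G : Type v} [Group G] {X : Type w} [MulAction G X]
  {ι : Type} (l : ι → X)

/-- the vectors all of whose components are in `B` -/
noncomputable def gpt (B : Submodule (MonoidAlgebra R G) (ι → MonoidAlgebra R G)) :
    Submodule (MonoidAlgebra R G) (ι → MonoidAlgebra R G) where
  carrier := {x | ∀ ξ : X, cp l {ξ} x ∈ B}
  add_mem' := by
    intro x y hx hy ξ
    rw [cp_add]
    exact B.add_mem (hx ξ) (hy ξ)
  zero_mem' := by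
    intro ξ
    rw [cp_zero]
    exact B.zero_mem
  smul_mem' := by
    intro a x hx
    induction a using MonoidAlgebra.induction_linear with
    | zero =>
      intro ξ
      rw [zero_smul, cp_zero]
      exact B.zero_mem
    | add a b ha hb =>
      intro ξ
      rw [add_smul, cp_add]
      exact B.add_mem (ha ξ) (hb ξ)
    | single h r =>
      intro ξ
      rw [cp_single_smul]
      have h1 : {ξ' : X | h • ξ' ∈ ({ξ} : Set X)} = {h⁻¹ • ξ} := by
        ext ξ'
        simp only [Set.mem_ofPred_eq, Set.mem_singleton_iff]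
        exact eq_inv_smul_iff.symm
      rw [h1]
      exact B.smul_mem _ (hx _)

theorem mem_gpt {B : Submodule (MonoidAlgebra R G) (ι → MonoidAlgebra R G)}
    {x : ι → MonoidAlgebra R G} : x ∈ gpt l B ↔ ∀ ξ : X, cp l {ξ} x ∈ B := Iff.rfl

variable {l}

namespace NrmD

variable (D : NrmD G l)

/-- the part at a representative -/
noncomputable def ptH (O : ι) (B : Submodule (MonoidAlgebra R G) (ι → MonoidAlgebra R G)) :
    Submodule (MonoidAlgebra R (MulAction.stabilizer G (l O)))
      (ι → MonoidAlgebra R (MulAction.stabilizer G (l O))) where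
  carrier := {y | (∀ i, D.r i ≠ O → y i = 0) ∧ D.un R O (vm (inc R (sj G l O)) y) ∈ B}
  add_mem' := by
    rintro x y ⟨hx1, hx2⟩ ⟨hy1, hy2⟩
    refine ⟨fun i hi => ?_, ?_⟩
    · rw [Pi.add_apply, hx1 i hi, hy1 i hi, add_zero]
    · rw [vm_add, map_add]
      exact B.add_mem hx2 hy2
  zero_mem' := by
    refine ⟨fun i _ => rfl, ?_⟩
    rw [vm_zero, map_zero]
    exact B.zero_mem
  smul_mem' := by
    rintro c x ⟨hx1, hx2⟩
    refine ⟨fun i hi => ?_, ?_⟩
    · change c * x i = 0
      rw [hx1 i hi, mul_zero]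
    · rw [vm_smul, map_smul]
      exact B.smul_mem _ hx2

theorem gpt_eq_gi [Finite ι] (B : Submodule (MonoidAlgebra R G) (ι → MonoidAlgebra R G)) :
    gpt l B = D.gi (fun O => D.ptH O B) := by
  classical
  cases nonempty_fintype ι
  ext x
  rw [mem_gpt, D.mem_gi]
  constructor
  · intro h O
    rw [mem_indG_iff _ (sj_injective l O)]
    intro g
    refine ⟨fun i hi => ?_, ?_⟩
    · change rsc (sj G l O) (sj_injective l O) g (D.sh R O x i) = 0
      rw [D.sh_of_ne _ hi, map_zero]
    · by_cases hO : D.r O = O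
      · have h1 := h (g • l O)
        rw [D.cp_eq hO] at h1
        have h2 := B.smul_mem (MonoidAlgebra.single g⁻¹ (1 : R)) h1
        rw [smul_smul, single_inv_mul, one_smul] at h2
        exact h2
      · have h1 : D.un R O (vm (inc R (sj G l O)) (rscv (sj G l O) (sj_injective l O) g
            (D.sh R O x))) = 0 := by
          funext i
          exact D.un_of_ne _ fun h2 => hO (D.r_eq_of_r h2)
        rw [h1]
        exact B.zero_mem
  · intro h ξ
    by_cases hξ : ∃ i, ∃ g : G, g • l i = ξ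
    · obtain ⟨i, g, rfl⟩ := hξ
      have h1 : g • l i = (g * D.γ i) • l (D.r i) := by
        rw [mul_smul, ← D.lab i]
      rw [h1, D.cp_eq (D.rr i)]
      exact B.smul_mem _
        ((mem_indG_iff _ (sj_injective l (D.r i)) _ _).1 (h (D.r i)) (g * D.γ i)).2
    · have h1 : cp l {ξ} x = 0 := by
        funext i
        ext g
        rw [cp_apply, if_neg]
        · rfl
        · intro h2
          exact hξ ⟨i, g, h2⟩
      rw [h1]
      exact B.zero_mem

end NrmD

theorem IsRegularRing.perf_submodule {C : Type u} [Ring C] (h : IsRegularRing C) {ι : Type}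
    [Finite ι] (K : Submodule C (ι → C)) : Perf C K := by
  have := h.1
  have h1 : IsNoetherian C (ι → C) := isNoetherian_pi
  have h2 : Module.Finite C K := Module.Finite.iff_fg.2 (h1.noetherian K)
  exact h.hasRes K

theorem perf_gpt [Fintype ι]
    (hreg : ∀ i, IsRegularRing (MonoidAlgebra R (MulAction.stabilizer G (l i))))
    (B : Submodule (MonoidAlgebra R G) (ι → MonoidAlgebra R G)) :
    Perf (MonoidAlgebra R G) (gpt l B) := by
  obtain ⟨D⟩ := exists_nrm (G := G) l
  rw [D.gpt_eq_gi]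
  exact D.perf_gi _ (fun O y hy => hy.1) fun O => (hreg O).perf_submodule _

end Gpt

section PerfEI

variable {R : Type u} [Ring R] {H : Type v} [Group H] {U : Type v} [MulAction H U] {m : ℕ}

/-- functions supported in the range of `e` -/
noncomputable def lam (R : Type u) [Ring R] (H : Type v) [Group H] (m : ℕ) {k : ℕ}
    (e : Fin k → U) : ((Fin k × Fin m) → MonoidAlgebra R H) →ₗ[MonoidAlgebra R H]
      (U →₀ (Fin m → MonoidAlgebra R H)) :=
  ∑ a, Finsupp.lsingle (e a) ∘ₗ
    LinearMap.funLeft (MonoidAlgebra R H) (MonoidAlgebra R H) fun i : Fin m => (a, i)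

theorem lam_apply {k : ℕ} {e : Fin k → U} (he : Function.Injective e)
    (x : (Fin k × Fin m) → MonoidAlgebra R H) (a : Fin k) :
    lam R H m e x (e a) = fun i => x (a, i) := by
  classical
  unfold lam
  rw [LinearMap.sum_apply, Finsupp.finsetSum_apply, Finset.sum_eq_single a]
  · change Finsupp.single (e a) (fun i => x (a, i)) (e a) = _
    rw [Finsupp.single_eq_same]
  · intro b _ hb
    change Finsupp.single (e b) (fun i => x (b, i)) (e a) = 0
    rw [Finsupp.single_apply, if_neg fun h => hb (he h)]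
  · intro h
    exact absurd (Finset.mem_univ _) h

theorem lam_apply_ne {k : ℕ} {e : Fin k → U} (x : (Fin k × Fin m) → MonoidAlgebra R H) {u : U}
    (hu : u ∉ Set.range e) : lam R H m e x u = 0 := by
  classical
  unfold lam
  rw [LinearMap.sum_apply, Finsupp.finsetSum_apply]
  refine Finset.sum_eq_zero fun b _ => ?_
  change Finsupp.single (e b) (fun i => x (b, i)) u = 0
  rw [Finsupp.single_apply, if_neg fun h => hu ⟨b, h⟩]

theorem lam_injective {k : ℕ} {e : Fin k → U} (he : Function.Injective e) :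
    Function.Injective (lam R H m e) := by
  intro x y h
  funext p
  have h1 := DFunLike.congr_fun h (e p.1)
  rw [lam_apply he, lam_apply he] at h1
  exact congrFun h1 p.2

/-- the augmentation matrix -/
noncomputable def agm (R : Type u) [Ring R] (H : Type v) [Group H] (k m : ℕ) :
    Matrix (Fin k × Fin m) (Fin m) (MonoidAlgebra R H) :=
  Matrix.of fun p j => if p.2 = j then 1 else 0

theorem vecMul_agm {k : ℕ} (y : (Fin k × Fin m) → MonoidAlgebra R H) (i : Fin m) :
    (y ᵥ* agm R H k m) i = ∑ a, y (a, i) := by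
  simp only [Matrix.vecMul, dotProduct, agm, Matrix.of_apply]
  rw [Fintype.sum_prod_type]
  refine Finset.sum_congr rfl fun a _ => ?_
  rw [Finset.sum_eq_single i]
  · rw [if_pos rfl, mul_one]
  · intro j _ hj
    rw [if_neg hj, mul_zero]
  · intro h
    exact absurd (Finset.mem_univ _) h

theorem tw_lam {k : ℕ} {e : Fin k → U} (he : Function.Injective e)
    (x : (Fin k × Fin m) → MonoidAlgebra R H) (w : U) :
    tw (lam R H m e x) w = cp (fun p : Fin k × Fin m => e p.1) {w} x ᵥ* agm R H k m := by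
  classical
  funext i
  ext g
  rw [coeff_tw, vecMul_agm, MonoidAlgebra.coeff_sum, Finsupp.finsetSum_apply]
  simp only [NrmD.cp_apply]
  by_cases h : g⁻¹ • w ∈ Set.range e
  · obtain ⟨a, ha⟩ := h
    rw [← ha, lam_apply he, Finset.sum_eq_single a]
    · rw [if_pos]
      rw [ha, smul_inv_smul]
      exact Set.mem_singleton w
    · intro b _ hb
      rw [if_neg]
      intro h1
      apply hb
      apply he
      rw [ha, ← Set.mem_singleton_iff.1 h1, inv_smul_smul]
    · intro h
      exact absurd (Finset.mem_univ _) h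
  · rw [lam_apply_ne x h]
    symm
    refine Finset.sum_eq_zero fun a _ => ?_
    rw [if_neg]
    intro h1
    apply h
    refine ⟨a, ?_⟩
    rw [← Set.mem_singleton_iff.1 h1, inv_smul_smul]

theorem map_lam {k : ℕ} {e : Fin k → U} (he : Function.Injective e)
    (I : Submodule (MonoidAlgebra R H) (Fin m → MonoidAlgebra R H)) :
    (gpt (fun p : Fin k × Fin m => e p.1)
      (I.comap (Matrix.vecMulLinear (agm R H k m)))).map (lam R H m e) =
        EI U I ⊓ Finsupp.supported _ _ (Set.range e) := by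
  ext f
  constructor
  · rintro ⟨x, hx, rfl⟩
    refine ⟨fun w => ?_, ?_⟩
    · rw [tw_lam he]
      exact hx w
    · exact (Finsupp.mem_supported' _ _).2 fun u hu => lam_apply_ne x hu
  · rintro ⟨h1, h2⟩
    have h2' := (Finsupp.mem_supported' _ _).1 h2
    have h3 : lam R H m e (fun p => f (e p.1) p.2) = f := by
      ext1 u
      by_cases hu : u ∈ Set.range e
      · obtain ⟨a, rfl⟩ := hu
        rw [lam_apply he]
      · rw [lam_apply_ne _ hu, h2' u hu]
    refine ⟨fun p => f (e p.1) p.2, fun w => ?_, h3⟩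
    change _ ᵥ* _ ∈ I
    rw [← tw_lam he, h3]
    exact h1 w

theorem perf_EI (hreg : ∀ u : U, IsRegularRing (MonoidAlgebra R (MulAction.stabilizer H u)))
    (I : Submodule (MonoidAlgebra R H) (Fin m → MonoidAlgebra R H)) (S : Finset U) :
    Perf (MonoidAlgebra R H) ((EI U I ⊓ Finsupp.supported _ _ (S : Set U) :
      Submodule (MonoidAlgebra R H) (U →₀ (Fin m → MonoidAlgebra R H)))) := by
  let e : Fin S.card → U := fun a => (S.equivFin.symm a : U)
  have he : Function.Injective e := Subtype.val_injective.comp S.equivFin.symm.injective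
  have hr : Set.range e = (S : Set U) := by
    ext u
    constructor
    · rintro ⟨a, rfl⟩
      exact (S.equivFin.symm a).2
    · intro hu
      refine ⟨S.equivFin ⟨u, hu⟩, ?_⟩
      change ((S.equivFin.symm (S.equivFin ⟨u, hu⟩)) : U) = u
      rw [Equiv.symm_apply_apply]
  have h1 := perf_gpt (l := fun p : Fin S.card × Fin m => e p.1) (fun p => hreg _)
    (I.comap (Matrix.vecMulLinear (agm R H S.card m)))
  have h2 : Perf (MonoidAlgebra R H) ((gpt (fun p : Fin S.card × Fin m => e p.1)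
      (I.comap (Matrix.vecMulLinear (agm R H S.card m)))).map (lam R H m e)) :=
    h1.congr (Submodule.equivMapOfInjective (lam R H m e) (lam_injective he)
      (gpt (fun p : Fin S.card × Fin m => e p.1)
        (I.comap (Matrix.vecMulLinear (agm R H S.card m)))))
  rw [map_lam he, hr] at h2
  exact h2

theorem gpt_comap_rker {k n : ℕ} (e : Fin k → U)
    (M : Matrix (Fin m) (Fin n) (MonoidAlgebra R H)) :
    gpt (fun p : Fin k × Fin m => e p.1)
      ((rker M).comap (Matrix.vecMulLinear (agm R H k m))) =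
        gker (fun p : Fin k × Fin m => e p.1) (agm R H k m * M) := by
  ext x
  rw [mem_gpt, mem_gker]
  refine forall_congr' fun ξ => ?_
  rw [← Matrix.vecMul_vecMul]
  rfl

/-- the case of kernels -/
theorem perf_EI_rker (hcoh : ∀ u : U, RegCoh (MonoidAlgebra R (MulAction.stabilizer H u))) {n : ℕ}
    (M : Matrix (Fin m) (Fin n) (MonoidAlgebra R H)) (S : Finset U) :
    Perf (MonoidAlgebra R H) ((EI U (rker M) ⊓ Finsupp.supported _ _ (S : Set U) :
      Submodule (MonoidAlgebra R H) (U →₀ (Fin m → MonoidAlgebra R H)))) := by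
  let e : Fin S.card → U := fun a => (S.equivFin.symm a : U)
  have he : Function.Injective e := Subtype.val_injective.comp S.equivFin.symm.injective
  have hr : Set.range e = (S : Set U) := by
    ext u
    constructor
    · rintro ⟨a, rfl⟩
      exact (S.equivFin.symm a).2
    · intro hu
      refine ⟨S.equivFin ⟨u, hu⟩, ?_⟩
      change ((S.equivFin.symm (S.equivFin ⟨u, hu⟩)) : U) = u
      rw [Equiv.symm_apply_apply]
  have h1 : Perf (MonoidAlgebra R H) (gpt (fun p : Fin S.card × Fin m => e p.1)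
      ((rker M).comap (Matrix.vecMulLinear (agm R H S.card m)))) := by
    rw [gpt_comap_rker]
    exact perf_gker' _ _ fun i => hcoh _
  have h2 : Perf (MonoidAlgebra R H) ((gpt (fun p : Fin S.card × Fin m => e p.1)
      ((rker M).comap (Matrix.vecMulLinear (agm R H S.card m)))).map (lam R H m e)) :=
    h1.congr (Submodule.equivMapOfInjective (lam R H m e) (lam_injective he)
      (gpt (fun p : Fin S.card × Fin m => e p.1)
        ((rker M).comap (Matrix.vecMulLinear (agm R H S.card m)))))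
  rw [map_lam he, hr] at h2
  exact h2

end PerfEI

section Supp

variable {A : Type u} [Ring A] {M : Type v} [AddCommGroup M] [Module A M] {U V : Type w}

theorem exists_supp (N : Submodule A (U →₀ M)) (hN : N.FG) :
    ∃ S : Finset U, N ≤ Finsupp.supported M A (S : Set U) := by
  classical
  obtain ⟨s, rfl⟩ := hN
  refine ⟨s.biUnion fun f => f.support, ?_⟩
  rw [Submodule.span_le]
  intro f hf
  rw [SetLike.mem_coe, Finsupp.mem_supported]
  intro u hu
  rw [Finset.mem_coe, Finset.mem_biUnion]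
  exact ⟨f, hf, hu⟩

theorem supported_fg [Module.Finite A M] (S : Finset U) :
    (Finsupp.supported M A (S : Set U)).FG := by
  classical
  obtain ⟨t, ht⟩ := Module.Finite.fg_top (R := A) (M := M)
  refine ⟨S.biUnion fun u => t.image fun x => Finsupp.single u x, ?_⟩
  apply le_antisymm
  · rw [Submodule.span_le]
    intro f hf
    rw [Finset.mem_coe, Finset.mem_biUnion] at hf
    obtain ⟨u, hu, hf⟩ := hf
    rw [Finset.mem_image] at hf
    obtain ⟨x, -, rfl⟩ := hf
    exact Finsupp.single_mem_supported A x hu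
  · intro f hf
    rw [← Finsupp.sum_single f]
    refine Submodule.sum_mem _ fun u hu => ?_
    have huS : u ∈ S := (Finsupp.mem_supported _ _).1 hf hu
    have : ∀ x : M, Finsupp.single u x ∈ Submodule.span A
        ((S.biUnion fun u => t.image fun x => Finsupp.single u x : Finset (U →₀ M)) :
          Set (U →₀ M)) := by
      intro x
      have hx : x ∈ Submodule.span A (t : Set M) := by
        rw [ht]
        trivial
      induction hx using Submodule.span_induction with
      | mem x hx =>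
        apply Submodule.subset_span
        rw [Finset.mem_coe, Finset.mem_biUnion]
        exact ⟨u, huS, Finset.mem_image.2 ⟨x, hx, rfl⟩⟩
      | zero =>
        rw [Finsupp.single_zero]
        exact Submodule.zero_mem _
      | add x y _ _ hx hy =>
        rw [Finsupp.single_add]
        exact Submodule.add_mem _ hx hy
      | smul a x _ hx =>
        rw [← Finsupp.smul_single]
        exact Submodule.smul_mem _ _ hx
    exact this _

theorem exists_supp_map [Module.Finite A M] {M' : Type w'} [AddCommGroup M'] [Module A M']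
    (L : (U →₀ M) →ₗ[A] (V →₀ M')) (S : Finset U) :
    ∃ S' : Finset V, ∀ f ∈ Finsupp.supported M A (S : Set U),
      L f ∈ Finsupp.supported M' A (S' : Set V) := by
  classical
  obtain ⟨S', hS'⟩ := exists_supp (A := A) ((Finsupp.supported M A (S : Set U)).map L)
    ((supported_fg S).map L)
  exact ⟨S', fun f hf => hS' ⟨f, hf, rfl⟩⟩

end Supp

end Pool.Agent.Lib.MP_c052b4_al
end

section

/-!
# Recoding of graded nilpotent matrices along paths
-/

set_option autoImplicit false
set_option linter.unusedSectionVars false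

namespace Pool.Agent.Lib.MP_c052b4_al

open Matrix MulAction

universe u v w w'

variable {R : Type u} [Ring R] {G : Type v} [Group G] {X : Type w} [MulAction G X]

namespace Rec

variable {ι : Type} [Fintype ι] [DecidableEq ι] (l : ι → X) (N : Matrix ι ι (MonoidAlgebra R G))

/-- the degrees of a row -/
noncomputable def dg (i : ι) : Finset X := by
  classical
  exact Finset.univ.biUnion fun j => (N i j).coeff.support.image fun g => g • l j

theorem mem_dg {i : ι} {ζ : X} : ζ ∈ dg l N i ↔ ∃ j g, (N i j).coeff g ≠ 0 ∧ g • l j = ζ := by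
  classical
  simp only [dg, Finset.mem_biUnion, Finset.mem_univ, true_and, Finset.mem_image,
    Finsupp.mem_support_iff]

/-- the new index set -/
abbrev Ix : Type := Σ i : ι, Fin (dg l N i).card

/-- the second degree -/
noncomputable def zt (t : Ix l N) : X := ((dg l N t.1).equivFin.symm t.2 : X)

theorem zt_mem (t : Ix l N) : zt l N t ∈ dg l N t.1 := ((dg l N t.1).equivFin.symm t.2).2

theorem zt_inj {i : ι} {c c' : Fin (dg l N i).card} (h : zt l N ⟨i, c⟩ = zt l N ⟨i, c'⟩) :
    c = c' := (dg l N i).equivFin.symm.injective (Subtype.ext h)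

theorem exists_zt {i : ι} {ζ : X} (h : ζ ∈ dg l N i) : ∃ c, zt l N ⟨i, c⟩ = ζ :=
  ⟨(dg l N i).equivFin ⟨ζ, h⟩, by simp [zt]⟩

/-- the new labels -/
noncomputable def l' (t : Ix l N) : X × X := (l t.1, zt l N t)

/-- first factor -/
noncomputable def fa : Matrix ι (Ix l N) (MonoidAlgebra R G) := fun i t => if t.1 = i then 1 else 0

/-- second factor -/
noncomputable def fb : Matrix (Ix l N) ι (MonoidAlgebra R G) :=
  fun t j => cpA {g | g • l j = zt l N t} (N t.1 j)

theorem fa_mul {κ : Type*} (M : Matrix (Ix l N) κ (MonoidAlgebra R G)) (i : ι) (k : κ) :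
    (fa l N * M) i k = ∑ c, M ⟨i, c⟩ k := by
  rw [Matrix.mul_apply, Fintype.sum_sigma]
  rw [Finset.sum_eq_single i]
  · refine Finset.sum_congr rfl fun c _ => ?_
    simp [fa]
  · intro i' _ hi'
    refine Finset.sum_eq_zero fun c _ => ?_
    simp [fa, hi']
  · intro h
    exact absurd (Finset.mem_univ _) h

theorem mul_fa {κ : Type*} (M : Matrix κ ι (MonoidAlgebra R G)) (k : κ) (t : Ix l N) :
    (M * fa l N) k t = M k t.1 := by
  rw [Matrix.mul_apply, Finset.sum_eq_single t.1]
  · simp [fa]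
  · intro j _ hj
    simp [fa, hj.symm]
  · intro h
    exact absurd (Finset.mem_univ _) h

theorem fa_mul_fb : fa l N * fb l N = N := by
  classical
  refine Matrix.ext fun i j => ?_
  rw [fa_mul]
  ext g
  rw [MonoidAlgebra.coeff_sum, Finsupp.finsetSum_apply]
  by_cases hg : (N i j).coeff g = 0
  · rw [hg]
    refine Finset.sum_eq_zero fun c _ => ?_
    rw [fb, coeff_cpA, hg, ite_self]
  · obtain ⟨c, hc⟩ := exists_zt l N ((mem_dg l N).2 ⟨j, g, hg, rfl⟩)
    rw [Finset.sum_eq_single c]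
    · rw [fb, coeff_cpA, if_pos]
      exact hc.symm
    · intro c' _ hc'
      rw [fb, coeff_cpA, if_neg]
      intro h
      exact hc' (zt_inj l N (h.symm.trans hc.symm))
    · intro h
      exact absurd (Finset.mem_univ _) h

/-- the recoded matrix -/
noncomputable def N' : Matrix (Ix l N) (Ix l N) (MonoidAlgebra R G) := fb l N * fa l N

theorem N'_apply (t t' : Ix l N) : N' l N t t' = fb l N t t'.1 := mul_fa l N _ _ _

theorem kk_N' : kk (-N' l N) = kk (-N) := by
  have h1 : -N' l N = fb l N * (-fa l N) := by rw [N', Matrix.mul_neg]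
  have h2 : -N = (-fa l N) * fb l N := by rw [Matrix.neg_mul, fa_mul_fb]
  rw [h1, h2, kk_comm]

theorem coeff_fb {t : Ix l N} {j : ι} {g : G} (h : (fb l N t j).coeff g ≠ 0) :
    (N t.1 j).coeff g ≠ 0 ∧ g • l j = zt l N t := by
  classical
  rw [fb, coeff_cpA] at h
  by_cases h1 : g ∈ {g | g • l j = zt l N t}
  · rw [if_pos h1] at h
    exact ⟨h, h1⟩
  · rw [if_neg h1] at h
    exact absurd rfl h

theorem hg_fb : Hg (l' l N) l Prod.snd (fb l N) := fun _ _ _ h => (coeff_fb l N h).2

theorem sp_fa : Sp l (l' l N) (fun x p => p.1 = x) (fa l N) := by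
  classical
  intro i t g hg
  by_cases hi : t.1 = i
  · have h1 : fa l N i t = MonoidAlgebra.single 1 1 := by
      rw [fa, if_pos hi]
      rfl
    rw [h1, MonoidAlgebra.coeff_single, Finsupp.single_apply] at hg
    have h2 : (1 : G) = g := by
      by_contra h
      rw [if_neg h] at hg
      exact hg rfl
    rw [← h2, one_smul, ← hi]
    rfl
  · rw [fa, if_neg hi] at hg
    exact absurd rfl hg

theorem cp_fb (Z : Set X) (x : Ix l N → MonoidAlgebra R G) :
    cp l Z (x ᵥ* fb l N) = cp (l' l N) (Prod.snd ⁻¹' Z) x ᵥ* fb l N :=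
  Hg.cp_vecMul (fun _ _ => rfl) (hg_fb l N) Z x

theorem cp_fa {η : X} {y : ι → MonoidAlgebra R G} (hy : cp l {η} y = y) :
    cp (l' l N) {p | p.1 = η} (y ᵥ* fa l N) = y ᵥ* fa l N :=
  (sp_fa l N).cp_vecMul (fun g x y => by
    change (g • y).1 = g • x ↔ y.1 = x
    rw [Prod.smul_fst, smul_left_cancel_iff]) hy

theorem hom_fb {ξ : X × X} {x : Ix l N → MonoidAlgebra R G} (hx : cp (l' l N) {ξ} x = x) :
    cp l {ξ.2} (x ᵥ* fb l N) = x ᵥ* fb l N := by
  rw [cp_fb, cp_eq_self_of_subset hx]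
  rintro _ rfl
  rfl

/-- the filtration for the recoded matrix -/
noncomputable def flt (F : Flt l N) : Flt (l' l N) (N' l N) where
  κ k := match k with
    | 0 => Ix l N
    | k + 1 => F.κ k
  fκ k := match k with
    | 0 => inferInstanceAs (Finite (Ix l N))
    | k + 1 => F.fκ k
  M k := match k with
    | 0 => (1 : Matrix (Ix l N) (Ix l N) (MonoidAlgebra R G))
    | k + 1 => fb l N * F.M k
  inj ξ x _ h := by
    rwa [Matrix.vecMul_one] at h
  len := F.len + 1
  top k hk := by
    obtain ⟨k, rfl⟩ : ∃ m, k = m + 1 := ⟨k - 1, by omega⟩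
    change fb l N * F.M k = 0
    rw [F.top k (by omega), Matrix.mul_zero]
  step k ξ ξ' x hx h := by
    have h0 : (x ᵥ* fb l N) ᵥ* F.M k = 0 := by
      rw [Matrix.vecMul_vecMul]
      exact h
    have hy := hom_fb l N hx
    cases k with
    | zero =>
      have h1 := F.inj ξ.2 _ hy h0
      change cp (l' l N) {ξ'} (x ᵥ* (fb l N * fa l N)) ᵥ* (1 : Matrix (Ix l N) (Ix l N) _) = 0
      rw [← Matrix.vecMul_vecMul, h1, Matrix.zero_vecMul, cp_zero, Matrix.zero_vecMul]
    | succ k =>
      change cp (l' l N) {ξ'} (x ᵥ* (fb l N * fa l N)) ᵥ* (fb l N * F.M k) = 0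
      rw [← Matrix.vecMul_vecMul, ← Matrix.vecMul_vecMul]
      set y := x ᵥ* fb l N with hyd
      have h2 := F.step k ξ.2 ξ'.2 y hy h0
      have h3 := cp_fa l N hy
      by_cases hξ : ξ'.1 = ξ.2
      · have h4 : cp (l' l N) {ξ'} (y ᵥ* fa l N) =
            cp (l' l N) (Prod.snd ⁻¹' {ξ'.2}) (y ᵥ* fa l N) := by
          rw [← h3, cp_cp, cp_cp]
          congr 1
          ext p
          simp only [Set.mem_inter_iff, Set.mem_singleton_iff, Set.mem_setOf_eq, Set.mem_preimage]
          constructor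
          · rintro ⟨rfl, h⟩
            exact ⟨rfl, h⟩
          · rintro ⟨h, h'⟩
            exact ⟨Prod.ext (h'.trans hξ.symm) h, h'⟩
        rw [h4, ← cp_fb, Matrix.vecMul_vecMul y, fa_mul_fb]
        exact h2
      · have h4 : cp (l' l N) {ξ'} (y ᵥ* fa l N) = 0 := by
          apply cp_eq_zero_of_disjoint h3
          rw [Set.disjoint_singleton_left]
          exact hξ
        rw [h4, Matrix.zero_vecMul, Matrix.zero_vecMul]

end Rec

section Good

variable (D : Subgroup G → Prop)

/-- All supported chains of length `k` starting at `i` have stabilizers with the property `D`. -/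
def GoodCh {ι : Type} (l : ι → X) (N : Matrix ι ι (MonoidAlgebra R G)) :
    ℕ → ι → G → Subgroup G → Prop
  | 0, i, a, H => D (H ⊓ stabilizer G (a • l i))
  | k + 1, i, a, H => ∀ j g, (N i j).coeff g ≠ 0 →
      GoodCh l N k j (a * g) (H ⊓ stabilizer G (a • l i))

variable {D}

theorem goodCh_congr {ι : Type} {l : ι → X} {N : Matrix ι ι (MonoidAlgebra R G)} {k : ℕ} {i : ι}
    {a : G} {H H' : Subgroup G}
    (h : H ⊓ stabilizer G (a • l i) = H' ⊓ stabilizer G (a • l i))
    (hg : GoodCh D l N k i a H) : GoodCh D l N k i a H' := by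
  cases k with
  | zero =>
    rw [GoodCh, ← h]
    exact hg
  | succ k =>
    intro j g hjg
    rw [← h]
    exact hg j g hjg

theorem stab_pair {Y Z : Type*} [MulAction G Y] [MulAction G Z] (a : G) (y : Y) (z : Z) :
    stabilizer G (a • (y, z)) = stabilizer G (a • y) ⊓ stabilizer G (a • z) := by
  ext g
  rw [Subgroup.mem_inf, mem_stabilizer_iff, mem_stabilizer_iff, mem_stabilizer_iff, Prod.smul_mk,
    Prod.smul_mk, Prod.mk.injEq]

theorem goodCh_recode {ι : Type} [Fintype ι] [DecidableEq ι] (l : ι → X)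
    (N : Matrix ι ι (MonoidAlgebra R G)) (k : ℕ) :
    ∀ (i : ι) (c) (a : G) (H : Subgroup G), GoodCh D l N (k + 1) i a H →
      GoodCh D (Rec.l' l N) (Rec.N' l N) k ⟨i, c⟩ a H := by
  induction k with
  | zero =>
    intro i c a H h
    obtain ⟨j, g, hg, hz⟩ := (Rec.mem_dg l N).1 (Rec.zt_mem l N ⟨i, c⟩)
    have h1 : D ((H ⊓ stabilizer G (a • l i)) ⊓ stabilizer G ((a * g) • l j)) := h j g hg
    rw [GoodCh, Rec.l', stab_pair, ← inf_assoc]
    rw [mul_smul, hz] at h1
    exact h1
  | succ k ih =>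
    intro i c a H h t' g hg
    rw [Rec.N'_apply] at hg
    obtain ⟨h1, h2⟩ := Rec.coeff_fb l N hg
    have h3 := ih t'.1 t'.2 (a * g) _ (h t'.1 g h1)
    refine goodCh_congr ?_ h3
    change _ ⊓ stabilizer G ((a * g) • (l t'.1, Rec.zt l N t')) =
      (H ⊓ stabilizer G (a • (l i, Rec.zt l N ⟨i, c⟩))) ⊓
        stabilizer G ((a * g) • (l t'.1, Rec.zt l N t'))
    rw [stab_pair, stab_pair, ← h2, smul_smul]
    ext x
    simp only [Subgroup.mem_inf]
    tauto

/-- **Nilpotent matrices with good chains have trivial class.** -/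
theorem nil_good (hD : ∀ H : Subgroup G, D H → DPr (MonoidAlgebra R H)) (k : ℕ) :
    ∀ (X : Type w) [MulAction G X] {ι : Type} [Fintype ι] [DecidableEq ι] (l : ι → X)
      (N : Matrix ι ι (MonoidAlgebra R G)) (_ : Flt l N),
      (∀ i, GoodCh D l N k i 1 ⊤) → kk (-N) = 0 := by
  induction k with
  | zero =>
    intro X _ ι _ _ l N F h
    refine nil_gradedF l N F fun i => ?_
    have h1 : D (⊤ ⊓ stabilizer G ((1 : G) • l i)) := h i
    rw [top_inf_eq, one_smul] at h1
    exact hD _ h1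
  | succ k ih =>
    intro X _ ι _ _ l N F h
    rw [← Rec.kk_N' l N]
    exact ih (X × X) (Rec.l' l N) (Rec.N' l N) (Rec.flt l N F) fun t =>
      goodCh_recode l N k t.1 t.2 1 ⊤ (h t.1)

theorem goodCh_succ (hmono : ∀ H H' : Subgroup G, H' ≤ H → D H → D H') {ι : Type} (l : ι → X)
    (N : Matrix ι ι (MonoidAlgebra R G)) (k : ℕ) : ∀ (i : ι) (a : G) (H : Subgroup G),
      GoodCh D l N k i a H → GoodCh D l N (k + 1) i a H := by
  induction k with
  | zero =>
    intro i a H h j g _
    exact hmono _ _ inf_le_left h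
  | succ k ih =>
    intro i a H h j g hg
    exact ih j (a * g) _ (h j g hg)

theorem goodCh_mono (hmono : ∀ H H' : Subgroup G, H' ≤ H → D H → D H') {ι : Type} (l : ι → X)
    (N : Matrix ι ι (MonoidAlgebra R G)) {k k' : ℕ} (hk : k ≤ k') (i : ι) (a : G) (H : Subgroup G)
    (h : GoodCh D l N k i a H) : GoodCh D l N k' i a H := by
  induction hk with
  | refl => exact h
  | step _ ih => exact goodCh_succ hmono l N _ i a H ih

/-- A chain which is never good extends by one step to a chain which is never good. -/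
theorem exists_next (hmono : ∀ H H' : Subgroup G, H' ≤ H → D H → D H') {ι : Type} [Fintype ι]
    (l : ι → X) (N : Matrix ι ι (MonoidAlgebra R G)) {i : ι} {a : G} {H : Subgroup G}
    (h : ∀ k, ¬ GoodCh D l N k i a H) :
    ∃ j g, (N i j).coeff g ≠ 0 ∧
      ∀ k, ¬ GoodCh D l N k j (a * g) (H ⊓ stabilizer G (a • l i)) := by
  classical
  by_contra hne
  push Not at hne
  have h1 : ∀ (j : ι) (g : G), ∃ k, (N i j).coeff g ≠ 0 →
      GoodCh D l N k j (a * g) (H ⊓ stabilizer G (a • l i)) := by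
    intro j g
    by_cases hg : (N i j).coeff g ≠ 0
    · obtain ⟨k, hk⟩ := hne j g hg
      exact ⟨k, fun _ => hk⟩
    · exact ⟨0, fun h => absurd h hg⟩
  choose k hk using h1
  let K : ℕ := Finset.univ.sup fun j => (N i j).coeff.support.sup fun g => k j g
  apply h (K + 1)
  intro j g hg
  refine goodCh_mono hmono l N ?_ _ _ _ (hk j g hg)
  have h2 : k j g ≤ (N i j).coeff.support.sup fun g => k j g :=
    Finset.le_sup (f := fun g => k j g) (Finsupp.mem_support_iff.2 hg)
  have h3 : ((N i j).coeff.support.sup fun g => k j g) ≤ K :=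
    Finset.le_sup (f := fun j => (N i j).coeff.support.sup fun g => k j g) (Finset.mem_univ j)
  exact h2.trans h3

/-- the pointwise stabilizer of the first points of a sequence -/
def fixG (G : Type v) [Group G] {X : Type w} [MulAction G X] (x : ℕ → X) (n : ℕ) : Subgroup G :=
  ⨅ m : Fin (n + 1), stabilizer G (x m)

theorem mem_fixG {x : ℕ → X} {n : ℕ} {g : G} : g ∈ fixG G x n ↔ ∀ m ≤ n, g • x m = x m := by
  unfold fixG
  rw [Subgroup.mem_iInf]
  constructor
  · intro h m hm
    exact h ⟨m, by omega⟩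
  · intro h m
    exact h m (by omega)

/-- **König's lemma for chains.** -/
theorem exists_ray (hmono : ∀ H H' : Subgroup G, H' ≤ H → D H → D H') {ι : Type} [Fintype ι]
    (l : ι → X) (N : Matrix ι ι (MonoidAlgebra R G)) (P : X → X → Prop)
    (hP : ∀ (g : G) x y, P (g • x) (g • y) ↔ P x y) (hN : Sp l l P N)
    (h : ∀ k, ∃ i, ¬ GoodCh D l N k i 1 ⊤) :
    ∃ x : ℕ → X, (∀ n, P (x n) (x (n + 1))) ∧ ∀ n, ¬ D (fixG G x n) := by
  classical
  have h0 : ∃ i, ∀ k, ¬ GoodCh D l N k i 1 ⊤ := by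
    by_contra hne
    push Not at hne
    choose k hk using hne
    obtain ⟨i, hi⟩ := h (Finset.univ.sup k)
    exact hi (goodCh_mono hmono l N (Finset.le_sup (Finset.mem_univ i)) _ _ _ (hk i))
  obtain ⟨i0, hi0⟩ := h0
  -- states
  let S := {s : ι × G × Subgroup G // ∀ k, ¬ GoodCh D l N k s.1 s.2.1 s.2.2}
  have hnext : ∀ s : S, ∃ s' : S, ∃ g, (N s.1.1 s'.1.1).coeff g ≠ 0 ∧ s'.1.2.1 = s.1.2.1 * g ∧
      s'.1.2.2 = s.1.2.2 ⊓ stabilizer G (s.1.2.1 • l s.1.1) := by
    rintro ⟨⟨i, a, H⟩, hs⟩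
    obtain ⟨j, g, hg, hk⟩ := exists_next hmono l N hs
    exact ⟨⟨(j, a * g, H ⊓ stabilizer G (a • l i)), hk⟩, g, hg, rfl, rfl⟩
  choose nx hnx using hnext
  let s : ℕ → S := fun n => nx^[n] ⟨(i0, 1, ⊤), hi0⟩
  have hs : ∀ n, s (n + 1) = nx (s n) := fun n => Function.iterate_succ_apply' nx n _
  let x : ℕ → X := fun n => (s n).1.2.1 • l (s n).1.1
  have hH : ∀ n, (s n).1.2.2 ⊓ stabilizer G (x n) = fixG G x n := by
    intro n
    induction n with
    | zero =>
      have : (s 0).1.2.2 = ⊤ := rfl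
      rw [this, top_inf_eq]
      ext g
      rw [mem_fixG, mem_stabilizer_iff]
      constructor
      · intro h m hm
        obtain rfl : m = 0 := by omega
        exact h
      · intro h
        exact h 0 le_rfl
    | succ n ih =>
      obtain ⟨g, -, -, h3⟩ := hnx (s n)
      rw [← hs n] at h3
      rw [h3]
      change ((s n).1.2.2 ⊓ stabilizer G (x n)) ⊓ _ = _
      rw [ih]
      ext g
      rw [Subgroup.mem_inf, mem_fixG, mem_fixG, mem_stabilizer_iff]
      constructor
      · rintro ⟨h1, h2⟩ m hm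
        rcases Nat.lt_or_ge m (n + 1) with h4 | h4
        · exact h1 m (by omega)
        · obtain rfl : m = n + 1 := by omega
          exact h2
      · intro h1
        exact ⟨fun m hm => h1 m (by omega), h1 (n + 1) le_rfl⟩
  refine ⟨x, fun n => ?_, fun n hn => ?_⟩
  · obtain ⟨g, h1, h2, -⟩ := hnx (s n)
    rw [← hs n] at h1 h2
    have h4 := hN _ _ _ h1
    change P ((s n).1.2.1 • l (s n).1.1) ((s (n + 1)).1.2.1 • l (s (n + 1)).1.1)
    rw [h2, mul_smul, hP]
    exact h4
  · rw [← hH n] at hn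
    exact (s n).2 0 hn

/-- **Theorem N.** Graded nilpotent matrices such that all infinite chains have an initial segment
with good stabilizer. -/
theorem nil_ray (hmono : ∀ H H' : Subgroup G, H' ≤ H → D H → D H')
    (hD : ∀ H : Subgroup G, D H → DPr (MonoidAlgebra R H)) {ι : Type} [Fintype ι] [DecidableEq ι]
    (l : ι → X) (N : Matrix ι ι (MonoidAlgebra R G)) (F : Flt l N) (P : X → X → Prop)
    (hP : ∀ (g : G) x y, P (g • x) (g • y) ↔ P x y) (hN : Sp l l P N)
    (hray : ∀ x : ℕ → X, (∀ n, P (x n) (x (n + 1))) → ∃ n, D (fixG G x n)) :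
    kk (-N) = 0 := by
  by_contra hne
  have h1 : ∀ k, ∃ i, ¬ GoodCh D l N k i 1 ⊤ := by
    intro k
    by_contra h
    push Not at h
    exact hne (nil_good hD k X l N F h)
  obtain ⟨x, hx, hx'⟩ := exists_ray hmono l N P hP hN h1
  obtain ⟨n, hn⟩ := hray x hx
  exact hx' n hn

/-- the filtration by kernels of powers -/
noncomputable def fltPow {ι : Type} [Fintype ι] [DecidableEq ι] (l : ι → X)
    (N : Matrix ι ι (MonoidAlgebra R G)) (hN : IsNilpotent N)
    (hU : ∀ (k : ℕ) (ξ ξ' : X) (x : ι → MonoidAlgebra R G), cp l {ξ} x = x →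
      x ᵥ* N ^ (k + 1) = 0 → cp l {ξ'} (x ᵥ* N) ᵥ* N ^ k = 0) : Flt l N where
  κ _ := ι
  fκ _ := inferInstance
  M k := N ^ k
  inj ξ x _ h := by rwa [pow_zero, Matrix.vecMul_one] at h
  len := hN.choose
  top k hk := by
    obtain ⟨m, rfl⟩ := Nat.exists_eq_add_of_le hk
    rw [pow_add, hN.choose_spec, zero_mul]
  step := hU

end Good

end Pool.Agent.Lib.MP_c052b4_al
end
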