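import Pool.Agent.Lib.MP_c052b4_al.Mg.G039
import Pool.Agent.Lib.MP_c052b4_al.Mg.G068
import Pool.Agent.Lib.MP_c052b4_al.Mg.G049
import Pool.Agent.Lib.MP_c052b4_al.Mg.G027
import Pool.Agent.Lib.MP_c052b4_al.Mg.G070

section

/-!
# Coherent trees, K01: generators of the kernel of a morphism, at one label
-/

set_option autoImplicit false
set_option linter.unusedVariables false
set_option linter.unusedSectionVars false

namespace Pool.Agent.Lib.MP_c052b4_al.CT

open CategoryTheory Opposite
open Pool.Agent.Lib.MP_c052b4_al.MT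

universe u

variable {S : Type u} [Ring S] {G : Type u} [Group G] {L : Lbl G}

/-- The kernel of a matrix over a regular coherent ring is the row space of a matrix.
Proof: `h m n M` is perfect, so finitely generated (`Perf.finite`); the rows are generators. -/
theorem exists_rows {C : Type u} [Ring C] (h : RegCoh C) {m n : ℕ} (M : Matrix (Fin m) (Fin n) C) :
    ∃ (k : ℕ) (A : Matrix (Fin k) (Fin m) C), A * M = 0 ∧
      ∀ x, Matrix.vecMul x M = 0 → ∃ z, Matrix.vecMul z A = x := by
  have := (h m n M).finite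
  obtain ⟨k, s, hs⟩ := Module.Finite.exists_fin (R := C) (M := rker M)
  refine ⟨k, Matrix.of fun i => (s i : Fin m → C), ?_, ?_⟩
  · funext i
    rw [Matrix.mul_apply_eq_vecMul]
    have h1 : Matrix.vecMul (s i : Fin m → C) M = 0 := mem_rker.1 (s i).2
    exact h1
  · intro x hx
    have h2 : (⟨x, mem_rker.2 hx⟩ : rker M) ∈ Submodule.span C (Set.range s) := by
      rw [hs]
      exact Submodule.mem_top
    obtain ⟨z, hz⟩ := (Submodule.mem_span_range_iff_exists_fun C).1 h2
    refine ⟨z, ?_⟩
    have h3 := congrArg (Subtype.val : rker M → (Fin m → C)) hz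
    rw [Submodule.coe_sum] at h3
    rw [Matrix.vecMul_eq_sum]
    exact h3

/-- The kernel of a morphism of finite objects at the label `y` is finitely generated over the group
ring of the stabilizer of `y`.
Proof: let `ψ : cK S (Fin k) y ⟶ F`, `ψ' : cK S (Fin l) y ⟶ F'` be as in `exists_psi`. By
`exists_lift` there is `g` with `g ≫ ψ' = ψ ≫ f`, and `g = cy M` (`exists_cy`). Let `A` be as in
`exists_rows` for `M` and `h = cy A ≫ ψ`; `h ≫ f = cy A ≫ cy M ≫ ψ' = cy (A * M) ≫ ψ' = 0`. Let
`v ∈ F.fil y` with `lin f v = 0`, so `v = lin ψ (vf x)` (`exists_vf`), and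
`lin ψ' (lin (cy M) (vf x)) = 0`; by injectivity of `evHom ψ' y` the vector
`lin (cy M) (vf x) = vf (vecMul x M)` is zero, so `vecMul x M = 0` (`vf_injective`) and
`x = vecMul z A`; take `w = vf z`. -/
theorem exists_ker_local (hL : OrdL L) {F F' : VCat S L} (hF : Finite F.I) (hF' : Finite F'.I)
    (f : F ⟶ F') (y : L.W) (hy : RegCoh (CR S y)) :
    ∃ (k : ℕ) (h : cK S (Fin k) y ⟶ F), h ≫ f = 0 ∧ ∀ v ∈ F.fil y, VCat.lin f v = 0 →
      ∃ w ∈ (cK S (Fin k) y).fil y, VCat.lin h w = v := by
  obtain ⟨k, ψ, hψ⟩ := exists_psi hL F hF y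
  obtain ⟨l, ψ', hψ'⟩ := exists_psi hL F' hF' y
  obtain ⟨g, hg⟩ := exists_lift ψ' hψ'.2 (ψ ≫ f)
  obtain ⟨M, rfl⟩ := exists_cy hL g
  obtain ⟨n, A, hA, hA'⟩ := exists_rows hy M
  refine ⟨n, cy A ≫ ψ, ?_, ?_⟩
  · rw [Category.assoc, ← hg, ← Category.assoc, ← cy_mul, hA, cy_zero, Limits.zero_comp]
  · intro v hv hv0
    obtain ⟨u, hu⟩ := hψ.2 ⟨v, hv⟩
    obtain ⟨x, hx⟩ := exists_vf hL u.1 u.2
    have h1 : VCat.lin ψ (vf x) = v := by
      rw [hx]
      exact congrArg Subtype.val hu
    have h2 : VCat.lin ψ' (VCat.lin (cy M) (vf x)) = 0 := by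
      have h3 : VCat.lin (cy M ≫ ψ') (vf x) = VCat.lin (ψ ≫ f) (vf x) := by rw [hg]
      rw [VCat.lin_comp, VCat.lin_comp, LinearMap.comp_apply, LinearMap.comp_apply, h1, hv0] at h3
      exact h3
    have h4 : VCat.evHom ψ' y ⟨VCat.lin (cy M) (vf x), VCat.lin_mem _ (vf_mem x)⟩ =
        VCat.evHom ψ' y 0 := by
      refine Subtype.ext ?_
      rw [map_zero]
      exact h2
    have h5 : VCat.lin (cy M) (vf x) = 0 := congrArg Subtype.val (hψ'.1 h4)
    rw [lin_cy_vf] at h5
    have h6 : Matrix.vecMul x M = 0 := vf_injective (h5.trans vf_zero.symm)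
    obtain ⟨z, hz⟩ := hA' x h6
    refine ⟨vf z, vf_mem z, ?_⟩
    rw [VCat.lin_comp, LinearMap.comp_apply, lin_cy_vf, hz, h1]

end Pool.Agent.Lib.MP_c052b4_al.CT
end

section

/-!
# Coherent trees, K02: generators of the kernel of a morphism
-/

set_option autoImplicit false
set_option linter.unusedVariables false
set_option linter.unusedSectionVars false

namespace Pool.Agent.Lib.MP_c052b4_al.CT

open CategoryTheory Opposite
open Pool.Agent.Lib.MP_c052b4_al.MT

universe u

variable {S : Type u} [Ring S] {G : Type u} [Group G] {L : Lbl G}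

/-- **Kernels of morphisms of finite objects are finitely generated.**
Proof: `Φ = ⋃ i, {x | L.le x (F.l i)}` is finite. For `y ∈ Φ` choose `k y`, `h y` by
`exists_ker_local`. Let `F''` have the basis `Σ y : Φ, ULift (Fin (k y))` and the labels `y`, and
`h : F'' ⟶ F` the morphism with value `lin (h y) (e j)` at `(y, j)`. `h ≫ f = 0` is checked on the
basis. For each `y ∈ Φ` there is the inclusion `ι y : cK S (Fin (k y)) y ⟶ F''` with
`ι y ≫ h = h y`. Let `v ∈ F.fil y'` with `lin f v = 0`. If `v = 0` take `w = 0`. Otherwise some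
coefficient of `v` at `(i, g)` is nonzero, so `y' ≤ g • F.l i` and `y = g⁻¹ • y' ∈ Φ`.
`F.gmul g⁻¹ v ∈ F.fil y` (`VCat.gmul_mem`) is in the kernel of `f` (`VCat.lin_gmul`), so it is
`lin (h y) w₀` with `w₀ ∈ fil y`, and `w = F''.gmul g (lin (ι y) w₀)` (`gmul_mul`, `gmul_one`). -/
theorem exists_ker (hL : OrdL L) (hcoh : ∀ y : L.W, RegCoh (CR S y)) {F F' : VCat S L}
    (hF : Finite F.I) (hF' : Finite F'.I) (f : F ⟶ F') :
    ∃ (F'' : VCat S L) (_ : Finite F''.I) (h : F'' ⟶ F), h ≫ f = 0 ∧
      ∀ (y : L.W), ∀ v ∈ F.fil y, VCat.lin f v = 0 → ∃ w ∈ F''.fil y, VCat.lin h w = v := by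
  classical
  choose k h hk0 hk1 using fun y => exists_ker_local hL hF hF' f y (hcoh y)
  let Φ : Set L.W := ⋃ i, {x | L.le x (F.l i)}
  have hΦ : Φ.Finite := Set.finite_iUnion fun i => hL.lower (F.l i)
  have : Finite Φ := hΦ
  let F'' : VCat S L := ⟨Σ y : Φ, ULift.{u} (Fin (k y.1)), fun p => p.1.1⟩
  have hF'' : Finite F''.I := inferInstanceAs (Finite (Σ y : Φ, ULift.{u} (Fin (k y.1))))
  let H : F'' ⟶ F := VCat.ofBasis (X := F'') (Y := F) fun p =>
    ⟨VCat.lin (h p.1.1) ((cK S (Fin (k p.1.1)) p.1.1).e p.2),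
      VCat.lin_mem (h p.1.1) ((cK S (Fin (k p.1.1)) p.1.1).e_mem p.2)⟩
  have hH : ∀ p : F''.I, VCat.lin H (F''.e p) =
      VCat.lin (h p.1.1) ((cK S (Fin (k p.1.1)) p.1.1).e p.2) := fun p => VCat.lin_ofBasis_e _ _
  refine ⟨F'', hF'', H, ?_, ?_⟩
  · refine VCat.ext_e fun p => ?_
    rw [VCat.lin_comp, LinearMap.comp_apply, hH, ← LinearMap.comp_apply, ← VCat.lin_comp, hk0,
      VCat.lin_zero, VCat.lin_zero, LinearMap.zero_apply, LinearMap.zero_apply]
  · intro y' v hv hv0
    by_cases hv1 : v = 0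
    · refine ⟨0, Submodule.zero_mem _, ?_⟩
      rw [map_zero, hv1]
    · obtain ⟨i, hi⟩ : ∃ i, v i ≠ 0 := by
        by_contra hcon
        push Not at hcon
        exact hv1 (Finsupp.ext hcon)
      obtain ⟨g, hg⟩ : ∃ g, (v i).coeff g ≠ 0 := by
        by_contra hcon
        push Not at hcon
        exact hi (MonoidAlgebra.ext (Finsupp.ext hcon))
      have h1 : L.le (g⁻¹ • y') (F.l i) := by
        have := L.smul g⁻¹ (hv i g hg)
        rwa [inv_smul_smul] at this
      have hy : g⁻¹ • y' ∈ Φ := Set.mem_iUnion.2 ⟨i, h1⟩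
      let y : Φ := ⟨g⁻¹ • y', hy⟩
      let J : cK S (Fin (k y.1)) y.1 ⟶ F'' := VCat.ofBasis (X := cK S (Fin (k y.1)) y.1) (Y := F'')
        fun j => ⟨F''.e ⟨y, j⟩, F''.e_mem ⟨y, j⟩⟩
      have hJ : J ≫ H = h y.1 := by
        refine VCat.ext_e fun j => ?_
        rw [VCat.lin_comp, LinearMap.comp_apply]
        have : VCat.lin J ((cK S (Fin (k y.1)) y.1).e j) = F''.e ⟨y, j⟩ := VCat.lin_ofBasis_e _ _
        rw [this, hH]
      have h2 : F.gmul g⁻¹ v ∈ F.fil y.1 := VCat.gmul_mem F (L.refl _) hv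
      have h3 : VCat.lin f (F.gmul g⁻¹ v) = 0 := by
        rw [VCat.lin_gmul, hv0, map_zero]
      obtain ⟨w₀, hw₀, hw₁⟩ := hk1 y.1 _ h2 h3
      refine ⟨F''.gmul g (VCat.lin J w₀), VCat.gmul_mem F'' ?_ (VCat.lin_mem J hw₀), ?_⟩
      · show L.le y' (g • g⁻¹ • y')
        rw [smul_inv_smul]
        exact L.refl _
      · rw [VCat.lin_gmul, ← LinearMap.comp_apply, ← VCat.lin_comp, hJ, hw₁, ← VCat.gmul_mul,
          mul_inv_cancel, VCat.gmul_one]

end Pool.Agent.Lib.MP_c052b4_al.CT
end

section

/-!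
# Coherent trees, K03: the functors of finite objects are coherent
-/

set_option autoImplicit false
set_option linter.unusedVariables false
set_option linter.unusedSectionVars false

namespace Pool.Agent.Lib.MP_c052b4_al.CT

open CategoryTheory Opposite Limits
open Pool.Agent.Lib.MP_c052b4_al.MT

universe u

variable {S : Type u} [Ring S] {G : Type u} [Group G] {L : Lbl G}

/-- The functors isomorphic to `ev F` for a finite object `F`. -/
def PF (S : Type u) [Ring S] {G : Type u} [Group G] (L : Lbl G) : ObjectProperty (AA S L) :=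
  fun N => ∃ F : VCat S L, Finite F.I ∧ Nonempty (VCat.ev.obj F ≅ N)

theorem k03_sum (F F' : VCat S L) : Nonempty (VCat.sum F F' ≅ F ⊞ F') := by
  refine ⟨biprod.uniqueUpToIso F F' (b := VCat.sumBicone F F') (isBinaryBilimitOfTotal _
    (VCat.ext_e fun i => ?_))⟩
  rw [VCat.lin_add, VCat.lin_comp, VCat.lin_comp, LinearMap.add_apply, LinearMap.comp_apply,
    LinearMap.comp_apply, VCat.lin_id, LinearMap.id_apply]
  rcases i with i | i
  · change VCat.lin (VCat.sumInl F F') (VCat.lin (VCat.sumFst F F')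
        ((VCat.sum F F').e (Sum.inl i))) +
      VCat.lin (VCat.sumInr F F') (VCat.lin (VCat.sumSnd F F')
        ((VCat.sum F F').e (Sum.inl i))) = _
    rw [VCat.sumFst_inl, VCat.sumSnd_inl, VCat.sumInl_e, map_zero, add_zero]
    rfl
  · change VCat.lin (VCat.sumInl F F') (VCat.lin (VCat.sumFst F F')
        ((VCat.sum F F').e (Sum.inr i))) +
      VCat.lin (VCat.sumInr F F') (VCat.lin (VCat.sumSnd F F')
        ((VCat.sum F F').e (Sum.inr i))) = _
    rw [VCat.sumFst_inr, VCat.sumSnd_inr, VCat.sumInr_e, map_zero, zero_add]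
    rfl

theorem k03_epi {N N' : AA S L} (f : N ⟶ N')
    (h : ∀ x : (Q L)ᵒᵖ, Function.Surjective (f.app x).hom) : Epi f :=
  (NatTrans.epi_iff_epi_app f).2 fun x => (ModuleCat.epi_iff_surjective _).2 (h x)

theorem k03_inj {N N' : AA S L} (f : N ⟶ N') [Mono f] (x : (Q L)ᵒᵖ) :
    Function.Injective (f.app x).hom :=
  (ModuleCat.mono_iff_injective _).1 ((NatTrans.mono_iff_mono_app f).1 inferInstance x)

/-- Proof. zero: `VCat.zeroObj` (`ev` preserves zero objects: `Functor.map_isZero`). sum: for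
`X ≅ ev F`, `Y ≅ ev F'` the functor `ev` is additive, so `ev (VCat.sum F F') ≅ ev F ⊞ ev F'`
(`Functor.mapBiprod` and the isomorphism of `VCat.sum F F'` with `F ⊞ F'`, or directly: the bicone
`VCat.sumBicone` is mapped to a bilimit bicone). proj: `ev_projective`, `Projective.of_iso`. ker: by
fullness of `ev` (`VCat.ev_full`) a morphism between objects isomorphic to `ev F`, `ev F'` is, up to
these isomorphisms, `ev.map f`; let `h : F'' ⟶ F` be as in `exists_ker`. `ev.map h` factors through
`kernel (ev.map f)`, and the factorization is an epimorphism, because it is pointwise surjective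
(`NatTrans.epi_iff_epi_app`, `ModuleCat.epi_iff_surjective`; an element of the kernel at `y` is mapped by
`kernel.ι`, which is injective, to an element `v` of `F.fil y` with `lin f v = 0`). -/
theorem cohP_PF (hL : OrdL L) (hcoh : ∀ y : L.W, RegCoh (CR S y)) : CohP (PF S L) where
  zero := ⟨VCat.ev.obj VCat.zeroObj, Functor.map_isZero _
    ((IsZero.iff_id_eq_zero _).2 (VCat.ext_e fun i => i.elim)), VCat.zeroObj,
    inferInstanceAs (Finite PEmpty), ⟨Iso.refl _⟩⟩
  sum := by
    rintro X Y ⟨F, hF, ⟨e⟩⟩ ⟨F', hF', ⟨e'⟩⟩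
    obtain ⟨s⟩ := k03_sum F F'
    have : PreservesBinaryBiproducts (VCat.ev : VCat S L ⥤ AA S L) :=
      preservesBinaryBiproducts_of_preservesBiproducts _
    exact ⟨VCat.sum F F', inferInstanceAs (Finite (F.I ⊕ F'.I)), ⟨VCat.ev.mapIso s ≪≫ VCat.ev.mapBiprod F F' ≪≫
      biprod.mapIso e e'⟩⟩
  proj := by
    rintro X ⟨F, -, ⟨e⟩⟩
    exact Projective.of_iso e inferInstance
  ker := by
    rintro X Y f ⟨F, hF, ⟨e⟩⟩ ⟨F', hF', ⟨e'⟩⟩
    obtain ⟨f', hf'⟩ := VCat.ev.map_surjective (e.hom ≫ f ≫ e'.inv)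
    obtain ⟨F'', hF'', h, h0, hk⟩ := exists_ker hL hcoh hF hF' f'
    have hz : (VCat.ev.map h ≫ e.hom) ≫ f = 0 := by
      rw [← cancel_mono e'.inv, Category.assoc, Category.assoc, ← hf', ← VCat.ev.map_comp, h0,
        Functor.map_zero, zero_comp]
    refine ⟨VCat.ev.obj F'', kernel.lift f (VCat.ev.map h ≫ e.hom) hz,
      ⟨F'', hF'', ⟨Iso.refl _⟩⟩, k03_epi _ fun x k => ?_⟩
    let v : F.fil x.unop.w := (e.inv.app x).hom (((kernel.ι f).app x).hom k)
    have hev : (e.hom.app x).hom v = ((kernel.ι f).app x).hom k := by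
      change (e.inv.app x ≫ e.hom.app x).hom (((kernel.ι f).app x).hom k) = _
      rw [← NatTrans.comp_app, e.inv_hom_id]
      rfl
    have hfk : (f.app x).hom (((kernel.ι f).app x).hom k) = 0 := by
      change ((kernel.ι f).app x ≫ f.app x).hom k = 0
      rw [← NatTrans.comp_app, kernel.condition]
      rfl
    have hv : VCat.lin f' (v : F.M) = 0 := by
      have h1 : ((VCat.ev.map f').app x).hom v = 0 := by
        rw [hf']
        change (e'.inv.app x).hom ((f.app x).hom ((e.hom.app x).hom v)) = 0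
        rw [hev, hfk, map_zero]
      exact congrArg Subtype.val h1
    obtain ⟨w, hw, hwv⟩ := hk x.unop.w v.1 v.2 hv
    refine ⟨(⟨w, hw⟩ : F''.fil x.unop.w), k03_inj (kernel.ι f) x ?_⟩
    rw [← hev]
    have h2 : ((kernel.lift f (VCat.ev.map h ≫ e.hom) hz).app x ≫ (kernel.ι f).app x) =
        (VCat.ev.map h).app x ≫ e.hom.app x := by
      rw [← NatTrans.comp_app, kernel.lift_ι, NatTrans.comp_app]
    have h3 := congrArg (fun t => t.hom (⟨w, hw⟩ : F''.fil x.unop.w)) h2
    refine h3.trans ?_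
    change (e.hom.app x).hom _ = (e.hom.app x).hom v
    congr 1
    exact Subtype.ext hwv

end Pool.Agent.Lib.MP_c052b4_al.CT
end

section

/-!
# Coherent trees, W02: graded submodules
-/

set_option autoImplicit false
set_option linter.unusedVariables false
set_option linter.unusedSectionVars false

namespace Pool.Agent.Lib.MP_c052b4_al.CT

open Matrix MulAction

universe u v

variable {R : Type u} [Ring R] {H : Type v} [Group H] {U : Type v} [MulAction H U] {m : ℕ}

/-- the homogeneous component -/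
private noncomputable def w02_cmp (w : U) (f : U →₀ (Fin m → MonoidAlgebra R H)) :
    U →₀ (Fin m → MonoidAlgebra R H) := utw (Finsupp.single w (tw f w))

private theorem w02_cmp_add (w : U) (f f' : U →₀ (Fin m → MonoidAlgebra R H)) :
    w02_cmp w (f + f') = w02_cmp w f + w02_cmp w f' := by
  unfold w02_cmp
  rw [map_add, Finsupp.add_apply, Finsupp.single_add, map_add]

private theorem w02_cmp_zero (w : U) :
    w02_cmp w (0 : U →₀ (Fin m → MonoidAlgebra R H)) = 0 := by
  unfold w02_cmp
  rw [map_zero, Finsupp.zero_apply, Finsupp.single_zero, map_zero]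

private theorem w02_sum (f : U →₀ (Fin m → MonoidAlgebra R H)) :
    f = ∑ w ∈ (tw f).support, w02_cmp w f := by
  apply tw_injective
  rw [map_sum]
  have h : ∀ w, tw (w02_cmp w f) = Finsupp.single w (tw f w) := fun w => tw_utw _
  simp only [h]
  exact (Finsupp.sum_single (tw f)).symm

/-- homogeneous generators -/
private theorem w02_gens (W : Submodule (MonoidAlgebra R H) (U →₀ (Fin m → MonoidAlgebra R H)))
    (hfg : W.FG) (hgr : ∀ f ∈ W, ∀ w, utw (Finsupp.single w (tw f w)) ∈ W) :
    ∃ (k : ℕ) (d : Fin k → U) (y : Fin k → (Fin m → MonoidAlgebra R H)),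
      Submodule.span (MonoidAlgebra R H)
        (Set.range fun a => utw (Finsupp.single (d a) (y a))) = W := by
  classical
  obtain ⟨s, hs⟩ := hfg
  let T : Finset (Σ _ : (U →₀ (Fin m → MonoidAlgebra R H)), U) := s.sigma fun f => (tw f).support
  refine ⟨T.card, fun a => (T.equivFin.symm a).1.2,
    fun a => tw (T.equivFin.symm a).1.1 (T.equivFin.symm a).1.2, ?_⟩
  apply le_antisymm
  · rw [Submodule.span_le]
    rintro _ ⟨a, rfl⟩
    have h1 := (T.equivFin.symm a).2
    have h2 : (T.equivFin.symm a).1.1 ∈ s := (Finset.mem_sigma.mp h1).1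
    have h3 : (T.equivFin.symm a).1.1 ∈ W := by
      rw [← hs]
      exact Submodule.subset_span h2
    exact hgr _ h3 _
  · rw [← hs, Submodule.span_le]
    intro f hf
    rw [SetLike.mem_coe, w02_sum f]
    refine Submodule.sum_mem _ fun w hw => Submodule.subset_span ?_
    have h1 : (⟨f, w⟩ : Σ _ : (U →₀ (Fin m → MonoidAlgebra R H)), U) ∈ T :=
      Finset.mem_sigma.mpr ⟨hf, hw⟩
    refine ⟨T.equivFin ⟨⟨f, w⟩, h1⟩, ?_⟩
    simp only [Equiv.symm_apply_apply]
    rfl

private theorem w02_hom {k : ℕ} (d : Fin k → U) (y : Fin k → (Fin m → MonoidAlgebra R H))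
    (ξ : U) (c : Fin k → MonoidAlgebra R H) :
    Fintype.linearCombination (MonoidAlgebra R H)
        (fun a => (utw (Finsupp.single (d a) (y a)) : U →₀ (Fin m → MonoidAlgebra R H)))
        (cp d {ξ} c) =
      w02_cmp ξ (Fintype.linearCombination (MonoidAlgebra R H)
        (fun a => (utw (Finsupp.single (d a) (y a)) : U →₀ (Fin m → MonoidAlgebra R H))) c) := by
  classical
  refine vec_induction (p := fun c => Fintype.linearCombination (MonoidAlgebra R H)
        (fun a => (utw (Finsupp.single (d a) (y a)) : U →₀ (Fin m → MonoidAlgebra R H)))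
        (cp d {ξ} c) =
      w02_cmp ξ (Fintype.linearCombination (MonoidAlgebra R H)
        (fun a => (utw (Finsupp.single (d a) (y a)) : U →₀ (Fin m → MonoidAlgebra R H))) c))
    ?_ ?_ ?_ c
  · rw [cp_zero, map_zero, w02_cmp_zero]
  · intro c c' h h'
    rw [cp_add, map_add, map_add, w02_cmp_add, h, h']
  · intro a g r
    have e0 : Fintype.linearCombination (MonoidAlgebra R H)
        (fun a => (utw (Finsupp.single (d a) (y a)) : U →₀ (Fin m → MonoidAlgebra R H)))
        (Pi.single a (MonoidAlgebra.single g r)) =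
        MonoidAlgebra.single g r • utw (Finsupp.single (d a) (y a)) :=
      Fintype.linearCombination_apply_single (MonoidAlgebra R H) _ a _
    have e1 : ∀ w, tw (MonoidAlgebra.single g r • utw (Finsupp.single (d a) (y a)) :
        U →₀ (Fin m → MonoidAlgebra R H)) w =
        MonoidAlgebra.single g r • (Finsupp.single (d a) (y a) :
          U →₀ (Fin m → MonoidAlgebra R H)) (g⁻¹ • w) := by
      intro w
      rw [tw_smul, tw_utw]
    by_cases h : g • d a = ξ
    · rw [cp_single_mem d {ξ} a g r (by rw [h]; exact Set.mem_singleton _), e0]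
      apply tw_injective
      unfold w02_cmp
      rw [tw_utw]
      ext1 w
      by_cases hw : ξ = w
      · rw [hw, Finsupp.single_eq_same]
      · rw [Finsupp.single_apply, if_neg hw, e1, Finsupp.single_apply, if_neg, smul_zero]
        intro h2
        apply hw
        rw [← h, h2, smul_inv_smul]
    · rw [cp_single_not_mem d {ξ} a g r (fun h2 => h (Set.mem_singleton_iff.mp h2)), e0, map_zero]
      unfold w02_cmp
      rw [e1, Finsupp.single_apply, if_neg, smul_zero, Finsupp.single_zero, map_zero]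
      intro h2
      apply h
      rw [h2, smul_inv_smul]

/-- **Finitely generated graded submodules are perfect** if the group rings of the stabilizers are
regular coherent.
Proof: `W` has finitely many homogeneous generators `x a = utw (single (d a) (y a))`, `a : Fin k`
(the components of the generators, `utw_tw`; a function is the sum of its components). Let
`S : Finset U` with `W ≤ supported S` (`exists_supp`), `e : Fin n → U` injective with range `S` (as in
the proof of `perf_EI`), and let `M` be the matrix with rows `Fin k` and columns `Fin n × Fin m`,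
`M a (b, i) = x a (e b) i`. The linear map `θ : (Fin k → R[H]) → W`, `θ c = ∑ c a • x a`, is
surjective with kernel `rker M`. `M` is homogeneous: `(M a (b, i)).coeff g ≠ 0` implies
`g • e b = d a`. So `rker M = gker d M` (for `x ∈ rker M` the vector `cp d {ξ} x ᵥ* M` is the part of
`x ᵥ* M` in degree `ξ`, so it is zero; see `mem_gker`, `cp`), which is perfect by `perf_gker'`. Now
`Perf.coker` (or directly the definition of `HasRes`) with a free module. -/
theorem perf_of_graded (hcoh : ∀ ξ : U, RegCoh (MonoidAlgebra R (stabilizer H ξ)))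
    (W : Submodule (MonoidAlgebra R H) (U →₀ (Fin m → MonoidAlgebra R H))) (hfg : W.FG)
    (hgr : ∀ f ∈ W, ∀ w, utw (Finsupp.single w (tw f w)) ∈ W) : Perf (MonoidAlgebra R H) W := by
  classical
  obtain ⟨k, d, y, hW⟩ := w02_gens W hfg hgr
  obtain ⟨S, hS⟩ := exists_supp W hfg
  set x : Fin k → (U →₀ (Fin m → MonoidAlgebra R H)) :=
    fun a => utw (Finsupp.single (d a) (y a)) with hx
  let e : Fin S.card → U := fun a => (S.equivFin.symm a : U)
  have hr : ∀ u ∈ S, ∃ b, e b = u := by
    intro u hu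
    refine ⟨S.equivFin ⟨u, hu⟩, ?_⟩
    change ((S.equivFin.symm (S.equivFin ⟨u, hu⟩)) : U) = u
    rw [Equiv.symm_apply_apply]
  let M : Matrix (Fin k) (Fin S.card × Fin m) (MonoidAlgebra R H) :=
    Matrix.of fun a p => x a (e p.1) p.2
  let θ : (Fin k → MonoidAlgebra R H) →ₗ[MonoidAlgebra R H] (U →₀ (Fin m → MonoidAlgebra R H)) :=
    Fintype.linearCombination (MonoidAlgebra R H) x
  have hθ : ∀ c, θ c = ∑ a, c a • x a := fun c => Fintype.linearCombination_apply _ _ _
  have hθW : ∀ c, θ c ∈ W := by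
    intro c
    rw [hθ, ← hW]
    exact Submodule.sum_mem _ fun a _ => Submodule.smul_mem _ _ (Submodule.subset_span ⟨a, rfl⟩)
  have hker : ∀ c, c ᵥ* M = 0 ↔ θ c = 0 := by
    intro c
    have h1 : ∀ p, (c ᵥ* M) p = θ c (e p.1) p.2 := by
      intro p
      rw [hθ, Finsupp.finsetSum_apply, Finset.sum_apply]
      rfl
    constructor
    · intro h
      ext1 u
      by_cases hu : u ∈ S
      · obtain ⟨b, rfl⟩ := hr u hu
        funext i
        rw [← h1 (b, i), h]
        rfl
      · exact (Finsupp.mem_supported' _ _).mp (hS (hθW c)) u hu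
    · intro h
      funext p
      rw [h1, h]
      rfl
  have hgk : rker M = gker d M := by
    ext c
    rw [mem_rker, mem_gker, hker]
    constructor
    · intro h ξ
      rw [hker]
      change Fintype.linearCombination (MonoidAlgebra R H) x (cp d {ξ} c) = 0
      rw [hx, w02_hom d y ξ c]
      change w02_cmp ξ (θ c) = 0
      rw [h, w02_cmp_zero]
    · intro h
      have h1 : ∀ ξ, w02_cmp ξ (θ c) = 0 := by
        intro ξ
        have h2 := (hker _).mp (h ξ)
        change Fintype.linearCombination (MonoidAlgebra R H) x (cp d {ξ} c) = 0 at h2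
        rw [hx, w02_hom d y ξ c] at h2
        exact h2
      rw [w02_sum (θ c)]
      exact Finset.sum_eq_zero fun w _ => h1 w
  have hP : Perf (MonoidAlgebra R H) (rker M) := by
    rw [hgk]
    exact perf_gker' d M fun i => hcoh _
  refine Perf.coker (rker M).subtype (θ.codRestrict W hθW) (Submodule.injective_subtype _) ?_ ?_
    hP Perf.of_projective
  · rintro ⟨f, hf⟩
    have h1 : f ∈ LinearMap.range θ := by
      change f ∈ LinearMap.range (Fintype.linearCombination (MonoidAlgebra R H) x)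
      rw [Fintype.range_linearCombination, hW]
      exact hf
    obtain ⟨c, hc⟩ := h1
    exact ⟨c, Subtype.ext hc⟩
  · rw [Submodule.range_subtype, LinearMap.ker_codRestrict]
    ext c
    rw [mem_rker, hker, LinearMap.mem_ker]

end Pool.Agent.Lib.MP_c052b4_al.CT
end
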