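import Pool.Agent.Lib.MP_c052b4_al.Mg.G016
import Pool.Agent.Lib.MP_c052b4_al.Mg.G021
import Pool.Agent.Lib.MP_c052b4_al.Mg.G051
import Pool.Agent.Lib.MP_c052b4_al.Mg.G050
import Pool.Agent.Lib.MP_c052b4_al.Mg.G049
import Pool.Agent.Lib.MP_c052b4_al.Mg.G026

section

/-!
# TREES, section 6: from retracts in homotopy categories to the image of the assembly map, III
-/

set_option autoImplicit false
set_option linter.unusedSectionVars false

namespace Pool.Agent.Lib.MP_c052b4_al.MT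

open CategoryTheory CategoryTheory.Limits Matrix

universe u

section Mats

variable {R : Type u} [Ring R] {G : Type u} [Group G] {W : Type u} [MulAction G W]
  {V1 : Type u} [MulAction G V1] {V2 : Type u} [MulAction G V2] {J : Type}
  [Fintype J] [DecidableEq J]

/-- Section 6 for a free complex with a constant idempotent chain endomorphism. -/
theorem sec6_idem (le1 le2 : W → W → Prop)
    (trans1 : ∀ x y z : W, le1 x y → le1 y z → le1 x z)
    (trans2 : ∀ x y z : W, le2 x y → le2 y z → le2 x z)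
    (smul1 : ∀ (g : G) (x y : W), le1 x y → le1 (g • x) (g • y))
    (smul2 : ∀ (g : G) (x y : W), le2 x y → le2 (g • x) (g • y))
    (s1 s2 : W → ℤ) (π1 : W → V1) (π2 : W → V2)
    (hs1 : ∀ (g : G) x, s1 (g • x) = s1 x) (hs2 : ∀ (g : G) x, s2 (g • x) = s2 x)
    (hπ1 : ∀ (g : G) x, π1 (g • x) = g • π1 x) (hπ2 : ∀ (g : G) x, π2 (g • x) = g • π2 x)
    (hle1 : ∀ x y, le1 x y → s1 x ≤ s1 y) (heq1 : ∀ x y, le1 x y → s1 x = s1 y → π1 x = π1 y)
    (hle2 : ∀ x y, le2 x y → s2 x ≤ s2 y) (heq2 : ∀ x y, le2 x y → s2 x = s2 y → π2 x = π2 y)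
    (hV1 : ∀ v : V1, imA1 R (MulAction.stabilizer G v) = ⊤)
    (hV2 : ∀ v : V2, imA1 R (MulAction.stabilizer G v) = ⊤)
    {m : Type} [Fintype m] [DecidableEq m] (u : (Matrix m m (MonoidAlgebra R G))ˣ)
    (l : m ⊕ m → W) (l' : J → W) {b : J → ℤ} {p : Matrix J J R}
    {P D H3 H2 : Matrix J J (MonoidAlgebra R G)} (hpP : cm G p = P)
    (hpl : ∀ i j, p i j ≠ 0 → l' i = l' j) (hPP : P * P = P) (hDP : D * P = P * D)
    (hDD : D * D = 0) (hP0 : HasDeg b 0 P) (hD1 : HasDeg b 1 D) (hH3d : HasDeg b (-1) H3)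
    (hH2d : HasDeg b (-1) H2) (hP3 : P = D * H3 + H3 * D)
    (sd : Sp l l le1 (fromBlocks 0 (u : Matrix m m (MonoidAlgebra R G)) 0 0))
    (sP1 : Sp l' l' le1 P) (sP2 : Sp l' l' le2 P) (sD1 : Sp l' l' le1 D) (sD2 : Sp l' l' le2 D)
    (sH3 : Sp l' l' le2 H3) (sH2 : Sp l' l' le1 H2)
    {f : Matrix (m ⊕ m) J (MonoidAlgebra R G)} {g : Matrix J (m ⊕ m) (MonoidAlgebra R G)}
    {H1 : Matrix (m ⊕ m) (m ⊕ m) (MonoidAlgebra R G)}
    (hf : RDeg (Sum.elim (fun _ => -1) (fun _ => 0)) b 0 f)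
    (hg : RDeg b (Sum.elim (fun _ => -1) (fun _ => 0)) 0 g)
    (hH1d : HasDeg (Sum.elim (fun _ => -1) (fun _ => 0)) (-1) H1)
    (fP : f * P = f) (Pg : P * g = g)
    (df : fromBlocks 0 (u : Matrix m m (MonoidAlgebra R G)) 0 0 * f = f * D)
    (dg : D * g = g * fromBlocks 0 (u : Matrix m m (MonoidAlgebra R G)) 0 0)
    (fg : f * g = 1 + (fromBlocks 0 (u : Matrix m m (MonoidAlgebra R G)) 0 0 * H1 +
      H1 * fromBlocks 0 (u : Matrix m m (MonoidAlgebra R G)) 0 0))
    (gf : g * f = P + (D * H2 + H2 * D))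
    (sf : Sp l l' le1 f) (sg : Sp l' l le1 g) (sH1 : Sp l l le1 H1) :
    k1 u ∈ imA1 R G := by
  have hY : IsCon b (cm G p) (P * D) (P * H3 * P) := by
    rw [hpP]
    refine ⟨hP0, ?_, ?_, hPP, ?_, ?_, ?_, ?_, ?_, ?_⟩
    · have := hP0.mul hD1
      rw [zero_add] at this
      exact this
    · have := (hP0.mul hH3d).mul hP0
      rw [zero_add, add_zero] at this
      exact this
    · rw [← Matrix.mul_assoc, hPP]
    · rw [Matrix.mul_assoc, hDP, ← Matrix.mul_assoc, hPP]
    · rw [← Matrix.mul_assoc, ← Matrix.mul_assoc, hPP]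
    · rw [Matrix.mul_assoc, hPP]
    · rw [Matrix.mul_assoc, ← Matrix.mul_assoc D, hDP, Matrix.mul_assoc P D D, hDD,
        Matrix.mul_zero, Matrix.mul_zero]
    · have e1 : P * D * (P * H3 * P) = P * (D * H3) * P := by
        calc P * D * (P * H3 * P) = P * (D * P) * (H3 * P) := by simp only [Matrix.mul_assoc]
          _ = (P * P) * D * (H3 * P) := by rw [hDP]; simp only [Matrix.mul_assoc]
          _ = P * (D * H3) * P := by rw [hPP]; simp only [Matrix.mul_assoc]
      have e2 : P * H3 * P * (P * D) = P * (H3 * D) * P := by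
        calc P * H3 * P * (P * D) = P * H3 * ((P * P) * D) := by simp only [Matrix.mul_assoc]
          _ = P * H3 * (D * P) := by rw [hPP, hDP]
          _ = P * (H3 * D) * P := by simp only [Matrix.mul_assoc]
      rw [e1, e2, ← Matrix.add_mul, ← Matrix.mul_add, ← hP3, hPP, hPP]
  refine sec6 le1 le2 trans1 trans2 smul1 smul2 s1 s2 π1 π2 hs1 hs2 hπ1 hπ2 hle1 heq1 hle2 heq2
    hV1 hV2 u l l' hpl hY sd (sp_mul trans1 smul1 sP1 sD1) (sp_mul trans2 smul2 sP2 sD2)
    (sp_mul trans2 smul2 (sp_mul trans2 smul2 sP2 sH3) sP2) hf hg hH1d (h' := P * H2 * P) ?_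
    (by rw [hpP]; exact fP) (by rw [hpP]; exact Pg) ?_ ?_ ?_ ?_ fg ?_ sf sg sH1
    (sp_mul trans1 smul1 (sp_mul trans1 smul1 sP1 sH2) sP1)
  · have := (hP0.mul hH2d).mul hP0
    rw [zero_add, add_zero] at this
    exact this
  · rw [hpP, ← Matrix.mul_assoc, ← Matrix.mul_assoc, hPP]
  · rw [hpP, Matrix.mul_assoc, hPP]
  · rw [df, ← Matrix.mul_assoc, fP]
  · rw [← hDP, Matrix.mul_assoc, Pg, dg]
  · rw [hpP]
    have e1 : P * D * (P * H2 * P) = P * (D * H2) * P := by
      calc P * D * (P * H2 * P) = P * (D * P) * (H2 * P) := by simp only [Matrix.mul_assoc]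
        _ = (P * P) * D * (H2 * P) := by rw [hDP]; simp only [Matrix.mul_assoc]
        _ = P * (D * H2) * P := by rw [hPP]; simp only [Matrix.mul_assoc]
    have e2 : P * H2 * P * (P * D) = P * (H2 * D) * P := by
      calc P * H2 * P * (P * D) = P * H2 * ((P * P) * D) := by simp only [Matrix.mul_assoc]
        _ = P * H2 * (D * P) := by rw [hPP, hDP]
        _ = P * (H2 * D) * P := by simp only [Matrix.mul_assoc]
    have e3 : g * f = P * (g * f) * P := by
      rw [← Matrix.mul_assoc, Pg, Matrix.mul_assoc, fP]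
    rw [e1, e2, e3, gf, Matrix.mul_add, Matrix.add_mul, hPP, hPP, Matrix.mul_add, Matrix.add_mul]

end Mats

end Pool.Agent.Lib.MP_c052b4_al.MT
end

section

/-!
# TREES, section 6: from retracts in homotopy categories to the image of the assembly map, IV
-/

set_option autoImplicit false
set_option linter.unusedSectionVars false

namespace Pool.Agent.Lib.MP_c052b4_al.MT

open CategoryTheory CategoryTheory.Limits Matrix

universe u

section Main

variable {R : Type u} [Ring R] {G : Type u} [Group G] {D : Type} [Fintype D] [DecidableEq D]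

/-- The main result of section 6, for one matrix. -/
theorem k1_mem_of_retract (Ys : D → Dir G) (a0 : D) (sz : ∀ a, (Ys a).Y → ℤ)
    (hsz : ∀ a (g : G) y, sz a (g • y) = sz a y) (hmono : ∀ a x y, x ≤ y → sz a x ≤ sz a y)
    (heq : ∀ a x y, x ≤ y → sz a x = sz a y → x = y)
    (hV1 : ∀ y : (Ys a0).Y, imA1 R (MulAction.stabilizer G y) = ⊤)
    (hV2 : ∀ y : (∀ a : {a // a ≠ a0}, (Ys a.1).Y), imA1 R (MulAction.stabilizer G y) = ⊤)
    {m : Type} [Fintype m] [DecidableEq m] (A : (Matrix m m (MonoidAlgebra R G))ˣ)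
    (w : m ⊕ m → (UL Ys {a0}).W)
    (hM : HasDeg (Sum.elim (fun _ => -1) (fun _ => 0) : m ⊕ m → ℤ) 1
      (fromBlocks 0 (A : Matrix m m (MonoidAlgebra R G)) 0 0))
    (hMM : (fromBlocks 0 (A : Matrix m m (MonoidAlgebra R G)) 0 0 :
      Matrix (m ⊕ m) (m ⊕ m) (MonoidAlgebra R G)) *
      (fromBlocks 0 (A : Matrix m m (MonoidAlgebra R G)) 0 0) = 0)
    (hw : Sp w w (UL Ys {a0}).le (fromBlocks 0 (A : Matrix m m (MonoidAlgebra R G)) 0 0))
    (E : CochainComplex (VCat R (UL Ys Set.univ)) ℤ) (ε : E ⟶ E) (hE : FFc E) (hεε : ε ≫ ε = ε)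
    (hεc : ∀ n i j g, ((VCat.lin (ε.f n) ((E.X n).e i)) j).coeff g ≠ 0 →
        g = 1 ∧ (E.X n).l i = (E.X n).l j)
    (σ : cxOf _ _ hM hMM w hw ⟶ ((VCat.mapL (subHom Ys
      (Set.subset_univ {a0}))).mapHomologicalComplex (ComplexShape.up ℤ)).obj E)
    (ρ : ((VCat.mapL (subHom Ys
      (Set.subset_univ {a0}))).mapHomologicalComplex (ComplexShape.up ℤ)).obj E ⟶
      cxOf _ _ hM hMM w hw)
    (hσρ : (QL R _).map σ ≫ (QL R _).map ρ = 𝟙 _)
    (hρσ : (QL R _).map ρ ≫ (QL R _).map σ = (QL R _).map (((VCat.mapL (subHom Ys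
      (Set.subset_univ {a0}))).mapHomologicalComplex (ComplexShape.up ℤ)).map ε))
    (hz : (QL R _).map (((VCat.mapL (subHom Ys (A := Set.univ) (A' := Set.univ \ {a0})
      Set.sdiff_subset)).mapHomologicalComplex (ComplexShape.up ℤ)).map ε) = 0) :
    k1 A ∈ imA1 R G := by
  classical
  have hfin := finite_sigma hE
  let eE : Fin (Nat.card (Σ n, ix E n)) ≃ Σ n, ix E n := (Finite.equivFin _).symm
  obtain ⟨hc1, hc2⟩ := const_mat eE hεc
  have hε1 : ((VCat.mapL (subHom Ys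
      (Set.subset_univ {a0}))).mapHomologicalComplex (ComplexShape.up ℤ)).map ε ≫
      ((VCat.mapL (subHom Ys
      (Set.subset_univ {a0}))).mapHomologicalComplex (ComplexShape.up ℤ)).map ε =
      ((VCat.mapL (subHom Ys
      (Set.subset_univ {a0}))).mapHomologicalComplex (ComplexShape.up ℤ)).map ε := by
    rw [← Functor.map_comp, hεε]
  obtain ⟨f, g, H1, H2, fP, Pg, df, dg, fg, gf, rf, rg, d1, d2, sf, sg, s1, s2⟩ :=
    exists_fg σ ρ _ hε1 hσρ hρσ (eJ (L := UL Ys {a0}) hM hMM w hw) eE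
  obtain ⟨H3, hP3, d3, s3⟩ := exists_H3 _ hz eE
  rw [mat_totF_mapL] at fP Pg gf hP3
  rw [mat_totD_mapL] at df dg gf hP3
  rw [mat_totD_cxOf] at df dg fg
  have sP1 := sp_totF (((VCat.mapL (subHom Ys
      (Set.subset_univ {a0}))).mapHomologicalComplex (ComplexShape.up ℤ)).map ε) eE eE
  have sP2 := sp_totF (((VCat.mapL (subHom Ys (A := Set.univ) (A' := Set.univ \ {a0})
      Set.sdiff_subset)).mapHomologicalComplex (ComplexShape.up ℤ)).map ε) eE eE
  have sD1 := sp_totD (((VCat.mapL (subHom Ys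
      (Set.subset_univ {a0}))).mapHomologicalComplex (ComplexShape.up ℤ)).obj E) eE
  have sD2 := sp_totD (((VCat.mapL (subHom Ys (A := Set.univ) (A' := Set.univ \ {a0})
      Set.sdiff_subset)).mapHomologicalComplex (ComplexShape.up ℤ)).obj E) eE
  rw [mat_totF_mapL] at sP1 sP2
  rw [mat_totD_mapL] at sD1 sD2
  refine sec6_idem (W := ∀ a, (Ys a).Y) (V1 := (Ys a0).Y)
    (V2 := ∀ a : {a // a ≠ a0}, (Ys a.1).Y) (UL Ys {a0}).le (UL Ys (Set.univ \ {a0})).le
    (fun _ _ _ => (UL Ys {a0}).trans) (fun _ _ _ => (UL Ys (Set.univ \ {a0})).trans)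
    (fun g _ _ => (UL Ys {a0}).smul g) (fun g _ _ => (UL Ys (Set.univ \ {a0})).smul g)
    (fun x => sz a0 (x a0)) (fun x => ∑ a ∈ Finset.univ.erase a0, sz a (x a)) (fun x => x a0)
    (fun x a => x a.1) (fun g x => hsz _ _ _) (fun g x => Finset.sum_congr rfl fun a _ => hsz _ _ _)
    (fun g x => rfl) (fun g x => rfl) (fun x y h => hmono _ _ _ (h a0 rfl))
    (fun x y h h' => heq _ _ _ (h a0 rfl) h')
    (fun x y h => Finset.sum_le_sum fun a ha => hmono _ _ _ (h a ⟨trivial, Finset.ne_of_mem_erase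
      ha⟩)) ?_ hV1 hV2 A w (fun j => (E.X (eE j).1).l (eE j).2) hc1 hc2 (mat_FF hεε eE)
    (mat_DF ε eE) (mat_DD E eE) (hasDeg_totF ε eE) (hasDeg_totD E eE) d3 d2 hP3 hw sP1 sP2 sD1 sD2
    s3 s2 rf rg d1 fP Pg df dg fg gf sf sg s1
  intro x y h h'
  funext a
  have h1 : ∀ a ∈ Finset.univ.erase a0, sz a (x a) ≤ sz a (y a) := fun a ha =>
    hmono _ _ _ (h a ⟨trivial, Finset.ne_of_mem_erase ha⟩)
  have h2 := (Finset.sum_eq_sum_iff_of_le h1).1 h' a.1 (Finset.mem_erase.2 ⟨a.2, Finset.mem_univ _⟩)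
  exact heq _ _ _ (h a.1 ⟨trivial, a.2⟩) h2

end Main

end Pool.Agent.Lib.MP_c052b4_al.MT
end

section

/-!
# Coherent trees, C01: homology of dominated complexes is finitely presented
-/

set_option autoImplicit false
set_option linter.unusedVariables false
set_option linter.unusedSectionVars false

namespace Pool.Agent.Lib.MP_c052b4_al.CT

open CategoryTheory Opposite Limits
open Pool.Agent.Lib.MP_c052b4_al.MT

universe u

variable {S : Type u} [Ring S] {G : Type u} [Group G] {L : Lbl G}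

/-- Finitely presented functors. -/
def FPc (S : Type u) [Ring S] {G : Type u} [Group G] (L : Lbl G) : ObjectProperty (AA S L) :=
  FPr (PF S L)

theorem isWS_fpc (hL : OrdL L) (hcoh : ∀ y : L.W, RegCoh (CR S y)) : IsWS (FPc S L) :=
  isWS_fpr (cohP_PF hL hcoh)

/-- the image of a free module in degree `0` -/
noncomputable def c01_iso (F : VCat S L) : (EV S L).obj (kS F) ≅
    (DerivedCategory.singleFunctor (AA S L) 0).obj (VCat.ev.obj F) :=
  DerivedCategory.Qh.mapIso ((HomotopyCategory.quotient (AA S L) (ComplexShape.up ℤ)).mapIso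
    ((HomologicalComplex.singleMapHomologicalComplex (VCat.ev : VCat S L ⥤ AA S L)
      (ComplexShape.up ℤ) 0).app F))

/-- inverse images are stable under retracts -/
theorem c01_retracts {C : Type*} [Category C] {D : Type*} [Category D] (F : C ⥤ D)
    (P : ObjectProperty D) [P.IsStableUnderRetracts] : (P.inverseImage F).IsStableUnderRetracts :=
  ⟨fun r h => P.prop_of_retract (r.map F) h⟩

/-- The homology of dominated complexes is finitely presented. -/
theorem fpc_homology (hL : OrdL L) (hcoh : ∀ y : L.W, RegCoh (CR S y)) {X : KV S L}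
    (hX : Dom S L X) : HIn (FPc S L) ((EV S L).obj X) := by
  have hW := isWS_fpc hL hcoh
  have := hIn_triangulated' hW
  have := hIn_retracts' hW
  have := hIn_iso' hW
  have := c01_retracts (EV S L) (HIn (FPc S L))
  refine Dom.le (P := (HIn (FPc S L)).inverseImage (EV S L)) (fun F hF => ?_) X hX
  refine (HIn (FPc S L)).prop_of_iso (c01_iso F).symm fun q => ?_
  rcases lt_trichotomy q 0 with h | h | h
  · exact hW.zero _ (DerivedCategory.isZero_of_isGE _ 0 q h)
  · subst h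
    exact hW.iso ((DerivedCategory.singleFunctorCompHomologyFunctorIso (AA S L) 0).app _).symm
      (FPr.of_mem (cohP_PF hL hcoh) ⟨F, hF, ⟨Iso.refl _⟩⟩)
  · exact hW.zero _ (DerivedCategory.isZero_of_isLE _ 0 q h)

end Pool.Agent.Lib.MP_c052b4_al.CT
end
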