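import Pool.Agent.Lib.MP_c052b4_al.Mg.G039
import Pool.Agent.Lib.MP_c052b4_al.Mg.G050
import Pool.Agent.Lib.MP_c052b4_al.Mg.G068
import Pool.Agent.Lib.MP_c052b4_al.Mg.G027
import Pool.Agent.Lib.MP_c052b4_al.CT.F01
import Pool.Agent.Lib.MP_c052b4_al.Mg.G019
import Pool.Agent.Lib.MP_c052b4_al.Mg.G030
import Pool.Agent.Lib.MP_c052b4_al.Mg.G036
import Pool.Agent.Lib.MP_c052b4_al.Mg.G024

section

/-!
# Coherent trees, D03: kernels of matrices with good kernel are in SA
-/

set_option autoImplicit false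
set_option linter.unusedVariables false
set_option linter.unusedSectionVars false

namespace Pool.Agent.Lib.MP_c052b4_al.CT

open CategoryTheory Opposite Limits
open Pool.Agent.Lib.MP_c052b4_al.MT

universe u

variable {S : Type u} [Ring S] {G : Type u} [Group G] {L : Lbl G}

private theorem d03_pointwise (T : ShortComplex (AA S L))
    (h : ∀ x : (Q L)ᵒᵖ, (T.map ((evaluation (Q L)ᵒᵖ (ModuleCat.{u} S)).obj x)).Exact) :
    T.Exact := by
  rw [ShortComplex.exact_iff_isZero_homology]
  refine Functor.isZero _ fun x => ?_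
  exact ((ShortComplex.exact_iff_isZero_homology _).1 (h x)).of_iso
    (T.mapHomologyIso ((evaluation (Q L)ᵒᵖ (ModuleCat.{u} S)).obj x)).symm

/-- Exactness of functors from exactness of matrices.
Proof: a sequence of functors is exact if it is pointwise exact, and `cy_exact`
(see `d03_exact` in T/D03 or `c01_ext` in T/C01 for the style; `ShortComplex.moduleCat_exact_iff`). -/
theorem ev_exact {κ l m : Type} [Fintype κ] [Fintype l] [Fintype m] {y : L.W}
    (A : Matrix κ l (CR S y)) (B : Matrix l m (CR S y)) (h0 : A * B = 0)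
    (hAB : ∀ x : l → CR S y, Matrix.vecMul x B = 0 → ∃ z, Matrix.vecMul z A = x) :
    (ShortComplex.mk (VCat.ev.map (cy A)) (VCat.ev.map (cy B)) (by
      rw [← Functor.map_comp, ← cy_mul, h0, cy_zero, Functor.map_zero])).Exact := by
  refine d03_pointwise _ fun x => ?_
  rw [ShortComplex.moduleCat_exact_iff]
  intro v hv
  obtain ⟨w, hw, hwv⟩ := cy_exact A B hAB x.unop.w (v : (cK S l y).fil x.unop.w).1
    (v : (cK S l y).fil x.unop.w).2 (congrArg Subtype.val hv)
  exact ⟨(⟨w, hw⟩ : (cK S κ y).fil x.unop.w), Subtype.ext hwv⟩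

/-- The induction start: if the kernel of `M` is good (stably induced from `S`) then the kernel of
`cy M` is in `SA`.
Proof: let `μ₁, μ₂, f, A` be as in `exists_mat_of_good` (`cSy S y` for `φ`), `B = fromRows M 0`. By
`ev_exact` (twice) the sequence `ev (μ₂) → ev (μ₂) → ev (κ ⊕ μ₁) → ev (l)` of the matrices
`(1 - f)`, `A`, `B` is exact, so `N' = kernel (ev.map (cy B))` is the cokernel of
`ev.map (cy (1 - f))`: let `r : ev (μ₂) ⟶ N'` be the epimorphism induced by `A`. As
`cy (1 - f) ≫ cy f = cy ((1 - f) * f) = 0` there is `s : N' ⟶ ev (μ₂)` with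
`r ≫ s = ev.map (cy f)`, and `r ≫ s ≫ r = r` (as `1 - (1 - f) = f`), so `s ≫ r = 𝟙`. By
`sa_of_split` (`isScalar_cy`) `N'` is in `SA`. `cK S (κ ⊕ μ₁) y` is the direct sum of `cK S κ y` and
`cK S μ₁ y` (with the matrices `fromCols 1 0`, `fromRows 0 1` etc.), and there is a short exact
sequence `0 → ev (cK S μ₁ y) → N' → kernel (ev.map (cy M)) → 0` (a vector `(v₁, v₂)` is in the kernel
of `B` iff `v₁` is in the kernel of `M`). Now `sa_cK` and `sa_two_of_three`. -/
theorem sa_ker_good {κ l : Type} [Fintype κ] [DecidableEq κ] [Fintype l] {y : L.W}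
    (M : Matrix κ l (CR S y)) (h : Good (cSy S y) (rker M)) :
    SA S L (kernel (VCat.ev.map (cy M))) := by
  obtain ⟨μ₁, μ₂, _, _, _, _, f, A, hff, hA0, hA1, hf0, hf1⟩ := exists_mat_of_good (cSy S y) M h
  -- the kernel of the enlarged matrix
  have hN : SA S L (kernel (VCat.ev.map (cy (Matrix.fromRows M (0 : Matrix μ₁ l (CR S y)))))) := by
    have e1 := ev_exact A _ hA0 hA1
    have e2 := ev_exact _ A hf0 hf1
    have w0 : (VCat.ev.map (cy A) : VCat.ev.obj (cK S μ₂ y) ⟶ _) ≫
        VCat.ev.map (cy (Matrix.fromRows M (0 : Matrix μ₁ l (CR S y)))) = 0 := by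
      rw [← Functor.map_comp, ← cy_mul, hA0, cy_zero, Functor.map_zero]
    have w1 : VCat.ev.map (cy ((1 - f).map (cSy S y))) ≫ VCat.ev.map (cy A) = 0 := by
      rw [← Functor.map_comp, ← cy_mul, hf0, cy_zero, Functor.map_zero]
    have hr : Epi (kernel.lift _ _ w0) := e1.epi_kernelLift
    have w2 : VCat.ev.map (cy ((1 - f).map (cSy S y))) ≫ kernel.lift _ _ w0 = 0 := by
      rw [← cancel_mono (kernel.ι _), Category.assoc, kernel.lift_ι, zero_comp, w1]
    have e3 : (ShortComplex.mk _ _ w2).Exact := by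
      let φ : ShortComplex.mk _ _ w2 ⟶ ShortComplex.mk _ _ w1 :=
        { τ₁ := 𝟙 _
          τ₂ := 𝟙 _
          τ₃ := kernel.ι _
          comm₁₂ := by simp
          comm₂₃ := by simp }
      have : Epi φ.τ₁ := inferInstanceAs (Epi (𝟙 _))
      have : IsIso φ.τ₂ := inferInstanceAs (IsIso (𝟙 _))
      have : Mono φ.τ₃ := inferInstanceAs (Mono (kernel.ι _))
      exact (ShortComplex.exact_iff_of_epi_of_isIso_of_mono φ).2 e2
    have hffm : (f.map (cSy S y)) * (f.map (cSy S y)) = f.map (cSy S y) := by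
      rw [← Matrix.map_mul, hff]
    have hsub : (1 - f).map (cSy S y) = 1 - f.map (cSy S y) := by
      rw [Matrix.map_sub (cSy S y) (map_sub _), Matrix.map_one _ (map_zero _) (map_one _)]
    have w3 : VCat.ev.map (cy ((1 - f).map (cSy S y))) ≫
        VCat.ev.map (cy (f.map (cSy S y))) = 0 := by
      rw [← Functor.map_comp, ← cy_mul, hsub, Matrix.sub_mul, Matrix.one_mul, hffm, sub_self,
        cy_zero, Functor.map_zero]
    have hepi : Epi (ShortComplex.mk _ _ w2).g := hr
    let s := e3.desc (VCat.ev.map (cy (f.map (cSy S y)))) w3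
    have hs : kernel.lift _ _ w0 ≫ s = VCat.ev.map (cy (f.map (cSy S y))) := e3.g_desc _ w3
    refine sa_of_split (cy (f.map (cSy S y))) (by rw [← cy_mul, hffm]) (isScalar_cy f) _ s
      (kernel.lift _ _ w0) ?_ hs
    rw [← cancel_epi (kernel.lift _ _ w0), ← Category.assoc, hs, Category.comp_id]
    rw [hsub, cy_sub, cy_one, Functor.map_sub, Preadditive.sub_comp,
      CategoryTheory.Functor.map_id, Category.id_comp, sub_eq_zero] at w2
    exact w2.symm
  -- matrices of the direct sum decomposition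
  let I1 : Matrix μ₁ (κ ⊕ μ₁) (CR S y) := Matrix.fromCols 0 1
  let R1 : Matrix (κ ⊕ μ₁) μ₁ (CR S y) := Matrix.fromRows 0 1
  let P : Matrix (κ ⊕ μ₁) κ (CR S y) := Matrix.fromRows 1 0
  let J : Matrix κ (κ ⊕ μ₁) (CR S y) := Matrix.fromCols 1 0
  let B : Matrix (κ ⊕ μ₁) l (CR S y) := Matrix.fromRows M 0
  have m1 : I1 * B = 0 := by simp [I1, B, Matrix.fromCols_mul_fromRows]
  have m2 : P * M = B := by simp [P, B, Matrix.fromRows_mul]
  have m3 : J * B = M := by simp [J, B, Matrix.fromCols_mul_fromRows]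
  have m4 : J * P = 1 := by simp [J, P, Matrix.fromCols_mul_fromRows]
  have m5 : I1 * R1 = 1 := by simp [I1, R1, Matrix.fromCols_mul_fromRows]
  have m6 : I1 * P = 0 := by simp [I1, P, Matrix.fromCols_mul_fromRows]
  have m7 : R1 * I1 = 1 - P * J := by
    rw [eq_sub_iff_add_eq]
    change Matrix.fromRows 0 1 * Matrix.fromCols 0 1 +
      Matrix.fromRows 1 0 * Matrix.fromCols 1 0 = (1 : Matrix (κ ⊕ μ₁) (κ ⊕ μ₁) (CR S y))
    rw [Matrix.fromRows_mul_fromCols, Matrix.fromRows_mul_fromCols, Matrix.fromBlocks_add]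
    simp
  have z1 : VCat.ev.map (cy I1) ≫ VCat.ev.map (cy B) = 0 := by
    rw [← Functor.map_comp, ← cy_mul, m1, cy_zero, Functor.map_zero]
  have z2 : (kernel.ι (VCat.ev.map (cy B)) ≫ VCat.ev.map (cy P)) ≫ VCat.ev.map (cy M) = 0 := by
    rw [Category.assoc, ← Functor.map_comp, ← cy_mul, m2, kernel.condition]
  have z3 : (kernel.ι (VCat.ev.map (cy M)) ≫ VCat.ev.map (cy J)) ≫ VCat.ev.map (cy B) = 0 := by
    rw [Category.assoc, ← Functor.map_comp, ← cy_mul, m3, kernel.condition]
  let T : ShortComplex (AA S L) := ShortComplex.mk (kernel.lift _ _ z1) (kernel.lift _ _ z2) (by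
    rw [← cancel_mono (kernel.ι _), Category.assoc, kernel.lift_ι, ← Category.assoc,
      kernel.lift_ι, ← Functor.map_comp, ← cy_mul, m6, cy_zero, Functor.map_zero, zero_comp])
  have hT : T.Splitting :=
    { r := kernel.ι _ ≫ VCat.ev.map (cy R1)
      s := kernel.lift _ _ z3
      f_r := by
        change kernel.lift _ _ z1 ≫ kernel.ι _ ≫ VCat.ev.map (cy R1) = 𝟙 _
        rw [← Category.assoc, kernel.lift_ι, ← Functor.map_comp, ← cy_mul, m5, cy_one,
          CategoryTheory.Functor.map_id]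
      s_g := by
        change kernel.lift _ _ z3 ≫ kernel.lift _ _ z2 = 𝟙 _
        rw [← cancel_mono (kernel.ι _), Category.assoc, kernel.lift_ι, ← Category.assoc,
          kernel.lift_ι, Category.assoc, ← Functor.map_comp, ← cy_mul, m4, cy_one,
          CategoryTheory.Functor.map_id, Category.comp_id, Category.id_comp]
      id := by
        have a1 : ((kernel.ι (VCat.ev.map (cy B)) ≫ VCat.ev.map (cy R1)) ≫ kernel.lift _ _ z1) ≫
            kernel.ι _ = kernel.ι (VCat.ev.map (cy B)) ≫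
              (𝟙 _ - VCat.ev.map (cy P) ≫ VCat.ev.map (cy J)) := by
          rw [Category.assoc, kernel.lift_ι, Category.assoc, ← Functor.map_comp, ← cy_mul, m7,
            cy_sub, cy_one, cy_mul, Functor.map_sub, CategoryTheory.Functor.map_id,
            Functor.map_comp]
        have a2 : (kernel.lift _ _ z2 ≫ kernel.lift _ _ z3) ≫ kernel.ι (VCat.ev.map (cy B)) =
            kernel.ι (VCat.ev.map (cy B)) ≫ VCat.ev.map (cy P) ≫ VCat.ev.map (cy J) := by
          rw [Category.assoc, kernel.lift_ι, ← Category.assoc, kernel.lift_ι, Category.assoc]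
        change (kernel.ι _ ≫ VCat.ev.map (cy R1)) ≫ kernel.lift _ _ z1 +
          kernel.lift _ _ z2 ≫ kernel.lift _ _ z3 = 𝟙 _
        rw [← cancel_mono (kernel.ι (VCat.ev.map (cy B))), Preadditive.add_comp, a1, a2,
          Preadditive.comp_sub, Category.comp_id, sub_add_cancel, Category.id_comp] }
  exact sa_two_of_three hT.shortExact (sa_cK μ₁ y) hN

end Pool.Agent.Lib.MP_c052b4_al.CT
end

section

/-!
# Coherent trees, F02: the lattice
-/

set_option autoImplicit false
set_option linter.unusedVariables false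
set_option linter.unusedSectionVars false

namespace Pool.Agent.Lib.MP_c052b4_al.CT

open CategoryTheory Opposite Limits
open Pool.Agent.Lib.MP_c052b4_al.MT

universe u

variable {R : Type u} [Ring R] {G : Type u} [Group G] {L : Lbl G}

/-- The image of an endomorphism `a` of `A` which corresponds to an idempotent up to an isomorphism. -/
private theorem f02_core {C : Type*} [Category C] [Abelian C] (P : ObjectProperty C)
    [P.IsSerreClass] {A B M : C} (a : A ⟶ A) (l : A ⟶ B) (b z : B ⟶ B) (g : B ⟶ M) (g' : M ⟶ B)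
    (hl : P.isoModSerre l) (h1 : a ≫ l = l ≫ b) [IsIso z] [Epi g] (hb : b ≫ g = z ≫ g)
    (hb' : b ≫ g ≫ g' = b) : P.isoModSerre (Abelian.image.ι a ≫ l ≫ g) := by
  refine ⟨?_, ?_⟩
  · have h2 : (Abelian.image.ι a ≫ l ≫ g) ≫ g' = Abelian.image.ι a ≫ l := by
      rw [← cancel_epi (Abelian.factorThruImage a)]
      have h3 : Abelian.factorThruImage a ≫ (Abelian.image.ι a ≫ l ≫ g) ≫ g' =
          (Abelian.factorThruImage a ≫ Abelian.image.ι a) ≫ l ≫ g ≫ g' := by
        simp only [Category.assoc]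
      rw [h3, Abelian.image.fac, ← Category.assoc a l, h1, Category.assoc, hb', ← h1,
        ← Category.assoc, Abelian.image.fac]
    have h4 : P.monoModSerre ((Abelian.image.ι a ≫ l ≫ g) ≫ g') := by
      rw [h2]
      exact P.monoModSerre.comp_mem _ _ (P.monoModSerre_of_mono _) hl.1
    rw [P.monoModSerre_iff] at h4 ⊢
    let t : kernel (Abelian.image.ι a ≫ l ≫ g) ⟶ kernel ((Abelian.image.ι a ≫ l ≫ g) ≫ g') :=
      kernel.lift ((Abelian.image.ι a ≫ l ≫ g) ≫ g') (kernel.ι (Abelian.image.ι a ≫ l ≫ g)) (by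
        rw [kernel.condition_assoc, zero_comp])
    have h5 : Mono t := mono_of_mono_fac (kernel.lift_ι _ _ _)
    exact P.prop_of_mono t h4
  · have h2 : Abelian.factorThruImage a ≫ Abelian.image.ι a ≫ l ≫ g = l ≫ z ≫ g := by
      rw [← Category.assoc, Abelian.image.fac, ← Category.assoc a l, h1, Category.assoc, hb]
    have h4 : P.epiModSerre (Abelian.factorThruImage a ≫ Abelian.image.ι a ≫ l ≫ g) := by
      rw [h2]
      exact P.epiModSerre.comp_mem _ _ hl.2 (P.epiModSerre_of_epi _)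
    rw [P.epiModSerre_iff] at h4 ⊢
    let t : cokernel (Abelian.factorThruImage a ≫ Abelian.image.ι a ≫ l ≫ g) ⟶
        cokernel (Abelian.image.ι a ≫ l ≫ g) :=
      cokernel.desc (Abelian.factorThruImage a ≫ Abelian.image.ι a ≫ l ≫ g)
        (cokernel.π (Abelian.image.ι a ≫ l ≫ g)) (by
          rw [Category.assoc, cokernel.condition, comp_zero])
    have h5 : Epi t := epi_of_epi_fac (cokernel.π_desc _ _ _)
    exact P.prop_of_epi t h4

/-- **The lattice.** As `MT.exists_lattice`, but finitely presented.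
Proof: let `e = r.r ≫ r.i : lK Y ⟶ lK Y`. By `lochom_surj` there are `k` and `ε : Y ⟶ Y` with
`lK ε = lK (zKn Y k) ≫ e`. Let `H = HH _ L q`, `N = Abelian.image (H.map ε)`, `ι = Abelian.image.ι _`,
`π = Abelian.factorThruImage _` and `j = ι ≫ lamH Y q ≫ ρ (H r.r)`.
* `N` is in `FPc`: the homology of `Y` is in `FPc` (`fpc_homology`) and `IsWS.image`.
* `N` is acyclic: `ac_image` for `H.map ε`, and `TreeDir.isZero_iff`.
* `π ≫ j = H ε ≫ lamH ≫ ρ (H r.r) = lamH ≫ ρ (H (lK ε ≫ r.r)) = lamH ≫ ρ (H (lK (zKn Y k) ≫ r.r))`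
  (`lamH_nat`; `e ≫ r.r = r.r`). It is an epimorphism modulo torsion: `lamH` is one,
  `lK (zKn Y k)` is an isomorphism (`isIso_lK_zKn`), and `ρ (H r.r)` is a split epimorphism. So `j` is an
  epimorphism modulo torsion (`cokernel j` is a quotient of `cokernel (π ≫ j)`).
* `j ≫ ρ (H r.i) = ι ≫ lamH Y q`: by composing with the epimorphism `π`:
  `π ≫ j ≫ ρ (H r.i) = lamH ≫ ρ (H (lK ε ≫ e)) = lamH ≫ ρ (H (lK ε)) = H ε ≫ lamH = π ≫ ι ≫ lamH`
  (`e ≫ e = e`). As `ι` is a monomorphism and `lamH` a monomorphism modulo torsion, `j` is a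
  monomorphism modulo torsion (`kernel j` is a subobject of `kernel (j ≫ _)`). -/
theorem exists_lattice' (hL : OrdL L) (hcoh : ∀ y : L.W, RegCoh (CR (Polynomial R) y))
    {ι : Type} {L' : ι → Lbl G} {p : ∀ i, LblHom L (L' i)} (d : ∀ i, TreeDir (p i))
    (Y : KV (Polynomial R) L) (hY : DomZ _ p Y)
    (X : KV (LaurentPolynomial R) L) (hX : DomZ _ p X) (r : Retract X ((lK R L).obj Y)) (q : ℤ) :
    ∃ (N : AA (Polynomial R) L)
      (j : N ⟶ (rho L (lz R)).obj ((HH (LaurentPolynomial R) L q).obj X)),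
      FPc _ L N ∧ (∀ i, (d i).Ac _ N) ∧ (Tors L (Polynomial.X : Polynomial R)).isoModSerre j := by
  obtain ⟨k, ε, hε⟩ := lochom_surj hY.1 (r.r ≫ r.i)
  have e1 : (kR L (lz R)).map ε ≫ r.r ≫ r.i = (kR L (lz R)).map ε := by
    rw [hε]
    simp only [Category.assoc]
    rw [reassoc_of% r.retract]
  have e2 : (kR L (lz R)).map ε ≫ r.r =
      (kR L (lz R)).map (zKn Polynomial.X (zX_central R) Y k) ≫ r.r := by
    rw [hε]
    simp only [Category.assoc]
    rw [r.retract, Category.comp_id]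
  let F := HH (LaurentPolynomial R) L q ⋙ rho L (lz R)
  have hz : IsIso ((kR L (lz R)).map (zKn Polynomial.X (zX_central R) Y k)) := isIso_lK_zKn Y k
  have hg : IsSplitEpi (F.map r.r) := ⟨⟨⟨F.map r.i, by rw [← F.map_comp, r.retract, F.map_id]⟩⟩⟩
  have hh := fpc_homology hL hcoh hY.1
  refine ⟨Abelian.image ((HH (Polynomial R) L q).map ε),
    Abelian.image.ι ((HH (Polynomial R) L q).map ε) ≫ lamH Y q ≫ F.map r.r, ?_, fun i => ?_, ?_⟩
  · exact (isWS_fpc hL hcoh).image _ (hh q) (hh q)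
  · have h1 : (d i).Ac (Polynomial R) ((HH (Polynomial R) L q).obj Y) :=
      ((d i).isZero_iff hY.1).1 (hY.2 i) q
    exact ac_image (d i) _ h1 h1
  · refine f02_core _ _ _ (F.map ((kR L (lz R)).map ε))
      (F.map ((kR L (lz R)).map (zKn Polynomial.X (zX_central R) Y k))) _ (F.map r.i)
      (lamH_isoMod Y q) (lamH_nat ε q) ?_ ?_
    · rw [← F.map_comp, ← F.map_comp, e2]
    · rw [← F.map_comp, ← F.map_comp, e1]

end Pool.Agent.Lib.MP_c052b4_al.CT
end
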