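import Pool.Agent.Lib.MP_c052b4_al.Mg.G047
import Pool.Agent.Lib.MP_c052b4_al.Mg.G013
import Pool.Agent.Lib.MP_c052b4_al.Mg.G052
import Pool.Agent.Lib.MP_c052b4_al.Mg.G081

section

/-!
# Coherent trees, I08: trees for representations of rank two
-/

set_option autoImplicit false
set_option linter.unusedVariables false
set_option linter.unusedSectionVars false

namespace Pool.Agent.Lib.MP_c052b4_al.CT

open Pool.Agent.Lib.MP_c052b4_al.MT.L

universe u

/-- A matrix with integral trace and determinant is integral.
Proof: Cayley-Hamilton: `g ^ 2 - tr g • g + det g • 1 = 0` (`Matrix.aeval_self_charpoly`,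
`Matrix.charpoly_fin_two`). Let `A₀ = integralClosure ℤ A`; `g` is integral over `A₀` (the polynomial
`X ^ 2 - C t * X + C d` over `A₀`), and `A₀` is integral over `ℤ`: `isIntegral_trans`. -/
theorem integral_of_tr_det {A : Type u} [CommRing A] (g : Matrix (Fin 2) (Fin 2) A)
    (h1 : IsIntegral ℤ g.trace) (h2 : IsIntegral ℤ g.det) : IsIntegral ℤ g := by
  have hg : IsIntegral (integralClosure ℤ A) g := by
    refine ⟨Polynomial.X ^ 2 - Polynomial.C (⟨g.trace, h1⟩ : integralClosure ℤ A) * Polynomial.X
      + Polynomial.C ⟨g.det, h2⟩, ?_, ?_⟩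
    · nontriviality (integralClosure ℤ A)
      monicity!
    · rw [← Polynomial.aeval_def]
      simp only [map_add, map_sub, map_mul, map_pow, Polynomial.aeval_X, Polynomial.aeval_C]
      have h3 : ∀ a : integralClosure ℤ A,
          algebraMap (integralClosure ℤ A) (Matrix (Fin 2) (Fin 2) A) a = algebraMap A _ (a : A) :=
        fun a => rfl
      rw [h3, h3]
      ext i j
      fin_cases i <;> fin_cases j <;>
        simp [Matrix.mul_apply, Fin.sum_univ_two, pow_two, Matrix.trace_fin_two,
          Matrix.det_fin_two, Matrix.algebraMap_matrix_apply] <;> ring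
  exact isIntegral_trans g hg

/-- Trees for representations over finitely generated domains.
Proof: the characteristic of `B` is zero: `dom_trees0` (P06) and `integral_of_tr_det`; or it is `p > 0`:
`dom_trees` (MT/L/R04.lean) with `N = p`. -/
theorem dom_trees_int (B : Type u) [CommRing B] [IsDomain B] [Algebra.FiniteType ℤ B]
    (G : Type u) [Group G] [Group.FG G] (rho : G →* GL (Fin 2) B) :
    HasTrees.{u, u} G {g | IsIntegral ℤ (rho g : Matrix (Fin 2) (Fin 2) B)} := by
  obtain ⟨p, hp⟩ := CharP.exists B
  rcases Nat.eq_zero_or_pos p with h0 | h0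
  · subst h0
    have hc : CharZero B := CharP.charP_to_charZero B
    exact (dom_trees0 B G rho).mono fun g hg => integral_of_tr_det _ hg.1 hg.2
  · exact dom_trees B p h0 (CharP.cast_eq_zero B p) G rho

private theorem i08_ring (A : Type u) [CommRing A] [Algebra.FiniteType ℤ A] (G : Type u)
    [Group G] [Group.FG G] (rho : G →* GL (Fin 2) A) :
    HasTrees.{u, u} G {g | IsIntegral ℤ (rho g : Matrix (Fin 2) (Fin 2) A)} := by
  have hnoeth : IsNoetherianRing A := Algebra.FiniteType.isNoetherianRing ℤ A
  have hfin : (minimalPrimes A).Finite := minimalPrimes.finite_of_isNoetherianRing A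
  have : Finite (minimalPrimes A) := hfin
  have h1 : HasTrees.{u, u} G (⋂ P : minimalPrimes A, {g | IsIntegral ℤ
      ((Ideal.Quotient.mk P.1).mapMatrix (rho g : Matrix (Fin 2) (Fin 2) A) :
        Matrix (Fin 2) (Fin 2) (A ⧸ P.1))}) := by
    refine HasTrees.iInter fun P => ?_
    have hP : P.1.IsPrime := P.2.1.1
    have hft : @Algebra.FiniteType ℤ (A ⧸ P.1) _ _ (Ring.toIntAlgebra _) :=
      Algebra.FiniteType.of_surjective (Ideal.Quotient.mk P.1).toIntAlgHom
        Ideal.Quotient.mk_surjective
    exact dom_trees_int (A ⧸ P.1) G ((Matrix.GeneralLinearGroup.map (Ideal.Quotient.mk P.1)).comp rho)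
  refine h1.mono fun g hg => ?_
  rw [Set.mem_iInter] at hg
  exact integral_of_minimalPrimes _ fun P hP => hg ⟨P, hP⟩

/-- **Trees for representations of rank two over commutative rings.**
Proof: `exists_fg_subring` (MT/L/R01.lean) gives a finitely generated subring `A'`; for `A'` proceed as in
`ring_trees` (MT/L/R05.lean) with `dom_trees_int`; an integral matrix over `A'` is an integral matrix over `A`
(`IsIntegral.map` for the ring homomorphism `A'.val.mapMatrix`). -/
theorem ring_trees_int (A : Type u) [CommRing A] (G : Type u) [Group G] [Group.FG G]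
    (rho : G →* GL (Fin 2) A) :
    HasTrees.{u, u} G {g | IsIntegral ℤ (rho g : Matrix (Fin 2) (Fin 2) A)} := by
  obtain ⟨A', hA', rho', hr⟩ := exists_fg_subring rho
  refine (i08_ring A' G rho').mono fun g hg => ?_
  have h1 : (rho g : Matrix (Fin 2) (Fin 2) A) =
      (A'.val : A' →+* A).mapMatrix (rho' g : Matrix (Fin 2) (Fin 2) A') := by
    rw [← hr g]
    rfl
  show IsIntegral ℤ (rho g : Matrix (Fin 2) (Fin 2) A)
  rw [h1]
  exact IsIntegral.map ((A'.val : A' →+* A).mapMatrix.toIntAlgHom) hg

end Pool.Agent.Lib.MP_c052b4_al.CT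
end

section

/-!
# Coherent trees, D04: kernels and cokernels of matrices are in SA
-/

set_option autoImplicit false
set_option linter.unusedVariables false
set_option linter.unusedSectionVars false

namespace Pool.Agent.Lib.MP_c052b4_al.CT

open CategoryTheory Opposite Limits
open Pool.Agent.Lib.MP_c052b4_al.MT

universe u

variable {S : Type u} [Ring S] {G : Type u} [Group G] {L : Lbl G}

/-- If the third and the second term of a short exact sequence are in `SA`, so is the first:
`SD` is triangulated (`ObjectProperty.ext_of_isTriangulatedClosed₁` for the triangle of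
`hT.singleTriangle`, as `sa_two_of_three`). -/
theorem sa_first {T : ShortComplex (AA S L)} (hT : T.ShortExact) (h2 : SA S L T.X₂)
    (h3 : SA S L T.X₃) : SA S L T.X₁ :=
  (SD S L).ext_of_isTriangulatedClosed₁ hT.singleTriangle hT.singleTriangle_distinguished h2 h3

private theorem d04_image {N' N : AA S L} (α : N' ⟶ N) (h : SA S L N')
    (hk : SA S L (kernel α)) : SA S L (Abelian.image α) := by
  have hfac : Abelian.factorThruImage α ≫ Abelian.image.ι α = α := Abelian.image.fac α
  have hk' : SA S L (kernel (Abelian.factorThruImage α)) := by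
    have e1 : kernel (Abelian.factorThruImage α ≫ Abelian.image.ι α) ≅
      kernel (Abelian.factorThruImage α) := kernelCompMono _ _
    have e2 : kernel (Abelian.factorThruImage α ≫ Abelian.image.ι α) ≅ kernel α :=
      kernelIsoOfEq hfac
    exact (SA S L).prop_of_iso (e2.symm ≪≫ e1) hk
  refine sa_two_of_three (T := ShortComplex.mk (kernel.ι (Abelian.factorThruImage α))
    (Abelian.factorThruImage α) (kernel.condition _)) ?_ hk' h
  exact { exact := ShortComplex.exact_of_f_is_kernel _ (kernelIsKernel _) }

/-- The cokernel of a morphism with kernel, source and target in `SA`: image, cokernel. -/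
theorem sa_cokernel {N N' : AA S L} (f : N ⟶ N') (h : SA S L N) (h' : SA S L N')
    (hk : SA S L (kernel f)) : SA S L (cokernel f) := by
  have hfac : Abelian.factorThruImage f ≫ Abelian.image.ι f = f := Abelian.image.fac f
  have hI := d04_image f h hk
  have hc : SA S L (cokernel (Abelian.image.ι f)) := by
    refine sa_two_of_three (T := ShortComplex.mk (Abelian.image.ι f)
      (cokernel.π (Abelian.image.ι f)) (cokernel.condition _)) ?_ hI h'
    exact { exact := ShortComplex.exact_of_g_is_cokernel _ (cokernelIsCokernel _) }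
  have e1 : cokernel (Abelian.factorThruImage f ≫ Abelian.image.ι f) ≅
    cokernel (Abelian.image.ι f) := cokernelEpiComp _ _
  have e2 : cokernel (Abelian.factorThruImage f ≫ Abelian.image.ι f) ≅ cokernel f :=
    cokernelIsoOfEq hfac
  exact (SA S L).prop_of_iso (e1.symm ≪≫ e2) hc

/-- A morphism with source, kernel and cokernel in `SA` has its target in `SA`
(`d05d_glue` in T/D05d, private there: copy it). -/
theorem sa_glue {N' N : AA S L} (α : N' ⟶ N) (h : SA S L N') (hk : SA S L (kernel α))
    (hc : SA S L (cokernel α)) : SA S L N := by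
  have hfac : Abelian.factorThruImage α ≫ Abelian.image.ι α = α := Abelian.image.fac α
  have hc' : SA S L (cokernel (Abelian.image.ι α)) := by
    have e1 : cokernel (Abelian.factorThruImage α ≫ Abelian.image.ι α) ≅
      cokernel (Abelian.image.ι α) := cokernelEpiComp _ _
    have e2 : cokernel (Abelian.factorThruImage α ≫ Abelian.image.ι α) ≅ cokernel α :=
      cokernelIsoOfEq hfac
    exact (SA S L).prop_of_iso (e2.symm ≪≫ e1) hc
  have hI := d04_image α h hk
  refine sa_ext (T := ShortComplex.mk (Abelian.image.ι α)
      (cokernel.π (Abelian.image.ι α)) (cokernel.condition _)) ?_ hI hc'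
  exact { exact := ShortComplex.exact_of_g_is_cokernel _ (cokernelIsCokernel _) }

/-- Induction on the length of the resolution.
Proof: `n = 0`: `sa_ker_good` (`HasRes φ 0 M` is `Good φ M`). `n + 1`: there are `m` and a surjective
`f : (Fin m → CR S y) →ₗ rker M` with `HasRes n (ker f)`. Let `A` be the matrix of
`(rker M).subtype ∘ₗ f` (`exists_mat`), `rker A = ker f` (`HasRes.congr`). So
`kernel (ev.map (cy A))` is in `SA` by induction, and `0 → kernel (ev.map (cy A)) → ev (cK S (Fin m) y)
→ kernel (ev.map (cy M)) → 0` is exact by `ev_exact`; `sa_two_of_three`, `sa_cK`. -/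
theorem sa_ker (n : ℕ) : ∀ {κ l : Type} [Fintype κ] [DecidableEq κ] [Fintype l] {y : L.W}
    (M : Matrix κ l (CR S y)), HasRes (cSy S y) n (rker M) →
      SA S L (kernel (VCat.ev.map (cy M))) := by
  induction n with
  | zero =>
    intro κ l _ _ _ y M h
    exact sa_ker_good M h
  | succ n ih =>
    intro κ l _ _ _ y M h
    obtain ⟨m, f, hf, hk⟩ := h
    obtain ⟨A, hA⟩ := exists_mat ((rker M).subtype ∘ₗ f)
    have hA' : ∀ v, Matrix.vecMul v A = (f v : κ → CR S y) := hA
    have hker : LinearMap.ker f = rker A := by
      ext x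
      rw [LinearMap.mem_ker, mem_rker, hA', ZeroMemClass.coe_eq_zero]
    have h1 : SA S L (kernel (VCat.ev.map (cy A))) :=
      ih A (hk.congr (LinearEquiv.ofEq _ _ hker))
    have hAM : A * M = 0 := by
      funext i
      have h2 : Matrix.vecMul (Pi.single i 1) A = A i := Matrix.single_one_vecMul i A
      rw [Matrix.mul_apply_eq_vecMul, ← h2, hA']
      exact (f (Pi.single i 1)).2
    have e1 := ev_exact A M hAM (fun x hx => by
      obtain ⟨z, hz⟩ := hf ⟨x, hx⟩
      exact ⟨z, by rw [hA', hz]⟩)
    have w0 : (VCat.ev.map (cy A) : VCat.ev.obj (cK S (Fin m) y) ⟶ _) ≫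
        VCat.ev.map (cy M) = 0 := by
      rw [← Functor.map_comp, ← cy_mul, hAM, cy_zero, Functor.map_zero]
    have hr : Epi (kernel.lift _ _ w0) := e1.epi_kernelLift
    have w2 : kernel.ι (VCat.ev.map (cy A)) ≫ kernel.lift _ _ w0 = 0 := by
      rw [← cancel_mono (kernel.ι _), Category.assoc, kernel.lift_ι, zero_comp,
        kernel.condition]
    have e3 : (ShortComplex.mk _ _ w2).Exact := by
      let φ : ShortComplex.mk _ _ w2 ⟶
          ShortComplex.mk _ _ (kernel.condition (VCat.ev.map (cy A))) :=
        { τ₁ := 𝟙 _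
          τ₂ := 𝟙 _
          τ₃ := kernel.ι _
          comm₁₂ := by simp
          comm₂₃ := by simp }
      have : Epi φ.τ₁ := inferInstanceAs (Epi (𝟙 _))
      have : IsIso φ.τ₂ := inferInstanceAs (IsIso (𝟙 _))
      have : Mono φ.τ₃ := inferInstanceAs (Mono (kernel.ι _))
      exact (ShortComplex.exact_iff_of_epi_of_isIso_of_mono φ).2
        (ShortComplex.exact_of_f_is_kernel _ (kernelIsKernel _))
    have hT : (ShortComplex.mk _ _ w2).ShortExact :=
      { exact := e3
        mono_f := inferInstanceAs (Mono (kernel.ι _))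
        epi_g := hr }
    exact sa_two_of_three hT h1 (sa_cK (Fin m) y)

/-- If `K₀(S) → K₀(S[H])` is surjective then all finitely generated projective modules are good, so
a resolution by projective modules is a resolution by good ones.
Proof: induction on `n`; `n = 0`: `Good (RingHom.id _) M` gives finite and projective
(`Good.finite`, `Good.projective`), so `M ≃ img p.mat` for an idempotent `p` (`exists_idemMat`), and
`good_iff` with the surjectivity `hk` (`KSurj`). `n + 1`: clear. -/
theorem hasRes_of_kSurj {H : Type u} [Group H] (hk : KSurj S H) (n : ℕ) :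
    ∀ {M : Type u} [AddCommGroup M] [Module (MonoidAlgebra S H) M],
      HasRes (RingHom.id (MonoidAlgebra S H)) n M →
      HasRes (MonoidAlgebra.singleOneRingHom : S →+* MonoidAlgebra S H) n M := by
  induction n with
  | zero =>
    intro M _ _ h
    have h' : Good (RingHom.id (MonoidAlgebra S H)) M := h
    have := h'.finite
    have := h'.projective
    obtain ⟨p, ⟨e⟩⟩ := exists_idemMat (S := MonoidAlgebra S H) (M := M)
    refine (good_iff p.idem e).2 ?_
    obtain ⟨z, hz⟩ := hk (KZero.kc p.mat p.idem)
    exact ⟨z, hz⟩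
  | succ n ih =>
    intro M _ _ h
    obtain ⟨m, f, hf, h⟩ := h
    exact ⟨m, f, hf, ih h⟩

/-- **Cokernels of matrices over the group ring of a stabilizer are in `SA`.**
Proof: `RegCoh.perf_rker`, `hasRes_of_kSurj`, `sa_ker`, `sa_cK`, `sa_cokernel`. -/
theorem sa_coker {κ l : Type} [Fintype κ] [DecidableEq κ] [Fintype l] {y : L.W}
    (hcoh : RegCoh (CR S y)) (hk : KSurj S (MulAction.stabilizer G y))
    (M : Matrix κ l (CR S y)) : SA S L (cokernel (VCat.ev.map (cy M))) := by
  obtain ⟨d, hd⟩ := hcoh.perf_rker M
  exact sa_cokernel _ (sa_cK κ y) (sa_cK l y) (sa_ker d M (hasRes_of_kSurj hk d hd))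

end Pool.Agent.Lib.MP_c052b4_al.CT
end
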