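import Pool.Agent.Lib.MP_c052b4_al.Mg.G019
import Pool.Agent.Lib.MP_c052b4_al.Mg.G048
import Pool.Agent.Lib.MP_c052b4_al.Mg.G036

section

/-!
# Coherent trees, D05: finitely presented functors, local presentation
-/

set_option autoImplicit false
set_option linter.unusedVariables false
set_option linter.unusedSectionVars false

namespace Pool.Agent.Lib.MP_c052b4_al.CT

open CategoryTheory Opposite Limits
open Pool.Agent.Lib.MP_c052b4_al.MT

universe u

variable {S : Type u} [Ring S] {G : Type u} [Group G] {L : Lbl G}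

/-- An epimorphism is the cokernel of its kernel. -/
private theorem d05_epi {C : Type*} [Category C] [Abelian C] {X N : C} (π : X ⟶ N) [Epi π] :
    Nonempty (cokernel (kernel.ι π) ≅ N) :=
  ⟨(cokernelIsCokernel (kernel.ι π)).coconePointUniqueUpToIso
    (Abelian.epiIsCokernelOfKernel (KernelFork.ofι (kernel.ι π) (kernel.condition π))
      (kernelIsKernel π))⟩

/-- Finitely presented functors are cokernels of morphisms of finite objects.
Proof: let `π : X ⟶ N` be an epimorphism with `PF X` and `FGe (kernel π)`, `ρ : Y ⟶ kernel π` an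
epimorphism with `PF Y`. `N` is the cokernel of `ρ ≫ kernel.ι π`. With isomorphisms `ev F₁ ≅ Y`,
`ev F₀ ≅ X` the morphism is `ev.map f` (`ev` is full: `VCat.ev_full`). -/
theorem fpc_coker {N : AA S L} (hN : FPc S L N) :
    ∃ (F₁ F₀ : VCat S L) (_ : Finite F₁.I) (_ : Finite F₀.I) (f : F₁ ⟶ F₀),
      Nonempty (cokernel (VCat.ev.map f) ≅ N) := by
  obtain ⟨X, π, ⟨F₀, hF₀, ⟨e₀⟩⟩, hπ, Y, ρ, ⟨F₁, hF₁, ⟨e₁⟩⟩, hρ⟩ := hN
  refine ⟨F₁, F₀, hF₁, hF₀,
    VCat.ev.preimage (e₁.hom ≫ ρ ≫ kernel.ι π ≫ e₀.inv), ?_⟩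
  rw [Functor.map_preimage]
  obtain ⟨i4⟩ := d05_epi π
  exact ⟨(cokernelEpiComp e₁.hom (ρ ≫ kernel.ι π ≫ e₀.inv)) ≪≫
    (cokernelEpiComp ρ (kernel.ι π ≫ e₀.inv)) ≪≫
    (cokernelCompIsIso (kernel.ι π) e₀.inv) ≪≫ i4⟩

private theorem d05_exact {F₁ F₀ : VCat S L} (f : F₁ ⟶ F₀) (x : (Q L)ᵒᵖ)
    (v : (VCat.ev.obj F₀).obj x)
    (hv : ((cokernel.π (VCat.ev.map f)).app x).hom v = 0) :
    ∃ u : (VCat.ev.obj F₁).obj x, ((VCat.ev.map f).app x).hom u = v := by
  have hT : (ShortComplex.mk (VCat.ev.map f) (cokernel.π (VCat.ev.map f))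
      (cokernel.condition _)).Exact :=
    ShortComplex.exact_of_g_is_cokernel _ (cokernelIsCokernel _)
  have h1 := hT.map ((evaluation (Q L)ᵒᵖ (ModuleCat.{u} S)).obj x)
  rw [ShortComplex.moduleCat_exact_iff] at h1
  exact h1 v hv

/-- Local presentation: at a label `y` the functor `cokernel (ev.map f)` is isomorphic to the cokernel
of a matrix over the group ring of the stabilizer.
Proof: let `ψ₁ : cK S (Fin k) y ⟶ F₁`, `ψ₀ : cK S (Fin l) y ⟶ F₀` be as in `exists_psi`. By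
`exists_lift` there is `g` with `g ≫ ψ₀ = ψ₁ ≫ f`, and `g = cy M` by `exists_cy`. Take
`α = cokernel.map _ _ (ev.map ψ₁) (ev.map ψ₀) _`. The evaluation functor at `op ⟨y⟩`
(`(evaluation _ _).obj (op ⟨y⟩)`) is exact, and `ev.map ψ₁`, `ev.map ψ₀` are bijective at
`op ⟨y⟩`, so `α` is bijective there. (By hand: surjective: `α ∘ π = π' ∘ ψ₀`, all these are surjective
at `y` (`aa_surj`). Injective: let `w` be in the kernel of `α`, `w = π v`; then `ψ₀ v` is in the kernel
of `π' = cokernel.π (ev.map f)`, so it is `f u` (`ShortComplex.exact_cokernel`, evaluated at `y`), and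
`u = ψ₁ u'`, `ψ₀ v = f (ψ₁ u') = ψ₀ (g u')`, so `v = g u'` and `w = π v = 0`.) -/
theorem exists_local (hL : OrdL L) {F₁ F₀ : VCat S L} (h1 : Finite F₁.I) (h0 : Finite F₀.I)
    (f : F₁ ⟶ F₀) (y : L.W) :
    ∃ (k l : ℕ) (M : Matrix (Fin k) (Fin l) (CR S y))
      (α : cokernel (VCat.ev.map (cy M)) ⟶ cokernel (VCat.ev.map f)),
      Function.Bijective (α.app (op (⟨y⟩ : Q L))).hom := by
  obtain ⟨k, ψ₁, hψ₁⟩ := exists_psi hL F₁ h1 y
  obtain ⟨l, ψ₀, hψ₀⟩ := exists_psi hL F₀ h0 y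
  obtain ⟨g, hg⟩ := exists_lift ψ₀ hψ₀.2 (ψ₁ ≫ f)
  obtain ⟨M, rfl⟩ := exists_cy hL g
  have hw : VCat.ev.map (cy M) ≫ VCat.ev.map ψ₀ = VCat.ev.map ψ₁ ≫ VCat.ev.map f := by
    rw [← Functor.map_comp, ← Functor.map_comp, hg]
  have hα : cokernel.π (VCat.ev.map (cy M)) ≫
      cokernel.map (VCat.ev.map (cy M)) (VCat.ev.map f) (VCat.ev.map ψ₁) (VCat.ev.map ψ₀) hw =
      VCat.ev.map ψ₀ ≫ cokernel.π (VCat.ev.map f) := cokernel.π_desc _ _ _
  refine ⟨k, l, M, cokernel.map (VCat.ev.map (cy M)) (VCat.ev.map f) (VCat.ev.map ψ₁)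
    (VCat.ev.map ψ₀) hw, ?_⟩
  generalize cokernel.map (VCat.ev.map (cy M)) (VCat.ev.map f) (VCat.ev.map ψ₁)
    (VCat.ev.map ψ₀) hw = α at hα ⊢
  have hα' : ∀ v, (α.app (op (⟨y⟩ : Q L))).hom
      (((cokernel.π (VCat.ev.map (cy M))).app (op (⟨y⟩ : Q L))).hom v) =
      ((cokernel.π (VCat.ev.map f)).app (op (⟨y⟩ : Q L))).hom
        (((VCat.ev.map ψ₀).app (op (⟨y⟩ : Q L))).hom v) := fun v =>
    congrArg (fun t : VCat.ev.obj (cK S (Fin l) y) ⟶ cokernel (VCat.ev.map f) =>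
      (t.app (op (⟨y⟩ : Q L))).hom v) hα
  have hw' : ∀ v, ((VCat.ev.map ψ₀).app (op (⟨y⟩ : Q L))).hom
      (((VCat.ev.map (cy M)).app (op (⟨y⟩ : Q L))).hom v) =
      ((VCat.ev.map f).app (op (⟨y⟩ : Q L))).hom
        (((VCat.ev.map ψ₁).app (op (⟨y⟩ : Q L))).hom v) := fun v =>
    congrArg (fun t : VCat.ev.obj (cK S (Fin k) y) ⟶ VCat.ev.obj F₀ =>
      (t.app (op (⟨y⟩ : Q L))).hom v) hw
  have hb0 : Function.Bijective ((VCat.ev.map ψ₀).app (op (⟨y⟩ : Q L))).hom := hψ₀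
  have hb1 : Function.Bijective ((VCat.ev.map ψ₁).app (op (⟨y⟩ : Q L))).hom := hψ₁
  constructor
  · rw [injective_iff_map_eq_zero]
    intro w hw0
    obtain ⟨v, rfl⟩ := aa_surj (cokernel.π (VCat.ev.map (cy M))) (op (⟨y⟩ : Q L)) w
    rw [hα'] at hw0
    obtain ⟨z, hz⟩ := d05_exact f _ _ hw0
    obtain ⟨z', rfl⟩ := hb1.2 z
    rw [← hw'] at hz
    rw [← hb0.1 hz]
    exact congrArg (fun t : VCat.ev.obj (cK S (Fin k) y) ⟶ cokernel (VCat.ev.map (cy M)) =>
      (t.app (op (⟨y⟩ : Q L))).hom z') (cokernel.condition (VCat.ev.map (cy M)))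
  · intro w
    obtain ⟨v, rfl⟩ := aa_surj (cokernel.π (VCat.ev.map f)) (op (⟨y⟩ : Q L)) w
    obtain ⟨v', rfl⟩ := hb0.2 v
    exact ⟨_, hα' v'⟩

end Pool.Agent.Lib.MP_c052b4_al.CT
end

section

/-!
# Coherent trees, D06: supports
-/

set_option autoImplicit false
set_option linter.unusedVariables false
set_option linter.unusedSectionVars false

namespace Pool.Agent.Lib.MP_c052b4_al.CT

open CategoryTheory Opposite Limits
open Pool.Agent.Lib.MP_c052b4_al.MT

universe u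

variable {S : Type u} [Ring S] {G : Type u} [Group G] {L : Lbl G}

/-- Vectors of the filtration vanish if no label of the basis is above. -/
private theorem d06_fil {F : VCat S L} {x : L.W} (v : F.fil x)
    (h : ∀ i (g : G), ¬ L.le x (g • F.l i)) : v = 0 := by
  apply Subtype.ext
  refine Finsupp.ext fun i => ?_
  by_contra hne
  have h1 : (v.1 i).coeff ≠ 0 := fun h2 => hne (by
    show v.1 i = 0
    ext g
    rw [h2]
    rfl)
  obtain ⟨g, hg⟩ := Finsupp.ne_iff.1 h1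
  exact h i g (v.2 i g hg)

/-- The support of a finitely presented functor. -/
theorem fpc_supp (hL : OrdL L) {N : AA S L} (hN : FPc S L N) :
    ∃ Φ : Set L.W, Φ.Finite ∧ ∀ x ∈ supp N, ∃ g : G, g • x ∈ Φ := by
  obtain ⟨F₁, F₀, hF₁, hF₀, f, ⟨e⟩⟩ := fpc_coker hN
  refine ⟨⋃ i, {z | L.le z (F₀.l i)}, Set.finite_iUnion fun i => hL.lower _, fun x hx => ?_⟩
  by_contra hcon
  have h : ∀ i (g : G), ¬ L.le x (g • F₀.l i) := by
    intro i g hg
    refine hcon ⟨g⁻¹, Set.mem_iUnion.2 ⟨i, ?_⟩⟩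
    have h1 := L.smul g⁻¹ hg
    rwa [inv_smul_smul] at h1
  refine hx ⟨fun v w => ?_⟩
  obtain ⟨v', rfl⟩ := aa_surj (cokernel.π (VCat.ev.map f) ≫ e.hom) (op ⟨x⟩) v
  obtain ⟨w', rfl⟩ := aa_surj (cokernel.π (VCat.ev.map f) ≫ e.hom) (op ⟨x⟩) w
  have hv : v' = 0 := d06_fil (F := F₀) (x := x) v' h
  have hw : w' = 0 := d06_fil (F := F₀) (x := x) w' h
  rw [hv, hw]

/-- Kernel and cokernel of a morphism from a local functor which is bijective at `y`. -/
theorem local_supp (hL : OrdL L) {κ l : Type} [Fintype κ] [Fintype l] {y : L.W}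
    (M : Matrix κ l (CR S y)) {N : AA S L} (α : cokernel (VCat.ev.map (cy M)) ⟶ N)
    (hα : Function.Bijective (α.app (op (⟨y⟩ : Q L))).hom) :
    (supp (cokernel α) ⊆ supp N \ {x | ∃ g : G, x = g • y}) ∧
    (supp (kernel α) ⊆ {x | ∃ g : G, L.le x (g • y) ∧ x ≠ g • y}) := by
  constructor
  · intro x hx
    refine ⟨fun h1 => hx ?_, ?_⟩
    · refine ⟨fun v w => ?_⟩
      obtain ⟨v', rfl⟩ := aa_surj (cokernel.π α) (op ⟨x⟩) v
      obtain ⟨w', rfl⟩ := aa_surj (cokernel.π α) (op ⟨x⟩) w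
      rw [h1.elim v' w']
    · rintro ⟨g, rfl⟩
      have h1 : y ∈ supp (cokernel α) := (supp_smul _ g y).1 hx
      refine h1 ⟨fun v w => ?_⟩
      have h2 : ∀ v : N.obj (op ⟨y⟩), ((cokernel.π α).app (op ⟨y⟩)).hom v = 0 := by
        intro v
        obtain ⟨u, rfl⟩ := hα.2 v
        exact congrArg (fun t : cokernel (VCat.ev.map (cy M)) ⟶ cokernel α =>
          (t.app (op ⟨y⟩)).hom u) (cokernel.condition α)
      obtain ⟨v', rfl⟩ := aa_surj (cokernel.π α) (op ⟨y⟩) v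
      obtain ⟨w', rfl⟩ := aa_surj (cokernel.π α) (op ⟨y⟩) w
      rw [h2, h2]
  · have hinj : ∀ x : (Q L)ᵒᵖ, Function.Injective ((kernel.ι α).app x).hom := fun x =>
      (ModuleCat.mono_iff_injective _).1 ((NatTrans.mono_iff_mono_app (kernel.ι α)).1
        inferInstance x)
    intro x hx
    by_contra hcon
    have hcon' : ∀ g : G, L.le x (g • y) → x = g • y := by
      intro g hg
      by_contra h1
      exact hcon ⟨g, hg, h1⟩
    by_cases he : ∃ g : G, L.le x (g • y)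
    · obtain ⟨g, hg⟩ := he
      have h0 := hcon' g hg
      subst h0
      have h1 : y ∈ supp (kernel α) := (supp_smul _ g y).1 hx
      refine h1 ⟨fun v w => ?_⟩
      have h2 : ∀ v : (kernel α).obj (op ⟨y⟩), v = 0 := by
        intro v
        apply hinj (op ⟨y⟩)
        rw [map_zero]
        apply hα.1
        rw [map_zero]
        exact congrArg (fun t : kernel α ⟶ N => (t.app (op ⟨y⟩)).hom v) (kernel.condition α)
      exact (h2 v).trans (h2 w).symm
    · refine hx ⟨fun v w => hinj (op ⟨x⟩) ?_⟩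
      have h3 : ∀ i (g : G), ¬ L.le x (g • (cK S l y).l i) := fun i g hg => he ⟨g, hg⟩
      have h4 : ∀ u : (cokernel (VCat.ev.map (cy M))).obj (op ⟨x⟩), u = 0 := by
        intro u
        obtain ⟨u', rfl⟩ := aa_surj (cokernel.π (VCat.ev.map (cy M))) (op ⟨x⟩) u
        have h5 : u' = 0 := d06_fil (F := cK S l y) (x := x) u' h3
        rw [h5, map_zero]
      rw [h4 (((kernel.ι α).app (op ⟨x⟩)).hom v), h4 (((kernel.ι α).app (op ⟨x⟩)).hom w)]

end Pool.Agent.Lib.MP_c052b4_al.CT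
end

section

/-!
# Coherent trees, D07: finitely presented functors are perfect
-/

set_option autoImplicit false
set_option linter.unusedVariables false
set_option linter.unusedSectionVars false

namespace Pool.Agent.Lib.MP_c052b4_al.CT

open CategoryTheory Opposite Limits
open Pool.Agent.Lib.MP_c052b4_al.MT

universe u

variable {S : Type u} [Ring S] {G : Type u} [Group G] {L : Lbl G}

private theorem d07_zero (N : AA S L) (hN : IsZero N) : SA S L N :=
  (SD S L).prop_of_isZero (Functor.map_isZero _ hN)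

private theorem d07_bij {N N' N'' : AA S L} (α : N ⟶ N') (e : N' ≅ N'') (x : (Q L)ᵒᵖ)
    (h : Function.Bijective (α.app x).hom) : Function.Bijective ((α ≫ e.hom).app x).hom := by
  have h2 : Function.Bijective (e.hom.app x).hom := by
    have : IsIso (e.hom.app x) := inferInstance
    exact ⟨(ModuleCat.mono_iff_injective _).1 inferInstance,
      (ModuleCat.epi_iff_surjective _).1 inferInstance⟩
  exact h2.comp h

private theorem d07_main (hL : OrdL L) (hcoh : ∀ y : L.W, RegCoh (CR S y))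
    (hk : ∀ y : L.W, KSurj S (MulAction.stabilizer G y)) (n : ℕ) :
    ∀ Φ : Set L.W, Φ.Finite → Φ.ncard ≤ n →
      (∀ x ∈ Φ, ∀ x', L.le x' x → ∃ g : G, g • x' ∈ Φ) →
      ∀ N : AA S L, FPc S L N → (∀ x ∈ supp N, ∃ g : G, g • x ∈ Φ) → SA S L N := by
  induction n with
  | zero =>
    intro Φ hfin hcard _ N hN hsupp
    have hΦ : Φ = ∅ := (Set.ncard_eq_zero hfin).1 (Nat.le_zero.1 hcard)
    refine d07_zero N ?_
    refine Functor.isZero _ fun x => ?_
    rw [ModuleCat.isZero_iff_subsingleton]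
    by_contra hx
    obtain ⟨g, hg⟩ := hsupp x.unop.w hx
    rw [hΦ] at hg
    exact hg
  | succ n ih =>
    intro Φ hfin hcard hdown N hN hsupp
    by_cases hne : Φ.Nonempty
    swap
    · exact ih Φ hfin (by rw [Set.not_nonempty_iff_eq_empty.1 hne, Set.ncard_empty]; exact Nat.zero_le _)
        hdown N hN hsupp
    obtain ⟨y, hy, hmax⟩ := Set.exists_max_image Φ (fun y => {z | L.le z y}.ncard) hfin hne
    let Φ' : Set L.W := {x ∈ Φ | ¬ ∃ g : G, x = g • y}
    have hsub : Φ' ⊆ Φ := fun x hx => hx.1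
    have hssub : Φ' ⊂ Φ := by
      refine ⟨hsub, fun h => (h hy).2 ⟨1, (one_smul _ _).symm⟩⟩
    have hfin' : Φ'.Finite := hfin.subset hsub
    have hcard' : Φ'.ncard ≤ n := by
      have := Set.ncard_lt_ncard hssub hfin
      omega
    have hdown' : ∀ x ∈ Φ', ∀ x', L.le x' x → ∃ g : G, g • x' ∈ Φ' := by
      intro x hx x' hx'
      obtain ⟨g, hg⟩ := hdown x hx.1 x' hx'
      refine ⟨g, hg, ?_⟩
      rintro ⟨h, hh⟩
      have h1 : x' = (g⁻¹ * h) • y := by rw [mul_smul, ← hh, inv_smul_smul]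
      have h2 : x' = x := by
        refine hL.eq_of_card hx' ?_
        rw [h1, hL.card_smul]
        exact hmax x hx.1
      exact hx.2 ⟨g⁻¹ * h, h2 ▸ h1⟩
    obtain ⟨F₁, F₀, hF₁, hF₀, f, ⟨e⟩⟩ := fpc_coker hN
    obtain ⟨k, l, M, α₀, hα₀⟩ := exists_local hL hF₁ hF₀ f y
    have hα := d07_bij α₀ e _ hα₀
    obtain ⟨hco, hke⟩ := local_supp hL M (α₀ ≫ e.hom) hα
    have hws := isWS_fpc (S := S) hL hcoh
    have hmem : ∀ k : ℕ, FPc S L (VCat.ev.obj (cK S (Fin k) y)) := fun k =>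
      FPr.of_mem (cohP_PF hL hcoh) ⟨cK S (Fin k) y, inferInstanceAs (Finite (ULift (Fin k))),
        ⟨Iso.refl _⟩⟩
    have hC := hws.coker (VCat.ev.map (cy M)) (hmem k) (hmem l)
    refine sa_glue (α₀ ≫ e.hom) (sa_coker (hcoh y) (hk y) M) ?_ ?_
    · refine ih Φ' hfin' hcard' hdown' _ (hws.ker _ hC hN) ?_
      intro x hx
      obtain ⟨g, hg, hgne⟩ := hke hx
      have h1 : L.le (g⁻¹ • x) y := by
        have h1 := L.smul g⁻¹ hg
        rwa [inv_smul_smul] at h1
      obtain ⟨h, hh⟩ := hdown y hy _ h1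
      refine ⟨h * g⁻¹, by rw [mul_smul]; exact hh, ?_⟩
      rintro ⟨k, hk⟩
      refine hgne (hL.eq_of_card hg ?_)
      have h2 : x = ((h * g⁻¹)⁻¹ * k) • y := by rw [mul_smul, ← hk, inv_smul_smul]
      rw [h2, hL.card_smul, hL.card_smul]
    · refine ih Φ' hfin' hcard' hdown' _ (hws.coker _ hC hN) ?_
      intro x hx
      obtain ⟨hx1, hx2⟩ := hco hx
      obtain ⟨g, hg⟩ := hsupp x hx1
      refine ⟨g, hg, ?_⟩
      rintro ⟨k, hk⟩
      refine hx2 ⟨g⁻¹ * k, ?_⟩
      rw [mul_smul, ← hk, inv_smul_smul]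

/-- **Finitely presented functors are in `SA`** if the group rings of the stabilizers are regular
coherent and `K₀` of the coefficients maps onto `K₀` of these group rings.
Proof: same proof as `MT.sa_ft` (`d05d_main` in T/D05d, copy it): induction on the cardinality of a
finite set `Φ` of labels which is closed downwards up to translations, for `N` with `FPc S L N` and
support in `G Φ`. In the induction step `fpc_coker` (`FPr.of_iso`, `sa_iso`) and `exists_local` give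
a morphism `α` from `cokernel (ev.map (cy M))`, which is in `SA` by `sa_coker`, and in `FPc` (it is a
cokernel of a morphism between members of `PF`: `isWS_fpc`, `FPr.of_mem (cohP_PF hL hcoh)`). The kernel
and the cokernel of `α` are in `FPc` (`isWS_fpc`) and have smaller support by `local_supp` (use
`OrdL.eq_of_card`, `OrdL.card_smul`). Conclude with `sa_glue`. Start: `fpc_supp`. -/
theorem sa_fpc (hL : OrdL L) (hcoh : ∀ y : L.W, RegCoh (CR S y))
    (hk : ∀ y : L.W, KSurj S (MulAction.stabilizer G y)) (N : AA S L) (hN : FPc S L N) :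
    SA S L N := by
  obtain ⟨Φ, hΦ, hsupp⟩ := fpc_supp hL hN
  let Ψ : Set L.W := ⋃ y ∈ Φ, {z | L.le z y}
  have hΨ : Ψ.Finite := hΦ.biUnion fun y _ => hL.lower y
  refine d07_main hL hcoh hk Ψ.ncard Ψ hΨ le_rfl ?_ N hN ?_
  · intro x hx x' hx'
    refine ⟨1, ?_⟩
    rw [one_smul]
    obtain ⟨y, hy, hxy⟩ := Set.mem_iUnion₂.1 hx
    exact Set.mem_iUnion₂.2 ⟨y, hy, L.trans hx' hxy⟩
  · intro x hx
    obtain ⟨g, hg⟩ := hsupp x hx
    exact ⟨g, Set.mem_iUnion₂.2 ⟨g • x, hg, L.refl _⟩⟩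

end Pool.Agent.Lib.MP_c052b4_al.CT
end
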