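import Pool.Agent.Lib.MP_c052b4_al.Mg.G033
import Pool.Agent.Lib.MP_c052b4_al.Mg.G001

section

/-!
# Coherent trees, J02: groups stabilizing a finite subtree
-/

set_option autoImplicit false
set_option linter.unusedVariables false
set_option linter.unusedSectionVars false

namespace Pool.Agent.Lib.MP_c052b4_al.CT

open MulAction SimpleGraph
open Pool.Agent.Lib.MP_c052b4_al.MT

universe u

private theorem j02_count {V : Type u} {T : SimpleGraph V} (hT : T.IsTree) (s : Finset V) {v u : V}
    (h : T.Adj v u) (hle : ∑ w ∈ s, T.dist v w ≤ ∑ w ∈ s, T.dist u w) :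
    2 * (s.filter (fun w => T.dist w v = T.dist w u + 1)).card ≤ s.card := by
  classical
  have h1 : ∑ w ∈ s, (T.dist u w + if T.dist w v = T.dist w u + 1 then 2 else 0) =
      ∑ w ∈ s, (T.dist v w + 1) := by
    refine Finset.sum_congr rfl fun w _ => ?_
    have h2 := hT.dist_eq_dist_add_one_of_adj w h
    rw [dist_comm (u := u) (v := w), dist_comm (u := v) (v := w)]
    split_ifs with h3 <;> omega
  rw [Finset.sum_add_distrib, Finset.sum_add_distrib, ← Finset.sum_filter, Finset.sum_const,
    Finset.sum_const] at h1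
  simp only [smul_eq_mul, mul_one] at h1
  omega

private theorem j02_adj {V : Type u} {T : SimpleGraph V} (hT : T.IsTree) {s : Finset V}
    (hs : Conn T s) {v v' : V} (hv : v ∈ s) (hv' : v' ∈ s) (hne : v ≠ v')
    (h1 : ∀ u ∈ s, ∑ w ∈ s, T.dist v w ≤ ∑ w ∈ s, T.dist u w)
    (h2 : ∀ u ∈ s, ∑ w ∈ s, T.dist v' w ≤ ∑ w ∈ s, T.dist u w) : T.Adj v v' := by
  classical
  obtain ⟨u, hvu, hu⟩ := exists_closer hT v' hne
  obtain ⟨u', hvu', hu'⟩ := exists_closer hT v hne.symm
  by_contra hadj
  have huv' : u ≠ v' := by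
    rintro rfl
    exact hadj hvu
  have hmem : v' ∈ side T v u := by
    rw [mem_side]
    omega
  have hmem' : v ∈ side T v' u' := by
    rw [mem_side]
    omega
  have hus : u ∈ s := (hs.cross hT hvu hv hv' left_not_mem_side hmem).2
  have hus' : u' ∈ s := (hs.cross hT hvu' hv' hv left_not_mem_side hmem').2
  have hu2 : u ∈ side T v' u' := by
    by_contra h
    obtain ⟨_, h4⟩ := side_cross hT hvu' hvu hmem' h
    exact huv' h4
  have hsub : side T u v ⊆ side T v' u' := by
    refine side_subset hT hvu' hvu.symm hu2 ?_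
    rw [mem_side] at hmem ⊢
    omega
  have c1 := j02_count hT s hvu (h1 u hus)
  have c2 := j02_count hT s hvu' (h2 u' hus')
  have c3 : s.card + 1 ≤ (s.filter (fun w => T.dist w v = T.dist w u + 1)).card +
      (s.filter (fun w => T.dist w v' = T.dist w u' + 1)).card := by
    rw [← Finset.card_union_add_card_inter]
    refine add_le_add (Finset.card_le_card fun w hw => ?_) ?_
    · rw [Finset.mem_union, Finset.mem_filter, Finset.mem_filter]
      rcases hT.dist_eq_dist_add_one_of_adj w hvu with h3 | h3
      · exact Or.inl ⟨hw, h3⟩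
      · refine Or.inr ⟨hw, ?_⟩
        have h4 : w ∈ side T u v := by
          rw [mem_side]
          omega
        have h5 := hsub h4
        rw [mem_side] at h5
        have h6 := hT.dist_eq_dist_add_one_of_adj w hvu'
        omega
    · rw [Nat.one_le_iff_ne_zero, ← Nat.pos_iff_ne_zero, Finset.card_pos]
      refine ⟨u, ?_⟩
      rw [Finset.mem_inter, Finset.mem_filter, Finset.mem_filter]
      rw [mem_side] at hu2
      have h6 := hT.dist_eq_dist_add_one_of_adj u hvu'
      have h7 := hT.dist_eq_dist_add_one_of_adj u hvu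
      have h8 : T.dist u u = 0 := dist_self
      refine ⟨⟨hus, ?_⟩, hus, ?_⟩ <;> omega
  omega

/-- **A group of automorphisms of a finite subtree fixes a vertex of it.**
Proof: let `d = A.graph.dist` and `f v = ∑ w ∈ s, d v w`. For `g` with `g • s = s` one has
`f (g • v) = f v` (`dist_smul`, the bijection `w ↦ g • w` of `s`). Let `v ∈ s` minimize `f` on `s`.
* If `v₁` has two different neighbours `v₀`, `v₂` then `d v₀ w + d v₂ w ≥ 2 * d v₁ w` for all `w`:
  adjacent vertices have distances to `w` which differ by exactly `1`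
  (`IsTree.dist_eq_dist_add_one_of_adj`), and at most one neighbour is closer to `w`
  (`closer_unique`). For `w = v₁` the inequality is strict. So `f v₀ + f v₂ > 2 * f v₁` if `v₁ ∈ s`.
* Two vertices `v`, `v'` of `s` which minimize `f` are equal or adjacent: otherwise let
  `x₀ = v, x₁, …, xₙ = v'`, `n ≥ 2`, be a shortest path. Its vertices are in `s` (`s` is a subtree:
  `Conn.cross`, or: the path between two vertices of a connected subset of a tree is unique, so it
  stays in the subset). Let `i` be an index between `0` and `n` where `f (xᵢ)` is maximal, interior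
  if possible. If all values are equal take `i = 1`; in each case `f (xᵢ₋₁) + f (xᵢ₊₁) ≤ 2 f (xᵢ)` for
  an interior `i`, a contradiction. (Or: induction along the path shows that `f` strictly increases
  from the first step on where it does not decrease.)
* So for `g` with `g • s = s` the vertex `g • v` is `v` or adjacent to `v`. If `v` is the only minimizer
  it is fixed by all `g`. Otherwise there are exactly two minimizers `v, v'`, adjacent (three pairwise
  adjacent vertices do not exist in a tree), and `g` permutes them; `g • v = v'`, `g • v' = v` is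
  impossible by `A.no_inversion`, so `g • v = v`. -/
theorem exists_fixed_group {G : Type u} [Group G] {V : Type u} [MulAction G V]
    (A : TreeAction G V) (s : STree A) : ∃ x ∈ s.1, ∀ g : G, g • s = s → g • x = x := by
  classical
  have hT := A.tree
  obtain ⟨v, hv, hmin⟩ := s.1.exists_min_image (fun x => ∑ w ∈ s.1, A.graph.dist x w) s.2.1
  refine ⟨v, hv, fun g hg => ?_⟩
  have hmem : ∀ x, g • x ∈ s.1 ↔ x ∈ s.1 := by
    intro x
    have h1 : g • x ∈ (g • s).1 ↔ x ∈ s.1 := STree.smul_mem_smul
    rwa [hg] at h1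
  have hf : ∀ x, ∑ w ∈ s.1, A.graph.dist (g • x) w = ∑ w ∈ s.1, A.graph.dist x w := by
    intro x
    refine (Finset.sum_bij (fun w _ => g • w) ?_ ?_ ?_ ?_).symm
    · intro w hw
      exact (hmem w).2 hw
    · intro w _ w' _ h
      exact MulAction.injective g h
    · intro w hw
      refine ⟨g⁻¹ • w, ?_, smul_inv_smul g w⟩
      rw [← hmem, smul_inv_smul]
      exact hw
    · intro w _
      exact (dist_smul A g x w).symm
  have hmin1 : ∀ u ∈ s.1, ∑ w ∈ s.1, A.graph.dist (g • v) w ≤ ∑ w ∈ s.1, A.graph.dist u w := by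
    intro u hu
    rw [hf]
    exact hmin u hu
  have hmin2 : ∀ u ∈ s.1, ∑ w ∈ s.1, A.graph.dist (g • g • v) w ≤ ∑ w ∈ s.1, A.graph.dist u w := by
    intro u hu
    rw [hf, hf]
    exact hmin u hu
  have hv1 : g • v ∈ s.1 := (hmem v).2 hv
  have hv2 : g • g • v ∈ s.1 := (hmem _).2 hv1
  by_contra hne
  have hne' : v ≠ g • v := fun h => hne h.symm
  have a1 : A.graph.Adj v (g • v) := j02_adj hT s.2.2 hv hv1 hne' hmin hmin1
  have a2 : A.graph.Adj (g • v) (g • g • v) := A.adj_smul g _ _ a1
  have hne2 : g • g • v ≠ v := A.no_inversion g v (g • v) a1 rfl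
  have a3 : A.graph.Adj v (g • g • v) := j02_adj hT s.2.2 hv hv2 hne2.symm hmin hmin2
  have e1 := hT.dist_eq_dist_add_one_of_adj v a2
  have e2 : A.graph.dist v (g • v) = 1 := SimpleGraph.dist_eq_one_iff_adj.2 a1
  have e3 : A.graph.dist v (g • g • v) = 1 := SimpleGraph.dist_eq_one_iff_adj.2 a3
  omega

end Pool.Agent.Lib.MP_c052b4_al.CT
end

section

/-!
# Descent to a finitely generated ring
-/

set_option autoImplicit false

namespace Pool.Agent.Lib.MP_c052b4_al.JK

open MvPolynomial

universe u v

variable {R : Type u} {S : Type v} [CommRing R] [CommRing S]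

private theorem rga1_bc (φ : R →+* S) (σ : PAut S) (f : Fin 2 → MvPolynomial (Fin 2) R)
    (hf : ∀ v, map φ (f v) = σ (X v)) (p : MvPolynomial (Fin 2) R) :
    map φ (aeval f p) = σ (map φ p) := by
  have h1 : bcHom φ (aeval f) = (σ : MvPolynomial (Fin 2) S →ₐ[S] MvPolynomial (Fin 2) S) := by
    apply MvPolynomial.algHom_ext
    intro i
    rw [bcHom_X, aeval_X, hf]
    rfl
  rw [← bcHom_map, h1]
  rfl

/-- Proof: choose preimages `f v` of `σ (X v)` and `g v` of `σ⁻¹ (X v)`; `aeval f` and `aeval g` are
inverse to each other because `map φ` is injective and their base changes (`bcHom_X`) are `σ`,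
`σ⁻¹`; `AlgEquiv.ofAlgHom`. -/
theorem mem_range_bc (φ : R →+* S) (hφ : Function.Injective φ) (σ : PAut S)
    (h : ∀ v, ∃ q, map φ q = σ (X v)) (h' : ∀ v, ∃ q, map φ q = σ⁻¹ (X v)) :
    σ ∈ (bc φ).range := by
  choose f hf using h
  choose g hg using h'
  have h1 : (aeval f).comp (aeval g) = AlgHom.id R (MvPolynomial (Fin 2) R) := by
    apply MvPolynomial.algHom_ext
    intro i
    apply map_injective φ hφ
    rw [AlgHom.comp_apply, aeval_X, rga1_bc φ σ f hf, hg, AlgHom.id_apply, map_X]
    exact AlgEquiv.apply_symm_apply σ (X i)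
  have h2 : (aeval g).comp (aeval f) = AlgHom.id R (MvPolynomial (Fin 2) R) := by
    apply MvPolynomial.algHom_ext
    intro i
    apply map_injective φ hφ
    rw [AlgHom.comp_apply, aeval_X, rga1_bc φ σ⁻¹ g hg, hf, AlgHom.id_apply, map_X]
    exact AlgEquiv.symm_apply_apply σ (X i)
  refine ⟨AlgEquiv.ofAlgHom (aeval f) (aeval g) h1 h2, ?_⟩
  refine paut_ext fun v => ?_
  rw [bc_X, ← hf v]
  show map φ (aeval f (X v)) = _
  rw [aeval_X]

end Pool.Agent.Lib.MP_c052b4_al.JK
end

section

/-!
# Descent to a finitely generated ring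
-/

set_option autoImplicit false

namespace Pool.Agent.Lib.MP_c052b4_al.JK

open MvPolynomial

universe u v

variable {R : Type u} {S : Type v} [CommRing R] [CommRing S]

/-- Proof: let `T` be the finite set of all coefficients of `r g (X v)` and `(r g)⁻¹ (X v)`, `g` in a
finite generating set, and `A' = Algebra.adjoin ℤ T`. The preimage under `r` of the range of
`bc A'.val` is a subgroup which contains the generators (`mem_range_bc`;
`MvPolynomial.mem_range_map_iff_coeffs_subset` or `MvPolynomial.mem_map_range`: a polynomial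
with coefficients in `A'` comes from `A'[x, y]`), so it is everything. Compose `r` with the inverse
of the isomorphism of `PAut A'` onto the range (`MonoidHom.ofInjective (bc_injective ..)`). Compare
`MT/L/R01.lean` (`exists_fg_subring`, the same for matrices). -/
theorem exists_fg_ring {A : Type u} [CommRing A] {G : Type v} [Group G] [Group.FG G]
    (r : G →* PAut A) :
    ∃ (A' : Subalgebra ℤ A) (_ : Algebra.FiniteType ℤ A') (r' : G →* PAut A'),
      ∀ g, bc (A'.val : A' →+* A) (r' g) = r g := by
  classical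
  obtain ⟨S, hS⟩ := (Group.FG.out : (⊤ : Subgroup G).FG)
  let T : Set A := ⋃ g ∈ (S : Set G), ⋃ v : Fin 2,
    (((r g (X v)).coeffs : Set A) ∪ (((r g)⁻¹ (X v)).coeffs : Set A))
  have hT : T.Finite := by
    refine Set.Finite.biUnion S.finite_toSet fun g _ => Set.finite_iUnion fun v => ?_
    exact (Finset.finite_toSet _).union (Finset.finite_toSet _)
  have hfg : (Algebra.adjoin ℤ T).FG := by
    refine ⟨hT.toFinset, ?_⟩
    rw [Set.Finite.coe_toFinset]
  have hft : Algebra.FiniteType ℤ (Algebra.adjoin ℤ T) := (Subalgebra.fg_iff_finiteType _).mp hfg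
  have hinj : Function.Injective ((Algebra.adjoin ℤ T).val : Algebra.adjoin ℤ T →+* A) :=
    Subtype.val_injective
  have hcoef : ∀ p : MvPolynomial (Fin 2) A, (p.coeffs : Set A) ⊆ T →
      ∃ q, map ((Algebra.adjoin ℤ T).val : Algebra.adjoin ℤ T →+* A) q = p := by
    intro p hp
    have h1 : p ∈ Set.range (MvPolynomial.map (σ := Fin 2)
        ((Algebra.adjoin ℤ T).val : Algebra.adjoin ℤ T →+* A)) := by
      rw [mem_range_map_iff_coeffs_subset]
      intro a ha
      exact ⟨⟨a, Algebra.subset_adjoin (hp ha)⟩, rfl⟩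
    exact h1
  have hK : ((bc ((Algebra.adjoin ℤ T).val : Algebra.adjoin ℤ T →+* A)).range.comap r) = ⊤ := by
    rw [eq_top_iff, ← hS, Subgroup.closure_le]
    intro g hg
    refine mem_range_bc _ hinj (r g) (fun v => hcoef _ ?_) (fun v => hcoef _ ?_)
    · intro a ha
      simp only [T, Set.mem_iUnion]
      exact ⟨g, hg, v, Or.inl ha⟩
    · intro a ha
      simp only [T, Set.mem_iUnion]
      exact ⟨g, hg, v, Or.inr ha⟩
  have hmem : ∀ g, r g ∈ (bc ((Algebra.adjoin ℤ T).val : Algebra.adjoin ℤ T →+* A)).range := by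
    intro g
    have h1 : g ∈ ((bc ((Algebra.adjoin ℤ T).val : Algebra.adjoin ℤ T →+* A)).range.comap r) := by
      rw [hK]
      exact Subgroup.mem_top g
    exact h1
  refine ⟨Algebra.adjoin ℤ T, hft,
    ((MonoidHom.ofInjective (bc_injective _ hinj)).symm.toMonoidHom).comp
      (r.codRestrict _ hmem), fun g => ?_⟩
  have h2 := MulEquiv.apply_symm_apply (MonoidHom.ofInjective (bc_injective _ hinj))
    (r.codRestrict _ hmem g)
  have h3 := congrArg Subtype.val h2
  rw [MonoidHom.ofInjective_apply] at h3
  exact h3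

end Pool.Agent.Lib.MP_c052b4_al.JK
end
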