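import Pool.Agent.Lib.MP_c052b4_al.Mg.G052
import Pool.Agent.Lib.MP_c052b4_al.Mg.G053
import Pool.Agent.Lib.MP_c052b4_al.Mg.G021
import Pool.Agent.Lib.MP_c052b4_al.Mg.G039
import Pool.Agent.Lib.MP_c052b4_al.Mg.G013
import Pool.Agent.Lib.MP_c052b4_al.Mg.G050
import Pool.Agent.Lib.MP_c052b4_al.Mg.G055
import Pool.Agent.Lib.MP_c052b4_al.LK.F4
import Pool.Agent.Lib.MP_c052b4_al.Mg.G040

section

/-!
# Coherent trees, H01: the top lemma
-/

set_option autoImplicit false
set_option linter.unusedVariables false
set_option linter.unusedSectionVars false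

namespace Pool.Agent.Lib.MP_c052b4_al.CT

open CategoryTheory Opposite Limits
open Pool.Agent.Lib.MP_c052b4_al.MT

universe u

variable {G : Type u} [Group G] {L : Lbl G}

/-- The conditions on the labels and the coefficients. -/
structure CohL (S : Type u) [Ring S] {G : Type u} [Group G] (L : Lbl G) : Prop where
  ord : OrdL L
  coh : ∀ y : L.W, RegCoh (CR S y)
  surj : ∀ y : L.W, KSurj S (MulAction.stabilizer G y)

/-- the zero functor is acyclic -/
private theorem h01_ac_zero {S : Type u} [Ring S] {G : Type u} [Group G] {L L' : Lbl G}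
    {p : LblHom L L'} (d : TreeDir p) (N : AA S L) (hN : IsZero N) : d.Ac S N := by
  intro x
  have h1 : IsZero ((d.CE S x).obj N) := Functor.map_isZero _ hN
  have h2 : IsZero ((d.CV S x).obj N) := Functor.map_isZero _ hN
  have h3 : Subsingleton ((d.CE S x).obj N) := ModuleCat.subsingleton_of_isZero h1
  have h4 : Subsingleton ((d.CV S x).obj N) := ModuleCat.subsingleton_of_isZero h2
  exact ⟨fun a b _ => Subsingleton.elim (α := (d.CE S x).obj N) a b,
    fun b => ⟨0, Subsingleton.elim (α := (d.CV S x).obj N) _ _⟩⟩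

/-- the homology of an object in degree `0` -/
private theorem h01_homology {S : Type u} [Ring S] {G : Type u} [Group G] {L L' : Lbl G}
    {p : LblHom L L'} (d : TreeDir p) (N : AA S L) (hN : d.Ac S N) (q : ℤ) :
    d.Ac S ((DerivedCategory.homologyFunctor _ q).obj
      ((DerivedCategory.singleFunctor _ 0).obj N)) := by
  by_cases hq : q = 0
  · subst hq
    exact (d.Ac S).prop_of_iso
      ((DerivedCategory.singleFunctorCompHomologyFunctorIso (AA S L) 0).app N).symm hN
  · refine h01_ac_zero d _ ?_
    have h1 := HomologicalComplex.isZero_single_obj_homology (ComplexShape.up ℤ) 0 N q hq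
    exact h1.of_iso ((DerivedCategory.homologyFunctorFactors (AA S L) q).app
      ((CochainComplex.singleFunctor (AA S L) 0).obj N))

/-- As `MT.ld_single` (H03; same proof with `sa_fpc`; copy the private lemmas). -/
theorem ld_single' {R : Type u} [Ring R] (hL : CohL (Polynomial R) L) {ι : Type} {L' : ι → Lbl G}
    {p : ∀ i, LblHom L (L' i)}
    (d : ∀ i, TreeDir (p i)) (M : AA (LaurentPolynomial R) L) (N : AA (Polynomial R) L)
    (j : N ⟶ (MT.rho L (lz R)).obj M) (hN : FPc _ L N) (hN' : ∀ i, (d i).Ac _ N)
    (hj : (Tors L (Polynomial.X : Polynomial R)).isoModSerre j) :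
    LD R p ((DerivedCategory.singleFunctor _ 0).obj M) := by
  obtain ⟨Y, hY, ⟨e⟩⟩ := sa_fpc hL.ord hL.coh hL.surj N hN
  have hYd : Dom _ L Y := str_le_dom _ hY
  refine ⟨Y, ⟨hYd, fun i => ?_⟩, loc_single Y hYd N e M j hj⟩
  rw [TreeDir.isZero_iff (d i) hYd]
  intro q
  exact ((d i).Ac _).prop_of_iso
    ((DerivedCategory.homologyFunctor _ q).mapIso e).symm (h01_homology (d i) N (hN' i) q)

/-- As `MT.top_lemma` (H04; same proof with `exists_lattice'` and `ld_single'`). -/
theorem top_lemma' {R : Type u} [Ring R] (hL : CohL (Polynomial R) L) {ι : Type}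
    {L' : ι → Lbl G} {p : ∀ i, LblHom L (L' i)}
    (d : ∀ i, TreeDir (p i)) (X : KV (LaurentPolynomial R) L) (hX : DomZ _ p X)
    (Y : KV (Polynomial R) L) (hY : DomZ _ p Y) (r : Retract X ((lK R L).obj Y)) :
    ∃ X' : KV (Polynomial R) L, DomZ _ p X' ∧ Nonempty ((lK R L).obj X' ≅ X) := by
  have hb := bounded_EV hX.1
  have h : LD R p ((EV (LaurentPolynomial R) L).obj X) := by
    refine prop_of_homology (LD R p) _ hb (fun q => ?_)
    obtain ⟨N, j, hN1, hN2, hj⟩ := exists_lattice' hL.ord hL.coh d Y hY X hX r q
    exact ld_single' hL d _ N j hN1 hN2 hj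
  obtain ⟨X', hX', ⟨e⟩⟩ := h
  obtain ⟨e', _⟩ := iso_of_EV (dom_kR _ hX'.1) hX.1 e
  exact ⟨X', hX', ⟨e'⟩⟩

/-- As `MT.str_of_dom` (H05; same proof with `fpc_homology` and `sa_fpc`). -/
theorem str_of_dom' {S : Type u} [Ring S] (hL : CohL S L) {X : KV S L} (hX : Dom S L X) :
    Str S L X := by
  have hb := bounded_EV hX
  have hh := fpc_homology hL.ord hL.coh hX
  have h : SD S L ((EV S L).obj X) :=
    prop_of_homology (SD S L) _ hb (fun q => sa_fpc hL.ord hL.coh hL.surj _ (hh q))
  obtain ⟨X', hX', ⟨e⟩⟩ := h
  obtain ⟨e', _⟩ := iso_of_EV (str_le_dom _ hX') hX e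
  exact (Str S L).prop_of_iso e' hX'

end Pool.Agent.Lib.MP_c052b4_al.CT
end

section

/-!
# Coherent trees, H02: sections 1 to 5
-/

set_option autoImplicit false
set_option linter.unusedVariables false
set_option linter.unusedSectionVars false

namespace Pool.Agent.Lib.MP_c052b4_al.CT

open CategoryTheory Opposite Limits
open Pool.Agent.Lib.MP_c052b4_al.MT

universe u

variable {G : Type u} [Group G]

/-- As `MT.topSt` (MT/Glue.lean). -/
theorem topSt' {D : Type} {Ys : D → Dir G} [Finite D] (R : Type u) [Ring R]
    (hL : CohL (Polynomial R) (UL Ys Set.univ))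
    (d : ∀ b, TreeDir (subHom Ys (A := Set.univ) (A' := Set.univ \ {b}) Set.sdiff_subset)) :
    TopSt Ys R := by
  intro B X hX
  obtain ⟨L0, hFF, hDB, ⟨Rt⟩⟩ := RL hX
  obtain ⟨X', hX', ⟨e⟩⟩ := top_lemma' (ι := B) (L' := fun b : B => UL Ys (Set.univ \ {b.1})) hL
    (p := fun b : B => subHom Ys (A := Set.univ) (A' := Set.univ \ {b.1}) Set.sdiff_subset)
    (fun b => d b.1) X ⟨hX.1, fun b => hX.2 b.1 b.2⟩ L0 ⟨hDB.1, fun b => hDB.2 b.1 b.2⟩ Rt
  exact ⟨X', ⟨hX'.1, fun b hb => hX'.2 ⟨b, hb⟩⟩, ⟨e⟩⟩

/-- As `MT.descend_reg` (MT/Glue.lean). -/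
theorem descend_reg' {D : Type} {Ys : D → Dir G} [Finite D] (P : ∀ (R : Type u) [Ring R], Prop)
    (hP : ∀ (R : Type u) [Ring R], P R → P (LaurentPolynomial R))
    (hR : ∀ (R : Type u) [Ring R], P R → CohL (Polynomial R) (UL Ys Set.univ))
    (d : ∀ b, TreeDir (subHom Ys (A := Set.univ) (A' := Set.univ \ {b}) Set.sdiff_subset))
    (A : Set D) (R : Type u) [Ring R] (h : P R) : Pst Ys A R :=
  descend P hP (fun R _ h => topSt' R (hR R h) d) A R h

/-- Sections 1 to 5 (as `MT.sec6Data_trees`, MT/S14.lean). -/
theorem sec6Data' {J : Type} [Finite J] [DecidableEq J] {V : J → Type u}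
    [∀ a, MulAction G (V a)] (T : ∀ a, TreeAction G (V a))
    (hL : ∀ (R : Type u) [Ring R], IsRegularRing R →
      CohL R (UL (fun a => dirOf (T a)) Set.univ)) {R : Type u} [Ring R]
    (hR : IsRegularRing R) (a0 : J) : Sec6Data R (fun a => dirOf (T a)) a0 := by
  intro X hX
  obtain ⟨C, hC, ⟨e⟩⟩ := descend_reg' (Ys := fun a => dirOf (T a))
    (fun R _ => IsRegularRing R) (fun R _ h => h.laurentPolynomial)
    (fun R _ h => hL _ h.polynomial) (fun b => treeDir T b) {a0} R hR {a0} subset_rfl X hX
  obtain ⟨E, ε, hE, hεε, hεs, s, r, hsr, hrs⟩ := str_of_dom' (hL R hR) hC.1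
  refine ⟨E, ε, hE, hεε, fun n i j g hg => hεs n i j g hg, ⟨e.inv ≫ (kL R _).map s,
    (kL R _).map r ≫ e.hom, ?_, ?_⟩, ?_⟩
  · rw [Category.assoc, ← Category.assoc ((kL R _).map s), ← Functor.map_comp, hsr,
      CategoryTheory.Functor.map_id, Category.id_comp, e.inv_hom_id]
  · rw [Category.assoc, e.hom_inv_id_assoc, ← Functor.map_comp, hrs]
  · have h1 : (kL R (subHom (fun a => dirOf (T a)) (A := Set.univ) (A' := Set.univ \ {a0})
        Set.sdiff_subset)).map (r ≫ s) = 0 := by
      rw [Functor.map_comp, (hC.2 a0 rfl).eq_zero_of_tgt ((kL R _).map r), zero_comp]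
    rw [← hrs]
    exact h1

end Pool.Agent.Lib.MP_c052b4_al.CT
end

section

/-!
# Coherent trees, J03: stabilizers of labels of products of trees
-/

set_option autoImplicit false
set_option linter.unusedVariables false
set_option linter.unusedSectionVars false

namespace Pool.Agent.Lib.MP_c052b4_al.CT

open MulAction
open Pool.Agent.Lib.MP_c052b4_al.MT

universe u

open Pool.Agent.Lib.MP_c052b4_al.LK

/-- Hereditary classes of groups with regular coherent group rings for which the assembly map is
bijective. -/
structure HerP (P : ∀ (H : Type u) [Group H], Prop) : Prop where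
  sub : ∀ {G H : Type u} [Group G] [Group H] (f : H →* G), Function.Injective f → P G → P H
  coh : ∀ {H : Type u} [Group H], P H → RegCohGroup.{u} H
  hb : ∀ {H : Type u} [Group H], P H → HB.{u} H

variable {P : ∀ (H : Type u) [Group H], Prop} {G : Type u} [Group G] {J : Type}
  {V : J → Type u} [∀ a, MulAction G (V a)]

/-- The stabilizer of a label is contained in a common stabilizer of vertices: choose the vertices by
`exists_fixed_group`. -/
theorem exists_cst (T : ∀ a, TreeAction G (V a)) (y : (UL (fun a => dirOf (T a)) Set.univ).W) :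
    ∃ x : ∀ a, V a, stabilizer G y ≤ cst G x := by
  have h : ∀ a, ∃ x : V a, ∀ g : G,
      g • ((y : ∀ a, (dirOf (T a)).Y) a : STree (T a)) =
        ((y : ∀ a, (dirOf (T a)).Y) a : STree (T a)) → g • x = x := fun a => by
    obtain ⟨x, _, hx⟩ := exists_fixed_group (T a) ((y : ∀ a, (dirOf (T a)).Y) a : STree (T a))
    exact ⟨x, hx⟩
  choose x hx using h
  refine ⟨x, fun g hg a => hx a g ?_⟩
  have h1 : g • y = y := hg
  exact congrFun h1 a

/-- Proof: `ordL_tree`; the stabilizers of the labels are in `P` (`exists_cst`, `HerP.sub` for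
`Subgroup.inclusion`), so `HerP.coh` and `(HerP.hb _).onto.kSurj`. -/
theorem cohL_tree [Finite J] (hP : HerP P) (T : ∀ a, TreeAction G (V a))
    (hx : ∀ x : ∀ a, V a, P (cst G x)) (R : Type u) [Ring R] (hR : IsRegularRing R) :
    CohL R (UL (fun a => dirOf (T a)) Set.univ) := by
  have h : ∀ y : (UL (fun a => dirOf (T a)) Set.univ).W, P (stabilizer G y) := by
    intro y
    obtain ⟨x, hxy⟩ := exists_cst T y
    exact hP.sub (Subgroup.inclusion hxy) (Subgroup.inclusion_injective hxy) (hx x)
  exact ⟨ordL_tree T, fun y => hP.coh (h y) R hR, fun y => (hP.hb (h y)).onto.kSurj hR⟩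

end Pool.Agent.Lib.MP_c052b4_al.CT
end

section

/-!
# Coherent trees, J04: surjectivity for products of trees
-/

set_option autoImplicit false
set_option linter.unusedVariables false
set_option linter.unusedSectionVars false

namespace Pool.Agent.Lib.MP_c052b4_al.CT

open MulAction
open Pool.Agent.Lib.MP_c052b4_al.MT

universe u

open Pool.Agent.Lib.MP_c052b4_al.LK

theorem j04_tree {P : ∀ (H : Type u) [Group H], Prop} (hP : HerP P) (G : Type u) [Group G]
    (V : Type u) [MulAction G V] (T : TreeAction G V) (h : ∀ v : V, P (stabilizer G v)) :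
    HK.{u} G := by
  have h2 : ∀ x y : V, P ↥(stabilizer G x ⊓ stabilizer G y) := fun x y =>
    hP.sub (Subgroup.inclusion (inf_le_left : stabilizer G x ⊓ stabilizer G y ≤ stabilizer G x))
      (Subgroup.inclusion_injective _) (h x)
  exact hk_of_tree T (fun v => (hP.hb (h v)).onto) fun x y _ =>
    ⟨(hP.hb (h2 x y)).onto, fun R _ hR => (hP.coh (h2 x y) R hR).dpr⟩

theorem j04_emb {P : ∀ (H : Type u) [Group H], Prop} (hP : HerP P) {G H : Type u} [Group G]
    [Group H] {K : Subgroup G} (hK : P K) (f : H →* G) (hf : Function.Injective f)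
    (h : ∀ x, f x ∈ K) : P H := by
  refine hP.sub (f.codRestrict K h) (fun x y hxy => hf ?_) hK
  exact congrArg Subtype.val hxy

/-- the extended family of vertices -/
noncomputable def j04_ext {J : Type} {V : J → Type u} (a0 : J) (v : V a0)
    (x : ∀ a : {a // a ≠ a0}, V a.1) : ∀ a, V a := by
  classical
  exact fun a => if h : a = a0 then cast (congrArg V h.symm) v else x ⟨a, h⟩

theorem j04_mem {G : Type u} [Group G] {J : Type} {V : J → Type u} [∀ a, MulAction G (V a)]
    (a0 : J) (v : V a0) (x : ∀ a : {a // a ≠ a0}, V a.1) {g : G} (hv : g • v = v)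
    (hx : ∀ a : {a // a ≠ a0}, g • x a = x a) : g ∈ cst G (j04_ext a0 v x) := by
  intro a
  unfold j04_ext
  by_cases h : a = a0
  · subst h
    simp only [dif_pos]
    exact hv
  · simp only [dif_neg h]
    exact hx ⟨a, h⟩

/-- **Surjectivity.** Induction on the number of trees, as `MT.hk_of_free_trees_aux` (MT/S15.lean):
* no tree: `cst G x = ⊤`, so `P G` (`HerP.sub`, `Subgroup.topEquiv`) and `HerP.hb`;
* one tree (`∀ a, a = a0`): `hk_of_tree (T a0)`: vertex stabilizers are common stabilizers; edge
  stabilizers are in `P` by `HerP.sub`, `RegCoh.dpr` gives `HD`;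
* otherwise `imA1_top_of_data` with `sec6Data'` and `cohL_tree`. The two kinds of stabilizers: the
  stabilizer `H` of a label `y` in the direction `a0` fixes a vertex `v` of `y` (`exists_fixed_group`), and
  acts on the other trees; a common stabilizer for `H` embeds into the common stabilizer of `G` for the
  family extended by `v`. The stabilizer `H` of a label in the other directions acts on the tree `V a0`
  with vertex stabilizers which embed into common stabilizers of `G` (choose fixed vertices in the other
  directions); use the case of one tree for `H`. -/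
theorem hk_of_trees_aux {P : ∀ (H : Type u) [Group H], Prop} (hP : HerP P) (n : ℕ) :
    ∀ (G : Type u) [Group G] (J : Type) [Finite J] (_ : Nat.card J = n) (V : J → Type u)
    [∀ a, MulAction G (V a)] (_ : ∀ a, TreeAction G (V a))
    (_ : ∀ x : ∀ a, V a, P (cst G x)), HK.{u} G := by
  classical
  induction n with
  | zero =>
    intro G _ J _ hJ V _ T hx
    have hJ0 : IsEmpty J := by
      rw [Finite.card_eq_zero_iff] at hJ
      exact hJ
    have h1 : P (cst G (fun a : J => (isEmptyElim a : V a))) := hx _
    exact (hP.hb (j04_emb hP h1 (MonoidHom.id G) Function.injective_id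
      fun g a => isEmptyElim a)).onto
  | succ n ih =>
    intro G _ J _ hJ V _ T hx
    have hne : Nonempty J := by
      by_contra h
      rw [not_nonempty_iff] at h
      rw [Nat.card_of_isEmpty] at hJ
      omega
    obtain ⟨a0⟩ := hne
    by_cases h1 : ∀ a : J, a = a0
    · refine j04_tree hP G (V a0) (T a0) fun v => ?_
      refine j04_emb hP (hx (j04_ext a0 v fun a => absurd (h1 a.1) a.2)) (stabilizer G v).subtype
        (Subgroup.subtype_injective _) fun g => ?_
      exact j04_mem a0 v _ g.2 fun a => absurd (h1 a.1) a.2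
    intro R _ hR
    have _ : Fintype J := Fintype.ofFinite J
    have hcard : Nat.card {a // a ≠ a0} = n := by
      have h2 : Nat.card {a // a ≠ a0} + 1 = Nat.card J := by
        rw [Nat.card_eq_fintype_card, Nat.card_eq_fintype_card, Fintype.card_subtype_compl,
          Fintype.card_subtype_eq]
        have : 0 < Fintype.card J := Fintype.card_pos_iff.2 ⟨a0⟩
        omega
      omega
    refine imA1_top_of_data (R := R) (fun a => dirOf (T a)) a0
      (fun a y => ((STree.card (y : STree (T a)) : ℕ) : ℤ)) (fun a g y => ?_) (fun a x y h => ?_)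
      (fun a x y h h' => ?_) (fun y => ?_) (fun y => ?_) (fun K hK => dom_of_FFc hK)
      (sec6Data' T (fun R _ hR => cohL_tree hP T hx R hR) hR a0)
    · exact congrArg Nat.cast (STree.card_smul g (y : STree (T a)))
    · exact Int.ofNat_le.2 (STree.card_mono h)
    · exact STree.eq_of_le_of_card h (le_of_eq (Int.ofNat_inj.1 h').symm)
    · let H : Subgroup G := stabilizer G y
      let _ : ∀ a : {a // a ≠ a0}, MulAction H (V a.1) := fun a =>
        MulAction.compHom (V a.1) H.subtype
      refine ih H {a // a ≠ a0} hcard (fun a => V a.1) (fun a => (T a.1).comp H.subtype) ?_ R hR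
      intro x
      obtain ⟨v, _, hv⟩ := exists_fixed_group (T a0) (y : STree (T a0))
      refine j04_emb hP (hx (j04_ext a0 v x)) (H.subtype.comp (cst H x).subtype)
        ((Subgroup.subtype_injective _).comp (Subgroup.subtype_injective _)) fun g => ?_
      exact j04_mem a0 v x (hv _ g.1.2) fun a => g.2 a
    · let H : Subgroup G := stabilizer G y
      let _ : MulAction H (V a0) := MulAction.compHom (V a0) H.subtype
      refine j04_tree hP H (V a0) ((T a0).comp H.subtype) (fun v => ?_) R hR
      choose w _ hw using fun a : {a // a ≠ a0} => exists_fixed_group (T a.1) (y a : STree (T a.1))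
      refine j04_emb hP (hx (j04_ext a0 v w)) (H.subtype.comp (stabilizer H v).subtype)
        ((Subgroup.subtype_injective _).comp (Subgroup.subtype_injective _)) fun g => ?_
      exact j04_mem a0 v w g.2 fun a => hw a _ (congrFun g.1.2 a)

end Pool.Agent.Lib.MP_c052b4_al.CT
end

section

/-!
# Coherent trees, J05: bijectivity for products of trees
-/

set_option autoImplicit false
set_option linter.unusedVariables false
set_option linter.unusedSectionVars false

namespace Pool.Agent.Lib.MP_c052b4_al.CT

open MulAction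
open Pool.Agent.Lib.MP_c052b4_al.MT

universe u

open Pool.Agent.Lib.MP_c052b4_al.LK

/-- **Bijectivity.** Induction on the number of trees, as `LK.hb_of_free_trees_aux` (LK/F7.lean):
`HB.of_tree` for the tree `a0`; vertex stabilizers act on the other trees, edge stabilizers on all
trees (`hk_of_trees_aux`; all common stabilizers embed into those of `G`). Start: `HerP.hb`. -/
theorem hb_of_trees_aux {P : ∀ (H : Type u) [Group H], Prop} (hP : HerP P) (n : ℕ) :
    ∀ (G : Type u) [Group G] (J : Type) [Finite J] (_ : Nat.card J = n) (V : J → Type u)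
    [∀ a, MulAction G (V a)] (_ : ∀ a, TreeAction G (V a))
    (_ : ∀ x : ∀ a, V a, P (cst G x)), HB.{u} G := by
  classical
  induction n with
  | zero =>
    intro G _ J _ hJ V _ T hx
    have hJ0 : IsEmpty J := by
      rw [Finite.card_eq_zero_iff] at hJ
      exact hJ
    let x0 : ∀ a, V a := fun a => isEmptyElim a
    let f : G →* cst G x0 :=
      { toFun := fun g => ⟨g, fun a => isEmptyElim a⟩
        map_one' := rfl
        map_mul' := fun _ _ => rfl }
    exact hP.hb (hP.sub f (fun a b h => congrArg Subtype.val h) (hx x0))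
  | succ n ih =>
    intro G _ J _ hJ V _ T hx
    have hne : Nonempty J := by
      by_contra h
      rw [not_nonempty_iff] at h
      rw [Nat.card_of_isEmpty] at hJ
      omega
    obtain ⟨a0⟩ := hne
    have _ : Fintype J := Fintype.ofFinite J
    have hcard : Nat.card {a // a ≠ a0} = n := by
      have h2 : Nat.card {a // a ≠ a0} + 1 = Nat.card J := by
        rw [Nat.card_eq_fintype_card, Nat.card_eq_fintype_card, Fintype.card_subtype_compl,
          Fintype.card_subtype_eq]
        have : 0 < Fintype.card J := Fintype.card_pos_iff.2 ⟨a0⟩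
        omega
      omega
    refine HB.of_tree (hk_of_trees_aux hP (n + 1) G J hJ V T hx) (T a0) (fun v => ?_)
      fun v w _ => ?_
    · let H : Subgroup G := stabilizer G v
      let _ : ∀ a : {a // a ≠ a0}, MulAction H (V a.1) := fun a =>
        MulAction.compHom (V a.1) H.subtype
      refine ih H {a // a ≠ a0} hcard (fun a => V a.1) (fun a => (T a.1).comp H.subtype) ?_
      intro x
      let x' : ∀ a, V a := fun a => if h : a = a0 then h ▸ v else x ⟨a, h⟩
      have hx' : ∀ g : cst H x, ∀ a, (g : H).1 • x' a = x' a := by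
        intro g a
        by_cases h : a = a0
        · subst h
          have e : x' a = v := by
            simp only [x', dif_pos]
          rw [e]
          exact (g : H).2
        · have e : x' a = x ⟨a, h⟩ := by
            simp only [x', dif_neg h]
          rw [e]
          exact g.2 ⟨a, h⟩
      let f : cst H x →* cst G x' :=
        { toFun := fun g => ⟨(g : H).1, hx' g⟩
          map_one' := rfl
          map_mul' := fun _ _ => rfl }
      exact hP.sub f (fun a b h => Subtype.ext (Subtype.ext
        (congrArg (fun z : cst G x' => (z : G)) h))) (hx x')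
    · let H : Subgroup G := stabilizer G v ⊓ stabilizer G w
      let _ : ∀ a : J, MulAction H (V a) := fun a => MulAction.compHom (V a) H.subtype
      refine hk_of_trees_aux hP (n + 1) H J hJ V (fun a => (T a).comp H.subtype) fun x => ?_
      let f : cst H x →* cst G x :=
        { toFun := fun g => ⟨(g : H).1, fun a => g.2 a⟩
          map_one' := rfl
          map_mul' := fun _ _ => rfl }
      exact hP.sub f (fun a b h => Subtype.ext (Subtype.ext
        (congrArg (fun z : cst G x => (z : G)) h))) (hx x)

/-- The main theorem on products of trees. If there are no vertices in one of the trees there is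
nothing to show (trees are nonempty). -/
theorem hb_of_hasTrees' {P : ∀ (H : Type u) [Group H], Prop} (hP : HerP P) {G : Type u} [Group G]
    {S : Set G} (h : MT.L.HasTrees.{u, u} G S)
    (hS : ∀ C : Subgroup G, (∀ g ∈ C, g ∈ S) → P C) : HB.{u} G := by
  obtain ⟨ι, _, V, act, hT, hfree⟩ := h
  exact @hb_of_trees_aux P hP (Nat.card ι) G _ ι _ rfl V act (fun i => (hT i).some) fun x =>
    hS _ fun g hg => hfree g fun a => ⟨x a, hg a⟩

end Pool.Agent.Lib.MP_c052b4_al.CT
end
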