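import Mathlib
import Pool.Agent.Lib.MP_c052b4_al.Mg.G009
import Pool.Agent.Lib.MP_c052b4_al.TR.TreeAct

section

/-!
# Coherent trees, N01: fields with a rational place
-/

set_option autoImplicit false
set_option linter.unusedVariables false
set_option linter.unusedSectionVars false

namespace Pool.Agent.Lib.MP_c052b4_al.CT

open Matrix

universe u

/-- A field with a place with values in the rational numbers. -/
def RatPlace (F : Type u) [Field F] : Prop :=
  ∃ O : ValuationSubring F, Nonempty (O →+* ℚ)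

/-- A place may be assumed to be local: the elements with nonzero value are units.
Proof: let `π₀ : O₀ →+* ℚ`, `P = ker π₀` (a prime ideal, as `O₀ / P` embeds into `ℚ`),
`O = O₀.ofPrime P`; `O` is the localization of `O₀` at `P` (`ValuationSubring.ofPrime`,
instance `IsLocalization.AtPrime`), so `π₀` extends to `O` (`IsLocalization.lift`), and the kernel of the
extension is the maximal ideal. (Or by hand: `O = {x | ∃ a b ∈ O₀, π₀ b ≠ 0, x * b = a}`.) -/
theorem exists_local_place {F : Type u} [Field F] (h : RatPlace F) :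
    ∃ (O : ValuationSubring F) (π : O →+* ℚ), ∀ x : O, π x ≠ 0 → (x : F)⁻¹ ∈ O := by
  obtain ⟨O₀, ⟨π₀⟩⟩ := h
  have hP : (RingHom.ker π₀).IsPrime := RingHom.ker_isPrime π₀
  have hu : ∀ y : (RingHom.ker π₀).primeCompl, IsUnit (π₀ y) := fun y =>
    isUnit_iff_ne_zero.2 fun h => y.2 h
  let π : O₀.ofPrime (RingHom.ker π₀) →+* ℚ :=
    IsLocalization.lift (M := (RingHom.ker π₀).primeCompl) hu
  have hπ : ∀ a : O₀, π (algebraMap O₀ (O₀.ofPrime (RingHom.ker π₀)) a) = π₀ a := fun a =>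
    IsLocalization.lift_eq (M := (RingHom.ker π₀).primeCompl) hu a
  refine ⟨O₀.ofPrime (RingHom.ker π₀), π, fun x hx => ?_⟩
  obtain ⟨⟨a, s⟩, e⟩ := IsLocalization.surj (RingHom.ker π₀).primeCompl x
  have ha : π₀ a ≠ 0 := by
    rw [← hπ a, ← e, map_mul, hπ]
    exact mul_ne_zero hx (hu s).ne_zero
  have hau : IsUnit (algebraMap O₀ (O₀.ofPrime (RingHom.ker π₀)) a) :=
    IsLocalization.map_units (O₀.ofPrime (RingHom.ker π₀)) (⟨a, ha⟩ : (RingHom.ker π₀).primeCompl)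
  have hxu : IsUnit x := by
    have h2 : IsUnit (x * algebraMap O₀ (O₀.ofPrime (RingHom.ker π₀)) s) := by
      rw [e]
      exact hau
    exact isUnit_of_mul_isUnit_left h2
  obtain ⟨v, hv⟩ := hxu.exists_right_inv
  have hv2 : (x : F) * (v : F) = 1 := by
    have h3 := congrArg (Subtype.val : _ → F) hv
    exact h3
  rw [inv_eq_of_mul_eq_one_right hv2]
  exact v.2

variable {F : Type u} [Field F] {O : ValuationSubring F} (π : O →+* ℚ)

include π in
/-- `F` has characteristic zero: `π n = n`. -/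
theorem charZero_of_place : CharZero F := by
  refine ⟨fun m n h => ?_⟩
  have h1 : ((m : O) : F) = ((n : O) : F) := by
    push_cast
    exact h
  have h2 : (m : O) = (n : O) := Subtype.ext h1
  have h3 := congrArg π h2
  rw [map_natCast, map_natCast] at h3
  exact_mod_cast h3

include π in
/-- **Integral elements are integers.**
Proof: `x ∈ O` (`O` is integrally closed in `F`; by hand: if `x ∉ O` then `x⁻¹ ∈ O` is in the maximal
ideal, and dividing the integral equation by `x ^ (n - 1)` gives `x ∈ O`). `π x` is rational and integral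
over `ℤ`, so it is an integer `n` (`IsIntegrallyClosed.isIntegral_iff`). `y = x - n` is integral over
`ℤ` with `π y = 0`. If `y ≠ 0` let `p` be a monic integral polynomial of minimal degree with `p(y) = 0`
(or `minpoly ℤ y`); its constant coefficient `c` is not zero (otherwise divide by `X`), and applying
`π` to the equation gives `c = 0`, a contradiction. -/
theorem int_of_isIntegral (x : F) (hx : IsIntegral ℤ x) : ∃ n : ℤ, x = n := by
  have h1 : IsIntegral O x := hx.tower_top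
  obtain ⟨y, rfl⟩ := IsIntegrallyClosed.isIntegral_iff.1 h1
  have hinj : Function.Injective (algebraMap O F) := Subtype.val_injective
  have h2 : IsIntegral ℤ y := (isIntegral_algebraMap_iff hinj).1 hx
  have h3 : IsIntegral ℤ (π y) := map_isIntegral_int π h2
  obtain ⟨n, hn⟩ := IsIntegrallyClosed.isIntegral_iff.1 h3
  refine ⟨n, ?_⟩
  have hn' : π y = n := by
    rw [← hn]
    rfl
  have hz : IsIntegral ℤ (y - (n : O)) := h2.sub (isIntegral_algebraMap (x := n))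
  have hz0 : π (y - (n : O)) = 0 := by
    rw [map_sub, map_intCast, hn', sub_self]
  by_cases hy : y - (n : O) = 0
  · have h5 : y = (n : O) := sub_eq_zero.1 hy
    rw [h5]
    exact map_intCast (algebraMap O F) n
  · exfalso
    have h6 : (minpoly ℤ (y - (n : O))).coeff 0 ≠ 0 := by
      intro h0
      obtain ⟨q, hq⟩ := Polynomial.X_dvd_iff.2 h0
      have hm : (minpoly ℤ (y - (n : O))).Monic := minpoly.monic hz
      have hqm : q.Monic := by
        rw [hq] at hm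
        exact Polynomial.Monic.of_mul_monic_left Polynomial.monic_X hm
      have hq0 : Polynomial.aeval (y - (n : O)) q = 0 := by
        have h9 := minpoly.aeval ℤ (y - (n : O))
        rw [hq, map_mul, Polynomial.aeval_X] at h9
        exact (mul_eq_zero.1 h9).resolve_left hy
      have h10 := minpoly.min ℤ (y - (n : O)) hqm hq0
      rw [hq, Polynomial.degree_mul, Polynomial.degree_X,
        Polynomial.degree_eq_natDegree hqm.ne_zero] at h10
      have h11 : (1 + q.natDegree : ℕ) ≤ q.natDegree := by exact_mod_cast h10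
      omega
    apply h6
    have h7 : Polynomial.aeval (π (y - (n : O))) (minpoly ℤ (y - (n : O))) = 0 := by
      have h8 := congrArg π (minpoly.aeval ℤ (y - (n : O)))
      rw [map_zero] at h8
      rw [← h8]
      exact Polynomial.aeval_algHom_apply π.toIntAlgHom (y - (n : O)) _
    rw [hz0, Polynomial.aeval_def, Polynomial.eval₂_at_zero, eq_intCast] at h7
    exact_mod_cast h7

include π in
theorem rat_mem_place (hO : ∀ x : O, π x ≠ 0 → (x : F)⁻¹ ∈ O) (q : ℚ) : ∃ x : O, π x = q ∧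
    ((q.den : F)) * x = q.num := by
  have hd : π (q.den : O) ≠ 0 := by
    rw [map_natCast]
    exact_mod_cast q.den_nz
  have hdi := hO _ hd
  have := charZero_of_place π
  have hdF : ((q.den : O) : F) ≠ 0 := by
    push_cast
    exact_mod_cast q.den_nz
  let d : O := ⟨((q.den : O) : F)⁻¹, hdi⟩
  have e1 : (q.den : O) * d = 1 := Subtype.ext (mul_inv_cancel₀ hdF)
  have e2 : (q.den : O) * (d * (q.num : O)) = (q.num : O) := by
    rw [← mul_assoc, e1, one_mul]
  refine ⟨d * (q.num : O), ?_, ?_⟩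
  · have e3 := congrArg π e2
    rw [map_mul, map_natCast, map_intCast] at e3
    have hq : (q.den : ℚ) ≠ 0 := by exact_mod_cast q.den_nz
    have h4 : (q.den : ℚ) * q = q.num := Rat.den_mul_eq_num q
    exact mul_left_cancel₀ hq (e3.trans h4.symm)
  · have e4 := congrArg (Subtype.val : O → F) e2
    have e5 : ((q.den : O) : F) * ((d * (q.num : O) : O) : F) = ((q.num : O) : F) := e4
    have e6 : ((q.den : O) : F) = (q.den : F) := map_natCast (algebraMap O F) _
    have e7 : ((q.num : O) : F) = (q.num : F) := map_intCast (algebraMap O F) _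
    rw [e6, e7] at e5
    exact e5

end Pool.Agent.Lib.MP_c052b4_al.CT
end

section

/-!
# Coherent trees, E01: the Farey tree: two finite groups
-/

set_option autoImplicit false
set_option linter.unusedVariables false
set_option linter.unusedSectionVars false

namespace Pool.Agent.Lib.MP_c052b4_al.CT

open Matrix

universe u

/-- The group. -/
abbrev GZ : Type := GL (Fin 2) ℤ

private theorem e01_inv {g : GZ} {A : Matrix (Fin 2) (Fin 2) ℤ}
    (hg : (g : Matrix (Fin 2) (Fin 2) ℤ)ᵀ * A * g = A) :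
    ((g⁻¹ : GZ) : Matrix (Fin 2) (Fin 2) ℤ)ᵀ * A * (g⁻¹ : GZ) = A := by
  have h1 : (g : Matrix (Fin 2) (Fin 2) ℤ) * (g⁻¹ : GZ) = 1 := g.mul_inv
  have h2 : ((g⁻¹ : GZ) : Matrix (Fin 2) (Fin 2) ℤ)ᵀ * (g : Matrix (Fin 2) (Fin 2) ℤ)ᵀ = 1 := by
    rw [← Matrix.transpose_mul, h1, Matrix.transpose_one]
  calc ((g⁻¹ : GZ) : Matrix (Fin 2) (Fin 2) ℤ)ᵀ * A * (g⁻¹ : GZ)
      = ((g⁻¹ : GZ) : Matrix (Fin 2) (Fin 2) ℤ)ᵀ *
        ((g : Matrix (Fin 2) (Fin 2) ℤ)ᵀ * A * g) * (g⁻¹ : GZ) := by rw [hg]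
    _ = (((g⁻¹ : GZ) : Matrix (Fin 2) (Fin 2) ℤ)ᵀ * (g : Matrix (Fin 2) (Fin 2) ℤ)ᵀ) * A *
        ((g : Matrix (Fin 2) (Fin 2) ℤ) * (g⁻¹ : GZ)) := by
          simp only [Matrix.mul_assoc]
    _ = A := by rw [h1, h2, Matrix.one_mul, Matrix.mul_one]

/-- The orthogonal group of the square lattice. -/
def FA : Subgroup GZ where
  carrier := {g | (g : Matrix (Fin 2) (Fin 2) ℤ)ᵀ * g = 1}
  mul_mem' {g h} hg hh := by
    change ((g * h : GZ) : Matrix (Fin 2) (Fin 2) ℤ)ᵀ * (g * h : GZ) = 1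
    rw [Units.val_mul, Matrix.transpose_mul, Matrix.mul_assoc,
      ← Matrix.mul_assoc (g : Matrix (Fin 2) (Fin 2) ℤ)ᵀ, hg, Matrix.one_mul, hh]
  one_mem' := by simp
  inv_mem' {g} hg := by
    have h1 : (g : Matrix (Fin 2) (Fin 2) ℤ)ᵀ * 1 * g = 1 := by
      rw [Matrix.mul_one]
      exact hg
    have h2 := e01_inv h1
    rw [Matrix.mul_one] at h2
    exact h2

/-- The Gram matrix of the hexagonal lattice. -/
def hexM : Matrix (Fin 2) (Fin 2) ℤ := !![2, -1; -1, 2]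

/-- The orthogonal group of the hexagonal lattice. -/
def FB : Subgroup GZ where
  carrier := {g | (g : Matrix (Fin 2) (Fin 2) ℤ)ᵀ * hexM * g = hexM}
  mul_mem' {g h} hg hh := by
    change ((g * h : GZ) : Matrix (Fin 2) (Fin 2) ℤ)ᵀ * hexM * (g * h : GZ) = hexM
    have hg' : (g : Matrix (Fin 2) (Fin 2) ℤ)ᵀ * hexM * g = hexM := hg
    have hh' : (h : Matrix (Fin 2) (Fin 2) ℤ)ᵀ * hexM * h = hexM := hh
    rw [Units.val_mul, Matrix.transpose_mul]
    calc (h : Matrix (Fin 2) (Fin 2) ℤ)ᵀ * (g : Matrix (Fin 2) (Fin 2) ℤ)ᵀ * hexM *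
          ((g : Matrix (Fin 2) (Fin 2) ℤ) * (h : Matrix (Fin 2) (Fin 2) ℤ))
        = (h : Matrix (Fin 2) (Fin 2) ℤ)ᵀ *
          ((g : Matrix (Fin 2) (Fin 2) ℤ)ᵀ * hexM * g) * h := by
            simp only [Matrix.mul_assoc]
      _ = hexM := by rw [hg', hh']
  one_mem' := by simp
  inv_mem' {g} hg := e01_inv hg

theorem mem_FA {g : GZ} : g ∈ FA ↔ g 0 0 ^ 2 + g 1 0 ^ 2 = 1 ∧ g 0 1 ^ 2 + g 1 1 ^ 2 = 1 ∧
    g 0 0 * g 0 1 + g 1 0 * g 1 1 = 0 := by
  change (g : Matrix (Fin 2) (Fin 2) ℤ)ᵀ * (g : Matrix (Fin 2) (Fin 2) ℤ) = 1 ↔ _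
  rw [← Matrix.ext_iff]
  simp only [Fin.forall_fin_two, Matrix.mul_apply, Fin.sum_univ_two, Matrix.transpose_apply,
    Matrix.one_apply_eq, ne_eq, zero_ne_one, one_ne_zero, not_false_eq_true, Matrix.one_apply_ne]
  constructor
  · rintro ⟨⟨h1, h2⟩, h3, h4⟩
    exact ⟨by linear_combination h1, by linear_combination h4, by linear_combination h2⟩
  · rintro ⟨h1, h2, h3⟩
    exact ⟨⟨by linear_combination h1, by linear_combination h3⟩, by linear_combination h3,
      by linear_combination h2⟩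

theorem mem_FB {g : GZ} : g ∈ FB ↔ g 0 0 ^ 2 - g 0 0 * g 1 0 + g 1 0 ^ 2 = 1 ∧
    g 0 1 ^ 2 - g 0 1 * g 1 1 + g 1 1 ^ 2 = 1 ∧
    2 * g 0 0 * g 0 1 - g 0 0 * g 1 1 - g 1 0 * g 0 1 + 2 * g 1 0 * g 1 1 = -1 := by
  change (g : Matrix (Fin 2) (Fin 2) ℤ)ᵀ * hexM * (g : Matrix (Fin 2) (Fin 2) ℤ) = hexM ↔ _
  rw [← Matrix.ext_iff]
  simp only [Fin.forall_fin_two, Matrix.mul_apply, Fin.sum_univ_two, Matrix.transpose_apply,
    hexM, Matrix.of_apply, Matrix.cons_val', Matrix.cons_val_zero, Matrix.cons_val_one,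
    Matrix.cons_val_fin_one]
  constructor
  · rintro ⟨⟨h1, h2⟩, h3, h4⟩
    exact ⟨by linarith, by linarith, by linarith⟩
  · rintro ⟨h1, h2, h3⟩
    exact ⟨⟨by linarith, by linarith⟩, by linarith, by linarith⟩

private theorem e01_fin (F : Subgroup GZ) (h : ∀ g ∈ F, ∀ i j, -1 ≤ g i j ∧ g i j ≤ 1) :
    Finite F := by
  have h1 : Function.Injective (fun (g : F) (i j : Fin 2) =>
      (⟨(g : GZ) i j, Set.mem_Icc.2 (h g g.2 i j)⟩ : Set.Icc (-1 : ℤ) 1)) := by
    intro g g' hgg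
    apply Subtype.ext
    apply Units.ext
    ext i j
    have h2 := congrFun (congrFun hgg i) j
    exact congrArg Subtype.val h2
  exact Finite.of_injective _ h1

/-- The entries are in `{-1, 0, 1}`. -/
theorem finite_FA : Finite FA := by
  refine e01_fin FA fun g hg i j => ?_
  obtain ⟨h1, h2, h3⟩ := mem_FA.1 hg
  have h4 : ∀ a b : ℤ, a ^ 2 + b ^ 2 = 1 → (-1 ≤ a ∧ a ≤ 1) ∧ (-1 ≤ b ∧ b ≤ 1) := by
    intro a b hab
    refine ⟨⟨?_, ?_⟩, ?_, ?_⟩ <;> nlinarith [sq_nonneg a, sq_nonneg b]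
  fin_cases i <;> fin_cases j
  · exact (h4 _ _ h1).1
  · exact (h4 _ _ h2).1
  · exact (h4 _ _ h1).2
  · exact (h4 _ _ h2).2

/-- The entries are in `{-1, 0, 1}` (`4 (x² - x y + y²) = (2 x - y)² + 3 y²`). -/
theorem finite_FB : Finite FB := by
  refine e01_fin FB fun g hg i j => ?_
  obtain ⟨h1, h2, h3⟩ := mem_FB.1 hg
  have h4 : ∀ a b : ℤ, a ^ 2 - a * b + b ^ 2 = 1 →
      (-1 ≤ a ∧ a ≤ 1) ∧ (-1 ≤ b ∧ b ≤ 1) := by
    intro a b hab
    refine ⟨⟨?_, ?_⟩, ?_, ?_⟩ <;>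
      nlinarith [sq_nonneg (2 * a - b), sq_nonneg (2 * b - a), sq_nonneg a, sq_nonneg b]
  fin_cases i <;> fin_cases j
  · exact (h4 _ _ h1).1
  · exact (h4 _ _ h2).1
  · exact (h4 _ _ h1).2
  · exact (h4 _ _ h2).2

theorem det_sq (g : GZ) : (g 0 0 * g 1 1 - g 0 1 * g 1 0) ^ 2 = 1 := by
  have h1 : IsUnit (g : Matrix (Fin 2) (Fin 2) ℤ).det :=
    (Matrix.isUnit_iff_isUnit_det _).1 g.isUnit
  rw [Matrix.det_fin_two] at h1
  rcases Int.isUnit_iff.1 h1 with h2 | h2
  · rw [h2, one_pow]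
  · rw [h2, neg_one_sq]

end Pool.Agent.Lib.MP_c052b4_al.CT
end

section

/-!
# Coherent trees, E02: the Farey tree: the rank
-/

set_option autoImplicit false
set_option linter.unusedVariables false
set_option linter.unusedSectionVars false

namespace Pool.Agent.Lib.MP_c052b4_al.CT

open Matrix

universe u

/-- The sum of the squares of the columns. -/
def nA (g : GZ) : ℤ := g 0 0 ^ 2 + g 0 1 ^ 2 + g 1 0 ^ 2 + g 1 1 ^ 2

/-- The scalar product of the columns. -/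
def sp (g : GZ) : ℤ := g 0 0 * g 0 1 + g 1 0 * g 1 1

/-- The sum of the squares of the three vectors of the superbasis. -/
def nB (g : GZ) : ℤ := 2 * nA g + 2 * sp g

private theorem e02_mul_apply (g a : GZ) (i j : Fin 2) :
    (g * a) i j = g i 0 * a 0 j + g i 1 * a 1 j := by
  rw [Units.val_mul, Matrix.mul_apply, Fin.sum_univ_two]

private theorem e02_sp_mul (g a : GZ) : sp (g * a) = a 0 0 * a 0 1 * (g 0 0 ^ 2 + g 1 0 ^ 2) +
    (a 0 0 * a 1 1 + a 1 0 * a 0 1) * sp g + a 1 0 * a 1 1 * (g 0 1 ^ 2 + g 1 1 ^ 2) := by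
  simp only [sp, e02_mul_apply]
  ring

private theorem e02_bd {p r : ℤ} (h : p ^ 2 + r ^ 2 = 1) : -1 ≤ p ∧ p ≤ 1 ∧ -1 ≤ r ∧ r ≤ 1 := by
  refine ⟨?_, ?_, ?_, ?_⟩ <;> nlinarith [sq_nonneg p, sq_nonneg r]

private theorem e02_bd2 {p r : ℤ} (h : p ^ 2 - p * r + r ^ 2 = 1) :
    -1 ≤ p ∧ p ≤ 1 ∧ -1 ≤ r ∧ r ≤ 1 := by
  refine ⟨?_, ?_, ?_, ?_⟩ <;> nlinarith [sq_nonneg (2 * p - r), sq_nonneg (2 * r - p)]

private theorem e02_casesA (p q r s : ℤ) (h1 : p ^ 2 + r ^ 2 = 1) (h2 : q ^ 2 + s ^ 2 = 1)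
    (h3 : p * q + r * s = 0) :
    p * q = 0 ∧ r * s = 0 ∧ p * r = 0 ∧ q * s = 0 ∧ p ^ 2 + q ^ 2 = 1 ∧ r ^ 2 + s ^ 2 = 1 ∧
      (p * s + r * q = 1 ∨ p * s + r * q = -1) := by
  obtain ⟨a1, a2, a3, a4⟩ := e02_bd h1
  obtain ⟨b1, b2, b3, b4⟩ := e02_bd h2
  interval_cases p <;> interval_cases r <;> simp at h1 <;> interval_cases q <;>
    interval_cases s <;> simp at h2 h3 ⊢

private theorem e02_casesB (p q r s : ℤ) (h1 : p ^ 2 - p * r + r ^ 2 = 1)
    (h2 : q ^ 2 - q * s + s ^ 2 = 1)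
    (h3 : 2 * p * q - p * s - r * q + 2 * r * s = -1) :
    (p = 1 ∧ r = 0 ∧ q = 0 ∧ s = 1) ∨ (p = 1 ∧ r = 0 ∧ q = -1 ∧ s = -1) ∨
    (p = -1 ∧ r = 0 ∧ q = 0 ∧ s = -1) ∨ (p = -1 ∧ r = 0 ∧ q = 1 ∧ s = 1) ∨
    (p = 0 ∧ r = 1 ∧ q = 1 ∧ s = 0) ∨ (p = 0 ∧ r = 1 ∧ q = -1 ∧ s = -1) ∨
    (p = 0 ∧ r = -1 ∧ q = -1 ∧ s = 0) ∨ (p = 0 ∧ r = -1 ∧ q = 1 ∧ s = 1) ∨
    (p = 1 ∧ r = 1 ∧ q = -1 ∧ s = 0) ∨ (p = 1 ∧ r = 1 ∧ q = 0 ∧ s = -1) ∨
    (p = -1 ∧ r = -1 ∧ q = 1 ∧ s = 0) ∨ (p = -1 ∧ r = -1 ∧ q = 0 ∧ s = 1) := by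
  obtain ⟨a1, a2, a3, a4⟩ := e02_bd2 h1
  obtain ⟨b1, b2, b3, b4⟩ := e02_bd2 h2
  interval_cases p <;> interval_cases r <;> simp at h1 <;> interval_cases q <;>
    interval_cases s <;> simp at h2 h3 ⊢

/-- The columns are not zero. -/
private theorem e02_col (g : GZ) : 0 < g 0 0 ^ 2 + g 1 0 ^ 2 ∧ 0 < g 0 1 ^ 2 + g 1 1 ^ 2 := by
  have hd := det_sq g
  constructor
  · by_contra h
    have h1 : g 0 0 = 0 := by nlinarith [sq_nonneg (g 0 0), sq_nonneg (g 1 0)]
    have h2 : g 1 0 = 0 := by nlinarith [sq_nonneg (g 0 0), sq_nonneg (g 1 0)]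
    rw [h1, h2] at hd
    simp at hd
  · by_contra h
    have h1 : g 0 1 = 0 := by nlinarith [sq_nonneg (g 0 1), sq_nonneg (g 1 1)]
    have h2 : g 1 1 = 0 := by nlinarith [sq_nonneg (g 0 1), sq_nonneg (g 1 1)]
    rw [h1, h2] at hd
    simp at hd

/-- The product of the squares of the columns. -/
private theorem e02_prod (g : GZ) :
    (g 0 0 ^ 2 + g 1 0 ^ 2) * (g 0 1 ^ 2 + g 1 1 ^ 2) = sp g ^ 2 + 1 := by
  have hd := det_sq g
  simp only [sp]
  linear_combination hd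

private def e02_D : GZ := ⟨!![1, 0; 0, -1], !![1, 0; 0, -1], by decide, by decide⟩

private def e02_B1 : GZ := ⟨!![1, -1; 0, -1], !![1, -1; 0, -1], by decide, by decide⟩

private def e02_B2 : GZ := ⟨!![0, -1; 1, -1], !![-1, 1; -1, 0], by decide, by decide⟩

private theorem e02_D_mem : e02_D ∈ FA := mem_FA.2 (by decide)

private theorem e02_B1_mem : e02_B1 ∈ FB := mem_FB.2 (by decide)

private theorem e02_B2_mem : e02_B2 ∈ FB := mem_FB.2 (by decide)

private theorem e02_sp_D (g : GZ) : sp (g * e02_D) = - sp g := by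
  rw [e02_sp_mul]
  have h1 : e02_D 0 0 = 1 := rfl
  have h2 : e02_D 0 1 = 0 := rfl
  have h3 : e02_D 1 0 = 0 := rfl
  have h4 : e02_D 1 1 = -1 := rfl
  rw [h1, h2, h3, h4]
  ring

private theorem e02_sp_B1 (g : GZ) : sp (g * e02_B1) = - (g 0 0 ^ 2 + g 1 0 ^ 2) - sp g := by
  rw [e02_sp_mul]
  have h1 : e02_B1 0 0 = 1 := rfl
  have h2 : e02_B1 0 1 = -1 := rfl
  have h3 : e02_B1 1 0 = 0 := rfl
  have h4 : e02_B1 1 1 = -1 := rfl
  rw [h1, h2, h3, h4]
  ring

private theorem e02_sp_B2 (g : GZ) : sp (g * e02_B2) = - (g 0 1 ^ 2 + g 1 1 ^ 2) - sp g := by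
  rw [e02_sp_mul]
  have h1 : e02_B2 0 0 = 0 := rfl
  have h2 : e02_B2 0 1 = -1 := rfl
  have h3 : e02_B2 1 0 = 1 := rfl
  have h4 : e02_B2 1 1 = -1 := rfl
  rw [h1, h2, h3, h4]
  ring

theorem nA_nonneg (g : GZ) : 0 ≤ nA g := by
  unfold nA
  positivity

theorem nB_nonneg (g : GZ) : 0 ≤ nB g := by
  unfold nB nA sp
  nlinarith [sq_nonneg (g 0 0 + g 0 1), sq_nonneg (g 1 0 + g 1 1), sq_nonneg (g 0 0),
    sq_nonneg (g 0 1), sq_nonneg (g 1 0), sq_nonneg (g 1 1)]

/-- `nA g` is the trace of `gᵀ g`, and `a aᵀ = 1`. -/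
theorem nA_mul (g a : GZ) (ha : a ∈ FA) : nA (g * a) = nA g := by
  obtain ⟨h1, h2, h3⟩ := mem_FA.1 ha
  obtain ⟨-, -, h4, h5, h6, h7, -⟩ := e02_casesA _ _ _ _ h1 h2 h3
  simp only [nA, e02_mul_apply]
  linear_combination (g 0 0 ^ 2 + g 1 0 ^ 2) * h6 + (g 0 1 ^ 2 + g 1 1 ^ 2) * h7 +
    2 * (g 0 0 * g 0 1 + g 1 0 * g 1 1) * (h4 + h5)

/-- `nB g` is the trace of `gᵀ g N` with `N = !![2, 1; 1, 2]`, and `b N bᵀ = N` for `b ∈ FB`
(as `N` is three times the inverse of `hexM`; or by cases, or by computing with `mem_FB` and `det_sq`). -/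
theorem nB_mul (g b : GZ) (hb : b ∈ FB) : nB (g * b) = nB g := by
  obtain ⟨h1, h2, h3⟩ := mem_FB.1 hb
  have e1 : b 0 0 ^ 2 + b 0 0 * b 0 1 + b 0 1 ^ 2 = 1 ∧
      b 1 0 ^ 2 + b 1 0 * b 1 1 + b 1 1 ^ 2 = 1 ∧
      2 * b 0 0 * b 1 0 + b 0 0 * b 1 1 + b 0 1 * b 1 0 + 2 * b 0 1 * b 1 1 = 1 := by
    rcases e02_casesB _ _ _ _ h1 h2 h3 with h | h | h | h | h | h | h | h | h | h | h | h <;>
    · obtain ⟨a1, a2, a3, a4⟩ := h
      rw [a1, a2, a3, a4]
      norm_num
  obtain ⟨e1, e2, e3⟩ := e1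
  simp only [nB, nA, sp, e02_mul_apply]
  linear_combination 2 * (g 0 0 ^ 2 + g 1 0 ^ 2) * e1 + 2 * (g 0 1 ^ 2 + g 1 1 ^ 2) * e2 +
    2 * (g 0 0 * g 0 1 + g 1 0 * g 1 1) * e3

/-- Proof: `sp g < 0`: `a = 1`. `sp g > 0`: `a = diag (1, -1)`, `sp (g a) = - sp g`. `sp g = 0`: the product
of the squares of the columns is `sp² + det² = 1`, so `g ∈ FA`. -/
theorem exists_FA (g : GZ) : g ∈ FA ∨ ∃ a ∈ FA, nB (g * a) < 2 * nA g := by
  rcases lt_trichotomy (sp g) 0 with h | h | h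
  · refine Or.inr ⟨1, FA.one_mem, ?_⟩
    rw [mul_one]
    unfold nB
    linarith
  · left
    have h1 := e02_prod g
    obtain ⟨h2, h3⟩ := e02_col g
    rw [h] at h1
    have h4 : g 0 0 ^ 2 + g 1 0 ^ 2 = 1 := by nlinarith
    have h5 : g 0 1 ^ 2 + g 1 1 ^ 2 = 1 := by
      rw [h4] at h1
      linarith
    exact mem_FA.2 ⟨h4, h5, h⟩
  · refine Or.inr ⟨e02_D, e02_D_mem, ?_⟩
    have h1 : nB (g * e02_D) = 2 * nA (g * e02_D) + 2 * sp (g * e02_D) := rfl
    rw [h1, nA_mul g _ e02_D_mem, e02_sp_D]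
    linarith

/-- Proof: let `e, f` be the columns of `g`, `q` the square of a vector. `2 nA ≤ nB` means `0 ≤ sp`.
The matrices `!![1, -1; 0, -1]`, `!![0, -1; 1, -1]` are in `FB`, and change the columns to
`(e, -(e+f))`, `(f, -(e+f))` with scalar products `-q(e) - sp g`, `-q(f) - sp g`. If all three numbers are
negative then `q(e), q(f) ≥ 1 - sp g` and `q(e) q(f) ≥ (1 - sp g)² > (sp g)² + 1 = q(e) q(f)`. -/
theorem exists_FB (g : GZ) : ∃ b ∈ FB, 2 * nA (g * b) ≤ nB g := by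
  have key : ∀ b ∈ FB, 0 ≤ sp (g * b) → 2 * nA (g * b) ≤ nB g := fun b hb h => by
    rw [← nB_mul g b hb]
    unfold nB
    linarith
  by_cases h0 : 0 ≤ sp g
  · exact ⟨1, FB.one_mem, key 1 FB.one_mem (by rwa [mul_one])⟩
  by_cases h1 : 0 ≤ sp (g * e02_B1)
  · exact ⟨_, e02_B1_mem, key _ e02_B1_mem h1⟩
  by_cases h2 : 0 ≤ sp (g * e02_B2)
  · exact ⟨_, e02_B2_mem, key _ e02_B2_mem h2⟩
  exfalso
  rw [e02_sp_B1] at h1
  rw [e02_sp_B2] at h2
  have h3 := e02_prod g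
  have h4 : 1 - sp g ≤ g 0 0 ^ 2 + g 1 0 ^ 2 := by omega
  have h5 : 1 - sp g ≤ g 0 1 ^ 2 + g 1 1 ^ 2 := by omega
  have h6 : (1 - sp g) * (1 - sp g) ≤ sp g ^ 2 + 1 := by
    rw [← h3]
    exact mul_le_mul h4 h5 (by omega) (by omega)
  nlinarith

/-- Proof: `nB g₁ < 2 nA g₁` means `sp g₁ < 0`. The elements `a` of `FA` are the eight signed permutation
matrices; `sp (g₁ a) = ± sp g₁`, with the sign `+` exactly for the four elements in `FB`. -/
theorem farey_uniq_A (g₁ a : GZ) (ha : a ∈ FA) (h1 : nB g₁ < 2 * nA g₁)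
    (h2 : nB (g₁ * a) < 2 * nA g₁) : a ∈ FB := by
  obtain ⟨h3, h4, h5⟩ := mem_FA.1 ha
  obtain ⟨e1, e2, e3, e4, e5, e6, e7⟩ := e02_casesA _ _ _ _ h3 h4 h5
  have h6 := nA_mul g₁ a ha
  have h7 : nB (g₁ * a) = 2 * nA (g₁ * a) + 2 * sp (g₁ * a) := rfl
  have h8 : nB g₁ = 2 * nA g₁ + 2 * sp g₁ := rfl
  have h9 := e02_sp_mul g₁ a
  rw [e1, e2, zero_mul, zero_mul, zero_add, add_zero] at h9
  rcases e7 with e7 | e7
  · exact mem_FB.2 ⟨by linarith, by linarith, by linarith⟩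
  · exfalso
    rw [e7] at h9
    omega

/-- Proof: `2 nA g₁ ≤ nB g₁` means `0 ≤ sp g₁`, and `2 nA (g₁ b) ≤ nB g₁ = nB (g₁ b)` means
`0 ≤ sp (g₁ b)`. The columns of `b` are two of the six vectors
`± (1, 0), ± (0, 1), ± (1, 1)` with scalar product `-1` with respect to `hexM`. If one of the columns is
`± (1, 1)` then `sp (g₁ b)` is `-q(e) - sp g₁` or `-q(f) - sp g₁`, which is negative. So `b ∈ FA`. -/
theorem farey_uniq_B (g₁ b : GZ) (hb : b ∈ FB) (h1 : 2 * nA g₁ ≤ nB g₁)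
    (h2 : 2 * nA (g₁ * b) ≤ nB g₁) : b ∈ FA := by
  obtain ⟨h3, h4, h5⟩ := mem_FB.1 hb
  have h6 := nB_mul g₁ b hb
  have h7 : nB (g₁ * b) = 2 * nA (g₁ * b) + 2 * sp (g₁ * b) := rfl
  have h8 : nB g₁ = 2 * nA g₁ + 2 * sp g₁ := rfl
  have h9 := e02_sp_mul g₁ b
  obtain ⟨h10, h11⟩ := e02_col g₁
  have h12 : 0 ≤ sp g₁ := by omega
  have h13 : 0 ≤ sp (g₁ * b) := by omega
  rw [h9] at h13
  rcases e02_casesB _ _ _ _ h3 h4 h5 with h | h | h | h | h | h | h | h | h | h | h | h <;>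
  · obtain ⟨a1, a2, a3, a4⟩ := h
    rw [a1, a2, a3, a4] at h13
    first
      | (exfalso; linarith)
      | (exact mem_FA.2 (by rw [a1, a2, a3, a4]; norm_num))

end Pool.Agent.Lib.MP_c052b4_al.CT
end

section

/-!
# Coherent trees, E03: the Farey tree
-/

set_option autoImplicit false
set_option linter.unusedVariables false
set_option linter.unusedSectionVars false

namespace Pool.Agent.Lib.MP_c052b4_al.CT

open Matrix

universe u

/-- The vertices. -/
abbrev FV : Type := (GZ ⧸ FA) ⊕ (GZ ⧸ FB)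

/-- The graph. -/
def FGraph : SimpleGraph FV where
  Adj x y := ∃ g : GZ, (x = Sum.inl (g : GZ ⧸ FA) ∧ y = Sum.inr (g : GZ ⧸ FB)) ∨
    (x = Sum.inr (g : GZ ⧸ FB) ∧ y = Sum.inl (g : GZ ⧸ FA))
  symm := ⟨by
    rintro x y ⟨g, h | h⟩
    · exact ⟨g, Or.inr ⟨h.2, h.1⟩⟩
    · exact ⟨g, Or.inl ⟨h.2, h.1⟩⟩⟩
  loopless := ⟨by
    rintro x ⟨g, h | h⟩
    · exact Sum.inl_ne_inr (h.1.symm.trans h.2)
    · exact Sum.inl_ne_inr (h.2.symm.trans h.1)⟩

/-- The rank. -/
private noncomputable def e03_rk : FV → ℕ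
  | Sum.inl q => (4 * nA q.out).toNat
  | Sum.inr q => (2 * nB q.out + 1).toNat

private theorem e03_inl (g : GZ) : (e03_rk (Sum.inl (g : GZ ⧸ FA)) : ℤ) = 4 * nA g := by
  obtain ⟨a, ha⟩ := QuotientGroup.mk_out_eq_mul FA g
  change (((4 * nA (g : GZ ⧸ FA).out).toNat : ℕ) : ℤ) = _
  rw [ha, nA_mul g _ a.2]
  have := nA_nonneg g
  omega

private theorem e03_inr (g : GZ) : (e03_rk (Sum.inr (g : GZ ⧸ FB)) : ℤ) = 2 * nB g + 1 := by
  obtain ⟨a, ha⟩ := QuotientGroup.mk_out_eq_mul FB g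
  change (((2 * nB (g : GZ ⧸ FB).out + 1).toNat : ℕ) : ℤ) = _
  rw [ha, nB_mul g _ a.2]
  have := nB_nonneg g
  omega

private theorem e03_parent (x : FV) (hx : x ≠ Sum.inl ((1 : GZ) : GZ ⧸ FA)) :
    ∃ y, FGraph.Adj x y ∧ e03_rk y < e03_rk x := by
  rcases x with q | q
  · obtain ⟨g, rfl⟩ := QuotientGroup.mk_surjective q
    rcases exists_FA g with hg | ⟨a, ha, hlt⟩
    · exfalso
      apply hx
      congr 1
      rw [QuotientGroup.eq, mul_one]
      exact FA.inv_mem hg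
    · have hq : (g : GZ ⧸ FA) = ((g * a : GZ) : GZ ⧸ FA) :=
        (QuotientGroup.mk_mul_of_mem g ha).symm
      refine ⟨Sum.inr ((g * a : GZ) : GZ ⧸ FB), ⟨g * a, Or.inl ⟨?_, rfl⟩⟩, ?_⟩
      · exact congrArg Sum.inl hq
      · have e1 := e03_inl g
        have e2 := e03_inr (g * a)
        change e03_rk (Sum.inr ((g * a : GZ) : GZ ⧸ FB)) < e03_rk (Sum.inl (g : GZ ⧸ FA))
        omega
  · obtain ⟨g, rfl⟩ := QuotientGroup.mk_surjective q
    obtain ⟨t, ht, hle⟩ := exists_FB g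
    have hq : (g : GZ ⧸ FB) = ((g * t : GZ) : GZ ⧸ FB) :=
      (QuotientGroup.mk_mul_of_mem g ht).symm
    refine ⟨Sum.inl ((g * t : GZ) : GZ ⧸ FA), ⟨g * t, Or.inr ⟨?_, rfl⟩⟩, ?_⟩
    · exact congrArg Sum.inr hq
    · have e1 := e03_inr g
      have e2 := e03_inl (g * t)
      change e03_rk (Sum.inl ((g * t : GZ) : GZ ⧸ FA)) < e03_rk (Sum.inr (g : GZ ⧸ FB))
      omega

private theorem e03_uniq (x y z : FV) (hxy : FGraph.Adj x y) (hxz : FGraph.Adj x z)
    (hy : e03_rk y ≤ e03_rk x) (hz : e03_rk z ≤ e03_rk x) : y = z := by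
  obtain ⟨g₁, ⟨hx1, hy1⟩ | ⟨hx1, hy1⟩⟩ := hxy
  · obtain ⟨g₂, ⟨hx2, hz2⟩ | ⟨hx2, hz2⟩⟩ := hxz
    · have he : (g₁ : GZ ⧸ FA) = (g₂ : GZ ⧸ FA) := Sum.inl_injective (hx1.symm.trans hx2)
      have ha : g₁⁻¹ * g₂ ∈ FA := QuotientGroup.eq.1 he
      have hg : g₁ * (g₁⁻¹ * g₂) = g₂ := mul_inv_cancel_left g₁ g₂
      rw [hx1, hy1] at hy
      rw [hx1, hz2] at hz
      have e1 := e03_inl g₁
      have e2 := e03_inr g₁
      have e3 := e03_inr g₂
      have hT : g₁⁻¹ * g₂ ∈ FB := by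
        refine farey_uniq_A g₁ _ ha (by omega) ?_
        rw [hg]
        omega
      rw [hy1, hz2]
      congr 1
      exact QuotientGroup.eq.2 hT
    · exact (Sum.inl_ne_inr (hx1.symm.trans hx2)).elim
  · obtain ⟨g₂, ⟨hx2, hz2⟩ | ⟨hx2, hz2⟩⟩ := hxz
    · exact (Sum.inl_ne_inr (hx2.symm.trans hx1)).elim
    · have he : (g₁ : GZ ⧸ FB) = (g₂ : GZ ⧸ FB) := Sum.inr_injective (hx1.symm.trans hx2)
      have ht : g₁⁻¹ * g₂ ∈ FB := QuotientGroup.eq.1 he
      have hg : g₁ * (g₁⁻¹ * g₂) = g₂ := mul_inv_cancel_left g₁ g₂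
      rw [hx1, hy1] at hy
      rw [hx1, hz2] at hz
      have e1 := e03_inr g₁
      have e2 := e03_inl g₁
      have e3 := e03_inl g₂
      have hA : g₁⁻¹ * g₂ ∈ FA := by
        refine farey_uniq_B g₁ _ ht (by omega) ?_
        rw [hg]
        omega
      rw [hy1, hz2]
      congr 1
      exact QuotientGroup.eq.2 hA

/-- **The Farey tree.** Proof: `isTree_of_rank` with the rank `4 nA g` (as a natural number) on
`g FA` and `2 nB g + 1` on `g FB`; copy JK/Tree.lean (`rk_parent`, `rk_uniq`, `jgraph_isTree`) with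
`exists_FA`, `exists_FB`, `farey_uniq_A`, `farey_uniq_B`, `nA_mul`, `nB_mul`. -/
theorem fgraph_isTree : FGraph.IsTree :=
  JK.isTree_of_rank FGraph e03_rk (Sum.inl ((1 : GZ) : GZ ⧸ FA)) e03_parent e03_uniq

/-- The action. -/
def fTree : TreeAction GZ FV where
  graph := FGraph
  tree := fgraph_isTree
  adj_smul := by
    rintro g x y ⟨h, ⟨rfl, rfl⟩ | ⟨rfl, rfl⟩⟩
    · exact ⟨g * h, Or.inl ⟨rfl, rfl⟩⟩
    · exact ⟨g * h, Or.inr ⟨rfl, rfl⟩⟩
  no_inversion := by
    rintro g x y ⟨h, ⟨rfl, rfl⟩ | ⟨rfl, rfl⟩⟩ h1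
    · exact (Sum.inl_ne_inr h1).elim
    · exact (Sum.inl_ne_inr h1.symm).elim

/-- Stabilizers are conjugates of `FA`, `FB`. -/
theorem finite_fstab (x : FV) : Finite (MulAction.stabilizer GZ x) := by
  have key : ∀ (F : Subgroup GZ) (hF : Finite F) (g : GZ),
      (∀ h : MulAction.stabilizer GZ x, g⁻¹ * (h : GZ) * g ∈ F) →
      Finite (MulAction.stabilizer GZ x) := by
    intro F hF g h1
    refine Finite.of_injective (fun h : MulAction.stabilizer GZ x =>
      (⟨g⁻¹ * (h : GZ) * g, h1 h⟩ : F)) ?_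
    intro h h' he
    have h2 : g⁻¹ * (h : GZ) * g = g⁻¹ * (h' : GZ) * g := congrArg Subtype.val he
    exact Subtype.ext (mul_left_cancel (mul_right_cancel h2))
  rcases x with q | q
  · obtain ⟨g, rfl⟩ := QuotientGroup.mk_surjective q
    refine key FA finite_FA g fun h => ?_
    have h1 : (h : GZ) • (Sum.inl (g : GZ ⧸ FA) : FV) = Sum.inl (g : GZ ⧸ FA) := h.2
    have h2 : (((h : GZ) * g : GZ) : GZ ⧸ FA) = (g : GZ ⧸ FA) := Sum.inl_injective h1
    have h3 := QuotientGroup.eq.1 h2.symm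
    rwa [← mul_assoc] at h3
  · obtain ⟨g, rfl⟩ := QuotientGroup.mk_surjective q
    refine key FB finite_FB g fun h => ?_
    have h1 : (h : GZ) • (Sum.inr (g : GZ ⧸ FB) : FV) = Sum.inr (g : GZ ⧸ FB) := h.2
    have h2 : (((h : GZ) * g : GZ) : GZ ⧸ FB) = (g : GZ ⧸ FB) := Sum.inr_injective h1
    have h3 := QuotientGroup.eq.1 h2.symm
    rwa [← mul_assoc] at h3

end Pool.Agent.Lib.MP_c052b4_al.CT
end

section

/-!
# Coherent trees, N02: pairs of matrices
-/

set_option autoImplicit false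
set_option linter.unusedVariables false
set_option linter.unusedSectionVars false

namespace Pool.Agent.Lib.MP_c052b4_al.CT

open Matrix

universe u

variable {F : Type u} [Field F]

private theorem n02_par (v w : Fin 2 → F) (hv : v ≠ 0) (h : v 0 * w 1 = v 1 * w 0) :
    ∃ a : F, w = a • v := by
  by_cases h0 : v 0 = 0
  · have h1 : v 1 ≠ 0 := by
      intro h1
      apply hv
      funext i
      match i with
      | 0 => exact h0
      | 1 => exact h1
    refine ⟨w 1 / v 1, ?_⟩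
    rw [h0, zero_mul] at h
    have h2 : w 0 = 0 := (mul_eq_zero.1 h.symm).resolve_left h1
    funext i
    match i with
    | 0 =>
      change w 0 = w 1 / v 1 * v 0
      rw [h2, h0, mul_zero]
    | 1 =>
      change w 1 = w 1 / v 1 * v 1
      rw [div_mul_cancel₀ _ h1]
  · refine ⟨w 0 / v 0, ?_⟩
    funext i
    match i with
    | 0 =>
      change w 0 = w 0 / v 0 * v 0
      rw [div_mul_cancel₀ _ h0]
    | 1 =>
      change w 1 = w 0 / v 0 * v 1
      rw [div_mul_eq_mul_div, eq_div_iff h0, mul_comm (w 1), h, mul_comm]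

private theorem n02_col (g h : Matrix (Fin 2) (Fin 2) F) (h0 : (g * h - h * g).det = 0)
    (j : Fin 2) :
    (g * h - h * g) 0 j * (g.mulVec fun i => (g * h - h * g) i j) 1 =
      (g * h - h * g) 1 j * (g.mulVec fun i => (g * h - h * g) i j) 0 ∧
    (g * h - h * g) 0 j * (h.mulVec fun i => (g * h - h * g) i j) 1 =
      (g * h - h * g) 1 j * (h.mulVec fun i => (g * h - h * g) i j) 0 := by
  simp only [Matrix.det_fin_two, Matrix.sub_apply, Matrix.mul_apply, Fin.sum_univ_two] at h0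
  simp only [Matrix.mulVec, dotProduct, Matrix.sub_apply, Matrix.mul_apply, Fin.sum_univ_two]
  match j with
  | 0 => exact ⟨by linear_combination (-g 1 0) * h0, by linear_combination (-h 1 0) * h0⟩
  | 1 => exact ⟨by linear_combination (g 0 1) * h0, by linear_combination (h 0 1) * h0⟩

/-- A common eigenvector.
Proof: `N = g * h - h * g` has trace zero and determinant zero, so `N * N = 0` (Cayley-Hamilton for
`2 × 2` matrices: entrywise computation). Let `v` be a nonzero column of `N`; `N.mulVec v = 0`. There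
is a row vector `w` with `N = v wᵀ`, `w · v = 0`. As `trace (g * N) = 0` (`Matrix.trace_mul_comm`) we get
`w · (g v) = 0`, so `g v` is in the line `w^⊥ = F v`; the same for `h`. (By coordinates: `N = !![p, q; r, -p]`
with `p² + q r = 0`.) -/
theorem exists_eigen (g h : Matrix (Fin 2) (Fin 2) F) (h0 : (g * h - h * g).det = 0)
    (h1 : g * h ≠ h * g) : ∃ v : Fin 2 → F, v ≠ 0 ∧ (∃ a : F, g.mulVec v = a • v) ∧
      ∃ b : F, h.mulVec v = b • v := by
  obtain ⟨j, hj⟩ : ∃ j, (fun i => (g * h - h * g) i j) ≠ (0 : Fin 2 → F) := by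
    by_contra hc
    push Not at hc
    apply h1
    rw [← sub_eq_zero]
    ext i j
    exact congrFun (hc j) i
  obtain ⟨h2, h3⟩ := n02_col g h h0 j
  exact ⟨_, hj, n02_par _ _ hj h2, n02_par _ _ hj h3⟩

/-- Matrices with a common eigenvector and a double eigenvalue each commute.
Proof: `X = g - a`, `Y = h - b` have determinant and trace zero, so `X² = Y² = 0`, and `X v = Y v = 0`.
`X` and `Y` are of the form `v wᵀ`, `v w'ᵀ` with `w · v = w' · v = 0`, so `X Y = Y X = 0`. -/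
theorem comm_of_eigen [CharZero F] (g h : Matrix (Fin 2) (Fin 2) F) (v : Fin 2 → F) (hv : v ≠ 0)
    (a b : F) (ha : g.mulVec v = a • v) (hb : h.mulVec v = b • v) (hga : g.trace = 2 * a)
    (hgd : g.det = a ^ 2) (hhb : h.trace = 2 * b) (hhd : h.det = b ^ 2) : g * h = h * g := by
  have ha0 := congrFun ha 0
  have ha1 := congrFun ha 1
  have hb0 := congrFun hb 0
  have hb1 := congrFun hb 1
  simp only [Matrix.mulVec, dotProduct, Fin.sum_univ_two, Pi.smul_apply, smul_eq_mul] at ha0 ha1 hb0 hb1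
  rw [Matrix.trace_fin_two] at hga hhb
  have key : ∃ (t p q : F) (M : Matrix (Fin 2) (Fin 2) F), g = a • 1 + p • M ∧ h = b • 1 + q • M := by
    by_cases h0 : v 0 = 0
    · have h1 : v 1 ≠ 0 := by
        intro h1
        apply hv
        funext i
        match i with
        | 0 => exact h0
        | 1 => exact h1
      rw [h0] at ha0 ha1 hb0 hb1
      have e1 : g 0 1 = 0 := by
        have : g 0 1 * v 1 = 0 := by linear_combination ha0
        exact (mul_eq_zero.1 this).resolve_right h1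
      have e2 : g 1 1 = a := by
        have : (g 1 1 - a) * v 1 = 0 := by linear_combination ha1
        exact sub_eq_zero.1 ((mul_eq_zero.1 this).resolve_right h1)
      have e3 : h 0 1 = 0 := by
        have : h 0 1 * v 1 = 0 := by linear_combination hb0
        exact (mul_eq_zero.1 this).resolve_right h1
      have e4 : h 1 1 = b := by
        have : (h 1 1 - b) * v 1 = 0 := by linear_combination hb1
        exact sub_eq_zero.1 ((mul_eq_zero.1 this).resolve_right h1)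
      refine ⟨0, g 1 0, h 1 0, !![0, 0; 1, 0], ?_, ?_⟩
      · ext i j
        fin_cases i <;> fin_cases j <;> simp [e1, e2] <;> linear_combination hga - e2
      · ext i j
        fin_cases i <;> fin_cases j <;> simp [e3, e4] <;> linear_combination hhb - e4
    · have e1 : g 0 0 = a - g 0 1 * (v 1 / v 0) := by
        field_simp
        linear_combination ha0
      have e2 : g 1 0 = - g 0 1 * (v 1 / v 0) ^ 2 := by
        have e3 : g 1 1 = a + g 0 1 * (v 1 / v 0) := by linear_combination hga - e1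
        rw [e3] at ha1
        field_simp at ha1 ⊢
        linear_combination ha1
      have e3 : h 0 0 = b - h 0 1 * (v 1 / v 0) := by
        field_simp
        linear_combination hb0
      have e4 : h 1 0 = - h 0 1 * (v 1 / v 0) ^ 2 := by
        have e3 : h 1 1 = b + h 0 1 * (v 1 / v 0) := by linear_combination hhb - e3
        rw [e3] at hb1
        field_simp at hb1 ⊢
        linear_combination hb1
      refine ⟨v 1 / v 0, g 0 1, h 0 1, !![-(v 1 / v 0), 1; -(v 1 / v 0) ^ 2, v 1 / v 0], ?_, ?_⟩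
      · ext i j
        fin_cases i <;> fin_cases j <;> simp
        · linear_combination e1
        · linear_combination e2
        · linear_combination hga - e1
      · ext i j
        fin_cases i <;> fin_cases j <;> simp
        · linear_combination e3
        · linear_combination e4
        · linear_combination hhb - e3
  obtain ⟨t, p, q, M, rfl, rfl⟩ := key
  have hM : Commute (a • (1 : Matrix (Fin 2) (Fin 2) F) + p • M) (b • 1 + q • M) := by
    refine Commute.add_left ((Commute.one_left _).smul_left a) (Commute.add_right ?_ ?_)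
    · exact (Commute.one_right _).smul_right b
    · exact ((Commute.refl M).smul_left p).smul_right q
  exact hM

/-- The determinant of the commutator in terms of traces (entrywise, `ring`). -/
theorem det_comm_eq (g h : Matrix (Fin 2) (Fin 2) F) :
    (g * h - h * g).det = (g * g * (h * h)).trace - (g * h * (g * h)).trace := by
  simp only [Matrix.det_fin_two, Matrix.trace_fin_two, Matrix.sub_apply, Matrix.mul_apply,
    Fin.sum_univ_two]
  ring

/-- The four matrices. -/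
def bas (g h : Matrix (Fin 2) (Fin 2) F) : Fin 4 → Matrix (Fin 2) (Fin 2) F := ![1, g, h, g * h]

/-- The entries of the four matrices. -/
private def n02_E (g h : Matrix (Fin 2) (Fin 2) F) : Matrix (Fin 4) (Fin 4) F :=
  Matrix.of fun i => ![bas g h i 0 0, bas g h i 1 0, bas g h i 0 1, bas g h i 1 1]

private theorem n02_trace (g h X : Matrix (Fin 2) (Fin 2) F) (i : Fin 4) :
    (n02_E g h *ᵥ ![X 0 0, X 0 1, X 1 0, X 1 1]) i = (X * bas g h i).trace := by
  rw [Matrix.trace_fin_two, Matrix.mul_apply, Matrix.mul_apply, Fin.sum_univ_two,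
    Fin.sum_univ_two, Matrix.mulVec, dotProduct, Fin.sum_univ_four]
  change bas g h i 0 0 * X 0 0 + bas g h i 1 0 * X 0 1 + bas g h i 0 1 * X 1 0 +
    bas g h i 1 1 * X 1 1 = _
  ring

private theorem n02_zero (g h : Matrix (Fin 2) (Fin 2) F) (h0 : (g * h - h * g).det ≠ 0)
    (X : Matrix (Fin 2) (Fin 2) F) (hX : ∀ i, (X * bas g h i).trace = 0) : X = 0 := by
  have t0 : (X * 1).trace = 0 := hX 0
  have t1 : (X * g).trace = 0 := hX 1
  have t2 : (X * h).trace = 0 := hX 2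
  have t3 : (X * (g * h)).trace = 0 := hX 3
  rw [mul_one, Matrix.trace_fin_two] at t0
  rw [Matrix.trace_fin_two] at t1 t2 t3
  simp only [Matrix.mul_apply, Fin.sum_univ_two] at t1 t2 t3
  have hd : (g * h - h * g).det = (g 0 0 * h 0 0 + g 0 1 * h 1 0 - (h 0 0 * g 0 0 + h 0 1 * g 1 0)) *
      (g 1 0 * h 0 1 + g 1 1 * h 1 1 - (h 1 0 * g 0 1 + h 1 1 * g 1 1)) -
      (g 0 0 * h 0 1 + g 0 1 * h 1 1 - (h 0 0 * g 0 1 + h 0 1 * g 1 1)) *
      (g 1 0 * h 0 0 + g 1 1 * h 1 0 - (h 1 0 * g 0 0 + h 1 1 * g 1 0)) := by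
    simp only [Matrix.det_fin_two, Matrix.sub_apply, Matrix.mul_apply, Fin.sum_univ_two]
  have e0 : X 0 0 * (g * h - h * g).det = 0 := by
    rw [hd]
    linear_combination (h 1 0 * (g 0 0 * h 0 1 + g 0 1 * h 1 1) -
        h 0 1 * (g 1 0 * h 0 0 + g 1 1 * h 1 0)) * (t1 - g 1 1 * t0) -
      (g 1 0 * (g 0 0 * h 0 1 + g 0 1 * h 1 1) -
        g 0 1 * (g 1 0 * h 0 0 + g 1 1 * h 1 0)) * (t2 - h 1 1 * t0) +
      (g 1 0 * h 0 1 - g 0 1 * h 1 0) * (t3 - (g 1 0 * h 0 1 + g 1 1 * h 1 1) * t0)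
  have e1 : X 0 1 * (g * h - h * g).det = 0 := by
    rw [hd]
    linear_combination (-((h 0 0 - h 1 1) * (g 0 0 * h 0 1 + g 0 1 * h 1 1) -
        h 0 1 * (g 0 0 * h 0 0 + g 0 1 * h 1 0 - (g 1 0 * h 0 1 + g 1 1 * h 1 1)))) *
          (t1 - g 1 1 * t0) +
      ((g 0 0 - g 1 1) * (g 0 0 * h 0 1 + g 0 1 * h 1 1) -
        g 0 1 * (g 0 0 * h 0 0 + g 0 1 * h 1 0 - (g 1 0 * h 0 1 + g 1 1 * h 1 1))) *
          (t2 - h 1 1 * t0) -
      ((g 0 0 - g 1 1) * h 0 1 - g 0 1 * (h 0 0 - h 1 1)) *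
        (t3 - (g 1 0 * h 0 1 + g 1 1 * h 1 1) * t0)
  have e2 : X 1 0 * (g * h - h * g).det = 0 := by
    rw [hd]
    linear_combination ((h 0 0 - h 1 1) * (g 1 0 * h 0 0 + g 1 1 * h 1 0) -
        h 1 0 * (g 0 0 * h 0 0 + g 0 1 * h 1 0 - (g 1 0 * h 0 1 + g 1 1 * h 1 1))) *
          (t1 - g 1 1 * t0) -
      ((g 0 0 - g 1 1) * (g 1 0 * h 0 0 + g 1 1 * h 1 0) -
        g 1 0 * (g 0 0 * h 0 0 + g 0 1 * h 1 0 - (g 1 0 * h 0 1 + g 1 1 * h 1 1))) *
          (t2 - h 1 1 * t0) +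
      ((g 0 0 - g 1 1) * h 1 0 - g 1 0 * (h 0 0 - h 1 1)) *
        (t3 - (g 1 0 * h 0 1 + g 1 1 * h 1 1) * t0)
  have f0 := (mul_eq_zero.1 e0).resolve_right h0
  have f1 := (mul_eq_zero.1 e1).resolve_right h0
  have f2 := (mul_eq_zero.1 e2).resolve_right h0
  ext i j
  match i, j with
  | 0, 0 => exact f0
  | 0, 1 => exact f1
  | 1, 0 => exact f2
  | 1, 1 =>
    rw [f0, zero_add] at t0
    exact t0

private theorem n02_E_ne {g h : Matrix (Fin 2) (Fin 2) F} (h0 : (g * h - h * g).det ≠ 0) :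
    (n02_E g h).det ≠ 0 := by
  intro h1
  obtain ⟨v, hv, h2⟩ := Matrix.exists_mulVec_eq_zero_iff.2 h1
  apply hv
  have h3 : !![v 0, v 1; v 2, v 3] = 0 := by
    refine n02_zero g h h0 _ fun i => ?_
    rw [← n02_trace]
    have h4 : ![(!![v 0, v 1; v 2, v 3] : Matrix (Fin 2) (Fin 2) F) 0 0,
        (!![v 0, v 1; v 2, v 3] : Matrix (Fin 2) (Fin 2) F) 0 1,
        (!![v 0, v 1; v 2, v 3] : Matrix (Fin 2) (Fin 2) F) 1 0,
        (!![v 0, v 1; v 2, v 3] : Matrix (Fin 2) (Fin 2) F) 1 1] = v := by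
      funext k
      match k with
      | 0 => rfl
      | 1 => rfl
      | 2 => rfl
      | 3 => rfl
    rw [h4, h2]
    rfl
  funext k
  match k with
  | 0 => exact congrFun (congrFun h3 0) 0
  | 1 => exact congrFun (congrFun h3 0) 1
  | 2 => exact congrFun (congrFun h3 1) 0
  | 3 => exact congrFun (congrFun h3 1) 1

private theorem n02_vec (g h : Matrix (Fin 2) (Fin 2) F) (c : Fin 4 → F) :
    c ᵥ* n02_E g h = ![(∑ i, c i • bas g h i) 0 0, (∑ i, c i • bas g h i) 1 0,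
      (∑ i, c i • bas g h i) 0 1, (∑ i, c i • bas g h i) 1 1] := by
  funext k
  rw [Matrix.vecMul, dotProduct]
  simp only [Matrix.sum_apply, Matrix.smul_apply, smul_eq_mul]
  match k with
  | 0 => rfl
  | 1 => rfl
  | 2 => rfl
  | 3 => rfl

/-- The trace form is nondegenerate on the four matrices.
Proof: the `4 × 4` matrix `E` with rows the entries of `bas g h i` has determinant
`± (g * h - h * g).det ≠ 0` (`Matrix.det_succ_row_zero`, `Fin.sum_univ_succ`, `ring`), and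
`trace (X * b) = ∑ i j, X i j * b j i`. So the vector of the entries of `X` is in the kernel of an
invertible matrix. (Or by hand: `trace X = 0`, `trace (X g) = 0`, `trace (X h) = 0`,
`trace (X g h) = 0` are four linear equations.) -/
theorem eq_zero_of_trace (g h : Matrix (Fin 2) (Fin 2) F) (h0 : (g * h - h * g).det ≠ 0)
    (X : Matrix (Fin 2) (Fin 2) F) (hX : ∀ i, (X * bas g h i).trace = 0) : X = 0 := by
  exact n02_zero g h h0 X hX

/-- The four matrices are linearly independent.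
Proof: the same determinant. Or: from `∑ c i • bas g h i = 0` multiply with `bas g h j` and take traces. -/
theorem bas_indep (g h : Matrix (Fin 2) (Fin 2) F) (h0 : (g * h - h * g).det ≠ 0) (c : Fin 4 → F)
    (hc : ∑ i, c i • bas g h i = 0) : c = 0 := by
  refine Matrix.eq_zero_of_vecMul_eq_zero (n02_E_ne h0) ?_
  rw [n02_vec, hc]
  funext k
  match k with
  | 0 => rfl
  | 1 => rfl
  | 2 => rfl
  | 3 => rfl

/-- Every matrix is a combination (dimension four, `bas_indep`; or by the inverse of the matrix `E`). -/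
theorem bas_span (g h : Matrix (Fin 2) (Fin 2) F) (h0 : (g * h - h * g).det ≠ 0)
    (X : Matrix (Fin 2) (Fin 2) F) : ∃ c : Fin 4 → F, X = ∑ i, c i • bas g h i := by
  refine ⟨![X 0 0, X 1 0, X 0 1, X 1 1] ᵥ* (n02_E g h)⁻¹, ?_⟩
  have h1 := n02_vec g h (![X 0 0, X 1 0, X 0 1, X 1 1] ᵥ* (n02_E g h)⁻¹)
  rw [Matrix.vecMul_vecMul, Matrix.nonsing_inv_mul _ (isUnit_iff_ne_zero.2 (n02_E_ne h0)),
    Matrix.vecMul_one] at h1
  ext i j
  match i, j with
  | 0, 0 => exact congrFun h1 0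
  | 1, 0 => exact congrFun h1 1
  | 0, 1 => exact congrFun h1 2
  | 1, 1 => exact congrFun h1 3

/-- **Bounded denominators.** If the traces of the products `bas i * bas j` and `X * bas j` are integers
then the coefficients of `X` have a fixed denominator.
Proof: let `T i j = trace (bas i * bas j)`, an integral matrix, `D = det T`. `X = ∑ c i • bas i`
(`bas_span`) gives `trace (X * bas j) = ∑ i, c i * T i j`, so `c ᵥ* T` is integral and
`D • c = (c ᵥ* T) ᵥ* adjugate T` is integral. `D ≠ 0`: if `c ᵥ* T = 0` then `X = ∑ c i • bas i` has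
`trace (X * bas j) = 0` for all `j`, so `X = 0` by `eq_zero_of_trace` and `c = 0` by `bas_indep`; so `T` is
invertible (`Matrix.exists_vecMul_eq_zero_iff`). -/
theorem exists_denom [CharZero F] (g h : Matrix (Fin 2) (Fin 2) F)
    (h0 : (g * h - h * g).det ≠ 0)
    (hT : ∀ i j, ∃ n : ℤ, (bas g h i * bas g h j).trace = n) :
    ∃ D : ℤ, D ≠ 0 ∧ ∀ X : Matrix (Fin 2) (Fin 2) F, (∀ j, ∃ n : ℤ, (X * bas g h j).trace = n) →
      ∃ c : Fin 4 → ℤ, (D : F) • X = ∑ i, (c i : F) • bas g h i := by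
  choose n hn using hT
  let T : Matrix (Fin 4) (Fin 4) ℤ := Matrix.of n
  have hTF : ∀ i j, (bas g h i * bas g h j).trace = (T.map (Int.castRingHom F)) i j := hn
  have htr : ∀ (c : Fin 4 → F) (j : Fin 4), ((∑ i, c i • bas g h i) * bas g h j).trace =
      (c ᵥ* T.map (Int.castRingHom F)) j := by
    intro c j
    rw [Matrix.vecMul, dotProduct, Finset.sum_mul, Matrix.trace_sum]
    refine Finset.sum_congr rfl fun i _ => ?_
    rw [Matrix.smul_mul, Matrix.trace_smul, smul_eq_mul, hTF]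
  have hdet : ((T.det : ℤ) : F) = (T.map (Int.castRingHom F)).det := by
    have := RingHom.map_det (Int.castRingHom F) T
    exact this
  have hD : T.det ≠ 0 := by
    intro h1
    rw [h1, Int.cast_zero] at hdet
    obtain ⟨c, hc, h2⟩ := Matrix.exists_vecMul_eq_zero_iff.2 hdet.symm
    apply hc
    refine bas_indep g h h0 c (eq_zero_of_trace g h h0 _ fun j => ?_)
    rw [htr, h2]
    rfl
  refine ⟨T.det, hD, fun X hX => ?_⟩
  choose m hm using hX
  obtain ⟨c, rfl⟩ := bas_span g h h0 X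
  refine ⟨m ᵥ* T.adjugate, ?_⟩
  have h1 : c ᵥ* T.map (Int.castRingHom F) = fun j => (m j : F) := by
    funext j
    rw [← htr, hm]
  have h2 : ∀ i, ((m ᵥ* T.adjugate) i : F) = (T.det : F) * c i := by
    intro i
    have h3 : ((fun j => (m j : F)) ᵥ* (T.map (Int.castRingHom F)).adjugate) =
        (T.det : F) • c := by
      rw [← h1, Matrix.vecMul_vecMul, Matrix.mul_adjugate, ← hdet, Matrix.vecMul_smul,
        Matrix.vecMul_one]
    have h4 := congrFun h3 i
    rw [Pi.smul_apply, smul_eq_mul] at h4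
    rw [← h4, ← RingHom.mapMatrix_apply, ← RingHom.map_adjugate]
    simp only [Matrix.vecMul, dotProduct, Int.cast_sum, Int.cast_mul, RingHom.mapMatrix_apply,
      Matrix.map_apply, eq_intCast]
  rw [Finset.smul_sum]
  refine Finset.sum_congr rfl fun i _ => ?_
  rw [h2, mul_smul]

end Pool.Agent.Lib.MP_c052b4_al.CT
end
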