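import Pool.Agent.Lib.MP_c052b4_al.Mg.G001
import Pool.Agent.Lib.MP_c052b4_al.Mg.G060

section

/-!
# Automorphisms which are trivial modulo the minimal primes have finite order
-/

set_option autoImplicit false

namespace Pool.Agent.Lib.MP_c052b4_al.JK

open MvPolynomial

universe u v

variable {A : Type u} [CommRing A]

/-- the polynomials with coefficients in the ideal `J` -/
noncomputable abbrev cI (J : Ideal A) : Ideal (MvPolynomial (Fin 2) A) := Ideal.map C J

/-- Proof: `σ p - p` modulo `cI J`: the two homomorphisms `A[x, y] → A[x, y] ⧸ cI J` agree on `X v` and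
on the constants. -/
theorem sub_mem (J : Ideal A) (σ : PAut A) (h : ∀ v, σ (X v) - X v ∈ cI J)
    (p : MvPolynomial (Fin 2) A) : σ p - p ∈ cI J := by
  have h1 : ((Ideal.Quotient.mkₐ A (cI J)).comp (σ : MvPolynomial (Fin 2) A →ₐ[A] _)) =
      Ideal.Quotient.mkₐ A (cI J) := by
    apply MvPolynomial.algHom_ext
    intro v
    exact Ideal.Quotient.eq.2 (h v)
  exact Ideal.Quotient.eq.1 (AlgHom.congr_fun h1 p)

/-- Proof: `cI L` is generated by the `C l`, `σ (C l * q) - C l * q = C l * (σ q - q)` and `sub_mem`;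
`Submodule.span_induction` (or `Ideal.mem_map_iff...`, `Submodule.smul_induction_on`). -/
theorem sub_mem_mul (J L : Ideal A) (σ : PAut A) (h : ∀ v, σ (X v) - X v ∈ cI J)
    (p : MvPolynomial (Fin 2) A) (hp : p ∈ cI L) : σ p - p ∈ cI (J * L) := by
  have key : ∀ a : MvPolynomial (Fin 2) A, σ (a * p) - a * p ∈ cI (J * L) := by
    refine Submodule.span_induction
      (p := fun p _ => ∀ a : MvPolynomial (Fin 2) A, σ (a * p) - a * p ∈ cI (J * L)) ?_ ?_ ?_ ?_ hp
    · rintro _ ⟨l, hl, rfl⟩ a
      have h1 : σ (C l) = C l := σ.commutes l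
      have h2 : σ (a * C l) - a * C l = (σ a - a) * C l := by
        rw [map_mul, h1]
        ring
      rw [h2, cI, Ideal.map_mul]
      exact Ideal.mul_mem_mul (sub_mem J σ h a) (Ideal.mem_map_of_mem C hl)
    · intro a
      rw [mul_zero, map_zero, sub_zero]
      exact zero_mem _
    · intro x y _ _ hx hy a
      have : σ (a * (x + y)) - a * (x + y) = (σ (a * x) - a * x) + (σ (a * y) - a * y) := by
        rw [mul_add, map_add]
        ring
      rw [this]
      exact add_mem (hx a) (hy a)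
    · intro b x _ hx a
      rw [smul_eq_mul, ← mul_assoc]
      exact hx (a * b)
  have := key 1
  rwa [one_mul] at this

end Pool.Agent.Lib.MP_c052b4_al.JK
end

section

/-!
# Automorphisms which are trivial modulo the minimal primes have finite order
-/

set_option autoImplicit false

namespace Pool.Agent.Lib.MP_c052b4_al.JK

open MvPolynomial

universe u v

variable {A : Type u} [CommRing A]

/-- Proof: by induction on `n`, `(σ ^ n) (X v) - X v - n (σ (X v) - X v) ∈ cI (J * J)`
(`sub_mem_mul` with `L = J`; `σ` maps `cI (J * J)` to itself); for `n = N` the term `n (..)` is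
zero. -/
theorem pow_sub_mem (N : ℕ) (hN : (N : A) = 0) (J : Ideal A) (σ : PAut A)
    (h : ∀ v, σ (X v) - X v ∈ cI J) (v : Fin 2) : (σ ^ N) (X v) - X v ∈ cI (J * J) := by
  have key : ∀ n : ℕ, (σ ^ n) (X v) - X v -
      (n : MvPolynomial (Fin 2) A) * (σ (X v) - X v) ∈ cI (J * J) := by
    intro n
    induction n with
    | zero =>
      rw [pow_zero, AlgEquiv.one_apply, sub_self, Nat.cast_zero, zero_mul, sub_zero]
      exact Ideal.zero_mem _
    | succ n ih =>
      have h1 : σ (σ (X v) - X v) - (σ (X v) - X v) ∈ cI (J * J) :=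
        sub_mem_mul J J σ h _ (h v)
      have h2 : σ ((σ ^ n) (X v) - X v - (n : MvPolynomial (Fin 2) A) * (σ (X v) - X v)) -
          ((σ ^ n) (X v) - X v - (n : MvPolynomial (Fin 2) A) * (σ (X v) - X v)) ∈
          cI (J * (J * J)) := sub_mem_mul J (J * J) σ h _ ih
      have h3 : cI (J * (J * J)) ≤ cI (J * J) := Ideal.map_mono Ideal.mul_le_right
      have h4 := Ideal.add_mem _ (Ideal.add_mem _ ih (h3 h2))
        (Ideal.mul_mem_left _ (n : MvPolynomial (Fin 2) A) h1)
      have h5 : (σ ^ (n + 1)) (X v) = σ ((σ ^ n) (X v)) := by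
        rw [pow_succ', AlgEquiv.mul_apply]
      rw [h5]
      have h6 : σ ((σ ^ n) (X v) - X v - (n : MvPolynomial (Fin 2) A) * (σ (X v) - X v)) =
          σ ((σ ^ n) (X v)) - σ (X v) -
            (n : MvPolynomial (Fin 2) A) * σ (σ (X v) - X v) := by
        rw [map_sub, map_sub, map_mul, map_natCast]
      rw [h6] at h4
      have h7 : σ ((σ ^ n) (X v)) - X v -
          ((n + 1 : ℕ) : MvPolynomial (Fin 2) A) * (σ (X v) - X v) =
          (σ ^ n) (X v) - X v - (n : MvPolynomial (Fin 2) A) * (σ (X v) - X v) +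
          (σ ((σ ^ n) (X v)) - σ (X v) - (n : MvPolynomial (Fin 2) A) * σ (σ (X v) - X v) -
          ((σ ^ n) (X v) - X v - (n : MvPolynomial (Fin 2) A) * (σ (X v) - X v))) +
          (n : MvPolynomial (Fin 2) A) * (σ (σ (X v) - X v) - (σ (X v) - X v)) := by
        push_cast
        ring
      rw [h7]
      exact h4
  have h0 : (N : MvPolynomial (Fin 2) A) = 0 := by
    rw [← C_eq_coe_nat, hN, C_0]
  have h1 := key N
  rw [h0, zero_mul, sub_zero] at h1
  exact h1

/-- Proof: the coefficients of `σ (X v) - X v` are in all minimal primes (`bc_X`,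
`MvPolynomial.mem_map_C_iff`), hence in the nilradical `I`, and `I ^ m = 0` (noetherian). By induction
on `j`: `(σ ^ (N ^ j)) (X v) - X v ∈ cI (I ^ (j + 1))` (`pow_sub_mem`,
`I ^ (j + 1) * I ^ (j + 1) ≤ I ^ (j + 2)`, `pow_mul`). So `σ ^ (N ^ m) = 1` (`paut_ext`). -/
theorem finOrder_of_minimalPrimes [IsNoetherianRing A] (N : ℕ) (hN0 : 0 < N) (hN : (N : A) = 0)
    (σ : PAut A) (h : ∀ P ∈ minimalPrimes A, bc (Ideal.Quotient.mk P) σ = 1) :
    IsOfFinOrder σ := by
  have hI : ∀ v, σ (X v) - X v ∈ cI (nilradical A) := by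
    intro v
    rw [mem_map_C_iff]
    intro m
    rw [nilradical, ← Ideal.sInf_minimalPrimes, Submodule.mem_sInf]
    intro P hP
    have h1 : map (Ideal.Quotient.mk P) (σ (X v)) = X v := by
      rw [← bc_X, h P hP]
      rfl
    have h2 : map (Ideal.Quotient.mk P) (σ (X v) - X v) = 0 := by
      rw [map_sub, h1, map_X, sub_self]
    have h3 := congrArg (coeff m) h2
    rw [coeff_map, coeff_zero] at h3
    exact Ideal.Quotient.eq_zero_iff_mem.1 h3
  obtain ⟨m, hm⟩ := IsNoetherianRing.isNilpotent_nilradical A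
  have key : ∀ j : ℕ, ∀ v, (σ ^ (N ^ j)) (X v) - X v ∈ cI (nilradical A ^ (j + 1)) := by
    intro j
    induction j with
    | zero =>
      intro v
      rw [pow_zero, pow_one, pow_one]
      exact hI v
    | succ j ih =>
      intro v
      rw [pow_succ N j, pow_mul]
      refine Ideal.map_mono ?_ (pow_sub_mem N hN (nilradical A ^ (j + 1)) (σ ^ (N ^ j)) ih v)
      rw [← pow_add]
      exact Ideal.pow_le_pow_right (by omega)
  refine isOfFinOrder_iff_pow_eq_one.2 ⟨N ^ m, Nat.pow_pos hN0, paut_ext fun v => ?_⟩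
  have h1 := key m v
  rw [pow_succ, hm, zero_mul, Ideal.zero_eq_bot] at h1
  have h2 : cI (⊥ : Ideal A) = ⊥ := Ideal.map_bot
  rw [h2, Ideal.mem_bot] at h1
  rw [sub_eq_zero.1 h1]
  rfl

end Pool.Agent.Lib.MP_c052b4_al.JK
end

section

/-!
# Coherent trees, N03: torsionfree groups of matrices with integral traces
-/

set_option autoImplicit false
set_option linter.unusedVariables false
set_option linter.unusedSectionVars false

namespace Pool.Agent.Lib.MP_c052b4_al.CT

open Matrix

universe u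

variable {F : Type u} [Field F] {O : ValuationSubring F} (π : O →+* ℚ) {H : Type u} [Group H]
  (htf : ∀ h : H, IsOfFinOrder h → h = 1) (s : H →* GL (Fin 2) F) (hs : Function.Injective s)
  (htr : ∀ h : H, IsIntegral ℤ ((s h : Matrix (Fin 2) (Fin 2) F).trace))
  (hdet : ∀ h : H, IsIntegral ℤ ((s h : Matrix (Fin 2) (Fin 2) F).det))

include π htr in
theorem exists_tr (h : H) : ∃ n : ℤ, (s h : Matrix (Fin 2) (Fin 2) F).trace = n :=
  int_of_isIntegral π _ (htr h)

include π hdet in
/-- Proof: `det (s h)` and `det (s h⁻¹)` are integers with product `1`. -/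
theorem det_eq (h : H) : (s h : Matrix (Fin 2) (Fin 2) F).det = 1 ∨
    (s h : Matrix (Fin 2) (Fin 2) F).det = -1 := by
  have := charZero_of_place π
  obtain ⟨a, ha⟩ := int_of_isIntegral π _ (hdet h)
  obtain ⟨b, hb⟩ := int_of_isIntegral π _ (hdet h⁻¹)
  have h1 : (s h : Matrix (Fin 2) (Fin 2) F).det * (s h⁻¹ : Matrix (Fin 2) (Fin 2) F).det = 1 := by
    rw [← Matrix.det_mul, ← Units.val_mul, ← map_mul, mul_inv_cancel, map_one, Units.val_one,
      Matrix.det_one]
  rw [ha, hb] at h1
  have h2 : a * b = 1 := by exact_mod_cast h1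
  rcases Int.isUnit_iff.1 (IsUnit.of_mul_eq_one b h2) with h3 | h3
  · left
    rw [ha, h3, Int.cast_one]
  · right
    rw [ha, h3, Int.cast_neg, Int.cast_one]

include π htf hs htr hdet in
/-- An element with an eigenvalue in `F` has a double eigenvalue `1` or `-1`.
Proof: let `v ≠ 0` with `g v = a v`, `g = s h`. `a` satisfies `a² - tr(g) a + det g = 0`, so it is
integral and an integer; the other eigenvalue `a' = tr g - a` is an integer as well and `a a' = det g`
is `1` or `-1`; so `a, a' ∈ {1, -1}`. If `a' = -a` then `tr g = 0`, `det g = -1`, so `g² = 1`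
(Cayley-Hamilton) and `h² = 1`, `h = 1`, contradiction to `tr g = 0`. -/
theorem double_eigen (h : H) (v : Fin 2 → F) (hv : v ≠ 0) (a : F)
    (ha : (s h : Matrix (Fin 2) (Fin 2) F).mulVec v = a • v) :
    (s h : Matrix (Fin 2) (Fin 2) F).trace = 2 * a ∧
      (s h : Matrix (Fin 2) (Fin 2) F).det = a ^ 2 := by
  have := charZero_of_place π
  obtain ⟨n, hn⟩ := exists_tr π s htr h
  have h0 : ((s h : Matrix (Fin 2) (Fin 2) F) - a • (1 : Matrix (Fin 2) (Fin 2) F)).det = 0 := by
    rw [← Matrix.exists_mulVec_eq_zero_iff]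
    refine ⟨v, hv, ?_⟩
    rw [Matrix.sub_mulVec, ha, Matrix.smul_mulVec, Matrix.one_mulVec, sub_self]
  have h1 : a ^ 2 - (s h : Matrix (Fin 2) (Fin 2) F).trace * a +
      (s h : Matrix (Fin 2) (Fin 2) F).det = 0 := by
    rw [← h0, Matrix.det_fin_two, Matrix.det_fin_two, Matrix.trace_fin_two]
    simp only [Matrix.sub_apply, Matrix.smul_apply, Matrix.one_apply, smul_eq_mul]
    simp
    ring
  obtain ⟨m, hm, hm1⟩ : ∃ m : ℤ, (s h : Matrix (Fin 2) (Fin 2) F).det = m ∧ (m = 1 ∨ m = -1) := by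
    rcases det_eq π s hdet h with h2 | h2
    · exact ⟨1, by rw [h2, Int.cast_one], Or.inl rfl⟩
    · exact ⟨-1, by rw [h2, Int.cast_neg, Int.cast_one], Or.inr rfl⟩
  have hint : IsIntegral ℤ a := by
    refine ⟨Polynomial.X ^ 2 - Polynomial.C n * Polynomial.X + Polynomial.C m, ?_, ?_⟩
    · monicity!
    · rw [Polynomial.eval₂_add, Polynomial.eval₂_sub, Polynomial.eval₂_mul, Polynomial.eval₂_pow,
        Polynomial.eval₂_X, Polynomial.eval₂_C, Polynomial.eval₂_C, eq_intCast, eq_intCast, ← hn,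
        ← hm]
      exact h1
  obtain ⟨k, hk⟩ := int_of_isIntegral π a hint
  rw [hn, hm, hk] at h1
  have h2 : k ^ 2 - n * k + m = 0 := by exact_mod_cast h1
  have h3 : k * (n - k) = m := by linarith [h2, sq k, mul_sub k n k, mul_comm n k]
  have hku : IsUnit k := by
    rcases hm1 with h4 | h4
    · exact IsUnit.of_mul_eq_one (n - k) (by rw [h3, h4])
    · exact IsUnit.of_mul_eq_one (-(n - k)) (by rw [mul_neg, h3, h4, neg_neg])
  have hcase : n = 2 * k ∧ m = k ^ 2 ∨ n = 0 ∧ m = -1 := by
    rcases Int.isUnit_iff.1 hku with h4 | h4 <;> rcases hm1 with h5 | h5 <;>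
      subst h4 <;> subst h5 <;> omega
  rcases hcase with ⟨h4, h5⟩ | ⟨h4, h5⟩
  · rw [hn, hm, hk, h4, h5]
    constructor <;> push_cast <;> ring
  · exfalso
    have h6 : (s h : Matrix (Fin 2) (Fin 2) F) * (s h : Matrix (Fin 2) (Fin 2) F) = 1 := by
      have e1 : (s h : Matrix (Fin 2) (Fin 2) F) 0 0 + (s h : Matrix (Fin 2) (Fin 2) F) 1 1 = 0 := by
        rw [← Matrix.trace_fin_two, hn, h4, Int.cast_zero]
      have e2 : (s h : Matrix (Fin 2) (Fin 2) F) 0 0 * (s h : Matrix (Fin 2) (Fin 2) F) 1 1 -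
          (s h : Matrix (Fin 2) (Fin 2) F) 0 1 * (s h : Matrix (Fin 2) (Fin 2) F) 1 0 = -1 := by
        rw [← Matrix.det_fin_two, hm, h5, Int.cast_neg, Int.cast_one]
      generalize hM : (s h : Matrix (Fin 2) (Fin 2) F) = M at e1 e2 ⊢
      ext i j
      rw [Matrix.mul_apply, Fin.sum_univ_two]
      fin_cases i <;> fin_cases j <;> simp
      · linear_combination M 0 0 * e1 - e2
      · linear_combination M 0 1 * e1
      · linear_combination M 1 0 * e1
      · linear_combination M 1 1 * e1 - e2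
    have h7 : s (h * h) = 1 := by
      rw [map_mul]
      exact Units.ext h6
    have h8 : h * h = 1 := hs (by rw [h7, map_one])
    have h9 : h = 1 := htf h (isOfFinOrder_iff_pow_eq_one.2 ⟨2, by norm_num, by rw [sq, h8]⟩)
    rw [h9, map_one, Units.val_one, Matrix.trace_one, h4] at hn
    norm_num at hn

include π htf hs htr hdet in
/-- **Noncommuting elements.** Proof: `exists_eigen`, `double_eigen`, `comm_of_eigen`,
`charZero_of_place`; injectivity of `s`. -/
theorem det_comm_ne_zero (a b : H) (hab : a * b ≠ b * a) :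
    ((s a : Matrix (Fin 2) (Fin 2) F) * s b - s b * s a).det ≠ 0 := by
  have := charZero_of_place π
  intro h0
  have h1 : (s a : Matrix (Fin 2) (Fin 2) F) * s b ≠ s b * s a := by
    intro h
    apply hab
    apply hs
    rw [map_mul, map_mul]
    exact Units.ext h
  obtain ⟨v, hv, ⟨x, hx⟩, y, hy⟩ := exists_eigen _ _ h0 h1
  obtain ⟨hx1, hx2⟩ := double_eigen π htf s hs htr hdet a v hv x hx
  obtain ⟨hy1, hy2⟩ := double_eigen π htf s hs htr hdet b v hv y hy
  exact h1 (comm_of_eigen _ _ v hv x y hx hy hx1 hx2 hy1 hy2)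

end Pool.Agent.Lib.MP_c052b4_al.CT
end

section

/-!
# Coherent trees, N04: a lattice over the valuation ring
-/

set_option autoImplicit false
set_option linter.unusedVariables false
set_option linter.unusedSectionVars false

namespace Pool.Agent.Lib.MP_c052b4_al.CT

open Matrix

universe u

variable {F : Type u} [Field F] {O : ValuationSubring F} (π : O →+* ℚ)
  (hO : ∀ x : O, π x ≠ 0 → (x : F)⁻¹ ∈ O) {H : Type u} [Group H] (s : H →* GL (Fin 2) F)

include π hO in
private theorem n04_rat (c D : ℤ) (hD : D ≠ 0) : (c : F) / (D : F) ∈ O := by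
  obtain ⟨x, -, hx⟩ := rat_mem_place π hO ((c : ℚ) / (D : ℚ))
  have hc := charZero_of_place π
  have h1 : (x : F) = (c : F) / (D : F) := by
    have h2 : (((c : ℚ) / (D : ℚ) : ℚ) : F) = (c : F) / (D : F) := by
      rw [Rat.cast_div, Rat.cast_intCast, Rat.cast_intCast]
    have h3 : (((c : ℚ) / (D : ℚ)).den : F) ≠ 0 := by
      exact_mod_cast Rat.den_nz _
    rw [← h2, Rat.cast_def, eq_div_iff h3, mul_comm, hx]
  rw [← h1]
  exact x.2

private def n04_d (u v : Fin 2 → F) : F := u 0 * v 1 - v 0 * u 1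

private theorem n04_cramer (u v w : Fin 2 → F) (i : Fin 2) :
    u i * n04_d w v + v i * n04_d u w = w i * n04_d u v := by
  simp only [n04_d]
  match i with
  | 0 => ring
  | 1 => ring

private theorem n04_suml (a : Fin 4 → F) (u : Fin 4 → Fin 2 → F) (w v : Fin 2 → F)
    (hw : ∀ i, w i = ∑ m, a m * u m i) : n04_d w v = ∑ m, a m * n04_d (u m) v := by
  simp only [n04_d, hw, Fin.sum_univ_four]
  ring

private theorem n04_sumr (a : Fin 4 → F) (u : Fin 4 → Fin 2 → F) (w v : Fin 2 → F)
    (hw : ∀ i, w i = ∑ m, a m * u m i) : n04_d v w = ∑ m, a m * n04_d v (u m) := by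
  simp only [n04_d, hw, Fin.sum_univ_four]
  ring

include π hO in
/-- **A basis of an invariant lattice.**
Proof: let `b k = bas (s x) (s y) k`, `u k = (b k).mulVec e₀` the first column of `b k`. Not all
`2 × 2` determinants of the pairs `(u k, u l)` are zero: otherwise all `u k` lie in a line, but by
`bas_span` the matrices `b k` span all matrices, so the `u k` span `F²`. Choose `k, l` such that the
valuation `O.valuation (det (u k, u l))` is maximal (finitely many pairs, `Finite.exists_max` or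
`Finset.exists_max_image`), so it is nonzero. Let `P` be the matrix with columns `u k`, `u l`. For each `m`
one has `u m = α • u k + β • u l` with `α = det (u m, u l) / det (u k, u l)`,
`β = det (u k, u m) / det (u k, u l)` (Cramer), which are in `O` (valuation at most one,
`ValuationSubring.valuation_le_one_iff`). For `h : H` and the columns: `s h * u k` is the first column of
`s h * b k`, and `D • (s h * b k) = ∑ c i • b i` with integers `c i` and `D ≠ 0` by `hD`
(as `b k = s z` with `z ∈ {1, x, y, x y}`, `s h * b k = s (h z)`); so `s h * u k` is a combination of the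
`u m` with rational coefficients, which are in `O` (`rat_mem_place`), hence an `O`-combination of `u k`,
`u l`. So `P⁻¹ * s h * P` has entries in `O`. -/
theorem exists_lattice_O (x y : H)
    (h0 : ((s x : Matrix (Fin 2) (Fin 2) F) * s y - s y * s x).det ≠ 0) {D : ℤ} (hD0 : D ≠ 0)
    (hD : ∀ h : H, ∃ c : Fin 4 → ℤ, (D : F) • (s h : Matrix (Fin 2) (Fin 2) F) =
      ∑ i, (c i : F) • bas (s x : Matrix (Fin 2) (Fin 2) F) (s y) i) :
    ∃ P : GL (Fin 2) F, ∀ (h : H) (i j : Fin 2),
      ((P⁻¹ * s h * P : GL (Fin 2) F) : Matrix (Fin 2) (Fin 2) F) i j ∈ O := by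
  have hc := charZero_of_place π
  have hDF : (D : F) ≠ 0 := by exact_mod_cast hD0
  have hrat : ∀ c : ℤ, (c : F) / (D : F) ∈ O := fun c => n04_rat π hO c D hD0
  let X : Matrix (Fin 2) (Fin 2) F := s x
  let Y : Matrix (Fin 2) (Fin 2) F := s y
  have h0' : (X * Y - Y * X).det ≠ 0 := h0
  let u : Fin 4 → Fin 2 → F := fun k i => bas X Y k i 0
  -- some determinant is not zero
  have hne : ∃ p : Fin 4 × Fin 4, n04_d (u p.1) (u p.2) ≠ 0 := by
    by_contra hcon
    push Not at hcon
    obtain ⟨c, h1⟩ := bas_span X Y h0' !![1, 0; 0, 0]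
    obtain ⟨e, h2⟩ := bas_span X Y h0' !![0, 0; 1, 0]
    have hc1 : ∀ i, (![1, 0] : Fin 2 → F) i = ∑ m, c m * u m i := by
      intro i
      have h3 := congrFun (congrFun h1 i) 0
      rw [Matrix.sum_apply] at h3
      have h4 : (!![1, 0; 0, 0] : Matrix (Fin 2) (Fin 2) F) i 0 = (![1, 0] : Fin 2 → F) i := by
        match i with
        | 0 => rfl
        | 1 => rfl
      rw [← h4, h3]
      exact Finset.sum_congr rfl fun m _ => rfl
    have hc2 : ∀ i, (![0, 1] : Fin 2 → F) i = ∑ m, e m * u m i := by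
      intro i
      have h3 := congrFun (congrFun h2 i) 0
      rw [Matrix.sum_apply] at h3
      have h4 : (!![0, 0; 1, 0] : Matrix (Fin 2) (Fin 2) F) i 0 = (![0, 1] : Fin 2 → F) i := by
        match i with
        | 0 => rfl
        | 1 => rfl
      rw [← h4, h3]
      exact Finset.sum_congr rfl fun m _ => rfl
    have h5 : n04_d (![1, 0] : Fin 2 → F) ![0, 1] = 0 := by
      rw [n04_suml c u _ _ hc1]
      refine Finset.sum_eq_zero fun m _ => ?_
      rw [n04_sumr e u _ _ hc2]
      rw [Finset.sum_eq_zero fun l _ => by rw [hcon (m, l), mul_zero], mul_zero]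
    simp [n04_d] at h5
  obtain ⟨p, hp⟩ := Finite.exists_max fun p : Fin 4 × Fin 4 => O.valuation (n04_d (u p.1) (u p.2))
  have hd : n04_d (u p.1) (u p.2) ≠ 0 := by
    obtain ⟨q, hq⟩ := hne
    intro h
    have h1 := hp q
    simp only [h, map_zero, le_zero_iff, map_eq_zero] at h1
    exact hq h1
  have hmem : ∀ k l, n04_d (u k) (u l) / n04_d (u p.1) (u p.2) ∈ O := by
    intro k l
    rw [← ValuationSubring.valuation_le_one_iff, map_div₀]
    exact div_le_one_of_le₀ (hp (k, l)) zero_le
  let B : Matrix (Fin 2) (Fin 2) F := Matrix.of fun i j => u (![p.1, p.2] j) i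
  have hBdet : B.det ≠ 0 := by
    rw [Matrix.det_fin_two]
    have h1 : B 0 0 * B 1 1 - B 0 1 * B 1 0 = n04_d (u p.1) (u p.2) := rfl
    rw [h1]
    exact hd
  obtain ⟨P, hP⟩ : ∃ P : GL (Fin 2) F, (P : Matrix (Fin 2) (Fin 2) F) = B :=
    ⟨Matrix.GeneralLinearGroup.mkOfDetNeZero B hBdet, rfl⟩
  refine ⟨P, fun h => ?_⟩
  let z : Fin 4 → H := ![1, x, y, x * y]
  have hz : ∀ k, (s (z k) : Matrix (Fin 2) (Fin 2) F) = bas X Y k := by
    intro k
    match k with
    | 0 => exact congrArg Units.val (map_one s)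
    | 1 => rfl
    | 2 => rfl
    | 3 => exact congrArg Units.val (map_mul s x y)
  -- the image of the column `k`
  let w : Fin 4 → Fin 2 → F := fun k i => ((s h : Matrix (Fin 2) (Fin 2) F) * bas X Y k) i 0
  have hw : ∀ k, ∃ c : Fin 4 → ℤ, ∀ i, w k i = ∑ m, ((c m : F) / (D : F)) * u m i := by
    intro k
    obtain ⟨c, hck⟩ := hD (h * z k)
    refine ⟨c, fun i => ?_⟩
    have h1 := congrFun (congrFun hck i) 0
    rw [map_mul, Units.val_mul, hz, Matrix.smul_apply, Matrix.sum_apply, smul_eq_mul] at h1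
    have h2 : w k i = (D : F)⁻¹ * ((D : F) * w k i) := (inv_mul_cancel_left₀ hDF _).symm
    rw [h2]
    have h3 : (D : F) * w k i = ∑ m, (c m : F) * u m i := h1
    rw [h3, Finset.mul_sum]
    refine Finset.sum_congr rfl fun m _ => ?_
    rw [div_eq_mul_inv]
    ring
  have hl : ∀ k l, n04_d (w k) (u l) / n04_d (u p.1) (u p.2) ∈ O := by
    intro k l
    obtain ⟨c, hck⟩ := hw k
    rw [n04_suml _ u _ _ hck, Finset.sum_div]
    refine sum_mem fun m _ => ?_
    rw [mul_div_assoc]
    exact mul_mem (hrat _) (hmem _ _)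
  have hr : ∀ k l, n04_d (u l) (w k) / n04_d (u p.1) (u p.2) ∈ O := by
    intro k l
    obtain ⟨c, hck⟩ := hw k
    rw [n04_sumr _ u _ _ hck, Finset.sum_div]
    refine sum_mem fun m _ => ?_
    rw [mul_div_assoc]
    exact mul_mem (hrat _) (hmem _ _)
  let Q : Matrix (Fin 2) (Fin 2) F := Matrix.of fun i j =>
    ![n04_d (w (![p.1, p.2] j)) (u p.2) / n04_d (u p.1) (u p.2),
      n04_d (u p.1) (w (![p.1, p.2] j)) / n04_d (u p.1) (u p.2)] i
  have hMP : (s h : Matrix (Fin 2) (Fin 2) F) * B = B * Q := by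
    ext i j
    have h1 : ((s h : Matrix (Fin 2) (Fin 2) F) * B) i j = w (![p.1, p.2] j) i := by
      rw [Matrix.mul_apply, Fin.sum_univ_two]
      change _ = ((s h : Matrix (Fin 2) (Fin 2) F) * bas X Y (![p.1, p.2] j)) i 0
      rw [Matrix.mul_apply, Fin.sum_univ_two]
      rfl
    have h2 : (B * Q) i j = u p.1 i * (n04_d (w (![p.1, p.2] j)) (u p.2) / n04_d (u p.1) (u p.2)) +
        u p.2 i * (n04_d (u p.1) (w (![p.1, p.2] j)) / n04_d (u p.1) (u p.2)) := by
      rw [Matrix.mul_apply, Fin.sum_univ_two]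
      rfl
    rw [h1, h2, ← mul_div_assoc, ← mul_div_assoc, ← add_div, n04_cramer, mul_div_assoc,
      div_self hd, mul_one]
  have hfin : ((P⁻¹ * s h * P : GL (Fin 2) F) : Matrix (Fin 2) (Fin 2) F) = Q := by
    rw [Units.val_mul, Units.val_mul, Matrix.mul_assoc, hP, hMP, ← Matrix.mul_assoc, ← hP,
      ← Units.val_mul, inv_mul_cancel, Units.val_one, Matrix.one_mul]
  intro i j
  rw [hfin]
  match i with
  | 0 => exact hl _ _
  | 1 => exact hr _ _

end Pool.Agent.Lib.MP_c052b4_al.CT
end
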