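import Pool.Agent.Lib.MP_c052b4_al.Mg.G010
import Pool.Agent.Lib.MP_c052b4_al.Mg.G001

section

/-!
# Coherent trees, T01: reduction over arbitrary fields
-/

set_option autoImplicit false
set_option linter.unusedVariables false
set_option linter.unusedSectionVars false

namespace Pool.Agent.Lib.MP_c052b4_al.CT

open MvPolynomial
open Pool.Agent.Lib.MP_c052b4_al.JK

universe u

/-- Coefficientwise retraction from a field extension. -/
theorem exists_retract (K L : Type u) [Field K] [Field L] [Algebra K L] :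
    ∃ (π : L → K) (ret : A2 L → A2 K), π 1 = 1 ∧ (∀ f g, ret (f + g) = ret f + ret g) ∧
      (∀ (a : L) (f : A2 K), ret (C a * map (algebraMap K L) f) = C (π a) * f) ∧
      ∀ f, (ret f).totalDegree ≤ f.totalDegree := by
  classical
  obtain ⟨π, hπ⟩ := LinearMap.exists_leftInverse_of_injective (Algebra.linearMap K L)
    (LinearMap.ker_eq_bot.2 (algebraMap K L).injective)
  have hπ1 : ∀ a : K, π (algebraMap K L a) = a := fun a => LinearMap.congr_fun hπ a
  have hco : ∀ (f : A2 L) (m : Fin 2 →₀ ℕ),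
      (∑ m ∈ f.support, monomial m (π (f.coeff m)) : A2 K).coeff m = π (f.coeff m) := by
    intro f m
    rw [coeff_sum]
    by_cases hm : m ∈ f.support
    · rw [Finset.sum_eq_single m]
      · rw [coeff_monomial, if_pos rfl]
      · intro m' _ hm'
        rw [coeff_monomial, if_neg hm']
      · intro h
        exact absurd hm h
    · rw [notMem_support_iff.1 hm, map_zero]
      refine Finset.sum_eq_zero fun m' hm' => ?_
      rw [coeff_monomial, if_neg]
      rintro rfl
      exact hm hm'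
  refine ⟨π, fun f => ∑ m ∈ f.support, monomial m (π (f.coeff m)), ?_, ?_, ?_, ?_⟩
  · have h1 := hπ1 1
    rwa [map_one] at h1
  · intro f g
    ext m
    rw [coeff_add, hco, hco, hco, coeff_add, map_add]
  · intro a f
    ext m
    rw [hco, coeff_C_mul, coeff_C_mul, coeff_map, mul_comm a, ← Algebra.smul_def, map_smul,
      smul_eq_mul, mul_comm]
  · intro f
    unfold totalDegree
    refine Finset.sup_mono fun m hm => ?_
    rw [mem_support_iff, hco] at hm
    rw [mem_support_iff]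
    intro h
    exact hm (by rw [h, map_zero])

private theorem t01_deg {K L : Type u} [Field K] [Field L] (φ : K →+* L) (p : A2 K) :
    (map φ p).totalDegree = p.totalDegree := by
  unfold totalDegree
  rw [support_map_of_injective p φ.injective]

private theorem t01_C_mul {K : Type u} [Field K] (p : A2 K) {a : K} (ha : a ≠ 0) :
    (C a * p).totalDegree = p.totalDegree := by
  by_cases hp : p.totalDegree = 0
  · rw [totalDegree_eq_zero_iff_eq_C.1 hp, ← C_mul, totalDegree_C, totalDegree_C]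
  · have h := totalDegree_comb p 0 (by rw [totalDegree_zero]; omega) a 0 0 ha
    rwa [C_0, zero_mul, add_zero, add_zero] at h

/-- **Affine reduction over an arbitrary field.** -/
theorem exists_Aff_field {K : Type u} [Field K] (g : AutA K) : g ∈ Aff K ∨
    ∃ a ∈ Aff K, ((g * a) (X 1)).totalDegree < ((g * a) (X 0)).totalDegree := by
  obtain ⟨φ, hφ⟩ : ∃ φ : K →+* AlgebraicClosure K, φ = algebraMap K (AlgebraicClosure K) :=
    ⟨_, rfl⟩
  obtain ⟨g', hg'⟩ : ∃ g' : AutA (AlgebraicClosure K), ∀ v, g' (X v) = map φ (g (X v)) :=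
    ⟨bc φ g, fun v => bc_X φ g v⟩
  have hdeg : ∀ v, (g' (X v)).totalDegree = (g (X v)).totalDegree := fun v => by
    rw [hg', t01_deg]
  rcases exists_Aff g' with h | ⟨a, ha, hlt⟩
  · refine Or.inl (mem_Aff_of g fun v => ?_)
    rw [← hdeg]
    exact (h (X v)).2 (by rw [totalDegree_X])
  right
  obtain ⟨a₀, b₀, c₀, a₁, b₁, c₁, h0, h1, hdet⟩ := Aff_X ha
  have e0 : (g' * a) (X 0) = C a₀ * g' (X 0) + C b₀ * g' (X 1) + C c₀ := by
    show g' (a (X 0)) = _
    rw [h0, map_add, map_add, map_mul, map_mul, aut_C, aut_C, aut_C]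
  have e1 : (g' * a) (X 1) = C a₁ * g' (X 0) + C b₁ * g' (X 1) + C c₁ := by
    show g' (a (X 1)) = _
    rw [h1, map_add, map_add, map_mul, map_mul, aut_C, aut_C, aut_C]
  have hd0 : ((g' * a) (X 0)).totalDegree ≤ max (g (X 0)).totalDegree (g (X 1)).totalDegree := by
    rw [e0]
    exact totalDegree_comb_le _ _ _ (by rw [hdeg]; exact le_max_left _ _)
      (by rw [hdeg]; exact le_max_right _ _) _ _ _
  have hlt' := hlt.trans_le hd0
  have hp0 := aut_X_pos g 0
  have hp1 := aut_X_pos g 1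
  by_cases ha1 : a₁ = 0
  · have hb1 : b₁ ≠ 0 := by
      rintro rfl
      apply hdet
      rw [ha1, mul_zero, zero_mul]
    have h2 : ((g' * a) (X 1)).totalDegree = (g (X 1)).totalDegree := by
      have h3 := totalDegree_comb (g' (X 1)) 0 (by rw [totalDegree_zero, hdeg]; exact hp1) b₁ 0 c₁
        hb1
      rw [C_0, zero_mul, add_zero] at h3
      rw [e1, ha1, C_0, zero_mul, zero_add, h3, hdeg]
    rw [h2] at hlt'
    refine ⟨1, (Aff K).one_mem, ?_⟩
    rw [mul_one]
    rcases lt_max_iff.1 hlt' with h3 | h3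
    · exact h3
    · exact absurd h3 (lt_irrefl _)
  · obtain ⟨π, ret, hπ1, hadd, hC, hret⟩ := exists_retract K (AlgebraicClosure K)
    rw [← hφ] at hC
    have h2 : (C a₁⁻¹ * (g' * a) (X 1)).totalDegree = ((g' * a) (X 1)).totalDegree :=
      t01_C_mul _ (inv_ne_zero ha1)
    have h3 : C a₁⁻¹ * (g' * a) (X 1) = C 1 * map φ (g (X 0)) + C (a₁⁻¹ * b₁) * map φ (g (X 1)) +
        C (a₁⁻¹ * c₁) * map φ 1 := by
      have hm1 : map φ (1 : A2 K) = 1 := map_one _
      rw [e1, hg', hg', hm1, mul_add, mul_add, ← mul_assoc, ← mul_assoc, ← C_mul, ← C_mul,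
        ← C_mul, inv_mul_cancel₀ ha1, mul_one (C (a₁⁻¹ * c₁))]
    have h4 : ret (C a₁⁻¹ * (g' * a) (X 1)) =
        C 1 * g (X 0) + C (π (a₁⁻¹ * b₁)) * g (X 1) + C (π (a₁⁻¹ * c₁)) := by
      rw [h3, hadd, hadd, hC, hC, hC, hπ1, mul_one]
    have h5 : (C 1 * g (X 0) + C (π (a₁⁻¹ * b₁)) * g (X 1) + C (π (a₁⁻¹ * c₁))).totalDegree <
        max (g (X 0)).totalDegree (g (X 1)).totalDegree := by
      rw [← h4]
      refine (hret _).trans_lt ?_
      rw [h2]
      exact hlt'
    obtain ⟨β, hβ⟩ : ∃ β, β = π (a₁⁻¹ * b₁) := ⟨_, rfl⟩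
    obtain ⟨γ, hγ⟩ : ∃ γ, γ = π (a₁⁻¹ * c₁) := ⟨_, rfl⟩
    rw [← hβ, ← hγ] at h5
    have h6 : (g (X 0)).totalDegree ≤ (g (X 1)).totalDegree := by
      by_contra hcon
      have h7 := totalDegree_comb (g (X 0)) (g (X 1)) (not_le.1 hcon) 1 β γ one_ne_zero
      rw [h7, max_eq_left (le_of_lt (not_le.1 hcon))] at h5
      exact lt_irrefl _ h5
    rw [max_eq_right h6] at h5
    have hnat : (Polynomial.C β * Polynomial.X).natDegree ≤ 1 :=
      (Polynomial.natDegree_C_mul_le _ _).trans Polynomial.natDegree_X_le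
    refine ⟨sh (Polynomial.C β * Polynomial.X) * swp K,
      (Aff K).mul_mem (sh_mem_Aff _ hnat) swp_mem, ?_⟩
    have k0 : (g * (sh (Polynomial.C β * Polynomial.X) * swp K) : AutA K) (X 0) = g (X 1) := by
      rw [AlgEquiv.mul_apply, AlgEquiv.mul_apply]
      rw [swp_X0, sh_X1]
    have k1 : (g * (sh (Polynomial.C β * Polynomial.X) * swp K) : AutA K) (X 1) =
        g (X 0) + C β * g (X 1) := by
      rw [AlgEquiv.mul_apply, AlgEquiv.mul_apply]
      rw [swp_X1, sh_X0, map_add, map_mul, Polynomial.aeval_C, Polynomial.aeval_X,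
        MvPolynomial.algebraMap_eq, map_mul, aut_C]
    rw [k0, k1]
    have h7 : g (X 0) + C β * g (X 1) = (C 1 * g (X 0) + C β * g (X 1) + C γ) + C (-γ) := by
      rw [C_1, one_mul, C_neg]
      ring
    rw [h7]
    refine (totalDegree_add _ _).trans_lt (max_lt h5 ?_)
    rw [totalDegree_C]
    exact hp1

/-- **Triangular reduction over an arbitrary field.** -/
theorem exists_Tri_field {K : Type u} [Field K] (g : AutA K) :
    ∃ t ∈ Tri K, ((g * t) (X 0)).totalDegree ≤ ((g * t) (X 1)).totalDegree := by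
  obtain ⟨φ, hφ⟩ : ∃ φ : K →+* AlgebraicClosure K, φ = algebraMap K (AlgebraicClosure K) :=
    ⟨_, rfl⟩
  obtain ⟨g', hg'⟩ : ∃ g' : AutA (AlgebraicClosure K), ∀ v, g' (X v) = map φ (g (X v)) :=
    ⟨bc φ g, fun v => bc_X φ g v⟩
  obtain ⟨t, ht, hle⟩ := exists_Tri g'
  rw [deg_mul_Tri g' t ht, hg', t01_deg] at hle
  obtain ⟨a, P, ha, h0⟩ := Tri_X0 ht
  have e0 : (g' * t) (X 0) = C a * map φ (g (X 0)) + Polynomial.aeval (map φ (g (X 1))) P := by
    show g' (t (X 0)) = _
    have h1 : g' (Polynomial.aeval (X 1) P) = Polynomial.aeval (map φ (g (X 1))) P := by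
      rw [← hg']
      exact (Polynomial.aeval_algHom_apply (g' : A2 (AlgebraicClosure K) →ₐ[AlgebraicClosure K]
        A2 (AlgebraicClosure K)) (X 1) P).symm
    rw [h0, map_add, map_mul, aut_C, hg', h1]
  obtain ⟨π, ret, hπ1, hadd, hC, hret⟩ := exists_retract K (AlgebraicClosure K)
  rw [← hφ] at hC
  obtain ⟨R, hR⟩ : ∃ R : A2 (AlgebraicClosure K) →+ A2 K, ∀ f, R f = ret f :=
    ⟨AddMonoidHom.mk' ret hadd, fun _ => rfl⟩
  have h2 : C a⁻¹ * (g' * t) (X 0) = C 1 * map φ (g (X 0)) +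
      ∑ i ∈ Finset.range (P.natDegree + 1), C (a⁻¹ * P.coeff i) * map φ (g (X 1) ^ i) := by
    rw [e0, mul_add, ← mul_assoc, ← C_mul, inv_mul_cancel₀ ha, Polynomial.aeval_eq_sum_range,
      Finset.mul_sum]
    congr 1
    refine Finset.sum_congr rfl fun i _ => ?_
    rw [Algebra.smul_def, MvPolynomial.algebraMap_eq, ← mul_assoc, ← C_mul, map_pow]
  have h3 : ret (C a⁻¹ * (g' * t) (X 0)) = g (X 0) +
      ∑ i ∈ Finset.range (P.natDegree + 1), C (π (a⁻¹ * P.coeff i)) * g (X 1) ^ i := by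
    rw [h2, hadd, hC, hπ1, C_1, one_mul, ← hR, map_sum]
    congr 1
    refine Finset.sum_congr rfl fun i _ => ?_
    rw [hR, hC]
  obtain ⟨P', hP'⟩ : ∃ P' : Polynomial K, P' = ∑ i ∈ Finset.range (P.natDegree + 1),
    Polynomial.monomial i (π (a⁻¹ * P.coeff i)) := ⟨_, rfl⟩
  refine ⟨sh P', sh_mem P', ?_⟩
  have k0 : (g * sh P') (X 0) = ret (C a⁻¹ * (g' * t) (X 0)) := by
    show g (sh P' (X 0)) = _
    have h4 : g (Polynomial.aeval (X 1) P') = Polynomial.aeval (g (X 1)) P' :=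
      (Polynomial.aeval_algHom_apply (g : A2 K →ₐ[K] A2 K) (X 1) P').symm
    rw [sh_X0, map_add, h4, h3, hP', map_sum]
    congr 1
    refine Finset.sum_congr rfl fun i _ => ?_
    rw [Polynomial.aeval_monomial, MvPolynomial.algebraMap_eq]
  have k1 : (g * sh P') (X 1) = g (X 1) := by
    show g (sh P' (X 1)) = _
    rw [sh_X1]
  rw [k0, k1]
  refine (hret _).trans ?_
  rw [t01_C_mul _ (inv_ne_zero ha)]
  exact hle

end Pool.Agent.Lib.MP_c052b4_al.CT
end

section

/-!
# Coherent trees, T02: the tree over an arbitrary field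
-/

set_option autoImplicit false
set_option linter.unusedVariables false
set_option linter.unusedSectionVars false

namespace Pool.Agent.Lib.MP_c052b4_al.CT

open MvPolynomial
open Pool.Agent.Lib.MP_c052b4_al.JK

universe u

/-- Proof: as `rk_parent` (JK/Tree.lean), with `exists_Aff_field`, `exists_Tri_field`. -/
theorem rk_parent_field {K : Type u} [Field K] (x : VT K)
    (hx : x ≠ Sum.inl ((1 : AutA K) : AutA K ⧸ Aff K)) :
    ∃ y, (JGraph K).Adj x y ∧ rk K y < rk K x := by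
  rcases x with q | q
  · obtain ⟨g, rfl⟩ := QuotientGroup.mk_surjective q
    rcases exists_Aff_field g with hg | ⟨a, ha, hlt⟩
    · exfalso
      apply hx
      congr 1
      rw [QuotientGroup.eq, mul_one]
      exact (Aff K).inv_mem hg
    · have hq : (g : AutA K ⧸ Aff K) = ((g * a : AutA K) : AutA K ⧸ Aff K) :=
        (QuotientGroup.mk_mul_of_mem g ha).symm
      refine ⟨Sum.inr ((g * a : AutA K) : AutA K ⧸ Tri K), ⟨g * a, Or.inl ⟨?_, rfl⟩⟩, ?_⟩
      · exact congrArg Sum.inl hq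
      · have e1 : rk K (Sum.inl (g : AutA K ⧸ Aff K)) = 2 * dg (g * a) := by
          rw [hq, rk_inl]
        have e2 := rk_inr (g * a)
        have e3 : ((g * a) (X 0)).totalDegree ≤ dg (g * a) := le_max_left _ _
        show rk K (Sum.inr ((g * a : AutA K) : AutA K ⧸ Tri K)) <
          rk K (Sum.inl (g : AutA K ⧸ Aff K))
        omega
  · obtain ⟨g, rfl⟩ := QuotientGroup.mk_surjective q
    obtain ⟨t, ht, hle⟩ := exists_Tri_field g
    have hq : (g : AutA K ⧸ Tri K) = ((g * t : AutA K) : AutA K ⧸ Tri K) :=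
      (QuotientGroup.mk_mul_of_mem g ht).symm
    refine ⟨Sum.inl ((g * t : AutA K) : AutA K ⧸ Aff K), ⟨g * t, Or.inr ⟨?_, rfl⟩⟩, ?_⟩
    · exact congrArg Sum.inr hq
    · have e1 : rk K (Sum.inr (g : AutA K ⧸ Tri K)) =
          2 * ((g * t) (X 1)).totalDegree + 1 := by
        rw [hq, rk_inr]
      have e2 := rk_inl (g * t)
      have e3 : dg (g * t) = ((g * t) (X 1)).totalDegree := max_eq_right hle
      show rk K (Sum.inl ((g * t : AutA K) : AutA K ⧸ Aff K)) <
        rk K (Sum.inr (g : AutA K ⧸ Tri K))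
      omega

private theorem t02_mem_Aff {K : Type u} [Field K] {σ : AutA K} :
    σ ∈ Aff K ↔ ∀ (i : Fin 2) (m : Fin 2 →₀ ℕ), 2 ≤ (m.sum fun _ e => e) →
      coeff m (σ (X i)) = 0 := by
  constructor
  · intro h i m hm
    refine coeff_eq_zero_of_totalDegree_lt ?_
    have h1 : (σ (X i)).totalDegree ≤ 1 := (h (X i)).2 (by rw [totalDegree_X])
    refine lt_of_le_of_lt h1 ?_
    exact hm
  · intro h
    refine mem_Aff_of σ fun i => ?_
    refine Finset.sup_le fun m hm => ?_
    by_contra hlt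
    exact (mem_support_iff.1 hm) (h i m (by omega))

private theorem t02_mem_Tri {K : Type u} [Field K] {σ : AutA K} :
    σ ∈ Tri K ↔ ∀ m : Fin 2 →₀ ℕ, m ≠ 0 → m ≠ Finsupp.single 1 1 →
      coeff m (σ (X 1)) = 0 := by
  classical
  constructor
  · intro h m hm hm'
    obtain ⟨c, d, -, h1⟩ := Tri_X1 h
    rw [h1, coeff_add, coeff_C_mul, coeff_X, coeff_C, if_neg (Ne.symm hm), if_neg, mul_zero,
      add_zero]
    exact fun h => hm' h.symm
  · intro h
    refine mem_Tri_of (c := coeff (Finsupp.single 1 1) (σ (X 1))) (d := coeff 0 (σ (X 1))) ?_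
    ext m
    have hne : (Finsupp.single 1 1 : Fin 2 →₀ ℕ) ≠ 0 := by
      intro h
      have := DFunLike.congr_fun h 1
      simp at this
    by_cases hm : m = 0
    · rw [hm, coeff_add, coeff_C_mul, coeff_X, coeff_C, if_pos rfl, if_neg hne, mul_zero, zero_add]
    · by_cases hm' : m = Finsupp.single 1 1
      · rw [hm', coeff_add, coeff_C_mul, coeff_X, coeff_C, if_pos rfl, if_neg (Ne.symm hne),
          mul_one, add_zero]
      · rw [h m hm hm', coeff_add, coeff_C_mul, coeff_X, coeff_C, if_neg (Ne.symm hm),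
          if_neg (Ne.symm hm'), mul_zero, add_zero]

private theorem t02_coeff {K L : Type u} [Field K] [Field L] (φ : K →+* L) (g : AutA K)
    (i : Fin 2) (m : Fin 2 →₀ ℕ) :
    coeff m ((bc φ g : AutA L) (X i)) = 0 ↔ coeff m (g (X i)) = 0 := by
  have h : (bc φ g : AutA L) (X i) = map φ (g (X i)) := bc_X φ g i
  rw [h, coeff_map, map_eq_zero]

private theorem t02_quot {G H : Type u} [Group G] [Group H] (f : G →* H) (A : Subgroup G)
    (B : Subgroup H) (h : ∀ g, f g ∈ B ↔ g ∈ A) :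
    ∃ j : G ⧸ A → H ⧸ B, Function.Injective j ∧ ∀ g : G, j (g : G ⧸ A) = (f g : H ⧸ B) := by
  refine ⟨Quotient.map' f fun a b hab => ?_, ?_, fun g => rfl⟩
  · rw [QuotientGroup.leftRel_apply] at hab ⊢
    rw [← map_inv, ← map_mul]
    exact (h _).2 hab
  · intro x y hxy
    obtain ⟨a, rfl⟩ := QuotientGroup.mk_surjective x
    obtain ⟨b, rfl⟩ := QuotientGroup.mk_surjective y
    have h1 : (f a : H ⧸ B) = (f b : H ⧸ B) := hxy
    rw [QuotientGroup.eq, ← map_inv, ← map_mul, h] at h1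
    exact QuotientGroup.eq.2 h1

theorem jgraph_isTree_field {K : Type u} [Field K] : (JGraph K).IsTree :=
  isTree_of_rank (JGraph K) (rk K) (Sum.inl ((1 : AutA K) : AutA K ⧸ Aff K)) rk_parent_field rk_uniq

/-- The action of the automorphism group on its tree, over an arbitrary field. -/
def kTree (K : Type u) [Field K] : TreeAction (AutA K) (VT K) where
  graph := JGraph K
  tree := jgraph_isTree_field
  adj_smul := by
    rintro g x y ⟨h, ⟨rfl, rfl⟩ | ⟨rfl, rfl⟩⟩
    · exact ⟨g * h, Or.inl ⟨rfl, rfl⟩⟩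
    · exact ⟨g * h, Or.inr ⟨rfl, rfl⟩⟩
  no_inversion := by
    rintro g x y ⟨h, ⟨rfl, rfl⟩ | ⟨rfl, rfl⟩⟩ h1
    · exact (Sum.inl_ne_inr h1).elim
    · exact (Sum.inl_ne_inr h1.symm).elim

/-- **The tree over a subfield.**
Proof: `ι (inl g) = inl (bc φ g)`, `ι (inr g) = inr (bc φ g)` (`Quotient.map'` or
`QuotientGroup.map`-like; well defined and injective since `bc φ g ∈ Aff L ↔ g ∈ Aff K` and
`bc φ g ∈ Tri L ↔ g ∈ Tri K`: `bc φ g (X v) = map φ (g (X v))` (`bc_X`), `φ` injective; `Aff`: total degree of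
the images of the variables at most one (`mem_Aff_of`), `Tri`: `σ (X 1)` is of the form
`C c * X 1 + C d` (`Tri_X1`, `mem_Tri_of`), that is: the coefficients at all other monomials vanish, see
`lns_mem_Tri` in JK/LnS.lean). -/
theorem exists_vmap {K L : Type u} [Field K] [Field L] (φ : K →+* L) :
    ∃ ι : VT K → VT L, Function.Injective ι ∧
      (∀ x y, (JGraph K).Adj x y → (JGraph L).Adj (ι x) (ι y)) ∧
      ∀ (g : AutA K) (x : VT K), ι (g • x) = (bc φ g : AutA L) • ι x := by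
  obtain ⟨j₁, hj₁, e₁⟩ := t02_quot (bc φ : AutA K →* AutA L) (Aff K) (Aff L) fun g => by
    rw [t02_mem_Aff, t02_mem_Aff]
    exact forall_congr' fun i => forall_congr' fun m => imp_congr_right fun _ => t02_coeff φ g i m
  obtain ⟨j₂, hj₂, e₂⟩ := t02_quot (bc φ : AutA K →* AutA L) (Tri K) (Tri L) fun g => by
    rw [t02_mem_Tri, t02_mem_Tri]
    exact forall_congr' fun m => imp_congr_right fun _ => imp_congr_right fun _ =>
      t02_coeff φ g 1 m
  refine ⟨Sum.map j₁ j₂, hj₁.sumMap hj₂, ?_, ?_⟩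
  · rintro x y ⟨g, ⟨rfl, rfl⟩ | ⟨rfl, rfl⟩⟩
    · exact ⟨bc φ g, Or.inl ⟨congrArg Sum.inl (e₁ g), congrArg Sum.inr (e₂ g)⟩⟩
    · exact ⟨bc φ g, Or.inr ⟨congrArg Sum.inr (e₂ g), congrArg Sum.inl (e₁ g)⟩⟩
  · rintro g (x | x)
    · obtain ⟨a, rfl⟩ := QuotientGroup.mk_surjective x
      have h1 : j₁ ((g * a : AutA K) : AutA K ⧸ Aff K) =
          ((bc φ g : AutA L) * (bc φ a : AutA L) : AutA L) := by rw [e₁, map_mul]
      exact congrArg Sum.inl (h1.trans (by rw [e₁]; rfl))
    · obtain ⟨a, rfl⟩ := QuotientGroup.mk_surjective x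
      have h1 : j₂ ((g * a : AutA K) : AutA K ⧸ Tri K) =
          ((bc φ g : AutA L) * (bc φ a : AutA L) : AutA L) := by rw [e₂, map_mul]
      exact congrArg Sum.inr (h1.trans (by rw [e₂]; rfl))

end Pool.Agent.Lib.MP_c052b4_al.CT
end
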