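import Pool.Agent.Lib.MP_c052b4_al.Mg.G040
import Pool.Agent.Lib.MP_c052b4_al.Mg.G055
import Pool.Agent.Lib.MP_c052b4_al.Mg.G057
import Pool.Agent.Lib.MP_c052b4_al.Mg.G059
import Pool.Agent.Lib.MP_c052b4_al.Mg.G033
import Pool.Agent.Lib.MP_c052b4_al.Mg.G001

section

/-!
# Trees and plane automorphisms over commutative rings of positive characteristic
-/

set_option autoImplicit false

namespace Pool.Agent.Lib.MP_c052b4_al.JK

open MvPolynomial MulAction

universe u

/-- A homomorphism to the automorphism group of the polynomial ring over a domain of positive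
characteristic becomes one over an algebraically closed field. -/
theorem Adm.step_dom {G : Type u} [Group G] {k : ℕ} {S : Set G} (h : Adm G k S) (D : Type u)
    [CommRing D] [IsDomain D] (N : ℕ) (hN : 0 < N) (hD : (N : D) = 0) (r : G →* PAut D) :
    Adm G (k + 1) {g | g ∈ S ∧ r g = 1} := by
  have hinj : Function.Injective (algebraMap D (AlgebraicClosure (FractionRing D))) := by
    rw [IsScalarTower.algebraMap_eq D (FractionRing D) (AlgebraicClosure (FractionRing D)),
      RingHom.coe_comp]
    exact (algebraMap (FractionRing D) (AlgebraicClosure (FractionRing D))).injective.comp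
      (IsFractionRing.injective D (FractionRing D))
  obtain ⟨p, hp⟩ := CharP.exists D
  have hp0 : 0 < p := by
    rcases Nat.eq_zero_or_pos p with rfl | h1
    · have h2 := (CharP.cast_eq_zero_iff D 0 N).1 hD
      rw [zero_dvd_iff] at h2
      omega
    · exact h1
  have hchar : CharP (AlgebraicClosure (FractionRing D)) p := charP_of_injective_algebraMap hinj p
  have h3 := Adm.step h (AlgebraicClosure (FractionRing D)) p hp0
    ((bc (algebraMap D (AlgebraicClosure (FractionRing D)))).comp r)
  convert h3 using 1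
  ext g
  have h4 : (bc (algebraMap D (AlgebraicClosure (FractionRing D)))).comp r g = 1 ↔ r g = 1 := by
    rw [MonoidHom.comp_apply, ← map_one (bc (algebraMap D (AlgebraicClosure (FractionRing D))))]
    exact (bc_injective _ hinj).eq_iff
  rw [Set.mem_setOf_eq, Set.mem_setOf_eq, h4]

/-- Finitely generated torsionfree groups acting on trees and on a plane over a commutative ring of
positive characteristic. -/
theorem hk_of_trees_plane {G : Type u} [Group G] (hfg : Group.FG G)
    (htf : ∀ g : G, IsOfFinOrder g → g = 1)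
    {n : ℕ} (V : Fin n → Type u) [act : ∀ i, MulAction G (V i)]
    (T : ∀ i, Nonempty (TreeAction G (V i)))
    (A : Type u) [CommRing A] (N : ℕ) (hN : 0 < N) (hA : (N : A) = 0) (r : G →* PAut A)
    (h : ∀ g : G, r g = 1 → (∀ i, ∃ x : V i, g • x = x) → g = 1) : HK.{u} G := by
  classical
  obtain ⟨A', hft, r', hr'⟩ := exists_fg_ring r
  have hA' : ((N : ℕ) : A') = 0 := by
    apply Subtype.ext
    simpa using hA
  have hnoeth : IsNoetherianRing A' := Algebra.FiniteType.isNoetherianRing ℤ A'
  have hfin : (minimalPrimes A').Finite := minimalPrimes.finite_of_isNoetherianRing A'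
  have h0 : Adm G 0 {g | (1 : G →* GL (Fin 2) (ULift.{u} (ZMod 1))) g = 1 ∧
      ∀ i, ∃ x : V i, g • x = x} :=
    Adm.base V act T (ULift.{u} (ZMod 1)) 1 one_pos (Subsingleton.elim _ _) 1
  have hstep : ∀ s : Finset (Ideal A'), (∀ P ∈ s, P ∈ minimalPrimes A') → ∃ S : Set G,
      Adm G s.card S ∧ ∀ g ∈ S, (∀ i, ∃ x : V i, g • x = x) ∧
        ∀ P ∈ s, bc (Ideal.Quotient.mk P) (r' g) = 1 := by
    intro s
    induction s using Finset.induction_on with
    | empty =>
      intro _
      refine ⟨_, h0, fun g hg => ⟨hg.2, fun P hP => ?_⟩⟩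
      exact (Finset.notMem_empty P hP).elim
    | insert P s hP ih =>
      intro hs
      obtain ⟨S, hS, hS1⟩ := ih fun Q hQ => hs Q (Finset.mem_insert_of_mem hQ)
      have hPm : P ∈ minimalPrimes A' := hs P (Finset.mem_insert_self P s)
      have hPp : P.IsPrime := hPm.1.1
      have hN' : ((N : ℕ) : A' ⧸ P) = 0 := by
        rw [← map_natCast (Ideal.Quotient.mk P), hA', map_zero]
      refine ⟨_, by
        rw [Finset.card_insert_of_notMem hP]
        exact hS.step_dom (A' ⧸ P) N hN hN' ((bc (Ideal.Quotient.mk P)).comp r'), ?_⟩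
      rintro g ⟨hg1, hg2⟩
      refine ⟨(hS1 g hg1).1, fun Q hQ => ?_⟩
      rcases Finset.mem_insert.1 hQ with rfl | hQ
      · exact hg2
      · exact (hS1 g hg1).2 Q hQ
  obtain ⟨S, hS, hS1⟩ := hstep hfin.toFinset fun P hP => (Set.Finite.mem_toFinset hfin).1 hP
  refine Adm.hk _ G htf S hS fun g hg => ?_
  obtain ⟨h1, h2⟩ := hS1 g hg
  obtain ⟨m, hm, h3⟩ := isOfFinOrder_iff_pow_eq_one.1 (finOrder_of_minimalPrimes N hN hA' (r' g)
    fun P hP => h2 P ((Set.Finite.mem_toFinset hfin).2 hP))
  refine htf g (isOfFinOrder_iff_pow_eq_one.2 ⟨m, hm, h _ ?_ fun i => ?_⟩)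
  · rw [map_pow, ← hr', ← map_pow, h3, map_one]
  · obtain ⟨x, hx⟩ := h1 i
    refine ⟨x, ?_⟩
    have h2 : ∀ j : ℕ, g ^ j • x = x := fun j => by
      induction j with
      | zero => rw [pow_zero, one_smul]
      | succ j ih => rw [pow_succ, mul_smul, hx, ih]
    exact h2 m

end Pool.Agent.Lib.MP_c052b4_al.JK
end

section

/-!
# The assembly map in degree one is bijective: trees and planes
-/

set_option autoImplicit false

namespace Pool.Agent.Lib.MP_c052b4_al.JK

open MvPolynomial MulAction
open Pool.Agent.Lib.MP_c052b4_al.LK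

universe u

/-- **The induction**, for bijectivity. -/
theorem Adm.hb (k : ℕ) : ∀ (G : Type u) [Group G] (_ : ∀ g : G, IsOfFinOrder g → g = 1)
    (S : Set G) (_ : Adm G k S) (_ : ∀ g ∈ S, g = 1), HB.{u} G := by
  induction k with
  | zero =>
    intro G _ htf S hS hS1
    cases hS with
    | base V act T A N hN hA ρ =>
      refine HB.of_fg fun H hH => ?_
      let _ : ∀ i, MulAction H (V i) := fun i => MulAction.compHom (V i) H.subtype
      refine hb_of_trees_rep ((Group.fg_iff_subgroup_fg H).2 hH) (htf_sub htf H) V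
        (fun i => ⟨(T i).some.comp H.subtype⟩) A N hN hA (ρ.comp H.subtype) fun h h1 h2 => ?_
      exact Subtype.ext (hS1 h ⟨h1, h2⟩)
  | succ k ih =>
    intro G _ htf S hS hS1
    have hG : HK.{u} G := Adm.hk (k + 1) G htf S hS hS1
    cases hS with
    | @step _ S' hS' F _ _ p hp _ r =>
      let _ : MulAction G (VT F) := MulAction.compHom (VT F) r
      let T : TreeAction G (VT F) := (jTree (K := F)).comp r
      have keyv : ∀ (H : Subgroup G) (x : VT F), (∀ h ∈ H, h • x = x) → HB.{u} H := by
        intro H x hx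
        obtain ⟨θ, hθ⟩ := exists_rep_fix p hp (r.comp H.subtype) x fun h => hx h h.2
        refine ih H (htf_sub htf H) _
          ((hS'.comap H.subtype).add F p hp (CharP.cast_eq_zero F p) θ) ?_
        rintro h ⟨h1, h2⟩
        obtain ⟨n, hn, h3⟩ := hθ h h2
        have h4 : (h : G) ^ n = 1 := hS1 _ ⟨hS'.pow_mem h1 n, h3⟩
        exact Subtype.ext (htf h (isOfFinOrder_iff_pow_eq_one.2 ⟨n, hn, h4⟩))
      exact HB.of_tree hG T (fun v => keyv _ v fun h hh => hh) fun x y _ =>
        (keyv (stabilizer G x ⊓ stabilizer G y) x fun h hh => hh.1).onto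

/-- The class of groups acting on trees and on a plane over a commutative ring of positive
characteristic is contained in the class of the induction. -/
theorem exists_adm_of_trees_plane {G : Type u} [Group G] (hfg : Group.FG G)
    (htf : ∀ g : G, IsOfFinOrder g → g = 1)
    {n : ℕ} (V : Fin n → Type u) [act : ∀ i, MulAction G (V i)]
    (T : ∀ i, Nonempty (TreeAction G (V i)))
    (A : Type u) [CommRing A] (N : ℕ) (hN : 0 < N) (hA : (N : A) = 0) (r : G →* PAut A)
    (h : ∀ g : G, r g = 1 → (∀ i, ∃ x : V i, g • x = x) → g = 1) :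
    ∃ (k : ℕ) (S : Set G), Adm G k S ∧ ∀ g ∈ S, g = 1 := by
  classical
  obtain ⟨A', hft, r', hr'⟩ := exists_fg_ring r
  have hA' : ((N : ℕ) : A') = 0 := by
    apply Subtype.ext
    simpa using hA
  have hnoeth : IsNoetherianRing A' := Algebra.FiniteType.isNoetherianRing ℤ A'
  have hfin : (minimalPrimes A').Finite := minimalPrimes.finite_of_isNoetherianRing A'
  have h0 : Adm G 0 {g | (1 : G →* GL (Fin 2) (ULift.{u} (ZMod 1))) g = 1 ∧
      ∀ i, ∃ x : V i, g • x = x} :=
    Adm.base V act T (ULift.{u} (ZMod 1)) 1 one_pos (Subsingleton.elim _ _) 1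
  have hstep : ∀ s : Finset (Ideal A'), (∀ P ∈ s, P ∈ minimalPrimes A') → ∃ S : Set G,
      Adm G s.card S ∧ ∀ g ∈ S, (∀ i, ∃ x : V i, g • x = x) ∧
        ∀ P ∈ s, bc (Ideal.Quotient.mk P) (r' g) = 1 := by
    intro s
    induction s using Finset.induction_on with
    | empty =>
      intro _
      refine ⟨_, h0, fun g hg => ⟨hg.2, fun P hP => ?_⟩⟩
      exact (Finset.notMem_empty P hP).elim
    | insert P s hP ih =>
      intro hs
      obtain ⟨S, hS, hS1⟩ := ih fun Q hQ => hs Q (Finset.mem_insert_of_mem hQ)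
      have hPm : P ∈ minimalPrimes A' := hs P (Finset.mem_insert_self P s)
      have hPp : P.IsPrime := hPm.1.1
      have hN' : ((N : ℕ) : A' ⧸ P) = 0 := by
        rw [← map_natCast (Ideal.Quotient.mk P), hA', map_zero]
      refine ⟨_, by
        rw [Finset.card_insert_of_notMem hP]
        exact hS.step_dom (A' ⧸ P) N hN hN' ((bc (Ideal.Quotient.mk P)).comp r'), ?_⟩
      rintro g ⟨hg1, hg2⟩
      refine ⟨(hS1 g hg1).1, fun Q hQ => ?_⟩
      rcases Finset.mem_insert.1 hQ with rfl | hQ
      · exact hg2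
      · exact (hS1 g hg1).2 Q hQ
  obtain ⟨S, hS, hS1⟩ := hstep hfin.toFinset fun P hP => (Set.Finite.mem_toFinset hfin).1 hP
  refine ⟨_, S, hS, fun g hg => ?_⟩
  obtain ⟨h1, h2⟩ := hS1 g hg
  obtain ⟨m, hm, h3⟩ := isOfFinOrder_iff_pow_eq_one.1 (finOrder_of_minimalPrimes N hN hA' (r' g)
    fun P hP => h2 P ((Set.Finite.mem_toFinset hfin).2 hP))
  refine htf g (isOfFinOrder_iff_pow_eq_one.2 ⟨m, hm, h _ ?_ fun i => ?_⟩)
  · rw [map_pow, ← hr', ← map_pow, h3, map_one]
  · obtain ⟨x, hx⟩ := h1 i
    refine ⟨x, ?_⟩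
    have h2 : ∀ j : ℕ, g ^ j • x = x := fun j => by
      induction j with
      | zero => rw [pow_zero, one_smul]
      | succ j ih => rw [pow_succ, mul_smul, hx, ih]
    exact h2 m

/-- **Theorem.** Finitely generated torsionfree groups acting on trees and on a plane over a
commutative ring of positive characteristic: all regular rings, bijectivity. -/
theorem hb_of_trees_plane {G : Type u} [Group G] (hfg : Group.FG G)
    (htf : ∀ g : G, IsOfFinOrder g → g = 1)
    {n : ℕ} (V : Fin n → Type u) [∀ i, MulAction G (V i)]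
    (T : ∀ i, Nonempty (TreeAction G (V i)))
    (A : Type u) [CommRing A] (N : ℕ) (hN : 0 < N) (hA : (N : A) = 0) (r : G →* PAut A)
    (h : ∀ g : G, r g = 1 → (∀ i, ∃ x : V i, g • x = x) → g = 1) : HB.{u} G := by
  obtain ⟨k, S, hS, hS1⟩ := exists_adm_of_trees_plane hfg htf V T A N hN hA r h
  exact Adm.hb k G htf S hS hS1

end Pool.Agent.Lib.MP_c052b4_al.JK
end

section

/-!
# Coherent trees, T04: groups fixing a vertex
-/

set_option autoImplicit false
set_option linter.unusedVariables false
set_option linter.unusedSectionVars false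

namespace Pool.Agent.Lib.MP_c052b4_al.CT

open MvPolynomial
open Pool.Agent.Lib.MP_c052b4_al.JK

universe u

/-- **A group of automorphisms over `K` which fixes a vertex of the tree over the algebraic closure is
conjugate over `K` to a group of affine or of triangular automorphisms.**
Proof: `C` acts on `VT K` through `r` (`kTree K`, `TreeAction.comp`) and on `VT L`,
`L = AlgebraicClosure K`, through `bc φ ∘ r` (`jTree`); `exists_vmap`, `exists_fixed_of_embedding` give a fixed
vertex `v` of `VT K`, `v = inl s` or `inr s` (`QuotientGroup.mk_surjective`); `mem_of_smul`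
(JK/MInd.lean; or `lna_inl`, `lna_inr`). -/
theorem conj_of_fixed {K : Type u} [Field K] {C : Type u} [Group C] (r : C →* AutA K)
    (x : VT (AlgebraicClosure K)) (hx : ∀ c, (bc (algebraMap K (AlgebraicClosure K)) (r c) :
      AutA (AlgebraicClosure K)) • x = x) :
    ∃ s : AutA K, (∀ c, s⁻¹ * r c * s ∈ Aff K) ∨ (∀ c, s⁻¹ * r c * s ∈ Tri K) := by
  obtain ⟨ι, hinj, hadj, hι⟩ := exists_vmap (algebraMap K (AlgebraicClosure K))
  let r' : C →* AutA (AlgebraicClosure K) := (bc (algebraMap K (AlgebraicClosure K))).comp r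
  let _ : MulAction C (VT K) := MulAction.compHom (VT K) r
  let _ : MulAction C (VT (AlgebraicClosure K)) := MulAction.compHom (VT (AlgebraicClosure K)) r'
  let A : TreeAction C (VT K) := (kTree K).comp r
  let B : TreeAction C (VT (AlgebraicClosure K)) := (jTree (K := AlgebraicClosure K)).comp r'
  obtain ⟨v, hv⟩ := exists_fixed_of_embedding A B ι hinj hadj (fun g y => hι (r g) y) x hx
  rcases v with q | q
  · obtain ⟨s, rfl⟩ := QuotientGroup.mk_surjective q
    exact ⟨s, Or.inl fun c => mem_of_smul (Sum.inl_injective (hv c))⟩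
  · obtain ⟨s, rfl⟩ := QuotientGroup.mk_surjective q
    exact ⟨s, Or.inr fun c => mem_of_smul (Sum.inr_injective (hv c))⟩

/-- The conjugate homomorphism. -/
noncomputable def cjg {K : Type u} [Field K] {C : Type u} [Group C] (r : C →* AutA K)
    (s : AutA K) : C →* AutA K := (MulAut.conj s⁻¹).toMonoidHom.comp r

theorem cjg_apply {K : Type u} [Field K] {C : Type u} [Group C] (r : C →* AutA K) (s : AutA K)
    (c : C) : cjg r s c = s⁻¹ * r c * s := by
  show s⁻¹ * r c * s⁻¹⁻¹ = _
  rw [inv_inv]

theorem cjg_injective {K : Type u} [Field K] {C : Type u} [Group C] {r : C →* AutA K}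
    (hr : Function.Injective r) (s : AutA K) : Function.Injective (cjg r s) :=
  (MulAut.conj s⁻¹).injective.comp hr

/-- Proof: `LocInt.conj` with `s⁻¹` (`s * (s⁻¹ σ s) * s⁻¹ = σ`). -/
theorem cjg_locInt {K : Type u} [Field K] {C : Type u} [Group C] {r : C →* AutA K} {c : C}
    (h : LocInt (R := K) (r c)) (s : AutA K) : LocInt (R := K) (cjg r s c) := by
  refine LocInt.conj (s := (s⁻¹ : AutA K)) ?_
  have h1 : ((s⁻¹ : AutA K)⁻¹ * cjg r s c * s⁻¹ : AutA K) = r c := by
    rw [cjg_apply]
    group
  have h2 : LocInt (R := K) ((s⁻¹ : AutA K)⁻¹ * cjg r s c * s⁻¹ : AutA K) := by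
    rw [h1]
    exact h
  exact h2

end Pool.Agent.Lib.MP_c052b4_al.CT
end
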