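import Pool.Agent.Lib.MP_c052b4_al.Mg.G073
import Pool.Agent.Lib.MP_c052b4_al.Mg.G033
import Pool.Agent.Lib.MP_c052b4_al.Mg.G081
import Pool.Agent.Lib.MP_c052b4_al.TR.FpCoh
import Pool.Agent.Lib.MP_c052b4_al.NiceAb
import Pool.Agent.Lib.MP_c052b4_al.Mg.G038

section

/-!
# Coherent trees, W01: finite subtrees
-/

set_option autoImplicit false
set_option linter.unusedVariables false
set_option linter.unusedSectionVars false

namespace Pool.Agent.Lib.MP_c052b4_al.CT

open Matrix MulAction

universe u v

private theorem w01_conn {V : Type v} {T : SimpleGraph V} (hT : T.Connected) (r : V)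
    (S : Finset V) : ∃ B0 : Finset V, MT.Conn T B0 ∧ r ∈ B0 ∧ S ⊆ B0 := by
  classical
  induction S using Finset.induction_on with
  | empty => exact ⟨{r}, MT.conn_singleton r, Finset.mem_singleton_self r, Finset.empty_subset _⟩
  | insert a S _ ih =>
    obtain ⟨B, hB, hr, hS⟩ := ih
    obtain ⟨B', hB', h1, h2⟩ := MT.exists_conn_sup hT ⟨r, hr⟩ hB (Finset.singleton_nonempty a)
      (MT.conn_singleton a)
    refine ⟨B', hB', h1 hr, ?_⟩
    intro x hx
    rcases Finset.mem_insert.mp hx with rfl | hx
    · exact h2 (Finset.mem_singleton_self _)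
    · exact h1 (hS hx)

private theorem w01_sx {U : Type v} (d : U →₀ ℤ) : sx d (1 : ℤ) = d := by
  ext w
  rw [sx_apply, smul_eq_mul, mul_one]

private theorem w01_step {G : Type v} [Group G] {V E : Type v} [MulAction G V] [MulAction G E]
    (O : OTree G V E) (B0 : Finset V) (B1 : Finset E)
    (hB1 : ∀ e, O.o e ∈ B0 → O.t e ∈ B0 → e ∈ B1) (r : V) (w : V)
    (h : Relation.ReflTransGen (fun a b => O.T.Adj a b ∧ a ∈ B0 ∧ b ∈ B0) r w) :
    ∃ c : E →₀ ℤ, c ∈ Finsupp.supported ℤ ℤ (B1 : Set E) ∧
      TL ℤ O.bd c + Finsupp.single r 1 = Finsupp.single w 1 := by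
  induction h with
  | refl => exact ⟨0, Submodule.zero_mem _, by rw [map_zero, zero_add]⟩
  | @tail x y _ h ih =>
    obtain ⟨c, hc, hcx⟩ := ih
    obtain ⟨hadj, hx, hy⟩ := h
    rcases O.cover x y hadj with ⟨e, h1, h2⟩ | ⟨e, h1, h2⟩
    · refine ⟨c + Finsupp.single e 1, Submodule.add_mem _ hc
        (Finsupp.single_mem_supported ℤ _ (hB1 e (by rw [h1]; exact hx) (by rw [h2]; exact hy))),
        ?_⟩
      have hb : O.bd e = Finsupp.single (O.t e) 1 - Finsupp.single (O.o e) 1 := rfl
      have e1 : TL ℤ O.bd c + O.bd e + Finsupp.single r 1 =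
          (TL ℤ O.bd c + Finsupp.single r 1) + O.bd e := by abel
      rw [map_add, TL_single, w01_sx, e1, hcx, hb, h1, h2]
      abel
    · refine ⟨c - Finsupp.single e 1, Submodule.sub_mem _ hc
        (Finsupp.single_mem_supported ℤ _ (hB1 e (by rw [h1]; exact hy) (by rw [h2]; exact hx))),
        ?_⟩
      have hb : O.bd e = Finsupp.single (O.t e) 1 - Finsupp.single (O.o e) 1 := rfl
      have e1 : TL ℤ O.bd c - O.bd e + Finsupp.single r 1 =
          (TL ℤ O.bd c + Finsupp.single r 1) - O.bd e := by abel
      rw [map_sub, TL_single, w01_sx, e1, hcx, hb, h1, h2]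
      abel

/-- **Finite subtrees.** Every finite set of vertices lies in a finite set `B0` such that for a finite
set `B1` of edges with ends in `B0` each `v ∈ B0` is joined to `r` by a chain of edges of `B1`.
Proof: (`V` is nonempty as `O.T` is connected.) By `MT.exists_conn_sup` and induction over `S` (starting
with `{r}`, `MT.conn_singleton`) there is a finite connected set `B0` containing `r` and `S`. Let `B1` be
the set of all edges `e` with `O.o e ∈ B0` and `O.t e ∈ B0`; it is finite, as `e ↦ (O.o e, O.t e)` is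
injective (`O.inj`). For `v ∈ B0` there is a walk from `r` to `v` with support in `B0`; by
induction over the walk one finds the chain (see `OTree.exists_path`, TD/TreeTwo.lean, for the
computation with one edge). -/
theorem exists_subtree {G : Type v} [Group G] {V E : Type v} [MulAction G V] [MulAction G E]
    (O : OTree G V E) (S : Finset V) : ∃ (B0 : Finset V) (B1 : Finset E) (r : V)
      (s : V → (E →₀ ℤ)), S ⊆ B0 ∧ (∀ e ∈ B1, O.o e ∈ B0 ∧ O.t e ∈ B0) ∧
      ∀ w ∈ B0, s w ∈ Finsupp.supported ℤ ℤ (B1 : Set E) ∧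
        TL ℤ O.bd (s w) + Finsupp.single r 1 = Finsupp.single w 1 := by
  classical
  obtain ⟨r⟩ : Nonempty V := O.tree.connected.nonempty
  obtain ⟨B0, hB0, hr, hS⟩ := w01_conn O.tree.connected r S
  have hfin : {e : E | O.o e ∈ B0 ∧ O.t e ∈ B0}.Finite := by
    have h1 : ((fun e : E => (O.o e, O.t e)) ⁻¹' ((B0 ×ˢ B0 : Finset (V × V)) : Set (V × V))).Finite := by
      refine Set.Finite.preimage ?_ (Finset.finite_toSet _)
      intro e _ f _ hef
      exact O.inj e f (congrArg Prod.fst hef) (congrArg Prod.snd hef)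
    refine h1.subset ?_
    intro e he
    rw [Set.mem_preimage, Finset.mem_coe, Finset.mem_product]
    exact he
  have hmem : ∀ e, e ∈ hfin.toFinset ↔ O.o e ∈ B0 ∧ O.t e ∈ B0 := fun e => hfin.mem_toFinset
  have key : ∀ w ∈ B0, ∃ c : E →₀ ℤ, c ∈ Finsupp.supported ℤ ℤ (hfin.toFinset : Set E) ∧
      TL ℤ O.bd c + Finsupp.single r 1 = Finsupp.single w 1 := fun w hw =>
    w01_step O B0 hfin.toFinset (fun e h1 h2 => (hmem e).mpr ⟨h1, h2⟩) r w (hB0 r hr w hw)
  choose! s hs using key
  exact ⟨B0, hfin.toFinset, r, s, hS, fun e he => (hmem e).mp he, hs⟩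

private theorem w01_TL {U V : Type v} {A : Type*} [Ring A] {M : Type*} [AddCommGroup M]
    [Module A M] (s : U → (V →₀ ℤ)) (f : U →₀ M) : TL A s f = f.sum fun u x => sx (s u) x := by
  unfold TL
  rw [Finsupp.lsum_apply]
  rfl

/-- Functions on the vertices of a finite subtree with sum zero are boundaries.
Proof: `y = TL A s f`, and `TL A O.bd (TL A s f) + single r (ag A f) = f` (compare `TwoC.c3`, with
`TL_comp`, `TL_const`, `TL_add`, `TL_id`; here only for `f` with support in `B0`, by induction or by
`Finsupp.sum_congr`). -/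
theorem exists_bd {G : Type v} [Group G] {V E : Type v} [MulAction G V] [MulAction G E]
    (O : OTree G V E) {B0 : Finset V} {B1 : Finset E} {r : V} {s : V → (E →₀ ℤ)}
    (hs : ∀ w ∈ B0, s w ∈ Finsupp.supported ℤ ℤ (B1 : Set E) ∧
        TL ℤ O.bd (s w) + Finsupp.single r 1 = Finsupp.single w 1)
    {A : Type*} [Ring A] {M : Type*} [AddCommGroup M] [Module A M] (f : V →₀ M)
    (hf : f ∈ Finsupp.supported M A (B0 : Set V)) (h0 : ag A f = 0) :
    ∃ y ∈ Finsupp.supported M A (B1 : Set E), TL A O.bd y = f := by
  have hf' : ∀ u ∈ f.support, u ∈ B0 := fun u hu => (Finsupp.mem_supported A f).mp hf hu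
  refine ⟨TL A s f, ?_, ?_⟩
  · rw [w01_TL, Finsupp.sum]
    refine Submodule.sum_mem _ fun u hu => ?_
    rw [Finsupp.mem_supported]
    intro e he
    rw [Finset.mem_coe, Finsupp.mem_support_iff, sx_apply] at he
    have h1 : s u e ≠ 0 := by
      intro h
      rw [h, zero_smul] at he
      exact he rfl
    exact (Finsupp.mem_supported ℤ _).mp (hs u (hf' u hu)).1 (Finsupp.mem_support_iff.mpr h1)
  · have h1 : TL A O.bd (TL A s f) + Finsupp.single r (ag A f) = f := by
      rw [← TL_const, TL_comp, ← TL_add]
      have h2 : TL A (fun u => TL ℤ O.bd (s u) + Finsupp.single r 1) f =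
          TL A (fun u => Finsupp.single u (1 : ℤ)) f := by
        rw [w01_TL, w01_TL, Finsupp.sum, Finsupp.sum]
        refine Finset.sum_congr rfl fun u hu => ?_
        rw [(hs u (hf' u hu)).2]
      rw [h2]
      exact TL_id f
    rw [h0, Finsupp.single_zero, add_zero] at h1
    exact h1

end Pool.Agent.Lib.MP_c052b4_al.CT
end

section

/-!
# Torsionfree commutative groups are in the class of Waldhausen
-/

set_option autoImplicit false

namespace Pool.Agent.Lib.MP_c052b4_al.JK

open MulAction

universe u v

/-- regular rings are regular coherent -/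
theorem regCoh_of_regular {C : Type u} [Ring C] (h : IsRegularRing C) : RegCoh C := by
  refine regCoh_of_finitePresentation fun M _ _ hM => ?_
  have : Module.Finite C M := inferInstance
  exact h.2 M this

theorem regCohGroup_pi (r : ℕ) : RegCohGroup.{u} (ULift.{v} (Multiplicative (Fin r → ℤ))) :=
  fun _ _ hR => regCoh_of_regular ((nice_pi hR r).of_mulEquiv MulEquiv.ulift.symm).reg

/-- The line with the action of `G` through a homomorphism to `ℤ`. -/
theorem exists_line {G : Type v} [Group G] (c : G →* Multiplicative ℤ) :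
    ∃ (V : Type v) (_ : MulAction G V) (_ : TreeAction G V), ∀ (g : G) (x : V), g • x = x →
      c g = 1 := by
  let act : MulAction G (ULift.{v} ℤ) :=
    { smul := fun g n => ⟨n.down + Multiplicative.toAdd (c g)⟩
      one_smul := fun n => by
        apply ULift.ext
        change n.down + Multiplicative.toAdd (c 1) = n.down
        rw [map_one, toAdd_one, add_zero]
      mul_smul := fun g h n => by
        apply ULift.ext
        change n.down + Multiplicative.toAdd (c (g * h)) =
          (n.down + Multiplicative.toAdd (c h)) + Multiplicative.toAdd (c g)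
        rw [map_mul, toAdd_mul]
        ring }
  have hsmul : ∀ (g : G) (n : ULift.{v} ℤ),
      (g • n).down = n.down + Multiplicative.toAdd (c g) := fun _ _ => rfl
  obtain ⟨Gr, hGr⟩ : ∃ Gr : SimpleGraph (ULift.{v} ℤ), ∀ n m : ULift.{v} ℤ,
      Gr.Adj n m ↔ (n.down + 1 = m.down ∨ m.down + 1 = n.down) :=
    ⟨{ Adj := fun n m => n.down + 1 = m.down ∨ m.down + 1 = n.down
       symm := ⟨fun n m h => h.symm⟩
       loopless := ⟨fun n h => by rcases h with h | h <;> omega⟩ }, fun _ _ => Iff.rfl⟩
  have hit : ∀ (n : ℕ) (x : ULift.{v} ℤ),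
      ((fun x : ULift.{v} ℤ => (⟨x.down + 1⟩ : ULift.{v} ℤ))^[n] x).down = x.down + n := by
    intro n
    induction n with
    | zero => intro x; simp
    | succ n ih =>
      intro x
      rw [Function.iterate_succ_apply, ih]
      push_cast
      ring
  have htree : Gr.IsTree := by
    refine MT.L.isTree_of_parent (fun x : ULift.{v} ℤ => (⟨x.down + 1⟩ : ULift.{v} ℤ))
      (fun x n hn h => ?_) (fun x y => ?_) Gr (fun x y => ?_)
    · have h1 := congrArg ULift.down h
      rw [hit] at h1
      omega
    · refine ⟨(y.down - x.down).toNat, (x.down - y.down).toNat, ULift.ext _ _ ?_⟩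
      rw [hit, hit]
      omega
    · rw [hGr, ULift.ext_iff, ULift.ext_iff]
  refine ⟨ULift.{v} ℤ, act,
    { graph := Gr
      tree := htree
      adj_smul := fun g x y h => ?_
      no_inversion := fun g x y h h1 h2 => ?_ }, fun g x h => ?_⟩
  · rw [hGr] at h ⊢
    rw [hsmul, hsmul]
    rcases h with h | h
    · left
      omega
    · right
      omega
  · rw [hGr] at h
    have e1 := congrArg ULift.down h1
    have e2 := congrArg ULift.down h2
    rw [hsmul] at e1 e2
    omega
  · have e1 := congrArg ULift.down h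
    rw [hsmul] at e1
    have e2 : Multiplicative.toAdd (c g) = 0 := by omega
    exact toAdd_eq_zero.1 e2

/-- the first coordinate -/
def hd (r : ℕ) : Multiplicative (Fin (r + 1) → ℤ) →* Multiplicative ℤ :=
  AddMonoidHom.toMultiplicative
    { toFun := fun v => v 0
      map_zero' := rfl
      map_add' := fun _ _ => rfl }

/-- the other coordinates -/
def tl (r : ℕ) : Multiplicative (Fin (r + 1) → ℤ) →* Multiplicative (Fin r → ℤ) :=
  AddMonoidHom.toMultiplicative
    { toFun := fun v j => v j.succ
      map_zero' := rfl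
      map_add' := fun _ _ => rfl }

theorem hd_tl (r : ℕ) (x y : Multiplicative (Fin (r + 1) → ℤ)) (h1 : hd r x = hd r y)
    (h2 : tl r x = tl r y) : x = y := by
  apply Multiplicative.toAdd.injective
  funext j
  refine Fin.cases ?_ (fun j => ?_) j
  · exact Multiplicative.ofAdd.injective h1
  · exact congrFun (Multiplicative.ofAdd.injective h2) j

theorem wald_pi (r : ℕ) : ∀ (H : Type v) [Group H] (f : H →* Multiplicative (Fin r → ℤ)),
    Function.Injective f → Wald.{u} H := by
  induction r with
  | zero =>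
    intro H _ f hf
    have : Subsingleton H := hf.subsingleton
    exact Wald.triv H
  | succ r ih =>
    intro H _ f hf
    obtain ⟨V, act, T, hT⟩ := exists_line ((hd r).comp f)
    have key : ∀ S : Subgroup H, (∀ s ∈ S, hd r (f s) = 1) →
        Function.Injective (((tl r).comp f).comp S.subtype) := by
      intro S hS x y hxy
      apply Subtype.ext
      apply hf
      refine hd_tl r _ _ ?_ hxy
      rw [hS x x.2, hS y y.2]
    refine Wald.tree H V T (fun x => ?_) fun x y _ => ?_
    · exact ih _ _ (key (stabilizer H x) fun s hs => hT s x hs)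
    · intro R _ hR
      have h1 := key (stabilizer H x ⊓ stabilizer H y) fun s hs => hT s x hs.1
      exact (regCohGroup_pi.{u, v} r R hR).of_injective
        ((MulEquiv.ulift.symm : Multiplicative (Fin r → ℤ) ≃* _).toMonoidHom.comp _)
        ((MulEquiv.ulift.symm : Multiplicative (Fin r → ℤ) ≃* _).injective.comp h1)

theorem wald_of_comm (H : Type v) [Group H] (hc : ∀ a b : H, a * b = b * a)
    (htf : ∀ h : H, IsOfFinOrder h → h = 1) : Wald.{u} H := by
  refine Wald.union H {S | S.FG} ⟨⊥, Subgroup.FG.bot⟩ ?_ ?_ ?_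
  · intro A hA B hB
    exact ⟨A ⊔ B, Subgroup.FG.sup hA hB, le_sup_left, le_sup_right⟩
  · intro g
    exact ⟨Subgroup.zpowers g, ⟨{g}, by rw [Finset.coe_singleton, Subgroup.zpowers_eq_closure]⟩,
      Subgroup.mem_zpowers g⟩
  · intro S hS
    let inst : CommGroup S :=
      { (inferInstance : Group S) with
        mul_comm := fun a b => Subtype.ext (hc a b) }
    have hfg : Group.FG S := (Group.fg_iff_subgroup_fg S).2 hS
    have h1 : IsMulTorsionFree S := by
      rw [isMulTorsionFree_iff_not_isOfFinOrder]
      intro a ha h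
      exact ha (Subtype.ext (htf a ((Submonoid.isOfFinOrder_coe (H := S.toSubmonoid)).2 h)))
    have h2 : Module.Finite ℤ (Additive S) := Module.Finite.iff_addGroup_fg.2 inferInstance
    let b := Module.finBasis ℤ (Additive S)
    let e : Additive S ≃+ (Fin (Module.finrank ℤ (Additive S)) → ℤ) := b.equivFun.toAddEquiv
    let e' : Multiplicative (Fin (Module.finrank ℤ (Additive S)) → ℤ) ≃* S :=
      (AddEquiv.toMultiplicativeRight e).symm
    exact wald_pi _ S e'.symm.toMonoidHom e'.symm.injective

end Pool.Agent.Lib.MP_c052b4_al.JK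
end
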