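import Pool.Agent.Lib.MP_c052b4_al.Mg.G062
import Pool.Agent.Lib.MP_c052b4_al.Mg.G051
import Pool.Agent.Lib.MP_c052b4_al.TD.Cd
import Pool.Agent.Lib.MP_c052b4_al.LK.F4
import Pool.Agent.Lib.MP_c052b4_al.Mg.G043

section

/-!
# Coherent trees, W03: regular coherence for groups acting on trees
-/

set_option autoImplicit false
set_option linter.unusedVariables false
set_option linter.unusedSectionVars false

namespace Pool.Agent.Lib.MP_c052b4_al.CT

open Matrix MulAction

universe u v

section

variable {R : Type u} [Ring R] {H : Type v} [Group H] {V E : Type v} [MulAction H V] [MulAction H E]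
  (O : OTree H V E) {n m : ℕ} (P : Matrix (Fin n) (Fin m) (MonoidAlgebra R H))

/-- The row space. -/
noncomputable def rsp : Submodule (MonoidAlgebra R H) (Fin m → MonoidAlgebra R H) :=
  LinearMap.range (Matrix.vecMulLinear P)

/-- The rows, as homogeneous functions of degree `r`. -/
noncomputable def rowl (r : V) (j : Fin n) : V →₀ (Fin m → MonoidAlgebra R H) :=
  utw (Finsupp.single r (P j))

/-- `x ↦` (the edge `e` goes to its origin). -/
noncomputable def dO : (E →₀ (Fin m → MonoidAlgebra R H)) →ₗ[MonoidAlgebra R H]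
    (V →₀ (Fin m → MonoidAlgebra R H)) :=
  TL (MonoidAlgebra R H) fun e => Finsupp.single (O.o e) (1 : ℤ)

/-- The edge `e` goes to its terminus. -/
noncomputable def dT : (E →₀ (Fin m → MonoidAlgebra R H)) →ₗ[MonoidAlgebra R H]
    (V →₀ (Fin m → MonoidAlgebra R H)) :=
  TL (MonoidAlgebra R H) fun e => Finsupp.single (O.t e) (1 : ℤ)

/-- The relations on the edges. -/
noncomputable def relE (B1 : Finset E) :
    Submodule (MonoidAlgebra R H) (E →₀ (Fin m → MonoidAlgebra R H)) :=
  EI E (rsp P) ⊓ Finsupp.supported _ _ (B1 : Set E)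

/-- The relations on the vertices. -/
noncomputable def relV (B1 : Finset E) (r : V) :
    Submodule (MonoidAlgebra R H) (V →₀ (Fin m → MonoidAlgebra R H)) :=
  Submodule.span (MonoidAlgebra R H) (Set.range (rowl P r)) ⊔
    ((relE P B1).map (dO O) ⊔ (relE P B1).map (dT O))

/-- `TL O.bd = dT - dO` (`Finsupp.lhom_ext`, `TL_single`). -/
theorem TL_bd_eq (f : E →₀ (Fin m → MonoidAlgebra R H)) :
    TL (MonoidAlgebra R H) O.bd f = dT O f - dO O f := by
  have h := TL_add (A := MonoidAlgebra R H) O.bd (fun e => Finsupp.single (O.o e) (1 : ℤ)) f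
  have h2 : (fun e => O.bd e + Finsupp.single (O.o e) (1 : ℤ)) =
      fun e => Finsupp.single (O.t e) (1 : ℤ) := by
    funext e
    exact sub_add_cancel _ _
  rw [h2] at h
  exact eq_sub_of_add_eq h.symm

/-- `perf_EI`. -/
theorem perf_relE (he : ∀ e : E, IsRegularRing (MonoidAlgebra R (stabilizer H e)))
    (B1 : Finset E) : Perf (MonoidAlgebra R H) (relE P B1) :=
  perf_EI he (rsp P) B1

/-- the homogeneous component -/
private noncomputable def w03_cmp {U : Type v} [MulAction H U] (w : U) :
    (U →₀ (Fin m → MonoidAlgebra R H)) →+ (U →₀ (Fin m → MonoidAlgebra R H)) where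
  toFun f := utw (Finsupp.single w (tw f w))
  map_zero' := by rw [map_zero, Finsupp.zero_apply, Finsupp.single_zero, map_zero]
  map_add' f f' := by rw [map_add, Finsupp.add_apply, Finsupp.single_add, map_add]

private theorem w03_cmp_eq {U : Type v} [MulAction H U] (w : U)
    (f : U →₀ (Fin m → MonoidAlgebra R H)) :
    w03_cmp w f = utw (Finsupp.single w (tw f w)) := rfl

private theorem w03_tw_cmp {U : Type v} [MulAction H U] (w : U)
    (f : U →₀ (Fin m → MonoidAlgebra R H)) :
    tw (w03_cmp w f) = Finsupp.single w (tw f w) := tw_utw _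

private theorem w03_sum {U : Type v} [MulAction H U] (f : U →₀ (Fin m → MonoidAlgebra R H)) :
    f = ∑ w ∈ (tw f).support, w03_cmp w f := by
  apply tw_injective
  rw [map_sum]
  simp only [w03_tw_cmp]
  exact (Finsupp.sum_single (tw f)).symm

private theorem w03_smul {U : Type v} [MulAction H U] (w : U) (h : H) (r : R)
    (f : U →₀ (Fin m → MonoidAlgebra R H)) :
    w03_cmp w (MonoidAlgebra.single h r • f) =
      MonoidAlgebra.single h r • w03_cmp (h⁻¹ • w) f := by
  classical
  apply tw_injective
  ext1 u
  rw [w03_tw_cmp, tw_smul, tw_smul, w03_tw_cmp, Finsupp.single_apply, Finsupp.single_apply]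
  by_cases hu : w = u
  · rw [if_pos hu, if_pos (by rw [hu])]
  · rw [if_neg hu, if_neg (fun hc => hu (smul_left_cancel _ hc)), smul_zero]

/-- the elements with components in `N` -/
private noncomputable def w03_grd {U : Type v} [MulAction H U]
    (N : Submodule (MonoidAlgebra R H) (U →₀ (Fin m → MonoidAlgebra R H))) :
    Submodule (MonoidAlgebra R H) (U →₀ (Fin m → MonoidAlgebra R H)) where
  carrier := {f | ∀ w, w03_cmp w f ∈ N}
  add_mem' := by
    intro f f' h h' w
    rw [map_add]
    exact N.add_mem (h w) (h' w)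
  zero_mem' := by
    intro w
    rw [map_zero]
    exact N.zero_mem
  smul_mem' := by
    intro a f hf
    induction a using MonoidAlgebra.induction_linear with
    | zero =>
      intro w
      rw [zero_smul, map_zero]
      exact N.zero_mem
    | add a b ha hb =>
      intro w
      rw [add_smul, map_add]
      exact N.add_mem (ha w) (hb w)
    | single h r =>
      intro w
      rw [w03_smul]
      exact N.smul_mem _ (hf _)

private theorem w03_relE (B1 : Finset E) {f : E →₀ (Fin m → MonoidAlgebra R H)}
    (hf : f ∈ relE P B1) (w : E) : w03_cmp w f ∈ relE P B1 := by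
  classical
  refine ⟨?_, ?_⟩
  · intro u
    rw [w03_tw_cmp, Finsupp.single_apply]
    split_ifs
    · exact hf.1 w
    · exact Submodule.zero_mem _
  · refine (Finsupp.mem_supported' _ _).2 fun u hu => ?_
    have h1 : f u = 0 := (Finsupp.mem_supported' _ _).1 hf.2 u hu
    funext i
    ext g
    rw [w03_cmp_eq, coeff_utw, Finsupp.single_apply]
    split_ifs with h2
    · rw [coeff_tw, h2, inv_smul_smul, h1]
    · rfl

private theorem w03_push (d : E → V) (hd : ∀ (h : H) e, d (h • e) = h • d e) (B1 : Finset E)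
    {f : E →₀ (Fin m → MonoidAlgebra R H)} (hf : f ∈ relE P B1) (w : V) :
    w03_cmp w (TL (MonoidAlgebra R H) (fun e => Finsupp.single (d e) (1 : ℤ)) f) ∈
      (relE P B1).map (TL (MonoidAlgebra R H) fun e => Finsupp.single (d e) (1 : ℤ)) := by
  classical
  have hd' : ∀ (h : H) (e : E), (Finsupp.single (d (h • e)) (1 : ℤ) : V →₀ ℤ) =
      (Finsupp.single (d e) (1 : ℤ)).mapDomain fun v => h • v := by
    intro h e
    rw [Finsupp.mapDomain_single, hd]
  rw [w03_sum f, map_sum, map_sum]
  refine Submodule.sum_mem _ fun e _ => ?_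
  have h1 : tw (TL (MonoidAlgebra R H) (fun e => Finsupp.single (d e) (1 : ℤ)) (w03_cmp e f)) =
      Finsupp.single (d e) (tw f e) := by
    rw [tw_TL _ hd', w03_tw_cmp, TL_single, sx_single, one_smul]
  by_cases h2 : d e = w
  · have h3 : w03_cmp w (TL (MonoidAlgebra R H) (fun e => Finsupp.single (d e) (1 : ℤ))
        (w03_cmp e f)) = TL (MonoidAlgebra R H) (fun e => Finsupp.single (d e) (1 : ℤ))
        (w03_cmp e f) := by
      apply tw_injective
      rw [w03_tw_cmp, h1, ← h2, Finsupp.single_eq_same]
    rw [h3]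
    exact Submodule.mem_map_of_mem (w03_relE P B1 hf e)
  · have h3 : w03_cmp w (TL (MonoidAlgebra R H) (fun e => Finsupp.single (d e) (1 : ℤ))
        (w03_cmp e f)) = 0 := by
      apply tw_injective
      rw [w03_tw_cmp, h1, Finsupp.single_apply, if_neg h2, Finsupp.single_zero, map_zero]
    rw [h3]
    exact Submodule.zero_mem _

/-- The relations on the vertices are perfect.
Proof: `perf_of_graded`. Finitely generated: `perf_relE`, `Perf.finite`, images, finite span, sums.
Graded: the generators `rowl` are homogeneous (and the span of homogeneous elements is graded: use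
`tw_smul` for `single h r • f`), `relE` is graded (`mem_EI`, and the component of a function with
support in `B1` has support in `B1`: coefficients of `utw (single w (tw f w))` are coefficients of
`f`), and `dO`, `dT` commute with taking components (`tw_TL` with `O.o_smul`, `O.t_smul`; the
function `e ↦ single (O.o e) 1` sends the component `w` to the component `O.o w`). -/
theorem perf_relV (hv : ∀ v : V, RegCoh (MonoidAlgebra R (stabilizer H v)))
    (he : ∀ e : E, IsRegularRing (MonoidAlgebra R (stabilizer H e)))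
    (B1 : Finset E) (r : V) : Perf (MonoidAlgebra R H) (relV O P B1 r) := by
  classical
  have hE : (relE P B1).FG := by
    have h := (perf_relE P he B1).finite
    rwa [Module.Finite.iff_fg] at h
  refine perf_of_graded hv _ ?_ ?_
  · exact (Submodule.fg_span (Set.finite_range _)).sup ((hE.map _).sup (hE.map _))
  · have key : relV O P B1 r ≤ w03_grd (relV O P B1 r) := by
      refine sup_le ?_ (sup_le ?_ ?_)
      · rw [Submodule.span_le]
        rintro _ ⟨j, rfl⟩ w
        have h1 : tw (rowl P r j) = Finsupp.single r (P j) := tw_utw _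
        by_cases h2 : r = w
        · have h3 : w03_cmp w (rowl P r j) = rowl P r j := by
            apply tw_injective
            rw [w03_tw_cmp, h1, ← h2, Finsupp.single_eq_same]
          rw [h3]
          exact Submodule.mem_sup_left (Submodule.subset_span ⟨j, rfl⟩)
        · have h3 : w03_cmp w (rowl P r j) = 0 := by
            apply tw_injective
            rw [w03_tw_cmp, h1, Finsupp.single_apply, if_neg h2, Finsupp.single_zero, map_zero]
          rw [h3]
          exact Submodule.zero_mem _
      · rintro _ ⟨f, hf, rfl⟩ w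
        exact Submodule.mem_sup_right (Submodule.mem_sup_left
          (w03_push P O.o O.o_smul B1 hf w))
      · rintro _ ⟨f, hf, rfl⟩ w
        exact Submodule.mem_sup_right (Submodule.mem_sup_right
          (w03_push P O.t O.t_smul B1 hf w))
    exact fun f hf w => key hf w

/-- `relV ≤ EI V (rsp P)`: `EI_TL` for `dO`, `dT`; `tw (rowl P r j) = single r (P j)` (`tw_utw`). -/
theorem relV_le (B1 : Finset E) (r : V) : relV O P B1 r ≤ EI V (rsp P) := by
  classical
  refine sup_le ?_ (sup_le ?_ ?_)
  · rw [Submodule.span_le]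
    rintro _ ⟨j, rfl⟩ w
    have h1 : tw (rowl P r j) = Finsupp.single r (P j) := tw_utw _
    rw [h1, Finsupp.single_apply]
    split_ifs
    · refine ⟨Pi.single j 1, ?_⟩
      change Pi.single j 1 ᵥ* P = P j
      rw [Matrix.single_one_vecMul]
      rfl
    · exact Submodule.zero_mem _
  · rintro _ ⟨f, hf, rfl⟩
    refine EI_TL _ (fun h e => ?_) hf.1
    rw [Finsupp.mapDomain_single, O.o_smul]
  · rintro _ ⟨f, hf, rfl⟩
    refine EI_TL _ (fun h e => ?_) hf.1
    rw [Finsupp.mapDomain_single, O.t_smul]

/-- If the boundary of `y` is a relation then `y` is a relation.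
Proof: `relV_le` and `EI_of_retract` for `O.bd`; a retraction is contained in `O.exists_twoC`
(`TwoC.s0`, `TwoC.h2` with `PEmpty` as set of faces; unpack with `OTree.eq_zero_of_TL_bd`: or choose
`s0` by `O.exists_path`, then `TL ℤ s0 (O.bd e) = single e 1` follows from `eq_zero_of_TL_bd` applied to
the difference). -/
theorem mem_relE_of_bd (B1 : Finset E) (r : V) (y : E →₀ (Fin m → MonoidAlgebra R H))
    (hy : y ∈ Finsupp.supported _ (MonoidAlgebra R H) (B1 : Set E))
    (h : TL (MonoidAlgebra R H) O.bd y ∈ relV O P B1 r) : y ∈ relE P B1 := by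
  choose s0 hs0 using fun v => O.exists_path r _ v rfl
  have hsx : ∀ {U : Type v} (d : U →₀ ℤ), sx d (1 : ℤ) = d := by
    intro U d
    ext w
    rw [sx_apply, smul_eq_mul, mul_one]
  have hbd : ∀ e, TL ℤ s0 (O.bd e) = s0 (O.t e) - s0 (O.o e) := by
    intro e
    unfold OTree.bd
    rw [map_sub, TL_single, TL_single, hsx, hsx]
  have hret : ∀ e, TL ℤ s0 (O.bd e) = Finsupp.single e 1 := by
    intro e
    rw [hbd, ← sub_eq_zero]
    apply O.eq_zero_of_TL_bd
    rw [map_sub, map_sub, hs0, hs0, TL_single, hsx]
    unfold OTree.bd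
    abel
  exact ⟨EI_of_retract O.bd O.bd_smul s0 hret (relV_le O P B1 r h), hy⟩

end

end Pool.Agent.Lib.MP_c052b4_al.CT
end

section

/-!
# Coherent trees, W04: regular coherence for groups acting on trees, II
-/

set_option autoImplicit false
set_option linter.unusedVariables false
set_option linter.unusedSectionVars false

namespace Pool.Agent.Lib.MP_c052b4_al.CT

open Matrix MulAction

universe u v

section Aux

theorem w04_retract {G : Type v} [Group G] {V E : Type v} [MulAction G V] [MulAction G E]
    (O : OTree G V E) : ∃ s0 : V → (E →₀ ℤ), ∀ e, TL ℤ s0 (O.bd e) = Finsupp.single e 1 := by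
  classical
  obtain ⟨r⟩ : Nonempty V := O.tree.connected.nonempty
  choose s0 hs0 using fun v => O.exists_path r _ v rfl
  have hsx : ∀ {U : Type v} (d : U →₀ ℤ), sx d (1 : ℤ) = d := by
    intro U d
    ext w
    rw [sx_apply, smul_eq_mul, mul_one]
  have hbd : ∀ e, TL ℤ s0 (O.bd e) = s0 (O.t e) - s0 (O.o e) := by
    intro e
    unfold OTree.bd
    rw [map_sub, TL_single, TL_single, hsx, hsx]
  refine ⟨s0, fun e => ?_⟩
  rw [hbd, ← sub_eq_zero]
  apply O.eq_zero_of_TL_bd
  rw [map_sub, map_sub, hs0, hs0, TL_single, hsx]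
  unfold OTree.bd
  abel

theorem w04_inj {G : Type v} [Group G] {V E : Type v} [MulAction G V] [MulAction G E]
    (O : OTree G V E) {A : Type*} [Ring A] {M : Type*} [AddCommGroup M] [Module A M] :
    Function.Injective (TL A O.bd : (E →₀ M) →ₗ[A] (V →₀ M)) := by
  obtain ⟨s0, h⟩ := w04_retract O
  have key : ∀ f : E →₀ M, TL A s0 (TL A O.bd f) = f := by
    intro f
    rw [TL_comp]
    simp only [h]
    exact TL_id f
  intro f g hfg
  rw [← key f, ← key g, hfg]

theorem w04_supp {A : Type*} [Ring A] {M : Type*} [AddCommGroup M] [Module A M] {U V : Type*}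
    (s : U → (V →₀ ℤ)) {B1 : Finset U} {B0 : Finset V}
    (hs : ∀ u ∈ B1, ∀ v, v ∉ B0 → s u v = 0) {f : U →₀ M}
    (hf : f ∈ Finsupp.supported M A (B1 : Set U)) :
    TL A s f ∈ Finsupp.supported M A (B0 : Set V) := by
  have h : TL A s f = f.sum fun u x => sx (s u) x := by
    unfold TL
    rw [Finsupp.lsum_apply]
    rfl
  rw [h, Finsupp.sum]
  refine Submodule.sum_mem _ fun u hu => (Finsupp.mem_supported' _ _).2 fun v hv => ?_
  rw [sx_apply, hs u (((Finsupp.mem_supported A f).1 hf) hu) v hv, zero_smul]

end Aux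

section

variable {R : Type u} [Ring R] {H : Type v} [Group H] {V E : Type v} [MulAction H V] [MulAction H E]
  (O : OTree H V E) {n m : ℕ} (P : Matrix (Fin n) (Fin m) (MonoidAlgebra R H))

theorem w04_ag_rowl (r : V) (j : Fin n) : ag (MonoidAlgebra R H) (rowl P r j) = P j := by
  unfold rowl
  rw [← ag_tw, tw_utw, ag_single]

theorem w04_perf_supp (B1 : Finset E) : Perf (MonoidAlgebra R H)
    (Finsupp.supported (Fin m → MonoidAlgebra R H) (MonoidAlgebra R H) (B1 : Set E)) := by
  have h : Perf (MonoidAlgebra R H) ((B1 : Set E) →₀ (Fin m → MonoidAlgebra R H)) :=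
    Perf.of_projective
  exact h.congr (Finsupp.supportedEquivFinsupp (M := Fin m → MonoidAlgebra R H)
    (R := MonoidAlgebra R H) (B1 : Set E)).symm

include O in
/-- **The row space is perfect.**
Proof: `V` is nonempty. Choose `r₀ : V` and let `S` be the union of the supports of the functions
`rowl P r₀ j`; `B0`, `B1`, `r`, `s` as in `exists_subtree` for `S`. Let
`K = (rsp P).comap (ag _) ⊓ supported B0`.
(a) `K = relV O P B1 r₀ ⊔ (supported B1).map (TL O.bd)`. `≥`: `relV ≤ supported B0` (ends of edges of
`B1` are in `B0`; `rowl` has support in `S`) and `ag` maps `relV` to `rsp P` (`relV_le`, `EI_ag`);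
`ag (TL O.bd y) = 0` (`ag_TL`). `≤`: for `f ∈ K` write `ag f = ∑ c j • P j`; `ag (rowl P r₀ j) = P j`
(`ag_tw`), so `f - ∑ c j • rowl P r₀ j` has sum zero and is a boundary by `exists_bd`.
(b) The map `relV × supported B1 → K`, `(x, y) ↦ x + TL O.bd y` is surjective, and its kernel is the
image of the injective map `relE → relV × supported B1`, `y ↦ (TL O.bd y, -y)` (`TL_bd_eq`,
`mem_relE_of_bd`). By `Perf.coker` (`perf_relE`, `perf_relV`, `Perf.prod`; `supported B1` is finitely
generated and free, `Perf.of_projective`, e.g. through `Finsupp.supportedEquivFinsupp`) `K` is perfect.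
(c) `0 → supported B1 → K → rsp P → 0`, with the maps `TL O.bd` and `ag`, is exact (`exists_bd`; `ag` is
surjective because of `rowl`; injectivity of `TL O.bd`: a retraction as in `mem_relE_of_bd`). So
`rsp P` is perfect by `Perf.coker`. -/
theorem perf_rsp (hv : ∀ v : V, RegCoh (MonoidAlgebra R (stabilizer H v)))
    (he : ∀ e : E, IsRegularRing (MonoidAlgebra R (stabilizer H e))) :
    Perf (MonoidAlgebra R H) (rsp P) := by
  classical
  obtain ⟨r₀⟩ : Nonempty V := O.tree.connected.nonempty
  obtain ⟨B0, B1, r, s, hSB, hB1, hs⟩ := exists_subtree O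
    (Finset.univ.biUnion fun j : Fin n => (rowl P r₀ j).support)
  set D : (E →₀ (Fin m → MonoidAlgebra R H)) →ₗ[MonoidAlgebra R H]
    (V →₀ (Fin m → MonoidAlgebra R H)) := TL (MonoidAlgebra R H) O.bd with hD
  set SB : Submodule (MonoidAlgebra R H) (E →₀ (Fin m → MonoidAlgebra R H)) :=
    Finsupp.supported (Fin m → MonoidAlgebra R H) (MonoidAlgebra R H) (B1 : Set E) with hSBd
  set RV := relV O P B1 r₀ with hRV
  set RE : Submodule (MonoidAlgebra R H) (E →₀ (Fin m → MonoidAlgebra R H)) :=
    relE P B1 with hRE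
  set K : Submodule (MonoidAlgebra R H) (V →₀ (Fin m → MonoidAlgebra R H)) :=
    RV ⊔ SB.map D with hK
  have hREle : RE ≤ SB := inf_le_right
  have hoB : ∀ e ∈ B1, ∀ v, v ∉ B0 → Finsupp.single (O.o e) (1 : ℤ) v = 0 := by
    intro e he v hv
    rw [Finsupp.single_apply, if_neg]
    rintro rfl
    exact hv (hB1 e he).1
  have htB : ∀ e ∈ B1, ∀ v, v ∉ B0 → Finsupp.single (O.t e) (1 : ℤ) v = 0 := by
    intro e he v hv
    rw [Finsupp.single_apply, if_neg]
    rintro rfl
    exact hv (hB1 e he).2
  have hDB : ∀ y ∈ SB, D y ∈ Finsupp.supported (Fin m → MonoidAlgebra R H)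
      (MonoidAlgebra R H) (B0 : Set V) := by
    intro y hy
    refine w04_supp O.bd (fun e he v hv => ?_) hy
    unfold OTree.bd
    rw [Finsupp.sub_apply, hoB e he v hv, htB e he v hv, sub_zero]
  have hRVB : RV ≤ Finsupp.supported (Fin m → MonoidAlgebra R H)
      (MonoidAlgebra R H) (B0 : Set V) := by
    refine sup_le (Submodule.span_le.2 ?_) (sup_le ?_ ?_)
    · rintro _ ⟨j, rfl⟩
      refine (Finsupp.mem_supported _ _).2 fun v hv => hSB ?_
      exact Finset.mem_biUnion.2 ⟨j, Finset.mem_univ _, hv⟩
    · rintro _ ⟨y, hy, rfl⟩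
      exact w04_supp _ hoB (hREle hy)
    · rintro _ ⟨y, hy, rfl⟩
      exact w04_supp _ htB (hREle hy)
  have hDRV : ∀ y ∈ RE, D y ∈ RV := by
    intro y hy
    rw [hD, TL_bd_eq]
    refine Submodule.sub_mem _ ?_ ?_
    · exact Submodule.mem_sup_right (Submodule.mem_sup_right ⟨y, hy, rfl⟩)
    · exact Submodule.mem_sup_right (Submodule.mem_sup_left ⟨y, hy, rfl⟩)
  have hagD : ∀ y, ag (MonoidAlgebra R H) (D y) = 0 := by
    intro y
    refine ag_TL _ (fun e => ?_) y
    unfold OTree.bd
    rw [map_sub, ag_single, ag_single, sub_self]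
  have hDK : ∀ y ∈ SB, D y ∈ K := fun y hy => Submodule.mem_sup_right ⟨y, hy, rfl⟩
  have hagK : ∀ x ∈ K, ag (MonoidAlgebra R H) x ∈ rsp P := by
    intro x hx
    obtain ⟨a, ha, b, ⟨y, hy, rfl⟩, rfl⟩ := Submodule.mem_sup.1 hx
    rw [map_add, hagD, add_zero]
    exact EI_ag (relV_le O P B1 r₀ ha)
  -- the first sequence
  have hPK : Perf (MonoidAlgebra R H) K := by
    let i₁ : RE →ₗ[MonoidAlgebra R H] (RV × SB) :=
      LinearMap.prod (LinearMap.codRestrict RV (D ∘ₗ RE.subtype) fun y => hDRV y y.2)
        (LinearMap.codRestrict SB (-RE.subtype) fun y => Submodule.neg_mem _ (hREle y.2))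
    let p₁ : (RV × SB) →ₗ[MonoidAlgebra R H] K :=
      LinearMap.codRestrict K (LinearMap.coprod RV.subtype (D ∘ₗ SB.subtype)) fun x =>
        Submodule.add_mem _ (Submodule.mem_sup_left x.1.2) (hDK _ x.2.2)
    refine Perf.coker i₁ p₁ ?_ ?_ ?_ (perf_relE P he B1)
      ((perf_relV O P hv he B1 r₀).prod (w04_perf_supp B1))
    · intro x y hxy
      have h1 : -(x : E →₀ (Fin m → MonoidAlgebra R H)) = -y :=
        congrArg (fun w : RV × SB => (w.2 : E →₀ (Fin m → MonoidAlgebra R H))) hxy
      exact Subtype.ext (neg_injective h1)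
    · rintro ⟨x, hx⟩
      obtain ⟨a, ha, b, ⟨y, hy, rfl⟩, rfl⟩ := Submodule.mem_sup.1 hx
      exact ⟨(⟨a, ha⟩, ⟨y, hy⟩), rfl⟩
    · ext ⟨⟨x, hx⟩, ⟨y, hy⟩⟩
      constructor
      · rintro ⟨⟨z, hz⟩, hzx⟩
        have h1 : D z = x :=
          congrArg (fun w : RV × SB => (w.1 : V →₀ (Fin m → MonoidAlgebra R H))) hzx
        have h2 : -z = y :=
          congrArg (fun w : RV × SB => (w.2 : E →₀ (Fin m → MonoidAlgebra R H))) hzx
        refine LinearMap.mem_ker.2 (Subtype.ext ?_)
        change x + D y = 0
        rw [← h1, ← h2, map_neg, add_neg_cancel]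
      · intro h
        have h1 : x + D y = 0 := congrArg Subtype.val (LinearMap.mem_ker.1 h)
        have h2 : D y ∈ RV := by
          rw [← neg_eq_of_add_eq_zero_right h1]
          exact Submodule.neg_mem _ hx
        have h3 : y ∈ RE := mem_relE_of_bd O P B1 r₀ y hy h2
        refine ⟨⟨-y, Submodule.neg_mem _ h3⟩, ?_⟩
        refine Prod.ext (Subtype.ext ?_) (Subtype.ext ?_)
        · change D (-y) = x
          rw [map_neg]
          exact (eq_neg_of_add_eq_zero_left h1).symm
        · change -(-y) = y
          exact neg_neg y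
  -- the second sequence
  let i₂ : SB →ₗ[MonoidAlgebra R H] K :=
    LinearMap.codRestrict K (D ∘ₗ SB.subtype) fun y => hDK y y.2
  let p₂ : K →ₗ[MonoidAlgebra R H] rsp P :=
    LinearMap.codRestrict (rsp P) (ag (MonoidAlgebra R H) ∘ₗ K.subtype) fun x => hagK x x.2
  refine Perf.coker i₂ p₂ ?_ ?_ ?_ (w04_perf_supp B1) hPK
  · intro x y hxy
    exact Subtype.ext (w04_inj O (congrArg Subtype.val hxy))
  · rintro ⟨x, c, rfl⟩
    refine ⟨⟨∑ j, c j • rowl P r₀ j, Submodule.sum_mem _ fun j _ => Submodule.smul_mem _ _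
      (Submodule.mem_sup_left (Submodule.mem_sup_left (Submodule.subset_span ⟨j, rfl⟩)))⟩,
      Subtype.ext ?_⟩
    change ag (MonoidAlgebra R H) (∑ j, c j • rowl P r₀ j) = c ᵥ* P
    rw [map_sum]
    funext i
    rw [Finset.sum_apply]
    unfold Matrix.vecMul dotProduct
    refine Finset.sum_congr rfl fun j _ => ?_
    rw [map_smul, w04_ag_rowl]
    rfl
  · ext ⟨x, hx⟩
    constructor
    · rintro ⟨⟨y, hy⟩, hyx⟩
      have h1 : D y = x := congrArg Subtype.val hyx
      refine LinearMap.mem_ker.2 (Subtype.ext ?_)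
      change ag (MonoidAlgebra R H) x = 0
      rw [← h1, hagD]
    · intro h
      have h1 : ag (MonoidAlgebra R H) x = 0 := congrArg Subtype.val (LinearMap.mem_ker.1 h)
      have h2 : x ∈ Finsupp.supported (Fin m → MonoidAlgebra R H)
          (MonoidAlgebra R H) (B0 : Set V) := by
        obtain ⟨a, ha, b, ⟨y, hy, rfl⟩, rfl⟩ := Submodule.mem_sup.1 hx
        exact Submodule.add_mem _ (hRVB ha) (hDB y hy)
      obtain ⟨y, hy, hyx⟩ := exists_bd O hs x h2 h1
      exact ⟨⟨y, hy⟩, Subtype.ext hyx⟩

include O in
/-- `0 → rker P → (Fin n → R[H]) → rsp P → 0` and Schanuel (`HasRes.succ`, `HasRes.ker`). -/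
theorem regCoh_of_otree (hv : ∀ v : V, RegCoh (MonoidAlgebra R (stabilizer H v)))
    (he : ∀ e : E, IsRegularRing (MonoidAlgebra R (stabilizer H e))) :
    RegCoh (MonoidAlgebra R H) := by
  intro m n M
  obtain ⟨d, hd⟩ := perf_rsp O M hv he
  have h1 := hd.succ.ker (Matrix.vecMulLinear M).rangeRestrict
    (Matrix.vecMulLinear M).surjective_rangeRestrict
  exact ⟨d, h1.congr (LinearEquiv.ofEq _ _ (LinearMap.ker_rangeRestrict _))⟩

end

/-- **Groups acting on trees** with regular coherent vertex stabilizers and regular edge stabilizers are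
regular coherent: `TreeAction.otree`, `TreeAction.stabilizer_edge`. -/
theorem regCohGroup_of_tree {G : Type u} [Group G] {V : Type u} [MulAction G V]
    (T : TreeAction G V) (hv : ∀ v : V, RegCohGroup.{u} (stabilizer G v))
    (he : ∀ x y : V, T.graph.Adj x y → RegGroup.{u} ↥(stabilizer G x ⊓ stabilizer G y)) :
    RegCohGroup.{u} G := by
  intro R _ hR
  refine regCoh_of_otree T.otree (fun v => hv v R hR) (fun e => ?_)
  rw [T.stabilizer_edge]
  exact he _ _ e.adj R hR

end Pool.Agent.Lib.MP_c052b4_al.CT
end

section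

/-!
# Coherent trees, W05: the class of coherent groups
-/

set_option autoImplicit false
set_option linter.unusedVariables false
set_option linter.unusedSectionVars false

namespace Pool.Agent.Lib.MP_c052b4_al.CT

open Matrix MulAction

universe u

/-- Directed unions.
Proof: a matrix over `R[G]` has its (finitely many) coefficients in `R[A]` for some `A ∈ S`
(directedness), so it is `M.map (inc R A.subtype)` for a matrix `M` over `R[A]`
(`rs`, `inc`, TR/PGrp; see `dpr_of_directed'` in TR/PW.lean for this step). Its kernel is the induced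
module (`RFree.rker_map` for `rfreeG A.subtype _`), perfect by `RFree.perf_ind`. -/
theorem regCohGroup_of_directed {G : Type u} [Group G] (S : Set (Subgroup G)) (hne : S.Nonempty)
    (hdir : DirectedOn (· ≤ ·) S) (hcov : ∀ g : G, ∃ H ∈ S, g ∈ H)
    (h : ∀ H ∈ S, RegCohGroup.{u} H) : RegCohGroup.{u} G := by
  classical
  intro R _ hR m n M
  obtain ⟨K, hK, hT⟩ := exists_mem_of_directed S hne hdir hcov
    (⋃ i, ⋃ j, ((M i j).coeff.support : Set G))
    (Set.finite_iUnion fun i => Set.finite_iUnion fun j => Finset.finite_toSet _)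
  have hM : ∀ i j, ∀ g, (M i j).coeff g ≠ 0 → g ∈ K := by
    intro i j g hg
    apply hT
    simp only [Set.mem_iUnion]
    exact ⟨i, j, Finsupp.mem_support_iff.2 hg⟩
  have hf : Function.Injective K.subtype := K.subtype_injective
  let M' : Matrix (Fin m) (Fin n) (MonoidAlgebra R K) :=
    Matrix.of fun i j => rs R K.subtype hf (M i j)
  have hM' : M'.map (inc R K.subtype) = M := by
    ext1 i j
    exact inc_rs_of_support K (M i j) (hM i j)
  rw [← hM', (rfreeG K.subtype hf).rker_map]
  exact (rfreeG K.subtype hf).perf_ind (h K hK R hR m n M')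

/-- The smallest class of groups which contains the trivial groups and is closed under subgroups,
directed unions and tree actions with vertex stabilizers in the class and edge stabilizers with
(Noetherian) regular group rings. -/
inductive Coh : ∀ (G : Type u) [Group G], Prop
  | triv (G : Type u) [Group G] [Subsingleton G] : Coh G
  | sub (G H : Type u) [Group G] [Group H] (f : H →* G) : Function.Injective f → Coh G → Coh H
  | union (G : Type u) [Group G] (S : Set (Subgroup G)) : S.Nonempty → DirectedOn (· ≤ ·) S →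
      (∀ g : G, ∃ H ∈ S, g ∈ H) → (∀ H ∈ S, Coh H) → Coh G
  | tree (G : Type u) [Group G] (V : Type u) [MulAction G V] (T : TreeAction G V) :
      (∀ v : V, Coh (stabilizer G v)) →
      (∀ x y : V, T.graph.Adj x y →
        RegGroup.{u} ↥(stabilizer G x ⊓ stabilizer G y)) → Coh G

theorem Coh.regCohGroup {G : Type u} [Group G] (h : Coh.{u} G) : RegCohGroup.{u} G := by
  induction h with
  | triv G => exact fun R _ hR => regCoh_of_subsingleton hR
  | sub G H f hf _ ih => exact ih.of_injective' f hf
  | union G S hne hdir hcov _ ih => exact regCohGroup_of_directed S hne hdir hcov ih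
  | tree G V T _ he ih => exact regCohGroup_of_tree T ih he

theorem Coh.wald {G : Type u} [Group G] (h : Coh.{u} G) : Wald.{u} G := by
  induction h with
  | triv G => exact Wald.triv G
  | sub G H f hf _ ih => exact Wald.sub G H f hf ih
  | union G S hne hdir hcov _ ih => exact Wald.union G S hne hdir hcov ih
  | tree G V T _ he ih => exact Wald.tree G V T ih fun x y hxy => (he x y hxy).regCohGroup

end Pool.Agent.Lib.MP_c052b4_al.CT
end

section

/-!
# Coherent trees, U02: actions on the line
-/

set_option autoImplicit false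
set_option linter.unusedVariables false
set_option linter.unusedSectionVars false

namespace Pool.Agent.Lib.MP_c052b4_al.CT

open MulAction

universe u

private theorem u02_sq (ε : ℤˣ) : (ε : ℤ) * ε = 1 := by
  rcases Int.units_eq_one_or ε with rfl | rfl <;> simp

/-- **Groups acting on the line through the infinite dihedral group.** -/
theorem coh_of_dihedral {G : Type u} [Group G] (β : G →* ℤˣ) (u : G → ℤ)
    (hu : ∀ a b, u (a * b) = (β b : ℤ) * u a + u b)
    (h1 : ∀ (S : Subgroup G) (m : ℤ), (∀ g ∈ S, (β g : ℤ) * (m + 2 * u g) = m) → Coh.{u} S)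
    (h2 : ∀ S : Subgroup G, (∀ g ∈ S, β g = 1 ∧ u g = 0) → RegGroup.{u} S) : Coh.{u} G := by
  have u1 : u 1 = 0 := by
    have h := hu 1 1
    rw [mul_one, map_one, Units.val_one, one_mul] at h
    omega
  let act : MulAction G (ULift.{u} ℤ) :=
    { smul := fun g n => ⟨(β g : ℤ) * (n.down + 2 * u g)⟩
      one_smul := fun n => by
        apply ULift.ext
        change ((β 1 : ℤˣ) : ℤ) * (n.down + 2 * u 1) = n.down
        rw [u1, map_one, Units.val_one]
        ring
      mul_smul := fun g h n => by
        apply ULift.ext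
        change ((β (g * h) : ℤˣ) : ℤ) * (n.down + 2 * u (g * h)) =
          (β g : ℤ) * (((β h : ℤ) * (n.down + 2 * u h)) + 2 * u g)
        rw [map_mul, hu, Units.val_mul]
        have h3 := u02_sq (β h)
        linear_combination (2 * (β g : ℤ) * u g) * h3 }
  have hsmul : ∀ (g : G) (n : ULift.{u} ℤ),
      (g • n).down = (β g : ℤ) * (n.down + 2 * u g) := fun _ _ => rfl
  obtain ⟨Gr, hGr⟩ : ∃ Gr : SimpleGraph (ULift.{u} ℤ), ∀ n m : ULift.{u} ℤ,
      Gr.Adj n m ↔ (n.down + 1 = m.down ∨ m.down + 1 = n.down) :=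
    ⟨{ Adj := fun n m => n.down + 1 = m.down ∨ m.down + 1 = n.down
       symm := ⟨fun n m h => h.symm⟩
       loopless := ⟨fun n h => by rcases h with h | h <;> omega⟩ }, fun _ _ => Iff.rfl⟩
  have hit : ∀ (n : ℕ) (x : ULift.{u} ℤ),
      ((fun x : ULift.{u} ℤ => (⟨x.down + 1⟩ : ULift.{u} ℤ))^[n] x).down = x.down + n := by
    intro n
    induction n with
    | zero => intro x; simp
    | succ n ih =>
      intro x
      rw [Function.iterate_succ_apply, ih]
      push_cast
      ring
  have htree : Gr.IsTree := by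
    refine MT.L.isTree_of_parent (fun x : ULift.{u} ℤ => (⟨x.down + 1⟩ : ULift.{u} ℤ))
      (fun x n hn h => ?_) (fun x y => ?_) Gr (fun x y => ?_)
    · have h1 := congrArg ULift.down h
      rw [hit] at h1
      omega
    · refine ⟨(y.down - x.down).toNat, (x.down - y.down).toNat, ULift.ext _ _ ?_⟩
      rw [hit, hit]
      omega
    · rw [hGr, ULift.ext_iff, ULift.ext_iff]
  let T : TreeAction G (ULift.{u} ℤ) :=
    { graph := Gr
      tree := htree
      adj_smul := fun g x y h => by
        rw [hGr] at h ⊢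
        rw [hsmul, hsmul]
        rcases Int.units_eq_one_or (β g) with h3 | h3 <;> rw [h3]
        · rw [Units.val_one, one_mul, one_mul]
          omega
        · rw [Units.val_neg, Units.val_one]
          omega
      no_inversion := fun g x y h h3 h4 => by
        rw [hGr] at h
        have e1 := congrArg ULift.down h3
        have e2 := congrArg ULift.down h4
        rw [hsmul] at e1 e2
        rcases Int.units_eq_one_or (β g) with h5 | h5 <;> rw [h5] at e1 e2
        · rw [Units.val_one, one_mul] at e1 e2
          omega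
        · rw [Units.val_neg, Units.val_one] at e1 e2
          omega }
  refine Coh.tree G (ULift.{u} ℤ) T (fun x => ?_) fun x y hxy => ?_
  · refine h1 _ x.down fun g hg => ?_
    have h3 := congrArg ULift.down hg
    rwa [hsmul] at h3
  · refine h2 _ fun g hg => ?_
    have e1 := congrArg ULift.down hg.1
    have e2 := congrArg ULift.down hg.2
    rw [hsmul] at e1 e2
    have hxy' : x.down + 1 = y.down ∨ y.down + 1 = x.down := (hGr x y).1 hxy
    rcases Int.units_eq_one_or (β g) with h5 | h5
    · refine ⟨h5, ?_⟩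
      rw [h5, Units.val_one, one_mul] at e1
      omega
    · rw [h5, Units.val_neg, Units.val_one] at e1 e2
      omega

end Pool.Agent.Lib.MP_c052b4_al.CT
end
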