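import Pool.Agent.Lib.MP_c052b4_al.Mg.G046
import Pool.Agent.Lib.MP_c052b4_al.Mg.G048
import Pool.Agent.Lib.MP_c052b4_al.Mg.G054
import Pool.Agent.Lib.MP_c052b4_al.Mg.G040
import Pool.Agent.Lib.MP_c052b4_al.Mg.G058
import Pool.Agent.Lib.MP_c052b4_al.Mg.G002
import Pool.Agent.Lib.MP_c052b4_al.Mg.G063
import Pool.Agent.Lib.MP_c052b4_al.GroupLaurent
import Pool.Agent.Lib.MP_c052b4_al.Mg.G062
import Pool.Agent.Lib.MP_c052b4_al.LaurentReg

section

/-!
# Coherent trees, I09: groups with plane actions, tree actions and representations of rank two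
-/

set_option autoImplicit false

namespace Pool.Agent.Lib.MP_c052b4_al.CT

open MvPolynomial MulAction
open Pool.Agent.Lib.MP_c052b4_al.JK
open Pool.Agent.Lib.MP_c052b4_al.LK

universe u

/-- `G` acts on `k` affine planes over algebraically closed fields, on finitely many trees and has a
representation of rank two over a commutative ring; `Q` is the set of the subgroups `C` which fix a
vertex in each of the trees and whose elements act integrally on the planes and have integral
matrices; moreover `C` fixes a vertex in the tree of the automorphism group of each plane. -/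
inductive AdmI (G : Type u) [Group G] : ℕ → (Subgroup G → Prop) → Prop
  | base {n : ℕ} (V : Fin n → Type u) (act : ∀ i, MulAction G (V i))
      (T : ∀ i, Nonempty (TreeAction G (V i))) (B : Type u) [CommRing B] (ρ : G →* GL (Fin 2) B) :
      AdmI G 0 fun C => (∀ g ∈ C, IsIntegral ℤ (ρ g : Matrix (Fin 2) (Fin 2) B)) ∧
        ∀ i, ∃ x : V i, ∀ g ∈ C, g • x = x
  | step {k : ℕ} {Q : Subgroup G → Prop} (h : AdmI G k Q) (F : Type u) [Field F] [IsAlgClosed F]
      (r : G →* AutA F) : AdmI G (k + 1) fun C =>
        Q C ∧ (∀ g ∈ C, LocInt (R := F) (r g)) ∧ ∃ x : VT F, ∀ g ∈ C, r g • x = x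

theorem forall_mem_map {G H : Type u} [Group G] [Group H] (f : H →* G) (C : Subgroup H)
    (p : G → Prop) : (∀ g ∈ C.map f, p g) ↔ ∀ h ∈ C, p (f h) :=
  ⟨fun h x hx => h _ (Subgroup.mem_map_of_mem f hx), fun h g hg => by
    obtain ⟨x, hx, rfl⟩ := Subgroup.mem_map.1 hg
    exact h x hx⟩

theorem AdmI.comap {G : Type u} [Group G] {k : ℕ} {Q : Subgroup G → Prop} (h : AdmI G k Q)
    {H : Type u} [Group H] (f : H →* G) : AdmI H k fun C => Q (C.map f) := by
  induction h with
  | base V act T B ρ =>
    have h1 := AdmI.base V (fun i => MulAction.compHom (V i) f)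
      (fun i => ⟨(T i).some.comp f⟩) B (ρ.comp f)
    convert h1 using 2 with C
    refine and_congr ?_ (forall_congr' fun i => exists_congr fun x => ?_)
    · exact forall_mem_map f C _
    · exact forall_mem_map f C _
  | step _ F r ih =>
    have h1 := AdmI.step ih F (r.comp f)
    convert h1 using 2 with C
    refine and_congr_right fun _ => and_congr ?_ (exists_congr fun x => ?_)
    · exact forall_mem_map f C _
    · exact forall_mem_map f C _

theorem AdmI.add {G : Type u} [Group G] {k : ℕ} {Q : Subgroup G → Prop} (h : AdmI G k Q)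
    (B' : Type u) [CommRing B'] (θ : G →* GL (Fin 2) B') :
    ∃ Q' : Subgroup G → Prop, AdmI G k Q' ∧ ∀ C, Q' C →
      Q C ∧ ∀ g ∈ C, IsIntegral ℤ (θ g : Matrix (Fin 2) (Fin 2) B') := by
  induction h with
  | base V act T B ρ =>
    let m : G →* Matrix (Fin 2) (Fin 2) (B × B') :=
      { toFun := fun g => pairMat (ρ g).val (θ g).val
        map_one' := by rw [map_one, map_one, Units.val_one, Units.val_one, pairMat_one]
        map_mul' := fun a b => by
          rw [map_mul, map_mul, Units.val_mul, Units.val_mul, pairMat_mul] }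
    refine ⟨_, AdmI.base V act T (B × B') m.toHomUnits, fun C hC => ⟨⟨fun g hg => ?_, hC.2⟩,
      fun g hg => ?_⟩⟩
    · have h1 := (hC.1 g hg).map ((RingHom.fst B B').mapMatrix (m := Fin 2)).toIntAlgHom
      exact h1
    · have h1 := (hC.1 g hg).map ((RingHom.snd B B').mapMatrix (m := Fin 2)).toIntAlgHom
      exact h1
  | step _ F r ih =>
    obtain ⟨Q', hQ', h1⟩ := ih
    refine ⟨_, AdmI.step hQ' F r, fun C hC => ?_⟩
    obtain ⟨h2, h3, h4⟩ := hC
    exact ⟨⟨(h1 C h2).1, h3, h4⟩, (h1 C h2).2⟩

/-- Trees and further trees: the common stabilizers fix a vertex in each of the given trees. -/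
theorem hb_of_trees_group {P : ∀ (H : Type u) [Group H], Prop} (hP : HerP P) {G : Type u} [Group G]
    {n : ℕ} (V : Fin n → Type u) [act : ∀ i, MulAction G (V i)]
    (T : ∀ i, Nonempty (TreeAction G (V i))) {S : Set G} (h : MT.L.HasTrees.{u, u} G S)
    (hS : ∀ C : Subgroup G, (∀ i, ∃ x : V i, ∀ g ∈ C, g • x = x) → (∀ g ∈ C, g ∈ S) → P C) :
    HB.{u} G := by
  obtain ⟨ι, _, W, actW, hT, hfree⟩ := h
  let U : Fin n ⊕ ι → Type u := Sum.elim V W
  let actU : ∀ a, MulAction G (U a) := fun a =>
    match a with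
    | Sum.inl i => act i
    | Sum.inr i => actW i
  have TU : ∀ a, Nonempty (TreeAction G (U a)) := fun a =>
    match a with
    | Sum.inl i => T i
    | Sum.inr i => hT i
  refine @hb_of_trees_aux P hP (Nat.card (Fin n ⊕ ι)) G _ (Fin n ⊕ ι) _ rfl U actU
    (fun a => (TU a).some) fun x => ?_
  refine hS _ (fun i => ⟨x (Sum.inl i), fun g hg => hg (Sum.inl i)⟩) fun g hg => ?_
  exact hfree g fun i => ⟨x (Sum.inr i), hg (Sum.inr i)⟩

end Pool.Agent.Lib.MP_c052b4_al.CT
end

section

/-!
# Coherent trees, I10: the induction on the number of planes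
-/

set_option autoImplicit false

namespace Pool.Agent.Lib.MP_c052b4_al.CT

open MvPolynomial MulAction
open Pool.Agent.Lib.MP_c052b4_al.JK
open Pool.Agent.Lib.MP_c052b4_al.LK

universe u

variable {P : ∀ (H : Type u) [Group H], Prop}

/-- A subgroup and its image. -/
theorem HerP.of_map (hP : HerP P) {G : Type u} [Group G] {H : Subgroup G} {C : Subgroup H}
    (h : P (C.map H.subtype)) : P C :=
  hP.sub ((C.equivMapOfInjective H.subtype H.subtype_injective).toMonoidHom)
    (C.equivMapOfInjective H.subtype H.subtype_injective).injective h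

/-- The case without planes. -/
theorem AdmI.hb_zero (hP : HerP P) {G : Type u} [Group G] {Q : Subgroup G → Prop}
    (h : AdmI G 0 Q) (hQ : ∀ C, Q C → P C) : HB.{u} G := by
  cases h with
  | base V act T B ρ =>
    refine HB.of_fg fun H hH => ?_
    have hFG : Group.FG H := (Group.fg_iff_subgroup_fg H).2 hH
    let _ : ∀ i, MulAction H (V i) := fun i => MulAction.compHom (V i) H.subtype
    refine hb_of_trees_group hP V (fun i => ⟨(T i).some.comp H.subtype⟩)
      (ring_trees_int B H (ρ.comp H.subtype)) fun C hC1 hC2 => hP.of_map (hQ _ ⟨?_, fun i => ?_⟩)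
    · exact (forall_mem_map H.subtype C _).2 fun c hc => hC2 c hc
    · obtain ⟨x, hx⟩ := hC1 i
      exact ⟨x, (forall_mem_map H.subtype C _).2 fun c hc => hx c hc⟩

/-- **The induction.** -/
theorem AdmI.hk (hP : HerP P) (k : ℕ) : ∀ (G : Type u) [Group G] (Q : Subgroup G → Prop)
    (_ : AdmI G k Q) (_ : ∀ C, Q C → P C), HK.{u} G := by
  induction k with
  | zero =>
    intro G _ Q hQ hQP
    exact (AdmI.hb_zero hP hQ hQP).onto
  | succ k ih =>
    intro G _ Q hQ hQP
    cases hQ with
    | @step _ Q' hQ' F _ _ r =>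
      let _ : MulAction G (VT F) := MulAction.compHom (VT F) r
      let T : TreeAction G (VT F) := (jTree (K := F)).comp r
      -- subgroups with a representation of rank two replacing the plane
      have key : ∀ (H : Subgroup G) (B : Type u) [CommRing B] (θ : H →* GL (Fin 2) B)
          (x : VT F), (∀ h : H, IsIntegral ℤ (θ h : Matrix (Fin 2) (Fin 2) B) →
            LocInt (R := F) (r h) ∧ r (h : G) • x = x) → HK.{u} H := by
        intro H B _ θ x hθ
        obtain ⟨Q'', hQ'', h1⟩ := (hQ'.comap H.subtype).add B θ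
        refine ih H Q'' hQ'' fun C hC => hP.of_map (hQP _ ⟨(h1 C hC).1, ?_, x, ?_⟩)
        · exact (forall_mem_map H.subtype C _).2 fun c hc => (hθ c ((h1 C hC).2 c hc)).1
        · exact (forall_mem_map H.subtype C _).2 fun c hc => (hθ c ((h1 C hC).2 c hc)).2
      have keyv : ∀ (H : Subgroup G) (x : VT F), (∀ h ∈ H, h • x = x) → HK.{u} H := by
        intro H x hx
        obtain ⟨θ, hθ⟩ := exists_rep_vertex (r.comp H.subtype) x fun h => hx h h.2
        exact key H F θ x fun h hh => ⟨hθ h hh, hx h h.2⟩
      refine hk_of_tree_lines T (fun v => keyv _ v fun h hh => hh) (fun x y _ R _ hR => ?_)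
        (fun ℓ hℓ _ => ?_) fun ℓ hℓ _ => ?_
      · exact (keyv (stabilizer G x ⊓ stabilizer G y) x fun h hh => hh.1).kSurj hR
      · exact stable_seg r ℓ hℓ
      · obtain ⟨θ, hθ⟩ := exists_rep_trl_int (G := G) hℓ
        refine key (Trl G ℓ) (LaurentPolynomial F) θ (ℓ 0) fun h hh => ?_
        exact ⟨locInt_of_fix_line (r h) ℓ hℓ (hθ h hh), hθ h hh 0⟩

/-- **The induction**, for bijectivity. -/
theorem AdmI.hb (hP : HerP P) (k : ℕ) : ∀ (G : Type u) [Group G] (Q : Subgroup G → Prop)
    (_ : AdmI G k Q) (_ : ∀ C, Q C → P C), HB.{u} G := by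
  induction k with
  | zero =>
    intro G _ Q hQ hQP
    exact AdmI.hb_zero hP hQ hQP
  | succ k ih =>
    intro G _ Q hQ hQP
    have hG : HK.{u} G := AdmI.hk hP (k + 1) G Q hQ hQP
    cases hQ with
    | @step _ Q' hQ' F _ _ r =>
      let _ : MulAction G (VT F) := MulAction.compHom (VT F) r
      let T : TreeAction G (VT F) := (jTree (K := F)).comp r
      have keyv : ∀ (H : Subgroup G) (x : VT F), (∀ h ∈ H, h • x = x) → HB.{u} H := by
        intro H x hx
        obtain ⟨θ, hθ⟩ := exists_rep_vertex (r.comp H.subtype) x fun h => hx h h.2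
        obtain ⟨Q'', hQ'', h1⟩ := (hQ'.comap H.subtype).add F θ
        refine ih H Q'' hQ'' fun C hC => hP.of_map (hQP _ ⟨(h1 C hC).1, ?_, x, ?_⟩)
        · exact (forall_mem_map H.subtype C _).2 fun c hc => hθ c ((h1 C hC).2 c hc)
        · exact (forall_mem_map H.subtype C _).2 fun c hc => hx c c.2
      exact HB.of_tree hG T (fun v => keyv _ v fun h hh => hh) fun x y _ =>
        (keyv (stabilizer G x ⊓ stabilizer G y) x fun h hh => hh.1).onto

end Pool.Agent.Lib.MP_c052b4_al.CT
end

section

/-!
# Coherent trees, I11: planes over commutative rings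
-/

set_option autoImplicit false

namespace Pool.Agent.Lib.MP_c052b4_al.CT

open MvPolynomial MulAction
open Pool.Agent.Lib.MP_c052b4_al.JK
open Pool.Agent.Lib.MP_c052b4_al.LK

universe u

variable {P : ∀ (H : Type u) [Group H], Prop}

/-- No plane. -/
theorem AdmI.zero {G : Type u} [Group G] {n : ℕ} (V : Fin n → Type u)
    [act : ∀ i, MulAction G (V i)] (T : ∀ i, Nonempty (TreeAction G (V i))) :
    ∃ Q : Subgroup G → Prop, AdmI G 0 Q ∧ ∀ C, Q C → ∀ i, ∃ x : V i, ∀ g ∈ C, g • x = x :=
  ⟨_, AdmI.base V act T (ULift.{u} ℤ) 1, fun _ h => h.2⟩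

/-- A homomorphism to the automorphism group of the polynomial ring over a domain becomes one over an
algebraically closed field. -/
theorem AdmI.step_dom {G : Type u} [Group G] {k : ℕ} {Q : Subgroup G → Prop} (h : AdmI G k Q)
    (D : Type u) [CommRing D] [IsDomain D] (r : G →* PAut D) :
    ∃ Q' : Subgroup G → Prop, AdmI G (k + 1) Q' ∧ ∀ C, Q' C → Q C ∧ ∀ g ∈ C, LocInt (r g) := by
  have hinj : Function.Injective (algebraMap D (AlgebraicClosure (FractionRing D))) := by
    rw [IsScalarTower.algebraMap_eq D (FractionRing D) (AlgebraicClosure (FractionRing D)),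
      RingHom.coe_comp]
    exact (algebraMap (FractionRing D) (AlgebraicClosure (FractionRing D))).injective.comp
      (IsFractionRing.injective D (FractionRing D))
  refine ⟨_, AdmI.step h (AlgebraicClosure (FractionRing D))
    ((bc (algebraMap D (AlgebraicClosure (FractionRing D)))).comp r), fun C hC => ?_⟩
  obtain ⟨h1, h2, -⟩ := hC
  exact ⟨h1, fun g hg => locInt_of_bc _ hinj (h2 g hg)⟩

/-- Planes over fields, with the vertex of the tree. -/
theorem AdmI.step_field {G : Type u} [Group G] {k : ℕ} {Q : Subgroup G → Prop} (h : AdmI G k Q)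
    (K : Type u) [Field K] (r : G →* AutA K) :
    ∃ Q' : Subgroup G → Prop, AdmI G (k + 1) Q' ∧ ∀ C, Q' C → Q C ∧
      (∀ g ∈ C, LocInt (R := K) (r g)) ∧ ∃ x : VT (AlgebraicClosure K), ∀ g ∈ C,
        (bc (algebraMap K (AlgebraicClosure K)) (r g) : AutA (AlgebraicClosure K)) • x = x := by
  refine ⟨_, AdmI.step h (AlgebraicClosure K)
    ((bc (algebraMap K (AlgebraicClosure K))).comp r), fun C hC => ?_⟩
  obtain ⟨h1, h2, h3⟩ := hC
  exact ⟨h1, fun g hg => locInt_of_bc _ (algebraMap K (AlgebraicClosure K)).injective (h2 g hg),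
    h3⟩

/-- **Theorem.** Finitely generated groups acting on trees and on a plane over a commutative ring:
if the subgroups which fix a vertex in each of the trees and act integrally on the plane are in the
class then the conjecture holds. -/
theorem hb_of_trees_paut (hP : HerP P) {G : Type u} [Group G] (hfg : Group.FG G)
    {n : ℕ} (V : Fin n → Type u) [act : ∀ i, MulAction G (V i)]
    (T : ∀ i, Nonempty (TreeAction G (V i))) (B : Type u) [CommRing B] (r : G →* PAut B)
    (hQ : ∀ C : Subgroup G, (∀ i, ∃ x : V i, ∀ g ∈ C, g • x = x) → (∀ g ∈ C, LocInt (r g)) →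
      P C) : HB.{u} G := by
  classical
  obtain ⟨A', hft, r', hr'⟩ := exists_fg_ring r
  have hnoeth : IsNoetherianRing A' := Algebra.FiniteType.isNoetherianRing ℤ A'
  have hfin : (minimalPrimes A').Finite := minimalPrimes.finite_of_isNoetherianRing A'
  have hstep : ∀ q : Finset (Ideal A'), (∀ P ∈ q, P ∈ minimalPrimes A') →
      ∃ Q : Subgroup G → Prop, AdmI G q.card Q ∧ ∀ C, Q C →
        (∀ i, ∃ x : V i, ∀ g ∈ C, g • x = x) ∧
          ∀ P ∈ q, ∀ g ∈ C, LocInt (bc (Ideal.Quotient.mk P) (r' g)) := by
    intro q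
    induction q using Finset.induction_on with
    | empty =>
      intro _
      obtain ⟨Q, hQ0, hQ1⟩ := AdmI.zero V T
      exact ⟨Q, hQ0, fun C hC => ⟨hQ1 C hC, fun P hP => (Finset.notMem_empty P hP).elim⟩⟩
    | insert P q hP ih =>
      intro hq
      obtain ⟨Q, hQ0, hQ1⟩ := ih fun Q hQ => hq Q (Finset.mem_insert_of_mem hQ)
      have hPm : P ∈ minimalPrimes A' := hq P (Finset.mem_insert_self P q)
      have hPp : P.IsPrime := hPm.1.1
      obtain ⟨Q', hQ2, hQ3⟩ := hQ0.step_dom (A' ⧸ P) ((bc (Ideal.Quotient.mk P)).comp r')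
      refine ⟨Q', by
        rw [Finset.card_insert_of_notMem hP]
        exact hQ2, fun C hC => ?_⟩
      obtain ⟨h1, h2⟩ := hQ3 C hC
      refine ⟨(hQ1 C h1).1, fun P' hP' => ?_⟩
      rcases Finset.mem_insert.1 hP' with rfl | hP'
      · exact h2
      · exact (hQ1 C h1).2 P' hP'
  obtain ⟨Q, hQ0, hQ1⟩ := hstep hfin.toFinset fun P hP => (Set.Finite.mem_toFinset hfin).1 hP
  refine AdmI.hb hP _ G Q hQ0 fun C hC => ?_
  obtain ⟨h1, h2⟩ := hQ1 C hC
  refine hQ C h1 fun g hg => ?_
  have h3 : LocInt (r' g) := locInt_of_minimalPrimes fun P hP =>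
    h2 P ((Set.Finite.mem_toFinset hfin).2 hP) g hg
  have h4 := locInt_bc (A'.val : A' →+* B) h3
  rw [hr'] at h4
  exact h4

/-- The same for planes over fields, with the vertex of the tree. -/
theorem hb_of_trees_field (hP : HerP P) {G : Type u} [Group G]
    {n : ℕ} (V : Fin n → Type u) [act : ∀ i, MulAction G (V i)]
    (T : ∀ i, Nonempty (TreeAction G (V i))) (K : Type u) [Field K] (r : G →* AutA K)
    (hQ : ∀ C : Subgroup G, (∀ i, ∃ x : V i, ∀ g ∈ C, g • x = x) →
      (∀ g ∈ C, LocInt (R := K) (r g)) → (∃ x : VT (AlgebraicClosure K), ∀ g ∈ C,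
        (bc (algebraMap K (AlgebraicClosure K)) (r g) : AutA (AlgebraicClosure K)) • x = x) →
      P C) : HB.{u} G := by
  obtain ⟨Q, hQ0, hQ1⟩ := AdmI.zero V T
  obtain ⟨Q', hQ2, hQ3⟩ := hQ0.step_field K r
  refine AdmI.hb hP _ G Q' hQ2 fun C hC => ?_
  obtain ⟨h1, h2, h3⟩ := hQ3 C hC
  exact hQ C (hQ1 C h1) h2 h3

end Pool.Agent.Lib.MP_c052b4_al.CT
end

section

/-!
# Coherent trees, W06: coherent groups: bijectivity
-/

set_option autoImplicit false
set_option linter.unusedVariables false
set_option linter.unusedSectionVars false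

namespace Pool.Agent.Lib.MP_c052b4_al.CT

open Matrix MulAction

universe u v

open Pool.Agent.Lib.MP_c052b4_al.LK

/-- Waldhausen's class is contained in `HB`, in the hereditary form.
Proof: induction as `Wald.hered` (TR/Groups.lean): trivial groups `HB.of_subsingleton`; directed
unions `HB.of_directed`; trees: `HB.of_tree` for the restricted action, with `HK` of `H` and of the
edge stabilizers from `Wald.hk` (`Wald.sub`, `Wald.tree`: the constructor arguments give `Wald G`). -/
theorem wald_hb_hered {G : Type u} [Group G] (h : Wald.{u} G) : ∀ (H : Type u) [Group H]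
    (f : H →* G), Function.Injective f → HB.{u} H := by
  induction h with
  | triv G =>
    intro H _ f hf
    have : Subsingleton H := hf.subsingleton
    exact HB.of_subsingleton H
  | sub G G' g hg _ ih =>
    intro H _ f hf
    exact ih H (g.comp f) (hg.comp hf)
  | union G S hS hdir hcov _ ih =>
    intro H _ f hf
    refine HB.of_directed ((fun A : Subgroup G => A.comap f) '' S) (hS.image _) ?_ ?_ ?_
    · rintro _ ⟨A, hA, rfl⟩ _ ⟨B, hB, rfl⟩
      obtain ⟨C, hC, h1, h2⟩ := hdir A hA B hB
      exact ⟨_, ⟨C, hC, rfl⟩, Subgroup.comap_mono h1, Subgroup.comap_mono h2⟩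
    · intro g
      obtain ⟨A, hA, hg⟩ := hcov (f g)
      exact ⟨_, ⟨A, hA, rfl⟩, hg⟩
    · rintro _ ⟨A, hA, rfl⟩
      exact ih A hA _ (subMap f (A.comap f) A fun x hx => hx) (subMap_injective f hf _ _ _)
  | tree G V T hv he ih =>
    intro H _ f hf
    let _ : MulAction H V := MulAction.compHom V f
    let T' : TreeAction H V := T.comp f
    have hW : Wald.{u} G := Wald.tree G V T hv he
    refine HB.of_tree (Wald.sub G H f hf hW).hk T' (fun x => ?_) fun x y hxy => ?_
    · exact ih x _ (subMap f (stabilizer H x) (stabilizer G x) fun x hx => hx)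
        (subMap_injective f hf _ _ _)
    · exact (Wald.sub _ _ (subMap f (stabilizer H x ⊓ stabilizer H y) (stabilizer G x)
        fun x hx => hx.1) (subMap_injective f hf _ _ _) (hv x)).hk

theorem coh_herP : HerP fun (G : Type u) [Group G] => Coh.{u} G where
  sub f hf h := Coh.sub _ _ f hf h
  coh h := h.regCohGroup
  hb h := wald_hb_hered h.wald _ (MonoidHom.id _) Function.injective_id

/-- Extensions by `ℤ`-type quotients: a group with a homomorphism to `ℤ` whose kernel has regular
group rings has regular group rings.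
Proof: if the homomorphism is trivial, `RegGroup.of_injective`. Otherwise the image is infinite cyclic and
`R[G]` is a twisted Laurent polynomial ring over `R[ker]`: `LaurentExt.isRegularRing` (see how it is
used in the library: GroupLaurent.lean, ThmB or NiceGroup files: `grep -rn LaurentExt`). -/
theorem regGroup_of_int {G : Type u} [Group G] (f : G →* Multiplicative ℤ)
    (h : RegGroup.{u} f.ker) : RegGroup.{u} G := by
  classical
  obtain ⟨⟨_, t, rfl⟩, ht⟩ := IsCyclic.exists_generator (α := f.range)
  have ht' : ∀ g : G, ∃ k : ℤ, f t ^ k = f g := by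
    intro g
    obtain ⟨k, hk⟩ := Subgroup.mem_zpowers_iff.1 (ht ⟨f g, g, rfl⟩)
    exact ⟨k, congrArg Subtype.val hk⟩
  by_cases h1 : f t = 1
  · have h2 : ∀ g : G, g ∈ f.ker := by
      intro g
      obtain ⟨k, hk⟩ := ht' g
      rw [MonoidHom.mem_ker, ← hk, h1, _root_.one_zpow]
    refine h.of_injective
      (MonoidHom.codRestrict (MonoidHom.id G) f.ker h2) ?_
    intro x y hxy
    exact congrArg Subtype.val hxy
  · have hz : ∀ k : ℤ, f t ^ k = 1 → k = 0 := by
      intro k hk
      have h2 : Multiplicative.toAdd (f t ^ k) = 0 := by rw [hk]; rfl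
      rw [toAdd_zpow, smul_eq_mul, mul_eq_zero] at h2
      rcases h2 with h2 | h2
      · exact h2
      · exact absurd (toAdd_eq_zero.1 h2) h1
    let C : CycExt f.ker G :=
      { i := f.ker.subtype
        t := t
        α := MulAut.conjNormal t
        comm := fun n => by
          change t * (n : G) = ((MulAut.conjNormal t n : f.ker) : G) * t
          rw [MulAut.conjNormal_apply, inv_mul_cancel_right]
        bij := by
          constructor
          · rintro ⟨k, n⟩ ⟨k', n'⟩ hxy
            have h3 : t ^ k * (n : G) = t ^ k' * (n' : G) := hxy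
            have h4 := congrArg f h3
            rw [map_mul, map_mul, map_zpow, map_zpow, MonoidHom.mem_ker.1 n.2,
              MonoidHom.mem_ker.1 n'.2, mul_one, mul_one] at h4
            have h5 : k - k' = 0 := by
              apply hz
              rw [_root_.zpow_sub, h4, mul_inv_cancel]
            have h6 : k = k' := by omega
            subst h6
            exact Prod.ext rfl (Subtype.ext (mul_left_cancel h3))
          · intro g
            obtain ⟨k, hk⟩ := ht' g
            refine ⟨(k, ⟨t ^ (-k) * g, ?_⟩), ?_⟩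
            · rw [MonoidHom.mem_ker, map_mul, map_zpow, ← hk, ← _root_.zpow_add]
              simp
            · change t ^ k * (t ^ (-k) * g) = g
              rw [← mul_assoc, ← _root_.zpow_add]
              simp }
    intro R _ hR
    exact (C.laurent R).isRegularRing (h R hR)

theorem w06_regGroup_pi (r : ℕ) : RegGroup.{u} (ULift.{v} (Multiplicative (Fin r → ℤ))) :=
  fun _ _ hR => ((nice_pi hR r).of_mulEquiv MulEquiv.ulift.symm).reg

theorem w06_coh_pi (r : ℕ) : ∀ (H : Type u) [Group H] (f : H →* Multiplicative (Fin r → ℤ)),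
    Function.Injective f → Coh.{u} H := by
  induction r with
  | zero =>
    intro H _ f hf
    have : Subsingleton H := hf.subsingleton
    exact Coh.triv H
  | succ r ih =>
    intro H _ f hf
    obtain ⟨V, act, T, hT⟩ := JK.exists_line ((JK.hd r).comp f)
    have key : ∀ S : Subgroup H, (∀ s ∈ S, JK.hd r (f s) = 1) →
        Function.Injective (((JK.tl r).comp f).comp S.subtype) := by
      intro S hS x y hxy
      apply Subtype.ext
      apply hf
      refine JK.hd_tl r _ _ ?_ hxy
      rw [hS x x.2, hS y y.2]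
    refine Coh.tree H V T (fun x => ?_) fun x y _ => ?_
    · exact ih _ _ (key (stabilizer H x) fun s hs => hT s x hs)
    · have h1 := key (stabilizer H x ⊓ stabilizer H y) fun s hs => hT s x hs.1
      exact (w06_regGroup_pi.{u, u} r).of_injective
        ((MulEquiv.ulift.symm : Multiplicative (Fin r → ℤ) ≃* _).toMonoidHom.comp _)
        ((MulEquiv.ulift.symm : Multiplicative (Fin r → ℤ) ≃* _).injective.comp h1)

/-- Torsionfree commutative groups are in the class.
Proof: as `wald_of_comm` (JK/Ab.lean): the directed union of the finitely generated subgroups, which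
are free abelian of finite rank, `ℤ^r`. `ℤ^(r+1)` acts on the line with stabilizer `ℤ^r`, which has
regular group rings (`regGroup_of_int`, induction). So `Coh (ℤ^r)` by induction (or directly: a group with
regular group rings acts on ... see `wald_of_comm`). -/
theorem coh_of_comm {G : Type u} [Group G] (hc : ∀ x y : G, x * y = y * x)
    (htf : ∀ g : G, IsOfFinOrder g → g = 1) : Coh.{u} G := by
  refine Coh.union G {S | S.FG} ⟨⊥, Subgroup.FG.bot⟩ ?_ ?_ ?_
  · intro A hA B hB
    exact ⟨A ⊔ B, Subgroup.FG.sup hA hB, le_sup_left, le_sup_right⟩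
  · intro g
    exact ⟨Subgroup.zpowers g, ⟨{g}, by rw [Finset.coe_singleton, Subgroup.zpowers_eq_closure]⟩,
      Subgroup.mem_zpowers g⟩
  · intro S hS
    let inst : CommGroup S :=
      { (inferInstance : Group S) with
        mul_comm := fun a b => Subtype.ext (hc a b) }
    have hfg : Group.FG S := (Group.fg_iff_subgroup_fg S).2 hS
    have h1 : IsMulTorsionFree S := by
      rw [isMulTorsionFree_iff_not_isOfFinOrder]
      intro a ha h
      exact ha (Subtype.ext (htf a ((Submonoid.isOfFinOrder_coe (H := S.toSubmonoid)).2 h)))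
    have h2 : Module.Finite ℤ (Additive S) := Module.Finite.iff_addGroup_fg.2 inferInstance
    let b := Module.finBasis ℤ (Additive S)
    let e : Additive S ≃+ (Fin (Module.finrank ℤ (Additive S)) → ℤ) := b.equivFun.toAddEquiv
    let e' : Multiplicative (Fin (Module.finrank ℤ (Additive S)) → ℤ) ≃* S :=
      (AddEquiv.toMultiplicativeRight e).symm
    exact w06_coh_pi _ S e'.symm.toMonoidHom e'.symm.injective

end Pool.Agent.Lib.MP_c052b4_al.CT
end

section

/-!
# Coherent trees, U01: two-step groups
-/

set_option autoImplicit false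
set_option linter.unusedVariables false
set_option linter.unusedSectionVars false

namespace Pool.Agent.Lib.MP_c052b4_al.CT

open MulAction

universe u v

/-- `G` embeds into a free abelian group of finite rank. -/
def FreeAb (G : Type u) [Group G] : Prop :=
  ∃ (n : ℕ) (f : G →* Multiplicative (Fin n → ℤ)), Function.Injective f

theorem FreeAb.of_injective {G H : Type u} [Group G] [Group H] (h : FreeAb G) (f : H →* G)
    (hf : Function.Injective f) : FreeAb H := by
  obtain ⟨n, g, hg⟩ := h
  exact ⟨n, g.comp f, hg.comp hf⟩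

/-- The values of a homomorphism in a finitely generated torsionfree group.
Proof: `S` is a finitely generated torsionfree `ℤ`-module, so it is free of finite rank
(`Module.free_of_finite_type_torsion_free'`, `Module.finBasis`); see `coh_of_comm` (W06). -/
theorem exists_coord {G : Type u} [Group G] {M : Type v} [AddCommGroup M]
    (ht : ∀ (n : ℕ) (m : M), 0 < n → n • m = 0 → m = 0) (κ : G →* Multiplicative M)
    (S : Submodule ℤ M) (hS : S.FG) (hκ : ∀ g, Multiplicative.toAdd (κ g) ∈ S) :
    ∃ (n : ℕ) (f : G →* Multiplicative (Fin n → ℤ)), ∀ g, f g = 1 ↔ κ g = 1 := by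
  have h1 : IsAddTorsionFree S := by
    refine ⟨fun n hn a b hab => ?_⟩
    have h2 : n • ((a : M) - (b : M)) = 0 := by
      have h3 : n • (a : M) = n • (b : M) := congrArg Subtype.val hab
      rw [smul_sub, h3, sub_self]
    exact Subtype.ext (sub_eq_zero.1 (ht n _ (Nat.pos_of_ne_zero hn) h2))
  have h2 : Module.Finite ℤ S := Module.Finite.iff_fg.2 hS
  let b := Module.finBasis ℤ S
  let κ' : G → S := fun g => ⟨Multiplicative.toAdd (κ g), hκ g⟩
  have hκ'1 : κ' 1 = 0 := Subtype.ext (by
    change Multiplicative.toAdd (κ 1) = 0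
    rw [map_one, toAdd_one])
  have hκ'm : ∀ x y, κ' (x * y) = κ' x + κ' y := fun x y => Subtype.ext (by
    change Multiplicative.toAdd (κ (x * y)) = Multiplicative.toAdd (κ x) + Multiplicative.toAdd (κ y)
    rw [map_mul, toAdd_mul])
  refine ⟨Module.finrank ℤ S,
    { toFun := fun g => Multiplicative.ofAdd (b.equivFun (κ' g))
      map_one' := by rw [hκ'1, map_zero, ofAdd_zero]
      map_mul' := fun x y => by rw [hκ'm, map_add, ofAdd_add] }, fun g => ?_⟩
  change Multiplicative.ofAdd (b.equivFun (κ' g)) = 1 ↔ _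
  rw [ofAdd_eq_one, LinearEquiv.map_eq_zero_iff]
  constructor
  · intro h
    have h3 : Multiplicative.toAdd (κ g) = 0 := congrArg Subtype.val h
    exact toAdd_eq_zero.1 h3
  · intro h
    exact Subtype.ext (by
      change Multiplicative.toAdd (κ g) = 0
      rw [h, toAdd_one])

/-- Proof: `exists_coord`. -/
theorem freeAb_of_hom {G : Type u} [Group G] {M : Type v} [AddCommGroup M]
    (ht : ∀ (n : ℕ) (m : M), 0 < n → n • m = 0 → m = 0) (κ : G →* Multiplicative M)
    (S : Submodule ℤ M) (hS : S.FG) (hκ : ∀ g, Multiplicative.toAdd (κ g) ∈ S)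
    (hinj : ∀ g, κ g = 1 → g = 1) : FreeAb G := by
  obtain ⟨n, f, hf⟩ := exists_coord ht κ S hS hκ
  exact ⟨n, f, (injective_iff_map_eq_one f).2 fun g hg => hinj g ((hf g).1 hg)⟩

/-- Proof: `w06_regGroup_pi`, `w06_coh_pi`, `RegGroup.of_injective` (see `w06_coh_pi`). -/
theorem FreeAb.reg_coh {G : Type u} [Group G] (h : FreeAb G) : RegGroup.{u} G ∧ Coh.{u} G := by
  obtain ⟨n, f, hf⟩ := h
  exact ⟨(w06_regGroup_pi.{u, u} n).of_injective
    ((MulEquiv.ulift.symm : Multiplicative (Fin n → ℤ) ≃* _).toMonoidHom.comp f)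
    ((MulEquiv.ulift.symm : Multiplicative (Fin n → ℤ) ≃* _).injective.comp hf),
    w06_coh_pi n G f hf⟩

/-- Proof: induction on `n`: let `f₀ : G → ℤ` be the first coordinate (`JK.hd`), `f' ` the others (`JK.tl`)
restricted to `ker f₀`, whose kernel is isomorphic to `ker f`. `RegGroup`: `regGroup_of_int f₀`. `Coh`: the line
(`JK.exists_line f₀`) with `Coh.tree`: the stabilizers are contained in `ker f₀`, in `Coh` and `RegGroup` by
induction (`Coh.sub`, `RegGroup.of_injective`). -/
theorem reg_coh_of_pi (n : ℕ) : ∀ (G : Type u) [Group G] (f : G →* Multiplicative (Fin n → ℤ))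
    (_ : RegGroup.{u} f.ker) (_ : Coh.{u} f.ker), RegGroup.{u} G ∧ Coh.{u} G := by
  induction n with
  | zero =>
    intro G _ f h1 h2
    have h3 : ∀ g : G, g ∈ f.ker := fun g => Subsingleton.elim _ _
    have h4 : Function.Injective (MonoidHom.codRestrict (MonoidHom.id G) f.ker h3) :=
      fun x y hxy => congrArg Subtype.val hxy
    exact ⟨h1.of_injective _ h4, Coh.sub _ _ _ h4 h2⟩
  | succ n ih =>
    intro G _ f h1 h2
    let f₀ : G →* Multiplicative ℤ := (JK.hd n).comp f
    let f' : f₀.ker →* Multiplicative (Fin n → ℤ) := ((JK.tl n).comp f).comp f₀.ker.subtype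
    have hmem : ∀ x : f'.ker, ((x : f₀.ker) : G) ∈ f.ker := by
      intro x
      have hx1 : JK.hd n (f ((x : f₀.ker) : G)) = 1 := (x : f₀.ker).2
      have hx2 : JK.tl n (f ((x : f₀.ker) : G)) = 1 := x.2
      rw [MonoidHom.mem_ker]
      refine JK.hd_tl n _ _ ?_ ?_
      · rw [hx1, map_one]
      · rw [hx2, map_one]
    let i : f'.ker →* f.ker :=
      { toFun := fun x => ⟨((x : f₀.ker) : G), hmem x⟩
        map_one' := rfl
        map_mul' := fun x y => rfl }
    have hi : Function.Injective i := fun x y hxy => by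
      have h3 : ((x : f₀.ker) : G) = ((y : f₀.ker) : G) := congrArg (fun z : f.ker => (z : G)) hxy
      exact Subtype.ext (Subtype.ext h3)
    obtain ⟨h3, h4⟩ := ih f₀.ker f' (h1.of_injective i hi) (Coh.sub _ _ i hi h2)
    refine ⟨regGroup_of_int f₀ h3, ?_⟩
    obtain ⟨V, act, T, hT⟩ := JK.exists_line f₀
    have key : ∀ S : Subgroup G, (∀ s ∈ S, f₀ s = 1) →
        ∃ j : S →* f₀.ker, Function.Injective j := by
      intro S hS
      exact ⟨{ toFun := fun x => ⟨x, hS x x.2⟩
               map_one' := rfl
               map_mul' := fun x y => rfl },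
        fun x y hxy => Subtype.ext (congrArg (fun z : f₀.ker => (z : G)) hxy)⟩
    refine Coh.tree G V T (fun x => ?_) fun x y _ => ?_
    · obtain ⟨j, hj⟩ := key (stabilizer G x) fun s hs => hT s x hs
      exact Coh.sub _ _ j hj h4
    · obtain ⟨j, hj⟩ := key (stabilizer G x ⊓ stabilizer G y) fun s hs => hT s x hs.1
      exact h3.of_injective j hj

/-- **Two-step groups**: a homomorphism to a finitely generated torsionfree abelian group with a free
abelian kernel of finite rank. Proof: `exists_coord`, `FreeAb.reg_coh`, `reg_coh_of_pi`. -/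
theorem reg_coh_of_two {G : Type u} [Group G] {M : Type v} [AddCommGroup M]
    (ht : ∀ (n : ℕ) (m : M), 0 < n → n • m = 0 → m = 0) (κ : G →* Multiplicative M)
    (S : Submodule ℤ M) (hS : S.FG) (hκ : ∀ g, Multiplicative.toAdd (κ g) ∈ S)
    (hker : FreeAb κ.ker) : RegGroup.{u} G ∧ Coh.{u} G := by
  obtain ⟨n, f, hf⟩ := exists_coord ht κ S hS hκ
  have h1 : FreeAb f.ker := by
    refine hker.of_injective
      { toFun := fun x => ⟨x, (hf x).1 x.2⟩
        map_one' := rfl
        map_mul' := fun x y => rfl } ?_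
    intro x y hxy
    exact Subtype.ext (congrArg (fun z : κ.ker => (z : G)) hxy)
  exact reg_coh_of_pi n G f h1.reg_coh.1 h1.reg_coh.2

end Pool.Agent.Lib.MP_c052b4_al.CT
end
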