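import Mathlib

section

/-!
# Axes of periodic walks
-/

set_option autoImplicit false
set_option linter.unusedSectionVars false

namespace Pool.Agent.Lib.MP_c052b4_al

universe v w

variable {G : Type v} [Group G] {X : Type w} [MulAction G X]

/-- The periodic extension of a sequence. -/
def axis (g : G) (p : ℕ) (v : ℕ → X) (n : ℤ) : X := g ^ (n / p) • v (n % p).toNat

theorem axis_smul (g : G) {p : ℕ} (hp : 1 ≤ p) (v : ℕ → X) (n : ℤ) :
    g • axis g p v n = axis g p v (n + p) := by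
  unfold axis
  have h0 : (p : ℤ) ≠ 0 := by omega
  rw [Int.add_ediv_of_dvd_right (dvd_refl _), Int.ediv_self h0, Int.add_emod_right, zpow_add_one,
    smul_smul, ← zpow_one_add, ← zpow_add_one, add_comm]

theorem zpow_smul_line {g : G} {p : ℤ} {ξ : ℤ → X} (h : ∀ n, g • ξ n = ξ (n + p)) (m : ℤ) :
    ∀ n, g ^ m • ξ n = ξ (n + m * p) := by
  induction m with
  | zero => intro n; rw [zpow_zero, one_smul, zero_mul, add_zero]
  | succ m ih =>
    intro n
    rw [zpow_add_one, mul_smul, h, ih]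
    congr 1
    ring
  | pred m ih =>
    intro n
    have h1 : g⁻¹ • ξ n = ξ (n - p) := by
      rw [inv_smul_eq_iff, h, sub_add_cancel]
    rw [zpow_sub_one, mul_smul, h1, ih]
    congr 1
    ring

theorem axis_eq {g : G} {p w : ℕ} (hp : 1 ≤ p) {v : ℕ → X}
    (h : ∀ s, s + p ≤ w → g • v s = v (s + p)) (s : ℕ) (hs : s ≤ w) :
    axis g p v (s : ℤ) = v s := by
  induction s using Nat.strong_induction_on with
  | _ s ih =>
    by_cases hsp : s < p
    · unfold axis
      rw [Int.ediv_eq_zero_of_lt (by omega) (by omega), Int.emod_eq_of_lt (by omega) (by omega),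
        zpow_zero, one_smul, Int.toNat_natCast]
    · obtain ⟨s', rfl⟩ : ∃ s', s = s' + p := ⟨s - p, by omega⟩
      rw [Nat.cast_add, ← axis_smul g hp, ih s' (by omega) (by omega), h s' hs]

theorem axis_line {F : X → X → Prop} (hF : ∀ (g : G) x y, F (g • x) (g • y) ↔ F x y)
    {g : G} {p w : ℕ} (hp : 1 ≤ p) (hpw : p ≤ w) {v : ℕ → X}
    (h : ∀ s, s + p ≤ w → g • v s = v (s + p)) (hv : ∀ s < w, F (v s) (v (s + 1))) (n : ℤ) :
    F (axis g p v n) (axis g p v (n + 1)) := by
  have h1 : (n % p) + (n / p) * p = n := Int.emod_add_ediv_mul n p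
  obtain ⟨r, hr⟩ : ∃ r : ℕ, (r : ℤ) = n % p :=
    ⟨(n % p).toNat, Int.toNat_of_nonneg (Int.emod_nonneg _ (by omega))⟩
  have hrp : (r : ℤ) < p := by
    rw [hr]
    exact Int.emod_lt_of_pos _ (by omega)
  have e1 := zpow_smul_line (axis_smul g hp v) (n / p) (r : ℤ)
  have e2 := zpow_smul_line (axis_smul g hp v) (n / p) ((r + 1 : ℕ) : ℤ)
  rw [show (r : ℤ) + n / p * p = n by rw [hr]; exact h1] at e1
  rw [show ((r + 1 : ℕ) : ℤ) + n / p * p = n + 1 by push_cast; rw [hr]; linarith] at e2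
  rw [← e1, ← e2, hF, axis_eq hp h r (by omega), axis_eq hp h (r + 1) (by omega)]
  exact hv r (by omega)

theorem axis_conj (g γ : G) {p : ℕ} (hp : 1 ≤ p) {u v : ℕ → X} (h : ∀ s < p, v s = γ • u s)
    (n : ℤ) : axis g p v n = γ • axis (γ⁻¹ * g * γ) p u n := by
  unfold axis
  have h0 : (n % (p : ℤ)).toNat < p := by
    have h1 := Int.emod_lt_of_pos n (b := (p : ℤ)) (by omega)
    have h2 := Int.emod_nonneg n (b := (p : ℤ)) (by omega)
    omega
  rw [h _ h0, smul_smul, smul_smul]
  congr 1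
  have h2 : (γ⁻¹ * g * γ) ^ (n / (p : ℤ)) = γ⁻¹ * g ^ (n / (p : ℤ)) * γ := by
    have := conj_zpow (i := n / (p : ℤ)) (a := γ⁻¹) (b := g)
    rwa [inv_inv] at this
  rw [h2]
  group

/-- Two periodic lines which agree on a long interval are equal if one of them is rigid. -/
theorem line_eq {ξ ξ' : ℤ → X} {g g' : G} {p p' : ℕ} (hp : 1 ≤ p) (hp' : 1 ≤ p')
    (h1 : ∀ n, g • ξ n = ξ (n + p)) (h2 : ∀ n, g' • ξ' n = ξ' (n + p')) {α β : ℤ}
    (hag : ∀ n, α ≤ n → n ≤ β → ξ n = ξ' n) (hlen : α + p * p' ≤ β)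
    (hr : ∀ h : G, (∀ n, α ≤ n → n + p * p' ≤ β → h • ξ n = ξ n) → ∀ n, h • ξ n = ξ n) :
    ξ = ξ' := by
  have e1 : ∀ n, g ^ (p' : ℤ) • ξ n = ξ (n + p * p') := by
    intro n
    rw [zpow_smul_line h1, mul_comm]
  have e2 : ∀ n, g' ^ (p : ℤ) • ξ' n = ξ' (n + p * p') := by
    intro n
    rw [zpow_smul_line h2]
  have hpp : (1 : ℤ) ≤ p * p' := by
    have : 1 ≤ p * p' := Nat.mul_le_mul hp hp'
    exact_mod_cast this
  have e3 := hr ((g' ^ (p : ℤ))⁻¹ * g ^ (p' : ℤ)) (by
    intro n hn1 hn2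
    rw [mul_smul, e1, hag (n + p * p') (by omega) hn2, ← e2, inv_smul_smul,
      hag n hn1 (by omega)])
  have e4 : ∀ n, g' ^ (p : ℤ) • ξ n = ξ (n + p * p') := by
    intro n
    have := e3 n
    rw [mul_smul, inv_smul_eq_iff, e1] at this
    exact this.symm
  funext n
  obtain ⟨m, hm1, hm2⟩ : ∃ m : ℤ, α ≤ n + m * (p * p') ∧ n + m * (p * p') < α + p * p' := by
    refine ⟨-((n - α) / (p * p')), ?_, ?_⟩
    · have h3 := Int.emod_add_ediv_mul (n - α) (p * p')
      have h4 := Int.emod_nonneg (n - α) (b := ((p : ℤ) * p')) (by omega)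
      have h5 : -((n - α) / (p * p' : ℤ)) * (p * p') = (n - α) % (p * p') - (n - α) := by linarith
      rw [h5]
      linarith
    · have h3 := Int.emod_add_ediv_mul (n - α) (p * p')
      have h4 := Int.emod_lt_of_pos (n - α) (b := ((p : ℤ) * p')) (by omega)
      have h5 : -((n - α) / (p * p' : ℤ)) * (p * p') = (n - α) % (p * p') - (n - α) := by linarith
      rw [h5]
      linarith
  have e5 := zpow_smul_line e4 m n
  have e6 := zpow_smul_line e2 m n
  rw [hag _ hm1 (by omega), ← e6] at e5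
  exact smul_left_cancel _ e5

/-- Local rigidity of a periodic line implies global rigidity. -/
theorem fix_global {B : ℤ → X} {g : G} {p : ℕ} (hp : 1 ≤ p) (hg : ∀ n, g • B n = B (n + p))
    {α β : ℤ} (hαβ : α ≤ β)
    (h0 : ∀ h : G, (∀ n, α ≤ n → n ≤ β → h • B n = B n) →
      ∀ n, α - p ≤ n → n ≤ β + p → h • B n = B n) :
    ∀ h : G, (∀ n, α ≤ n → n ≤ β → h • B n = B n) → ∀ n, h • B n = B n := by
  have hginv : ∀ n, g⁻¹ • B n = B (n - p) := by
    intro n
    rw [inv_smul_eq_iff, hg, sub_add_cancel]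
  have key : ∀ j : ℕ, ∀ h : G, (∀ n, α ≤ n → n ≤ β → h • B n = B n) →
      ∀ n, α - p * (j + 1) ≤ n → n ≤ β + p * (j + 1) → h • B n = B n := by
    intro j
    induction j with
    | zero =>
      intro h hh n h1 h2
      refine h0 h hh n ?_ ?_
      · push_cast at h1
        linarith
      · push_cast at h2
        linarith
    | succ j ih =>
      intro h hh n h1 h2
      have hpj : (p : ℤ) ≤ p * (j + 1) := by
        have : p * 1 ≤ p * (j + 1) := Nat.mul_le_mul_left p (by omega)
        exact_mod_cast (by simpa using this)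
      have e0 := ih h hh
      have e1 := ih (g⁻¹ * h * g) (by
        intro n hn1 hn2
        rw [mul_smul, mul_smul, hg, e0 _ (by linarith) (by linarith), hginv, add_sub_cancel_right])
      have e2 := ih (g * h * g⁻¹) (by
        intro n hn1 hn2
        rw [mul_smul, mul_smul, hginv, e0 _ (by linarith) (by linarith), hg, sub_add_cancel])
      have hs : (p : ℤ) * ((j + 1 : ℕ) + 1) = p * (j + 1) + p := by push_cast; ring
      rw [hs] at h1 h2
      by_cases hn : n ≤ β + p * (j + 1) - p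
      · have e3 := e2 (n + p) (by linarith) (by linarith)
        rw [mul_smul, mul_smul, hginv, add_sub_cancel_right, ← hg] at e3
        exact smul_left_cancel _ e3
      · have e3 := e1 (n - p) (by linarith) (by linarith)
        rw [mul_smul, mul_smul, hg, sub_add_cancel, ← hginv] at e3
        exact smul_left_cancel _ e3
  intro h hh n
  refine key (n.natAbs + α.natAbs + β.natAbs) h hh n ?_ ?_
  · have h1 : (1 : ℤ) ≤ p := by omega
    have h2 : (1 : ℤ) * ((n.natAbs + α.natAbs + β.natAbs : ℕ) + 1) ≤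
        p * ((n.natAbs + α.natAbs + β.natAbs : ℕ) + 1) := by
      apply mul_le_mul_of_nonneg_right h1
      positivity
    omega
  · have h1 : (1 : ℤ) ≤ p := by omega
    have h2 : (1 : ℤ) * ((n.natAbs + α.natAbs + β.natAbs : ℕ) + 1) ≤
        p * ((n.natAbs + α.natAbs + β.natAbs : ℕ) + 1) := by
      apply mul_le_mul_of_nonneg_right h1
      positivity
    omega

end Pool.Agent.Lib.MP_c052b4_al
end

section

/-!
# Iterated relations with unique intermediate points
-/

set_option autoImplicit false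

namespace Pool.Agent.Lib.MP_c052b4_al

universe v w

/-- `b` is reached from `a` by `m` steps. -/
def relN {X : Type w} (F : X → X → Prop) : ℕ → X → X → Prop
  | 0 => fun a b => b = a
  | (m + 1) => fun a b => ∃ c, relN F m a c ∧ F c b

theorem relN_zero {X : Type w} {F : X → X → Prop} {a b : X} : relN F 0 a b ↔ b = a := Iff.rfl

theorem relN_succ {X : Type w} {F : X → X → Prop} {m : ℕ} {a b : X} :
    relN F (m + 1) a b ↔ ∃ c, relN F m a c ∧ F c b := Iff.rfl

theorem relN_one {X : Type w} {F : X → X → Prop} {a b : X} : relN F 1 a b ↔ F a b := by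
  rw [relN_succ]
  constructor
  · rintro ⟨c, h1, h2⟩
    rw [relN_zero] at h1
    rwa [← h1]
  · intro h
    exact ⟨a, rfl, h⟩

theorem relN_add {X : Type w} {F : X → X → Prop} {m n : ℕ} : ∀ {a b : X},
    relN F (m + n) a b ↔ ∃ c, relN F m a c ∧ relN F n c b := by
  induction n with
  | zero =>
    intro a b
    constructor
    · intro h
      exact ⟨b, h, rfl⟩
    · rintro ⟨c, h1, h2⟩
      rw [relN_zero] at h2
      rwa [h2]
  | succ n ih =>
    intro a b
    rw [← Nat.add_assoc, relN_succ]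
    constructor
    · rintro ⟨c, h1, h2⟩
      obtain ⟨d, h3, h4⟩ := ih.1 h1
      exact ⟨d, h3, c, h4, h2⟩
    · rintro ⟨d, h3, c, h4, h2⟩
      exact ⟨c, ih.2 ⟨d, h3, h4⟩, h2⟩

theorem relN_succ' {X : Type w} {F : X → X → Prop} {m : ℕ} {a b : X} :
    relN F (m + 1) a b ↔ ∃ c, F a c ∧ relN F m c b := by
  rw [Nat.add_comm, relN_add]
  simp only [relN_one]

theorem relN_smul {G : Type v} [Group G] {X : Type w} [MulAction G X] {F : X → X → Prop}
    (hF : ∀ (g : G) x y, F (g • x) (g • y) ↔ F x y) (m : ℕ) (g : G) :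
    ∀ (x y : X), relN F m (g • x) (g • y) ↔ relN F m x y := by
  induction m with
  | zero =>
    intro x y
    rw [relN_zero, relN_zero, smul_left_cancel_iff]
  | succ k ih =>
    intro x y
    rw [relN_succ, relN_succ]
    constructor
    · rintro ⟨z, h1, h2⟩
      refine ⟨g⁻¹ • z, ?_, ?_⟩
      · rw [← ih, smul_inv_smul]
        exact h1
      · rw [← hF g, smul_inv_smul]
        exact h2
    · rintro ⟨z, h1, h2⟩
      exact ⟨g • z, (ih _ _).2 h1, (hF g _ _).2 h2⟩

/-- Unique walks: the length of a walk and its intermediate points are determined by its ends. -/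
structure UW {X : Type w} (F : X → X → Prop) : Prop where
  len : ∀ {m n : ℕ} {a b : X}, relN F m a b → relN F n a b → m = n
  mid : ∀ {m n : ℕ} {a b c c' : X}, relN F m a c → relN F n c b → relN F m a c' →
    relN F n c' b → c = c'

/-- walks -/
theorem relN_of_walk {X : Type w} {F : X → X → Prop} (z : ℕ → X) (s : ℕ) : ∀ m : ℕ,
    (∀ t < m, F (z (s + t)) (z (s + t + 1))) → relN F m (z s) (z (s + m)) := by
  intro m
  induction m with
  | zero =>
    intro _
    rfl
  | succ m ih =>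
    intro h
    exact ⟨z (s + m), ih fun t ht => h t (by omega), h m (by omega)⟩

end Pool.Agent.Lib.MP_c052b4_al
end

section

/-!
# Markers: local strict minima of type sequences
-/

set_option autoImplicit false

namespace Pool.Agent.Lib.MP_c052b4_al

/-- `t` is a marker: the type at `t` is less than `q` and strictly smaller than all types at
distance less than `k`. -/
def Mk (k q : ℕ) (Φ : ℕ → ℕ) (t : ℕ) : Prop :=
  Φ t < q ∧ ∀ s, s ≠ t → s < t + k → t < s + k → Φ t < Φ s

/-- markers are at least `k` apart -/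
theorem mk_shift_absurd {k q m t0 : ℕ} {Φ Ψ : ℕ → ℕ} (hm : 1 ≤ m) (hmk : m < k) (hm0 : m ≤ t0)
    (h : ∀ t ≤ t0, Ψ t = Φ (t + m)) (h1 : Mk k q Φ t0) (h2 : Mk k q Ψ t0) : False := by
  have e1 := h1.2 (t0 + m) (by omega) (by omega) (by omega)
  have e2 := h2.2 (t0 - m) (by omega) (by omega) (by omega)
  rw [h t0 le_rfl, h (t0 - m) (by omega), Nat.sub_add_cancel hm0] at e2
  omega

/-- markers and shifts -/
theorem mk_shift {k q t T : ℕ} {Φ Ψ : ℕ → ℕ} (h : ∀ t ≤ T, Ψ t = Φ (t + 1)) (h1 : k ≤ t + 1)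
    (h2 : t + k ≤ T + 1) (hk : 1 ≤ k) (hM : Mk k q Ψ t) : Mk k q Φ (t + 1) := by
  refine ⟨?_, ?_⟩
  · rw [← h t (by omega)]
    exact hM.1
  · intro s hs1 hs2 hs3
    obtain ⟨s', rfl⟩ : ∃ s', s = s' + 1 := ⟨s - 1, by omega⟩
    rw [← h t (by omega), ← h s' (by omega)]
    exact hM.2 s' (by omega) (by omega) (by omega)

theorem no_marker_aux {k q T lo hi : ℕ} {Φ : ℕ → ℕ}
    (hAP : ∀ s t, s ≠ t → s < t + k → t < s + k → s ≤ T → t ≤ T → Φ s = Φ t → q ≤ Φ t)
    (hT : hi + k ≤ T + 1) (hk : 1 ≤ k)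
    (hno : ∀ t, lo ≤ t → t ≤ hi → ¬ Mk k q Φ t) : ∀ n t, n < q → Φ t ≤ n → lo + k * n ≤ t →
      t + k * n ≤ hi → False := by
  intro n
  induction n with
  | zero =>
    intro t hn ht h1 h2
    apply hno t (by omega) (by omega)
    refine ⟨by omega, fun s hs1 hs2 hs3 => ?_⟩
    by_contra hlt
    have := hAP s t hs1 hs2 hs3 (by omega) (by omega) (by omega)
    omega
  | succ n ih =>
    intro t hn ht h1 h2
    have hkn : k * (n + 1) = k * n + k := by ring
    apply hno t (by omega) (by omega)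
    refine ⟨by omega, fun s hs1 hs2 hs3 => ?_⟩
    by_contra hlt
    by_cases heq : Φ s = Φ t
    · have := hAP s t hs1 hs2 hs3 (by omega) (by omega) heq
      omega
    · exact ih s (by omega) (by omega) (by omega) (by omega)

/-- Far inside an interval without markers all positions have type at least `q`. -/
theorem no_marker {k q T lo hi : ℕ} {Φ : ℕ → ℕ}
    (hAP : ∀ s t, s ≠ t → s < t + k → t < s + k → s ≤ T → t ≤ T → Φ s = Φ t → q ≤ Φ t)
    (hT : hi + k ≤ T + 1) (hk : 1 ≤ k)
    (hno : ∀ t, lo ≤ t → t ≤ hi → ¬ Mk k q Φ t) {t : ℕ} (h1 : lo + k * q ≤ t)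
    (h2 : t + k * q ≤ hi) : q ≤ Φ t := by
  by_contra hlt
  have hle : k * Φ t ≤ k * q := Nat.mul_le_mul_left k (by omega)
  exact no_marker_aux hAP hT hk hno (Φ t) t (by omega) le_rfl (by omega) (by omega)

end Pool.Agent.Lib.MP_c052b4_al
end

section

/-!
# The shift on walks of a fixed length
-/

set_option autoImplicit false
set_option linter.unusedSectionVars false

namespace Pool.Agent.Lib.MP_c052b4_al

universe v w

variable {G : Type v} [Group G] {X : Type w} [MulAction G X] {F : X → X → Prop} {L : ℕ}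

/-- walks of length `L`, as eventually constant functions -/
def Wk (F : X → X → Prop) (L : ℕ) (a : ℕ → X) : Prop :=
  (∀ t < L, F (a t) (a (t + 1))) ∧ ∀ t, L ≤ t → a t = a L

/-- the shift relation on walks -/
def St (F : X → X → Prop) (L : ℕ) (a b : ℕ → X) : Prop :=
  (∀ t < L, b t = a (t + 1)) ∧ F (a L) (b L) ∧ Wk F L a ∧ Wk F L b

theorem wk_smul (hF : ∀ (g : G) x y, F (g • x) (g • y) ↔ F x y) (g : G) (a : ℕ → X) :
    Wk F L (g • a) ↔ Wk F L a := by
  unfold Wk
  simp only [Pi.smul_apply, hF, smul_left_cancel_iff]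

theorem st_smul (hF : ∀ (g : G) x y, F (g • x) (g • y) ↔ F x y) (g : G) (a b : ℕ → X) :
    St F L (g • a) (g • b) ↔ St F L a b := by
  unfold St
  rw [wk_smul hF, wk_smul hF]
  simp only [Pi.smul_apply, hF, smul_left_cancel_iff]

theorem relN_st_fst {m : ℕ} {a c : ℕ → X} (ha : Wk F L a) (h : relN (St F L) m a c) :
    Wk F L c ∧ ∀ t ≤ L, relN F (m + t) (a 0) (c t) := by
  induction m generalizing c with
  | zero =>
    obtain rfl : c = a := h
    refine ⟨ha, fun t ht => ?_⟩
    rw [Nat.zero_add]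
    have := relN_of_walk (F := F) c 0 t fun s hs => by
      rw [Nat.zero_add]
      exact ha.1 s (by omega)
    rwa [Nat.zero_add] at this
  | succ m ih =>
    obtain ⟨c', h1, h2⟩ := h
    obtain ⟨-, h3⟩ := ih h1
    refine ⟨h2.2.2.2, fun t ht => ?_⟩
    rcases Nat.lt_or_eq_of_le ht with h4 | h4
    · rw [h2.1 t h4]
      have := h3 (t + 1) (by omega)
      rwa [show m + 1 + t = m + (t + 1) by omega]
    · subst h4
      rw [show m + 1 + t = m + t + 1 by omega]
      exact ⟨c' t, h3 t le_rfl, h2.2.1⟩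

theorem relN_st_snd {n : ℕ} {c b : ℕ → X} (hb : Wk F L b) (h : relN (St F L) n c b) :
    Wk F L c ∧ ∀ t ≤ L, relN F (n + (L - t)) (c t) (b L) := by
  induction n generalizing c with
  | zero =>
    obtain rfl : b = c := h
    refine ⟨hb, fun t ht => ?_⟩
    rw [Nat.zero_add]
    have := relN_of_walk (F := F) b t (L - t) fun s hs => by
      exact hb.1 (t + s) (by omega)
    rwa [show t + (L - t) = L by omega] at this
  | succ n ih =>
    obtain ⟨c', h1, h2⟩ := relN_succ'.1 h
    obtain ⟨-, h3⟩ := ih h2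
    refine ⟨h1.2.2.1, fun t ht => ?_⟩
    rw [show n + 1 + (L - t) = n + (L - t) + 1 by omega]
    rcases Nat.lt_or_eq_of_le ht with h4 | h4
    · refine relN_succ'.2 ⟨c' t, ?_, h3 t ht⟩
      rw [h1.1 t h4]
      exact h1.2.2.1.1 t h4
    · subst h4
      exact relN_succ'.2 ⟨c' t, h1.2.1, h3 t le_rfl⟩

/-- intermediate walks are unique -/
theorem relN_st_mid (hU : UW F) {m n : ℕ} {a b c c' : ℕ → X} (h1 : relN (St F L) m a c)
    (h2 : relN (St F L) n c b) (h3 : relN (St F L) m a c') (h4 : relN (St F L) n c' b) :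
    c = c' := by
  rcases m with _ | m
  · obtain rfl : c = a := h1
    exact h3.symm
  rcases n with _ | n
  · obtain rfl : b = c := h2
    exact h4
  obtain ⟨x, hx, -⟩ := relN_succ'.1 h1
  obtain ⟨y, -, hy⟩ := relN_succ.1 h2
  have ha : Wk F L a := hx.2.2.1
  have hb : Wk F L b := hy.2.2.2
  obtain ⟨w1, e1⟩ := relN_st_fst ha h1
  obtain ⟨w2, e2⟩ := relN_st_fst ha h3
  obtain ⟨-, e3⟩ := relN_st_snd hb h2
  obtain ⟨-, e4⟩ := relN_st_snd hb h4
  have key : ∀ t ≤ L, c t = c' t := fun t ht => hU.mid (e1 t ht) (e3 t ht) (e2 t ht) (e4 t ht)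
  funext t
  rcases Nat.lt_or_ge L t with h | h
  · rw [w1.2 t h.le, w2.2 t h.le, key L le_rfl]
  · exact key t h

/-- the shift of the positions -/
theorem relN_st_shift {m : ℕ} {a b : ℕ → X} (h : relN (St F L) m a b) :
    ∀ t, t + m ≤ L → b t = a (t + m) := by
  induction m generalizing b with
  | zero =>
    obtain rfl : b = a := h
    intro t _
    rfl
  | succ m ih =>
    obtain ⟨c, h1, h2⟩ := h
    intro t ht
    rw [h2.1 t (by omega), ih h1 (t + 1) (by omega)]
    congr 1
    omega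

end Pool.Agent.Lib.MP_c052b4_al
end
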