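import Pool.Agent.Lib.MP_c052b4_al.Mg.G071
import Pool.Agent.Lib.MP_c052b4_al.LN.Elim
import Pool.Agent.Lib.MP_c052b4_al.Mg.G092

section

/-!
# Products of parts of matrices along relations with unique intermediate points
-/

set_option autoImplicit false
set_option linter.unusedSectionVars false

namespace Pool.Agent.Lib.MP_c052b4_al

open Matrix

universe u v w w' w''

variable {R : Type u} [Ring R] {G : Type v} [Group G] {X : Type w} [MulAction G X]
  {Y : Type w'} [MulAction G Y] {W : Type w''} [MulAction G W]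
  {ι κ μ : Type*}

theorem coeff_mul_sum (a b : MonoidAlgebra R G) (g : G) (s : Finset G) (hs : a.coeff.support ⊆ s) :
    (a * b).coeff g = ∑ x ∈ s, a.coeff x * b.coeff (x⁻¹ * g) := by
  rw [MonoidAlgebra.coeff_mul_apply_left, Finsupp.sum]
  refine Finset.sum_subset hs fun x _ hx => ?_
  rw [Finsupp.notMem_support_iff.1 hx, zero_mul]

/-- products of parts -/
theorem cpA_mul_cpA (a b : MonoidAlgebra R G) (Z Z' S : Set G)
    (h : ∀ x y, a.coeff x ≠ 0 → b.coeff y ≠ 0 → (x * y ∈ S ↔ x ∈ Z ∧ y ∈ Z')) :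
    cpA Z a * cpA Z' b = cpA S (a * b) := by
  classical
  ext g
  rw [coeff_cpA, coeff_mul_sum a b g _ subset_rfl, coeff_mul_sum (cpA Z a) (cpA Z' b) g
    a.coeff.support]
  · by_cases hg : g ∈ S
    · rw [if_pos hg]
      refine Finset.sum_congr rfl fun x _ => ?_
      rw [coeff_cpA, coeff_cpA]
      by_cases hx : a.coeff x = 0
      · rw [hx, ite_self, zero_mul, zero_mul]
      by_cases hy : b.coeff (x⁻¹ * g) = 0
      · rw [hy, ite_self, mul_zero, mul_zero]
      have h1 := (h x (x⁻¹ * g) hx hy).1 (by rwa [mul_inv_cancel_left])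
      rw [if_pos h1.1, if_pos h1.2]
    · rw [if_neg hg]
      refine Finset.sum_eq_zero fun x _ => ?_
      rw [coeff_cpA, coeff_cpA]
      by_cases hx : a.coeff x = 0
      · rw [hx, ite_self, zero_mul]
      by_cases hy : b.coeff (x⁻¹ * g) = 0
      · rw [hy, ite_self, mul_zero]
      by_cases h1 : x ∈ Z
      · by_cases h2 : x⁻¹ * g ∈ Z'
        · have h3 := (h x (x⁻¹ * g) hx hy).2 ⟨h1, h2⟩
          rw [mul_inv_cancel_left] at h3
          exact absurd h3 hg
        · rw [if_neg h2, mul_zero]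
      · rw [if_neg h1, zero_mul]
  · intro x hx
    rw [Finsupp.mem_support_iff, coeff_cpA] at hx
    rw [Finsupp.mem_support_iff]
    intro h0
    rw [h0, ite_self] at hx
    exact hx rfl

theorem cpA_sum {α : Type*} (Z : Set G) (s : Finset α) (f : α → MonoidAlgebra R G) :
    cpA Z (∑ a ∈ s, f a) = ∑ a ∈ s, cpA Z (f a) := by
  classical
  induction s using Finset.induction_on with
  | empty => rw [Finset.sum_empty, Finset.sum_empty, cpA_zero]
  | insert a s ha ih => rw [Finset.sum_insert ha, Finset.sum_insert ha, cpA_add, ih]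

/-- **Products of parts of matrices** along relations, if the middle degree is determined by the
outer degrees. -/
theorem rp_mul_rp [Fintype κ] {l : ι → X} {l' : κ → Y} {l'' : μ → W} {P0 P : X → Y → Prop}
    {Q0 Q : Y → W → Prop} (hQ0 : ∀ (g : G) x y, Q0 (g • x) (g • y) ↔ Q0 x y)
    (hQ : ∀ (g : G) x y, Q (g • x) (g • y) ↔ Q x y)
    (hu : ∀ x y y' z, P0 x y → Q0 y z → P0 x y' → Q0 y' z → y = y')
    {A : Matrix ι κ (MonoidAlgebra R G)} {B : Matrix κ μ (MonoidAlgebra R G)}
    (hA : Sp l l' P0 A) (hB : Sp l' l'' Q0 B) :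
    rp l l' P A * rp l' l'' Q B =
      rp l l'' (fun x z => ∃ y, P0 x y ∧ Q0 y z ∧ P x y ∧ Q y z) (A * B) := by
  classical
  refine Matrix.ext fun i j => ?_
  change (∑ k, cpA {g | P (l i) (g • l' k)} (A i k) * cpA {g | Q (l' k) (g • l'' j)} (B k j)) =
    cpA {g | ∃ y, P0 (l i) y ∧ Q0 y (g • l'' j) ∧ P (l i) y ∧ Q y (g • l'' j)}
      (∑ k, A i k * B k j)
  rw [cpA_sum]
  refine Finset.sum_congr rfl fun k _ => ?_
  refine cpA_mul_cpA _ _ _ _ _ fun x y hx hy => ?_
  have h1 := hA i k x hx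
  have h2 := hB k j y hy
  rw [← hQ0 x, smul_smul] at h2
  constructor
  · rintro ⟨c, h3, h4, h5, h6⟩
    have h7 := hu _ _ _ _ h1 h2 h3 h4
    rw [← h7] at h5 h6
    refine ⟨h5, ?_⟩
    change Q (l' k) (y • l'' j)
    rw [← hQ x, smul_smul]
    exact h6
  · rintro ⟨h3, h4⟩
    refine ⟨x • l' k, h1, h2, h3, ?_⟩
    change Q (l' k) (y • l'' j) at h4
    rw [← hQ x, smul_smul] at h4
    exact h4

theorem rp_congr (l : ι → X) (l' : κ → Y) {P Q P0 : X → Y → Prop}
    {M : Matrix ι κ (MonoidAlgebra R G)} (h : Sp l l' P0 M)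
    (hPQ : ∀ x y, P0 x y → (P x y ↔ Q x y)) : rp l l' P M = rp l l' Q M := by
  classical
  refine Matrix.ext fun i j => ?_
  change cpA _ (M i j) = cpA _ (M i j)
  ext g
  rw [coeff_cpA, coeff_cpA]
  by_cases hg : (M i j).coeff g = 0
  · rw [hg, ite_self, ite_self]
  · have h1 := hPQ _ _ (h i j g hg)
    by_cases h2 : P (l i) (g • l' j)
    · rw [if_pos (show g ∈ {g | P (l i) (g • l' j)} from h2),
        if_pos (show g ∈ {g | Q (l i) (g • l' j)} from h1.1 h2)]
    · rw [if_neg (show ¬ g ∈ {g | P (l i) (g • l' j)} from h2),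
        if_neg (show ¬ g ∈ {g | Q (l i) (g • l' j)} from fun h3 => h2 (h1.2 h3))]

end Pool.Agent.Lib.MP_c052b4_al
end

section

/-!
# In-splitting of a nilpotent matrix over a relation with unique walks
-/

set_option autoImplicit false
set_option linter.unusedSectionVars false

namespace Pool.Agent.Lib.MP_c052b4_al

open Matrix

universe u v w

variable {R : Type u} [Ring R] {G : Type v} [Group G] {X : Type w} [MulAction G X]

theorem sp_pow {Y : Type w} [MulAction G Y] {ι : Type*} [Fintype ι] [DecidableEq ι] {l : ι → Y}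
    {F : Y → Y → Prop} (hF : ∀ (g : G) x y, F (g • x) (g • y) ↔ F x y)
    {M : Matrix ι ι (MonoidAlgebra R G)} (h : Sp l l F M) (m : ℕ) :
    Sp l l (relN F m) (M ^ m) := by
  induction m with
  | zero =>
    rw [pow_zero]
    exact (sp_one l).mono fun x y h => h
  | succ m ih =>
    rw [pow_succ]
    exact (ih.mul hF h).mono fun x y h => h

/-- A nilpotent matrix over a free module whose basis is labelled by walks of length `L`, supported
along the shift. -/
structure Lev (R : Type u) [Ring R] (G : Type v) [Group G] {X : Type w} [MulAction G X]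
    (F : X → X → Prop) (k : ℕ) (κ : KOne (MonoidAlgebra R G)) (L : ℕ) where
  n : ℕ
  lab : Fin n → ℕ → X
  M : Matrix (Fin n) (Fin n) (MonoidAlgebra R G)
  chain : ∀ i t, t < L → F (lab i t) (lab i (t + 1))
  const : ∀ i t, L ≤ t → lab i t = lab i L
  supp : ∀ i j g, (M i j).coeff g ≠ 0 →
    (∀ t < L, g • lab j t = lab i (t + 1)) ∧ F (lab i L) (g • lab j L)
  nil : M ^ k = 0
  cls : kk (-M) = κ

namespace Lev

variable {F : X → X → Prop} {k : ℕ} {κ : KOne (MonoidAlgebra R G)} {L : ℕ}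

theorem supp_zero (A : Lev R G F k κ L) (i j : Fin A.n) (g : G) (h : (A.M i j).coeff g ≠ 0) :
    F (A.lab i 0) (g • A.lab j 0) := by
  obtain ⟨h1, h2⟩ := A.supp i j g h
  rcases Nat.eq_zero_or_pos L with h0 | h0
  · subst h0
    exact h2
  · rw [h1 0 h0]
    exact A.chain i 0 h0

theorem pow_drop {T : Type*} [Ring T] {m n : Type*} [Fintype m] [Fintype n] [DecidableEq m]
    [DecidableEq n] (a : Matrix m n T) (b : Matrix n m T) (r : ℕ) :
    (a * b) ^ (r + 1) = a * ((b * a) ^ r * b) := by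
  induction r with
  | zero => rw [zero_add, pow_one, pow_zero, Matrix.one_mul]
  | succ r ih =>
    rw [pow_succ, ih, pow_succ]
    simp only [Matrix.mul_assoc]

theorem exists_succ (hF : ∀ (g : G) x y, F (g • x) (g • y) ↔ F x y) (hU : UW F) (hk : 1 ≤ k)
    (A : Lev R G F k κ L) : ∃ B : Lev R G F k κ (L + 1),
      (∀ j, ∃ (i : Fin A.n) (g : G), ∀ s ≤ L, B.lab j s = g • A.lab i s) ∧
      ∀ j, ∃ i : Fin A.n, ∀ s, B.lab j (s + 1) = A.lab i s := by
  classical
  let pr : Fin A.n → Finset X := fun j => Finset.univ.biUnion fun i =>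
    (A.M i j).coeff.support.image fun g => g⁻¹ • A.lab i 0
  have hpr : ∀ j x, x ∈ pr j ↔ ∃ i g, (A.M i j).coeff g ≠ 0 ∧ g⁻¹ • A.lab i 0 = x := by
    intro j x
    simp only [pr, Finset.mem_biUnion, Finset.mem_univ, true_and, Finset.mem_image,
      Finsupp.mem_support_iff]
  let P := Σ j : Fin A.n, {x : X // x ∈ pr j}
  let e : P ≃ Fin (Fintype.card P) := Fintype.equivFin P
  set m := Fintype.card P with hm
  let jj : Fin m → Fin A.n := fun i => (e.symm i).1
  let xx : Fin m → X := fun i => (e.symm i).2.1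
  have hmem : ∀ i, xx i ∈ pr (jj i) := fun i => (e.symm i).2.2
  have hex : ∀ j x, x ∈ pr j → ∃ i, jj i = j ∧ xx i = x := by
    intro j x hx
    refine ⟨e ⟨j, x, hx⟩, ?_, ?_⟩
    · change (e.symm (e ⟨j, x, hx⟩)).1 = j
      rw [Equiv.symm_apply_apply]
    · change (e.symm (e ⟨j, x, hx⟩)).2.1 = x
      rw [Equiv.symm_apply_apply]
  have hinj : ∀ i i', jj i = jj i' → xx i = xx i' → i = i' := by
    intro i i' h1 h2
    apply e.symm.injective
    have h3 : (⟨(e.symm i).1, (e.symm i).2⟩ : P) = ⟨(e.symm i').1, (e.symm i').2⟩ := by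
      have key : ∀ (p q : P), p.1 = q.1 → p.2.1 = q.2.1 → p = q := by
        rintro ⟨a, b, hb⟩ ⟨c, d, hd⟩ h4 h5
        obtain rfl : a = c := h4
        obtain rfl : b = d := h5
        rfl
      exact key _ _ h1 h2
    exact h3
  let nu : Matrix (Fin A.n) (Fin m) (MonoidAlgebra R G) := Matrix.of fun i i' =>
    cpA {g | g • xx i' = A.lab i 0} (A.M i (jj i'))
  let dr : Matrix (Fin m) (Fin A.n) (MonoidAlgebra R G) := Matrix.of fun i' j =>
    if jj i' = j then 1 else 0
  have hnd : nu * dr = A.M := by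
    refine Matrix.ext fun i j => ?_
    change (∑ i', cpA {g | g • xx i' = A.lab i 0} (A.M i (jj i')) *
      (if jj i' = j then (1 : MonoidAlgebra R G) else 0)) = A.M i j
    ext g
    rw [MonoidAlgebra.coeff_sum, Finsupp.finsetSum_apply]
    have hterm : ∀ i', (cpA {g | g • xx i' = A.lab i 0} (A.M i (jj i')) *
        (if jj i' = j then (1 : MonoidAlgebra R G) else 0)).coeff g =
        if jj i' = j ∧ g • xx i' = A.lab i 0 then (A.M i j).coeff g else 0 := by
      intro i'
      by_cases h1 : jj i' = j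
      · subst h1
        rw [if_pos rfl, mul_one, coeff_cpA]
        by_cases h2 : g • xx i' = A.lab i 0
        · rw [if_pos (show g ∈ {g | g • xx i' = A.lab i 0} from h2), if_pos ⟨rfl, h2⟩]
        · rw [if_neg (show g ∉ {g | g • xx i' = A.lab i 0} from h2), if_neg fun h => h2 h.2]
      · rw [if_neg h1, mul_zero, if_neg fun h => h1 h.1]
        rfl
    simp only [hterm]
    by_cases hg : (A.M i j).coeff g = 0
    · rw [hg]
      exact Finset.sum_eq_zero fun _ _ => ite_self _
    · obtain ⟨i0, h1, h2⟩ := hex j (g⁻¹ • A.lab i 0) ((hpr _ _).2 ⟨i, g, hg, rfl⟩)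
      rw [Finset.sum_eq_single i0]
      · rw [if_pos]
        exact ⟨h1, by rw [h2, smul_inv_smul]⟩
      · intro i' _ hne
        rw [if_neg]
        rintro ⟨h3, h4⟩
        apply hne
        apply hinj
        · rw [h3, h1]
        · rw [h2, ← h4, inv_smul_smul]
      · intro h
        exact absurd (Finset.mem_univ _) h
  have hdn : ∀ i i', (dr * nu) i i' = cpA {g | g • xx i' = A.lab (jj i) 0}
      (A.M (jj i) (jj i')) := by
    intro i i'
    change (∑ j, (if jj i = j then (1 : MonoidAlgebra R G) else 0) *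
      cpA {g | g • xx i' = A.lab j 0} (A.M j (jj i'))) = _
    rw [Finset.sum_eq_single (jj i)]
    · rw [if_pos rfl, one_mul]
    · intro j _ hj
      rw [if_neg fun h => hj h.symm, zero_mul]
    · intro h
      exact absurd (Finset.mem_univ _) h
  have hsupp : ∀ i i' g, ((dr * nu) i i').coeff g ≠ 0 →
      g • xx i' = A.lab (jj i) 0 ∧ (A.M (jj i) (jj i')).coeff g ≠ 0 := by
    intro i i' g hg
    rw [hdn, coeff_cpA] at hg
    by_cases h1 : g • xx i' = A.lab (jj i) 0
    · refine ⟨h1, ?_⟩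
      rwa [if_pos (show g ∈ {g | g • xx i' = A.lab (jj i) 0} from h1)] at hg
    · rw [if_neg (show g ∉ {g | g • xx i' = A.lab (jj i) 0} from h1)] at hg
      exact absurd rfl hg
  -- nilpotency
  have hnil : A.M ^ (k - 1) * nu = 0 := by
    let l0 : Fin A.n → X := fun i => A.lab i 0
    let l2 : Fin m → X × X := fun i => (xx i, A.lab (jj i) 0)
    have hS : Sp l0 l0 F A.M := fun i j g h => A.supp_zero i j g h
    have hS' : Sp l0 l0 (relN F (k - 1)) (A.M ^ (k - 1)) := sp_pow hF hS _
    let N1 : Matrix (Fin A.n) (Fin m) (MonoidAlgebra R G) := Matrix.of fun i i' => A.M i (jj i')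
    have hN1 : Sp l0 l2 (fun x z => F x z.2) N1 := fun i i' g h => A.supp_zero i (jj i') g h
    have e1 := rp_mul_rp (P := relN F (k - 1)) (P0 := relN F (k - 1)) (Q0 := fun x z => F x z.2)
      (Q := fun (x : X) (z : X × X) => z.1 = x) (fun g x y => hF g x y.2)
      (fun g x y => by
        change g • y.1 = g • x ↔ y.1 = x
        exact smul_left_cancel_iff g)
      (fun x y y' (z : X × X) h1 h2 h3 h4 => hU.mid (b := z.2) h1 (relN_one.2 h2) h3
        (relN_one.2 h4)) hS' hN1
    have e2 : rp l0 l0 (relN F (k - 1)) (A.M ^ (k - 1)) = A.M ^ (k - 1) :=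
      hS'.rp_eq_self fun _ _ h => h
    have e3 : rp l0 l2 (fun (x : X) (z : X × X) => z.1 = x) N1 = nu := rfl
    have e4 : A.M ^ (k - 1) * N1 = 0 := by
      refine Matrix.ext fun i i' => ?_
      have e5 : A.M ^ (k - 1) * A.M = 0 := by
        rw [← pow_succ, Nat.sub_add_cancel hk, A.nil]
      exact congrFun (congrFun e5 i) (jj i')
    rw [e2, e3, e4, rp_zero] at e1
    exact e1
  refine ⟨
    { n := m
      lab := fun i t => Nat.casesOn t (xx i) fun t => A.lab (jj i) t
      M := dr * nu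
      chain := ?_
      const := ?_
      supp := ?_
      nil := ?_
      cls := ?_ }, ?_, ?_⟩
  · intro i t ht
    rcases t with _ | t
    · obtain ⟨i0, g, h1, h2⟩ := (hpr _ _).1 (hmem i)
      have h3 := A.supp_zero _ _ _ h1
      change F (xx i) (A.lab (jj i) 0)
      rw [← h2, ← hF g, smul_inv_smul]
      exact h3
    · exact A.chain (jj i) t (by omega)
  · intro i t ht
    rcases t with _ | t
    · omega
    · exact A.const (jj i) t (by omega)
  · intro i i' g hg
    obtain ⟨h1, h2⟩ := hsupp i i' g hg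
    obtain ⟨h3, h4⟩ := A.supp _ _ _ h2
    refine ⟨fun t ht => ?_, h4⟩
    rcases t with _ | t
    · exact h1
    · exact h3 t (by omega)
  · obtain ⟨r, rfl⟩ : ∃ r, k = r + 1 := ⟨k - 1, by omega⟩
    rw [pow_drop, hnd]
    rw [Nat.add_sub_cancel] at hnil
    rw [hnil, Matrix.mul_zero]
  · rw [kk_neg_comm, hnd, A.cls]
  · intro i
    obtain ⟨i0, g, h1, h2⟩ := (hpr _ _).1 (hmem i)
    obtain ⟨h3, -⟩ := A.supp _ _ _ h1
    refine ⟨i0, g⁻¹, fun s hs => ?_⟩
    rcases s with _ | s
    · exact h2.symm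
    · change A.lab (jj i) s = _
      rw [← h3 s (by omega), inv_smul_smul]
  · intro i
    exact ⟨jj i, fun s => rfl⟩

end Lev

end Pool.Agent.Lib.MP_c052b4_al
end

section

/-!
# The sequence of in-splittings and its windows
-/

set_option autoImplicit false
set_option linter.unusedSectionVars false

namespace Pool.Agent.Lib.MP_c052b4_al

open Matrix

universe u v w

variable {R : Type u} [Ring R] {G : Type v} [Group G] {X : Type w} [MulAction G X]
  {F : X → X → Prop} {k : ℕ} {κ : KOne (MonoidAlgebra R G)}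

/-- A sequence of levels whose windows come from the lower levels. -/
structure LSeq (R : Type u) [Ring R] (G : Type v) [Group G] {X : Type w} [MulAction G X]
    (F : X → X → Prop) (k : ℕ) (κ : KOne (MonoidAlgebra R G)) where
  lv : ∀ L, Lev R G F k κ L
  win : ∀ w d (i : Fin (lv (w + d)).n) t, t ≤ d → ∃ (j : Fin (lv w).n) (g : G),
    ∀ s ≤ w, (lv (w + d)).lab i (t + s) = g • (lv w).lab j s

theorem exists_lseq (hF : ∀ (g : G) x y, F (g • x) (g • y) ↔ F x y) (hU : UW F) (hk : 1 ≤ k)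
    (A0 : Lev R G F k κ 0) : Nonempty (LSeq R G F k κ) := by
  classical
  choose nx h1 h2 using fun (L : ℕ) (A : Lev R G F k κ L) => A.exists_succ hF hU hk
  let lv : ∀ L, Lev R G F k κ L := fun L => Nat.rec A0 (fun L A => nx L A) L
  refine ⟨⟨lv, ?_⟩⟩
  intro w d
  induction d with
  | zero =>
    intro i t ht
    obtain rfl : t = 0 := by omega
    exact ⟨i, 1, fun s _ => by rw [one_smul, Nat.zero_add]; rfl⟩
  | succ d ih =>
    intro i t ht
    rcases t with _ | t
    · obtain ⟨j, g, hj⟩ := h1 (w + d) (lv (w + d)) i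
      obtain ⟨j', g', hj'⟩ := ih j 0 (Nat.zero_le _)
      refine ⟨j', g * g', fun s hs => ?_⟩
      have e1 := hj s (by omega)
      have e2 := hj' s hs
      rw [Nat.zero_add] at e2 ⊢
      rw [mul_smul, ← e2]
      exact e1
    · obtain ⟨j, hj⟩ := h2 (w + d) (lv (w + d)) i
      obtain ⟨j', g', hj'⟩ := ih j t (by omega)
      refine ⟨j', g', fun s hs => ?_⟩
      rw [← hj' s hs, ← hj (t + s)]
      have : t + 1 + s = t + s + 1 := by omega
      rw [this]
      rfl

/-- the lowest level -/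
theorem exists_lev_zero {ι : Type*} [Fintype ι] [DecidableEq ι] (l : ι → X)
    (N : Matrix ι ι (MonoidAlgebra R G)) (hN : Sp l l F N) (hk : N ^ k = 0) :
    Nonempty (Lev R G F k (kk (-N)) 0) := by
  let e := Fintype.equivFin ι
  refine ⟨
    { n := Fintype.card ι
      lab := fun i _ => l (e.symm i)
      M := N.submatrix e.symm e.symm
      chain := fun i t ht => absurd ht (Nat.not_lt_zero _)
      const := fun i t _ => rfl
      supp := fun i j g hg => ⟨fun t ht => absurd ht (Nat.not_lt_zero _), hN _ _ g hg⟩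
      nil := ?_
      cls := ?_ }⟩
  · have h : ∀ r : ℕ, (N.submatrix e.symm e.symm) ^ r = (N ^ r).submatrix e.symm e.symm := by
      intro r
      induction r with
      | zero => rw [pow_zero, pow_zero, Matrix.submatrix_one_equiv]
      | succ r ih => rw [pow_succ, ih, pow_succ, Matrix.submatrix_mul_equiv]
    rw [h, hk]
    rfl
  · rw [← kk_reindex e (-N)]
    rfl

end Pool.Agent.Lib.MP_c052b4_al
end

section

/-!
# Elimination of markers
-/

set_option autoImplicit false
set_option linter.unusedSectionVars false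

namespace Pool.Agent.Lib.MP_c052b4_al

open Matrix

universe u v w

variable {R : Type u} [Ring R] {G : Type v} [Group G] {Y : Type w} [MulAction G Y]
  {ι : Type*} [Fintype ι] [DecidableEq ι]

/-- The projection onto the basis elements with label in `P`. -/
noncomputable def pj (R : Type u) [Ring R] (G : Type v) [Group G] (l : ι → Y) (P : Y → Prop) :
    Matrix ι ι (MonoidAlgebra R G) :=
  open Classical in Matrix.diagonal fun i => if P (l i) then 1 else 0

theorem pj_mul_mul_pj (l : ι → Y) {P Q : Y → Prop} (hQ : ∀ (g : G) y, Q (g • y) ↔ Q y)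
    (M : Matrix ι ι (MonoidAlgebra R G)) :
    pj R G l P * M * pj R G l Q = rp l l (fun a b => P a ∧ Q b) M := by
  classical
  refine Matrix.ext fun i j => ?_
  unfold pj
  rw [Matrix.mul_diagonal, Matrix.diagonal_mul]
  change _ = cpA {g | P (l i) ∧ Q (g • l j)} (M i j)
  ext g
  rw [coeff_cpA]
  by_cases h1 : P (l i)
  · by_cases h2 : Q (l j)
    · rw [if_pos h1, if_pos h2, one_mul, mul_one, if_pos]
      exact ⟨h1, (hQ g _).2 h2⟩
    · rw [if_neg h2, mul_zero, if_neg]
      · rfl
      · rintro ⟨-, h3⟩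
        exact h2 ((hQ g _).1 h3)
  · rw [if_neg h1, zero_mul, zero_mul, if_neg]
    · rfl
    · rintro ⟨h3, -⟩
      exact h1 h3

theorem pj_mul_pj (l : ι → Y) (P Q : Y → Prop) :
    pj R G l P * pj R G l Q = pj R G l (fun a => P a ∧ Q a) := by
  classical
  unfold pj
  rw [Matrix.diagonal_mul_diagonal]
  congr 1
  funext i
  by_cases h1 : P (l i) <;> by_cases h2 : Q (l i) <;> simp [h1, h2]

theorem pj_congr (l : ι → Y) {P Q : Y → Prop} (h : ∀ a, P a ↔ Q a) :
    pj R G l P = pj R G l Q := by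
  have : P = Q := funext fun a => propext (h a)
  rw [this]

theorem pj_add_not (l : ι → Y) (P : Y → Prop) :
    pj R G l P + pj R G l (fun a => ¬ P a) = 1 := by
  classical
  unfold pj
  rw [Matrix.diagonal_add, ← Matrix.diagonal_one]
  congr 1
  funext i
  by_cases h1 : P (l i) <;> simp [h1]

theorem pj_false (l : ι → Y) {P : Y → Prop} (h : ∀ a, ¬ P a) : pj R G l P = 0 := by
  classical
  unfold pj
  rw [← Matrix.diagonal_zero]
  congr 1
  funext i
  rw [if_neg (h _)]

section Main

variable (l : ι → Y) (S : Y → Y → Prop) (hS : ∀ (g : G) x y, S (g • x) (g • y) ↔ S x y)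
  (hmid : ∀ (m n : ℕ) (a b c c' : Y), relN S m a c → relN S n c b → relN S m a c' →
    relN S n c' b → c = c')
  {M : Matrix ι ι (MonoidAlgebra R G)} (hM : Sp l l S M)

include hS hmid hM

/-- products of a part of a power and a part of the matrix -/
theorem rp_pow_mul {m : ℕ} (P Q : Y → Y → Prop) (hQ : ∀ (g : G) x y, Q (g • x) (g • y) ↔ Q x y) :
    rp l l P (M ^ m) * rp l l Q M =
      rp l l (fun x z => ∃ y, relN S m x y ∧ S y z ∧ P x y ∧ Q y z) (M ^ (m + 1)) := by
  rw [pow_succ]
  exact rp_mul_rp hS hQ (fun x y y' z h1 h2 h3 h4 =>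
    hmid m 1 x z y y' h1 (relN_one.2 h2) h3 (relN_one.2 h4)) (sp_pow hS hM m) hM

theorem pow_part (D : Y → Prop) (hD : ∀ (g : G) y, D (g • y) ↔ D y) (m : ℕ) :
    (pj R G l D * M * pj R G l D) ^ m =
      rp l l (relN (fun a b => S a b ∧ D a ∧ D b) m) (M ^ m) := by
  have hrel : ∀ (m : ℕ) (a b : Y), relN (fun a b => S a b ∧ D a ∧ D b) m a b → relN S m a b := by
    intro m
    induction m with
    | zero => exact fun a b h => h
    | succ m ih =>
      rintro a b ⟨c, h1, h2⟩
      exact ⟨c, ih a c h1, h2.1⟩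
  induction m with
  | zero =>
    rw [pow_zero, pow_zero]
    exact ((sp_one l).rp_eq_self fun _ _ h => h).symm
  | succ m ih =>
    rw [pow_succ, ih, pj_mul_mul_pj l hD, rp_pow_mul l S hS hmid hM _ _
      (fun g x y => by rw [hD, hD])]
    congr 1
    funext x z
    apply propext
    constructor
    · rintro ⟨y, _, h2, h3, h4⟩
      exact ⟨y, h3, h2, h4⟩
    · rintro ⟨y, h3, h2, h4⟩
      exact ⟨y, hrel m x y h3, h2, h3, h4⟩

/-- **Elimination of markers.** -/
theorem kk_markers {k : ℕ} (hk : M ^ k = 0) (hk2 : 2 ≤ k) (C : Y → Prop)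
    (hC : ∀ (g : G) y, C (g • y) ↔ C y)
    (hret : ∀ m, 1 ≤ m → m < k → ∀ a b, relN S m a b → C a → ¬ C b) :
    kk (-M) = kk (-(pj R G l (fun a => ¬ C a) * M * pj R G l (fun a => ¬ C a))) := by
  have hC' : ∀ (g : G) y, (¬ C (g • y)) ↔ ¬ C y := fun g y => by rw [hC]
  refine kk_elim (pj R G l C) _ M (pj_add_not l C) ?_ ?_ ?_ ?_ ?_ ?_ ?_
  · rw [pj_mul_pj]
    exact pj_congr l fun a => and_self_iff
  · rw [pj_mul_pj]
    exact pj_congr l fun a => and_self_iff
  · rw [pj_mul_pj]
    exact pj_false l fun a h => h.2 h.1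
  · rw [pj_mul_pj]
    exact pj_false l fun a h => h.1 h.2
  · rw [pj_mul_mul_pj l hC]
    refine hM.rp_eq_zero fun a b h h' => ?_
    exact hret 1 le_rfl (by omega) a b (relN_one.2 h) h'.1 h'.2
  · intro r
    rw [pow_part l S hS hmid hM _ hC', pj_mul_mul_pj l hC', pj_mul_mul_pj l hC]
    have e1 : rp l l (fun a b => C a ∧ ¬ C b) M *
        rp l l (relN (fun a b => S a b ∧ ¬ C a ∧ ¬ C b) r) (M ^ r) =
        rp l l (fun x z => ∃ y, S x y ∧ relN S r y z ∧ (C x ∧ ¬ C y) ∧
          relN (fun a b => S a b ∧ ¬ C a ∧ ¬ C b) r y z) (M ^ (r + 1)) := by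
      rw [pow_succ']
      refine rp_mul_rp (relN_smul hS r) (relN_smul (fun g x y => by rw [hS, hC, hC]) r)
        (fun x y y' z h1 h2 h3 h4 => hmid 1 r x z y y' (relN_one.2 h1) h2 (relN_one.2 h3) h4) hM
        (sp_pow hS hM r)
    rw [e1, rp_pow_mul l S hS hmid hM _ _ (fun g x y => by rw [hC, hC])]
    by_cases hr : k ≤ r + 1 + 1
    · rw [pow_eq_zero_of_le hr hk, rp_zero]
    · refine (sp_pow hS hM (r + 1 + 1)).rp_eq_zero fun a b h h' => ?_
      obtain ⟨y, -, -, ⟨z, -, -, h3, -⟩, h4⟩ := h'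
      exact hret (r + 1 + 1) (by omega) (by omega) a b h h3.1 h4.2
  · refine ⟨k, ?_⟩
    rw [pow_part l S hS hmid hM _ hC', hk, rp_zero]

omit hS hmid in
/-- one step of the triangular reduction -/
theorem kk_tri (D D' D0 : Y → Prop) (hD' : ∀ (g : G) y, D' (g • y) ↔ D' y)
    (hD0 : ∀ (g : G) y, D0 (g • y) ↔ D0 y) (h1 : ∀ a b, S a b → D a → D0 b → D' b)
    (h2 : ∀ a, D' a → D a) (h3 : ∀ a, D a → D0 a) :
    kk (-(pj R G l D * M)) = kk (-(pj R G l D' * M)) := by
  have e1 : pj R G l D * M = pj R G l D0 * (pj R G l D * M) := by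
    rw [← Matrix.mul_assoc, pj_mul_pj]
    congr 1
    exact pj_congr l fun a => ⟨fun h => ⟨h3 a h, h⟩, fun h => h.2⟩
  have e2 : pj R G l D * M * pj R G l D0 = pj R G l D * M * pj R G l D' := by
    rw [pj_mul_mul_pj l hD0, pj_mul_mul_pj l hD']
    exact rp_congr l l hM fun a b h => ⟨fun h' => ⟨h'.1, h1 a b h h'.1 h'.2⟩,
      fun h' => ⟨h'.1, h3 b (h2 b h'.2)⟩⟩
  rw [e1, kk_neg_comm, e2, kk_neg_comm, ← Matrix.mul_assoc, pj_mul_pj]
  congr 3
  exact pj_congr l fun a => ⟨fun h => h.1, fun h => ⟨h, h2 a h⟩⟩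

end Main

end Pool.Agent.Lib.MP_c052b4_al
end
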