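import Pool.Agent.Lib.MP_c052b4_al.Mg.G014
import Pool.Agent.Lib.MP_c052b4_al.Mg.G015
import Pool.Agent.Lib.MP_c052b4_al.TR.K2b
import Pool.Agent.Lib.MP_c052b4_al.Mg.G071
import Pool.Agent.Lib.MP_c052b4_al.Mg.G017

section

/-!
# TREES, section 6: torsion of homogeneous and of triangular isomorphisms
-/

set_option autoImplicit false
set_option linter.unusedSectionVars false

namespace Pool.Agent.Lib.MP_c052b4_al.MT

open Matrix

universe u v w w'

section Homog

variable {R : Type u} [Ring R] {G : Type v} [Group G] {V : Type w} [MulAction G V] {I J : Type}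
  [Fintype I] [DecidableEq I] [Fintype J] [DecidableEq J]

theorem cm_zero : cm G (0 : Matrix I J R) = 0 := by
  refine Matrix.ext fun i j => ?_
  exact map_zero (cG R G)

theorem hg_cm {l : I → V} {p : Matrix I I R} (hp : ∀ i j, p i j ≠ 0 → l i = l j) :
    Hg l l id (cm G p) := by
  classical
  intro i j g hg
  have hg1 : (MonoidAlgebra.single (1 : G) (p i j)).coeff g ≠ 0 := hg
  rw [MonoidAlgebra.coeff_single, Finsupp.single_apply] at hg1
  split_ifs at hg1 with h1
  · rw [← h1, one_smul]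
    exact (hp i j hg1).symm
  · exact absurd rfl hg1

/-- The torsion of a homogeneous isomorphism. -/
theorem tor_hg_mem (l : I → V) (l' : J → V) {p : Matrix I I R} {q : Matrix J J R}
    (hp : p * p = p) (hq : q * q = q) (hpl : ∀ i j, p i j ≠ 0 → l i = l j)
    (hql : ∀ i j, q i j ≠ 0 → l' i = l' j) {φ : Matrix I J (MonoidAlgebra R G)}
    {ψ : Matrix J I (MonoidAlgebra R G)} (h : IsIsoPair p q φ ψ) (hφ : Hg l l' id φ)
    (hψ : Hg l' l id ψ) (hV : ∀ v : V, imA1 R (MulAction.stabilizer G v) = ⊤) :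
    tor p φ ψ ∈ imA1 R G := by
  classical
  obtain ⟨ρ, γ, h1, h2⟩ := exists_reps G V
  have hpp : cm G p * cm G p = cm G p := by rw [← cm_mul, hp]
  have hqq : cm G q * cm G q = cm G q := by rw [← cm_mul, hq]
  set D : Matrix I I (MonoidAlgebra R G) :=
    ((dg R (γ ∘ l) : (Matrix I I (MonoidAlgebra R G))ˣ) : Matrix I I (MonoidAlgebra R G)) with hD
  set Di : Matrix I I (MonoidAlgebra R G) :=
    (((dg R (γ ∘ l))⁻¹ : (Matrix I I (MonoidAlgebra R G))ˣ) :
      Matrix I I (MonoidAlgebra R G)) with hDi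
  set E : Matrix J J (MonoidAlgebra R G) :=
    ((dg R (γ ∘ l') : (Matrix J J (MonoidAlgebra R G))ˣ) : Matrix J J (MonoidAlgebra R G)) with hE
  set Ei : Matrix J J (MonoidAlgebra R G) :=
    (((dg R (γ ∘ l'))⁻¹ : (Matrix J J (MonoidAlgebra R G))ˣ) :
      Matrix J J (MonoidAlgebra R G)) with hEi
  have hDDi : D * Di = 1 := Units.mul_inv _
  have hDiD : Di * D = 1 := Units.inv_mul _
  have hEEi : E * Ei = 1 := Units.mul_inv _
  have hEiE : Ei * E = 1 := Units.inv_mul _
  have hDp : D * cm G p = cm G p * D := dg_comm γ hpl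
  have hEq : E * cm G q = cm G q * E := dg_comm γ hql
  have hDip : Di * cm G p = cm G p * Di := by
    have e1 : Di * (D * cm G p) * Di = Di * (cm G p * D) * Di := by rw [hDp]
    rw [← Matrix.mul_assoc Di D, hDiD, Matrix.one_mul, Matrix.mul_assoc Di, Matrix.mul_assoc _ D,
      hDDi, Matrix.mul_one] at e1
    exact e1.symm
  have hEiq : Ei * cm G q = cm G q * Ei := by
    have e1 : Ei * (E * cm G q) * Ei = Ei * (cm G q * E) * Ei := by rw [hEq]
    rw [← Matrix.mul_assoc Ei E, hEiE, Matrix.one_mul, Matrix.mul_assoc Ei, Matrix.mul_assoc _ E,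
      hEEi, Matrix.mul_one] at e1
    exact e1.symm
  have i1 : IsIsoPair p p (D * cm G p) (Di * cm G p) := by
    refine ⟨?_, ?_, ?_, ?_, ?_, ?_⟩
    · rw [hDip, Matrix.mul_assoc, ← Matrix.mul_assoc (cm G p) (cm G p), hpp, ← hDip,
        ← Matrix.mul_assoc, hDDi, Matrix.one_mul]
    · rw [hDp, Matrix.mul_assoc, ← Matrix.mul_assoc (cm G p) (cm G p), hpp, ← hDp,
        ← Matrix.mul_assoc, hDiD, Matrix.one_mul]
    · rw [← Matrix.mul_assoc, ← hDp, Matrix.mul_assoc, hpp]
    · rw [Matrix.mul_assoc, hpp]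
    · rw [← Matrix.mul_assoc, ← hDip, Matrix.mul_assoc, hpp]
    · rw [Matrix.mul_assoc, hpp]
  have i3 : IsIsoPair q q (Ei * cm G q) (E * cm G q) := by
    refine ⟨?_, ?_, ?_, ?_, ?_, ?_⟩
    · rw [hEq, Matrix.mul_assoc, ← Matrix.mul_assoc (cm G q) (cm G q), hqq, ← hEq,
        ← Matrix.mul_assoc, hEiE, Matrix.one_mul]
    · rw [hEiq, Matrix.mul_assoc, ← Matrix.mul_assoc (cm G q) (cm G q), hqq, ← hEiq,
        ← Matrix.mul_assoc, hEEi, Matrix.one_mul]
    · rw [← Matrix.mul_assoc, ← hEiq, Matrix.mul_assoc, hqq]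
    · rw [Matrix.mul_assoc, hqq]
    · rw [← Matrix.mul_assoc, ← hEq, Matrix.mul_assoc, hqq]
    · rw [Matrix.mul_assoc, hqq]
  have i2 : IsIsoPair p q (Di * φ * E) (Ei * ψ * D) := by
    refine ⟨?_, ?_, ?_, ?_, ?_, ?_⟩
    · have e1 : Di * φ * E * (Ei * ψ * D) = Di * (φ * (E * Ei) * ψ) * D := by
        simp only [Matrix.mul_assoc]
      rw [e1, hEEi, Matrix.mul_one, h.h1, hDip, Matrix.mul_assoc, hDiD, Matrix.mul_one]
    · have e1 : Ei * ψ * D * (Di * φ * E) = Ei * (ψ * (D * Di) * φ) * E := by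
        simp only [Matrix.mul_assoc]
      rw [e1, hDDi, Matrix.mul_one, h.h2, hEiq, Matrix.mul_assoc, hEiE, Matrix.mul_one]
    · rw [← Matrix.mul_assoc, ← Matrix.mul_assoc, ← hDip, Matrix.mul_assoc Di, h.pφ]
    · rw [Matrix.mul_assoc, hEq, ← Matrix.mul_assoc, Matrix.mul_assoc Di, h.φq]
    · rw [← Matrix.mul_assoc, ← Matrix.mul_assoc, ← hEiq, Matrix.mul_assoc Ei, h.qψ]
    · rw [Matrix.mul_assoc, hDp, ← Matrix.mul_assoc, Matrix.mul_assoc Ei, h.ψp]
  have e1 : φ = D * cm G p * (Di * φ * E) * (Ei * cm G q) := by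
    have e2 : D * cm G p * (Di * φ * E) * (Ei * cm G q) =
        D * (cm G p * Di) * φ * (E * Ei) * cm G q := by simp only [Matrix.mul_assoc]
    rw [e2, hEEi, Matrix.mul_one, ← hDip, ← Matrix.mul_assoc D, hDDi, Matrix.one_mul, h.pφ, h.φq]
  have e2 : ψ = E * cm G q * ((Ei * ψ * D) * (Di * cm G p)) := by
    have e3 : E * cm G q * ((Ei * ψ * D) * (Di * cm G p)) =
        E * (cm G q * Ei) * ψ * (D * Di) * cm G p := by simp only [Matrix.mul_assoc]
    rw [e3, hDDi, Matrix.mul_one, ← hEiq, ← Matrix.mul_assoc E, hEEi, Matrix.one_mul, h.qψ, h.ψp]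
  have e3 : tor p φ ψ = tor p (D * cm G p) (Di * cm G p) + tor p (Di * φ * E) (Ei * ψ * D) +
      tor q (Ei * cm G q) (E * cm G q) := by
    rw [← tor_trans hp i1 i2, ← tor_trans hp (i1.trans i2) i3, ← e1, ← e2]
  have agD : ∀ {K : Type} [Fintype K] [DecidableEq K] (u : K → G),
      ag (R := R) (((dg R u : (Matrix K K (MonoidAlgebra R G))ˣ) :
        Matrix K K (MonoidAlgebra R G))) = 1 := by
    intro K _ _ u
    refine Matrix.ext fun i j => ?_
    change cG R G (augm R G (Matrix.diagonal (fun i => MonoidAlgebra.single (u i) (1 : R)) i j)) =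
      (1 : Matrix K K (MonoidAlgebra R G)) i j
    by_cases hij : i = j
    · subst hij
      rw [Matrix.diagonal_apply_eq, augm_single, Matrix.one_apply_eq, map_one]
    · rw [Matrix.diagonal_apply_ne _ hij, Matrix.one_apply_ne hij, map_zero, map_zero]
  have agDi : ∀ {K : Type} [Fintype K] [DecidableEq K] (u : K → G),
      ag (R := R) ((((dg R u)⁻¹ : (Matrix K K (MonoidAlgebra R G))ˣ) :
        Matrix K K (MonoidAlgebra R G))) = 1 := by
    intro K _ _ u
    exact agD (fun i => (u i)⁻¹)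
  have m1 : tor p (D * cm G p) (Di * cm G p) ∈ imA1 R G := by
    obtain ⟨U, hU, hUm⟩ := exists_te_dg (R := R) l γ hp hpl
    have e4 : tor p (D * cm G p) (Di * cm G p) = k1 U := by
      unfold tor
      rw [ag_mul, ag_cm, hDi, agDi, Matrix.one_mul, Matrix.mul_assoc, hpp]
      refine kk_eq U ?_
      rw [hU, Matrix.sub_mul, Matrix.one_mul]
      rfl
    rw [e4]
    exact hUm
  have m3 : tor q (Ei * cm G q) (E * cm G q) ∈ imA1 R G := by
    obtain ⟨U, hU, hUm⟩ := exists_te_dg (R := R) l' γ hq hql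
    have e4 : tor q (E * cm G q) (Ei * cm G q) = k1 U := by
      unfold tor
      rw [ag_mul, ag_cm, hEi, agDi, Matrix.one_mul, Matrix.mul_assoc, hqq]
      refine kk_eq U ?_
      rw [hU, Matrix.sub_mul, Matrix.one_mul]
      rfl
    rw [tor_symm hq i3.symm, e4]
    exact AddSubgroup.neg_mem _ hUm
  have m2 : tor p (Di * φ * E) (Ei * ψ * D) ∈ imA1 R G := by
    have g1 : Hg (ρ ∘ l) (ρ ∘ l') id (Di * φ * E) := hg_dg h1 hφ
    have g2 : Hg (ρ ∘ l') (ρ ∘ l) id (Ei * ψ * D) := hg_dg h1 hψ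
    have g3 : Hg (ρ ∘ l') (ρ ∘ l) id (ag (Ei * ψ * D)) := hg_augm h1 h2 g2
    have g4 : Hg (ρ ∘ l) (ρ ∘ l) id ((Di * φ * E) * ag (Ei * ψ * D)) :=
      g1.mul (fun _ _ => rfl) g3
    have g5 : Hg (ρ ∘ l) (ρ ∘ l) id (cm G p) := hg_cm fun i j h => congrArg ρ (hpl i j h)
    obtain ⟨U, hU⟩ := isUnit_auto hp (i2.trans i2.ag_h.symm)
    have e4 : tor p (Di * φ * E) (Ei * ψ * D) = k1 U := by
      unfold tor
      exact kk_eq U hU
    rw [e4]
    refine k1_hg_mem (ρ ∘ l) U ?_ hV
    rw [hU]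
    exact (hg_one _).add (g4.sub g5)
  rw [e3]
  exact AddSubgroup.add_mem _ (AddSubgroup.add_mem _ m1 m2) m3

end Homog

section Triang

variable {R : Type u} [Ring R] {G : Type v} [Group G] {W : Type w} [MulAction G W]
  {V : Type w'} [MulAction G V] {I J : Type}
  [Fintype I] [DecidableEq I] [Fintype J] [DecidableEq J]

theorem exists_coeff_of_ne {a : MonoidAlgebra R G} (h : a ≠ 0) : ∃ g, a.coeff g ≠ 0 := by
  by_contra h1
  push Not at h1
  apply h
  ext g
  exact h1 g

/-- The torsion of an isomorphism which is triangular for the labels. -/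
theorem tor_tri_mem (le : W → W → Prop) (s : W → ℤ) (π : W → V)
    (hs : ∀ (g : G) x, s (g • x) = s x) (hπ : ∀ (g : G) x, π (g • x) = g • π x)
    (hle : ∀ x y, le x y → s x ≤ s y) (heq : ∀ x y, le x y → s x = s y → π x = π y)
    (l : I → W) (l' : J → W) {p : Matrix I I R} {q : Matrix J J R}
    (hp : p * p = p) (hq : q * q = q) (hpl : ∀ i j, p i j ≠ 0 → l i = l j)
    (hql : ∀ i j, q i j ≠ 0 → l' i = l' j) {φ : Matrix I J (MonoidAlgebra R G)}
    {ψ : Matrix J I (MonoidAlgebra R G)} (h : IsIsoPair p q φ ψ) (hφ : Sp l l' le φ)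
    (hψ : Sp l' l le ψ) (hV : ∀ v : V, imA1 R (MulAction.stabilizer G v) = ⊤) :
    tor p φ ψ ∈ imA1 R G := by
  classical
  set σ : I → ℤ := fun i => s (l i) with hσ
  set τ : J → ℤ := fun j => s (l' j) with hτ
  have tφ : ∀ i j, φ i j ≠ 0 → σ i ≤ τ j := by
    intro i j hij
    obtain ⟨g, hg⟩ := exists_coeff_of_ne hij
    have := hle _ _ (hφ i j g hg)
    rw [hs] at this
    exact this
  have tψ : ∀ i j, ψ i j ≠ 0 → τ i ≤ σ j := by
    intro i j hij
    obtain ⟨g, hg⟩ := exists_coeff_of_ne hij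
    have := hle _ _ (hψ i j g hg)
    rw [hs] at this
    exact this
  have agne : ∀ {K K' : Type} (M : Matrix K K' (MonoidAlgebra R G)) i j, ag M i j ≠ 0 →
      M i j ≠ 0 := by
    intro K K' M i j h1 h2
    apply h1
    change cG R G (augm R G (M i j)) = 0
    rw [h2, map_zero, map_zero]
  have cmne : ∀ {K : Type} (M : Matrix K K R) i j, cm G M i j ≠ 0 → M i j ≠ 0 := by
    intro K M i j h1 h2
    apply h1
    change cG R G (M i j) = 0
    rw [h2, map_zero]
  have tagφ : ∀ i j, ag φ i j ≠ 0 → σ i ≤ τ j := fun i j h => tφ i j (agne _ _ _ h)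
  have tagψ : ∀ i j, ag ψ i j ≠ 0 → τ i ≤ σ j := fun i j h => tψ i j (agne _ _ _ h)
  have tp : ∀ i j, cm G p i j ≠ 0 → σ i ≤ σ j := by
    intro i j h
    rw [hσ]
    exact le_of_eq (congrArg s (hpl i j (cmne _ _ _ h)))
  have tq : ∀ i j, cm G q i j ≠ 0 → τ i ≤ τ j := by
    intro i j h
    rw [hτ]
    exact le_of_eq (congrArg s (hql i j (cmne _ _ _ h)))
  have dpp : dp σ σ (cm G p) = cm G p := by
    refine Matrix.ext fun i j => ?_
    rw [dp_apply]
    split_ifs with h1
    · rfl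
    · by_contra h2
      exact h1 (congrArg s (hpl i j (cmne _ _ _ (Ne.symm h2))))
  have dqq : dp τ τ (cm G q) = cm G q := by
    refine Matrix.ext fun i j => ?_
    rw [dp_apply]
    split_ifs with h1
    · rfl
    · by_contra h2
      exact h1 (congrArg s (hql i j (cmne _ _ _ (Ne.symm h2))))
  have dag : dp τ σ (ag ψ) = ag (dp τ σ ψ) := by
    refine Matrix.ext fun i j => ?_
    change (if τ i = σ j then cG R G (augm R G (ψ i j)) else 0) =
      cG R G (augm R G (if τ i = σ j then ψ i j else 0))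
    split_ifs
    · rfl
    · rw [map_zero, map_zero]
  have i0 : IsIsoPair p q (dp σ τ φ) (dp τ σ ψ) := by
    refine ⟨?_, ?_, ?_, ?_, ?_, ?_⟩
    · rw [← dp_mul σ τ σ tφ tψ, h.h1, dpp]
    · rw [← dp_mul τ σ τ tψ tφ, h.h2, dqq]
    · have := dp_mul σ σ τ tp tφ
      rw [h.pφ, dpp] at this
      exact this.symm
    · have := dp_mul σ τ τ tφ tq
      rw [h.φq, dqq] at this
      exact this.symm
    · have := dp_mul τ τ σ tq tψ
      rw [h.qψ, dqq] at this
      exact this.symm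
    · have := dp_mul τ σ σ tψ tp
      rw [h.ψp, dpp] at this
      exact this.symm
  have tmul : ∀ {A B : Matrix I I (MonoidAlgebra R G)}, (∀ i j, A i j ≠ 0 → σ i ≤ σ j) →
      (∀ i j, B i j ≠ 0 → σ i ≤ σ j) → ∀ i j, (A - B) i j ≠ 0 → σ i ≤ σ j := by
    intro A B hA hB i j hij
    by_cases h1 : A i j = 0
    · refine hB i j fun h2 => hij ?_
      rw [Matrix.sub_apply, h1, h2, sub_zero]
    · exact hA i j h1
  have tprod : ∀ {A : Matrix I J (MonoidAlgebra R G)} {B : Matrix J I (MonoidAlgebra R G)},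
      (∀ i j, A i j ≠ 0 → σ i ≤ τ j) → (∀ i j, B i j ≠ 0 → τ i ≤ σ j) →
      ∀ i j, (A * B) i j ≠ 0 → σ i ≤ σ j := by
    intro A B hA hB i j hij
    rw [Matrix.mul_apply] at hij
    obtain ⟨k, -, hk⟩ := Finset.exists_ne_zero_of_sum_ne_zero hij
    exact (hA i k fun h => hk (by rw [h, zero_mul])).trans
      (hB k j fun h => hk (by rw [h, mul_zero]))
  have hX := h.trans h.ag_h.symm
  have hpp : cm G p * cm G p = cm G p := by rw [← cm_mul, hp]
  have e1 : tor p φ ψ = tor p (dp σ τ φ) (dp τ σ ψ) := by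
    unfold tor
    rw [kk_tri σ (φ * ag ψ - cm G p) (ag φ * ψ - cm G p) (tmul (tprod tφ tagψ) tp)
      (tmul (tprod tagφ tψ) tp) ?_ ?_, dp_sub, dp_mul σ τ σ tφ tagψ, dpp, dag]
    · simp only [Matrix.add_mul, Matrix.mul_add, Matrix.one_mul, Matrix.mul_one, Matrix.sub_mul,
        Matrix.mul_sub, hX.h1, hX.φq, hX.qψ, hpp]
      abel
    · simp only [Matrix.add_mul, Matrix.mul_add, Matrix.one_mul, Matrix.mul_one, Matrix.sub_mul,
        Matrix.mul_sub, hX.h2, hX.pφ, hX.ψp, hpp]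
      abel
  rw [e1]
  refine tor_hg_mem (fun i => π (l i)) (fun j => π (l' j)) hp hq
    (fun i j h => congrArg π (hpl i j h)) (fun i j h => congrArg π (hql i j h)) i0 ?_ ?_ hV
  · intro i j g hg
    rw [dp_apply] at hg
    split_ifs at hg with h1
    · have h2 := hφ i j g hg
      change g • π (l' j) = π (l i)
      rw [← hπ]
      refine (heq _ _ h2 ?_).symm
      rw [hs]
      exact h1
    · exact absurd rfl hg
  · intro i j g hg
    rw [dp_apply] at hg
    split_ifs at hg with h1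
    · have h2 := hψ i j g hg
      change g • π (l j) = π (l' i)
      rw [← hπ]
      refine (heq _ _ h2 ?_).symm
      rw [hs]
      exact h1
    · exact absurd rfl hg

end Triang

end Pool.Agent.Lib.MP_c052b4_al.MT
end

section

/-!
# TREES, section 6: from retracts in homotopy categories to the image of the assembly map, II
-/

set_option autoImplicit false
set_option linter.unusedSectionVars false

namespace Pool.Agent.Lib.MP_c052b4_al.MT

open CategoryTheory CategoryTheory.Limits Matrix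

universe u

section Const

variable {R : Type u} [Ring R] {G : Type u} [Group G] {L : Lbl G} {J : Type} [Fintype J]
  [DecidableEq J] {E : CochainComplex (VCat R L) ℤ} {ε : E ⟶ E} (eE : J ≃ Σ n, ix E n)

/-- A constant chain map gives a constant matrix. -/
theorem const_mat (hε : ∀ n i j g, ((VCat.lin (ε.f n) ((E.X n).e i)) j).coeff g ≠ 0 →
        g = 1 ∧ (E.X n).l i = (E.X n).l j) :
    cm G ((mat eE eE (totF ε)).map (augm R G)) = mat eE eE (totF ε) ∧
    ∀ i j, ((mat eE eE (totF ε)).map (augm R G)) i j ≠ 0 →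
      (E.X (eE i).1).l (eE i).2 = (E.X (eE j).1).l (eE j).2 := by
  classical
  have key : ∀ i j g, ((mat eE eE (totF ε)) i j).coeff g ≠ 0 → g = 1 ∧
      (E.X (eE i).1).l (eE i).2 = (E.X (eE j).1).l (eE j).2 := by
    intro i j g hg
    rw [mat_apply] at hg
    have h1 : totF ε (Finsupp.single (eE i) (1 : MonoidAlgebra R G)) (eE j) ≠ 0 := by
      intro h
      rw [h] at hg
      exact hg rfl
    obtain ⟨i', h2, h3⟩ := TL_single (I := ix E) (I' := ix E) (fun n => n)
      (fun n => VCat.lin (ε.f n)) (eE i) (eE j) h1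
    have h4 : ((VCat.lin (ε.f (eE i).1) ((E.X (eE i).1).e (eE i).2)) i').coeff g ≠ 0 := by
      intro h
      apply hg
      have h5 := congrArg (fun a => a.coeff g) h3
      exact h5.trans h
    obtain ⟨h5, h6⟩ := hε _ _ _ _ h4
    refine ⟨h5, ?_⟩
    rw [h6, h2]
  refine ⟨?_, ?_⟩
  · refine Matrix.ext fun i j => ?_
    change cG R G (augm R G (mat eE eE (totF ε) i j)) = mat eE eE (totF ε) i j
    have h1 : mat eE eE (totF ε) i j =
        MonoidAlgebra.single (1 : G) ((mat eE eE (totF ε) i j).coeff 1) := by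
      ext g
      rw [MonoidAlgebra.coeff_single, Finsupp.single_apply]
      split_ifs with h
      · rw [h]
      · by_contra h2
        exact h (key i j g h2).1.symm
    rw [h1, augm_single]
    rfl
  · intro i j hij
    have h1 : mat eE eE (totF ε) i j ≠ 0 := by
      intro h
      apply hij
      rw [Matrix.map_apply, h, map_zero]
    obtain ⟨g, hg⟩ := exists_coeff_of_ne h1
    exact (key i j g hg).2

end Const

section Lemmas

variable {R : Type u} [Ring R] {G : Type u} [Group G] {L L' : Lbl G} {J J' : Type} [Fintype J]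
  [DecidableEq J] [Fintype J'] [DecidableEq J']

theorem mat_totD_mapL (θ : LblHom L L') (E : CochainComplex (VCat R L) ℤ)
    (eE : J ≃ Σ n, ix E n) :
    mat (T := Σ n, ix (((VCat.mapL θ).mapHomologicalComplex (ComplexShape.up ℤ)).obj E) n)
      (T' := Σ n, ix (((VCat.mapL θ).mapHomologicalComplex (ComplexShape.up ℤ)).obj E) n)
      eE eE (totD (((VCat.mapL θ).mapHomologicalComplex (ComplexShape.up ℤ)).obj E)) =
      mat eE eE (totD E) := rfl

theorem mat_totF_mapL (θ : LblHom L L') {E : CochainComplex (VCat R L) ℤ} (ε : E ⟶ E)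
    (eE : J ≃ Σ n, ix E n) :
    mat (T := Σ n, ix (((VCat.mapL θ).mapHomologicalComplex (ComplexShape.up ℤ)).obj E) n)
      (T' := Σ n, ix (((VCat.mapL θ).mapHomologicalComplex (ComplexShape.up ℤ)).obj E) n)
      eE eE (totF (((VCat.mapL θ).mapHomologicalComplex (ComplexShape.up ℤ)).map ε)) =
      mat eE eE (totF ε) := rfl

theorem mat_DD (E : CochainComplex (VCat R L) ℤ) (eE : J ≃ Σ n, ix E n) :
    mat eE eE (totD E) * mat eE eE (totD E) = 0 := by
  rw [← mat_comp, totD_totD, mat_zero]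

theorem mat_DF {E : CochainComplex (VCat R L) ℤ} (ε : E ⟶ E) (eE : J ≃ Σ n, ix E n) :
    mat eE eE (totD E) * mat eE eE (totF ε) = mat eE eE (totF ε) * mat eE eE (totD E) := by
  rw [← mat_comp, ← mat_comp, totF_totD]

theorem mat_FF {E : CochainComplex (VCat R L) ℤ} {ε : E ⟶ E} (h : ε ≫ ε = ε)
    (eE : J ≃ Σ n, ix E n) :
    mat eE eE (totF ε) * mat eE eE (totF ε) = mat eE eE (totF ε) := by
  rw [← mat_comp, ← totF_comp, h]

theorem hasDeg_totD (E : CochainComplex (VCat R L) ℤ) (eE : J ≃ Σ n, ix E n) :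
    HasDeg (fun j => (eE j).1) 1 (mat eE eE (totD E)) := fun i j h =>
  mat_TL_deg (I := ix E) (I' := ix E) eE eE _ _ i j h

theorem hasDeg_totF {E : CochainComplex (VCat R L) ℤ} (ε : E ⟶ E) (eE : J ≃ Σ n, ix E n) :
    HasDeg (fun j => (eE j).1) 0 (mat eE eE (totF ε)) := fun i j h => by
  rw [add_zero]
  exact mat_TL_deg (I := ix E) (I' := ix E) eE eE _ _ i j h

/-- A chain map which is zero in the homotopy category. -/
theorem exists_H3 {E : CochainComplex (VCat R L) ℤ} (ε : E ⟶ E) (hz : (QL R L).map ε = 0)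
    (eE : J ≃ Σ n, ix E n) : ∃ H : Matrix J J (MonoidAlgebra R G),
      mat eE eE (totF ε) = mat eE eE (totD E) * H + H * mat eE eE (totD E) ∧
      HasDeg (fun j => (eE j).1) (-1) H ∧
      Sp (fun j => (E.X (eE j).1).l (eE j).2) (fun j => (E.X (eE j).1).l (eE j).2) L.le H := by
  have h1 : (QL R L).map ε = (QL R L).map (0 : E ⟶ E) := by rw [hz, Functor.map_zero]
  let h := HomotopyCategory.homotopyOfEq _ _ h1
  refine ⟨mat eE eE (totH h), ?_, fun i j h => ?_, sp_totH h eE eE⟩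
  · have e1 := totF_homotopy h
    have e2 : totF (0 : E ⟶ E) = 0 := by
      refine tot_ext fun n v => ?_
      rw [totF_iot]
      have e3 : VCat.lin ((0 : E ⟶ E).f n) v = 0 := rfl
      rw [e3, map_zero, LinearMap.zero_apply]
    rw [e2, zero_add] at e1
    rw [e1, mat_add, mat_comp eE eE, mat_comp eE eE]
  · have := mat_TL_deg (I := ix E) (I' := ix E) eE eE _ _ i j h
    change (eE j).1 = (eE i).1 + -1
    omega

/-- A retraction in the homotopy category, in matrices. -/
theorem exists_fg {X E : CochainComplex (VCat R L) ℤ} (σ : X ⟶ E) (ρ : E ⟶ X) (ε : E ⟶ E)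
    (hε : ε ≫ ε = ε) (h1 : (QL R L).map σ ≫ (QL R L).map ρ = 𝟙 _)
    (h2 : (QL R L).map ρ ≫ (QL R L).map σ = (QL R L).map ε) (eX : J' ≃ Σ n, ix X n)
    (eE : J ≃ Σ n, ix E n) :
    ∃ (f : Matrix J' J (MonoidAlgebra R G)) (g : Matrix J J' (MonoidAlgebra R G))
      (H1 : Matrix J' J' (MonoidAlgebra R G)) (H2 : Matrix J J (MonoidAlgebra R G)),
      f * mat eE eE (totF ε) = f ∧ mat eE eE (totF ε) * g = g ∧
      mat eX eX (totD X) * f = f * mat eE eE (totD E) ∧
      mat eE eE (totD E) * g = g * mat eX eX (totD X) ∧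
      f * g = 1 + (mat eX eX (totD X) * H1 + H1 * mat eX eX (totD X)) ∧
      g * f = mat eE eE (totF ε) + (mat eE eE (totD E) * H2 + H2 * mat eE eE (totD E)) ∧
      RDeg (fun j => (eX j).1) (fun j => (eE j).1) 0 f ∧
      RDeg (fun j => (eE j).1) (fun j => (eX j).1) 0 g ∧
      HasDeg (fun j => (eX j).1) (-1) H1 ∧ HasDeg (fun j => (eE j).1) (-1) H2 ∧
      Sp (fun j => (X.X (eX j).1).l (eX j).2) (fun j => (E.X (eE j).1).l (eE j).2) L.le f ∧
      Sp (fun j => (E.X (eE j).1).l (eE j).2) (fun j => (X.X (eX j).1).l (eX j).2) L.le g ∧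
      Sp (fun j => (X.X (eX j).1).l (eX j).2) (fun j => (X.X (eX j).1).l (eX j).2) L.le H1 ∧
      Sp (fun j => (E.X (eE j).1).l (eE j).2) (fun j => (E.X (eE j).1).l (eE j).2) L.le H2 := by
  have hfg : (QL R L).map ((σ ≫ ε) ≫ (ε ≫ ρ)) = (QL R L).map (𝟙 X) := by
    have h3 : (σ ≫ ε) ≫ (ε ≫ ρ) = σ ≫ ε ≫ ρ := by
      rw [Category.assoc, ← Category.assoc ε ε, hε]
    rw [h3, Functor.map_comp, Functor.map_comp, CategoryTheory.Functor.map_id, ← h2, Category.assoc, h1,
      Category.comp_id, h1]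
  have hgf : (QL R L).map ((ε ≫ ρ) ≫ (σ ≫ ε)) = (QL R L).map ε := by
    rw [Functor.map_comp, Functor.map_comp, Functor.map_comp, Category.assoc,
      ← Category.assoc ((QL R L).map ρ), h2, ← Functor.map_comp, ← Functor.map_comp, hε, hε]
  let k1 := HomotopyCategory.homotopyOfEq _ _ hfg
  let k2 := HomotopyCategory.homotopyOfEq _ _ hgf
  refine ⟨mat eX eE (totF (σ ≫ ε)), mat eE eX (totF (ε ≫ ρ)), mat eX eX (totH k1),
    mat eE eE (totH k2), ?_, ?_, ?_, ?_, ?_, ?_, ?_, ?_, ?_, ?_, sp_totF _ _ _, sp_totF _ _ _,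
    sp_totH _ _ _, sp_totH _ _ _⟩
  · rw [← mat_comp, ← totF_comp, Category.assoc, hε]
  · rw [← mat_comp, ← totF_comp, ← Category.assoc, hε]
  · rw [← mat_comp, ← mat_comp, totF_totD]
  · rw [← mat_comp, ← mat_comp, totF_totD]
  · have e1 := congrArg (mat eX eX) (totF_homotopy k1)
    rw [mat_add, mat_add, mat_comp eX eX eX, mat_comp eX eX eX, totF_id, mat_id, totF_comp,
      mat_comp eX eE eX] at e1
    exact e1
  · have e1 := congrArg (mat eE eE) (totF_homotopy k2)
    rw [mat_add, mat_add, mat_comp eE eE eE, mat_comp eE eE eE, totF_comp,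
      mat_comp eE eX eE] at e1
    exact e1
  · intro i j h
    rw [add_zero]
    exact mat_TL_deg (I := ix X) (I' := ix E) eX eE _ _ i j h
  · intro i j h
    rw [add_zero]
    exact mat_TL_deg (I := ix E) (I' := ix X) eE eX _ _ i j h
  · intro i j h
    have := mat_TL_deg (I := ix X) (I' := ix X) eX eX _ _ i j h
    change (eX j).1 = (eX i).1 + -1
    omega
  · intro i j h
    have := mat_TL_deg (I := ix E) (I' := ix E) eE eE _ _ i j h
    change (eE j).1 = (eE i).1 + -1
    omega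

end Lemmas

end Pool.Agent.Lib.MP_c052b4_al.MT
end

section

/-!
# TREES, section 6: the torsion of a cone, and the main computation
-/

set_option autoImplicit false
set_option linter.unusedSectionVars false

namespace Pool.Agent.Lib.MP_c052b4_al.MT

open Matrix

universe u v w w' w''

section TorCone

variable {R : Type u} [Ring R] {G : Type v} [Group G] {I J : Type} [Fintype I] [DecidableEq I]
  [Fintype J] [DecidableEq J]

theorem cm_blocks (A : Matrix I I R) (B : Matrix I J R) (C : Matrix J I R) (D : Matrix J J R) :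
    cm G (fromBlocks A B C D) = fromBlocks (cm G A) (cm G B) (cm G C) (cm G D) :=
  Matrix.fromBlocks_map _ _ _ _ _

theorem ag_blocks (A : Matrix I I (MonoidAlgebra R G)) (B : Matrix I J (MonoidAlgebra R G))
    (C : Matrix J I (MonoidAlgebra R G)) (D : Matrix J J (MonoidAlgebra R G)) :
    ag (fromBlocks A B C D) = fromBlocks (ag A) (ag B) (ag C) (ag D) := by
  unfold ag
  rw [Matrix.fromBlocks_map, Matrix.fromBlocks_map]

theorem pj_blocks {T : Type u} [Ring T] (a : I → ℤ) (b : J → ℤ) (P : ℤ → Prop) :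
    pj T (cdeg a b) P = fromBlocks (pj T a fun q => P (q - 1)) 0 0 (pj T b P) := by
  classical
  refine Matrix.ext fun i j => ?_
  rcases i with i | i <;> rcases j with j | j
  · rw [Matrix.fromBlocks_apply₁₁]
    unfold pj
    by_cases h : i = j
    · subst h
      rw [Matrix.diagonal_apply_eq, Matrix.diagonal_apply_eq]
      rfl
    · rw [Matrix.diagonal_apply_ne _ fun h' => h (Sum.inl.inj h'), Matrix.diagonal_apply_ne _ h]
  · unfold pj
    rw [Matrix.diagonal_apply_ne _ (by simp)]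
    rfl
  · unfold pj
    rw [Matrix.diagonal_apply_ne _ (by simp)]
    rfl
  · rw [Matrix.fromBlocks_apply₂₂]
    unfold pj
    by_cases h : i = j
    · subst h
      rw [Matrix.diagonal_apply_eq, Matrix.diagonal_apply_eq]
      rfl
    · rw [Matrix.diagonal_apply_ne _ fun h' => h (Sum.inr.inj h'), Matrix.diagonal_apply_ne _ h]

theorem blocks_sub {T : Type u} [Ring T] (A A' : Matrix I I T) (B B' : Matrix I J T)
    (C C' : Matrix J I T) (D D' : Matrix J J T) :
    fromBlocks A B C D - fromBlocks A' B' C' D' =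
      fromBlocks (A - A') (B - B') (C - C') (D - D') := by
  rw [sub_eq_add_neg, Matrix.fromBlocks_neg, fromBlocks_add]
  simp only [sub_eq_add_neg]

variable {a : I → ℤ} {b : J → ℤ} {e : Matrix I I R} {d k : Matrix I I (MonoidAlgebra R G)}
  {e' : Matrix J J R} {d' k' : Matrix J J (MonoidAlgebra R G)}
  {f : Matrix I J (MonoidAlgebra R G)}

theorem arg_odd (h : IsCon a (cm G e) d k) :
    (pj (MonoidAlgebra R G) a (fun q => Odd q) * (d + k)) * ag (pj (MonoidAlgebra R G) a (fun q => ¬ Odd q) * (d + k)) -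
      cm G (pj R a (fun q => Odd q) * e) =
    pj (MonoidAlgebra R G) a (fun q => Odd q) * ((d + k) * ag (d + k) - cm G e) := by
  rw [ag_mul, ag_pj, cm_mul, cm_pj, Matrix.mul_assoc, ← Matrix.mul_assoc (d + k), ← h.odd_mul,
    Matrix.mul_assoc (pj _ _ _), ← Matrix.mul_assoc (pj _ _ _) (pj _ _ _), pj_idem, Matrix.mul_sub]

theorem arg_even (h : IsCon a (cm G e) d k) :
    (pj (MonoidAlgebra R G) a (fun q => ¬ Odd q) * (d + k)) * ag (pj (MonoidAlgebra R G) a (fun q => Odd q) * (d + k)) -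
      cm G (pj R a (fun q => ¬ Odd q) * e) =
    pj (MonoidAlgebra R G) a (fun q => ¬ Odd q) * ((d + k) * ag (d + k) - cm G e) := by
  rw [ag_mul, ag_pj, cm_mul, cm_pj, Matrix.mul_assoc, ← Matrix.mul_assoc (d + k), ← h.even_mul,
    Matrix.mul_assoc (pj _ _ _), ← Matrix.mul_assoc (pj _ _ _) (pj _ _ _), pj_idem, Matrix.mul_sub]

theorem unit_odd (h : IsCon a (cm G e) d k) (hk : k * k = 0) :
    IsUnit (1 + pj (MonoidAlgebra R G) a (fun q => Odd q) * ((d + k) * ag (d + k) - cm G e)) := by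
  rw [← arg_odd h]
  have h1 := h.isoPair hk
  exact isUnit_auto (pj_mul_idem h.e_idem h.deg_e.of_cm _) (h1.trans h1.ag_h.symm)

theorem unit_even (h : IsCon a (cm G e) d k) (hk : k * k = 0) :
    IsUnit (1 + pj (MonoidAlgebra R G) a (fun q => ¬ Odd q) * ((d + k) * ag (d + k) - cm G e)) := by
  rw [← arg_even h]
  have h1 := (h.isoPair hk).symm
  exact isUnit_auto (pj_mul_idem h.e_idem h.deg_e.of_cm _) (h1.trans h1.ag_h.symm)

/-- The torsion of the cone of a map between contractible complexes. -/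
theorem torC_cone (h : IsCon a (cm G e) d k) (h' : IsCon b (cm G e') d' k') (hk : k * k = 0)
    (hk' : k' * k' = 0) (hf : RDeg a b 0 f) (hdf : d * f = f * d') (hef : cm G e * f = f)
    (hfe : f * cm G e' = f) :
    torC (cdeg a b) (fromBlocks e 0 0 e') (fromBlocks (-d) f 0 d')
      (fromBlocks (-k) (k * f * k') 0 k') = - torC a e d k + torC b e' d' k' := by
  have h1 := isCon_cone h h' hk hk' hf hdf hef hfe
  have hE : fromBlocks (cm G e) 0 0 (cm G e') = cm G (fromBlocks e 0 0 e') := by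
    rw [cm_blocks, cm_zero, cm_zero]
  rw [hE] at h1
  rw [torC_eq h1.1, torC_eq' h hk, torC_eq h', ← hE, ← kk_fromBlocks _
    (pj (MonoidAlgebra R G) a (fun q => ¬ Odd q) * ((-(d + k)) * ag (f + k * f * k') +
      (f + k * f * k') * ag (d' + k'))) _ (unit_even h hk) (unit_odd h' hk')]
  congr 1
  rw [fromBlocks_add, ag_blocks, fromBlocks_multiply, pj_blocks, blocks_sub,
    fromBlocks_multiply]
  have e1 : (pj (MonoidAlgebra R G) a fun q => Odd (q - 1)) = pj (MonoidAlgebra R G) a fun q => ¬ Odd q :=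
    pj_congr a fun i => by rw [Int.odd_iff, Int.odd_iff]; omega
  rw [e1]
  have e2 : -d + -k = -(d + k) := by abel
  have e3 : (0 : Matrix J I (MonoidAlgebra R G)) + 0 = 0 := add_zero _
  rw [e2, e3, ag_neg, ag_zero]
  simp only [Matrix.zero_mul, Matrix.mul_zero, add_zero, zero_add, sub_zero, Matrix.neg_mul,
    Matrix.mul_neg, neg_neg, neg_zero]

/-- The torsion of a triangular contraction. -/
theorem torC_tri_mem {W : Type w} [MulAction G W] {V : Type w'} [MulAction G V]
    (le : W → W → Prop) (s : W → ℤ) (π : W → V)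
    (hs : ∀ (g : G) x, s (g • x) = s x) (hπ : ∀ (g : G) x, π (g • x) = g • π x)
    (hle : ∀ x y, le x y → s x ≤ s y) (heq : ∀ x y, le x y → s x = s y → π x = π y)
    (l : I → W) (he : ∀ i j, e i j ≠ 0 → l i = l j) (h : IsCon a (cm G e) d k) (hk : k * k = 0)
    (hd : Sp l l le d) (hkl : Sp l l le k)
    (hV : ∀ v : V, imA1 R (MulAction.stabilizer G v) = ⊤) : torC a e d k ∈ imA1 R G := by
  classical
  have hspP : ∀ (P : ℤ → Prop) {M : Matrix I I (MonoidAlgebra R G)}, Sp l l le M →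
      Sp l l le (pj (MonoidAlgebra R G) a P * M) := by
    intro P M hM i j g hg
    rw [pj_mul_apply] at hg
    split_ifs at hg with h1
    · exact hM i j g hg
    · exact absurd rfl hg
  have hadd : Sp l l le (d + k) := by
    intro i j g hg
    rw [Matrix.add_apply, MonoidAlgebra.coeff_add, Finsupp.add_apply] at hg
    by_cases h1 : (d i j).coeff g = 0
    · rw [h1, zero_add] at hg
      exact hkl i j g hg
    · exact hd i j g h1
  have hpe : ∀ (P : ℤ → Prop) i j, (pj R a P * e) i j ≠ 0 → l i = l j := by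
    intro P i j hij
    rw [pj_mul_apply] at hij
    split_ifs at hij with h1
    · exact he i j hij
    · exact absurd rfl hij
  exact tor_tri_mem le s π hs hπ hle heq l l (pj_mul_idem h.e_idem h.deg_e.of_cm _)
    (pj_mul_idem h.e_idem h.deg_e.of_cm _) (hpe _) (hpe _) (h.isoPair hk) (hspP _ hadd)
    (hspP _ hadd) hV

end TorCone

section SpMore

variable {R : Type u} [Ring R] {G : Type v} [Group G] {W : Type w} [MulAction G W]
  {I J K : Type} [Fintype I] [DecidableEq I] [Fintype J] [DecidableEq J] [Fintype K]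
  [DecidableEq K] {le : W → W → Prop}

theorem sp_mul (trans : ∀ x y z : W, le x y → le y z → le x z)
    (smul : ∀ (g : G) (x y : W), le x y → le (g • x) (g • y)) {l : I → W} {l' : J → W} {l'' : K → W}
    {M : Matrix I J (MonoidAlgebra R G)} {N : Matrix J K (MonoidAlgebra R G)}
    (h : Sp l l' le M) (h' : Sp l' l'' le N) : Sp l l'' le (M * N) := by
  have h1 := Sp.mul (Q := le) (fun (g : G) x y => ⟨fun h => by
    have := smul g⁻¹ _ _ h
    rwa [inv_smul_smul, inv_smul_smul] at this, fun h => smul g _ _ h⟩) h h'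
  exact h1.mono fun x z ⟨y, hxy, hyz⟩ => trans _ _ _ hxy hyz

theorem sp_add {l : I → W} {l' : J → W} {M N : Matrix I J (MonoidAlgebra R G)}
    (h : Sp l l' le M) (h' : Sp l l' le N) : Sp l l' le (M + N) := by
  intro i j g hg
  rw [Matrix.add_apply, MonoidAlgebra.coeff_add, Finsupp.add_apply] at hg
  by_cases h1 : (M i j).coeff g = 0
  · rw [h1, zero_add] at hg
    exact h' i j g hg
  · exact h i j g h1

theorem sp_neg {l : I → W} {l' : J → W} {M : Matrix I J (MonoidAlgebra R G)}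
    (h : Sp l l' le M) : Sp l l' le (-M) := by
  intro i j g hg
  rw [Matrix.neg_apply, MonoidAlgebra.coeff_neg, Finsupp.neg_apply, neg_ne_zero] at hg
  exact h i j g hg

theorem sp_sub {l : I → W} {l' : J → W} {M N : Matrix I J (MonoidAlgebra R G)}
    (h : Sp l l' le M) (h' : Sp l l' le N) : Sp l l' le (M - N) := by
  rw [sub_eq_add_neg]
  exact sp_add h (sp_neg h')

theorem sp_zero {l : I → W} {l' : J → W} : Sp l l' le (0 : Matrix I J (MonoidAlgebra R G)) := by
  intro i j g hg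
  exact absurd rfl hg

theorem sp_blocks {l : I → W} {l' : J → W} {A : Matrix I I (MonoidAlgebra R G)}
    {B : Matrix I J (MonoidAlgebra R G)} {C : Matrix J I (MonoidAlgebra R G)}
    {D : Matrix J J (MonoidAlgebra R G)} (hA : Sp l l le A) (hB : Sp l l' le B) (hC : Sp l' l le C)
    (hD : Sp l' l' le D) :
    Sp (Sum.elim l l') (Sum.elim l l') le (fromBlocks A B C D) := by
  rintro (i | i) (j | j) g hg
  · exact hA i j g hg
  · exact hB i j g hg
  · exact hC i j g hg
  · exact hD i j g hg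

theorem sp_ck (trans : ∀ x y z : W, le x y → le y z → le x z)
    (smul : ∀ (g : G) (x y : W), le x y → le (g • x) (g • y)) {l : I → W} {l' : J → W}
    {f : Matrix I J (MonoidAlgebra R G)} {g : Matrix J I (MonoidAlgebra R G)}
    {h : Matrix I I (MonoidAlgebra R G)} {h' : Matrix J J (MonoidAlgebra R G)}
    (hf : Sp l l' le f) (hg : Sp l' l le g) (hh : Sp l l le h) (hh' : Sp l' l' le h') :
    Sp (Sum.elim l l') (Sum.elim l l') le (ck f g h h') := by
  unfold ck
  rw [Matrix.mul_sub, Matrix.mul_one]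
  have h1 : Sp (Sum.elim l l') (Sum.elim l l') le (fromBlocks h 0 g (-h')) :=
    sp_blocks hh sp_zero hg (sp_neg hh')
  exact sp_sub h1 (sp_mul trans smul h1 (sp_blocks sp_zero
    (sp_sub (sp_mul trans smul hh hf) (sp_mul trans smul hf hh')) sp_zero sp_zero))

end SpMore

section Sec6

variable {R : Type u} [Ring R] {G : Type v} [Group G] {W : Type w} [MulAction G W]
  {V1 : Type w'} [MulAction G V1] {V2 : Type w''} [MulAction G V2] {I J : Type}
  [Fintype I] [DecidableEq I] [Fintype J] [DecidableEq J]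

/-- Two contractible complexes `X`, `Y`, a homotopy equivalence over the first labels. -/
theorem sec6_main (le1 le2 : W → W → Prop)
    (trans1 : ∀ x y z : W, le1 x y → le1 y z → le1 x z)
    (smul1 : ∀ (g : G) (x y : W), le1 x y → le1 (g • x) (g • y))
    (s1 s2 : W → ℤ) (π1 : W → V1) (π2 : W → V2)
    (hs1 : ∀ (g : G) x, s1 (g • x) = s1 x) (hs2 : ∀ (g : G) x, s2 (g • x) = s2 x)
    (hπ1 : ∀ (g : G) x, π1 (g • x) = g • π1 x) (hπ2 : ∀ (g : G) x, π2 (g • x) = g • π2 x)
    (hle1 : ∀ x y, le1 x y → s1 x ≤ s1 y) (heq1 : ∀ x y, le1 x y → s1 x = s1 y → π1 x = π1 y)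
    (hle2 : ∀ x y, le2 x y → s2 x ≤ s2 y) (heq2 : ∀ x y, le2 x y → s2 x = s2 y → π2 x = π2 y)
    (hV1 : ∀ v : V1, imA1 R (MulAction.stabilizer G v) = ⊤)
    (hV2 : ∀ v : V2, imA1 R (MulAction.stabilizer G v) = ⊤)
    (l : I → W) (l' : J → W) {a : I → ℤ} {b : J → ℤ} {e : Matrix I I R} {e' : Matrix J J R}
    {d kX : Matrix I I (MonoidAlgebra R G)} {d' kY : Matrix J J (MonoidAlgebra R G)}
    (hel : ∀ i j, e i j ≠ 0 → l i = l j) (hel' : ∀ i j, e' i j ≠ 0 → l' i = l' j)
    (hX : IsCon a (cm G e) d kX) (hkX : kX * kX = 0)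
    (hY : IsCon b (cm G e') d' kY) (hkY : kY * kY = 0)
    (hd1 : Sp l l le1 d) (hd1' : Sp l' l' le1 d') (hd2' : Sp l' l' le2 d')
    (hkY2 : Sp l' l' le2 kY)
    {f : Matrix I J (MonoidAlgebra R G)} {g : Matrix J I (MonoidAlgebra R G)}
    {h : Matrix I I (MonoidAlgebra R G)} {h' : Matrix J J (MonoidAlgebra R G)}
    (hf : RDeg a b 0 f) (hg : RDeg b a 0 g) (hh : HasDeg a (-1) h)
    (hh' : HasDeg b (-1) h')
    (ef : cm G e * f = f) (fe : f * cm G e' = f) (eg : cm G e' * g = g) (ge : g * cm G e = g)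
    (eh : cm G e * h = h) (he : h * cm G e = h) (eh' : cm G e' * h' = h')
    (he' : h' * cm G e' = h') (df : d * f = f * d') (dg : d' * g = g * d)
    (fg : f * g = cm G e + (d * h + h * d)) (gf : g * f = cm G e' + (d' * h' + h' * d'))
    (sf : Sp l l' le1 f) (sg : Sp l' l le1 g) (sh : Sp l l le1 h) (sh' : Sp l' l' le1 h') :
    torC a e d kX ∈ imA1 R G := by
  have hE : fromBlocks (cm G e) 0 0 (cm G e') = cm G (fromBlocks e 0 0 e') := by
    rw [cm_blocks, cm_zero, cm_zero]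
  have c1 := isCon_cone hX hY hkX hkY hf df ef fe
  have c2 := (isCon_ck hX.deg_e hX.deg_d hY.deg_e hY.deg_d hf hg hh hh' hX.ee hX.ed hX.de hX.dd
    hY.ee hY.ed hY.de hY.dd ef fe eg ge eh he eh' he' df dg fg gf)
  rw [hE] at c1 c2
  have t1 := torC_cone hX hY hkX hkY hf df ef fe
  have t2 := torC_indep c2.sq.1 c1.1 c2.sq.2 c1.2
  have hel2 : ∀ i j, (fromBlocks e 0 0 e') i j ≠ 0 → Sum.elim l l' i = Sum.elim l l' j := by
    rintro (i | i) (j | j) hij
    · exact hel i j hij
    · exact absurd rfl hij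
    · exact absurd rfl hij
    · exact hel' i j hij
  have sD : Sp (Sum.elim l l') (Sum.elim l l') le1 (fromBlocks (-d) f 0 d') :=
    sp_blocks (sp_neg hd1) sf sp_zero hd1'
  have sK := sp_ck trans1 smul1 sf sg sh sh'
  have t3 := torC_tri_mem le1 s1 π1 hs1 hπ1 hle1 heq1 (Sum.elim l l') hel2 c2.sq.1 c2.sq.2
    sD (sp_mul trans1 smul1 (sp_mul trans1 smul1 sK sD) sK) hV1
  have t4 := torC_tri_mem le2 s2 π2 hs2 hπ2 hle2 heq2 l' hel' hY hkY hd2' hkY2 hV2
  rw [t2, t1] at t3
  have t5 := AddSubgroup.sub_mem _ t3 t4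
  rw [add_sub_cancel_right] at t5
  exact neg_mem_iff.1 t5

/-- The complex given by an invertible matrix. -/
theorem isCon_two {m : Type} [Fintype m] [DecidableEq m] (u : (Matrix m m (MonoidAlgebra R G))ˣ) :
    IsCon (Sum.elim (fun _ => -1) (fun _ => 0) : m ⊕ m → ℤ) (cm G (1 : Matrix (m ⊕ m) (m ⊕ m) R))
      (fromBlocks 0 (u : Matrix m m (MonoidAlgebra R G)) 0 0)
      (fromBlocks 0 0 ((u⁻¹ : (Matrix m m (MonoidAlgebra R G))ˣ) : Matrix m m (MonoidAlgebra R G)) 0)
      := by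
  have h1 : cm G (1 : Matrix (m ⊕ m) (m ⊕ m) R) = 1 := by
    unfold cm
    exact Matrix.map_one _ (map_zero _) (map_one _)
  rw [h1]
  refine ⟨?_, ?_, ?_, ?_, ?_, ?_, ?_, ?_, ?_, ?_⟩
  · intro i j hij
    by_cases h : i = j
    · rw [h, add_zero]
    · exact absurd (Matrix.one_apply_ne h) hij
  · rintro (i | i) (j | j) hij
    · exact absurd rfl hij
    · rfl
    · exact absurd rfl hij
    · exact absurd rfl hij
  · rintro (i | i) (j | j) hij
    · exact absurd rfl hij
    · exact absurd rfl hij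
    · rfl
    · exact absurd rfl hij
  · rw [Matrix.one_mul]
  · rw [Matrix.one_mul]
  · rw [Matrix.mul_one]
  · rw [Matrix.one_mul]
  · rw [Matrix.mul_one]
  · rw [fromBlocks_multiply]
    simp
  · rw [fromBlocks_multiply, fromBlocks_multiply, fromBlocks_add]
    simp

theorem torC_two {m : Type} [Fintype m] [DecidableEq m] (u : (Matrix m m (MonoidAlgebra R G))ˣ) :
    torC (Sum.elim (fun _ => -1) (fun _ => 0) : m ⊕ m → ℤ) (1 : Matrix (m ⊕ m) (m ⊕ m) R)
      (fromBlocks 0 (u : Matrix m m (MonoidAlgebra R G)) 0 0)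
      (fromBlocks 0 0 ((u⁻¹ : (Matrix m m (MonoidAlgebra R G))ˣ) : Matrix m m (MonoidAlgebra R G)) 0)
      = k1 u - KOne.map (cG R G) (KOne.map (augm R G) (k1 u)) := by
  have h1 : cm G (1 : Matrix (m ⊕ m) (m ⊕ m) R) = 1 := by
    unfold cm
    exact Matrix.map_one _ (map_zero _) (map_one _)
  rw [torC_eq (isCon_two u), h1]
  have e1 : pj (MonoidAlgebra R G) (Sum.elim (fun _ => -1) (fun _ => 0) : m ⊕ m → ℤ)
      (fun q => Odd q) = fromBlocks 1 0 0 0 := by
    classical
    refine Matrix.ext fun i j => ?_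
    unfold pj
    rcases i with i | i <;> rcases j with j | j
    · by_cases h : i = j
      · subst h
        rw [Matrix.diagonal_apply_eq]
        change _ = (1 : Matrix m m _) i i
        rw [Matrix.one_apply_eq, if_pos]
        change Odd (-1 : ℤ)
        decide
      · rw [Matrix.diagonal_apply_ne _ fun h' => h (Sum.inl.inj h')]
        change _ = (1 : Matrix m m _) i j
        rw [Matrix.one_apply_ne h]
    · rw [Matrix.diagonal_apply_ne _ (by simp)]
      rfl
    · rw [Matrix.diagonal_apply_ne _ (by simp)]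
      rfl
    · by_cases h : i = j
      · subst h
        rw [Matrix.diagonal_apply_eq, if_neg]
        · rfl
        · change ¬ Odd (0 : ℤ)
          decide
      · rw [Matrix.diagonal_apply_ne _ fun h' => h (Sum.inr.inj h')]
        rfl
  set U := (u : Matrix m m (MonoidAlgebra R G)) with hU
  set U' := ((u⁻¹ : (Matrix m m (MonoidAlgebra R G))ˣ) : Matrix m m (MonoidAlgebra R G)) with hU'
  have hUU : U * U' = 1 := Units.mul_inv _
  have hUU' : U' * U = 1 := Units.inv_mul _
  have h3 : ag (1 : Matrix m m (MonoidAlgebra R G)) = 1 := by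
    unfold ag
    rw [Matrix.map_one _ (map_zero _) (map_one _), Matrix.map_one _ (map_zero _) (map_one _)]
  let A : (Matrix m m (MonoidAlgebra R G))ˣ := mU (cG R G) (mU (augm R G) u)
  have hA : ((A⁻¹ : (Matrix m m (MonoidAlgebra R G))ˣ) : Matrix m m (MonoidAlgebra R G)) = ag U' :=
    rfl
  have e2 : (fromBlocks 1 0 0 0 : Matrix (m ⊕ m) (m ⊕ m) (MonoidAlgebra R G)) *
      ((fromBlocks 0 U 0 0 + fromBlocks 0 0 U' 0) *
        ag (fromBlocks 0 U 0 0 + fromBlocks 0 0 U' 0) - 1) =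
      fromBlocks (U * ag U' - 1) 0 0 0 := by
    rw [fromBlocks_add, ag_blocks, fromBlocks_multiply, ← fromBlocks_one, blocks_sub,
      fromBlocks_multiply]
    simp [ag_zero]
  rw [e1, e2]
  have e3 : IsUnit (1 + (U * ag U' - 1)) := by
    rw [add_sub_cancel]
    exact ⟨u * A⁻¹, by rw [Units.val_mul, hA]⟩
  rw [kk_fromBlocks _ _ _ e3 (by rw [add_zero]; exact isUnit_one), kk_zero, add_zero,
    kk_eq (u * A⁻¹) (by rw [Units.val_mul, hA, add_sub_cancel]), k1_mul, k1_inv, KOne.map_k1,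
    KOne.map_k1]
  abel

/-- The main result of section 6, in matrices. -/
theorem sec6 (le1 le2 : W → W → Prop)
    (trans1 : ∀ x y z : W, le1 x y → le1 y z → le1 x z)
    (trans2 : ∀ x y z : W, le2 x y → le2 y z → le2 x z)
    (smul1 : ∀ (g : G) (x y : W), le1 x y → le1 (g • x) (g • y))
    (smul2 : ∀ (g : G) (x y : W), le2 x y → le2 (g • x) (g • y))
    (s1 s2 : W → ℤ) (π1 : W → V1) (π2 : W → V2)
    (hs1 : ∀ (g : G) x, s1 (g • x) = s1 x) (hs2 : ∀ (g : G) x, s2 (g • x) = s2 x)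
    (hπ1 : ∀ (g : G) x, π1 (g • x) = g • π1 x) (hπ2 : ∀ (g : G) x, π2 (g • x) = g • π2 x)
    (hle1 : ∀ x y, le1 x y → s1 x ≤ s1 y) (heq1 : ∀ x y, le1 x y → s1 x = s1 y → π1 x = π1 y)
    (hle2 : ∀ x y, le2 x y → s2 x ≤ s2 y) (heq2 : ∀ x y, le2 x y → s2 x = s2 y → π2 x = π2 y)
    (hV1 : ∀ v : V1, imA1 R (MulAction.stabilizer G v) = ⊤)
    (hV2 : ∀ v : V2, imA1 R (MulAction.stabilizer G v) = ⊤)
    {m : Type} [Fintype m] [DecidableEq m] (u : (Matrix m m (MonoidAlgebra R G))ˣ)
    (l : m ⊕ m → W) (l' : J → W) {b : J → ℤ} {e' : Matrix J J R}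
    {d' kY : Matrix J J (MonoidAlgebra R G)}
    (hel' : ∀ i j, e' i j ≠ 0 → l' i = l' j)
    (hY : IsCon b (cm G e') d' kY)
    (hd1 : Sp l l le1 (fromBlocks 0 (u : Matrix m m (MonoidAlgebra R G)) 0 0))
    (hd1' : Sp l' l' le1 d') (hd2' : Sp l' l' le2 d') (hkY2 : Sp l' l' le2 kY)
    {f : Matrix (m ⊕ m) J (MonoidAlgebra R G)} {g : Matrix J (m ⊕ m) (MonoidAlgebra R G)}
    {h : Matrix (m ⊕ m) (m ⊕ m) (MonoidAlgebra R G)} {h' : Matrix J J (MonoidAlgebra R G)}
    (hf : RDeg (Sum.elim (fun _ => -1) (fun _ => 0)) b 0 f)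
    (hg : RDeg b (Sum.elim (fun _ => -1) (fun _ => 0)) 0 g)
    (hh : HasDeg (Sum.elim (fun _ => -1) (fun _ => 0)) (-1) h)
    (hh' : HasDeg b (-1) h')
    (fe : f * cm G e' = f) (eg : cm G e' * g = g) (eh' : cm G e' * h' = h')
    (he' : h' * cm G e' = h')
    (df : fromBlocks 0 (u : Matrix m m (MonoidAlgebra R G)) 0 0 * f = f * d')
    (dg : d' * g = g * fromBlocks 0 (u : Matrix m m (MonoidAlgebra R G)) 0 0)
    (fg : f * g = 1 + (fromBlocks 0 (u : Matrix m m (MonoidAlgebra R G)) 0 0 * h +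
      h * fromBlocks 0 (u : Matrix m m (MonoidAlgebra R G)) 0 0))
    (gf : g * f = cm G e' + (d' * h' + h' * d'))
    (sf : Sp l l' le1 f) (sg : Sp l' l le1 g) (sh : Sp l l le1 h) (sh' : Sp l' l' le1 h') :
    k1 u ∈ imA1 R G := by
  have h1 : cm G (1 : Matrix (m ⊕ m) (m ⊕ m) R) = 1 := by
    unfold cm
    exact Matrix.map_one _ (map_zero _) (map_one _)
  have hkX : (fromBlocks 0 0 ((u⁻¹ : (Matrix m m (MonoidAlgebra R G))ˣ) :
      Matrix m m (MonoidAlgebra R G)) 0 : Matrix (m ⊕ m) (m ⊕ m) (MonoidAlgebra R G)) *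
      fromBlocks 0 0 ((u⁻¹ : (Matrix m m (MonoidAlgebra R G))ˣ) :
      Matrix m m (MonoidAlgebra R G)) 0 = 0 := by
    rw [fromBlocks_multiply]
    simp
  have key := sec6_main le1 le2 trans1 smul1 s1 s2 π1 π2 hs1 hs2 hπ1 hπ2
    hle1 heq1 hle2 heq2 hV1 hV2 l l' (e := (1 : Matrix (m ⊕ m) (m ⊕ m) R)) (e' := e')
    (fun i j hij => by
      by_cases h : i = j
      · rw [h]
      · exact absurd (Matrix.one_apply_ne h) hij) hel' (isCon_two u) hkX hY.sq.1 hY.sq.2 hd1 hd1'
    hd2' (sp_mul trans2 smul2 (sp_mul trans2 smul2 hkY2 hd2') hkY2) hf hg hh hh'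
    (by rw [h1, Matrix.one_mul]) fe eg (by rw [h1, Matrix.mul_one]) (by rw [h1, Matrix.one_mul])
    (by rw [h1, Matrix.mul_one]) eh' he' df dg (by rw [h1]; exact fg) gf sf sg sh sh'
  rw [torC_two] at key
  have h2 := AddSubgroup.add_mem _ key (map_mem_imA1 (G := G) (KOne.map (augm R G) (k1 u)))
  rw [sub_add_cancel] at h2
  exact h2

end Sec6

end Pool.Agent.Lib.MP_c052b4_al.MT
end
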