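import Pool.Agent.Lib.MP_c052b4_al.Mg.G012
import Pool.Agent.Lib.MP_c052b4_al.Mg.G040
import Pool.Agent.Lib.MP_c052b4_al.Mg.G013

section

/-!
# Coherent trees, I04: representations of the stabilizers of vertices
-/

set_option autoImplicit false
set_option linter.unusedVariables false
set_option linter.unusedSectionVars false

namespace Pool.Agent.Lib.MP_c052b4_al.CT

open MvPolynomial
open Pool.Agent.Lib.MP_c052b4_al.JK

universe u

theorem i04_conj {K : Type u} [Field K] {H : Type u} [Group H] (r : H →* AutA K) (s : AutA K)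
    (h : H) : ((MulAut.conj s⁻¹).toMonoidHom.comp r) h = s⁻¹ * r h * s := by
  show s⁻¹ * r h * s⁻¹⁻¹ = _
  rw [inv_inv]

theorem i04_aff {K : Type u} [Field K] {H : Type u}
    [Group H] (r : H →* AutA K) (s : AutA K) (hs : ∀ h, s⁻¹ * r h * s ∈ Aff K) :
    ∃ θ : H →* GL (Fin 2) K, ∀ h, IsIntegral ℤ ((θ h : Matrix (Fin 2) (Fin 2) K)) →
      LocInt (R := K) (r h) := by
  let f : H →* AutA K := (MulAut.conj s⁻¹).toMonoidHom.comp r
  have hf : ∀ h, f h = s⁻¹ * r h * s := fun h => i04_conj r s h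
  have him : ∀ h, f h ∈ Aff K := fun h => by rw [hf]; exact hs h
  let m : H →* Matrix (Fin 2) (Fin 2) K :=
    { toFun := fun h => linMat (f h)
      map_one' := by rw [map_one, linMat_one]
      map_mul' := fun a b => by rw [map_mul, linMat_mul _ _ (him a) (him b)] }
  refine ⟨m.toHomUnits, fun h hh => ?_⟩
  have h1 : IsIntegral ℤ (linMat (f h)) := hh
  have h2 := locInt_aff (him h) h1
  rw [hf] at h2
  exact LocInt.conj (R := K) (s := s) h2

theorem i04_int {K : Type u} [Field K] {v : Fin 2 → K}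
    (h : IsIntegral ℤ (Matrix.diagonal v)) (i : Fin 2) : IsIntegral ℤ (v i) := by
  have h1 : IsIntegral ℤ v :=
    (isIntegral_algHom_iff (Matrix.diagonalAlgHom ℤ : (Fin 2 → K) →ₐ[ℤ] Matrix (Fin 2) (Fin 2) K)
      Matrix.diagonal_injective).1 h
  exact h1.map (Pi.evalAlgHom ℤ (fun _ : Fin 2 => K) i)

theorem i04_tri {K : Type u} [Field K] {H : Type u}
    [Group H] (r : H →* AutA K) (s : AutA K) (hs : ∀ h, s⁻¹ * r h * s ∈ Tri K) :
    ∃ θ : H →* GL (Fin 2) K, ∀ h, IsIntegral ℤ ((θ h : Matrix (Fin 2) (Fin 2) K)) →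
      LocInt (R := K) (r h) := by
  let f : H →* AutA K := (MulAut.conj s⁻¹).toMonoidHom.comp r
  have hf : ∀ h, f h = s⁻¹ * r h * s := fun h => i04_conj r s h
  have him : ∀ h, f h ∈ Tri K := fun h => by rw [hf]; exact hs h
  let m : H →* Matrix (Fin 2) (Fin 2) K :=
    { toFun := fun h => Matrix.diagonal ![(dia (f h)).1, (dia (f h)).2]
      map_one' := by
        rw [map_one, dia_one, ← Matrix.diagonal_one]
        congr 1
        ext i
        fin_cases i <;> rfl
      map_mul' := fun a b => by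
        rw [map_mul, dia_mul _ _ (him a) (him b), Matrix.diagonal_mul_diagonal]
        congr 1
        ext i
        fin_cases i <;> rfl }
  refine ⟨m.toHomUnits, fun h hh => ?_⟩
  have h1 : IsIntegral ℤ (Matrix.diagonal ![(dia (f h)).1, (dia (f h)).2]) := hh
  have h2 := locInt_tri (him h) (i04_int h1 0) (i04_int h1 1)
  rw [hf] at h2
  exact LocInt.conj (R := K) (s := s) h2

/-- **A group of automorphisms fixing a vertex has a representation of rank two which detects
integrality.**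
Proof: as `exists_rep_fix` (JK/MInd.lean), `exists_rep_aff` and `exists_rep_tri` (JK/Adm.lean), with the
same representations `θ` (linear part, or `Matrix.diagonal` of the diagonal part); use `locInt_aff`,
`locInt_tri` and `LocInt.conj`. If `Matrix.diagonal ![a, c]` is integral then `a` and `c` are: apply the
monic equation and take entries (`Matrix.diagonal_pow`; or map with `Matrix.diagonalRingHom`-type
arguments). -/
theorem exists_rep_vertex {K : Type u} [Field K] {H : Type u} [Group H] (r : H →* AutA K)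
    (x : VT K) (hx : ∀ h, r h • x = x) :
    ∃ θ : H →* GL (Fin 2) K, ∀ h, IsIntegral ℤ ((θ h : Matrix (Fin 2) (Fin 2) K)) →
      LocInt (R := K) (r h) := by
  rcases x with q | q
  · obtain ⟨s, rfl⟩ := QuotientGroup.mk_surjective q
    exact i04_aff r s fun h => mem_of_smul (Sum.inl_injective (hx h))
  · obtain ⟨s, rfl⟩ := QuotientGroup.mk_surjective q
    exact i04_tri r s fun h => mem_of_smul (Sum.inr_injective (hx h))

end Pool.Agent.Lib.MP_c052b4_al.CT
end

section

/-!
# Coherent trees, I05: lines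
-/

set_option autoImplicit false
set_option linter.unusedVariables false
set_option linter.unusedSectionVars false

namespace Pool.Agent.Lib.MP_c052b4_al.CT

open MvPolynomial
open Pool.Agent.Lib.MP_c052b4_al.JK

universe u

variable {K : Type u} [Field K]

theorem i05_scalar {A : Type u} [CommRing A] {x : A}
    (h : IsIntegral ℤ (Matrix.scalar (Fin 2) x)) : IsIntegral ℤ x := by
  have h0 : Matrix.diagonal (fun _ : Fin 2 => x) = Matrix.scalar (Fin 2) x := rfl
  rw [← h0] at h
  have h1 : IsIntegral ℤ (fun _ : Fin 2 => x) :=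
    (isIntegral_algHom_iff (Matrix.diagonalAlgHom ℤ : (Fin 2 → A) →ₐ[ℤ] Matrix (Fin 2) (Fin 2) A)
      Matrix.diagonal_injective).1 h
  exact h1.map (Pi.evalAlgHom ℤ (fun _ : Fin 2 => A) 0)

theorem i05_T {n : ℤ} (h : IsIntegral ℤ (LaurentPolynomial.T (R := K) n)) : n = 0 := by
  by_contra hn
  obtain ⟨p, hp, h1⟩ := h
  have h2 : Polynomial.aeval (LaurentPolynomial.T (R := K) n) p = 0 := h1
  rw [Polynomial.aeval_eq_sum_range] at h2
  have h3 := congrArg (fun q : LaurentPolynomial K => q.coeff ((p.natDegree : ℤ) * n)) h2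
  rw [AddMonoidAlgebra.coeff_sum, Finsupp.finsetSum_apply, Finset.sum_eq_single p.natDegree] at h3
  · rw [LaurentPolynomial.T_pow, hp.coeff_natDegree, one_smul, LaurentPolynomial.T_apply,
      if_pos rfl] at h3
    exact one_ne_zero h3
  · intro i hi hne
    have hne' : ¬ ((i : ℤ) * n = (p.natDegree : ℤ) * n) := fun he =>
      hne (by exact_mod_cast mul_right_cancel₀ hn he)
    rw [LaurentPolynomial.T_pow, AddMonoidAlgebra.coeff_smul_apply, LaurentPolynomial.T_apply,
      if_neg hne', smul_zero]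
  · intro hh
    exact absurd (Finset.mem_range.2 (Nat.lt_succ_self _)) hh

/-- The translation group of a line has a representation of rank two such that the elements with
integral image fix the line.
Proof: as `exists_rep_trl` (JK/Line.lean) with the same `θ h = scalar (T (t h))`. If this matrix is integral
over `ℤ` so is `T (t h)` (take the entry `0 0` of the equation), so `t h = 0`: a monic equation
`∑ i ≤ n, p_i T (i t) = 0` has the coefficient `1` at `T (n t)` if `t ≠ 0` (the exponents `i t` are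
different), `1 ≠ 0` in `K`. -/
theorem exists_rep_trl_int {G : Type u} [Group G] [MulAction G (VT K)] {ℓ : ℤ → VT K}
    (hℓ : IsLine (JGraph K) ℓ) :
    ∃ θ : Trl G ℓ →* GL (Fin 2) (LaurentPolynomial K), ∀ h : Trl G ℓ,
      IsIntegral ℤ ((θ h : Matrix (Fin 2) (Fin 2) (LaurentPolynomial K))) →
      ∀ n, (h : G) • ℓ n = ℓ n := by
  choose t ht using fun h : Trl G ℓ => mem_trl.1 h.2
  have t_one : t 1 = 0 := by
    refine line_shift hℓ fun n => ?_
    rw [← ht, OneMemClass.coe_one, one_smul, add_zero]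
  have t_mul : ∀ a b : Trl G ℓ, t (a * b) = t a + t b := by
    intro a b
    refine line_shift hℓ fun n => ?_
    rw [← ht, Subgroup.coe_mul, mul_smul, ht b, ht a, add_assoc, add_comm (t b)]
  let m : Trl G ℓ →* Matrix (Fin 2) (Fin 2) (LaurentPolynomial K) :=
    { toFun := fun h => Matrix.scalar (Fin 2) (LaurentPolynomial.T (t h))
      map_one' := by rw [t_one, LaurentPolynomial.T_zero, map_one]
      map_mul' := fun a b => by rw [t_mul, LaurentPolynomial.T_add, map_mul] }
  refine ⟨m.toHomUnits, fun h hh n => ?_⟩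
  have h1 : IsIntegral ℤ (Matrix.scalar (Fin 2) (LaurentPolynomial.T (R := K) (t h))) := hh
  have h3 : t h = 0 := i05_T (i05_scalar h1)
  rw [ht, h3, add_zero]

private theorem i05_coeff_lin (a b c : K) (r : Fin 2) :
    coeff (Finsupp.single r 1) (C a * X 0 + C b * X 1 + C c : A2 K) = ![a, b] r := by
  classical
  have hX : ∀ v : Fin 2, coeff (Finsupp.single r 1) (X v : A2 K) = if r = v then 1 else 0 := by
    intro v
    rw [MvPolynomial.coeff_X]
    by_cases h : r = v
    · rw [h, if_pos rfl, if_pos rfl]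
    · rw [if_neg h, if_neg]
      intro h1
      exact h ((Finsupp.single_left_inj one_ne_zero).1 h1).symm
  have hC : coeff (Finsupp.single r 1) (C c : A2 K) = 0 := by
    rw [coeff_C, if_neg]
    intro h
    exact one_ne_zero (Finsupp.single_eq_zero.1 h.symm)
  rw [coeff_add, coeff_add, coeff_C_mul, coeff_C_mul, hX, hX, hC]
  fin_cases r <;> simp

private theorem i05_inj {a b c a' b' c' : K}
    (h : (C a * X 0 + C b * X 1 + C c : A2 K) = C a' * X 0 + C b' * X 1 + C c') :
    a = a' ∧ b = b' := by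
  have h0 := i05_coeff_lin a b c 0
  have h1 := i05_coeff_lin a b c 1
  rw [h, i05_coeff_lin] at h0 h1
  exact ⟨h0.symm, h1.symm⟩

/-- the diagonal part of a triangular automorphism -/
private theorem i05_dia {σ : AutA K} (h : σ ∈ Tri K) : ∃ (a c d : K) (P : Polynomial K),
    a ≠ 0 ∧ c ≠ 0 ∧ σ (X 0) = C a * X 0 + Polynomial.aeval (X 1) P ∧
      σ (X 1) = C c * X 1 + C d ∧ dia σ = (a, c) := by
  obtain ⟨a, P, ha, h0⟩ := Tri_X0 h
  obtain ⟨c, d, hc, h1⟩ := Tri_X1 h
  refine ⟨a, c, d, P, ha, hc, h0, h1, ?_⟩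
  have hP : coeff (Finsupp.single 0 1) (Polynomial.aeval (X 1 : A2 K) P) = 0 := by
    rw [Polynomial.aeval_eq_sum_range, coeff_sum]
    refine Finset.sum_eq_zero fun n _ => ?_
    rw [coeff_smul, coeff_X_pow, if_neg, smul_zero]
    intro h
    have := DFunLike.congr_fun h 0
    simp at this
  unfold dia
  rw [h0, h1]
  refine Prod.ext ?_ ?_
  · show coeff (Finsupp.single 0 1) (C a * X 0 + Polynomial.aeval (X 1 : A2 K) P) = a
    rw [coeff_add, hP, coeff_C_mul, coeff_X, if_pos rfl, mul_one, add_zero]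
  · show coeff (Finsupp.single 1 1) (C c * X 1 + C d : A2 K) = c
    have hne : ¬ ((0 : Fin 2 →₀ ℕ) = Finsupp.single 1 1) := by
      intro h
      have := DFunLike.congr_fun h 1
      simp at this
    rw [coeff_add, coeff_C_mul, coeff_X, if_pos rfl, coeff_C, if_neg hne, mul_one, add_zero]

/-- If `h ∈ Aff ⊓ Tri` fixes a further neighbour of the vertex `Tri`, then `a = c ^ n` with
`n ≥ 2`. -/
private theorem i05_key1 {h t : AutA K} (hA : h ∈ Aff K) (hT : h ∈ Tri K) (ht : t ∈ Tri K)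
    (htA : t ∉ Aff K) (hk : t⁻¹ * h * t ∈ Aff K) :
    ∃ n : ℕ, 2 ≤ n ∧ (dia h).1 = (dia h).2 ^ n := by
  have hkT : t⁻¹ * h * t ∈ Tri K := (Tri K).mul_mem ((Tri K).mul_mem ((Tri K).inv_mem ht) hT) ht
  obtain ⟨a, e, f, c, d, ha, hc, h0, h1, hd⟩ := lna_AT hA hT
  obtain ⟨a', e', f', c', d', ha', hc', k0, k1, hd'⟩ := lna_AT hk hkT
  obtain ⟨at', ct, dt, P, hat, hct, t0, t1, hdt⟩ := i05_dia ht
  have heq : h * t = t * (t⁻¹ * h * t) := by group
  have haa : a = a' := by
    have h2 := dia_mul h t hT ht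
    rw [heq, dia_mul t _ ht hkT, hd, hd', hdt] at h2
    have h3 : at' * a' = a * at' := congrArg Prod.fst h2
    rw [mul_comm a at'] at h3
    exact (mul_left_cancel₀ hat h3).symm
  have hn : 2 ≤ P.natDegree := by
    by_contra hlt
    have hle : P.natDegree ≤ 1 := by omega
    apply htA
    obtain ⟨u, v, hP⟩ := Polynomial.exists_eq_X_add_C_of_natDegree_le_one hle
    refine mem_Aff_of t fun w => ?_
    fin_cases w
    · show (t (X 0)).totalDegree ≤ 1
      have h5 : t (X 0) = C at' * X 0 + C u * X 1 + C v := by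
        rw [t0, hP, map_add, map_mul, Polynomial.aeval_C, Polynomial.aeval_C, Polynomial.aeval_X,
          MvPolynomial.algebraMap_eq, add_assoc]
      rw [h5]
      exact totalDegree_lin_le _ _ _
    · show (t (X 1)).totalDegree ≤ 1
      have h5 : t (X 1) = C 0 * X 0 + C ct * X 1 + C dt := by
        rw [t1, C_0, zero_mul, zero_add]
      rw [h5]
      exact totalDegree_lin_le _ _ _
  refine ⟨P.natDegree, hn, ?_⟩
  rw [hd]
  show a = c ^ P.natDegree
  -- the map to the polynomial ring in one variable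
  let E : A2 K →ₐ[K] Polynomial K := aeval ![0, Polynomial.X]
  have hEC : ∀ z : K, E (C z) = Polynomial.C z := fun z => by
    show aeval _ (C z) = _
    rw [aeval_C]
    rfl
  have hE0 : E (X 0) = 0 := by
    show aeval _ (X 0) = _
    rw [aeval_X]
    rfl
  have hE1 : E (X 1) = Polynomial.X := by
    show aeval _ (X 1) = _
    rw [aeval_X]
    rfl
  have h2 : E (h (t (X 0))) = E (t ((t⁻¹ * h * t) (X 0))) := by
    have h3 := congrArg (fun s : AutA K => E (s (X 0))) heq
    exact h3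
  have hl : E (h (t (X 0))) = Polynomial.C at' * (Polynomial.C e * Polynomial.X + Polynomial.C f) +
      P.comp (Polynomial.C c * Polynomial.X + Polynomial.C d) := by
    have h3 : E (h (Polynomial.aeval (X 1 : A2 K) P)) =
        P.comp (Polynomial.C c * Polynomial.X + Polynomial.C d) := by
      have h4 : E (h (Polynomial.aeval (X 1 : A2 K) P)) =
          Polynomial.aeval (E (h (X 1))) P :=
        (Polynomial.aeval_algHom_apply (E.comp (h : A2 K →ₐ[K] A2 K)) (X 1) P).symm
      rw [h4, h1, map_add, map_mul, hEC, hEC, hE1]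
      rfl
    rw [t0, map_add, map_add, h3, map_mul, map_mul, aut_C, hEC, h0, map_add, map_add, map_mul,
      map_mul, hEC, hEC, hEC, hE0, hE1, mul_zero, zero_add]
  have hr : E (t ((t⁻¹ * h * t) (X 0))) = Polynomial.C a * P +
      Polynomial.C e' * (Polynomial.C ct * Polynomial.X + Polynomial.C dt) + Polynomial.C f' := by
    have h3 : E (Polynomial.aeval (X 1 : A2 K) P) = P := by
      have h4 : E (Polynomial.aeval (X 1 : A2 K) P) = Polynomial.aeval (E (X 1)) P :=
        (Polynomial.aeval_algHom_apply E (X 1) P).symm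
      rw [h4, hE1, Polynomial.aeval_X_left_apply]
    rw [k0]
    simp only [map_add, map_mul, aut_C, t0, t1, hEC, hE0, hE1, h3, mul_zero, zero_add]
    rw [← haa]
  rw [hl, hr] at h2
  have h3 := congrArg (fun q => Polynomial.coeff q P.natDegree) h2
  have hlin : ∀ u v : K, (Polynomial.C u * Polynomial.X + Polynomial.C v).coeff P.natDegree = 0 :=
    fun u v => by
      rw [Polynomial.coeff_add, Polynomial.coeff_C_mul, Polynomial.coeff_X, Polynomial.coeff_C,
        if_neg (by omega), if_neg (by omega), mul_zero, add_zero]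
  have hcomp : (P.comp (Polynomial.C c * Polynomial.X + Polynomial.C d)).coeff P.natDegree =
      P.leadingCoeff * c ^ P.natDegree := by
    have h4 := Polynomial.coeff_comp_degree_mul_degree (p := P)
      (q := Polynomial.C c * Polynomial.X + Polynomial.C d)
      (by rw [Polynomial.natDegree_linear hc]; exact one_ne_zero)
    rw [Polynomial.natDegree_linear hc, mul_one, Polynomial.leadingCoeff_linear hc] at h4
    exact h4
  simp only [Polynomial.coeff_add, Polynomial.coeff_C_mul, hcomp] at h3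
  have h5 : (Polynomial.C f' : Polynomial K).coeff P.natDegree = 0 := by
    rw [Polynomial.coeff_C, if_neg (by omega)]
  have h6 : (Polynomial.C f : Polynomial K).coeff P.natDegree = 0 := by
    rw [Polynomial.coeff_C, if_neg (by omega)]
  have h6' : (Polynomial.C dt : Polynomial K).coeff P.natDegree = 0 := by
    rw [Polynomial.coeff_C, if_neg (by omega)]
  have h7 : (Polynomial.X : Polynomial K).coeff P.natDegree = 0 := by
    rw [Polynomial.coeff_X, if_neg (by omega)]
  rw [h5, h6, h6', h7] at h3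
  have hP : P.leadingCoeff ≠ 0 := by
    rw [Polynomial.leadingCoeff_ne_zero]
    rintro rfl
    simp at hn
  have h8 : P.leadingCoeff * c ^ P.natDegree = P.leadingCoeff * a := by
    have h9 : P.coeff P.natDegree = P.leadingCoeff := rfl
    rw [h9] at h3
    linear_combination h3
  exact (mul_left_cancel₀ hP h8).symm

/-- If `h ∈ Aff ⊓ Tri` fixes a further neighbour of the vertex `Aff`, the diagonal part seen from
there is exchanged. -/
private theorem i05_key2 {h r : AutA K} (hA : h ∈ Aff K) (hT : h ∈ Tri K) (hr : r ∈ Aff K)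
    (hrT : r ∉ Tri K) (hk : r⁻¹ * h * r ∈ Tri K) :
    dia (r⁻¹ * h * r) = ((dia h).2, (dia h).1) := by
  have hkA : r⁻¹ * h * r ∈ Aff K := (Aff K).mul_mem ((Aff K).mul_mem ((Aff K).inv_mem hr) hA) hr
  obtain ⟨a, e, f, c, d, ha, hc, h0, h1, hd⟩ := lna_AT hA hT
  obtain ⟨a', e', f', c', d', ha', hc', k0, k1, hd'⟩ := lna_AT hkA hk
  obtain ⟨a₀, b₀, c₀, a₁, b₁, c₁, r0, r1, hdet⟩ := Aff_X hr
  have ha₁ : a₁ ≠ 0 := by
    rintro rfl
    apply hrT
    refine mem_Tri_of (c := b₁) (d := c₁) ?_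
    rw [r1, C_0, zero_mul, zero_add]
  have heq : h * r = r * (r⁻¹ * h * r) := by group
  have e1 : h (r (X 1)) = r ((r⁻¹ * h * r) (X 1)) :=
    congrArg (fun s : AutA K => s (X 1)) heq
  have e0 : h (r (X 0)) = r ((r⁻¹ * h * r) (X 0)) :=
    congrArg (fun s : AutA K => s (X 0)) heq
  rw [r1, k1] at e1
  rw [r0, k0] at e0
  simp only [map_add, map_mul, aut_C, h0, h1, r0, r1] at e0 e1
  have f1 : (C (a₁ * a) * X 0 + C (a₁ * e + b₁ * c) * X 1 + C (a₁ * f + b₁ * d + c₁) : A2 K) =
      C (c' * a₁) * X 0 + C (c' * b₁) * X 1 + C (c' * c₁ + d') := by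
    simp only [C_add, C_mul]
    linear_combination e1
  have f0 : (C (a₀ * a) * X 0 + C (a₀ * e + b₀ * c) * X 1 + C (a₀ * f + b₀ * d + c₀) : A2 K) =
      C (a' * a₀ + e' * a₁) * X 0 + C (a' * b₀ + e' * b₁) * X 1 +
        C (a' * c₀ + e' * c₁ + f') := by
    simp only [C_add, C_mul]
    linear_combination e0
  obtain ⟨g1, g2⟩ := i05_inj f1
  obtain ⟨g3, g4⟩ := i05_inj f0
  have hac : a = c' := by
    rw [mul_comm c' a₁] at g1
    exact mul_left_cancel₀ ha₁ g1
  have hdet' : a₀ * b₁ - a₁ * b₀ ≠ 0 := sub_ne_zero.2 hdet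
  have h9 : (a' - c) * (a₀ * b₁ - a₁ * b₀) = 0 := by
    rw [← hac] at g2
    linear_combination a₁ * g4 - b₁ * g3 - a₀ * g2
  have h10 : a' = c := sub_eq_zero.1 ((mul_eq_zero.1 h9).resolve_right hdet')
  rw [hd', hd, h10, ← hac]

private theorem i05_edge {x y : VT K} (h : (JGraph K).Adj x y) {q : AutA K ⧸ Aff K}
    (hx : x = Sum.inl q) : ∃ g : AutA K, x = Sum.inl (g : AutA K ⧸ Aff K) ∧
      y = Sum.inr (g : AutA K ⧸ Tri K) := by
  obtain ⟨g, h | h⟩ := h
  · exact ⟨g, h⟩
  · exact (Sum.inl_ne_inr (hx.symm.trans h.1)).elim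

private theorem i05_edge' {x y : VT K} (h : (JGraph K).Adj x y) {q : AutA K ⧸ Tri K}
    (hx : x = Sum.inr q) : ∃ g : AutA K, x = Sum.inr (g : AutA K ⧸ Tri K) ∧
      y = Sum.inl (g : AutA K ⧸ Aff K) := by
  obtain ⟨g, h | h⟩ := h
  · exact (Sum.inl_ne_inr (h.1.symm.trans hx)).elim
  · exact ⟨g, h⟩

/-- **An automorphism which fixes a line is integral.**
Proof: the proof of `fix_line` (JK/LnA.lean; copy its private lemmas) shows for `h = g1⁻¹ * g * g1 ∈ Tri K`
with `dia h = (a, c)` that `a` and `c` are roots of unity, so integral over `ℤ`; `locInt_tri` and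
`LocInt.conj`. -/
theorem locInt_of_fix_line (g : AutA K) (l : ℤ → VT K)
    (hl : ∀ n : ℤ, (JGraph K).Adj (l n) (l (n + 1)) ∧ l (n + 2) ≠ l n)
    (hg : ∀ n : ℤ, g • l n = l n) : LocInt (R := K) g := by
  have hex : ∃ (n : ℤ) (q : AutA K ⧸ Aff K), l n = Sum.inl q := by
    rcases h0 : l 0 with q | q
    · exact ⟨0, q, h0⟩
    · obtain ⟨s, -, h1⟩ := i05_edge' (hl 0).1 h0
      exact ⟨0 + 1, _, h1⟩
  obtain ⟨n, q, hn⟩ := hex
  obtain ⟨g0, a0, b0⟩ := i05_edge (hl n).1 hn
  obtain ⟨g1, a1, b1⟩ := i05_edge' (hl (n + 1)).1 b0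
  obtain ⟨g2, a2, b2⟩ := i05_edge (hl (n + 1 + 1)).1 b1
  obtain ⟨g3, a3, b3⟩ := i05_edge' (hl (n + 1 + 1 + 1)).1 b2
  have i2 : n + 2 = n + 1 + 1 := by ring
  have i3 : n + 1 + 2 = n + 1 + 1 + 1 := by ring
  have i4 : n + 1 + 1 + 2 = n + 1 + 1 + 1 + 1 := by ring
  have c0 : g1⁻¹ * g0 ∈ Tri K := QuotientGroup.eq.1 (Sum.inr_injective (a1.symm.trans b0))
  have c1 : g1⁻¹ * g2 ∈ Aff K := QuotientGroup.eq.1 (Sum.inl_injective (b1.symm.trans a2))
  have c2 : g2⁻¹ * g3 ∈ Tri K := QuotientGroup.eq.1 (Sum.inr_injective (b2.symm.trans a3))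
  have d0 : g1⁻¹ * g0 ∉ Aff K := by
    intro h
    apply (hl n).2
    rw [i2, b1, a0]
    exact congrArg Sum.inl (QuotientGroup.eq.2 h)
  have d1 : g1⁻¹ * g2 ∉ Tri K := by
    intro h
    apply (hl (n + 1)).2
    rw [i3, b2, a1]
    exact congrArg Sum.inr (QuotientGroup.eq.2 h).symm
  have d2 : g2⁻¹ * g3 ∉ Aff K := by
    intro h
    apply (hl (n + 1 + 1)).2
    rw [i4, b3, a2]
    exact congrArg Sum.inl (QuotientGroup.eq.2 h).symm
  have f0 : g0⁻¹ * g * g0 ∈ Aff K := lna_inl (by rw [← a0]; exact hg n)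
  have f1 : g1⁻¹ * g * g1 ∈ Tri K := lna_inr (by rw [← a1]; exact hg _)
  have f1' : g1⁻¹ * g * g1 ∈ Aff K := lna_inl (by rw [← b1]; exact hg _)
  have f2 : g2⁻¹ * g * g2 ∈ Tri K := lna_inr (by rw [← b2]; exact hg _)
  have f2' : g2⁻¹ * g * g2 ∈ Aff K := lna_inl (by rw [← a2]; exact hg _)
  have f3 : g3⁻¹ * g * g3 ∈ Aff K := lna_inl (by rw [← b3]; exact hg _)
  obtain ⟨m, hm, hm'⟩ := i05_key1 f1' f1 c0 d0 (by
    have h : (g1⁻¹ * g0)⁻¹ * (g1⁻¹ * g * g1) * (g1⁻¹ * g0) = g0⁻¹ * g * g0 := by group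
    rw [h]
    exact f0)
  have e2 : (g1⁻¹ * g2)⁻¹ * (g1⁻¹ * g * g1) * (g1⁻¹ * g2) = g2⁻¹ * g * g2 := by group
  have e3 := i05_key2 f1' f1 c1 d1 (by rw [e2]; exact f2)
  rw [e2] at e3
  obtain ⟨k, hk, hk'⟩ := i05_key1 f2' f2 c2 d2 (by
    have h : (g2⁻¹ * g3)⁻¹ * (g2⁻¹ * g * g2) * (g2⁻¹ * g3) = g3⁻¹ * g * g3 := by group
    rw [h]
    exact f3)
  rw [e3] at hk'
  obtain ⟨a, e, f, c, d, ha, hc, h0, h1, hd⟩ := lna_AT f1' f1
  rw [hd] at hm' hk'
  have hac : a = c ^ m := hm'
  have hca : c = a ^ k := hk'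
  have hmk : 1 ≤ m * k := Nat.mul_pos (by omega) (by omega)
  have hc1 : c ^ (m * k - 1) = 1 := by
    have h5 : c ^ (m * k) = c := by
      rw [pow_mul, ← hac, ← hca]
    have h6 : c ^ (m * k - 1) * c = 1 * c := by
      rw [← pow_succ, Nat.sub_add_cancel hmk, h5, one_mul]
    exact mul_right_cancel₀ hc h6
  have ha1 : a ^ (m * k - 1) = 1 := by
    rw [hac, ← pow_mul, mul_comm m, pow_mul, hc1, one_pow]
  have hN : 0 < m * k - 1 := by
    have : 2 * 2 ≤ m * k := Nat.mul_le_mul hm hk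
    omega
  have hi : ∀ x : K, x ^ (m * k - 1) = 1 → IsIntegral ℤ x := fun x hx =>
    IsIntegral.of_pow hN (by rw [hx]; exact isIntegral_one)
  refine LocInt.conj (R := K) (s := g1) (locInt_tri f1 ?_ ?_)
  · rw [hd]
    exact hi a ha1
  · rw [hd]
    exact hi c hc1

end Pool.Agent.Lib.MP_c052b4_al.CT
end
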