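import Pool.Agent.Lib.MP_c052b4_al.Mg.G031
import Pool.Agent.Lib.MP_c052b4_al.Mg.G042
import Pool.Agent.Lib.MP_c052b4_al.Mg.G041
import Pool.Agent.Lib.MP_c052b4_al.Mg.G038

section

/-!
# Coherent trees, P05: embeddings
-/

set_option autoImplicit false
set_option linter.unusedVariables false
set_option linter.unusedSectionVars false

namespace Pool.Agent.Lib.MP_c052b4_al.CT

open Pool.Agent.Lib.MP_c052b4_al.MT.L
open scoped WithZero

universe u

private theorem p05_fraction (d : ℕ) :
    IsFractionRing (MvPolynomial (Fin d) ℤ)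
      (ULift.{u} (FractionRing (MvPolynomial (Fin d) ℤ))) :=
  IsLocalization.isLocalization_of_algEquiv (nonZeroDivisors (MvPolynomial (Fin d) ℤ))
    (ULift.algEquiv (R := MvPolynomial (Fin d) ℤ)
      (A := FractionRing (MvPolynomial (Fin d) ℤ))).symm

/-- finiteness of the fraction field -/
private theorem p05_finite {F : Type u} [Field F] {B : Type u} [CommRing B] [IsDomain B]
    [Algebra.FiniteType ℤ B] [Algebra F (FractionRing B)]
    (h : ∀ b : B, IsIntegral F (algebraMap B (FractionRing B) b)) :
    FiniteDimensional F (FractionRing B) := by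
  obtain ⟨S, hS⟩ := (Algebra.FiniteType.out : (⊤ : Subalgebra ℤ B).FG)
  set T : Set (FractionRing B) := algebraMap B (FractionRing B) '' (S : Set B) with hT
  have hTf : T.Finite := S.finite_toSet.image _
  have : Finite T := hTf
  have h1 : FiniteDimensional F (IntermediateField.adjoin F T) := by
    apply IntermediateField.finiteDimensional_adjoin
    rintro x ⟨b, hb, rfl⟩
    exact h b
  have h2 : ∀ b : B, algebraMap B (FractionRing B) b ∈ IntermediateField.adjoin F T := by
    intro b
    have hb : b ∈ Algebra.adjoin ℤ (S : Set B) := by rw [hS]; trivial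
    induction hb using Algebra.adjoin_induction with
    | mem x hx => exact IntermediateField.subset_adjoin F T ⟨x, hx, rfl⟩
    | algebraMap r =>
      rw [eq_intCast, map_intCast]
      exact intCast_mem _ r
    | add x y _ _ hx hy => rw [map_add]; exact add_mem hx hy
    | mul x y _ _ hx hy => rw [map_mul]; exact mul_mem hx hy
  have h3 : IntermediateField.adjoin F T = ⊤ := by
    rw [eq_top_iff]
    intro x _
    obtain ⟨a, b, hb, rfl⟩ := IsFractionRing.div_surjective (A := B) x
    exact div_mem (h2 a) (h2 b)
  rw [h3] at h1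
  exact (IntermediateField.topEquiv (F := F) (E := FractionRing B)).toLinearEquiv.finiteDimensional

/-- As `exists_embedding` (L/A02.lean), in characteristic zero.
Proof: `g`, `N`, `d` from `noether_int`, `F = FractionRing (MvPolynomial (Fin d) ℤ)`,
`E = FractionRing B`, algebra structures as in L/A02.lean. `E / F` is finite: `E` is generated as a field
by `F` and the finitely many generators of `B`, which are integral over `F` (the subalgebra
generated by them over `F` is a finite-dimensional domain over `F`, hence a field containing `B`,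
so it is `E`). It is separable as `F` has characteristic zero. `exists_places0` for `N`; for `b : B`
`isIntegral_algebraMap_iff` for the injection `B → E`. The universe: `F` is in `Type`, use
`ULift.{u}` of `MvPolynomial (Fin d) ℤ`-fraction field if necessary (e.g.
`F = ULift.{u} (FractionRing (MvPolynomial (Fin d) ℤ))` with `IsFractionRing` transported, or
`F =` the fraction field of the subring `g.range` of `E`, i.e. the subfield generated by it). -/
theorem exists_embedding0 (B : Type u) [CommRing B] [IsDomain B] [CharZero B]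
    [Algebra.FiniteType ℤ B] :
    ∃ (E : Type u) (_ : Field E) (f : B →+* E) (ι : Type) (_ : Finite ι)
      (W : ι → Valuation E ℤᵐ⁰), Function.Injective f ∧
      (∀ i, ∃ q : E, W i q = WithZero.exp (-1 : ℤ)) ∧
        ∀ b : B, (∀ i, W i (f b) ≤ 1) → IsIntegral ℤ b := by
  obtain ⟨d, N, g, hN, hg, hgi⟩ := noether_int B
  have hfrac := p05_fraction.{u} d
  have hBL : Function.Injective (algebraMap B (FractionRing B)) :=
    IsFractionRing.injective B (FractionRing B)
  have hginj : Function.Injective ((algebraMap B (FractionRing B)).comp g) := hBL.comp hg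
  let i1 : Algebra (MvPolynomial (Fin d) ℤ) (FractionRing B) :=
    ((algebraMap B (FractionRing B)).comp g).toAlgebra
  let i2 : Algebra (ULift.{u} (FractionRing (MvPolynomial (Fin d) ℤ))) (FractionRing B) :=
    (IsFractionRing.lift (K := ULift.{u} (FractionRing (MvPolynomial (Fin d) ℤ))) hginj).toAlgebra
  have i3 : IsScalarTower (MvPolynomial (Fin d) ℤ)
      (ULift.{u} (FractionRing (MvPolynomial (Fin d) ℤ))) (FractionRing B) :=
    IsScalarTower.of_algebraMap_eq fun x =>
      (IsFractionRing.lift_algebraMap (K := ULift.{u} (FractionRing (MvPolynomial (Fin d) ℤ)))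
        hginj x).symm
  have hint : ∀ b : B, ∃ k : ℕ, IsIntegral (MvPolynomial (Fin d) ℤ)
      ((N : FractionRing B) ^ k * algebraMap B (FractionRing B) b) := by
    intro b
    obtain ⟨k, hk⟩ := hgi b
    refine ⟨k, ?_⟩
    obtain ⟨P, hP1, hP2⟩ := hk
    refine ⟨P, hP1, ?_⟩
    have e1 : (N : FractionRing B) ^ k * algebraMap B (FractionRing B) b
        = algebraMap B (FractionRing B) ((N : B) ^ k * b) := by
      rw [map_mul, map_pow, map_natCast]
    rw [e1]
    show Polynomial.eval₂ ((algebraMap B (FractionRing B)).comp g) _ P = 0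
    rw [← Polynomial.hom_eval₂, hP2, map_zero]
  have hchar : CharZero (FractionRing B) := by
    refine charZero_of_injective_algebraMap (R := B) hBL
  have hN0 : (N : FractionRing B) ≠ 0 := by
    exact_mod_cast hN.ne'
  have hFc : CharZero (ULift.{u} (FractionRing (MvPolynomial (Fin d) ℤ))) :=
    charZero_of_injective_algebraMap (R := MvPolynomial (Fin d) ℤ)
      (IsFractionRing.injective (MvPolynomial (Fin d) ℤ)
        (ULift.{u} (FractionRing (MvPolynomial (Fin d) ℤ))))
  have hfin : FiniteDimensional (ULift.{u} (FractionRing (MvPolynomial (Fin d) ℤ)))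
      (FractionRing B) := by
    apply p05_finite
    intro b
    obtain ⟨k, hk⟩ := hint b
    have h1 : IsIntegral (ULift.{u} (FractionRing (MvPolynomial (Fin d) ℤ)))
        ((N : FractionRing B) ^ k * algebraMap B (FractionRing B) b) := hk.tower_top
    have h2 : IsIntegral (ULift.{u} (FractionRing (MvPolynomial (Fin d) ℤ)))
        (((N : FractionRing B) ^ k)⁻¹) := by
      have e : ((N : FractionRing B) ^ k)⁻¹
          = algebraMap (ULift.{u} (FractionRing (MvPolynomial (Fin d) ℤ))) (FractionRing B)
            (((N : ULift.{u} (FractionRing (MvPolynomial (Fin d) ℤ))) ^ k)⁻¹) := by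
        rw [map_inv₀, map_pow, map_natCast]
      rw [e]
      exact isIntegral_algebraMap
    have h3 := h2.mul h1
    have h4 : ((N : FractionRing B) ^ k)⁻¹
        * ((N : FractionRing B) ^ k * algebraMap B (FractionRing B) b)
        = algebraMap B (FractionRing B) b := by
      rw [← mul_assoc, inv_mul_cancel₀ (pow_ne_zero _ hN0), one_mul]
    rwa [h4] at h3
  obtain ⟨ι, hι, W, hW1, hW2⟩ := exists_places0
    (F := ULift.{u} (FractionRing (MvPolynomial (Fin d) ℤ))) (E := FractionRing B) (d := d) N hN
  refine ⟨FractionRing B, inferInstance, algebraMap B (FractionRing B), ι, hι, W, hBL, hW1, ?_⟩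
  intro b hb
  obtain ⟨k, hk⟩ := hint b
  obtain ⟨P, hP1, hP2⟩ := hW2 _ k hk hb
  refine ⟨P, hP1, hBL ?_⟩
  rw [Polynomial.hom_eval₂, map_zero, ← hP2]
  congr 1
  exact Subsingleton.elim _ _

/-- As `exists_sqrt_det` (L/A03.lean, L/A04.lean; the same proofs with the base ring `ℤ` instead of
a field `k`). -/
theorem exists_sqrt_det0 (B : Type u) [CommRing B] [IsDomain B]
    [Algebra.FiniteType ℤ B] (G : Type u) [Group G] [Group.FG G] (rho : G →* GL (Fin 2) B) :
    ∃ (B' : Type u) (_ : CommRing B') (_ : IsDomain B')
      (_ : Algebra.FiniteType ℤ B') (f : B →+* B'), Function.Injective f ∧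
      ∀ g : G, ∃ c : B', c ^ 2 = f ((rho g : Matrix (Fin 2) (Fin 2) B).det) := by
  have hft : ∀ (A : Type u) [CommRing A] [Algebra B A] [Algebra.FiniteType B A],
      Algebra.FiniteType ℤ A := fun A _ _ _ =>
    Algebra.FiniteType.trans (S := B) inferInstance inferInstance
  obtain ⟨S, hS⟩ := Group.fg_def.mp (inferInstance : Group.FG G)
  have hs : ((fun g : G => ((rho g : Matrix (Fin 2) (Fin 2) B)).det) '' (S : Set G)).Finite :=
    S.finite_toSet.image _
  have key : ∃ (B' : Type u) (_ : CommRing B') (_ : IsDomain B')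
      (_ : Algebra.FiniteType ℤ B') (f : B →+* B'), Function.Injective f ∧
      ∀ b ∈ ((fun g : G => ((rho g : Matrix (Fin 2) (Fin 2) B)).det) '' (S : Set G)),
        ∃ c : B', c ^ 2 = f b := by
    have hc : ∀ b : B, ∃ c : AlgebraicClosure (FractionRing B),
        c ^ 2 = algebraMap B (AlgebraicClosure (FractionRing B)) b := fun b =>
      IsAlgClosed.exists_pow_nat_eq _ (by norm_num)
    choose c hc using hc
    have hfg : (Algebra.adjoin B (c '' ((fun g : G =>
        ((rho g : Matrix (Fin 2) (Fin 2) B)).det) '' (S : Set G)))).FG :=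
      Subalgebra.fg_def.2 ⟨_, hs.image c, rfl⟩
    have : Algebra.FiniteType B (Algebra.adjoin B (c '' ((fun g : G =>
        ((rho g : Matrix (Fin 2) (Fin 2) B)).det) '' (S : Set G)))) :=
      (Subalgebra.fg_iff_finiteType _).1 hfg
    refine ⟨Algebra.adjoin B (c '' ((fun g : G =>
        ((rho g : Matrix (Fin 2) (Fin 2) B)).det) '' (S : Set G))), inferInstance, inferInstance,
      hft _, algebraMap B _, ?_, fun b hb =>
        ⟨⟨c b, Algebra.subset_adjoin ⟨b, hb, rfl⟩⟩, Subtype.ext (hc b)⟩⟩
    intro x y hxy
    have h := congrArg Subtype.val hxy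
    have h2 : Function.Injective (algebraMap B (AlgebraicClosure (FractionRing B))) := by
      rw [IsScalarTower.algebraMap_eq B (FractionRing B) (AlgebraicClosure (FractionRing B))]
      exact (algebraMap (FractionRing B) (AlgebraicClosure (FractionRing B))).injective.comp
        (IsFractionRing.injective B (FractionRing B))
    exact h2 h
  obtain ⟨B', i1, i2, i3, f, hf, hsq⟩ := key
  refine ⟨B', i1, i2, i3, f, hf, ?_⟩
  intro g
  have hg : g ∈ Subgroup.closure (S : Set G) := by rw [hS]; trivial
  induction hg using Subgroup.closure_induction with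
  | mem x hx => exact hsq _ ⟨x, hx, rfl⟩
  | one => exact ⟨1, by simp⟩
  | mul x y hx hy ihx ihy =>
    obtain ⟨a, ha⟩ := ihx
    obtain ⟨b, hb⟩ := ihy
    refine ⟨a * b, ?_⟩
    rw [mul_pow, ha, hb, map_mul, Units.val_mul, Matrix.det_mul, map_mul]
  | inv x hx ihx =>
    obtain ⟨a, ha⟩ := ihx
    refine ⟨a * f ((rho x⁻¹ : Matrix (Fin 2) (Fin 2) B).det), ?_⟩
    have h1 : f ((rho x : Matrix (Fin 2) (Fin 2) B).det) *
        f ((rho x⁻¹ : Matrix (Fin 2) (Fin 2) B).det) = 1 := by
      rw [← map_mul, ← Matrix.det_mul, ← Units.val_mul, ← map_mul]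
      simp
    rw [mul_pow, ha, sq, ← mul_assoc, h1, one_mul]

end Pool.Agent.Lib.MP_c052b4_al.CT
end

section

/-!
# Coherent trees, P06: trees for representations in characteristic zero
-/

set_option autoImplicit false
set_option linter.unusedVariables false
set_option linter.unusedSectionVars false

namespace Pool.Agent.Lib.MP_c052b4_al.CT

open Pool.Agent.Lib.MP_c052b4_al.MT.L
open scoped WithZero

universe u

/-- A subring of a ring of characteristic zero has characteristic zero. -/
private theorem p06_charZero {A B : Type u} [CommRing A] [CommRing B] [CharZero B]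
    {f : A →+* B} (hf : Function.Injective f) : CharZero A := by
  refine ⟨fun m n h => ?_⟩
  have h1 : f (m : A) = f (n : A) := by rw [h]
  rw [map_natCast, map_natCast] at h1
  exact_mod_cast h1

/-- As `dom_trees` (L/R04.lean), in characteristic zero. -/
theorem dom_trees0 (B : Type u) [CommRing B] [IsDomain B] [CharZero B] [Algebra.FiniteType ℤ B]
    (G : Type u) [Group G] [Group.FG G] (rho : G →* GL (Fin 2) B) :
    HasTrees.{u, u} G {g | IsIntegral ℤ ((rho g : Matrix (Fin 2) (Fin 2) B).trace) ∧
      IsIntegral ℤ ((rho g : Matrix (Fin 2) (Fin 2) B).det)} := by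
  classical
  obtain ⟨B', hB1, hB2, hft', f, hf, hsq⟩ := exists_sqrt_det0 B G rho
  have hc0 : CharZero B' := charZero_of_injective_ringHom hf
  obtain ⟨E, hE, e, ι, hι, W, he, hW, hint⟩ := exists_embedding0 B'
  have hinj : Function.Injective (e.comp f) := he.comp hf
  let sigma : G →* GL (Fin 2) E := (Matrix.GeneralLinearGroup.map (e.comp f)).comp rho
  have hdet : ∀ g, (sigma g : Matrix (Fin 2) (Fin 2) E).det =
      e (f ((rho g : Matrix (Fin 2) (Fin 2) B).det)) := by
    intro g
    have h1 : (sigma g : Matrix (Fin 2) (Fin 2) E) =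
      (e.comp f).mapMatrix (rho g : Matrix (Fin 2) (Fin 2) B) := rfl
    rw [h1, ← RingHom.map_det]
    rfl
  have htr : ∀ g, (sigma g : Matrix (Fin 2) (Fin 2) E).trace =
      e (f ((rho g : Matrix (Fin 2) (Fin 2) B).trace)) := by
    intro g
    have h1 : (sigma g : Matrix (Fin 2) (Fin 2) E) =
      (e.comp f).mapMatrix (rho g : Matrix (Fin 2) (Fin 2) B) := rfl
    rw [h1, Matrix.trace_fin_two, Matrix.trace_fin_two, map_add, map_add]
    rfl
  have hev : ∀ (i : ι) (g : G), ∃ n : ℤ,
      W i ((sigma g : Matrix (Fin 2) (Fin 2) E).det) = WithZero.exp (2 * n) := by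
    intro i g
    obtain ⟨c, hc⟩ := hsq g
    have h0 : (sigma g : Matrix (Fin 2) (Fin 2) E).det ≠ 0 :=
      ((Matrix.isUnit_iff_isUnit_det _).1 (sigma g).isUnit).ne_zero
    refine val_sq (W i) (c := e c) h0 ?_
    rw [hdet, ← hc, map_pow]
  have hall : HasTrees.{u, u} G (⋂ i : ι, {g | W i ((sigma g : Matrix (Fin 2) (Fin 2) E).trace) ≤ 1 ∧
      W i ((sigma g : Matrix (Fin 2) (Fin 2) E).det) = 1}) := by
    refine HasTrees.iInter fun i => ?_
    obtain ⟨q, hq⟩ := hW i
    exact hasTrees_val (W i) hq sigma (hev i)
  have hkint : ∀ b : B, IsIntegral ℤ (f b) → IsIntegral ℤ b := fun b hb =>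
    (isIntegral_algHom_iff f.toIntAlgHom hf).1 hb
  refine hall.mono fun g hg => ?_
  rw [Set.mem_iInter] at hg
  refine ⟨hkint _ (hint _ fun i => ?_), hkint _ (hint _ fun i => ?_)⟩
  · rw [← htr]
    exact (hg i).1
  · rw [← hdet]
    exact (hg i).2.le

/-- **Trees for representations over fields of characteristic zero.**
Proof: `exists_fg_subring` (L/R01.lean) and `dom_trees0` for the subring; integrality in the subring implies
integrality in `F`; traces and determinants commute with the inclusion. -/
theorem field_trees0 (F : Type u) [Field F] [CharZero F] (G : Type u) [Group G] [Group.FG G]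
    (s : G →* GL (Fin 2) F) :
    HasTrees.{u, u} G {g | IsIntegral ℤ ((s g : Matrix (Fin 2) (Fin 2) F).trace) ∧
      IsIntegral ℤ ((s g : Matrix (Fin 2) (Fin 2) F).det)} := by
  obtain ⟨A', hA', rho', hrho⟩ := exists_fg_subring s
  have hinj : Function.Injective (A'.val : A' →+* F) := Subtype.val_injective
  have hc0 : CharZero A' := (p06_charZero hinj)
  refine (dom_trees0 A' G rho').mono fun g hg => ?_
  have h1 : (s g : Matrix (Fin 2) (Fin 2) F) =
      (A'.val : A' →+* F).mapMatrix (rho' g : Matrix (Fin 2) (Fin 2) A') := by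
    rw [← hrho g]
    rfl
  have hdet : (s g : Matrix (Fin 2) (Fin 2) F).det =
      A'.val ((rho' g : Matrix (Fin 2) (Fin 2) A').det) := by
    rw [h1, ← RingHom.map_det]
    rfl
  have htr : (s g : Matrix (Fin 2) (Fin 2) F).trace =
      A'.val ((rho' g : Matrix (Fin 2) (Fin 2) A').trace) := by
    rw [h1, Matrix.trace_fin_two, Matrix.trace_fin_two, map_add]
    rfl
  refine ⟨?_, ?_⟩
  · rw [htr]
    exact hg.1.map A'.val
  · rw [hdet]
    exact hg.2.map A'.val

end Pool.Agent.Lib.MP_c052b4_al.CT
end
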