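import Pool.Agent.Lib.MP_c052b4_al.Mg.G001
import Pool.Agent.Lib.MP_c052b4_al.Mg.G012
import Pool.Agent.Lib.MP_c052b4_al.Mg.G060

section

/-!
# Coherent trees, T05: integral affine and triangular automorphisms
-/

set_option autoImplicit false
set_option linter.unusedVariables false
set_option linter.unusedSectionVars false

namespace Pool.Agent.Lib.MP_c052b4_al.CT

open MvPolynomial
open Pool.Agent.Lib.MP_c052b4_al.JK

universe u

variable {K : Type u} [Field K]

private theorem t05_endZ_pow (σ : AutA K) (n : ℕ) (f : A2 K) :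
    ((endZ (R := K) σ) ^ n) f = (σ ^ n) f := by
  induction n with
  | zero => rfl
  | succ n ih =>
    rw [pow_succ', pow_succ']
    change endZ (R := K) σ (((endZ (R := K) σ) ^ n) f) = σ ((σ ^ n) f)
    rw [ih]
    rfl

/-- the coefficient of an integral equation -/
private theorem t05_coeff {σ : AutA K} {q : Polynomial ℤ} {f : A2 K}
    (h : Polynomial.aeval (endZ (R := K) σ) q f = 0) (s : Fin 2 →₀ ℕ) :
    ∑ i ∈ Finset.range (q.natDegree + 1), q.coeff i • coeff s ((σ ^ i) f) = 0 := by
  rw [Polynomial.aeval_eq_sum_range, LinearMap.sum_apply] at h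
  have h1 : coeff s (∑ i ∈ Finset.range (q.natDegree + 1),
      (q.coeff i • (endZ (R := K) σ) ^ i) f) = 0 := by
    rw [h, coeff_zero]
  rw [coeff_sum] at h1
  rw [← h1]
  refine Finset.sum_congr rfl fun i _ => ?_
  rw [LinearMap.smul_apply, t05_endZ_pow]
  exact (map_zsmul (coeffAddMonoidHom s) (q.coeff i) ((σ ^ i) f)).symm

private theorem t05_dia_pow {σ : AutA K} (hσ : σ ∈ Tri K) (n : ℕ) : dia (σ ^ n) = dia σ ^ n := by
  induction n with
  | zero => rw [pow_zero, pow_zero, dia_one]
  | succ n ih => rw [pow_succ, pow_succ, dia_mul _ _ ((Tri K).pow_mem hσ n) hσ, ih]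

private theorem t05_lin_pow {σ : AutA K} (hσ : σ ∈ Aff K) (n : ℕ) :
    linMat (σ ^ n) = linMat σ ^ n := by
  induction n with
  | zero => rw [pow_zero, pow_zero, linMat_one]
  | succ n ih => rw [pow_succ, pow_succ, linMat_mul _ _ ((Aff K).pow_mem hσ n) hσ, ih]

/-- The diagonal part of an integral triangular automorphism is integral.
Proof: `σ (X 0) = C a * X 0 + P(X 1)`, `σ (X 1) = C c * X 1 + C d`, `dia σ = (a, c)` (`lna_dia`,
JK/LnA.lean, private: copy). By induction `(σ ^ n)(X 1) = C (c ^ n) * X 1 + const` and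
`(σ ^ n)(X 0) = C (a ^ n) * X 0 + P_n(X 1)` (use `Tri` is a subgroup and `dia_mul`). Take a monic `q` with
`q(σ) (X v) = 0` (`IntEl.exists_monic`, `Polynomial.aeval_eq_sum_range`,
`(endZ σ ^ n) f = (σ ^ n) f`) and compare the coefficients at `X v`: `q(a) = 0`, `q(c) = 0`. -/
theorem integral_dia {σ : AutA K} (hσ : σ ∈ Tri K) (h : LocInt (R := K) σ) :
    IsIntegral ℤ (dia σ).1 ∧ IsIntegral ℤ (dia σ).2 := by
  constructor
  · obtain ⟨q, hq, h0⟩ := (h (X 0)).exists_monic
    refine ⟨q, hq, ?_⟩
    have h1 := t05_coeff h0 (Finsupp.single 0 1)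
    rw [← Polynomial.aeval_def, Polynomial.aeval_eq_sum_range, ← h1]
    refine Finset.sum_congr rfl fun i _ => ?_
    have h2 : (dia (σ ^ i)).1 = (dia σ).1 ^ i := by rw [t05_dia_pow hσ]; rfl
    rw [← h2]
    rfl
  · obtain ⟨q, hq, h0⟩ := (h (X 1)).exists_monic
    refine ⟨q, hq, ?_⟩
    have h1 := t05_coeff h0 (Finsupp.single 1 1)
    rw [← Polynomial.aeval_def, Polynomial.aeval_eq_sum_range, ← h1]
    refine Finset.sum_congr rfl fun i _ => ?_
    have h2 : (dia (σ ^ i)).2 = (dia σ).2 ^ i := by rw [t05_dia_pow hσ]; rfl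
    rw [← h2]
    rfl

/-- The linear part of an integral affine automorphism is integral.
Proof: `linMat (σ ^ n) = linMat σ ^ n` (`linMat_mul`, `linMat_one`); let `q` be the product of monic
polynomials for `X 0` and `X 1` (`IntEl.exists_monic`), `q(σ) (X v) = 0` for both `v`; take the
coefficients at `X r`: `q(linMat σ) = 0`. -/
theorem integral_linMat {σ : AutA K} (hσ : σ ∈ Aff K) (h : LocInt (R := K) σ) :
    IsIntegral ℤ (linMat σ) := by
  obtain ⟨q0, hq0, h0⟩ := (h (X 0)).exists_monic
  obtain ⟨q1, hq1, h1⟩ := (h (X 1)).exists_monic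
  have h2 : ∀ v : Fin 2, Polynomial.aeval (endZ (R := K) σ) (q0 * q1) (X v) = 0 := by
    intro v
    fin_cases v
    · change Polynomial.aeval (endZ (R := K) σ) (q0 * q1) (X 0) = 0
      rw [mul_comm, map_mul]
      change Polynomial.aeval (endZ (R := K) σ) q1 (Polynomial.aeval (endZ (R := K) σ) q0 (X 0)) = 0
      rw [h0, map_zero]
    · change Polynomial.aeval (endZ (R := K) σ) (q0 * q1) (X 1) = 0
      rw [map_mul]
      change Polynomial.aeval (endZ (R := K) σ) q0 (Polynomial.aeval (endZ (R := K) σ) q1 (X 1)) = 0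
      rw [h1, map_zero]
  refine ⟨q0 * q1, hq0.mul hq1, ?_⟩
  rw [← Polynomial.aeval_def, Polynomial.aeval_eq_sum_range]
  ext r v
  rw [Matrix.sum_apply]
  have h3 := t05_coeff (h2 v) (Finsupp.single r 1)
  refine Eq.trans ?_ h3
  refine Finset.sum_congr rfl fun i _ => ?_
  rw [← t05_lin_pow hσ, Matrix.smul_apply]
  rfl

/-- Units: if `a` and `b` are integral over `ℤ` and `a * b = 1` in a field with a rational place then
`a = 1` or `a = -1`. Proof: `int_of_isIntegral` (N01). -/
theorem unit_of_integral (hK : RatPlace K) {a b : K} (ha : IsIntegral ℤ a) (hb : IsIntegral ℤ b)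
    (hab : a * b = 1) : a = 1 ∨ a = -1 := by
  obtain ⟨O, ⟨π⟩⟩ := hK
  obtain ⟨m, rfl⟩ := int_of_isIntegral π a ha
  obtain ⟨n, rfl⟩ := int_of_isIntegral π b hb
  have := charZero_of_place π
  have h1 : m * n = 1 := by exact_mod_cast hab
  rcases Int.eq_one_or_neg_one_of_mul_eq_one h1 with h | h
  · left
    rw [h]
    simp
  · right
    rw [h]
    simp

/-- Trace and determinant of an integral matrix over a field are integral.
Proof: over the algebraic closure the eigenvalues are roots of the integral equation, so integral; trace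
and determinant are their sum and product (`Matrix.trace_eq_sum_roots_charpoly`,
`Matrix.det_eq_prod_roots_charpoly`); or look for a lemma in Mathlib. -/
theorem integral_tr_det {M : Matrix (Fin 2) (Fin 2) K} (h : IsIntegral ℤ M) :
    IsIntegral ℤ M.trace ∧ IsIntegral ℤ M.det := by
  obtain ⟨q, hq, h0⟩ := h
  let L := AlgebraicClosure K
  let φ : K →+* L := algebraMap K L
  let N : Matrix (Fin 2) (Fin 2) L := M.map φ
  have hN : Polynomial.aeval N q = 0 := by
    have h1 : N = φ.mapMatrix M := rfl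
    have h2 : Polynomial.aeval N q = φ.mapMatrix (Polynomial.aeval M q) := by
      rw [h1, Polynomial.aeval_def, Polynomial.aeval_def, Polynomial.hom_eval₂]
      congr 1
      exact RingHom.ext_int _ _
    rw [h2, Polynomial.aeval_def, h0, map_zero]
  have hN' : Polynomial.aeval N (q.map (Int.castRingHom L)) = 0 := by
    rw [← hN]
    exact Polynomial.aeval_map_algebraMap L N q
  have hroot : ∀ l ∈ N.charpoly.roots, IsIntegral ℤ l := by
    intro l hl
    have h1 : l ∈ spectrum L N := by
      rw [Matrix.mem_spectrum_iff_isRoot_charpoly]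
      exact (Polynomial.mem_roots'.1 hl).2
    have h2 := spectrum.subset_polynomial_aeval N (q.map (Int.castRingHom L)) ⟨l, h1, rfl⟩
    rw [hN', spectrum.zero_eq] at h2
    refine ⟨q, hq, ?_⟩
    have h3 : Polynomial.eval l (q.map (Int.castRingHom L)) = 0 := h2
    rw [Polynomial.eval_map] at h3
    exact h3
  have hinj : Function.Injective (algebraMap K L) := (algebraMap K L).injective
  constructor
  · have h1 : algebraMap K L M.trace = N.trace := by
      have h2 : N.trace = φ M.trace := by
        rw [Matrix.trace_fin_two, Matrix.trace_fin_two, map_add]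
        rfl
      rw [h2]
    rw [← isIntegral_algebraMap_iff hinj, h1, Matrix.trace_eq_sum_roots_charpoly]
    exact IsIntegral.multiset_sum hroot
  · have h1 : algebraMap K L M.det = N.det := by
      have h2 : N.det = φ M.det := (φ.map_det M).symm
      rw [h2]
    rw [← isIntegral_algebraMap_iff hinj, h1, Matrix.det_eq_prod_roots_charpoly]
    exact IsIntegral.multiset_prod hroot

end Pool.Agent.Lib.MP_c052b4_al.CT
end

section

/-!
# Coherent trees, V01: groups of triangular automorphisms with signs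
-/

set_option autoImplicit false
set_option linter.unusedVariables false
set_option linter.unusedSectionVars false

namespace Pool.Agent.Lib.MP_c052b4_al.CT

open Polynomial
open Pool.Agent.Lib.MP_c052b4_al.JK

universe u

/-- A group of triangular automorphisms `x ↦ α x + p(y)`, `y ↦ β y + e` with signs `α`, `β`, faithful. -/
structure TriData (K : Type u) [Field K] (G : Type u) [Group G] where
  α : G →* ℤˣ
  β : G →* ℤˣ
  e : G → K
  p : G → K[X]
  e_mul : ∀ a b, e (a * b) = ((β b : ℤ) : K) * e a + e b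
  p_mul : ∀ a b, p (a * b) = C ((α b : ℤ) : K) * p a +
    (p b).comp (C ((β a : ℤ) : K) * X + C (e a))
  faithful : ∀ g, α g = 1 → β g = 1 → e g = 0 → p g = 0 → g = 1

/-- The signs. -/
theorem units_cast {K : Type u} [Field K] (ε : ℤˣ) : ((ε : ℤ) : K) = 1 ∨ ((ε : ℤ) : K) = -1 := by
  rcases Int.units_eq_one_or ε with rfl | rfl
  · left; simp
  · right; simp

private theorem v01_coeff_aeval {K : Type u} [Field K] (P : K[X]) :
    MvPolynomial.coeff (Finsupp.single 0 1) (aeval (MvPolynomial.X 1 : A2 K) P) = 0 := by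
  rw [Polynomial.aeval_eq_sum_range, MvPolynomial.coeff_sum]
  refine Finset.sum_eq_zero fun n _ => ?_
  rw [MvPolynomial.coeff_smul, MvPolynomial.coeff_X_pow, if_neg, smul_zero]
  intro h
  have := DFunLike.congr_fun h 0
  simp at this

/-- the diagonal part of a triangular automorphism -/
private theorem v01_dia {K : Type u} [Field K] {σ : AutA K} (h : σ ∈ Tri K) :
    ∃ (a c d : K) (P : K[X]),
      σ (MvPolynomial.X 0) = MvPolynomial.C a * MvPolynomial.X 0 + aeval (MvPolynomial.X 1) P ∧
      σ (MvPolynomial.X 1) = MvPolynomial.C c * MvPolynomial.X 1 + MvPolynomial.C d ∧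
      dia σ = (a, c) := by
  obtain ⟨a, P, ha, h0⟩ := Tri_X0 h
  obtain ⟨c, d, hc, h1⟩ := Tri_X1 h
  refine ⟨a, c, d, P, h0, h1, ?_⟩
  unfold dia
  rw [h0, h1]
  refine Prod.ext ?_ ?_
  · show MvPolynomial.coeff (Finsupp.single 0 1)
      (MvPolynomial.C a * MvPolynomial.X 0 + aeval (MvPolynomial.X 1 : A2 K) P) = a
    rw [MvPolynomial.coeff_add, v01_coeff_aeval, MvPolynomial.coeff_C_mul, MvPolynomial.coeff_X,
      if_pos rfl, mul_one, add_zero]
  · show MvPolynomial.coeff (Finsupp.single 1 1)
      (MvPolynomial.C c * MvPolynomial.X 1 + MvPolynomial.C d : A2 K) = c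
    have hne : ¬ ((0 : Fin 2 →₀ ℕ) = Finsupp.single 1 1) := by
      intro h
      have := DFunLike.congr_fun h 1
      simp at this
    rw [MvPolynomial.coeff_add, MvPolynomial.coeff_C_mul, MvPolynomial.coeff_X, if_pos rfl,
      MvPolynomial.coeff_C, if_neg hne, mul_one, add_zero]

private theorem v01_mul {K : Type u} [Field K] {σ τ : AutA K} {a c d a' c' d' : K} {P P' : K[X]}
    (h0 : σ (MvPolynomial.X 0) = MvPolynomial.C a * MvPolynomial.X 0 + aeval (MvPolynomial.X 1) P)
    (h1 : σ (MvPolynomial.X 1) = MvPolynomial.C c * MvPolynomial.X 1 + MvPolynomial.C d)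
    (h0' : τ (MvPolynomial.X 0) =
      MvPolynomial.C a' * MvPolynomial.X 0 + aeval (MvPolynomial.X 1) P')
    (h1' : τ (MvPolynomial.X 1) = MvPolynomial.C c' * MvPolynomial.X 1 + MvPolynomial.C d') :
    (σ * τ) (MvPolynomial.X 0) = MvPolynomial.C (a * a') * MvPolynomial.X 0 +
      aeval (MvPolynomial.X 1 : A2 K) (C a' * P + P'.comp (C c * X + C d)) ∧
    (σ * τ) (MvPolynomial.X 1) = MvPolynomial.C (c * c') * MvPolynomial.X 1 +
      MvPolynomial.C (c' * d + d') := by
  have hC : ∀ k : K, σ (MvPolynomial.C k) = MvPolynomial.C k := fun k => σ.commutes k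
  constructor
  · show σ (τ (MvPolynomial.X 0)) = _
    rw [h0', map_add, map_mul, hC, h0]
    have e : σ (aeval (MvPolynomial.X 1 : A2 K) P') = aeval (σ (MvPolynomial.X 1)) P' :=
      (Polynomial.aeval_algHom_apply (σ : A2 K →ₐ[K] A2 K) (MvPolynomial.X 1) P').symm
    rw [e, h1]
    rw [map_add, map_mul (aeval (MvPolynomial.X 1 : A2 K)), Polynomial.aeval_comp,
      Polynomial.aeval_C]
    have e2 : aeval (MvPolynomial.X 1 : A2 K) (C c * X + C d)
        = MvPolynomial.C c * MvPolynomial.X 1 + MvPolynomial.C d := by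
      rw [map_add, map_mul, Polynomial.aeval_C, Polynomial.aeval_C, Polynomial.aeval_X]
      rfl
    rw [e2]
    have e3 : (algebraMap K (A2 K)) a' = MvPolynomial.C a' := rfl
    rw [e3, MvPolynomial.C_mul]
    ring
  · show σ (τ (MvPolynomial.X 1)) = _
    rw [h1', map_add, map_mul, hC, hC, h1, MvPolynomial.C_mul, MvPolynomial.C_add,
      MvPolynomial.C_mul]
    ring

/-- the substitution `x ↦ 0` -/
private noncomputable def v01_E (K : Type u) [Field K] : A2 K →ₐ[K] K[X] :=
  MvPolynomial.aeval ![0, X]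

private theorem v01_E0 {K : Type u} [Field K] : v01_E K (MvPolynomial.X 0) = 0 := by
  show MvPolynomial.aeval _ (MvPolynomial.X 0) = _
  rw [MvPolynomial.aeval_X]
  rfl

private theorem v01_E1 {K : Type u} [Field K] : v01_E K (MvPolynomial.X 1) = X := by
  show MvPolynomial.aeval _ (MvPolynomial.X 1) = _
  rw [MvPolynomial.aeval_X]
  rfl

private theorem v01_EC {K : Type u} [Field K] (z : K) : v01_E K (MvPolynomial.C z) = C z := by
  show MvPolynomial.aeval _ (MvPolynomial.C z) = _
  rw [MvPolynomial.aeval_C]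
  rfl

private theorem v01_EP {K : Type u} [Field K] (a : K) (P : K[X]) :
    v01_E K (MvPolynomial.C a * MvPolynomial.X 0 + aeval (MvPolynomial.X 1) P) = P := by
  rw [map_add, map_mul, v01_E0, mul_zero, zero_add]
  have h4 : v01_E K (aeval (MvPolynomial.X 1 : A2 K) P) = aeval (v01_E K (MvPolynomial.X 1)) P :=
    (Polynomial.aeval_algHom_apply (v01_E K) (MvPolynomial.X 1) P).symm
  rw [h4, v01_E1, Polynomial.aeval_X_left_apply]

theorem exists_triData {K : Type u} [Field K] [CharZero K] {G : Type u} [Group G]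
    (r : G →* AutA K) (hr : Function.Injective r) (hT : ∀ g, r g ∈ Tri K)
    (hd : ∀ g, ((dia (r g)).1 = 1 ∨ (dia (r g)).1 = -1) ∧
      ((dia (r g)).2 = 1 ∨ (dia (r g)).2 = -1)) : Nonempty (TriData K G) := by
  classical
  choose a c d P h0 h1 hac using fun g => v01_dia (hT g)
  have hne : (1 : K) ≠ -1 := by
    intro h
    have h2 : (2 : K) = 0 := by linear_combination h
    exact two_ne_zero h2
  have ha : ∀ g, a g = 1 ∨ a g = -1 := fun g => by
    have := (hd g).1
    rwa [hac g] at this
  have hc : ∀ g, c g = 1 ∨ c g = -1 := fun g => by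
    have := (hd g).2
    rwa [hac g] at this
  have hmul : ∀ g h, a (g * h) = a g * a h ∧ c (g * h) = c g * c h := by
    intro g h
    have h2 := dia_mul (r g) (r h) (hT g) (hT h)
    rw [← map_mul, hac, hac, hac] at h2
    exact ⟨congrArg Prod.fst h2, congrArg Prod.snd h2⟩
  have hprod : ∀ g h, P (g * h) = C (a h) * P g + (P h).comp (C (c g) * X + C (d g)) ∧
      d (g * h) = c h * d g + d h := by
    intro g h
    obtain ⟨e0, e1⟩ := v01_mul (h0 g) (h1 g) (h0 h) (h1 h)
    rw [← map_mul, h0] at e0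
    rw [← map_mul, h1] at e1
    constructor
    · have e2 := congrArg (v01_E K) e0
      rwa [v01_EP, v01_EP] at e2
    · have e2 := congrArg (v01_E K) e1
      rw [map_add, map_add, map_mul, map_mul, v01_EC, v01_EC, v01_EC, v01_EC, v01_E1] at e2
      have e3 := congrArg (fun q : K[X] => q.coeff 0) e2
      simpa using e3
  have hsg : ∀ (f : G → K), (∀ g, f g = 1 ∨ f g = -1) → (∀ g h, f (g * h) = f g * f h) →
      ∃ φ : G →* ℤˣ, ∀ g, ((φ g : ℤ) : K) = f g := by
    intro f hf hm
    have h1f : f 1 = 1 := by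
      have h2 := hm 1 1
      rw [mul_one] at h2
      rcases hf 1 with h3 | h3
      · exact h3
      · rw [h3] at h2
        rw [h3, h2]
        ring
    let ψ : G → ℤˣ := fun g => if f g = 1 then 1 else -1
    have hψ : ∀ g, ((ψ g : ℤ) : K) = f g := by
      intro g
      rcases hf g with h3 | h3
      · simp [ψ, h3]
      · simp [ψ, h3, hne.symm]
    have hinj : ∀ x y : ℤˣ, ((x : ℤ) : K) = ((y : ℤ) : K) → x = y := fun x y h =>
      Units.ext (by exact_mod_cast h)
    refine ⟨⟨⟨ψ, ?_⟩, ?_⟩, hψ⟩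
    · apply hinj
      rw [hψ, h1f]
      simp
    · intro g h
      apply hinj
      show ((ψ (g * h) : ℤ) : K) = ((ψ g * ψ h : ℤˣ) : ℤ)
      rw [Units.val_mul, Int.cast_mul, hψ, hψ, hψ, hm]
  obtain ⟨α, hα⟩ := hsg a ha fun g h => (hmul g h).1
  obtain ⟨β, hβ⟩ := hsg c hc fun g h => (hmul g h).2
  refine ⟨⟨α, β, d, P, fun g h => ?_, fun g h => ?_, fun g h2 h3 h4 h5 => ?_⟩⟩
  · rw [hβ]
    exact (hprod g h).2
  · rw [hα, hβ]
    exact (hprod g h).1
  · apply hr
    rw [map_one]
    have h6 : a g = 1 := by rw [← hα, h2]; simp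
    have h7 : c g = 1 := by rw [← hβ, h3]; simp
    refine aut_ext fun v => ?_
    fin_cases v
    · show r g (MvPolynomial.X 0) = MvPolynomial.X 0
      rw [h0, h6, h5, MvPolynomial.C_1, one_mul, map_zero, add_zero]
    · show r g (MvPolynomial.X 1) = MvPolynomial.X 1
      rw [h1, h7, h4, MvPolynomial.C_1, one_mul, MvPolynomial.C_0, add_zero]

end Pool.Agent.Lib.MP_c052b4_al.CT
end
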