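import Pool.Agent.Lib.MP_c052b4_al.Mg.G061
import Pool.Agent.Lib.MP_c052b4_al.Mg.G056
import Pool.Agent.Lib.MP_c052b4_al.Mg.G063
import Pool.Agent.Lib.MP_c052b4_al.CT.X01
import Pool.Agent.Lib.MP_c052b4_al.Mg.G060

section

/-!
# Coherent trees, V02: triangular groups: the elementary cases
-/

set_option autoImplicit false
set_option linter.unusedVariables false
set_option linter.unusedSectionVars false

namespace Pool.Agent.Lib.MP_c052b4_al.CT

open Polynomial
open Pool.Agent.Lib.MP_c052b4_al.JK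

universe u

variable {K : Type u} [Field K] [CharZero K] {G : Type u} [Group G]

/-- Restriction to a subgroup. -/
def TriData.res (D : TriData K G) (S : Subgroup G) : TriData K S where
  α := D.α.comp S.subtype
  β := D.β.comp S.subtype
  e g := D.e g
  p g := D.p g
  e_mul a b := D.e_mul a b
  p_mul a b := D.p_mul a b
  faithful g h1 h2 h3 h4 := Subtype.ext (D.faithful g h1 h2 h3 h4)

/-- Finitely generated values. -/
structure TriData.Fin (D : TriData K G) : Prop where
  e_fin : ∃ Λ : Submodule ℤ K, Λ.FG ∧ ∀ g, D.e g ∈ Λ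
  p_fin : ∃ Λ : Submodule ℤ K[X], Λ.FG ∧ ∀ g, D.p g ∈ Λ

theorem v02_sq (ε : ℤˣ) : ((ε : ℤ) : K) * ((ε : ℤ) : K) = 1 := by
  rcases units_cast (K := K) ε with h | h <;> rw [h] <;> norm_num

theorem v02_ht {R : Type u} [Ring R] [NoZeroDivisors R] [CharZero R] (n : ℕ) (m : R) (hn : 0 < n)
    (h : n • m = 0) : m = 0 := by
  rw [nsmul_eq_mul] at h
  exact (mul_eq_zero.1 h).resolve_left (Nat.cast_ne_zero.2 hn.ne')

/-- Elements which act trivially on `y`. Proof: if `α g = -1` then `g * g` has `α = β = 1`, `e = 0` and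
`p (g * g) = -p g + (p g).comp X = 0`, so `g * g = 1` and `g = 1`, a contradiction to `α g = -1`. -/
theorem TriData.alpha_eq (D : TriData K G) (htf : ∀ g : G, IsOfFinOrder g → g = 1) {g : G}
    (h1 : D.β g = 1) (h2 : D.e g = 0) : D.α g = 1 := by
  rcases Int.units_eq_one_or (D.α g) with h | h
  · exact h
  · exfalso
    have hα : D.α (g * g) = 1 := by
      rw [map_mul, h]
      decide
    have hβ : D.β (g * g) = 1 := by rw [map_mul, h1, one_mul]
    have he : D.e (g * g) = 0 := by
      rw [D.e_mul, h2]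
      simp
    have hp : D.p (g * g) = 0 := by
      rw [D.p_mul, h, h1, h2]
      simp
    have hg := D.faithful _ hα hβ he hp
    have h3 : g = 1 := htf g (isOfFinOrder_iff_pow_eq_one.2 ⟨2, by norm_num, by
      rw [pow_two, hg]⟩)
    rw [h3, map_one] at h
    exact absurd h (by decide)

/-- Where `α = β = 1` and `e = 0` the map `p` is an injective homomorphism. -/
theorem v02_freeAb (D : TriData K G) (hD : D.Fin) (S : Subgroup G)
    (hα : ∀ g ∈ S, D.α g = 1) (hβ : ∀ g ∈ S, D.β g = 1) (he : ∀ g ∈ S, D.e g = 0) :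
    FreeAb S := by
  obtain ⟨Λ, hΛ, hp⟩ := hD.p_fin
  refine freeAb_of_hom (G := S) (M := K[X]) v02_ht
    { toFun := fun g => Multiplicative.ofAdd (D.p g)
      map_one' := ?_
      map_mul' := ?_ } Λ hΛ (fun g => hp g) ?_
  · have h := D.p_mul 1 1
    rw [mul_one, map_one, map_one, he 1 S.one_mem] at h
    simp only [Units.val_one, Int.cast_one, map_one, one_mul, map_zero, add_zero, comp_X] at h
    have h0 : D.p 1 = 0 := left_eq_add.1 h
    change Multiplicative.ofAdd (D.p 1) = 1
    rw [h0]
    rfl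
  · intro a b
    change Multiplicative.ofAdd (D.p ((a : G) * b)) = _
    rw [D.p_mul, hα b b.2, hβ a a.2, he a a.2]
    simp only [Units.val_one, Int.cast_one, map_one, one_mul, map_zero, add_zero, comp_X]
    rfl
  · intro g hg
    have h0 : D.p g = 0 := hg
    exact Subtype.ext (D.faithful g (hα g g.2) (hβ g g.2) (he g g.2) h0)

/-- The case without reflections of `y`.
Proof: `e` is a homomorphism to `(K, +)` with values in `Λ`; on its kernel `α = 1` (`alpha_eq`) and `p` is a
homomorphism to `(K[X], +)` with trivial kernel: `reg_coh_of_two`, `freeAb_of_hom`. -/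
theorem TriData.reg_coh_of_beta (D : TriData K G) (htf : ∀ g : G, IsOfFinOrder g → g = 1)
    (hD : D.Fin) (hβ : ∀ g, D.β g = 1) : RegGroup.{u} G ∧ Coh.{u} G := by
  obtain ⟨Λ, hΛ, he⟩ := hD.e_fin
  have hmul : ∀ a b, D.e (a * b) = D.e a + D.e b := fun a b => by
    rw [D.e_mul, hβ]
    simp
  have hone : D.e 1 = 0 := by
    have h := hmul 1 1
    rw [mul_one] at h
    exact left_eq_add.1 h
  let κ : G →* Multiplicative K :=
    { toFun := fun g => Multiplicative.ofAdd (D.e g)
      map_one' := by rw [hone]; rfl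
      map_mul' := fun a b => by rw [hmul]; rfl }
  have hk : ∀ g ∈ κ.ker, D.e g = 0 := fun g hg => hg
  exact reg_coh_of_two v02_ht κ Λ hΛ he
    (v02_freeAb D hD κ.ker (fun g hg => D.alpha_eq htf (hβ g) (hk g hg)) (fun g _ => hβ g) hk)

/-- The case without translations of `y`.
Proof: if `β g = 1` for all `g` use `reg_coh_of_beta`. Otherwise let `β g₀ = -1` and `α g₀ = a₀`. If
`β g = 1` then `α g = 1` (`alpha_eq`), so `α g = a₀` for all `g` with `β g = -1` (consider `g * g₀`). Let
`I = {i | (-1) ^ i = a₀}`; so `(β g) ^ i = α g` for all `g` and `i ∈ I`. The map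
`κ g = α g • (the part of `p g` with exponents in `I`)` (a polynomial; e.g. `κ g` has the coefficients
`α g * (p g).coeff i` for `i ∈ I` and `0` otherwise) is a homomorphism to `(K[X], +)`: the coefficient of
`p (a b)` at `i` is `α b * (p a).coeff i + (β a) ^ i * (p b).coeff i` since `e a = 0`
(`(p b).comp (C (β a) * X)`, `Polynomial.comp_C_mul_X_coeff`). Its values lie in the image of `Λ` under the
linear map `part`, up to sign (finitely generated). Kernel: let `κ g = 0`. If `β g = -1` then
`p (g * g) = a₀ p g + (p g)(-X)` has the coefficients `(a₀ + (-1) ^ i) (p g).coeff i = 0`, so `g * g = 1`, `g = 1`,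
a contradiction. So `β g = 1`, `α g = 1` on the kernel and `p` is an injective homomorphism there.
`reg_coh_of_two`, `freeAb_of_hom`. -/
theorem TriData.reg_coh_of_e (D : TriData K G) (htf : ∀ g : G, IsOfFinOrder g → g = 1)
    (hD : D.Fin) (he : ∀ g, D.e g = 0) : RegGroup.{u} G ∧ Coh.{u} G := by
  by_cases hβ : ∀ g, D.β g = 1
  · exact D.reg_coh_of_beta htf hD hβ
  push Not at hβ
  obtain ⟨g₀, hg₀⟩ := hβ
  have hg₀' : D.β g₀ = -1 := (Int.units_eq_one_or _).resolve_left hg₀
  have hA1 : ∀ g, D.β g = 1 → D.α g = 1 := fun g hg => D.alpha_eq htf hg (he g)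
  have hA2 : ∀ g, D.β g = -1 → D.α g = D.α g₀ := by
    intro g hg
    have h1 : D.β (g * g₀) = 1 := by
      rw [map_mul, hg, hg₀']
      decide
    have h2 := hA1 _ h1
    rw [map_mul] at h2
    rcases Int.units_eq_one_or (D.α g₀) with h | h
    · rw [h, mul_one] at h2
      rw [h, h2]
    · rw [h] at h2
      rcases Int.units_eq_one_or (D.α g) with h3 | h3
      · rw [h3] at h2
        exact absurd h2 (by decide)
      · rw [h3, h]
  set a₀ : K := ((D.α g₀ : ℤ) : K) with ha₀
  have haa : a₀ * a₀ = 1 := v02_sq _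
  obtain ⟨Λ, hΛ, hp⟩ := hD.p_fin
  -- the part with the parity given by `a₀` (twice)
  let part : K[X] →ₗ[ℤ] K[X] := AddMonoidHom.toIntLinearMap
    { toFun := fun f => f + C a₀ * f.comp (-X)
      map_zero' := by simp
      map_add' := fun f g => by rw [add_comp]; ring }
  have hpart : ∀ f, part f = f + C a₀ * f.comp (-X) := fun f => rfl
  have hCa : (C a₀ : K[X]) * C a₀ = 1 := by rw [← C_mul, haa, C_1]
  have hcc : ∀ f : K[X], (f.comp (-X)).comp (-X) = f := fun f => by
    rw [comp_assoc]
    simp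
  have hpc : ∀ f, (part f).comp (-X) = C a₀ * part f := by
    intro f
    rw [hpart, add_comp, mul_comp, C_comp, hcc, mul_add, ← mul_assoc, hCa]
    ring
  have hpC : ∀ (c : K) (f : K[X]), part (C c * f) = C c * part f := by
    intro c f
    rw [hpart, hpart, mul_comp, C_comp]
    ring
  have hpcomm : ∀ f : K[X], part (f.comp (-X)) = (part f).comp (-X) := by
    intro f
    rw [hpart, hpart, add_comp, mul_comp, C_comp]
  -- the rule for `q g = part (p g)`
  have hcomp : ∀ a (f : K[X]), part (f.comp (C ((D.β a : ℤ) : K) * X + C (D.e a))) =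
      C ((D.α a : ℤ) : K) * part f := by
    intro a f
    rw [he a]
    rcases Int.units_eq_one_or (D.β a) with h | h
    · rw [h, hA1 a h]
      simp
    · rw [h, hA2 a h, ← ha₀]
      have h1 : (C (((-1 : ℤˣ) : ℤ) : K) * X + C 0 : K[X]) = -X := by simp
      rw [h1, hpcomm, hpc]
  have hq : ∀ a b, part (D.p (a * b)) =
      C ((D.α b : ℤ) : K) * part (D.p a) + C ((D.α a : ℤ) : K) * part (D.p b) := by
    intro a b
    rw [D.p_mul, map_add, hpC, hcomp]
  have hsq : ∀ g, (C ((D.α g : ℤ) : K) : K[X]) * C ((D.α g : ℤ) : K) = 1 := fun g => by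
    rw [← C_mul, v02_sq, C_1]
  have hκ : ∀ a b, C ((D.α (a * b) : ℤ) : K) * part (D.p (a * b)) =
      C ((D.α a : ℤ) : K) * part (D.p a) + C ((D.α b : ℤ) : K) * part (D.p b) := by
    intro a b
    rw [hq, map_mul, Units.val_mul, Int.cast_mul, C_mul]
    linear_combination (C ((D.α a : ℤ) : K) * part (D.p a)) * hsq b +
      (C ((D.α b : ℤ) : K) * part (D.p b)) * hsq a
  have hκ1 : C ((D.α 1 : ℤ) : K) * part (D.p 1) = 0 := by
    have h := hκ 1 1
    rw [mul_one] at h
    exact left_eq_add.1 h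
  let κ : G →* Multiplicative K[X] :=
    { toFun := fun g => Multiplicative.ofAdd (C ((D.α g : ℤ) : K) * part (D.p g))
      map_one' := by rw [hκ1]; rfl
      map_mul' := fun a b => by rw [hκ]; rfl }
  have hk : ∀ g ∈ κ.ker, part (D.p g) = 0 := by
    intro g hg
    have h1 : C ((D.α g : ℤ) : K) * part (D.p g) = 0 := hg
    have h2 : C ((D.α g : ℤ) : K) * (C ((D.α g : ℤ) : K) * part (D.p g)) = 0 := by
      rw [h1, mul_zero]
    rwa [← mul_assoc, hsq, one_mul] at h2
  have hkβ : ∀ g ∈ κ.ker, D.β g = 1 := by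
    intro g hg
    rcases Int.units_eq_one_or (D.β g) with h | h
    · exact h
    · exfalso
      have h1 : D.p (g * g) = 0 := by
        have h2 : (C (((-1 : ℤˣ) : ℤ) : K) * X + C 0 : K[X]) = -X := by simp
        have h3 := hk g hg
        rw [hpart] at h3
        rw [D.p_mul, he g, h, hA2 g h, ← ha₀, h2]
        have h4 : C a₀ * (D.p g + C a₀ * (D.p g).comp (-X)) = 0 := by rw [h3, mul_zero]
        rw [mul_add, ← mul_assoc, hCa, one_mul] at h4
        exact h4
      have h5 : D.α (g * g) = 1 := by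
        rw [map_mul]
        rcases Int.units_eq_one_or (D.α g) with h6 | h6 <;> rw [h6] <;> decide
      have h6 : D.β (g * g) = 1 := by
        rw [map_mul, h]
        decide
      have h7 := D.faithful _ h5 h6 (he _) h1
      have h8 : g = 1 := htf g (isOfFinOrder_iff_pow_eq_one.2 ⟨2, by norm_num, by
        rw [pow_two, h7]⟩)
      rw [h8, map_one] at h
      exact absurd h (by decide)
  refine reg_coh_of_two v02_ht κ (Λ.map part) (hΛ.map part) (fun g => ?_)
    (v02_freeAb D hD κ.ker (fun g hg => hA1 g (hkβ g hg)) hkβ (fun g _ => he g))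
  have h1 : part (D.p g) ∈ Λ.map part := Submodule.mem_map_of_mem (hp g)
  change C ((D.α g : ℤ) : K) * part (D.p g) ∈ Λ.map part
  rcases units_cast (K := K) (D.α g) with h | h
  · rw [h, C_1, one_mul]
    exact h1
  · rw [h, C_neg, C_1, neg_one_mul]
    exact Submodule.neg_mem _ h1

end Pool.Agent.Lib.MP_c052b4_al.CT
end

section

/-!
# Coherent trees, V03: triangular groups: finite generation and translations
-/

set_option autoImplicit false
set_option linter.unusedVariables false
set_option linter.unusedSectionVars false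

namespace Pool.Agent.Lib.MP_c052b4_al.CT

open Polynomial
open Pool.Agent.Lib.MP_c052b4_al.JK

universe u

variable {K : Type u} [Field K] [CharZero K] {G : Type u} [Group G]

/-- the substitution as an additive map -/
private noncomputable def v03_sub (q : K[X]) : K[X] →ₐ[ℤ] K[X] := (compRingHom q).toIntAlgHom

private theorem v03_sub_apply (q f : K[X]) : v03_sub q f = f.comp q := rfl

private theorem v03_unit (D : TriData K G) (χ : G →* ℤˣ) (g : G) :
    (((χ g : ℤ) : K) * ((χ g : ℤ) : K)) = 1 := by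
  rcases units_cast (K := K) (χ g) with h | h <;> rw [h] <;> ring

private theorem v03_e_one (D : TriData K G) : D.e 1 = 0 := by
  have h := D.e_mul 1 1
  rw [mul_one, map_one] at h
  simpa using h

private theorem v03_p_one (D : TriData K G) : D.p 1 = 0 := by
  have h := D.p_mul 1 1
  rw [mul_one, map_one, map_one, v03_e_one] at h
  simpa using h

private theorem v03_e_inv (D : TriData K G) (g : G) : D.e g⁻¹ = -(((D.β g : ℤ) : K) * D.e g) := by
  have h := D.e_mul g⁻¹ g
  rw [inv_mul_cancel, v03_e_one] at h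
  have h1 := v03_unit D D.β g
  linear_combination (-((D.β g : ℤ) : K)) * h - D.e g⁻¹ * h1

/-- a polynomial lies in a finitely generated submodule which is stable under the substitutions -/
private theorem v03_stab (Λ : Submodule ℤ K) (hΛ : Λ.FG) (f : K[X]) :
    ∃ L : Submodule ℤ K[X], L.FG ∧ f ∈ L ∧ ∀ (ε : ℤˣ) (d : K), d ∈ Λ → ∀ x ∈ L,
      x.comp (C ((ε : ℤ) : K) * X + C d) ∈ L := by
  induction f using Polynomial.induction_on' with
  | add f g hf hg =>
    obtain ⟨L, h1, h2, h3⟩ := hf
    obtain ⟨L', h1', h2', h3'⟩ := hg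
    refine ⟨L ⊔ L', h1.sup h1', Submodule.add_mem_sup h2 h2', fun ε d hd x hx => ?_⟩
    obtain ⟨a, ha, b, hb, rfl⟩ := Submodule.mem_sup.1 hx
    rw [add_comp]
    exact Submodule.add_mem_sup (h3 ε d hd a ha) (h3' ε d hd b hb)
  | monomial n c =>
    obtain ⟨S, hS, rfl⟩ := Submodule.fg_def.1 hΛ
    obtain ⟨hS, hspan⟩ := (⟨hS, trivial⟩ : S.Finite ∧ True)
    set M : Submodule ℤ K[X] := Submodule.span ℤ ({1, X} ∪ (fun x => C x) '' S) with hM
    have hMfg : M.FG := Submodule.fg_span (((Set.finite_singleton X).insert 1).union (hS.image _))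
    have hC : ∀ d ∈ Submodule.span ℤ S, C d ∈ M := by
      intro d hd
      refine Submodule.span_induction (p := fun d _ => C d ∈ M) ?_ ?_ ?_ ?_ hd
      · intro x hx
        exact Submodule.subset_span (Or.inr ⟨x, hx, rfl⟩)
      · rw [C_0]
        exact M.zero_mem
      · intro x y _ _ hx hy
        rw [C_add]
        exact M.add_mem hx hy
      · intro k x _ hx
        have : C (k • x) = k • C x := map_zsmul (C : K →+* K[X]) k x
        rw [this]
        exact M.smul_mem k hx
    have hst : ∀ (ε : ℤˣ) (d : K), d ∈ Submodule.span ℤ S →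
        M.map (v03_sub (C ((ε : ℤ) : K) * X + C d)).toLinearMap ≤ M := by
      intro ε d hd
      rw [hM, Submodule.map_span, Submodule.span_le, ← hM]
      rintro _ ⟨x, hx, rfl⟩
      change x.comp (C ((ε : ℤ) : K) * X + C d) ∈ M
      rcases hx with (rfl | rfl) | ⟨y, hy, rfl⟩
      · rw [one_comp]
        exact Submodule.subset_span (Or.inl (Or.inl rfl))
      · rw [X_comp]
        refine M.add_mem ?_ (hC d hd)
        have h1 : C ((ε : ℤ) : K) * (X : K[X]) = (ε : ℤ) • X := by
          rw [zsmul_eq_mul]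
          congr 1
        rw [h1]
        exact M.smul_mem _ (Submodule.subset_span (Or.inl (Or.inr rfl)))
      · change (C y).comp _ ∈ M
        rw [C_comp]
        exact Submodule.subset_span (Or.inr ⟨y, hy, rfl⟩)
    refine ⟨(M ^ n).map (LinearMap.mulLeft ℤ (C c)), (hMfg.pow n).map _, ?_, ?_⟩
    · refine ⟨X ^ n, Submodule.pow_mem_pow M
        (Submodule.subset_span (Or.inl (Or.inr rfl))) n, ?_⟩
      change C c * X ^ n = monomial n c
      exact C_mul_X_pow_eq_monomial
    · rintro ε d hd _ ⟨y, hy, rfl⟩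
      change (C c * y).comp _ ∈ _
      rw [mul_comp, C_comp]
      refine ⟨y.comp (C ((ε : ℤ) : K) * X + C d), ?_, rfl⟩
      have h1 : (M ^ n).map (v03_sub (C ((ε : ℤ) : K) * X + C d)).toLinearMap ≤ M ^ n := by
        rw [Submodule.map_pow]
        exact pow_le_pow_left' (hst ε d hd) n
      exact h1 ⟨y, hy, rfl⟩

private theorem v03_common (Λ : Submodule ℤ K) (hΛ : Λ.FG) {ι : Type u} (f : ι → K[X])
    (T : Set ι) (hT : T.Finite) :
    ∃ L : Submodule ℤ K[X], L.FG ∧ (∀ g ∈ T, f g ∈ L) ∧ ∀ (ε : ℤˣ) (d : K), d ∈ Λ → ∀ x ∈ L,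
      x.comp (C ((ε : ℤ) : K) * X + C d) ∈ L := by
  induction T, hT using Set.Finite.induction_on with
  | empty =>
    refine ⟨⊥, Submodule.fg_bot, fun g hg => hg.elim, fun ε d hd x hx => ?_⟩
    rw [Submodule.mem_bot] at hx ⊢
    rw [hx, zero_comp]
  | insert _ _ ih =>
    rename_i g T _ _
    obtain ⟨L, h1, h2, h3⟩ := ih
    obtain ⟨L', h1', h2', h3'⟩ := v03_stab Λ hΛ (f g)
    refine ⟨L ⊔ L', h1.sup h1', ?_, fun ε d hd x hx => ?_⟩
    · rintro x (rfl | hx)
      · exact Submodule.mem_sup_right h2'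
      · exact Submodule.mem_sup_left (h2 x hx)
    · obtain ⟨a, ha, b, hb, rfl⟩ := Submodule.mem_sup.1 hx
      rw [add_comp]
      exact Submodule.add_mem_sup (h3 ε d hd a ha) (h3' ε d hd b hb)

/-- **Finitely generated groups have finitely generated values.**
Proof: let `T` be a finite generating set. `Λ` = the `ℤ`-span of `e g`, `g ∈ T`: closed under the group
operations by `e_mul` (`e 1 = 0`, `e g⁻¹ = - β g * e g`), so `e g ∈ Λ` for all `g`
(`Subgroup.closure_induction`). Let `M = span {1, X} ⊔ Λ.map C` (a finitely generated submodule of `K[X]`); for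
`f ∈ M`, `ε = ±1` and `d ∈ Λ` also `f.comp (C ε * X + C d) ∈ M`, and the same holds for `M ^ k`
(`Submodule.pow_induction_on_left'`, `comp` is multiplicative) and for `C c • M ^ k` (the image under the
multiplication with a constant). `X ^ k ∈ M ^ k`. Let `Λ'` be the supremum of `C ((p g).coeff i) • M ^ i` for
`g ∈ T`, `i ≤ natDegree (p g)`: finitely generated, stable under these substitutions, and `p g ∈ Λ'` for
`g ∈ T`. By `p_mul` the set of all `g` with `p g ∈ Λ'` is a subgroup (`p 1 = 0`;
`0 = p (g * g⁻¹) = C (α g⁻¹) * p g + (p g⁻¹).comp (C (β g) * X + C (e g))`, so `p g⁻¹` is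
`- C (α g⁻¹) * p g` composed with the inverse substitution `C (β g) * X - C (β g * e g)`). -/
theorem TriData.fin_of_fg (D : TriData K G) (hG : Group.FG G) : D.Fin := by
  obtain ⟨T, hT, hTf⟩ := Group.fg_iff.1 hG
  set Λ : Submodule ℤ K := Submodule.span ℤ (D.e '' T) with hΛdef
  have hΛ : Λ.FG := Submodule.fg_span (hTf.image _)
  have hmul : ∀ (ε : ℤˣ) (x : K), x ∈ Λ → ((ε : ℤ) : K) * x ∈ Λ := by
    intro ε x hx
    rw [← zsmul_eq_mul]
    exact Λ.smul_mem _ hx
  have he : ∀ g, D.e g ∈ Λ := by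
    intro g
    have hg : g ∈ Subgroup.closure T := by rw [hT]; trivial
    induction hg using Subgroup.closure_induction with
    | mem x hx => exact Submodule.subset_span ⟨x, hx, rfl⟩
    | one => rw [v03_e_one]; exact Λ.zero_mem
    | mul x y _ _ hx hy =>
      rw [D.e_mul]
      exact Λ.add_mem (hmul _ _ hx) hy
    | inv x _ hx =>
      rw [v03_e_inv]
      exact Λ.neg_mem (hmul _ _ hx)
  obtain ⟨L, hL, hLT, hst⟩ := v03_common Λ hΛ D.p T hTf
  have hmulL : ∀ (ε : ℤˣ) (x : K[X]), x ∈ L → C ((ε : ℤ) : K) * x ∈ L := by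
    intro ε x hx
    have h1 : C ((ε : ℤ) : K) * x = (ε : ℤ) • x := by
      rw [zsmul_eq_mul]
      congr 1
    rw [h1]
    exact L.smul_mem _ hx
  refine ⟨⟨Λ, hΛ, he⟩, ⟨L, hL, fun g => ?_⟩⟩
  have hg : g ∈ Subgroup.closure T := by rw [hT]; trivial
  induction hg using Subgroup.closure_induction with
  | mem x hx => exact hLT x hx
  | one => rw [v03_p_one]; exact L.zero_mem
  | mul x y _ _ hx hy =>
    rw [D.p_mul]
    exact L.add_mem (hmulL _ _ hx) (hst _ _ (he x) _ hy)
  | inv x _ hx =>
    have h := D.p_mul x⁻¹ x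
    rw [inv_mul_cancel, v03_p_one] at h
    have h1 : C ((D.α x : ℤ) : K) * D.p x⁻¹ ∈ L := by
      have h2 : C ((D.α x : ℤ) : K) * D.p x⁻¹
          = -((D.p x).comp (C ((D.β x⁻¹ : ℤ) : K) * X + C (D.e x⁻¹))) := by
        linear_combination -h
      rw [h2]
      exact L.neg_mem (hst _ _ (he _) _ hx)
    have h3 : D.p x⁻¹ = C ((D.α x : ℤ) : K) * (C ((D.α x : ℤ) : K) * D.p x⁻¹) := by
      rw [← mul_assoc, ← C_mul, v03_unit D D.α x, C_1, one_mul]
    rw [h3]
    exact hmulL _ _ h1

/-- Change of the coordinate `y`: `e' g = e g + (β g - 1) t`, `p' g = (p g)(X + t)`.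
Proof of the rules: `ring` and `Polynomial.comp_assoc`. -/
theorem TriData.exists_shift (D : TriData K G) (t : K) : ∃ D' : TriData K G,
    D'.β = D.β ∧ (∀ g, D'.e g = D.e g + (((D.β g : ℤ) : K) - 1) * t) ∧
      ∀ g, D'.p g = (D.p g).comp (X + C t) := by
  refine ⟨{
    α := D.α
    β := D.β
    e := fun g => D.e g + (((D.β g : ℤ) : K) - 1) * t
    p := fun g => (D.p g).comp (X + C t)
    e_mul := fun a b => ?_
    p_mul := fun a b => ?_
    faithful := fun g h1 h2 h3 h4 => ?_ }, rfl, fun _ => rfl, fun _ => rfl⟩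
  · rw [D.e_mul, map_mul]
    push_cast
    ring
  · rw [D.p_mul, add_comp, mul_comp, C_comp, comp_assoc, comp_assoc]
    congr 2
    simp only [add_comp, mul_comp, C_comp, X_comp, C_add, C_mul, C_sub, C_1]
    ring
  · have h5 : D.e g = 0 := by
      rw [h2] at h3
      simpa using h3
    have h6 : D.p g = 0 := by
      have h7 : (D.p g).comp (X + C t) = 0 := h4
      have h8 : ((D.p g).comp (X + C t)).comp (X - C t) = D.p g := by
        rw [comp_assoc]
        simp
      rw [← h8, h7, zero_comp]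
    exact D.faithful g h1 h2 h5 h6

/-- Proof: the image of a finitely generated submodule under the additive map
`f ↦ f.comp (X + C t)` is finitely generated. -/
theorem TriData.shift_fin (D D' : TriData K G) (t : K)
    (h : ∀ g, D'.p g = (D.p g).comp (X + C t))
    (hD : ∃ Λ : Submodule ℤ K[X], Λ.FG ∧ ∀ g, D.p g ∈ Λ) :
    ∃ Λ : Submodule ℤ K[X], Λ.FG ∧ ∀ g, D'.p g ∈ Λ := by
  obtain ⟨Λ, h1, h2⟩ := hD
  refine ⟨Λ.map (v03_sub (X + C t)).toLinearMap, h1.map _, fun g => ?_⟩
  rw [h g]
  exact ⟨D.p g, h2 g, rfl⟩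

end Pool.Agent.Lib.MP_c052b4_al.CT
end

section

/-!
# Coherent trees, V04: triangular groups
-/

set_option autoImplicit false
set_option linter.unusedVariables false
set_option linter.unusedSectionVars false

namespace Pool.Agent.Lib.MP_c052b4_al.CT

open Polynomial
open Pool.Agent.Lib.MP_c052b4_al.JK

universe u

variable {K : Type u} [Field K] [CharZero K]

private theorem v04_htf {G : Type u} [Group G] (htf : ∀ g : G, IsOfFinOrder g → g = 1)
    (S : Subgroup G) : ∀ g : S, IsOfFinOrder g → g = 1 := fun g hg =>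
  Subtype.ext (htf g (S.subtype.isOfFinOrder hg))

private theorem v04_mem {n : ℕ} {b : Fin (n + 1) → K} (hb : LinearIndependent ℤ b) {x : K}
    (hx : x ∈ Submodule.span ℤ (Set.range b))
    (h0 : (Module.Basis.span hb).repr ⟨x, hx⟩ 0 = 0) :
    x ∈ Submodule.span ℤ (Set.range (b ∘ Fin.succ)) := by
  have h1 := congrArg Subtype.val ((Module.Basis.span hb).sum_repr ⟨x, hx⟩)
  rw [Fin.sum_univ_succ, h0, zero_smul, zero_add, AddSubmonoidClass.coe_finsetSum] at h1
  have h2 : x = ∑ i : Fin n, (((Module.Basis.span hb).repr ⟨x, hx⟩ i.succ •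
      (Module.Basis.span hb) i.succ : Submodule.span ℤ (Set.range b)) : K) := h1.symm
  rw [h2]
  refine Submodule.sum_mem _ fun i _ => ?_
  rw [Submodule.coe_smul, Module.Basis.span_apply]
  exact Submodule.smul_mem _ _ (Submodule.subset_span ⟨i, rfl⟩)

/-- **The induction on the rank of the translations.** `b` is linearly independent over `ℤ`.
Proof. `n = 0`: all `e g` are zero: `reg_coh_of_e`. `n + 1`: for `x ∈ span (range b)` let `c₀ x : ℤ` be the
coefficient of `b 0` (linear independence over `ℤ`: `LinearIndependent.repr`, or `Basis.span`), and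
`u g = c₀ (e g)`; `u (a b) = β b * u a + u b` by `e_mul`. Apply `coh_of_dihedral D.β u`:
* `h2`: `S` with `β = 1` on `S`: `reg_coh_of_beta` for `D.res S`.
* `h1`: `S`, `m` with `β g (m + 2 u g) = m` for `g ∈ S`. If `β = 1` on `S`: `reg_coh_of_beta`. Otherwise let
`g₀ ∈ S`, `β g₀ = -1`, `t = e g₀ / 2`. For `g ∈ S`: if `β g = 1` then `u g = 0`, if `β g = -1` then `u g = -m`.
The shifted data `D'` of `D.res S` (`exists_shift`) has `e' g = e g` or `e g - e g₀`, so the coefficient of
`b 0` of `e' g` is zero, and `e' g ∈ span (range (b ∘ Fin.succ))`: induction (`Fin.succ` keeps linear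
independence), with `shift_fin`. -/
theorem coh_triData_aux (n : ℕ) : ∀ (G : Type u) [Group G] (_ : ∀ g : G, IsOfFinOrder g → g = 1)
    (D : TriData K G) (b : Fin n → K) (_ : LinearIndependent ℤ b)
    (_ : ∀ g, D.e g ∈ Submodule.span ℤ (Set.range b))
    (_ : ∃ Λ : Submodule ℤ K[X], Λ.FG ∧ ∀ g, D.p g ∈ Λ), Coh.{u} G := by
  induction n with
  | zero =>
    intro G _ htf D b hb he hp
    refine (D.reg_coh_of_e htf ⟨⟨_, Submodule.fg_span (Set.finite_range b), he⟩, hp⟩ fun g => ?_).2
    have h1 := he g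
    rw [Set.range_eq_empty, Submodule.span_empty, Submodule.mem_bot] at h1
    exact h1
  | succ n ih =>
    intro G _ htf D b hb he hp
    have hfin : ∀ S : Subgroup G, (D.res S).Fin := fun S =>
      ⟨⟨_, Submodule.fg_span (Set.finite_range b), fun g => he g⟩,
        ⟨hp.choose, hp.choose_spec.1, fun g => hp.choose_spec.2 g⟩⟩
    let B := Module.Basis.span hb
    let u : G → ℤ := fun g => B.repr ⟨D.e g, he g⟩ 0
    have hsub : ∀ x y (hx : x ∈ Submodule.span ℤ (Set.range b))
        (hy : y ∈ Submodule.span ℤ (Set.range b))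
        (hxy : x - y ∈ Submodule.span ℤ (Set.range b)),
        B.repr ⟨x - y, hxy⟩ 0 = B.repr ⟨x, hx⟩ 0 - B.repr ⟨y, hy⟩ 0 := by
      intro x y hx hy hxy
      have h1 : (⟨x - y, hxy⟩ : Submodule.span ℤ (Set.range b)) = ⟨x, hx⟩ - ⟨y, hy⟩ := rfl
      rw [h1, map_sub, Finsupp.sub_apply]
    refine coh_of_dihedral D.β u (fun x y => ?_) (fun S m hS => ?_) fun S hS => ?_
    · have h1 : (⟨D.e (x * y), he (x * y)⟩ : Submodule.span ℤ (Set.range b))
          = (D.β y : ℤ) • ⟨D.e x, he x⟩ + ⟨D.e y, he y⟩ := by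
        apply Subtype.ext
        change D.e (x * y) = (D.β y : ℤ) • D.e x + D.e y
        rw [D.e_mul, zsmul_eq_mul]
      change B.repr ⟨D.e (x * y), he (x * y)⟩ 0 = _
      rw [h1, map_add, map_smul, Finsupp.add_apply, Finsupp.smul_apply, smul_eq_mul]
    · by_cases hβ : ∀ g ∈ S, D.β g = 1
      · exact ((D.res S).reg_coh_of_beta (v04_htf htf S) (hfin S) fun g => hβ g g.2).2
      · push Not at hβ
        obtain ⟨g₀, hg₀, hβ₀⟩ := hβ
        have hβ₀' : D.β g₀ = -1 := (Int.units_eq_one_or _).resolve_left hβ₀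
        have hneg : ∀ g ∈ S, D.β g = -1 → u g = -m := by
          intro g hg h1
          have h2 := hS g hg
          rw [h1] at h2
          simp only [Units.val_neg, Units.val_one] at h2
          omega
        have hpos : ∀ g ∈ S, D.β g = 1 → u g = 0 := by
          intro g hg h1
          have h2 := hS g hg
          rw [h1] at h2
          simp only [Units.val_one] at h2
          omega
        obtain ⟨D', h1, h2, h3⟩ := (D.res S).exists_shift (D.e g₀ / 2)
        have hli : LinearIndependent ℤ (b ∘ Fin.succ) := hb.comp _ (Fin.succ_injective n)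
        refine ih S (v04_htf htf S) D' (b ∘ Fin.succ) hli (fun g => ?_)
          ((D.res S).shift_fin D' _ h3 (hfin S).p_fin)
        rw [h2 g]
        rcases Int.units_eq_one_or (D.β g) with h4 | h4
        · have h5 : (D.res S).e g + ((((D.res S).β g : ℤ) : K) - 1) * (D.e g₀ / 2) = D.e g := by
            change D.e g + (((D.β g : ℤ) : K) - 1) * (D.e g₀ / 2) = D.e g
            rw [h4]
            simp
          rw [h5]
          exact v04_mem hb (he g) (hpos g g.2 h4)
        · have h5 : (D.res S).e g + ((((D.res S).β g : ℤ) : K) - 1) * (D.e g₀ / 2)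
              = D.e g - D.e g₀ := by
            change D.e g + (((D.β g : ℤ) : K) - 1) * (D.e g₀ / 2) = D.e g - D.e g₀
            rw [h4]
            simp only [Units.val_neg, Units.val_one, Int.cast_neg, Int.cast_one]
            field_simp
            ring
          rw [h5]
          have hmem : D.e (g : G) - D.e g₀ ∈ Submodule.span ℤ (Set.range b) :=
            Submodule.sub_mem _ (he g) (he g₀)
          refine v04_mem hb hmem ?_
          have h6 := hsub (D.e g) (D.e g₀) (he g) (he g₀) hmem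
          refine h6.trans ?_
          have h7 : B.repr ⟨D.e (g : G), he g⟩ 0 = -m := hneg g g.2 h4
          have h8 : B.repr ⟨D.e g₀, he g₀⟩ 0 = -m := hneg g₀ hg₀ hβ₀'
          rw [h7, h8, sub_self]
    · exact ((D.res S).reg_coh_of_beta (v04_htf htf S) (hfin S) fun g => (hS g g.2).1).1

/-- **Torsionfree groups of triangular automorphisms with signs.**
Proof: `TriData.fin_of_fg`; the finitely generated submodule `Λ` of `K` is torsionfree, so it is free with a
basis `b` of `n` elements (`Module.finBasis`), linearly independent over `ℤ` in `K` with span `Λ`;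
`coh_triData_aux`. -/
theorem coh_of_triData {G : Type u} [Group G] (hG : Group.FG G)
    (htf : ∀ g : G, IsOfFinOrder g → g = 1) (D : TriData K G) : Coh.{u} G := by
  obtain ⟨⟨Λ, hΛ, he⟩, hp⟩ := D.fin_of_fg hG
  have h2 : Module.Finite ℤ Λ := Module.Finite.iff_fg.2 hΛ
  let B := Module.finBasis ℤ Λ
  have hli : LinearIndependent ℤ (fun i => (B i : K)) :=
    B.linearIndependent.map' Λ.subtype (Submodule.ker_subtype Λ)
  refine coh_triData_aux _ G htf D (fun i => (B i : K)) hli (fun g => ?_) hp
  have h1 := congrArg Subtype.val (B.sum_repr ⟨D.e g, he g⟩)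
  rw [AddSubmonoidClass.coe_finsetSum] at h1
  have h3 : D.e g = ∑ i, ((B.repr ⟨D.e g, he g⟩ i • B i : Λ) : K) := h1.symm
  rw [h3]
  exact Submodule.sum_mem _ fun i _ => Submodule.smul_mem _ _ (Submodule.subset_span ⟨i, rfl⟩)

end Pool.Agent.Lib.MP_c052b4_al.CT
end

section

/-!
# Coherent trees, X02: affine groups: the stabilizers
-/

set_option autoImplicit false
set_option linter.unusedVariables false
set_option linter.unusedSectionVars false

namespace Pool.Agent.Lib.MP_c052b4_al.CT

open Matrix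
open Pool.Agent.Lib.MP_c052b4_al.JK

universe u

variable {K : Type u} [Field K] [CharZero K] {G : Type u} [Group G]

private theorem x02_w_one (D : AffData K G) : D.w 1 = 0 := by
  have h := D.w_mul 1 1
  rw [mul_one, map_one, Units.val_one, Matrix.vecMul_one] at h
  exact left_eq_add.1 h

private theorem x02_w_pow (D : AffData K G) (g : G) (n : ℕ) :
    D.w (g ^ n) = D.w g ᵥ* (∑ i ∈ Finset.range n, (D.L g : Matrix (Fin 2) (Fin 2) K) ^ i) := by
  induction n with
  | zero => rw [pow_zero, x02_w_one, Finset.sum_range_zero, Matrix.vecMul_zero]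
  | succ n ih =>
    rw [pow_succ', D.w_mul, ih, Finset.sum_range_succ, Matrix.vecMul_add, map_pow, Units.val_pow_eq_pow_val,
      add_comm]

private theorem x02_torsion (n : ℕ) (m : Fin 2 → K) (hn : 0 < n) (h : n • m = 0) : m = 0 := by
  funext i
  have h1 := congrFun h i
  rw [Pi.smul_apply, nsmul_eq_mul, Pi.zero_apply] at h1
  rcases mul_eq_zero.1 h1 with h2 | h2
  · exact absurd (Nat.cast_eq_zero.1 h2) hn.ne'
  · exact h2

/-- Elements with a fixed point: if `L g` has finite order and `L g - 1` is invertible then `g` has finite order.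
Proof: `w (g ^ n) = w g ᵥ* ∑ i < n, L g ^ i` (induction with `w_mul`). If `L g ^ n = 1`, `n > 0`, then
`(∑ i < n, M ^ i) * (M - 1) = M ^ n - 1 = 0` (`geom_sum_mul`), so the sum is zero, `w (g ^ n) = 0`,
`L (g ^ n) = 1` and `g ^ n = 1`. -/
theorem AffData.finOrder (D : AffData K G) {g : G} (h1 : IsOfFinOrder (D.L g))
    (h2 : ((D.L g : Matrix (Fin 2) (Fin 2) K) - 1).det ≠ 0) : IsOfFinOrder g := by
  obtain ⟨n, hn, h3⟩ := isOfFinOrder_iff_pow_eq_one.1 h1
  refine isOfFinOrder_iff_pow_eq_one.2 ⟨n, hn, ?_⟩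
  have h4 : (D.L g : Matrix (Fin 2) (Fin 2) K) ^ n = 1 := by
    rw [← Units.val_pow_eq_pow_val, h3, Units.val_one]
  have h5 := geom_sum_mul (D.L g : Matrix (Fin 2) (Fin 2) K) n
  rw [h4, sub_self] at h5
  have h6 : IsUnit ((D.L g : Matrix (Fin 2) (Fin 2) K) - 1) :=
    (Matrix.isUnit_iff_isUnit_det _).2 (isUnit_iff_ne_zero.2 h2)
  have h7 : (∑ i ∈ Finset.range n, (D.L g : Matrix (Fin 2) (Fin 2) K) ^ i) = 0 :=
    (h6.mul_left_eq_zero).1 h5
  refine D.faithful _ ?_ ?_
  · rw [map_pow, h3]
  · rw [x02_w_pow, h7, Matrix.vecMul_zero]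

private theorem x02_unip (M : Matrix (Fin 2) (Fin 2) K) (h1 : M.det = 1) (h2 : (M - 1).det = 0)
    (n : ℕ) (hn : 0 < n) (h : M ^ n = 1) : M = 1 := by
  have hd : M 0 0 * M 1 1 - M 0 1 * M 1 0 = 1 := by rw [← h1, Matrix.det_fin_two]
  have ht : M 0 0 + M 1 1 = 2 := by
    rw [Matrix.det_fin_two] at h2
    simp only [Matrix.sub_apply, Matrix.one_apply_eq, Matrix.one_apply_ne (by decide : (0 : Fin 2) ≠ 1),
      Matrix.one_apply_ne (by decide : (1 : Fin 2) ≠ 0)] at h2
    linear_combination hd - h2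
  have hN : (M - 1) * (M - 1) = 0 := by
    ext i j
    rw [Matrix.mul_apply, Fin.sum_univ_two]
    fin_cases i <;> fin_cases j <;>
      simp
    · linear_combination (M 0 0) * ht - hd
    · linear_combination (M 0 1) * ht
    · linear_combination (M 1 0) * ht
    · linear_combination (M 1 1) * ht - hd
  have hpow : ∀ m : ℕ, M ^ m = 1 + m • (M - 1) := by
    intro m
    induction m with
    | zero => rw [pow_zero, zero_smul, add_zero]
    | succ m ih =>
      have e : M = 1 + (M - 1) := by abel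
      calc M ^ (m + 1) = M ^ m * M := pow_succ _ _
        _ = (1 + m • (M - 1)) * (1 + (M - 1)) := by rw [ih, ← e]
        _ = 1 + (M - 1) + m • (M - 1) + m • ((M - 1) * (M - 1)) := by
            rw [add_mul, one_mul, mul_add, mul_one, smul_mul_assoc]
            abel
        _ = 1 + (m + 1) • (M - 1) := by
            rw [hN, smul_zero, add_smul, one_smul]
            abel
  have h3 := hpow n
  rw [h, left_eq_add] at h3
  rw [← sub_eq_zero]
  ext i j
  have h4 := congrFun (congrFun h3 i) j
  rw [Matrix.smul_apply, nsmul_eq_mul, Matrix.zero_apply] at h4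
  exact (mul_eq_zero.1 h4).resolve_left (Nat.cast_ne_zero.2 hn.ne')

/-- Proof: `finOrder` and torsionfreeness: if `L g = 1` fine; otherwise `g ≠ 1`, so `det (L g - 1) = 0`, that is
`1 - tr + det = 0`. If `det = 1` then `tr = 2`, so `N = L g - 1` has `N ^ 2 = 0` (Cayley-Hamilton), and
`L g ^ n = 1 + n N = 1` gives `N = 0` (`CharZero`), a contradiction. So `det = -1`. -/
theorem AffData.det_of_finOrder (D : AffData K G) (htf : ∀ g : G, IsOfFinOrder g → g = 1) {g : G}
    (h1 : IsOfFinOrder (D.L g)) (hdet : (D.L g : Matrix (Fin 2) (Fin 2) K).det = 1 ∨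
      (D.L g : Matrix (Fin 2) (Fin 2) K).det = -1) :
    D.L g = 1 ∨ (D.L g : Matrix (Fin 2) (Fin 2) K).det = -1 := by
  rcases hdet with hd | hd
  swap
  · exact Or.inr hd
  left
  by_cases h2 : ((D.L g : Matrix (Fin 2) (Fin 2) K) - 1).det = 0
  · obtain ⟨n, hn, h3⟩ := isOfFinOrder_iff_pow_eq_one.1 h1
    have h4 : (D.L g : Matrix (Fin 2) (Fin 2) K) ^ n = 1 := by
      rw [← Units.val_pow_eq_pow_val, h3, Units.val_one]
    ext1
    exact x02_unip _ hd h2 n hn h4
  · rw [htf g (D.finOrder h1 h2), map_one]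

private theorem x02_one_of_det (D : AffData K G) (htf : ∀ g : G, IsOfFinOrder g → g = 1)
    (hfin : ∀ g, IsOfFinOrder (D.L g)) (g : G) (h : (D.L g : Matrix (Fin 2) (Fin 2) K).det = 1) :
    D.L g = 1 := by
  rcases D.det_of_finOrder htf (hfin g) (Or.inl h) with h1 | h1
  · exact h1
  · exfalso
    rw [h1] at h
    have h2 : (2 : K) = 0 := by linear_combination -h
    exact two_ne_zero h2

/-- The translation part as a homomorphism on a subgroup with trivial linear parts. -/
private theorem x02_freeAb (D : AffData K G) (S : Subgroup G) (hS : ∀ g ∈ S, D.L g = 1)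
    (W : Submodule ℤ (Fin 2 → K)) (hW : W.FG) (hw : ∀ g, D.w g ∈ W) : FreeAb S := by
  let κ : S →* Multiplicative (Fin 2 → K) :=
    { toFun := fun g => Multiplicative.ofAdd (D.w g)
      map_one' := by
        change Multiplicative.ofAdd (D.w 1) = 1
        rw [x02_w_one]
        rfl
      map_mul' := fun a b => by
        change Multiplicative.ofAdd (D.w (a * b : G)) = _
        rw [D.w_mul, hS b b.2, Units.val_one, Matrix.vecMul_one]
        rfl }
  refine freeAb_of_hom (x02_torsion (K := K)) κ W hW (fun g => hw g) fun g hg => ?_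
  have h1 : D.w g = 0 := hg
  exact Subtype.ext (D.faithful _ (hS g g.2) h1)

/-- **Groups whose linear parts have finite order.**
Proof: if `g`, `h` have determinant `-1` then `g h` has determinant `1`, so `L (g h) = 1` by
`det_of_finOrder`; in particular `L g * L g = 1` and `L g = L h`. If all `L g = 1`: `w` is an injective
homomorphism to `(Fin 2 → K, +)`: `freeAb_of_hom`, `FreeAb.reg_coh`. Otherwise let `ρ = L g₀` with
determinant `-1`; all `L g` are `1` or `ρ`, `ρ * ρ = 1`. `κ g = w g + w g ᵥ* ρ` is a homomorphism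
(`(1 + ρ)` absorbs `L b`), with values in `𝒲 ⊔ 𝒲.map (ᵥ* ρ)`, finitely generated. On its kernel `L g = 1`: if
`L g = ρ` then `w (g * g) = w g ᵥ* ρ + w g = 0` and `L (g * g) = 1`, so `g * g = 1`, `g = 1`, contradiction. So
`w` is an injective homomorphism on the kernel. `reg_coh_of_two`. -/
theorem AffData.reg_coh (D : AffData K G) (htf : ∀ g : G, IsOfFinOrder g → g = 1)
    (hfin : ∀ g, IsOfFinOrder (D.L g))
    (hdet : ∀ g, (D.L g : Matrix (Fin 2) (Fin 2) K).det = 1 ∨
      (D.L g : Matrix (Fin 2) (Fin 2) K).det = -1)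
    (W : Submodule ℤ (Fin 2 → K)) (hW : W.FG) (hw : ∀ g, D.w g ∈ W) :
    RegGroup.{u} G ∧ Coh.{u} G := by
  by_cases hall : ∀ g, D.L g = 1
  · refine FreeAb.reg_coh ?_
    refine (x02_freeAb D ⊤ (fun g _ => hall g) W hW hw).of_injective
      (Subgroup.topEquiv (G := G)).symm.toMonoidHom (Subgroup.topEquiv (G := G)).symm.injective
  push Not at hall
  obtain ⟨g₀, hg₀⟩ := hall
  have hdet0 : (D.L g₀ : Matrix (Fin 2) (Fin 2) K).det = -1 :=
    (D.det_of_finOrder htf (hfin g₀) (hdet g₀)).resolve_left hg₀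
  have hρ : ∀ g, D.L g = 1 ∨ D.L g = D.L g₀ := by
    intro g
    rcases hdet g with h | h
    · exact Or.inl (x02_one_of_det D htf hfin g h)
    · right
      have h1 : (D.L (g * g₀) : Matrix (Fin 2) (Fin 2) K).det = 1 := by
        rw [map_mul, Units.val_mul, Matrix.det_mul, h, hdet0]
        ring
      have h2 : (D.L (g₀ * g₀) : Matrix (Fin 2) (Fin 2) K).det = 1 := by
        rw [map_mul, Units.val_mul, Matrix.det_mul, hdet0]
        ring
      have h3 := x02_one_of_det D htf hfin _ h1
      have h4 := x02_one_of_det D htf hfin _ h2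
      rw [map_mul] at h3 h4
      exact mul_right_cancel (h3.trans h4.symm)
  have hρρ : D.L g₀ * D.L g₀ = 1 := by
    have h2 : (D.L (g₀ * g₀) : Matrix (Fin 2) (Fin 2) K).det = 1 := by
      rw [map_mul, Units.val_mul, Matrix.det_mul, hdet0]
      ring
    rw [← map_mul]
    exact x02_one_of_det D htf hfin _ h2
  have hρm : (D.L g₀ : Matrix (Fin 2) (Fin 2) K) * D.L g₀ = 1 := by
    rw [← Units.val_mul, hρρ, Units.val_one]
  have habs : ∀ b, (D.L b : Matrix (Fin 2) (Fin 2) K) * (1 + D.L g₀) = 1 + D.L g₀ := by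
    intro b
    rcases hρ b with h | h
    · rw [h, Units.val_one, one_mul]
    · rw [h, mul_add, mul_one, hρm, add_comm]
  let κ : G →* Multiplicative (Fin 2 → K) :=
    { toFun := fun g => Multiplicative.ofAdd
        (D.w g ᵥ* (1 + (D.L g₀ : Matrix (Fin 2) (Fin 2) K)))
      map_one' := by
        rw [x02_w_one, Matrix.zero_vecMul]
        rfl
      map_mul' := fun a b => by
        rw [D.w_mul, Matrix.add_vecMul, Matrix.vecMul_vecMul, habs]
        rfl }
  let f : (Fin 2 → K) →ₗ[ℤ] (Fin 2 → K) :=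
    (Matrix.vecMulLinear (1 + (D.L g₀ : Matrix (Fin 2) (Fin 2) K))).restrictScalars ℤ
  refine reg_coh_of_two (x02_torsion (K := K)) κ (W.map f) (hW.map f) (fun g => ?_) ?_
  · exact Submodule.mem_map.2 ⟨D.w g, hw g, rfl⟩
  · refine x02_freeAb D κ.ker (fun g hg => ?_) W hW hw
    rcases hρ g with h | h
    · exact h
    · exfalso
      have h1 : D.w g ᵥ* (1 + (D.L g₀ : Matrix (Fin 2) (Fin 2) K)) = 0 := hg
      have h2 : D.w (g * g) = 0 := by
        rw [D.w_mul, h, ← h1, Matrix.vecMul_add, Matrix.vecMul_one, add_comm]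
      have h3 : g * g = 1 := D.faithful _ (by rw [map_mul, h, hρρ]) h2
      have h4 : g = 1 := htf g (isOfFinOrder_iff_pow_eq_one.2 ⟨2, by norm_num, by rw [pow_two, h3]⟩)
      apply hg₀
      rw [← h, h4, map_one]

/-- Restriction to a subgroup. -/
def AffData.res (D : AffData K G) (S : Subgroup G) : AffData K S where
  L := D.L.comp S.subtype
  w g := D.w g
  w_mul a b := D.w_mul a b
  faithful g h1 h2 := Subtype.ext (D.faithful g h1 h2)

/-- **Finitely generated groups have finitely generated translation parts**, if the linear parts span a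
finitely generated group.
Proof: `E' = span {L g}` is a submodule of `E`, so it is finitely generated (`ℤ` is noetherian), and
`E' * L b ⊆ E'`. Let `T` be a finite generating set, closed under inverses, `W = ∑ g ∈ T, w g ᵥ* E'` (images
of `E'` under linear maps). For `g ∈ T` and `w b ∈ W`: `w (g * b) = w g ᵥ* L b + w b ∈ W`
(`Subgroup.closure_induction_left`-type induction). -/
theorem AffData.exists_fg (D : AffData K G) (hG : Group.FG G)
    (E : Submodule ℤ (Matrix (Fin 2) (Fin 2) K)) (hE : E.FG)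
    (hL : ∀ g, (D.L g : Matrix (Fin 2) (Fin 2) K) ∈ E) :
    ∃ W : Submodule ℤ (Fin 2 → K), W.FG ∧ ∀ g, D.w g ∈ W := by
  classical
  obtain ⟨_, T, _, hT⟩ := Group.fg_iff'.1 hG
  let E' : Submodule ℤ (Matrix (Fin 2) (Fin 2) K) :=
    Submodule.span ℤ (Set.range fun g : G => (D.L g : Matrix (Fin 2) (Fin 2) K))
  have hE' : E'.FG := by
    have h1 : E' ≤ E := by
      refine Submodule.span_le.2 ?_
      rintro _ ⟨g, rfl⟩
      exact hL g
    have h2 : IsNoetherian ℤ E := isNoetherian_of_fg_of_noetherian E hE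
    exact (isNoetherian_submodule.1 h2) E' h1
  have hmem : ∀ g, (D.L g : Matrix (Fin 2) (Fin 2) K) ∈ E' := fun g =>
    Submodule.subset_span ⟨g, rfl⟩
  have hst : ∀ (b : G) (X : Matrix (Fin 2) (Fin 2) K), X ∈ E' → X * D.L b ∈ E' := by
    intro b X hX
    induction hX using Submodule.span_induction with
    | mem x hx =>
      obtain ⟨g, rfl⟩ := hx
      have := hmem (g * b)
      rw [map_mul, Units.val_mul] at this
      exact this
    | zero => rw [zero_mul]; exact E'.zero_mem
    | add x y _ _ hx hy => rw [add_mul]; exact E'.add_mem hx hy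
    | smul a x _ hx => rw [smul_mul_assoc]; exact E'.smul_mem a hx
  let f : G → Matrix (Fin 2) (Fin 2) K →ₗ[ℤ] (Fin 2 → K) := fun g =>
    AddMonoidHom.toIntLinearMap
      { toFun := fun X => D.w g ᵥ* X
        map_zero' := Matrix.vecMul_zero _
        map_add' := fun X Y => Matrix.vecMul_add _ _ _ }
  let W : Submodule ℤ (Fin 2 → K) := ⨆ g ∈ T, E'.map (f g)
  refine ⟨W, ?_, ?_⟩
  · exact Submodule.fg_biSup T _ fun g _ => hE'.map (f g)
  · have hW : ∀ (b : G) (v : Fin 2 → K), v ∈ W → v ᵥ* (D.L b : Matrix (Fin 2) (Fin 2) K) ∈ W := by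
      intro b v hv
      let φ : (Fin 2 → K) →ₗ[ℤ] (Fin 2 → K) :=
        (Matrix.vecMulLinear (D.L b : Matrix (Fin 2) (Fin 2) K)).restrictScalars ℤ
      have h1 : W ≤ W.comap φ := by
        refine iSup₂_le fun g hg => ?_
        rintro _ ⟨X, hX, rfl⟩
        refine Submodule.mem_comap.2 ?_
        refine Submodule.mem_iSup_of_mem g (Submodule.mem_iSup_of_mem hg ?_)
        refine ⟨X * (D.L b : Matrix (Fin 2) (Fin 2) K), hst b X hX, ?_⟩
        change D.w g ᵥ* (X * (D.L b : Matrix (Fin 2) (Fin 2) K)) =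
          (D.w g ᵥ* X) ᵥ* (D.L b : Matrix (Fin 2) (Fin 2) K)
        rw [Matrix.vecMul_vecMul]
      exact h1 hv
    let S : Subgroup G :=
      { carrier := {g | D.w g ∈ W}
        one_mem' := by
          change D.w 1 ∈ W
          rw [x02_w_one]
          exact W.zero_mem
        mul_mem' := fun {a b} ha hb => by
          change D.w (a * b) ∈ W
          rw [D.w_mul]
          exact W.add_mem (hW b _ ha) hb
        inv_mem' := fun {a} ha => by
          change D.w a⁻¹ ∈ W
          have h := D.w_mul a a⁻¹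
          rw [mul_inv_cancel, x02_w_one] at h
          rw [eq_neg_of_add_eq_zero_right h.symm]
          exact W.neg_mem (hW _ _ ha) }
    have hS : Subgroup.closure (T : Set G) ≤ S := by
      refine (Subgroup.closure_le S).2 fun g hg => ?_
      change D.w g ∈ W
      refine Submodule.mem_iSup_of_mem g (Submodule.mem_iSup_of_mem hg ?_)
      refine ⟨1, ?_, ?_⟩
      · have := hmem 1
        rwa [map_one, Units.val_one] at this
      · exact Matrix.vecMul_one _
    intro g
    have h1 : g ∈ Subgroup.closure (T : Set G) := by rw [hT]; trivial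
    exact hS h1

end Pool.Agent.Lib.MP_c052b4_al.CT
end

section

/-!
# Coherent trees, X04: affine groups: the commutative case
-/

set_option autoImplicit false
set_option linter.unusedVariables false
set_option linter.unusedSectionVars false

namespace Pool.Agent.Lib.MP_c052b4_al.CT

open Matrix
open Pool.Agent.Lib.MP_c052b4_al.JK

universe u

variable {K : Type u} [Field K] [CharZero K]

/-- The centralizer of a matrix without eigenvectors.
Proof: `x` is not a scalar matrix; a matrix commuting with `x` is `c + d x` (`2 × 2`, entrywise: `x 0 1 ≠ 0` or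
`x 1 0 ≠ 0` as `x` has no eigenvector; solve the linear equations). -/
theorem exists_lin_comb {x y : Matrix (Fin 2) (Fin 2) K}
    (hx : ∀ (v : Fin 2 → K) (a : K), v ≠ 0 → x *ᵥ v ≠ a • v) (hxy : x * y = y * x) :
    ∃ c d : K, y = c • (1 : Matrix (Fin 2) (Fin 2) K) + d • x := by
  have h10 : x 1 0 ≠ 0 := by
    intro h
    refine hx ![1, 0] (x 0 0) ?_ ?_
    · intro h1
      have h2 := congrFun h1 0
      exact one_ne_zero h2
    · funext i
      match i with
      | 0 => simp [Matrix.mulVec, dotProduct, Fin.sum_univ_two]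
      | 1 => simp [Matrix.mulVec, dotProduct, Fin.sum_univ_two, h]
  have e0 := congrFun (congrFun hxy 0) 0
  have e1 := congrFun (congrFun hxy 1) 0
  rw [Matrix.mul_apply, Matrix.mul_apply, Fin.sum_univ_two, Fin.sum_univ_two] at e0 e1
  refine ⟨y 0 0 - y 1 0 / x 1 0 * x 0 0, y 1 0 / x 1 0, ?_⟩
  ext i j
  match i, j with
  | 0, 0 =>
    rw [Matrix.add_apply, Matrix.smul_apply, Matrix.smul_apply, Matrix.one_apply_eq, smul_eq_mul,
      smul_eq_mul]
    ring
  | 0, 1 =>
    rw [Matrix.add_apply, Matrix.smul_apply, Matrix.smul_apply,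
      Matrix.one_apply_ne (by decide : (0 : Fin 2) ≠ 1), smul_zero, zero_add, smul_eq_mul,
      div_mul_eq_mul_div, eq_div_iff h10]
    linear_combination -e0
  | 1, 0 =>
    rw [Matrix.add_apply, Matrix.smul_apply, Matrix.smul_apply,
      Matrix.one_apply_ne (by decide : (1 : Fin 2) ≠ 0), smul_zero, zero_add, smul_eq_mul,
      div_mul_cancel₀ _ h10]
  | 1, 1 =>
    rw [Matrix.add_apply, Matrix.smul_apply, Matrix.smul_apply, Matrix.one_apply_eq, smul_eq_mul,
      smul_eq_mul]
    field_simp
    linear_combination -e1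

/-- Proof: `y = c + d x` commutes with `x`; if `det (y - 1) = 0` then `y - 1 = (c - 1) + d x` has a nonzero
vector `v` in its kernel (`Matrix.exists_mulVec_eq_zero_iff`), so `d x v = (1 - c) v`, so `d = 0` and
`c = 1`. -/
theorem eq_one_of_det {x y : Matrix (Fin 2) (Fin 2) K}
    (hx : ∀ (v : Fin 2 → K) (a : K), v ≠ 0 → x *ᵥ v ≠ a • v) (hxy : x * y = y * x)
    (h : (y - 1).det = 0) : y = 1 := by
  obtain ⟨c, d, rfl⟩ := exists_lin_comb hx hxy
  obtain ⟨v, hv, h1⟩ := Matrix.exists_mulVec_eq_zero_iff.2 h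
  have h2 : (c - 1) • v + d • (x *ᵥ v) = 0 := by
    rw [← h1, Matrix.sub_mulVec, Matrix.add_mulVec, Matrix.smul_mulVec, Matrix.smul_mulVec,
      Matrix.one_mulVec, sub_smul, one_smul]
    abel
  by_cases hd : d = 0
  · rw [hd, zero_smul, add_zero] at h2
    have h3 : c - 1 = 0 := (smul_eq_zero.1 h2).resolve_right hv
    rw [hd, zero_smul, add_zero, sub_eq_zero.1 h3, one_smul]
  · exfalso
    refine hx v (d⁻¹ * (1 - c)) hv ?_
    have h4 : d • (x *ᵥ v) = (1 - c) • v := by
      have h5 : d • (x *ᵥ v) = -((c - 1) • v) := eq_neg_of_add_eq_zero_right h2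
      rw [h5, ← neg_smul, neg_sub]
    rw [mul_smul, ← h4, smul_smul, inv_mul_cancel₀ hd, one_smul]

/-- The linear parts span a finitely generated group.
Proof: `y = L g = c + d x`, `x = L a`. The traces `t = tr x`, `tr (x * x)`, `tr y = 2 c + d t = n₁` and
`tr (x y) = c t + d tr (x * x) = n₂` are integers (`int_of_isIntegral`). `Δ = 2 tr(x x) - t² ` is
`t² - 4 det x`, not zero: otherwise `t / 2` is an eigenvalue of `x`. So `Δ c` and `Δ d` are integers and `y` is in
the span of `Δ⁻¹ • 1` and `Δ⁻¹ • x`. -/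
theorem span_of_comm (hK : RatPlace K) {G : Type u} [Group G] (L : G →* GL (Fin 2) K)
    (htr : ∀ g, IsIntegral ℤ ((L g : Matrix (Fin 2) (Fin 2) K).trace)) (a : G)
    (hx : ∀ (v : Fin 2 → K) (c : K), v ≠ 0 → (L a : Matrix (Fin 2) (Fin 2) K) *ᵥ v ≠ c • v)
    (hc : ∀ g, L a * L g = L g * L a) :
    ∃ E : Submodule ℤ (Matrix (Fin 2) (Fin 2) K), E.FG ∧
      ∀ g, (L g : Matrix (Fin 2) (Fin 2) K) ∈ E := by
  obtain ⟨O, ⟨π⟩⟩ := hK
  have hint : ∀ g, ∃ n : ℤ, (L g : Matrix (Fin 2) (Fin 2) K).trace = n := fun g =>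
    int_of_isIntegral π _ (htr g)
  obtain ⟨T, hT⟩ := hint a
  obtain ⟨S, hS⟩ := hint (a * a)
  have hΔ : (2 : K) * S - T ^ 2 ≠ 0 := by
    intro h0
    have h1 : ((L a : Matrix (Fin 2) (Fin 2) K) - ((T : K) / 2) • 1).det = 0 := by
      rw [map_mul, Units.val_mul, Matrix.trace_fin_two, Matrix.mul_apply, Matrix.mul_apply,
        Fin.sum_univ_two, Fin.sum_univ_two] at hS
      rw [Matrix.trace_fin_two] at hT
      rw [Matrix.det_fin_two]
      simp only [Matrix.sub_apply, Matrix.smul_apply, Matrix.one_apply_eq,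
        Matrix.one_apply_ne (by decide : (0 : Fin 2) ≠ 1),
        Matrix.one_apply_ne (by decide : (1 : Fin 2) ≠ 0), smul_eq_mul, mul_one, mul_zero, sub_zero]
      rw [← hS, ← hT] at h0
      rw [← hT]
      linear_combination (-1 / 4 : K) * h0
    obtain ⟨v, hv, h2⟩ := Matrix.exists_mulVec_eq_zero_iff.2 h1
    refine hx v ((T : K) / 2) hv ?_
    rw [Matrix.sub_mulVec, Matrix.smul_mulVec, Matrix.one_mulVec, sub_eq_zero] at h2
    exact h2
  refine ⟨Submodule.span ℤ {((2 : K) * S - T ^ 2)⁻¹ • (1 : Matrix (Fin 2) (Fin 2) K),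
    ((2 : K) * S - T ^ 2)⁻¹ • (L a : Matrix (Fin 2) (Fin 2) K)},
    Submodule.fg_span (by simp), fun g => ?_⟩
  have hcm : (L a : Matrix (Fin 2) (Fin 2) K) * L g = L g * L a := by
    rw [← Units.val_mul, hc g, Units.val_mul]
  obtain ⟨c, d, hcd⟩ := exists_lin_comb hx hcm
  obtain ⟨N, hN⟩ := hint g
  obtain ⟨P, hP⟩ := hint (a * g)
  have e1 : (N : K) = 2 * c + d * T := by
    rw [← hN, hcd, Matrix.trace_add, Matrix.trace_smul, Matrix.trace_smul, Matrix.trace_one, hT,
      smul_eq_mul, smul_eq_mul, Fintype.card_fin]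
    push_cast
    ring
  have e2 : (P : K) = c * T + d * S := by
    rw [← hP, map_mul, Units.val_mul, hcd, mul_add, Matrix.mul_smul, Matrix.mul_smul, mul_one,
      Matrix.trace_add, Matrix.trace_smul, Matrix.trace_smul, hT, smul_eq_mul, smul_eq_mul, ← hS,
      map_mul, Units.val_mul]
  have e3 : c = ((S * N - T * P : ℤ) : K) * ((2 : K) * S - T ^ 2)⁻¹ := by
    rw [eq_mul_inv_iff_mul_eq₀ hΔ]
    push_cast
    rw [e1, e2]
    ring
  have e4 : d = ((2 * P - T * N : ℤ) : K) * ((2 : K) * S - T ^ 2)⁻¹ := by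
    rw [eq_mul_inv_iff_mul_eq₀ hΔ]
    push_cast
    rw [e1, e2]
    ring
  refine Submodule.mem_span_pair.2 ⟨S * N - T * P, 2 * P - T * N, ?_⟩
  rw [hcd]
  conv_rhs => rw [e3, e4]
  rw [← Int.cast_smul_eq_zsmul K, ← Int.cast_smul_eq_zsmul K, smul_smul, smul_smul]

private theorem x04_w_one {G : Type u} [Group G] (D : AffData K G) : D.w 1 = 0 := by
  have h := D.w_mul 1 1
  rw [mul_one, map_one, Units.val_one, Matrix.vecMul_one] at h
  exact left_eq_add.1 h

private theorem x04_torsion (n : ℕ) (m : Fin 2 → K) (hn : 0 < n) (h : n • m = 0) : m = 0 := by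
  funext i
  have h1 := congrFun h i
  rw [Pi.smul_apply, nsmul_eq_mul, Pi.zero_apply] at h1
  rcases mul_eq_zero.1 h1 with h2 | h2
  · exact absurd (Nat.cast_eq_zero.1 h2) hn.ne'
  · exact h2

/-- The translation part as a homomorphism on a subgroup with trivial linear parts. -/
private theorem x04_freeAb {G : Type u} [Group G] (D : AffData K G) (S : Subgroup G)
    (hS : ∀ g ∈ S, D.L g = 1) (W : Submodule ℤ (Fin 2 → K)) (hW : W.FG) (hw : ∀ g, D.w g ∈ W) :
    FreeAb S := by
  let κ : S →* Multiplicative (Fin 2 → K) :=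
    { toFun := fun g => Multiplicative.ofAdd (D.w g)
      map_one' := by
        change Multiplicative.ofAdd (D.w 1) = 1
        rw [x04_w_one]
        rfl
      map_mul' := fun a b => by
        change Multiplicative.ofAdd (D.w (a * b : G)) = _
        rw [D.w_mul, hS b b.2, Units.val_one, Matrix.vecMul_one]
        rfl }
  refine freeAb_of_hom (x04_torsion (K := K)) κ W hW (fun g => hw g) fun g hg => ?_
  have h1 : D.w g = 0 := hg
  exact Subtype.ext (D.faithful _ (hS g g.2) h1)

/-- **The commutative case.**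
Proof: `span_of_comm`, `AffData.exists_fg` give `W`. The range `Q` of `L` is commutative, finitely generated
and torsionfree: if `L g` has finite order then `det (L g - 1) = 0` or `g` has finite order
(`AffData.finOrder`), so `L g = 1` in each case (`eq_one_of_det`). So `Additive Q` (with the commutative
group structure) is a finitely generated torsionfree group, `κ = L.rangeRestrict`, and on the kernel `w` is an
injective homomorphism with values in `W`: `reg_coh_of_two`, `freeAb_of_hom`. -/
theorem AffData.coh_of_comm (hK : RatPlace K) {G : Type u} [Group G] (hG : Group.FG G)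
    (htf : ∀ g : G, IsOfFinOrder g → g = 1) (D : AffData K G)
    (htr : ∀ g, IsIntegral ℤ ((D.L g : Matrix (Fin 2) (Fin 2) K).trace)) (a : G)
    (hx : ∀ (v : Fin 2 → K) (c : K), v ≠ 0 → (D.L a : Matrix (Fin 2) (Fin 2) K) *ᵥ v ≠ c • v)
    (hc : ∀ g h, D.L g * D.L h = D.L h * D.L g) : Coh.{u} G := by
  obtain ⟨E, hE, hL⟩ := span_of_comm hK D.L htr a hx (fun g => hc a g)
  obtain ⟨W, hW, hw⟩ := D.exists_fg hG E hE hL
  have hone : ∀ g, IsOfFinOrder (D.L g) → D.L g = 1 := by
    intro g hg
    by_cases h2 : ((D.L g : Matrix (Fin 2) (Fin 2) K) - 1).det = 0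
    · ext1
      refine eq_one_of_det hx ?_ h2
      rw [← Units.val_mul, hc, Units.val_mul]
    · rw [htf g (D.finOrder hg h2), map_one]
  let inst : CommGroup D.L.range :=
    { (inferInstance : Group D.L.range) with
      mul_comm := by
        rintro ⟨_, g, rfl⟩ ⟨_, h, rfl⟩
        exact Subtype.ext (hc g h) }
  have hfg : Group.FG D.L.range := Group.fg_range D.L
  have h2 : Module.Finite ℤ (Additive D.L.range) := Module.Finite.iff_addGroup_fg.2 inferInstance
  let κ : G →* Multiplicative (Additive D.L.range) :=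
    { toFun := fun g => Multiplicative.ofAdd (Additive.ofMul (D.L.rangeRestrict g))
      map_one' := by
        rw [map_one]
        rfl
      map_mul' := fun a b => by
        rw [map_mul]
        rfl }
  refine (reg_coh_of_two (M := Additive D.L.range) ?_ κ ⊤ h2.fg_top (fun _ => trivial) ?_).2
  · intro n m hn hm
    obtain ⟨g, hg⟩ := (Additive.toMul m).2
    have h3 : (Additive.toMul m) ^ n = 1 := hm
    have h4 : D.L g ^ n = 1 := by
      rw [hg]
      exact congrArg Subtype.val h3
    have h5 := hone g (isOfFinOrder_iff_pow_eq_one.2 ⟨n, hn, h4⟩)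
    have h6 : Additive.toMul m = 1 := Subtype.ext (hg.symm.trans h5)
    exact h6
  · refine x04_freeAb D κ.ker (fun g hg => ?_) W hW hw
    have h3 : D.L.rangeRestrict g = 1 := hg
    exact congrArg Subtype.val h3

end Pool.Agent.Lib.MP_c052b4_al.CT
end
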