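import Pool.Agent.Lib.MP_c052b4_al.Mg.G057

section

/-!
# Coherent trees, N05: reduction to rational matrices
-/

set_option autoImplicit false
set_option linter.unusedVariables false
set_option linter.unusedSectionVars false

namespace Pool.Agent.Lib.MP_c052b4_al.CT

open Matrix

universe u

variable {F : Type u} [Field F] {O : ValuationSubring F} (π : O →+* ℚ) {H : Type u} [Group H]
  (s : H →* GL (Fin 2) F)

private theorem n05_map (A B : Matrix (Fin 2) (Fin 2) O)
    (h : A.map O.subtype = B.map O.subtype) : A = B := by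
  ext i j
  have h1 := congrFun (congrFun h i) j
  exact h1

include π in
/-- The reduction of a representation over `O`.
Proof: `σ₀ h = (entries of P⁻¹ * s h * P, as elements of O).map π` is multiplicative with `σ₀ 1 = 1`
(injectivity of `O → F`, `Matrix.map_mul`), so `MonoidHom.toHomUnits` (units as `H` is a group). The trace of
`P⁻¹ * s h * P` is the trace of `s h` (`Matrix.trace_mul_comm`, `trace_units_conj`). -/
theorem exists_reduction (P : GL (Fin 2) F)
    (hP : ∀ (h : H) (i j : Fin 2),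
      ((P⁻¹ * s h * P : GL (Fin 2) F) : Matrix (Fin 2) (Fin 2) F) i j ∈ O) :
    ∃ σ : H →* GL (Fin 2) ℚ,
      (∀ (h : H) (n : ℤ), (s h : Matrix (Fin 2) (Fin 2) F).trace = n →
        (σ h : Matrix (Fin 2) (Fin 2) ℚ).trace = n) ∧
      ∀ (h : H) (ι : Type) [Fintype ι] (D : ℤ) (c : ι → ℤ) (z : ι → H),
        (D : F) • (s h : Matrix (Fin 2) (Fin 2) F) = ∑ i, (c i : F) •
          (s (z i) : Matrix (Fin 2) (Fin 2) F) →
        (D : ℚ) • (σ h : Matrix (Fin 2) (Fin 2) ℚ) = ∑ i, (c i : ℚ) •
          (σ (z i) : Matrix (Fin 2) (Fin 2) ℚ) := by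
  let M : H → Matrix (Fin 2) (Fin 2) O := fun h i j =>
    ⟨((P⁻¹ * s h * P : GL (Fin 2) F) : Matrix (Fin 2) (Fin 2) F) i j, hP h i j⟩
  have hM : ∀ h, (M h).map O.subtype =
      ((P⁻¹ * s h * P : GL (Fin 2) F) : Matrix (Fin 2) (Fin 2) F) := fun h => rfl
  have hone : M 1 = 1 := by
    apply n05_map
    rw [hM, map_one, mul_one, inv_mul_cancel, Units.val_one, Matrix.map_one _ (map_zero _) (map_one _)]
  have hmul : ∀ h h', M (h * h') = M h * M h' := by
    intro h h'
    apply n05_map
    rw [Matrix.map_mul, hM, hM, hM, ← Units.val_mul, map_mul]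
    congr 1
    group
  let f : H →* Matrix (Fin 2) (Fin 2) ℚ :=
    { toFun := fun h => (M h).map π
      map_one' := by rw [hone, Matrix.map_one _ (map_zero _) (map_one _)]
      map_mul' := fun h h' => by rw [hmul, Matrix.map_mul] }
  refine ⟨f.toHomUnits, ?_, ?_⟩
  · intro h n hn
    have h1 : (M h).trace = (n : O) := by
      apply Subtype.val_injective
      have h2 : (((M h).trace : O) : F) =
          ((P⁻¹ * s h * P : GL (Fin 2) F) : Matrix (Fin 2) (Fin 2) F).trace := by
        rw [Matrix.trace_fin_two, Matrix.trace_fin_two]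
        rfl
      rw [h2]
      have h3 : ((P⁻¹ * s h * P : GL (Fin 2) F) : Matrix (Fin 2) (Fin 2) F).trace =
          (s h : Matrix (Fin 2) (Fin 2) F).trace := by
        rw [mul_assoc, Units.val_mul, Matrix.trace_mul_comm, ← Units.val_mul]
        congr 2
        group
      rw [h3, hn]
      simp
    have h2 : ((f.toHomUnits h : (Matrix (Fin 2) (Fin 2) ℚ)ˣ) : Matrix (Fin 2) (Fin 2) ℚ) =
        (M h).map π := rfl
    have h3 : ((M h).map π).trace = π (M h).trace := by
      rw [Matrix.trace_fin_two, Matrix.trace_fin_two, map_add]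
      rfl
    rw [h2, h3, h1, map_intCast]
  · intro h ι _ D c z hrel
    have h2 : ∀ h, ((f.toHomUnits h : (Matrix (Fin 2) (Fin 2) ℚ)ˣ) : Matrix (Fin 2) (Fin 2) ℚ) =
        (M h).map π := fun _ => rfl
    have h3 : (D : F) • ((P⁻¹ * s h * P : GL (Fin 2) F) : Matrix (Fin 2) (Fin 2) F) =
        ∑ i, (c i : F) • ((P⁻¹ * s (z i) * P : GL (Fin 2) F) : Matrix (Fin 2) (Fin 2) F) := by
      simp only [Units.val_mul]
      rw [← Matrix.smul_mul, ← Matrix.mul_smul, hrel, Matrix.mul_sum, Matrix.sum_mul]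
      refine Finset.sum_congr rfl fun i _ => ?_
      rw [Matrix.mul_smul, Matrix.smul_mul]
    ext i j
    have h4 := congrFun (congrFun h3 i) j
    rw [Matrix.sum_apply, Matrix.smul_apply] at h4
    rw [Matrix.sum_apply, Matrix.smul_apply, h2]
    have h5 : (D : O) * M h i j = ∑ k, (c k : O) * M (z k) i j := by
      apply Subtype.val_injective
      have h6 : (((D : O) * M h i j : O) : F) = (D : F) •
          ((P⁻¹ * s h * P : GL (Fin 2) F) : Matrix (Fin 2) (Fin 2) F) i j := by
        simp [M]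
      have h7 : ((∑ k, (c k : O) * M (z k) i j : O) : F) = ∑ k, ((c k : F) •
          ((P⁻¹ * s (z k) * P : GL (Fin 2) F) : Matrix (Fin 2) (Fin 2) F)) i j := by
        rw [← ValuationSubring.subtype_apply, map_sum]
        refine Finset.sum_congr rfl fun k _ => ?_
        rw [Matrix.smul_apply]
        simp [M]
      rw [h6, h7, h4]
    have h8 := congrArg π h5
    rw [map_mul, map_sum, map_intCast] at h8
    rw [Matrix.map_apply, smul_eq_mul, h8]
    refine Finset.sum_congr rfl fun k _ => ?_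
    rw [map_mul, map_intCast, Matrix.smul_apply, h2, smul_eq_mul]
    rfl

/-- A homomorphism which preserves integral traces is injective if the group contains matrices with
nondegenerate trace form.
Proof: if `σ h = 1` then for all `z`: `trace (s h * s z) = trace (s (h z))` is an integer `n` with
`n = trace (σ (h z)) = trace (σ z)`, which is `trace (s z)`. So `trace ((s h - 1) * s z) = 0`, in
particular for `z = 1, x, y, x y`, and `eq_zero_of_trace` gives `s h = 1`. -/
theorem injective_of_trace (hs : Function.Injective s)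
    (htr : ∀ h : H, ∃ n : ℤ, (s h : Matrix (Fin 2) (Fin 2) F).trace = n)
    (x y : H) (h0 : ((s x : Matrix (Fin 2) (Fin 2) F) * s y - s y * s x).det ≠ 0)
    [CharZero F]
    (σ : H →* GL (Fin 2) ℚ) (hσ : ∀ (h : H) (n : ℤ), (s h : Matrix (Fin 2) (Fin 2) F).trace = n →
        (σ h : Matrix (Fin 2) (Fin 2) ℚ).trace = n) : Function.Injective σ := by
  rw [injective_iff_map_eq_one]
  intro h hh
  have key : ∀ z : H, (((s h : Matrix (Fin 2) (Fin 2) F) - 1) * s z).trace = 0 := by
    intro z
    obtain ⟨n, hn⟩ := htr (h * z)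
    obtain ⟨m, hm⟩ := htr z
    have h1 := hσ _ n hn
    have h2 := hσ _ m hm
    rw [map_mul, hh, one_mul, h2] at h1
    have h3 : m = n := by exact_mod_cast h1
    rw [Matrix.sub_mul, Matrix.one_mul, Matrix.trace_sub, ← Units.val_mul, ← map_mul, hn, hm, h3,
      sub_self]
  have h1 : (s h : Matrix (Fin 2) (Fin 2) F) - 1 = 0 := by
    refine eq_zero_of_trace (s x : Matrix (Fin 2) (Fin 2) F) (s y) h0 _ fun i => ?_
    fin_cases i
    · have := key 1
      rw [map_one, Units.val_one] at this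
      exact this
    · exact key x
    · exact key y
    · have := key (x * y)
      rw [map_mul, Units.val_mul] at this
      exact this
  apply hs
  rw [map_one]
  exact Units.ext (sub_eq_zero.1 h1)

end Pool.Agent.Lib.MP_c052b4_al.CT
end

section

/-!
# Coherent trees, N06: integral lattices
-/

set_option autoImplicit false
set_option linter.unusedVariables false
set_option linter.unusedSectionVars false

namespace Pool.Agent.Lib.MP_c052b4_al.CT

open Matrix

universe u

/-- **Groups of rational matrices with bounded denominators are conjugate to groups of integral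
matrices.**
Proof: let `L` be the additive subgroup of `ℚ²` generated by all `σ h e₀`, `h : H`. By `hD` it is contained in
`D⁻¹` times the group generated by the `4` vectors `bas (σ x) (σ y) i e₀`, so it is finitely generated
and (torsionfree) free over `ℤ`. It is stable under all `σ h`, and spans `ℚ²`: it contains the vectors
`bas (σ x) (σ y) i e₀`, which span by `bas_span`. So it has a `ℤ`-basis `u, v` of two elements which is a
`ℚ`-basis of `ℚ²` (rank: linearly independent over `ℤ` in `ℚ²` means linearly independent over `ℚ`: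
`LinearIndependent.iff_fractionRing`; `Module.finBasis`, `Submodule.basisOfPid`; or choose by hand:
by `bas_span` two of the vectors are independent, so `L` lies in
`Δ⁻¹ (ℤ u₀ + ℤ v₀)`, and use the structure theorem `Submodule.smithNormalForm`). With
`P` the matrix with columns `u, v` all `P⁻¹ * σ h * P` are integral. -/
theorem exists_lattice_Z {H : Type u} [Group H] (σ : H →* GL (Fin 2) ℚ) (x y : H)
    (h0 : ((σ x : Matrix (Fin 2) (Fin 2) ℚ) * σ y - σ y * σ x).det ≠ 0) {D : ℤ} (hD0 : D ≠ 0)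
    (hD : ∀ h : H, ∃ c : Fin 4 → ℤ, (D : ℚ) • (σ h : Matrix (Fin 2) (Fin 2) ℚ) =
      ∑ i, (c i : ℚ) • bas (σ x : Matrix (Fin 2) (Fin 2) ℚ) (σ y) i) :
    ∃ P : GL (Fin 2) ℚ, ∀ (h : H) (i j : Fin 2), ∃ n : ℤ,
      ((P⁻¹ * σ h * P : GL (Fin 2) ℚ) : Matrix (Fin 2) (Fin 2) ℚ) i j = n := by
  classical
  set A : Matrix (Fin 2) (Fin 2) ℚ := Units.val (σ x) with hA
  set B : Matrix (Fin 2) (Fin 2) ℚ := Units.val (σ y) with hB
  let c : H → Fin 2 → ℚ := fun h i => (σ h : Matrix (Fin 2) (Fin 2) ℚ) i 0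
  have hcm : ∀ h h', (σ h : Matrix (Fin 2) (Fin 2) ℚ) *ᵥ c h' = c (h * h') := by
    intro h h'
    funext i
    change _ = (σ (h * h') : Matrix (Fin 2) (Fin 2) ℚ) i 0
    rw [map_mul, Units.val_mul, Matrix.mul_apply]
    rfl
  let u : Fin 4 → Fin 2 → ℚ := fun k i => bas A B k i 0
  have huc : ∀ k, ∃ z : H, u k = c z := by
    intro k
    have h1 : ∃ z : H, bas A B k = (σ z : Matrix (Fin 2) (Fin 2) ℚ) := by
      fin_cases k
      · exact ⟨1, by rw [map_one]; rfl⟩
      · exact ⟨x, rfl⟩
      · exact ⟨y, rfl⟩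
      · exact ⟨x * y, by rw [map_mul]; rfl⟩
    obtain ⟨z, hz⟩ := h1
    exact ⟨z, by funext i; exact congrFun (congrFun hz i) 0⟩
  let L : Submodule ℤ (Fin 2 → ℚ) := Submodule.span ℤ (Set.range c)
  have hcL : ∀ h, c h ∈ L := fun h => Submodule.subset_span ⟨h, rfl⟩
  have hstab : ∀ h : H, ∀ w ∈ L, (σ h : Matrix (Fin 2) (Fin 2) ℚ) *ᵥ w ∈ L := by
    intro h w hw
    induction hw using Submodule.span_induction with
    | mem w hw =>
      obtain ⟨h', rfl⟩ := hw
      rw [hcm]
      exact hcL _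
    | zero => rw [Matrix.mulVec_zero]; exact L.zero_mem
    | add w w' _ _ h1 h2 => rw [Matrix.mulVec_add]; exact L.add_mem h1 h2
    | smul a w _ h1 =>
      rw [Matrix.mulVec_smul]
      exact L.smul_mem a h1
  have hDq : (D : ℚ) ≠ 0 := by exact_mod_cast hD0
  have hle : L ≤ Submodule.span ℤ (Set.range fun k => (D : ℚ)⁻¹ • u k) := by
    refine Submodule.span_le.2 ?_
    rintro _ ⟨h, rfl⟩
    obtain ⟨e, he⟩ := hD h
    have h1 : c h = ∑ k, (e k) • ((D : ℚ)⁻¹ • u k) := by
      funext i
      have h2 := congrFun (congrFun he i) 0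
      rw [Matrix.smul_apply, Matrix.sum_apply] at h2
      rw [Finset.sum_apply]
      have h3 : c h i = (D : ℚ)⁻¹ * ((D : ℚ) • (σ h : Matrix (Fin 2) (Fin 2) ℚ) i 0) := by
        rw [smul_eq_mul, inv_mul_cancel_left₀ hDq]
      rw [h3, h2, Finset.mul_sum]
      refine Finset.sum_congr rfl fun k _ => ?_
      rw [Pi.smul_apply, Pi.smul_apply, Matrix.smul_apply, zsmul_eq_mul, smul_eq_mul, smul_eq_mul]
      change _ = (e k : ℚ) * ((D : ℚ)⁻¹ * bas A B k i 0)
      ring
    rw [h1]
    exact Submodule.sum_mem _ fun k _ => Submodule.smul_mem _ _ (Submodule.subset_span ⟨k, rfl⟩)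
  have hnoeth' : IsNoetherian ℤ (Submodule.span ℤ (Set.range fun k => (D : ℚ)⁻¹ • u k)) :=
    isNoetherian_span_of_finite ℤ (Set.finite_range _)
  have hnoeth : IsNoetherian ℤ L := isNoetherian_of_le hle
  obtain ⟨n, ⟨b⟩⟩ : ∃ n : ℕ, Nonempty (Module.Basis (Fin n) ℤ L) :=
    ⟨_, ⟨Module.finBasis ℤ L⟩⟩
  let v : Fin n → Fin 2 → ℚ := fun j => b j
  have hli : LinearIndependent ℤ v := b.linearIndependent.map' L.subtype L.ker_subtype
  have hliQ : LinearIndependent ℚ v := (LinearIndependent.iff_fractionRing ℤ ℚ).1 hli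
  have hrepr : ∀ w : L, (w : Fin 2 → ℚ) = ∑ j, (b.repr w j : ℚ) • v j := by
    intro w
    have h1 := congrArg Subtype.val (b.sum_repr w)
    rw [← h1, AddSubmonoidClass.coe_finsetSum]
    refine Finset.sum_congr rfl fun j _ => ?_
    funext i
    rw [Pi.smul_apply, smul_eq_mul]
    change ((b.repr w j) • (b j : Fin 2 → ℚ)) i = _
    rw [Pi.smul_apply, zsmul_eq_mul]
  have hspan : (⊤ : Submodule ℚ (Fin 2 → ℚ)) ≤ Submodule.span ℚ (Set.range v) := by
    intro w _
    obtain ⟨e, he⟩ := bas_span A B h0 (Matrix.of fun i _ => w i)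
    have h1 : w = ∑ k, e k • u k := by
      funext i
      have h2 := congrFun (congrFun he i) 0
      rw [Matrix.sum_apply] at h2
      rw [Finset.sum_apply]
      exact h2
    rw [h1]
    refine Submodule.sum_mem _ fun k _ => Submodule.smul_mem _ _ ?_
    obtain ⟨z, hz⟩ := huc k
    rw [hz]
    have h3 := hrepr ⟨c z, hcL z⟩
    rw [show c z = _ from h3]
    exact Submodule.sum_mem _ fun j _ => Submodule.smul_mem _ _ (Submodule.subset_span ⟨j, rfl⟩)
  have hn : n = 2 := by
    have h1 := Module.finrank_eq_card_basis (Module.Basis.mk hliQ hspan)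
    rw [Module.finrank_fin_fun, Fintype.card_fin] at h1
    exact h1.symm
  subst hn
  have hunit : IsUnit ((Matrix.of v)ᵀ : Matrix (Fin 2) (Fin 2) ℚ) :=
    (Matrix.isUnit_transpose (Matrix.of v)).2 (Matrix.linearIndependent_rows_iff_isUnit.1 hliQ)
  obtain ⟨P, hP⟩ := hunit
  refine ⟨P, fun h i j => ⟨b.repr ⟨(σ h : Matrix (Fin 2) (Fin 2) ℚ) *ᵥ v j,
    hstab h _ (b j).2⟩ i, ?_⟩⟩
  have hN : (σ h : Matrix (Fin 2) (Fin 2) ℚ) * (P : Matrix (Fin 2) (Fin 2) ℚ) =
      (P : Matrix (Fin 2) (Fin 2) ℚ) * Matrix.of fun i j =>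
        ((b.repr ⟨(σ h : Matrix (Fin 2) (Fin 2) ℚ) *ᵥ v j, hstab h _ (b j).2⟩ i : ℤ) : ℚ) := by
    rw [hP]
    ext i j
    have h1 := congrFun (hrepr ⟨(σ h : Matrix (Fin 2) (Fin 2) ℚ) *ᵥ v j, hstab h _ (b j).2⟩) i
    rw [Matrix.mul_apply, Matrix.mul_apply]
    rw [Finset.sum_apply] at h1
    refine Eq.trans (Eq.trans rfl h1) (Finset.sum_congr rfl fun l _ => ?_)
    rw [Pi.smul_apply, smul_eq_mul, mul_comm]
    rfl
  rw [Units.val_mul, Units.val_mul, mul_assoc, hN, ← mul_assoc, Units.inv_mul, one_mul]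
  rfl

/-- Proof: as `exists_reduction`: `MonoidHom.toHomUnits`, entries by choice, `Int.cast_injective`. -/
theorem exists_hom_Z {H : Type u} [Group H] (σ : H →* GL (Fin 2) ℚ) (hσ : Function.Injective σ)
    (P : GL (Fin 2) ℚ) (hP : ∀ (h : H) (i j : Fin 2), ∃ n : ℤ,
      ((P⁻¹ * σ h * P : GL (Fin 2) ℚ) : Matrix (Fin 2) (Fin 2) ℚ) i j = n) :
    ∃ τ : H →* GL (Fin 2) ℤ, Function.Injective τ := by
  choose N hN using hP
  have hN' : ∀ h, ((Matrix.of (N h)).map ((↑) : ℤ → ℚ)) =
      ((P⁻¹ * σ h * P : GL (Fin 2) ℚ) : Matrix (Fin 2) (Fin 2) ℚ) := by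
    intro h
    ext i j
    exact (hN h i j).symm
  have hinj : Function.Injective fun M : Matrix (Fin 2) (Fin 2) ℤ => M.map ((↑) : ℤ → ℚ) :=
    Matrix.map_injective Int.cast_injective
  let f : H →* Matrix (Fin 2) (Fin 2) ℤ :=
    { toFun := fun h => Matrix.of (N h)
      map_one' := by
        apply hinj
        change (Matrix.of (N 1)).map ((↑) : ℤ → ℚ) = (1 : Matrix (Fin 2) (Fin 2) ℤ).map ((↑) : ℤ → ℚ)
        rw [hN', map_one, mul_one, inv_mul_cancel]
        exact (Matrix.map_one ((↑) : ℤ → ℚ) Int.cast_zero Int.cast_one).symm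
      map_mul' := fun a c => by
        apply hinj
        change (Matrix.of (N (a * c))).map ((↑) : ℤ → ℚ) =
          (Matrix.of (N a) * Matrix.of (N c)).map (Int.castRingHom ℚ)
        rw [hN', Matrix.map_mul]
        change _ = (Matrix.of (N a)).map ((↑) : ℤ → ℚ) * (Matrix.of (N c)).map ((↑) : ℤ → ℚ)
        rw [hN', hN', ← Units.val_mul, map_mul]
        congr 1
        group }
  refine ⟨f.toHomUnits, fun a c hac => ?_⟩
  have h1 : Matrix.of (N a) = Matrix.of (N c) := congrArg Units.val hac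
  have h2 := hN' a
  rw [h1, hN' c] at h2
  have h3 : P⁻¹ * σ c * P = P⁻¹ * σ a * P := Units.ext h2
  exact (hσ (mul_left_cancel (mul_right_cancel h3))).symm

end Pool.Agent.Lib.MP_c052b4_al.CT
end
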