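import Pool.Agent.Lib.MP_c052b4_al.Mg.G064
import Pool.Agent.Lib.MP_c052b4_al.Mg.G060
import Pool.Agent.Lib.MP_c052b4_al.CT.N07
import Pool.Agent.Lib.MP_c052b4_al.Mg.G063
import Pool.Agent.Lib.MP_c052b4_al.Mg.G058
import Pool.Agent.Lib.MP_c052b4_al.Mg.G061
import Pool.Agent.Lib.MP_c052b4_al.CT.X05

section

/-!
# Coherent trees, X03: affine groups: the irreducible case
-/

set_option autoImplicit false
set_option linter.unusedVariables false
set_option linter.unusedSectionVars false

namespace Pool.Agent.Lib.MP_c052b4_al.CT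

open Matrix MulAction
open Pool.Agent.Lib.MP_c052b4_al.JK

universe u

private theorem x03_bas {K : Type*} [Field K] {H : Type*} [Group H] (ρ : H →* GL (Fin 2) K)
    (a b : H) (i : Fin 4) :
    bas (ρ a : Matrix (Fin 2) (Fin 2) K) (ρ b) i =
      (ρ ((![1, a, b, a * b] : Fin 4 → H) i) : Matrix (Fin 2) (Fin 2) K) := by
  fin_cases i
  · change 1 = ((ρ 1 : GL (Fin 2) K) : Matrix (Fin 2) (Fin 2) K)
    rw [map_one]
    rfl
  · rfl
  · rfl
  · change _ = ((ρ (a * b) : GL (Fin 2) K) : Matrix (Fin 2) (Fin 2) K)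
    rw [map_mul]
    rfl

private theorem x03_det {K : Type*} [Field K] {H : Type*} [Group H] (ρ : H →* GL (Fin 2) K)
    (a b : H) : ((ρ a : Matrix (Fin 2) (Fin 2) K) * ρ b - ρ b * ρ a).det =
      (ρ (a * a * (b * b)) : Matrix (Fin 2) (Fin 2) K).trace -
        (ρ (a * b * (a * b)) : Matrix (Fin 2) (Fin 2) K).trace := by
  rw [det_comm_eq]
  simp only [map_mul, Units.val_mul]

/-- **Embedding into `GL₂(ℤ)`.**
Proof: the second half of the proof of `comm_or_embed` (N07; copy its private lemmas), which uses only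
`h0`, not the torsionfreeness. -/
theorem embed_of_det {F : Type u} [Field F] (hF : RatPlace F) {H : Type u} [Group H]
    (s : H →* GL (Fin 2) F) (hs : Function.Injective s)
    (htr : ∀ h : H, IsIntegral ℤ ((s h : Matrix (Fin 2) (Fin 2) F).trace)) (a b : H)
    (h0 : ((s a : Matrix (Fin 2) (Fin 2) F) * s b - s b * s a).det ≠ 0) :
    ∃ τ : H →* GL (Fin 2) ℤ, Function.Injective τ := by
  obtain ⟨O, π, hO⟩ := exists_local_place hF
  have hch := charZero_of_place π
  have htrZ := exists_tr π s htr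
  have hbs := x03_bas s a b
  obtain ⟨D, hD0, hD⟩ := exists_denom _ _ h0 fun i j => by
    rw [hbs, hbs, ← Units.val_mul, ← map_mul]
    exact htrZ _
  have hD' : ∀ h : H, ∃ c : Fin 4 → ℤ, (D : F) • (s h : Matrix (Fin 2) (Fin 2) F) =
      ∑ i, (c i : F) • bas (s a : Matrix (Fin 2) (Fin 2) F) (s b) i := fun h =>
    hD _ fun j => by
      rw [hbs, ← Units.val_mul, ← map_mul]
      exact htrZ _
  obtain ⟨P, hP⟩ := exists_lattice_O π hO s a b h0 hD0 hD'
  obtain ⟨σ, hσ1, hσ2⟩ := exists_reduction π s P hP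
  have hσi := injective_of_trace s hs htrZ a b h0 σ hσ1
  have h0' : ((σ a : Matrix (Fin 2) (Fin 2) ℚ) * σ b - σ b * σ a).det ≠ 0 := by
    obtain ⟨n₁, h1⟩ := htrZ (a * a * (b * b))
    obtain ⟨n₂, h2⟩ := htrZ (a * b * (a * b))
    rw [x03_det, h1, h2] at h0
    rw [x03_det, hσ1 _ _ h1, hσ1 _ _ h2]
    intro h3
    apply h0
    have h4 : n₁ = n₂ := by exact_mod_cast sub_eq_zero.1 h3
    rw [h4, sub_self]
  have hDσ : ∀ h : H, ∃ c : Fin 4 → ℤ, (D : ℚ) • (σ h : Matrix (Fin 2) (Fin 2) ℚ) =
      ∑ i, (c i : ℚ) • bas (σ a : Matrix (Fin 2) (Fin 2) ℚ) (σ b) i := by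
    intro h
    obtain ⟨c, hc⟩ := hD' h
    refine ⟨c, ?_⟩
    have h1 := hσ2 h (Fin 4) D c ![1, a, b, a * b] (by
      rw [hc]
      exact Finset.sum_congr rfl fun i _ => by rw [hbs])
    rw [h1]
    exact Finset.sum_congr rfl fun i _ => by rw [x03_bas σ a b]
  obtain ⟨P', hP'⟩ := exists_lattice_Z σ a b h0' hD0 hDσ
  exact exists_hom_Z σ hσi P' hP'

/-- The linear parts span a finitely generated group.
Proof: `exists_denom` (N02) as in N07 gives `D ≠ 0` with `D • s h ∈ ∑ ℤ • bas i`, so `s h` lies in the span of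
the four matrices `D⁻¹ • bas i`. -/
theorem span_of_det {F : Type u} [Field F] (hF : RatPlace F) {H : Type u} [Group H]
    (s : H →* GL (Fin 2) F)
    (htr : ∀ h : H, IsIntegral ℤ ((s h : Matrix (Fin 2) (Fin 2) F).trace)) (a b : H)
    (h0 : ((s a : Matrix (Fin 2) (Fin 2) F) * s b - s b * s a).det ≠ 0) :
    ∃ E : Submodule ℤ (Matrix (Fin 2) (Fin 2) F), E.FG ∧
      ∀ h, (s h : Matrix (Fin 2) (Fin 2) F) ∈ E := by
  obtain ⟨O, π, hO⟩ := exists_local_place hF
  have hch := charZero_of_place π
  have htrZ := exists_tr π s htr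
  have hbs := x03_bas s a b
  obtain ⟨D, hD0, hD⟩ := exists_denom _ _ h0 fun i j => by
    rw [hbs, hbs, ← Units.val_mul, ← map_mul]
    exact htrZ _
  have hD' : ∀ h : H, ∃ c : Fin 4 → ℤ, (D : F) • (s h : Matrix (Fin 2) (Fin 2) F) =
      ∑ i, (c i : F) • bas (s a : Matrix (Fin 2) (Fin 2) F) (s b) i := fun h =>
    hD _ fun j => by
      rw [hbs, ← Units.val_mul, ← map_mul]
      exact htrZ _
  refine ⟨Submodule.span ℤ (Set.range fun i =>
    (D : F)⁻¹ • bas (s a : Matrix (Fin 2) (Fin 2) F) (s b) i),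
    Submodule.fg_span (Set.finite_range _), fun h => ?_⟩
  obtain ⟨c, hc⟩ := hD' h
  have hDF : (D : F) ≠ 0 := Int.cast_ne_zero.2 hD0
  have h1 : (s h : Matrix (Fin 2) (Fin 2) F) =
      ∑ i, c i • ((D : F)⁻¹ • bas (s a : Matrix (Fin 2) (Fin 2) F) (s b) i) := by
    have h2 := congrArg (fun X => (D : F)⁻¹ • X) hc
    simp only [smul_smul, Finset.smul_sum] at h2
    rw [inv_mul_cancel₀ hDF, one_smul] at h2
    rw [h2]
    refine Finset.sum_congr rfl fun i _ => ?_
    rw [← Int.cast_smul_eq_zsmul F, smul_smul, mul_comm]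
  rw [h1]
  exact Submodule.sum_mem _ fun i _ => Submodule.smul_mem _ _ (Submodule.subset_span ⟨i, rfl⟩)

/-- **The irreducible case.**
Proof: `charZero_of_place`. Let `H = D.L.range` with `s = H.subtype`: `embed_of_det` gives `τ` on `H`;
`G` acts on `ULift FV` through `τ ∘ D.L.rangeRestrict` (copy the proof of `coh_of_GZ`, E04). For a vertex the
elements of the stabilizer have `τ (L g)` in a finite group (`finite_fstab`), so `L g` has finite order (`τ`
injective). `span_of_det`, `AffData.exists_fg`, `AffData.reg_coh` for `D.res S`; `Coh.tree`. -/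
theorem AffData.coh_of_det {K : Type u} [Field K] (hK : RatPlace K) {G : Type u} [Group G]
    (hG : Group.FG G) (htf : ∀ g : G, IsOfFinOrder g → g = 1) (D : AffData K G)
    (htr : ∀ g, IsIntegral ℤ ((D.L g : Matrix (Fin 2) (Fin 2) K).trace))
    (hdet : ∀ g, (D.L g : Matrix (Fin 2) (Fin 2) K).det = 1 ∨
      (D.L g : Matrix (Fin 2) (Fin 2) K).det = -1) (a b : G)
    (h0 : ((D.L a : Matrix (Fin 2) (Fin 2) K) * D.L b - D.L b * D.L a).det ≠ 0) : Coh.{u} G := by
  obtain ⟨O, π, hO⟩ := exists_local_place hK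
  have hch := charZero_of_place π
  obtain ⟨E, hE, hL⟩ := span_of_det hK D.L htr a b h0
  obtain ⟨W, hW, hw⟩ := D.exists_fg hG E hE hL
  obtain ⟨τ₀, hτ₀⟩ := embed_of_det hK D.L.range.subtype Subtype.val_injective (by
    rintro ⟨_, g, rfl⟩
    exact htr g) (⟨D.L a, a, rfl⟩ : D.L.range) ⟨D.L b, b, rfl⟩ h0
  let τ : G →* GZ := τ₀.comp D.L.rangeRestrict
  let act : MulAction G (ULift.{u} FV) :=
    { smul := fun h x => ULift.up (τ h • x.down)
      one_smul := fun x => by
        change ULift.up (τ 1 • x.down) = x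
        rw [map_one, one_smul]
      mul_smul := fun g h x => by
        change ULift.up (τ (g * h) • x.down) = ULift.up (τ g • (τ h • x.down))
        rw [map_mul, mul_smul] }
  have hsm : ∀ (h : G) (x : ULift.{u} FV), (h • x).down = τ h • x.down := fun _ _ => rfl
  let Γ : SimpleGraph (ULift.{u} FV) := FGraph.comap (Equiv.ulift.{u, 0} (α := FV)).toEmbedding
  have hadj : ∀ x y : ULift.{u} FV, Γ.Adj x y ↔ FGraph.Adj x.down y.down := fun _ _ => Iff.rfl
  have htree : Γ.IsTree := (SimpleGraph.Iso.comap Equiv.ulift FGraph).isTree_iff.2 fgraph_isTree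
  let T : TreeAction G (ULift.{u} FV) :=
    { graph := Γ
      tree := htree
      adj_smul := fun g x y h => fTree.adj_smul (τ g) _ _ h
      no_inversion := fun g x y h h1 h2 =>
        fTree.no_inversion (τ g) x.down y.down h (congrArg ULift.down h1)
          (congrArg ULift.down h2) }
  have hst : ∀ x : ULift.{u} FV, RegGroup.{u} (stabilizer G x) ∧ Coh.{u} (stabilizer G x) := by
    intro x
    have hfin := finite_fstab x.down
    refine (D.res (stabilizer G x)).reg_coh ?_ ?_ (fun g => hdet g) W hW fun g => hw g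
    · intro g hg
      have h4 : IsOfFinOrder (g : G) := (stabilizer G x).subtype.isOfFinOrder hg
      exact Subtype.ext (htf _ h4)
    · intro g
      have h2 : τ (g : G) ∈ stabilizer GZ x.down := congrArg ULift.down g.2
      have h3 : IsOfFinOrder (⟨τ (g : G), h2⟩ : stabilizer GZ x.down) := isOfFinOrder_of_finite _
      have h4 : IsOfFinOrder (τ (g : G)) := (stabilizer GZ x.down).subtype.isOfFinOrder h3
      have h5 : IsOfFinOrder (D.L.rangeRestrict (g : G)) := hτ₀.isOfFinOrder_iff.1 h4
      exact D.L.range.subtype.isOfFinOrder h5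
  refine Coh.tree G (ULift.{u} FV) T (fun v => (hst v).2) fun x y _ => ?_
  exact (hst x).1.of_injective (Subgroup.inclusion (inf_le_left : stabilizer G x ⊓ stabilizer G y ≤
    stabilizer G x)) (Subgroup.inclusion_injective _)

end Pool.Agent.Lib.MP_c052b4_al.CT
end

section

/-!
# Coherent trees, Y01: torsionfree integral groups over fields with a rational place
-/

set_option autoImplicit false
set_option linter.unusedVariables false
set_option linter.unusedSectionVars false

namespace Pool.Agent.Lib.MP_c052b4_al.CT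

open MvPolynomial
open Pool.Agent.Lib.MP_c052b4_al.JK

universe u

private theorem y01_charZero {K : Type u} [Field K] (hK : RatPlace K) : CharZero K := by
  obtain ⟨O, ⟨π⟩⟩ := hK
  exact charZero_of_place π

/-- Finitely generated triangular groups.
Proof: `dia (r g)` is integral (`integral_dia`), the same for `r g⁻¹`, with product `1` (`dia_mul`, `dia_one`):
`unit_of_integral`; `exists_triData`, `coh_of_triData`. -/
theorem coh_of_tri {K : Type u} [Field K] (hK : RatPlace K) {G : Type u} [Group G]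
    (hG : Group.FG G) (htf : ∀ g : G, IsOfFinOrder g → g = 1) (r : G →* AutA K)
    (hr : Function.Injective r) (hT : ∀ g, r g ∈ Tri K) (hi : ∀ g, LocInt (R := K) (r g)) :
    Coh.{u} G := by
  have : CharZero K := y01_charZero hK
  have hd : ∀ g, ((dia (r g)).1 = 1 ∨ (dia (r g)).1 = -1) ∧
      ((dia (r g)).2 = 1 ∨ (dia (r g)).2 = -1) := by
    intro g
    obtain ⟨h1, h2⟩ := integral_dia (hT g) (hi g)
    obtain ⟨h3, h4⟩ := integral_dia (hT g⁻¹) (hi g⁻¹)
    have h5 : dia (r g) * dia (r g⁻¹) = 1 := by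
      rw [← dia_mul _ _ (hT g) (hT g⁻¹), ← map_mul, mul_inv_cancel, map_one, dia_one]
    exact ⟨unit_of_integral hK h1 h3 (congrArg Prod.fst h5),
      unit_of_integral hK h2 h4 (congrArg Prod.snd h5)⟩
  obtain ⟨D⟩ := exists_triData r hr hT hd
  exact coh_of_triData hG htf D

/-- Finitely generated affine groups.
Proof: `exists_affData`; traces and determinants are integral (`integral_linMat`, `integral_tr_det`), the
determinants are `1` or `-1` (`unit_of_integral`). `trichotomy` for `D.L`: `AffData.coh_of_det`; or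
`tri_of_eigen` and `coh_of_tri` for `cjg r s`; or `AffData.coh_of_comm`. -/
theorem coh_of_aff {K : Type u} [Field K] (hK : RatPlace K) {G : Type u} [Group G]
    (hG : Group.FG G) (htf : ∀ g : G, IsOfFinOrder g → g = 1) (r : G →* AutA K)
    (hr : Function.Injective r) (hA : ∀ g, r g ∈ Aff K) (hi : ∀ g, LocInt (R := K) (r g)) :
    Coh.{u} G := by
  have : CharZero K := y01_charZero hK
  obtain ⟨D, hD⟩ := exists_affData r hr hA
  have hint : ∀ g, IsIntegral ℤ (linMat (r g)).trace ∧ IsIntegral ℤ (linMat (r g)).det :=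
    fun g => integral_tr_det (integral_linMat (hA g) (hi g))
  have htr : ∀ g, IsIntegral ℤ ((D.L g : Matrix (Fin 2) (Fin 2) K).trace) := by
    intro g
    rw [hD]
    exact (hint g).1
  have hdet : ∀ g, (D.L g : Matrix (Fin 2) (Fin 2) K).det = 1 ∨
      (D.L g : Matrix (Fin 2) (Fin 2) K).det = -1 := by
    intro g
    rw [hD]
    refine unit_of_integral hK (hint g).2 (hint g⁻¹).2 ?_
    rw [← Matrix.det_mul, ← linMat_mul _ _ (hA g) (hA g⁻¹), ← map_mul, mul_inv_cancel, map_one,
      linMat_one, Matrix.det_one]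
  rcases trichotomy D.L with ⟨a, b, h0⟩ | ⟨v, hv, hev⟩ | ⟨hc, a, hx⟩
  · exact AffData.coh_of_det hK hG htf D htr hdet a b h0
  · obtain ⟨s, hs⟩ := tri_of_eigen r hA v hv (fun g => by
      obtain ⟨c, hc⟩ := hev g
      exact ⟨c, by rw [← hD]; exact hc⟩)
    exact coh_of_tri hK hG htf (cjg r s) (cjg_injective hr s)
      (fun g => by rw [cjg_apply]; exact hs g) (fun g => cjg_locInt (hi g) s)
  · exact AffData.coh_of_comm hK hG htf D htr a hx hc

/-- **Torsionfree groups of integral automorphisms over a field with a rational place which fix a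
vertex.**
Proof: directed union of the finitely generated subgroups (`Coh.union`, as in `coh_of_comm`, W06);
`conj_of_fixed`, then `coh_of_aff` or `coh_of_tri` for `cjg r s`. -/
theorem coh_of_plane {K : Type u} [Field K] (hK : RatPlace K) {G : Type u} [Group G]
    (htf : ∀ g : G, IsOfFinOrder g → g = 1) (r : G →* AutA K) (hr : Function.Injective r)
    (hi : ∀ g, LocInt (R := K) (r g)) (x : VT (AlgebraicClosure K))
    (hx : ∀ g, (bc (algebraMap K (AlgebraicClosure K)) (r g) :
      AutA (AlgebraicClosure K)) • x = x) : Coh.{u} G := by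
  obtain ⟨s, hs⟩ := conj_of_fixed r x hx
  refine Coh.union G {S | S.FG} ⟨⊥, Subgroup.FG.bot⟩ ?_ ?_ ?_
  · intro A hA B hB
    exact ⟨A ⊔ B, Subgroup.FG.sup hA hB, le_sup_left, le_sup_right⟩
  · intro g
    exact ⟨Subgroup.zpowers g, ⟨{g}, by rw [Finset.coe_singleton, Subgroup.zpowers_eq_closure]⟩,
      Subgroup.mem_zpowers g⟩
  · intro S hS
    have hfg : Group.FG S := (Group.fg_iff_subgroup_fg S).2 hS
    have htfS : ∀ g : S, IsOfFinOrder g → g = 1 := fun g hg =>
      Subtype.ext (htf g ((Submonoid.isOfFinOrder_coe (H := S.toSubmonoid)).2 hg))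
    have hinj : Function.Injective ((cjg r s).comp S.subtype) :=
      (cjg_injective hr s).comp S.subtype_injective
    have hloc : ∀ g : S, LocInt (R := K) (((cjg r s).comp S.subtype) g) :=
      fun g => cjg_locInt (hi g) s
    rcases hs with hs | hs
    · exact coh_of_aff hK hfg htfS _ hinj
        (fun g => by
          have h := hs g
          rw [← cjg_apply] at h
          exact h) hloc
    · exact coh_of_tri hK hfg htfS _ hinj
        (fun g => by
          have h := hs g
          rw [← cjg_apply] at h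
          exact h) hloc

end Pool.Agent.Lib.MP_c052b4_al.CT
end
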