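import Pool.Agent.Lib.MP_c052b4_al.Descent
import Pool.Agent.Lib.MP_c052b4_al.TR.K2b

section

/-!
# The class of the vertex part
-/

set_option autoImplicit false
set_option linter.unusedSectionVars false

namespace Pool.Agent.Lib.MP_c052b4_al

open Matrix Kern

universe u v w w'

section General

variable {R : Type u} [Ring R] {G : Type v} [Group G] {V : Type w} [MulAction G V]
  {W : Type w'} [MulAction G W]

theorem hg_zero {ι κ : Type*} (l : ι → V) (l' : κ → W) (f : V → W) :
    Hg l l' f (0 : Matrix ι κ (MonoidAlgebra R G)) := fun _ _ _ h => absurd rfl h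

theorem hg_fromBlocks {ι κ ι' κ' : Type*} {l : ι → V} {l' : κ → W} {m : ι' → V} {m' : κ' → W}
    {f : V → W} {M : Matrix ι κ (MonoidAlgebra R G)} {N : Matrix ι' κ' (MonoidAlgebra R G)}
    {M' : Matrix ι κ' (MonoidAlgebra R G)} {N' : Matrix ι' κ (MonoidAlgebra R G)}
    (hM : Hg l l' f M) (hM' : Hg l m' f M') (hN' : Hg m l' f N') (hN : Hg m m' f N) :
    Hg (Sum.elim l m) (Sum.elim l' m') f (fromBlocks M M' N' N) := by
  rintro (i | i) (j | j) g hg
  · exact hM i j g hg
  · exact hM' i j g hg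
  · exact hN' i j g hg
  · exact hN i j g hg

theorem hg_fromRows {ι κ ι' : Type*} {l : ι → V} {l' : κ → W} {m : ι' → V}
    {f : V → W} {M : Matrix ι κ (MonoidAlgebra R G)} {N : Matrix ι' κ (MonoidAlgebra R G)}
    (hM : Hg l l' f M) (hN : Hg m l' f N) : Hg (Sum.elim l m) l' f (fromRows M N) := by
  rintro (i | i) j g hg
  · exact hM i j g hg
  · exact hN i j g hg

/-- constant matrices -/
theorem hg_const {ι κ : Type*} {l : ι → V} {l' : κ → V} {M : Matrix ι κ R}
    (h : ∀ i j, M i j ≠ 0 → l' j = l i) : Hg l l' id (M.map (cG R G)) := by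
  classical
  intro i j g hg
  have h3 : g = 1 := by
    by_contra h
    apply hg
    change (MonoidAlgebra.single (1 : G) (M i j)).coeff g = 0
    rw [MonoidAlgebra.coeff_single, Finsupp.single_apply, if_neg (fun h' => h h'.symm)]
  have h4 : M i j ≠ 0 := by
    intro h
    apply hg
    change (MonoidAlgebra.single (1 : G) (M i j)).coeff g = 0
    rw [h, MonoidAlgebra.single_zero]
    rfl
  rw [h3, one_smul]
  exact h i j h4

/-- The class of a matrix, one part of which is homogeneous with respect to a labelling, the other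
part with respect to another labelling. -/
theorem k1_two_mem {n κ : Type} [Fintype n] [Fintype κ] [DecidableEq n] [DecidableEq κ]
    (L1 L2 : n → V) (lV : κ → V) {q0 : Matrix n n R} (hq : q0 * q0 = q0)
    (hq1 : ∀ i j, q0 i j ≠ 0 → L1 i = L1 j) (hq2 : ∀ i j, (1 - q0) i j ≠ 0 → L2 i = L2 j)
    (M : Matrix n κ (MonoidAlgebra R G)) (C : Matrix κ n (MonoidAlgebra R G)) (hMC : M * C = 1)
    (hCM : C * M = 1) (h1 : Hg L1 lV id (q0.map (cG R G) * M))
    (h2 : Hg L2 lV id ((1 - q0).map (cG R G) * M)) (T : Matrix n κ R) (T' : Matrix κ n R)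
    (hT : T * T' = 1) (hT' : T' * T = 1) (U : (Matrix n n (MonoidAlgebra R G))ˣ)
    (hU : (U : Matrix n n (MonoidAlgebra R G)) = M * T'.map (cG R G))
    (hV : ∀ v : V, imA1 R (MulAction.stabilizer G v) = ⊤) : k1 U ∈ imA1 R G := by
  classical
  set c := cG R G with hc
  have e1 : (1 - q0) * (1 - q0) = 1 - q0 := KZero.one_sub_idem hq
  have e2 : q0 * (1 - q0) = 0 := by rw [Matrix.mul_sub, hq, Matrix.mul_one, sub_self]
  have e3 : (1 - q0) * q0 = 0 := by rw [Matrix.sub_mul, hq, Matrix.one_mul, sub_self]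
  have hmm : ∀ {p q r : Type} [Fintype q] (M : Matrix p q R) (N : Matrix q r R),
      M.map c * N.map c = (M * N).map c := fun M N => (Matrix.map_mul).symm
  have h1c : ∀ {p : Type} [Fintype p] [DecidableEq p], (1 : Matrix p p R).map c = 1 :=
    KZero.map_one_mat c _
  have hJ : fromCols q0 (1 - q0) * fromRows q0 (1 - q0) = 1 := by
    rw [Matrix.fromCols_mul_fromRows, hq, e1, add_sub_cancel]
  have hJ' : fromRows q0 (1 - q0) * fromCols q0 (1 - q0) = fromBlocks q0 0 0 (1 - q0) := by
    rw [Matrix.fromRows_mul_fromCols, hq, e1, e2, e3]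
  set J := fromCols q0 (1 - q0) with hJd
  set J' := fromRows q0 (1 - q0) with hJd'
  set P0 := fromBlocks q0 0 0 (1 - q0) with hP0
  have hPP : P0 * P0 = P0 := by
    rw [hP0, fromBlocks_multiply, hq, e1]
    simp
  have hL : ∀ i j, P0 i j ≠ 0 → Sum.elim L1 L2 i = Sum.elim L1 L2 j := by
    rintro (i | i) (j | j) h
    · exact hq1 i j h
    · exact absurd rfl h
    · exact absurd rfl h
    · exact hq2 i j h
  have hXr : J'.map c * M = fromRows (q0.map c * M) ((1 - q0).map c * M) := by
    refine Matrix.ext fun i j => ?_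
    rcases i with i | i <;> rfl
  have hX : Hg (Sum.elim L1 L2) lV id (J'.map c * M) := by
    rw [hXr]
    exact hg_fromRows h1 h2
  have hXY : J'.map c * M * (C * J.map c) = P0.map c := by
    have e4 : J'.map c * M * (C * J.map c) = J'.map c * (M * C) * J.map c := by
      simp only [Matrix.mul_assoc]
    rw [e4, hMC, Matrix.mul_one, hmm, hJ']
  have hYX : C * J.map c * (J'.map c * M) = 1 := by
    have e4 : C * J.map c * (J'.map c * M) = C * (J.map c * J'.map c) * M := by
      simp only [Matrix.mul_assoc]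
    rw [e4, hmm, hJ, h1c, Matrix.mul_one, hCM]
  have hY : Hg lV (Sum.elim L1 L2) id (C * J.map c) := by
    refine hg_inv hX ?_ hYX
    rw [hXY]
    exact hg_const fun i j h => (hL i j h).symm
  refine k1_rel_mem (Sum.elim L1 L2) lV hPP hL (J'.map c * M) (C * J.map c) hX hY hXY hYX J J' hJ
    hJ' T T' hT hT' U ?_ hV
  rw [hU, ← Matrix.mul_assoc, hmm, hJ, h1c, Matrix.one_mul]

end General

section Split

variable {R : Type u} [Ring R] {G : Type v} [Group G] {E : Type w} [MulAction G E]

/-- Splitting over one stabilizer. -/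
theorem exists_split_block (H : Subgroup G) (hH : KSurj R H) {ι : Type} [Fintype ι]
    [DecidableEq ι] {p : Matrix ι ι (MonoidAlgebra R G)} (hp : p * p = p)
    (hs : ∀ i j g, (p i j).coeff g ≠ 0 → g ∈ H) :
    ∃ (μ₁ μ₂ : Type) (_ : Fintype μ₁) (_ : DecidableEq μ₁) (_ : Fintype μ₂) (_ : DecidableEq μ₂)
      (f : Matrix μ₂ μ₂ R) (x : Matrix (ι ⊕ μ₁) μ₂ (MonoidAlgebra R G))
      (y : Matrix μ₂ (ι ⊕ μ₁) (MonoidAlgebra R G)), f * f = f ∧
      (∀ i j g, (x i j).coeff g ≠ 0 → g ∈ H) ∧ (∀ i j g, (y i j).coeff g ≠ 0 → g ∈ H) ∧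
      x * y = fromBlocks p 0 0 1 ∧ y * x = f.map (cG R G) := by
  classical
  set p0 : Matrix ι ι (MonoidAlgebra R H) := Matrix.of fun i j => rsG H (p i j) with hp0
  have h0 : p0.map (inc R H.subtype) = p := by
    refine Matrix.ext fun i j => ?_
    exact inc_rsG H (hs i j)
  have h1 : p0 * p0 = p0 := by
    apply map_injective' H.subtype H.subtype_injective
    change (p0 * p0).map (inc R H.subtype) = p0.map (inc R H.subtype)
    rw [Matrix.map_mul, h0, hp]
  obtain ⟨a, b, hab⟩ := StabInd.of_surjective _ hH h1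
  have ia := map_idem a.idem (cG R H)
  have ib := map_idem b.idem (cG R H)
  have ia' := KZero.one_sub_idem ia
  have h2 : MvN (fromBlocks (fromBlocks p0 0 0 (a.mat.map (cG R H))) 0 0 (1 - a.mat.map (cG R H)))
      (fromBlocks (b.mat.map (cG R H)) 0 0 (1 - a.mat.map (cG R H))) :=
    MvN.blocks hab (MvN.refl ia')
  have h3 := MvN.blocks_assoc h1 ia ia'
  have h4 : MvN (fromBlocks p0 0 0 (fromBlocks (a.mat.map (cG R H)) 0 0
      (1 - a.mat.map (cG R H)))) (fromBlocks p0 0 0 1) :=
    MvN.blocks (MvN.refl h1) (MvN.compl ia)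
  have i1 : (1 : Matrix (Fin a.size) (Fin a.size) (MonoidAlgebra R H)) * 1 = 1 := by simp
  have h5 : MvN (fromBlocks p0 0 0 (1 : Matrix (Fin a.size) (Fin a.size) (MonoidAlgebra R H)))
      (fromBlocks (b.mat.map (cG R H)) 0 0 (1 - a.mat.map (cG R H))) := by
    refine MvN.trans (blocks_idem h1 i1) (blocks_idem ib ia')
      (MvN.trans (blocks_idem h1 i1) (blocks_idem (blocks_idem h1 ia) ia') h4.symm h3.symm) h2
  have h6 : fromBlocks (b.mat.map (cG R H)) 0 0 (1 - a.mat.map (cG R H)) =
      (fromBlocks b.mat 0 0 (1 - a.mat)).map (cG R H) := by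
    rw [VMon.map_add_blocks, Matrix.map_sub _ (map_sub (cG R H)), KZero.map_one_mat]
  rw [h6] at h5
  obtain ⟨x, y, hxy, hyx⟩ := h5
  have hs' : ∀ (s : MonoidAlgebra R H) (g : G), (inc R H.subtype s).coeff g ≠ 0 → g ∈ H := by
    intro s g hg
    by_contra h
    apply hg
    apply sup_inc H.subtype s g
    rintro ⟨z, rfl⟩
    exact h z.2
  refine ⟨Fin a.size, Fin b.size ⊕ Fin a.size, inferInstance, inferInstance, inferInstance,
    inferInstance, fromBlocks b.mat 0 0 (1 - a.mat), x.map (inc R H.subtype),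
    y.map (inc R H.subtype), blocks_idem b.idem (KZero.one_sub_idem a.idem),
    fun i j g => hs' _ g, fun i j g => hs' _ g, ?_, ?_⟩
  · rw [← Matrix.map_mul, hxy, VMon.map_add_blocks, h0, KZero.map_one_mat]
  · rw [← Matrix.map_mul, hyx, Matrix.map_map]
    have h7 : ((inc R H.subtype : MonoidAlgebra R H → MonoidAlgebra R G) ∘
        (cG R H : R → MonoidAlgebra R H)) = cG R G := by
      funext s
      have := singleOne_comp (R := R) H.subtype
      exact RingHom.congr_fun this s
    rw [h7]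

end Split

end Pool.Agent.Lib.MP_c052b4_al
end

section

/-!
# The class of the vertex part: splitting of the idempotent
-/

set_option autoImplicit false
set_option linter.unusedSectionVars false

namespace Pool.Agent.Lib.MP_c052b4_al

open Matrix Kern

universe u v w w'

section Split

variable {R : Type u} [Ring R] {G : Type v} [Group G] {E : Type w} [MulAction G E]

/-- The rearrangement of the summands. -/
def sgm {ι : Type} (P : ι → Prop) [DecidablePred P] (α β : Type) :
    ({i // P i} ⊕ α) ⊕ ({i // ¬ P i} ⊕ β) ≃ ι ⊕ (α ⊕ β) :=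
  (Equiv.sumSumSumComm _ _ _ _).trans (Equiv.sumCongr (Equiv.sumCompl P) (Equiv.refl _))

theorem exists_split_aux (hE : ∀ e : E, KSurj R (MulAction.stabilizer G e)) :
    ∀ (n : ℕ) {ι : Type} [Fintype ι] [DecidableEq ι] (l : ι → E)
      (_ : ∀ i j (g : G), g • l j = l i → l j = l i) (p : Matrix ι ι (MonoidAlgebra R G))
      (_ : p * p = p) (_ : Hg l l id p), Fintype.card ι ≤ n →
      ∃ (μ₁ μ₂ : Type) (_ : Fintype μ₁) (_ : DecidableEq μ₁) (_ : Fintype μ₂)
        (_ : DecidableEq μ₂) (l₁ : μ₁ → E) (l₂ : μ₂ → E)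
        (f : Matrix μ₂ μ₂ R) (x : Matrix (ι ⊕ μ₁) μ₂ (MonoidAlgebra R G))
        (y : Matrix μ₂ (ι ⊕ μ₁) (MonoidAlgebra R G)), f * f = f ∧
        (∀ i j, f i j ≠ 0 → l₂ i = l₂ j) ∧ Hg (Sum.elim l l₁) l₂ id x ∧
        Hg l₂ (Sum.elim l l₁) id y ∧ x * y = fromBlocks p 0 0 1 ∧ y * x = f.map (cG R G) := by
  classical
  have hempty : ∀ {ι : Type} [Fintype ι] [DecidableEq ι] (l : ι → E)
      (p : Matrix ι ι (MonoidAlgebra R G)), IsEmpty ι →
      ∃ (μ₁ μ₂ : Type) (_ : Fintype μ₁) (_ : DecidableEq μ₁) (_ : Fintype μ₂)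
        (_ : DecidableEq μ₂) (l₁ : μ₁ → E) (l₂ : μ₂ → E)
        (f : Matrix μ₂ μ₂ R) (x : Matrix (ι ⊕ μ₁) μ₂ (MonoidAlgebra R G))
        (y : Matrix μ₂ (ι ⊕ μ₁) (MonoidAlgebra R G)), f * f = f ∧
        (∀ i j, f i j ≠ 0 → l₂ i = l₂ j) ∧ Hg (Sum.elim l l₁) l₂ id x ∧
        Hg l₂ (Sum.elim l l₁) id y ∧ x * y = fromBlocks p 0 0 1 ∧ y * x = f.map (cG R G) := by
    intro ι _ _ l p hι
    refine ⟨Empty, Empty, inferInstance, inferInstance, inferInstance, inferInstance, Empty.elim,
      Empty.elim, 0, 0, 0, ?_, ?_, hg_zero _ _ _, hg_zero _ _ _, ?_, ?_⟩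
    · exact Matrix.ext fun i => isEmptyElim i
    · exact fun i => isEmptyElim i
    · exact Matrix.ext fun i => isEmptyElim i
    · exact Matrix.ext fun i => isEmptyElim i
  intro n
  induction n with
  | zero =>
    intro ι _ _ l _ p _ _ hn
    exact hempty l p (Fintype.card_eq_zero_iff.1 (Nat.le_zero.1 hn))
  | succ n ih =>
    intro ι _ _ l hsep p hp hpl hn
    by_cases hι : IsEmpty ι
    · exact hempty l p hι
    rw [not_isEmpty_iff] at hι
    obtain ⟨i0⟩ := hι
    let P : ι → Prop := fun i => l i = l i0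
    let e : {i // P i} ⊕ {i // ¬ P i} ≃ ι := Equiv.sumCompl P
    have hp0 : ∀ i j, l i ≠ l j → p i j = 0 := by
      intro i j hij
      ext g
      by_contra hg
      exact hij (hsep i j g (hpl i j g hg)).symm
    let pa := p.submatrix (Subtype.val : {i // P i} → ι) (Subtype.val : {i // P i} → ι)
    let pb := p.submatrix (Subtype.val : {i // ¬ P i} → ι) (Subtype.val : {i // ¬ P i} → ι)
    have hpe : p.submatrix e e = fromBlocks pa 0 0 pb := by
      refine Matrix.ext fun i j => ?_
      rcases i with i | i <;> rcases j with j | j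
      · rfl
      · exact hp0 _ _ fun h' => j.2 (h'.symm.trans i.2)
      · exact hp0 _ _ fun h' => i.2 (h'.trans j.2)
      · rfl
    have hpp : fromBlocks pa 0 0 pb * fromBlocks pa 0 0 pb = fromBlocks pa 0 0 pb := by
      rw [← hpe, Matrix.submatrix_mul_equiv, hp]
    rw [fromBlocks_multiply, Matrix.fromBlocks_inj] at hpp
    simp only [Matrix.zero_mul, Matrix.mul_zero, add_zero, zero_add] at hpp
    obtain ⟨α, δ, _, _, _, _, fa, xa, ya, hfa, hxa, hya, hxya, hyxa⟩ :=
      exists_split_block (MulAction.stabilizer G (l i0)) (hE (l i0)) (p := pa) hpp.1 (by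
        intro i j g hg
        have h1 := hpl _ _ g hg
        rw [i.2, j.2] at h1
        exact h1)
    obtain ⟨β, ε, _, _, _, _, lβ, lε, fb, xb, yb, hfb, hfbl, hxb, hyb, hxyb, hyxb⟩ :=
      ih (fun i : {i // ¬ P i} => l i.1) (fun i j g h => hsep _ _ g h) pb hpp.2.2.2
        (fun i j g hg => hpl _ _ g hg) (by
          have h4 : Fintype.card {i // ¬ P i} < Fintype.card ι :=
            Fintype.card_subtype_lt (x := i0) (fun h' => h' rfl)
          omega)
    let σ : ({i // P i} ⊕ α) ⊕ ({i // ¬ P i} ⊕ β) ≃ ι ⊕ (α ⊕ β) := sgm P α β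
    have hσl : ∀ z, Sum.elim l (Sum.elim (fun _ : α => l i0) lβ) (σ z) =
        Sum.elim (fun _ : {i // P i} ⊕ α => l i0)
          (Sum.elim (fun i : {i // ¬ P i} => l i.1) lβ) z := by
      rintro ((z | z) | (z | z))
      · exact z.2
      · rfl
      · rfl
      · rfl
    have hxaH : Hg (fun _ : {i // P i} ⊕ α => l i0) (fun _ : δ => l i0) id xa :=
      fun i j g hg => hxa i j g hg
    have hyaH : Hg (fun _ : δ => l i0) (fun _ : {i // P i} ⊕ α => l i0) id ya :=
      fun i j g hg => hya i j g hg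
    have hx1 : Hg (Sum.elim (fun _ : {i // P i} ⊕ α => l i0)
        (Sum.elim (fun i : {i // ¬ P i} => l i.1) lβ)) (Sum.elim (fun _ : δ => l i0) lε) id
        (fromBlocks xa 0 0 xb) :=
      hg_fromBlocks hxaH (hg_zero _ _ _) (hg_zero _ _ _) hxb
    have hy1 : Hg (Sum.elim (fun _ : δ => l i0) lε) (Sum.elim (fun _ : {i // P i} ⊕ α => l i0)
        (Sum.elim (fun i : {i // ¬ P i} => l i.1) lβ)) id (fromBlocks ya 0 0 yb) :=
      hg_fromBlocks hyaH (hg_zero _ _ _) (hg_zero _ _ _) hyb
    refine ⟨α ⊕ β, δ ⊕ ε, inferInstance, inferInstance, inferInstance, inferInstance,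
      Sum.elim (fun _ => l i0) lβ, Sum.elim (fun _ => l i0) lε, fromBlocks fa 0 0 fb,
      (fromBlocks xa 0 0 xb).submatrix σ.symm id, (fromBlocks ya 0 0 yb).submatrix id σ.symm,
      blocks_idem hfa hfb, ?_, ?_, ?_, ?_, ?_⟩
    · rintro (i | i) (j | j) h
      · rfl
      · exact absurd rfl h
      · exact absurd rfl h
      · exact hfbl i j h
    · intro i j g hg
      obtain ⟨z, rfl⟩ := σ.surjective i
      rw [Matrix.submatrix_apply, σ.symm_apply_apply] at hg
      rw [hσl]
      exact hx1 z j g hg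
    · intro i j g hg
      obtain ⟨z, rfl⟩ := σ.surjective j
      rw [Matrix.submatrix_apply, σ.symm_apply_apply] at hg
      rw [hσl]
      exact hy1 i z g hg
    · rw [Matrix.submatrix_mul _ _ _ _ _ Function.bijective_id |>.symm, fromBlocks_multiply]
      simp only [Matrix.zero_mul, Matrix.mul_zero, add_zero, zero_add, hxya, hxyb]
      have h9 : (fromBlocks p 0 0 (1 : Matrix (α ⊕ β) (α ⊕ β) (MonoidAlgebra R G))).submatrix σ σ =
          fromBlocks (fromBlocks pa 0 0 1) 0 0 (fromBlocks pb 0 0 1) := by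
        refine Matrix.ext fun i j => ?_
        rcases i with (i | i) | (i | i) <;> rcases j with (j | j) | (j | j)
        · rfl
        · rfl
        · exact hp0 _ _ fun h' => j.2 (h'.symm.trans i.2)
        · rfl
        · rfl
        · change (1 : Matrix (α ⊕ β) (α ⊕ β) (MonoidAlgebra R G)) (Sum.inl i) (Sum.inl j) =
            (1 : Matrix α α (MonoidAlgebra R G)) i j
          simp [Matrix.one_apply]
        · rfl
        · change (1 : Matrix (α ⊕ β) (α ⊕ β) (MonoidAlgebra R G)) (Sum.inl i) (Sum.inr j) = 0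
          simp [Matrix.one_apply]
        · exact hp0 _ _ fun h' => i.2 (h'.trans j.2)
        · rfl
        · rfl
        · rfl
        · rfl
        · change (1 : Matrix (α ⊕ β) (α ⊕ β) (MonoidAlgebra R G)) (Sum.inr i) (Sum.inl j) = 0
          simp [Matrix.one_apply]
        · rfl
        · change (1 : Matrix (α ⊕ β) (α ⊕ β) (MonoidAlgebra R G)) (Sum.inr i) (Sum.inr j) =
            (1 : Matrix β β (MonoidAlgebra R G)) i j
          simp [Matrix.one_apply]
      rw [← h9, Matrix.submatrix_submatrix]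
      have h10 : (σ : _ → _) ∘ σ.symm = id := by
        funext z
        exact σ.apply_symm_apply z
      rw [h10, Matrix.submatrix_id_id]
    · have h11 : (fromBlocks ya 0 0 yb).submatrix id σ.symm * (fromBlocks xa 0 0 xb).submatrix
          σ.symm id = fromBlocks ya 0 0 yb * fromBlocks xa 0 0 xb := by
        rw [Matrix.submatrix_mul_equiv, Matrix.submatrix_id_id]
      rw [h11, fromBlocks_multiply]
      simp only [Matrix.zero_mul, Matrix.mul_zero, add_zero, zero_add, hyxa, hyxb]
      rw [VMon.map_add_blocks]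

end Split

end Pool.Agent.Lib.MP_c052b4_al
end
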