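import Pool.Agent.Lib.MP_c052b4_al.Mg.G077
import Pool.Agent.Lib.MP_c052b4_al.Mg.G078
import Pool.Agent.Lib.MP_c052b4_al.Mg.G073

section

/-!
# Change of the coefficients: homogeneous idempotents
-/

set_option autoImplicit false
set_option linter.unusedSectionVars false

namespace Pool.Agent.Lib.MP_c052b4_al

open Matrix Kern

universe u v w w'

section Ph

variable {S : Type u} [Ring S] (φ : S →+* S)

/-- the induced endomorphism of the group ring -/
noncomputable abbrev phG (φ : S →+* S) (G : Type v) [Group G] :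
    MonoidAlgebra S G →+* MonoidAlgebra S G := MonoidAlgebra.mapRingHom G φ

/-- the induced endomorphism of `K₀` is the identity -/
def KInv (φ : S →+* S) (H : Type v) [Group H] : Prop :=
  ∀ x : KZero (MonoidAlgebra S H), KZero.map (phG φ H) x = x

variable {G : Type v} [Group G] {N : Type v} [Group N]

theorem inc_phG (f : N →* G) : (inc S f).comp (phG φ N) = (phG φ G).comp (inc S f) := by
  have h := MonoidAlgebra.mapRingHom_comp_mapDomainRingHom (f := φ) (g := f)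
  exact h.symm

theorem phG_coeff (a : MonoidAlgebra S G) (g : G) : (phG φ G a).coeff g = φ (a.coeff g) := by
  simp

theorem hg_phG {X : Type w} [MulAction G X] {Y : Type w'} [MulAction G Y] {ι κ : Type*}
    {l : ι → X} {l' : κ → Y} {f : X → Y} {M : Matrix ι κ (MonoidAlgebra S G)}
    (h : Hg l l' f M) : Hg l l' f (M.map (phG φ G)) := by
  intro i j g hg
  apply h i j g
  intro h0
  apply hg
  rw [Matrix.map_apply, phG_coeff, h0, map_zero]

end Ph

section Split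

variable {S : Type u} [Ring S] (φ : S →+* S) {G : Type v} [Group G] {E : Type w} [MulAction G E]

/-- Splitting over one stabilizer. -/
theorem exists_relsplit_block (H : Subgroup G) (hH : KInv φ H) {ι : Type} [Fintype ι]
    [DecidableEq ι] {p : Matrix ι ι (MonoidAlgebra S G)} (hp : p * p = p)
    (hs : ∀ i j g, (p i j).coeff g ≠ 0 → g ∈ H) :
    ∃ (k : ℕ) (x y : Matrix (ι ⊕ Fin k) (ι ⊕ Fin k) (MonoidAlgebra S G)),
      (∀ i j g, (x i j).coeff g ≠ 0 → g ∈ H) ∧ (∀ i j g, (y i j).coeff g ≠ 0 → g ∈ H) ∧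
      x * y = fromBlocks p 0 0 1 ∧ y * x = fromBlocks (p.map (phG φ G)) 0 0 1 := by
  classical
  set p0 : Matrix ι ι (MonoidAlgebra S H) := Matrix.of fun i j => rsG H (p i j) with hp0
  have h0 : p0.map (inc S H.subtype) = p := by
    refine Matrix.ext fun i j => ?_
    exact inc_rsG H (hs i j)
  have h1 : p0 * p0 = p0 := by
    apply map_injective' H.subtype H.subtype_injective
    change (p0 * p0).map (inc S H.subtype) = p0.map (inc S H.subtype)
    rw [Matrix.map_mul, h0, hp]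
  have h2 : KZero.kc p0 h1 = KZero.kc (p0.map (phG φ H)) (map_idem h1 _) := by
    rw [← KZero.kc_map]
    exact (hH _).symm
  obtain ⟨k, x, y, hxy, hyx⟩ := (KZero.kc_eq_kc_iff h1 (map_idem h1 _)).1 h2
  have hs' : ∀ (s : MonoidAlgebra S H) (g : G), (inc S H.subtype s).coeff g ≠ 0 → g ∈ H := by
    intro s g hg
    by_contra h
    apply hg
    apply sup_inc H.subtype s g
    rintro ⟨z, rfl⟩
    exact h z.2
  refine ⟨k, x.map (inc S H.subtype), y.map (inc S H.subtype), fun i j g => hs' _ g,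
    fun i j g => hs' _ g, ?_, ?_⟩
  · rw [← Matrix.map_mul, hxy, VMon.map_add_blocks, h0, KZero.map_one_mat]
  · rw [← Matrix.map_mul, hyx, VMon.map_add_blocks, KZero.map_one_mat]
    congr 1
    rw [← h0]
    refine Matrix.ext fun i j => ?_
    exact RingHom.congr_fun (inc_phG φ H.subtype) (p0 i j)

theorem fromBlocks_sgm {A : Type u} [Ring A] {ι : Type} [DecidableEq ι] (P : ι → Prop)
    [DecidablePred P] (α β : Type) [DecidableEq α] [DecidableEq β] {p : Matrix ι ι A}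
    (h1 : ∀ i j, P i → ¬ P j → p i j = 0) (h2 : ∀ i j, ¬ P i → P j → p i j = 0) :
    (fromBlocks p 0 0 (1 : Matrix (α ⊕ β) (α ⊕ β) A)).submatrix (sgm P α β) (sgm P α β) =
      fromBlocks (fromBlocks (p.submatrix (Subtype.val : {i // P i} → ι)
        (Subtype.val : {i // P i} → ι)) 0 0 1) 0 0
        (fromBlocks (p.submatrix (Subtype.val : {i // ¬ P i} → ι)
        (Subtype.val : {i // ¬ P i} → ι)) 0 0 1) := by
  refine Matrix.ext fun i j => ?_
  rcases i with (i | i) | (i | i) <;> rcases j with (j | j) | (j | j)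
  · rfl
  · rfl
  · exact h1 _ _ i.2 j.2
  · rfl
  · rfl
  · change (1 : Matrix (α ⊕ β) (α ⊕ β) A) (Sum.inl i) (Sum.inl j) = (1 : Matrix α α A) i j
    simp [Matrix.one_apply]
  · rfl
  · change (1 : Matrix (α ⊕ β) (α ⊕ β) A) (Sum.inl i) (Sum.inr j) = 0
    simp
  · exact h2 _ _ i.2 j.2
  · rfl
  · rfl
  · rfl
  · rfl
  · change (1 : Matrix (α ⊕ β) (α ⊕ β) A) (Sum.inr i) (Sum.inl j) = 0
    simp
  · rfl
  · change (1 : Matrix (α ⊕ β) (α ⊕ β) A) (Sum.inr i) (Sum.inr j) = (1 : Matrix β β A) i j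
    simp [Matrix.one_apply]

theorem exists_relsplit_aux (hE : ∀ e : E, KInv φ (MulAction.stabilizer G e)) :
    ∀ (n : ℕ) {ι : Type} [Fintype ι] [DecidableEq ι] (l : ι → E)
      (_ : ∀ i j (g : G), g • l j = l i → l j = l i) (p : Matrix ι ι (MonoidAlgebra S G))
      (_ : p * p = p) (_ : Hg l l id p), Fintype.card ι ≤ n →
      ∃ (μ : Type) (_ : Fintype μ) (_ : DecidableEq μ) (l₁ : μ → E)
        (x y : Matrix (ι ⊕ μ) (ι ⊕ μ) (MonoidAlgebra S G)),
        Hg (Sum.elim l l₁) (Sum.elim l l₁) id x ∧ Hg (Sum.elim l l₁) (Sum.elim l l₁) id y ∧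
        x * y = fromBlocks p 0 0 1 ∧ y * x = fromBlocks (p.map (phG φ G)) 0 0 1 := by
  classical
  have hempty : ∀ {ι : Type} [Fintype ι] [DecidableEq ι] (l : ι → E)
      (p : Matrix ι ι (MonoidAlgebra S G)), IsEmpty ι →
      ∃ (μ : Type) (_ : Fintype μ) (_ : DecidableEq μ) (l₁ : μ → E)
        (x y : Matrix (ι ⊕ μ) (ι ⊕ μ) (MonoidAlgebra S G)),
        Hg (Sum.elim l l₁) (Sum.elim l l₁) id x ∧ Hg (Sum.elim l l₁) (Sum.elim l l₁) id y ∧
        x * y = fromBlocks p 0 0 1 ∧ y * x = fromBlocks (p.map (phG φ G)) 0 0 1 := by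
    intro ι _ _ l p hι
    refine ⟨Empty, inferInstance, inferInstance, Empty.elim, 0, 0, hg_zero _ _ _, hg_zero _ _ _,
      ?_, ?_⟩
    · exact Matrix.ext fun i => isEmptyElim i
    · exact Matrix.ext fun i => isEmptyElim i
  intro n
  induction n with
  | zero =>
    intro ι _ _ l _ p _ _ hn
    exact hempty l p (Fintype.card_eq_zero_iff.1 (Nat.le_zero.1 hn))
  | succ n ih =>
    intro ι _ _ l hsep p hp hpl hn
    by_cases hι : IsEmpty ι
    · exact hempty l p hι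
    rw [not_isEmpty_iff] at hι
    obtain ⟨i0⟩ := hι
    let P : ι → Prop := fun i => l i = l i0
    let e : {i // P i} ⊕ {i // ¬ P i} ≃ ι := Equiv.sumCompl P
    have hp0 : ∀ i j, l i ≠ l j → p i j = 0 := by
      intro i j hij
      ext g
      by_contra hg
      exact hij (hsep i j g (hpl i j g hg)).symm
    let pa := p.submatrix (Subtype.val : {i // P i} → ι) (Subtype.val : {i // P i} → ι)
    let pb := p.submatrix (Subtype.val : {i // ¬ P i} → ι) (Subtype.val : {i // ¬ P i} → ι)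
    have hpe : p.submatrix e e = fromBlocks pa 0 0 pb := by
      refine Matrix.ext fun i j => ?_
      rcases i with i | i <;> rcases j with j | j
      · rfl
      · exact hp0 _ _ fun h' => j.2 (h'.symm.trans i.2)
      · exact hp0 _ _ fun h' => i.2 (h'.trans j.2)
      · rfl
    have hpp : fromBlocks pa 0 0 pb * fromBlocks pa 0 0 pb = fromBlocks pa 0 0 pb := by
      rw [← hpe, Matrix.submatrix_mul_equiv, hp]
    rw [fromBlocks_multiply, Matrix.fromBlocks_inj] at hpp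
    simp only [Matrix.zero_mul, Matrix.mul_zero, add_zero, zero_add] at hpp
    obtain ⟨k, xa, ya, hxa, hya, hxya, hyxa⟩ :=
      exists_relsplit_block φ (MulAction.stabilizer G (l i0)) (hE (l i0)) (p := pa) hpp.1 (by
        intro i j g hg
        have h1 := hpl _ _ g hg
        rw [i.2, j.2] at h1
        exact h1)
    obtain ⟨β, _, _, lβ, xb, yb, hxb, hyb, hxyb, hyxb⟩ :=
      ih (fun i : {i // ¬ P i} => l i.1) (fun i j g h => hsep _ _ g h) pb hpp.2.2.2
        (fun i j g hg => hpl _ _ g hg) (by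
          have h4 : Fintype.card {i // ¬ P i} < Fintype.card ι :=
            Fintype.card_subtype_lt (x := i0) (fun h' => h' rfl)
          omega)
    let σ : ({i // P i} ⊕ Fin k) ⊕ ({i // ¬ P i} ⊕ β) ≃ ι ⊕ (Fin k ⊕ β) := sgm P (Fin k) β
    have hσl : ∀ z, Sum.elim l (Sum.elim (fun _ : Fin k => l i0) lβ) (σ z) =
        Sum.elim (fun _ : {i // P i} ⊕ Fin k => l i0)
          (Sum.elim (fun i : {i // ¬ P i} => l i.1) lβ) z := by
      rintro ((z | z) | (z | z))
      · exact z.2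
      · rfl
      · rfl
      · rfl
    have hxaH : Hg (fun _ : {i // P i} ⊕ Fin k => l i0) (fun _ : {i // P i} ⊕ Fin k => l i0)
        id xa := fun i j g hg => hxa i j g hg
    have hyaH : Hg (fun _ : {i // P i} ⊕ Fin k => l i0) (fun _ : {i // P i} ⊕ Fin k => l i0)
        id ya := fun i j g hg => hya i j g hg
    have hx1 := hg_fromBlocks hxaH (hg_zero _ _ _) (hg_zero _ _ _) hxb
    have hy1 := hg_fromBlocks hyaH (hg_zero _ _ _) (hg_zero _ _ _) hyb
    have hsub : ∀ {M : Matrix (({i // P i} ⊕ Fin k) ⊕ ({i // ¬ P i} ⊕ β))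
        (({i // P i} ⊕ Fin k) ⊕ ({i // ¬ P i} ⊕ β)) (MonoidAlgebra S G)},
        Hg (Sum.elim (fun _ : {i // P i} ⊕ Fin k => l i0)
          (Sum.elim (fun i : {i // ¬ P i} => l i.1) lβ))
          (Sum.elim (fun _ : {i // P i} ⊕ Fin k => l i0)
          (Sum.elim (fun i : {i // ¬ P i} => l i.1) lβ)) id M →
        Hg (Sum.elim l (Sum.elim (fun _ : Fin k => l i0) lβ))
          (Sum.elim l (Sum.elim (fun _ : Fin k => l i0) lβ)) id (M.submatrix σ.symm σ.symm) := by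
      intro M hM i j g hg
      obtain ⟨z, rfl⟩ := σ.surjective i
      obtain ⟨z', rfl⟩ := σ.surjective j
      rw [Matrix.submatrix_apply, σ.symm_apply_apply, σ.symm_apply_apply] at hg
      rw [hσl, hσl]
      exact hM z z' g hg
    have hcomp : ∀ {M : Matrix (ι ⊕ (Fin k ⊕ β)) (ι ⊕ (Fin k ⊕ β)) (MonoidAlgebra S G)},
        (M.submatrix σ σ).submatrix σ.symm σ.symm = M := by
      intro M
      rw [Matrix.submatrix_submatrix]
      have h10 : (σ : _ → _) ∘ σ.symm = id := by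
        funext z
        exact σ.apply_symm_apply z
      rw [h10, Matrix.submatrix_id_id]
    refine ⟨Fin k ⊕ β, inferInstance, inferInstance, Sum.elim (fun _ => l i0) lβ,
      (fromBlocks xa 0 0 xb).submatrix σ.symm σ.symm,
      (fromBlocks ya 0 0 yb).submatrix σ.symm σ.symm, hsub hx1, hsub hy1, ?_, ?_⟩
    · rw [Matrix.submatrix_mul_equiv, fromBlocks_multiply]
      simp only [Matrix.zero_mul, Matrix.mul_zero, add_zero, zero_add, hxya, hxyb]
      have h9 := fromBlocks_sgm P (Fin k) β (p := p)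
        (fun i j hi hj => hp0 i j fun h' => hj (h'.symm.trans hi))
        (fun i j hi hj => hp0 i j fun h' => hi (h'.trans hj))
      rw [← h9]
      exact hcomp
    · rw [Matrix.submatrix_mul_equiv, fromBlocks_multiply]
      simp only [Matrix.zero_mul, Matrix.mul_zero, add_zero, zero_add, hyxa, hyxb]
      have h9 := fromBlocks_sgm P (Fin k) β (p := p.map (phG φ G))
        (fun i j hi hj => by
          rw [Matrix.map_apply, hp0 i j fun h' => hj (h'.symm.trans hi), map_zero])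
        (fun i j hi hj => by
          rw [Matrix.map_apply, hp0 i j fun h' => hi (h'.trans hj), map_zero])
      have h10 : (p.map (phG φ G)).submatrix (Subtype.val : {i // P i} → ι)
          (Subtype.val : {i // P i} → ι) = pa.map (phG φ G) := rfl
      have h11 : (p.map (phG φ G)).submatrix (Subtype.val : {i // ¬ P i} → ι)
          (Subtype.val : {i // ¬ P i} → ι) = pb.map (phG φ G) := rfl
      rw [h10, h11] at h9
      rw [← h9]
      exact hcomp

/-- A homogeneous idempotent is stably equivalent to its image. -/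
theorem exists_relsplit (hE : ∀ e : E, KInv φ (MulAction.stabilizer G e)) {ι : Type} [Fintype ι]
    [DecidableEq ι] (l : ι → E) (p : Matrix ι ι (MonoidAlgebra S G))
    (hp : p * p = p) (hpl : Hg l l id p) :
      ∃ (μ : Type) (_ : Fintype μ) (_ : DecidableEq μ) (l₁ : μ → E)
        (x y : Matrix (ι ⊕ μ) (ι ⊕ μ) (MonoidAlgebra S G)),
        Hg (Sum.elim l l₁) (Sum.elim l l₁) id x ∧ Hg (Sum.elim l l₁) (Sum.elim l l₁) id y ∧
        x * y = fromBlocks p 0 0 1 ∧ y * x = fromBlocks (p.map (phG φ G)) 0 0 1 := by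
  classical
  obtain ⟨ρ, γ, h1, h2⟩ := exists_reps G E
  set D : (Matrix ι ι (MonoidAlgebra S G))ˣ := dg S (γ ∘ l) with hD
  set Dm : Matrix ι ι (MonoidAlgebra S G) := (D : Matrix ι ι (MonoidAlgebra S G)) with hDm
  set Di : Matrix ι ι (MonoidAlgebra S G) :=
    ((D⁻¹ : (Matrix ι ι (MonoidAlgebra S G))ˣ) : Matrix ι ι (MonoidAlgebra S G)) with hDi
  have hDD : Dm * Di = 1 := D.mul_inv
  have hDD' : Di * Dm = 1 := D.inv_mul
  set p' := Di * p * Dm with hp'd
  have hp' : p' * p' = p' := by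
    have e1 : p' * p' = Di * (p * (Dm * Di) * p) * Dm := by
      simp only [hp'd, Matrix.mul_assoc]
    rw [e1, hDD, Matrix.mul_one, hp]
  have hφD : Dm.map (phG φ G) = Dm := by
    rw [hDm, coe_dg]
    refine Matrix.ext fun i j => ?_
    rw [Matrix.map_apply]
    by_cases hij : i = j
    · subst hij
      rw [Matrix.diagonal_apply_eq, MonoidAlgebra.mapRingHom_single, map_one]
    · rw [Matrix.diagonal_apply_ne _ hij, map_zero]
  have hφD' : Di.map (phG φ G) = Di := by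
    rw [hDi, coe_dg_inv]
    refine Matrix.ext fun i j => ?_
    rw [Matrix.map_apply]
    by_cases hij : i = j
    · subst hij
      rw [Matrix.diagonal_apply_eq, MonoidAlgebra.mapRingHom_single, map_one]
    · rw [Matrix.diagonal_apply_ne _ hij, map_zero]
  obtain ⟨μ, _, _, l₁, x, y, hx, hy, hxy, hyx⟩ :=
    exists_relsplit_aux φ hE (Fintype.card ι) (ρ ∘ l)
      (fun i j g h => reps_eq h1 h2 h) p' hp' (hg_dg h1 hpl) le_rfl
  have hDg : Hg l (ρ ∘ l) id Dm := by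
    intro i j g hg
    rw [hDm, coe_dg] at hg
    by_cases hij : i = j
    · subst hij
      rw [Matrix.diagonal_apply_eq, MonoidAlgebra.coeff_single, Finsupp.single_apply] at hg
      have h3 : γ (l i) = g := by
        by_contra h
        exact hg (if_neg h)
      rw [← h3]
      exact h1 _
    · rw [Matrix.diagonal_apply_ne _ hij] at hg
      exact absurd rfl hg
  have hDg' : Hg (ρ ∘ l) l id Di := by
    intro i j g hg
    rw [hDi, coe_dg_inv] at hg
    by_cases hij : i = j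
    · subst hij
      rw [Matrix.diagonal_apply_eq, MonoidAlgebra.coeff_single, Finsupp.single_apply] at hg
      have h3 : (γ (l i))⁻¹ = g := by
        by_contra h
        exact hg (if_neg h)
      rw [← h3]
      exact inv_smul_eq_iff.2 (h1 _).symm
    · rw [Matrix.diagonal_apply_ne _ hij] at hg
      exact absurd rfl hg
  set DB : Matrix (ι ⊕ μ) (ι ⊕ μ) (MonoidAlgebra S G) := fromBlocks Dm 0 0 1 with hDB
  set DB' : Matrix (ι ⊕ μ) (ι ⊕ μ) (MonoidAlgebra S G) := fromBlocks Di 0 0 1 with hDB'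
  have e2 : ∀ q : Matrix ι ι (MonoidAlgebra S G),
      DB * fromBlocks (Di * q * Dm) 0 0 1 * DB' = fromBlocks q 0 0 1 := by
    intro q
    rw [hDB, hDB', fromBlocks_multiply, fromBlocks_multiply]
    simp only [Matrix.zero_mul, Matrix.mul_zero, add_zero, zero_add, Matrix.one_mul]
    congr 1
    have e3 : Dm * (Di * q * Dm) * Di = (Dm * Di) * q * (Dm * Di) := by
      simp only [Matrix.mul_assoc]
    rw [e3, hDD, Matrix.one_mul, Matrix.mul_one]
  have e4 : DB' * DB = 1 := by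
    rw [hDB, hDB', fromBlocks_multiply]
    simp only [Matrix.zero_mul, Matrix.mul_zero, add_zero, zero_add, Matrix.one_mul,
      hDD', fromBlocks_one]
  have hDBg : Hg (Sum.elim l l₁) (Sum.elim (ρ ∘ l) l₁) id DB :=
    hg_fromBlocks hDg (hg_zero _ _ _) (hg_zero _ _ _) (hg_one l₁)
  have hDBg' : Hg (Sum.elim (ρ ∘ l) l₁) (Sum.elim l l₁) id DB' :=
    hg_fromBlocks hDg' (hg_zero _ _ _) (hg_zero _ _ _) (hg_one l₁)
  refine ⟨μ, inferInstance, inferInstance, l₁, DB * x * DB', DB * y * DB', ?_, ?_, ?_, ?_⟩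
  · exact (hDBg.mul (f' := id) (fun _ _ => rfl) hx).mul (f' := id) (fun _ _ => rfl) hDBg'
  · exact (hDBg.mul (f' := id) (fun _ _ => rfl) hy).mul (f' := id) (fun _ _ => rfl) hDBg'
  · have e5 : DB * x * DB' * (DB * y * DB') = DB * (x * (DB' * DB) * y) * DB' := by
      simp only [Matrix.mul_assoc]
    rw [e5, e4, Matrix.mul_one, hxy, e2]
  · have e5 : DB * y * DB' * (DB * x * DB') = DB * (y * (DB' * DB) * x) * DB' := by
      simp only [Matrix.mul_assoc]
    have e6 : p'.map (phG φ G) = Di * p.map (phG φ G) * Dm := by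
      rw [hp'd, Matrix.map_mul, Matrix.map_mul, hφD, hφD']
    rw [e5, e4, Matrix.mul_one, hyx, e6, e2]

end Split

end Pool.Agent.Lib.MP_c052b4_al
end

section

/-!
# Change of the coefficients: the class of the vertex part
-/

set_option autoImplicit false
set_option linter.unusedSectionVars false

namespace Pool.Agent.Lib.MP_c052b4_al

open Matrix Kern

universe u v w w'

section Gen

variable {S : Type u} [Ring S] {G : Type v} [Group G] {V : Type w} [MulAction G V]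

/-- The class of a homogeneous invertible matrix comes from the stabilizers. -/
theorem k1_hg_mem_gen {ι : Type} [Fintype ι] [DecidableEq ι] (l : ι → V)
    (M : (Matrix ι ι (MonoidAlgebra S G))ˣ) (hM : Hg l l id (M : Matrix ι ι (MonoidAlgebra S G)))
    (K : AddSubgroup (KOne (MonoidAlgebra S G)))
    (hV : ∀ (v : V) (x : KOne (MonoidAlgebra S (MulAction.stabilizer G v))),
      KOne.map (inc S (MulAction.stabilizer G v).subtype) x ∈ K) : k1 M ∈ K := by
  classical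
  obtain ⟨ρ, γ, h1, h2⟩ := exists_reps G V
  let Γ : (Matrix ι ι (MonoidAlgebra S G))ˣ := dg S (γ ∘ l)
  have h3 : k1 (Γ⁻¹ * M * Γ) = k1 M := by
    rw [k1_mul, k1_mul, k1_inv]
    abel
  rw [← h3]
  have h4 : Hg (ρ ∘ l) (ρ ∘ l) id (((Γ⁻¹ * M * Γ : (Matrix ι ι (MonoidAlgebra S G))ˣ)) :
      Matrix ι ι (MonoidAlgebra S G)) := hg_dg h1 hM
  have h5 : ∀ i j g, ((((Γ⁻¹ * M * Γ : (Matrix ι ι (MonoidAlgebra S G))ˣ)) :
      Matrix ι ι (MonoidAlgebra S G)) i j).coeff g ≠ 0 →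
      g • ρ (l j) = ρ (l i) := fun i j g hg => h4 i j g hg
  refine k1_mem_of_blocks _ (ρ ∘ l) _ ?_ ?_
  · intro i j hij
    ext g
    by_contra hg
    exact hij (reps_eq h1 h2 (h5 i j g hg)).symm
  · intro μ _ _ f hf hc hr N hN
    by_cases hμ : IsEmpty μ
    · have h6 : N = 1 := Units.ext (Matrix.ext fun i => isEmptyElim i)
      rw [h6, k1_one]
      exact AddSubgroup.zero_mem _
    rw [not_isEmpty_iff] at hμ
    obtain ⟨x0⟩ := hμ
    obtain ⟨N0, hN0⟩ := exists_unit_lift (MulAction.stabilizer G (ρ (l (f x0)))) N (by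
      intro i j g hg
      rw [hN] at hg
      have h6 := h5 _ _ _ hg
      have e1 : ρ (l (f j)) = ρ (l (f x0)) := hc j x0
      have e2 : ρ (l (f i)) = ρ (l (f x0)) := hc i x0
      rw [e1, e2] at h6
      exact h6)
    rw [← hN0, ← KOne.map_k1]
    exact hV _ _

/-- Two invertible matrices with the same homogeneity. -/
theorem hg_quot {n κ : Type} [Fintype n] [Fintype κ] [DecidableEq n] [DecidableEq κ]
    (L1 L2 : n → V) (lV : κ → V) {q : Matrix n n (MonoidAlgebra S G)} (hq : q * q = q)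
    (hq1 : Hg L1 L1 id q) (hq2 : Hg L2 L2 id (1 - q))
    (M M' : Matrix n κ (MonoidAlgebra S G)) (C' : Matrix κ n (MonoidAlgebra S G))
    (hMC : M' * C' = 1) (hCM : C' * M' = 1) (h1 : Hg L1 lV id (q * M))
    (h2 : Hg L2 lV id ((1 - q) * M)) (h1' : Hg L1 lV id (q * M'))
    (h2' : Hg L2 lV id ((1 - q) * M')) : Hg lV lV id (C' * M) := by
  classical
  have e1 : (1 - q) * (1 - q) = 1 - q := KZero.one_sub_idem hq
  have e2 : q * (1 - q) = 0 := by rw [Matrix.mul_sub, hq, Matrix.mul_one, sub_self]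
  have e3 : (1 - q) * q = 0 := by rw [Matrix.sub_mul, hq, Matrix.one_mul, sub_self]
  have hX : Hg (Sum.elim L1 L2) lV id (fromRows (q * M') ((1 - q) * M')) := hg_fromRows h1' h2'
  have hXY : fromRows (q * M') ((1 - q) * M') * fromCols (C' * q) (C' * (1 - q)) =
      fromBlocks q 0 0 (1 - q) := by
    rw [Matrix.fromRows_mul_fromCols]
    have a1 : q * M' * (C' * q) = q := by
      rw [Matrix.mul_assoc, ← Matrix.mul_assoc M', hMC, Matrix.one_mul, hq]
    have a2 : q * M' * (C' * (1 - q)) = 0 := by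
      rw [Matrix.mul_assoc, ← Matrix.mul_assoc M', hMC, Matrix.one_mul, e2]
    have a3 : (1 - q) * M' * (C' * q) = 0 := by
      rw [Matrix.mul_assoc, ← Matrix.mul_assoc M', hMC, Matrix.one_mul, e3]
    have a4 : (1 - q) * M' * (C' * (1 - q)) = 1 - q := by
      rw [Matrix.mul_assoc, ← Matrix.mul_assoc M', hMC, Matrix.one_mul, e1]
    rw [a1, a2, a3, a4]
  have hYX : fromCols (C' * q) (C' * (1 - q)) * fromRows (q * M') ((1 - q) * M') = 1 := by
    rw [Matrix.fromCols_mul_fromRows]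
    have a1 : C' * q * (q * M') = C' * (q * q) * M' := by simp only [Matrix.mul_assoc]
    have a2 : C' * (1 - q) * ((1 - q) * M') = C' * ((1 - q) * (1 - q)) * M' := by
      simp only [Matrix.mul_assoc]
    rw [a1, a2, hq, e1, ← Matrix.add_mul, ← Matrix.mul_add, add_sub_cancel, Matrix.mul_one, hCM]
  have hY : Hg lV (Sum.elim L1 L2) id (fromCols (C' * q) (C' * (1 - q))) := by
    refine hg_inv hX ?_ hYX
    rw [hXY]
    exact hg_fromBlocks hq1 (hg_zero _ _ _) (hg_zero _ _ _) hq2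
  have hM : Hg (Sum.elim L1 L2) lV id (fromRows (q * M) ((1 - q) * M)) := hg_fromRows h1 h2
  have e4 : C' * M = fromCols (C' * q) (C' * (1 - q)) * fromRows (q * M) ((1 - q) * M) := by
    rw [Matrix.fromCols_mul_fromRows]
    have a1 : C' * q * (q * M) = C' * (q * q) * M := by simp only [Matrix.mul_assoc]
    have a2 : C' * (1 - q) * ((1 - q) * M) = C' * ((1 - q) * (1 - q)) * M := by
      simp only [Matrix.mul_assoc]
    rw [a1, a2, hq, e1, ← Matrix.add_mul, ← Matrix.mul_add, add_sub_cancel, Matrix.mul_one]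
  rw [e4]
  exact hY.mul (f' := id) (fun _ _ => rfl) hM

end Gen

section K2

variable {S : Type u} [Ring S] (φ : S →+* S) {G : Type v} [Group G] {E : Type w} [MulAction G E]
  {V : Type w'} [MulAction G V]

/-- The class of the vertex part, change of coefficients. -/
theorem k1_vertex_rel {ι κ ν : Type} [Fintype ι] [Fintype κ] [Fintype ν] [DecidableEq ι]
    [DecidableEq κ] [DecidableEq ν] (lE : ι → E) (lV : κ → V) (o t : E → V)
    (ho : ∀ (g : G) e, o (g • e) = g • o e) (ht : ∀ (g : G) e, t (g • e) = g • t e) (r : V)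
    (p : Matrix ι ι (MonoidAlgebra S G)) (hp : p * p = p) (hph : Hg lE lE id p)
    (A : Matrix ι κ (MonoidAlgebra S G)) (B : Matrix ν κ (MonoidAlgebra S G))
    (h1 : Hg lE lV o (p * A)) (h2 : Hg lE lV t ((1 - p) * A))
    (h3 : Hg (fun _ : ν => r) lV id B)
    (C : Matrix κ (ι ⊕ ν) (MonoidAlgebra S G)) (hC : fromRows A B * C = 1)
    (hC' : C * fromRows A B = 1)
    (T : Matrix (ι ⊕ ν) κ (MonoidAlgebra S G)) (T' : Matrix κ (ι ⊕ ν) (MonoidAlgebra S G))
    (hT : T * T' = 1) (hT' : T' * T = 1) (hφT : T'.map (phG φ G) = T')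
    (U : (Matrix (ι ⊕ ν) (ι ⊕ ν) (MonoidAlgebra S G))ˣ)
    (hU : (U : Matrix (ι ⊕ ν) (ι ⊕ ν) (MonoidAlgebra S G)) = fromRows A B * T')
    (K : AddSubgroup (KOne (MonoidAlgebra S G)))
    (hV : ∀ (v : V) (x : KOne (MonoidAlgebra S (MulAction.stabilizer G v))),
      KOne.map (inc S (MulAction.stabilizer G v).subtype) x ∈ K)
    (hK : ∀ x, KOne.map (phG φ G) x ∈ K)
    (hE : ∀ e : E, KInv φ (MulAction.stabilizer G e)) : k1 U ∈ K := by
  classical
  obtain ⟨μ, _, _, l₁, x, y, hx, hy, hxy, hyx⟩ := exists_relsplit φ hE lE p hp hph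
  set Φ := phG φ G with hΦ
  set e := fromBlocks p 0 0 (1 : Matrix μ μ (MonoidAlgebra S G)) with he
  have hee : e * e = e := blocks_idem hp (Matrix.one_mul _)
  set F := fromBlocks (p.map Φ) 0 0 (1 : Matrix μ μ (MonoidAlgebra S G)) with hFd
  have hFe : F = e.map Φ := by
    rw [hFd, he, VMon.map_add_blocks, KZero.map_one_mat]
  have hF : F * F = F := by rw [hFe, ← Matrix.map_mul, hee]
  obtain ⟨ha1, ha2⟩ := exists_alpha hee hF hxy hyx
  set al := fromBlocks (1 - e) (e * x * F) (F * y * e) (1 - F) with hal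
  set l₂ : ι ⊕ μ → E := Sum.elim lE l₁ with hl₂
  set lE' : (ι ⊕ μ) ⊕ (ι ⊕ μ) → E := Sum.elim l₂ l₂ with hlE'
  have heH : Hg l₂ l₂ id e := hg_fromBlocks hph (hg_zero _ _ _) (hg_zero _ _ _) (hg_one l₁)
  have hFH : Hg l₂ l₂ id F := by
    rw [hFe]
    exact hg_phG φ heH
  have halH : Hg lE' lE' id al := by
    refine hg_fromBlocks ((hg_one _).sub heH) ?_ ?_ ((hg_one _).sub hFH)
    · exact (heH.mul (f' := id) (fun _ _ => rfl) hx).mul (f' := id) (fun _ _ => rfl) hFH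
    · exact (hFH.mul (f' := id) (fun _ _ => rfl) hy).mul (f' := id) (fun _ _ => rfl) heH
  let alU : (Matrix ((ι ⊕ μ) ⊕ (ι ⊕ μ)) ((ι ⊕ μ) ⊕ (ι ⊕ μ)) (MonoidAlgebra S G))ˣ :=
    ⟨al, al, ha1, ha1⟩
  have hkal : k1 alU ∈ K := k1_hg_mem_gen (o ∘ lE') alU (halH.comp_label ho) K hV
  -- the swap
  set sw : Matrix ((ι ⊕ μ) ⊕ (ι ⊕ μ)) ((ι ⊕ μ) ⊕ (ι ⊕ μ)) (MonoidAlgebra S G) :=
    fromBlocks 0 1 1 0 with hsw
  have hsw1 : sw * sw = 1 := by
    rw [hsw, fromBlocks_multiply]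
    simp only [Matrix.zero_mul, Matrix.mul_zero, add_zero, zero_add, Matrix.one_mul,
      fromBlocks_one]
  have hswH : Hg lE' lE' id sw :=
    hg_fromBlocks (hg_zero _ _ _) (hg_one _) (hg_one _) (hg_zero _ _ _)
  have hswF : fromBlocks 0 0 0 F * sw = sw * fromBlocks F 0 0 0 := by
    rw [hsw, fromBlocks_multiply, fromBlocks_multiply]
    simp only [Matrix.zero_mul, Matrix.mul_zero, add_zero, zero_add, Matrix.one_mul,
      Matrix.mul_one]
  let swU : (Matrix ((ι ⊕ μ) ⊕ (ι ⊕ μ)) ((ι ⊕ μ) ⊕ (ι ⊕ μ)) (MonoidAlgebra S G))ˣ :=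
    ⟨sw, sw, hsw1, hsw1⟩
  have hksw : k1 swU ∈ K := k1_hg_mem_gen (o ∘ lE') swU (hswH.comp_label ho) K hV
  let σ : ((ι ⊕ μ) ⊕ (ι ⊕ μ)) ⊕ ν ≃ ((ι ⊕ ν) ⊕ μ) ⊕ (ι ⊕ μ) := sg4 ι μ (ι ⊕ μ) ν
  -- the enlarged matrix
  set Ap := fromBlocks (fromBlocks A 0 0 (1 : Matrix μ μ (MonoidAlgebra S G))) 0 0
    (1 : Matrix (ι ⊕ μ) (ι ⊕ μ) (MonoidAlgebra S G)) with hAp
  set Bp : Matrix ν ((κ ⊕ μ) ⊕ (ι ⊕ μ)) (MonoidAlgebra S G) := fromCols (fromCols B 0) 0 with hBp
  set P := fromRows Ap Bp with hPd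
  have hMp : P = (fromBlocks (fromBlocks (fromRows A B) 0 0
      (1 : Matrix μ μ (MonoidAlgebra S G))) 0 0
      (1 : Matrix (ι ⊕ μ) (ι ⊕ μ) (MonoidAlgebra S G))).submatrix σ id := by
    refine Matrix.ext fun i j => ?_
    rcases i with ((i | i) | i) | i <;> rcases j with (j | j) | j <;> rfl
  set Cp := (fromBlocks (fromBlocks C 0 0 (1 : Matrix μ μ (MonoidAlgebra S G))) 0 0
      (1 : Matrix (ι ⊕ μ) (ι ⊕ μ) (MonoidAlgebra S G))).submatrix id σ with hCp
  have hMC : P * Cp = 1 := by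
    rw [hMp, hCp, ← Matrix.submatrix_mul _ _ _ _ _ Function.bijective_id, fromBlocks_multiply,
      fromBlocks_multiply]
    simp only [Matrix.zero_mul, Matrix.mul_zero, add_zero, zero_add, Matrix.one_mul, hC,
      fromBlocks_one, Matrix.submatrix_one_equiv]
  have hCM : Cp * P = 1 := by
    rw [hMp, hCp, Matrix.submatrix_mul_equiv, Matrix.submatrix_id_id, fromBlocks_multiply,
      fromBlocks_multiply]
    simp only [Matrix.zero_mul, Matrix.mul_zero, add_zero, zero_add, Matrix.one_mul, hC',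
      fromBlocks_one]
  set a1 := fromBlocks al 0 0 (1 : Matrix ν ν (MonoidAlgebra S G)) with ha1d
  have ha11 : a1 * a1 = 1 := by
    rw [ha1d, fromBlocks_multiply]
    simp only [Matrix.zero_mul, Matrix.mul_zero, add_zero, zero_add, Matrix.one_mul, ha1,
      fromBlocks_one]
  set w1 := fromBlocks sw 0 0 (1 : Matrix ν ν (MonoidAlgebra S G)) with hw1d
  have hw11 : w1 * w1 = 1 := by
    rw [hw1d, fromBlocks_multiply]
    simp only [Matrix.zero_mul, Matrix.mul_zero, add_zero, zero_add, Matrix.one_mul, hsw1,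
      fromBlocks_one]
  set q : Matrix (((ι ⊕ μ) ⊕ (ι ⊕ μ)) ⊕ ν) (((ι ⊕ μ) ⊕ (ι ⊕ μ)) ⊕ ν) (MonoidAlgebra S G) :=
    fromBlocks (fromBlocks 0 0 0 F) 0 0 1 with hqd
  have hqq : q * q = q := blocks_idem (blocks_idem (Matrix.mul_zero _) hF) (Matrix.one_mul _)
  set lV' : (κ ⊕ μ) ⊕ (ι ⊕ μ) → V := Sum.elim (Sum.elim lV (o ∘ l₁)) (t ∘ l₂) with hlV'
  have hqH : ∀ h : E → V, (∀ (g : G) e, h (g • e) = g • h e) →
      Hg (Sum.elim (h ∘ lE') (fun _ : ν => r)) (Sum.elim (h ∘ lE') (fun _ : ν => r)) id q := by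
    intro h hh
    have h0 : Hg lE' lE' id (fromBlocks (0 : Matrix (ι ⊕ μ) (ι ⊕ μ) (MonoidAlgebra S G)) 0 0 F) :=
      hg_fromBlocks (hg_zero _ _ _) (hg_zero _ _ _) (hg_zero _ _ _) hFH
    exact hg_fromBlocks (h0.comp_label hh) (hg_zero _ _ _) (hg_zero _ _ _) (hg_one _)
  have haH : ∀ h : E → V, (∀ (g : G) e, h (g • e) = g • h e) →
      Hg (Sum.elim (h ∘ lE') (fun _ : ν => r)) (Sum.elim (h ∘ lE') (fun _ : ν => r)) id a1 := by
    intro h hh
    exact hg_fromBlocks (halH.comp_label hh) (hg_zero _ _ _) (hg_zero _ _ _) (hg_one _)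
  have hwH : ∀ h : E → V, (∀ (g : G) e, h (g • e) = g • h e) →
      Hg (Sum.elim (h ∘ lE') (fun _ : ν => r)) (Sum.elim (h ∘ lE') (fun _ : ν => r)) id w1 := by
    intro h hh
    exact hg_fromBlocks (hswH.comp_label hh) (hg_zero _ _ _) (hg_zero _ _ _) (hg_one _)
  have hBH : Hg (fun _ : ν => r) lV' id Bp := by
    rintro i ((j | j) | j) g hg
    · exact h3 i j g hg
    · exact absurd rfl hg
    · exact absurd rfl hg
  set eh : Matrix (((ι ⊕ μ) ⊕ (ι ⊕ μ)) ⊕ ν) (((ι ⊕ μ) ⊕ (ι ⊕ μ)) ⊕ ν) (MonoidAlgebra S G) :=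
    fromBlocks (fromBlocks e 0 0 0) 0 0 1 with heh
  set P1 := fromRows (fromBlocks (fromBlocks (p * A) 0 0 (1 : Matrix μ μ (MonoidAlgebra S G))) 0 0
      (0 : Matrix (ι ⊕ μ) (ι ⊕ μ) (MonoidAlgebra S G))) Bp with hP1d
  set P2 : Matrix (((ι ⊕ μ) ⊕ (ι ⊕ μ)) ⊕ ν) ((κ ⊕ μ) ⊕ (ι ⊕ μ)) (MonoidAlgebra S G) :=
    fromRows (fromBlocks (fromBlocks ((1 - p) * A) 0 0
        (0 : Matrix μ μ (MonoidAlgebra S G))) 0 0
      (1 : Matrix (ι ⊕ μ) (ι ⊕ μ) (MonoidAlgebra S G))) 0 with hP2d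
  have hP1H : Hg (Sum.elim (o ∘ lE') (fun _ : ν => r)) lV' id P1 := by
    refine hg_fromRows ?_ hBH
    have e1 : o ∘ lE' = Sum.elim (Sum.elim (o ∘ lE) (o ∘ l₁)) (o ∘ l₂) := by
      funext z
      rcases z with (z | z) | z <;> rfl
    rw [e1]
    exact hg_fromBlocks (hg_fromBlocks (fun i j g hg => h1 i j g hg) (hg_zero _ _ _)
      (hg_zero _ _ _) (hg_one _)) (hg_zero _ _ _) (hg_zero _ _ _) (hg_zero _ _ _)
  have hP2H : Hg (Sum.elim (t ∘ lE') (fun _ : ν => r)) lV' id P2 := by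
    refine hg_fromRows ?_ (hg_zero _ _ _)
    have e1 : t ∘ lE' = Sum.elim (Sum.elim (t ∘ lE) (t ∘ l₁)) (t ∘ l₂) := by
      funext z
      rcases z with (z | z) | z <;> rfl
    rw [e1]
    exact hg_fromBlocks (hg_fromBlocks (fun i j g hg => h2 i j g hg) (hg_zero _ _ _)
      (hg_zero _ _ _) (hg_zero _ _ _)) (hg_zero _ _ _) (hg_zero _ _ _) (hg_one _)
  have hehP : eh * P = P1 := by
    rw [heh, hPd, Matrix.fromBlocks_mul_fromRows, hAp, he, fromBlocks_multiply,
      fromBlocks_multiply]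
    simp only [Matrix.zero_mul, Matrix.mul_zero, add_zero, zero_add, Matrix.one_mul]
    rfl
  have hP12 : P - P1 = P2 := by
    refine Matrix.ext fun i j => ?_
    rcases i with ((i | i) | i) | i <;> rcases j with (j | j) | j
    · change A i j - (p * A) i j = ((1 - p) * A : Matrix ι κ (MonoidAlgebra S G)) i j
      rw [Matrix.sub_mul, Matrix.one_mul, Matrix.sub_apply]
    all_goals exact (by
      first
        | exact sub_self _
        | exact sub_zero _)
  have hP1 : q * (a1 * P) = a1 * P1 := by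
    have e1 : q * a1 = a1 * eh := by
      rw [hqd, ha1d, heh, blk_mul, blk_mul, ha2]
    rw [← Matrix.mul_assoc, e1, Matrix.mul_assoc, hehP]
  have hP2 : (1 - q) * (a1 * P) = a1 * P2 := by
    rw [Matrix.sub_mul, hP1, Matrix.one_mul, ← Matrix.mul_sub, hP12]
  have hP1' : q * (w1 * P.map Φ) = w1 * P1.map Φ := by
    have e1 : q * w1 = w1 * eh.map Φ := by
      have e2 : eh.map Φ = fromBlocks (fromBlocks F 0 0 0) 0 0 1 := by
        rw [heh, VMon.map_add_blocks, VMon.map_add_blocks, ← hFe, KZero.map_one_mat,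
          Matrix.map_zero _ (map_zero Φ)]
      rw [e2, hqd, hw1d, blk_mul, blk_mul, hswF]
    rw [← Matrix.mul_assoc, e1, Matrix.mul_assoc, ← Matrix.map_mul, hehP]
  have hP2' : (1 - q) * (w1 * P.map Φ) = w1 * P2.map Φ := by
    rw [Matrix.sub_mul, hP1', Matrix.one_mul, ← Matrix.mul_sub, ← hP12]
    congr 1
    exact (Matrix.map_sub _ (map_sub Φ) _ _).symm
  have hMΦ : P.map Φ * Cp.map Φ = 1 := by
    rw [← Matrix.map_mul, hMC, KZero.map_one_mat]
  have hMΦ' : Cp.map Φ * P.map Φ = 1 := by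
    rw [← Matrix.map_mul, hCM, KZero.map_one_mat]
  set M := a1 * P with hM
  set M' := w1 * P.map Φ with hM'
  set C1 := Cp * a1 with hC1
  set C1' := Cp.map Φ * w1 with hC1'
  have m1 : M * C1 = 1 := by
    have e1 : M * C1 = a1 * (P * Cp) * a1 := by simp only [hM, hC1, Matrix.mul_assoc]
    rw [e1, hMC, Matrix.mul_one, ha11]
  have m2 : C1 * M = 1 := by
    have e1 : C1 * M = Cp * (a1 * a1) * P := by simp only [hM, hC1, Matrix.mul_assoc]
    rw [e1, ha11, Matrix.mul_one, hCM]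
  have m1' : M' * C1' = 1 := by
    have e1 : M' * C1' = w1 * (P.map Φ * Cp.map Φ) * w1 := by
      simp only [hM', hC1', Matrix.mul_assoc]
    rw [e1, hMΦ, Matrix.mul_one, hw11]
  have m2' : C1' * M' = 1 := by
    have e1 : C1' * M' = Cp.map Φ * (w1 * w1) * P.map Φ := by
      simp only [hM', hC1', Matrix.mul_assoc]
    rw [e1, hw11, Matrix.mul_one, hMΦ']
  have hQH : Hg lV' lV' id (C1' * M) := by
    refine hg_quot (Sum.elim (o ∘ lE') (fun _ : ν => r)) (Sum.elim (t ∘ lE') (fun _ : ν => r)) lV'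
      hqq (hqH o ho) ((hg_one _).sub (hqH t ht)) M M' C1' m1' m2' ?_ ?_ ?_ ?_
    · rw [hP1]
      exact (haH o ho).mul (f' := id) (fun _ _ => rfl) hP1H
    · rw [hP2]
      exact (haH t ht).mul (f' := id) (fun _ _ => rfl) hP2H
    · rw [hP1']
      exact (hwH o ho).mul (f' := id) (fun _ _ => rfl) (hg_phG φ hP1H)
    · rw [hP2']
      exact (hwH t ht).mul (f' := id) (fun _ _ => rfl) (hg_phG φ hP2H)
  let QU : (Matrix ((κ ⊕ μ) ⊕ (ι ⊕ μ)) ((κ ⊕ μ) ⊕ (ι ⊕ μ)) (MonoidAlgebra S G))ˣ :=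
    { val := C1' * M
      inv := C1 * M'
      val_inv := by
        have e1 : C1' * M * (C1 * M') = C1' * (M * C1) * M' := by simp only [Matrix.mul_assoc]
        rw [e1, m1, Matrix.mul_one, m2']
      inv_val := by
        have e1 : C1 * M' * (C1' * M) = C1 * (M' * C1') * M := by simp only [Matrix.mul_assoc]
        rw [e1, m1', Matrix.mul_one, m2] }
  have hkQ : k1 QU ∈ K := k1_hg_mem_gen lV' QU hQH K hV
  set Th := (fromBlocks (fromBlocks T 0 0 (1 : Matrix μ μ (MonoidAlgebra S G))) 0 0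
        (1 : Matrix (ι ⊕ μ) (ι ⊕ μ) (MonoidAlgebra S G))).submatrix σ id with hTh
  set Th' := (fromBlocks (fromBlocks T' 0 0 (1 : Matrix μ μ (MonoidAlgebra S G))) 0 0
        (1 : Matrix (ι ⊕ μ) (ι ⊕ μ) (MonoidAlgebra S G))).submatrix id σ with hTh'
  have t1 : Th * Th' = 1 := by
    rw [hTh, hTh', ← Matrix.submatrix_mul _ _ _ _ _ Function.bijective_id, fromBlocks_multiply,
      fromBlocks_multiply]
    simp only [Matrix.zero_mul, Matrix.mul_zero, add_zero, zero_add, Matrix.one_mul, hT,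
      fromBlocks_one, Matrix.submatrix_one_equiv]
  have t2 : Th' * Th = 1 := by
    rw [hTh, hTh', Matrix.submatrix_mul_equiv, Matrix.submatrix_id_id, fromBlocks_multiply,
      fromBlocks_multiply]
    simp only [Matrix.zero_mul, Matrix.mul_zero, add_zero, zero_add, Matrix.one_mul, hT',
      fromBlocks_one]
  have hPT : ∀ (A' : Matrix (ι ⊕ ν) κ (MonoidAlgebra S G)),
      (fromBlocks (fromBlocks A' 0 0 (1 : Matrix μ μ (MonoidAlgebra S G))) 0 0
      (1 : Matrix (ι ⊕ μ) (ι ⊕ μ) (MonoidAlgebra S G))).submatrix σ id * Th' =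
      (fromBlocks (fromBlocks (A' * T') 0 0 (1 : Matrix μ μ (MonoidAlgebra S G))) 0 0
      (1 : Matrix (ι ⊕ μ) (ι ⊕ μ) (MonoidAlgebra S G))).submatrix σ σ := by
    intro A'
    rw [hTh', ← Matrix.submatrix_mul _ _ _ _ _ Function.bijective_id, fromBlocks_multiply,
      fromBlocks_multiply]
    simp only [Matrix.zero_mul, Matrix.mul_zero, add_zero, zero_add, Matrix.one_mul]
  have hPΦ : P.map Φ = (fromBlocks (fromBlocks ((fromRows A B).map Φ) 0 0
      (1 : Matrix μ μ (MonoidAlgebra S G))) 0 0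
      (1 : Matrix (ι ⊕ μ) (ι ⊕ μ) (MonoidAlgebra S G))).submatrix σ id := by
    rw [hMp, ← Matrix.submatrix_map, Matrix.fromBlocks_map, Matrix.fromBlocks_map,
      Matrix.map_zero _ (map_zero Φ), Matrix.map_zero _ (map_zero Φ),
      Matrix.map_zero _ (map_zero Φ), Matrix.map_zero _ (map_zero Φ), KZero.map_one_mat,
      KZero.map_one_mat]
  let U1 : (Matrix (((ι ⊕ μ) ⊕ (ι ⊕ μ)) ⊕ ν) (((ι ⊕ μ) ⊕ (ι ⊕ μ)) ⊕ ν) (MonoidAlgebra S G))ˣ :=
    bl alU 1 * rU σ.symm (bl (bl U (1 : (Matrix μ μ (MonoidAlgebra S G))ˣ))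
      (1 : (Matrix (ι ⊕ μ) (ι ⊕ μ) (MonoidAlgebra S G))ˣ))
  have hkU1 : k1 U1 = k1 alU + k1 U := by
    rw [k1_mul, k1_bl_one, k1_rU, k1_bl_one, k1_bl_one]
  have hU1 : (U1 : Matrix (((ι ⊕ μ) ⊕ (ι ⊕ μ)) ⊕ ν) (((ι ⊕ μ) ⊕ (ι ⊕ μ)) ⊕ ν)
      (MonoidAlgebra S G)) = M * Th' := by
    rw [Units.val_mul, coe_bl, coe_rU, coe_bl, coe_bl, hU, hM, Matrix.mul_assoc]
    change a1 * _ = a1 * _
    congr 1
    rw [hMp, hPT]
    rfl
  let U2 : (Matrix (((ι ⊕ μ) ⊕ (ι ⊕ μ)) ⊕ ν) (((ι ⊕ μ) ⊕ (ι ⊕ μ)) ⊕ ν) (MonoidAlgebra S G))ˣ :=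
    bl swU 1 * rU σ.symm (bl (bl (mU Φ U) (1 : (Matrix μ μ (MonoidAlgebra S G))ˣ))
      (1 : (Matrix (ι ⊕ μ) (ι ⊕ μ) (MonoidAlgebra S G))ˣ))
  have hkU2 : k1 U2 = k1 swU + KOne.map Φ (k1 U) := by
    rw [k1_mul, k1_bl_one, k1_rU, k1_bl_one, k1_bl_one, KOne.map_k1]
  have hU2 : (U2 : Matrix (((ι ⊕ μ) ⊕ (ι ⊕ μ)) ⊕ ν) (((ι ⊕ μ) ⊕ (ι ⊕ μ)) ⊕ ν)
      (MonoidAlgebra S G)) = M' * Th' := by
    rw [Units.val_mul, coe_bl, coe_rU, coe_bl, coe_bl, coe_mU, hU, hM', Matrix.mul_assoc]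
    change w1 * _ = w1 * _
    congr 1
    rw [hPΦ, hPT, Matrix.map_mul, hφT]
    rfl
  have hfin : U1 = U2 * rectU Th Th' t1 t2 QU := by
    apply Units.ext
    have e0 : ((U2 * rectU Th Th' t1 t2 QU :
        (Matrix (((ι ⊕ μ) ⊕ (ι ⊕ μ)) ⊕ ν) (((ι ⊕ μ) ⊕ (ι ⊕ μ)) ⊕ ν) (MonoidAlgebra S G))ˣ) :
        Matrix (((ι ⊕ μ) ⊕ (ι ⊕ μ)) ⊕ ν) (((ι ⊕ μ) ⊕ (ι ⊕ μ)) ⊕ ν) (MonoidAlgebra S G)) =
        (U2 : Matrix (((ι ⊕ μ) ⊕ (ι ⊕ μ)) ⊕ ν) (((ι ⊕ μ) ⊕ (ι ⊕ μ)) ⊕ ν) (MonoidAlgebra S G)) *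
          (Th * (C1' * M) * Th') := rfl
    rw [hU1, e0, hU2]
    have e1 : M' * Th' * (Th * (C1' * M) * Th') = M' * (Th' * Th) * C1' * M * Th' := by
      simp only [Matrix.mul_assoc]
    rw [e1, t2, Matrix.mul_one, m1', Matrix.one_mul]
  have hk : k1 U1 = k1 U2 + k1 QU := by
    rw [hfin]
    exact (k1_mul U2 (rectU Th Th' t1 t2 QU)).trans (by rw [k1_rectU])
  rw [hkU1, hkU2] at hk
  have e1 : k1 U = k1 swU + KOne.map Φ (k1 U) + k1 QU - k1 alU := by
    rw [← hk, add_sub_cancel_left]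
  rw [e1]
  exact K.sub_mem (K.add_mem (K.add_mem hksw (hK _)) hkQ) hkal

end K2

end Pool.Agent.Lib.MP_c052b4_al
end

section

/-!
# `K₁` of the group ring of a group acting on a tree, relative to an endomorphism of the
coefficients
-/

set_option autoImplicit false
set_option linter.unusedSectionVars false

namespace Pool.Agent.Lib.MP_c052b4_al

open Matrix MulAction

universe u v w w'

section Main

variable {S : Type u} [Ring S] (φ : S →+* S) {G : Type v} [Group G] {V : Type w} {E : Type w'}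
    [MulAction G V] [MulAction G E] (O : OTree G V E)

include O in
/-- **Relative version of `A₁` for groups acting on trees.** -/
theorem kOne_mem_of_otree_rayT (K : AddSubgroup (KOne (MonoidAlgebra S G)))
    (hV : ∀ (v : V) (x : KOne (MonoidAlgebra S (MulAction.stabilizer G v))),
      KOne.map (inc S (MulAction.stabilizer G v).subtype) x ∈ K)
    (hK : ∀ x, KOne.map (phG φ G) x ∈ K)
    (hE : ∀ e : E, KInv φ (MulAction.stabilizer G e)) {P : Subgroup G → Prop}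
    (hmono : ∀ H H' : Subgroup G, H' ≤ H → P H → P H')
    (hD : ∀ H : Subgroup G, P H → DDP (MonoidAlgebra S H))
    (hray : ∀ x : ℕ → E ⊕ E, (∀ n, O.fol (x n) (x (n + 1))) → ∃ n, P (fixG G x n))
    (x : KOne (MonoidAlgebra S G)) : x ∈ K := by
  classical
  obtain ⟨n, U, rfl⟩ := exists_k1 x
  obtain ⟨r⟩ : Nonempty V := O.tree.connected.nonempty
  obtain ⟨F, M, D, L, hDs, hDt, hL, hLe⟩ := exists_cdata O r U
  set A := MonoidAlgebra S G with hA
  obtain ⟨U1, hU1, hk1⟩ := D.exists_unit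
  -- the nilpotent part
  have hnil : kk (-D.Nh) = 0 :=
    nil_rayT hmono hD (CData.lD M.lE) D.Nh D.isNilpotent_Nh (fltPow (CData.lD M.lE) D.Nh D.isNilpotent_Nh
      fun k ξ ξ' x hx h => CData.unique_step (lE := M.lE) D.Nh D.sp_Nh k ξ ξ' x hx h)
      O.fol (fun g x y => O.fol_smul g x y) D.sp_Nh hray
  rw [hnil, neg_zero] at hk1
  -- the vertex part
  set Pm : Matrix (M.ι ⊕ Fin n) M.κ A := fromRows (D.p * D.s - (1 - D.p) * D.t) D.B with hP
  set Θ : Matrix (M.ι ⊕ Fin n) M.κ A := fromRows (D.s - D.t) D.B with hΘ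
  set Θ' : Matrix M.κ (M.ι ⊕ Fin n) A := fromCols D.ρ D.σ with hΘ'
  have hΘΘ' : Θ * Θ' = 1 := by
    rw [hΘ, hΘ', fromRows_mul_fromCols, D.e2, D.e3, D.e4, D.e5, fromBlocks_one]
  have hΘ'Θ : Θ' * Θ = 1 := by
    rw [hΘ, hΘ', fromCols_mul_fromRows, D.e1]
  let U1m : Matrix (M.ι ⊕ Fin n) (M.ι ⊕ Fin n) A := U1
  let U1i : Matrix (M.ι ⊕ Fin n) (M.ι ⊕ Fin n) A :=
    ((U1⁻¹ : (Matrix (M.ι ⊕ Fin n) (M.ι ⊕ Fin n) A)ˣ) : Matrix (M.ι ⊕ Fin n) (M.ι ⊕ Fin n) A)
  have hmi : U1m * U1i = 1 := Units.mul_inv U1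
  have him : U1i * U1m = 1 := Units.inv_mul U1
  have hU1' : U1m = Pm * Θ' := hU1
  have hPe : Pm = U1m * Θ := by
    rw [hU1', Matrix.mul_assoc, hΘ'Θ, Matrix.mul_one]
  let C : Matrix M.κ (M.ι ⊕ Fin n) A := Θ' * U1i
  have hPC : Pm * C = 1 := by
    change Pm * (Θ' * U1i) = 1
    rw [← Matrix.mul_assoc, ← hU1', hmi]
  have hCP : C * Pm = 1 := by
    change Θ' * U1i * Pm = 1
    rw [hPe, Matrix.mul_assoc, ← Matrix.mul_assoc U1i, him, Matrix.one_mul, hΘ'Θ]
  let T : Matrix (M.ι ⊕ Fin n) M.κ A := fromRows (zc A M.s - zc A M.t) (zc A M.i0)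
  let T' : Matrix M.κ (M.ι ⊕ Fin n) A := fromCols (zc A M.ρ) (zc A M.a)
  have hTT' : T * T' = 1 := by
    change fromRows _ _ * fromCols _ _ = 1
    rw [fromRows_mul_fromCols, e2', e3', e4', e5', fromBlocks_one]
  have hT'T : T' * T = 1 := by
    change fromCols _ _ * fromRows _ _ = 1
    rw [fromCols_mul_fromRows, e1']
  have hT'A : T'.map (phG φ G) = T' := by
    refine Matrix.ext fun i j => ?_
    rcases j with j | j
    · change phG φ G ((M.ρ i j : ℤ) : A) = ((M.ρ i j : ℤ) : A)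
      exact map_intCast _ _
    · change phG φ G ((M.a i j : ℤ) : A) = ((M.a i j : ℤ) : A)
      exact map_intCast _ _
  have hfin : ((U1 * L : (Matrix (M.ι ⊕ Fin n) (M.ι ⊕ Fin n) A)ˣ) :
      Matrix (M.ι ⊕ Fin n) (M.ι ⊕ Fin n) A) = Pm * T' := by
    change U1m * (L : Matrix (M.ι ⊕ Fin n) (M.ι ⊕ Fin n) A) = _
    rw [hPe, Matrix.mul_assoc, ← hLe]
  have hmem := k1_vertex_rel φ M.lE M.lV O.o O.t O.o_smul O.t_smul r D.p D.p_mul_p D.hg_p
    (D.p * D.s - (1 - D.p) * D.t) D.B (by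
      have h1 : D.p * (D.p * D.s - (1 - D.p) * D.t) = D.p * D.s := by
        rw [Matrix.mul_sub, ← Matrix.mul_assoc, ← Matrix.mul_assoc, D.p_mul_p, D.p_mul_one_sub,
          Matrix.zero_mul, sub_zero]
      rw [h1]
      exact Hg.mul O.o_smul D.hg_p D.hs) (by
      have h1 : (1 - D.p) * (D.p * D.s - (1 - D.p) * D.t) = -((1 - D.p) * D.t) := by
        rw [Matrix.mul_sub, ← Matrix.mul_assoc, ← Matrix.mul_assoc, D.one_sub_mul_p,
          D.one_sub_idem', Matrix.zero_mul, zero_sub]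
      rw [h1]
      exact (Hg.mul O.t_smul ((hg_one M.lE).sub D.hg_p) D.ht).neg) D.hB C hPC hCP T T' hTT' hT'T
      hT'A (U1 * L) hfin K hV hK hE
  rw [k1_mul, hk1, zero_add, hL] at hmem
  exact hmem

end Main

end Pool.Agent.Lib.MP_c052b4_al
end
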