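import Pool.Agent.Lib.MP_c052b4_al.TD.NK1
import Pool.Agent.Lib.MP_c052b4_al.Mg.G081
import Pool.Agent.Lib.MP_c052b4_al.Mg.G095
import Pool.Agent.Lib.MP_c052b4_al.TD.PolReg

section

/-!
# `K_i(S) → K_i(S[X])`, `i ≤ 1`, for the group rings of the groups in `TDCl`
-/

set_option autoImplicit false
set_option linter.unusedSectionVars false

namespace Pool.Agent.Lib.MP_c052b4_al

open Matrix MulAction

universe u v w

/-- The functor `K₁`. -/
noncomputable def K1Fun : AbFunctor.{u} where
  obj S _ := AddCommGrpCat.of (KOne S)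
  map f := KOne.map f
  map_id _ _ := AddMonoidHom.ext fun x => KOne.map_id x
  map_comp _ _ := AddMonoidHom.ext fun x => KOne.map_comp _ _ x

section PolIso

variable (S : Type u) [Ring S]

/-- the inclusion of the constants -/
noncomputable abbrev cP : S →+* Pol S := MonoidAlgebra.singleOneRingHom

/-- the two models of the polynomial ring -/
noncomputable def polIso : Polynomial S ≃+* Pol S :=
  (Polynomial.toFinsuppIso S).trans (AddMonoidAlgebra.toMultiplicative S ℕ)

theorem polIso_C : ((polIso S : Polynomial S ≃+* Pol S) : Polynomial S →+* Pol S).comp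
    Polynomial.C = cP S := by
  apply RingHom.ext
  intro a
  change AddMonoidAlgebra.toMultiplicative S ℕ (Polynomial.toFinsuppIso S (Polynomial.C a)) = _
  rw [Polynomial.toFinsuppIso_apply, Polynomial.toFinsupp_C, AddMonoidAlgebra.toMultiplicative_single]
  rfl

end PolIso

section Functor

variable (F : AbFunctor.{u})

theorem AbFunctor.map_map {S T W : Type u} [Ring S] [Ring T] [Ring W] (g : T →+* W) (f : S →+* T)
    (x : F.obj S) : F.map g (F.map f x) = F.map (g.comp f) x := by
  rw [F.map_comp]; rfl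

theorem AbFunctor.map_one {S : Type u} [Ring S] (x : F.obj S) : F.map (RingHom.id S) x = x := by
  rw [F.map_id]; rfl

theorem AbFunctor.surjective_of_equiv {S T : Type u} [Ring S] [Ring T] (e : S ≃+* T) :
    Function.Surjective (F.map (e : S →+* T)) := by
  intro y
  refine ⟨F.map (e.symm : T →+* S) y, ?_⟩
  rw [F.map_map]
  have : (e : S →+* T).comp (e.symm : T →+* S) = RingHom.id T := by ext x; simp
  rw [this, F.map_one]

/-- `F(S) → F(S[t])` is onto -/
def AbFunctor.SurPol (S : Type u) [Ring S] : Prop := Function.Surjective (F.map (cP S))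

theorem AbFunctor.surPol_iff (S : Type u) [Ring S] :
    F.SurPol S ↔ Function.Surjective (F.map (Polynomial.C : S →+* Polynomial S)) := by
  constructor
  · intro h y
    obtain ⟨x, hx⟩ := h (F.map ((polIso S : Polynomial S ≃+* Pol S) : Polynomial S →+* Pol S) y)
    refine ⟨x, ?_⟩
    have h1 := congrArg (F.map ((polIso S).symm : Pol S →+* Polynomial S)) hx
    rw [F.map_map, F.map_map, ← polIso_C, ← RingHom.comp_assoc] at h1
    have h2 : ((polIso S).symm : Pol S →+* Polynomial S).comp
        ((polIso S : Polynomial S ≃+* Pol S) : Polynomial S →+* Pol S) = RingHom.id _ := by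
      ext x <;> simp
    rw [h2, RingHom.id_comp, F.map_one] at h1
    exact h1
  · intro h y
    obtain ⟨x, hx⟩ := h (F.map ((polIso S).symm : Pol S →+* Polynomial S) y)
    refine ⟨x, ?_⟩
    have h1 := congrArg (F.map ((polIso S : Polynomial S ≃+* Pol S) : Polynomial S →+* Pol S)) hx
    rw [F.map_map, F.map_map, polIso_C] at h1
    have h2 : ((polIso S : Polynomial S ≃+* Pol S) : Polynomial S →+* Pol S).comp
        ((polIso S).symm : Pol S →+* Polynomial S) = RingHom.id _ := by
      apply RingHom.ext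
      intro x
      simp
    rw [h2, F.map_one] at h1
    exact h1

theorem AbFunctor.injective_of_retraction {S T : Type u} [Ring S] [Ring T] (c : S →+* T)
    (r : T →+* S) (h : r.comp c = RingHom.id S) : Function.Injective (F.map c) := by
  intro x y hxy
  have h1 := congrArg (F.map r) hxy
  rwa [F.map_map, F.map_map, h, F.map_one, F.map_one] at h1

/-- `F(S[z, z⁻¹]) → F(S[t][z, z⁻¹])` is onto -/
theorem AbFunctor.SurPol.lau {S : Type u} [Ring S] (h : F.SurPol (Lau S)) :
    Function.Surjective (F.map (MonoidAlgebra.mapRingHom (Multiplicative ℤ) (cP S))) := by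
  intro y
  let e : Lau (Pol S) ≃+* Pol (Lau S) := MonoidAlgebra.commRingEquiv
  obtain ⟨x, hx⟩ := h (F.map (e : Lau (Pol S) →+* Pol (Lau S)) y)
  refine ⟨x, ?_⟩
  have h1 := congrArg (F.map (e.symm : Pol (Lau S) →+* Lau (Pol S))) hx
  rw [F.map_map, F.map_map] at h1
  have h2 : (e.symm : Pol (Lau S) →+* Lau (Pol S)).comp
      (e : Lau (Pol S) →+* Pol (Lau S)) = RingHom.id _ := by
    apply RingHom.ext
    intro x
    simp
  have h3 : (e.symm : Pol (Lau S) →+* Lau (Pol S)).comp (cP (Lau S)) =
      MonoidAlgebra.mapRingHom (Multiplicative ℤ) (cP S) := by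
    refine MonoidAlgebra.ringHom_ext (fun a => ?_) (fun z => ?_)
    · change e.symm (MonoidAlgebra.single 1 (MonoidAlgebra.single 1 a)) = _
      rw [MonoidAlgebra.mapRingHom_single]
      exact MonoidAlgebra.commRingEquiv_single_single ..
    · change e.symm (MonoidAlgebra.single 1 (MonoidAlgebra.single z 1)) = _
      rw [MonoidAlgebra.mapRingHom_single]
      exact MonoidAlgebra.commRingEquiv_single_single ..
  rw [h2, F.map_one, h3] at h1
  exact h1

theorem AbFunctor.SurPol.L {S : Type u} [Ring S] (h : F.SurPol (Lau S)) : F.L.SurPol S := by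
  intro y
  obtain ⟨y, rfl⟩ := QuotientAddGroup.mk_surjective y
  obtain ⟨x, hx⟩ := h.lau F y
  refine ⟨QuotientAddGroup.mk x, ?_⟩
  rw [← hx]
  rfl

end Functor

section KZ

variable {S : Type u} [Ring S]

/-- the retraction `S[t] → S`, `t ↦ 1` -/
noncomputable def rP (S : Type u) [Ring S] : Pol S →+* S :=
  MonoidAlgebra.liftNCRingHom (RingHom.id S) (1 : Multiplicative ℕ →* S)
    (fun _ _ => Commute.one_right _)

theorem rP_cP (S : Type u) [Ring S] : (rP S).comp (cP S) = RingHom.id S := by
  apply RingHom.ext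
  intro a
  change MonoidAlgebra.liftNC ((RingHom.id S : S →+* S) : S →+ S)
    ((1 : Multiplicative ℕ →* S) : Multiplicative ℕ → S) (MonoidAlgebra.single 1 a) = a
  rw [MonoidAlgebra.liftNC_single]
  simp

/-- naturality of `K₀(S) → K₁(S[z, z⁻¹])` -/
theorem map_tauG_nat {S T : Type u} [Ring S] [Ring T] (f : S →+* T) (g : Multiplicative ℤ)
    (x : KZero S) :
    KOne.map (MonoidAlgebra.mapRingHom (Multiplicative ℤ) f) (tauG S g x) =
      tauG T g (KZero.map f x) := by
  have h : (KOne.map (MonoidAlgebra.mapRingHom (Multiplicative ℤ) f)).comp (tauG S g) =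
      (tauG T g).comp (KZero.map f) := by
    apply kZero_hom_ext
    intro p
    rw [AddMonoidHom.comp_apply, AddMonoidHom.comp_apply, KZero.map_cls]
    unfold tauG
    rw [tau_cls, tau_cls, map_ks_te _ _ (gU_comm _) p.idem]
    have h1 : (MonoidAlgebra.mapRingHom (Multiplicative ℤ) f).comp (cG S (Multiplicative ℤ)) =
        (cG T (Multiplicative ℤ)).comp f := by
      apply RingHom.ext
      intro a
      change MonoidAlgebra.mapRingHom (Multiplicative ℤ) f (MonoidAlgebra.single 1 a) =
        MonoidAlgebra.single 1 (f a)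
      rw [MonoidAlgebra.mapRingHom_single]
    have h2 : MonoidAlgebra.mapRingHom (Multiplicative ℤ) f
        ((gU S g : (MonoidAlgebra S (Multiplicative ℤ))ˣ) : MonoidAlgebra S (Multiplicative ℤ)) =
        ((gU T g : (MonoidAlgebra T (Multiplicative ℤ))ˣ) :
          MonoidAlgebra T (Multiplicative ℤ)) := by
      change MonoidAlgebra.mapRingHom (Multiplicative ℤ) f (MonoidAlgebra.single g 1) =
        MonoidAlgebra.single g 1
      rw [MonoidAlgebra.mapRingHom_single, map_one]
    rw [h1, h2]
    rfl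
  exact DFunLike.congr_fun h x

theorem surjective_kZero_aux
    (h : Function.Surjective (KOne.map (MonoidAlgebra.mapRingHom (Multiplicative ℤ) (cP S)))) :
    Function.Surjective (KZero.map (cP S)) := by
  intro x
  set y : KZero (Pol S) := x - KZero.map (cP S) (KZero.map (rP S) x) with hy0
  have hy : KZero.map (rP S) y = 0 := by
    rw [hy0, map_sub, ← KZero.map_comp, ← KZero.map_comp, rP_cP, RingHom.id_comp, sub_self]
  obtain ⟨w, hw⟩ := h (tauG (Pol S) (Multiplicative.ofAdd (1 : ℤ)) y)
  have h1 := congrArg (KOne.map (MonoidAlgebra.mapRingHom (Multiplicative ℤ) (rP S))) hw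
  rw [map_tauG_nat, hy, map_zero, ← KOne.map_comp, ← MonoidAlgebra.mapRingHom_comp, rP_cP,
    MonoidAlgebra.mapRingHom_id, KOne.map_id] at h1
  rw [h1, map_zero] at hw
  have h2 := congrArg (Bdry.del (Pol S)) hw
  rw [Bdry.del_tauG, map_zero] at h2
  refine ⟨KZero.map (rP S) x, ?_⟩
  exact (sub_eq_zero.1 h2.symm).symm

theorem surPol_kZero (h : K1Fun.SurPol (Lau S)) : K0.SurPol S :=
  surjective_kZero_aux (h.lau K1Fun)

end KZ

section Rings

/-- group rings of `H` over regular rings -/
def QR (H : Type v) [Group H] (S : Type (max u v)) [Ring S] : Prop :=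
  ∃ (R : Type u) (_ : Ring R), IsRegularRing R ∧ Nonempty (S ≃+* MonoidAlgebra R H)

theorem QR.lau {H : Type v} [Group H] {S : Type (max u v)} [Ring S] (h : QR.{u} H S) :
    QR.{u} H (Lau S) := by
  obtain ⟨R, _, hR, ⟨e⟩⟩ := h
  refine ⟨Lau R, inferInstance, (nice_int hR).reg, ⟨?_⟩⟩
  exact (MonoidAlgebra.mapRingEquiv (Multiplicative ℤ) e).trans MonoidAlgebra.commRingEquiv

theorem QR.nilZ {H : Type v} [Group H] {S : Type (max u v)} [Ring S] (h : QR.{u} H S)
    (hH : TDCl.{u} H) : NilZ S := by
  obtain ⟨R, _, hR, ⟨e⟩⟩ := h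
  refine NilZ.of_equiv e ?_
  intro B _ K ι _ _ N hN
  exact nil_zero K (hH.hered (⊤ : Subgroup H) (⊤ : Subgroup H).subtype
    (Subgroup.subtype_injective _) R hR) N hN

theorem QR.surPol_kOne {H : Type v} [Group H] {S : Type (max u v)} [Ring S] (h : QR.{u} H S)
    (hH : TDCl.{u} H) : K1Fun.SurPol S :=
  (K1Fun.surPol_iff S).2 (surjective_kOne_C (h.nilZ hH))

theorem QR.surPol_kMinus {H : Type v} [Group H] (hH : TDCl.{u} H) (n : ℕ) :
    ∀ {S : Type (max u v)} [Ring S], QR.{u} H S → (KMinus n).SurPol S := by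
  induction n with
  | zero =>
    intro S _ h
    exact surPol_kZero (h.lau.surPol_kOne hH)
  | succ n ih =>
    intro S _ h
    exact (ih h.lau).L (KMinus n)

theorem QR.self {H : Type v} [Group H] {R : Type u} [Ring R] (hR : IsRegularRing R) :
    QR.{u} H (MonoidAlgebra R H) := ⟨R, inferInstance, hR, ⟨RingEquiv.refl _⟩⟩

theorem constantCoeff_C (S : Type u) [Ring S] :
    (Polynomial.constantCoeff : Polynomial S →+* S).comp Polynomial.C = RingHom.id S := by
  apply RingHom.ext
  intro a
  simp

theorem TDCl.bijective_kOne {H : Type v} [Group H] (hH : TDCl.{u} H) {R : Type u} [Ring R]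
    (hR : IsRegularRing R) :
    Function.Bijective (KOne.map (Polynomial.C :
      MonoidAlgebra R H →+* Polynomial (MonoidAlgebra R H))) :=
  ⟨K1Fun.injective_of_retraction _ _ (constantCoeff_C _),
    surjective_kOne_C ((QR.self hR).nilZ hH)⟩

theorem TDCl.bijective_kMinus {H : Type v} [Group H] (hH : TDCl.{u} H) {R : Type u} [Ring R]
    (hR : IsRegularRing R) (n : ℕ) :
    Function.Bijective ((KMinus n).map (Polynomial.C :
      MonoidAlgebra R H →+* Polynomial (MonoidAlgebra R H))) :=
  ⟨(KMinus n).injective_of_retraction _ _ (constantCoeff_C _),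
    ((KMinus n).surPol_iff _).1 (QR.surPol_kMinus hH n (QR.self hR))⟩

end Rings

end Pool.Agent.Lib.MP_c052b4_al
end

section

/-!
# `K_i(S) → K_i(S[X])`, `i ≤ 1`, for the group rings of groups acting on trees
-/

set_option autoImplicit false
set_option linter.unusedSectionVars false

namespace Pool.Agent.Lib.MP_c052b4_al

open Matrix MulAction

universe u v w w'

section Bridge

variable (F : AbFunctor.{max u v}) {R : Type u} [Ring R] {H : Type v} [Group H]

theorem commRing_comp_cP : ((MonoidAlgebra.commRingEquiv : MonoidAlgebra (Pol R) H ≃+*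
      Pol (MonoidAlgebra R H)) : MonoidAlgebra (Pol R) H →+* Pol (MonoidAlgebra R H)).comp
      (MonoidAlgebra.mapRingHom H (cP R)) = cP (MonoidAlgebra R H) := by
  refine MonoidAlgebra.ringHom_ext (fun a => ?_) (fun z => ?_)
  · change MonoidAlgebra.commRingEquiv (MonoidAlgebra.mapRingHom H (cP R)
      (MonoidAlgebra.single 1 a)) = MonoidAlgebra.single 1 (MonoidAlgebra.single 1 a)
    rw [MonoidAlgebra.mapRingHom_single]
    exact MonoidAlgebra.commRingEquiv_single_single ..
  · change MonoidAlgebra.commRingEquiv (MonoidAlgebra.mapRingHom H (cP R)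
      (MonoidAlgebra.single z 1)) = MonoidAlgebra.single 1 (MonoidAlgebra.single z 1)
    rw [MonoidAlgebra.mapRingHom_single]
    exact MonoidAlgebra.commRingEquiv_single_single ..

theorem commRing_symm_comp_cP : ((MonoidAlgebra.commRingEquiv : MonoidAlgebra (Pol R) H ≃+*
      Pol (MonoidAlgebra R H)).symm : Pol (MonoidAlgebra R H) →+* MonoidAlgebra (Pol R) H).comp
      (cP (MonoidAlgebra R H)) = MonoidAlgebra.mapRingHom H (cP R) := by
  rw [← commRing_comp_cP (R := R) (H := H), ← RingHom.comp_assoc]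
  apply RingHom.ext
  intro x
  exact (MonoidAlgebra.commRingEquiv : MonoidAlgebra (Pol R) H ≃+*
      Pol (MonoidAlgebra R H)).symm_apply_apply _

/-- The two ways to put a variable into a group ring. -/
theorem AbFunctor.SurPol.group (h : F.SurPol (MonoidAlgebra R H)) :
    Function.Surjective (F.map (MonoidAlgebra.mapRingHom H (cP R))) := by
  intro y
  let e : MonoidAlgebra (Pol R) H ≃+* Pol (MonoidAlgebra R H) := MonoidAlgebra.commRingEquiv
  obtain ⟨x, hx⟩ := h (F.map (e : MonoidAlgebra (Pol R) H →+* Pol (MonoidAlgebra R H)) y)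
  refine ⟨x, ?_⟩
  have h1 := congrArg (F.map (e.symm : Pol (MonoidAlgebra R H) →+* MonoidAlgebra (Pol R) H)) hx
  rw [F.map_map, F.map_map] at h1
  have h2 : (e.symm : Pol (MonoidAlgebra R H) →+* MonoidAlgebra (Pol R) H).comp
      (e : MonoidAlgebra (Pol R) H →+* Pol (MonoidAlgebra R H)) = RingHom.id _ := by
    apply RingHom.ext
    intro x
    simp
  rw [h2, F.map_one, commRing_symm_comp_cP] at h1
  exact h1

theorem AbFunctor.surPol_of_group
    (h : Function.Surjective (F.map (MonoidAlgebra.mapRingHom H (cP R)))) :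
    F.SurPol (MonoidAlgebra R H) := by
  intro y
  let e : MonoidAlgebra (Pol R) H ≃+* Pol (MonoidAlgebra R H) := MonoidAlgebra.commRingEquiv
  obtain ⟨x, hx⟩ := h (F.map (e.symm : Pol (MonoidAlgebra R H) →+* MonoidAlgebra (Pol R) H) y)
  refine ⟨x, ?_⟩
  have h1 := congrArg (F.map (e : MonoidAlgebra (Pol R) H →+* Pol (MonoidAlgebra R H))) hx
  rw [F.map_map, F.map_map] at h1
  have h2 : (e : MonoidAlgebra (Pol R) H →+* Pol (MonoidAlgebra R H)).comp
      (e.symm : Pol (MonoidAlgebra R H) →+* MonoidAlgebra (Pol R) H) = RingHom.id _ := by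
    apply RingHom.ext
    intro x
    simp
  rw [h2, F.map_one, commRing_comp_cP] at h1
  exact h1

end Bridge

section Main

variable {R : Type u} [Ring R] {G : Type v} [Group G] {V : Type w} {E : Type w'}
    [MulAction G V] [MulAction G E] (O : OTree G V E)

theorem rP_cP_group {H : Type v} [Group H] : (MonoidAlgebra.mapRingHom H (rP R)).comp
    (MonoidAlgebra.mapRingHom H (cP R)) = RingHom.id (MonoidAlgebra R H) := by
  rw [← MonoidAlgebra.mapRingHom_comp, rP_cP, MonoidAlgebra.mapRingHom_id]

theorem inc_map_cP {N : Type v} [Group N] (f : N →* G) : (inc (Pol R) f).comp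
    (MonoidAlgebra.mapRingHom N (cP R)) = (MonoidAlgebra.mapRingHom G (cP R)).comp (inc R f) := by
  have h := MonoidAlgebra.mapRingHom_comp_mapDomainRingHom (f := cP R) (g := f)
  exact h.symm

/-- the retraction, as an endomorphism -/
noncomputable def phP (R : Type u) [Ring R] : Pol R →+* Pol R := (cP R).comp (rP R)

theorem phG_phP {H : Type v} [Group H] : phG (phP R) H =
    (MonoidAlgebra.mapRingHom H (cP R)).comp (MonoidAlgebra.mapRingHom H (rP R)) := by
  rw [phG, phP, MonoidAlgebra.mapRingHom_comp]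

theorem kInv_phP {H : Type v} [Group H] (h : K0.{max u v}.SurPol (MonoidAlgebra R H)) :
    KInv (phP R) H := by
  intro x
  have hs : Function.Surjective (KZero.map (MonoidAlgebra.mapRingHom H (cP R))) := h.group K0
  obtain ⟨y, rfl⟩ := hs x
  rw [phG_phP, ← KZero.map_comp, RingHom.comp_assoc, rP_cP_group, RingHom.comp_id]

include O in
/-- `K₁(R[G]) → K₁(R[G][X])` is onto for groups acting on trees, first form. -/
theorem surPol_of_otree (hR : IsRegularRing R)
    (hV : ∀ v : V, K1Fun.{max u v}.SurPol (MonoidAlgebra R (MulAction.stabilizer G v)))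
    (hE : ∀ e : E, K0.{max u v}.SurPol (MonoidAlgebra R (MulAction.stabilizer G e)))
    {P : Subgroup G → Prop}
    (hmono : ∀ H H' : Subgroup G, H' ≤ H → P H → P H')
    (hD : ∀ H : Subgroup G, P H → HDT.{u} H)
    (hray : ∀ x : ℕ → E ⊕ E, (∀ n, O.fol (x n) (x (n + 1))) → ∃ n, P (fixG G x n)) :
    K1Fun.{max u v}.SurPol (MonoidAlgebra R G) := by
  have hPR : IsRegularRing (Pol R) := hR.polynomial.of_ringEquiv (polIso R)
  apply AbFunctor.surPol_of_group
  intro x
  have hx := kOne_mem_of_otree_rayT (phP R) O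
    (KOne.map (MonoidAlgebra.mapRingHom G (cP R))).range (fun v y => ?_) (fun y => ?_)
    (fun e => kInv_phP (hE e)) hmono (fun H hH => hD H hH _ hPR) hray x
  · exact hx
  · have hs : Function.Surjective (KOne.map (MonoidAlgebra.mapRingHom
        (MulAction.stabilizer G v) (cP R))) := (hV v).group K1Fun
    obtain ⟨z, rfl⟩ := hs y
    refine ⟨KOne.map (inc R (MulAction.stabilizer G v).subtype) z, ?_⟩
    rw [← KOne.map_comp, ← KOne.map_comp, inc_map_cP]
  · refine ⟨KOne.map (MonoidAlgebra.mapRingHom G (rP R)) y, ?_⟩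
    rw [phG_phP, ← KOne.map_comp]

end Main

/-- `K₁(R[G]) → K₁(R[G][X])` is onto for all regular rings `R`. -/
def NV1 (G : Type v) [Group G] : Prop :=
  ∀ (R : Type u) [Ring R], IsRegularRing R → K1Fun.{max u v}.SurPol (MonoidAlgebra R G)

theorem TDCl.nv1 {G : Type v} [Group G] (h : TDCl.{u} G) : NV1.{u} G := fun _ _ hR =>
  (QR.self hR).surPol_kOne h

theorem surPol_of_ringEquiv (F : AbFunctor.{u}) {S T : Type u} [Ring S] [Ring T] (e : S ≃+* T)
    (h : F.SurPol T) : F.SurPol S := by
  intro y
  let e' : Pol S ≃+* Pol T := MonoidAlgebra.mapRingEquiv (Multiplicative ℕ) e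
  obtain ⟨x, hx⟩ := h (F.map (e' : Pol S →+* Pol T) y)
  refine ⟨F.map (e.symm : T →+* S) x, ?_⟩
  have h1 := congrArg (F.map (e'.symm : Pol T →+* Pol S)) hx
  rw [F.map_map, F.map_map] at h1
  have h2 : (e'.symm : Pol T →+* Pol S).comp (e' : Pol S →+* Pol T) = RingHom.id _ := by
    apply RingHom.ext
    intro x
    simp
  have h3 : (e'.symm : Pol T →+* Pol S).comp (cP T) = (cP S).comp (e.symm : T →+* S) := by
    apply RingHom.ext
    intro x
    change e'.symm (MonoidAlgebra.single 1 x) = MonoidAlgebra.single 1 (e.symm x)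
    rw [RingEquiv.symm_apply_eq]
    change _ = MonoidAlgebra.mapRingEquiv (Multiplicative ℕ) e _
    simp
  rw [h2, F.map_one, h3] at h1
  rw [F.map_map]
  exact h1

theorem NV1.qr {G : Type v} [Group G] (hG : NV1.{u} G) {S : Type (max u v)} [Ring S]
    (h : QR.{u} G S) : K1Fun.{max u v}.SurPol S := by
  obtain ⟨R, _, hR, ⟨e⟩⟩ := h
  exact surPol_of_ringEquiv K1Fun e (hG R hR)

theorem NV1.kMinus {G : Type v} [Group G] (hG : NV1.{u} G) (n : ℕ) :
    ∀ {S : Type (max u v)} [Ring S], QR.{u} G S → (KMinus n).SurPol S := by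
  induction n with
  | zero =>
    intro S _ h
    exact surPol_kZero (hG.qr h.lau)
  | succ n ih =>
    intro S _ h
    exact (ih h.lau).L (KMinus n)

theorem NV1.bijective_kOne {H : Type v} [Group H] (hH : NV1.{u} H) {R : Type u} [Ring R]
    (hR : IsRegularRing R) :
    Function.Bijective (KOne.map (Polynomial.C :
      MonoidAlgebra R H →+* Polynomial (MonoidAlgebra R H))) :=
  ⟨K1Fun.injective_of_retraction _ _ (constantCoeff_C _),
    (K1Fun.surPol_iff _).1 (hH R hR)⟩

theorem NV1.bijective_kMinus {H : Type v} [Group H] (hH : NV1.{u} H) {R : Type u} [Ring R]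
    (hR : IsRegularRing R) (n : ℕ) :
    Function.Bijective ((KMinus n).map (Polynomial.C :
      MonoidAlgebra R H →+* Polynomial (MonoidAlgebra R H))) :=
  ⟨(KMinus n).injective_of_retraction _ _ (constantCoeff_C _),
    ((KMinus n).surPol_iff _).1 (hH.kMinus n (QR.self hR))⟩

theorem nv1_of_bijective {H : Type v} [Group H] (h : ∀ (R : Type u) [Ring R], IsRegularRing R →
    Function.Bijective (KOne.map (Polynomial.C :
      MonoidAlgebra R H →+* Polynomial (MonoidAlgebra R H)))) : NV1.{u} H :=
  fun R _ hR => (K1Fun.surPol_iff _).2 (h R hR).2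

/-- **`K₁(R[G]) → K₁(R[G][X])` is onto for groups acting on trees.** -/
theorem nv1_of_tree_rayT {G : Type v} [Group G] {V : Type w} [MulAction G V] (T : TreeAction G V)
    (hray : RayCondT.{u} T) (hv : ∀ v : V, NV1.{u} (stabilizer G v))
    (he : ∀ x y : V, T.graph.Adj x y → ∀ (R : Type u) [Ring R], IsRegularRing R →
      K0.{max u v}.SurPol (MonoidAlgebra R ↥(stabilizer G x ⊓ stabilizer G y))) : NV1.{u} G := by
  intro R _ hR
  refine surPol_of_otree T.otree hR (fun v => hv v R hR) (fun e => ?_)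
    (P := fun H => TDCl.{u} H) (fun H H' hH h => TDCl.mono H H' hH h) (fun H h => h.hd) ?_
  · rw [T.stabilizer_edge]
    exact he _ _ e.adj R hR
  · intro x hx
    have h1 : ∀ n, T.otree.org (x (n + 1)) = (T.otree.dd (x n)).1.2 := by
      intro n
      rw [OTree.org_eq]
      exact (hx n).1
    obtain ⟨n, hn⟩ := hray (fun n => T.otree.org (x n)) (fun n => by
      rw [h1, OTree.org_eq]
      exact (T.otree.dd (x n)).2) (fun n => by
      rw [h1, OTree.org_eq]
      exact (hx n).2)
    refine ⟨n, TDCl.mono _ _ ?_ hn⟩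
    unfold fixG
    refine iInf_mono fun i => ?_
    intro g hg
    rw [mem_stabilizer_iff] at hg ⊢
    rw [← OTree.org_smul, hg]

end Pool.Agent.Lib.MP_c052b4_al
end
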